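import Pool.Agent.Lib.GMV.Model

/-!
# GMV.Logs: from the weighted count to the count (paper 4.6)

PROOF. `z = ⌈4X/Q⌉`. For `n ≥ z`: `n + t i ∈ [4X/Q, 2X]`, so `vw (2X) Q (n + t i) = 1` (`x Q/(2X) - 1 ≥ 1`, `2Q + 1 - xQ/(2X) ≥ 1`) and
`W = lp`. `θ n = ∑_{m ≤ n} ∏ W(m + t i) = S n + δ n`, `|δ n| ≤ D`. `g n = ∏ 1/log(n + t i)` is nonincreasing for `n ≥ 2`. For `z < n ≤ y`:
`1[all n + t i prime] = g n (θ n - θ(n-1))`, so `#{z < n ≤ y} - S ∑_{z<n≤y} g n = ∑ g n (δ n - δ (n-1))`, absolutely `≤ 2 D g z`-type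
(Abel), `g z ≤ (log z)^(-k) ≤ 2^k (log X)^(-k)` because `z ≥ √X` (`Q ≤ √X`). The `n ≤ z`: count `≤ z`, `S ∑_{2≤n≤z} g n ≤ S z (log 2)^(-k)`, and
`z ≤ 4X/Q + 1 ≤ 5X/Q`.
-/

set_option autoImplicit false

open Finset Filter

namespace Pool.Agent.Lib.GMV

open Pool.Agent.HLB Pool.Agent.HLT Pool.Agent.HLR

namespace LogsAux

/-- `∏ 1/log(n + t i)`. -/
noncomputable def g {k : ℕ} (t : Fin k → ℕ) (n : ℕ) : ℝ := ∏ i, (Real.log ((n : ℝ) + t i))⁻¹

lemma log_pos' {n t : ℕ} (hn : 2 ≤ n) : 0 < Real.log ((n : ℝ) + t) := by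
  apply Real.log_pos
  have h1 : (2 : ℝ) ≤ n := by exact_mod_cast hn
  have h2 : (0 : ℝ) ≤ t := Nat.cast_nonneg _
  linarith

lemma g_nonneg {k : ℕ} (t : Fin k → ℕ) {n : ℕ} (hn : 2 ≤ n) : 0 ≤ g t n :=
  prod_nonneg fun _ _ => (inv_pos.mpr (log_pos' hn)).le

lemma g_anti {k : ℕ} (t : Fin k → ℕ) {m n : ℕ} (hm : 2 ≤ m) (hmn : m ≤ n) : g t n ≤ g t m := by
  unfold g
  apply Finset.prod_le_prod
  · intro i _
    exact (inv_pos.mpr (log_pos' (hm.trans hmn))).le
  · intro i _
    apply inv_anti₀ (log_pos' hm)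
    apply Real.log_le_log
    · have h1 : (2 : ℝ) ≤ m := by exact_mod_cast hm
      have h2 : (0 : ℝ) ≤ t i := Nat.cast_nonneg _
      linarith
    · have : (m : ℝ) ≤ n := by exact_mod_cast hmn
      linarith

lemma g_le {k : ℕ} (t : Fin k → ℕ) {n : ℕ} (hn : 2 ≤ n) {L : ℝ} (hL : 0 < L)
    (hLn : L ≤ Real.log n) : g t n ≤ (L⁻¹) ^ k := by
  unfold g
  calc ∏ i, (Real.log ((n : ℝ) + t i))⁻¹ ≤ ∏ _i : Fin k, L⁻¹ := by
        apply Finset.prod_le_prod
        · intro i _
          exact (inv_pos.mpr (log_pos' hn)).le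
        · intro i _
          apply inv_anti₀ hL
          apply hLn.trans
          apply Real.log_le_log
          · have h1 : (2 : ℝ) ≤ n := by exact_mod_cast hn
            linarith
          · have h2 : (0 : ℝ) ≤ t i := Nat.cast_nonneg _
            linarith
    _ = (L⁻¹) ^ k := by simp

/-- Abel summation. -/
lemma abel (g b d : ℕ → ℝ) (D : ℝ) (z : ℕ) (N : ℕ) (hb : ∀ n, b (n + 1) = d (n + 1) - d n)
    (hd : ∀ n, n ≤ N → |d n| ≤ D) (hg : ∀ m n, z ≤ m → m ≤ n → g n ≤ g m)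
    (hg0 : ∀ n, z ≤ n → 0 ≤ g n) :
    ∀ y, z ≤ y → y ≤ N → |∑ n ∈ Ioc z y, g n * b n| ≤ 2 * D * g z := by
  intro y hzy hyN
  have key : ∀ y, z ≤ y → y ≤ N →
      |∑ n ∈ Ioc z y, g n * b n - g y * d y + g z * d z| ≤ D * (g z - g y) := by
    intro y hzy
    induction y, hzy using Nat.le_induction with
    | base =>
      intro _
      simp
    | succ y hzy ih =>
      intro hyN
      have ih' := ih (by omega)
      rw [← Finset.insert_Ioc_right_eq_Ioc_add_one hzy, sum_insert (by simp), hb y]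
      have e : g (y + 1) * (d (y + 1) - d y) + ∑ n ∈ Ioc z y, g n * b n - g (y + 1) * d (y + 1) +
          g z * d z = (∑ n ∈ Ioc z y, g n * b n - g y * d y + g z * d z) +
          (g y - g (y + 1)) * d y := by ring
      rw [e]
      have h1 : 0 ≤ g y - g (y + 1) := sub_nonneg.mpr (hg _ _ hzy (Nat.le_succ _))
      calc _ ≤ |∑ n ∈ Ioc z y, g n * b n - g y * d y + g z * d z| + |(g y - g (y + 1)) * d y| :=
            abs_add_le _ _
        _ ≤ D * (g z - g y) + (g y - g (y + 1)) * D := by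
            apply add_le_add ih'
            rw [abs_mul, abs_of_nonneg h1]
            exact mul_le_mul_of_nonneg_left (hd _ (by omega)) h1
        _ = D * (g z - g (y + 1)) := by ring
  have h := key y hzy hyN
  have h1 := hd y hyN
  have h2 := hd z (hzy.trans hyN)
  have h3 : |g y * d y| ≤ D * g y := by
    rw [abs_mul, abs_of_nonneg (hg0 y hzy), mul_comm]
    exact mul_le_mul_of_nonneg_right h1 (hg0 y hzy)
  have h4 : |g z * d z| ≤ D * g z := by
    rw [abs_mul, abs_of_nonneg (hg0 z le_rfl), mul_comm]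
    exact mul_le_mul_of_nonneg_right h2 (hg0 z le_rfl)
  rw [abs_le] at h h3 h4 ⊢
  constructor <;> linarith [h.1, h.2, h3.1, h3.2, h4.1, h4.2]

end LogsAux

open LogsAux

theorem logs (k : ℕ) (hk : 1 ≤ k) : ∃ C : ℝ, 0 < C ∧ ∀ (X Q : ℕ) (t : Fin k → ℕ) (S D : ℝ),
    16 ≤ X → 4 ≤ Q → (Q : ℝ) ^ 2 ≤ X → (∀ i, t i ≤ X) → 0 ≤ S → 0 ≤ D →
    (∀ y : ℕ, y ≤ X → |∑ n ∈ Icc 1 y, ∏ i, W (2 * X) Q (n + t i) - S * y| ≤ D) →
    ∀ y : ℕ, y ≤ X →
    |(((Icc 1 y).filter (fun n => ∀ i, (n + t i).Prime)).card : ℝ) -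
      S * ∑ n ∈ Icc 2 y, ∏ i, (Real.log (n + t i))⁻¹| ≤
      C * (D / Real.log X ^ k + (1 + S) * X / Q) := by
  have hl2 : 0 < Real.log 2 := Real.log_pos (by norm_num)
  have hl2' : 1 ≤ (Real.log 2)⁻¹ := by
    rw [one_le_inv₀ hl2]
    have := Real.log_two_lt_d9
    linarith
  have hA : 1 ≤ ((Real.log 2)⁻¹) ^ k := one_le_pow₀ hl2'
  set A : ℝ := ((Real.log 2)⁻¹) ^ k with hAdef
  refine ⟨2 * 2 ^ k + 5 * A, by positivity, ?_⟩
  intro X Q t S D hX hQ hQX ht hS hD hyp y hy
  have hXR : (16 : ℝ) ≤ X := by exact_mod_cast hX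
  have hQR : (4 : ℝ) ≤ Q := by exact_mod_cast hQ
  have hX0 : (0 : ℝ) < X := by linarith
  have hQ0 : (0 : ℝ) < Q := by linarith
  have hXQ : (Q : ℝ) ≤ X / Q := by
    rw [le_div_iff₀ hQ0]
    nlinarith
  have hlX : 0 < Real.log X := Real.log_pos (by linarith)
  set z : ℕ := ⌈4 * (X : ℝ) / Q⌉₊ with hz
  have hz1 : 4 * (X : ℝ) / Q ≤ z := Nat.le_ceil _
  have hz2 : (z : ℝ) ≤ 5 * (X / Q) := by
    have h1 : (z : ℝ) < 4 * (X : ℝ) / Q + 1 := Nat.ceil_lt_add_one (by positivity)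
    have h2 : 4 * (X : ℝ) / Q = 4 * (X / Q) := by ring
    rw [h2] at h1
    linarith
  have hzQ : 4 * (Q : ℝ) ≤ z := by
    have h2 : 4 * (X : ℝ) / Q = 4 * (X / Q) := by ring
    rw [h2] at hz1
    linarith
  have hz16 : 2 ≤ z := by
    have : (2 : ℝ) ≤ z := by linarith
    exact_mod_cast this
  -- `log z ≥ (log X) / 2`
  have hlz : Real.log X / 2 ≤ Real.log z := by
    have hz0 : (0 : ℝ) < z := by linarith
    have h1 : (X : ℝ) ≤ (z : ℝ) ^ 2 := by
      have h3 : (X : ℝ) / Q ≤ z := by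
        have h2 : 4 * (X : ℝ) / Q = 4 * (X / Q) := by ring
        rw [h2] at hz1
        linarith
      have h4 : (X : ℝ) = X / Q * Q := by field_simp
      have h5 : (Q : ℝ) ≤ z := by linarith
      rw [h4, sq]
      exact mul_le_mul h3 h5 hQ0.le hz0.le
    have h2 := Real.log_le_log hX0 h1
    rw [Real.log_pow] at h2
    push_cast at h2
    linarith
  have hgz : g t z ≤ 2 ^ k / Real.log X ^ k := by
    have h := g_le t hz16 (L := Real.log X / 2) (by positivity) hlz
    have e : (Real.log X / 2)⁻¹ ^ k = 2 ^ k / Real.log X ^ k := by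
      rw [inv_div, div_pow]
    rw [e] at h
    exact h
  -- the sum of `g` over small `n`
  have hgs : ∀ m : ℕ, ∑ n ∈ Icc 2 m, g t n ≤ m * A := by
    intro m
    calc ∑ n ∈ Icc 2 m, g t n ≤ ∑ _n ∈ Icc 2 m, A := by
          apply sum_le_sum
          intro n hn
          rw [mem_Icc] at hn
          apply g_le t hn.1 hl2
          apply Real.log_le_log (by norm_num)
          exact_mod_cast hn.1
      _ = ((Icc 2 m).card : ℝ) * A := by rw [sum_const, nsmul_eq_mul]
      _ ≤ m * A := by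
          apply mul_le_mul_of_nonneg_right _ (by positivity)
          rw [Nat.card_Icc]
          exact_mod_cast (by omega : m + 1 - 2 ≤ m)
  have hgs0 : ∀ m : ℕ, 0 ≤ ∑ n ∈ Icc 2 m, g t n := by
    intro m
    apply sum_nonneg
    intro n hn
    rw [mem_Icc] at hn
    exact g_nonneg t hn.1
  have hfold : ∑ n ∈ Icc 2 y, ∏ i, (Real.log (n + t i))⁻¹ = ∑ n ∈ Icc 2 y, g t n := rfl
  rw [hfold]
  have hT : 0 ≤ D / Real.log X ^ k := by positivity
  have hU : 0 ≤ (X : ℝ) / Q := by positivity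
  -- the small part
  have small : ∀ m : ℕ, m ≤ z →
      |(((Icc 1 m).filter (fun n => ∀ i, (n + t i).Prime)).card : ℝ) -
        S * ∑ n ∈ Icc 2 m, g t n| ≤ 5 * A * ((1 + S) * X / Q) := by
    intro m hm
    have hmR : (m : ℝ) ≤ z := by exact_mod_cast hm
    have h1 : (((Icc 1 m).filter (fun n => ∀ i, (n + t i).Prime)).card : ℝ) ≤ z := by
      refine le_trans ?_ hmR
      have := Finset.card_filter_le (Icc 1 m) (fun n => ∀ i, (n + t i).Prime)
      rw [Nat.card_Icc] at this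
      exact_mod_cast (by omega : ((Icc 1 m).filter (fun n => ∀ i, (n + t i).Prime)).card ≤ m)
    have h2 : S * ∑ n ∈ Icc 2 m, g t n ≤ S * (z * A) := by
      apply mul_le_mul_of_nonneg_left _ hS
      exact (hgs m).trans (mul_le_mul_of_nonneg_right hmR (by positivity))
    have h3 : 0 ≤ S * ∑ n ∈ Icc 2 m, g t n := mul_nonneg hS (hgs0 m)
    have h4 : (0 : ℝ) ≤ (((Icc 1 m).filter (fun n => ∀ i, (n + t i).Prime)).card : ℝ) :=
      Nat.cast_nonneg _
    have h5 : 5 * A * ((1 + S) * X / Q) = 5 * (X / Q) * A + S * (5 * (X / Q) * A) := by ring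
    rw [h5]
    have h6 : (z : ℝ) ≤ 5 * (X / Q) * A := by
      refine hz2.trans ?_
      nlinarith
    have h7 : S * (z * A) ≤ S * (5 * (X / Q) * A) := by
      apply mul_le_mul_of_nonneg_left _ hS
      exact mul_le_mul_of_nonneg_right hz2 (by positivity)
    have h8 : 0 ≤ S * (5 * (X / Q) * A) := by positivity
    have h9 : 0 ≤ 5 * (X / Q) * A := by positivity
    rw [abs_le]
    constructor <;> linarith
  have hfin : 5 * A * ((1 + S) * X / Q) ≤
      (2 * 2 ^ k + 5 * A) * (D / Real.log X ^ k + (1 + S) * X / Q) := by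
    have h1 : 0 ≤ (1 + S) * X / Q := by positivity
    have h2 : (0 : ℝ) ≤ 2 * 2 ^ k := by positivity
    have h3 : (0 : ℝ) ≤ 5 * A := by positivity
    nlinarith [mul_nonneg h2 hT, mul_nonneg h2 h1, mul_nonneg h3 hT]
  rcases le_or_gt y z with hyz | hyz
  · exact (small y hyz).trans hfin
  -- the large part
  set a : ℕ → ℝ := fun n => ∏ i, W (2 * X) Q (n + t i) with ha
  set d : ℕ → ℝ := fun n => ∑ m ∈ Icc 1 n, a m - S * n with hd
  have hab := abel (g t) (fun n => a n - S) d D z X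
    (by
      intro n
      simp only [hd]
      rw [← Finset.insert_Icc_right_eq_Icc_add_one (by omega), sum_insert (by simp)]
      push_cast
      ring)
    (fun n hn => hyp n hn)
    (fun m n hm hmn => g_anti t (hz16.trans hm) hmn)
    (fun n hn => g_nonneg t (hz16.trans hn)) y hyz.le hy
  have hind : ∀ n ∈ Ioc z y, g t n * a n = if (∀ i, (n + t i).Prime) then 1 else 0 := by
    intro n hn
    rw [mem_Ioc] at hn
    have hn2 : 2 ≤ n := hz16.trans hn.1.le
    have hv : ∀ i, vw (2 * X) Q ((n + t i : ℕ) : ℝ) = 1 := by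
      intro i
      have h1 : (z : ℝ) ≤ ((n + t i : ℕ) : ℝ) := by
        exact_mod_cast hn.1.le.trans (Nat.le_add_right _ _)
      have h2 : ((n + t i : ℕ) : ℝ) ≤ 2 * X := by
        have : n + t i ≤ 2 * X := by
          have := ht i
          omega
        exact_mod_cast this
      unfold vw
      push_cast at h1 h2 ⊢
      have h3 : 2 ≤ ((n : ℝ) + t i) * Q / (2 * X) := by
        rw [le_div_iff₀ (by positivity)]
        have h4 : 4 * (X : ℝ) / Q ≤ (n : ℝ) + t i := hz1.trans h1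
        rw [div_le_iff₀ hQ0] at h4
        linarith
      have h5 : ((n : ℝ) + t i) * Q / (2 * X) ≤ Q := by
        rw [div_le_iff₀ (by positivity)]
        nlinarith
      rw [min_eq_left, max_eq_right (by norm_num)]
      rw [le_min_iff]
      constructor <;> linarith
    have ha' : a n = ∏ i, HLT.lp (n + t i) := by
      simp only [ha]
      apply prod_congr rfl
      intro i _
      unfold W
      rw [hv i, one_mul]
    rw [ha']
    unfold g
    rw [← prod_mul_distrib]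
    split_ifs with hp
    · apply prod_eq_one
      intro i _
      unfold HLT.lp
      rw [if_pos (hp i)]
      push_cast
      exact inv_mul_cancel₀ (log_pos' hn2).ne'
    · push Not at hp
      obtain ⟨i, hi⟩ := hp
      apply prod_eq_zero (mem_univ i)
      unfold HLT.lp
      rw [if_neg hi, mul_zero]
  have hsum : ∑ n ∈ Ioc z y, g t n * (a n - S) =
      (((Ioc z y).filter (fun n => ∀ i, (n + t i).Prime)).card : ℝ) - S * ∑ n ∈ Ioc z y, g t n := by
    rw [card_filter]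
    push_cast
    rw [mul_sum, ← sum_sub_distrib]
    apply sum_congr rfl
    intro n hn
    rw [mul_sub, hind n hn]
    ring
  have hsplit1 : (((Icc 1 y).filter (fun n => ∀ i, (n + t i).Prime)).card : ℝ) =
      (((Icc 1 z).filter (fun n => ∀ i, (n + t i).Prime)).card : ℝ) +
      (((Ioc z y).filter (fun n => ∀ i, (n + t i).Prime)).card : ℝ) := by
    have e : Icc 1 y = Icc 1 z ∪ Ioc z y := by
      ext n
      simp only [mem_Icc, mem_union, mem_Ioc]
      omega
    rw [e, filter_union, card_union_of_disjoint]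
    · push_cast; ring
    · apply Finset.disjoint_filter_filter
      rw [Finset.disjoint_left]
      intro n h1 h2
      rw [mem_Icc] at h1
      rw [mem_Ioc] at h2
      omega
  have hsplit2 : ∑ n ∈ Icc 2 y, g t n = ∑ n ∈ Icc 2 z, g t n + ∑ n ∈ Ioc z y, g t n := by
    have e : Icc 2 y = Icc 2 z ∪ Ioc z y := by
      ext n
      simp only [mem_Icc, mem_union, mem_Ioc]
      omega
    rw [e, sum_union]
    rw [Finset.disjoint_left]
    intro n h1 h2
    rw [mem_Icc] at h1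
    rw [mem_Ioc] at h2
    omega
  have hsm := small z le_rfl
  rw [hsplit1, hsplit2]
  rw [hsum] at hab
  have h2D : 2 * D * g t z ≤ 2 * 2 ^ k * (D / Real.log X ^ k) := by
    calc 2 * D * g t z ≤ 2 * D * (2 ^ k / Real.log X ^ k) :=
          mul_le_mul_of_nonneg_left hgz (by positivity)
      _ = 2 * 2 ^ k * (D / Real.log X ^ k) := by ring
  have hfin2 : 2 * 2 ^ k * (D / Real.log X ^ k) + 5 * A * ((1 + S) * X / Q) ≤
      (2 * 2 ^ k + 5 * A) * (D / Real.log X ^ k + (1 + S) * X / Q) := by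
    have h1 : 0 ≤ (1 + S) * X / Q := by positivity
    have h2 : (0 : ℝ) ≤ 2 * 2 ^ k := by positivity
    have h3 : (0 : ℝ) ≤ 5 * A := by positivity
    nlinarith [mul_nonneg h2 hT, mul_nonneg h2 h1, mul_nonneg h3 hT]
  have hab' := hab.trans h2D
  rw [abs_le] at hsm hab' ⊢
  constructor <;> linarith [hsm.1, hsm.2, hab'.1, hab'.2]

end Pool.Agent.Lib.GMV
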