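import Pool.Agent.Lib.GMV.FreeY

/-!
# GMV.Norm: all `y`, normalised tuples (paper 4.6)

PROOF. `freeY` with `k = r+1` at `(2X, Q)` (`Rg c X Q → Rg c (2X) Q`? NO: the lower bound for `2X` is `exp(√(log 2X)/2) ≤ Q`; therefore the
hypothesis here is `Rg` at `2X`). Grid: `y_j = ⌊j · 2X/G⌋`, `0 ≤ j ≤ G = ⌈Q^(1/40)⌉`: the union of the exceptional sets has at most
`(G+1)(2X)^k Q^(-1/2)` elements. For `y_j ≤ y ≤ y_{j+1}` monotonicity of `∑_{n ≤ y} ∏ W` (`W ≥ 0`) gives the formula for `y` with an extra error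
`SI h · 2X/G + SI h ≤ X Q^(-1/50)`-type (`sz_le`, `sps`: `SI h ≤ C log^k X`). This is for all injective `h ∈ [1,2X]^k` outside a set `F` of at most
`X^k Q^(-2/5)` elements. Normalised: `H = ⌊X Q^(-1/10)⌋`; `Bad` = the `a ∈ [0,X]^r` with `cons 0 a` injective such that for all `h1 ∈ [1,H]` the tuple
`(h1 + cons 0 a i)_i ∈ F`; the map `(h1, a) ↦ h` is injective so `|Bad| H ≤ |F|`, `|Bad| ≤ X^r Q^(-1/5)`. For `a ∉ Bad` one good `h1`:
`∑_{n ≤ y} ∏ W(n + a_i)` differs from `∑_{n' ≤ y - h1} ∏ W(n' + h1 + a_i)` (`y > h1`; otherwise trivial) by the `n ≤ h1`, at most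
`H (log(4X))^k ≤ X Q^(-1/20)`; `SI`, `Gq` are shift invariant.
-/

set_option autoImplicit false

open Finset Filter

namespace Pool.Agent.Lib.GMV

open Pool.Agent.HLB Pool.Agent.HLT Pool.Agent.HLR

/-- The tuple `(0, a_1, ..., a_r)`. -/
def c0 {r : ℕ} (a : Fin r → ℕ) : Fin (r + 1) → ℕ := Fin.cons 0 a

namespace NormAux

/-- Growth. -/
theorem asy (n : ℕ) (A : ℝ) : ∃ Q0 : ℝ, 3 ≤ Q0 ∧ ∀ Q : ℝ, Q0 ≤ Q →
    A * Real.log Q ^ n ≤ Q ^ (1 / 1000 : ℝ) := by
  have h := (isLittleO_log_rpow_rpow_atTop (n : ℝ) (by norm_num : (0:ℝ) < 1/1000))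
  have h2 := h.bound (show (0:ℝ) < 1 / (|A| + 1) by positivity)
  obtain ⟨Q1, hQ1⟩ := (Filter.eventually_atTop.mp h2)
  refine ⟨max Q1 3, le_max_right _ _, fun Q hQ => ?_⟩
  have h3 := hQ1 Q ((le_max_left _ _).trans hQ)
  have hQ3 : 3 ≤ Q := (le_max_right _ _).trans hQ
  have hl : 0 ≤ Real.log Q := Real.log_nonneg (by linarith)
  rw [Real.rpow_natCast, Real.norm_of_nonneg (by positivity),
    Real.norm_of_nonneg (by positivity)] at h3
  calc A * Real.log Q ^ n ≤ (|A| + 1) * Real.log Q ^ n := by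
        gcongr; linarith [le_abs_self A]
    _ ≤ (|A| + 1) * (1 / (|A| + 1) * Q ^ (1/1000 : ℝ)) := by gcongr
    _ = Q ^ (1/1000:ℝ) := by field_simp

/-- Large `X` forces large `Q`. -/
theorem thr (Q0 : ℝ) : ∃ X0 : ℕ, ∀ X : ℕ, X0 ≤ X →
    Q0 ≤ Real.exp (Real.sqrt (Real.log X) / 2) := by
  have h1 : Tendsto (fun X : ℕ => Real.exp (Real.sqrt (Real.log X) / 2)) atTop atTop :=
    Real.tendsto_exp_atTop.comp ((Real.tendsto_sqrt_atTop.comp
      (Real.tendsto_log_atTop.comp tendsto_natCast_atTop_atTop)).atTop_div_const (by norm_num))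
  obtain ⟨X0, hX0⟩ := Filter.eventually_atTop.mp (h1.eventually_ge_atTop Q0)
  exact ⟨X0, hX0⟩

/-- The singular series is small. -/
theorem si_le (k : ℕ) (hk : 1 ≤ k) : ∃ C : ℝ, 0 < C ∧ ∃ X0 : ℕ, ∀ X Q : ℕ, X0 ≤ X → Rg 1 X Q →
    2 ≤ Q → ∀ h ∈ Tup k (range (X + 1)), Function.Injective h →
      SI h ≤ C * Real.log Q ^ k := by
  obtain ⟨C, hC, hz⟩ := sz_le k
  obtain ⟨X0, hX0⟩ := sps k hk
  refine ⟨2 * C * (8 * k : ℕ) ^ k, by positivity, X0, fun X Q hX hR hQ h hh hi => ?_⟩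
  have h1 := hX0 X Q hX hR h hh hi
  have hQ2 : (2 : ℝ) ≤ Q := by exact_mod_cast hQ
  have h2 := hz (Q ^ (8 * k)) h (by
    calc 2 ≤ Q := hQ
      _ = Q ^ 1 := (pow_one Q).symm
      _ ≤ Q ^ (8 * k) := Nat.pow_le_pow_right (by omega) (by omega))
  have h3 : Real.log ((Q ^ (8 * k) : ℕ) : ℝ) = ((8 * k : ℕ) : ℝ) * Real.log Q := by
    rw [Nat.cast_pow, Real.log_pow]
  rw [h3, mul_pow] at h2
  have h4 : 0 ≤ SI h := SI_nonneg h hi
  have h5 : SI h / Q ≤ SI h / 2 := by gcongr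
  have h6 := (abs_le.mp h1).1
  nlinarith

/-- From the grid to all `y`. -/
theorem grid (S : ℕ → ℝ) (hS : Monotone S) (σ e : ℝ) (hσ : 0 ≤ σ) (G N : ℕ) (hG : 1 ≤ G)
    (hN : 1 ≤ N)
    (h : ∀ j ≤ G, |S (j * N / G) - σ * ((j * N / G : ℕ) : ℝ)| ≤ e) (y : ℕ) (hy : y ≤ N) :
    |S y - σ * y| ≤ e + σ * (N / G + 1) := by
  have hG0 : (0 : ℝ) < G := by exact_mod_cast hG
  have hstep : ∀ j : ℕ, (((j + 1) * N / G : ℕ) : ℝ) - ((j * N / G : ℕ) : ℝ) ≤ (N : ℝ) / G + 1 := by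
    intro j
    have h1 : (((j + 1) * N / G : ℕ) : ℝ) ≤ (((j + 1) * N : ℕ) : ℝ) / G := Nat.cast_div_le
    have h2 : (((j * N : ℕ) : ℝ)) / G < ((j * N / G : ℕ) : ℝ) + 1 := by
      rw [div_lt_iff₀ hG0]
      have := Nat.lt_div_mul_add (a := j * N) (b := G) (by omega)
      have h3 : j * N < (j * N / G + 1) * G := by
        rw [add_mul, one_mul]; exact this
      exact_mod_cast h3
    have h3 : (((j + 1) * N : ℕ) : ℝ) / G = ((j * N : ℕ) : ℝ) / G + N / G := by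
      push_cast
      ring
    linarith
  set j := y * G / N with hj
  have hj1 : j ≤ G := by
    rw [hj]
    apply Nat.div_le_of_le_mul
    nlinarith
  have hjy : j * N / G ≤ y := by
    apply Nat.div_le_of_le_mul
    calc j * N ≤ y * G := Nat.div_mul_le_self _ _
      _ = G * y := mul_comm _ _
  have ha := abs_le.mp (h j hj1)
  have hm1 := hS hjy
  rcases Nat.lt_or_ge j G with hlt | hge
  · have hb := abs_le.mp (h (j + 1) hlt)
    have hy2 : y ≤ (j + 1) * N / G := by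
      rw [Nat.le_div_iff_mul_le (by omega)]
      have := Nat.lt_div_mul_add (a := y * G) (b := N) (by omega)
      rw [← hj] at this
      nlinarith
    have hm2 := hS hy2
    have hs := hstep j
    have hy1r : ((j * N / G : ℕ) : ℝ) ≤ y := by exact_mod_cast hjy
    have hy2r : (y : ℝ) ≤ (((j + 1) * N / G : ℕ) : ℝ) := by exact_mod_cast hy2
    rw [abs_le]
    constructor <;> nlinarith
  · have hjG : j = G := le_antisymm hj1 hge
    have hyN : N ≤ y := by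
      rw [hjG] at hj
      have h1 : G * N ≤ y * G := by
        rw [hj]
        have : y * G / N * N ≤ y * G := Nat.div_mul_le_self _ _
        rw [← hj] at this ⊢
        exact this
      nlinarith
    have hyN' : y = N := le_antisymm hy hyN
    have h1 : j * N / G = y := by
      rw [hjG, hyN', Nat.mul_div_cancel_left _ (by omega)]
    rw [h1] at ha
    have : 0 ≤ σ * (N / G + 1) := by positivity
    rw [abs_le]
    constructor <;> linarith

/-- Monotone sums. -/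
theorem mono_sum (f : ℕ → ℝ) (hf : ∀ n, 0 ≤ f n) : Monotone fun y => ∑ n ∈ Icc 1 y, f n := by
  intro a b hab
  exact Finset.sum_le_sum_of_subset_of_nonneg (Finset.Icc_subset_Icc_right hab)
    fun n _ _ => hf n

/-- Shifting. -/
theorem sum_split (f : ℕ → ℝ) (m z : ℕ) :
    ∑ n ∈ Icc 1 (m + z), f n = ∑ n ∈ Icc 1 m, f n + ∑ n ∈ Icc 1 z, f (n + m) := by
  induction z with
  | zero => simp
  | succ z ih =>
    rw [← add_assoc, Finset.sum_Icc_succ_top (by omega), ih, Finset.sum_Icc_succ_top (by omega)]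
    rw [show z + 1 + m = m + z + 1 by ring]
    ring

theorem c0_inj_pair {r : ℕ} {H : ℕ} {Bad : Finset (Fin r → ℕ)} {F0 : Finset (Fin (r + 1) → ℕ)}
    (h : ∀ a ∈ Bad, ∀ t ∈ Icc 1 H, (fun i => t + c0 a i) ∈ F0) : H * Bad.card ≤ F0.card := by
  have h1 : (Icc 1 H ×ˢ Bad).card = H * Bad.card := by
    rw [Finset.card_product, Nat.card_Icc, Nat.add_sub_cancel]
  rw [← h1]
  refine Finset.card_le_card_of_injOn (fun p => fun i => p.1 + c0 p.2 i) ?_ ?_
  · intro p hp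
    rw [Finset.mem_coe, Finset.mem_product] at hp
    exact h p.2 hp.2 p.1 hp.1
  · intro p _ q _ hpq
    have h2 : ∀ i, p.1 + c0 p.2 i = q.1 + c0 q.2 i := fun i => congrFun hpq i
    have h3 : p.1 = q.1 := by
      have := h2 0
      simpa [c0] using this
    have h4 : p.2 = q.2 := by
      funext i
      have := h2 i.succ
      simp only [c0, Fin.cons_succ] at this
      omega
    exact Prod.ext h3 h4

open scoped Classical in
/-- The general form. -/
theorem core (r X Q : ℕ) (hX : 1 ≤ X) (hQN : (Q : ℝ) ≤ ((2 * X : ℕ) : ℝ))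
    (hSI : ∀ h ∈ Tup (r + 1) (Icc 1 (2 * X)), Function.Injective h →
      SI h ≤ (Q : ℝ) ^ (1 / 1000 : ℝ))
    (hlog : Real.log ((2 * X : ℕ) : ℝ) ^ (r + 1) ≤ (Q : ℝ) ^ (1 / 1000 : ℝ))
    (hbig : 3 * 2 ^ (r + 2) ≤ (Q : ℝ) ^ (1 / 1000 : ℝ))
    (f : ℕ → ℝ) (hf0 : ∀ n, 0 ≤ f n) (hf1 : ∀ n, f n ≤ Real.log n)
    (er : (Fin (r + 1) → ℕ) → ℝ) (her : ∀ h t, er (fun i => t + h i) = er h)
    (hfree : ∀ y : ℕ, y ≤ 2 * X →
      (((Tup (r + 1) (Icc 1 (2 * X))).filter (fun h => Function.Injective h ∧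
        er h + ((2 * X : ℕ) : ℝ) * (Q : ℝ) ^ (-(1 / 25 : ℝ)) <
        |∑ n ∈ Icc 1 y, ∏ i, f (n + h i) - SI h * y|)).card : ℝ) ≤
        ((2 * X : ℕ) : ℝ) ^ (r + 1) * (Q : ℝ) ^ (-(1 / 2 : ℝ))) :
    ∃ F : Finset (Fin r → ℕ), (F.card : ℝ) ≤ (X : ℝ) ^ r * (Q : ℝ) ^ (-(1 / 5 : ℝ)) ∧
      ∀ a ∈ Tup r (range (X + 1)), a ∉ F → Function.Injective (c0 a) → ∀ y : ℕ, y ≤ X →
      |∑ n ∈ Icc 1 y, ∏ i, f (n + c0 a i) - SI (c0 a) * y| ≤
        er (c0 a) + X * (Q : ℝ) ^ (-(1 / 100 : ℝ)) := by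
  set u : ℝ := (Q : ℝ) ^ (1 / 1000 : ℝ) with hu
  have hQ0 : (0 : ℝ) ≤ Q := Nat.cast_nonneg Q
  have hu8 : 12 ≤ u := by
    have : (2 : ℝ) ^ 2 ≤ 2 ^ (r + 2) := pow_le_pow_right₀ (by norm_num) (by omega)
    linarith
  have hu0 : 0 < u := by linarith
  have hpow : ∀ n : ℕ, (Q : ℝ) ^ ((n : ℝ) / 1000) = u ^ n := by
    intro n
    rw [hu, ← Real.rpow_natCast, ← Real.rpow_mul hQ0]
    congr 1
    ring
  have hneg : ∀ n : ℕ, (Q : ℝ) ^ (-((n : ℝ) / 1000)) = 1 / u ^ n := by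
    intro n
    rw [Real.rpow_neg hQ0, hpow, one_div]
  have e25 : (Q : ℝ) ^ (-(1 / 25 : ℝ)) = 1 / u ^ 40 := by
    rw [← hneg 40]; norm_num
  have e2 : (Q : ℝ) ^ (-(1 / 2 : ℝ)) = 1 / u ^ 500 := by
    rw [← hneg 500]; norm_num
  have e5 : (Q : ℝ) ^ (-(1 / 5 : ℝ)) = 1 / u ^ 200 := by
    rw [← hneg 200]; norm_num
  have e100 : (Q : ℝ) ^ (-(1 / 100 : ℝ)) = 1 / u ^ 10 := by
    rw [← hneg 10]; norm_num
  have eQ : (Q : ℝ) = u ^ 1000 := by
    rw [← hpow 1000]; norm_num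
  rw [e25] at hfree
  rw [e2] at hfree
  rw [e5, e100]
  rw [eQ] at hQN
  have hX1 : (1 : ℝ) ≤ X := by exact_mod_cast hX
  have hX0 : (0 : ℝ) < X := by linarith
  set N : ℕ := 2 * X with hN
  have hNr : (N : ℝ) = 2 * X := by rw [hN]; push_cast; ring
  have hmono : ∀ h : Fin (r + 1) → ℕ, Monotone fun y => ∑ n ∈ Icc 1 y, ∏ i, f (n + h i) :=
    fun h => mono_sum _ fun n => Finset.prod_nonneg fun i _ => hf0 _
  have hupow : ∀ {m n : ℕ}, m ≤ n → u ^ m ≤ u ^ n := fun hmn =>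
    pow_le_pow_right₀ (by linarith) hmn
  -- the grid
  set G : ℕ := ⌈u ^ 25⌉₊ with hG
  have hG1 : u ^ 25 ≤ G := Nat.le_ceil _
  have hG2 : (G : ℝ) < u ^ 25 + 1 := Nat.ceil_lt_add_one (by positivity)
  have hu25 : 1 ≤ u ^ 25 := one_le_pow₀ (by linarith)
  have hGpos : 1 ≤ G := by
    have : (0 : ℝ) < G := by linarith
    exact_mod_cast this
  let Ex : ℕ → Finset (Fin (r + 1) → ℕ) := fun j =>
    (Tup (r + 1) (Icc 1 N)).filter (fun h => Function.Injective h ∧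
        er h + (N : ℝ) * (1 / u ^ 40) <
        |∑ n ∈ Icc 1 (j * N / G), ∏ i, f (n + h i) - SI h * ((j * N / G : ℕ) : ℝ)|)
  set F0 : Finset (Fin (r + 1) → ℕ) := (range (G + 1)).biUnion Ex with hF0
  have hyj : ∀ j ≤ G, j * N / G ≤ N := fun j hj => by
    apply Nat.div_le_of_le_mul
    exact Nat.mul_le_mul_right _ hj
  have hF0c : (F0.card : ℝ) ≤ 3 * u ^ 25 * ((N : ℝ) ^ (r + 1) * (1 / u ^ 500)) := by
    have h1 : (F0.card : ℝ) ≤ ∑ j ∈ range (G + 1), ((Ex j).card : ℝ) := by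
      exact_mod_cast Finset.card_biUnion_le
    have h2 : ∑ j ∈ range (G + 1), ((Ex j).card : ℝ) ≤
        ∑ j ∈ range (G + 1), ((N : ℝ) ^ (r + 1) * (1 / u ^ 500)) := by
      refine Finset.sum_le_sum fun j hj => ?_
      exact hfree _ (hyj j (by rw [mem_range] at hj; omega))
    rw [Finset.sum_const, Finset.card_range, nsmul_eq_mul] at h2
    refine (h1.trans h2).trans ?_
    refine mul_le_mul_of_nonneg_right ?_ (by positivity)
    push_cast
    linarith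
  -- all y
  have hall : ∀ h ∈ Tup (r + 1) (Icc 1 N), h ∉ F0 → Function.Injective h → ∀ y ≤ N,
      |∑ n ∈ Icc 1 y, ∏ i, f (n + h i) - SI h * y| ≤ er h + 3 * N / u ^ 24 := by
    intro h hh hF hi y hy
    have hSI0 : 0 ≤ SI h := SI_nonneg h hi
    have h1 := grid (fun y => ∑ n ∈ Icc 1 y, ∏ i, f (n + h i)) (hmono h) (SI h)
      (er h + (N : ℝ) * (1 / u ^ 40)) hSI0 G N hGpos (by omega) (fun j hj => by
        by_contra hcon
        push Not at hcon
        apply hF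
        rw [hF0, Finset.mem_biUnion]
        exact ⟨j, by rw [mem_range]; omega, Finset.mem_filter.mpr ⟨hh, hi, hcon⟩⟩) y hy
    refine h1.trans ?_
    have h2 : SI h * ((N : ℝ) / G + 1) ≤ u * (2 * (N / u ^ 25)) := by
      refine mul_le_mul (hSI h hh hi) ?_ (by positivity) hu0.le
      have h3 : (N : ℝ) / G ≤ N / u ^ 25 := by gcongr
      have h4 : (1 : ℝ) ≤ N / u ^ 25 := by
        rw [one_le_div (by positivity)]
        exact (hupow (by norm_num)).trans hQN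
      linarith
    have h3 : u * (2 * ((N : ℝ) / u ^ 25)) = 2 * N / u ^ 24 := by
      field_simp
    have h4 : (N : ℝ) * (1 / u ^ 40) ≤ N / u ^ 24 := by
      rw [mul_one_div]
      exact div_le_div_of_nonneg_left (Nat.cast_nonneg N) (by positivity) (hupow (by norm_num))
    have h5 : 3 * (N : ℝ) / u ^ 24 = N / u ^ 24 + 2 * N / u ^ 24 := by ring
    rw [h3] at h2
    linarith
  -- the bad set
  set H : ℕ := ⌊(X : ℝ) / u ^ 100⌋₊ with hH
  have hH1 : (H : ℝ) ≤ X / u ^ 100 := Nat.floor_le (by positivity)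
  have hx2 : (2 : ℝ) ≤ X / u ^ 100 := by
    rw [le_div_iff₀ (by positivity)]
    have h1 : u ^ 1000 ≤ 2 * X := by rw [← hNr]; exact hQN
    have h2 : (2 * 2 : ℝ) ≤ u ^ 900 := by
      calc (2 * 2 : ℝ) ≤ u ^ 1 := by rw [pow_one]; linarith
        _ ≤ u ^ 900 := hupow (by norm_num)
    have h3 : u ^ 1000 = u ^ 900 * u ^ 100 := by rw [← pow_add]
    have h4 : 0 < u ^ 100 := by positivity
    nlinarith
  have hH2 : (X : ℝ) / u ^ 100 / 2 ≤ H := by
    have := Nat.sub_one_lt_floor ((X : ℝ) / u ^ 100)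
    rw [← hH] at this
    linarith
  have hHX : H ≤ X := by
    have h1 : (X : ℝ) / u ^ 100 ≤ X := div_le_self hX0.le (one_le_pow₀ (by linarith))
    have : (H : ℝ) ≤ X := hH1.trans h1
    exact_mod_cast this
  have hH0 : (0 : ℝ) < H := by
    have : (0 : ℝ) < (X : ℝ) / u ^ 100 / 2 := by positivity
    linarith
  set Bad : Finset (Fin r → ℕ) := (Tup r (range (X + 1))).filter
    (fun a => ∀ t ∈ Icc 1 H, (fun i => t + c0 a i) ∈ F0) with hBad
  have hBadc : H * Bad.card ≤ F0.card := c0_inj_pair fun a ha t ht =>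
    (Finset.mem_filter.mp ha).2 t ht
  refine ⟨Bad, ?_, ?_⟩
  · have h1 : (H : ℝ) * Bad.card ≤ 3 * u ^ 25 * ((N : ℝ) ^ (r + 1) * (1 / u ^ 500)) := by
      have : ((H * Bad.card : ℕ) : ℝ) ≤ F0.card := by exact_mod_cast hBadc
      push_cast at this
      exact this.trans hF0c
    have h2 : (X : ℝ) / u ^ 100 / 2 * Bad.card ≤ H * Bad.card :=
      mul_le_mul_of_nonneg_right hH2 (Nat.cast_nonneg _)
    have h3 := h2.trans h1
    rw [hNr] at h3
    have h4 : (Bad.card : ℝ) ≤ 3 * 2 ^ (r + 2) * (X : ℝ) ^ r / u ^ 375 := by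
      have h5 : (X : ℝ) / u ^ 100 / 2 * Bad.card ≤
          (X : ℝ) / u ^ 100 / 2 * (3 * 2 ^ (r + 2) * (X : ℝ) ^ r / u ^ 375) := by
        refine h3.trans (le_of_eq ?_)
        rw [mul_pow, pow_succ (X : ℝ) r, pow_succ (2 : ℝ) (r + 1)]
        field_simp
      exact le_of_mul_le_mul_left h5 (by positivity)
    refine h4.trans ?_
    rw [div_le_iff₀ (by positivity)]
    have h6 : (X : ℝ) ^ r * (1 / u ^ 200) * u ^ 375 = (X : ℝ) ^ r * u ^ 175 := by
      have : u ^ 375 = u ^ 200 * u ^ 175 := by rw [← pow_add]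
      rw [this]
      field_simp
    rw [h6]
    have h7 : (3 * 2 ^ (r + 2) : ℝ) ≤ u ^ 175 := by
      refine hbig.trans ?_
      calc u = u ^ 1 := (pow_one u).symm
        _ ≤ u ^ 175 := hupow (by norm_num)
    calc 3 * 2 ^ (r + 2) * (X : ℝ) ^ r ≤ u ^ 175 * (X : ℝ) ^ r := by gcongr
      _ = (X : ℝ) ^ r * u ^ 175 := mul_comm _ _
  · intro a ha haB hi y hy
    have h1 : ∃ t ∈ Icc 1 H, (fun i => t + c0 a i) ∉ F0 := by
      by_contra hcon
      push Not at hcon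
      exact haB (Finset.mem_filter.mpr ⟨ha, hcon⟩)
    obtain ⟨t, ht, htF⟩ := h1
    rw [mem_Icc] at ht
    have hle : ∀ i, c0 a i ≤ X := by
      intro i
      refine Fin.cases ?_ ?_ i
      · simp [c0]
      · intro j
        have := (mem_Tup.mp ha) j
        rw [mem_range] at this
        simp only [c0, Fin.cons_succ]
        omega
    have htT : (fun i => t + c0 a i) ∈ Tup (r + 1) (Icc 1 N) := by
      rw [mem_Tup]
      intro i
      have := hle i
      rw [mem_Icc]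
      omega
    have hti : Function.Injective (fun i => t + c0 a i) := by
      intro i j hij
      exact hi (Nat.add_left_cancel hij)
    have hA := hall _ htT htF hti
    rw [her] at hA
    have hSIs : SI (fun i => t + c0 a i) = SI (c0 a) := SI_shift _ _
    have hSIle := hSI _ htT hti
    rw [hSIs] at hA hSIle
    have hSI0 : 0 ≤ SI (c0 a) := SI_nonneg _ hi
    -- the first part
    have hfirst : ∀ m ≤ H, ∑ n ∈ Icc 1 m, ∏ i, f (n + c0 a i) ≤ X / u ^ 99 := by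
      intro m hm
      have h2 : ∀ n ∈ Icc 1 m, ∏ i, f (n + c0 a i) ≤ u := by
        intro n hn
        rw [mem_Icc] at hn
        refine le_trans ?_ hlog
        calc ∏ i, f (n + c0 a i) ≤ ∏ _i : Fin (r + 1), Real.log (N : ℝ) := by
              refine Finset.prod_le_prod (fun i _ => hf0 _) fun i _ => (hf1 _).trans ?_
              refine Real.log_le_log ?_ ?_
              · have : 0 < n + c0 a i := by omega
                exact_mod_cast this
              · have := hle i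
                have : n + c0 a i ≤ N := by omega
                exact_mod_cast this
          _ = Real.log (N : ℝ) ^ (r + 1) := by
              rw [Finset.prod_const, Finset.card_univ, Fintype.card_fin]
      have h3 := Finset.sum_le_sum h2
      rw [Finset.sum_const, Nat.card_Icc, Nat.add_sub_cancel, nsmul_eq_mul] at h3
      refine h3.trans ?_
      have h4 : (m : ℝ) ≤ X / u ^ 100 := (by exact_mod_cast hm : (m : ℝ) ≤ H).trans hH1
      calc (m : ℝ) * u ≤ X / u ^ 100 * u := by gcongr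
        _ = X / u ^ 99 := by field_simp
    have hfirst0 : ∀ m, 0 ≤ ∑ n ∈ Icc 1 m, ∏ i, f (n + c0 a i) := fun m =>
      Finset.sum_nonneg fun n _ => Finset.prod_nonneg fun i _ => hf0 _
    have hSIm : ∀ m : ℕ, m ≤ H → SI (c0 a) * m ≤ X / u ^ 99 := by
      intro m hm
      have h4 : (m : ℝ) ≤ X / u ^ 100 := (by exact_mod_cast hm : (m : ℝ) ≤ H).trans hH1
      calc SI (c0 a) * m ≤ u * (X / u ^ 100) := by gcongr
        _ = X / u ^ 99 := by field_simp
    have hfin : 3 * (N : ℝ) / u ^ 24 + 2 * (X / u ^ 99) ≤ X * (1 / u ^ 10) := by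
      have h2 : (X : ℝ) / u ^ 99 ≤ X / u ^ 24 :=
        div_le_div_of_nonneg_left hX0.le (by positivity) (hupow (by norm_num))
      have h3 : 3 * (N : ℝ) / u ^ 24 + 2 * (X / u ^ 24) = 8 * X / u ^ 24 := by
        rw [hNr]; ring
      have h4 : 8 * (X : ℝ) / u ^ 24 ≤ X * (1 / u ^ 10) := by
        rw [div_le_iff₀ (by positivity)]
        have h5 : (X : ℝ) * (1 / u ^ 10) * u ^ 24 = X * u ^ 14 := by
          have : u ^ 24 = u ^ 10 * u ^ 14 := by rw [← pow_add]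
          rw [this]
          field_simp
        rw [h5]
        have h6 : (8 : ℝ) ≤ u ^ 14 := by
          calc (8 : ℝ) ≤ u ^ 1 := by rw [pow_one]; linarith
            _ ≤ u ^ 14 := hupow (by norm_num)
        nlinarith
      linarith
    rcases le_total t y with hty | hty
    · obtain ⟨z, rfl⟩ := Nat.exists_eq_add_of_le hty
      rw [sum_split]
      have h2 : ∑ n ∈ Icc 1 z, ∏ i, f (n + t + c0 a i) =
          ∑ n ∈ Icc 1 z, ∏ i, f (n + (t + c0 a i)) := by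
        refine Finset.sum_congr rfl fun n _ => Finset.prod_congr rfl fun i _ => ?_
        rw [add_assoc]
      rw [h2]
      have h3 := abs_le.mp (hA z (by omega))
      have h4 := hfirst t ht.2
      have h5 := hfirst0 t
      have h6 := hSIm t ht.2
      have h7 : 0 ≤ SI (c0 a) * t := by positivity
      have h8 : SI (c0 a) * ((t + z : ℕ) : ℝ) = SI (c0 a) * t + SI (c0 a) * z := by
        push_cast; ring
      rw [h8, abs_le]
      have h9 : (0 : ℝ) ≤ X / u ^ 99 := by positivity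
      constructor
      · linarith
      · linarith
    · have h3 := abs_le.mp (hA 0 (Nat.zero_le _))
      have h4 := hfirst y (hty.trans ht.2)
      have h5 := hfirst0 y
      have h6 := hSIm y (hty.trans ht.2)
      have h7 : 0 ≤ SI (c0 a) * y := by positivity
      have h8 : 0 ≤ er (c0 a) + 3 * N / u ^ 24 := by
        have := hA 0 (Nat.zero_le _)
        exact (abs_nonneg _).trans this
      have h9 : (0 : ℝ) ≤ X / u ^ 99 := by positivity
      rw [abs_le]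
      constructor
      · linarith
      · linarith

end NormAux

open scoped Classical in
theorem norm_all (r : ℕ) (hr : 1 ≤ r) (B : ℝ) : ∃ c C : ℝ, 0 < c ∧ 0 < C ∧ ∃ X0 : ℕ,
    ∀ X Q : ℕ, X0 ≤ X → Rg c (2 * X) Q → ∀ b : CI → ℝ,
    (∀ x ∈ Ch Q, ∀ n, ‖Mc (2 * X) Q x n‖ ≤ b x) →
    ∑ x ∈ Ch Q, b x ≤ B → ∀ (M : Finset CI) (q : ℕ) (E : ℝ), Kept Q M q →
    ∑ x ∈ Ch Q \ M, b x ≤ E →
    (∀ n : ℕ, 3 * (2 * X) ≤ n * Q → n * Q + 2 * X ≤ 2 * (2 * X) * Q →
      ‖Mc (2 * X) Q one n - 1‖ ≤ E) →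
    ∃ F : Finset (Fin r → ℕ), (F.card : ℝ) ≤ (X : ℝ) ^ r * (Q : ℝ) ^ (-(1 / 5 : ℝ)) ∧
      ∀ a ∈ Tup r (range (X + 1)), a ∉ F → Function.Injective (c0 a) → ∀ y : ℕ, y ≤ X →
      |∑ n ∈ Icc 1 y, ∏ i, W (2 * X) Q (n + c0 a i) - SI (c0 a) * y| ≤
        C * SI (c0 a) * X * (E + Gq q (c0 a)) + X * (Q : ℝ) ^ (-(1 / 100 : ℝ)) := by
  obtain ⟨c, C, hc, hC, X1, hfree⟩ := freeY (r + 1) (by omega) B
  obtain ⟨D, hD, X2, hsi⟩ := NormAux.si_le (r + 1) (by omega)
  obtain ⟨Q1, hQ1a, hQ1⟩ := NormAux.asy (r + 1) D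
  obtain ⟨Q2, hQ2a, hQ2⟩ := NormAux.asy (2 * (r + 1)) (4 ^ (r + 1))
  obtain ⟨Q3, hQ3a, hQ3⟩ := NormAux.asy 0 (3 * 2 ^ (r + 2))
  obtain ⟨X3, hX3⟩ := NormAux.thr (max (max Q1 Q2) Q3)
  refine ⟨min c 1, 2 * C, lt_min hc one_pos, by positivity, X1 + X2 + X3 + 1,
    fun X Q hX hR b hb hbB M q E hK hE hone => ?_⟩
  have hXN : 2 * X = ((2 * X : ℕ) : ℕ) := rfl
  have hN1 : (1 : ℝ) ≤ ((2 * X : ℕ) : ℝ) := by
    have : 1 ≤ 2 * X := by omega
    exact_mod_cast this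
  have hRc : Rg c (2 * X) Q :=
    ⟨hR.1, hR.2.trans (Real.rpow_le_rpow_of_exponent_le hN1 (min_le_left _ _))⟩
  have hR1 : Rg 1 (2 * X) Q :=
    ⟨hR.1, hR.2.trans (Real.rpow_le_rpow_of_exponent_le hN1 (min_le_right _ _))⟩
  have hQN : (Q : ℝ) ≤ ((2 * X : ℕ) : ℝ) := by
    have := hR1.2
    rwa [Real.rpow_one] at this
  have hQmax : max (max Q1 Q2) Q3 ≤ (Q : ℝ) := (hX3 (2 * X) (by omega)).trans hR.1
  have hQ1' : Q1 ≤ (Q : ℝ) := ((le_max_left _ _).trans (le_max_left _ _)).trans hQmax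
  have hQ2' : Q2 ≤ (Q : ℝ) := ((le_max_right _ _).trans (le_max_left _ _)).trans hQmax
  have hQ3' : Q3 ≤ (Q : ℝ) := (le_max_right _ _).trans hQmax
  have hQ3r : (3 : ℝ) ≤ Q := hQ1a.trans hQ1'
  have hQ3n : 3 ≤ Q := by exact_mod_cast hQ3r
  have hlQ : 0 ≤ Real.log Q := Real.log_nonneg (by linarith)
  have hlogN : Real.log ((2 * X : ℕ) : ℝ) ≤ 4 * Real.log Q ^ 2 := by
    have h1 := Real.log_le_log (Real.exp_pos _) hR.1
    rw [Real.log_exp] at h1
    have h2 : 0 ≤ Real.log ((2 * X : ℕ) : ℝ) := Real.log_nonneg hN1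
    have h3 := Real.sq_sqrt h2
    have h4 := Real.sqrt_nonneg (Real.log ((2 * X : ℕ) : ℝ))
    have h5 : Real.sqrt (Real.log ((2 * X : ℕ) : ℝ)) ≤ 2 * Real.log Q := by linarith
    calc Real.log ((2 * X : ℕ) : ℝ) = Real.sqrt (Real.log ((2 * X : ℕ) : ℝ)) ^ 2 := h3.symm
      _ ≤ (2 * Real.log Q) ^ 2 := by gcongr
      _ = 4 * Real.log Q ^ 2 := by ring
  have key := NormAux.core r X Q (by omega) hQN (fun h hh hi => by
      refine (hsi (2 * X) Q (by omega) hR1 (by omega) h ?_ hi).trans (hQ1 Q hQ1')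
      rw [mem_Tup] at hh ⊢
      intro i
      have := hh i
      rw [mem_Icc] at this
      rw [mem_range]
      omega) (by
      refine le_trans ?_ (hQ2 Q hQ2')
      have h2 : 0 ≤ Real.log ((2 * X : ℕ) : ℝ) := Real.log_nonneg hN1
      calc Real.log ((2 * X : ℕ) : ℝ) ^ (r + 1) ≤ (4 * Real.log Q ^ 2) ^ (r + 1) := by gcongr
        _ = 4 ^ (r + 1) * Real.log Q ^ (2 * (r + 1)) := by rw [mul_pow, ← pow_mul])
    (by
      have := hQ3 Q hQ3'
      rwa [pow_zero, mul_one] at this)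
    (fun n => W (2 * X) Q n) (fun n => W_nonneg _ _ _)
    (fun n => (W_le _ _ _).trans (lp_le n))
    (fun h => C * SI h * ((2 * X : ℕ) : ℝ) * (E + Gq q h))
    (fun h t => by rw [SI_shift, Gq_shift])
    (fun y hy => hfree (2 * X) Q (by omega) hRc b hb hbB M q E hK hE hone y hy)
  obtain ⟨F, hF1, hF2⟩ := key
  refine ⟨F, hF1, fun a ha haF hi y hy => (hF2 a ha haF hi y hy).trans (le_of_eq ?_)⟩
  push_cast
  ring

end Pool.Agent.Lib.GMV
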