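import Pool.Agent.Lib.GMV.Model
import Mathlib.NumberTheory.LegendreSymbol.QuadraticChar.Basic

/-!
# GMV.RealSplit: real primitive characters (paper 4.4)

PROOF. `real_two`: if `16 ∣ q = md x` let `q = 2^e m`, `e ≥ 4`, `m` odd. A real character is trivial on squares; every `u ≡ 1 mod q/2`
coprime to `q` is a square modulo `q`: modulo `2^e` because `u ≡ 1 mod 8`, modulo `m` because `u ≡ 1`. So `χ` factors through
`q/2`, against primitivity. `real_odd`: the same with `u ≡ 1 mod q/p`, `p² ∣ q`: `u = 1 + (q/p) j` and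
`(1 + (q/p) j (p^e... ))`: easiest: the group of such `u` has odd order `p` (`u^p = 1 mod q`), so `χ(u)^p = 1` and `χ(u)² = 1` give `χ(u) = 1`.
`real_split`: induction on `G`, or at once: for `p ∈ G` let `n_p` be the residue mod `q` with `n_p ≡ n mod p`,
`n_p ≡ 1 mod q/p` (`p² ∤ q`), and `n' ≡ 1` mod every `p ∈ G`, `≡ n mod M = q/∏G`. Then `n ≡ n' ∏ n_p mod q`. `n ↦ χ(n_p)` is a
character mod `p` with square `1`, nontrivial by primitivity, so it is the quadratic character (the unique nontrivial real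
one: the unit group is cyclic; or: `χ` is trivial on squares, and `-1` on every nonsquare as nonsquares form one coset).
For `p ∣ n` both sides are `0`. `g n = χ(n')`.
-/

set_option autoImplicit false

open Finset Filter

namespace Pool.Agent.Lib.GMV

open Pool.Agent.HLB Pool.Agent.HLT Pool.Agent.HLR

namespace RealSplitAux

theorem cv_congr (x : CI) {a b : ℕ} (h : a ≡ b [MOD md x]) : cv x a = cv x b := by
  unfold cv
  rw [(ZMod.natCast_eq_natCast_iff a b (x.1 + 1)).2 h]

theorem cv_mul (x : CI) (a b : ℕ) : cv x (a * b) = cv x a * cv x b := by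
  unfold cv
  rw [Nat.cast_mul, map_mul]

theorem cv_one (x : CI) : cv x 1 = 1 := by
  unfold cv
  rw [Nat.cast_one, map_one]

theorem cv_pow (x : CI) (a n : ℕ) : cv x (a ^ n) = cv x a ^ n := by
  unfold cv
  rw [Nat.cast_pow, map_pow]

theorem cv_prod (x : CI) (G : Finset ℕ) (f : ℕ → ℕ) :
    cv x (∏ p ∈ G, f p) = ∏ p ∈ G, cv x (f p) := by
  unfold cv
  rw [Nat.cast_prod, map_prod]

theorem cv_sq (x : CI) (h2 : x.2 ^ 2 = 1) {a : ℕ} (ha : a.Coprime (md x)) : cv x a ^ 2 = 1 := by
  unfold cv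
  rw [← MulChar.pow_apply' x.2 two_ne_zero, h2]
  exact MulChar.one_apply ((ZMod.isUnit_iff_coprime _ _).2 ha)

theorem cv_zero (x : CI) {a : ℕ} (ha : ¬ a.Coprime (md x)) : cv x a = 0 := by
  unfold cv
  exact MulChar.map_nonunit _ (fun h => ha ((ZMod.isUnit_iff_coprime _ _).1 h))

theorem coprime_congr {a b q : ℕ} (h : a ≡ b [MOD q]) (ha : a.Coprime q) : b.Coprime q := by
  unfold Nat.Coprime at ha ⊢
  rw [← h.gcd_eq]
  exact ha

theorem exists_ne (x : CI) (hx : x.2.IsPrimitive) {d : ℕ} (hd : d ∣ md x) (hlt : d < md x) :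
    ∃ a : ℕ, a.Coprime (md x) ∧ a ≡ 1 [MOD d] ∧ cv x a ≠ 1 := by
  by_contra hcon
  push Not at hcon
  have hf : x.2.FactorsThrough d := by
    have hd' : d ∣ x.1 + 1 := hd
    rw [DirichletCharacter.factorsThrough_iff_ker_unitsMap hd']
    intro u hu
    rw [MonoidHom.mem_ker] at hu ⊢
    have h1 : ((u : ZMod (x.1 + 1)).val).Coprime (md x) := ZMod.val_coe_unit_coprime u
    have h2 : (u : ZMod (x.1 + 1)).val ≡ 1 [MOD d] := by
      rw [← ZMod.natCast_eq_natCast_iff, Nat.cast_one]
      have h3 := congrArg (fun v : (ZMod d)ˣ => (v : ZMod d)) hu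
      simp only [ZMod.unitsMap_def, Units.coe_map, Units.val_one] at h3
      have h4 : (ZMod.castHom hd' (ZMod d)) ((u : ZMod (x.1 + 1)).val : ZMod (x.1 + 1)) = 1 := by
        rw [ZMod.natCast_zmod_val]
        exact h3
      rwa [map_natCast] at h4
    have h3 := hcon _ h1 h2
    unfold cv at h3
    rw [ZMod.natCast_zmod_val] at h3
    apply Units.ext
    rw [MulChar.coe_toUnitHom, h3, Units.val_one]
  have h1 : x.2.conductor ≤ d := Nat.sInf_le hf
  rw [(DirichletCharacter.isPrimitive_def _).1 hx] at h1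
  unfold md at hlt
  omega

end RealSplitAux

open RealSplitAux

theorem real_two (x : CI) (hx : x.2.IsPrimitive) (h2 : x.2 ^ 2 = 1) : ¬ 16 ∣ md x := by
  intro h16
  obtain ⟨k, hk⟩ := h16
  have hpos := md_pos x
  have hk0 : 0 < k := by
    rcases Nat.eq_zero_or_pos k with h | h
    · rw [h] at hk
      omega
    · exact h
  obtain ⟨a, ha, ha1, hne⟩ := exists_ne x hx (d := 8 * k) ⟨2, by rw [hk]; ring⟩ (by omega)
  have ha0 : 1 ≤ a := by
    rcases Nat.eq_zero_or_pos a with h | h
    · rw [h, Nat.coprime_zero_left] at ha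
      omega
    · exact h
  obtain ⟨j, hj⟩ := (Nat.modEq_iff_dvd' ha0).1 ha1.symm
  have hj' : a = 1 + 8 * k * j := by omega
  rcases Nat.even_or_odd' j with ⟨i, hi | hi⟩
  · apply hne
    rw [← cv_one x]
    apply cv_congr
    rw [hj', hi, hk]
    have : 1 + 8 * k * (2 * i) = 1 + 16 * k * i := by ring
    rw [this]
    exact (Nat.modEq_iff_dvd' (by omega)).2 ⟨i, by omega⟩ |>.symm
  · apply hne
    have hc : a ≡ (1 + 4 * k) ^ 2 [MOD md x] := by
      rw [hj', hi, hk]
      have e1 : 1 + 8 * k * (2 * i + 1) = (1 + 8 * k) + 16 * k * i := by ring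
      have e2 : (1 + 4 * k) ^ 2 = (1 + 8 * k) + 16 * k * k := by ring
      rw [e1, e2]
      have f1 : (1 + 8 * k) + 16 * k * i ≡ 1 + 8 * k [MOD 16 * k] := by
        simp [Nat.ModEq]
      have f2 : (1 + 8 * k) + 16 * k * k ≡ 1 + 8 * k [MOD 16 * k] := by
        simp [Nat.ModEq]
      exact f1.trans f2.symm
    rw [cv_congr x hc, cv_pow]
    apply cv_sq x h2
    have h3 := coprime_congr hc ha
    exact (Nat.coprime_pow_left_iff (by norm_num) _ _).1 h3

theorem real_odd (x : CI) (hx : x.2.IsPrimitive) (h2 : x.2 ^ 2 = 1) (p : ℕ) (hp : p.Prime)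
    (hp3 : 3 ≤ p) : ¬ p ^ 2 ∣ md x := by
  rintro ⟨k, hk⟩
  have hpos := md_pos x
  have hk0 : 0 < k := by
    rcases Nat.eq_zero_or_pos k with h | h
    · rw [h] at hk
      omega
    · exact h
  have hlt : p * k < md x := by
    rw [hk, pow_two, mul_assoc]
    have h3 : 0 < p * k := Nat.mul_pos (by omega) hk0
    nlinarith
  obtain ⟨a, ha, ha1, hne⟩ := exists_ne x hx (d := p * k) ⟨p, by rw [hk]; ring⟩ hlt
  have ha0 : 1 ≤ a := by
    rcases Nat.eq_zero_or_pos a with h | h
    · rw [h, Nat.coprime_zero_left] at ha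
      have : 1 ≤ p * k := Nat.mul_pos (by omega) hk0
      omega
    · exact h
  obtain ⟨j, hj⟩ := (Nat.modEq_iff_dvd' ha0).1 ha1.symm
  have hj' : a = 1 + p * k * j := by omega
  have hpow : ∀ n : ℕ, a ^ n ≡ 1 + n * (p * k * j) [MOD md x] := by
    intro n
    induction n with
    | zero => simp [Nat.ModEq]
    | succ n ih =>
      rw [pow_succ]
      refine (ih.mul_right a).trans ?_
      rw [hj']
      have e1 : (1 + n * (p * k * j)) * (1 + p * k * j) =
          (1 + (n + 1) * (p * k * j)) + md x * (n * (k * j * j)) := by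
        rw [hk]
        ring
      rw [e1]
      simp [Nat.ModEq]
  have hp1 : a ^ p ≡ 1 [MOD md x] := by
    refine (hpow p).trans ?_
    have e1 : 1 + p * (p * k * j) = 1 + md x * j := by
      rw [hk]
      ring
    rw [e1]
    simp [Nat.ModEq]
  have h3 : cv x a ^ p = 1 := by
    rw [← cv_pow, cv_congr x hp1, cv_one]
  have h4 := cv_sq x h2 ha
  obtain ⟨m, hm⟩ : ∃ m, p = 2 * m + 1 := by
    rcases hp.eq_two_or_odd' with h | h
    · omega
    · exact h
  rw [hm, pow_succ, pow_mul, h4, one_pow, one_mul] at h3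
  exact hne h3

namespace RealSplitAux

theorem coprime_div (x : CI) (hx : x.2.IsPrimitive) (h2 : x.2 ^ 2 = 1) {p : ℕ} (hp : p.Prime)
    (hp3 : 3 ≤ p) (hpq : p ∣ md x) : p.Coprime (md x / p) := by
  rw [hp.coprime_iff_not_dvd]
  rintro ⟨c, hc⟩
  apply real_odd x hx h2 p hp hp3
  refine ⟨c, ?_⟩
  rw [← Nat.mul_div_cancel' hpq, hc]
  ring

/-- a residue class modulo `q` from residue classes modulo `p` and `q / p` -/
theorem glue {q p n : ℕ} (hco : p.Coprime (q / p)) :
    ∃ N : ℕ, N ≡ n [MOD p] ∧ N ≡ 1 [MOD q / p] :=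
  ⟨(Nat.chineseRemainder hco n 1).1, (Nat.chineseRemainder hco n 1).2⟩

theorem glue_uniq {q p a b : ℕ} (hpq : p ∣ q) (hco : p.Coprime (q / p)) (h1 : a ≡ b [MOD p])
    (h2 : a ≡ b [MOD q / p]) : a ≡ b [MOD q] := by
  have h3 := (Nat.modEq_and_modEq_iff_modEq_mul hco).1 ⟨h1, h2⟩
  rwa [Nat.mul_div_cancel' hpq] at h3

theorem glue_coprime {q p n N : ℕ} (hp : p.Prime) (hpq : p ∣ q) (hn : ¬ p ∣ n)
    (h1 : N ≡ n [MOD p]) (h2 : N ≡ 1 [MOD q / p]) : N.Coprime q := by
  rw [← Nat.mul_div_cancel' hpq]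
  refine Nat.Coprime.mul_right ?_ ?_
  · exact coprime_congr h1.symm ((hp.coprime_iff_not_dvd.2 hn).symm)
  · exact coprime_congr h2.symm (Nat.coprime_one_left _)

theorem loc_sq (x : CI) (hx : x.2.IsPrimitive) (h2 : x.2 ^ 2 = 1) {p : ℕ} (hp : p.Prime)
    (hp3 : 3 ≤ p) (hpq : p ∣ md x) {N n : ℕ} (hn : ¬ p ∣ n) (h1 : N ≡ n [MOD p])
    (h1' : N ≡ 1 [MOD md x / p]) (hsq : IsSquare (n : ZMod p)) : cv x N = 1 := by
  have := Fact.mk hp
  have hco := coprime_div x hx h2 hp hp3 hpq
  obtain ⟨m, hm⟩ := hsq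
  obtain ⟨R, hR1, hR2⟩ := glue (n := m.val) hco
  have h3 : N ≡ R ^ 2 [MOD md x] := by
    refine glue_uniq hpq hco ?_ ?_
    · refine h1.trans (Nat.ModEq.trans ?_ (hR1.pow 2).symm)
      rw [← ZMod.natCast_eq_natCast_iff, Nat.cast_pow, ZMod.natCast_zmod_val, hm, pow_two]
    · have h4 := hR2.pow 2
      rw [one_pow] at h4
      exact h1'.trans h4.symm
  rw [cv_congr x h3, cv_pow]
  apply cv_sq x h2
  have h4 := coprime_congr h3 (glue_coprime hp hpq hn h1 h1')
  exact (Nat.coprime_pow_left_iff (by norm_num) _ _).1 h4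

theorem loc (x : CI) (hx : x.2.IsPrimitive) (h2 : x.2 ^ 2 = 1) {p : ℕ} (hp : p.Prime)
    (hp3 : 3 ≤ p) (hpq : p ∣ md x) {N n : ℕ} (h1 : N ≡ n [MOD p])
    (h1' : N ≡ 1 [MOD md x / p]) :
    cv x N = ((haveI := Fact.mk hp; quadraticChar (ZMod p) (n : ZMod p) : ℤ) : ℂ) := by
  have := Fact.mk hp
  by_cases hn : p ∣ n
  · have h3 : (n : ZMod p) = 0 := (ZMod.natCast_eq_zero_iff _ _).2 hn
    have h4 : quadraticChar (ZMod p) (n : ZMod p) = 0 := by
      rw [quadraticChar_eq_zero_iff]
      exact h3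
    rw [h4, Int.cast_zero]
    apply cv_zero
    intro hc
    have h5 : p ∣ N := (Nat.modEq_zero_iff_dvd.1 (h1.trans (Nat.modEq_zero_iff_dvd.2 hn)))
    have h6 := Nat.dvd_gcd h5 hpq
    unfold Nat.Coprime at hc
    rw [hc] at h6
    exact hp.one_lt.ne' (Nat.dvd_one.1 h6)
  · have h3 : (n : ZMod p) ≠ 0 := fun h => hn ((ZMod.natCast_eq_zero_iff _ _).1 h)
    have hNc := glue_coprime hp hpq hn h1 h1'
    by_cases hsq : IsSquare (n : ZMod p)
    · rw [(quadraticChar_one_iff_isSquare h3).2 hsq, Int.cast_one]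
      exact loc_sq x hx h2 hp hp3 hpq hn h1 h1' hsq
    · rw [quadraticChar_neg_one_iff_not_isSquare.2 hsq]
      have hpos := md_pos x
      have hlt : md x / p < md x := Nat.div_lt_self hpos hp.one_lt
      obtain ⟨a, ha, ha1, hne⟩ := exists_ne x hx (Nat.div_dvd_of_dvd hpq) hlt
      have hpa : ¬ p ∣ a := by
        intro h
        have h6 := Nat.dvd_gcd h hpq
        unfold Nat.Coprime at ha
        rw [ha] at h6
        exact hp.one_lt.ne' (Nat.dvd_one.1 h6)
      have ha3 : (a : ZMod p) ≠ 0 := fun h => hpa ((ZMod.natCast_eq_zero_iff _ _).1 h)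
      have hasq : ¬ IsSquare (a : ZMod p) := fun h =>
        hne (loc_sq x hx h2 hp hp3 hpq hpa (Nat.ModEq.refl a) ha1 h)
      have hav : cv x a = -1 := by
        have h4 := cv_sq x h2 ha
        rw [pow_two] at h4
        rcases mul_self_eq_one_iff.1 h4 with h | h
        · exact absurd h hne
        · exact h
      have hprod : IsSquare ((n * a : ℕ) : ZMod p) := by
        rw [← quadraticChar_one_iff_isSquare (by
          rw [Nat.cast_mul]
          exact mul_ne_zero h3 ha3), Nat.cast_mul, map_mul,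
          quadraticChar_neg_one_iff_not_isSquare.2 hsq,
          quadraticChar_neg_one_iff_not_isSquare.2 hasq]
        norm_num
      have hpna : ¬ p ∣ n * a := fun h => (hp.dvd_mul.1 h).elim hn hpa
      have h5 := loc_sq x hx h2 hp hp3 hpq (N := N * a) (n := n * a) hpna (h1.mul_right a)
        (by simpa using h1'.mul ha1) hprod
      rw [cv_mul, hav] at h5
      push_cast
      linear_combination -h5

end RealSplitAux

open RealSplitAux

theorem real_split (x : CI) (hx : x.2.IsPrimitive) (h2 : x.2 ^ 2 = 1) (G : Finset ℕ)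
    (hG : ∀ p ∈ G, p.Prime ∧ 3 ≤ p ∧ p ∣ md x) :
    ∃ (M : ℕ) (g : ℕ → ℂ), md x = M * ∏ p ∈ G, p ∧ (∀ p ∈ G, M.Coprime p) ∧
      (∀ n, g (n + M) = g n) ∧ (∀ n, ‖g n‖ ≤ 1) ∧
      ∀ n : ℕ, cv x n = g n * ∏ p ∈ G, ((if hp : p.Prime then
        (haveI := Fact.mk hp; quadraticChar (ZMod p) (n : ZMod p)) else 0 : ℤ) : ℂ) := by
  classical
  have hpos := md_pos x
  have hPd : ∏ p ∈ G, p ∣ md x :=
    Finset.prod_primes_dvd _ (fun p hp => (hG p hp).1.prime) (fun p hp => (hG p hp).2.2)
  obtain ⟨M, hM⟩ := hPd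
  rw [mul_comm] at hM
  have hMp : ∀ p ∈ G, M.Coprime p := by
    intro p hp
    obtain ⟨hp1, hp3, hpq⟩ := hG p hp
    refine ((hp1.coprime_iff_not_dvd).2 ?_).symm
    rintro ⟨c, hc⟩
    apply real_odd x hx h2 p hp1 hp3
    obtain ⟨e, he⟩ := Finset.dvd_prod_of_mem (fun p : ℕ => p) hp
    refine ⟨c * e, ?_⟩
    rw [hM, hc]
    have he' : ∏ p ∈ G, p = p * e := he
    rw [he']
    ring
  have hMP : M.Coprime (∏ p ∈ G, p) := Nat.Coprime.prod_right hMp
  have hq : ∀ a b : ℕ, a ≡ b [MOD M] → a ≡ b [MOD ∏ p ∈ G, p] → a ≡ b [MOD md x] := by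
    intro a b h1 h3
    rw [hM]
    exact (Nat.modEq_and_modEq_iff_modEq_mul hMP).1 ⟨h1, h3⟩
  let n' : ℕ → ℕ := fun n => (Nat.chineseRemainder hMP n 1).1
  have hn1 : ∀ n, n' n ≡ n [MOD M] := fun n => (Nat.chineseRemainder hMP n 1).2.1
  have hn2 : ∀ n, n' n ≡ 1 [MOD ∏ p ∈ G, p] := fun n => (Nat.chineseRemainder hMP n 1).2.2
  refine ⟨M, fun n => cv x (n' n), hM, hMp, ?_, fun n => norm_cv_le x _, ?_⟩
  · intro n
    apply cv_congr
    refine hq _ _ ?_ ((hn2 _).trans (hn2 _).symm)
    refine (hn1 _).trans (Nat.ModEq.trans ?_ (hn1 _).symm)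
    simp [Nat.ModEq]
  · intro n
    have hex : ∀ p : ℕ, ∃ N : ℕ, p ∈ G → N ≡ n [MOD p] ∧ N ≡ 1 [MOD md x / p] := by
      intro p
      by_cases hp : p ∈ G
      · obtain ⟨hp1, hp3, hpq⟩ := hG p hp
        obtain ⟨N, hN⟩ := glue (n := n) (coprime_div x hx h2 hp1 hp3 hpq)
        exact ⟨N, fun _ => hN⟩
      · exact ⟨0, fun h => absurd h hp⟩
    choose N hN using hex
    have hprod : n ≡ n' n * ∏ p ∈ G, N p [MOD md x] := by
      refine hq _ _ ?_ ?_
      · have h3 : ∏ p ∈ G, N p ≡ 1 [MOD M] := by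
          have h4 : ∀ p ∈ G, N p ≡ 1 [MOD M] := by
            intro p hp
            refine ((hN p hp).2).of_dvd ?_
            obtain ⟨hp1, hp3, hpq⟩ := hG p hp
            refine (hMp p hp).dvd_of_dvd_mul_left ?_
            rw [Nat.mul_div_cancel' hpq]
            exact ⟨_, hM⟩
          have h5 : ∀ S : Finset ℕ, S ⊆ G → ∏ p ∈ S, N p ≡ 1 [MOD M] := by
            intro S
            induction S using Finset.induction_on with
            | empty => intro _; rfl
            | insert p S hpS ih =>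
              intro hS
              rw [prod_insert hpS]
              have := (h4 p (hS (mem_insert_self _ _))).mul
                (ih (fun y hy => hS (mem_insert_of_mem hy)))
              simpa using this
          exact h5 G (Subset.refl _)
        have h6 := (hn1 n).mul h3
        rw [mul_one] at h6
        exact h6.symm
      · rw [Nat.modEq_iff_dvd]
        push_cast
        refine Finset.prod_dvd_of_coprime (s := fun p : ℕ => (p : ℤ)) ?_ ?_
        · intro p hp p' hp' hne
          change IsCoprime (p : ℤ) (p' : ℤ)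
          rw [Nat.isCoprime_iff_coprime]
          exact (Nat.coprime_primes (hG p hp).1 (hG p' hp').1).2 hne
        · intro p hp
          have h3 : n ≡ n' n * ∏ p ∈ G, N p [MOD p] := by
            have h4 : n' n ≡ 1 [MOD p] := (hn2 n).of_dvd (Finset.dvd_prod_of_mem (fun p : ℕ => p) hp)
            have h5 : ∏ p' ∈ G.erase p, N p' ≡ 1 [MOD p] := by
              have h6 : ∀ S : Finset ℕ, S ⊆ G.erase p → ∏ p' ∈ S, N p' ≡ 1 [MOD p] := by
                intro S
                induction S using Finset.induction_on with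
                | empty => intro _; rfl
                | insert p' S hpS ih =>
                  intro hS
                  rw [prod_insert hpS]
                  have h7 := hS (mem_insert_self p' S)
                  rw [mem_erase] at h7
                  obtain ⟨hp1, hp3, hpq⟩ := hG p' h7.2
                  have h8 : N p' ≡ 1 [MOD p] := by
                    refine ((hN p' h7.2).2).of_dvd ?_
                    refine ((Nat.coprime_primes (hG p hp).1 hp1).2 (Ne.symm h7.1)).dvd_of_dvd_mul_left ?_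
                    rw [Nat.mul_div_cancel' hpq]
                    exact (hG p hp).2.2
                  have := h8.mul (ih (fun y hy => hS (mem_insert_of_mem hy)))
                  simpa using this
              exact h6 _ (Subset.refl _)
            have h6 := h4.mul (((hN p hp).1).mul h5)
            rw [← Finset.mul_prod_erase G N hp]
            rw [one_mul, mul_one] at h6
            exact h6.symm
          have h4 := (Nat.modEq_iff_dvd).1 h3
          push_cast at h4
          exact h4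
    rw [cv_congr x hprod, cv_mul, cv_prod]
    congr 1
    refine Finset.prod_congr rfl (fun p hp => ?_)
    obtain ⟨hp1, hp3, hpq⟩ := hG p hp
    rw [loc x hx h2 hp1 hp3 hpq (hN p hp).1 (hN p hp).2, dif_pos hp1]

end Pool.Agent.Lib.GMV
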