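import Pool.Agent.Lib.GMV.PerMean
import Pool.Agent.Lib.P4f18dfQ.Weil

/-!
# GMV.WeilL: the local factor of the exceptional terms (paper 4.4)

PROOF. `wl_bound`: `weil` (library, for each `m = |J| ≤ k`, constants combined) for the set `S = {- h j : j ∈ J}` of `ZMod p` (distinct,
`p ∤ Del h`): `∏_{s∈S} (n - s) = ∏_{j∈J} (n + h j)`, multiplicativity of `quadraticChar`; dropping the `n` with `p ∣ n + h i`
for some `i` costs at most `k ≤ k √p`.
`wl_loc`: `|local mean| ≤ locI h p` always (triangle inequality: the mean of `∏ (1-1/p)⁻¹ 1[p ∤ n+h i]` is `locI h p`), and for `p > 2k`: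
`locI h p ≥ (1/2) ((1-1/p)⁻¹)^k`, while the mean is `≤ ((1-1/p)⁻¹)^k C p^(-1/2)`; so the ratio is `≤ min(1, 2C p^(-1/2))`, hence
`≤ A p^(-1/4)` with `A = 1` if `p ≥ (2C)^4 + 2k`; choose the statement's constant `P1 = ⌈(2C)^4⌉ + 2k + 1`: for `p ≥ P1` the ratio is
`≤ p^(-1/4)`; for `p < P1` it is `≤ 1`.
-/

set_option autoImplicit false

open Finset Filter

namespace Pool.Agent.Lib.GMV

open Pool.Agent.HLB Pool.Agent.HLT Pool.Agent.HLR

/-- The local function at `p` of the exceptional term with the character in the slots `J`. -/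
noncomputable def wlf {k : ℕ} (p : ℕ) (J : Finset (Fin k)) (h : Fin k → ℕ) (n : ℕ) : ℂ :=
  (∏ i, (if p ∣ n + h i then (0 : ℂ) else ((1 - 1 / (p : ℝ))⁻¹ : ℝ))) *
    ∏ j ∈ J, ((if hp : p.Prime then
      (haveI := Fact.mk hp; quadraticChar (ZMod p) ((n + h j : ℕ) : ZMod p)) else 0 : ℤ) : ℂ)

namespace WeilLAux

lemma sum_zmod {p : ℕ} [NeZero p] (F : ZMod p → ℂ) :
    ∑ n ∈ range p, F (n : ZMod p) = ∑ x, F x := by
  refine Finset.sum_bij' (fun k _ => (k : ZMod p)) (fun a _ => a.val) ?_ ?_ ?_ ?_ ?_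
  · intro k _; exact Finset.mem_univ _
  · intro a _; exact Finset.mem_range.2 (ZMod.val_lt _)
  · intro k hk
    exact ZMod.val_cast_of_lt (Finset.mem_range.1 hk)
  · intro a _
    simp
  · intro k _; rfl

lemma not_eq_of_lt {k p : ℕ} {h : Fin k → ℕ} (hD : ¬ p ∣ Del h) {i j : Fin k} (hij : i < j) :
    ((h i : ℕ) : ZMod p) ≠ ((h j : ℕ) : ZMod p) := by
  intro he
  apply hD
  have h1 : (((h i : ℤ) - h j : ℤ) : ZMod p) = 0 := by
    push_cast
    rw [he, sub_self]
  have h2 : (p : ℤ) ∣ (h i : ℤ) - h j := (ZMod.intCast_zmod_eq_zero_iff_dvd _ _).1 h1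
  have h3 : p ∣ ((h i : ℤ) - h j).natAbs := Int.natCast_dvd.1 h2
  unfold Del
  refine dvd_trans ?_ (Finset.dvd_prod_of_mem _ (mem_univ i))
  refine dvd_trans h3 (Finset.dvd_prod_of_mem (fun j => ((h i : ℤ) - h j).natAbs) ?_)
  rw [mem_filter]
  exact ⟨mem_univ _, hij⟩

lemma inj_h {k p : ℕ} {h : Fin k → ℕ} (hD : ¬ p ∣ Del h) :
    Function.Injective fun i => ((h i : ℕ) : ZMod p) := by
  intro i j hij
  by_contra hne
  rcases lt_or_gt_of_ne hne with h1 | h1
  · exact not_eq_of_lt hD h1 hij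
  · exact not_eq_of_lt hD h1 hij.symm

/-- the constant factor -/
noncomputable def cc (p : ℕ) : ℝ := (1 - 1 / (p : ℝ))⁻¹

lemma cc_pos {p : ℕ} (hp : p.Prime) : 0 < cc p := by
  have hp1 : (1 : ℝ) < p := by exact_mod_cast hp.one_lt
  unfold cc
  rw [inv_pos, sub_pos, div_lt_one (by linarith)]
  exact hp1

/-- the function on residues -/
noncomputable def GG {k : ℕ} (p : ℕ) [Fact p.Prime] (J : Finset (Fin k)) (h : Fin k → ℕ)
    (x : ZMod p) : ℂ :=
  (∏ i, (if x + ((h i : ℕ) : ZMod p) = 0 then (0 : ℂ) else (cc p : ℝ))) *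
    ∏ j ∈ J, ((quadraticChar (ZMod p) (x + ((h j : ℕ) : ZMod p)) : ℤ) : ℂ)

lemma wlf_eq {k p : ℕ} [hp : Fact p.Prime] (J : Finset (Fin k)) (h : Fin k → ℕ) (n : ℕ) :
    wlf p J h n = GG p J h (n : ZMod p) := by
  unfold wlf GG cc
  congr 1
  · refine prod_congr rfl fun i _ => ?_
    have h1 : p ∣ n + h i ↔ (n : ZMod p) + ((h i : ℕ) : ZMod p) = 0 := by
      rw [← ZMod.natCast_eq_zero_iff]
      push_cast
      rfl
    by_cases h2 : p ∣ n + h i
    · rw [if_pos h2, if_pos (h1.1 h2)]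
    · rw [if_neg h2, if_neg (fun h3 => h2 (h1.2 h3))]
  · refine prod_congr rfl fun j _ => ?_
    rw [dif_pos hp.out]
    push_cast
    rfl

/-- the residues at which some factor vanishes -/
noncomputable def Bad {k : ℕ} (p : ℕ) [Fact p.Prime] (h : Fin k → ℕ) : Finset (ZMod p) :=
  univ.image fun i => -((h i : ℕ) : ZMod p)

lemma card_Bad {k p : ℕ} [Fact p.Prime] (h : Fin k → ℕ) : (Bad p h).card = nuI h p := by
  unfold Bad nuI
  have : (univ.image fun i => -((h i : ℕ) : ZMod p)) =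
      (univ.image fun i => ((h i : ℕ) : ZMod p)).image (fun x => -x) := by
    rw [image_image]
    rfl
  rw [this, card_image_of_injective _ neg_injective]

lemma norm_chi_le {p : ℕ} [Fact p.Prime] (a : ZMod p) :
    ‖((quadraticChar (ZMod p) a : ℤ) : ℂ)‖ ≤ 1 := by
  by_cases h : a = 0
  · rw [h]; simp
  · rcases quadraticChar_dichotomy h with h1 | h1 <;> rw [h1] <;> simp

lemma GG_bad {k p : ℕ} [Fact p.Prime] (J : Finset (Fin k)) (h : Fin k → ℕ) {x : ZMod p}
    (hx : x ∈ Bad p h) : GG p J h x = 0 := by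
  unfold Bad at hx
  rw [mem_image] at hx
  obtain ⟨i, -, hi⟩ := hx
  unfold GG
  rw [prod_eq_zero (mem_univ i), zero_mul]
  rw [if_pos]
  rw [← hi, neg_add_cancel]

lemma GG_good {k p : ℕ} [Fact p.Prime] (J : Finset (Fin k)) (h : Fin k → ℕ) {x : ZMod p}
    (hx : x ∉ Bad p h) : GG p J h x = ((cc p : ℝ) : ℂ) ^ k *
      ((quadraticChar (ZMod p) (∏ j ∈ J, (x + ((h j : ℕ) : ZMod p))) : ℤ) : ℂ) := by
  unfold GG
  have h1 : ∀ i ∈ (univ : Finset (Fin k)), (if x + ((h i : ℕ) : ZMod p) = 0 then (0 : ℂ)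
      else ((cc p : ℝ) : ℂ)) = ((cc p : ℝ) : ℂ) := by
    intro i _
    rw [if_neg]
    intro h2
    apply hx
    unfold Bad
    rw [mem_image]
    exact ⟨i, mem_univ _, by rw [eq_neg_of_add_eq_zero_left h2]⟩
  rw [prod_congr rfl h1, prod_const, card_univ, Fintype.card_fin, map_prod]
  push_cast
  rfl

lemma av_le {k p : ℕ} [hp : Fact p.Prime] (J : Finset (Fin k)) (h : Fin k → ℕ) :
    ‖av p (wlf p J h)‖ ≤ locI h p := by
  classical
  have hp0 : (0 : ℝ) < p := by exact_mod_cast hp.out.pos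
  have hc := cc_pos hp.out
  have h1 : ∑ n ∈ range p, wlf p J h n = ∑ x, GG p J h x := by
    rw [← sum_zmod]
    exact sum_congr rfl fun n _ => wlf_eq J h n
  unfold av
  rw [h1, norm_div, Complex.norm_natCast, div_le_iff₀ hp0]
  have h2 : ∀ x ∈ (univ : Finset (ZMod p)), ‖GG p J h x‖ ≤
      cc p ^ k - (if x ∈ Bad p h then cc p ^ k else 0) := by
    intro x _
    by_cases hx : x ∈ Bad p h
    · rw [GG_bad J h hx, if_pos hx, norm_zero, sub_self]
    · rw [GG_good J h hx, if_neg hx, sub_zero, norm_mul, norm_pow, Complex.norm_real,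
        Real.norm_of_nonneg hc.le]
      exact mul_le_of_le_one_right (by positivity) (norm_chi_le _)
  refine (norm_sum_le _ _).trans ((sum_le_sum h2).trans (le_of_eq ?_))
  rw [sum_sub_distrib, sum_const, card_univ, ZMod.card, ← sum_filter, sum_const]
  have h3 : (univ.filter fun x => x ∈ Bad p h) = Bad p h := by
    ext x; simp
  rw [h3, card_Bad, nsmul_eq_mul, nsmul_eq_mul]
  unfold locI cc
  rw [Fintype.card_fin]
  field_simp

lemma av_le2 {k p : ℕ} [hp : Fact p.Prime] (J : Finset (Fin k)) (h : Fin k → ℕ)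
    (hinj : Function.Injective fun i => ((h i : ℕ) : ZMod p)) {C : ℝ}
    (hC : ∀ S : Finset (ZMod p), S.card = J.card →
      |∑ x : ZMod p, ((quadraticChar (ZMod p) (∏ s ∈ S, (x - s)) : ℤ) : ℝ)| ≤
        C * Real.sqrt p) :
    ‖av p (wlf p J h)‖ ≤ cc p ^ k * (C * Real.sqrt p + k) / p := by
  classical
  have hp0 : (0 : ℝ) < p := by exact_mod_cast hp.out.pos
  have hc := cc_pos hp.out
  have h1 : ∑ n ∈ range p, wlf p J h n = ∑ x, GG p J h x := by
    rw [← sum_zmod]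
    exact sum_congr rfl fun n _ => wlf_eq J h n
  unfold av
  rw [h1, norm_div, Complex.norm_natCast]
  refine div_le_div_of_nonneg_right ?_ hp0.le
  set ch : ZMod p → ℂ := fun x =>
    ((quadraticChar (ZMod p) (∏ j ∈ J, (x + ((h j : ℕ) : ZMod p))) : ℤ) : ℂ) with hch
  have h2 : ∀ x ∈ (univ : Finset (ZMod p)), GG p J h x =
      ((cc p : ℝ) : ℂ) ^ k * ch x - (if x ∈ Bad p h then ((cc p : ℝ) : ℂ) ^ k * ch x else 0) := by
    intro x _
    by_cases hx : x ∈ Bad p h
    · rw [GG_bad J h hx, if_pos hx, sub_self]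
    · rw [GG_good J h hx, if_neg hx, sub_zero]
  rw [sum_congr rfl h2, sum_sub_distrib, ← mul_sum, ← sum_filter]
  have h3 : (univ.filter fun x => x ∈ Bad p h) = Bad p h := by
    ext x; simp
  rw [h3, mul_add]
  refine (norm_sub_le _ _).trans (add_le_add ?_ ?_)
  · rw [norm_mul, norm_pow, Complex.norm_real, Real.norm_of_nonneg hc.le]
    refine mul_le_mul_of_nonneg_left ?_ (by positivity)
    set S : Finset (ZMod p) := J.image fun j => -((h j : ℕ) : ZMod p) with hS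
    have hi : Function.Injective fun j => -((h j : ℕ) : ZMod p) :=
      neg_injective.comp hinj
    have hcard : S.card = J.card := card_image_of_injective _ hi
    have h4 : ∑ x, ch x = ((∑ x : ZMod p,
        ((quadraticChar (ZMod p) (∏ s ∈ S, (x - s)) : ℤ) : ℝ) : ℝ) : ℂ) := by
      push_cast
      refine sum_congr rfl fun x _ => ?_
      rw [hch, hS]
      simp only
      rw [prod_image (fun a _ b _ hab => hi hab)]
      simp only [sub_neg_eq_add]
    rw [h4, Complex.norm_real, Real.norm_eq_abs]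
    exact hC S hcard
  · refine (norm_sum_le _ _).trans ?_
    have h5 : ∀ x ∈ Bad p h, ‖((cc p : ℝ) : ℂ) ^ k * ch x‖ ≤ cc p ^ k := by
      intro x _
      rw [norm_mul, norm_pow, Complex.norm_real, Real.norm_of_nonneg hc.le]
      exact mul_le_of_le_one_right (by positivity) (norm_chi_le _)
    refine (sum_le_sum h5).trans ?_
    rw [sum_const, nsmul_eq_mul, card_Bad, mul_comm]
    refine mul_le_mul_of_nonneg_left ?_ (by positivity)
    have := nuI_le h p
    rw [Fintype.card_fin] at this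
    exact_mod_cast this

end WeilLAux

open WeilLAux in
theorem wl_loc (k : ℕ) : ∃ P1 : ℕ, ∀ p : ℕ, p.Prime → 3 ≤ p → ∀ (J : Finset (Fin k)) (h : Fin k → ℕ),
    J.Nonempty → ¬ p ∣ Del h →
    ‖av p (wlf p J h)‖ ≤ locI h p ∧
      (P1 ≤ p → ‖av p (wlf p J h)‖ ≤ (p : ℝ) ^ (-(1 / 4 : ℝ)) * locI h p) := by
  classical
  have hw : ∀ m : ℕ, ∃ C : ℝ, 0 < C ∧ (1 ≤ m → ∀ p : ℕ, ∀ [Fact p.Prime], p ≠ 2 →
      ∀ S : Finset (ZMod p), S.card = m →
        |∑ x : ZMod p, ((quadraticChar (ZMod p) (∏ s ∈ S, (x - s)) : ℤ) : ℝ)| ≤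
          C * Real.sqrt p) := by
    intro m
    by_cases hm : 1 ≤ m
    · obtain ⟨C, hC, h⟩ := Pool.Agent.P4f18dfQ.weil m hm
      exact ⟨C, hC, fun _ => h⟩
    · exact ⟨1, one_pos, fun h => absurd h hm⟩
  choose Cm hCm hwm using hw
  set C : ℝ := ∑ m ∈ range (k + 1), Cm m with hC
  have hC0 : 0 ≤ C := sum_nonneg fun m _ => (hCm m).le
  set B : ℝ := 2 * (C + k) with hB
  have hB0 : 0 ≤ B := by positivity
  refine ⟨⌈B ^ 4⌉₊ + 2 * k + 1, ?_⟩
  intro p hp hp3 J h hJ hD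
  have : Fact p.Prime := ⟨hp⟩
  refine ⟨av_le J h, fun hP1 => ?_⟩
  have hp0 : (0 : ℝ) < p := by exact_mod_cast hp.pos
  have hc := cc_pos hp
  have hJk : J.card ≤ k := by
    have := J.card_le_univ
    rwa [Fintype.card_fin] at this
  have hJ1 : 1 ≤ J.card := hJ.card_pos
  have hsq0 : 0 ≤ Real.sqrt p := Real.sqrt_nonneg _
  have hsq1 : 1 ≤ Real.sqrt p := by
    rw [Real.one_le_sqrt]
    exact_mod_cast hp.one_lt.le
  have hw : ∀ S : Finset (ZMod p), S.card = J.card →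
      |∑ x : ZMod p, ((quadraticChar (ZMod p) (∏ s ∈ S, (x - s)) : ℤ) : ℝ)| ≤
        C * Real.sqrt p := by
    intro S hS
    refine (hwm J.card hJ1 p (by omega) S hS).trans ?_
    refine mul_le_mul_of_nonneg_right ?_ hsq0
    rw [hC]
    exact single_le_sum (f := Cm) (fun m _ => (hCm m).le) (mem_range.2 (by omega))
  have h1 := av_le2 J h (inj_h hD) hw
  have hk2 : 2 * (k : ℝ) ≤ p := by
    have : 2 * k ≤ p := by omega
    exact_mod_cast this
  have hB4 : B ^ 4 ≤ p := by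
    have h2 : ⌈B ^ 4⌉₊ ≤ p := by omega
    exact (Nat.le_ceil _).trans (by exact_mod_cast h2)
  have hloc : cc p ^ k / 2 ≤ locI h p := by
    unfold locI
    rw [Fintype.card_fin]
    have h3 : (nuI h p : ℝ) ≤ k := by
      have := nuI_le h p
      rw [Fintype.card_fin] at this
      exact_mod_cast this
    have h4 : (nuI h p : ℝ) / p ≤ 1 / 2 := by
      rw [div_le_iff₀ hp0]
      linarith
    have h5 : 0 ≤ cc p ^ k := by positivity
    change cc p ^ k / 2 ≤ (1 - (nuI h p : ℝ) / p) * cc p ^ k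
    nlinarith
  have hsp : Real.sqrt p * Real.sqrt p = p := Real.mul_self_sqrt hp0.le
  -- the quarter power
  set r : ℝ := (p : ℝ) ^ (1 / 4 : ℝ) with hr
  have hr0 : 0 < r := Real.rpow_pos_of_pos hp0 _
  have hr2 : r ^ 2 = Real.sqrt p := by
    rw [hr, Real.sqrt_eq_rpow, ← Real.rpow_natCast, ← Real.rpow_mul hp0.le]
    norm_num
  have hr4 : r ^ 4 = p := by
    rw [show r ^ 4 = r ^ 2 * r ^ 2 by ring, hr2, hsp]
  have hBr : B ≤ r := by
    rw [← hr4] at hB4
    exact le_of_pow_le_pow_left₀ (by norm_num) hr0.le hB4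
  have hneg : (p : ℝ) ^ (-(1 / 4 : ℝ)) = r⁻¹ := by
    rw [hr, Real.rpow_neg hp0.le]
  rw [hneg]
  refine h1.trans ?_
  have h6 : cc p ^ k * (C * Real.sqrt p + k) / p ≤ r⁻¹ * (cc p ^ k / 2) := by
    have hck : 0 < cc p ^ k := by positivity
    rw [div_le_iff₀ hp0]
    have h7 : C * Real.sqrt p + k ≤ (C + k) * Real.sqrt p := by
      have : (k : ℝ) ≤ k * Real.sqrt p := le_mul_of_one_le_right (Nat.cast_nonneg _) hsq1
      linarith
    have h8 : r⁻¹ * (cc p ^ k / 2) * p = cc p ^ k * (r ^ 3 / 2) := by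
      rw [← hr4]
      field_simp
    rw [h8]
    refine mul_le_mul_of_nonneg_left ?_ hck.le
    refine h7.trans ?_
    rw [← hr2]
    have h9 : (C + k) = B / 2 := by rw [hB]; ring
    rw [h9]
    nlinarith [sq_nonneg r]
  refine h6.trans ?_
  exact mul_le_mul_of_nonneg_left hloc (by positivity)

end Pool.Agent.Lib.GMV
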