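import Pool.Agent.Lib.GMV.Compl
import Pool.Agent.Lib.GMV.RealSplit
import Pool.Agent.Lib.GMV.WeilL
import Pool.Agent.Lib.HLT.Correl

/-!
# GMV.ExcB: the exceptional terms (paper 4.4)

PROOF. `TP_eq`. `q = md xe`, `G = {p ≥ 3 prime : p ∣ q, p ∤ Del h}` (all `≤ Y`), `J = {i : x i = xe}`. `real_split` for `G`: the function
is `(rest)(n) · ∏_{p∈G} wlf p J h n`, where `rest n = ∏_{j∈J} conj g(n+h j) · ∏_{p ≤ Y, p ∉ G} ∏_i (1-1/p)⁻¹ 1[p ∤ n+h i]`; `rest` has a period coprime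
to the primes of `G` (`M ∏_{p ≤ Y, p∉G} p`), and `P0 Y x` is a multiple of the common period; `av_period`, `av_prod`:
`‖TP‖ ≤ ∏_{p ≤ Y, p∉G} locI h p · ∏_{p∈G} ‖av p (wlf p J h)‖` (the mean of `|rest|` is at most `∏ locI`). With `wl_loc` this is
`≤ SZ Y h ∏_{p∈G, p ≥ P1} p^(-1/4) ≤ SZ Y h (∏_{p<P1} p)^(1/4) (∏_{p∈G} p)^(-1/4)`. Finally `q ∣ 2^3 ∏_{p odd, p∣q} p` (`real_two`, `real_odd`),
so `q/gcd(q, Del h) ≤ 8 ∏_{p∈G} p`. (`q ≥ 1`, so `Gq` is the power; if `Del h = 0`, `gcd = q`, the bound is `TP_le`.)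
-/

set_option autoImplicit false

open Finset Filter

namespace Pool.Agent.Lib.GMV

open Pool.Agent.HLB Pool.Agent.HLT Pool.Agent.HLR

namespace ExcBAux

/-- The local weight at `p`. -/
noncomputable def uc {k : ℕ} (p : ℕ) (h : Fin k → ℕ) (n : ℕ) : ℂ :=
  ∏ i, (if p ∣ n + h i then (0 : ℂ) else ((1 - 1 / (p : ℝ))⁻¹ : ℝ))

/-- The real local weight at `p`. -/
noncomputable def ur {k : ℕ} (p : ℕ) (h : Fin k → ℕ) (n : ℕ) : ℝ :=
  ∏ i, (if p ∣ n + h i then (0 : ℝ) else (1 - 1 / (p : ℝ))⁻¹)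

/-- The real character at `p`. -/
noncomputable def ch (p n : ℕ) : ℂ :=
  ((if hp : p.Prime then
    (haveI := Fact.mk hp; quadraticChar (ZMod p) (n : ZMod p)) else 0 : ℤ) : ℂ)

lemma wlf_eq {k : ℕ} (p : ℕ) (J : Finset (Fin k)) (h : Fin k → ℕ) (n : ℕ) :
    wlf p J h n = uc p h n * ∏ j ∈ J, ch p (n + h j) := rfl

lemma uc_eq {k : ℕ} (p : ℕ) (h : Fin k → ℕ) (n : ℕ) : uc p h n = (ur p h n : ℂ) := by
  unfold uc ur
  rw [Complex.ofReal_prod]
  refine Finset.prod_congr rfl fun i _ => ?_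
  split_ifs <;> simp

lemma ur_nonneg {k : ℕ} {p : ℕ} (hp : p.Prime) (h : Fin k → ℕ) (n : ℕ) : 0 ≤ ur p h n := by
  unfold ur
  refine Finset.prod_nonneg fun i _ => ?_
  split_ifs
  · exact le_rfl
  · have hp1 : (1 : ℝ) ≤ p := by exact_mod_cast hp.one_lt.le
    rw [inv_nonneg, sub_nonneg, div_le_one (by linarith)]
    exact hp1

lemma ur_periodic {k : ℕ} (p : ℕ) (h : Fin k → ℕ) (n : ℕ) : ur p h (n + p) = ur p h n := by
  unfold ur
  refine Finset.prod_congr rfl fun i _ => ?_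
  have e : p ∣ n + p + h i ↔ p ∣ n + h i := by
    rw [show n + p + h i = n + h i + p by ring, Nat.dvd_add_self_right]
  simp only [e]

lemma uc_periodic {k : ℕ} (p : ℕ) (h : Fin k → ℕ) (n : ℕ) : uc p h (n + p) = uc p h n := by
  rw [uc_eq, uc_eq, ur_periodic]

lemma ch_periodic (p n : ℕ) : ch p (n + p) = ch p n := by
  unfold ch
  push_cast
  rw [ZMod.natCast_self, add_zero]

lemma wlf_periodic {k : ℕ} (p : ℕ) (J : Finset (Fin k)) (h : Fin k → ℕ) (n : ℕ) :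
    wlf p J h (n + p) = wlf p J h n := by
  rw [wlf_eq, wlf_eq, uc_periodic]
  congr 1
  refine Finset.prod_congr rfl fun j _ => ?_
  rw [show n + p + h j = n + h j + p by ring, ch_periodic]

/-- The local mean. -/
lemma sum_ur {k : ℕ} {p : ℕ} (hp : p.Prime) (h : Fin k → ℕ) :
    ∑ n ∈ range p, ur p h n = p * locI h p := by
  classical
  have hp0 : (p : ℝ) ≠ 0 := by exact_mod_cast hp.ne_zero
  have h1 : ∀ n ∈ range p, ur p h n =
      if n ∈ exres h p then 0 else ((1 - 1 / (p : ℝ))⁻¹) ^ k := by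
    intro n hn
    have hnp : n % p = n := Nat.mod_eq_of_lt (Finset.mem_range.1 hn)
    unfold ur
    split_ifs with hm
    · obtain ⟨i, -, hi⟩ := Finset.mem_image.1 hm
      refine Finset.prod_eq_zero (Finset.mem_univ i) ?_
      rw [if_pos]
      rw [dvd_add_iff_negres hp.pos, hnp, hi]
    · have e : ((1 - 1 / (p : ℝ))⁻¹) ^ k = ∏ _i : Fin k, (1 - 1 / (p : ℝ))⁻¹ := by simp
      rw [e]
      refine Finset.prod_congr rfl fun i _ => ?_
      rw [if_neg]
      intro hd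
      rw [dvd_add_iff_negres hp.pos, hnp] at hd
      exact hm (Finset.mem_image.2 ⟨i, Finset.mem_univ i, hd.symm⟩)
  rw [Finset.sum_congr rfl h1]
  have h2 : ∑ n ∈ range p, (if n ∈ exres h p then (0 : ℝ) else ((1 - 1 / (p : ℝ))⁻¹) ^ k) =
      ∑ n ∈ range p \ exres h p, ((1 - 1 / (p : ℝ))⁻¹) ^ k := by
    rw [Finset.sdiff_eq_filter, Finset.sum_filter]
    refine Finset.sum_congr rfl fun n _ => ?_
    by_cases hn : n ∈ exres h p <;> simp [hn]
  rw [h2, Finset.sum_const, Finset.card_sdiff_of_subset (exres_subset h hp.pos),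
    Finset.card_range, card_exres h hp.pos, nsmul_eq_mul]
  have h3 : nuI h p ≤ p := nuI_le_prime h hp
  rw [Nat.cast_sub h3]
  unfold locI
  rw [Fintype.card_fin]
  field_simp

lemma av_uc {k : ℕ} {p : ℕ} (hp : p.Prime) (h : Fin k → ℕ) :
    av p (uc p h) = (locI h p : ℂ) := by
  have hp0 : (p : ℂ) ≠ 0 := by exact_mod_cast hp.ne_zero
  unfold av
  have h1 : ∑ n ∈ range p, uc p h n = ((∑ n ∈ range p, ur p h n : ℝ) : ℂ) := by
    rw [Complex.ofReal_sum]
    exact Finset.sum_congr rfl fun n _ => uc_eq p h n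
  rw [h1, sum_ur hp h]
  push_cast
  field_simp

/-- The mean of the product of the local weights. -/
lemma av_prod_uc {k : ℕ} (S : Finset ℕ) (hS : ∀ p ∈ S, p.Prime) (M : ℕ) (hM : 1 ≤ M)
    (h : Fin k → ℕ) :
    av (M * ∏ p ∈ S, p) (fun n => ∏ p ∈ S, uc p h n) = ((∏ p ∈ S, locI h p : ℝ) : ℂ) := by
  have hpos : 1 ≤ ∏ p ∈ S, p := Finset.prod_pos fun p hp => (hS p hp).pos
  have hper : ∀ n, (fun n => ∏ p ∈ S, uc p h n) (n + ∏ p ∈ S, p) =
      (fun n => ∏ p ∈ S, uc p h n) n := by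
    intro n
    refine Finset.prod_congr rfl fun p hp => ?_
    obtain ⟨t, ht⟩ : p ∣ ∏ p ∈ S, p := Finset.dvd_prod_of_mem (fun q => q) hp
    rw [ht, PerMeanAux.per_mul p (uc p h) (uc_periodic p h)]
  rw [mul_comm M, av_period _ M hpos hM _ hper]
  have h1 := av_prod S hS 1 le_rfl (fun p _ => Nat.coprime_one_left p) (fun _ => 1)
    (fun _ => rfl) (fun p => uc p h) (fun p _ => uc_periodic p h)
  rw [one_mul] at h1
  simp only [one_mul] at h1
  rw [h1]
  have h2 : av 1 (fun _ => (1 : ℂ)) = 1 := by unfold av; simp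
  rw [h2, one_mul, Complex.ofReal_prod]
  exact Finset.prod_congr rfl fun p hp => av_uc (hS p hp) h

/-- The model as a product of local weights. -/
lemma nuz_prod {k : ℕ} (Y : ℕ) (h : Fin k → ℕ) (n : ℕ) :
    ∏ i, (nuz Y (n + h i) : ℂ) = ∏ p ∈ Nat.primesLE Y, uc p h n := by
  unfold uc
  rw [Finset.prod_comm]
  refine Finset.prod_congr rfl fun i _ => ?_
  unfold nuz ic DZ
  rw [← Finset.prod_inv_distrib]
  split_ifs with h1
  · rw [mul_one, Complex.ofReal_prod]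
    refine Finset.prod_congr rfl fun p hp => ?_
    rw [if_neg (h1 p hp)]
  · push Not at h1
    obtain ⟨p, hp, hd⟩ := h1
    rw [mul_zero, Complex.ofReal_zero]
    symm
    apply Finset.prod_eq_zero hp
    exact if_pos hd

lemma cv_one (n : ℕ) : cv one n = 1 := by
  unfold cv one
  have h1 : ((n : ℕ) : ZMod (0 + 1)) = 1 := Subsingleton.elim (α := ZMod 1) _ _
  show (1 : DirichletCharacter ℂ (0 + 1)) ((n : ℕ) : ZMod (0 + 1)) = 1
  rw [h1, map_one]

lemma conj_ch (p n : ℕ) : (starRingEnd ℂ) (ch p n) = ch p n := by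
  unfold ch
  exact map_intCast _ _

/-- The modulus is at most eight times the product of its odd prime factors. -/
lemma md_le (xe : CI) (hx : xe.2.IsPrimitive) (h2 : xe.2 ^ 2 = 1) :
    md xe ≤ 8 * ∏ p ∈ (md xe).primeFactors.filter (fun p => ¬ p = 2), p := by
  have hq : md xe ≠ 0 := (md_pos xe).ne'
  have h1 : md xe = ∏ p ∈ (md xe).primeFactors, p ^ (md xe).factorization p :=
    (Nat.prod_factorization_pow_eq_self hq).symm
  have h3 : ∏ p ∈ (md xe).primeFactors, p ^ (md xe).factorization p ≤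
      ∏ p ∈ (md xe).primeFactors, (if p = 2 then 8 else p) := by
    refine Finset.prod_le_prod' fun p hp => ?_
    have hpp : p.Prime := (Nat.mem_primeFactors.1 hp).1
    split_ifs with h
    · subst h
      have h4 : (md xe).factorization 2 ≤ 3 := by
        by_contra hcon
        have h5 : 2 ^ 4 ∣ md xe :=
          (Nat.Prime.pow_dvd_iff_le_factorization Nat.prime_two hq).2 (by omega)
        exact real_two xe hx h2 (by simpa using h5)
      calc 2 ^ (md xe).factorization 2 ≤ 2 ^ 3 := Nat.pow_le_pow_right (by norm_num) h4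
        _ = 8 := by norm_num
    · have hp3 : 3 ≤ p := by
        have := hpp.two_le
        omega
      have h4 : (md xe).factorization p ≤ 1 := by
        by_contra hcon
        have h5 : p ^ 2 ∣ md xe :=
          (Nat.Prime.pow_dvd_iff_le_factorization hpp hq).2 (by omega)
        exact real_odd xe hx h2 p hpp hp3 h5
      calc p ^ (md xe).factorization p ≤ p ^ 1 := Nat.pow_le_pow_right hpp.pos h4
        _ = p := pow_one p
  have h4 : ∏ p ∈ (md xe).primeFactors, (if p = 2 then 8 else p) ≤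
      8 * ∏ p ∈ (md xe).primeFactors.filter (fun p => ¬ p = 2), p := by
    rw [Finset.prod_ite]
    refine Nat.mul_le_mul_right _ ?_
    rw [Finset.filter_eq']
    split_ifs <;> simp
  omega

end ExcBAux

open ExcBAux

theorem excB (k : ℕ) : ∃ C : ℝ, 0 < C ∧ ∀ (Y : ℕ) (xe : CI) (x : Fin k → CI) (h : Fin k → ℕ),
    xe.2.IsPrimitive → xe.2 ^ 2 = 1 → md xe ≤ Y → (∀ i, x i = one ∨ x i = xe) → (∃ i, x i = xe) →
    ‖TP Y x h‖ ≤ C * SZ Y h * Gq (md xe) h := by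
  classical
  obtain ⟨P1, hP1⟩ := wl_loc k
  obtain ⟨C1, hC1⟩ : ∃ C1 : ℕ, C1 = ∏ p ∈ Nat.primesLE P1, p := ⟨_, rfl⟩
  have hC1pos : 0 < C1 := by
    rw [hC1]
    exact Finset.prod_pos fun p hp => (Nat.mem_primesLE.1 hp).2.pos
  have hC1r : (0 : ℝ) < C1 := by exact_mod_cast hC1pos
  refine ⟨8 * C1, by positivity, ?_⟩
  intro Y xe x h hprim hsq hY hx hex
  obtain ⟨q, hq⟩ : ∃ q, q = md xe := ⟨_, rfl⟩
  have hq0 : 0 < q := by rw [hq]; exact md_pos xe
  obtain ⟨G, hG⟩ : ∃ G, G = q.primeFactors.filter (fun p => p ≠ 2 ∧ ¬ p ∣ Del h) := ⟨_, rfl⟩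
  obtain ⟨J, hJ⟩ : ∃ J : Finset (Fin k), J = univ.filter (fun i => x i = xe) := ⟨_, rfl⟩
  have hGm : ∀ p ∈ G, p.Prime ∧ 3 ≤ p ∧ p ∣ q ∧ ¬ p ∣ Del h := by
    intro p hp
    rw [hG, Finset.mem_filter, Nat.mem_primeFactors] at hp
    obtain ⟨⟨h1, h2, -⟩, h3, h4⟩ := hp
    have := h1.two_le
    exact ⟨h1, by omega, h2, h4⟩
  have hGY : G ⊆ Nat.primesLE Y := by
    intro p hp
    obtain ⟨h1, -, h2, -⟩ := hGm p hp
    rw [Nat.mem_primesLE]
    exact ⟨(Nat.le_of_dvd hq0 h2).trans (hq ▸ hY), h1⟩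
  have hJne : J.Nonempty := by
    obtain ⟨i, hi⟩ := hex
    exact ⟨i, by rw [hJ]; exact Finset.mem_filter.2 ⟨Finset.mem_univ i, hi⟩⟩
  obtain ⟨M, g, hM, hMc, hgp, hg1, hgs⟩ := real_split xe hprim hsq G (fun p hp => by
    obtain ⟨h1, h2, h3, -⟩ := hGm p hp
    exact ⟨h1, h2, hq ▸ h3⟩)
  have hgs' : ∀ n : ℕ, cv xe n = g n * ∏ p ∈ G, ch p n := hgs
  have hMpos : 1 ≤ M := by
    rcases Nat.eq_zero_or_pos M with h0 | h0
    · rw [h0, zero_mul] at hM
      have := md_pos xe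
      omega
    · exact h0
  obtain ⟨S, hS⟩ : ∃ S, S = Nat.primesLE Y \ G := ⟨_, rfl⟩
  have hSp : ∀ p ∈ S, p.Prime := fun p hp => by
    rw [hS] at hp
    exact (Nat.mem_primesLE.1 (Finset.mem_sdiff.1 hp).1).2
  obtain ⟨rest, hrest⟩ : ∃ rest : ℕ → ℂ, rest = fun n =>
      (∏ j ∈ J, (starRingEnd ℂ) (g (n + h j))) * ∏ p ∈ S, uc p h n := ⟨_, rfl⟩
  have hfun : (fun n => ∏ i, ((starRingEnd ℂ) (cv (x i) (n + h i)) * (nuz Y (n + h i) : ℂ))) =
      fun n => rest n * ∏ p ∈ G, wlf p J h n := by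
    funext n
    rw [Finset.prod_mul_distrib, nuz_prod]
    have e1 : ∏ i, (starRingEnd ℂ) (cv (x i) (n + h i)) =
        ∏ j ∈ J, (starRingEnd ℂ) (cv xe (n + h j)) := by
      rw [hJ, Finset.prod_filter]
      refine Finset.prod_congr rfl fun i _ => ?_
      split_ifs with h1
      · rw [h1]
      · rcases hx i with h2 | h2
        · rw [h2, cv_one, map_one]
        · exact absurd h2 h1
    have e2 : ∏ j ∈ J, (starRingEnd ℂ) (cv xe (n + h j)) =
        (∏ j ∈ J, (starRingEnd ℂ) (g (n + h j))) * ∏ p ∈ G, ∏ j ∈ J, ch p (n + h j) := by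
      rw [Finset.prod_comm, ← Finset.prod_mul_distrib]
      refine Finset.prod_congr rfl fun j _ => ?_
      rw [hgs', map_mul, map_prod]
      congr 1
      exact Finset.prod_congr rfl fun p _ => conj_ch p _
    have e3 : ∏ p ∈ Nat.primesLE Y, uc p h n = (∏ p ∈ S, uc p h n) * ∏ p ∈ G, uc p h n := by
      rw [hS]
      exact (Finset.prod_sdiff hGY).symm
    have e4 : ∏ p ∈ G, wlf p J h n = (∏ p ∈ G, uc p h n) * ∏ p ∈ G, ∏ j ∈ J, ch p (n + h j) := by
      rw [← Finset.prod_mul_distrib]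
      exact Finset.prod_congr rfl fun p _ => wlf_eq p J h n
    rw [e1, e2, e3, e4, hrest]
    ring
  have hmd : ∀ i, md (x i) ≤ Y := by
    intro i
    rcases hx i with h1 | h1
    · rw [h1]
      have : md one = 1 := rfl
      rw [this]
      exact le_trans (md_pos xe) hY
    · rw [h1]; exact hY
  rw [TP_eq Y x hmd h, hfun]
  -- the period
  have hprodS : 1 ≤ ∏ p ∈ S, p := Finset.prod_pos fun p hp => (hSp p hp).pos
  have hprodG : 1 ≤ ∏ p ∈ G, p := Finset.prod_pos fun p hp => (hGm p hp).1.pos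
  have hrestper : ∀ n, rest (n + M * ∏ p ∈ S, p) = rest n := by
    intro n
    rw [hrest]
    beta_reduce
    congr 1
    · refine Finset.prod_congr rfl fun j _ => ?_
      rw [show n + M * ∏ p ∈ S, p + h j = n + h j + M * ∏ p ∈ S, p by ring,
        PerMeanAux.per_mul M g hgp]
    · refine Finset.prod_congr rfl fun p hp => ?_
      obtain ⟨t, ht⟩ : p ∣ M * ∏ p ∈ S, p :=
        (Finset.dvd_prod_of_mem (fun q => q) hp).mul_left M
      rw [ht, PerMeanAux.per_mul p (uc p h) (uc_periodic p h)]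
  have hMS : 1 ≤ M * ∏ p ∈ S, p := Nat.mul_pos hMpos hprodS
  have hper : ∀ n, (fun n => rest n * ∏ p ∈ G, wlf p J h n) (n + M * (∏ p ∈ S, p) * ∏ p ∈ G, p) =
      (fun n => rest n * ∏ p ∈ G, wlf p J h n) n := by
    intro n
    beta_reduce
    congr 1
    · exact PerMeanAux.per_mul _ rest hrestper _ n
    · refine Finset.prod_congr rfl fun p hp => ?_
      obtain ⟨t, ht⟩ : p ∣ M * (∏ p ∈ S, p) * ∏ p ∈ G, p :=
        (Finset.dvd_prod_of_mem (fun q => q) hp).mul_left _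
      rw [ht, PerMeanAux.per_mul p _ (wlf_periodic p J h)]
  obtain ⟨m, hm⟩ : M ∣ ∏ i, md (x i) := by
    obtain ⟨i, hi⟩ := hex
    have h1 : M ∣ md (x i) := by
      rw [hi, hM]
      exact Dvd.intro _ rfl
    exact h1.trans (Finset.dvd_prod_of_mem (fun i => md (x i)) (Finset.mem_univ i))
  have hP0 : P0 Y x = (M * (∏ p ∈ S, p) * ∏ p ∈ G, p) * m := by
    unfold P0
    have e3 : ∏ p ∈ Nat.primesLE Y, p = (∏ p ∈ S, p) * ∏ p ∈ G, p := by
      rw [hS]
      exact (Finset.prod_sdiff hGY).symm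
    rw [hm, e3]
    ring
  have hm1 : 1 ≤ m := by
    have h1 : 0 < ∏ i, md (x i) := Finset.prod_pos fun i _ => md_pos (x i)
    rw [hm] at h1
    exact Nat.pos_of_mul_pos_left h1
  have hcop : ∀ p ∈ G, (M * ∏ p ∈ S, p).Coprime p := by
    intro p hp
    refine Nat.Coprime.mul_left (hMc p hp) ?_
    refine Nat.Coprime.prod_left fun r hr => ?_
    refine (Nat.coprime_primes (hSp r hr) (hGm p hp).1).mpr ?_
    rintro rfl
    rw [hS] at hr
    exact (Finset.mem_sdiff.1 hr).2 hp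
  rw [hP0, av_period _ m (Nat.mul_pos hMS hprodG) hm1 _ hper,
    av_prod G (fun p hp => (hGm p hp).1) _ hMS hcop rest hrestper (fun p => wlf p J h)
      (fun p _ => wlf_periodic p J h)]
  -- the bounds
  have hb1 : ‖av (M * ∏ p ∈ S, p) rest‖ ≤ ∏ p ∈ S, locI h p := by
    have h1 := norm_av_le (M * ∏ p ∈ S, p) rest (fun n => ∏ p ∈ S, ur p h n) (fun n => by
      rw [hrest]
      beta_reduce
      rw [norm_mul, norm_prod, norm_prod]
      have h2 : ∏ j ∈ J, ‖(starRingEnd ℂ) (g (n + h j))‖ ≤ 1 :=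
        Finset.prod_le_one (fun _ _ => norm_nonneg _) (fun j _ => by
          rw [RCLike.norm_conj]
          exact hg1 _)
      have h3 : ∏ p ∈ S, ‖uc p h n‖ = ∏ p ∈ S, ur p h n :=
        Finset.prod_congr rfl fun p hp => by
          rw [uc_eq, Complex.norm_real, Real.norm_of_nonneg (ur_nonneg (hSp p hp) h n)]
      rw [h3]
      exact mul_le_of_le_one_left (Finset.prod_nonneg fun p hp => ur_nonneg (hSp p hp) h n) h2)
    refine h1.trans (le_of_eq ?_)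
    have h4 := av_prod_uc S hSp M hMpos h
    unfold av at h4
    have h5 : ∑ n ∈ range (M * ∏ p ∈ S, p), ∏ p ∈ S, uc p h n =
        ((∑ n ∈ range (M * ∏ p ∈ S, p), ∏ p ∈ S, ur p h n : ℝ) : ℂ) := by
      rw [Complex.ofReal_sum]
      refine Finset.sum_congr rfl fun n _ => ?_
      rw [Complex.ofReal_prod]
      exact Finset.prod_congr rfl fun p _ => uc_eq p h n
    rw [h5] at h4
    have h6 : (((∑ n ∈ range (M * ∏ p ∈ S, p), ∏ p ∈ S, ur p h n) /
        ((M * ∏ p ∈ S, p : ℕ) : ℝ) : ℝ) : ℂ) = ((∏ p ∈ S, locI h p : ℝ) : ℂ) := by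
      rw [← h4]
      push_cast
      rfl
    exact Complex.ofReal_injective h6
  have hl0 : ∀ p ∈ G, 0 ≤ locI h p := fun p hp => locI_nonneg h (hGm p hp).1
  have hb2 : ∀ p ∈ G, ‖av p (wlf p J h)‖ ≤
      ((if p < P1 then p else 1 : ℕ) : ℝ) * (p : ℝ) ^ (-(1 / 4 : ℝ)) * locI h p := by
    intro p hp
    obtain ⟨h1, h2, h3, h4⟩ := hGm p hp
    obtain ⟨h5, h6⟩ := hP1 p h1 h2 J h hJne h4
    split_ifs with hlt
    · refine h5.trans ?_
      refine le_mul_of_one_le_left (hl0 p hp) ?_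
      have hp1 : (1 : ℝ) ≤ p := by exact_mod_cast h1.one_lt.le
      have hp0 : (0 : ℝ) < p := by linarith
      have e : (p : ℝ) * (p : ℝ) ^ (-(1 / 4 : ℝ)) = (p : ℝ) ^ (3 / 4 : ℝ) := by
        rw [← Real.rpow_one_add' hp0.le (by norm_num)]
        norm_num
      rw [e]
      exact Real.one_le_rpow hp1 (by norm_num)
    · rw [Nat.cast_one, one_mul]
      exact h6 (not_lt.1 hlt)
  have hb3 : ‖∏ p ∈ G, av p (wlf p J h)‖ ≤
      C1 * (∏ p ∈ G, (p : ℝ)) ^ (-(1 / 4 : ℝ)) * ∏ p ∈ G, locI h p := by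
    rw [norm_prod]
    refine (Finset.prod_le_prod (fun _ _ => norm_nonneg _) hb2).trans ?_
    rw [Finset.prod_mul_distrib, Finset.prod_mul_distrib]
    refine mul_le_mul_of_nonneg_right ?_ (Finset.prod_nonneg hl0)
    rw [Real.finsetProd_rpow G (fun p => (p : ℝ)) (fun p _ => Nat.cast_nonneg p)]
    refine mul_le_mul_of_nonneg_right ?_ (by positivity)
    have h1 : ∏ p ∈ G, (if p < P1 then p else 1) ≤ C1 := by
      rw [hC1, ← Finset.prod_filter]
      refine Nat.le_of_dvd (Finset.prod_pos fun p hp => (Nat.mem_primesLE.1 hp).2.pos) ?_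
      refine Finset.prod_dvd_prod_of_subset _ _ _ ?_
      intro p hp
      obtain ⟨h2, h3⟩ := Finset.mem_filter.1 hp
      exact Nat.mem_primesLE.2 ⟨h3.le, (hGm p h2).1⟩
    calc ∏ p ∈ G, ((if p < P1 then p else 1 : ℕ) : ℝ) =
          ((∏ p ∈ G, (if p < P1 then p else 1) : ℕ) : ℝ) := by rw [Nat.cast_prod]
      _ ≤ C1 := by exact_mod_cast h1
  -- the arithmetic
  have hgcd0 : 0 < Nat.gcd q (Del h) := Nat.gcd_pos_of_pos_left _ hq0
  have hqle : (q : ℝ) / (Nat.gcd q (Del h) : ℝ) ≤ 8 * ∏ p ∈ G, (p : ℝ) := by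
    rw [div_le_iff₀ (by exact_mod_cast hgcd0)]
    have h1 := md_le xe hprim hsq
    rw [← hq] at h1
    have h2 : ∏ p ∈ q.primeFactors.filter (fun p => ¬ p = 2), p =
        (∏ p ∈ G, p) * ∏ p ∈ q.primeFactors.filter (fun p => ¬ p = 2 ∧ p ∣ Del h), p := by
      rw [hG, ← Finset.filter_filter, ← Finset.filter_filter, mul_comm]
      exact (Finset.prod_filter_mul_prod_filter_not _ _ _).symm
    have h3 : ∏ p ∈ q.primeFactors.filter (fun p => ¬ p = 2 ∧ p ∣ Del h), p ≤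
        Nat.gcd q (Del h) := by
      refine Nat.le_of_dvd hgcd0 ?_
      refine Finset.prod_primes_dvd _ (fun p hp => ?_) (fun p hp => ?_)
      · exact (Nat.mem_primeFactors.1 (Finset.mem_filter.1 hp).1).1.prime
      · obtain ⟨h4, -, h5⟩ := Finset.mem_filter.1 hp
        exact Nat.dvd_gcd (Nat.mem_primeFactors.1 h4).2.1 h5
    have h4 : q ≤ 8 * (∏ p ∈ G, p) * Nat.gcd q (Del h) := by
      calc q ≤ 8 * ((∏ p ∈ G, p) *
            ∏ p ∈ q.primeFactors.filter (fun p => ¬ p = 2 ∧ p ∣ Del h), p) := by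
              rw [← h2]; exact h1
        _ ≤ 8 * ((∏ p ∈ G, p) * Nat.gcd q (Del h)) :=
              Nat.mul_le_mul_left _ (Nat.mul_le_mul_left _ h3)
        _ = 8 * (∏ p ∈ G, p) * Nat.gcd q (Del h) := by ring
    have h5 : (q : ℝ) ≤ ((8 * (∏ p ∈ G, p) * Nat.gcd q (Del h) : ℕ) : ℝ) := Nat.cast_le.2 h4
    rw [Nat.cast_mul, Nat.cast_mul, Nat.cast_prod] at h5
    exact h5
  have hD0 : (0 : ℝ) < ∏ p ∈ G, (p : ℝ) :=
    Finset.prod_pos fun p hp => Nat.cast_pos.2 (hGm p hp).1.pos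
  have hGq : (∏ p ∈ G, (p : ℝ)) ^ (-(1 / 4 : ℝ)) ≤ 8 * Gq q h := by
    unfold Gq
    rw [if_neg hq0.ne']
    have h1 : (8 * ∏ p ∈ G, (p : ℝ)) ^ (-(1 / 4 : ℝ)) ≤
        ((q : ℝ) / (Nat.gcd q (Del h) : ℝ)) ^ (-(1 / 4 : ℝ)) :=
      Real.rpow_le_rpow_of_nonpos (div_pos (by exact_mod_cast hq0) (by exact_mod_cast hgcd0))
        hqle (by norm_num)
    have h2 : (8 : ℝ)⁻¹ ≤ (8 : ℝ) ^ (-(1 / 4 : ℝ)) := by
      rw [← Real.rpow_neg_one]
      exact Real.rpow_le_rpow_of_exponent_le (by norm_num) (by norm_num)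
    rw [Real.mul_rpow (by norm_num) hD0.le] at h1
    have h3 : (0 : ℝ) ≤ (∏ p ∈ G, (p : ℝ)) ^ (-(1 / 4 : ℝ)) := by positivity
    have h4 := mul_le_mul_of_nonneg_right h2 h3
    linarith
  have hSZ : SZ Y h = (∏ p ∈ S, locI h p) * ∏ p ∈ G, locI h p := by
    unfold SZ
    rw [hS]
    exact (Finset.prod_sdiff hGY).symm
  rw [norm_mul, hSZ, ← hq]
  have hS0 : 0 ≤ ∏ p ∈ S, locI h p := Finset.prod_nonneg fun p hp => locI_nonneg h (hSp p hp)
  have hG0 : 0 ≤ ∏ p ∈ G, locI h p := Finset.prod_nonneg hl0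
  calc ‖av (M * ∏ p ∈ S, p) rest‖ * ‖∏ p ∈ G, av p (wlf p J h)‖
      ≤ (∏ p ∈ S, locI h p) *
        (C1 * (∏ p ∈ G, (p : ℝ)) ^ (-(1 / 4 : ℝ)) * ∏ p ∈ G, locI h p) :=
        mul_le_mul hb1 hb3 (norm_nonneg _) hS0
    _ = ((∏ p ∈ S, locI h p) * ∏ p ∈ G, locI h p) * C1 *
        (∏ p ∈ G, (p : ℝ)) ^ (-(1 / 4 : ℝ)) := by ring
    _ ≤ ((∏ p ∈ S, locI h p) * ∏ p ∈ G, locI h p) * C1 * (8 * Gq q h) :=
        mul_le_mul_of_nonneg_left hGq (mul_nonneg (mul_nonneg hS0 hG0) hC1r.le)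
    _ = 8 * C1 * ((∏ p ∈ S, locI h p) * ∏ p ∈ G, locI h p) * Gq q h := by ring

end Pool.Agent.Lib.GMV
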