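import Pool.Agent.Lib.GMV.Model
import Pool.Agent.Lib.BVH.Gauss

/-!
# GMV.Expand: the spectrum of `conj χ(n) ∏ wp p n` (paper 2.4)

PROOF. Induction on `S`. `S = ∅`: `conj χ(n) = (1/r) ∑_b (∑_{j<r} conj χ(j) ex(-b j/r)) ex(b n/r)`, and for primitive `χ`
the inner sum is a Gauss sum: `0` if `(b,r) > 1` and of absolute value `√r` otherwise (Mathlib:
`DirichletCharacter` / `gaussSum_mulShift_of_isPrimitive`; library `BVH.gauss_norm`, `BVH.ee`). Step: `wp p n = ∑_{a=1}^{p-1} (-1/(p-1)) ex(a n/p)`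
(the sum is `p 1[p ∣ n] - 1`). If `f n = ∑_{b<q} c b ex(b n/q)` and `p ∤ q` then
`f n * wp p n = ∑_{b<q, 1≤a<p} c b (-1/(p-1)) ex((b p + a q) n/(q p))`, and `(b,a) ↦ (b p + a q) mod (q p)` is a bijection
`[0,q) × [0,p) → [0,qp)` under which `(b,q)=1, a ≠ 0` corresponds to coprimality with `q p`; define the new coefficient
`c' j = c (j p⁻¹ mod q) * d (j q⁻¹ mod p)` (`d 0 = 0`, `d a = -1/(p-1)`) or through `ZMod.chineseRemainder`.
-/

set_option autoImplicit false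

open Finset Filter

namespace Pool.Agent.Lib.GMV

open Pool.Agent.HLB Pool.Agent.HLT Pool.Agent.HLR

namespace ExpandAux

open Pool.Agent.BVH.GaussAux

lemma ex_modEq {M a b : ℕ} (hM : 0 < M) (h : a ≡ b [MOD M]) (n : ℕ) :
    ex ((a : ℝ) * n / M) = ex ((b : ℝ) * n / M) := by
  obtain ⟨k, hk⟩ := Nat.modEq_iff_dvd.1 h
  have hM' : (M : ℝ) ≠ 0 := Nat.cast_ne_zero.2 hM.ne'
  have hb : (b : ℝ) = a + M * k := by
    have h1 : (b : ℤ) = a + M * k := by linarith
    exact_mod_cast h1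
  have e : (b : ℝ) * n / M = (a : ℝ) * n / M + ((k * n : ℤ) : ℝ) := by
    rw [hb]
    push_cast
    field_simp
  rw [e, ex_add_int]

lemma sum_zmod {q : ℕ} [NeZero q] (g : ZMod q → ℂ) :
    ∑ z : ZMod q, g z = ∑ b ∈ range q, g (b : ZMod q) := by
  symm
  refine Finset.sum_nbij' (fun b => (b : ZMod q)) (fun z => z.val) ?_ ?_ ?_ ?_ ?_
  · intro b _
    exact Finset.mem_univ _
  · intro z _
    rw [Finset.mem_range]
    exact ZMod.val_lt z
  · intro b hb
    exact ZMod.val_cast_of_lt (Finset.mem_range.1 hb)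
  · intro z _
    exact ZMod.natCast_zmod_val z
  · intro b _
    rfl

lemma sum_ex {p : ℕ} (hp : 0 < p) (n : ℕ) :
    ∑ a ∈ range p, ex ((a : ℝ) * n / p) = if p ∣ n then (p : ℂ) else 0 := by
  have : NeZero p := ⟨hp.ne'⟩
  have h := sum_ee (q := p) (n : ZMod p)
  rw [sum_zmod] at h
  have h1 : ∀ a : ℕ, ee ((a : ZMod p) * (n : ZMod p)) = ex ((a : ℝ) * n / p) := by
    intro a
    rw [ee_mul, mul_div_assoc]
  simp only [h1] at h
  rw [h]
  by_cases hd : p ∣ n
  · rw [if_pos hd, if_pos ((ZMod.natCast_eq_zero_iff n p).2 hd)]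
  · rw [if_neg hd, if_neg (fun hc => hd ((ZMod.natCast_eq_zero_iff n p).1 hc))]

/-- the coefficients of `wp p` -/
noncomputable def dd (p a : ℕ) : ℂ := if a = 0 then 0 else -(1 / ((p : ℂ) - 1))

lemma wp_expand {p : ℕ} (hp : p.Prime) (n : ℕ) :
    ((wp p n : ℝ) : ℂ) = ∑ a ∈ range p, dd p a * ex ((a : ℝ) * n / p) := by
  obtain ⟨m, rfl⟩ : ∃ m, p = m + 1 := ⟨p - 1, by have := hp.pos; omega⟩
  have h := sum_ex (p := m + 1) (Nat.succ_pos m) n
  rw [Finset.sum_range_succ'] at h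
  rw [Finset.sum_range_succ']
  have h0 : dd (m + 1) 0 = 0 := by unfold dd; simp
  have h1 : ∀ a : ℕ, dd (m + 1) (a + 1) = -(1 / ((m : ℂ))) := by
    intro a
    unfold dd
    rw [if_neg (Nat.succ_ne_zero a)]
    push_cast
    ring
  have hm : (m : ℂ) ≠ 0 := by
    have := hp.one_lt
    exact Nat.cast_ne_zero.2 (by omega)
  simp only [h1, h0, zero_mul, add_zero]
  rw [← Finset.mul_sum]
  have h2 : ex (((0 : ℕ) : ℝ) * n / ((m + 1 : ℕ) : ℝ)) = 1 := by
    simp
  rw [h2] at h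
  have h3 : ∑ k ∈ range m, ex (((k + 1 : ℕ) : ℝ) * n / ((m + 1 : ℕ) : ℝ)) =
      (if m + 1 ∣ n then ((m + 1 : ℕ) : ℂ) else 0) - 1 := by
    rw [← h]; ring
  rw [h3]
  unfold wp
  by_cases hd : m + 1 ∣ n
  · rw [if_pos hd, if_pos hd]
    push_cast
    field_simp
    ring
  · rw [if_neg hd, if_neg hd]
    push_cast
    field_simp
    ring_nf
    exact mul_inv_cancel₀ hm

lemma norm_dd_le {p : ℕ} (hp : p.Prime) (a : ℕ) : ‖dd p a‖ ≤ 1 / ((p : ℝ) - 1) := by
  have h1 : (1 : ℝ) < p := by exact_mod_cast hp.one_lt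
  unfold dd
  split_ifs
  · rw [norm_zero]
    exact div_nonneg zero_le_one (by linarith)
  · rw [norm_neg, norm_div, norm_one]
    have e : ((p : ℂ) - 1) = (((p : ℝ) - 1 : ℝ) : ℂ) := by push_cast; ring
    rw [e, Complex.norm_real, Real.norm_eq_abs, abs_of_pos (by linarith)]

lemma exists_inv {a m : ℕ} (hm : 0 < m) (h : Nat.Coprime a m) : ∃ u, a * u ≡ 1 [MOD m] := by
  rcases Nat.lt_or_ge 1 m with h1 | h1
  · obtain ⟨u, hu⟩ := Nat.exists_mul_mod_eq_one_of_coprime h h1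
    refine ⟨u, ?_⟩
    unfold Nat.ModEq
    rw [hu.2, Nat.mod_eq_of_lt h1]
  · have h2 : m = 1 := by omega
    subst h2
    exact ⟨0, Nat.modEq_one⟩

lemma step {f : ℕ → ℂ} {q p : ℕ} (hq : 0 < q) (hp : p.Prime) (hpq : ¬ p ∣ q) {A : ℝ}
    (hA : 0 ≤ A) {c : ℕ → ℂ} (h1 : ∀ b, ‖c b‖ ≤ A) (h2 : ∀ b, ¬ b.Coprime q → c b = 0)
    (h3 : ∀ n : ℕ, f n = ∑ b ∈ range q, c b * ex ((b : ℝ) * n / (q : ℝ))) :
    ∃ c' : ℕ → ℂ, (∀ b, ‖c' b‖ ≤ A / ((p : ℝ) - 1)) ∧ (∀ b, ¬ b.Coprime (q * p) → c' b = 0) ∧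
      ∀ n : ℕ, f n * ((wp p n : ℝ) : ℂ) =
        ∑ b ∈ range (q * p), c' b * ex ((b : ℝ) * n / ((q * p : ℕ) : ℝ)) := by
  have hcop : Nat.Coprime p q := (Nat.Prime.coprime_iff_not_dvd hp).2 hpq
  obtain ⟨u, hu⟩ := exists_inv hq hcop
  obtain ⟨v, hv⟩ := exists_inv hp.pos hcop.symm
  have hqp : 0 < q * p := Nat.mul_pos hq hp.pos
  refine ⟨fun j => c ((j * u) % q) * dd p ((j * v) % p), ?_, ?_, ?_⟩
  · intro j
    rw [norm_mul]
    calc ‖c ((j * u) % q)‖ * ‖dd p ((j * v) % p)‖ ≤ A * (1 / ((p : ℝ) - 1)) :=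
          mul_le_mul (h1 _) (norm_dd_le hp _) (norm_nonneg _) hA
      _ = A / ((p : ℝ) - 1) := by ring
  · intro j hj
    have h4 : ¬ j.Coprime q ∨ p ∣ j := by
      by_contra hcon
      push Not at hcon
      exact hj (Nat.Coprime.mul_right hcon.1
        ((Nat.Prime.coprime_iff_not_dvd hp).2 hcon.2).symm)
    rcases h4 with h4 | h4
    · have h5 : ¬ ((j * u) % q).Coprime q := by
        intro hc
        apply h4
        rw [Nat.Coprime, ← Nat.gcd_rec] at hc
        exact Nat.Coprime.symm (Nat.Coprime.coprime_mul_right_right hc)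
      simp only [h2 _ h5, zero_mul]
    · have h5 : (j * v) % p = 0 := Nat.mod_eq_zero_of_dvd (Dvd.dvd.mul_right h4 v)
      simp only [h5]
      unfold dd
      simp
  · intro n
    rw [h3 n, wp_expand hp n, Finset.sum_mul_sum, ← Finset.sum_product']
    have hkey : ∀ j : ℕ, ((j * u) % q) * p + ((j * v) % p) * q ≡ j [MOD q * p] := by
      intro j
      rw [← Nat.modEq_and_modEq_iff_modEq_mul hcop.symm]
      constructor
      · have e1 : ((j * u) % q) * p ≡ (j * u) * p [MOD q] :=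
          Nat.ModEq.mul_right _ (Nat.mod_modEq _ _)
        have e2 : ((j * v) % p) * q ≡ 0 [MOD q] := by
          unfold Nat.ModEq
          rw [Nat.mul_mod_left, Nat.zero_mod]
        have e3 : (j * u) * p ≡ j [MOD q] := by
          have e4 : (j * u) * p = j * (p * u) := by ring
          rw [e4]
          calc j * (p * u) ≡ j * 1 [MOD q] := Nat.ModEq.mul_left _ hu
            _ = j := by ring
        have e5 := Nat.ModEq.add (e1.trans e3) e2
        rw [add_zero] at e5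
        exact e5
      · have e1 : ((j * v) % p) * q ≡ (j * v) * q [MOD p] :=
          Nat.ModEq.mul_right _ (Nat.mod_modEq _ _)
        have e2 : ((j * u) % q) * p ≡ 0 [MOD p] := by
          unfold Nat.ModEq
          rw [Nat.mul_mod_left, Nat.zero_mod]
        have e3 : (j * v) * q ≡ j [MOD p] := by
          have e4 : (j * v) * q = j * (q * v) := by ring
          rw [e4]
          calc j * (q * v) ≡ j * 1 [MOD p] := Nat.ModEq.mul_left _ hv
            _ = j := by ring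
        have e5 := Nat.ModEq.add e2 (e1.trans e3)
        rw [zero_add] at e5
        exact e5
    symm
    refine Finset.sum_nbij' (fun j => ((j * u) % q, (j * v) % p))
      (fun x => (x.1 * p + x.2 * q) % (q * p)) ?_ ?_ ?_ ?_ ?_
    · intro j _
      rw [Finset.mem_product, Finset.mem_range, Finset.mem_range]
      exact ⟨Nat.mod_lt _ hq, Nat.mod_lt _ hp.pos⟩
    · intro x _
      rw [Finset.mem_range]
      exact Nat.mod_lt _ hqp
    · intro j hj
      have e := hkey j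
      unfold Nat.ModEq at e
      rw [Nat.mod_eq_of_lt (Finset.mem_range.1 hj)] at e
      exact e
    · intro x hx
      rw [Finset.mem_product, Finset.mem_range, Finset.mem_range] at hx
      have e0 : (x.1 * p + x.2 * q) % (q * p) ≡ x.1 * p + x.2 * q [MOD q * p] := Nat.mod_modEq _ _
      have eq1 : (x.1 * p + x.2 * q) % (q * p) ≡ x.1 * p + x.2 * q [MOD q] :=
        Nat.ModEq.of_mul_right p e0
      have eq2 : (x.1 * p + x.2 * q) % (q * p) ≡ x.1 * p + x.2 * q [MOD p] :=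
        Nat.ModEq.of_mul_left q e0
      refine Prod.ext ?_ ?_
      · show ((x.1 * p + x.2 * q) % (q * p) * u) % q = x.1
        have e1 : (x.1 * p + x.2 * q) % (q * p) * u ≡ x.1 [MOD q] := by
          calc (x.1 * p + x.2 * q) % (q * p) * u ≡ (x.1 * p + x.2 * q) * u [MOD q] :=
                Nat.ModEq.mul_right _ eq1
            _ = x.1 * (p * u) + q * (x.2 * u) := by ring
            _ ≡ x.1 * 1 + 0 [MOD q] := Nat.ModEq.add (Nat.ModEq.mul_left _ hu) (by
                unfold Nat.ModEq; rw [Nat.mul_mod_right, Nat.zero_mod])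
            _ = x.1 := by ring
        unfold Nat.ModEq at e1
        rw [e1, Nat.mod_eq_of_lt hx.1]
      · show ((x.1 * p + x.2 * q) % (q * p) * v) % p = x.2
        have e1 : (x.1 * p + x.2 * q) % (q * p) * v ≡ x.2 [MOD p] := by
          calc (x.1 * p + x.2 * q) % (q * p) * v ≡ (x.1 * p + x.2 * q) * v [MOD p] :=
                Nat.ModEq.mul_right _ eq2
            _ = p * (x.1 * v) + x.2 * (q * v) := by ring
            _ ≡ 0 + x.2 * 1 [MOD p] := Nat.ModEq.add (by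
                unfold Nat.ModEq; rw [Nat.mul_mod_right, Nat.zero_mod]) (Nat.ModEq.mul_left _ hv)
            _ = x.2 := by ring
        unfold Nat.ModEq at e1
        rw [e1, Nat.mod_eq_of_lt hx.2]
    · intro j _
      show c ((j * u) % q) * dd p ((j * v) % p) * ex ((j : ℝ) * n / ((q * p : ℕ) : ℝ)) =
        c ((j * u) % q) * ex ((((j * u) % q : ℕ) : ℝ) * n / (q : ℝ)) *
          (dd p ((j * v) % p) * ex ((((j * v) % p : ℕ) : ℝ) * n / (p : ℝ)))
      rw [← ex_modEq hqp (hkey j) n]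
      have hq' : (q : ℝ) ≠ 0 := Nat.cast_ne_zero.2 hq.ne'
      have hp' : (p : ℝ) ≠ 0 := Nat.cast_ne_zero.2 hp.pos.ne'
      have e : ((((j * u) % q) * p + ((j * v) % p) * q : ℕ) : ℝ) * n / ((q * p : ℕ) : ℝ) =
          (((j * u) % q : ℕ) : ℝ) * n / (q : ℝ) + (((j * v) % p : ℕ) : ℝ) * n / (p : ℝ) := by
        rw [Nat.cast_add, Nat.cast_mul, Nat.cast_mul, Nat.cast_mul]
        field_simp
      rw [e, ex_add]
      ring

lemma base (x : CI) (hx : x.2.IsPrimitive) :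
    ∃ c : ℕ → ℂ, (∀ b, ‖c b‖ ≤ (Real.sqrt (md x))⁻¹) ∧
      (∀ b, ¬ b.Coprime (md x) → c b = 0) ∧
      ∀ n : ℕ, (starRingEnd ℂ) (cv x n) =
        ∑ b ∈ range (md x), c b * ex ((b : ℝ) * n / ((md x : ℕ) : ℝ)) := by
  obtain ⟨r, χ⟩ := x
  have hinv : (χ⁻¹).IsPrimitive := by
    rw [DirichletCharacter.isPrimitive_def, DirichletCharacter.conductor_inv]
    exact hx
  have hG := gauss_norm hinv
  rw [inv_inv] at hG
  have hpos : (0 : ℝ) < ((r + 1 : ℕ) : ℝ) := by positivity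
  have hGn : ‖gaussSum χ (ee (q := r + 1))‖ = Real.sqrt ((r + 1 : ℕ) : ℝ) := by
    rw [← hG, Real.sqrt_sq (norm_nonneg _)]
  have hG0 : gaussSum χ (ee (q := r + 1)) ≠ 0 := by
    intro h0
    rw [h0, norm_zero] at hGn
    exact (Real.sqrt_pos.2 hpos).ne hGn
  refine ⟨fun b => χ (b : ZMod (r + 1)) / gaussSum χ (ee (q := r + 1)), ?_, ?_, ?_⟩
  · intro b
    rw [norm_div, hGn]
    have h1 : ‖χ (b : ZMod (r + 1))‖ ≤ 1 := DirichletCharacter.norm_le_one _ _
    rw [div_eq_mul_inv]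
    exact mul_le_of_le_one_left (by positivity) h1
  · intro b hb
    have h1 : χ (b : ZMod (r + 1)) = 0 :=
      χ.map_nonunit (fun hc => hb ((ZMod.isUnit_iff_coprime b (r + 1)).1 hc))
    simp only [h1, zero_div]
  · intro n
    have h1 : (starRingEnd ℂ) (cv ⟨r, χ⟩ n) = χ⁻¹ (n : ZMod (r + 1)) := conj_char χ _
    have h2 : ∑ b : ZMod (r + 1), χ b * ee ((n : ZMod (r + 1)) * b) =
        χ⁻¹ (n : ZMod (r + 1)) * gaussSum χ (ee (q := r + 1)) := by
      have := gaussSum_mulShift_of_isPrimitive (ee (q := r + 1)) hx (n : ZMod (r + 1))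
      rw [← this]
      rfl
    rw [h1, eq_div_of_mul_eq hG0 h2.symm, sum_zmod, Finset.sum_div]
    refine Finset.sum_congr rfl fun b _ => ?_
    rw [ee_mul]
    show χ (b : ZMod (r + 1)) * ex (n * ((b : ℝ) / ((r + 1 : ℕ) : ℝ))) / _ =
      χ (b : ZMod (r + 1)) / gaussSum χ (ee (q := r + 1)) * ex ((b : ℝ) * n / ((r + 1 : ℕ) : ℝ))
    have e : (n : ℝ) * ((b : ℝ) / ((r + 1 : ℕ) : ℝ)) = (b : ℝ) * n / ((r + 1 : ℕ) : ℝ) := by ring
    rw [e]
    ring

end ExpandAux

open ExpandAux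

theorem char_expand (x : CI) (hx : x.2.IsPrimitive) (S : Finset ℕ)
    (hS : ∀ p ∈ S, p.Prime ∧ ¬ p ∣ md x) :
    ∃ c : ℕ → ℂ, (∀ b, ‖c b‖ ≤ (Real.sqrt (md x))⁻¹ / ∏ p ∈ S, ((p : ℝ) - 1)) ∧
      (∀ b, ¬ b.Coprime (md x * ∏ p ∈ S, p) → c b = 0) ∧
      ∀ n : ℕ, (starRingEnd ℂ) (cv x n) * ((∏ p ∈ S, wp p n : ℝ) : ℂ) =
        ∑ b ∈ range (md x * ∏ p ∈ S, p), c b * ex ((b : ℝ) * n / ((md x * ∏ p ∈ S, p : ℕ) : ℝ)) := by
  classical
  induction S using Finset.induction_on with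
  | empty =>
    obtain ⟨c, h1, h2, h3⟩ := base x hx
    refine ⟨c, ?_, ?_, ?_⟩
    · intro b
      rw [Finset.prod_empty, div_one]
      exact h1 b
    · intro b hb
      rw [Finset.prod_empty, mul_one] at hb
      exact h2 b hb
    · intro n
      rw [Finset.prod_empty, Finset.prod_empty, mul_one, h3 n]
      simp
  | insert p S hpS ih =>
    obtain ⟨c, h1, h2, h3⟩ := ih (fun p' hp' => hS p' (Finset.mem_insert_of_mem hp'))
    obtain ⟨hp, hpx⟩ := hS p (Finset.mem_insert_self p S)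
    have hpos : 0 < md x * ∏ p' ∈ S, p' := Nat.mul_pos (md_pos x) (Finset.prod_pos fun p' hp' =>
      (hS p' (Finset.mem_insert_of_mem hp')).1.pos)
    have hnd : ¬ p ∣ md x * ∏ p' ∈ S, p' := by
      intro hd
      rcases (Nat.Prime.dvd_mul hp).1 hd with hd | hd
      · exact hpx hd
      · obtain ⟨p', hp', hd'⟩ := (Prime.dvd_finsetProd_iff hp.prime _).1 hd
        have h5 := (Nat.prime_dvd_prime_iff_eq hp (hS p' (Finset.mem_insert_of_mem hp')).1).1 hd'
        exact hpS (h5 ▸ hp')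
    have hA : 0 ≤ (Real.sqrt (md x))⁻¹ / ∏ p' ∈ S, ((p' : ℝ) - 1) := by
      refine div_nonneg (by positivity) (Finset.prod_nonneg fun p' hp' => ?_)
      have : (1 : ℝ) < p' := by
        exact_mod_cast (hS p' (Finset.mem_insert_of_mem hp')).1.one_lt
      linarith
    obtain ⟨c', g1, g2, g3⟩ := step hpos hp hnd hA h1 h2 h3
    have e : md x * ∏ p' ∈ insert p S, p' = (md x * ∏ p' ∈ S, p') * p := by
      rw [Finset.prod_insert hpS]; ring
    refine ⟨c', ?_, ?_, ?_⟩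
    · intro b
      refine (g1 b).trans (le_of_eq ?_)
      rw [Finset.prod_insert hpS, div_div, mul_comm ((p : ℝ) - 1)]
    · intro b hb
      rw [e] at hb
      exact g2 b hb
    · intro n
      rw [e, ← g3 n, Finset.prod_insert hpS]
      push_cast
      ring

end Pool.Agent.Lib.GMV
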