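import Pool.Agent.Lib.GMV.Kern
import Pool.Agent.Lib.GMV.Expand
import Pool.Agent.Lib.BVH.MSieve

/-!
# GMV.DiffL: the two models have nearly the same Fourier transform (paper 2.5)

PROOF. `Y = Q^B0`. `LL - LQ = ∑_{x ∈ Ch Q} rho x conj(cv x n) M_x(n) ∑_{S ∈ Sm Y r \ Sm (Q/r) r} ∏ wp p n`, `r = md x`
(`Sm (Q/r) r ⊆ Sm Y r` as `Q/r ≤ Q ≤ Y`). For such `S`, `s = ∏ S`: `Q < r s ≤ Q Y` (`Q/r < s`). By `char_expand`
the transform of the `(x,S)` term is `rho x ∑_{b<rs} c b · ft M_x (t + b/(rs))`, with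
`‖ft (4X) M_x t'‖ ≤ 4X b(x)` and `‖ft (4X) M_x t'‖ = Kh U t' ‖ft (W χ) t'‖ ≤ 8 X Kh U t'` (`ft_cn`, Chebyshev).
Call `(q,b)` near if `b < q`, `(b,q) = 1` and `‖t + b/q‖ < 1/(2 (Q Y)²)`. If `(q,b)`, `(q',b')` are near and `q, q' ≤ Q Y` then they are equal
(`BVH.farey_sep`, `farey_inj`). Not near: `Kh ≤ (Q Y)^4/U²` (`kh_decay`); all these terms together:
`∑_{x,S} rho x · (r s) · 1 · 8 X (QY)^4/U² ≤ Q² · Q · Y · Q Y · 8 X (Q Y)^4 · 4 Q^10/X²`, at most `X Q^(-1)` if `Q ≤ X^c`, `c` small.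
Near: let `(q0,b0)` be the only near pair; only `S` with `r ∏ S = q0` occur, for each `x` at most one `S`
(`∏` is injective on sets of primes), with one `b`; its coefficient is at most
`rho x r^(-1/2)/∏(p-1) = rho x r^(-1/2) (s/∏(p-1)) / s`, where `s/∏(p-1) = ∏ p/(p-1) ≤ 1 + log₂ s`, the same for `rho x`, and
`r^(-1/2)/s = r^(1/2)/(r s) ≤ Q^(1/2)/Q`. So the near terms are at most `(1 + log₂(QY))² Q^(-1/2) · 4X ∑ b(x) ≤ X Q^(-2/5)/2`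
for `X ≥ X0` (`Rg` gives `log X ≤ 4 (log Q)²`, `Q → ∞`). (`n/φ(n) ≤ 1 + log₂ n`: the `j`-th prime factor is `≥ j+1`.)
-/

set_option autoImplicit false

open Finset Filter

namespace Pool.Agent.Lib.GMV

open Pool.Agent.HLB Pool.Agent.HLT Pool.Agent.HLR

namespace DiffLAux

lemma nrm_sub_le (a b : ℝ) : nrm (a - b) ≤ nrm a + nrm b := by
  have h1 : nrm (a - b) ≤ |a - b - ((round a - round b : ℤ) : ℝ)| := by
    unfold nrm
    exact round_le _ _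
  refine h1.trans ?_
  unfold nrm
  have h2 : a - b - ((round a - round b : ℤ) : ℝ) = (a - round a) - (b - round b) := by
    push_cast
    ring
  rw [h2]
  exact abs_sub _ _

lemma sum_W_le (X Q : ℕ) : ∑ m ∈ range (4 * X), W X Q m ≤ 8 * X := by
  have h1 : ∑ m ∈ range (4 * X), W X Q m ≤ ∑ m ∈ range (4 * X), HLT.lp m :=
    sum_le_sum fun m _ => W_le X Q m
  have h2 : ∑ m ∈ range (4 * X), HLT.lp m ≤ Chebyshev.theta ((4 * X : ℕ) : ℝ) := by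
    rw [Chebyshev.theta_eq_sum_primesLE_log, Nat.primesLE_eq_filter_Icc_zero, sum_filter]
    have h3 : ∀ m : ℕ, HLT.lp m = if m.Prime then Real.log m else 0 := fun m => rfl
    simp only [← h3]
    refine sum_le_sum_of_subset_of_nonneg ?_ fun m _ _ => lp_nonneg m
    intro m hm
    rw [mem_range] at hm
    rw [mem_Icc]
    omega
  have h3 := Chebyshev.theta_le_log4_mul_x (x := ((4 * X : ℕ) : ℝ)) (Nat.cast_nonneg _)
  have h4 : Real.log 4 ≤ 2 := by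
    have h5 : Real.log 4 = 2 * Real.log 2 := by
      rw [show (4 : ℝ) = 2 ^ 2 by norm_num, Real.log_pow]
      norm_num
    have := Real.log_two_lt_d9
    rw [h5]
    linarith
  refine h1.trans (h2.trans (h3.trans ?_))
  push_cast
  have h5 : (0 : ℝ) ≤ X := Nat.cast_nonneg X
  nlinarith

lemma far_ft (X Q : ℕ) (hQ : 2 ≤ Q) (hX : Q ^ 5 ≤ X) (x : CI) (t : ℝ) :
    ‖ft (4 * X) (Mc X Q x) t‖ ≤ Kh (X / Q ^ 5) t * (8 * X) := by
  have h0 : Mc X Q x = cn X Q (cv x) := rfl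
  rw [h0, ft_cn X Q hQ hX, norm_mul, Complex.norm_real, Real.norm_of_nonneg (kh_nonneg _ _)]
  refine mul_le_mul_of_nonneg_left ?_ (kh_nonneg _ _)
  refine le_trans ?_ (sum_W_le X Q)
  unfold ft
  refine (norm_sum_le _ _).trans (sum_le_sum fun m _ => ?_)
  rw [norm_mul, norm_ex, mul_one, norm_mul, Complex.norm_real, Real.norm_of_nonneg (W_nonneg _ _ _)]
  exact mul_le_of_le_one_right (W_nonneg _ _ _) (norm_cv_le _ _)

lemma near_ft (X Q : ℕ) (x : CI) (b : ℝ) (hb : ∀ n, ‖Mc X Q x n‖ ≤ b) (t : ℝ) :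
    ‖ft (4 * X) (Mc X Q x) t‖ ≤ 4 * X * b := by
  unfold ft
  refine (norm_sum_le _ _).trans ?_
  refine (sum_le_sum (g := fun _ => b) fun m _ => ?_).trans ?_
  · rw [norm_mul, norm_ex, mul_one]
    exact hb m
  · rw [sum_const, card_range, nsmul_eq_mul]
    push_cast
    exact le_refl _

lemma prod_ratio (S : Finset ℕ) (hS : ∀ p ∈ S, 2 ≤ p) :
    S.card + 1 ≤ S.sup id + (if S = ∅ then 1 else 0) ∧
      ∏ p ∈ S, ((p : ℝ) / ((p : ℝ) - 1)) ≤ S.card + 1 := by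
  induction S using Finset.induction_on_max with
  | empty => simp
  | insert a s ha ih =>
    have ha' : a ∉ s := fun h => lt_irrefl _ (ha a h)
    have ih' := ih fun p hp => hS p (mem_insert_of_mem hp)
    have ha2 : 2 ≤ a := hS a (mem_insert_self _ _)
    have hcard : s.card + 2 ≤ a := by
      by_cases hs : s = ∅
      · subst hs
        simpa using ha2
      · have h1 := ih'.1
        rw [if_neg hs, add_zero] at h1
        have h2 : s.sup id < a := by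
          rw [Finset.sup_lt_iff (by rw [bot_eq_zero]; omega)]
          exact ha
        omega
    constructor
    · rw [if_neg (insert_ne_empty _ _), card_insert_of_notMem ha', add_zero]
      have : a ≤ (insert a s).sup id := by
        exact Finset.le_sup (f := id) (mem_insert_self a s)
      omega
    · rw [prod_insert ha', card_insert_of_notMem ha']
      have hs0 : (0 : ℝ) ≤ s.card := Nat.cast_nonneg _
      have hc : (s.card : ℝ) + 2 ≤ a := by exact_mod_cast hcard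
      have ha1 : (0 : ℝ) < (a : ℝ) - 1 := by linarith
      have h3 : (a : ℝ) / ((a : ℝ) - 1) ≤ ((s.card : ℝ) + 2) / ((s.card : ℝ) + 1) := by
        rw [div_le_div_iff₀ ha1 (by linarith)]
        nlinarith
      have h4 : (0 : ℝ) ≤ ∏ p ∈ s, ((p : ℝ) / ((p : ℝ) - 1)) := by
        refine prod_nonneg fun p hp => ?_
        have : (2 : ℝ) ≤ p := by exact_mod_cast hS p (mem_insert_of_mem hp)
        exact div_nonneg (by linarith) (by linarith)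
      calc (a : ℝ) / ((a : ℝ) - 1) * ∏ p ∈ s, ((p : ℝ) / ((p : ℝ) - 1))
          ≤ ((s.card : ℝ) + 2) / ((s.card : ℝ) + 1) * (s.card + 1) :=
            mul_le_mul h3 ih'.2 h4 (by positivity)
        _ = ((s.card + 1 : ℕ) : ℝ) + 1 := by
            push_cast
            field_simp
            ring

lemma card_le_log (S : Finset ℕ) (hS : ∀ p ∈ S, 2 ≤ p) :
    (S.card : ℝ) ≤ 2 * Real.log (∏ p ∈ S, p : ℕ) := by
  have h1 : 2 ^ S.card ≤ ∏ p ∈ S, p := by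
    have := Finset.pow_card_le_prod S (fun p => p) 2 hS
    exact this
  have h2 : ((2 ^ S.card : ℕ) : ℝ) ≤ ((∏ p ∈ S, p : ℕ) : ℝ) := by exact_mod_cast h1
  have h3 := Real.log_le_log (by positivity) h2
  push_cast at h3
  rw [Real.log_pow] at h3
  have h4 := Real.log_two_gt_d9
  have h5 : (0 : ℝ) ≤ S.card := Nat.cast_nonneg _
  push_cast
  nlinarith

lemma ratio_le (S : Finset ℕ) (hS : ∀ p ∈ S, 2 ≤ p) :
    ((∏ p ∈ S, p : ℕ) : ℝ) / ∏ p ∈ S, ((p : ℝ) - 1) ≤ 1 + 2 * Real.log (∏ p ∈ S, p : ℕ) := by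
  have h1 := (prod_ratio S hS).2
  rw [prod_div_distrib] at h1
  have h2 := card_le_log S hS
  push_cast at h1 h2 ⊢
  linarith

lemma rho_le (x : CI) : rho x ≤ 1 + 2 * Real.log (md x) := by
  have hm : 0 < md x := md_pos x
  have hS : ∀ p ∈ (md x).primeFactors, 2 ≤ p := fun p hp => (Nat.prime_of_mem_primeFactors hp).two_le
  have h1 := ratio_le (md x).primeFactors hS
  have h2 := Nat.totient_mul_prod_primeFactors (md x)
  have h3 : (∏ p ∈ (md x).primeFactors, p) ∣ md x := Nat.prod_primeFactors_dvd _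
  have h4 : (∏ p ∈ (md x).primeFactors, p) ≤ md x := Nat.le_of_dvd hm h3
  have h5 : 0 < ∏ p ∈ (md x).primeFactors, p :=
    prod_pos fun p hp => by have := hS p hp; omega
  have hphi : 0 < (md x).totient := Nat.totient_pos.2 hm
  have h6 : rho x = ((∏ p ∈ (md x).primeFactors, p : ℕ) : ℝ) /
      ∏ p ∈ (md x).primeFactors, ((p : ℝ) - 1) := by
    unfold rho
    have h7 : 0 < ∏ p ∈ (md x).primeFactors, ((p : ℝ) - 1) := by
      refine prod_pos fun p hp => ?_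
      have : (2 : ℝ) ≤ p := by exact_mod_cast hS p hp
      linarith
    have h8 : (0 : ℝ) < (md x).totient := by exact_mod_cast hphi
    rw [div_eq_div_iff h8.ne' h7.ne']
    have h9 : ((∏ p ∈ (md x).primeFactors, (p - 1) : ℕ) : ℝ) =
        ∏ p ∈ (md x).primeFactors, ((p : ℝ) - 1) := by
      push_cast
      refine prod_congr rfl fun p hp => ?_
      rw [Nat.cast_sub (by have := hS p hp; omega), Nat.cast_one]
    rw [← h9]
    have h10 : (((md x).totient * ∏ p ∈ (md x).primeFactors, p : ℕ) : ℝ) =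
        ((md x * ∏ p ∈ (md x).primeFactors, (p - 1) : ℕ) : ℝ) := by exact_mod_cast h2
    rw [Nat.cast_mul, Nat.cast_mul] at h10
    rw [← h10]
    ring
  rw [h6]
  refine h1.trans ?_
  have h11 : Real.log ((∏ p ∈ (md x).primeFactors, p : ℕ) : ℝ) ≤ Real.log (md x) :=
    Real.log_le_log (by exact_mod_cast h5) (by exact_mod_cast h4)
  linarith

lemma rho_nonneg (x : CI) : 0 ≤ rho x := by
  unfold rho
  positivity

lemma card_Ch (Q : ℕ) : (Ch Q).card ≤ Q * Q := by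
  classical
  unfold Ch
  rw [card_sigma]
  calc ∑ q ∈ range Q, (univ.filter fun χ : DirichletCharacter ℂ (q + 1) => χ.IsPrimitive).card
      ≤ ∑ q ∈ range Q, Q := by
        refine sum_le_sum fun q hq => ?_
        refine (card_filter_le _ _).trans ?_
        rw [card_univ, ← Nat.card_eq_fintype_card,
          DirichletCharacter.card_eq_totient_of_hasEnoughRootsOfUnity ℂ (q + 1)]
        refine (Nat.totient_le _).trans ?_
        rw [mem_range] at hq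
        omega
    _ = Q * Q := by rw [sum_const, card_range, smul_eq_mul]

lemma mem_Sm {Y r : ℕ} {S : Finset ℕ} :
    S ∈ Sm Y r ↔ (∀ p ∈ S, p.Prime ∧ p ≤ Y ∧ ¬ p ∣ r) ∧ ∏ p ∈ S, p ≤ Y := by
  unfold Sm
  rw [mem_filter, mem_powerset]
  refine and_congr_left fun _ => ?_
  constructor
  · intro h p hp
    have h1 := h hp
    rw [mem_filter, Nat.mem_primesLE] at h1
    exact ⟨h1.1.2, h1.1.1, h1.2⟩
  · intro h p hp
    rw [mem_filter, Nat.mem_primesLE]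
    exact ⟨⟨(h p hp).2.1, (h p hp).1⟩, (h p hp).2.2⟩

lemma Sm_mono {Y Z r : ℕ} (h : Y ≤ Z) : Sm Y r ⊆ Sm Z r := by
  intro S hS
  rw [mem_Sm] at hS ⊢
  exact ⟨fun p hp => ⟨(hS.1 p hp).1, (hS.1 p hp).2.1.trans h, (hS.1 p hp).2.2⟩, hS.2.trans h⟩

lemma prod_inj {S T : Finset ℕ} (hS : ∀ p ∈ S, p.Prime) (hT : ∀ p ∈ T, p.Prime)
    (h : ∏ p ∈ S, p = ∏ p ∈ T, p) : S = T := by
  rw [← Nat.primeFactors_prod hS, ← Nat.primeFactors_prod hT, h]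

lemma card_Sm (Y r : ℕ) : (Sm Y r).card ≤ Y := by
  have h : (Sm Y r).card ≤ (Icc 1 Y).card := by
    refine card_le_card_of_injOn (fun S => ∏ p ∈ S, p) ?_ ?_
    · intro S hS
      rw [mem_coe, mem_Sm] at hS
      simp only [coe_Icc, Set.mem_Icc]
      refine ⟨?_, hS.2⟩
      exact Nat.one_le_iff_ne_zero.2 (prod_ne_zero_iff.2 fun p hp => (hS.1 p hp).1.ne_zero)
    · intro S hS T hT h
      rw [mem_coe, mem_Sm] at hS hT
      exact prod_inj (fun p hp => (hS.1 p hp).1) (fun p hp => (hT.1 p hp).1) h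
  rwa [Nat.card_Icc, Nat.add_sub_cancel] at h

/-- The fractions `b / q` which are near to `-t`. -/
noncomputable def Nr (R : ℕ) (t : ℝ) (q : ℕ) : Finset ℕ :=
  (range q).filter fun b => b.Coprime q ∧ nrm (t + (b : ℝ) / (q : ℝ)) < 1 / (2 * (R : ℝ) ^ 2)

/-- The coefficient bound. -/
noncomputable def kap (x : CI) (S : Finset ℕ) : ℝ :=
  (Real.sqrt (md x))⁻¹ / ∏ p ∈ S, ((p : ℝ) - 1)

lemma prod_sub_pos {S : Finset ℕ} (hS : ∀ p ∈ S, 2 ≤ p) : 1 ≤ ∏ p ∈ S, ((p : ℝ) - 1) := by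
  have h : ∏ p ∈ S, (1 : ℝ) ≤ ∏ p ∈ S, ((p : ℝ) - 1) := by
    refine prod_le_prod (fun _ _ => zero_le_one) fun p hp => ?_
    have : (2 : ℝ) ≤ p := by exact_mod_cast hS p hp
    linarith
  simpa using h

lemma kap_nonneg (x : CI) {S : Finset ℕ} (hS : ∀ p ∈ S, 2 ≤ p) : 0 ≤ kap x S := by
  have := prod_sub_pos hS
  unfold kap
  exact div_nonneg (inv_nonneg.2 (Real.sqrt_nonneg _)) (by linarith)

lemma kap_le_one (x : CI) {S : Finset ℕ} (hS : ∀ p ∈ S, 2 ≤ p) : kap x S ≤ 1 := by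
  have h1 := prod_sub_pos hS
  have h2 : 1 ≤ Real.sqrt (md x) := by
    rw [Real.one_le_sqrt]
    exact_mod_cast md_pos x
  unfold kap
  rw [div_le_one (by linarith)]
  exact (inv_le_one_of_one_le₀ h2).trans h1

lemma term_bound (X Q R : ℕ) (hQ : 2 ≤ Q) (hX : Q ^ 5 ≤ X) (hR : 1 ≤ R) (x : CI)
    (hx : x.2.IsPrimitive) (bx : ℝ) (hb : ∀ n, ‖Mc X Q x n‖ ≤ bx) (S : Finset ℕ)
    (hS : ∀ p ∈ S, p.Prime ∧ ¬ p ∣ md x) (t : ℝ) :
    ‖ft (4 * X) (fun n => (rho x : ℂ) * (starRingEnd ℂ) (cv x n) * Mc X Q x n *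
        ((∏ p ∈ S, wp p n : ℝ) : ℂ)) t‖ ≤
      rho x * (kap x S * ((md x * ∏ p ∈ S, p : ℕ) *
          (8 * X * (R : ℝ) ^ 4 / ((X / Q ^ 5 : ℕ) : ℝ) ^ 2) +
        4 * X * bx * (Nr R t (md x * ∏ p ∈ S, p)).card)) := by
  obtain ⟨c, hc1, hc2, hc3⟩ := char_expand x hx S hS
  have hS2 : ∀ p ∈ S, 2 ≤ p := fun p hp => (hS p hp).1.two_le
  set q : ℕ := md x * ∏ p ∈ S, p with hq
  set E : ℝ := 8 * X * (R : ℝ) ^ 4 / ((X / Q ^ 5 : ℕ) : ℝ) ^ 2 with hE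
  have hbx : 0 ≤ bx := (norm_nonneg _).trans (hb 0)
  have hQ5 : 0 < Q ^ 5 := by positivity
  have hU : 1 ≤ X / Q ^ 5 := (Nat.one_le_div_iff hQ5).2 hX
  have hU' : (0 : ℝ) < ((X / Q ^ 5 : ℕ) : ℝ) := by exact_mod_cast hU
  have hR' : (0 : ℝ) < R := by exact_mod_cast hR
  have hE0 : 0 ≤ E := by rw [hE]; positivity
  have hk0 := kap_nonneg x hS2
  have hX0 : (0 : ℝ) ≤ X := Nat.cast_nonneg X
  have h1 : ft (4 * X) (fun n => (rho x : ℂ) * (starRingEnd ℂ) (cv x n) * Mc X Q x n *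
      ((∏ p ∈ S, wp p n : ℝ) : ℂ)) t =
      (rho x : ℂ) * ∑ b ∈ range q, c b * ft (4 * X) (Mc X Q x) (t + (b : ℝ) / (q : ℝ)) := by
    unfold ft
    have h2 : ∀ b ∈ range q, c b * ∑ n ∈ range (4 * X), Mc X Q x n * ex (n * (t + (b : ℝ) / (q : ℝ))) =
        ∑ n ∈ range (4 * X), c b * (Mc X Q x n * ex (n * (t + (b : ℝ) / (q : ℝ)))) := by
      intro b _
      rw [mul_sum]
    rw [sum_congr rfl h2, sum_comm, mul_sum]
    refine sum_congr rfl fun n _ => ?_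
    beta_reduce
    have h3 : (rho x : ℂ) * (starRingEnd ℂ) (cv x n) * Mc X Q x n * ((∏ p ∈ S, wp p n : ℝ) : ℂ) =
        (rho x : ℂ) * Mc X Q x n * ((starRingEnd ℂ) (cv x n) * ((∏ p ∈ S, wp p n : ℝ) : ℂ)) := by
      ring
    rw [h3, hc3 n, mul_sum, sum_mul, mul_sum]
    refine sum_congr rfl fun b _ => ?_
    have h4 : (n : ℝ) * (t + (b : ℝ) / (q : ℝ)) = (b : ℝ) * n / ((q : ℕ) : ℝ) + n * t := by
      ring
    rw [h4, ex_add]
    ring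
  rw [h1, norm_mul, Complex.norm_real, Real.norm_of_nonneg (rho_nonneg x)]
  refine mul_le_mul_of_nonneg_left ?_ (rho_nonneg x)
  have h5 : ∀ b ∈ range q, ‖c b * ft (4 * X) (Mc X Q x) (t + (b : ℝ) / (q : ℝ))‖ ≤
      kap x S * (E + if b.Coprime q ∧ nrm (t + (b : ℝ) / (q : ℝ)) < 1 / (2 * (R : ℝ) ^ 2) then
        4 * X * bx else 0) := by
    intro b _
    rw [norm_mul]
    by_cases hbq : b.Coprime q
    · by_cases hn : nrm (t + (b : ℝ) / (q : ℝ)) < 1 / (2 * (R : ℝ) ^ 2)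
      · rw [if_pos ⟨hbq, hn⟩]
        refine mul_le_mul (hc1 b) ?_ (norm_nonneg _) hk0
        have := near_ft X Q x bx hb (t + (b : ℝ) / (q : ℝ))
        linarith
      · rw [if_neg (fun h => hn h.2), add_zero]
        refine mul_le_mul (hc1 b) ?_ (norm_nonneg _) hk0
        refine (far_ft X Q hQ hX x _).trans ?_
        rw [not_lt] at hn
        have hn0 : 0 < nrm (t + (b : ℝ) / (q : ℝ)) := lt_of_lt_of_le (by positivity) hn
        have h6 := kh_decay (X / Q ^ 5) hU (t + (b : ℝ) / (q : ℝ)) hn0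
        have h7 : 1 / (4 * ((X / Q ^ 5 : ℕ) : ℝ) ^ 2 * nrm (t + (b : ℝ) / (q : ℝ)) ^ 2) ≤
            (R : ℝ) ^ 4 / ((X / Q ^ 5 : ℕ) : ℝ) ^ 2 := by
          rw [div_le_div_iff₀ (by positivity) (by positivity), one_mul]
          have h8 := pow_le_pow_left₀ (by positivity) hn 2
          have h9 : (1 / (2 * (R : ℝ) ^ 2)) ^ 2 = 1 / (4 * (R : ℝ) ^ 4) := by
            field_simp
            ring
          rw [h9, div_le_iff₀ (by positivity)] at h8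
          have h10 : (0 : ℝ) ≤ ((X / Q ^ 5 : ℕ) : ℝ) ^ 2 := by positivity
          nlinarith
        calc Kh (X / Q ^ 5) (t + (b : ℝ) / (q : ℝ)) * (8 * X)
            ≤ (R : ℝ) ^ 4 / ((X / Q ^ 5 : ℕ) : ℝ) ^ 2 * (8 * X) :=
              mul_le_mul_of_nonneg_right (h6.trans h7) (by positivity)
          _ = E := by rw [hE]; ring
    · rw [hc2 b hbq, norm_zero, zero_mul]
      refine mul_nonneg hk0 (add_nonneg hE0 ?_)
      split_ifs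
      · positivity
      · exact le_refl _
  refine (norm_sum_le _ _).trans ((sum_le_sum h5).trans (le_of_eq ?_))
  rw [← mul_sum, sum_add_distrib, sum_const, card_range, nsmul_eq_mul, ← sum_filter, sum_const,
    nsmul_eq_mul]
  unfold Nr
  ring

lemma near_unique (Q Y : ℕ) (x : CI) (t : ℝ) (T : Finset (Finset ℕ))
    (hT : ∀ S ∈ T, (∀ p ∈ S, p.Prime) ∧ md x * ∏ p ∈ S, p ≤ Q * Y) :
    ∑ S ∈ T, (Nr (Q * Y) t (md x * ∏ p ∈ S, p)).card ≤ 1 := by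
  rw [← card_sigma, card_le_one]
  rintro ⟨S, b⟩ h ⟨S', b'⟩ h'
  rw [mem_sigma] at h h'
  obtain ⟨hS, hb⟩ := h
  obtain ⟨hS', hb'⟩ := h'
  simp only at hS hb hS' hb'
  unfold Nr at hb hb'
  rw [mem_filter, mem_range] at hb hb'
  obtain ⟨hb1, hb2, hb3⟩ := hb
  obtain ⟨hb1', hb2', hb3'⟩ := hb'
  have hqs := (hT S hS).2
  have hqs' := (hT S' hS').2
  have hR : 0 < Q * Y := lt_of_lt_of_le (lt_of_le_of_lt (Nat.zero_le _) hb1) hqs
  obtain ⟨u, hu⟩ : ∃ u, md x * ∏ p ∈ S, p = u + 1 := ⟨md x * ∏ p ∈ S, p - 1, by omega⟩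
  obtain ⟨u', hu'⟩ : ∃ u, md x * ∏ p ∈ S', p = u + 1 := ⟨md x * ∏ p ∈ S', p - 1, by omega⟩
  rw [hu] at hb1 hb2 hb3 hqs
  rw [hu'] at hb1' hb2' hb3' hqs'
  have hR' : (0 : ℝ) < ((Q * Y : ℕ) : ℝ) := by exact_mod_cast hR
  have heq : (b : ℝ) / ((u + 1 : ℕ) : ℝ) = (b' : ℝ) / ((u' + 1 : ℕ) : ℝ) := by
    by_contra hne
    have h1 := Pool.Agent.BVH.MSieveAux.farey_sep hqs hqs' hb1 hb1' hne
    have h2 := nrm_sub_le (t + (b : ℝ) / ((u + 1 : ℕ) : ℝ)) (t + (b' : ℝ) / ((u' + 1 : ℕ) : ℝ))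
    have h3 : t + (b : ℝ) / ((u + 1 : ℕ) : ℝ) - (t + (b' : ℝ) / ((u' + 1 : ℕ) : ℝ)) =
        (b : ℝ) / ((u + 1 : ℕ) : ℝ) - (b' : ℝ) / ((u' + 1 : ℕ) : ℝ) := by ring
    rw [h3] at h2
    have h4 : 1 / (2 * ((Q * Y : ℕ) : ℝ) ^ 2) + 1 / (2 * ((Q * Y : ℕ) : ℝ) ^ 2) =
        1 / (((Q * Y) ^ 2 : ℕ) : ℝ) := by
      rw [Nat.cast_pow]
      field_simp
      ring
    linarith
  obtain ⟨h5, h6⟩ := Pool.Agent.BVH.MSieveAux.farey_inj hb2 hb2' heq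
  have h7 : ∏ p ∈ S, p = ∏ p ∈ S', p := by
    refine Nat.eq_of_mul_eq_mul_left (md_pos x) ?_
    rw [hu, hu', h5]
  have h8 : S = S' := prod_inj (hT S hS).1 (hT S' hS').1 h7
  subst h8
  subst h6
  rfl

lemma kap_le (Q Y : ℕ) (hQ : 1 ≤ Q) (x : CI) (hx : md x ≤ Q) (S : Finset ℕ)
    (hS : ∀ p ∈ S, 2 ≤ p) (hY : ∏ p ∈ S, p ≤ Y) (hq : Q < md x * ∏ p ∈ S, p) :
    kap x S ≤ (1 + 2 * Real.log Y) * (Real.sqrt Q)⁻¹ := by
  have hQ' : (0 : ℝ) < Q := by exact_mod_cast hQ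
  have hr : (0 : ℝ) < md x := by exact_mod_cast md_pos x
  have hs : (0 : ℝ) < ((∏ p ∈ S, p : ℕ) : ℝ) := by
    have : 0 < ∏ p ∈ S, p := prod_pos fun p hp => by have := hS p hp; omega
    exact_mod_cast this
  have hd : 0 < ∏ p ∈ S, ((p : ℝ) - 1) := by have := prod_sub_pos hS; linarith
  have h1 := ratio_le S hS
  have h2 : Real.log ((∏ p ∈ S, p : ℕ) : ℝ) ≤ Real.log Y := Real.log_le_log hs (by exact_mod_cast hY)
  have hsr : 0 < Real.sqrt (md x) := Real.sqrt_pos.2 hr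
  have hsQ : 0 < Real.sqrt Q := Real.sqrt_pos.2 hQ'
  have h3 : kap x S = ((∏ p ∈ S, p : ℕ) : ℝ) / (∏ p ∈ S, ((p : ℝ) - 1)) *
      ((Real.sqrt (md x))⁻¹ / ((∏ p ∈ S, p : ℕ) : ℝ)) := by
    unfold kap
    field_simp
  have h4 : (Real.sqrt (md x))⁻¹ / ((∏ p ∈ S, p : ℕ) : ℝ) ≤ (Real.sqrt Q)⁻¹ := by
    have h5 : (Real.sqrt (md x))⁻¹ = Real.sqrt (md x) / md x := by
      rw [inv_eq_one_div, div_eq_div_iff hsr.ne' hr.ne', one_mul, Real.mul_self_sqrt hr.le]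
    have h6 : (Real.sqrt Q)⁻¹ = Real.sqrt Q / Q := by
      rw [inv_eq_one_div, div_eq_div_iff hsQ.ne' hQ'.ne', one_mul, Real.mul_self_sqrt hQ'.le]
    rw [h5, h6, div_div, div_le_div_iff₀ (by positivity) hQ']
    have h7 : Real.sqrt (md x) ≤ Real.sqrt Q := Real.sqrt_le_sqrt (by exact_mod_cast hx)
    have h8 : (Q : ℝ) ≤ (md x : ℝ) * ((∏ p ∈ S, p : ℕ) : ℝ) := by exact_mod_cast hq.le
    exact mul_le_mul h7 h8 hQ'.le hsQ.le
  rw [h3]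
  refine mul_le_mul (by linarith) h4 (by positivity) ?_
  have : 0 ≤ ((∏ p ∈ S, p : ℕ) : ℝ) / ∏ p ∈ S, ((p : ℝ) - 1) := by positivity
  linarith

/-- The sets between the two truncations. -/
noncomputable def Tx (Q Y : ℕ) (x : CI) : Finset (Finset ℕ) :=
  Sm Y (md x) \ Sm (Q / md x) (md x)

lemma mem_Tx {Q Y : ℕ} {x : CI} {S : Finset ℕ} (h : S ∈ Tx Q Y x) :
    (∀ p ∈ S, p.Prime ∧ ¬ p ∣ md x) ∧ ∏ p ∈ S, p ≤ Y ∧ Q < md x * ∏ p ∈ S, p := by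
  unfold Tx at h
  rw [Finset.mem_sdiff, mem_Sm, mem_Sm] at h
  obtain ⟨⟨h1, h2⟩, h3⟩ := h
  refine ⟨fun p hp => ⟨(h1 p hp).1, (h1 p hp).2.2⟩, h2, ?_⟩
  by_contra hcon
  rw [not_lt] at hcon
  have h4 : ∏ p ∈ S, p ≤ Q / md x := by
    rw [Nat.le_div_iff_mul_le (md_pos x), mul_comm]
    exact hcon
  refine h3 ⟨fun p hp => ⟨(h1 p hp).1, ?_, (h1 p hp).2.2⟩, h4⟩
  refine le_trans (Nat.le_of_dvd ?_ (dvd_prod_of_mem (fun p => p) hp)) h4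
  exact prod_pos fun p hp => (h1 p hp).1.pos

lemma diff_eq (X Q Y : ℕ) (hQY : Q ≤ Y) (n : ℕ) :
    LL X Q Y n - LQ X Q n = ∑ x ∈ Ch Q, ∑ S ∈ Tx Q Y x,
      (rho x : ℂ) * (starRingEnd ℂ) (cv x n) * Mc X Q x n * ((∏ p ∈ S, wp p n : ℝ) : ℂ) := by
  unfold LL LQ
  rw [← sum_sub_distrib]
  refine sum_congr rfl fun x _ => ?_
  rw [← mul_sub, ← mul_sum]
  congr 1
  have hsub : Sm (Q / md x) (md x) ⊆ Sm Y (md x) := Sm_mono ((Nat.div_le_self _ _).trans hQY)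
  have h1 : DD Y (md x) n = (∑ S ∈ Tx Q Y x, ∏ p ∈ S, wp p n) + DD (Q / md x) (md x) n := by
    unfold DD Tx
    rw [sum_sdiff hsub]
  rw [h1]
  push_cast
  ring

lemma main_bound (X Q Y : ℕ) (hQ : 2 ≤ Q) (hX : Q ^ 5 ≤ X) (hQY : Q ≤ Y) (b : CI → ℝ)
    (hb : ∀ x ∈ Ch Q, ∀ n, ‖Mc X Q x n‖ ≤ b x) (B : ℝ) (hB : ∑ x ∈ Ch Q, b x ≤ B) (t : ℝ) :
    ‖ft (4 * X) (fun n => LL X Q Y n - LQ X Q n) t‖ ≤
      (Q : ℝ) ^ 2 * (Y * (Q * (Q * Y * (8 * X * ((Q : ℝ) * Y) ^ 4 / ((X / Q ^ 5 : ℕ) : ℝ) ^ 2)))) +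
        4 * X * ((1 + 2 * Real.log Q) * ((1 + 2 * Real.log Y) * (Real.sqrt Q)⁻¹)) * B := by
  have hQ5 : 0 < Q ^ 5 := by positivity
  have hU : 1 ≤ X / Q ^ 5 := (Nat.one_le_div_iff hQ5).2 hX
  have hU' : (0 : ℝ) < ((X / Q ^ 5 : ℕ) : ℝ) := by exact_mod_cast hU
  have hY1 : 1 ≤ Y := by omega
  have hQ' : (0 : ℝ) < Q := by exact_mod_cast (show 0 < Q by omega)
  have hY' : (0 : ℝ) < Y := by exact_mod_cast hY1
  have hX0 : (0 : ℝ) ≤ X := Nat.cast_nonneg X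
  set E : ℝ := 8 * X * ((Q : ℝ) * Y) ^ 4 / ((X / Q ^ 5 : ℕ) : ℝ) ^ 2 with hE
  have hE0 : 0 ≤ E := by rw [hE]; positivity
  set D : ℝ := (1 + 2 * Real.log Q) * ((1 + 2 * Real.log Y) * (Real.sqrt Q)⁻¹) with hD
  have hlQ : 0 ≤ Real.log Q := Real.log_nonneg (by exact_mod_cast (show 1 ≤ Q by omega))
  have hlY : 0 ≤ Real.log Y := Real.log_nonneg (by exact_mod_cast hY1)
  have hD0 : 0 ≤ D := by rw [hD]; positivity
  have h1 : ft (4 * X) (fun n => LL X Q Y n - LQ X Q n) t =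
      ∑ x ∈ Ch Q, ∑ S ∈ Tx Q Y x, ft (4 * X) (fun n => (rho x : ℂ) * (starRingEnd ℂ) (cv x n) *
        Mc X Q x n * ((∏ p ∈ S, wp p n : ℝ) : ℂ)) t := by
    unfold ft
    simp_rw [diff_eq X Q Y hQY, sum_mul]
    rw [sum_comm]
    refine sum_congr rfl fun x _ => ?_
    rw [sum_comm]
  rw [h1]
  have h2 : ∀ x ∈ Ch Q, ‖∑ S ∈ Tx Q Y x, ft (4 * X) (fun n => (rho x : ℂ) *
      (starRingEnd ℂ) (cv x n) * Mc X Q x n * ((∏ p ∈ S, wp p n : ℝ) : ℂ)) t‖ ≤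
      Y * (Q * (Q * Y * E)) + 4 * X * D * b x := by
    intro x hx
    have hx' := mem_Ch.1 hx
    have hbx : 0 ≤ b x := (norm_nonneg _).trans (hb x hx 0)
    have hrQ : (md x : ℝ) ≤ Q := by exact_mod_cast hx'.1
    have hr1 : (1 : ℝ) ≤ md x := by exact_mod_cast md_pos x
    have hrho : rho x ≤ 1 + 2 * Real.log Q := by
      refine (rho_le x).trans ?_
      have := Real.log_le_log (by linarith) hrQ
      linarith
    have hrho2 : rho x ≤ Q := by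
      refine le_trans ?_ hrQ
      unfold rho
      refine div_le_self (by linarith) ?_
      exact_mod_cast Nat.totient_pos.2 (md_pos x)
    have hT : ∀ S ∈ Tx Q Y x, (∀ p ∈ S, p.Prime) ∧ md x * ∏ p ∈ S, p ≤ Q * Y := by
      intro S hS
      obtain ⟨h3, h4, -⟩ := mem_Tx hS
      exact ⟨fun p hp => (h3 p hp).1, Nat.mul_le_mul hx'.1 h4⟩
    have h3 : ∀ S ∈ Tx Q Y x, ‖ft (4 * X) (fun n => (rho x : ℂ) *
        (starRingEnd ℂ) (cv x n) * Mc X Q x n * ((∏ p ∈ S, wp p n : ℝ) : ℂ)) t‖ ≤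
        Q * (Q * Y * E) + 4 * X * D * b x * (Nr (Q * Y) t (md x * ∏ p ∈ S, p)).card := by
      intro S hS
      obtain ⟨h4, h5, h6⟩ := mem_Tx hS
      have hS2 : ∀ p ∈ S, 2 ≤ p := fun p hp => (h4 p hp).1.two_le
      have h7 := term_bound X Q (Q * Y) hQ hX (Nat.mul_pos (by omega) hY1) x hx'.2 (b x) (hb x hx)
        S h4 t
      refine h7.trans ?_
      have hc0 : (0 : ℝ) ≤ (Nr (Q * Y) t (md x * ∏ p ∈ S, p)).card := Nat.cast_nonneg _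
      have hk0 := kap_nonneg x hS2
      have hk1 := kap_le_one x hS2
      have hk2 := kap_le Q Y (by omega) x hx'.1 S hS2 h5 h6
      have hr0 := rho_nonneg x
      have hqQ : ((md x * ∏ p ∈ S, p : ℕ) : ℝ) ≤ (Q : ℝ) * Y := by
        exact_mod_cast (hT S hS).2
      have hq0 : (0 : ℝ) ≤ ((md x * ∏ p ∈ S, p : ℕ) : ℝ) := Nat.cast_nonneg _
      have hrk : rho x * kap x S ≤ D := mul_le_mul hrho hk2 hk0 (by linarith)
      have hrk2 : rho x * kap x S ≤ Q * 1 := mul_le_mul hrho2 hk1 hk0 hQ'.le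
      have hEE : 8 * (X : ℝ) * (((Q * Y : ℕ)) : ℝ) ^ 4 / ((X / Q ^ 5 : ℕ) : ℝ) ^ 2 = E := by
        rw [hE]
        push_cast
        rfl
      rw [hEE]
      have h8 : rho x * kap x S * (((md x * ∏ p ∈ S, p : ℕ) : ℝ) * E) ≤ Q * 1 * (Q * Y * E) :=
        mul_le_mul hrk2 (mul_le_mul_of_nonneg_right hqQ hE0) (by positivity) (by positivity)
      have h9 : rho x * kap x S * (4 * X * b x * (Nr (Q * Y) t (md x * ∏ p ∈ S, p)).card) ≤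
          D * (4 * X * b x * (Nr (Q * Y) t (md x * ∏ p ∈ S, p)).card) :=
        mul_le_mul_of_nonneg_right hrk (by positivity)
      calc rho x * (kap x S * (((md x * ∏ p ∈ S, p : ℕ) : ℝ) * E +
            4 * X * b x * (Nr (Q * Y) t (md x * ∏ p ∈ S, p)).card))
          = rho x * kap x S * (((md x * ∏ p ∈ S, p : ℕ) : ℝ) * E) +
            rho x * kap x S * (4 * X * b x * (Nr (Q * Y) t (md x * ∏ p ∈ S, p)).card) := by ring
        _ ≤ Q * 1 * (Q * Y * E) + D * (4 * X * b x * (Nr (Q * Y) t (md x * ∏ p ∈ S, p)).card) :=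
            add_le_add h8 h9
        _ = _ := by ring
    refine (norm_sum_le _ _).trans ((sum_le_sum h3).trans ?_)
    rw [sum_add_distrib, sum_const, nsmul_eq_mul, ← mul_sum]
    have h10 : ((Tx Q Y x).card : ℝ) ≤ Y := by
      have : (Tx Q Y x).card ≤ Y := (card_le_card sdiff_subset).trans (card_Sm Y (md x))
      exact_mod_cast this
    have h11 : ∑ S ∈ Tx Q Y x, ((Nr (Q * Y) t (md x * ∏ p ∈ S, p)).card : ℝ) ≤ 1 := by
      exact_mod_cast near_unique Q Y x t (Tx Q Y x) hT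
    have h12 : ((Tx Q Y x).card : ℝ) * (Q * (Q * Y * E)) ≤ Y * (Q * (Q * Y * E)) :=
      mul_le_mul_of_nonneg_right h10 (by positivity)
    have h13 : 4 * X * D * b x * ∑ S ∈ Tx Q Y x, ((Nr (Q * Y) t (md x * ∏ p ∈ S, p)).card : ℝ) ≤
        4 * X * D * b x * 1 := mul_le_mul_of_nonneg_left h11 (by positivity)
    linarith
  refine (norm_sum_le _ _).trans ((sum_le_sum h2).trans ?_)
  rw [sum_add_distrib, sum_const, nsmul_eq_mul, ← mul_sum]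
  have h14 : ((Ch Q).card : ℝ) ≤ (Q : ℝ) ^ 2 := by
    have := card_Ch Q
    rw [sq]
    exact_mod_cast this
  have h15 : ((Ch Q).card : ℝ) * (Y * (Q * (Q * Y * E))) ≤ (Q : ℝ) ^ 2 * (Y * (Q * (Q * Y * E))) :=
    mul_le_mul_of_nonneg_right h14 (by positivity)
  have h16 : 4 * X * D * ∑ x ∈ Ch Q, b x ≤ 4 * X * D * B :=
    mul_le_mul_of_nonneg_left hB (by positivity)
  linarith


lemma near_final (Q B0 : ℕ) (B : ℝ) (hQ3 : (3 : ℝ) ≤ Q)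
    (hQB : (38400 * |B| * (1 + 2 * B0)) ^ 20 ≤ (Q : ℝ)) :
    4 * ((1 + 2 * Real.log Q) * ((1 + 2 * Real.log ((Q ^ B0 : ℕ) : ℝ)) * (Real.sqrt Q)⁻¹)) * B ≤
      (Q : ℝ) ^ (-(2 / 5 : ℝ)) / 2 := by
  have hQ0 : (0 : ℝ) < Q := by linarith
  set L : ℝ := Real.log Q with hL
  have hL1 : 1 ≤ L := by
    rw [hL, Real.le_log_iff_exp_le hQ0]
    exact (Real.exp_one_lt_d9.le.trans (by norm_num)).trans hQ3
  have hLQ : L ≤ 40 * (Q : ℝ) ^ (1 / 40 : ℝ) := by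
    have := Real.log_le_rpow_div hQ0.le (show (0 : ℝ) < 1 / 40 by norm_num)
    rw [hL]
    linarith
  have hL2 : L ^ 2 ≤ 1600 * (Q : ℝ) ^ (1 / 20 : ℝ) := by
    have h1 := pow_le_pow_left₀ (by linarith) hLQ 2
    rw [mul_pow, ← Real.rpow_natCast ((Q : ℝ) ^ (1 / 40 : ℝ)) 2, ← Real.rpow_mul hQ0.le] at h1
    norm_num at h1 ⊢
    exact h1
  have hb0 : (0 : ℝ) ≤ B0 := Nat.cast_nonneg _
  have hY : Real.log ((Q ^ B0 : ℕ) : ℝ) = B0 * L := by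
    rw [Nat.cast_pow, Real.log_pow]
  rw [hY]
  have h1 : (1 + 2 * L) * (1 + 2 * (B0 * L)) ≤ 3 * (1 + 2 * B0) * L ^ 2 := by
    have h2 : (1 + 2 * L) ≤ 3 * L := by linarith
    have h3 : 1 + 2 * (B0 * L) ≤ (1 + 2 * B0) * L := by nlinarith
    calc (1 + 2 * L) * (1 + 2 * (B0 * L)) ≤ 3 * L * ((1 + 2 * B0) * L) :=
          mul_le_mul h2 h3 (by positivity) (by positivity)
      _ = 3 * (1 + 2 * B0) * L ^ 2 := by ring
  have hK0 : 0 ≤ 38400 * |B| * (1 + 2 * (B0 : ℝ)) := by positivity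
  have hK : 38400 * |B| * (1 + 2 * (B0 : ℝ)) ≤ (Q : ℝ) ^ (1 / 20 : ℝ) := by
    have h2 := Real.rpow_le_rpow (by positivity) hQB (show (0 : ℝ) ≤ 1 / 20 by norm_num)
    rw [← Real.rpow_natCast (38400 * |B| * (1 + 2 * (B0 : ℝ))) 20, ← Real.rpow_mul hK0] at h2
    norm_num at h2 ⊢
    exact h2
  have hs : (Real.sqrt Q)⁻¹ = (Q : ℝ) ^ (-(1 / 2) : ℝ) := by
    rw [Real.sqrt_eq_rpow, Real.rpow_neg hQ0.le]
  rw [hs]
  have hq : (0 : ℝ) < (Q : ℝ) ^ (-(1 / 2) : ℝ) := Real.rpow_pos_of_pos hQ0 _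
  have h4 : 4 * ((1 + 2 * L) * ((1 + 2 * (B0 * L)) * (Q : ℝ) ^ (-(1 / 2) : ℝ))) * B ≤
      4 * (3 * (1 + 2 * B0) * L ^ 2) * (Q : ℝ) ^ (-(1 / 2) : ℝ) * |B| := by
    have h5 : 4 * ((1 + 2 * L) * ((1 + 2 * (B0 * L)) * (Q : ℝ) ^ (-(1 / 2) : ℝ))) * B =
        4 * ((1 + 2 * L) * (1 + 2 * (B0 * L))) * (Q : ℝ) ^ (-(1 / 2) : ℝ) * B := by ring
    rw [h5]
    have h6 : 0 ≤ 4 * ((1 + 2 * L) * (1 + 2 * (B0 * L))) * (Q : ℝ) ^ (-(1 / 2) : ℝ) := by positivity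
    calc 4 * ((1 + 2 * L) * (1 + 2 * (B0 * L))) * (Q : ℝ) ^ (-(1 / 2) : ℝ) * B
        ≤ 4 * ((1 + 2 * L) * (1 + 2 * (B0 * L))) * (Q : ℝ) ^ (-(1 / 2) : ℝ) * |B| :=
          mul_le_mul_of_nonneg_left (le_abs_self B) h6
      _ ≤ _ := by
          refine mul_le_mul_of_nonneg_right ?_ (abs_nonneg B)
          refine mul_le_mul_of_nonneg_right ?_ hq.le
          linarith
  refine h4.trans ?_
  have h7 : 4 * (3 * (1 + 2 * B0) * L ^ 2) * (Q : ℝ) ^ (-(1 / 2) : ℝ) * |B| ≤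
      4 * (3 * (1 + 2 * B0) * (1600 * (Q : ℝ) ^ (1 / 20 : ℝ))) * (Q : ℝ) ^ (-(1 / 2) : ℝ) * |B| := by
    refine mul_le_mul_of_nonneg_right ?_ (abs_nonneg B)
    refine mul_le_mul_of_nonneg_right ?_ hq.le
    refine mul_le_mul_of_nonneg_left ?_ (by norm_num)
    exact mul_le_mul_of_nonneg_left hL2 (by positivity)
  refine h7.trans ?_
  have h8 : 4 * (3 * (1 + 2 * B0) * (1600 * (Q : ℝ) ^ (1 / 20 : ℝ))) * (Q : ℝ) ^ (-(1 / 2) : ℝ) * |B| =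
      38400 * |B| * (1 + 2 * (B0 : ℝ)) * ((Q : ℝ) ^ (1 / 20 : ℝ) * (Q : ℝ) ^ (-(1 / 2) : ℝ)) / 2 := by
    ring
  rw [h8]
  have h9 : 38400 * |B| * (1 + 2 * (B0 : ℝ)) * ((Q : ℝ) ^ (1 / 20 : ℝ) * (Q : ℝ) ^ (-(1 / 2) : ℝ)) ≤
      (Q : ℝ) ^ (1 / 20 : ℝ) * ((Q : ℝ) ^ (1 / 20 : ℝ) * (Q : ℝ) ^ (-(1 / 2) : ℝ)) :=
    mul_le_mul_of_nonneg_right hK (by positivity)
  have h10 : (Q : ℝ) ^ (1 / 20 : ℝ) * ((Q : ℝ) ^ (1 / 20 : ℝ) * (Q : ℝ) ^ (-(1 / 2) : ℝ)) =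
      (Q : ℝ) ^ (-(2 / 5 : ℝ)) := by
    rw [← Real.rpow_add hQ0, ← Real.rpow_add hQ0]
    norm_num
  rw [h10] at h9
  linarith

lemma far_final (X Q B0 : ℕ) (hX : 64 ≤ X) (hQ : 2 ≤ Q) (hQX : Q ^ (19 + 6 * B0) ≤ X) :
    (Q : ℝ) ^ 2 * (((Q ^ B0 : ℕ) : ℝ) * (Q * (Q * ((Q ^ B0 : ℕ) : ℝ) *
      (8 * X * ((Q : ℝ) * ((Q ^ B0 : ℕ) : ℝ)) ^ 4 / ((X / Q ^ 5 : ℕ) : ℝ) ^ 2)))) ≤
      X * (Q : ℝ) ^ (-(2 / 5 : ℝ)) / 2 := by
  have hQ5 : 0 < Q ^ 5 := by positivity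
  have hQ5X : Q ^ 5 ≤ X := le_trans (Nat.pow_le_pow_right (by omega) (by omega)) hQX
  have hU : 1 ≤ X / Q ^ 5 := (Nat.one_le_div_iff hQ5).2 hQ5X
  have hU' : (0 : ℝ) < ((X / Q ^ 5 : ℕ) : ℝ) := by exact_mod_cast hU
  have hQ0 : (0 : ℝ) < Q := by exact_mod_cast (show 0 < Q by omega)
  have hQ1 : (1 : ℝ) ≤ Q := by exact_mod_cast (show 1 ≤ Q by omega)
  have hX64 : (64 : ℝ) ≤ X := by exact_mod_cast hX
  have hX0 : (0 : ℝ) < X := by linarith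
  have h1 : X ≤ 2 * Q ^ 5 * (X / Q ^ 5) := by
    have h2 := Nat.div_add_mod X (Q ^ 5)
    have h3 := Nat.mod_lt X hQ5
    nlinarith
  have h1' : (X : ℝ) ≤ 2 * (Q : ℝ) ^ 5 * ((X / Q ^ 5 : ℕ) : ℝ) := by exact_mod_cast h1
  have h2 : (Q : ℝ) ^ (19 + 6 * B0) ≤ X := by exact_mod_cast hQX
  set U : ℝ := ((X / Q ^ 5 : ℕ) : ℝ) with hUd
  have h3 : (Q : ℝ) ^ 2 * (((Q ^ B0 : ℕ) : ℝ) * (Q * (Q * ((Q ^ B0 : ℕ) : ℝ) *
      (8 * X * ((Q : ℝ) * ((Q ^ B0 : ℕ) : ℝ)) ^ 4 / U ^ 2)))) =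
      8 * X * ((Q : ℝ) ^ 8 * (Q : ℝ) ^ (6 * B0)) / U ^ 2 := by
    rw [Nat.cast_pow, show 6 * B0 = B0 * 6 by ring, pow_mul]
    ring
  rw [h3]
  have h4 : 8 * X * ((Q : ℝ) ^ 8 * (Q : ℝ) ^ (6 * B0)) / U ^ 2 ≤ 32 / Q := by
    rw [div_le_div_iff₀ (by positivity) hQ0]
    have h5 : (X : ℝ) ^ 2 ≤ 4 * (Q : ℝ) ^ 10 * U ^ 2 := by
      have := pow_le_pow_left₀ hX0.le h1' 2
      calc (X : ℝ) ^ 2 ≤ (2 * (Q : ℝ) ^ 5 * U) ^ 2 := this
        _ = 4 * (Q : ℝ) ^ 10 * U ^ 2 := by ring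
    have h6 : (Q : ℝ) ^ (19 + 6 * B0) = (Q : ℝ) ^ 10 * ((Q : ℝ) ^ 8 * (Q : ℝ) ^ (6 * B0) * Q) := by
      rw [pow_add]
      ring
    have h7 : 0 < (Q : ℝ) ^ 10 := by positivity
    -- 8 X w ≤ 32 U², w = Q^9 Q^(6 B0), Q^10 w ≤ X
    set w : ℝ := (Q : ℝ) ^ 8 * (Q : ℝ) ^ (6 * B0) * Q with hw
    have h8 : (Q : ℝ) ^ 10 * w ≤ X := by rw [← h6]; exact h2
    have h9 : (Q : ℝ) ^ 10 * (8 * X * w) ≤ (Q : ℝ) ^ 10 * (32 * U ^ 2) := by
      have h10 : X * ((Q : ℝ) ^ 10 * w) ≤ X * X := mul_le_mul_of_nonneg_left h8 hX0.le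
      nlinarith
    have h11 := le_of_mul_le_mul_left h9 h7
    calc 8 * X * ((Q : ℝ) ^ 8 * (Q : ℝ) ^ (6 * B0)) * Q = 8 * X * w := by rw [hw]; ring
      _ ≤ 32 * U ^ 2 := h11
  refine h4.trans ?_
  have h5 : (Q : ℝ) ^ (-1 : ℝ) ≤ (Q : ℝ) ^ (-(2 / 5 : ℝ)) :=
    Real.rpow_le_rpow_of_exponent_le hQ1 (by norm_num)
  rw [Real.rpow_neg_one] at h5
  have h6 : 32 / (Q : ℝ) = 32 * (Q : ℝ)⁻¹ := by ring
  rw [h6]
  have h7 : 0 < (Q : ℝ)⁻¹ := by positivity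
  nlinarith

end DiffLAux

open DiffLAux

theorem diffL (B0 : ℕ) (hB0 : 1 ≤ B0) (B : ℝ) : ∃ c : ℝ, 0 < c ∧ ∃ X0 : ℕ, ∀ X Q : ℕ, X0 ≤ X →
    Rg c X Q → ∀ b : CI → ℝ, (∀ x ∈ Ch Q, ∀ n, ‖Mc X Q x n‖ ≤ b x) → ∑ x ∈ Ch Q, b x ≤ B →
    ∀ t : ℝ, ‖ft (4 * X) (fun n => LL X Q (Q ^ B0) n - LQ X Q n) t‖ ≤
      X * (Q : ℝ) ^ (-(2 / 5 : ℝ)) := by
  obtain ⟨Q1, hQ1⟩ : ∃ Q1 : ℝ, Q1 = max 3 ((38400 * |B| * (1 + 2 * B0)) ^ 20) := ⟨_, rfl⟩
  have hQ13 : 3 ≤ Q1 := hQ1 ▸ le_max_left _ _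
  have hQ1B : (38400 * |B| * (1 + 2 * B0)) ^ 20 ≤ Q1 := hQ1 ▸ le_max_right _ _
  refine ⟨1 / ((19 + 6 * B0 : ℕ) : ℝ), by positivity, max 64 ⌈Real.exp ((2 * Q1) ^ 2)⌉₊, ?_⟩
  intro X Q hX hR b hb hB t
  have hX64 : 64 ≤ X := (le_max_left _ _).trans hX
  have hX64' : (64 : ℝ) ≤ X := by exact_mod_cast hX64
  have hX0 : (0 : ℝ) < X := by linarith
  have hXe : Real.exp ((2 * Q1) ^ 2) ≤ X :=
    (Nat.le_ceil _).trans (by exact_mod_cast (le_max_right _ _).trans hX)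
  have hlX : (2 * Q1) ^ 2 ≤ Real.log X := (Real.le_log_iff_exp_le hX0).2 hXe
  have hsq : 2 * Q1 ≤ Real.sqrt (Real.log X) := Real.le_sqrt_of_sq_le hlX
  have hQe : Q1 ≤ Q := by
    have h1 : Real.exp Q1 ≤ Real.exp (Real.sqrt (Real.log X) / 2) :=
      Real.exp_le_exp.2 (by linarith)
    have h2 := Real.add_one_le_exp Q1
    have h3 := hR.1
    linarith
  have hQ3 : (3 : ℝ) ≤ Q := hQ13.trans hQe
  have hQ2 : 2 ≤ Q := by
    have : (2 : ℝ) ≤ Q := by linarith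
    exact_mod_cast this
  have hQX : Q ^ (19 + 6 * B0) ≤ X := by
    have h1 : ((Q : ℝ)) ^ (19 + 6 * B0) ≤ X := by
      have h2 := pow_le_pow_left₀ (by linarith) hR.2 (19 + 6 * B0)
      rw [← Real.rpow_natCast ((X : ℝ) ^ (1 / ((19 + 6 * B0 : ℕ) : ℝ))), ← Real.rpow_mul hX0.le,
        one_div, inv_mul_cancel₀ (by positivity), Real.rpow_one] at h2
      exact h2
    exact_mod_cast h1
  have hQ5 : Q ^ 5 ≤ X := le_trans (Nat.pow_le_pow_right (by omega) (by omega)) hQX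
  have hQY : Q ≤ Q ^ B0 := Nat.le_self_pow (by omega) Q
  have h1 := main_bound X Q (Q ^ B0) hQ2 hQ5 hQY b hb B hB t
  have h2 := far_final X Q B0 hX64 hQ2 hQX
  have h3 := near_final Q B0 B hQ3 (hQ1B.trans hQe)
  have h4 : 4 * (X : ℝ) * ((1 + 2 * Real.log Q) * ((1 + 2 * Real.log ((Q ^ B0 : ℕ) : ℝ)) *
      (Real.sqrt Q)⁻¹)) * B = X * (4 * ((1 + 2 * Real.log Q) *
      ((1 + 2 * Real.log ((Q ^ B0 : ℕ) : ℝ)) * (Real.sqrt Q)⁻¹)) * B) := by ring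
  rw [h4] at h1
  have h5 := mul_le_mul_of_nonneg_left h3 hX0.le
  linarith

end Pool.Agent.Lib.GMV
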