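import Pool.Agent.Lib.GMV.Kern
import Pool.Agent.Lib.HLT.TauPow
import Pool.Agent.Lib.HLT.Brun

/-!
# GMV.L2bd: mean squares (paper 3)

PROOF. `W ≤ log(4X)` on `[0,4X)`: `∑ W² ≤ 4X log²(4X)`. For the model, `n = 0`: `Mc = 0` (`cn_eq_zero`). `n ≥ 1`:
`|DD Y r n| ≤ ∑_{S ∈ Sm Y r} ∏_{p ∈ S, p ∣ n} 1 ∏_{p ∈ S, p ∤ n} 1/(p-1) ≤ 2^(ω(n)) ∏_{p ≤ Y} (1 + 1/(p-1)) = 2^(ω(n)) / DZ Y`,
`≤ d(n) · C log Y` (Mertens: `DZ Y ≥ c/log Y`, library, e.g. the lemmas on `DZ` in HLB/HLT; a crude proof: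
`∏_{p≤Y} (1-1/p)^{-1} ≤ C log Y`; even `≤ 2 + log Y` times a constant from the harmonic sum with a different sieve is
enough, any power of `log X` is fine). `rho x ≤ 1 + log₂ (md x)`, `∑_x ‖Mc‖ ≤ B`. So `‖LL n‖ ≤ C B (log X)² d(n)`, and
`∑_{n<4X} d(n)² ≤ C X log³ X` (HLT.TauPow). Everything for `Y = Q^B0 ≤ X^B0`.
-/

set_option autoImplicit false

open Finset Filter

namespace Pool.Agent.Lib.GMV

open Pool.Agent.HLB Pool.Agent.HLT Pool.Agent.HLR

namespace L2bdAux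

/-- Mertens, a crude form. -/
lemma inv_DZ (z : ℕ) : (DZ z)⁻¹ ≤ Real.exp 10 * (1 + Real.log z) ^ 9 := by
  have h1 := DZ_inv_le_exp z
  have h2 := Pool.Agent.Lib.Pabc2.mertens z
  have h3 : 0 ≤ Real.log (z : ℝ) := Real.log_natCast_nonneg z
  refine h1.trans ?_
  calc Real.exp (1 + ∑ p ∈ Nat.primesLE z, 1 / (p : ℝ))
      ≤ Real.exp (10 + (9 : ℕ) * Real.log (1 + Real.log z)) := by
        apply Real.exp_le_exp.mpr
        push_cast
        linarith
    _ = Real.exp 10 * (1 + Real.log z) ^ 9 := by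
        rw [Real.exp_add, Real.exp_nat_mul, Real.exp_log (by linarith)]

lemma inv_nonneg' {p z : ℕ} (hp : p ∈ Nat.primesLE z) : 1 ≤ (1 - 1 / (p : ℝ))⁻¹ := by
  rw [Nat.mem_primesLE] at hp
  have hp2 : (2 : ℝ) ≤ p := by exact_mod_cast hp.2.two_le
  have h1 : (0 : ℝ) < 1 - 1 / p := by
    rw [sub_pos, div_lt_one (by linarith)]
    linarith
  have h2 : (1 : ℝ) - 1 / p ≤ 1 := by
    have : (0 : ℝ) ≤ 1 / p := by positivity
    linarith
  exact (one_le_inv₀ h1).2 h2

lemma rho_nonneg (x : CI) : 0 ≤ rho x := by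
  unfold rho
  positivity

lemma rho_le (x : CI) : rho x ≤ (DZ (md x))⁻¹ := by
  have hm : md x ≠ 0 := (md_pos x).ne'
  have h1 : ((md x).totient : ℝ) = md x * ∏ p ∈ (md x).primeFactors, (1 - 1 / (p : ℝ)) := by
    have h := Nat.totient_eq_mul_prod_factors (md x)
    have h' : (((md x).totient : ℚ) : ℝ) =
        ((md x * ∏ p ∈ (md x).primeFactors, (1 - (p : ℚ)⁻¹) : ℚ) : ℝ) := by rw [h]
    push_cast at h'
    rw [h']
    simp only [one_div]
  have hm0 : (0 : ℝ) < md x := by exact_mod_cast md_pos x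
  have h2 : rho x = ∏ p ∈ (md x).primeFactors, (1 - 1 / (p : ℝ))⁻¹ := by
    unfold rho
    rw [h1, Finset.prod_inv_distrib, div_mul_eq_div_div, div_self hm0.ne', one_div]
  rw [h2]
  unfold DZ
  rw [← Finset.prod_inv_distrib]
  have hsub : (md x).primeFactors ⊆ Nat.primesLE (md x) := by
    intro p hp
    rw [Nat.mem_primesLE]
    exact ⟨Nat.le_of_mem_primeFactors hp, Nat.prime_of_mem_primeFactors hp⟩
  rw [← Finset.prod_sdiff hsub]
  have h3 : (1 : ℝ) ≤ ∏ p ∈ Nat.primesLE (md x) \ (md x).primeFactors, (1 - 1 / (p : ℝ))⁻¹ := by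
    have := Finset.prod_le_prod (s := Nat.primesLE (md x) \ (md x).primeFactors)
      (f := fun _ => (1 : ℝ)) (g := fun p : ℕ => (1 - 1 / (p : ℝ))⁻¹) (fun _ _ => zero_le_one)
      (fun p hp => inv_nonneg' (Finset.mem_sdiff.1 hp).1)
    rwa [Finset.prod_const_one] at this
  have h4 : (0 : ℝ) ≤ ∏ p ∈ (md x).primeFactors, (1 - 1 / (p : ℝ))⁻¹ :=
    Finset.prod_nonneg fun p hp => zero_le_one.trans (inv_nonneg' (hsub hp))
  exact le_mul_of_one_le_left h4 h3

lemma DD_le (Y r n : ℕ) (hn : n ≠ 0) : |DD Y r n| ≤ (n.divisors.card : ℝ) * (DZ Y)⁻¹ := by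
  have h1 : |DD Y r n| ≤ ∏ p ∈ Nat.primesLE Y, (1 + |wp p n|) := by
    unfold DD
    rw [Finset.prod_one_add]
    refine (Finset.abs_sum_le_sum_abs _ _).trans ?_
    simp only [Finset.abs_prod]
    refine Finset.sum_le_sum_of_subset_of_nonneg ?_ fun S _ _ =>
      Finset.prod_nonneg fun p _ => abs_nonneg _
    intro S hS
    unfold Sm at hS
    rw [Finset.mem_filter, Finset.mem_powerset] at hS
    rw [Finset.mem_powerset]
    exact hS.1.trans (Finset.filter_subset _ _)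
  have h2 : ∏ p ∈ Nat.primesLE Y, (1 + |wp p n|) ≤
      ∏ p ∈ Nat.primesLE Y, ((if p ∣ n then (2 : ℝ) else 1) * (1 - 1 / (p : ℝ))⁻¹) := by
    refine Finset.prod_le_prod (fun p _ => by positivity) fun p hp => ?_
    have hi := inv_nonneg' hp
    rw [Nat.mem_primesLE] at hp
    have hp2 : (2 : ℝ) ≤ p := by exact_mod_cast hp.2.two_le
    unfold wp
    by_cases hd : p ∣ n
    · rw [if_pos hd, if_pos hd, abs_neg, abs_one]
      linarith
    · rw [if_neg hd, if_neg hd, one_mul, abs_of_nonneg (by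
        apply div_nonneg zero_le_one
        linarith)]
      have h3 : (1 - 1 / (p : ℝ))⁻¹ = 1 + 1 / ((p : ℝ) - 1) := by
        have : (p : ℝ) - 1 ≠ 0 := by linarith
        have : (p : ℝ) ≠ 0 := by linarith
        field_simp
        ring
      rw [h3]
  have h3 : ∏ p ∈ Nat.primesLE Y, ((if p ∣ n then (2 : ℝ) else 1) * (1 - 1 / (p : ℝ))⁻¹) ≤
      (n.divisors.card : ℝ) * (DZ Y)⁻¹ := by
    rw [Finset.prod_mul_distrib]
    have h4 : ∏ p ∈ Nat.primesLE Y, (1 - 1 / (p : ℝ))⁻¹ = (DZ Y)⁻¹ := by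
      unfold DZ
      rw [← Finset.prod_inv_distrib]
    rw [h4]
    refine mul_le_mul_of_nonneg_right ?_ (inv_nonneg.2 (DZ_pos Y).le)
    rw [← Finset.prod_filter, Finset.prod_const]
    have h5 : ((Nat.primesLE Y).filter fun p => p ∣ n).card ≤ n.primeFactors.card := by
      refine Finset.card_le_card fun p hp => ?_
      rw [Finset.mem_filter, Nat.mem_primesLE] at hp
      exact Nat.mem_primeFactors.2 ⟨hp.1.2, hp.2, hn⟩
    have h6 : 2 ^ n.primeFactors.card ≤ n.divisors.card := by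
      rw [Nat.card_divisors hn]
      calc 2 ^ n.primeFactors.card = ∏ _p ∈ n.primeFactors, 2 := by rw [Finset.prod_const]
        _ ≤ _ := Finset.prod_le_prod' fun p hp => by
          have : 1 ≤ n.factorization p :=
            (Nat.prime_of_mem_primeFactors hp).factorization_pos_of_dvd hn
              (Nat.dvd_of_mem_primeFactors hp)
          omega
    calc (2 : ℝ) ^ ((Nat.primesLE Y).filter fun p => p ∣ n).card
        ≤ (2 : ℝ) ^ n.primeFactors.card := pow_le_pow_right₀ (by norm_num) h5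
      _ ≤ (n.divisors.card : ℝ) := by exact_mod_cast h6
  exact h1.trans (h2.trans h3)

/-- the growth of a power of the logarithm -/
lemma log_ev (C : ℝ) : ∃ X0 : ℕ, ∀ X : ℕ, X0 ≤ X → C ≤ Real.log X ∧ 1 ≤ X := by
  have h : Tendsto (fun X : ℕ => Real.log (X : ℝ)) atTop atTop :=
    Real.tendsto_log_atTop.comp tendsto_natCast_atTop_atTop
  obtain ⟨X0, hX0⟩ := eventually_atTop.1 ((h.eventually (eventually_ge_atTop C)).and
    (eventually_ge_atTop 1))
  exact ⟨X0, fun X hX => hX0 X hX⟩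

lemma log_four : Real.log 4 ≤ 2 := by
  have h := Real.add_one_le_exp (1 : ℝ)
  rw [Real.log_le_iff_le_exp (by norm_num)]
  have h2 : Real.exp 2 = Real.exp 1 * Real.exp 1 := by
    rw [← Real.exp_add]
    norm_num
  rw [h2]
  nlinarith

end L2bdAux

open L2bdAux

theorem l2W : ∃ X0 : ℕ, ∀ X Q : ℕ, X0 ≤ X → ∑ n ∈ range (4 * X), W X Q n ^ 2 ≤
    X * Real.log X ^ 3 := by
  obtain ⟨X0, hX0⟩ := log_ev 16
  refine ⟨X0, fun X Q hX => ?_⟩
  obtain ⟨hl, hX1⟩ := hX0 X hX
  have hXr : (1 : ℝ) ≤ X := by exact_mod_cast hX1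
  have h4 := log_four
  have h5 : Real.log (4 * X) = Real.log 4 + Real.log X :=
    Real.log_mul (by norm_num) (by linarith)
  have h1 : ∀ n ∈ range (4 * X), W X Q n ^ 2 ≤ (2 * Real.log X) ^ 2 := by
    intro n hn
    rw [Finset.mem_range] at hn
    refine pow_le_pow_left₀ (W_nonneg X Q n) ?_ 2
    refine (W_le X Q n).trans ((lp_le n).trans ?_)
    rcases Nat.eq_zero_or_pos n with rfl | hn0
    · rw [Nat.cast_zero, Real.log_zero]
      linarith
    · have : Real.log (n : ℝ) ≤ Real.log (4 * X) := by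
        refine Real.log_le_log (by exact_mod_cast hn0) ?_
        have : (n : ℝ) < 4 * X := by exact_mod_cast hn
        exact this.le
      linarith
  refine (Finset.sum_le_sum h1).trans ?_
  rw [Finset.sum_const, Finset.card_range, nsmul_eq_mul]
  push_cast
  have h6 : 0 ≤ (X : ℝ) * Real.log X ^ 2 := by positivity
  nlinarith [mul_le_mul_of_nonneg_left hl h6]

theorem l2L (B0 : ℕ) (B : ℝ) : ∃ K X0 : ℕ, ∀ X Q : ℕ, X0 ≤ X → 2 ≤ Q → Q ^ 5 ≤ X →
    ∀ b : CI → ℝ, (∀ x ∈ Ch Q, ∀ n, ‖Mc X Q x n‖ ≤ b x) → ∑ x ∈ Ch Q, b x ≤ B →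
    ∑ n ∈ range (4 * X), ‖LL X Q (Q ^ B0) n‖ ^ 2 ≤ X * Real.log X ^ K := by
  obtain ⟨C, hC⟩ : ∃ C : ℝ, C = (Real.exp 10 * 2 ^ 9 * (Real.exp 10 * (1 + B0) ^ 9) * B) ^ 2 *
    (4 * 4 ^ 4) := ⟨_, rfl⟩
  obtain ⟨X0, hX0⟩ := log_ev (max 1 C)
  refine ⟨41, X0, fun X Q hX hQ hQX b hb hB => ?_⟩
  obtain ⟨hl', hX1⟩ := hX0 X hX
  have hl : 1 ≤ Real.log X := (le_max_left _ _).trans hl'
  have hlC : C ≤ Real.log X := (le_max_right _ _).trans hl'
  have hXr : (1 : ℝ) ≤ X := by exact_mod_cast hX1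
  have hb0 : ∀ x ∈ Ch Q, 0 ≤ b x := fun x hx => (norm_nonneg _).trans (hb x hx 0)
  have hB0 : 0 ≤ B := (Finset.sum_nonneg hb0).trans hB
  have hQX' : Q ≤ X := (Nat.le_self_pow (by norm_num) Q).trans hQX
  have hQl : Real.log Q ≤ Real.log X :=
    Real.log_le_log (by exact_mod_cast (by omega : 0 < Q)) (by exact_mod_cast hQX')
  obtain ⟨R, hR⟩ : ∃ R : ℝ, R = Real.exp 10 * (2 * Real.log X) ^ 9 := ⟨_, rfl⟩
  obtain ⟨D, hD⟩ : ∃ D : ℝ, D = Real.exp 10 * ((1 + B0) * Real.log X) ^ 9 := ⟨_, rfl⟩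
  have hR0 : 0 ≤ R := by rw [hR]; positivity
  have hD0 : 0 ≤ D := by rw [hD]; positivity
  have hrho : ∀ x ∈ Ch Q, rho x ≤ R := by
    intro x hx
    refine (rho_le x).trans ((inv_DZ _).trans ?_)
    rw [hR]
    have h1 : md x ≤ X := (mem_Ch.1 hx).1.trans hQX'
    have h2 : Real.log (md x) ≤ Real.log X :=
      Real.log_le_log (by exact_mod_cast md_pos x) (by exact_mod_cast h1)
    have h3 : 0 ≤ Real.log (md x : ℝ) := Real.log_natCast_nonneg _
    gcongr
    linarith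
  have hDZ : (DZ (Q ^ B0))⁻¹ ≤ D := by
    refine (inv_DZ _).trans ?_
    rw [hD]
    have h2 : Real.log ((Q ^ B0 : ℕ) : ℝ) ≤ B0 * Real.log X := by
      push_cast
      rw [Real.log_pow]
      exact mul_le_mul_of_nonneg_left hQl (Nat.cast_nonneg _)
    have h3 : 0 ≤ Real.log ((Q ^ B0 : ℕ) : ℝ) := Real.log_natCast_nonneg _
    gcongr
    nlinarith
  have hpt : ∀ n ∈ range (4 * X), ‖LL X Q (Q ^ B0) n‖ ^ 2 ≤
      (R * D * B) ^ 2 * (if n = 0 then 0 else (n.divisors.card : ℝ) ^ 2) := by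
    intro n _
    rcases Nat.eq_zero_or_pos n with rfl | hn0
    · have h0 : LL X Q (Q ^ B0) 0 = 0 := by
        unfold LL
        refine Finset.sum_eq_zero fun x _ => ?_
        have : Mc X Q x 0 = 0 := by
          unfold Mc
          exact cn_eq_zero X Q hQ hQX _ 0 (Or.inl rfl)
        rw [this]
        ring
      rw [h0, norm_zero, if_pos rfl]
      norm_num
    · rw [if_neg hn0.ne', ← mul_pow]
      refine pow_le_pow_left₀ (norm_nonneg _) ?_ 2
      unfold LL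
      refine (norm_sum_le _ _).trans ?_
      have h1 : ∀ x ∈ Ch Q, ‖(rho x : ℂ) * (starRingEnd ℂ) (cv x n) * Mc X Q x n *
          (DD (Q ^ B0) (md x) n : ℂ)‖ ≤ R * D * (n.divisors.card : ℝ) * b x := by
        intro x hx
        rw [norm_mul, norm_mul, norm_mul, RCLike.norm_conj, Complex.norm_real, Complex.norm_real,
          Real.norm_of_nonneg (rho_nonneg x), Real.norm_eq_abs]
        have e1 := norm_cv_le x n
        have e2 := hb x hx n
        have e3 : |DD (Q ^ B0) (md x) n| ≤ (n.divisors.card : ℝ) * D :=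
          (DD_le _ _ n hn0.ne').trans (mul_le_mul_of_nonneg_left hDZ (Nat.cast_nonneg _))
        have e4 := hrho x hx
        calc rho x * ‖cv x n‖ * ‖Mc X Q x n‖ * |DD (Q ^ B0) (md x) n|
            ≤ R * 1 * b x * ((n.divisors.card : ℝ) * D) := by
              have := rho_nonneg x
              have := hb0 x hx
              gcongr
          _ = _ := by ring
      refine (Finset.sum_le_sum h1).trans ?_
      rw [← Finset.mul_sum]
      calc R * D * (n.divisors.card : ℝ) * ∑ x ∈ Ch Q, b x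
          ≤ R * D * (n.divisors.card : ℝ) * B := by gcongr
        _ = _ := by ring
  refine (Finset.sum_le_sum hpt).trans ?_
  rw [← Finset.mul_sum]
  have hsum : ∑ n ∈ range (4 * X), (if n = 0 then (0 : ℝ) else (n.divisors.card : ℝ) ^ 2) ≤
      4 * X * (4 * Real.log X) ^ 4 := by
    have h1 : ∑ n ∈ range (4 * X), (if n = 0 then (0 : ℝ) else (n.divisors.card : ℝ) ^ 2) ≤
        ∑ n ∈ Icc 1 (4 * X), (n.divisors.card : ℝ) ^ 2 := by
      have e : ∀ n : ℕ, (if n = 0 then (0 : ℝ) else (n.divisors.card : ℝ) ^ 2) =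
          if n ≠ 0 then (n.divisors.card : ℝ) ^ 2 else 0 := by
        intro n
        by_cases h : n = 0
        · rw [if_pos h, if_neg (not_not.2 h)]
        · rw [if_neg h, if_pos h]
      rw [Finset.sum_congr rfl fun n _ => e n, ← Finset.sum_filter]
      refine Finset.sum_le_sum_of_subset_of_nonneg ?_ fun n _ _ => by positivity
      intro n hn
      rw [Finset.mem_filter, Finset.mem_range] at hn
      rw [Finset.mem_Icc]
      omega
    refine h1.trans ((sum_tau_pow 2 (4 * X)).trans ?_)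
    push_cast
    have h4 := log_four
    have h5 : Real.log (4 * X) = Real.log 4 + Real.log X :=
      Real.log_mul (by norm_num) (by linarith)
    have h6 : 0 ≤ Real.log (4 * (X : ℝ)) := Real.log_nonneg (by linarith)
    gcongr
    linarith
  calc (R * D * B) ^ 2 * ∑ n ∈ range (4 * X), (if n = 0 then (0 : ℝ) else
        (n.divisors.card : ℝ) ^ 2)
      ≤ (R * D * B) ^ 2 * (4 * X * (4 * Real.log X) ^ 4) := by gcongr
    _ = C * (X * Real.log X ^ 40) := by
        rw [hR, hD, hC]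
        ring
    _ ≤ Real.log X * (X * Real.log X ^ 40) := by gcongr
    _ = X * Real.log X ^ 41 := by ring

end Pool.Agent.Lib.GMV
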