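import Pool.Agent.Lib.GMV.Model
import Pool.Agent.Lib.HLT.Fourier

/-!
# GMV.TeleSq: one slot with a small Fourier transform (paper 3)

PROOF. For fixed `h i`, `i ≠ j`, put `g n = ∏_{i≠j} f i (n + h i)` on `Icc 1 y`. Finite Fourier analysis modulo `N = 4X`
(`N^(-1) ∑_{ξ<N} ex(ξ k/N) = 1[N ∣ k]`), `n + h j ≤ 2X < N`:
`∑_{n} g n f_j (n + h) = N^(-1) ∑_ξ (∑_n g n ex(-n ξ/N)) F(ξ/N) ex(-h ξ/N)` with `F = ft (4X) (f j)`; so by Parseval in
`h mod N` (extend the sum over `h ∈ [1,X]` to all residues)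
`∑_{h=1}^X |∑_n g n f_j(n+h)|² ≤ N^(-1) ∑_ξ |ĝ|² |F|² ≤ A² ∑_n |g n|²`.
(Careful: extending `h` to all residues mod `N` changes `f_j(n+h)` to `f_j((n+h) mod N)`, harmless: define everything
through the Fourier side.) Then `∑_{h i, i≠j} ∑_{n ≤ y} ∏_{i≠j} ‖f i (n+h i)‖² ≤ y B^(k-1)` (`n + h i ≤ 2X < 4X`).
-/

set_option autoImplicit false

open Finset Filter

namespace Pool.Agent.Lib.GMV

open Pool.Agent.HLB Pool.Agent.HLT Pool.Agent.HLR

namespace TeleSqAux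

private lemma ex_eq_one_iff {N : ℕ} (hN : 0 < N) (k : ℤ) : ex (k / N) = 1 ↔ (N : ℤ) ∣ k := by
  unfold ex
  rw [Complex.exp_eq_one_iff]
  have hN' : (N : ℂ) ≠ 0 := by exact_mod_cast hN.ne'
  have hpi : (2 * (Real.pi : ℂ) * Complex.I) ≠ 0 := Complex.two_pi_I_ne_zero
  constructor
  · rintro ⟨m, hm⟩
    refine ⟨m, ?_⟩
    have h1 : ((k : ℂ) / N) * (2 * (Real.pi : ℂ) * Complex.I) = m * (2 * (Real.pi : ℂ) * Complex.I) := by
      rw [← hm]
      push_cast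
      ring
    have h2 := mul_right_cancel₀ hpi h1
    rw [div_eq_iff hN'] at h2
    have h3 : ((k : ℤ) : ℂ) = ((N * m : ℤ) : ℂ) := by
      rw [h2]
      push_cast
      ring
    exact_mod_cast h3
  · rintro ⟨m, rfl⟩
    refine ⟨m, ?_⟩
    push_cast
    field_simp

private lemma sum_ex {N : ℕ} (hN : 0 < N) (k : ℤ) :
    ∑ ξ ∈ range N, ex (k * (ξ / N)) = if (N : ℤ) ∣ k then (N : ℂ) else 0 := by
  have h1 : ∀ ξ : ℕ, ex (k * (ξ / N)) = ex (k / N) ^ ξ := by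
    intro ξ
    rw [← ex_nat_mul]
    congr 1
    ring
  simp_rw [h1]
  split_ifs with h
  · rw [(ex_eq_one_iff hN k).2 h]
    simp
  · have hne : ex (k / N) ≠ 1 := fun h' => h ((ex_eq_one_iff hN k).1 h')
    rw [geom_sum_eq hne]
    have h2 : ex (k / N) ^ N = 1 := by
      rw [← ex_nat_mul]
      have h3 : ((N : ℝ) * ((k : ℝ) / N)) = ((k : ℤ) : ℝ) := by
        have : (N : ℝ) ≠ 0 := by exact_mod_cast hN.ne'
        field_simp
      rw [h3]
      exact ex_int k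
    rw [h2, sub_self, zero_div]

private lemma conj_ex (a : ℝ) : (starRingEnd ℂ) (ex a) = ex (-a) := (ex_neg a).symm

/-- The expansion of a product of two exponential sums. -/
private lemma expand {N : ℕ} (hN : 0 < N) (S T : Finset ℕ) (h g : ℕ → ℂ) (t : ℕ)
    (hST : ∀ n ∈ S, ∀ m ∈ T, ((n : ℤ) + t - m).natAbs < N) :
    ∑ ξ ∈ range N, (∑ n ∈ S, h n * ex (n * (ξ / N))) *
        (starRingEnd ℂ) (∑ m ∈ T, g m * ex (m * (ξ / N))) * ex (t * (ξ / N)) =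
      (N : ℂ) * ∑ n ∈ S, ∑ m ∈ T, if m = n + t then h n * (starRingEnd ℂ) (g m) else 0 := by
  have h1 : ∀ ξ ∈ range N, (∑ n ∈ S, h n * ex (n * (ξ / N))) *
        (starRingEnd ℂ) (∑ m ∈ T, g m * ex (m * (ξ / N))) * ex (t * (ξ / N)) =
      ∑ n ∈ S, ∑ m ∈ T, (h n * (starRingEnd ℂ) (g m)) *
        ex ((((n : ℤ) + t - m : ℤ) : ℝ) * (ξ / N)) := by
    intro ξ _
    rw [map_sum, Finset.sum_mul_sum, Finset.sum_mul]
    refine Finset.sum_congr rfl fun n _ => ?_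
    rw [Finset.sum_mul]
    refine Finset.sum_congr rfl fun m _ => ?_
    rw [map_mul, conj_ex]
    have h2 : ex ((((n : ℤ) + t - m : ℤ) : ℝ) * (ξ / N)) =
        ex (n * (ξ / N)) * ex (-(m * (ξ / N))) * ex (t * (ξ / N)) := by
      rw [← ex_add, ← ex_add]
      congr 1
      push_cast
      ring
    rw [h2]
    ring
  rw [Finset.sum_congr rfl h1, Finset.sum_comm, Finset.mul_sum]
  refine Finset.sum_congr rfl fun n hn => ?_
  rw [Finset.sum_comm, Finset.mul_sum]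
  refine Finset.sum_congr rfl fun m hm => ?_
  rw [← Finset.mul_sum, sum_ex hN]
  have h3 : (N : ℤ) ∣ ((n : ℤ) + t - m) ↔ m = n + t := by
    constructor
    · intro hd
      have h4 := Int.eq_zero_of_dvd_of_natAbs_lt_natAbs hd (by
        simpa using hST n hn m hm)
      omega
    · rintro rfl
      simp
  by_cases hmn : m = n + t
  · rw [if_pos (h3.2 hmn), if_pos hmn]
    ring
  · rw [if_neg (fun h => hmn (h3.1 h)), if_neg hmn]
    ring

/-- Parseval on `range N`. -/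
private lemma pars {N : ℕ} (hN : 0 < N) (b : ℕ → ℂ) :
    ∑ t ∈ range N, ‖∑ ξ ∈ range N, b ξ * ex (ξ * (t / N))‖ ^ 2 =
      N * ∑ ξ ∈ range N, ‖b ξ‖ ^ 2 := by
  have h0 := parseval N N le_rfl hN (fun n => b (n - 1))
  have h1 : ∀ u : ℕ → ℂ, ∑ n ∈ Icc 1 N, u n = ∑ n ∈ range N, u (n + 1) := by
    intro u
    rw [Finset.sum_bij' (fun n _ => n - 1) (fun n _ => n + 1)]
    · intro n hn
      rw [Finset.mem_Icc] at hn
      rw [Finset.mem_range]
      omega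
    · intro n hn
      rw [Finset.mem_range] at hn
      rw [Finset.mem_Icc]
      omega
    · intro n hn
      rw [Finset.mem_Icc] at hn
      omega
    · intro n _
      omega
    · intro n hn
      rw [Finset.mem_Icc] at hn
      have : n - 1 + 1 = n := by omega
      rw [this]
  have h2 : ∀ u : ℕ → ℝ, ∑ n ∈ Icc 1 N, u n = ∑ n ∈ range N, u (n + 1) := by
    intro u
    have := h1 (fun n => (u n : ℂ))
    exact_mod_cast this
  rw [h2 (fun n => ‖b (n - 1)‖ ^ 2)] at h0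
  simp only [Nat.add_sub_cancel] at h0
  rw [← h0]
  refine Finset.sum_congr rfl fun t _ => ?_
  rw [h1 (fun n => b (n - 1) * ex (n * (t / N)))]
  simp only [Nat.add_sub_cancel]
  have h3 : ∑ n ∈ range N, b n * ex (((n + 1 : ℕ) : ℝ) * (t / N)) =
      ex (t / N) * ∑ n ∈ range N, b n * ex (n * (t / N)) := by
    rw [Finset.mul_sum]
    refine Finset.sum_congr rfl fun n _ => ?_
    have h4 : (((n + 1 : ℕ) : ℝ) * (t / N)) = t / N + n * (t / N) := by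
      push_cast
      ring
    rw [h4, ex_add]
    ring
  rw [h3, norm_mul, norm_ex, one_mul]

/-- The key lemma: one slot. -/
private lemma one_slot {X y : ℕ} (hX : 1 ≤ X) (hy : y ≤ X) (f g : ℕ → ℂ) {A : ℝ}
    (hA : ∀ t, ‖ft (4 * X) f t‖ ≤ A) :
    ∑ h ∈ Icc 1 X, ‖∑ n ∈ Icc 1 y, g n * f (n + h)‖ ^ 2 ≤ A ^ 2 * ∑ n ∈ Icc 1 y, ‖g n‖ ^ 2 := by
  set N := 4 * X with hNdef
  have hN : 0 < N := by omega
  have hN' : (N : ℂ) ≠ 0 := by exact_mod_cast hN.ne'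
  have hNr : (N : ℝ) ≠ 0 := by exact_mod_cast hN.ne'
  have hNp : (0 : ℝ) < N := by exact_mod_cast hN
  set G : ℕ → ℂ := fun ξ => ∑ n ∈ Icc 1 y, g n * ex (n * (ξ / N)) with hG
  set F : ℕ → ℂ := fun ξ => ∑ m ∈ range N, (starRingEnd ℂ) (f m) * ex (m * (ξ / N)) with hF
  set b : ℕ → ℂ := fun ξ => G ξ * (starRingEnd ℂ) (F ξ) with hb
  have hFA : ∀ ξ, ‖F ξ‖ ≤ A := by
    intro ξ
    have h1 : F ξ = (starRingEnd ℂ) (ft N f (-(ξ / N))) := by
      rw [hF]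
      unfold ft
      rw [map_sum]
      refine Finset.sum_congr rfl fun m _ => ?_
      rw [map_mul, conj_ex]
      congr 2
      ring
    rw [h1, RCLike.norm_conj]
    exact hA _
  have hA0 : 0 ≤ A := (norm_nonneg _).trans (hA 0)
  have h1 : ∀ t ∈ Icc 1 X, ∑ n ∈ Icc 1 y, g n * f (n + t) =
      (1 / (N : ℂ)) * ∑ ξ ∈ range N, b ξ * ex (ξ * (t / N)) := by
    intro t ht
    rw [Finset.mem_Icc] at ht
    have h2 := expand hN (Icc 1 y) (range N) g (fun m => (starRingEnd ℂ) (f m)) t (by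
      intro n hn m hm
      rw [Finset.mem_Icc] at hn
      rw [Finset.mem_range] at hm
      omega)
    have h3 : ∑ ξ ∈ range N, b ξ * ex (ξ * (t / N)) =
        ∑ ξ ∈ range N, (∑ n ∈ Icc 1 y, g n * ex (n * (ξ / N))) *
        (starRingEnd ℂ) (∑ m ∈ range N, (starRingEnd ℂ) (f m) * ex (m * (ξ / N))) *
          ex (t * (ξ / N)) := by
      refine Finset.sum_congr rfl fun ξ _ => ?_
      have h4 : ((ξ : ℝ) * (t / N)) = t * (ξ / N) := by ring
      rw [h4]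
    rw [h3, h2, ← mul_assoc, one_div, inv_mul_cancel₀ hN', one_mul]
    refine Finset.sum_congr rfl fun n hn => ?_
    rw [Finset.mem_Icc] at hn
    rw [Finset.sum_ite_eq' (range N) (n + t), if_pos (Finset.mem_range.2 (by omega)),
      Complex.conj_conj]
  have h5 : ∑ h ∈ Icc 1 X, ‖∑ n ∈ Icc 1 y, g n * f (n + h)‖ ^ 2 ≤
      ∑ t ∈ range N, ‖(1 / (N : ℂ)) * ∑ ξ ∈ range N, b ξ * ex (ξ * (t / N))‖ ^ 2 := by
    rw [Finset.sum_congr rfl (fun t ht => by rw [h1 t ht])]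
    refine Finset.sum_le_sum_of_subset_of_nonneg ?_ (fun _ _ _ => sq_nonneg _)
    intro t ht
    rw [Finset.mem_Icc] at ht
    rw [Finset.mem_range]
    omega
  have h6 : ∑ t ∈ range N, ‖(1 / (N : ℂ)) * ∑ ξ ∈ range N, b ξ * ex (ξ * (t / N))‖ ^ 2 =
      (1 / (N : ℝ)) * ∑ ξ ∈ range N, ‖b ξ‖ ^ 2 := by
    have h7 : ∀ t ∈ range N, ‖(1 / (N : ℂ)) * ∑ ξ ∈ range N, b ξ * ex (ξ * (t / N))‖ ^ 2 =
        (1 / (N : ℝ)) ^ 2 * ‖∑ ξ ∈ range N, b ξ * ex (ξ * (t / N))‖ ^ 2 := by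
      intro t _
      rw [norm_mul, mul_pow]
      congr 2
      rw [norm_div, norm_one, Complex.norm_natCast]
    rw [Finset.sum_congr rfl h7, ← Finset.mul_sum, pars hN]
    field_simp
  have h8 : ∑ ξ ∈ range N, ‖b ξ‖ ^ 2 ≤ ∑ ξ ∈ range N, A ^ 2 * ‖G ξ‖ ^ 2 := by
    refine Finset.sum_le_sum fun ξ _ => ?_
    rw [hb]
    simp only
    rw [norm_mul, RCLike.norm_conj, mul_pow, mul_comm]
    exact mul_le_mul_of_nonneg_right (pow_le_pow_left₀ (norm_nonneg _) (hFA ξ) 2) (sq_nonneg _)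
  have h9 : ∑ ξ ∈ range N, ‖G ξ‖ ^ 2 = N * ∑ n ∈ Icc 1 y, ‖g n‖ ^ 2 :=
    parseval N y (by omega) hN g
  calc ∑ h ∈ Icc 1 X, ‖∑ n ∈ Icc 1 y, g n * f (n + h)‖ ^ 2
      ≤ (1 / (N : ℝ)) * ∑ ξ ∈ range N, ‖b ξ‖ ^ 2 := h5.trans_eq h6
    _ ≤ (1 / (N : ℝ)) * ∑ ξ ∈ range N, A ^ 2 * ‖G ξ‖ ^ 2 :=
        mul_le_mul_of_nonneg_left h8 (by positivity)
    _ = A ^ 2 * ∑ n ∈ Icc 1 y, ‖g n‖ ^ 2 := by
        rw [← Finset.mul_sum, h9]
        field_simp

/-- Splitting off one coordinate of a tuple. -/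
private lemma sum_Tup {m : ℕ} (B : Finset ℕ) (j : Fin (m + 1)) (u : (Fin (m + 1) → ℕ) → ℝ) :
    ∑ h ∈ Tup (m + 1) B, u h = ∑ h' ∈ Tup m B, ∑ t ∈ B, u (j.insertNth t h') := by
  rw [← Finset.sum_product']
  symm
  refine Finset.sum_bij' (fun p _ => j.insertNth p.2 p.1)
    (fun h _ => (fun i => h (j.succAbove i), h j)) ?_ ?_ ?_ ?_ ?_
  · rintro ⟨h', t⟩ hp
    rw [Finset.mem_product] at hp
    rw [mem_Tup]
    intro i
    simp only
    rcases Fin.eq_self_or_eq_succAbove j i with rfl | ⟨i', rfl⟩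
    · rw [Fin.insertNth_apply_same]
      exact hp.2
    · rw [Fin.insertNth_apply_succAbove]
      exact mem_Tup.1 hp.1 i'
  · intro h hh
    rw [mem_Tup] at hh
    rw [Finset.mem_product]
    exact ⟨mem_Tup.2 fun i => hh _, hh _⟩
  · rintro ⟨h', t⟩ _
    simp only [Fin.insertNth_apply_succAbove, Fin.insertNth_apply_same]
  · intro h _
    simp only
    exact Fin.insertNth_self_removeNth j h
  · rintro ⟨h', t⟩ _
    rfl

end TeleSqAux

open TeleSqAux in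
theorem tele_sq (k X y : ℕ) (hX : 1 ≤ X) (hy : y ≤ X) (f : Fin k → ℕ → ℂ) (j : Fin k) (A B : ℝ)
    (hA : ∀ t, ‖ft (4 * X) (f j) t‖ ≤ A) (hB0 : 0 ≤ B)
    (hB : ∀ i, i ≠ j → ∑ m ∈ range (4 * X), ‖f i m‖ ^ 2 ≤ B) :
    ∑ h ∈ Tup k (Icc 1 X), ‖∑ n ∈ Icc 1 y, ∏ i, f i (n + h i)‖ ^ 2 ≤ A ^ 2 * y * B ^ (k - 1) := by
  obtain ⟨m, rfl⟩ : ∃ m, k = m + 1 := ⟨k - 1, by have := j.2; omega⟩
  rw [sum_Tup (Icc 1 X) j]
  have h1 : ∀ h' ∈ Tup m (Icc 1 X), ∑ t ∈ Icc 1 X,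
      ‖∑ n ∈ Icc 1 y, ∏ i, f i (n + (j.insertNth t h' : Fin (m + 1) → ℕ) i)‖ ^ 2 ≤
      A ^ 2 * ∑ n ∈ Icc 1 y, ∏ i : Fin m, ‖f (j.succAbove i) (n + h' i)‖ ^ 2 := by
    intro h' _
    have h2 := one_slot hX hy (f j) (fun n => ∏ i : Fin m, f (j.succAbove i) (n + h' i)) hA
    refine (le_of_eq ?_).trans (h2.trans_eq ?_)
    · refine Finset.sum_congr rfl fun t _ => ?_
      congr 2
      refine Finset.sum_congr rfl fun n _ => ?_
      rw [Fin.prod_univ_succAbove _ j, Fin.insertNth_apply_same, mul_comm]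
      congr 1
      refine Finset.prod_congr rfl fun i _ => ?_
      rw [Fin.insertNth_apply_succAbove]
    · congr 1
      refine Finset.sum_congr rfl fun n _ => ?_
      rw [norm_prod, Finset.prod_pow]
  refine (Finset.sum_le_sum h1).trans ?_
  rw [← Finset.mul_sum, Finset.sum_comm, mul_assoc]
  refine mul_le_mul_of_nonneg_left ?_ (sq_nonneg _)
  have h3 : ∀ n ∈ Icc 1 y, ∑ h' ∈ Tup m (Icc 1 X),
      ∏ i : Fin m, ‖f (j.succAbove i) (n + h' i)‖ ^ 2 ≤ B ^ m := by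
    intro n hn
    rw [Finset.mem_Icc] at hn
    unfold Tup
    rw [← Finset.prod_univ_sum (fun _ : Fin m => Icc 1 X)
      (fun i t => ‖f (j.succAbove i) (n + t)‖ ^ 2)]
    have h4 : ∀ i : Fin m, ∑ t ∈ Icc 1 X, ‖f (j.succAbove i) (n + t)‖ ^ 2 ≤ B := by
      intro i
      refine le_trans ?_ (hB (j.succAbove i) (Fin.succAbove_ne j i))
      have h5 : ∑ t ∈ Icc 1 X, ‖f (j.succAbove i) (n + t)‖ ^ 2 =
          ∑ s ∈ (Icc 1 X).map (addLeftEmbedding n), ‖f (j.succAbove i) s‖ ^ 2 := by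
        rw [Finset.sum_map]
        rfl
      rw [h5]
      refine Finset.sum_le_sum_of_subset_of_nonneg ?_ (fun _ _ _ => sq_nonneg _)
      intro s hs
      rw [Finset.mem_map] at hs
      obtain ⟨t, ht, rfl⟩ := hs
      rw [Finset.mem_Icc] at ht
      rw [Finset.mem_range, addLeftEmbedding_apply]
      omega
    refine (Finset.prod_le_prod (fun i _ => Finset.sum_nonneg fun _ _ => sq_nonneg _)
      (fun i _ => h4 i)).trans_eq ?_
    rw [Finset.prod_const, Finset.card_univ, Fintype.card_fin]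
  refine (Finset.sum_le_sum h3).trans_eq ?_
  rw [Finset.sum_const, Nat.card_Icc, Nat.add_sub_cancel, nsmul_eq_mul, Nat.add_sub_cancel]

end Pool.Agent.Lib.GMV
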