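import Pool.Agent.Lib.GMV.ProjW
import Pool.Agent.Lib.GMV.DiffL
import Pool.Agent.Lib.GMV.L2bd
import Pool.Agent.Lib.GMV.TeleSq

/-!
# GMV.Except: primes and model for almost all free shifts (paper 3)

PROOF. `A = 4 X Q^(-2/5)` bounds the transform of `W - LL` (`projW`, `diffL`). Telescoping:
`∏ W(n+h i) - ∏ LL(n+h i) = ∑_{j<k} ∏_{i<j} LL(n+h i) · (W - LL)(n+h j) · ∏_{i>j} W(n+h i)` (Mathlib
`Finset.prod_sub_ordered`-like, or induction), `tele_sq` for each `j` with `B = X (log X)^K`: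
`∑_h ‖..‖² ≤ 16 X² Q^(-4/5) X (X log^K X)^(k-1)`. Chebyshev with the threshold `X Q^(-1/20)/k` for each `j`:
at most `k³ 16 X^k Q^(-4/5 + 1/10) log^(K k) X ≤ X^k Q^(-1/2)` tuples for `X ≥ X0` (`log X ≤ 4 (log Q)²`).
-/

set_option autoImplicit false

open Finset Filter

namespace Pool.Agent.Lib.GMV

open Pool.Agent.HLB Pool.Agent.HLT Pool.Agent.HLR

namespace ExceptAux

/-- The telescoping terms. -/
private theorem tele {k : ℕ} (a b : Fin k → ℂ) :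
    ∏ i, a i - ∏ i, b i =
      ∑ j, ∏ i, (if i < j then b i else if i = j then a i - b i else a i) := by
  have h := Finset.prod_sub_ordered (Finset.univ : Finset (Fin k)) a (fun i => a i - b i)
  have e1 : ∏ i, (a i - (a i - b i)) = ∏ i, b i := Finset.prod_congr rfl fun i _ => by ring
  rw [e1] at h
  have e2 : ∀ j : Fin k, ∏ i, (if i < j then b i else if i = j then a i - b i else a i) =
      (a j - b j) * (∏ i with i < j, (a i - (a i - b i))) * ∏ i with j < i, a i := by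
    intro j
    have h1 : ∀ i : Fin k, (if i < j then b i else if i = j then a i - b i else a i) =
        (if i = j then a i - b i else 1) * (if i < j then (a i - (a i - b i)) else 1) *
          (if j < i then a i else 1) := by
      intro i
      rcases lt_trichotomy i j with h2 | h2 | h2
      · rw [if_pos h2, if_neg h2.ne, if_pos h2, if_neg (not_lt.mpr h2.le)]
        ring
      · subst h2
        rw [if_neg (lt_irrefl _), if_pos rfl, if_pos rfl, if_neg (lt_irrefl _),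
          if_neg (lt_irrefl _)]
        ring
      · rw [if_neg (not_lt.mpr h2.le), if_neg h2.ne', if_neg h2.ne', if_neg (not_lt.mpr h2.le),
          if_pos h2]
        ring
    rw [Finset.prod_congr rfl fun i _ => h1 i, Finset.prod_mul_distrib, Finset.prod_mul_distrib,
      Finset.prod_ite_eq' Finset.univ j, if_pos (Finset.mem_univ j), Finset.prod_filter,
      Finset.prod_filter]
  rw [Finset.sum_congr rfl fun j _ => e2 j, h]
  ring

/-- growth -/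
private theorem growth (k m : ℕ) : ∀ᶠ X : ℕ in atTop,
    16 * (k : ℝ) ^ 2 * (Real.log X) ^ m ≤ Real.exp (Real.sqrt (Real.log X) / 10) := by
  have h1 : Tendsto (fun X : ℕ => Real.sqrt (Real.log X)) atTop atTop :=
    Real.tendsto_sqrt_atTop.comp (Real.tendsto_log_atTop.comp tendsto_natCast_atTop_atTop)
  have h2 := (isLittleO_pow_exp_pos_mul_atTop (2 * m) (b := 1 / 10) (by norm_num)).bound
    (c := 1 / (16 * (k : ℝ) ^ 2 + 1)) (by positivity)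
  have h3 := h1.eventually h2
  filter_upwards [h3, eventually_ge_atTop 1] with X hX hX1
  have hlog : 0 ≤ Real.log X := Real.log_nonneg (by exact_mod_cast hX1)
  rw [Real.norm_of_nonneg (by positivity), Real.norm_of_nonneg (by positivity), pow_mul,
    Real.sq_sqrt hlog] at hX
  have h4 : (0 : ℝ) < 16 * (k : ℝ) ^ 2 + 1 := by positivity
  have h5 : (16 * (k : ℝ) ^ 2 + 1) * Real.log X ^ m ≤ Real.exp (1 / 10 * Real.sqrt (Real.log X)) := by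
    rw [one_div, ← div_eq_inv_mul, le_div_iff₀ h4] at hX
    linarith
  have h6 : Real.sqrt (Real.log X) / 10 = 1 / 10 * Real.sqrt (Real.log X) := by ring
  rw [h6]
  have h7 : 0 ≤ Real.log X ^ m := pow_nonneg hlog m
  linarith

/-- Chebyshev for a sum of `k` terms. -/
private theorem cheb {ι : Type} (s : Finset ι) (k : ℕ) (S : Fin k → ι → ℂ) (θ M : ℝ) (hθ : 0 < θ)
    (hM : ∀ j, ∑ h ∈ s, ‖S j h‖ ^ 2 ≤ M) (P : ι → Prop) [DecidablePred P]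
    (hP : ∀ h, P h → θ < ‖∑ j, S j h‖) :
    ((s.filter P).card : ℝ) * θ ^ 2 ≤ k ^ 2 * M := by
  have h1 : ∀ h, P h → θ ^ 2 ≤ k * ∑ j, ‖S j h‖ ^ 2 := by
    intro h hh
    have h2 : θ ≤ ∑ j, ‖S j h‖ := (hP h hh).le.trans (norm_sum_le _ _)
    have h3 := sq_sum_le_card_mul_sum_sq (s := (Finset.univ : Finset (Fin k)))
      (f := fun j => ‖S j h‖)
    rw [Finset.card_univ, Fintype.card_fin] at h3
    exact (pow_le_pow_left₀ hθ.le h2 2).trans h3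
  calc ((s.filter P).card : ℝ) * θ ^ 2 = ∑ h ∈ s.filter P, θ ^ 2 := by
        rw [Finset.sum_const, nsmul_eq_mul]
    _ ≤ ∑ h ∈ s.filter P, (k : ℝ) * ∑ j, ‖S j h‖ ^ 2 :=
        Finset.sum_le_sum fun h hh => h1 h (Finset.mem_filter.mp hh).2
    _ ≤ ∑ h ∈ s, (k : ℝ) * ∑ j, ‖S j h‖ ^ 2 :=
        Finset.sum_le_sum_of_subset_of_nonneg (Finset.filter_subset _ _)
          fun _ _ _ => by positivity
    _ = (k : ℝ) * ∑ j, ∑ h ∈ s, ‖S j h‖ ^ 2 := by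
        rw [← Finset.mul_sum, Finset.sum_comm]
    _ ≤ (k : ℝ) * ∑ j : Fin k, M :=
        mul_le_mul_of_nonneg_left (Finset.sum_le_sum fun j _ => hM j) (Nat.cast_nonneg k)
    _ = k ^ 2 * M := by
        rw [Finset.sum_const, Finset.card_univ, Fintype.card_fin, nsmul_eq_mul]
        ring

end ExceptAux

open ExceptAux

open scoped Classical in
theorem except (k B0 : ℕ) (hk : 1 ≤ k) (hB0 : 1 ≤ B0) (B : ℝ) : ∃ c : ℝ, 0 < c ∧ ∃ X0 : ℕ,
    ∀ X Q : ℕ, X0 ≤ X → Rg c X Q → ∀ b : CI → ℝ, (∀ x ∈ Ch Q, ∀ n, ‖Mc X Q x n‖ ≤ b x) →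
    ∑ x ∈ Ch Q, b x ≤ B → ∀ y : ℕ, y ≤ X →
    (((Tup k (Icc 1 X)).filter (fun h => X * (Q : ℝ) ^ (-(1 / 20 : ℝ)) <
      ‖∑ n ∈ Icc 1 y, ∏ i, (W X Q (n + h i) : ℂ) -
        ∑ n ∈ Icc 1 y, ∏ i, LL X Q (Q ^ B0) (n + h i)‖)).card : ℝ) ≤
      (X : ℝ) ^ k * (Q : ℝ) ^ (-(1 / 2 : ℝ)) := by
  obtain ⟨X1, hW⟩ := l2W
  obtain ⟨K, X2, hL⟩ := l2L B0 B
  obtain ⟨X3, hPW⟩ := projW
  obtain ⟨c4, hc4, X4, hD⟩ := diffL B0 hB0 B
  obtain ⟨K', hK', hK3⟩ : ∃ K' : ℕ, K ≤ K' ∧ 3 ≤ K' := ⟨max K 3, le_max_left _ _, le_max_right _ _⟩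
  have hev : ∀ᶠ X : ℕ in atTop, 16 * (k : ℝ) ^ 2 * (Real.log X) ^ (K' * (k - 1)) ≤
      Real.exp (Real.sqrt (Real.log X) / 10) ∧ 4 ≤ Real.log X ∧ X1 ≤ X ∧ X2 ≤ X ∧ X3 ≤ X ∧
        X4 ≤ X := by
    have h5 : Tendsto (fun X : ℕ => Real.log X) atTop atTop :=
      Real.tendsto_log_atTop.comp tendsto_natCast_atTop_atTop
    filter_upwards [growth k (K' * (k - 1)), h5.eventually_ge_atTop 4, eventually_ge_atTop X1,
      eventually_ge_atTop X2, eventually_ge_atTop X3, eventually_ge_atTop X4] with X a b c d e f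
    exact ⟨a, b, c, d, e, f⟩
  obtain ⟨X0, hX0⟩ := eventually_atTop.mp hev
  refine ⟨min (1 / 20) c4, lt_min (by norm_num) hc4, X0, ?_⟩
  intro X Q hX hR b hb hbB y hy
  obtain ⟨hg, hlog, hX1, hX2, hX3, hX4⟩ := hX0 X hX
  obtain ⟨hQ1, hQ2⟩ := hR
  have hXpos : (1 : ℝ) ≤ X := by
    by_contra hcon
    have h6 : (X : ℝ) < 1 := not_le.mp hcon
    have h7 : X = 0 := by
      have : X < 1 := by exact_mod_cast h6
      omega
    rw [h7, Nat.cast_zero, Real.log_zero] at hlog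
    linarith
  have hXn : 1 ≤ X := by exact_mod_cast hXpos
  have hR1 : Rg (1 / 20) X Q :=
    ⟨hQ1, hQ2.trans (Real.rpow_le_rpow_of_exponent_le hXpos (min_le_left _ _))⟩
  have hR4 : Rg c4 X Q :=
    ⟨hQ1, hQ2.trans (Real.rpow_le_rpow_of_exponent_le hXpos (min_le_right _ _))⟩
  have hsq : 2 ≤ Real.sqrt (Real.log X) := by
    rw [show (2 : ℝ) = Real.sqrt 4 by
      rw [show (4 : ℝ) = 2 ^ 2 by norm_num, Real.sqrt_sq (by norm_num)]]
    exact Real.sqrt_le_sqrt hlog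
  have hQ2r : (2 : ℝ) ≤ Q := by
    refine le_trans ?_ hQ1
    have h8 := Real.add_one_le_exp (Real.sqrt (Real.log X) / 2)
    linarith
  have hQ2n : 2 ≤ Q := by exact_mod_cast hQ2r
  have hQpos : (0 : ℝ) < Q := by linarith
  have hQ5 : Q ^ 5 ≤ X := by
    have h9 : ((Q : ℝ)) ^ 5 ≤ X := by
      calc (Q : ℝ) ^ 5 ≤ ((X : ℝ) ^ (1 / 20 : ℝ)) ^ 5 := pow_le_pow_left₀ hQpos.le hR1.2 5
        _ = (X : ℝ) ^ (1 / 4 : ℝ) := by
            rw [← Real.rpow_natCast, ← Real.rpow_mul (by linarith)]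
            norm_num
        _ ≤ (X : ℝ) ^ (1 : ℝ) := Real.rpow_le_rpow_of_exponent_le hXpos (by norm_num)
        _ = X := Real.rpow_one _
    exact_mod_cast h9
  obtain ⟨Bd, hBd⟩ : ∃ Bd : ℝ, Bd = X * Real.log X ^ K' := ⟨_, rfl⟩
  have hlog1 : 1 ≤ Real.log X := by linarith
  have hBd0 : 0 ≤ Bd := by
    rw [hBd]
    positivity
  have hWb : ∑ m ∈ range (4 * X), ‖(W X Q m : ℂ)‖ ^ 2 ≤ Bd := by
    have h10 := hW X Q hX1
    have h11 : ∑ m ∈ range (4 * X), ‖(W X Q m : ℂ)‖ ^ 2 = ∑ m ∈ range (4 * X), W X Q m ^ 2 := by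
      refine Finset.sum_congr rfl fun m _ => ?_
      rw [Complex.norm_real, Real.norm_eq_abs, sq_abs]
    rw [h11, hBd]
    refine h10.trans (mul_le_mul_of_nonneg_left ?_ (by linarith))
    exact pow_le_pow_right₀ hlog1 hK3
  have hLb : ∑ m ∈ range (4 * X), ‖LL X Q (Q ^ B0) m‖ ^ 2 ≤ Bd := by
    rw [hBd]
    refine (hL X Q hX2 hQ2n hQ5 b hb hbB).trans (mul_le_mul_of_nonneg_left ?_ (by linarith))
    exact pow_le_pow_right₀ hlog1 hK'
  obtain ⟨A, hA⟩ : ∃ A : ℝ, A = 4 * X * (Q : ℝ) ^ (-(2 / 5 : ℝ)) := ⟨_, rfl⟩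
  have hAb : ∀ t, ‖ft (4 * X) (fun m => (W X Q m : ℂ) - LL X Q (Q ^ B0) m) t‖ ≤ A := by
    intro t
    have e1 : ft (4 * X) (fun m => (W X Q m : ℂ) - LL X Q (Q ^ B0) m) t =
        ft (4 * X) (fun n => (W X Q n : ℂ) - LQ X Q n) t -
          ft (4 * X) (fun n => LL X Q (Q ^ B0) n - LQ X Q n) t := by
      unfold ft
      rw [← Finset.sum_sub_distrib]
      refine Finset.sum_congr rfl fun n _ => ?_
      ring
    rw [e1, hA]
    refine (norm_sub_le _ _).trans ?_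
    have h12 := hPW X Q hX3 hR1 t
    have h13 := hD X Q hX4 hR4 b hb hbB t
    linarith
  -- the terms
  obtain ⟨Ff, hFf⟩ : ∃ Ff : Fin k → Fin k → ℕ → ℂ, Ff = fun j i m =>
      if i < j then LL X Q (Q ^ B0) m
      else if i = j then (W X Q m : ℂ) - LL X Q (Q ^ B0) m else (W X Q m : ℂ) := ⟨_, rfl⟩
  have hMj : ∀ j : Fin k, ∑ h ∈ Tup k (Icc 1 X), ‖∑ n ∈ Icc 1 y, ∏ i, Ff j i (n + h i)‖ ^ 2 ≤
      A ^ 2 * X * Bd ^ (k - 1) := by
    intro j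
    have h14 := tele_sq k X y hXn hy (Ff j) j A Bd (by
      intro t
      have e2 : Ff j j = fun m => (W X Q m : ℂ) - LL X Q (Q ^ B0) m := by
        funext m
        rw [hFf]
        simp
      rw [e2]
      exact hAb t) hBd0 (by
      intro i hij
      rcases lt_or_gt_of_ne hij with h15 | h15
      · have e2 : Ff j i = fun m => LL X Q (Q ^ B0) m := by
          funext m
          rw [hFf]
          simp [h15]
        rw [e2]
        exact hLb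
      · have e2 : Ff j i = fun m => (W X Q m : ℂ) := by
          funext m
          rw [hFf]
          simp [not_lt.mpr h15.le, hij]
        rw [e2]
        exact hWb)
    refine h14.trans ?_
    have hyX : (y : ℝ) ≤ X := by exact_mod_cast hy
    refine mul_le_mul_of_nonneg_right (mul_le_mul_of_nonneg_left hyX (sq_nonneg _)) ?_
    exact pow_nonneg hBd0 _
  obtain ⟨θ, hθ⟩ : ∃ θ : ℝ, θ = X * (Q : ℝ) ^ (-(1 / 20 : ℝ)) := ⟨_, rfl⟩
  have hθ0 : 0 < θ := by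
    rw [hθ]
    have : (0 : ℝ) < (Q : ℝ) ^ (-(1 / 20 : ℝ)) := Real.rpow_pos_of_pos hQpos _
    positivity
  have hch := cheb (Tup k (Icc 1 X)) k
    (fun j h => ∑ n ∈ Icc 1 y, ∏ i, Ff j i (n + h i)) θ (A ^ 2 * X * Bd ^ (k - 1)) hθ0 hMj
    (fun h => X * (Q : ℝ) ^ (-(1 / 20 : ℝ)) <
      ‖∑ n ∈ Icc 1 y, ∏ i, (W X Q (n + h i) : ℂ) -
        ∑ n ∈ Icc 1 y, ∏ i, LL X Q (Q ^ B0) (n + h i)‖) (by
    intro h hh
    rw [hθ]
    have e3 : ∑ j, ∑ n ∈ Icc 1 y, ∏ i, Ff j i (n + h i) =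
        ∑ n ∈ Icc 1 y, ∏ i, (W X Q (n + h i) : ℂ) -
        ∑ n ∈ Icc 1 y, ∏ i, LL X Q (Q ^ B0) (n + h i) := by
      rw [Finset.sum_comm, ← Finset.sum_sub_distrib]
      refine Finset.sum_congr rfl fun n _ => ?_
      rw [tele (fun i => (W X Q (n + h i) : ℂ)) (fun i => LL X Q (Q ^ B0) (n + h i)), hFf]
    rw [e3]
    exact hh)
  -- final computation
  have hexp : Real.exp (Real.sqrt (Real.log X) / 10) ≤ (Q : ℝ) ^ (1 / 5 : ℝ) := by
    calc Real.exp (Real.sqrt (Real.log X) / 10) =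
        (Real.exp (Real.sqrt (Real.log X) / 2)) ^ (1 / 5 : ℝ) := by
          rw [← Real.exp_mul]
          congr 1
          ring
      _ ≤ (Q : ℝ) ^ (1 / 5 : ℝ) := Real.rpow_le_rpow (Real.exp_pos _).le hQ1 (by norm_num)
  have hg2 : 16 * (k : ℝ) ^ 2 * (Real.log X) ^ (K' * (k - 1)) ≤ (Q : ℝ) ^ (1 / 5 : ℝ) :=
    hg.trans hexp
  have hXk : (X : ℝ) * X ^ (k - 1) = X ^ k := by
    rw [← pow_succ']
    congr 1
    omega
  have e4 : (k : ℝ) ^ 2 * (A ^ 2 * X * Bd ^ (k - 1)) =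
      (16 * (k : ℝ) ^ 2 * (Real.log X) ^ (K' * (k - 1))) * (X ^ k * X ^ 2 *
        (Q : ℝ) ^ (-(4 / 5 : ℝ))) := by
    have h16 : ((Q : ℝ) ^ (-(2 / 5 : ℝ))) ^ 2 = (Q : ℝ) ^ (-(4 / 5 : ℝ)) := by
      rw [← Real.rpow_natCast, ← Real.rpow_mul hQpos.le]
      norm_num
    rw [hA, hBd, mul_pow, mul_pow, mul_pow, h16, ← pow_mul, ← hXk]
    ring
  have e5 : θ ^ 2 = X ^ 2 * (Q : ℝ) ^ (-(1 / 10 : ℝ)) := by
    rw [hθ, mul_pow, ← Real.rpow_natCast ((Q : ℝ) ^ (-(1 / 20 : ℝ))), ← Real.rpow_mul hQpos.le]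
    norm_num
  rw [e4, e5] at hch
  have h17 : (16 * (k : ℝ) ^ 2 * (Real.log X) ^ (K' * (k - 1))) * (X ^ k * X ^ 2 *
        (Q : ℝ) ^ (-(4 / 5 : ℝ))) ≤ (Q : ℝ) ^ (1 / 5 : ℝ) * (X ^ k * X ^ 2 *
        (Q : ℝ) ^ (-(4 / 5 : ℝ))) :=
    mul_le_mul_of_nonneg_right hg2 (by positivity)
  have e6 : (Q : ℝ) ^ (1 / 5 : ℝ) * (X ^ k * X ^ 2 * (Q : ℝ) ^ (-(4 / 5 : ℝ))) =
      (X ^ k * (Q : ℝ) ^ (-(1 / 2 : ℝ))) * (X ^ 2 * (Q : ℝ) ^ (-(1 / 10 : ℝ))) := by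
    have h18 : (Q : ℝ) ^ (1 / 5 : ℝ) * (Q : ℝ) ^ (-(4 / 5 : ℝ)) =
        (Q : ℝ) ^ (-(1 / 2 : ℝ)) * (Q : ℝ) ^ (-(1 / 10 : ℝ)) := by
      rw [← Real.rpow_add hQpos, ← Real.rpow_add hQpos]
      norm_num
    calc (Q : ℝ) ^ (1 / 5 : ℝ) * (X ^ k * X ^ 2 * (Q : ℝ) ^ (-(4 / 5 : ℝ))) =
        X ^ k * X ^ 2 * ((Q : ℝ) ^ (1 / 5 : ℝ) * (Q : ℝ) ^ (-(4 / 5 : ℝ))) := by ring
      _ = _ := by
        rw [h18]
        ring
  rw [e6] at h17
  have h19 := hch.trans h17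
  have h20 : (0 : ℝ) < X ^ 2 * (Q : ℝ) ^ (-(1 / 10 : ℝ)) := by
    have : (0 : ℝ) < (Q : ℝ) ^ (-(1 / 10 : ℝ)) := Real.rpow_pos_of_pos hQpos _
    positivity
  exact le_of_mul_le_mul_right h19 h20

end Pool.Agent.Lib.GMV
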