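import Pool.Agent.Lib.GMV.Model
import Pool.Agent.Lib.HLT.Brun
import Pool.Agent.Lib.HLR.SingQ
import Pool.Agent.Lib.P4a7640.Mertens

/-!
# GMV.SPS: the tail of the singular series (paper 4.5)

PROOF. `Y = Q^(8k)`. If `SI h = 0` then (`hasProd_SI`, all `locI > 0` for `p > k`, convergence to a positive tail) some `locI h p = 0` with `p ≤ k ≤ Y`, so
`SZ Y h = 0`. Otherwise `SI h = SZ Y h ∏_{p>Y} locI h p`, and for `p > Y ≥ 2k`: `nuI h p = k` unless `p ∣ Del h`, then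
`|locI h p - 1| ≤ C/p²`; at most `log₂ (Del h)/1 ≤ k² log₂ X` primes `p > Y` divide `Del h ≠ 0`, for them `|locI h p - 1| ≤ C/p ≤ C/Y`.
So `|SI h/SZ Y h - 1| ≤ C' (log X)/Y ≤ 1/(2Q)`. `sz_le`: every `locI h p ≤ ((1-1/p)⁻¹)^k`, `DZ Y ≥ c/log Y` (library) or the crude
`∏_{p≤Y}(1-1/p)⁻¹ ≤ C log Y`. (Compare `HLB.SI_le_SZ`, `HLB.sing_tail`.)
`si_ge`: `c0_le_SI` from HLB.SingTail.
-/

set_option autoImplicit false

open Finset Filter

namespace Pool.Agent.Lib.GMV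

open Pool.Agent.HLB Pool.Agent.HLT Pool.Agent.HLR

namespace SPSAux

open Pool.Agent.Lib.Sieve4 Pool.Agent.HL

lemma sum_sq_le (Y : ℕ) (hY : 1 ≤ Y) (T : Finset ℕ) (hT : ∀ p ∈ T, Y < p) :
    ∑ p ∈ T, 1 / (p : ℝ) ^ 2 ≤ 1 / (Y : ℝ) := by
  have hM : ∀ p ∈ T, p ≤ T.sup id := fun p hp => Finset.le_sup (f := id) hp
  set M := T.sup id with hMdef
  have h1 : ∑ p ∈ T, 1 / (p : ℝ) ^ 2 ≤ ∑ p ∈ Ioc Y (Y + M), 1 / (p : ℝ) ^ 2 := by
    refine sum_le_sum_of_subset_of_nonneg ?_ (fun _ _ _ => by positivity)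
    intro p hp
    rw [mem_Ioc]
    have := hM p hp
    exact ⟨hT p hp, by omega⟩
  have hY0 : (0 : ℝ) < Y := by exact_mod_cast hY
  have h2 : ∀ m : ℕ, ∑ p ∈ Ioc Y (Y + m), 1 / (p : ℝ) ^ 2 ≤ 1 / Y - 1 / ((Y : ℝ) + m) := by
    intro m
    induction m with
    | zero => simp
    | succ m ih =>
      rw [← add_assoc, Finset.sum_Ioc_succ_top (by omega)]
      have h3 : 1 / (((Y + m + 1 : ℕ)) : ℝ) ^ 2 ≤ 1 / ((Y : ℝ) + m) - 1 / ((Y : ℝ) + (m + 1 : ℕ)) := by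
        push_cast
        have ha : (0 : ℝ) < (Y : ℝ) + m := by positivity
        have e : 1 / ((Y : ℝ) + m) - 1 / ((Y : ℝ) + (m + 1)) =
            1 / (((Y : ℝ) + m) * ((Y : ℝ) + m + 1)) := by
          field_simp
          ring
        rw [e]
        apply one_div_le_one_div_of_le (by positivity)
        nlinarith
      linarith
  have h3 := h2 M
  have h4 : 0 ≤ 1 / ((Y : ℝ) + M) := by positivity
  linarith

lemma prod_one_sub (T : Finset ℕ) (a : ℕ → ℝ) (h0 : ∀ p ∈ T, 0 ≤ a p) (h1 : ∀ p ∈ T, a p ≤ 1) :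
    1 - ∑ p ∈ T, a p ≤ ∏ p ∈ T, (1 - a p) := by
  classical
  induction T using Finset.induction_on with
  | empty => simp
  | insert p T hp ih =>
    rw [sum_insert hp, prod_insert hp]
    have e1 := ih (fun q hq => h0 q (mem_insert_of_mem hq)) (fun q hq => h1 q (mem_insert_of_mem hq))
    have e2 := h0 p (mem_insert_self _ _)
    have e3 := h1 p (mem_insert_self _ _)
    have e4 : 0 ≤ ∑ q ∈ T, a q := sum_nonneg fun q hq => h0 q (mem_insert_of_mem hq)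
    have e5 := mul_le_mul_of_nonneg_left e1 (show 0 ≤ 1 - a p by linarith)
    nlinarith

lemma tail_lower {k : ℕ} (h : Fin k → ℕ) (hinj : Function.Injective h) (Y : ℕ) (hY : k ≤ Y)
    (hY1 : 1 ≤ Y) : SZ Y h * (1 - (k : ℝ) ^ 2 / Y) ≤ SI h := by
  classical
  set F : Finset Nat.Primes := (Nat.primesLE Y).attach.map
    ⟨fun p => ⟨p.1, (Nat.mem_primesLE.1 p.2).2⟩, by
      intro p q h; exact Subtype.ext (congrArg (fun t : Nat.Primes => (t : ℕ)) h)⟩ with hF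
  have hFprod : ∏ p ∈ F, locI h (p : ℕ) = ∏ p ∈ Nat.primesLE Y, locI h p := by
    rw [hF, Finset.prod_map]
    exact Finset.prod_attach (Nat.primesLE Y) (fun p => locI h p)
  have hFm : ∀ p : Nat.Primes, (p : ℕ) ≤ Y → p ∈ F := by
    intro p hp
    rw [hF, Finset.mem_map]
    exact ⟨⟨p, Nat.mem_primesLE.2 ⟨hp, p.2⟩⟩, mem_attach _ _, rfl⟩
  refine ge_of_tendsto (hasProd_SI h hinj) ?_
  rw [SummationFilter.unconditional_filter, Filter.eventually_atTop]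
  refine ⟨F, fun F' hF' => ?_⟩
  rw [← Finset.prod_sdiff hF', hFprod, mul_comm]
  refine mul_le_mul_of_nonneg_right ?_ (SZ_nonneg Y h)
  have hlt : ∀ p ∈ F' \ F, Y < (p : ℕ) := by
    intro p hp
    rw [Finset.mem_sdiff] at hp
    by_contra hcon
    exact hp.2 (hFm p (not_lt.mp hcon))
  set T : Finset ℕ := (F' \ F).map ⟨fun p : Nat.Primes => (p : ℕ), Nat.Primes.coe_nat_injective⟩
    with hT
  have hTprod : ∏ p ∈ F' \ F, locI h (p : ℕ) = ∏ p ∈ T, locI h p := by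
    rw [hT, Finset.prod_map]
    rfl
  have hTm : ∀ p ∈ T, p.Prime ∧ Y < p := by
    intro p hp
    rw [hT, Finset.mem_map] at hp
    obtain ⟨q, hq, rfl⟩ := hp
    exact ⟨q.2, hlt q hq⟩
  rw [hTprod]
  have hk1 : ∀ p ∈ T, (k : ℝ) ^ 2 / (p : ℝ) ^ 2 ≤ 1 := by
    intro p hp
    have h1 : (k : ℝ) ≤ p := by exact_mod_cast hY.trans (hTm p hp).2.le
    have h2 : (0 : ℝ) < p := by exact_mod_cast (hTm p hp).1.pos
    rw [div_le_one (by positivity)]
    exact pow_le_pow_left₀ (Nat.cast_nonneg _) h1 2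
  have h1 : ∏ p ∈ T, (1 - (k : ℝ) ^ 2 / (p : ℝ) ^ 2) ≤ ∏ p ∈ T, locI h p := by
    refine prod_le_prod (fun p hp => ?_) (fun p hp => ?_)
    · have := hk1 p hp
      linarith
    · have := loc_ge_of_gt (shift 0 1 h) p (hTm p hp).1 (lt_of_le_of_lt hY (hTm p hp).2)
      rwa [locI_fin] at this
  have h2 := prod_one_sub T (fun p => (k : ℝ) ^ 2 / (p : ℝ) ^ 2) (fun p _ => by positivity) hk1
  have h3 : ∑ p ∈ T, (k : ℝ) ^ 2 / (p : ℝ) ^ 2 ≤ (k : ℝ) ^ 2 / Y := by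
    have h4 := sum_sq_le Y hY1 T (fun p hp => (hTm p hp).2)
    have h5 : ∑ p ∈ T, (k : ℝ) ^ 2 / (p : ℝ) ^ 2 = (k : ℝ) ^ 2 * ∑ p ∈ T, 1 / (p : ℝ) ^ 2 := by
      rw [mul_sum]
      refine sum_congr rfl fun p _ => ?_
      ring
    rw [h5, div_eq_mul_one_div ((k : ℝ) ^ 2) (Y : ℝ)]
    exact mul_le_mul_of_nonneg_left h4 (by positivity)
  linarith

lemma nuI_shift {k : ℕ} (h : Fin k → ℕ) (t p : ℕ) : nuI (fun i => t + h i) p = nuI h p := by
  unfold nuI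
  have e : (univ.image (fun i => (((t + h i : ℕ) : ℕ) : ZMod p)))
      = (univ.image (fun i => ((h i : ℕ) : ZMod p))).image (fun z => (t : ZMod p) + z) := by
    rw [Finset.image_image]
    refine Finset.image_congr fun i _ => ?_
    simp
  rw [e]
  exact Finset.card_image_of_injective _ (add_right_injective _)

lemma Del_shift {k : ℕ} (h : Fin k → ℕ) (t : ℕ) : Del (fun i => t + h i) = Del h := by
  unfold Del
  refine prod_congr rfl fun i _ => prod_congr rfl fun j _ => ?_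
  congr 1
  push_cast
  ring

lemma DZ_inv (Y : ℕ) (hY : 2 ≤ Y) : (DZ Y)⁻¹ ≤ 2 * Real.exp 7 * Real.log Y := by
  have hl2 : (1 : ℝ) / 2 ≤ Real.log 2 := by linarith [Real.log_two_gt_d9]
  have hY' : (2 : ℝ) ≤ Y := by exact_mod_cast hY
  have hl : Real.log 2 ≤ Real.log Y := Real.log_le_log (by norm_num) hY'
  rcases Nat.lt_or_ge Y 3 with h3 | h3
  · have : Y = 2 := by omega
    subst this
    have e : (DZ 2)⁻¹ = 2 := by
      have : Nat.primesLE 2 = {2} := by decide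
      unfold DZ
      rw [this]
      norm_num
    rw [e]
    have : (2 : ℝ) ≤ Real.exp 7 := by
      have := Real.add_one_le_exp (7 : ℝ)
      linarith
    push_cast
    nlinarith
  · refine (DZ_inv_le_exp Y).trans ?_
    have h1 := Pool.Agent.Lib.P4a7640.sum_inv_primes_le Y h3
    have hlpos : 0 < Real.log Y := by linarith
    calc Real.exp (1 + ∑ p ∈ Nat.primesLE Y, 1 / (p : ℝ))
        ≤ Real.exp (7 + Real.log (Real.log Y)) := Real.exp_le_exp.mpr (by linarith)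
      _ = Real.exp 7 * Real.log Y := by rw [Real.exp_add, Real.exp_log hlpos]
      _ ≤ 2 * Real.exp 7 * Real.log Y := by
          have : 0 ≤ Real.exp 7 * Real.log Y := by positivity
          linarith

end SPSAux

open SPSAux in
theorem sps (k : ℕ) (hk : 1 ≤ k) : ∃ X0 : ℕ, ∀ X Q : ℕ, X0 ≤ X → Rg 1 X Q →
    ∀ h ∈ Tup k (range (X + 1)), Function.Injective h →
    |SZ (Q ^ (8 * k)) h - SI h| ≤ SI h / Q := by
  set K : ℝ := 64 * (k : ℝ) ^ 3 + 2 * (k : ℝ) ^ 2 + 4 with hK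
  have hk0 : (1 : ℝ) ≤ k := by exact_mod_cast hk
  have hK4 : 4 ≤ K := by rw [hK]; nlinarith [pow_nonneg (by linarith : (0:ℝ) ≤ k) 3, sq_nonneg (k:ℝ)]
  refine ⟨⌈Real.exp ((2 * K) ^ 2)⌉₊, ?_⟩
  intro X Q hX hRg h hh hinj
  have hXe : Real.exp ((2 * K) ^ 2) ≤ (X : ℝ) := Nat.ceil_le.mp hX
  have hX0 : (0 : ℝ) < X := lt_of_lt_of_le (Real.exp_pos _) hXe
  set L : ℝ := Real.log X with hL
  have hLK : (2 * K) ^ 2 ≤ L := by rw [hL, Real.le_log_iff_exp_le hX0]; exact hXe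
  have hL0 : 0 < L := lt_of_lt_of_le (by positivity) hLK
  have hX2 : (2 : ℝ) ≤ X := by
    have h1 := Real.add_one_le_exp ((2 * K) ^ 2)
    nlinarith
  have hsK : 2 * K ≤ Real.sqrt L := Real.le_sqrt_of_sq_le hLK
  obtain ⟨hR1, -⟩ := hRg
  have hQe := Real.add_one_le_exp (Real.sqrt L / 2)
  have hQK : K ≤ Q := by linarith
  have hQ0 : (0 : ℝ) < Q := by linarith
  have hQ1 : 1 ≤ Q := by exact_mod_cast (by linarith : (1 : ℝ) ≤ Q)
  have hQ1' : (1 : ℝ) ≤ Q := by exact_mod_cast hQ1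
  have hlQ : Real.sqrt L / 2 ≤ Real.log Q := by
    rw [Real.le_log_iff_exp_le hQ0]; exact hR1
  have hlQ2 : Real.log Q ≤ Q := (Real.log_le_sub_one_of_pos hQ0).trans (by linarith)
  have hLQ : L ≤ 4 * (Q : ℝ) ^ 2 := by
    have h1 : Real.sqrt L ≤ 2 * Q := by linarith
    calc L = Real.sqrt L ^ 2 := (Real.sq_sqrt hL0.le).symm
      _ ≤ (2 * Q) ^ 2 := pow_le_pow_left₀ (Real.sqrt_nonneg _) h1 2
      _ = 4 * (Q : ℝ) ^ 2 := by ring
  set Y : ℕ := Q ^ (8 * k) with hYdef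
  have hYQ : (Q : ℝ) ^ 8 ≤ Y := by
    rw [hYdef]
    push_cast
    exact pow_le_pow_right₀ hQ1' (by omega)
  have hQ8 : K * (Q : ℝ) ^ 7 ≤ (Q : ℝ) ^ 8 := by
    rw [pow_succ' (Q : ℝ) 7]
    exact mul_le_mul_of_nonneg_right hQK (by positivity)
  have hQ7 : (1 : ℝ) ≤ (Q : ℝ) ^ 7 := one_le_pow₀ hQ1'
  have hYK : K ≤ Y := by nlinarith
  have hY0 : (0 : ℝ) < Y := by linarith
  have hYk : k ≤ Y := by
    have : (k : ℝ) ≤ Y := by nlinarith [pow_nonneg (by linarith : (0:ℝ) ≤ k) 3]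
    exact_mod_cast this
  have hY2 : 2 ≤ Y := by exact_mod_cast (by linarith : (2 : ℝ) ≤ Y)
  have hS0 : 0 ≤ SI h := SI_nonneg h hinj
  have hZ0 : 0 ≤ SZ Y h := SZ_nonneg Y h
  have hhX : ∀ i, h i ≤ X := by
    intro i
    have := (Fintype.mem_piFinset.mp hh) i
    rw [mem_range] at this
    omega
  -- upper bound
  have hup := SI_le_SZ h (by rw [Fintype.card_fin]; exact hk) hinj X Y hY2 hhX
  rw [Fintype.card_fin] at hup
  set ε : ℝ := 2 * (k : ℝ) ^ 3 * Real.log ((X + 1 : ℕ) : ℝ) / (Y * Real.log Y) with hε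
  have hlX1 : Real.log ((X + 1 : ℕ) : ℝ) ≤ 2 * L := by
    have h2 : ((X + 1 : ℕ) : ℝ) ≤ (X : ℝ) ^ 2 := by push_cast; nlinarith
    calc Real.log ((X + 1 : ℕ) : ℝ) ≤ Real.log ((X : ℝ) ^ 2) := Real.log_le_log (by positivity) h2
      _ = 2 * L := by rw [Real.log_pow]; norm_num; rfl
  have hlY : (1 : ℝ) / 2 ≤ Real.log Y := by
    have : Real.log 2 ≤ Real.log Y := Real.log_le_log (by norm_num) (by exact_mod_cast hY2)
    linarith [Real.log_two_gt_d9]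
  have hεQ : ε ≤ 1 / Q := by
    rw [hε, div_le_div_iff₀ (by positivity) hQ0]
    have h1 : 2 * (k : ℝ) ^ 3 * Real.log ((X + 1 : ℕ) : ℝ) * Q ≤ 16 * (k : ℝ) ^ 3 * (Q : ℝ) ^ 3 := by
      have h2 : Real.log ((X + 1 : ℕ) : ℝ) ≤ 8 * (Q : ℝ) ^ 2 := by linarith
      have h3 := mul_le_mul_of_nonneg_left h2 (show (0 : ℝ) ≤ 2 * (k : ℝ) ^ 3 * Q by positivity)
      nlinarith
    have h4 : 16 * (k : ℝ) ^ 3 * (Q : ℝ) ^ 3 ≤ Y * (1 / 2) := by
      have h5 : (Q : ℝ) ^ 3 ≤ (Q : ℝ) ^ 7 := pow_le_pow_right₀ hQ1' (by norm_num)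
      have h6 : 64 * (k : ℝ) ^ 3 ≤ K := by rw [hK]; nlinarith [sq_nonneg (k : ℝ)]
      have h7 : 64 * (k : ℝ) ^ 3 * (Q : ℝ) ^ 3 ≤ K * (Q : ℝ) ^ 7 :=
        mul_le_mul h6 h5 (by positivity) (by linarith)
      linarith
    have h8 : (Y : ℝ) * (1 / 2) ≤ Y * Real.log Y := mul_le_mul_of_nonneg_left hlY hY0.le
    linarith
  have hlow := tail_lower h hinj Y hYk (by omega)
  have hδ : (k : ℝ) ^ 2 / Y ≤ 1 / (2 * Q) := by
    rw [div_le_div_iff₀ hY0 (by positivity)]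
    have h1 : 2 * (k : ℝ) ^ 2 ≤ K := by
      rw [hK]; nlinarith [pow_nonneg (by linarith : (0:ℝ) ≤ k) 3]
    have h2 : (Q : ℝ) ≤ (Q : ℝ) ^ 7 := by
      calc (Q : ℝ) = (Q : ℝ) ^ 1 := (pow_one _).symm
        _ ≤ (Q : ℝ) ^ 7 := pow_le_pow_right₀ hQ1' (by norm_num)
    have h3 : 2 * (k : ℝ) ^ 2 * (Q : ℝ) ≤ K * (Q : ℝ) ^ 7 :=
      mul_le_mul h1 h2 hQ0.le (by linarith)
    linarith
  have hQi : (1 : ℝ) / Q ≤ 1 / 4 := by
    apply one_div_le_one_div_of_le (by norm_num); linarith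
  have hQi0 : 0 < (1 : ℝ) / Q := by positivity
  have e1 : (1 : ℝ) / (2 * Q) = (1 / Q) / 2 := by field_simp
  rw [e1] at hδ
  have e2 : SI h / Q = SI h * (1 / Q) := by ring
  rw [e2, abs_le]
  set q : ℝ := 1 / Q with hq
  constructor
  · -- SI - SZ ≤ SI q
    have h1 : SI h * Real.exp (-ε) ≤ SZ Y h := by
      have h2 := mul_le_mul_of_nonneg_right hup (Real.exp_pos (-ε)).le
      rw [mul_assoc, ← Real.exp_add, add_neg_cancel, Real.exp_zero, mul_one] at h2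
      exact h2
    have h3 : 1 - ε ≤ Real.exp (-ε) := by
      have := Real.add_one_le_exp (-ε)
      linarith
    have h4 : SI h * (1 - q) ≤ SI h * Real.exp (-ε) :=
      mul_le_mul_of_nonneg_left (by linarith) hS0
    linarith
  · have h1 : SZ Y h * (1 - q / 2) ≤ SI h := by
      refine le_trans ?_ hlow
      exact mul_le_mul_of_nonneg_left (by linarith) hZ0
    have h2 : SZ Y h * ((1 - q / 2) * (1 + q)) ≤ SI h * (1 + q) := by
      rw [← mul_assoc]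
      exact mul_le_mul_of_nonneg_right h1 (by linarith)
    have h3 : 1 ≤ (1 - q / 2) * (1 + q) := by nlinarith
    have h4 : SZ Y h * 1 ≤ SZ Y h * ((1 - q / 2) * (1 + q)) := mul_le_mul_of_nonneg_left h3 hZ0
    linarith

open SPSAux in
theorem sz_le (k : ℕ) : ∃ C : ℝ, 0 < C ∧ ∀ (Y : ℕ) (h : Fin k → ℕ), 2 ≤ Y →
    SZ Y h ≤ C * Real.log Y ^ k := by
  refine ⟨(2 * Real.exp 7) ^ k, by positivity, ?_⟩
  intro Y h hY
  refine (SZ_le_DZ Y h).trans ?_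
  rw [← mul_pow]
  exact pow_le_pow_left₀ (inv_nonneg.mpr (DZ_pos Y).le) (DZ_inv Y hY) k

theorem si_ge (k : ℕ) (hk : 1 ≤ k) : ∃ c : ℝ, 0 < c ∧ ∀ h : Fin k → ℕ, Function.Injective h →
    (∀ p : ℕ, p.Prime → nuI h p < p) → c ≤ SI h := by
  refine ⟨Pool.Agent.Lib.Sieve4.c0 k, Pool.Agent.Lib.Sieve4.c0_pos k hk, ?_⟩
  intro h hinj hadm
  have h1 := c0_le_SI h hinj (by rw [Fintype.card_fin]; exact hk) hadm
  rwa [Fintype.card_fin] at h1

open SPSAux in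
/-- Invariance under a common shift. -/
theorem SI_shift {k : ℕ} (h : Fin k → ℕ) (t : ℕ) : SI (fun i => t + h i) = SI h := by
  unfold SI
  congr 1
  funext p
  unfold locI
  rw [nuI_shift]

open SPSAux in
theorem Gq_shift {k : ℕ} (q : ℕ) (h : Fin k → ℕ) (t : ℕ) : Gq q (fun i => t + h i) = Gq q h := by
  unfold Gq
  rw [Del_shift]

theorem Gq_le_one {k : ℕ} (q : ℕ) (h : Fin k → ℕ) : 0 ≤ Gq q h ∧ Gq q h ≤ 1 := by
  unfold Gq
  split_ifs with hq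
  · norm_num
  · constructor
    · positivity
    · have hq0 : 0 < q := Nat.pos_of_ne_zero hq
      have hg : 0 < Nat.gcd q (Del h) := Nat.gcd_pos_of_pos_left _ hq0
      have hg' : (0 : ℝ) < (Nat.gcd q (Del h) : ℝ) := by exact_mod_cast hg
      have h1 : (Nat.gcd q (Del h) : ℝ) ≤ q := by exact_mod_cast Nat.gcd_le_left _ hq0
      have h2 : (1 : ℝ) ≤ (q : ℝ) / (Nat.gcd q (Del h) : ℝ) := by
        rw [le_div_iff₀ hg']; linarith
      exact Real.rpow_le_one_of_one_le_of_nonpos h2 (by norm_num)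

end Pool.Agent.Lib.GMV
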