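import Pool.Agent.Lib.GMV.MainT
import Pool.Agent.Lib.GMV.Except
import Pool.Agent.Lib.GMV.ExcB
import Pool.Agent.Lib.GMV.SPS

/-!
# GMV.FreeY: almost all free tuples, one `y` (paper 4.5)

`Main M q Q`: the set `M` of the characters kept is `{one}` (then `q = 0`) or `{one, xe}` with `xe` real (then `q = md xe`).

PROOF. For `h` outside the set of `except` (with `B0 = 8k`): `∑ ∏ W = ∑ ∏ LL + O(X Q^(-1/20))`, `mainT` with `M`. The term `x = (one, ..., one)`:
`TP = SZ Y h` (`TP_one`) times `∑_{n ≤ y} ∏ Mc one (n+h i)`; for the `n` with `3X ≤ (n+h i) Q` and `(n + h i) Q + X ≤ 2XQ` for all `i`, the product is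
`1 + O(k β^(k-1) E)` (`‖Mc one‖ ≤ b one ≤ β = max 1 B`); the other `n` are at most `k (3X/Q + X/Q + 2)` and cost `1 + β^k` each. The other `x ∈ M^k`
contain `xe`: `excB`: `≤ C SZ Y h Gq q h · X β^k`, `2^k` of them. `SZ Y h = SI h (1 + O(1/Q))` (`sps`), `SI h ≤ C log^k X`-type bound
(`sz_le`) for the term `SZ Y h X/Q ≤ X Q^(-1/2)`.
-/

set_option autoImplicit false

open Finset Filter

namespace Pool.Agent.Lib.GMV

open Pool.Agent.HLB Pool.Agent.HLT Pool.Agent.HLR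

namespace FreeYAux

/-- A product of numbers near one. -/
lemma prod_near {ι : Type} (s : Finset ι) (z : ι → ℂ) {β E : ℝ} (hβ : 1 ≤ β) (hE : 0 ≤ E)
    (h1 : ∀ i ∈ s, ‖z i‖ ≤ β) (h2 : ∀ i ∈ s, ‖z i - 1‖ ≤ E) :
    ‖∏ i ∈ s, z i - 1‖ ≤ s.card * β ^ s.card * E := by
  classical
  induction s using Finset.induction_on with
  | empty => simp
  | insert a s ha ih =>
    have ih' := ih (fun i hi => h1 i (Finset.mem_insert_of_mem hi))
      (fun i hi => h2 i (Finset.mem_insert_of_mem hi))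
    rw [Finset.prod_insert ha, Finset.card_insert_of_notMem ha]
    have e : z a * ∏ i ∈ s, z i - 1 = z a * (∏ i ∈ s, z i - 1) + (z a - 1) := by ring
    rw [e]
    refine (norm_add_le _ _).trans ?_
    rw [norm_mul]
    have h3 := h1 a (Finset.mem_insert_self _ _)
    have h4 := h2 a (Finset.mem_insert_self _ _)
    have h5 : ‖z a‖ * ‖∏ i ∈ s, z i - 1‖ ≤ β * (s.card * β ^ s.card * E) :=
      mul_le_mul h3 ih' (norm_nonneg _) (by linarith)
    have h6 : E ≤ β ^ (s.card + 1) * E :=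
      le_mul_of_one_le_left hE (one_le_pow₀ hβ)
    have e2 : ((s.card + 1 : ℕ) : ℝ) * β ^ (s.card + 1) * E =
        β * (s.card * β ^ s.card * E) + β ^ (s.card + 1) * E := by
      push_cast
      ring
    rw [e2]
    linarith

/-- A product of bounded numbers. -/
lemma prod_bdd {ι : Type} (s : Finset ι) (z : ι → ℂ) {β : ℝ}
    (h1 : ∀ i ∈ s, ‖z i‖ ≤ β) : ‖∏ i ∈ s, z i‖ ≤ β ^ s.card := by
  rw [norm_prod, ← Finset.prod_const]
  exact Finset.prod_le_prod (fun _ _ => norm_nonneg _) h1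

/-- The number of the bad `n`. -/
lemma card_bad {X Q y : ℕ} (hQ : 1 ≤ Q) (hQX : Q ≤ X) (hy : y ≤ X) :
    (((Icc 1 y).filter (fun n => n * Q < 3 * X ∨ X * Q < n * Q + X)).card : ℝ) ≤
      5 * (X : ℝ) / Q := by
  have hQr : (0 : ℝ) < Q := by exact_mod_cast hQ
  have h1 : (Icc 1 y).filter (fun n => n * Q < 3 * X ∨ X * Q < n * Q + X) ⊆
      Icc 1 (3 * X / Q) ∪ Icc (X - X / Q) X := by
    intro n hn
    rw [Finset.mem_filter, Finset.mem_Icc] at hn
    obtain ⟨⟨h1, h2⟩, h3⟩ := hn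
    rw [Finset.mem_union, Finset.mem_Icc, Finset.mem_Icc]
    rcases h3 with h3 | h3
    · left
      exact ⟨h1, (Nat.le_div_iff_mul_le hQ).2 h3.le⟩
    · right
      refine ⟨?_, by omega⟩
      have h4 : (X - n) * Q ≤ X := by
        rw [Nat.sub_mul]
        omega
      have h5 : X - n ≤ X / Q := (Nat.le_div_iff_mul_le hQ).2 h4
      omega
  have h2 := (Finset.card_le_card h1).trans (Finset.card_union_le _ _)
  rw [Nat.card_Icc, Nat.card_Icc] at h2
  have h3 : ((Icc 1 y).filter (fun n => n * Q < 3 * X ∨ X * Q < n * Q + X)).card ≤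
      3 * X / Q + X / Q + 1 := by
    have h0 : X / Q ≤ X := Nat.div_le_self _ _
    revert h0 h2
    generalize X / Q = A
    generalize 3 * X / Q = A'
    intro h0 h2
    omega
  have h4 : ((3 * X / Q : ℕ) : ℝ) ≤ 3 * (X : ℝ) / Q := by
    have := @Nat.cast_div_le ℝ _ _ _ (3 * X) Q
    simpa using this
  have h5 : ((X / Q : ℕ) : ℝ) ≤ (X : ℝ) / Q := Nat.cast_div_le
  have h6 : (1 : ℝ) ≤ (X : ℝ) / Q := by
    rw [one_le_div hQr]
    exact_mod_cast hQX
  have h7 : (((Icc 1 y).filter (fun n => n * Q < 3 * X ∨ X * Q < n * Q + X)).card : ℝ) ≤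
      ((3 * X / Q : ℕ) : ℝ) + ((X / Q : ℕ) : ℝ) + 1 := by exact_mod_cast h3
  have h8 : 5 * (X : ℝ) / Q = 3 * (X : ℝ) / Q + (X : ℝ) / Q + (X : ℝ) / Q := by ring
  rw [h8]
  linarith

/-- Growth in `Q`. -/
lemma growthQ (D : ℝ) (k : ℕ) : ∀ᶠ q : ℝ in atTop,
    q ^ (-(1 / 20 : ℝ)) + 1 / q + D * Real.log q ^ k / q ≤ q ^ (-(1 / 25 : ℝ)) := by
  have h1 : ∀ᶠ q : ℝ in atTop, (3 : ℝ) ≤ q ^ (1 / 100 : ℝ) :=
    (tendsto_rpow_atTop (by norm_num)).eventually_ge_atTop 3
  have h2 : ∀ᶠ q : ℝ in atTop, (3 : ℝ) ≤ q ^ (24 / 25 : ℝ) :=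
    (tendsto_rpow_atTop (by norm_num)).eventually_ge_atTop 3
  have h3 : ∀ᶠ q : ℝ in atTop, 3 * |D| ≤ q ^ (23 / 50 : ℝ) :=
    (tendsto_rpow_atTop (by norm_num)).eventually_ge_atTop (3 * |D|)
  have h4 := (isLittleO_log_rpow_rpow_atTop (k : ℝ) (show (0 : ℝ) < 1 / 2 by norm_num)).bound
    (c := 1) one_pos
  filter_upwards [h1, h2, h3, h4, eventually_ge_atTop 1] with q g1 g2 g3 g4 hq
  have hq0 : 0 < q := by linarith
  have hlog : 0 ≤ Real.log q := Real.log_nonneg hq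
  have e0 : 0 < q ^ (-(1 / 25 : ℝ)) := Real.rpow_pos_of_pos hq0 _
  have a1 : q ^ (-(1 / 20 : ℝ)) * 3 ≤ q ^ (-(1 / 25 : ℝ)) := by
    have e : q ^ (-(1 / 25 : ℝ)) = q ^ (-(1 / 20 : ℝ)) * q ^ (1 / 100 : ℝ) := by
      rw [← Real.rpow_add hq0]
      norm_num
    rw [e]
    exact mul_le_mul_of_nonneg_left g1 (Real.rpow_nonneg hq0.le _)
  have a2 : 1 / q * 3 ≤ q ^ (-(1 / 25 : ℝ)) := by
    have e : q ^ (-(1 / 25 : ℝ)) = 1 / q * q ^ (24 / 25 : ℝ) := by
      have e' : 1 / q = q ^ (-1 : ℝ) := by rw [Real.rpow_neg_one, one_div]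
      rw [e', ← Real.rpow_add hq0]
      norm_num
    rw [e]
    exact mul_le_mul_of_nonneg_left g2 (by positivity)
  have a3 : D * Real.log q ^ k / q * 3 ≤ q ^ (-(1 / 25 : ℝ)) := by
    rw [Real.rpow_natCast, Real.norm_of_nonneg (pow_nonneg hlog k),
      Real.norm_of_nonneg (Real.rpow_nonneg hq0.le _), one_mul] at g4
    have b1 : D * Real.log q ^ k ≤ |D| * q ^ (1 / 2 : ℝ) :=
      (mul_le_mul_of_nonneg_right (le_abs_self D) (pow_nonneg hlog k)).trans
        (mul_le_mul_of_nonneg_left g4 (abs_nonneg D))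
    have b2 : D * Real.log q ^ k / q ≤ |D| * q ^ (1 / 2 : ℝ) / q :=
      div_le_div_of_nonneg_right b1 hq0.le
    have e : q ^ (-(1 / 25 : ℝ)) = q ^ (1 / 2 : ℝ) / q * q ^ (23 / 50 : ℝ) := by
      have e' : q ^ (1 / 2 : ℝ) / q = q ^ (1 / 2 - 1 : ℝ) := by
        rw [Real.rpow_sub hq0, Real.rpow_one]
      rw [e', ← Real.rpow_add hq0]
      norm_num
    rw [e]
    have b3 : q ^ (1 / 2 : ℝ) / q * (3 * |D|) ≤ q ^ (1 / 2 : ℝ) / q * q ^ (23 / 50 : ℝ) :=
      mul_le_mul_of_nonneg_left g3 (by positivity)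
    calc D * Real.log q ^ k / q * 3 ≤ |D| * q ^ (1 / 2 : ℝ) / q * 3 :=
          mul_le_mul_of_nonneg_right b2 (by norm_num)
      _ = q ^ (1 / 2 : ℝ) / q * (3 * |D|) := by ring
      _ ≤ _ := b3
  linarith

/-- `Q` is large. -/
lemma largeQ (P : ℝ → Prop) (hP : ∀ᶠ q : ℝ in atTop, P q) : ∃ X0 : ℕ, ∀ X Q : ℕ, X0 ≤ X →
    Real.exp (Real.sqrt (Real.log X) / 2) ≤ Q → P Q := by
  obtain ⟨q0, hq0⟩ := eventually_atTop.1 hP
  have h1 : Tendsto (fun X : ℕ => Real.exp (Real.sqrt (Real.log X) / 2)) atTop atTop := by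
    refine Real.tendsto_exp_atTop.comp (Tendsto.atTop_div_const (by norm_num) ?_)
    exact Real.tendsto_sqrt_atTop.comp (Real.tendsto_log_atTop.comp tendsto_natCast_atTop_atTop)
  obtain ⟨X0, hX0⟩ := eventually_atTop.1 (h1.eventually_ge_atTop q0)
  exact ⟨X0, fun X Q hX hQ => hq0 _ ((hX0 X hX).trans hQ)⟩

lemma Rg_mono {c c' : ℝ} (h : c ≤ c') {X Q : ℕ} (hX : 1 ≤ X) (hR : Rg c X Q) : Rg c' X Q :=
  ⟨hR.1, hR.2.trans (Real.rpow_le_rpow_of_exponent_le (by exact_mod_cast hX) h)⟩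

end FreeYAux

open FreeYAux

open scoped Classical in
/-- The characters kept: the trivial one and at most one real one, of modulus `q` (`q = 0`: none). -/
def Kept (Q : ℕ) (M : Finset CI) (q : ℕ) : Prop :=
  (M = {one} ∧ q = 0) ∨ ∃ xe ∈ Ch Q, xe.2 ≠ 1 ∧ xe.2 ^ 2 = 1 ∧ M = {one, xe} ∧ q = md xe

open scoped Classical in
theorem freeY (k : ℕ) (hk : 1 ≤ k) (B : ℝ) : ∃ c C : ℝ, 0 < c ∧ 0 < C ∧ ∃ X0 : ℕ,
    ∀ X Q : ℕ, X0 ≤ X → Rg c X Q → ∀ b : CI → ℝ, (∀ x ∈ Ch Q, ∀ n, ‖Mc X Q x n‖ ≤ b x) →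
    ∑ x ∈ Ch Q, b x ≤ B → ∀ (M : Finset CI) (q : ℕ) (E : ℝ), Kept Q M q →
    ∑ x ∈ Ch Q \ M, b x ≤ E →
    (∀ n : ℕ, 3 * X ≤ n * Q → n * Q + X ≤ 2 * X * Q → ‖Mc X Q one n - 1‖ ≤ E) →
    ∀ y : ℕ, y ≤ X →
    (((Tup k (Icc 1 X)).filter (fun h => Function.Injective h ∧
      C * SI h * X * (E + Gq q h) + X * (Q : ℝ) ^ (-(1 / 25 : ℝ)) <
      |∑ n ∈ Icc 1 y, ∏ i, W X Q (n + h i) - SI h * y|)).card : ℝ) ≤
      (X : ℝ) ^ k * (Q : ℝ) ^ (-(1 / 2 : ℝ)) := by
  obtain ⟨c1, C1, hc1, hC1, X1, hmain⟩ := mainT k hk B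
  obtain ⟨c2, hc2, X2, hexc⟩ := except k (8 * k) hk (by omega) B
  obtain ⟨C2, hC2, hxe⟩ := excB k
  obtain ⟨X3, hsps⟩ := sps k hk
  obtain ⟨C3, hC3, hsz⟩ := sz_le k
  obtain ⟨K, hK⟩ : ∃ K : ℝ, K = (max 1 B) ^ k := ⟨_, rfl⟩
  have hβ1 : (1 : ℝ) ≤ max 1 B := le_max_left _ _
  have hK1 : 1 ≤ K := by rw [hK]; exact one_le_pow₀ hβ1
  obtain ⟨D, hD⟩ : ∃ D : ℝ, D = (10 * (1 + K) + 1) * (2 * C3 * (8 * k) ^ k) := ⟨_, rfl⟩
  obtain ⟨X4, hX4⟩ := largeQ (fun q => q ^ (-(1 / 20 : ℝ)) + 1 / q + D * Real.log q ^ k / q ≤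
    q ^ (-(1 / 25 : ℝ)) ∧ 2 ≤ q) ((growthQ D k).and (eventually_ge_atTop 2))
  refine ⟨min (min c1 c2) 1, 2 * C1 + 2 * k * K + 2 ^ (k + 1) * K * C2 + 1,
    lt_min (lt_min hc1 hc2) one_pos, by positivity, max (max X1 X2) (max (max X3 X4) 1), ?_⟩
  intro X Q hX hR b hb hbB M q E hM hE hone y hy
  have hX1 : X1 ≤ X := le_trans (le_max_left _ _) (le_trans (le_max_left _ _) hX)
  have hX2 : X2 ≤ X := le_trans (le_max_right _ _) (le_trans (le_max_left _ _) hX)
  have hX3 : X3 ≤ X := le_trans (le_max_left _ _)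
    (le_trans (le_max_left _ _) (le_trans (le_max_right _ _) hX))
  have hX4' : X4 ≤ X := le_trans (le_max_right _ _)
    (le_trans (le_max_left _ _) (le_trans (le_max_right _ _) hX))
  have hX5 : 1 ≤ X := le_trans (le_max_right _ _) (le_trans (le_max_right _ _) hX)
  obtain ⟨hgr, hQ2⟩ := hX4 X Q hX4' hR.1
  have hQn : 2 ≤ Q := by exact_mod_cast hQ2
  have hQ0 : (0 : ℝ) < Q := by linarith
  have hR1 : Rg c1 X Q := Rg_mono ((min_le_left _ _).trans (min_le_left _ _)) hX5 hR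
  have hR2 : Rg c2 X Q := Rg_mono ((min_le_left _ _).trans (min_le_right _ _)) hX5 hR
  have hR3 : Rg 1 X Q := Rg_mono (min_le_right _ _) hX5 hR
  have hQX : Q ≤ X := by
    have h1 := hR3.2
    rw [Real.rpow_one] at h1
    exact_mod_cast h1
  have hXr : (1 : ℝ) ≤ X := by exact_mod_cast hX5
  have hb0 : ∀ x ∈ Ch Q, 0 ≤ b x := fun x hx => (norm_nonneg _).trans (hb x hx 0)
  have hMC : M ⊆ Ch Q := by
    rcases hM with ⟨h1, -⟩ | ⟨xe, h1, -, -, h2, -⟩
    · rw [h1]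
      intro x hx
      rw [Finset.mem_singleton.1 hx]
      exact one_mem_Ch (by omega)
    · rw [h2]
      intro x hx
      rcases Finset.mem_insert.1 hx with h3 | h3
      · rw [h3]; exact one_mem_Ch (by omega)
      · rw [Finset.mem_singleton.1 h3]; exact h1
  have honeM : one ∈ M := by
    rcases hM with ⟨h1, -⟩ | ⟨xe, h1, -, -, h2, -⟩
    · rw [h1]; exact Finset.mem_singleton_self _
    · rw [h2]; exact Finset.mem_insert_self _ _
  have hMcard : M.card ≤ 2 := by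
    rcases hM with ⟨h1, -⟩ | ⟨xe, h1, -, -, h2, -⟩
    · rw [h1, Finset.card_singleton]; norm_num
    · rw [h2]; exact Finset.card_le_two
  have hE0 : 0 ≤ E := le_trans (Finset.sum_nonneg fun x hx =>
    hb0 x (Finset.mem_sdiff.1 hx).1) hE
  have hMcb : ∀ x ∈ M, ∀ n, ‖Mc X Q x n‖ ≤ max 1 B := by
    intro x hx n
    refine (hb x (hMC hx) n).trans ?_
    refine le_trans ?_ (hbB.trans (le_max_right _ _))
    exact Finset.single_le_sum hb0 (hMC hx)
  -- it suffices to bound outside the exceptional set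
  refine le_trans ?_ (hexc X Q hX2 hR2 b hb hbB y hy)
  refine Nat.cast_le.2 (Finset.card_le_card ?_)
  intro h hh
  rw [Finset.mem_filter] at hh ⊢
  obtain ⟨hT, hinj, hlt⟩ := hh
  refine ⟨hT, ?_⟩
  by_contra hcon
  rw [not_lt] at hcon
  refine absurd hlt (not_lt.2 ?_)
  have hh1 : ∀ i, 1 ≤ h i ∧ h i ≤ X := fun i => Finset.mem_Icc.1 (mem_Tup.1 hT i)
  -- notation
  obtain ⟨Y, hY⟩ : ∃ Y, Y = Q ^ (8 * k) := ⟨_, rfl⟩
  have hY2 : 2 ≤ Y := by
    rw [hY]
    calc 2 ≤ Q := hQn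
      _ = Q ^ 1 := (pow_one Q).symm
      _ ≤ Q ^ (8 * k) := Nat.pow_le_pow_right (by omega) (by omega)
  obtain ⟨S, hS⟩ : ∃ S, S = SZ Y h := ⟨_, rfl⟩
  obtain ⟨s, hs⟩ : ∃ s, s = SI h := ⟨_, rfl⟩
  obtain ⟨g, hg⟩ : ∃ g, g = Gq q h := ⟨_, rfl⟩
  have hg0 : 0 ≤ g := by rw [hg]; exact (Gq_le_one q h).1
  have hS0 : 0 ≤ S := by rw [hS]; exact SZ_nonneg _ _
  have hSs : |S - s| ≤ s / Q := by
    rw [hS, hs, hY]
    refine hsps X Q hX3 hR3 h ?_ hinj
    rw [mem_Tup]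
    intro i
    rw [Finset.mem_range]
    have := (hh1 i).2
    omega
  have hs0 : 0 ≤ s := by
    have h1 := (abs_nonneg _).trans hSs
    rwa [le_div_iff₀ hQ0, zero_mul] at h1
  have hsQ : s / Q ≤ s / 2 := div_le_div_of_nonneg_left hs0 (by norm_num) hQ2
  have hS2s : S ≤ 2 * s := by
    have h1 := le_abs_self (S - s)
    linarith
  have hs2S : s ≤ 2 * S := by
    have h1 := neg_abs_le (S - s)
    linarith
  have hSlog : S ≤ C3 * (8 * k) ^ k * Real.log Q ^ k := by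
    have h1 := hsz Y h hY2
    rw [← hS] at h1
    refine h1.trans (le_of_eq ?_)
    rw [hY, Nat.cast_pow, Real.log_pow]
    push_cast
    rw [mul_pow]
    ring
  -- the sums
  obtain ⟨T, hTe⟩ : ∃ T : ℂ, T = ∑ n ∈ Icc 1 y, ∏ i, (W X Q (n + h i) : ℂ) := ⟨_, rfl⟩
  obtain ⟨L, hL⟩ : ∃ L : ℂ, L = ∑ n ∈ Icc 1 y, ∏ i, LL X Q (Q ^ (8 * k)) (n + h i) := ⟨_, rfl⟩
  obtain ⟨A, hA⟩ : ∃ A : (Fin k → CI) → ℂ, A = fun x =>
      ∑ n ∈ Icc 1 y, ∏ i, Mc X Q (x i) (n + h i) := ⟨_, rfl⟩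
  have hTL : ‖T - L‖ ≤ X * (Q : ℝ) ^ (-(1 / 20 : ℝ)) := by rw [hTe, hL]; exact hcon
  have hLA := hmain X Q hX1 hR1 b hb hbB M E hMC hE h hT hinj y hy
  rw [← hL, ← hY, ← hS] at hLA
  have hLA' : ‖L - ∑ x ∈ Fintype.piFinset (fun _ : Fin k => M), TP Y x h * A x‖ ≤
      C1 * S * X * E + X / Q := by
    rw [hA]
    exact hLA
  have hyX : (y : ℝ) ≤ X := by exact_mod_cast hy
  have hAb : ∀ x ∈ Fintype.piFinset (fun _ : Fin k => M), ‖A x‖ ≤ X * K := by
    intro x hx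
    rw [hA]
    beta_reduce
    refine (norm_sum_le _ _).trans ?_
    have h1 : ∀ n ∈ Icc 1 y, ‖∏ i, Mc X Q (x i) (n + h i)‖ ≤ K := by
      intro n _
      have h2 := prod_bdd (Finset.univ : Finset (Fin k)) (fun i => Mc X Q (x i) (n + h i))
        (β := max 1 B) (fun i _ => hMcb (x i) (Fintype.mem_piFinset.1 hx i) _)
      rw [Finset.card_univ, Fintype.card_fin] at h2
      rw [hK]
      exact h2
    refine (Finset.sum_le_sum h1).trans ?_
    rw [Finset.sum_const, Nat.card_Icc, Nat.add_sub_cancel, nsmul_eq_mul]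
    exact mul_le_mul_of_nonneg_right hyX (by linarith)
  have h1M : (fun _ : Fin k => one) ∈ Fintype.piFinset (fun _ : Fin k => M) :=
    Fintype.mem_piFinset.2 fun _ => honeM
  have hTPx : ∀ x ∈ (Fintype.piFinset (fun _ : Fin k => M)).erase (fun _ => one),
      ‖TP Y x h‖ ≤ C2 * S * g := by
    intro x hx
    rw [Finset.mem_erase] at hx
    obtain ⟨hx1, hx2⟩ := hx
    rw [Fintype.mem_piFinset] at hx2
    rcases hM with ⟨h1, -⟩ | ⟨xe, h1, -, h2, h3, h4⟩
    · exfalso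
      apply hx1
      funext i
      have := hx2 i
      rw [h1] at this
      exact Finset.mem_singleton.1 this
    · rw [hS, hg, h4]
      refine hxe Y xe x h (mem_Ch.1 h1).2 h2 ?_ ?_ ?_
      · refine (mem_Ch.1 h1).1.trans ?_
        rw [hY]
        calc Q = Q ^ 1 := (pow_one Q).symm
          _ ≤ Q ^ (8 * k) := Nat.pow_le_pow_right (by omega) (by omega)
      · intro i
        have := hx2 i
        rw [h3] at this
        rcases Finset.mem_insert.1 this with h5 | h5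
        · exact Or.inl h5
        · exact Or.inr (Finset.mem_singleton.1 h5)
      · by_contra hno
        push Not at hno
        apply hx1
        funext i
        have := hx2 i
        rw [h3] at this
        rcases Finset.mem_insert.1 this with h5 | h5
        · exact h5
        · exact absurd (Finset.mem_singleton.1 h5) (hno i)
  have hrest : ‖∑ x ∈ Fintype.piFinset (fun _ : Fin k => M), TP Y x h * A x -
      (S : ℂ) * A (fun _ => one)‖ ≤ 2 ^ k * (C2 * S * g * (X * K)) := by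
    have h2 := Finset.add_sum_erase _ (fun x => TP Y x h * A x) h1M
    have h3 : TP Y (fun _ : Fin k => one) h = (S : ℂ) := by
      rw [hS]
      exact TP_one Y (by omega) h
    have h4 : ∑ x ∈ Fintype.piFinset (fun _ : Fin k => M), TP Y x h * A x -
        (S : ℂ) * A (fun _ => one) =
        ∑ x ∈ (Fintype.piFinset (fun _ : Fin k => M)).erase (fun _ => one), TP Y x h * A x := by
      rw [← h2]
      beta_reduce
      rw [h3]
      ring
    rw [h4]
    refine (norm_sum_le _ _).trans ?_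
    have h5 : ∀ x ∈ (Fintype.piFinset (fun _ : Fin k => M)).erase (fun _ => one),
        ‖TP Y x h * A x‖ ≤ C2 * S * g * (X * K) := by
      intro x hx
      rw [norm_mul]
      exact mul_le_mul (hTPx x hx) (hAb x (Finset.mem_of_mem_erase hx)) (norm_nonneg _)
        (mul_nonneg (mul_nonneg hC2.le hS0) hg0)
    refine (Finset.sum_le_sum h5).trans ?_
    rw [Finset.sum_const, nsmul_eq_mul]
    refine mul_le_mul_of_nonneg_right ?_
      (mul_nonneg (mul_nonneg (mul_nonneg hC2.le hS0) hg0) (by positivity))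
    have h6 : ((Fintype.piFinset (fun _ : Fin k => M)).erase (fun _ => one)).card ≤ 2 ^ k := by
      refine (Finset.card_erase_le).trans ?_
      rw [Fintype.card_piFinset, Finset.prod_const, Finset.card_univ, Fintype.card_fin]
      exact Nat.pow_le_pow_left hMcard k
    exact_mod_cast h6
  -- the main term
  have hA1 : ‖A (fun _ => one) - y‖ ≤ X * (k * K * E) + 5 * (X : ℝ) / Q * (1 + K) := by
    have e1 : A (fun _ => one) - y =
        ∑ n ∈ Icc 1 y, (∏ i : Fin k, Mc X Q one (n + h i) - 1) := by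
      rw [hA, Finset.sum_sub_distrib, Finset.sum_const, Nat.card_Icc, Nat.add_sub_cancel,
        nsmul_eq_mul, mul_one]
    rw [e1]
    refine (norm_sum_le _ _).trans ?_
    have h2 : ∀ n ∈ Icc 1 y, ‖∏ i : Fin k, Mc X Q one (n + h i) - 1‖ ≤
        k * K * E + (if n * Q < 3 * X ∨ X * Q < n * Q + X then 1 + K else 0) := by
      intro n hn
      split_ifs with hbad
      · have h3 := prod_bdd (Finset.univ : Finset (Fin k)) (fun i => Mc X Q one (n + h i))
          (β := max 1 B) (fun i _ => hMcb one honeM _)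
        rw [Finset.card_univ, Fintype.card_fin, ← hK] at h3
        have h4 := norm_sub_le (∏ i : Fin k, Mc X Q one (n + h i)) 1
        rw [norm_one] at h4
        have h5 : 0 ≤ k * K * E := by positivity
        linarith
      · rw [add_zero]
        push Not at hbad
        obtain ⟨hb1, hb2⟩ := hbad
        have h3 := prod_near (Finset.univ : Finset (Fin k)) (fun i => Mc X Q one (n + h i))
          hβ1 hE0 (fun i _ => hMcb one honeM _) (fun i _ => by
            apply hone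
            · refine hb1.trans (Nat.mul_le_mul_right _ (Nat.le_add_right _ _))
            · have h4 : h i * Q ≤ X * Q := Nat.mul_le_mul_right _ (hh1 i).2
              have h5 : (n + h i) * Q = n * Q + h i * Q := by ring
              have h6 : 2 * X * Q = X * Q + X * Q := by ring
              omega)
        rw [Finset.card_univ, Fintype.card_fin, ← hK] at h3
        exact h3
    refine (Finset.sum_le_sum h2).trans ?_
    rw [Finset.sum_add_distrib, Finset.sum_const, Nat.card_Icc, Nat.add_sub_cancel,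
      nsmul_eq_mul, ← Finset.sum_filter, Finset.sum_const, nsmul_eq_mul]
    refine add_le_add ?_ ?_
    · exact mul_le_mul_of_nonneg_right hyX (by positivity)
    · exact mul_le_mul_of_nonneg_right (card_bad (by omega) hQX hy) (by linarith)
  -- assembly
  have hfin : ‖T - (s : ℂ) * y‖ ≤ X * (Q : ℝ) ^ (-(1 / 20 : ℝ)) + (C1 * S * X * E + X / Q) +
      2 ^ k * (C2 * S * g * (X * K)) + S * (X * (k * K * E) + 5 * (X : ℝ) / Q * (1 + K)) +
      s / Q * X := by
    have e1 : T - (s : ℂ) * y = (T - L) +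
        (L - ∑ x ∈ Fintype.piFinset (fun _ : Fin k => M), TP Y x h * A x) +
        (∑ x ∈ Fintype.piFinset (fun _ : Fin k => M), TP Y x h * A x -
          (S : ℂ) * A (fun _ => one)) +
        (S : ℂ) * (A (fun _ => one) - y) + ((S : ℂ) - s) * y := by ring
    rw [e1]
    have n1 : ‖(S : ℂ) * (A (fun _ => one) - y)‖ ≤
        S * (X * (k * K * E) + 5 * (X : ℝ) / Q * (1 + K)) := by
      rw [norm_mul, Complex.norm_real, Real.norm_of_nonneg hS0]
      exact mul_le_mul_of_nonneg_left hA1 hS0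
    have n2 : ‖((S : ℂ) - s) * y‖ ≤ s / Q * X := by
      rw [norm_mul, ← Complex.ofReal_sub, Complex.norm_real, Real.norm_eq_abs,
        Complex.norm_natCast]
      exact mul_le_mul hSs hyX (Nat.cast_nonneg _) ((abs_nonneg _).trans hSs)
    refine (norm_add_le _ _).trans (add_le_add ?_ n2)
    refine (norm_add_le _ _).trans (add_le_add ?_ n1)
    refine (norm_add_le _ _).trans (add_le_add ?_ hrest)
    exact (norm_add_le _ _).trans (add_le_add hTL hLA')
  have hreal : |∑ n ∈ Icc 1 y, ∏ i, W X Q (n + h i) - s * y| = ‖T - (s : ℂ) * y‖ := by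
    rw [← Real.norm_eq_abs, ← Complex.norm_real, hTe]
    push_cast
    rfl
  rw [← hs, ← hg, hreal]
  refine hfin.trans ?_
  have hkK : 0 ≤ (k : ℝ) * K := by positivity
  have m1 : C1 * S * X * E ≤ 2 * C1 * s * X * E := by
    have : C1 * S ≤ C1 * (2 * s) := mul_le_mul_of_nonneg_left hS2s hC1.le
    calc C1 * S * X * E = C1 * S * (X * E) := by ring
      _ ≤ C1 * (2 * s) * (X * E) := mul_le_mul_of_nonneg_right this (by positivity)
      _ = 2 * C1 * s * X * E := by ring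
  have m2 : 2 ^ k * (C2 * S * g * (X * K)) ≤ 2 ^ (k + 1) * K * C2 * s * X * g := by
    calc 2 ^ k * (C2 * S * g * (X * K)) = S * (2 ^ k * C2 * g * (X * K)) := by ring
      _ ≤ 2 * s * (2 ^ k * C2 * g * (X * K)) :=
          mul_le_mul_of_nonneg_right hS2s (by positivity)
      _ = 2 ^ (k + 1) * K * C2 * s * X * g := by ring
  have m3 : S * (X * (k * K * E) + 5 * (X : ℝ) / Q * (1 + K)) ≤
      2 * k * K * s * X * E + 10 * (1 + K) * (s * X / Q) := by
    calc S * (X * (k * K * E) + 5 * (X : ℝ) / Q * (1 + K)) ≤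
        2 * s * (X * (k * K * E) + 5 * (X : ℝ) / Q * (1 + K)) :=
          mul_le_mul_of_nonneg_right hS2s (by positivity)
      _ = 2 * k * K * s * X * E + 10 * (1 + K) * (s * X / Q) := by ring
  have m4 : X * (Q : ℝ) ^ (-(1 / 20 : ℝ)) + X / Q + (10 * (1 + K) + 1) * (s * X / Q) ≤
      X * (Q : ℝ) ^ (-(1 / 25 : ℝ)) := by
    have h1 : (10 * (1 + K) + 1) * s ≤ D * Real.log Q ^ k := by
      have h2 : s ≤ 2 * (C3 * (8 * k) ^ k * Real.log Q ^ k) := by linarith
      calc (10 * (1 + K) + 1) * s ≤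
          (10 * (1 + K) + 1) * (2 * (C3 * (8 * k) ^ k * Real.log Q ^ k)) :=
            mul_le_mul_of_nonneg_left h2 (by linarith)
        _ = D * Real.log Q ^ k := by rw [hD]; ring
    have h3 : (10 * (1 + K) + 1) * (s * X / Q) ≤ X * (D * Real.log Q ^ k / Q) := by
      calc (10 * (1 + K) + 1) * (s * X / Q) = ((10 * (1 + K) + 1) * s) * (X / Q) := by ring
        _ ≤ D * Real.log Q ^ k * (X / Q) := mul_le_mul_of_nonneg_right h1 (by positivity)
        _ = X * (D * Real.log Q ^ k / Q) := by ring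
    have h4 := mul_le_mul_of_nonneg_left hgr (by linarith : (0 : ℝ) ≤ X)
    have h5 : X * ((Q : ℝ) ^ (-(1 / 20 : ℝ)) + 1 / (Q : ℝ) + D * Real.log Q ^ k / Q) =
        X * (Q : ℝ) ^ (-(1 / 20 : ℝ)) + X / Q + X * (D * Real.log Q ^ k / Q) := by ring
    rw [h5] at h4
    linarith
  have m5 : 0 ≤ s * X * (E + g) := by positivity
  have m6 : 0 ≤ (2 * C1 + 2 * k * K) * (s * X * g) := by positivity
  have m7 : 0 ≤ 2 ^ (k + 1) * K * C2 * (s * X * E) := by positivity
  have e9 : (2 * C1 + 2 * k * K + 2 ^ (k + 1) * K * C2 + 1) * s * X * (E + g) =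
      2 * C1 * s * X * E + 2 * k * K * s * X * E + 2 ^ (k + 1) * K * C2 * s * X * g +
      (2 * C1 + 2 * k * K) * (s * X * g) + 2 ^ (k + 1) * K * C2 * (s * X * E) +
      s * X * (E + g) := by ring
  have e10 : s / Q * X = s * X / Q := by ring
  rw [e9, e10]
  linarith

end Pool.Agent.Lib.GMV
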