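import Pool.Agent.Lib.GMV.Model

/-!
# GMV.ExBig: exceptional moduli tend to infinity

PROOF. For `x ∈ Ch w` with `x.2 ≠ 1` the function `Lf x.2` is continuous and `≠ 0` at `1` (`Lf_ne_zero`), so there is `e x > 0` with
`Lf x.2 (β : ℂ) ≠ 0` for real `β`, `|β - 1| < e x`. Let `e > 0` be the minimum over the finite set `Ch w` (with `e = 1` if it is empty or for `x.2 = 1`). If
`c / log Q < e` (`Q ≥ Q0`, `log Q → ∞`; `c ≤ 0`: then `IsExc` would give `β ≥ 1`) and `IsExc c Q x β` with `md x ≤ w` then `x ∈ Ch w` (primitive), `1 - e < β < 1`,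
contradiction.
-/

set_option autoImplicit false

open Finset Filter

namespace Pool.Agent.Lib.GMV

open Pool.Agent.HLB Pool.Agent.HLT Pool.Agent.HLR

theorem exBig (c : ℝ) (w : ℕ) : ∃ Q0 : ℕ, ∀ Q : ℕ, Q0 ≤ Q → ∀ x β, IsExc c Q x β → w < md x := by
  have h1 : ∀ x ∈ Ch w, ∀ᶠ b : ℝ in nhds 1, Lf x.2 (b : ℂ) ≠ 0 := by
    intro x _
    have hc : Continuous (fun b : ℝ => Lf x.2 (b : ℂ)) :=
      (Lf_differentiable x.2).continuous.comp Complex.continuous_ofReal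
    have h0 : Lf x.2 ((1 : ℝ) : ℂ) ≠ 0 := Lf_ne_zero x.2 (by simp)
    exact hc.continuousAt.eventually_ne h0
  have h2 : ∀ᶠ b : ℝ in nhds 1, ∀ x ∈ Ch w, Lf x.2 (b : ℂ) ≠ 0 :=
    (Filter.eventually_all_finset (Ch w)).mpr h1
  obtain ⟨e, he, h3⟩ := Metric.eventually_nhds_iff.mp h2
  have hlim : Tendsto (fun Q : ℕ => c / Real.log Q) atTop (nhds 0) :=
    (Real.tendsto_log_atTop.comp tendsto_natCast_atTop_atTop).const_div_atTop c
  have h4 : ∀ᶠ Q : ℕ in atTop, c / Real.log Q < e := hlim.eventually_lt_const he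
  obtain ⟨Q0, hQ0⟩ := Filter.eventually_atTop.mp h4
  refine ⟨Q0, fun Q hQ x β hx => ?_⟩
  obtain ⟨hxQ, _, _, hz, hb1, hb2⟩ := hx
  by_contra hw
  have hxw : x ∈ Ch w := mem_Ch.mpr ⟨not_lt.mp hw, (mem_Ch.mp hxQ).2⟩
  have h5 := hQ0 Q hQ
  refine h3 (y := β) ?_ x hxw hz
  rw [Real.dist_eq, abs_lt]
  constructor <;> linarith

end Pool.Agent.Lib.GMV
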