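import Pool.Agent.Lib.GMV.SumB

/-!
# GMV.NoExc: arbitrarily large `X` without exceptional zero

PROOF. `Q N = ⌊N^κ⌋₊`. Let `N` be large. If there is no `IsExc c (Q N)`, take `X = N`. Otherwise let `IsExc c (Q N) x1 β1`, `δ = 1 - β1 > 0`,
`δ ≤ c/log (Q N)`. Choose `X` with `c/δ < log ⌊X^κ⌋ < c1/δ`: possible because `c/δ ≥ log (Q N)` is large and `c < c1`
(`X = ⌈exp(s/κ)⌉`, `s = c/δ + 1`: `X^κ ≥ exp s`, `X^κ ≤ exp s (1 + exp(-s/κ))^κ ≤ 2^κ... exp s`; so `log ⌊X^κ⌋ ∈ [c/δ + 1/2, c/δ + 1 + κ]`, and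
`c/δ (c1/c - 1) > 1 + κ` for `N` large). Then `Q = ⌊X^κ⌋ ≥ Q N` (so `X ≥ N` may be assumed: `X^κ ≥ exp (c/δ) ≥ Q N`; take `N' = max`, or use
`X ≥ N - 1`...: choose `N` replaced by a larger number at the start), `(x1, β1)` is in the `c1` region of `Q` but not in the `c` region. An
`IsExc c Q x β` would be in the `c1` region too, hence by the uniqueness `β = β1`, contradiction. (`β1 ∈ Z x1.2 (Q^30)`: `β1 ≥ 9/10`.)
-/

set_option autoImplicit false

open Finset Filter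

namespace Pool.Agent.Lib.GMV

open Pool.Agent.HLB Pool.Agent.HLT Pool.Agent.HLR

namespace NoExcAux

private lemma rho_eq {q q' : ℕ} {χ : DirichletCharacter ℂ (q + 1)} {χ' : DirichletCharacter ℂ (q' + 1)}
    {ρ ρ' : ℂ} (h : (⟨q, χ, ρ⟩ : (q : ℕ) × (DirichletCharacter ℂ (q + 1) × ℂ)) = ⟨q', χ', ρ'⟩) :
    ρ = ρ' :=
  congrArg (fun p : (q : ℕ) × (DirichletCharacter ℂ (q + 1) × ℂ) => p.2.2) h

private lemma tend (κ : ℝ) (hκ : 0 < κ) :
    Tendsto (fun n : ℕ => Real.log (⌊(n : ℝ) ^ κ⌋₊ : ℝ)) atTop atTop :=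
  Real.tendsto_log_atTop.comp (tendsto_natCast_atTop_atTop.comp
    (tendsto_nat_floor_atTop.comp ((tendsto_rpow_atTop hκ).comp tendsto_natCast_atTop_atTop)))

end NoExcAux

open NoExcAux in
theorem noExc (c1 c κ : ℝ) (hZ : ZFree c1) (hc : 0 < c) (hcc : c < c1) (hκ : 0 < κ) :
    ∀ N : ℕ, ∃ X : ℕ, N ≤ X ∧ ∀ x β, ¬ IsExc c ⌊(X : ℝ) ^ κ⌋₊ x β := by
  intro N
  by_contra hcon
  push Not at hcon
  -- a large starting point
  obtain ⟨K, hK⟩ : ∃ K : ℝ, K = 10 * c1 + (1 + κ) * c / (c1 - c) + 1 := ⟨_, rfl⟩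
  have hc1 : 0 < c1 := hc.trans hcc
  have hd : 0 < c1 - c := by linarith
  have hfr : 0 ≤ (1 + κ) * c / (c1 - c) := by positivity
  obtain ⟨N', hN'1, hN'2⟩ := (((tend κ hκ).eventually_ge_atTop K).and
    (eventually_ge_atTop (N + 1))).exists
  obtain ⟨Q0, hQ0⟩ : ∃ Q0 : ℕ, Q0 = ⌊(N' : ℝ) ^ κ⌋₊ := ⟨_, rfl⟩
  obtain ⟨x1, β1, hx1⟩ := hcon N' (by omega)
  rw [← hQ0] at hx1 hN'1
  obtain ⟨hx1m, hx11, hx12, hx1z, hx1l, hx1u⟩ := hx1
  have hlQ0 : 0 < Real.log Q0 := by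
    have : 0 < K := by rw [hK]; linarith
    linarith
  have hQ0pos : (0 : ℝ) < Q0 := by
    by_contra hh
    have : (Q0 : ℝ) = 0 := le_antisymm (not_lt.mp hh) (Nat.cast_nonneg _)
    rw [this, Real.log_zero] at hlQ0
    exact lt_irrefl _ hlQ0
  obtain ⟨δ, hδ⟩ : ∃ δ : ℝ, δ = 1 - β1 := ⟨_, rfl⟩
  have hδ0 : 0 < δ := by rw [hδ]; linarith
  have hδc : Real.log Q0 ≤ c / δ := by
    rw [le_div_iff₀ hδ0]
    have h1 : δ ≤ c / Real.log Q0 := by rw [hδ]; linarith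
    rw [le_div_iff₀ hlQ0] at h1
    linarith
  obtain ⟨s, hs⟩ : ∃ s : ℝ, s = c / δ + 1 := ⟨_, rfl⟩
  have hs1 : 1 ≤ s := by
    rw [hs]
    linarith
  obtain ⟨X, hX⟩ : ∃ X : ℕ, X = ⌈Real.exp (s / κ)⌉₊ := ⟨_, rfl⟩
  have hXl : Real.exp (s / κ) ≤ X := by rw [hX]; exact Nat.le_ceil _
  have hX0 : (0 : ℝ) < X := (Real.exp_pos _).trans_le hXl
  have hXu : (X : ℝ) ≤ 2 * Real.exp (s / κ) := by
    have h1 : (X : ℝ) < Real.exp (s / κ) + 1 := by
      rw [hX]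
      exact Nat.ceil_lt_add_one (Real.exp_pos _).le
    have h2 : 1 ≤ Real.exp (s / κ) := Real.one_le_exp (by positivity)
    linarith
  have hexp : Real.exp (s / κ) ^ κ = Real.exp s := by
    rw [← Real.exp_mul, div_mul_cancel₀ _ hκ.ne']
  have hXκl : Real.exp s ≤ (X : ℝ) ^ κ := by
    rw [← hexp]
    exact Real.rpow_le_rpow (Real.exp_pos _).le hXl hκ.le
  have hXκu : (X : ℝ) ^ κ ≤ Real.exp (s + κ) := by
    calc (X : ℝ) ^ κ ≤ (2 * Real.exp (s / κ)) ^ κ := Real.rpow_le_rpow hX0.le hXu hκ.le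
      _ = 2 ^ κ * Real.exp s := by
          rw [Real.mul_rpow (by norm_num) (Real.exp_pos _).le, hexp]
      _ ≤ Real.exp κ * Real.exp s := by
          refine mul_le_mul_of_nonneg_right ?_ (Real.exp_pos _).le
          have h1 : (2 : ℝ) ≤ Real.exp 1 := by
            have := Real.add_one_le_exp (1 : ℝ)
            linarith
          calc (2 : ℝ) ^ κ ≤ Real.exp 1 ^ κ := Real.rpow_le_rpow (by norm_num) h1 hκ.le
            _ = Real.exp κ := by rw [← Real.exp_mul, one_mul]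
      _ = Real.exp (s + κ) := by rw [← Real.exp_add, add_comm]
  obtain ⟨Q, hQ⟩ : ∃ Q : ℕ, Q = ⌊(X : ℝ) ^ κ⌋₊ := ⟨_, rfl⟩
  have hQl : Real.exp (s - 1 / 2) ≤ Q := by
    have h1 : (X : ℝ) ^ κ < Q + 1 := by rw [hQ]; exact Nat.lt_floor_add_one _
    have h2 : Real.exp (s - 1 / 2) + 1 ≤ Real.exp s := by
      have h3 : Real.exp s = Real.exp (s - 1 / 2) * Real.exp (1 / 2) := by
        rw [← Real.exp_add]
        congr 1
        ring
      have h4 : (1 : ℝ) + 1 / 2 + (1 / 2) ^ 2 / 2 ≤ Real.exp (1 / 2) :=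
        Real.quadratic_le_exp_of_nonneg (by norm_num)
      have h5 : (1 : ℝ) + 1 / 2 + (1 / 2) ^ 2 / 2 ≤ Real.exp (s - 1 / 2) :=
        h4.trans (Real.exp_le_exp.mpr (by linarith))
      rw [h3]
      nlinarith
    linarith
  have hQ0' : (0 : ℝ) < Q := (Real.exp_pos _).trans_le hQl
  have hQu : (Q : ℝ) ≤ Real.exp (s + κ) := by
    refine le_trans ?_ hXκu
    rw [hQ]
    exact Nat.floor_le (Real.rpow_nonneg hX0.le _)
  have hlQl : c / δ < Real.log Q := by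
    have h1 : s - 1 / 2 ≤ Real.log Q := by
      rw [Real.le_log_iff_exp_le hQ0']
      exact hQl
    rw [hs] at h1
    linarith
  have hlQu : Real.log Q < c1 / δ := by
    have h1 : Real.log Q ≤ s + κ := by
      rw [Real.log_le_iff_le_exp hQ0']
      exact hQu
    have h2 : 1 + κ < (c1 - c) / δ := by
      have h3 : (1 + κ) * c / (c1 - c) < c / δ := by linarith
      rw [div_lt_div_iff₀ hd hδ0] at h3
      rw [lt_div_iff₀ hδ0]
      have h4 : (1 + κ) * δ * c < (c1 - c) * c := by nlinarith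
      exact lt_of_mul_lt_mul_right h4 hc.le
    have h5 : c1 / δ = c / δ + (c1 - c) / δ := by rw [← add_div]; congr 1; ring
    rw [h5]
    rw [hs] at h1
    linarith
  have hlQ : 0 < Real.log Q := lt_of_le_of_lt (by positivity) hlQl
  have hlQK : 10 * c1 ≤ Real.log Q := by linarith
  have hQQ : (Q0 : ℝ) ≤ Q := by
    have h1 : Real.log Q0 ≤ Real.log Q := by linarith
    exact (Real.log_le_log_iff hQ0pos hQ0').mp h1
  have hQQ' : Q0 ≤ Q := by exact_mod_cast hQQ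
  have hQ2 : 2 ≤ Q := by
    have h1 : Real.exp (1 / 2) ≤ Q := (Real.exp_le_exp.mpr (by linarith)).trans hQl
    have h2 : (1 : ℝ) + 1 / 2 + (1 / 2) ^ 2 / 2 ≤ Real.exp (1 / 2) :=
      Real.quadratic_le_exp_of_nonneg (by norm_num)
    have h3 : (1 : ℝ) < Q := by linarith
    have h4 : 1 < Q := by exact_mod_cast h3
    omega
  have hXN : N ≤ X := by
    have h1 : (N' : ℝ) ^ κ ≤ (X : ℝ) ^ κ := by
      have h2 : (N' : ℝ) ^ κ < Q0 + 1 := by rw [hQ0]; exact Nat.lt_floor_add_one _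
      have h3 : (Q0 : ℝ) + 1 ≤ Real.exp s := by
        have h4 : (Q0 : ℝ) ≤ Real.exp (c / δ) := by
          rw [← Real.log_le_iff_le_exp hQ0pos]
          exact hδc
        have h5 : Real.exp s = Real.exp (c / δ) * Real.exp 1 := by rw [hs, Real.exp_add]
        have h6 : (2 : ℝ) ≤ Real.exp 1 := by
          have := Real.add_one_le_exp (1 : ℝ)
          linarith
        have h7 : 1 ≤ Real.exp (c / δ) := Real.one_le_exp (by positivity)
        rw [h5]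
        nlinarith
      linarith
    have h2 : (N' : ℝ) ≤ X := (Real.rpow_le_rpow_iff (Nat.cast_nonneg _) hX0.le hκ).mp h1
    have h3 : N' ≤ X := by exact_mod_cast h2
    omega
  obtain ⟨x, β, hx⟩ := hcon X hXN
  rw [← hQ] at hx
  obtain ⟨hxm, hx1', hx2, hxz, hxl, hxu⟩ := hx
  rw [mem_Ch] at hxm hx1m
  have hT0 : (0 : ℝ) ≤ (Q : ℝ) ^ 30 := by positivity
  have hmem : (β : ℂ) ∈ Z x.2 ((Q : ℝ) ^ 30) := by
    rw [mem_Z]
    refine ⟨?_, ?_, hxz⟩
    · rw [Complex.ofReal_re]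
      have h1 : c / Real.log Q ≤ 1 / 10 := by
        rw [div_le_iff₀ hlQ]
        linarith
      linarith
    · rw [Complex.ofReal_im, abs_zero]
      exact hT0
  have hmem1 : (β1 : ℂ) ∈ Z x1.2 ((Q : ℝ) ^ 30) := by
    rw [mem_Z]
    refine ⟨?_, ?_, hx1z⟩
    · rw [Complex.ofReal_re]
      have h1 : c / Real.log Q0 ≤ 1 / 10 := by
        rw [div_le_iff₀ hlQ0]
        linarith
      linarith
    · rw [Complex.ofReal_im, abs_zero]
      exact hT0
  have hr : 1 - c1 / Real.log Q < (β : ℂ).re := by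
    rw [Complex.ofReal_re]
    have h1 : c / Real.log Q < c1 / Real.log Q := div_lt_div_of_pos_right hcc hlQ
    linarith
  have hr1 : 1 - c1 / Real.log Q < (β1 : ℂ).re := by
    rw [Complex.ofReal_re]
    rw [lt_div_iff₀ hδ0] at hlQu
    have h1 : δ < c1 / Real.log Q := by
      rw [lt_div_iff₀ hlQ]
      linarith
    rw [hδ] at h1
    linarith
  have hlt : x.1 < Q := by
    have := hxm.1
    unfold md at this
    omega
  have hlt1 : x1.1 < Q := by
    have := hx1m.1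
    unfold md at this
    omega
  have heq := rho_eq ((hZ Q hQ2).2 x.1 hlt x1.1 hlt1 x.2 x1.2 hxm.2 hx1m.2 β hmem β1 hmem1 hr hr1)
  have heq' : β = β1 := by exact_mod_cast heq
  have hlast : c / Real.log Q < δ := by
    rw [div_lt_iff₀ hδ0] at hlQl
    rw [div_lt_iff₀ hlQ]
    linarith
  rw [heq'] at hxl
  linarith

end Pool.Agent.Lib.GMV
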