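import Pool.Agent.Lib.GMV.Core
import Pool.Agent.Lib.GMV.NoExc
import Pool.Agent.Lib.GMV.ExBig

/-!
# GMV.Fin2: consequences of the main theorem
-/

set_option autoImplicit false

open Finset Filter

namespace Pool.Agent.Lib.GMV

open Pool.Agent.HLB Pool.Agent.HLT Pool.Agent.HLR

/-- The Hardy-Littlewood inequality with relative error `e`. -/
def Good (r X : ℕ) (e : ℝ) (a : Fin r → ℕ) : Prop :=
  ∀ y : ℕ, y ≤ X →
    |(((Icc 1 y).filter (fun n => ∀ i, (n + c0 a i).Prime)).card : ℝ) -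
        SI (c0 a) * ∑ n ∈ Icc 2 y, ∏ i, (Real.log (n + c0 a i))⁻¹| ≤
        e * (SI (c0 a) * X / Real.log X ^ (r + 1))

/-- All but at most `E` of the admissible tuples satisfy `P`. -/
def AB (r X : ℕ) (E : ℝ) (P : (Fin r → ℕ) → Prop) : Prop :=
  ∃ F : Finset (Fin r → ℕ), (F.card : ℝ) ≤ E ∧
    ∀ a ∈ Tup r (range (X + 1)), a ∉ F → Function.Injective (c0 a) →
      (∀ p : ℕ, p.Prime → nuI (c0 a) p < p) → P a

namespace Fin2Aux

/-- The floor of a power. -/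
lemma floor_pow_facts (κ : ℝ) (hκ : 0 < κ) (s : ℝ) : ∃ X0 : ℕ, ∀ X : ℕ, X0 ≤ X →
    Real.exp (Real.sqrt (Real.log X)) ≤ (⌊(X : ℝ) ^ κ⌋₊ : ℝ) ∧ (⌊(X : ℝ) ^ κ⌋₊ : ℝ) ≤ (X : ℝ) ^ κ ∧
    s ≤ (⌊(X : ℝ) ^ κ⌋₊ : ℝ) ∧ 1 ≤ X ∧
    (⌊(X : ℝ) ^ κ⌋₊ : ℝ) ^ (-(1 / 5 : ℝ)) ≤ (X : ℝ) ^ (-(κ / 10)) ∧
    0 < Real.log (⌊(X : ℝ) ^ κ⌋₊ : ℝ) ∧ Real.log (⌊(X : ℝ) ^ κ⌋₊ : ℝ) ≤ κ * Real.log X := by
  have h1 : Tendsto (fun X : ℕ => (X : ℝ) ^ κ) atTop atTop :=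
    (tendsto_rpow_atTop hκ).comp tendsto_natCast_atTop_atTop
  have h2 : Tendsto (fun X : ℕ => Real.log (X : ℝ)) atTop atTop :=
    Real.tendsto_log_atTop.comp tendsto_natCast_atTop_atTop
  have h3 : Tendsto (fun X : ℕ => Real.sqrt (Real.log (X : ℝ))) atTop atTop :=
    Real.tendsto_sqrt_atTop.comp h2
  obtain ⟨N, hN⟩ := eventually_atTop.1 (((h1.eventually_ge_atTop (max 4 (s + 1))).and
    (h3.eventually_ge_atTop (2 / κ + 1))).and (eventually_ge_atTop 1))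
  refine ⟨N, fun X hX => ?_⟩
  obtain ⟨⟨hA, hB⟩, hX1⟩ := hN X hX
  have hX0 : (0 : ℝ) < X := by exact_mod_cast hX1
  set y : ℝ := (X : ℝ) ^ κ with hy
  have hy4 : 4 ≤ y := (le_max_left _ _).trans hA
  have hys : s + 1 ≤ y := (le_max_right _ _).trans hA
  have hfl : y - 1 ≤ (⌊y⌋₊ : ℝ) := by
    have := Nat.lt_floor_add_one y
    linarith
  have hfu : (⌊y⌋₊ : ℝ) ≤ y := Nat.floor_le (by linarith)
  have hy2 : y / 2 ≤ (⌊y⌋₊ : ℝ) := by linarith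
  have hf3 : 3 ≤ (⌊y⌋₊ : ℝ) := by linarith
  refine ⟨?_, hfu, by linarith, hX1, ?_, Real.log_pos (by linarith), ?_⟩
  · refine le_trans ?_ hy2
    have hL0 : 0 ≤ Real.log X := Real.log_natCast_nonneg X
    have hsq : Real.sqrt (Real.log X) ^ 2 = Real.log X := Real.sq_sqrt hL0
    have hκs : 2 + κ ≤ κ * Real.sqrt (Real.log X) := by
      have := mul_le_mul_of_nonneg_left hB hκ.le
      have e : κ * (2 / κ + 1) = 2 + κ := by field_simp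
      linarith
    have hs1 : 1 ≤ Real.sqrt (Real.log X) := by
      have : 0 < 2 / κ := by positivity
      linarith
    have h5 : 2 * Real.sqrt (Real.log X) ≤ κ * Real.log X := by
      have h51 : (2 + κ) * Real.sqrt (Real.log X) ≤ κ * Real.sqrt (Real.log X) ^ 2 := by
        nlinarith
      rw [hsq] at h51
      nlinarith
    have hlog2 : Real.log 2 ≤ 1 := by
      have := Real.log_two_lt_d9
      linarith
    rw [le_div_iff₀ (by norm_num : (0 : ℝ) < 2)]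
    have e2 : y = Real.exp (κ * Real.log X) := by
      rw [hy, Real.rpow_def_of_pos hX0, mul_comm]
    rw [e2]
    calc Real.exp (Real.sqrt (Real.log X)) * 2
        = Real.exp (Real.sqrt (Real.log X) + Real.log 2) := by
          rw [Real.exp_add, Real.exp_log (by norm_num)]
      _ ≤ Real.exp (κ * Real.log X) := Real.exp_le_exp.mpr (by linarith)
  · have h6 : (⌊y⌋₊ : ℝ) ^ (-(1 / 5 : ℝ)) ≤ (y / 2) ^ (-(1 / 5 : ℝ)) :=
      Real.rpow_le_rpow_of_nonpos (by linarith) hy2 (by norm_num)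
    refine h6.trans ?_
    have e3 : (X : ℝ) ^ (-(κ / 10)) = y ^ (-(1 / 10 : ℝ)) := by
      rw [hy, ← Real.rpow_mul hX0.le]
      congr 1
      ring
    rw [e3]
    have hy0 : 0 < y := by linarith
    have h7 : (y / 2) ^ (-(1 / 5 : ℝ)) ≤ (y ^ (1 / 2 : ℝ)) ^ (-(1 / 5 : ℝ)) := by
      apply Real.rpow_le_rpow_of_nonpos (by positivity) _ (by norm_num)
      have h8 : y ^ (1 / 2 : ℝ) * y ^ (1 / 2 : ℝ) = y := by
        rw [← Real.rpow_add hy0]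
        norm_num
      have h9 : 2 ≤ y ^ (1 / 2 : ℝ) := by
        have h10 : (4 : ℝ) ^ (1 / 2 : ℝ) ≤ y ^ (1 / 2 : ℝ) :=
          Real.rpow_le_rpow (by norm_num) hy4 (by norm_num)
        have h11 : (4 : ℝ) ^ (1 / 2 : ℝ) = 2 := by
          rw [show (4 : ℝ) = 2 ^ (2 : ℝ) by norm_num, ← Real.rpow_mul (by norm_num)]
          norm_num
        linarith
      have h12 : 0 ≤ y ^ (1 / 2 : ℝ) := by positivity
      nlinarith
    refine h7.trans (le_of_eq ?_)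
    rw [← Real.rpow_mul hy0.le]
    congr 1
    norm_num
  · have h13 := Real.log_le_log (by linarith) hfu
    rwa [hy, Real.log_rpow hX0] at h13

lemma er_le {a κ : ℝ} {X Q : ℕ} (ha : 0 < a) (hκ : 0 < κ) (hQ : 0 < Real.log Q)
    (h : Real.log Q ≤ κ * Real.log X) : Er a X Q ≤ Real.exp (-(a / κ)) := by
  unfold Er
  apply Real.exp_le_exp.mpr
  rw [neg_le_neg_iff, div_le_div_iff₀ hκ hQ]
  nlinarith

lemma small_exp (a C ε : ℝ) (ha : 0 < a) (hε : 0 < ε) (c2 : ℝ) (hc2 : 0 < c2) :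
    ∃ κ : ℝ, 0 < κ ∧ κ ≤ c2 ∧ C * Real.exp (-(a / κ)) ≤ ε := by
  have h1 : Tendsto (fun s : ℝ => C * Real.exp (-(a * s))) atTop (nhds (C * 0)) := by
    refine Tendsto.const_mul C ?_
    refine Real.tendsto_exp_neg_atTop_nhds_zero.comp ?_
    exact tendsto_id.const_mul_atTop ha
  rw [mul_zero] at h1
  obtain ⟨s, hs1, hs2⟩ := ((h1.eventually (gt_mem_nhds hε)).and
    (eventually_ge_atTop (1 / c2))).exists
  have hs0 : 0 < s := lt_of_lt_of_le (by positivity) hs2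
  refine ⟨1 / s, by positivity, ?_, ?_⟩
  · rw [div_le_iff₀ hs0]
    rw [div_le_iff₀ hc2] at hs2
    linarith
  · have e : a / (1 / s) = a * s := by field_simp
    rw [e]
    exact hs1.le

end Fin2Aux

open Fin2Aux

/-- For every `X`: the main theorem with `Q = ⌊X ^ κ⌋`. -/
theorem fin_all (r : ℕ) (hr : 1 ≤ r) (c1 c : ℝ) (hZ : ZFree c1) (hc : 0 < c) (hcc : c < c1) :
    ∃ C : ℝ, 0 < C ∧ ∀ ε : ℝ, 0 < ε → ∀ κ0 : ℝ, 0 < κ0 → ∃ κ : ℝ, 0 < κ ∧ κ ≤ κ0 ∧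
      ∀ Q0 : ℝ, ∃ X0 : ℕ, ∀ X : ℕ, X0 ≤ X →
      ∃ q : ℕ, ExMod c ⌊(X : ℝ) ^ κ⌋₊ q ∧ (⌊(X : ℝ) ^ κ⌋₊ : ℝ) ≤ (X : ℝ) ^ κ ∧
        Q0 ≤ (⌊(X : ℝ) ^ κ⌋₊ : ℝ) ∧
        AB r X ((X : ℝ) ^ ((r : ℝ) - κ / 10)) fun a => Good r X (ε + C * Gq q (c0 a)) a := by
  obtain ⟨a, C, c2, ha, hC, hc2, X1, hcore⟩ := core r hr c1 c hZ hc hcc
  refine ⟨C, hC, fun ε hε κ0 hκ0 => ?_⟩
  obtain ⟨κ, hκ, hκ2, hκe⟩ := small_exp a C ε ha hε (min c2 κ0) (lt_min hc2 hκ0)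
  refine ⟨κ, hκ, hκ2.trans (min_le_right _ _), fun Q0 => ?_⟩
  obtain ⟨X2, hX2⟩ := floor_pow_facts κ hκ Q0
  refine ⟨max X1 X2, fun X hX => ?_⟩
  obtain ⟨f1, f2, f3, f4, f5, f6, f7⟩ := hX2 X ((le_max_right _ _).trans hX)
  have hX1 : (1 : ℝ) ≤ X := by exact_mod_cast f4
  have hle : (⌊(X : ℝ) ^ κ⌋₊ : ℝ) ≤ (X : ℝ) ^ c2 :=
    f2.trans (Real.rpow_le_rpow_of_exponent_le hX1 (hκ2.trans (min_le_left _ _)))
  obtain ⟨q, hq, F, hF, hgood⟩ := hcore X _ ((le_max_left _ _).trans hX) f1 hle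
  refine ⟨q, hq, f2, f3, F, hF.trans ?_, fun a' h1 h2 h3 h4 y hy => ?_⟩
  · have hX0 : (0 : ℝ) < X := by linarith
    calc (X : ℝ) ^ r * (⌊(X : ℝ) ^ κ⌋₊ : ℝ) ^ (-(1 / 5 : ℝ))
        ≤ (X : ℝ) ^ r * (X : ℝ) ^ (-(κ / 10)) := mul_le_mul_of_nonneg_left f5 (by positivity)
      _ = (X : ℝ) ^ ((r : ℝ) - κ / 10) := by
          rw [← Real.rpow_natCast, ← Real.rpow_add hX0]
          rfl
  · refine (hgood a' h1 h2 h3 h4 y hy).trans ?_
    have hlog : 0 ≤ Real.log X ^ (r + 1) := pow_nonneg (Real.log_nonneg hX1) _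
    have hM : 0 ≤ SI (c0 a') * X / Real.log X ^ (r + 1) :=
      div_nonneg (mul_nonneg (SI_nonneg _ h3) (by linarith)) hlog
    have hEr := er_le ha hκ f6 f7
    have : C * (Er a X ⌊(X : ℝ) ^ κ⌋₊ + Gq q (c0 a')) ≤ ε + C * Gq q (c0 a') := by
      rw [mul_add]
      have := mul_le_mul_of_nonneg_left hEr hC.le
      linarith
    calc C * (SI (c0 a') * X / Real.log X ^ (r + 1)) * (Er a X ⌊(X : ℝ) ^ κ⌋₊ + Gq q (c0 a'))
        = C * (Er a X ⌊(X : ℝ) ^ κ⌋₊ + Gq q (c0 a')) *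
          (SI (c0 a') * X / Real.log X ^ (r + 1)) := by ring
      _ ≤ _ := mul_le_mul_of_nonneg_right this hM

/-- Arbitrarily large `X`. -/
theorem fin_inf (r : ℕ) (hr : 1 ≤ r) (c1 : ℝ) (hZ : ZFree c1) (hc1 : 0 < c1) :
    ∀ ε : ℝ, 0 < ε → ∃ δ : ℝ, 0 < δ ∧ ∀ N : ℕ, ∃ X : ℕ, N ≤ X ∧
      AB r X ((X : ℝ) ^ ((r : ℝ) - δ)) fun a => Good r X ε a := by
  intro ε hε
  obtain ⟨C, hC, h⟩ := fin_all r hr c1 (c1 / 2) hZ (by linarith) (by linarith)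
  obtain ⟨κ, hκ, -, h2⟩ := h ε hε 1 one_pos
  obtain ⟨X0, h3⟩ := h2 0
  refine ⟨κ / 10, by positivity, fun N => ?_⟩
  obtain ⟨X, hX, hno⟩ := noExc c1 (c1 / 2) κ hZ (by linarith) (by linarith) hκ (max N X0)
  obtain ⟨q, hq, -, -, hAB⟩ := h3 X ((le_max_right _ _).trans hX)
  have hq0 : q = 0 := by
    rcases hq with ⟨h0, -⟩ | ⟨xe, β, he, -⟩
    · exact h0
    · exact absurd he (hno xe β)
  refine ⟨X, (le_max_left _ _).trans hX, ?_⟩
  obtain ⟨F, hF, hgood⟩ := hAB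
  refine ⟨F, hF, fun a h4 h5 h6 h7 => ?_⟩
  have h8 : Good r X (ε + C * Gq q (c0 a)) a := hgood a h4 h5 h6 h7
  have e : Gq q (c0 a) = 0 := by
    unfold Gq
    rw [if_pos hq0]
  rwa [e, mul_zero, add_zero] at h8

/-- All large `X`, tuples whose differences have no divisor in `(w, X ^ κ]`. -/
theorem fin_div (r : ℕ) (hr : 1 ≤ r) (c1 : ℝ) (hZ : ZFree c1) (hc1 : 0 < c1) :
    ∀ ε : ℝ, 0 < ε → ∀ κ0 : ℝ, 0 < κ0 → ∀ w : ℕ, ∃ δ : ℝ, 0 < δ ∧ ∃ X0 : ℕ, ∀ X : ℕ, X0 ≤ X →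
      AB r X ((X : ℝ) ^ ((r : ℝ) - δ)) fun a =>
        (∃ d : ℕ, d ∣ Del (c0 a) ∧ w < d ∧ (d : ℝ) ≤ (X : ℝ) ^ κ0) ∨ Good r X ε a := by
  intro ε hε κ0 hκ0 w
  obtain ⟨C, hC, h⟩ := fin_all r hr c1 (c1 / 2) hZ (by linarith) (by linarith)
  obtain ⟨κ, hκ, hκκ, h2⟩ := h (ε / 2) (by linarith) κ0 hκ0
  -- the size of the exceptional modulus
  have hlim : Tendsto (fun m : ℕ => C * ((m : ℝ) / (w + 1)) ^ (-(1 / 4 : ℝ))) atTop (nhds (C * 0)) := by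
    refine Tendsto.const_mul C ?_
    refine (tendsto_rpow_neg_atTop (by norm_num : (0 : ℝ) < 1 / 4)).comp ?_
    exact (tendsto_natCast_atTop_atTop).atTop_div_const (by positivity)
  rw [mul_zero] at hlim
  obtain ⟨m, hm1, hm2⟩ := ((hlim.eventually (gt_mem_nhds (half_pos hε))).and
    (eventually_ge_atTop 1)).exists
  obtain ⟨Q0, hQ0⟩ := exBig (c1 / 2) m
  obtain ⟨X0, h3⟩ := h2 Q0
  refine ⟨κ / 10, by positivity, max X0 1, fun X hX => ?_⟩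
  obtain ⟨q, hq, hf2, hf3, F, hF, hgood⟩ := h3 X ((le_max_left _ _).trans hX)
  have hX1 : (1 : ℝ) ≤ X := by exact_mod_cast (le_max_right _ _).trans hX
  refine ⟨F, hF, fun a h4 h5 h6 h7 => ?_⟩
  by_cases hd : ∃ d : ℕ, d ∣ Del (c0 a) ∧ w < d ∧ (d : ℝ) ≤ (X : ℝ) ^ κ0
  · exact Or.inl hd
  · right
    have hg : Good r X (ε / 2 + C * Gq q (c0 a)) a := hgood a h4 h5 h6 h7
    -- `C * Gq ≤ ε / 2`
    have hG : C * Gq q (c0 a) ≤ ε / 2 := by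
      unfold Gq
      split_ifs with h0
      · rw [mul_zero]; linarith
      · rcases hq with ⟨h0', -⟩ | ⟨xe, β, he, hqe⟩
        · exact absurd h0' h0
        · have hQ : Q0 ≤ ⌊(X : ℝ) ^ κ⌋₊ := by exact_mod_cast hf3
          have hbig : m < q := by
            rw [hqe]
            exact hQ0 _ hQ xe β he
          have hqQ : q ≤ ⌊(X : ℝ) ^ κ⌋₊ := by
            rw [hqe]
            exact (mem_Ch.1 he.1).1
          set g := Nat.gcd q (Del (c0 a)) with hgd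
          have hgpos : 0 < g := Nat.gcd_pos_of_pos_left _ (Nat.pos_of_ne_zero h0)
          have hgw : g ≤ w := by
            by_contra hcon
            refine hd ⟨g, Nat.gcd_dvd_right _ _, not_le.mp hcon, ?_⟩
            have h8' : g ≤ q := Nat.le_of_dvd (Nat.pos_of_ne_zero h0) (Nat.gcd_dvd_left _ _)
            have h8 : (g : ℝ) ≤ q := by exact_mod_cast h8'
            have h9 : (q : ℝ) ≤ (⌊(X : ℝ) ^ κ⌋₊ : ℝ) := by exact_mod_cast hqQ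
            exact h8.trans (h9.trans (hf2.trans
              (Real.rpow_le_rpow_of_exponent_le hX1 hκκ)))
          have hm0 : (0 : ℝ) < m := by exact_mod_cast hm2
          have hg0 : (0 : ℝ) < g := by exact_mod_cast hgpos
          have h10 : (m : ℝ) / (w + 1) ≤ (q : ℝ) / (g : ℝ) := by
            have h11 : (g : ℝ) ≤ w + 1 := by
              have : (g : ℝ) ≤ w := by exact_mod_cast hgw
              linarith
            have h12 : (m : ℝ) ≤ q := by exact_mod_cast hbig.le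
            exact div_le_div₀ (by positivity) h12 hg0 h11
          have h13 : ((q : ℝ) / (g : ℝ)) ^ (-(1 / 4 : ℝ)) ≤ ((m : ℝ) / (w + 1)) ^ (-(1 / 4 : ℝ)) :=
            Real.rpow_le_rpow_of_nonpos (by positivity) h10 (by norm_num)
          calc C * ((q : ℝ) / (g : ℝ)) ^ (-(1 / 4 : ℝ))
              ≤ C * ((m : ℝ) / (w + 1)) ^ (-(1 / 4 : ℝ)) := mul_le_mul_of_nonneg_left h13 hC.le
            _ ≤ ε / 2 := hm1.le
    intro y hy
    refine (hg y hy).trans ?_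
    have hlog : 0 ≤ Real.log X ^ (r + 1) := pow_nonneg (Real.log_nonneg hX1) _
    have hM : 0 ≤ SI (c0 a) * X / Real.log X ^ (r + 1) :=
      div_nonneg (mul_nonneg (SI_nonneg _ h6) (by linarith)) hlog
    exact mul_le_mul_of_nonneg_right (by linarith) hM

end Pool.Agent.Lib.GMV
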