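import Pool.Agent.Lib.GMV.FMain

/-!
# GMV.PMc (1 h): the explicit formula for `Mc` (primes only)

PROOF. `explicit_formula` (FMain) is the same formula with `vw Λ` in place of `W = vw lp`. (`Rg (1/1000) X Q` gives `log X ≤ 4 (log Q)^2` and
`Q^1000 ≤ X`.) The difference of the two sums is at most `∑_{m < 4X} Kf U (m-n) (Λ m - lp m)`, `0 ≤ Kf ≤ 1/U`, `U = X/Q^5 ≥ X/(2 Q^5)`,
`Λ - lp ≥ 0` supported on the proper prime powers: `∑_{m<4X} (Λ m - lp m) = ψ - θ ≤ C √X log X` (Mathlib `Chebyshev`, or the lemma used in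
GMV.Minor), so it is `≤ 2 Q^5/X · C √X log X ≤ Q^(-3)` for `X ≥ X0` (`Q^1000 ≤ X`).
-/

set_option autoImplicit false

open MeasureTheory

namespace Pool.Agent.Lib.GMV

namespace PMcAux

open Finset

theorem Kf_nonneg (U : ℕ) (d : ℤ) : 0 ≤ Kf U d := by
  unfold Kf
  exact div_nonneg (le_max_left _ _) (by positivity)

theorem Kf_le (U : ℕ) (d : ℤ) : Kf U d ≤ 1 / U := by
  unfold Kf
  rcases Nat.eq_zero_or_pos U with h | h
  · subst h
    simp
  have hU : (0 : ℝ) < U := by exact_mod_cast h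
  rw [div_le_div_iff₀ (by positivity) hU]
  have h1 : max 0 ((U : ℝ) - |(d : ℝ)|) ≤ U := max_le hU.le (by linarith [abs_nonneg (d : ℝ)])
  nlinarith

theorem lp_le (m : ℕ) : Pool.Agent.HLT.lp m ≤ ArithmeticFunction.vonMangoldt m := by
  unfold Pool.Agent.HLT.lp
  split_ifs with h
  · rw [ArithmeticFunction.vonMangoldt_apply_prime h]
  · exact ArithmeticFunction.vonMangoldt_nonneg

theorem sum_diff {X : ℕ} (hX : 1 ≤ X) :
    ∑ m ∈ range (4 * X), (ArithmeticFunction.vonMangoldt m - Pool.Agent.HLT.lp m) ≤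
      4 * Real.sqrt X * Real.log (4 * X) := by
  have hXr : (1 : ℝ) ≤ X := by exact_mod_cast hX
  have h1 := Chebyshev.psi_sub_theta_le (x := ((4 * X : ℕ) : ℝ)) (by push_cast; linarith)
  rw [Chebyshev.psi_sub_theta_eq_sum_not_prime, Nat.floor_natCast] at h1
  have h2 : ∑ m ∈ range (4 * X), (ArithmeticFunction.vonMangoldt m - Pool.Agent.HLT.lp m) ≤
      ∑ m ∈ (Ioc 0 (4 * X)).filter (fun n => ¬ n.Prime), ArithmeticFunction.vonMangoldt m := by
    have h3 : ∀ m ∈ range (4 * X), ArithmeticFunction.vonMangoldt m - Pool.Agent.HLT.lp m =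
        if (0 < m ∧ ¬ m.Prime) then ArithmeticFunction.vonMangoldt m else 0 := by
      intro m _
      unfold Pool.Agent.HLT.lp
      by_cases hp : m.Prime
      · rw [if_pos hp, if_neg (fun h => h.2 hp), ArithmeticFunction.vonMangoldt_apply_prime hp,
          sub_self]
      · rw [if_neg hp, sub_zero]
        rcases Nat.eq_zero_or_pos m with h0 | h0
        · subst h0
          simp
        · rw [if_pos ⟨h0, hp⟩]
    rw [Finset.sum_congr rfl h3, ← Finset.sum_filter]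
    apply Finset.sum_le_sum_of_subset_of_nonneg
    · intro m hm
      rw [mem_filter, mem_range] at hm
      rw [mem_filter, mem_Ioc]
      exact ⟨⟨hm.2.1, hm.1.le⟩, hm.2.2⟩
    · intro m _ _
      exact ArithmeticFunction.vonMangoldt_nonneg
  refine h2.trans (h1.trans (le_of_eq ?_))
  push_cast
  rw [Real.sqrt_mul (by norm_num), show Real.sqrt 4 = 2 by
    rw [show (4 : ℝ) = 2 ^ 2 by norm_num]; exact Real.sqrt_sq (by norm_num)]
  ring

end PMcAux

open PMcAux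

theorem mc_formula : ∃ (C : ℝ) (X0 : ℕ), 0 < C ∧ ∀ X Q : ℕ, X0 ≤ X → Rg (1 / 1000) X Q →
    ∀ x ∈ Ch Q, ∀ (n : ℕ) (E : Finset ℂ), E ⊆ Z x.2 ((Q : ℝ) ^ 30) →
    ‖Mc X Q x n - (if x.2 = 1 then ∫ t, (wtF X Q n t : ℂ) else 0) +
        ∑ ρ ∈ E, (mul x.2 ρ : ℂ) * ∫ t, (wtF X Q n t : ℂ) * (t : ℂ) ^ (ρ - 1)‖ ≤
      C * (∑ ρ ∈ Z x.2 ((Q : ℝ) ^ 30) \ E, (mul x.2 ρ : ℝ) * ((X : ℝ) / Q) ^ (ρ.re - 1)) +
        C * (1 + ∑ ρ ∈ E, (mul x.2 ρ : ℝ)) / (Q : ℝ) ^ 3 := by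
  obtain ⟨C, X1, hC⟩ := explicit_formula
  refine ⟨max C 0 + 1, max X1 4, by positivity, ?_⟩
  intro X Q hX hR x hx n E hE
  have hXX1 : X1 ≤ X := (le_max_left _ _).trans hX
  have hX4 : 4 ≤ X := (le_max_right _ _).trans hX
  have hX4r : (4 : ℝ) ≤ X := by exact_mod_cast hX4
  have hX0 : (0 : ℝ) < X := by linarith
  obtain ⟨hR1, hR2⟩ := hR
  have hlX : 0 < Real.log X := Real.log_pos (by linarith)
  have hQ1r : (1 : ℝ) < Q := by
    refine lt_of_lt_of_le ?_ hR1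
    rw [Real.one_lt_exp_iff]
    have := Real.sqrt_pos.2 hlX
    linarith
  have hQ0r : (0 : ℝ) < Q := by linarith
  have hQ2 : 2 ≤ Q := by
    have : 1 < Q := by exact_mod_cast hQ1r
    omega
  have hQ2r : (2 : ℝ) ≤ Q := by exact_mod_cast hQ2
  have hL : Real.log X ≤ 4 * Real.log Q ^ 2 := by
    have h1 : Real.sqrt (Real.log X) / 2 ≤ Real.log Q := by
      rw [Real.le_log_iff_exp_le hQ0r]
      exact hR1
    have h2 : Real.sqrt (Real.log X) ≤ 2 * Real.log Q := by linarith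
    calc Real.log X = (Real.sqrt (Real.log X)) ^ 2 := (Real.sq_sqrt hlX.le).symm
      _ ≤ (2 * Real.log Q) ^ 2 := by
        have := Real.sqrt_nonneg (Real.log X)
        gcongr
      _ = _ := by ring
  have hQX : Q ^ 1000 ≤ X := by
    have h1 : (Q : ℝ) ^ 1000 ≤ X := by
      calc (Q : ℝ) ^ 1000 ≤ ((X : ℝ) ^ (1 / 1000 : ℝ)) ^ 1000 := by gcongr
        _ = (X : ℝ) := by
          rw [← Real.rpow_natCast, ← Real.rpow_mul hX0.le]
          norm_num
    exact_mod_cast h1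
  have hmain := hC X Q hXX1 hL hQX x hx n E hE
  obtain ⟨hU1, hU2, hU0⟩ := FMainAux.half hQ2 hQX
  -- the difference of the two sums
  obtain ⟨A, hA⟩ : ∃ A : ℂ, A = ∑ m ∈ Finset.range (4 * X),
      ((Kf (X / Q ^ 5) ((m : ℤ) - n) *
        (vw X Q m * ArithmeticFunction.vonMangoldt m) : ℝ) : ℂ) * cv x m := ⟨_, rfl⟩
  have hdiff : ‖Mc X Q x n - A‖ ≤ 1 / (Q : ℝ) ^ 3 := by
    have h1 : Mc X Q x n - A = ∑ m ∈ Finset.range (4 * X),
        ((Kf (X / Q ^ 5) ((m : ℤ) - n) *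
          (vw X Q m * (Pool.Agent.HLT.lp m - ArithmeticFunction.vonMangoldt m)) : ℝ) : ℂ) *
            cv x m := by
      rw [hA]
      unfold Mc cn W
      rw [← Finset.sum_sub_distrib]
      refine Finset.sum_congr rfl fun m _ => ?_
      push_cast
      ring
    have h2 : ∀ m ∈ Finset.range (4 * X),
        ‖((Kf (X / Q ^ 5) ((m : ℤ) - n) *
          (vw X Q m * (Pool.Agent.HLT.lp m - ArithmeticFunction.vonMangoldt m)) : ℝ) : ℂ) *
            cv x m‖ ≤ (1 / ((X / Q ^ 5 : ℕ) : ℝ)) *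
              (ArithmeticFunction.vonMangoldt m - Pool.Agent.HLT.lp m) := by
      intro m _
      have h3 : 0 ≤ ArithmeticFunction.vonMangoldt m - Pool.Agent.HLT.lp m :=
        sub_nonneg.2 (lp_le m)
      rw [norm_mul, Complex.norm_real, norm_mul, norm_mul, Real.norm_of_nonneg (Kf_nonneg _ _),
        Real.norm_of_nonneg (vw_nonneg _ _ _), norm_sub_rev, Real.norm_of_nonneg h3]
      have h4 : vw X Q m * (ArithmeticFunction.vonMangoldt m - Pool.Agent.HLT.lp m) ≤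
          ArithmeticFunction.vonMangoldt m - Pool.Agent.HLT.lp m :=
        mul_le_of_le_one_left h3 (vw_le_one _ _ _)
      have h5 : 0 ≤ vw X Q m * (ArithmeticFunction.vonMangoldt m - Pool.Agent.HLT.lp m) :=
        mul_nonneg (vw_nonneg _ _ _) h3
      calc Kf (X / Q ^ 5) ((m : ℤ) - n) *
            (vw X Q m * (ArithmeticFunction.vonMangoldt m - Pool.Agent.HLT.lp m)) * ‖cv x m‖
          ≤ Kf (X / Q ^ 5) ((m : ℤ) - n) *
            (vw X Q m * (ArithmeticFunction.vonMangoldt m - Pool.Agent.HLT.lp m)) * 1 := by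
            apply mul_le_mul_of_nonneg_left (norm_cv_le x m)
            exact mul_nonneg (Kf_nonneg _ _) h5
        _ ≤ (1 / ((X / Q ^ 5 : ℕ) : ℝ)) *
              (ArithmeticFunction.vonMangoldt m - Pool.Agent.HLT.lp m) := by
            rw [mul_one]
            exact mul_le_mul (Kf_le _ _) h4 h5 (by positivity)
    rw [h1]
    refine (norm_sum_le _ _).trans ((Finset.sum_le_sum h2).trans ?_)
    rw [← Finset.mul_sum]
    have h6 := sum_diff (X := X) (by omega)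
    have hUpos : (0 : ℝ) < ((X / Q ^ 5 : ℕ) : ℝ) := by exact_mod_cast hU0
    have hlog4 : Real.log (4 * X) ≤ 2 * Real.log X := by
      rw [Real.log_mul (by norm_num) hX0.ne']
      have : Real.log 4 ≤ Real.log X := Real.log_le_log (by norm_num) hX4r
      linarith
    have hlogQ : Real.log Q ≤ Q := (Real.log_le_sub_one_of_pos hQ0r).trans (by linarith)
    have hlogQ0 : 0 ≤ Real.log Q := Real.log_nonneg hQ1r.le
    have hlog5 : Real.log (4 * X) ≤ 8 * (Q : ℝ) ^ 2 := by nlinarith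
    have hlog40 : 0 ≤ Real.log (4 * X) := Real.log_nonneg (by linarith)
    have hsX : (Q : ℝ) ^ 500 ≤ Real.sqrt X := by
      apply Real.le_sqrt_of_sq_le
      rw [← pow_mul]
      exact_mod_cast hQX
    have hsX0 : 0 < Real.sqrt X := Real.sqrt_pos.2 hX0
    have hinv : 1 / ((X / Q ^ 5 : ℕ) : ℝ) ≤ 2 * (Q : ℝ) ^ 5 / X := by
      rw [div_le_div_iff₀ hUpos hX0]
      rw [div_le_iff₀ (by positivity)] at hU1
      linarith
    calc 1 / ((X / Q ^ 5 : ℕ) : ℝ) *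
          ∑ m ∈ Finset.range (4 * X), (ArithmeticFunction.vonMangoldt m - Pool.Agent.HLT.lp m)
        ≤ 2 * (Q : ℝ) ^ 5 / X * (4 * Real.sqrt X * (8 * (Q : ℝ) ^ 2)) := by
          apply mul_le_mul hinv (h6.trans ?_) ?_ (by positivity)
          · exact mul_le_mul_of_nonneg_left hlog5 (by positivity)
          · exact Finset.sum_nonneg fun m _ => sub_nonneg.2 (lp_le m)
      _ = 64 * (Q : ℝ) ^ 7 / Real.sqrt X := by
          have h7 : (X : ℝ) = Real.sqrt X * Real.sqrt X := (Real.mul_self_sqrt hX0.le).symm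
          rw [div_mul_eq_mul_div, div_eq_div_iff hX0.ne' hsX0.ne']
          calc _ = 64 * (Q : ℝ) ^ 7 * (Real.sqrt X * Real.sqrt X) := by ring
            _ = _ := by rw [← h7]
      _ ≤ 1 / (Q : ℝ) ^ 3 := by
          rw [div_le_div_iff₀ hsX0 (by positivity)]
          have h8 : (64 : ℝ) ≤ (Q : ℝ) ^ 6 := by
            calc (64 : ℝ) = 2 ^ 6 := by norm_num
              _ ≤ (Q : ℝ) ^ 6 := by gcongr
          calc 64 * (Q : ℝ) ^ 7 * (Q : ℝ) ^ 3 ≤ (Q : ℝ) ^ 6 * (Q : ℝ) ^ 7 * (Q : ℝ) ^ 3 := by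
                gcongr
            _ = (Q : ℝ) ^ 16 := by ring
            _ ≤ (Q : ℝ) ^ 500 := pow_le_pow_right₀ hQ1r.le (by norm_num)
            _ ≤ 1 * Real.sqrt X := by rw [one_mul]; exact hsX
  rw [← hA] at hmain
  have hZ0 : 0 ≤ ∑ ρ ∈ Z x.2 ((Q : ℝ) ^ 30) \ E, (mul x.2 ρ : ℝ) * ((X : ℝ) / Q) ^ (ρ.re - 1) :=
    Finset.sum_nonneg fun ρ _ => by positivity
  have hE0 : 0 ≤ ∑ ρ ∈ E, (mul x.2 ρ : ℝ) := Finset.sum_nonneg fun ρ _ => by positivity
  have hCm : C ≤ max C 0 := le_max_left _ _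
  have hC0 : 0 ≤ max C 0 := le_max_right _ _
  have hsplit : Mc X Q x n - (if x.2 = 1 then ∫ t, (wtF X Q n t : ℂ) else 0) +
        ∑ ρ ∈ E, (mul x.2 ρ : ℂ) * ∫ t, (wtF X Q n t : ℂ) * (t : ℂ) ^ (ρ - 1) =
      (Mc X Q x n - A) + (A - (if x.2 = 1 then ∫ t, (wtF X Q n t : ℂ) else 0) +
        ∑ ρ ∈ E, (mul x.2 ρ : ℂ) * ∫ t, (wtF X Q n t : ℂ) * (t : ℂ) ^ (ρ - 1)) := by ring
  rw [hsplit]
  refine (norm_add_le _ _).trans ((add_le_add hdiff hmain).trans ?_)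
  have hw : 0 < 1 / (Q : ℝ) ^ 3 := by positivity
  generalize (∑ ρ ∈ Z x.2 ((Q : ℝ) ^ 30) \ E, (mul x.2 ρ : ℝ) *
    ((X : ℝ) / Q) ^ (ρ.re - 1)) = sZ at *
  generalize (∑ ρ ∈ E, (mul x.2 ρ : ℝ)) = sE at *
  have e1 : C * (1 + sE) / (Q : ℝ) ^ 3 = C * (1 + sE) * (1 / (Q : ℝ) ^ 3) := by ring
  have e2 : (max C 0 + 1) * (1 + sE) / (Q : ℝ) ^ 3 =
      (max C 0 + 1) * (1 + sE) * (1 / (Q : ℝ) ^ 3) := by ring
  rw [e1, e2]
  generalize 1 / (Q : ℝ) ^ 3 = w at *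
  have h1 : C * sZ ≤ (max C 0 + 1) * sZ := mul_le_mul_of_nonneg_right (by linarith) hZ0
  have h2 : C * (1 + sE) * w ≤ max C 0 * (1 + sE) * w :=
    mul_le_mul_of_nonneg_right (mul_le_mul_of_nonneg_right hCm (by linarith)) hw.le
  have h3 : w ≤ (1 + sE) * w := by nlinarith
  nlinarith

end Pool.Agent.Lib.GMV
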