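import Pool.Agent.Lib.GMV.FMain

/-!
# GMV.PWt (0.8 h): integrals of the weight `wtF X Q n`

`wtF X Q n x = tri U n x * vw X Q x`, `U = X / Q ^ 5 ≥ 1`.

PROOF. `tri U n x ≥ 0`, `= 0` outside `[n-U, n+U]`, integral one (`integral_tri`, `FMainAux.integral_line`), `0 ≤ vw ≤ 1`: (1), (2).
`wtF_one`: for `|t - n| ≤ U ≤ X/Q`: `t Q/X - 1 ≥ (n Q - X)/X - 1 ≥ 1` and `2Q + 1 - t Q/X ≥ 2Q + 1 - (n Q + X)/X ≥ 1`, so `vw = 1` there.
(`U Q ≤ X/Q^4 ≤ X`; careful: `3X ≤ nQ` gives `tQ ≥ 3X - UQ ≥ 2X`.) `wtF_pow`: `vw X Q t = 0` for `t ≤ X/Q` (`FMainAux.vw_left`), and for `t > X/Q > 0`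
`‖t^(β-1)‖ = t^(β-1) ≤ (X/Q)^(β-1)` because `β ≤ 1` (`Complex.norm_cpow_eq_rpow_re_of_pos`); `norm_integral_le_of_norm_le` with (1), (2).
Integrability: continuous with compact support (`FMainAux.vw_continuous`, `tri_continuous`).
-/

set_option autoImplicit false

open MeasureTheory

namespace Pool.Agent.Lib.GMV

namespace PWtAux

theorem line_real {U y : ℝ} {f : ℝ → ℝ} (hf : ∀ x, U ≤ |x - y| → f x = 0) :
    ∫ x, f x = ∫ x in (y - U)..(y + U), f x := by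
  rw [intervalIntegral.integral_eq_integral_of_support_subset]
  intro x hx
  have h1 : ¬ U ≤ |x - y| := fun h => hx (hf x h)
  rw [not_le, abs_lt] at h1
  exact ⟨by linarith [h1.1], by linarith [h1.2]⟩

theorem width {X Q : ℕ} (hQ : 2 ≤ Q) (hX : Q ^ 6 ≤ X) :
    (0 : ℝ) < ((X / Q ^ 5 : ℕ) : ℝ) ∧ ((X / Q ^ 5 : ℕ) : ℝ) * Q ≤ X := by
  have hQ0 : 0 < Q ^ 5 := by positivity
  have h1 : Q ^ 5 ≤ X := le_trans (Nat.pow_le_pow_right (by omega) (by norm_num)) hX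
  have h2 : 1 ≤ X / Q ^ 5 := (Nat.one_le_div_iff hQ0).2 h1
  refine ⟨by exact_mod_cast h2, ?_⟩
  have h3 : X / Q ^ 5 * Q ≤ X := by
    calc X / Q ^ 5 * Q ≤ X / Q ^ 5 * Q ^ 5 :=
          Nat.mul_le_mul_left _ (Nat.le_self_pow (by norm_num) Q)
      _ ≤ X := Nat.div_mul_le_self _ _
  exact_mod_cast h3

theorem wt_zero {X Q n : ℕ} (x : ℝ) (h : ((X / Q ^ 5 : ℕ) : ℝ) ≤ |x - n|) : wtF X Q n x = 0 := by
  unfold wtF
  rw [tri_eq_zero h, zero_mul]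

end PWtAux

open PWtAux FMainAux

theorem wtF_mem (X Q n : ℕ) (hQ : 2 ≤ Q) (hX : Q ^ 6 ≤ X) :
    0 ≤ ∫ t, wtF X Q n t ∧ ∫ t, wtF X Q n t ≤ 1 := by
  obtain ⟨hU, -⟩ := width hQ hX
  refine ⟨integral_nonneg fun t => mul_nonneg (tri_nonneg _ _ _) (vw_nonneg _ _ _), ?_⟩
  rw [line_real (U := ((X / Q ^ 5 : ℕ) : ℝ)) (y := n) (fun x hx => wt_zero x hx)]
  have h1 := intervalIntegral.integral_mono_on (a := (n : ℝ) - ((X / Q ^ 5 : ℕ) : ℝ))
    (b := (n : ℝ) + ((X / Q ^ 5 : ℕ) : ℝ)) (μ := volume) (f := fun t => wtF X Q n t)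
    (g := fun t => tri ((X / Q ^ 5 : ℕ) : ℝ) n t) (by linarith)
    (((tri_continuous _ _).mul (vw_continuous X Q)).intervalIntegrable _ _)
    ((tri_continuous _ _).intervalIntegrable _ _)
    (fun t _ => mul_le_of_le_one_right (tri_nonneg _ _ _) (vw_le_one _ _ _))
  rwa [integral_tri hU] at h1

theorem wtF_one (X Q n : ℕ) (hQ : 2 ≤ Q) (hX : Q ^ 6 ≤ X) (h1 : 3 * X ≤ n * Q)
    (h2 : n * Q + X ≤ 2 * X * Q) : ∫ t, wtF X Q n t = 1 := by
  obtain ⟨hU, hUQ⟩ := width hQ hX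
  have hX0 : (0 : ℝ) < X := by
    have : 0 < X := lt_of_lt_of_le (by positivity) hX
    exact_mod_cast this
  have hQ0 : (0 : ℝ) < Q := by
    have : 0 < Q := by omega
    exact_mod_cast this
  have h1' : 3 * (X : ℝ) ≤ n * Q := by exact_mod_cast h1
  have h2' : (n : ℝ) * Q + X ≤ 2 * X * Q := by exact_mod_cast h2
  rw [line_real (U := ((X / Q ^ 5 : ℕ) : ℝ)) (y := n) (fun x hx => wt_zero x hx),
    ← integral_tri hU (n : ℝ)]
  refine intervalIntegral.integral_congr fun t ht => ?_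
  rw [Set.uIcc_of_le (by linarith)] at ht
  have hv : vw X Q t = 1 := by
    unfold vw
    have e1 : 2 * (X : ℝ) ≤ t * Q := by nlinarith [ht.1]
    have e2 : t * Q ≤ 2 * X * Q := by nlinarith [ht.2]
    have g1 : 1 ≤ t * Q / X - 1 := by
      rw [le_sub_iff_add_le, le_div_iff₀ hX0]
      linarith
    have g2 : 1 ≤ 2 * (Q : ℝ) + 1 - t * Q / X := by
      have : t * Q / X ≤ 2 * Q := by
        rw [div_le_iff₀ hX0]
        linarith
      linarith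
    rw [min_eq_left (le_min g1 g2)]
    exact max_eq_right zero_le_one
  unfold wtF
  rw [hv, mul_one]

theorem wtF_pow (X Q n : ℕ) (hQ : 2 ≤ Q) (hX : Q ^ 6 ≤ X) (β : ℝ) (hβ : β ≤ 1) :
    ‖∫ t, (wtF X Q n t : ℂ) * (t : ℂ) ^ ((β : ℂ) - 1)‖ ≤ ((X : ℝ) / Q) ^ (β - 1) := by
  obtain ⟨hU, -⟩ := width hQ hX
  have hX0 : (0 : ℝ) < X := by
    have : 0 < X := lt_of_lt_of_le (by positivity) hX
    exact_mod_cast this
  have hQ0 : (0 : ℝ) < Q := by
    have : 0 < Q := by omega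
    exact_mod_cast this
  have hXQ : 0 < (X : ℝ) / Q := by positivity
  rw [integral_line (U := ((X / Q ^ 5 : ℕ) : ℝ)) (y := n)
    (fun x hx => by rw [wt_zero x hx]; simp)]
  have h1 : ∀ t : ℝ, (wtF X Q n t : ℂ) * (t : ℂ) ^ ((β : ℂ) - 1) =
      (tri ((X / Q ^ 5 : ℕ) : ℝ) n t : ℂ) * ((vw X Q t : ℂ) * (t : ℂ) ^ ((β : ℂ) - 1)) := by
    intro t
    unfold wtF
    push_cast
    ring
  simp only [h1]
  apply norm_tri_integral hU
  intro t _
  rcases le_or_gt (t * Q) X with h | h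
  · rw [vw_left h]
    simp only [Complex.ofReal_zero, zero_mul, norm_zero]
    positivity
  · have ht : (X : ℝ) / Q < t := by
      rw [div_lt_iff₀ hQ0]
      exact h
    rw [norm_mul, Complex.norm_real, Real.norm_of_nonneg (vw_nonneg _ _ _),
      Complex.norm_cpow_eq_rpow_re_of_pos (hXQ.trans ht)]
    simp only [Complex.sub_re, Complex.ofReal_re, Complex.one_re]
    calc vw X Q t * t ^ (β - 1) ≤ 1 * t ^ (β - 1) :=
          mul_le_mul_of_nonneg_right (vw_le_one _ _ _)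
            (Real.rpow_nonneg (hXQ.trans ht).le _)
      _ = t ^ (β - 1) := one_mul _
      _ ≤ ((X : ℝ) / Q) ^ (β - 1) :=
          Real.rpow_le_rpow_of_nonpos hXQ ht.le (by linarith)

end Pool.Agent.Lib.GMV
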