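import Pool.Agent.Lib.GMV.Defs
import Pool.Agent.Lib.SW.HalfPlane
import Pool.Agent.Lib.P4f18dfV.HalfPlane
import Pool.Agent.Lib.VK.ZeroFree

/-!
# Growth of the L-functions near the line `Re s = 1`

PROOF. `Lf_two_lower`: for `Re s = 2`, `‖L(s, χ)‖ ≥ 1/2` (`VK.ZF.lower` with `x = 1`).
`Lf χ s = L(s, χ)` for `χ ≠ 1` and `(s - 1) L(s, χ)` for `χ = 1`, `‖s - 1‖ ≥ 1`.
`Lf_growth`: if `χ ≠ 1`: `‖L(z, χ)‖ ≤ 2 q ‖z‖` for `Re z ≥ 1/2` (`SW.LFunction_bound`), and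
`‖z‖ ≤ |t| + 7/2 ≤ 4 T`. If `χ = 1` is primitive then `q = 1` (`DirichletCharacter.conductor_one`,
`χ.IsPrimitive` means `χ.conductor = q`), `Lf 1 = LFunctionTrivChar₁ 1 = P4f18dfV.zE`, and
`‖zE s‖ ≤ C (1 + ‖s‖)^2` for `Re s ≥ 1/4` (`P4f18dfV.zE_half`). In both cases
`‖Lf χ z‖ ≤ C' (q T)^2 ≤ exp (C log (q T)) / 3` with `q T ≥ 2`.
-/

namespace Pool.Agent.Lib.GMV

open Complex Metric

theorem Lf_two_lower {q : ℕ} [NeZero q] (χ : DirichletCharacter ℂ q) (t : ℝ) :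
    1 / 3 ≤ ‖Lf χ (2 + t * I)‖ := by
  have hre : ((2 : ℂ) + t * I).re = 1 + 1 := by simp; norm_num
  have h1 : (1 : ℝ) / 2 ≤ ‖DirichletCharacter.LFunction χ (2 + t * I)‖ :=
    Pool.Agent.VK.ZF.lower χ one_pos le_rfl hre
  by_cases hχ : χ = 1
  · subst hχ
    have hs : ((2 : ℂ) + t * I) ≠ 1 := by
      intro h
      have := congrArg Complex.re h
      rw [hre] at this
      norm_num at this
    rw [Lf_one_apply q hs, norm_mul]
    have h2 : 1 ≤ ‖(2 : ℂ) + t * I - 1‖ := by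
      refine le_trans ?_ (Complex.abs_re_le_norm _)
      rw [Complex.sub_re, hre]
      norm_num
    calc (1 : ℝ) / 3 ≤ 1 * (1 / 2) := by norm_num
      _ ≤ _ := mul_le_mul h2 h1 (by norm_num) (norm_nonneg _)
  · rw [Lf_of_ne hχ]
    exact le_trans (by norm_num) h1

namespace FGrowAux

lemma ball_facts {t T : ℝ} (ht : |t| ≤ T) (hT : 2 ≤ T) {z : ℂ}
    (hz : z ∈ closedBall ((2 : ℂ) + t * I) (3 / 2)) : 1 / 2 ≤ z.re ∧ ‖z‖ ≤ 3 * T := by
  rw [mem_closedBall, dist_eq_norm] at hz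
  constructor
  · have h1 := (Complex.abs_re_le_norm (z - (2 + t * I))).trans hz
    have h2 : (z - (2 + t * I)).re = z.re - 2 := by simp
    rw [h2] at h1
    have := (abs_le.mp h1).1
    linarith
  · have h1 : ‖z‖ ≤ ‖z - (2 + t * I)‖ + ‖(2 : ℂ) + t * I‖ := by
      have := norm_add_le (z - (2 + t * I)) (2 + t * I)
      rwa [sub_add_cancel] at this
    have h2 : ‖(2 : ℂ) + t * I‖ ≤ 2 + |t| := by
      refine (norm_add_le _ _).trans ?_
      rw [norm_mul, Complex.norm_I, mul_one, Complex.norm_real, Real.norm_eq_abs]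
      norm_num
    linarith

lemma exp_aux {K x : ℝ} {n : ℕ} (hK : K ≤ 2 ^ n) (hx : 2 ≤ x) :
    K * x ^ 2 ≤ Real.exp (((n : ℝ) + 2) * Real.log x) := by
  have hx0 : 0 < x := by linarith
  have h1 : Real.exp (((n : ℝ) + 2) * Real.log x) = x ^ n * x ^ 2 := by
    rw [← pow_add, mul_comm, ← Real.rpow_def_of_pos hx0, ← Real.rpow_natCast]
    push_cast
    rfl
  rw [h1]
  refine mul_le_mul_of_nonneg_right (hK.trans ?_) (by positivity)
  gcongr

end FGrowAux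

open FGrowAux in
theorem Lf_growth : ∃ C : ℝ, 1 ≤ C ∧ ∀ (q : ℕ) [NeZero q] (χ : DirichletCharacter ℂ q) (t T : ℝ),
    χ.IsPrimitive → |t| ≤ T → 2 ≤ T → ∀ z ∈ closedBall ((2 : ℂ) + t * I) (3 / 2),
      ‖Lf χ z‖ ≤ Real.exp (C * Real.log (q * T)) * ‖Lf χ (2 + t * I)‖ := by
  obtain ⟨C0, hC0, hzE⟩ := Pool.Agent.P4f18dfV.zE_half
  obtain ⟨n, hn⟩ := pow_unbounded_of_one_lt (48 * C0 + 18) (one_lt_two : (1 : ℝ) < 2)
  refine ⟨(n : ℝ) + 2, by have := n.cast_nonneg (α := ℝ); linarith, ?_⟩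
  intro q _ χ t T hprim ht hT z hz
  obtain ⟨hre, hnz⟩ := ball_facts ht hT hz
  have hq1 : (1 : ℝ) ≤ q := by exact_mod_cast Nat.one_le_iff_ne_zero.mpr (NeZero.ne q)
  have hqT : 2 ≤ q * T := by nlinarith
  have hlow := Lf_two_lower χ t
  have hE : 0 < Real.exp (((n : ℝ) + 2) * Real.log (q * T)) := Real.exp_pos _
  suffices h : ‖Lf χ z‖ * 3 ≤ Real.exp (((n : ℝ) + 2) * Real.log (q * T)) by
    calc ‖Lf χ z‖ ≤ Real.exp (((n : ℝ) + 2) * Real.log (q * T)) * (1 / 3) := by linarith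
      _ ≤ _ := mul_le_mul_of_nonneg_left hlow hE.le
  have hexp := exp_aux (K := 48 * C0 + 18) (n := n) hn.le hqT
  refine le_trans ?_ hexp
  by_cases hχ : χ = 1
  · have hq : q = 1 := by
      rw [DirichletCharacter.isPrimitive_def] at hprim
      rw [← hprim, hχ]
      exact DirichletCharacter.conductor_one
    subst hq
    subst hχ
    rw [Lf_one]
    have h1 := hzE z (by linarith)
    have h2 : (1 + ‖z‖) ^ 2 ≤ (4 * T) ^ 2 := by
      have := norm_nonneg z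
      gcongr
      linarith
    have h3 : ‖DirichletCharacter.LFunctionTrivChar₁ 1 z‖ ≤ C0 * (4 * T) ^ 2 :=
      h1.trans (mul_le_mul_of_nonneg_left h2 hC0.le)
    push_cast
    nlinarith [sq_nonneg T]
  · rw [Lf_of_ne hχ]
    have h1 := Pool.Agent.Lib.SW.LFunction_bound χ hχ z hre
    have h2 : 2 * (q : ℝ) * ‖z‖ ≤ 6 * (q * T) := by nlinarith
    have h3 : 18 * (q * T) ≤ (48 * C0 + 18) * (q * T) ^ 2 := by
      have h4 : q * T ≤ (q * T) ^ 2 := by nlinarith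
      have h5 : 18 * (q * T) ≤ 18 * (q * T) ^ 2 := by linarith
      have h6 : 0 ≤ 48 * C0 * (q * T) ^ 2 := by positivity
      nlinarith
    linarith

end Pool.Agent.Lib.GMV
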