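import Pool.Agent.Lib.GMV.FLoc
import Pool.Agent.Lib.GMV.FGrow

/-!
# Counting zeros

PROOF. `count_loc`: `loc_count` with `M = C log (q T)` (`Lf_growth`), `Lf χ (2 + t i) ≠ 0`.
`count_Z`: every `ρ ∈ Z χ T` lies in the closed ball of centre `2 + j i`, `j = round (Im ρ)`, radius
`5/4`: `|Re ρ - 2| ≤ 11/10` (`9/10 ≤ Re ρ < 1`), `|Im ρ - j| ≤ 1/2`, `121/100 + 1/4 ≤ 25/16`. Split
`Z χ T` in the fibres of `j` (`|j| ≤ T + 1`, at most `2 T + 3 ≤ 4 T` values), use `count_loc` with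
`T + 1 ≤ 2 T`, `log (q (2 T)) ≤ 2 log (q T)` (`q T ≥ 2`).
-/

namespace Pool.Agent.Lib.GMV

open Complex Metric

theorem count_loc : ∃ C : ℝ, 1 ≤ C ∧ ∀ (q : ℕ) [NeZero q] (χ : DirichletCharacter ℂ q) (t T : ℝ),
    χ.IsPrimitive → |t| ≤ T → 2 ≤ T → ∀ S : Finset ℂ,
      (∀ ρ ∈ S, ρ ∈ closedBall ((2 : ℂ) + t * I) (5 / 4)) →
      ∑ ρ ∈ S, (mul χ ρ : ℝ) ≤ C * Real.log (q * T) := by
  obtain ⟨C, hC, hg⟩ := Lf_growth
  refine ⟨6 * C, by linarith, ?_⟩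
  intro q _ χ t T hprim ht hT S hS
  have hc : Lf χ (2 + t * I) ≠ 0 := by
    intro h
    have := Lf_two_lower χ t
    rw [h, norm_zero] at this
    norm_num at this
  have h := loc_count (Lf_differentiable χ) hc (hg q χ t T hprim ht hT) S hS
  unfold mul
  calc _ ≤ 6 * (C * Real.log (q * T)) := h
    _ = _ := by ring

namespace FCntAux

lemma mem_ball {ρ : ℂ} (h1 : 9 / 10 ≤ ρ.re) (h2 : ρ.re < 1) :
    ρ ∈ closedBall ((2 : ℂ) + ((round ρ.im : ℤ) : ℝ) * I) (5 / 4) := by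
  rw [mem_closedBall, dist_eq_norm]
  have h3 := abs_sub_round ρ.im
  have hre : (ρ - (2 + ((round ρ.im : ℤ) : ℝ) * I)).re = ρ.re - 2 := by simp
  have him : (ρ - (2 + ((round ρ.im : ℤ) : ℝ) * I)).im = ρ.im - round ρ.im := by simp
  have h4 : ‖ρ - (2 + ((round ρ.im : ℤ) : ℝ) * I)‖ ^ 2 ≤ (5 / 4) ^ 2 := by
    rw [← Complex.normSq_eq_norm_sq, Complex.normSq_apply, hre, him]
    have h5 : (ρ.im - round ρ.im) * (ρ.im - round ρ.im) ≤ 1 / 4 := by
      have := abs_le.mp h3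
      nlinarith
    nlinarith
  exact le_of_sq_le_sq h4 (by norm_num)

end FCntAux

open FCntAux in
theorem count_Z : ∃ C : ℝ, 1 ≤ C ∧ ∀ (q : ℕ) [NeZero q] (χ : DirichletCharacter ℂ q) (T : ℝ),
    χ.IsPrimitive → 2 ≤ T → ∑ ρ ∈ Z χ T, (mul χ ρ : ℝ) ≤ C * T * Real.log (q * T) := by
  obtain ⟨C, hC, hcount⟩ := count_loc
  refine ⟨8 * C, by linarith, ?_⟩
  intro q _ χ T hprim hT
  have hq1 : (1 : ℝ) ≤ q := by exact_mod_cast Nat.one_le_iff_ne_zero.mpr (NeZero.ne q)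
  have hqT : 2 ≤ q * T := by nlinarith
  set J : Finset ℤ := Finset.Icc (-(⌊T⌋ + 1)) (⌊T⌋ + 1) with hJ
  have hmaps : ∀ ρ ∈ Z χ T, round ρ.im ∈ J := by
    intro ρ hρ
    have h2 := abs_le.mp (mem_Z.mp hρ).2.1
    have h3 := abs_le.mp (abs_sub_round ρ.im)
    have hT1 := Int.lt_floor_add_one T
    rw [hJ, Finset.mem_Icc]
    constructor
    · have : (-(⌊T⌋ + 1) : ℝ) - 1 < round ρ.im := by linarith
      have h4 : (-(⌊T⌋ + 1) : ℤ) - 1 < round ρ.im := by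
        have h5 : ((-(⌊T⌋ + 1) - 1 : ℤ) : ℝ) < (round ρ.im : ℝ) := by
          push_cast
          linarith
        exact_mod_cast h5
      omega
    · have h5 : ((round ρ.im : ℤ) : ℝ) < ((⌊T⌋ + 1 + 1 : ℤ) : ℝ) := by
        push_cast
        linarith
      have h6 : round ρ.im < ⌊T⌋ + 1 + 1 := by exact_mod_cast h5
      omega
  rw [← Finset.sum_fiberwise_of_maps_to hmaps]
  have hlog : Real.log (q * (2 * T)) ≤ 2 * Real.log (q * T) := by
    have h1 : Real.log (q * (2 * T)) ≤ Real.log ((q * T) ^ 2) := by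
      apply Real.log_le_log (by positivity)
      nlinarith
    rwa [Real.log_pow, Nat.cast_ofNat] at h1
  have hlog0 : 0 ≤ Real.log (q * T) := Real.log_nonneg (by linarith)
  have hfib : ∀ j ∈ J, ∑ ρ ∈ Z χ T with round ρ.im = j, (mul χ ρ : ℝ) ≤
      2 * C * Real.log (q * T) := by
    intro j hj
    rw [hJ, Finset.mem_Icc] at hj
    have hfl := Int.floor_le T
    have hj1 : |(j : ℝ)| ≤ 2 * T := by
      rw [abs_le]
      have h1 : ((-(⌊T⌋ + 1) : ℤ) : ℝ) ≤ j := by exact_mod_cast hj.1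
      have h2 : (j : ℝ) ≤ ((⌊T⌋ + 1 : ℤ) : ℝ) := by exact_mod_cast hj.2
      push_cast at h1 h2
      constructor <;> linarith
    have h := hcount q χ j (2 * T) hprim hj1 (by linarith) ((Z χ T).filter fun ρ => round ρ.im = j)
      (by
        intro ρ hρ
        rw [Finset.mem_filter] at hρ
        have h1 := mem_ball (mem_Z.mp hρ.1).1 (re_lt_one_of_mem_Z hρ.1)
        rw [hρ.2] at h1
        exact h1)
    calc _ ≤ C * Real.log (q * (2 * T)) := h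
      _ ≤ C * (2 * Real.log (q * T)) := mul_le_mul_of_nonneg_left hlog (by linarith)
      _ = _ := by ring
  have hcard : (J.card : ℝ) ≤ 4 * T := by
    rw [hJ, Int.card_Icc]
    have h0 : 0 ≤ ⌊T⌋ := Int.floor_nonneg.mpr (by linarith)
    have h1 : (((⌊T⌋ + 1 + 1 - -(⌊T⌋ + 1)).toNat : ℕ) : ℝ) = 2 * (⌊T⌋ : ℝ) + 3 := by
      have h2 : (((⌊T⌋ + 1 + 1 - -(⌊T⌋ + 1)).toNat : ℕ) : ℤ) = 2 * ⌊T⌋ + 3 := by
        rw [Int.toNat_of_nonneg (by omega)]
        ring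
      exact_mod_cast h2
    rw [h1]
    have := Int.floor_le T
    linarith
  calc ∑ j ∈ J, ∑ ρ ∈ Z χ T with round ρ.im = j, (mul χ ρ : ℝ)
      ≤ ∑ j ∈ J, 2 * C * Real.log (q * T) := Finset.sum_le_sum hfib
    _ = J.card * (2 * C * Real.log (q * T)) := by rw [Finset.sum_const, nsmul_eq_mul]
    _ ≤ 4 * T * (2 * C * Real.log (q * T)) :=
        mul_le_mul_of_nonneg_right hcard (by positivity)
    _ = 8 * C * T * Real.log (q * T) := by ring

end Pool.Agent.Lib.GMV
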