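import Pool.Agent.Lib.GMV.Model
import Pool.Agent.Lib.HLT.Geom

/-!
# GMV.Kern: the Fejer kernel (paper 2.1)

`Kh U t = |∑_{j<U} ex(j t)|² / U² = ∑_{|d|<U} Kf U d ex(d t)`.

PROOF. `kh_le_one`: triangle inequality. `kh_one_sub`: `U² - |∑ ex(j t)|² = ∑_{i,j<U} (1 - cos(2π (i-j) t)) ≤
∑ (2π (i-j) t)²/2 ≤ U² (2 π U t)²/2 ≤ 20 U² (U t)²`.  `kh_int`: `ex (j (t+k)) = ex (j t)`.
`kh_decay`: geometric sum, `|∑_{j<U} ex(j t)| ≤ 1/(2 ‖t‖)` (`HLT.geom`, which has the sum over `Icc 1 U`: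
multiply by `ex t`).
`kf_transform`: the substitution `d = n - m`: `∑_{n<N} Kf U (m-n) ex(n t) = ex(m t) ∑_{|d|<U} Kf U d ex(d t)`, since `U ≤ m`,
`m + U ≤ N`, and `#{(i,j) ∈ [0,U)² : i - j = d} = U - |d|`.
`ft_cn`: exchange the sums; `W X Q m ≠ 0` implies (`W_support`) `X < m Q` and `m Q < 2 X Q + X`, hence
`X/Q^5 ≤ m` and `m + X/Q^5 ≤ 4 X`.
`cn_eq_zero`: if `4 X ≤ n` or `n = 0` then `cn X Q g n = 0` (same support argument).
-/

set_option autoImplicit false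

open Finset Filter

namespace Pool.Agent.Lib.GMV

open Pool.Agent.HLB Pool.Agent.HLT Pool.Agent.HLR

namespace KernAux

lemma sum_Icc_shift (U : ℕ) (t : ℝ) :
    ∑ n ∈ Icc 1 U, ex (n * t) = ex t * ∑ j ∈ range U, ex (j * t) := by
  induction U with
  | zero => simp
  | succ U ih =>
    rw [sum_Icc_succ_top (by omega), sum_range_succ, ih, mul_add, ← ex_add]
    congr 2
    push_cast
    ring

lemma norm_sum_le_card (U : ℕ) (t : ℝ) : ‖∑ j ∈ range U, ex (j * t)‖ ≤ U := by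
  refine (norm_sum_le _ _).trans ?_
  simp only [norm_ex, sum_const, nsmul_eq_mul, mul_one, card_range, le_refl]

lemma ex_re (θ : ℝ) : (ex θ).re = Real.cos (2 * Real.pi * θ) := by
  unfold ex
  have h : (2 * Real.pi * θ * Complex.I : ℂ) = ((2 * Real.pi * θ : ℝ) : ℂ) * Complex.I := by
    push_cast
    ring
  rw [h, Complex.exp_ofReal_mul_I_re]

lemma sum_sq_le (U : ℕ) : ∑ j ∈ range U, (j : ℝ) ^ 2 ≤ (U : ℝ) ^ 3 / 3 := by
  induction U with
  | zero => simp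
  | succ U ih =>
    rw [sum_range_succ]
    push_cast
    have h : (0 : ℝ) ≤ U := Nat.cast_nonneg U
    nlinarith

lemma card_diff (U a b : ℕ) (h : a = 0 ∨ b = 0) :
    ((range U ×ˢ range U).filter (fun p : ℕ × ℕ => (p.1 : ℤ) - p.2 = (a : ℤ) - b)).card =
      U - (a + b) := by
  have h1 : (range U ×ˢ range U).filter (fun p : ℕ × ℕ => (p.1 : ℤ) - p.2 = (a : ℤ) - b) =
      (range (U - (a + b))).image (fun j => (j + a, j + b)) := by
    ext ⟨i, j⟩
    simp only [mem_filter, mem_product, mem_range, mem_image, Prod.mk.injEq]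
    constructor
    · rintro ⟨⟨h2, h3⟩, h4⟩
      refine ⟨i - a, by omega, by omega, by omega⟩
    · rintro ⟨c, h2, h3, h4⟩
      omega
  rw [h1, card_image_of_injective, card_range]
  intro x y hxy
  have := congrArg Prod.fst hxy
  simp only at this
  omega

lemma kf_card (U : ℕ) (d : ℤ) :
    Kf U d * (U : ℝ) ^ 2 =
      (((range U ×ˢ range U).filter (fun p : ℕ × ℕ => (p.1 : ℤ) - p.2 = d)).card : ℝ) := by
  rcases Nat.eq_zero_or_pos U with hU | hU
  · subst hU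
    simp
  have hU' : (0 : ℝ) < U := by exact_mod_cast hU
  obtain ⟨a, b, hab, hd⟩ : ∃ a b : ℕ, (a = 0 ∨ b = 0) ∧ d = (a : ℤ) - b :=
    ⟨d.toNat, (-d).toNat, by omega, by omega⟩
  have h1 : |(d : ℝ)| = ((a + b : ℕ) : ℝ) := by
    rw [hd]
    rcases hab with h | h
    · subst h
      push_cast
      rw [zero_sub, abs_neg, abs_of_nonneg (Nat.cast_nonneg b), zero_add]
    · subst h
      push_cast
      rw [sub_zero, abs_of_nonneg (Nat.cast_nonneg a), add_zero]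
  unfold Kf
  rw [div_mul_cancel₀ _ (pow_ne_zero 2 hU'.ne'), h1, hd, card_diff U a b hab]
  rcases le_total (a + b) U with h2 | h2
  · rw [Nat.cast_sub h2, max_eq_right]
    rw [sub_nonneg]
    exact_mod_cast h2
  · rw [Nat.sub_eq_zero_of_le h2, max_eq_left]
    · simp
    · rw [sub_nonpos]
      exact_mod_cast h2

lemma kf_eq_zero {U : ℕ} {d : ℤ} (h : (U : ℤ) ≤ |d|) : Kf U d = 0 := by
  unfold Kf
  have h1 : (U : ℝ) ≤ |(d : ℝ)| := by exact_mod_cast h
  rw [max_eq_left (by linarith), zero_div]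

lemma sup_facts {X Q m : ℕ} (hQ : 2 ≤ Q) (hX : Q ^ 5 ≤ X) (h : W X Q m ≠ 0) :
    X / Q ^ 5 ≤ m ∧ m + X / Q ^ 5 ≤ 4 * X := by
  have hQ5 : 0 < Q ^ 5 := by positivity
  have hX1 : 1 ≤ X := by omega
  obtain ⟨-, h1, h2⟩ := W_support hX1 h
  have h1' : X < m * Q := by exact_mod_cast h1
  have h2' : m * Q < 2 * X * Q + X := by exact_mod_cast h2
  constructor
  · have h3 : X / Q ^ 5 * Q ^ 5 ≤ X := Nat.div_mul_le_self _ _
    have h4 : X / Q ^ 5 * Q < m * Q := by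
      refine lt_of_le_of_lt (le_trans ?_ h3) h1'
      refine Nat.mul_le_mul_left _ ?_
      calc Q = Q ^ 1 := (pow_one Q).symm
        _ ≤ Q ^ 5 := Nat.pow_le_pow_right (by omega) (by norm_num)
    exact (Nat.lt_of_mul_lt_mul_right h4).le
  · have h5 : X / Q ^ 5 ≤ X := Nat.div_le_self _ _
    have h6 : 2 * m * Q < 5 * X * Q := by nlinarith
    have h7 : 2 * m < 5 * X := Nat.lt_of_mul_lt_mul_right h6
    omega

end KernAux

open KernAux

theorem kh_nonneg (U : ℕ) (t : ℝ) : 0 ≤ Kh U t := by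
  unfold Kh
  positivity

theorem kh_le_one (U : ℕ) (t : ℝ) : Kh U t ≤ 1 := by
  unfold Kh
  refine div_le_one_of_le₀ ?_ (by positivity)
  exact pow_le_pow_left₀ (norm_nonneg _) (norm_sum_le_card U t) 2

theorem kh_one_sub (U : ℕ) (hU : 1 ≤ U) (t : ℝ) : 1 - Kh U t ≤ 20 * ((U : ℝ) * t) ^ 2 := by
  have hU' : (0 : ℝ) < U := by exact_mod_cast hU
  obtain ⟨s, hs⟩ : ∃ s : ℝ, s = 2 * Real.pi ^ 2 * ((U : ℝ) * t) ^ 2 / 3 := ⟨_, rfl⟩
  have hpi : Real.pi ^ 2 ≤ 10 := by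
    have h1 := Real.pi_lt_d2
    have h2 := Real.pi_pos
    nlinarith
  have hpi0 : 0 < Real.pi ^ 2 := by
    have h2 := Real.pi_pos
    positivity
  have hx : 0 ≤ ((U : ℝ) * t) ^ 2 := sq_nonneg _
  have hs2 : 2 * s ≤ 20 * ((U : ℝ) * t) ^ 2 := by
    rw [hs]
    nlinarith
  rcases le_total 1 s with h | h
  · have := kh_nonneg U t
    linarith
  · have h1 : (U : ℝ) * (1 - s) ≤ ‖∑ j ∈ range U, ex (j * t)‖ := by
      refine le_trans ?_ (Complex.re_le_norm _)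
      rw [Complex.re_sum]
      have h2 : ∀ j ∈ range U, 1 - 2 * Real.pi ^ 2 * t ^ 2 * (j : ℝ) ^ 2 ≤ (ex (j * t)).re := by
        intro j _
        rw [ex_re]
        have h3 := Real.one_sub_sq_div_two_le_cos (x := 2 * Real.pi * (j * t))
        refine le_trans (le_of_eq ?_) h3
        ring
      refine le_trans ?_ (sum_le_sum h2)
      rw [sum_sub_distrib, ← mul_sum]
      simp only [sum_const, card_range, nsmul_eq_mul, mul_one]
      have h4 := mul_le_mul_of_nonneg_left (sum_sq_le U)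
        (by positivity : (0 : ℝ) ≤ 2 * Real.pi ^ 2 * t ^ 2)
      have h5 : 2 * Real.pi ^ 2 * t ^ 2 * ((U : ℝ) ^ 3 / 3) = U * s := by
        rw [hs]
        ring
      rw [h5] at h4
      linarith
    have h2 : (1 - s) ^ 2 ≤ Kh U t := by
      unfold Kh
      rw [le_div_iff₀ (by positivity), ← mul_pow]
      refine pow_le_pow_left₀ (mul_nonneg (by linarith) hU'.le) ?_ 2
      rw [mul_comm]
      exact h1
    nlinarith [sq_nonneg s]

theorem kh_int (U : ℕ) (t : ℝ) (k : ℤ) : Kh U (t + k) = Kh U t := by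
  unfold Kh
  have h : ∀ j ∈ range U, ex ((j : ℝ) * (t + k)) = ex (j * t) := by
    intro j _
    have h1 : (j : ℝ) * (t + k) = j * t + ((j * k : ℤ) : ℝ) := by
      push_cast
      ring
    rw [h1, ex_add_int]
  rw [sum_congr rfl h]

theorem kh_decay (U : ℕ) (hU : 1 ≤ U) (t : ℝ) (ht : 0 < nrm t) :
    Kh U t ≤ 1 / (4 * (U : ℝ) ^ 2 * nrm t ^ 2) := by
  have hU' : (0 : ℝ) < U := by exact_mod_cast hU
  have h1 := (geom U t).trans (mn_le_right hU'.le ht)
  rw [sum_Icc_shift, norm_mul, norm_ex, one_mul] at h1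
  unfold Kh
  have h2 := pow_le_pow_left₀ (norm_nonneg _) h1 2
  rw [div_le_iff₀ (by positivity)]
  refine h2.trans (le_of_eq ?_)
  field_simp
  ring

theorem kf_transform (m U N : ℕ) (hU : 1 ≤ U) (h1 : U ≤ m) (h2 : m + U ≤ N) (t : ℝ) :
    ∑ n ∈ range N, ((Kf U ((m : ℤ) - n) : ℝ) : ℂ) * ex (n * t) = (Kh U t : ℂ) * ex (m * t) := by
  have hU' : (U : ℂ) ≠ 0 := by
    have : U ≠ 0 := by omega
    exact_mod_cast this
  have hU2 : (U : ℂ) ^ 2 ≠ 0 := pow_ne_zero 2 hU'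
  have hl : (∑ n ∈ range N, ((Kf U ((m : ℤ) - n) : ℝ) : ℂ) * ex (n * t)) * (U : ℂ) ^ 2 =
      ∑ p ∈ range U ×ˢ range U, ex (((m + p.2 - p.1 : ℕ) : ℝ) * t) := by
    have hmap : ∀ p ∈ range U ×ˢ range U, m + p.2 - p.1 ∈ range N := by
      intro p hp
      rw [mem_product, mem_range, mem_range] at hp
      rw [mem_range]
      omega
    rw [← sum_fiberwise_of_maps_to hmap, sum_mul]
    refine sum_congr rfl fun n hn => ?_
    have h3 : ∀ p ∈ (range U ×ˢ range U).filter (fun p : ℕ × ℕ => m + p.2 - p.1 = n),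
        ex (((m + p.2 - p.1 : ℕ) : ℝ) * t) = ex (n * t) := by
      intro p hp
      rw [(mem_filter.1 hp).2]
    rw [sum_congr rfl h3, sum_const, nsmul_eq_mul]
    have h4 : (range U ×ˢ range U).filter (fun p : ℕ × ℕ => m + p.2 - p.1 = n) =
        (range U ×ˢ range U).filter (fun p : ℕ × ℕ => (p.1 : ℤ) - p.2 = (m : ℤ) - n) := by
      refine filter_congr fun p hp => ?_
      rw [mem_product, mem_range, mem_range] at hp
      omega
    have h5 := kf_card U ((m : ℤ) - n)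
    rw [← h4] at h5
    have h6 : ((Kf U ((m : ℤ) - n) : ℝ) : ℂ) * (U : ℂ) ^ 2 =
        (((range U ×ˢ range U).filter (fun p : ℕ × ℕ => m + p.2 - p.1 = n)).card : ℂ) := by
      exact_mod_cast congrArg (fun x : ℝ => (x : ℂ)) h5
    rw [← h6]
    ring
  have hr : (Kh U t : ℂ) * ex (m * t) * (U : ℂ) ^ 2 =
      ∑ p ∈ range U ×ˢ range U, ex (((m + p.2 - p.1 : ℕ) : ℝ) * t) := by
    have h3 : ∀ p ∈ range U ×ˢ range U, ex (((m + p.2 - p.1 : ℕ) : ℝ) * t) =
        ex (m * t) * ((starRingEnd ℂ) (ex (p.1 * t)) * ex (p.2 * t)) := by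
      intro p hp
      rw [mem_product, mem_range, mem_range] at hp
      rw [← ex_neg, ← ex_add, ← ex_add]
      congr 1
      rw [Nat.cast_sub (by omega)]
      push_cast
      ring
    rw [sum_congr rfl h3, ← mul_sum, sum_product]
    have h4 : ∑ i ∈ range U, ∑ j ∈ range U, (starRingEnd ℂ) (ex (i * t)) * ex (j * t) =
        (starRingEnd ℂ) (∑ i ∈ range U, ex (i * t)) * ∑ j ∈ range U, ex (j * t) := by
      rw [map_sum, sum_mul_sum]
    simp only
    rw [h4, mul_comm ((starRingEnd ℂ) _), Complex.mul_conj, Complex.normSq_eq_norm_sq]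
    unfold Kh
    rw [Complex.ofReal_div, Complex.ofReal_pow, Complex.ofReal_pow, Complex.ofReal_natCast,
      mul_right_comm, div_mul_cancel₀ _ hU2, mul_comm]
  have h3 := hl.trans hr.symm
  exact mul_right_cancel₀ hU2 h3

theorem ft_cn (X Q : ℕ) (hQ : 2 ≤ Q) (hX : Q ^ 5 ≤ X) (g : ℕ → ℂ) (t : ℝ) :
    ft (4 * X) (cn X Q g) t =
      (Kh (X / Q ^ 5) t : ℂ) * ft (4 * X) (fun m => (W X Q m : ℂ) * g m) t := by
  have hQ5 : 0 < Q ^ 5 := by positivity
  have hU : 1 ≤ X / Q ^ 5 := (Nat.one_le_div_iff hQ5).2 hX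
  unfold ft cn
  have h1 : ∀ n ∈ range (4 * X), (∑ m ∈ range (4 * X),
      ((Kf (X / Q ^ 5) ((m : ℤ) - n) * W X Q m : ℝ) : ℂ) * g m) * ex (n * t) =
      ∑ m ∈ range (4 * X), ((W X Q m : ℂ) * g m) *
        (((Kf (X / Q ^ 5) ((m : ℤ) - n) : ℝ) : ℂ) * ex (n * t)) := by
    intro n _
    rw [sum_mul]
    refine sum_congr rfl fun m _ => ?_
    push_cast
    ring
  rw [sum_congr rfl h1, sum_comm, mul_sum]
  refine sum_congr rfl fun m _ => ?_
  rw [← mul_sum]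
  by_cases hW : W X Q m = 0
  · simp only [hW, Complex.ofReal_zero, zero_mul, mul_zero]
  · obtain ⟨h2, h3⟩ := sup_facts hQ hX hW
    rw [kf_transform m (X / Q ^ 5) (4 * X) hU h2 h3 t]
    ring

theorem cn_eq_zero (X Q : ℕ) (hQ : 2 ≤ Q) (hX : Q ^ 5 ≤ X) (g : ℕ → ℂ) (n : ℕ)
    (hn : n = 0 ∨ 4 * X ≤ n) : cn X Q g n = 0 := by
  unfold cn
  refine sum_eq_zero fun m _ => ?_
  by_cases hW : W X Q m = 0
  · rw [hW]
    simp
  · obtain ⟨h2, h3⟩ := sup_facts hQ hX hW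
    have h4 : Kf (X / Q ^ 5) ((m : ℤ) - n) = 0 := by
      refine kf_eq_zero ?_
      rcases hn with hn | hn
      · subst hn
        rw [Nat.cast_zero, sub_zero, abs_of_nonneg (Nat.cast_nonneg m)]
        exact_mod_cast h2
      · rw [abs_sub_comm]
        refine le_trans ?_ (le_abs_self _)
        omega
    rw [h4]
    simp

end Pool.Agent.Lib.GMV
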