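import Pool.Agent.Lib.GMV.ZLan

/-!
# GMV.ZBox (0.7 h): the number of zeros in a small box

PROOF. `Lf_landau` at `s = 1 + x + i t`, `x = y/2`, for the subset of the zeros of `S` (the other points of `S` have order `0`,
`analyticOrderNatAt = 0` if `Lf χ ρ ≠ 0`). For a zero `ρ` of `S`: `Re ρ < 1` (`Lf_ne_zero`), `y/2 ≤ Re (s-ρ) ≤ 3y/2`,
`|s-ρ|^2 ≤ (9/4 + 1/4) y^2`, so `|s-ρ| ≤ 8/5 y ≤ 1/8` and `Re 1/(s-ρ) = Re (s-ρ)/|s-ρ|^2 ≥ 1/(5 y)`. Right side of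
`Lf_landau`: `≤ 4/y + C + C (log Q + log (2/y)) ≤ C' log Q` as `1/y ≤ log Q` (`log (2/y) ≤ log 2 + log log Q ≤ 2 log Q`, `Q ≥ 3`
follows from `1/log Q ≤ y ≤ 1/20`).
-/

set_option autoImplicit false

open Complex Finset

namespace Pool.Agent.Lib.GMV

theorem box_count : ∃ C : ℝ, 1 ≤ C ∧ ∀ (Q q : ℕ) [NeZero q] (χ : DirichletCharacter ℂ q)
    (y t : ℝ), 2 ≤ Q → q ≤ Q → |t| ≤ 2 * (Q : ℝ) ^ 30 + 1 → 1 / Real.log Q ≤ y → y ≤ 1 / 20 →
    ∀ S : Finset ℂ, (∀ ρ ∈ S, 1 - y ≤ ρ.re ∧ |ρ.im - t| ≤ y / 2) →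
      ∑ ρ ∈ S, (mul χ ρ : ℝ) ≤ C * (y * Real.log Q) := by
  classical
  obtain ⟨C, hC1, hC⟩ := Lf_landau
  obtain ⟨D, hD0, hD⟩ := Lf_logDeriv
  refine ⟨5 * (4 + D + 3 * C), by linarith, ?_⟩
  intro Q q _ χ y t hQ hq ht hy hy1 S hS
  have hQ2 : (2 : ℝ) ≤ Q := by exact_mod_cast hQ
  have hlog0 : 0 < Real.log Q := Real.log_pos (by linarith)
  have hy0 : 0 < y := lt_of_lt_of_le (by positivity) hy
  have hinv : 1 / y ≤ Real.log Q := by
    rw [div_le_iff₀ hlog0] at hy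
    rw [div_le_iff₀ hy0]
    linarith
  have hlog1 : 1 ≤ Real.log Q := by
    have : 1 ≤ 1 / y := by
      rw [le_div_iff₀ hy0]
      linarith
    linarith
  have hx0 : 0 < y / 2 := by linarith
  have hx1 : y / 2 ≤ 1 / 40 := by linarith
  set s : ℂ := ((1 + y / 2 : ℝ) : ℂ) + t * I with hs
  have hre : s.re = 1 + y / 2 := by simp [hs]
  have him : s.im = t := by simp [hs]
  set S' := S.filter (fun ρ => Lf χ ρ = 0) with hS'
  have hsum : ∑ ρ ∈ S, (mul χ ρ : ℝ) = ∑ ρ ∈ S', (mul χ ρ : ℝ) := by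
    symm
    apply Finset.sum_subset (Finset.filter_subset _ _)
    intro ρ hρ hρ'
    have hne : Lf χ ρ ≠ 0 := fun h => hρ' (Finset.mem_filter.2 ⟨hρ, h⟩)
    have h0 : analyticOrderAt (Lf χ) ρ = 0 :=
      analyticOrderAt_eq_zero.2 (Or.inr hne)
    simp [mul, analyticOrderNatAt, h0]
  have hgeo : ∀ ρ ∈ S', y / 2 ≤ (s - ρ).re ∧ (s - ρ).re ≤ 3 * y / 2 ∧ |(s - ρ).im| ≤ y / 2 := by
    intro ρ hρ
    obtain ⟨h1, h2⟩ := Finset.mem_filter.1 hρ
    obtain ⟨h3, h4⟩ := hS ρ h1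
    have h5 : ρ.re < 1 := by
      by_contra hh
      exact Lf_ne_zero χ (not_lt.mp hh) h2
    rw [Complex.sub_re, Complex.sub_im, hre, him, abs_sub_comm]
    exact ⟨by linarith, by linarith, h4⟩
  have hsq : ∀ ρ ∈ S', Complex.normSq (s - ρ) ≤ 5 / 2 * y ^ 2 := by
    intro ρ hρ
    obtain ⟨h1, h2, h3⟩ := hgeo ρ hρ
    rw [Complex.normSq_apply]
    have h4 : (s - ρ).im * (s - ρ).im ≤ (y / 2) * (y / 2) := by
      rw [← abs_mul_abs_self (s - ρ).im]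
      exact mul_le_mul h3 h3 (abs_nonneg _) hx0.le
    nlinarith
  have hland := hC Q q χ (y / 2) t hQ (hq.trans (Nat.le_self_pow (by norm_num) Q)) ht hx0 hx1 S'
    (by
      intro ρ hρ
      rw [← hs]
      have h1 := hsq ρ hρ
      rw [Complex.normSq_eq_norm_sq] at h1
      have h2 : ‖s - ρ‖ ^ 2 ≤ (8 / 5 * y) ^ 2 := by nlinarith
      have h3 := abs_le_of_sq_le_sq h2 (by linarith)
      linarith [le_abs_self ‖s - ρ‖])
  rw [← hs] at hland
  have hderiv : (deriv (Lf χ) s / Lf χ s).re ≤ 4 / y + D := by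
    have h1 := hD q χ s (y / 2) hx0 (by linarith) hre
    have h2 : 2 / (y / 2) = 4 / y := by
      field_simp
      norm_num
    rw [h2] at h1
    exact (Complex.re_le_norm _).trans h1
  have hterm : ∀ ρ ∈ S', (mul χ ρ : ℝ) * (1 / (5 * y)) ≤
      (analyticOrderNatAt (Lf χ) ρ : ℝ) * (1 / (s - ρ)).re := by
    intro ρ hρ
    obtain ⟨h1, h2, h3⟩ := hgeo ρ hρ
    have h4 := hsq ρ hρ
    apply mul_le_mul_of_nonneg_left _ (Nat.cast_nonneg _)
    have hpos : 0 < Complex.normSq (s - ρ) := by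
      apply Complex.normSq_pos.2
      intro h0
      rw [h0, Complex.zero_re] at h1
      linarith
    rw [one_div (s - ρ), Complex.inv_re, div_le_div_iff₀ (by positivity) hpos]
    nlinarith
  have hsum2 : (∑ ρ ∈ S', (mul χ ρ : ℝ)) * (1 / (5 * y)) ≤
      4 / y + D + C * (Real.log Q + Real.log (1 / (y / 2))) := by
    rw [Finset.sum_mul]
    exact (Finset.sum_le_sum hterm).trans (hland.trans (by linarith))
  have hlogy : Real.log (1 / (y / 2)) ≤ 2 * Real.log Q := by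
    have h1 : 1 / (y / 2) = 2 * (1 / y) := by
      field_simp
    rw [h1]
    have h2 : 0 < 2 * (1 / y) := by positivity
    have h3 := Real.log_le_sub_one_of_pos h2
    linarith
  have hbound : (∑ ρ ∈ S', (mul χ ρ : ℝ)) * (1 / (5 * y)) ≤ (4 + D + 3 * C) * Real.log Q := by
    refine hsum2.trans ?_
    have h1 : 4 / y = 4 * (1 / y) := by ring
    have h2 : D ≤ D * Real.log Q := le_mul_of_one_le_right hD0 hlog1
    have h3 : C * (Real.log Q + Real.log (1 / (y / 2))) ≤ C * (3 * Real.log Q) :=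
      mul_le_mul_of_nonneg_left (by linarith) (by linarith)
    rw [h1]
    nlinarith
  rw [hsum]
  have h5y : 0 < 5 * y := by linarith
  calc ∑ ρ ∈ S', (mul χ ρ : ℝ) = (∑ ρ ∈ S', (mul χ ρ : ℝ)) * (1 / (5 * y)) * (5 * y) := by
        field_simp
    _ ≤ (4 + D + 3 * C) * Real.log Q * (5 * y) := mul_le_mul_of_nonneg_right hbound h5y.le
    _ = 5 * (4 + D + 3 * C) * (y * Real.log Q) := by ring

end Pool.Agent.Lib.GMV
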