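import Pool.Agent.Lib.GMV.ZBnd
import Pool.Agent.Lib.GMV.FCnt

/-!
# GMV.ZLow (0.5 h): zeros of `ζ` of small height

PROOF. `low_zeta`: `count_Z` of GMV.FCnt (helper69): the sum is `≤ C T log T`. (Import Pool.Agent.Lib.GMV.FCnt.)
-/

set_option autoImplicit false

open Complex Finset

namespace Pool.Agent.Lib.GMV

/-- few zeros of `ζ` of small height -/
theorem low_zeta : ∃ C : ℝ, 1 ≤ C ∧ ∀ T : ℝ, 2 ≤ T →
    ∑ ρ ∈ Z (1 : DirichletCharacter ℂ 1) T, (mul (1 : DirichletCharacter ℂ 1) ρ : ℝ) ≤ C * T ^ 2 := by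
  obtain ⟨C, hC, h⟩ := count_Z
  refine ⟨C, hC, ?_⟩
  intro T hT
  have h1 := h 1 (1 : DirichletCharacter ℂ 1) T DirichletCharacter.isPrimitive_one_level_one hT
  have h2 : Real.log ((1 : ℕ) * T) ≤ T := by
    have := Real.log_le_sub_one_of_pos (show (0 : ℝ) < T by linarith)
    simp only [Nat.cast_one, one_mul]
    linarith
  calc _ ≤ C * T * Real.log ((1 : ℕ) * T) := h1
    _ ≤ C * T * T := by
        apply mul_le_mul_of_nonneg_left h2
        positivity
    _ = C * T ^ 2 := by ring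

end Pool.Agent.Lib.GMV
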