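import Pool.Agent.Lib.GMV.ZCount
import Pool.Agent.Lib.GMV.ZBox
import Pool.Agent.Lib.GMV.ZLow

/-!
# GMV.ZDen (2 h): log-free zero density theorem with multiplicities

PROOF. For `2 ≤ Q < Q1` (any fixed `Q1`): the left side is at most the (finite) sum over all `ρ ∈ Z χ (Q^30)`, take `C` larger than the
sum of these numbers over `Q < Q1`. Let `Q ≥ Q1 ≥ Q0`, `L = log Q ≥ 20`, `y = max η (1/L) ≤ 1/20`. For `(q, χ)` and an integer `k` let
the box be the set of `ρ ∈ Z χ (Q^30)` with `Re ρ ≥ 1 - y`, `⌊Im ρ/y⌋ = k`, and for `q = 0` also `|Im ρ| ≥ C0 Q^(1300 y)`. By `box_count`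
(`t = (k + 1/2) y`, `|t| ≤ Q^30 + 1` if the box is nonempty) the sum of `mul` over a box is `≤ C y L`. Choose one `ρ` in every nonempty box; `J_0`, `J_1`: the
chosen triples with `k` even, odd. For the same `(q, χ)` and `k < k'` of the same parity `Im ρ' - Im ρ ≥ k' y - (k+1) y ≥ y ≥ 1/L`. `sep_count` with
`η := y`: at most `2 C Q^(5200 y)` boxes. The zeros of `ζ` (`q = 0`) with `|Im ρ| < T' = C0 Q^(1300 y)`: `low_zeta`, `≤ C T'^2`. Total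
`≤ 2 C Q^(5200 y) C y L + C C0^2 Q^(2600 y) ≤ C' exp (5201 y L)` (`y L ≤ exp (y L)`), and `y L ≤ η L + 1`.
-/

set_option autoImplicit false

open Complex Finset

namespace Pool.Agent.Lib.GMV

namespace ZDenAux

lemma floor_box {x y : ℝ} (hy : 0 < y) {k : ℤ} (h : ⌊x / y⌋ = k) :
    (k : ℝ) * y ≤ x ∧ x < ((k : ℝ) + 1) * y := by
  have h1 : (⌊x / y⌋ : ℝ) ≤ x / y := Int.floor_le _
  have h2 : x / y < ⌊x / y⌋ + 1 := Int.lt_floor_add_one _
  rw [h] at h1 h2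
  exact ⟨(le_div_iff₀ hy).mp h1, (div_lt_iff₀ hy).mp h2⟩

lemma sep_aux {x x' y : ℝ} (hy : 0 < y) {k k' : ℤ} (h : ⌊x / y⌋ = k) (h' : ⌊x' / y⌋ = k')
    (hkk : k + 2 ≤ k') : y ≤ |x - x'| := by
  obtain ⟨_, h2⟩ := floor_box hy h
  obtain ⟨h3, _⟩ := floor_box hy h'
  have h5 : (k : ℝ) + 2 ≤ (k' : ℝ) := by exact_mod_cast hkk
  have h6 : ((k : ℝ) + 2) * y ≤ (k' : ℝ) * y := mul_le_mul_of_nonneg_right h5 hy.le
  rw [abs_sub_comm]
  refine le_trans ?_ (le_abs_self _)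
  nlinarith

lemma sep_box {x x' y : ℝ} (hy : 0 < y) {k k' : ℤ} (h : ⌊x / y⌋ = k) (h' : ⌊x' / y⌋ = k')
    (hne : k ≠ k') (hpar : Even k ↔ Even k') : y ≤ |x - x'| := by
  have h2 : Even (k - k') := Int.even_sub.mpr hpar
  obtain ⟨m, hm⟩ := h2
  rcases lt_or_gt_of_ne hne with hlt | hlt
  · exact sep_aux hy h h' (by omega)
  · rw [abs_sub_comm]
    exact sep_aux hy h' h (by omega)

lemma per_char (S : Finset ℂ) (w : ℂ → ℝ) (y B : ℝ)
    (hbox : ∀ k : ℤ, k ∈ S.image (fun ρ => ⌊ρ.im / y⌋) →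
      ∑ ρ ∈ S.filter (fun ρ => ⌊ρ.im / y⌋ = k), w ρ ≤ B) :
    ∑ ρ ∈ S, w ρ ≤ ((S.image (fun ρ => ⌊ρ.im / y⌋)).card : ℝ) * B := by
  rw [← Finset.sum_fiberwise_of_maps_to
    (g := fun ρ : ℂ => ⌊ρ.im / y⌋) (t := S.image (fun ρ => ⌊ρ.im / y⌋))
    (fun ρ hρ => Finset.mem_image_of_mem _ hρ)]
  rw [← nsmul_eq_mul]
  exact Finset.sum_le_card_nsmul _ _ _ hbox

/-- the number of nonempty boxes, by the count of separated zeros -/
lemma card_boxes (Q : ℕ) (y C1 C0 : ℝ) (hy : 0 < y) (hyL : 1 / Real.log Q ≤ y)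
    (hsep : ∀ J : Finset ((q : ℕ) × (DirichletCharacter ℂ (q + 1) × ℂ)),
      (∀ j ∈ J, j.1 < Q ∧ j.2.1.IsPrimitive ∧ Lf j.2.1 j.2.2 = 0 ∧ 1 - y ≤ j.2.2.re ∧
        |j.2.2.im| ≤ (Q : ℝ) ^ 30) →
      (∀ j ∈ J, j.1 = 0 → C0 * (Q : ℝ) ^ (1300 * y) ≤ |j.2.2.im|) →
      (∀ j ∈ J, ∀ j' ∈ J, j ≠ j' →
        (⟨j.1, j.2.1⟩ : (q : ℕ) × DirichletCharacter ℂ (q + 1)) = ⟨j'.1, j'.2.1⟩ →
        1 / Real.log Q ≤ |j.2.2.im - j'.2.2.im|) →
      (J.card : ℝ) ≤ C1 * (Q : ℝ) ^ (5200 * y))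
    (S : (q : ℕ) → DirichletCharacter ℂ (q + 1) → Finset ℂ)
    (pr : (q : ℕ) → Finset (DirichletCharacter ℂ (q + 1)))
    (hpr : ∀ q, ∀ χ ∈ pr q, χ.IsPrimitive)
    (hS : ∀ q χ, ∀ ρ ∈ S q χ, ρ ∈ Z χ ((Q : ℝ) ^ 30) ∧ 1 - y ≤ ρ.re ∧
      (q = 0 → C0 * (Q : ℝ) ^ (1300 * y) ≤ |ρ.im|)) :
    ∑ q ∈ range Q, ∑ χ ∈ pr q, (((S q χ).image (fun ρ => ⌊ρ.im / y⌋)).card : ℝ) ≤
      2 * (C1 * (Q : ℝ) ^ (5200 * y)) := by
  classical
  have hrep : ∀ (q : ℕ) (χ : DirichletCharacter ℂ (q + 1)) (k : ℤ), ∃ ρ : ℂ,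
      k ∈ (S q χ).image (fun ρ => ⌊ρ.im / y⌋) → ρ ∈ S q χ ∧ ⌊ρ.im / y⌋ = k := by
    intro q χ k
    by_cases hk : k ∈ (S q χ).image (fun ρ => ⌊ρ.im / y⌋)
    · obtain ⟨ρ, hρ, hk'⟩ := Finset.mem_image.mp hk
      exact ⟨ρ, fun _ => ⟨hρ, hk'⟩⟩
    · exact ⟨0, fun h => absurd h hk⟩
  choose rep hrep using hrep
  set P : Finset ((q : ℕ) × ((_ : DirichletCharacter ℂ (q + 1)) × ℤ)) :=
    (range Q).sigma (fun q => (pr q).sigma
      (fun χ => (S q χ).image (fun ρ => ⌊ρ.im / y⌋))) with hP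
  have hPcard : ∑ q ∈ range Q, ∑ χ ∈ pr q,
      (((S q χ).image (fun ρ => ⌊ρ.im / y⌋)).card : ℝ) = (P.card : ℝ) := by
    rw [hP, Finset.card_sigma]
    push_cast
    refine Finset.sum_congr rfl fun q _ => ?_
    rw [Finset.card_sigma]
    push_cast
    rfl
  have hPmem : ∀ p ∈ P, p.1 < Q ∧ p.2.1 ∈ pr p.1 ∧
      p.2.2 ∈ (S p.1 p.2.1).image (fun ρ => ⌊ρ.im / y⌋) := by
    intro p hp
    rw [hP, Finset.mem_sigma, Finset.mem_sigma, Finset.mem_range] at hp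
    exact ⟨hp.1, hp.2.1, hp.2.2⟩
  set φ : ((q : ℕ) × ((_ : DirichletCharacter ℂ (q + 1)) × ℤ)) →
    ((q : ℕ) × (DirichletCharacter ℂ (q + 1) × ℂ)) :=
    fun p => ⟨p.1, (p.2.1, rep p.1 p.2.1 p.2.2)⟩ with hφ
  have hinj : ∀ p ∈ P, ∀ p' ∈ P,
      (⟨(φ p).1, (φ p).2.1⟩ : (q : ℕ) × DirichletCharacter ℂ (q + 1)) =
        ⟨(φ p').1, (φ p').2.1⟩ → p.2.2 = p'.2.2 → p = p' := by
    rintro ⟨q, χ, k⟩ _ ⟨q', χ', k'⟩ _ h1 h2
    have h2' : k = k' := h2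
    subst h2'
    have hq : q = q' := congrArg Sigma.fst h1
    subst hq
    have hχ : χ = χ' := by
      have := (Sigma.mk.inj_iff.mp h1).2
      exact eq_of_heq this
    subst hχ
    rfl
  have key : ∀ b : Prop, ∀ R : Finset ((q : ℕ) × ((_ : DirichletCharacter ℂ (q + 1)) × ℤ)),
      R ⊆ P → (∀ p ∈ R, (Even p.2.2 ↔ b)) → (R.card : ℝ) ≤ C1 * (Q : ℝ) ^ (5200 * y) := by
    intro b R hRP hRb
    have hcard : (R.image φ).card = R.card := by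
      apply Finset.card_image_of_injOn
      intro p hp p' hp' hpp
      have hp1 := hRP hp
      have hp2 := hRP hp'
      have hr1 := hrep p.1 p.2.1 p.2.2 (hPmem p hp1).2.2
      have hr2 := hrep p'.1 p'.2.1 p'.2.2 (hPmem p' hp2).2.2
      refine hinj p hp1 p' hp2 ?_ ?_
      · rw [hpp]
      · have h3 : rep p.1 p.2.1 p.2.2 = rep p'.1 p'.2.1 p'.2.2 :=
          congrArg (fun j : ((q : ℕ) × (DirichletCharacter ℂ (q + 1) × ℂ)) => j.2.2) hpp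
        rw [← hr1.2, ← hr2.2, h3]
    rw [← hcard]
    refine hsep (R.image φ) ?_ ?_ ?_
    · intro j hj
      obtain ⟨p, hp, rfl⟩ := Finset.mem_image.mp hj
      have hpP := hPmem p (hRP hp)
      have hr1 := hrep p.1 p.2.1 p.2.2 hpP.2.2
      have hr2 := hS p.1 p.2.1 _ hr1.1
      have hr3 := mem_Z.mp hr2.1
      exact ⟨hpP.1, hpr _ _ hpP.2.1, hr3.2.2, hr2.2.1, hr3.2.1⟩
    · intro j hj hj0
      obtain ⟨p, hp, rfl⟩ := Finset.mem_image.mp hj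
      have hpP := hPmem p (hRP hp)
      have hr1 := hrep p.1 p.2.1 p.2.2 hpP.2.2
      have hr2 := hS p.1 p.2.1 _ hr1.1
      exact hr2.2.2 hj0
    · intro j hj j' hj' hne hcl
      obtain ⟨p, hp, rfl⟩ := Finset.mem_image.mp hj
      obtain ⟨p', hp', rfl⟩ := Finset.mem_image.mp hj'
      have hpP := hPmem p (hRP hp)
      have hpP' := hPmem p' (hRP hp')
      have hr1 := hrep p.1 p.2.1 p.2.2 hpP.2.2
      have hr2 := hrep p'.1 p'.2.1 p'.2.2 hpP'.2.2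
      have hkne : p.2.2 ≠ p'.2.2 := by
        intro hk
        exact hne (congrArg φ (hinj p (hRP hp) p' (hRP hp') hcl hk))
      exact hyL.trans (sep_box hy hr1.2 hr2.2 hkne ((hRb p hp).trans (hRb p' hp').symm))
  have h1 := key True (P.filter (fun p => Even p.2.2)) (Finset.filter_subset _ _)
    (fun p hp => by simpa using (Finset.mem_filter.mp hp).2)
  have h2 := key False (P.filter (fun p => ¬ Even p.2.2)) (Finset.filter_subset _ _)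
    (fun p hp => by
      have := (Finset.mem_filter.mp hp).2
      exact iff_of_false this id)
  have h3 : (P.filter (fun p => Even p.2.2)).card + (P.filter (fun p => ¬ Even p.2.2)).card =
      P.card := Finset.card_filter_add_card_filter_not _
  rw [hPcard, ← h3]
  push_cast
  linarith

lemma one_char (Q : ℕ) (hQ : 2 ≤ Q) (y η C2 C0 : ℝ) (hyL : 1 / Real.log Q ≤ y)
    (hy1 : y ≤ 1 / 20) (hηy : η ≤ y) (hC0 : 1 ≤ C0)
    (hbox : ∀ (q : ℕ) [NeZero q] (χ : DirichletCharacter ℂ q)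
      (t : ℝ), q ≤ Q → |t| ≤ 2 * (Q : ℝ) ^ 30 + 1 →
      ∀ S : Finset ℂ, (∀ ρ ∈ S, 1 - y ≤ ρ.re ∧ |ρ.im - t| ≤ y / 2) →
      ∑ ρ ∈ S, (mul χ ρ : ℝ) ≤ C2 * (y * Real.log Q))
    (q : ℕ) (hq : q < Q) (χ : DirichletCharacter ℂ (q + 1)) (S F : Finset ℂ)
    (hS : ∀ ρ, ρ ∈ S ↔ ρ ∈ Z χ ((Q : ℝ) ^ 30) ∧ 1 - y ≤ ρ.re ∧
      (q = 0 → C0 * (Q : ℝ) ^ (1300 * y) ≤ |ρ.im|))
    (hF : ∀ ρ ∈ F, ρ ∈ Z χ ((Q : ℝ) ^ 30) ∧ 1 - η ≤ ρ.re) :
    ∑ ρ ∈ F, (mul χ ρ : ℝ) ≤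
      ((S.image (fun ρ => ⌊ρ.im / y⌋)).card : ℝ) * (C2 * (y * Real.log Q)) +
      (if q = 0 then ∑ ρ ∈ Z χ (2 * C0 * (Q : ℝ) ^ (1300 * y)), (mul χ ρ : ℝ) else 0) := by
  classical
  have hQ2 : (2 : ℝ) ≤ Q := by exact_mod_cast hQ
  have hlog : 0 < Real.log Q := Real.log_pos (by linarith)
  have hy : 0 < y := lt_of_lt_of_le (by positivity) hyL
  have hpos : 0 < C0 * (Q : ℝ) ^ (1300 * y) := by positivity
  have h1 : ∑ ρ ∈ S, (mul χ ρ : ℝ) ≤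
      ((S.image (fun ρ => ⌊ρ.im / y⌋)).card : ℝ) * (C2 * (y * Real.log Q)) := by
    refine per_char S _ y _ ?_
    intro k hk
    obtain ⟨ρ0, hρ0, hk0⟩ := Finset.mem_image.mp hk
    have hb0 := floor_box hy hk0
    have him0 : |ρ0.im| ≤ (Q : ℝ) ^ 30 := (mem_Z.mp ((hS ρ0).mp hρ0).1).2.1
    have hbd : ∀ x : ℝ, (k : ℝ) * y ≤ x ∧ x < ((k : ℝ) + 1) * y →
        |x - ((k : ℝ) + 1 / 2) * y| ≤ y / 2 := by
      intro x hx
      rw [abs_le]
      constructor <;> nlinarith [hx.1, hx.2]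
    refine hbox (q + 1) χ (((k : ℝ) + 1 / 2) * y) (by omega) ?_ _ ?_
    · have h2 := hbd _ hb0
      have h3 : |((k : ℝ) + 1 / 2) * y| ≤ |ρ0.im| + |ρ0.im - ((k : ℝ) + 1 / 2) * y| := by
        have h4 : ((k : ℝ) + 1 / 2) * y = ρ0.im - (ρ0.im - ((k : ℝ) + 1 / 2) * y) := by ring
        calc |((k : ℝ) + 1 / 2) * y| = |ρ0.im - (ρ0.im - ((k : ℝ) + 1 / 2) * y)| := by rw [← h4]
          _ ≤ _ := abs_sub _ _
      have h5 : (0 : ℝ) ≤ (Q : ℝ) ^ 30 := by positivity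
      linarith
    · intro ρ hρ
      obtain ⟨hρS, hρk⟩ := Finset.mem_filter.mp hρ
      exact ⟨((hS ρ).mp hρS).2.1, hbd _ (floor_box hy hρk)⟩
  have hnn : ∀ ρ : ℂ, (0 : ℝ) ≤ (mul χ ρ : ℝ) := fun ρ => by positivity
  by_cases hq0 : q = 0
  · rw [if_pos hq0]
    have hsub : F ⊆ S ∪ Z χ (2 * C0 * (Q : ℝ) ^ (1300 * y)) := by
      intro ρ hρ
      obtain ⟨h2, h3⟩ := hF ρ hρ
      rw [Finset.mem_union]
      by_cases h4 : C0 * (Q : ℝ) ^ (1300 * y) ≤ |ρ.im|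
      · left
        exact (hS ρ).mpr ⟨h2, by linarith, fun _ => h4⟩
      · right
        rw [mem_Z] at h2 ⊢
        refine ⟨h2.1, ?_, h2.2.2⟩
        push Not at h4
        nlinarith
    calc ∑ ρ ∈ F, (mul χ ρ : ℝ) ≤
          ∑ ρ ∈ S ∪ Z χ (2 * C0 * (Q : ℝ) ^ (1300 * y)), (mul χ ρ : ℝ) :=
          Finset.sum_le_sum_of_subset_of_nonneg hsub (fun ρ _ _ => hnn ρ)
      _ ≤ ∑ ρ ∈ S, (mul χ ρ : ℝ) +
          ∑ ρ ∈ Z χ (2 * C0 * (Q : ℝ) ^ (1300 * y)), (mul χ ρ : ℝ) := by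
          rw [← Finset.sum_union_inter]
          have : 0 ≤ ∑ ρ ∈ S ∩ Z χ (2 * C0 * (Q : ℝ) ^ (1300 * y)), (mul χ ρ : ℝ) :=
            Finset.sum_nonneg (fun ρ _ => hnn ρ)
          linarith
      _ ≤ _ := by linarith
  · rw [if_neg hq0, add_zero]
    have hsub : F ⊆ S := by
      intro ρ hρ
      obtain ⟨h2, h3⟩ := hF ρ hρ
      exact (hS ρ).mpr ⟨h2, by linarith, fun h => absurd h hq0⟩
    exact (Finset.sum_le_sum_of_subset_of_nonneg hsub (fun ρ _ _ => hnn ρ)).trans h1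

/-- the sum of all multiplicities, for small `Q` -/
noncomputable def full (Q : ℕ) : ℝ :=
  ∑ q ∈ range Q, ∑ χ : DirichletCharacter ℂ (q + 1), ∑ ρ ∈ Z χ ((Q : ℝ) ^ 30), (mul χ ρ : ℝ)

lemma full_nonneg (Q : ℕ) : 0 ≤ full Q := by
  unfold full
  exact Finset.sum_nonneg fun q _ => Finset.sum_nonneg fun χ _ => Finset.sum_nonneg
    fun ρ _ => by positivity

end ZDenAux

open ZDenAux in
open scoped Classical in
theorem zero_density : ∃ C C3 : ℝ, 0 < C ∧ 0 < C3 ∧ ∀ (Q : ℕ) (η : ℝ), 2 ≤ Q → 0 ≤ η →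
    η ≤ 1 / 20 →
    ∑ q ∈ range Q, ∑ χ : DirichletCharacter ℂ (q + 1),
      (if χ.IsPrimitive then
        ∑ ρ ∈ (Z χ ((Q : ℝ) ^ 30)).filter (fun ρ => 1 - η ≤ ρ.re), (mul χ ρ : ℝ) else 0) ≤
      C * Real.exp (C3 * η * Real.log Q) := by
  obtain ⟨Q0, C1, C0, hC1, hC0, hsep⟩ := sep_count
  obtain ⟨C2, hC2, hbox⟩ := box_count
  obtain ⟨C4, hC4, hlow⟩ := low_zeta
  set Q1 : ℕ := max Q0 ⌈Real.exp 20⌉₊ with hQ1
  set D : ℝ := ∑ Q' ∈ range Q1, full Q' with hD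
  have hD0 : 0 ≤ D := Finset.sum_nonneg fun Q' _ => full_nonneg Q'
  set C5 : ℝ := (2 * C1 * C2 + 4 * C4 * C0 ^ 2) * Real.exp 5201 with hC5
  have hC50 : 0 < C5 := by positivity
  refine ⟨D + C5, 5201, by linarith, by norm_num, ?_⟩
  intro Q η hQ hη0 hη
  have hQ2 : (2 : ℝ) ≤ Q := by exact_mod_cast hQ
  have hlog : 0 < Real.log Q := Real.log_pos (by linarith)
  have hexp1 : 1 ≤ Real.exp (5201 * η * Real.log Q) := by
    apply Real.one_le_exp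
    positivity
  by_cases hQQ : Q < Q1
  · have h1 : ∑ q ∈ range Q, ∑ χ : DirichletCharacter ℂ (q + 1),
      (if χ.IsPrimitive then
        ∑ ρ ∈ (Z χ ((Q : ℝ) ^ 30)).filter (fun ρ => 1 - η ≤ ρ.re), (mul χ ρ : ℝ) else 0) ≤
        full Q := by
      unfold full
      refine Finset.sum_le_sum fun q _ => Finset.sum_le_sum fun χ _ => ?_
      split_ifs
      · exact Finset.sum_le_sum_of_subset_of_nonneg (Finset.filter_subset _ _)
          (fun ρ _ _ => by positivity)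
      · exact Finset.sum_nonneg fun ρ _ => by positivity
    have h2 : full Q ≤ D :=
      Finset.single_le_sum (f := full) (fun Q' _ => full_nonneg Q') (Finset.mem_range.mpr hQQ)
    calc _ ≤ full Q := h1
      _ ≤ D := h2
      _ ≤ D + C5 := by linarith
      _ = (D + C5) * 1 := by ring
      _ ≤ (D + C5) * Real.exp (5201 * η * Real.log Q) := by
          apply mul_le_mul_of_nonneg_left hexp1
          linarith
  push Not at hQQ
  have hQa : Q0 ≤ Q := (le_max_left _ _).trans hQQ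
  have hQb : Real.exp 20 ≤ Q := by
    have h1 : (⌈Real.exp 20⌉₊ : ℝ) ≤ Q := by exact_mod_cast (le_max_right _ _).trans hQQ
    exact (Nat.le_ceil _).trans h1
  have hL20 : 20 ≤ Real.log Q := by
    rw [Real.le_log_iff_exp_le (by linarith)]
    exact hQb
  set L : ℝ := Real.log Q with hL
  set y : ℝ := max η (1 / L) with hy
  have hyL : 1 / L ≤ y := le_max_right _ _
  have hηy : η ≤ y := le_max_left _ _
  have hy1 : y ≤ 1 / 20 := max_le hη (one_div_le_one_div_of_le (by norm_num) hL20)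
  have hy0 : 0 < y := lt_of_lt_of_le (by positivity) hyL
  have hyup : y * L ≤ η * L + 1 := by
    have h1 : y ≤ η + 1 / L := max_le (by linarith [show 0 < 1 / L by positivity]) (by linarith)
    have h2 : (η + 1 / L) * L = η * L + 1 := by
      field_simp
    calc y * L ≤ (η + 1 / L) * L := mul_le_mul_of_nonneg_right h1 hlog.le
      _ = _ := h2
  have hQpos : (0 : ℝ) < Q := by linarith
  set S : (q : ℕ) → DirichletCharacter ℂ (q + 1) → Finset ℂ := fun q χ =>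
    (Z χ ((Q : ℝ) ^ 30)).filter (fun ρ => 1 - y ≤ ρ.re ∧
      (q = 0 → C0 * (Q : ℝ) ^ (1300 * y) ≤ |ρ.im|)) with hS
  set pr : (q : ℕ) → Finset (DirichletCharacter ℂ (q + 1)) := fun q =>
    Finset.univ.filter (fun χ => χ.IsPrimitive) with hpr
  have hcard := card_boxes Q y C1 C0 hy0 hyL
    (fun J h1 h2 h3 => hsep Q y hQa hy0.le hy1 J h1 h2 h3) S pr
    (fun q χ hχ => (Finset.mem_filter.mp hχ).2)
    (fun q χ ρ hρ => Finset.mem_filter.mp hρ)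
  have hB0 : 0 ≤ C2 * (y * L) := by positivity
  -- the zeros of small height
  have hlow1 : ∑ q ∈ range Q, ∑ χ ∈ pr q,
      (if q = 0 then ∑ ρ ∈ Z χ (2 * C0 * (Q : ℝ) ^ (1300 * y)), (mul χ ρ : ℝ) else 0) ≤
      C4 * (2 * C0 * (Q : ℝ) ^ (1300 * y)) ^ 2 := by
    have hT : 2 ≤ 2 * C0 * (Q : ℝ) ^ (1300 * y) := by
      have h1 : (1 : ℝ) ≤ (Q : ℝ) ^ (1300 * y) := Real.one_le_rpow (by linarith) (by positivity)
      nlinarith
    have h1 : ∑ q ∈ range Q, ∑ χ ∈ pr q,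
      (if q = 0 then ∑ ρ ∈ Z χ (2 * C0 * (Q : ℝ) ^ (1300 * y)), (mul χ ρ : ℝ) else 0) =
        ∑ χ ∈ pr 0, ∑ ρ ∈ Z χ (2 * C0 * (Q : ℝ) ^ (1300 * y)), (mul χ ρ : ℝ) := by
      rw [Finset.sum_eq_single_of_mem 0 (Finset.mem_range.mpr (by omega))]
      · simp
      · intro q _ hq
        refine Finset.sum_eq_zero fun χ _ => ?_
        rw [if_neg hq]
    rw [h1]
    have h2 : pr 0 ⊆ {(1 : DirichletCharacter ℂ (0 + 1))} := by
      intro χ _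
      rw [Finset.mem_singleton]
      exact DirichletCharacter.level_one χ
    calc _ ≤ ∑ χ ∈ {(1 : DirichletCharacter ℂ (0 + 1))},
            ∑ ρ ∈ Z χ (2 * C0 * (Q : ℝ) ^ (1300 * y)), (mul χ ρ : ℝ) :=
          Finset.sum_le_sum_of_subset_of_nonneg h2
            (fun χ _ _ => Finset.sum_nonneg fun ρ _ => by positivity)
      _ = ∑ ρ ∈ Z (1 : DirichletCharacter ℂ 1) (2 * C0 * (Q : ℝ) ^ (1300 * y)),
            (mul (1 : DirichletCharacter ℂ 1) ρ : ℝ) := by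
          rw [Finset.sum_singleton]
      _ ≤ _ := hlow _ hT
  have hmain : ∑ q ∈ range Q, ∑ χ : DirichletCharacter ℂ (q + 1),
      (if χ.IsPrimitive then
        ∑ ρ ∈ (Z χ ((Q : ℝ) ^ 30)).filter (fun ρ => 1 - η ≤ ρ.re), (mul χ ρ : ℝ) else 0) ≤
      (∑ q ∈ range Q, ∑ χ ∈ pr q, (((S q χ).image (fun ρ => ⌊ρ.im / y⌋)).card : ℝ)) *
        (C2 * (y * L)) + C4 * (2 * C0 * (Q : ℝ) ^ (1300 * y)) ^ 2 := by
    refine le_trans ?_ (add_le_add_right hlow1 _)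
    rw [Finset.sum_mul, ← Finset.sum_add_distrib]
    refine Finset.sum_le_sum fun q hq => ?_
    rw [Finset.sum_mul, ← Finset.sum_add_distrib, ← Finset.sum_filter]
    refine Finset.sum_le_sum fun χ hχ => ?_
    exact one_char Q hQ y η C2 C0 hyL hy1 hηy hC0
      (fun q' _ χ' t h1 h2 S' h3 => hbox Q q' χ' y t hQ h1 h2 hyL hy1 S' h3)
      q (Finset.mem_range.mp hq) χ (S q χ) _ (fun ρ => Finset.mem_filter)
      (fun ρ hρ => Finset.mem_filter.mp hρ)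
  have hrp : ∀ a : ℝ, (Q : ℝ) ^ (a * y) = Real.exp (a * (y * L)) := by
    intro a
    rw [Real.rpow_def_of_pos hQpos]
    congr 1
    rw [← hL]
    ring
  have hyL0 : 0 < y * L := by positivity
  have hyLe : y * L ≤ Real.exp (y * L) := by
    have := Real.add_one_le_exp (y * L)
    linarith
  have hE : Real.exp (5201 * (y * L)) ≤ Real.exp 5201 * Real.exp (5201 * η * L) := by
    rw [← Real.exp_add]
    apply Real.exp_le_exp.mpr
    nlinarith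
  have hpart1 : Real.exp (5200 * (y * L)) * (y * L) ≤ Real.exp (5201 * (y * L)) := by
    have h1 : Real.exp (5201 * (y * L)) = Real.exp (5200 * (y * L)) * Real.exp (y * L) := by
      rw [← Real.exp_add]
      congr 1
      ring
    rw [h1]
    exact mul_le_mul_of_nonneg_left hyLe (Real.exp_pos _).le
  have hpart2 : (Real.exp (1300 * (y * L))) ^ 2 ≤ Real.exp (5201 * (y * L)) := by
    rw [← Real.exp_nat_mul]
    apply Real.exp_le_exp.mpr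
    push_cast
    nlinarith
  have hfin : (2 * (C1 * (Q : ℝ) ^ (5200 * y))) * (C2 * (y * L)) +
      C4 * (2 * C0 * (Q : ℝ) ^ (1300 * y)) ^ 2 ≤
      (2 * C1 * C2 + 4 * C4 * C0 ^ 2) * Real.exp (5201 * (y * L)) := by
    rw [hrp 5200, hrp 1300]
    have e1 : (2 * (C1 * Real.exp (5200 * (y * L)))) * (C2 * (y * L)) +
        C4 * (2 * C0 * Real.exp (1300 * (y * L))) ^ 2 =
        (2 * C1 * C2) * (Real.exp (5200 * (y * L)) * (y * L)) +
        (4 * C4 * C0 ^ 2) * (Real.exp (1300 * (y * L))) ^ 2 := by ring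
    rw [e1, add_mul]
    have g1 : 0 ≤ 2 * C1 * C2 := by positivity
    have g2 : 0 ≤ 4 * C4 * C0 ^ 2 := by positivity
    exact add_le_add (mul_le_mul_of_nonneg_left hpart1 g1) (mul_le_mul_of_nonneg_left hpart2 g2)
  calc _ ≤ _ := hmain
    _ ≤ (2 * (C1 * (Q : ℝ) ^ (5200 * y))) * (C2 * (y * L)) +
        C4 * (2 * C0 * (Q : ℝ) ^ (1300 * y)) ^ 2 :=
        add_le_add_left (mul_le_mul_of_nonneg_right hcard hB0) _
    _ ≤ (2 * C1 * C2 + 4 * C4 * C0 ^ 2) * Real.exp (5201 * (y * L)) := hfin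
    _ ≤ (2 * C1 * C2 + 4 * C4 * C0 ^ 2) * (Real.exp 5201 * Real.exp (5201 * η * L)) := by
        apply mul_le_mul_of_nonneg_left hE
        positivity
    _ = C5 * Real.exp (5201 * η * L) := by rw [hC5]; ring
    _ ≤ (D + C5) * Real.exp (5201 * η * L) := by
        apply mul_le_mul_of_nonneg_right _ (Real.exp_pos _).le
        linarith

end Pool.Agent.Lib.GMV
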