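import Pool.Agent.Lib.GMV.FMain
import Pool.Agent.Lib.GMV.FCnt
import Pool.Agent.Lib.GMV.ZDen
import Pool.Agent.Lib.GMV.Kern
import Pool.Agent.Lib.GMV.FreeY

/-!
# GMV.SumB: the sum of the suprema of the smoothed characters (paper 5)

Black boxes: `explicit_formula` (FMain), `zero_density` (ZDen), `count_Z` (FCnt), `cn_eq_zero` (Kern).

PROOF. `Rg c2 X Q`, `c2 ≤ 1/1000` small: `log X ≤ 4 (log Q)²`, `Q^1000 ≤ X`. Write `T = Q^30`, `Y = X/Q`, `η_ρ = 1 - Re ρ`,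
`N x = ∑_{ρ ∈ Z x.2 T} mul ρ Y^(Re ρ - 1)`.
(1) Prime powers: `W = vw lp`, `‖Mc X Q x n - (explicit formula sum)‖ ≤ (1/U) ∑_{m<4X} (Λ - lp)(m) ≤ 2Q^5/X · C √X log X ≤ Q^(-3)`.
(2) `explicit_formula` with `E = ∅`: `‖Mc x n‖ ≤ C N x + 2C/Q^3` for `x.2 ≠ 1`, and for `x = one` (the only primitive character with `x.2 = 1` in
`Ch Q`) `‖Mc one n - ∫ wtF‖ ≤ C N one + 2C/Q^3`; `0 ≤ ∫ wtF ≤ 1`, and `∫ wtF = 1` if `3X ≤ nQ`, `nQ + X ≤ 2XQ` (then `vw = 1` on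
`[n-U, n+U]`; the integral of `tri` is one: FTri or FTriA).
(3) `b x := C N x + 2C/Q^3` (`+ 1` for `one`). `|Ch Q| ≤ Q²`, so the terms `2C/Q^3` contribute `≤ 2C/Q ≤ C' Er a X Q` if `4a ≤ 1`
(`Er a X Q = exp(-a log X/log Q) ≥ Q^(-4a)` as `log X ≤ 4 (log Q)²`).
(4) `∑_{x ∈ Ch Q} N x`: zeros with `η ≥ 1/20`: by `count_Z` at most `Q² C T log(Q T)` (with multiplicity), each `≤ Y^(-1/20) ≤ Q^(-49)`: tiny.
Zeros with `η < 1/20`: put `w = c/log Q`, group by `j = ⌊η/w⌋`: `∑_{j≥0} exp(-j w log Y) · #(η ≤ (j+1) w)` with `zero_density`: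
`≤ ∑_j exp(-j c log Y/log Q) C exp(C3 (j+1) c)`. `log Y/log Q ≥ log X/(2 log Q) ≥ 2 C3 + 2` if `c2` small. All zeros: the sum over `j ≥ 0` is
`≤ C'`. Without the zeros with `η ≤ w` (`j ≥ 1` only): `≤ C' exp(-c log Y/(2 log Q)) ≤ C' exp(-c log X/(4 log Q))`, so `a = min (c/4) (1/4)`.
(5) Zeros with `1 - c/log Q ≤ Re ρ`: by `ZFree c1` (`c < c1`) such a zero is real, of a real character `x.2 ≠ 1`, `x.2² = 1`,
and there is at most one `(x, ρ)` in all. If there is none, `M = {one}`, `q = 0`, and no `IsExc c Q x β` (such a `β` would be in `Z x.2 T`: `β ≥ 9/10`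
as `Q` is large). If there is one, `(xe, β)`: `M = {one, xe}`, `q = md xe`. In both cases the `x ∈ Ch Q \ M` have only zeros with `η > w`.
Also `one` has only such zeros (`χ ≠ 1` in `ZFree`), so `‖Mc one n - 1‖ ≤ C' Er a X Q`.
-/

set_option autoImplicit false

open Finset Filter

namespace Pool.Agent.Lib.GMV

open Pool.Agent.HLB Pool.Agent.HLT Pool.Agent.HLR

/-- The zero free region with constant `c1`. -/
def ZFree (c1 : ℝ) : Prop := ∀ Q : ℕ, 2 ≤ Q →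
    (∀ q < Q, ∀ χ : DirichletCharacter ℂ (q + 1), χ.IsPrimitive → ∀ ρ ∈ Z χ ((Q : ℝ) ^ 30),
      1 - c1 / Real.log Q < ρ.re → ρ.im = 0 ∧ mul χ ρ = 1 ∧ χ ^ 2 = 1 ∧ χ ≠ 1) ∧
    (∀ q < Q, ∀ q' < Q, ∀ (χ : DirichletCharacter ℂ (q + 1)) (χ' : DirichletCharacter ℂ (q' + 1)),
      χ.IsPrimitive → χ'.IsPrimitive → ∀ ρ ∈ Z χ ((Q : ℝ) ^ 30), ∀ ρ' ∈ Z χ' ((Q : ℝ) ^ 30),
      1 - c1 / Real.log Q < ρ.re → 1 - c1 / Real.log Q < ρ'.re →
      (⟨q, χ, ρ⟩ : (q : ℕ) × (DirichletCharacter ℂ (q + 1) × ℂ)) = ⟨q', χ', ρ'⟩)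

/-- The exceptional modulus: `0` if there is no exceptional zero. -/
def ExMod (c : ℝ) (Q q : ℕ) : Prop :=
  (q = 0 ∧ ∀ x β, ¬ IsExc c Q x β) ∨ ∃ xe β, IsExc c Q xe β ∧ q = md xe

namespace SumBAux

theorem geo (r : ℝ) (h0 : 0 ≤ r) (h1 : r ≤ 1 / 2) (J : ℕ) :
    ∑ j ∈ range J, r ^ (j + 1) ≤ 2 * r * (1 - (1 / 2) ^ J) := by
  induction J with
  | zero => simp
  | succ J ih =>
    rw [Finset.sum_range_succ]
    have h2 : r ^ (J + 1) ≤ r * (1 / 2) ^ J := by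
      rw [pow_succ, mul_comm]
      exact mul_le_mul_of_nonneg_left (pow_le_pow_left₀ h0 h1 J) h0
    have h3 : (1 / 2 : ℝ) ^ (J + 1) = (1 / 2) ^ J / 2 := by
      rw [pow_succ]
      ring
    rw [h3]
    linarith

/-- summation over layers -/
theorem layer {ι : Type*} (I : Finset ι) (m η : ι → ℝ) (hm : ∀ i ∈ I, 0 ≤ m i)
    {C C3 L c l : ℝ} (hC : 0 ≤ C) (hC3 : 0 ≤ C3) (hL : 0 < L) (hc : 0 < c)
    (hden : ∀ y : ℝ, 0 ≤ y → y ≤ 1 / 20 →
      ∑ i ∈ I.filter (fun i => η i ≤ y), m i ≤ C * Real.exp (C3 * y * L))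
    (h1 : 2 * C3 * L ≤ l) (h2 : 2 * L ≤ c * l) :
    ∑ i ∈ I.filter (fun i => c / L < η i ∧ η i ≤ 1 / 20), m i * Real.exp (-(η i * l)) ≤
      2 * C * Real.exp (C3 * c) * Real.exp (-(c * l / (2 * L))) := by
  obtain ⟨w, hw⟩ : ∃ w, w = c / L := ⟨_, rfl⟩
  have hw0 : 0 < w := by rw [hw]; positivity
  have hwL : w * L = c := by rw [hw]; field_simp
  have hl0 : 0 ≤ l := le_trans (by positivity) h1
  obtain ⟨r, hr⟩ : ∃ r, r = Real.exp (-(c * l / (2 * L))) := ⟨_, rfl⟩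
  have hr0 : 0 ≤ r := by rw [hr]; positivity
  have hr1 : r ≤ 1 / 2 := by
    have h3 : 1 ≤ c * l / (2 * L) := by
      rw [le_div_iff₀ (by positivity)]
      linarith
    have h4 : Real.exp (-(c * l / (2 * L))) ≤ Real.exp (-1) := Real.exp_le_exp.2 (by linarith)
    have h5 : Real.exp (-1) ≤ 1 / 2 := by
      rw [Real.exp_neg, inv_le_comm₀ (Real.exp_pos 1) (by norm_num)]
      have := Real.add_one_le_exp (1 : ℝ)
      norm_num at this ⊢
      linarith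
    rw [hr]
    linarith
  obtain ⟨J, hJ⟩ : ∃ J : ℕ, J = ⌊(1 / 20) / w⌋₊ := ⟨_, rfl⟩
  rw [← hw]
  have hmaps : ∀ i ∈ I.filter (fun i => w < η i ∧ η i ≤ 1 / 20), ⌊η i / w⌋₊ - 1 ∈ range J := by
    intro i hi
    rw [Finset.mem_filter] at hi
    rw [Finset.mem_range, hJ]
    have h3 : 1 ≤ ⌊η i / w⌋₊ := Nat.le_floor (by
      rw [Nat.cast_one, one_le_div hw0]
      exact hi.2.1.le)
    have h4 : ⌊η i / w⌋₊ ≤ ⌊(1 / 20) / w⌋₊ :=
      Nat.floor_le_floor (div_le_div_of_nonneg_right hi.2.2 hw0.le)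
    omega
  rw [← Finset.sum_fiberwise_of_maps_to hmaps]
  have hj : ∀ j ∈ range J, ∑ i ∈ (I.filter (fun i => w < η i ∧ η i ≤ 1 / 20)).filter
      (fun i => ⌊η i / w⌋₊ - 1 = j), m i * Real.exp (-(η i * l)) ≤
      C * Real.exp (C3 * c) * r ^ (j + 1) := by
    intro j _
    have h3 : ∀ i ∈ (I.filter (fun i => w < η i ∧ η i ≤ 1 / 20)).filter
        (fun i => ⌊η i / w⌋₊ - 1 = j), m i * Real.exp (-(η i * l)) ≤
        m i * Real.exp (-(((j : ℝ) + 1) * w * l)) := by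
      intro i hi
      rw [Finset.mem_filter, Finset.mem_filter] at hi
      refine mul_le_mul_of_nonneg_left (Real.exp_le_exp.2 ?_) (hm i hi.1.1)
      have h4 : 1 ≤ ⌊η i / w⌋₊ := Nat.le_floor (by
        rw [Nat.cast_one, one_le_div hw0]
        exact hi.1.2.1.le)
      have h5 : ⌊η i / w⌋₊ = j + 1 := by omega
      have h6 : ((j : ℝ) + 1) ≤ η i / w := by
        have h7 := Nat.floor_le (a := η i / w) (div_nonneg (hw0.le.trans hi.1.2.1.le) hw0.le)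
        rw [h5] at h7
        push_cast at h7
        exact h7
      rw [le_div_iff₀ hw0] at h6
      have := mul_le_mul_of_nonneg_right h6 hl0
      linarith
    refine (Finset.sum_le_sum h3).trans ?_
    rw [← Finset.sum_mul]
    obtain ⟨y, hy⟩ : ∃ y, y = min (((j : ℝ) + 2) * w) (1 / 20) := ⟨_, rfl⟩
    have hy0 : 0 ≤ y := by rw [hy]; exact le_min (by positivity) (by norm_num)
    have h8 : ∑ i ∈ (I.filter (fun i => w < η i ∧ η i ≤ 1 / 20)).filter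
        (fun i => ⌊η i / w⌋₊ - 1 = j), m i ≤ C * Real.exp (C3 * y * L) := by
      refine le_trans (Finset.sum_le_sum_of_subset_of_nonneg ?_ ?_)
        (hden y hy0 (by rw [hy]; exact min_le_right _ _))
      · intro i hi
        rw [Finset.mem_filter, Finset.mem_filter] at hi
        rw [Finset.mem_filter]
        refine ⟨hi.1.1, ?_⟩
        rw [hy]
        refine le_min ?_ hi.1.2.2
        have h4 : 1 ≤ ⌊η i / w⌋₊ := Nat.le_floor (by
          rw [Nat.cast_one, one_le_div hw0]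
          exact hi.1.2.1.le)
        have h5 : ⌊η i / w⌋₊ = j + 1 := by omega
        have h6 := Nat.lt_floor_add_one (η i / w)
        rw [h5, div_lt_iff₀ hw0] at h6
        push_cast at h6
        linarith
      · intro i hi _
        exact hm i (Finset.mem_filter.1 hi).1
    have h9 : C * Real.exp (C3 * y * L) ≤ C * Real.exp (C3 * (((j : ℝ) + 2) * w) * L) := by
      refine mul_le_mul_of_nonneg_left (Real.exp_le_exp.2 ?_) hC
      have : y ≤ ((j : ℝ) + 2) * w := by rw [hy]; exact min_le_left _ _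
      exact mul_le_mul_of_nonneg_right (mul_le_mul_of_nonneg_left this hC3) hL.le
    have h10 : Real.exp (C3 * (((j : ℝ) + 2) * w) * L) * Real.exp (-(((j : ℝ) + 1) * w * l)) ≤
        Real.exp (C3 * c) * r ^ (j + 1) := by
      rw [hr, ← Real.exp_nat_mul, ← Real.exp_add, ← Real.exp_add]
      refine Real.exp_le_exp.2 ?_
      have e1 : C3 * (((j : ℝ) + 2) * w) * L = C3 * (j + 2) * c := by
        rw [← hwL]
        ring
      have e2 : ((j : ℝ) + 1) * w * l = (j + 1) * (c * l / L) := by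
        rw [hw]
        field_simp
      have e3 : c * l / (2 * L) = (c * l / L) / 2 := by
        field_simp
      rw [e1, e2, e3]
      push_cast
      have h11 : 2 * (C3 * c) ≤ c * l / L := by
        rw [le_div_iff₀ hL]
        nlinarith
      have hj0 : (0 : ℝ) ≤ (j : ℝ) + 1 := by positivity
      nlinarith [mul_le_mul_of_nonneg_left h11 hj0]
    calc (∑ i ∈ (I.filter (fun i => w < η i ∧ η i ≤ 1 / 20)).filter
          (fun i => ⌊η i / w⌋₊ - 1 = j), m i) * Real.exp (-(((j : ℝ) + 1) * w * l))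
        ≤ (C * Real.exp (C3 * (((j : ℝ) + 2) * w) * L)) *
            Real.exp (-(((j : ℝ) + 1) * w * l)) := by
          refine mul_le_mul_of_nonneg_right (h8.trans h9) (Real.exp_pos _).le
      _ = C * (Real.exp (C3 * (((j : ℝ) + 2) * w) * L) *
            Real.exp (-(((j : ℝ) + 1) * w * l))) := by ring
      _ ≤ C * (Real.exp (C3 * c) * r ^ (j + 1)) := mul_le_mul_of_nonneg_left h10 hC
      _ = _ := by ring
  refine (Finset.sum_le_sum hj).trans ?_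
  rw [← Finset.mul_sum, ← hr]
  have h12 := geo r hr0 hr1 J
  have h13 : 2 * r * (1 - (1 / 2 : ℝ) ^ J) ≤ 2 * r := by
    have : (0 : ℝ) ≤ (1 / 2) ^ J := by positivity
    nlinarith
  have h14 : 0 ≤ C * Real.exp (C3 * c) := by positivity
  calc C * Real.exp (C3 * c) * ∑ j ∈ range J, r ^ (j + 1)
      ≤ C * Real.exp (C3 * c) * (2 * r) := mul_le_mul_of_nonneg_left (h12.trans h13) h14
    _ = _ := by ring

/-- the prime powers -/
theorem prime_powers (N : ℕ) (hN : 1 ≤ N) :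
    ∑ m ∈ range N, (ArithmeticFunction.vonMangoldt m - HLT.lp m) ≤
      2 * Real.sqrt N * Real.log N := by
  have h1 := Chebyshev.psi_sub_theta_eq_sum_not_prime (N : ℝ)
  have h2 := Chebyshev.psi_sub_theta_le (x := (N : ℝ)) (by exact_mod_cast hN)
  rw [h1, Nat.floor_natCast] at h2
  refine le_trans ?_ h2
  have h3 : ∀ m : ℕ, ArithmeticFunction.vonMangoldt m - HLT.lp m =
      if ¬ m.Prime then ArithmeticFunction.vonMangoldt m else 0 := by
    intro m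
    unfold HLT.lp
    by_cases h : m.Prime
    · rw [if_pos h, if_neg (not_not.2 h), ArithmeticFunction.vonMangoldt_apply_prime h, sub_self]
    · rw [if_neg h, if_pos h, sub_zero]
  rw [Finset.sum_congr rfl fun m _ => h3 m, Finset.sum_filter]
  rw [← Finset.sum_subset (s₁ := Ioc 0 N ∩ range N) (s₂ := range N) Finset.inter_subset_right]
  · refine Finset.sum_le_sum_of_subset_of_nonneg Finset.inter_subset_left fun m _ _ => ?_
    split_ifs
    · exact le_rfl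
    · exact ArithmeticFunction.vonMangoldt_nonneg
  · intro m hm hm'
    rw [Finset.mem_range] at hm
    rw [Finset.mem_inter, Finset.mem_Ioc, Finset.mem_range] at hm'
    have h0 : m = 0 := by omega
    subst h0
    simp

theorem lam_sub_nonneg (m : ℕ) : 0 ≤ ArithmeticFunction.vonMangoldt m - HLT.lp m := by
  unfold HLT.lp
  by_cases h : m.Prime
  · rw [if_pos h, ArithmeticFunction.vonMangoldt_apply_prime h, sub_self]
  · rw [if_neg h, sub_zero]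
    exact ArithmeticFunction.vonMangoldt_nonneg

theorem pp_bound {X Q : ℕ} (hQ : 2 ≤ Q) (hX : Q ^ 1000 ≤ X)
    (hL : Real.log X ≤ 4 * Real.log Q ^ 2) :
    1 / ((X / Q ^ 5 : ℕ) : ℝ) *
      (2 * Real.sqrt ((4 * X : ℕ) : ℝ) * Real.log ((4 * X : ℕ) : ℝ)) ≤ 1 / (Q : ℝ) ^ 3 := by
  obtain ⟨hU1, hU2, hU3⟩ := FMainAux.half hQ hX
  have hQ0 : (2 : ℝ) ≤ Q := by exact_mod_cast hQ
  have hQp : (0 : ℝ) < Q := by linarith
  have hXr : (Q : ℝ) ^ 1000 ≤ X := by exact_mod_cast hX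
  have hX0 : (0 : ℝ) < X := lt_of_lt_of_le (pow_pos hQp _) hXr
  have hs0 : 0 < Real.sqrt X := Real.sqrt_pos.2 hX0
  have hss : Real.sqrt X * Real.sqrt X = X := Real.mul_self_sqrt hX0.le
  have hs : (Q : ℝ) ^ 500 ≤ Real.sqrt X := by
    rw [Real.le_sqrt' (pow_pos hQp _), ← pow_mul]
    exact hXr
  have hs4 : Real.sqrt ((4 * X : ℕ) : ℝ) = 2 * Real.sqrt X := by
    push_cast
    rw [Real.sqrt_mul (by norm_num), show (4 : ℝ) = 2 ^ 2 by norm_num,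
      Real.sqrt_sq (by norm_num)]
  have hlog : Real.log ((4 * X : ℕ) : ℝ) ≤ 6 * (Q : ℝ) ^ 2 := by
    push_cast
    rw [Real.log_mul (by norm_num) hX0.ne']
    have h1 : Real.log 4 ≤ 4 - 1 := Real.log_le_sub_one_of_pos (by norm_num)
    have h2 : Real.log Q ≤ Q := (Real.log_le_sub_one_of_pos hQp).trans (by linarith)
    have h3 : 0 ≤ Real.log Q := Real.log_nonneg (by linarith)
    have h4 : Real.log Q ^ 2 ≤ (Q : ℝ) ^ 2 := pow_le_pow_left₀ h3 h2 2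
    nlinarith
  have hlog0 : 0 ≤ Real.log ((4 * X : ℕ) : ℝ) := Real.log_natCast_nonneg _
  have hU0 : (0 : ℝ) < ((X / Q ^ 5 : ℕ) : ℝ) := by exact_mod_cast hU3
  have hU4 : 1 / ((X / Q ^ 5 : ℕ) : ℝ) ≤ 2 * (Q : ℝ) ^ 5 / X := by
    rw [div_le_div_iff₀ hU0 hX0, one_mul]
    rw [div_le_iff₀ (by positivity)] at hU1
    linarith
  rw [hs4]
  have h5 : 2 * (2 * Real.sqrt X) * Real.log ((4 * X : ℕ) : ℝ) ≤
      4 * Real.sqrt X * (6 * (Q : ℝ) ^ 2) := by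
    have := mul_le_mul_of_nonneg_left hlog (by positivity : 0 ≤ 4 * Real.sqrt X)
    linarith
  refine (mul_le_mul hU4 h5 (by positivity) (by positivity)).trans ?_
  have e : 2 * (Q : ℝ) ^ 5 / X * (4 * Real.sqrt X * (6 * (Q : ℝ) ^ 2)) =
      48 * (Q : ℝ) ^ 7 / Real.sqrt X := by
    rw [div_mul_eq_mul_div, div_eq_div_iff hX0.ne' hs0.ne']
    linear_combination (48 * (Q : ℝ) ^ 7) * hss
  rw [e, div_le_div_iff₀ hs0 (by positivity), one_mul]
  refine le_trans ?_ hs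
  have h6 : (2 : ℝ) ^ 6 * 1 ≤ (Q : ℝ) ^ 6 * (Q : ℝ) ^ 484 :=
    mul_le_mul (pow_le_pow_left₀ (by norm_num) hQ0 6) (one_le_pow₀ (by linarith)) (by norm_num)
      (by positivity)
  have e2 : (Q : ℝ) ^ 500 = (Q : ℝ) ^ 10 * ((Q : ℝ) ^ 6 * (Q : ℝ) ^ 484) := by
    rw [← pow_add, ← pow_add]
  have e3 : 48 * (Q : ℝ) ^ 7 * (Q : ℝ) ^ 3 = (Q : ℝ) ^ 10 * 48 := by ring
  rw [e2, e3]
  refine mul_le_mul_of_nonneg_left ?_ (by positivity)
  linarith

theorem Mc_close {X Q : ℕ} (hQ : 2 ≤ Q) (hX : Q ^ 1000 ≤ X)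
    (hL : Real.log X ≤ 4 * Real.log Q ^ 2) (x : CI) (n : ℕ) :
    ‖Mc X Q x n - ∑ m ∈ Finset.range (4 * X), ((Kf (X / Q ^ 5) ((m : ℤ) - n) *
          (vw X Q m * ArithmeticFunction.vonMangoldt m) : ℝ) : ℂ) * cv x m‖ ≤
      1 / (Q : ℝ) ^ 3 := by
  obtain ⟨-, -, hU3⟩ := FMainAux.half hQ hX
  have hU0 : (0 : ℝ) < ((X / Q ^ 5 : ℕ) : ℝ) := by exact_mod_cast hU3
  unfold Mc cn
  rw [← Finset.sum_sub_distrib]
  refine (norm_sum_le _ _).trans ?_
  have h1 : ∀ m ∈ range (4 * X), ‖((Kf (X / Q ^ 5) ((m : ℤ) - n) * W X Q m : ℝ) : ℂ) * cv x m -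
      ((Kf (X / Q ^ 5) ((m : ℤ) - n) *
        (vw X Q m * ArithmeticFunction.vonMangoldt m) : ℝ) : ℂ) * cv x m‖ ≤
      1 / ((X / Q ^ 5 : ℕ) : ℝ) * (ArithmeticFunction.vonMangoldt m - HLT.lp m) := by
    intro m _
    rw [← sub_mul, norm_mul, ← Complex.ofReal_sub, Complex.norm_real]
    have e : Kf (X / Q ^ 5) ((m : ℤ) - n) * W X Q m - Kf (X / Q ^ 5) ((m : ℤ) - n) *
        (vw X Q m * ArithmeticFunction.vonMangoldt m) =
        -(Kf (X / Q ^ 5) ((m : ℤ) - n) * vw X Q m *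
          (ArithmeticFunction.vonMangoldt m - HLT.lp m)) := by
      unfold W
      ring
    have hK0 : 0 ≤ Kf (X / Q ^ 5) ((m : ℤ) - n) := by
      rw [FMainAux.Kf_eq]
      exact tri_nonneg _ _ _
    have hK1 : Kf (X / Q ^ 5) ((m : ℤ) - n) ≤ 1 / ((X / Q ^ 5 : ℕ) : ℝ) := by
      rw [FMainAux.Kf_eq]
      exact tri_le hU0 _ _
    have hv0 := vw_nonneg X Q m
    have hv1 := vw_le_one X Q m
    have hl := lam_sub_nonneg m
    rw [e, norm_neg, Real.norm_of_nonneg (by positivity)]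
    have h2 : Kf (X / Q ^ 5) ((m : ℤ) - n) * vw X Q m ≤ 1 / ((X / Q ^ 5 : ℕ) : ℝ) * 1 :=
      mul_le_mul hK1 hv1 hv0 (by positivity)
    rw [mul_one] at h2
    have h3 : Kf (X / Q ^ 5) ((m : ℤ) - n) * vw X Q m *
        (ArithmeticFunction.vonMangoldt m - HLT.lp m) ≤
        1 / ((X / Q ^ 5 : ℕ) : ℝ) * (ArithmeticFunction.vonMangoldt m - HLT.lp m) :=
      mul_le_mul_of_nonneg_right h2 hl
    have h4 : 0 ≤ Kf (X / Q ^ 5) ((m : ℤ) - n) * vw X Q m *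
        (ArithmeticFunction.vonMangoldt m - HLT.lp m) := by positivity
    calc _ ≤ Kf (X / Q ^ 5) ((m : ℤ) - n) * vw X Q m *
        (ArithmeticFunction.vonMangoldt m - HLT.lp m) * 1 :=
          mul_le_mul_of_nonneg_left (norm_cv_le x m) h4
      _ ≤ _ := by rw [mul_one]; exact h3
  refine (Finset.sum_le_sum h1).trans ?_
  rw [← Finset.mul_sum]
  have hX1 : 1 ≤ 4 * X := by
    have : 1 ≤ X := le_trans (Nat.one_le_pow _ _ (by omega)) hX
    omega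
  refine le_trans ?_ (pp_bound hQ hX hL)
  exact mul_le_mul_of_nonneg_left (prime_powers (4 * X) hX1) (by positivity)

theorem int_wtF_le {X Q : ℕ} (hU : 0 < X / Q ^ 5) (n : ℕ) : ‖∫ t, (wtF X Q n t : ℂ)‖ ≤ 1 := by
  have hU' : (0 : ℝ) < ((X / Q ^ 5 : ℕ) : ℝ) := by exact_mod_cast hU
  rw [FMainAux.integral_line (U := ((X / Q ^ 5 : ℕ) : ℝ)) (y := (n : ℝ))]
  · have h := FMainAux.norm_tri_integral (U := ((X / Q ^ 5 : ℕ) : ℝ)) (y := (n : ℝ)) (B := 1) hU'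
      (g := fun x => (vw X Q x : ℂ)) (fun x _ => by
        rw [Complex.norm_real, Real.norm_of_nonneg (vw_nonneg _ _ _)]
        exact vw_le_one _ _ _)
    unfold wtF
    simpa only [Complex.ofReal_mul] using h
  · intro t ht
    unfold wtF
    rw [tri_eq_zero ht]
    simp

theorem int_wtF_eq {X Q : ℕ} (hQ : 2 ≤ Q) (hX : Q ^ 1000 ≤ X) (n : ℕ)
    (h1 : 3 * X ≤ n * Q) (h2 : n * Q + X ≤ 2 * X * Q) :
    ∫ t, (wtF X Q n t : ℂ) = 1 := by
  obtain ⟨-, hU2, hU3⟩ := FMainAux.half hQ hX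
  obtain ⟨U, hU⟩ : ∃ U : ℝ, U = ((X / Q ^ 5 : ℕ) : ℝ) := ⟨_, rfl⟩
  have hU' : 0 < U := by rw [hU]; exact_mod_cast hU3
  have hQ0 : (2 : ℝ) ≤ Q := by exact_mod_cast hQ
  have hQp : (0 : ℝ) < Q := by linarith
  have hXr : (Q : ℝ) ^ 1000 ≤ X := by exact_mod_cast hX
  have hX0 : (0 : ℝ) < X := lt_of_lt_of_le (pow_pos hQp _) hXr
  have h1r : 3 * (X : ℝ) ≤ n * Q := by exact_mod_cast h1
  have h2r : (n : ℝ) * Q + X ≤ 2 * X * Q := by exact_mod_cast h2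
  have hUQ : U * Q ≤ X := by
    have h3 : U * (Q : ℝ) ^ 5 ≤ X := by
      rw [hU]
      rwa [le_div_iff₀ (by positivity)] at hU2
    have h4 : (Q : ℝ) ≤ (Q : ℝ) ^ 5 := by
      calc (Q : ℝ) = (Q : ℝ) ^ 1 := (pow_one _).symm
        _ ≤ (Q : ℝ) ^ 5 := pow_le_pow_right₀ (by linarith) (by norm_num)
    exact (mul_le_mul_of_nonneg_left h4 hU'.le).trans h3
  rw [FMainAux.integral_line (U := U) (y := (n : ℝ))]
  · have h : ∫ t in ((n : ℝ) - U)..((n : ℝ) + U), (wtF X Q n t : ℂ) =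
        ∫ t in ((n : ℝ) - U)..((n : ℝ) + U), ((tri U n t : ℝ) : ℂ) := by
      refine intervalIntegral.integral_congr fun t ht => ?_
      rw [Set.uIcc_of_le (by linarith)] at ht
      have ht1 := ht.1
      have ht2 := ht.2
      have hv : vw X Q t = 1 := by
        unfold vw
        have h5 : 1 ≤ t * Q / X - 1 := by
          rw [le_sub_iff_add_le, le_div_iff₀ hX0]
          nlinarith
        have h6 : 1 ≤ 2 * (Q : ℝ) + 1 - t * Q / X := by
          have h7 : t * Q / X ≤ 2 * Q := by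
            rw [div_le_iff₀ hX0]
            nlinarith
          linarith
        rw [min_eq_left (le_min h5 h6), max_eq_right zero_le_one]
      simp only [wtF]
      rw [hv, mul_one, ← hU]
    rw [h, intervalIntegral.integral_ofReal, integral_tri hU', Complex.ofReal_one]
  · intro t ht
    unfold wtF
    rw [← hU, tri_eq_zero ht]
    simp

theorem eq_one {Q : ℕ} {x : CI} (hx : x ∈ Ch Q) (h : x.2 = 1) : x = one := by
  obtain ⟨q, χ⟩ := x
  have h1 : χ = 1 := h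
  subst h1
  have h2 := (mem_Ch.1 hx).2
  have h3 : (1 : DirichletCharacter ℂ (q + 1)).IsPrimitive := h2
  rw [DirichletCharacter.isPrimitive_def, DirichletCharacter.conductor_one] at h3
  have h4 : q = 0 := by omega
  subst h4
  rfl

theorem card_Ch' (Q : ℕ) : (Ch Q).card ≤ Q * Q := by
  classical
  unfold Ch
  rw [card_sigma]
  calc ∑ q ∈ range Q, (univ.filter fun χ : DirichletCharacter ℂ (q + 1) => χ.IsPrimitive).card
      ≤ ∑ q ∈ range Q, Q := by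
        refine sum_le_sum fun q hq => ?_
        refine (card_filter_le _ _).trans ?_
        rw [card_univ, ← Nat.card_eq_fintype_card,
          DirichletCharacter.card_eq_totient_of_hasEnoughRootsOfUnity ℂ (q + 1)]
        refine (Nat.totient_le _).trans ?_
        rw [mem_range] at hq
        omega
    _ = Q * Q := by rw [sum_const, card_range, smul_eq_mul]

/-- the sum over the zeros of a character -/
noncomputable def Nx (X Q : ℕ) (x : CI) : ℝ :=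
  ∑ ρ ∈ Z x.2 ((Q : ℝ) ^ 30), (mul x.2 ρ : ℝ) * ((X : ℝ) / Q) ^ (ρ.re - 1)

/-- all the zeros -/
noncomputable def II (Q : ℕ) : Finset ((_ : CI) × ℂ) :=
  (Ch Q).sigma fun x => Z x.2 ((Q : ℝ) ^ 30)

/-- the multiplicity -/
noncomputable def mm (i : (_ : CI) × ℂ) : ℝ := (mul i.1.2 i.2 : ℝ)

theorem mm_nonneg (i : (_ : CI) × ℂ) : 0 ≤ mm i := Nat.cast_nonneg _

theorem den {C C3 : ℝ} {Q : ℕ} {y : ℝ}
    (h : (open scoped Classical in ∑ q ∈ range Q, ∑ χ : DirichletCharacter ℂ (q + 1),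
      (if χ.IsPrimitive then
        ∑ ρ ∈ (Z χ ((Q : ℝ) ^ 30)).filter (fun ρ => 1 - y ≤ ρ.re), (mul χ ρ : ℝ) else 0)) ≤
      C * Real.exp (C3 * y * Real.log Q)) :
    ∑ i ∈ (II Q).filter (fun i => 1 - i.2.re ≤ y), mm i ≤ C * Real.exp (C3 * y * Real.log Q) := by
  classical
  refine le_trans (le_of_eq ?_) h
  rw [Finset.sum_filter, II, Finset.sum_sigma, Ch, Finset.sum_sigma]
  refine Finset.sum_congr rfl fun q _ => ?_
  rw [Finset.sum_filter]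
  refine Finset.sum_congr rfl fun χ _ => ?_
  split_ifs with hp
  · rw [Finset.sum_filter]
    refine Finset.sum_congr rfl fun ρ _ => ?_
    have e : (1 - ρ.re ≤ y) ↔ (1 - y ≤ ρ.re) := by
      constructor <;> intro h <;> linarith
    by_cases h5 : 1 - ρ.re ≤ y
    · rw [if_pos h5, if_pos (e.1 h5)]
      rfl
    · rw [if_neg h5, if_neg (fun h6 => h5 (e.2 h6))]
  · rfl

theorem cnt {C4 : ℝ} (hC4 : 1 ≤ C4) (h : ∀ (q : ℕ) [NeZero q] (χ : DirichletCharacter ℂ q) (T : ℝ),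
    χ.IsPrimitive → 2 ≤ T → ∑ ρ ∈ Z χ T, (mul χ ρ : ℝ) ≤ C4 * T * Real.log (q * T))
    {Q : ℕ} (hQ : 2 ≤ Q) : ∑ i ∈ II Q, mm i ≤ 31 * C4 * (Q : ℝ) ^ 33 := by
  have hQ0 : (2 : ℝ) ≤ Q := by exact_mod_cast hQ
  have hQp : (0 : ℝ) < Q := by linarith
  rw [II, Finset.sum_sigma]
  have h1 : ∀ x ∈ Ch Q, ∑ ρ ∈ Z x.2 ((Q : ℝ) ^ 30), mm ⟨x, ρ⟩ ≤ 31 * C4 * (Q : ℝ) ^ 31 := by
    intro x hx
    have hT : (2 : ℝ) ≤ (Q : ℝ) ^ 30 := by
      calc (2 : ℝ) ≤ (Q : ℝ) ^ 1 := by rw [pow_one]; exact hQ0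
        _ ≤ (Q : ℝ) ^ 30 := pow_le_pow_right₀ (by linarith) (by norm_num)
    have h2 := h (x.1 + 1) x.2 ((Q : ℝ) ^ 30) (mem_Ch.1 hx).2 hT
    have h3 : ((x.1 + 1 : ℕ) : ℝ) ≤ Q := by
      have := (mem_Ch.1 hx).1
      unfold md at this
      exact_mod_cast this
    have h4 : Real.log (((x.1 + 1 : ℕ) : ℝ) * (Q : ℝ) ^ 30) ≤ 31 * Q := by
      have h5 : ((x.1 + 1 : ℕ) : ℝ) * (Q : ℝ) ^ 30 ≤ (Q : ℝ) ^ 31 := by
        rw [pow_succ' (Q : ℝ) 30]
        exact mul_le_mul_of_nonneg_right h3 (by positivity)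
      refine (Real.log_le_log (by positivity) h5).trans ?_
      rw [Real.log_pow]
      have := Real.log_le_sub_one_of_pos hQp
      push_cast
      linarith
    have h6 : ∑ ρ ∈ Z x.2 ((Q : ℝ) ^ 30), mm ⟨x, ρ⟩ =
        ∑ ρ ∈ Z x.2 ((Q : ℝ) ^ 30), (mul x.2 ρ : ℝ) := rfl
    rw [h6]
    refine h2.trans ?_
    have h7 : 0 ≤ C4 * (Q : ℝ) ^ 30 := by positivity
    calc C4 * (Q : ℝ) ^ 30 * Real.log (((x.1 + 1 : ℕ) : ℝ) * (Q : ℝ) ^ 30)
        ≤ C4 * (Q : ℝ) ^ 30 * (31 * Q) := mul_le_mul_of_nonneg_left h4 h7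
      _ = 31 * C4 * (Q : ℝ) ^ 31 := by ring
  refine (Finset.sum_le_sum h1).trans ?_
  rw [Finset.sum_const, nsmul_eq_mul]
  have h8 : ((Ch Q).card : ℝ) ≤ Q * Q := by exact_mod_cast card_Ch' Q
  have h9 : 0 ≤ 31 * C4 * (Q : ℝ) ^ 31 := by positivity
  calc ((Ch Q).card : ℝ) * (31 * C4 * (Q : ℝ) ^ 31)
      ≤ ((Q : ℝ) * Q) * (31 * C4 * (Q : ℝ) ^ 31) := mul_le_mul_of_nonneg_right h8 h9
    _ = 31 * C4 * (Q : ℝ) ^ 33 := by ring

theorem Nx_eq {X Q : ℕ} (hX : 0 < X) (hQ : 0 < Q) (S : Finset CI) :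
    ∑ x ∈ S, Nx X Q x = ∑ i ∈ S.sigma fun x => Z x.2 ((Q : ℝ) ^ 30),
      mm i * Real.exp (-((1 - i.2.re) * Real.log ((X : ℝ) / Q))) := by
  rw [Finset.sum_sigma]
  refine Finset.sum_congr rfl fun x _ => ?_
  unfold Nx mm
  refine Finset.sum_congr rfl fun ρ _ => ?_
  have hY : (0 : ℝ) < (X : ℝ) / Q := by
    have h1 : (0 : ℝ) < X := by exact_mod_cast hX
    have h2 : (0 : ℝ) < Q := by exact_mod_cast hQ
    positivity
  rw [Real.rpow_def_of_pos hY]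
  congr 2
  ring

/-- the tail -/
noncomputable def TT (C C3 C4 c : ℝ) (X Q : ℕ) : ℝ :=
  2 * C * Real.exp (C3 * c) * Real.exp (-(c * Real.log ((X : ℝ) / Q) / (2 * Real.log Q))) +
    31 * C4 * (Q : ℝ) ^ 33 * Real.exp (-(Real.log ((X : ℝ) / Q) / 20))

theorem tail {C C3 C4 c : ℝ} {X Q : ℕ} (hC : 0 < C) (hC3 : 0 < C3) (_hC4 : 1 ≤ C4) (hc : 0 < c)
    (hQ : 2 ≤ Q)
    (hden : ∀ y : ℝ, 0 ≤ y → y ≤ 1 / 20 → ∑ i ∈ (II Q).filter (fun i => 1 - i.2.re ≤ y), mm i ≤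
      C * Real.exp (C3 * y * Real.log Q))
    (hcnt : ∑ i ∈ II Q, mm i ≤ 31 * C4 * (Q : ℝ) ^ 33)
    (h1 : 2 * C3 * Real.log Q ≤ Real.log ((X : ℝ) / Q))
    (h2 : 2 * Real.log Q ≤ c * Real.log ((X : ℝ) / Q)) (J : Finset ((_ : CI) × ℂ))
    (hJ : J ⊆ II Q) (hJc : ∀ i ∈ J, c / Real.log Q < 1 - i.2.re) :
    ∑ i ∈ J, mm i * Real.exp (-((1 - i.2.re) * Real.log ((X : ℝ) / Q))) ≤ TT C C3 C4 c X Q := by
  classical
  have hQ0 : (2 : ℝ) ≤ Q := by exact_mod_cast hQ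
  have hL : 0 < Real.log Q := Real.log_pos (by linarith)
  have hl0 : 0 ≤ Real.log ((X : ℝ) / Q) := le_trans (by positivity) h1
  have hlay := layer (II Q) mm (fun i => 1 - i.2.re) (fun i _ => mm_nonneg i) hC.le hC3.le hL hc
    hden h1 h2
  unfold TT
  rw [← Finset.sum_filter_add_sum_filter_not J (fun i => 1 - i.2.re ≤ 1 / 20)]
  refine add_le_add (le_trans ?_ hlay) ?_
  · refine Finset.sum_le_sum_of_subset_of_nonneg ?_ fun i _ _ =>
      mul_nonneg (mm_nonneg i) (Real.exp_pos _).le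
    intro i hi
    rw [Finset.mem_filter] at hi ⊢
    exact ⟨hJ hi.1, hJc i hi.1, hi.2⟩
  · have h3 : ∀ i ∈ J.filter (fun i => ¬ 1 - i.2.re ≤ 1 / 20),
        mm i * Real.exp (-((1 - i.2.re) * Real.log ((X : ℝ) / Q))) ≤
        mm i * Real.exp (-(Real.log ((X : ℝ) / Q) / 20)) := by
      intro i hi
      rw [Finset.mem_filter, not_le] at hi
      refine mul_le_mul_of_nonneg_left (Real.exp_le_exp.2 ?_) (mm_nonneg i)
      have := mul_le_mul_of_nonneg_right hi.2.le hl0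
      linarith
    refine (Finset.sum_le_sum h3).trans ?_
    rw [← Finset.sum_mul]
    refine mul_le_mul_of_nonneg_right (le_trans ?_ hcnt) (Real.exp_pos _).le
    refine Finset.sum_le_sum_of_subset_of_nonneg ?_ fun i _ _ => mm_nonneg i
    exact (Finset.filter_subset _ _).trans hJ

theorem total {C C3 C4 c : ℝ} {X Q : ℕ} (hC : 0 < C) (hC3 : 0 < C3) (hC4 : 1 ≤ C4) (hc : 0 < c)
    (hQ : 2 ≤ Q)
    (hden : ∀ y : ℝ, 0 ≤ y → y ≤ 1 / 20 → ∑ i ∈ (II Q).filter (fun i => 1 - i.2.re ≤ y), mm i ≤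
      C * Real.exp (C3 * y * Real.log Q))
    (hcnt : ∑ i ∈ II Q, mm i ≤ 31 * C4 * (Q : ℝ) ^ 33)
    (h0 : c / Real.log Q ≤ 1 / 20)
    (h1 : 2 * C3 * Real.log Q ≤ Real.log ((X : ℝ) / Q))
    (h2 : 2 * Real.log Q ≤ c * Real.log ((X : ℝ) / Q)) :
    ∑ i ∈ II Q, mm i * Real.exp (-((1 - i.2.re) * Real.log ((X : ℝ) / Q))) ≤
      C * Real.exp (C3 * c) + TT C C3 C4 c X Q := by
  classical
  have hQ0 : (2 : ℝ) ≤ Q := by exact_mod_cast hQ
  have hL : 0 < Real.log Q := Real.log_pos (by linarith)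
  have hl0 : 0 ≤ Real.log ((X : ℝ) / Q) := le_trans (by positivity) h1
  rw [← Finset.sum_filter_add_sum_filter_not (II Q) (fun i => 1 - i.2.re ≤ c / Real.log Q)]
  refine add_le_add ?_ ?_
  · have h3 := hden (c / Real.log Q) (by positivity) h0
    have e : C3 * (c / Real.log Q) * Real.log Q = C3 * c := by field_simp
    rw [e] at h3
    refine le_trans (Finset.sum_le_sum fun i hi => ?_) h3
    rw [Finset.mem_filter, II, Finset.mem_sigma] at hi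
    have h4 := re_lt_one_of_mem_Z hi.1.2
    have h5 : Real.exp (-((1 - i.2.re) * Real.log ((X : ℝ) / Q))) ≤ 1 := by
      rw [Real.exp_le_one_iff]
      have : 0 ≤ (1 - i.2.re) * Real.log ((X : ℝ) / Q) := mul_nonneg (by linarith) hl0
      linarith
    calc _ ≤ mm i * 1 := mul_le_mul_of_nonneg_left h5 (mm_nonneg i)
      _ = mm i := mul_one _
  · refine tail hC hC3 hC4 hc hQ hden hcnt h1 h2 _ (Finset.filter_subset _ _) fun i hi => ?_
    rw [Finset.mem_filter, not_le] at hi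
    exact hi.2

theorem key : ∃ (C0 : ℝ) (X1 : ℕ), 1 ≤ C0 ∧ ∀ X Q : ℕ, X1 ≤ X → 2 ≤ Q →
    Real.log X ≤ 4 * Real.log Q ^ 2 → Q ^ 1000 ≤ X → ∀ x ∈ Ch Q, ∀ n : ℕ,
      (x.2 ≠ 1 → ‖Mc X Q x n‖ ≤ C0 * Nx X Q x + C0 / (Q : ℝ) ^ 3) ∧
      (x.2 = 1 → ‖Mc X Q x n - ∫ t, (wtF X Q n t : ℂ)‖ ≤ C0 * Nx X Q x + C0 / (Q : ℝ) ^ 3) := by
  obtain ⟨Ce, X1, hef⟩ := explicit_formula
  refine ⟨max Ce 0 + 1, X1, by linarith [le_max_right Ce 0], ?_⟩
  intro X Q hX1 hQ hL hX x hx n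
  have h := hef X Q hX1 hL hX x hx n ∅ (Finset.empty_subset _)
  rw [Finset.sum_empty, Finset.sum_empty, add_zero, add_zero, Finset.sdiff_empty, mul_one] at h
  have hc := Mc_close hQ hX hL x n
  have hN : 0 ≤ Nx X Q x := Finset.sum_nonneg fun ρ _ =>
    mul_nonneg (Nat.cast_nonneg _) (Real.rpow_nonneg (by positivity) _)
  have hQp : (0 : ℝ) < Q := by
    have : (2 : ℝ) ≤ Q := by exact_mod_cast hQ
    linarith
  have h2 : Ce * Nx X Q x + Ce / (Q : ℝ) ^ 3 + 1 / (Q : ℝ) ^ 3 ≤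
      (max Ce 0 + 1) * Nx X Q x + (max Ce 0 + 1) / (Q : ℝ) ^ 3 := by
    have h3 : Ce ≤ max Ce 0 := le_max_left _ _
    have h4 : Ce * Nx X Q x ≤ (max Ce 0 + 1) * Nx X Q x :=
      mul_le_mul_of_nonneg_right (by linarith) hN
    have h5 : Ce / (Q : ℝ) ^ 3 + 1 / (Q : ℝ) ^ 3 ≤ (max Ce 0 + 1) / (Q : ℝ) ^ 3 := by
      rw [← add_div]
      exact div_le_div_of_nonneg_right (by linarith) (by positivity)
    linarith
  constructor
  · intro h1
    rw [if_neg h1, sub_zero] at h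
    refine le_trans ?_ h2
    have h6 := norm_add_le (Mc X Q x n - ∑ m ∈ Finset.range (4 * X),
      ((Kf (X / Q ^ 5) ((m : ℤ) - n) *
        (vw X Q m * ArithmeticFunction.vonMangoldt m) : ℝ) : ℂ) * cv x m)
      (∑ m ∈ Finset.range (4 * X), ((Kf (X / Q ^ 5) ((m : ℤ) - n) *
          (vw X Q m * ArithmeticFunction.vonMangoldt m) : ℝ) : ℂ) * cv x m)
    rw [sub_add_cancel] at h6
    have h7 := h6.trans (add_le_add hc h)
    unfold Nx
    linarith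
  · intro h1
    rw [if_pos h1] at h
    refine le_trans ?_ h2
    have h6 := norm_add_le (Mc X Q x n - ∑ m ∈ Finset.range (4 * X),
      ((Kf (X / Q ^ 5) ((m : ℤ) - n) *
        (vw X Q m * ArithmeticFunction.vonMangoldt m) : ℝ) : ℂ) * cv x m)
      ((∑ m ∈ Finset.range (4 * X), ((Kf (X / Q ^ 5) ((m : ℤ) - n) *
          (vw X Q m * ArithmeticFunction.vonMangoldt m) : ℝ) : ℂ) * cv x m) -
        ∫ t, (wtF X Q n t : ℂ))
    rw [sub_add_sub_cancel] at h6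
    have h7 := h6.trans (add_le_add hc h)
    unfold Nx
    linarith

theorem TT_le {C C3 C4 c : ℝ} {X Q : ℕ} (hC : 0 < C) (hC4 : 1 ≤ C4) (hc : 0 < c) (hQ : 2 ≤ Q)
    (hX : Q ^ 1000 ≤ X) (hL : Real.log X ≤ 4 * Real.log Q ^ 2) :
    TT C C3 C4 c X Q ≤ (2 * C * Real.exp (C3 * c) + 31 * C4) * Er (min (c / 4) (1 / 4)) X Q ∧
      1 / (Q : ℝ) ≤ Er (min (c / 4) (1 / 4)) X Q := by
  have hQ0 : (2 : ℝ) ≤ Q := by exact_mod_cast hQ
  have hQp : (0 : ℝ) < Q := by linarith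
  have hL0 : 0 < Real.log Q := Real.log_pos (by linarith)
  have hXr : (Q : ℝ) ^ 1000 ≤ X := by exact_mod_cast hX
  have hX0 : (0 : ℝ) < X := lt_of_lt_of_le (pow_pos hQp _) hXr
  have hlX : 1000 * Real.log Q ≤ Real.log X := by
    have h := Real.log_le_log (pow_pos hQp 1000) hXr
    rw [Real.log_pow] at h
    exact_mod_cast h
  have hl : Real.log ((X : ℝ) / Q) = Real.log X - Real.log Q := Real.log_div hX0.ne' hQp.ne'
  obtain ⟨a, ha⟩ : ∃ a, a = min (c / 4) (1 / 4) := ⟨_, rfl⟩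
  have ha1 : a ≤ c / 4 := by rw [ha]; exact min_le_left _ _
  have ha2 : a ≤ 1 / 4 := by rw [ha]; exact min_le_right _ _
  have hX1 : 0 ≤ Real.log X := le_trans (by positivity) hlX
  rw [← ha]
  have h1 : Real.exp (-(c * Real.log ((X : ℝ) / Q) / (2 * Real.log Q))) ≤ Er a X Q := by
    unfold Er
    refine Real.exp_le_exp.2 (neg_le_neg ?_)
    rw [hl, div_le_div_iff₀ hL0 (by positivity)]
    have h3 : a * Real.log X ≤ c / 4 * Real.log X := mul_le_mul_of_nonneg_right ha1 hX1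
    have h4 : c / 4 * Real.log X * 2 ≤ c * (Real.log X - Real.log Q) := by
      have h5 : Real.log X / 2 ≤ Real.log X - Real.log Q := by linarith
      have := mul_le_mul_of_nonneg_left h5 hc.le
      linarith
    have h6 : 2 * (a * Real.log X) ≤ c * (Real.log X - Real.log Q) := by linarith
    have := mul_le_mul_of_nonneg_right h6 hL0.le
    linarith
  have h3 : Real.exp (-Real.log Q) ≤ Er a X Q := by
    unfold Er
    refine Real.exp_le_exp.2 (neg_le_neg ?_)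
    rw [div_le_iff₀ hL0]
    have h4 : a * Real.log X ≤ 1 / 4 * Real.log X := mul_le_mul_of_nonneg_right ha2 hX1
    nlinarith
  have h2 : (Q : ℝ) ^ 33 * Real.exp (-(Real.log ((X : ℝ) / Q) / 20)) ≤ Er a X Q := by
    refine le_trans ?_ h3
    have e : (Q : ℝ) ^ 33 = Real.exp (33 * Real.log Q) := by
      rw [show (33 : ℝ) = ((33 : ℕ) : ℝ) by norm_num, Real.exp_nat_mul, Real.exp_log hQp]
    rw [e, ← Real.exp_add]
    refine Real.exp_le_exp.2 ?_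
    rw [hl]
    linarith
  refine ⟨?_, ?_⟩
  · unfold TT
    have h5 : 0 ≤ 2 * C * Real.exp (C3 * c) := by positivity
    have h6 := mul_le_mul_of_nonneg_left h1 h5
    have h7 := mul_le_mul_of_nonneg_left h2 (by positivity : 0 ≤ 31 * C4)
    linarith
  · rw [Real.exp_neg, Real.exp_log hQp] at h3
    rw [one_div]
    exact h3

theorem params {C3 c c2 : ℝ} {X Q : ℕ} (hC3 : 0 < C3) (hc : 0 < c) (hc21 : c2 ≤ 1 / 1000)
    (hc22 : c2 ≤ 1 / (4 * C3)) (hc23 : c2 ≤ c / 4) (hX : Real.exp ((40 * c + 2) ^ 2) ≤ X)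
    (hR : Rg c2 X Q) :
    2 ≤ Q ∧ Real.log X ≤ 4 * Real.log Q ^ 2 ∧ Q ^ 1000 ≤ X ∧ c / Real.log Q ≤ 1 / 20 ∧
      2 * C3 * Real.log Q ≤ Real.log ((X : ℝ) / Q) ∧
      2 * Real.log Q ≤ c * Real.log ((X : ℝ) / Q) := by
  obtain ⟨hR1, hR2⟩ := hR
  have hX0 : (0 : ℝ) < X := lt_of_lt_of_le (Real.exp_pos _) hX
  have hlX : (40 * c + 2) ^ 2 ≤ Real.log X := (Real.le_log_iff_exp_le hX0).2 hX
  have hlX0 : 0 ≤ Real.log X := le_trans (by positivity) hlX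
  have hQ0 : (0 : ℝ) < Q := lt_of_lt_of_le (Real.exp_pos _) hR1
  have hs : 40 * c + 2 ≤ Real.sqrt (Real.log X) := by
    rw [Real.le_sqrt' (by positivity)]
    exact hlX
  have hL : Real.sqrt (Real.log X) / 2 ≤ Real.log Q := (Real.le_log_iff_exp_le hQ0).2 hR1
  have hL1 : 20 * c + 1 ≤ Real.log Q := by linarith
  have hL0 : 0 < Real.log Q := by linarith
  have hQ2 : 2 ≤ Q := by
    by_contra hcon
    have h1 : Q = 0 ∨ Q = 1 := by omega
    have h0 : Real.log Q = 0 := by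
      rcases h1 with h | h <;> subst h <;> simp
    rw [h0] at hL0
    exact lt_irrefl _ hL0
  have hLc : Real.log Q ≤ c2 * Real.log X := by
    have := Real.log_le_log hQ0 hR2
    rwa [Real.log_rpow hX0] at this
  have hl : Real.log ((X : ℝ) / Q) = Real.log X - Real.log Q := Real.log_div hX0.ne' hQ0.ne'
  have hk1 : 1000 * Real.log Q ≤ Real.log X := by
    have := mul_le_mul_of_nonneg_right hc21 hlX0
    linarith
  have hk2 : 4 * C3 * Real.log Q ≤ Real.log X := by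
    have h1 := mul_le_mul_of_nonneg_right hc22 hlX0
    have h2 : Real.log Q ≤ 1 / (4 * C3) * Real.log X := hLc.trans h1
    have h3 := mul_le_mul_of_nonneg_left h2 (by positivity : 0 ≤ 4 * C3)
    have e : 4 * C3 * (1 / (4 * C3) * Real.log X) = Real.log X := by field_simp
    rw [e] at h3
    exact h3
  have hk3 : Real.log Q ≤ c / 4 * Real.log X := hLc.trans (mul_le_mul_of_nonneg_right hc23 hlX0)
  refine ⟨hQ2, ?_, ?_, ?_, ?_, ?_⟩
  · have h1 : Real.sqrt (Real.log X) ≤ 2 * Real.log Q := by linarith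
    have h2 := pow_le_pow_left₀ (Real.sqrt_nonneg _) h1 2
    rw [Real.sq_sqrt hlX0] at h2
    linarith
  · have h1 : Real.log ((Q : ℝ) ^ 1000) ≤ Real.log X := by
      rw [Real.log_pow]
      exact_mod_cast hk1
    rw [Real.log_le_log_iff (pow_pos hQ0 _) hX0] at h1
    exact_mod_cast h1
  · rw [div_le_iff₀ hL0]
    linarith
  · rw [hl]
    linarith
  · rw [hl]
    have h1 : Real.log X / 2 ≤ Real.log X - Real.log Q := by linarith
    have := mul_le_mul_of_nonneg_left h1 hc.le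
    linarith

/-- the bound for the characters -/
noncomputable def bb (C0 : ℝ) (X Q : ℕ) (x : CI) : ℝ :=
  C0 * Nx X Q x + C0 / (Q : ℝ) ^ 3 + (open scoped Classical in if x = one then 1 else 0)

open scoped Classical in
theorem core {C C3 C4 c C0 : ℝ} {X Q : ℕ} (hC : 0 < C) (hC3 : 0 < C3) (hC4 : 1 ≤ C4) (hc : 0 < c)
    (hC0 : 1 ≤ C0) (hQ : 2 ≤ Q) (hX : Q ^ 1000 ≤ X) (hL : Real.log X ≤ 4 * Real.log Q ^ 2)
    (hden : ∀ y : ℝ, 0 ≤ y → y ≤ 1 / 20 → ∑ i ∈ (II Q).filter (fun i => 1 - i.2.re ≤ y), mm i ≤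
      C * Real.exp (C3 * y * Real.log Q))
    (hcnt : ∑ i ∈ II Q, mm i ≤ 31 * C4 * (Q : ℝ) ^ 33)
    (h0 : c / Real.log Q ≤ 1 / 20)
    (h1 : 2 * C3 * Real.log Q ≤ Real.log ((X : ℝ) / Q))
    (h2 : 2 * Real.log Q ≤ c * Real.log ((X : ℝ) / Q))
    (hkey : ∀ x ∈ Ch Q, ∀ n : ℕ,
      (x.2 ≠ 1 → ‖Mc X Q x n‖ ≤ C0 * Nx X Q x + C0 / (Q : ℝ) ^ 3) ∧
      (x.2 = 1 → ‖Mc X Q x n - ∫ t, (wtF X Q n t : ℂ)‖ ≤ C0 * Nx X Q x + C0 / (Q : ℝ) ^ 3))
    (M : Finset CI) (hM1 : one ∈ M)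
    (hM : ∀ x ∈ Ch Q \ M, ∀ ρ ∈ Z x.2 ((Q : ℝ) ^ 30), c / Real.log Q < 1 - ρ.re)
    (hO : ∀ ρ ∈ Z one.2 ((Q : ℝ) ^ 30), c / Real.log Q < 1 - ρ.re) :
    (∀ x ∈ Ch Q, ∀ n, ‖Mc X Q x n‖ ≤ bb C0 X Q x) ∧
    ∑ x ∈ Ch Q, bb C0 X Q x ≤
      C0 * (C * Real.exp (C3 * c) + (2 * C * Real.exp (C3 * c) + 31 * C4)) + C0 + 1 ∧
    ∑ x ∈ Ch Q \ M, bb C0 X Q x ≤
      (C0 * (C * Real.exp (C3 * c) + (2 * C * Real.exp (C3 * c) + 31 * C4)) + C0 + 1) *
        Er (min (c / 4) (1 / 4)) X Q ∧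
    ∀ n : ℕ, 3 * X ≤ n * Q → n * Q + X ≤ 2 * X * Q → ‖Mc X Q one n - 1‖ ≤
      (C0 * (C * Real.exp (C3 * c) + (2 * C * Real.exp (C3 * c) + 31 * C4)) + C0 + 1) *
        Er (min (c / 4) (1 / 4)) X Q := by
  obtain ⟨-, -, hU3⟩ := FMainAux.half hQ hX
  have hQ0 : (2 : ℝ) ≤ Q := by exact_mod_cast hQ
  have hQp : (0 : ℝ) < Q := by linarith
  have hL0 : 0 < Real.log Q := Real.log_pos (by linarith)
  have hXn : 0 < X := lt_of_lt_of_le (by positivity) hX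
  obtain ⟨hT, hQE⟩ := TT_le (C := C) (C3 := C3) (C4 := C4) hC hC4 hc hQ hX hL
  obtain ⟨B1, hB1⟩ : ∃ B1, B1 = 2 * C * Real.exp (C3 * c) + 31 * C4 := ⟨_, rfl⟩
  have hB1p : 0 < B1 := by rw [hB1]; positivity
  rw [← hB1] at hT ⊢
  obtain ⟨D, hD⟩ : ∃ D, D = C * Real.exp (C3 * c) := ⟨_, rfl⟩
  have hDp : 0 < D := by rw [hD]; positivity
  rw [← hD]
  obtain ⟨E, hE⟩ : ∃ E, E = Er (min (c / 4) (1 / 4)) X Q := ⟨_, rfl⟩
  rw [← hE] at hT hQE ⊢
  have hE0 : 0 < E := by rw [hE]; exact Real.exp_pos _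
  have hE1 : E ≤ 1 := by
    rw [hE]
    unfold Er
    rw [Real.exp_le_one_iff, neg_nonpos]
    have : 0 ≤ Real.log X := Real.log_natCast_nonneg _
    positivity
  have hcard : ((Ch Q).card : ℝ) ≤ (Q : ℝ) ^ 2 := by
    have := card_Ch' Q
    rw [pow_two]
    exact_mod_cast this
  have hsm : ∀ S ⊆ Ch Q, ∑ x ∈ S, C0 / (Q : ℝ) ^ 3 ≤ C0 * (1 / Q) := by
    intro S hS
    rw [Finset.sum_const, nsmul_eq_mul]
    have h3 : (S.card : ℝ) ≤ (Q : ℝ) ^ 2 :=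
      le_trans (by exact_mod_cast Finset.card_le_card hS) hcard
    calc (S.card : ℝ) * (C0 / (Q : ℝ) ^ 3) ≤ (Q : ℝ) ^ 2 * (C0 / (Q : ℝ) ^ 3) :=
          mul_le_mul_of_nonneg_right h3 (by positivity)
      _ = C0 * (1 / Q) := by field_simp
  have hNT : ∀ S ⊆ Ch Q, (∀ x ∈ S, ∀ ρ ∈ Z x.2 ((Q : ℝ) ^ 30), c / Real.log Q < 1 - ρ.re) →
      ∑ x ∈ S, Nx X Q x ≤ B1 * E := by
    intro S hS hSc
    rw [Nx_eq hXn (by omega)]
    refine le_trans ?_ hT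
    refine tail hC hC3 hC4 hc hQ hden hcnt h1 h2 _ ?_ ?_
    · intro i hi
      rw [Finset.mem_sigma] at hi
      rw [II, Finset.mem_sigma]
      exact ⟨hS hi.1, hi.2⟩
    · intro i hi
      rw [Finset.mem_sigma] at hi
      exact hSc i.1 hi.1 i.2 hi.2
  have hNall : ∑ x ∈ Ch Q, Nx X Q x ≤ D + B1 * E := by
    rw [Nx_eq hXn (by omega)]
    refine le_trans (total hC hC3 hC4 hc hQ hden hcnt h0 h1 h2) ?_
    rw [← hD]
    linarith
  have h1Ch : one ∈ Ch Q := one_mem_Ch (by omega)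
  have hQ1 : 1 / (Q : ℝ) ≤ 1 := by
    rw [div_le_one hQp]
    linarith
  refine ⟨?_, ?_, ?_, ?_⟩
  · intro x hx n
    unfold bb
    by_cases h : x.2 = 1
    · have h3 := (hkey x hx n).2 h
      rw [if_pos (eq_one hx h)]
      have h4 := norm_add_le (Mc X Q x n - ∫ t, (wtF X Q n t : ℂ)) (∫ t, (wtF X Q n t : ℂ))
      rw [sub_add_cancel] at h4
      have h5 := int_wtF_le hU3 n
      linarith
    · have h3 := (hkey x hx n).1 h
      have h4 : x ≠ one := fun h5 => h (by rw [h5]; rfl)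
      rw [if_neg h4, add_zero]
      exact h3
  · unfold bb
    rw [Finset.sum_add_distrib, Finset.sum_add_distrib, ← Finset.mul_sum,
      Finset.sum_ite_eq' (Ch Q) one, if_pos h1Ch]
    have h3 := hsm (Ch Q) (Finset.Subset.refl _)
    have h4 := mul_le_mul_of_nonneg_left hNall (by linarith : 0 ≤ C0)
    have h5 : C0 * (1 / Q) ≤ C0 * 1 := mul_le_mul_of_nonneg_left hQ1 (by linarith)
    have h6 : B1 * E ≤ B1 * 1 := mul_le_mul_of_nonneg_left hE1 hB1p.le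
    have h7 : C0 * (D + B1 * E) ≤ C0 * (D + B1) :=
      mul_le_mul_of_nonneg_left (by linarith) (by linarith)
    linarith
  · have e : ∑ x ∈ Ch Q \ M, bb C0 X Q x =
        ∑ x ∈ Ch Q \ M, (C0 * Nx X Q x + C0 / (Q : ℝ) ^ 3) := by
      refine Finset.sum_congr rfl fun x hx => ?_
      have h3 : x ≠ one := fun h4 => (Finset.mem_sdiff.1 hx).2 (by rw [h4]; exact hM1)
      unfold bb
      rw [if_neg h3, add_zero]
    rw [e, Finset.sum_add_distrib, ← Finset.mul_sum]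
    have h3 := hsm (Ch Q \ M) Finset.sdiff_subset
    have h4 := mul_le_mul_of_nonneg_left (hNT (Ch Q \ M) Finset.sdiff_subset hM)
      (by linarith : 0 ≤ C0)
    have h5 : C0 * (1 / Q) ≤ C0 * E := mul_le_mul_of_nonneg_left hQE (by linarith)
    have h6 : 0 ≤ C0 * D * E := by positivity
    linarith
  · intro n hn1 hn2
    have h3 := (hkey one h1Ch n).2 rfl
    rw [int_wtF_eq hQ hX n hn1 hn2] at h3
    refine h3.trans ?_
    have h4 := hNT {one} (Finset.singleton_subset_iff.2 h1Ch) (fun x hx => by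
      rw [Finset.mem_singleton] at hx
      rw [hx]
      exact hO)
    have h5 := hsm {one} (Finset.singleton_subset_iff.2 h1Ch)
    rw [Finset.sum_singleton] at h4 h5
    have h6 := mul_le_mul_of_nonneg_left h4 (by linarith : 0 ≤ C0)
    have h7 : C0 * (1 / Q) ≤ C0 * E := mul_le_mul_of_nonneg_left hQE (by linarith)
    have h8 : 0 ≤ C0 * D * E := by positivity
    linarith

end SumBAux

open scoped Classical in
theorem sumB (c1 c : ℝ) (hZ : ZFree c1) (hc : 0 < c) (hcc : c < c1) :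
    ∃ a B c2 : ℝ, 0 < a ∧ 0 < B ∧ 0 < c2 ∧ ∃ X0 : ℕ, ∀ X Q : ℕ, X0 ≤ X → Rg c2 X Q →
    ∃ (b : CI → ℝ) (M : Finset CI) (q : ℕ), (∀ x ∈ Ch Q, ∀ n, ‖Mc X Q x n‖ ≤ b x) ∧
      ∑ x ∈ Ch Q, b x ≤ B ∧ Kept Q M q ∧ ExMod c Q q ∧ ∑ x ∈ Ch Q \ M, b x ≤ B * Er a X Q ∧
      ∀ n : ℕ, 3 * X ≤ n * Q → n * Q + X ≤ 2 * X * Q → ‖Mc X Q one n - 1‖ ≤ B * Er a X Q := by
  obtain ⟨C0, X1, hC0, hkey⟩ := SumBAux.key
  obtain ⟨C, C3, hC, hC3, hzd⟩ := zero_density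
  obtain ⟨C4, hC4, hcz⟩ := count_Z
  refine ⟨min (c / 4) (1 / 4),
    C0 * (C * Real.exp (C3 * c) + (2 * C * Real.exp (C3 * c) + 31 * C4)) + C0 + 1,
    min (1 / 1000) (min (1 / (4 * C3)) (c / 4)), lt_min (by positivity) (by norm_num),
    by positivity, lt_min (by norm_num) (lt_min (by positivity) (by positivity)),
    max X1 ⌈Real.exp ((40 * c + 2) ^ 2)⌉₊, ?_⟩
  intro X Q hX hR
  have hXe : Real.exp ((40 * c + 2) ^ 2) ≤ X :=
    (Nat.le_ceil _).trans (by exact_mod_cast (le_max_right _ _).trans hX)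
  obtain ⟨hQ, hLX, hQX, hcL, h1, h2⟩ := SumBAux.params (c := c) (C3 := C3) hC3 hc
    (min_le_left _ _) ((min_le_right _ _).trans (min_le_left _ _))
    ((min_le_right _ _).trans (min_le_right _ _)) hXe hR
  have hQ0 : (2 : ℝ) ≤ Q := by exact_mod_cast hQ
  have hL0 : 0 < Real.log Q := Real.log_pos (by linarith)
  have hden : ∀ y : ℝ, 0 ≤ y → y ≤ 1 / 20 →
      ∑ i ∈ (SumBAux.II Q).filter (fun i => 1 - i.2.re ≤ y), SumBAux.mm i ≤
      C * Real.exp (C3 * y * Real.log Q) := fun y hy hy' => SumBAux.den (hzd Q y hQ hy hy')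
  have hcnt := SumBAux.cnt hC4 hcz hQ
  have hcore := SumBAux.core hC hC3 hC4 hc hC0 hQ hQX hLX hden hcnt hcL h1 h2
    (hkey X Q ((le_max_left _ _).trans hX) hQ hLX hQX)
  obtain ⟨hZ1, hZ2⟩ := hZ Q hQ
  have hlt : 1 - c1 / Real.log Q < 1 - c / Real.log Q := by
    have := div_lt_div_of_pos_right hcc hL0
    linarith
  have h1Ch : one ∈ Ch Q := one_mem_Ch (by omega)
  -- a zero near one is exceptional
  have hz : ∀ x ∈ Ch Q, ∀ ρ ∈ Z x.2 ((Q : ℝ) ^ 30), ¬ c / Real.log Q < 1 - ρ.re →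
      1 - c1 / Real.log Q < ρ.re ∧ ρ.im = 0 ∧ x.2 ^ 2 = 1 ∧ x.2 ≠ 1 := by
    intro x hx ρ hρ hcon
    rw [not_lt] at hcon
    have h3 : 1 - c1 / Real.log Q < ρ.re := by linarith
    have h4 : x.1 < Q := by
      have := (mem_Ch.1 hx).1
      unfold md at this
      omega
    obtain ⟨h5, h6, h7, h8⟩ := hZ1 x.1 h4 x.2 (mem_Ch.1 hx).2 ρ hρ h3
    exact ⟨h3, h5, h7, h8⟩
  have hO : ∀ ρ ∈ Z one.2 ((Q : ℝ) ^ 30), c / Real.log Q < 1 - ρ.re := by
    intro ρ hρ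
    by_contra hcon
    exact (hz one h1Ch ρ hρ hcon).2.2.2 rfl
  by_cases hex : ∃ x ∈ Ch Q, ∃ ρ ∈ Z x.2 ((Q : ℝ) ^ 30), ¬ c / Real.log Q < 1 - ρ.re
  · obtain ⟨xe, hxe, ρe, hρe, hcon⟩ := hex
    obtain ⟨h3, h4, h5, h6⟩ := hz xe hxe ρe hρe hcon
    have hM : ∀ x ∈ Ch Q \ {one, xe}, ∀ ρ ∈ Z x.2 ((Q : ℝ) ^ 30),
        c / Real.log Q < 1 - ρ.re := by
      intro x hx ρ hρ
      by_contra hcon2
      rw [Finset.mem_sdiff, Finset.mem_insert, Finset.mem_singleton, not_or] at hx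
      obtain ⟨h7, h8, h9, h10⟩ := hz x hx.1 ρ hρ hcon2
      have hx1 : x.1 < Q := by
        have := (mem_Ch.1 hx.1).1
        unfold md at this
        omega
      have hxe1 : xe.1 < Q := by
        have := (mem_Ch.1 hxe).1
        unfold md at this
        omega
      have h11 := hZ2 x.1 hx1 xe.1 hxe1 x.2 xe.2 (mem_Ch.1 hx.1).2 (mem_Ch.1 hxe).2 ρ hρ ρe hρe
        h7 h3
      apply hx.2.2
      obtain ⟨q, χ⟩ := x
      obtain ⟨q', χ'⟩ := xe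
      have h12 : q = q' := congrArg Sigma.fst h11
      subst h12
      have h13 := eq_of_heq (Sigma.mk.inj h11).2
      have h14 : χ = χ' := congrArg Prod.fst h13
      rw [h14]
    obtain ⟨hb1, hb2, hb3, hb4⟩ := hcore {one, xe} (Finset.mem_insert_self _ _) hM hO
    have hβ : ((ρe.re : ℝ) : ℂ) = ρe := by
      apply Complex.ext
      · simp
      · simp [h4]
    refine ⟨SumBAux.bb C0 X Q, {one, xe}, md xe, hb1, hb2,
      Or.inr ⟨xe, hxe, h6, h5, rfl, rfl⟩, Or.inr ⟨xe, ρe.re, ⟨hxe, h6, h5, ?_, ?_, ?_⟩, rfl⟩,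
      hb3, hb4⟩
    · rw [hβ]
      exact (mem_Z.1 hρe).2.2
    · rw [not_lt] at hcon
      linarith
    · exact re_lt_one_of_mem_Z hρe
  · have hM : ∀ x ∈ Ch Q \ {one}, ∀ ρ ∈ Z x.2 ((Q : ℝ) ^ 30), c / Real.log Q < 1 - ρ.re := by
      intro x hx ρ hρ
      by_contra hcon
      exact hex ⟨x, (Finset.mem_sdiff.1 hx).1, ρ, hρ, hcon⟩
    obtain ⟨hb1, hb2, hb3, hb4⟩ := hcore {one} (Finset.mem_singleton_self _) hM hO
    refine ⟨SumBAux.bb C0 X Q, {one}, 0, hb1, hb2, Or.inl ⟨rfl, rfl⟩, Or.inl ⟨rfl, ?_⟩,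
      hb3, hb4⟩
    rintro x β ⟨hx, h3, h4, h5, h6, h7⟩
    apply hex
    refine ⟨x, hx, (β : ℂ), ?_, ?_⟩
    · rw [mem_Z]
      refine ⟨?_, ?_, h5⟩
      · rw [Complex.ofReal_re]
        linarith
      · rw [Complex.ofReal_im, abs_zero]
        positivity
    · rw [not_lt, Complex.ofReal_re]
      linarith

end Pool.Agent.Lib.GMV
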