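import Pool.Agent.Lib.GMV.PZs
import Pool.Agent.Lib.GMV.PMc
import Pool.Agent.Lib.GMV.PWt
import Pool.Agent.Lib.GMV.SumB

/-!
# GMV.PSum (1.5 h): the smoothed characters when there is an exceptional zero

PROOF. `Rg c2 X Q` with `c2 ≤ 1/1000`, `c2 ≤ 1/(2A+2)`, `c2 ≤ c4/(8 A0 + 8)`. `l = log Q`, `L = log X`, `w = log (X/Q) ≥ L/2`, `δ = 1 - β > 0`, `δ l ≤ c < 1`.
`β ∈ Z xe.2 (Q^30)` (`β ≥ 9/10` as `Q` is large). `ZFree c1` (first part, at `(xe, β)`: `Re β > 1 - c1/l`): `mul xe.2 β = 1`. `P x ρ := ¬ (x = xe ∧ ρ = β)`.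
For `ρ ∈ Z x.2 (Q^30)`, `x ∈ Ch Q`, `P x ρ`: `Re ρ ≤ 1 - c1/l` (otherwise by the uniqueness part of `ZFree` `(x, ρ) = (xe, β)`) and
`Re ρ ≤ 1 - c4 log(1/(δ l))/l` (`DHz`, `IsExc c → IsExc c0`). So `zsum` with `η = max (c1/l) (c4 log(1/(δ l))/l) ≥ 0`:
`∑_x N x ≤ B' exp(-w η/2) ≤ B' exp(-w c1/(4 l)) exp(-w c4 log(1/(δ l))/(4 l)) ≤ B' Er (c1/8) X Q (δ l)^(c4 L/(8 l)) ≤ B' Er a X Q (δ l)^A0`,
`N x = ∑_{ρ ∈ Z, P x ρ} mul ρ (X/Q)^(Re ρ - 1)`, `(X/Q)^(Re ρ - 1) = exp(-w (1 - Re ρ))`, `a = c1/8`, `c4 L/(8 l) ≥ c4/(8 c2) ≥ A0`.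
`b x = C N x + 2C/Q^3 (+ 1 if x = one or x = xe)`, `mc_formula` with `E = ∅` (`x ≠ xe`) and `E = {β}` (`x = xe`), `wtF_mem`, `wtF_one`, `wtF_pow`
(`(X/Q)^(β-1) ≤ 1`). `|Ch Q| ≤ Q²`: the terms `2C/Q^3` contribute at most `2C/Q`. (`x.2 = 1` and `x ∈ Ch Q` only for `x = one`.)
-/

set_option autoImplicit false

open Finset Filter

namespace Pool.Agent.Lib.GMV

open Pool.Agent.HLB Pool.Agent.HLT Pool.Agent.HLR

/-- The Deuring-Heilbronn phenomenon (the statement of `heilbronn`, GMV.DFin). -/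
def DHz (c0 c4 : ℝ) : Prop := ∀ (Q : ℕ) (x : CI) (β : ℝ), 2 ≤ Q →
    IsExc c0 Q x β → ∀ (x' : CI) (ρ : ℂ), x' ∈ Ch Q → ρ ∈ Z x'.2 ((Q : ℝ) ^ 30) →
    (x' ≠ x ∨ ρ ≠ (β : ℂ)) →
    ρ.re ≤ 1 - c4 * Real.log (1 / ((1 - β) * Real.log Q)) / Real.log Q

namespace PSumAux

lemma card_Ch (Q : ℕ) : (Ch Q).card ≤ Q * Q := by
  classical
  unfold Ch
  rw [card_sigma]
  calc ∑ q ∈ range Q, (univ.filter fun χ : DirichletCharacter ℂ (q + 1) => χ.IsPrimitive).card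
      ≤ ∑ q ∈ range Q, Q := by
        apply sum_le_sum
        intro q hq
        rw [mem_range] at hq
        refine (card_le_univ _).trans ?_
        rw [← Nat.card_eq_fintype_card, DirichletCharacter.card_eq_totient_of_hasEnoughRootsOfUnity ℂ (q + 1)]
        exact (Nat.totient_le _).trans hq
    _ = Q * Q := by rw [sum_const, card_range, smul_eq_mul]

lemma eq_one_of {Q : ℕ} {x : CI} (hx : x ∈ Ch Q) (h : x.2 = 1) : x = one := by
  obtain ⟨q, χ⟩ := x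
  have hp : χ.IsPrimitive := (mem_Ch.mp hx).2
  have h' : χ = 1 := h
  clear h hx
  subst h'
  rw [DirichletCharacter.isPrimitive_def] at hp
  rw [DirichletCharacter.conductor_one] at hp
  have : q = 0 := by omega
  subst this
  rfl

/-- Consequences of the range. -/
lemma rg {c2 : ℝ} {X Q : ℕ} (hX : ⌈Real.exp 100⌉₊ ≤ X) (h : Rg c2 X Q) :
    5 ≤ Real.log Q ∧ Real.log Q ≤ c2 * Real.log X ∧ 0 < Real.log X ∧ 2 ≤ Q ∧ 1 ≤ X := by
  have hX1 : Real.exp 100 ≤ X := (Nat.le_ceil _).trans (by exact_mod_cast hX)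
  have hX0 : (0 : ℝ) < X := (Real.exp_pos _).trans_le hX1
  have hL : 100 ≤ Real.log X := (Real.le_log_iff_exp_le hX0).mpr hX1
  have hQ0 : (0 : ℝ) < Q := (Real.exp_pos _).trans_le h.1
  have h1 : Real.sqrt (Real.log X) / 2 ≤ Real.log Q := (Real.le_log_iff_exp_le hQ0).mpr h.1
  have h2 : 10 ≤ Real.sqrt (Real.log X) := by
    apply Real.le_sqrt_of_sq_le
    linarith
  have h3 : Real.log Q ≤ c2 * Real.log X := by
    have := Real.log_le_log hQ0 h.2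
    rwa [Real.log_rpow hX0] at this
  have h5 : 5 ≤ Real.log Q := by linarith
  refine ⟨h5, h3, by linarith, ?_, ?_⟩
  · have h6 : (1 : ℝ) < Q := by
      by_contra hcon
      have := Real.log_nonpos hQ0.le (not_lt.mp hcon)
      linarith
    have h7 : 1 < Q := by exact_mod_cast h6
    omega
  · have h6 : 0 < X := by exact_mod_cast hX0
    omega

lemma pow_le {X Q : ℕ} (k : ℕ) (hQ : 2 ≤ Q) (hX : 1 ≤ X) (h : k * Real.log Q ≤ Real.log X) : Q ^ k ≤ X := by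
  have hQ0 : (0 : ℝ) < Q := by exact_mod_cast (by omega : 0 < Q)
  have hX0 : (0 : ℝ) < X := by exact_mod_cast hX
  have h1 : ((Q : ℝ) ^ k) ≤ X := by
    rw [← Real.log_le_log_iff (pow_pos hQ0 k) hX0, Real.log_pow]
    exact h
  exact_mod_cast h1

/-- The weights as exponentials. -/
lemma rpow_eq {X Q : ℕ} (hQ : 2 ≤ Q) (hX : 1 ≤ X) (u : ℝ) :
    ((X : ℝ) / Q) ^ (u - 1) = Real.exp (-((Real.log X - Real.log Q) * (1 - u))) := by
  have hQ0 : (0 : ℝ) < Q := by exact_mod_cast (by omega : 0 < Q)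
  have hX0 : (0 : ℝ) < X := by exact_mod_cast hX
  rw [Real.rpow_def_of_pos (div_pos hX0 hQ0), Real.log_div hX0.ne' hQ0.ne']
  congr 1
  ring

/-- The estimate of the exponential. -/
lemma exp_bd {A0 : ℕ} {c1 c4 l L s η : ℝ} (hl : 0 < l) (hc4 : 0 < c4)
    (hs : 0 < s) (hs1 : s ≤ 1) (hη1 : c1 / l ≤ η) (hη2 : c4 * Real.log (1 / s) / l ≤ η)
    (hL : 2 * l ≤ L) (hA : 8 * A0 * l ≤ c4 * L) :
    Real.exp (-((L - l) * η / 2)) ≤ s ^ A0 * Real.exp (-(c1 / 8 * L / l)) := by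
  have hls : 0 ≤ Real.log (1 / s) := by
    apply Real.log_nonneg
    rw [le_div_iff₀ hs]
    linarith
  have hη0 : 0 ≤ η := le_trans (by positivity) hη2
  have hlog : Real.log (1 / s) = - Real.log s := by
    rw [one_div, Real.log_inv]
  have h1 : s ^ A0 = Real.exp (-(A0 * Real.log (1 / s))) := by
    rw [hlog, mul_neg, neg_neg, ← Real.log_pow, Real.exp_log (pow_pos hs A0)]
  rw [h1, ← Real.exp_add]
  apply Real.exp_le_exp.mpr
  have h2 : A0 * Real.log (1 / s) ≤ L / 8 * (c4 * Real.log (1 / s) / l) := by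
    have h3 : (A0 : ℝ) ≤ L / 8 * (c4 / l) := by
      rw [← mul_div_assoc, le_div_iff₀ hl]
      linarith
    calc A0 * Real.log (1 / s) ≤ L / 8 * (c4 / l) * Real.log (1 / s) :=
          mul_le_mul_of_nonneg_right h3 hls
      _ = _ := by ring
  have hL0 : 0 ≤ L := by linarith
  have h4 : L / 8 * (c4 * Real.log (1 / s) / l) ≤ L / 8 * η :=
    mul_le_mul_of_nonneg_left hη2 (by linarith)
  have h5 : c1 / 8 * L / l ≤ L / 8 * η := by
    calc c1 / 8 * L / l = L / 8 * (c1 / l) := by ring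
      _ ≤ _ := mul_le_mul_of_nonneg_left hη1 (by linarith)
  have h6 : L / 2 * η ≤ (L - l) * η := mul_le_mul_of_nonneg_right (by linarith) hη0
  linarith

end PSumAux

open PSumAux in
open scoped Classical in
theorem sumP (A0 : ℕ) (c1 c0 c4 c : ℝ) (hZ : ZFree c1) (h4 : 0 < c4) (hD : DHz c0 c4) (hc : 0 < c)
    (hcc : c < c1) (hcc0 : c ≤ c0) (hc1 : c ≤ 1 / 2) :
    ∃ a B c2 : ℝ, 0 < a ∧ 0 < B ∧ 0 < c2 ∧ ∃ X0 : ℕ, ∀ X Q : ℕ, X0 ≤ X → Rg c2 X Q →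
    ∀ (xe : CI) (β : ℝ), IsExc c Q xe β → ∀ E : ℝ,
    E = B * (((1 - β) * Real.log Q) ^ A0 * Er a X Q + 1 / Q) →
    ∃ b : CI → ℝ, (∀ x ∈ Ch Q, ∀ n, ‖Mc X Q x n‖ ≤ b x) ∧ ∑ x ∈ Ch Q, b x ≤ B ∧
      ∑ x ∈ Ch Q \ {one, xe}, b x ≤ E ∧
      (∀ n : ℕ, 3 * X ≤ n * Q → n * Q + X ≤ 2 * X * Q → ‖Mc X Q one n - 1‖ ≤ E) ∧
      ∀ n : ℕ, ‖Mc X Q xe n‖ ≤ ((X : ℝ) / Q) ^ (β - 1) + E := by
  obtain ⟨A, B0, hA, hB0, hzs⟩ := zsum
  obtain ⟨C, X1, hC, hmc⟩ := mc_formula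
  have hc1p : 0 < c1 := hc.trans hcc
  have hk1 : (0 : ℝ) < 1 / (2 * A + 2) := by positivity
  have hk2 : (0 : ℝ) < c4 / (8 * A0 + 8) := by positivity
  obtain ⟨c2, hc2, hc2a, hc2b, hc2c⟩ : ∃ c2 : ℝ, 0 < c2 ∧ c2 ≤ 1 / 1000 ∧ c2 ≤ 1 / (2 * A + 2) ∧
      c2 ≤ c4 / (8 * A0 + 8) :=
    ⟨min (1 / 1000) (min (1 / (2 * A + 2)) (c4 / (8 * A0 + 8))),
      lt_min (by norm_num) (lt_min hk1 hk2), min_le_left _ _,
      (min_le_right _ _).trans (min_le_left _ _), (min_le_right _ _).trans (min_le_right _ _)⟩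
  refine ⟨c1 / 8, C * B0 + 2 * C + 2, c2, by positivity, by positivity, hc2,
    max X1 ⌈Real.exp 100⌉₊, ?_⟩
  intro X Q hX hR xe β hex E hE
  obtain ⟨hl5, hlL, hL0, hQ2, hX1⟩ := rg ((le_max_right _ _).trans hX) hR
  have hR' : Rg (1 / 1000) X Q := by
    refine ⟨hR.1, hR.2.trans ?_⟩
    exact Real.rpow_le_rpow_of_exponent_le (by exact_mod_cast hX1) hc2a
  have hmc' := hmc X Q ((le_max_left _ _).trans hX) hR'
  have hQ0 : (0 : ℝ) < Q := by exact_mod_cast (by omega : 0 < Q)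
  have hQ1 : (1 : ℝ) ≤ Q := by exact_mod_cast (by omega : 1 ≤ Q)
  have hX0 : (0 : ℝ) < X := by exact_mod_cast hX1
  set l := Real.log Q with hl
  set L := Real.log X with hL
  have hl0 : 0 < l := by linarith
  have hL1 : 1000 * l ≤ L := by
    have := mul_le_mul_of_nonneg_right hc2a hL0.le
    linarith
  have hL2 : (2 * A + 2) * l ≤ L := by
    have h1 := hlL.trans (mul_le_mul_of_nonneg_right hc2b hL0.le)
    rw [one_div, ← div_eq_inv_mul, le_div_iff₀ (by positivity)] at h1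
    linarith
  have hL3 : 8 * A0 * l ≤ c4 * L := by
    have h1 := hlL.trans (mul_le_mul_of_nonneg_right hc2c hL0.le)
    rw [div_mul_eq_mul_div, le_div_iff₀ (by positivity)] at h1
    linarith
  have hQX : Q ^ 6 ≤ X := pow_le 6 hQ2 hX1 (by push_cast; linarith)
  obtain ⟨hxe, hxe1, hxe2, hβ0, hβ1, hβ2⟩ := hex
  set s := (1 - β) * l with hs
  have hs0 : 0 < s := mul_pos (by linarith) hl0
  have hs1 : s ≤ c := by
    have h1 : 1 - β ≤ c / l := by linarith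
    calc s ≤ c / l * l := mul_le_mul_of_nonneg_right h1 hl0.le
      _ = c := div_mul_cancel₀ _ hl0.ne'
  have hβ9 : 9 / 10 ≤ β := by
    have h1 : c / l ≤ 1 / 10 := by
      rw [div_le_iff₀ hl0]
      linarith
    linarith
  have hβZ : (β : ℂ) ∈ Z xe.2 ((Q : ℝ) ^ 30) := by
    rw [mem_Z]
    refine ⟨by simpa using hβ9, ?_, hβ0⟩
    rw [Complex.ofReal_im, abs_zero]
    positivity
  have hcl : 1 - c1 / l < β := by
    have : c / l < c1 / l := div_lt_div_of_pos_right hcc hl0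
    linarith
  have hxeq : xe.1 < Q := by
    have := (mem_Ch.mp hxe).1
    unfold md at this
    omega
  have hmul : mul xe.2 (β : ℂ) = 1 :=
    ((hZ Q hQ2).1 xe.1 hxeq xe.2 (mem_Ch.mp hxe).2 (β : ℂ) hβZ (by simpa using hcl)).2.1
  have hxeone : xe ≠ one := by
    intro h
    apply hxe1
    rw [h]
    rfl
  -- the zeros
  obtain ⟨P, hP⟩ : ∃ P : CI → ℂ → Prop, ∀ x ρ, P x ρ ↔ ¬ (x = xe ∧ ρ = (β : ℂ)) :=
    ⟨fun x ρ => ¬ (x = xe ∧ ρ = (β : ℂ)), fun _ _ => Iff.rfl⟩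
  set η := max (c1 / l) (c4 * Real.log (1 / s) / l) with hη
  have hη0 : 0 ≤ η := le_trans (by positivity) (le_max_left _ _)
  have hzero : ∀ x ∈ Ch Q, ∀ ρ ∈ Z x.2 ((Q : ℝ) ^ 30), P x ρ → ρ.re ≤ 1 - η := by
    intro x hx ρ hρ hPx
    have h1 : ρ.re ≤ 1 - c1 / l := by
      by_contra hcon
      rw [not_le] at hcon
      have hxq : x.1 < Q := by
        have := (mem_Ch.mp hx).1
        unfold md at this
        omega
      have h2 := (hZ Q hQ2).2 x.1 hxq xe.1 hxeq x.2 xe.2 (mem_Ch.mp hx).2 (mem_Ch.mp hxe).2 ρ hρ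
        (β : ℂ) hβZ hcon (by simpa using hcl)
      apply (hP x ρ).mp hPx
      obtain ⟨q, χ⟩ := x
      obtain ⟨q', χ'⟩ := xe
      simp only at h2
      injection h2 with e1 e2
      subst e1
      have e3 := eq_of_heq e2
      injection e3 with e4 e5
      subst e4
      exact ⟨rfl, e5⟩
    have h2 : ρ.re ≤ 1 - c4 * Real.log (1 / s) / l := by
      apply hD Q xe β hQ2 ⟨hxe, hxe1, hxe2, hβ0, ?_, hβ2⟩ x ρ hx hρ
      · by_cases hxx : x = xe
        · right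
          intro hρβ
          exact (hP x ρ).mp hPx ⟨hxx, hρβ⟩
        · exact Or.inl hxx
      · have h3 : c / l ≤ c0 / l := div_le_div_of_nonneg_right hcc0 hl0.le
        linarith
    rw [hη]
    rcases le_total (c1 / l) (c4 * Real.log (1 / s) / l) with h | h
    · rw [max_eq_right h]
      exact h2
    · rw [max_eq_left h]
      exact h1
  have hsum := hzs Q (L - l) η P hQ2 (by nlinarith) hη0 hzero
  have hexp := exp_bd (A0 := A0) (c1 := c1) hl0 h4 hs0 (by linarith) (le_max_left _ _)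
    (le_max_right (c1 / l) _) (by linarith : 2 * l ≤ L) hL3
  rw [← hη] at hexp
  have hexp1 : Real.exp (-((L - l) * η / 2)) ≤ 1 := by
    rw [Real.exp_le_one_iff]
    have : 0 ≤ (L - l) * η := mul_nonneg (by linarith) hη0
    linarith
  set Er' := Er (c1 / 8) X Q with hEr
  have hEr' : Er' = Real.exp (-(c1 / 8 * L / l)) := rfl
  rw [← hEr'] at hexp
  set N : CI → ℝ := fun x => ∑ ρ ∈ (Z x.2 ((Q : ℝ) ^ 30)).filter (P x),
      (mul x.2 ρ : ℝ) * Real.exp (-((L - l) * (1 - ρ.re))) with hN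
  have hN0 : ∀ x, 0 ≤ N x := fun x => sum_nonneg fun ρ _ =>
    mul_nonneg (Nat.cast_nonneg _) (Real.exp_pos _).le
  have hNs : ∑ x ∈ Ch Q, N x ≤ B0 * (s ^ A0 * Er') :=
    hsum.trans (mul_le_mul_of_nonneg_left hexp hB0.le)
  have hNs1 : ∑ x ∈ Ch Q, N x ≤ B0 := by
    refine hsum.trans ?_
    calc _ ≤ B0 * 1 := mul_le_mul_of_nonneg_left hexp1 hB0.le
      _ = B0 := mul_one _
  have hQ3 : 0 < (Q : ℝ) ^ 3 := by positivity
  have hsE : 0 ≤ s ^ A0 * Er' := by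
    have : 0 < Er' := by rw [hEr']; exact Real.exp_pos _
    positivity
  have hQ31 : 2 * C / (Q : ℝ) ^ 3 ≤ 2 * C / Q := by
    apply div_le_div_of_nonneg_left (by positivity) hQ0
    calc (Q : ℝ) = (Q : ℝ) ^ 1 := (pow_one _).symm
      _ ≤ (Q : ℝ) ^ 3 := pow_le_pow_right₀ hQ1 (by norm_num)
  have hE1 : C * (B0 * (s ^ A0 * Er')) + 2 * C / Q ≤ E := by
    rw [hE]
    have h1 : 0 ≤ (2 * C + 2) * (s ^ A0 * Er') := by positivity
    have h2 : 0 ≤ (C * B0 + 2) * (1 / (Q : ℝ)) := by positivity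
    have h3 : 2 * C / (Q : ℝ) = 2 * C * (1 / Q) := by ring
    rw [h3]
    nlinarith
  -- the bounds for the characters
  have hsing : ∀ x ∈ Ch Q, N x ≤ B0 * (s ^ A0 * Er') := fun x hx =>
    (single_le_sum (f := N) (fun y _ => hN0 y) hx).trans hNs
  have hgen : ∀ x ∈ Ch Q, x ≠ xe → ∀ n : ℕ,
      ‖Mc X Q x n - (if x.2 = 1 then ∫ t, (wtF X Q n t : ℂ) else 0)‖ ≤ C * N x + 2 * C / (Q : ℝ) ^ 3 := by
    intro x hx hxx n
    have h1 := hmc' x hx n ∅ (empty_subset _)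
    rw [sum_empty, sum_empty, add_zero, add_zero, mul_one, sdiff_empty] at h1
    have h2 : ∑ ρ ∈ Z x.2 ((Q : ℝ) ^ 30), (mul x.2 ρ : ℝ) * ((X : ℝ) / Q) ^ (ρ.re - 1) = N x := by
      have h3 : (Z x.2 ((Q : ℝ) ^ 30)).filter (P x) = Z x.2 ((Q : ℝ) ^ 30) := by
        apply filter_true_of_mem
        intro ρ _
        rw [hP]
        exact fun h => hxx h.1
      rw [hN]
      simp only [h3]
      exact sum_congr rfl fun ρ _ => by rw [rpow_eq hQ2 hX1]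
    rw [h2] at h1
    refine h1.trans ?_
    have h4 : C / (Q : ℝ) ^ 3 ≤ 2 * C / (Q : ℝ) ^ 3 := by
      apply div_le_div_of_nonneg_right _ hQ3.le
      linarith
    linarith
  have hexc : ∀ n : ℕ, ‖Mc X Q xe n‖ ≤ ((X : ℝ) / Q) ^ (β - 1) + (C * N xe + 2 * C / (Q : ℝ) ^ 3) := by
    intro n
    have h1 := hmc' xe hxe n {(β : ℂ)} (singleton_subset_iff.mpr hβZ)
    rw [if_neg hxe1, sum_singleton, sum_singleton, hmul, Nat.cast_one, Nat.cast_one, one_mul,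
      sub_zero] at h1
    have h2 : ∑ ρ ∈ Z xe.2 ((Q : ℝ) ^ 30) \ {(β : ℂ)}, (mul xe.2 ρ : ℝ) * ((X : ℝ) / Q) ^ (ρ.re - 1) =
        N xe := by
      have h3 : (Z xe.2 ((Q : ℝ) ^ 30)).filter (P xe) = Z xe.2 ((Q : ℝ) ^ 30) \ {(β : ℂ)} := by
        ext ρ
        rw [mem_filter, Finset.mem_sdiff, mem_singleton, hP]
        simp only [true_and]
      rw [hN]
      simp only [h3]
      exact sum_congr rfl fun ρ _ => by rw [rpow_eq hQ2 hX1]
    rw [h2] at h1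
    have h5 := wtF_pow X Q n hQ2 hQX β hβ2.le
    have h6 : ‖Mc X Q xe n‖ ≤ ‖Mc X Q xe n + ∫ t, (wtF X Q n t : ℂ) * (t : ℂ) ^ ((β : ℂ) - 1)‖ +
        ‖∫ t, (wtF X Q n t : ℂ) * (t : ℂ) ^ ((β : ℂ) - 1)‖ := by
      have := norm_sub_le (Mc X Q xe n + ∫ t, (wtF X Q n t : ℂ) * (t : ℂ) ^ ((β : ℂ) - 1))
        (∫ t, (wtF X Q n t : ℂ) * (t : ℂ) ^ ((β : ℂ) - 1))
      rwa [add_sub_cancel_right] at this
    have h7 : C * (1 + 1) / (Q : ℝ) ^ 3 = 2 * C / (Q : ℝ) ^ 3 := by ring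
    rw [h7] at h1
    linarith
  have hpow1 : ((X : ℝ) / Q) ^ (β - 1) ≤ 1 := by
    rw [rpow_eq hQ2 hX1, Real.exp_le_one_iff]
    have : 0 ≤ (L - l) * (1 - β) := mul_nonneg (by linarith) (by linarith)
    linarith
  have hone : ∀ n : ℕ, ‖Mc X Q one n - ∫ t, (wtF X Q n t : ℂ)‖ ≤ C * N one + 2 * C / (Q : ℝ) ^ 3 := by
    intro n
    have h1 := hgen one (one_mem_Ch (by omega)) (Ne.symm hxeone) n
    rwa [if_pos (by rfl)] at h1
  refine ⟨fun x => C * N x + 2 * C / (Q : ℝ) ^ 3 + (if x = one ∨ x = xe then 1 else 0),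
    ?_, ?_, ?_, ?_, ?_⟩
  · intro x hx n
    show ‖Mc X Q x n‖ ≤ C * N x + 2 * C / (Q : ℝ) ^ 3 + (if x = one ∨ x = xe then 1 else 0)
    by_cases hxx : x = xe
    · rw [if_pos (Or.inr hxx), hxx]
      have := hexc n
      linarith
    by_cases hx1 : x = one
    · rw [if_pos (Or.inl hx1), hx1]
      have h1 := hone n
      have h2 : ‖∫ t, (wtF X Q n t : ℂ)‖ ≤ 1 := by
        rw [integral_complex_ofReal, Complex.norm_real, Real.norm_eq_abs,
          abs_of_nonneg (wtF_mem X Q n hQ2 hQX).1]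
        exact (wtF_mem X Q n hQ2 hQX).2
      have h3 := norm_sub_norm_le (Mc X Q one n) (∫ t, (wtF X Q n t : ℂ))
      linarith
    · have h1 := hgen x hx hxx n
      have h2 : x.2 ≠ 1 := fun h => hx1 (eq_one_of hx h)
      rw [if_neg h2, sub_zero] at h1
      rw [if_neg (by tauto), add_zero]
      exact h1
  · rw [sum_add_distrib, sum_add_distrib, ← mul_sum, sum_const, nsmul_eq_mul]
    have h1 : C * ∑ x ∈ Ch Q, N x ≤ C * B0 := mul_le_mul_of_nonneg_left hNs1 hC.le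
    have h2 : ((Ch Q).card : ℝ) ≤ (Q : ℝ) * Q := by exact_mod_cast card_Ch Q
    have h3 : ((Ch Q).card : ℝ) * (2 * C / (Q : ℝ) ^ 3) ≤ 2 * C := by
      calc ((Ch Q).card : ℝ) * (2 * C / (Q : ℝ) ^ 3) ≤ ((Q : ℝ) * Q) * (2 * C / (Q : ℝ) ^ 3) :=
            mul_le_mul_of_nonneg_right h2 (by positivity)
        _ = 2 * C / Q := by field_simp
        _ ≤ 2 * C := div_le_self (by positivity) hQ1
    have h4 : ∑ x ∈ Ch Q, (if x = one ∨ x = xe then (1 : ℝ) else 0) ≤ 2 := by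
      rw [← sum_filter, sum_const, nsmul_eq_mul, mul_one]
      have h5 : ((Ch Q).filter fun x => x = one ∨ x = xe) ⊆ {one, xe} := by
        intro x hx
        rw [mem_filter] at hx
        simpa using hx.2
      have h6 := (card_le_card h5).trans card_le_two
      exact_mod_cast h6
    linarith
  · have h1 : ∑ x ∈ Ch Q \ {one, xe}, (C * N x + 2 * C / (Q : ℝ) ^ 3 + (if x = one ∨ x = xe then (1 : ℝ) else 0)) =
        ∑ x ∈ Ch Q \ {one, xe}, (C * N x + 2 * C / (Q : ℝ) ^ 3) := by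
      apply sum_congr rfl
      intro x hx
      rw [Finset.mem_sdiff, mem_insert, mem_singleton] at hx
      rw [if_neg hx.2, add_zero]
    rw [h1]
    have h2 : ∑ x ∈ Ch Q \ {one, xe}, (C * N x + 2 * C / (Q : ℝ) ^ 3) ≤
        ∑ x ∈ Ch Q, (C * N x + 2 * C / (Q : ℝ) ^ 3) :=
      sum_le_sum_of_subset_of_nonneg sdiff_subset fun x _ _ => by
        have := hN0 x
        positivity
    refine h2.trans ?_
    rw [sum_add_distrib, ← mul_sum, sum_const, nsmul_eq_mul]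
    have h3 : C * ∑ x ∈ Ch Q, N x ≤ C * (B0 * (s ^ A0 * Er')) := mul_le_mul_of_nonneg_left hNs hC.le
    have h4 : ((Ch Q).card : ℝ) ≤ (Q : ℝ) * Q := by exact_mod_cast card_Ch Q
    have h5 : ((Ch Q).card : ℝ) * (2 * C / (Q : ℝ) ^ 3) ≤ 2 * C / Q := by
      calc ((Ch Q).card : ℝ) * (2 * C / (Q : ℝ) ^ 3) ≤ ((Q : ℝ) * Q) * (2 * C / (Q : ℝ) ^ 3) :=
            mul_le_mul_of_nonneg_right h4 (by positivity)
        _ = 2 * C / Q := by field_simp
    linarith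
  · intro n hn1 hn2
    have h1 := hone n
    rw [integral_complex_ofReal, wtF_one X Q n hQ2 hQX hn1 hn2, Complex.ofReal_one] at h1
    have h2 := mul_le_mul_of_nonneg_left (hsing one (one_mem_Ch (by omega))) hC.le
    linarith
  · intro n
    have h1 := hexc n
    have h2 := mul_le_mul_of_nonneg_left (hsing xe hxe) hC.le
    linarith

end Pool.Agent.Lib.GMV
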