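import Pool.Agent.Lib.GMV.Model
import Pool.Agent.Lib.SW.Siegel
import Pool.Agent.Lib.VK.Approx

/-!
# GMV.SiegZ: Siegel's theorem for the exceptional zero

`SW.siegel` gives `c q^(-ε/2) ≤ |L(1,χ)|`; in the disc `|w - 1| < 2κ` the L-function is `≤ K q^(3κ)` (`VK.approx` with `N = q`), so its derivative
on `[β, 1]` is `≤ K q^(3κ)/κ` (Cauchy) and `|L(1,χ)| ≤ (1-β) K q^(3κ)/κ`.
-/

set_option autoImplicit false

open Finset Filter

namespace Pool.Agent.Lib.GMV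

namespace SiegZAux

/-- The L-function near `1`. -/
lemma near_one (κ : ℝ) (hκ : 0 < κ) (hκ1 : κ ≤ 1 / 10) : ∃ K : ℝ, 1 ≤ K ∧ ∀ (q : ℕ) [NeZero q]
    (χ : DirichletCharacter ℂ q) (w : ℂ), χ ≠ 1 → w ≠ 1 → 1 - 2 * κ ≤ w.re → ‖w‖ ≤ 2 →
    ‖DirichletCharacter.LFunction χ w‖ ≤ K * (q : ℝ) ^ (3 * κ) := by
  obtain ⟨C, hC, h⟩ := Pool.Agent.VK.approx
  refine ⟨(1 + 1 / κ) + 2 * C, by
    have : 0 < 1 / κ := by positivity
    linarith, ?_⟩
  intro q _ χ w hχ hw hre hn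
  have hq : 1 ≤ q := NeZero.one_le
  have hq1 : (1 : ℝ) ≤ q := by exact_mod_cast hq
  have hq0 : (0 : ℝ) < q := by linarith
  have h1 := h q (χ ·) q w (fun a => DirichletCharacter.norm_le_one _ _) hq (by linarith) hw
  have hsum : (∑ a : ZMod q, χ a) = 0 := MulChar.sum_eq_zero_of_ne_one hχ
  rw [hsum, zero_div, zero_mul, sub_zero] at h1
  have h2 : ‖∑ n ∈ Icc 1 q, χ (n : ZMod q) * (n : ℂ) ^ (-w)‖ ≤
      (1 + 1 / κ) * (q : ℝ) ^ (3 * κ) := by
    have hterm : ∀ n ∈ Icc 1 q, ‖χ (n : ZMod q) * (n : ℂ) ^ (-w)‖ ≤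
        (q : ℝ) ^ (2 * κ) * (n : ℝ)⁻¹ := by
      intro n hn
      rw [Finset.mem_Icc] at hn
      have hn1 : (1 : ℝ) ≤ n := by exact_mod_cast hn.1
      have hn0 : (0 : ℝ) < n := by linarith
      have hnq : (n : ℝ) ≤ q := by exact_mod_cast hn.2
      rw [norm_mul]
      have h3 : ‖χ (n : ZMod q)‖ ≤ 1 := DirichletCharacter.norm_le_one _ _
      have h4 : ‖(n : ℂ) ^ (-w)‖ = (n : ℝ) ^ (-w.re) := by
        rw [Complex.norm_natCast_cpow_of_pos (by omega)]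
        rfl
      rw [h4]
      have h5 : (n : ℝ) ^ (-w.re) ≤ (n : ℝ) ^ (2 * κ - 1) :=
        Real.rpow_le_rpow_of_exponent_le hn1 (by linarith)
      have h6 : (n : ℝ) ^ (2 * κ - 1) = (n : ℝ) ^ (2 * κ) * (n : ℝ)⁻¹ := by
        rw [Real.rpow_sub hn0, Real.rpow_one]
        rfl
      have h7 : (n : ℝ) ^ (2 * κ) ≤ (q : ℝ) ^ (2 * κ) :=
        Real.rpow_le_rpow hn0.le hnq (by positivity)
      calc ‖χ (n : ZMod q)‖ * (n : ℝ) ^ (-w.re) ≤ 1 * (n : ℝ) ^ (-w.re) :=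
            mul_le_mul_of_nonneg_right h3 (by positivity)
        _ ≤ (n : ℝ) ^ (2 * κ) * (n : ℝ)⁻¹ := by rw [one_mul, ← h6]; exact h5
        _ ≤ _ := mul_le_mul_of_nonneg_right h7 (by positivity)
    refine (norm_sum_le _ _).trans ((Finset.sum_le_sum hterm).trans ?_)
    rw [← Finset.mul_sum]
    have h8 : ∑ n ∈ Icc 1 q, ((n : ℝ))⁻¹ ≤ 1 + Real.log q := by
      have := harmonic_le_one_add_log q
      rw [harmonic_eq_sum_Icc] at this
      push_cast at this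
      exact this
    have h9 : Real.log q ≤ (q : ℝ) ^ κ / κ := Real.log_le_rpow_div hq0.le hκ
    have h10 : 1 ≤ (q : ℝ) ^ κ := Real.one_le_rpow hq1 hκ.le
    have h11 : 1 + Real.log q ≤ (1 + 1 / κ) * (q : ℝ) ^ κ := by
      have e : (q : ℝ) ^ κ / κ = 1 / κ * (q : ℝ) ^ κ := by ring
      rw [e] at h9
      linarith
    calc (q : ℝ) ^ (2 * κ) * ∑ n ∈ Icc 1 q, ((n : ℝ))⁻¹
        ≤ (q : ℝ) ^ (2 * κ) * ((1 + 1 / κ) * (q : ℝ) ^ κ) :=
          mul_le_mul_of_nonneg_left (h8.trans h11) (by positivity)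
      _ = (1 + 1 / κ) * ((q : ℝ) ^ (2 * κ) * (q : ℝ) ^ κ) := by ring
      _ = (1 + 1 / κ) * (q : ℝ) ^ (3 * κ) := by
          rw [← Real.rpow_add hq0]
          congr 2
          ring
  have h12 : C * q * ‖w‖ * (q : ℝ) ^ (-w.re) ≤ 2 * C * (q : ℝ) ^ (3 * κ) := by
    have h13 : (q : ℝ) ^ (-w.re) ≤ (q : ℝ) ^ (2 * κ - 1) :=
      Real.rpow_le_rpow_of_exponent_le hq1 (by linarith)
    have h14 : (q : ℝ) * (q : ℝ) ^ (2 * κ - 1) = (q : ℝ) ^ (2 * κ) := by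
      rw [Real.rpow_sub hq0, Real.rpow_one]
      field_simp
    have h15 : (q : ℝ) ^ (2 * κ) ≤ (q : ℝ) ^ (3 * κ) :=
      Real.rpow_le_rpow_of_exponent_le hq1 (by linarith)
    calc C * q * ‖w‖ * (q : ℝ) ^ (-w.re) ≤ C * q * 2 * (q : ℝ) ^ (2 * κ - 1) := by
          apply mul_le_mul _ h13 (by positivity) (by positivity)
          exact mul_le_mul_of_nonneg_left hn (by positivity)
      _ = 2 * C * ((q : ℝ) * (q : ℝ) ^ (2 * κ - 1)) := by ring
      _ = 2 * C * (q : ℝ) ^ (2 * κ) := by rw [h14]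
      _ ≤ _ := mul_le_mul_of_nonneg_left h15 (by positivity)
  have h16 : ‖DirichletCharacter.LFunction χ w‖ ≤
      ‖∑ n ∈ Icc 1 q, χ (n : ZMod q) * (n : ℂ) ^ (-w)‖ + C * q * ‖w‖ * (q : ℝ) ^ (-w.re) := by
    have h17 : DirichletCharacter.LFunction χ w = (∑ n ∈ Icc 1 q, χ (n : ZMod q) * (n : ℂ) ^ (-w)) +
        (ZMod.LFunction (χ ·) w - ∑ n ∈ Icc 1 q, χ (n : ZMod q) * (n : ℂ) ^ (-w)) := by
      unfold DirichletCharacter.LFunction
      ring
    rw [h17]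
    exact (norm_add_le _ _).trans (add_le_add_right h1 _)
  refine h16.trans ?_
  calc _ ≤ (1 + 1 / κ) * (q : ℝ) ^ (3 * κ) + 2 * C * (q : ℝ) ^ (3 * κ) := add_le_add h2 h12
    _ = _ := by ring

end SiegZAux

open SiegZAux

theorem siegZ (ε : ℝ) (hε : 0 < ε) : ∃ C : ℝ, 0 < C ∧ ∀ (x : CI) (β : ℝ), x.2.IsPrimitive →
    x.2 ≠ 1 → x.2 ^ 2 = 1 → Lf x.2 (β : ℂ) = 0 → 9 / 10 ≤ β → β < 1 →
    C * (md x : ℝ) ^ (-ε) ≤ 1 - β := by
  set κ : ℝ := min (ε / 8) (1 / 10) with hκd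
  have hκ : 0 < κ := lt_min (by linarith) (by norm_num)
  have hκ1 : κ ≤ 1 / 10 := min_le_right _ _
  have hκε : κ ≤ ε / 8 := min_le_left _ _
  obtain ⟨c, hc, hs⟩ := Pool.Agent.Lib.SW.siegel (ε / 2) (by linarith)
  obtain ⟨K, hK, hU⟩ := near_one κ hκ hκ1
  refine ⟨min (κ / 2) (c * κ / K), lt_min (by linarith) (by positivity), ?_⟩
  intro x β _ hne h2 h0 hβ hβ1
  have hq1 : (1 : ℝ) ≤ md x := by exact_mod_cast md_pos x
  have hq0 : (0 : ℝ) < md x := by linarith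
  have hqe : (md x : ℝ) ^ (-ε) ≤ 1 := Real.rpow_le_one_of_one_le_of_nonpos hq1 (by linarith)
  by_cases hfar : κ / 2 ≤ 1 - β
  · calc min (κ / 2) (c * κ / K) * (md x : ℝ) ^ (-ε) ≤ κ / 2 * 1 :=
          mul_le_mul (min_le_left _ _) hqe (by positivity) (by linarith)
      _ ≤ 1 - β := by linarith
  · push Not at hfar
    have hsi := hs (x.1 + 1) x.2 hne h2
    have hLf : Lf x.2 = DirichletCharacter.LFunction x.2 := Lf_of_ne hne
    have hseg : ∀ z ∈ segment ℝ ((β : ℝ) : ℂ) 1, 1 - κ / 2 < z.re ∧ z.re ≤ 1 ∧ z.im = 0 := by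
      rintro z ⟨a, b, ha, hb, hab, rfl⟩
      have e1 : (a • ((β : ℝ) : ℂ) + b • (1 : ℂ)).re = a * β + b := by
        simp
      have e2 : (a • ((β : ℝ) : ℂ) + b • (1 : ℂ)).im = 0 := by
        simp
      rw [e1, e2]
      refine ⟨?_, ?_, rfl⟩
      · nlinarith
      · nlinarith
    have hder : ∀ z ∈ segment ℝ ((β : ℝ) : ℂ) 1,
        ‖deriv (Lf x.2) z‖ ≤ K * (md x : ℝ) ^ (3 * κ) / κ := by
      intro z hz
      obtain ⟨g1, g2, g3⟩ := hseg z hz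
      have hz1 : ‖z - 1‖ ≤ κ / 2 := by
        have e3 : z - 1 = (((z.re - 1 : ℝ)) : ℂ) := by
          apply Complex.ext
          · simp
          · simp [g3]
        rw [e3, Complex.norm_real, Real.norm_eq_abs, abs_of_nonpos (by linarith)]
        linarith
      have hb : ∀ w ∈ Metric.sphere z κ, ‖Lf x.2 w‖ ≤ K * (md x : ℝ) ^ (3 * κ) := by
        intro w hw
        rw [mem_sphere_iff_norm] at hw
        have h4 : |(w - z).re| ≤ κ := (Complex.abs_re_le_norm _).trans hw.le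
        rw [Complex.sub_re] at h4
        have h6 := abs_le.mp h4
        have hw1 : w ≠ 1 := by
          rintro rfl
          have : ‖(1 : ℂ) - z‖ = ‖z - 1‖ := norm_sub_rev _ _
          rw [this] at hw
          linarith
        have hwn : ‖w‖ ≤ 2 := by
          have e4 : w = (w - z) + ((z - 1) + 1) := by ring
          have h7 : ‖w‖ ≤ ‖w - z‖ + (‖z - 1‖ + ‖(1 : ℂ)‖) := by
            conv_lhs => rw [e4]
            exact (norm_add_le _ _).trans (add_le_add_right (norm_add_le _ _) _)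
          rw [norm_one, hw] at h7
          linarith
        rw [hLf]
        exact hU (x.1 + 1) x.2 w hne hw1 (by linarith) hwn
      exact Complex.norm_deriv_le_of_forall_mem_sphere_norm_le (f := Lf x.2) (c := z)
        (R := κ) (C := K * (md x : ℝ) ^ (3 * κ)) hκ
        ((Lf_differentiable x.2).diffContOnCl) hb
    have hmv := Convex.norm_image_sub_le_of_norm_deriv_le (f := Lf x.2)
      (C := K * (md x : ℝ) ^ (3 * κ) / κ)
      (s := segment ℝ ((β : ℝ) : ℂ) 1) (x := ((β : ℝ) : ℂ)) (y := 1)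
      (fun z _ => (Lf_differentiable x.2).differentiableAt) hder (convex_segment _ _)
      (left_mem_segment _ _ _) (right_mem_segment _ _ _)
    rw [h0, sub_zero] at hmv
    have e1 : ‖(1 : ℂ) - ((β : ℝ) : ℂ)‖ = 1 - β := by
      rw [← Complex.ofReal_one, ← Complex.ofReal_sub, Complex.norm_real, Real.norm_of_nonneg]
      linarith
    rw [e1, hLf] at hmv
    have hsi2 : c * (md x : ℝ) ^ (-(ε / 2)) ≤ K * (md x : ℝ) ^ (3 * κ) / κ * (1 - β) := by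
      refine le_trans ?_ (hsi.trans hmv)
      exact le_of_eq rfl
    -- multiply by `q^(-3κ) κ / K`
    have hp : 0 < (md x : ℝ) ^ (3 * κ) := Real.rpow_pos_of_pos hq0 _
    have h20 : c * κ / K * ((md x : ℝ) ^ (-(ε / 2)) * ((md x : ℝ) ^ (3 * κ))⁻¹) ≤ 1 - β := by
      have h21 : c * κ / K * ((md x : ℝ) ^ (-(ε / 2)) * ((md x : ℝ) ^ (3 * κ))⁻¹) =
          (c * (md x : ℝ) ^ (-(ε / 2))) * (κ / (K * (md x : ℝ) ^ (3 * κ))) := by
        field_simp
      rw [h21]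
      have h22 : (c * (md x : ℝ) ^ (-(ε / 2))) * (κ / (K * (md x : ℝ) ^ (3 * κ))) ≤
          (K * (md x : ℝ) ^ (3 * κ) / κ * (1 - β)) * (κ / (K * (md x : ℝ) ^ (3 * κ))) :=
        mul_le_mul_of_nonneg_right hsi2 (by positivity)
      refine h22.trans (le_of_eq ?_)
      field_simp
    have h23 : (md x : ℝ) ^ (-ε) ≤ (md x : ℝ) ^ (-(ε / 2)) * ((md x : ℝ) ^ (3 * κ))⁻¹ := by
      rw [← Real.rpow_neg hq0.le, ← Real.rpow_add hq0]
      exact Real.rpow_le_rpow_of_exponent_le hq1 (by linarith)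
    calc min (κ / 2) (c * κ / K) * (md x : ℝ) ^ (-ε)
        ≤ c * κ / K * ((md x : ℝ) ^ (-(ε / 2)) * ((md x : ℝ) ^ (3 * κ))⁻¹) :=
          mul_le_mul (min_le_right _ _) h23 (by positivity) (by positivity)
      _ ≤ 1 - β := h20

end Pool.Agent.Lib.GMV
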