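import Pool.Agent.Lib.GMV.Fin2
import Pool.Agent.Lib.GMV.SiegZ

/-!
# GMV.Fin3: the asymptotic formula with a power of the logarithm, all `X`
-/

set_option autoImplicit false

open Finset Filter

namespace Pool.Agent.Lib.GMV

open Pool.Agent.HLB Pool.Agent.HLT Pool.Agent.HLR

namespace Fin3Aux

/-- `⌊exp (κ L / log L)⌋`. -/
noncomputable def QL (κ : ℝ) (X : ℕ) : ℕ :=
  ⌊Real.exp (κ * Real.log X / Real.log (Real.log X))⌋₊

/-- Facts on the parameter. -/
lemma ql_facts (κ c2 : ℝ) (hκ : 0 < κ) (hc2 : 0 < c2) : ∃ X0 : ℕ, ∀ X : ℕ, X0 ≤ X →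
    Real.exp (Real.sqrt (Real.log X)) ≤ (QL κ X : ℝ) ∧ (QL κ X : ℝ) ≤ (X : ℝ) ^ c2 ∧
    16 ≤ X ∧ 1 ≤ Real.log (Real.log X) ∧
    (QL κ X : ℝ) ^ (-(1 / 5 : ℝ)) ≤
      Real.exp (-(κ / 10 * Real.log X / Real.log (Real.log X))) ∧
    Real.sqrt (Real.log X) ≤ Real.log (QL κ X : ℝ) ∧
    Real.log (QL κ X : ℝ) ≤ κ * Real.log X / Real.log (Real.log X) := by
  have h2 : Tendsto (fun X : ℕ => Real.log (X : ℝ)) atTop atTop :=
    Real.tendsto_log_atTop.comp tendsto_natCast_atTop_atTop
  have h3 : Tendsto (fun X : ℕ => Real.log (Real.log (X : ℝ))) atTop atTop :=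
    Real.tendsto_log_atTop.comp h2
  -- `log L = o(√L)`
  have h4 : ∀ᶠ L : ℝ in atTop, Real.log L ≤ (κ / 4) * L ^ (1 / 2 : ℝ) :=
    ((isLittleO_log_rpow_atTop (by norm_num : (0 : ℝ) < 1 / 2)).bound
      (by positivity : 0 < κ / 4)).mp ((eventually_ge_atTop 1).mono fun L hL h => by
      have h5 : 0 ≤ Real.log L := Real.log_nonneg hL
      have h6 : 0 ≤ L ^ (1 / 2 : ℝ) := by positivity
      rw [Real.norm_of_nonneg h5, Real.norm_of_nonneg h6] at h
      exact h)
  obtain ⟨N, hN⟩ := eventually_atTop.1 ((((h2.eventually h4).and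
    (h3.eventually_ge_atTop (max 1 (κ / c2)))).and (eventually_ge_atTop 16)).and
      (h2.eventually_ge_atTop 4))
  refine ⟨N, fun X hX => ?_⟩
  obtain ⟨⟨⟨hA, hB⟩, hX16⟩, hL4⟩ := hN X hX
  set L : ℝ := Real.log X with hL
  set l : ℝ := Real.log L with hl
  have hl1 : 1 ≤ l := (le_max_left _ _).trans hB
  have hlc : κ / c2 ≤ l := (le_max_right _ _).trans hB
  have hl0 : 0 < l := by linarith
  have hL0 : 0 < L := by linarith
  have hsq : L ^ (1 / 2 : ℝ) = Real.sqrt L := by rw [Real.sqrt_eq_rpow]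
  rw [hsq] at hA
  have hs2 : 2 ≤ Real.sqrt L := by
    rw [show (2 : ℝ) = Real.sqrt 4 by rw [show (4 : ℝ) = 2 ^ 2 by norm_num]; simp]
    exact Real.sqrt_le_sqrt hL4
  have hss : Real.sqrt L * Real.sqrt L = L := Real.mul_self_sqrt hL0.le
  -- `4 √L ≤ κ L / l`
  have hmain : 4 * Real.sqrt L ≤ κ * L / l := by
    rw [le_div_iff₀ hl0]
    calc 4 * Real.sqrt L * l ≤ 4 * Real.sqrt L * (κ / 4 * Real.sqrt L) :=
          mul_le_mul_of_nonneg_left hA (by positivity)
      _ = κ * (Real.sqrt L * Real.sqrt L) := by ring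
      _ = κ * L := by rw [hss]
  set E : ℝ := κ * L / l with hE
  set y : ℝ := Real.exp E with hy
  have hy8 : 8 ≤ y := by
    have : E + 1 ≤ y := Real.add_one_le_exp E
    linarith
  have hfl : y - 1 ≤ (⌊y⌋₊ : ℝ) := by
    have := Nat.lt_floor_add_one y
    linarith
  have hfu : (⌊y⌋₊ : ℝ) ≤ y := Nat.floor_le (by linarith)
  have hy2 : y / 2 ≤ (⌊y⌋₊ : ℝ) := by linarith
  have hhalf : Real.exp (E / 2) ≤ y / 2 := by
    have h7 : Real.exp (E / 2) * Real.exp (E / 2) = y := by
      rw [← Real.exp_add]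
      congr 1
      ring
    have h8 : 2 ≤ Real.exp (E / 2) := by
      have : E / 2 + 1 ≤ Real.exp (E / 2) := Real.add_one_le_exp _
      linarith
    have h9 : 0 < Real.exp (E / 2) := Real.exp_pos _
    nlinarith
  have hQL : QL κ X = ⌊y⌋₊ := rfl
  have hsE : Real.exp (Real.sqrt L) ≤ Real.exp (E / 2) := Real.exp_le_exp.mpr (by linarith)
  rw [hQL]
  refine ⟨hsE.trans (hhalf.trans hy2), ?_, hX16, hl1, ?_, ?_, ?_⟩
  · refine hfu.trans ?_
    have hX0 : (0 : ℝ) < X := by
      have : (16 : ℝ) ≤ X := by exact_mod_cast hX16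
      linarith
    rw [Real.rpow_def_of_pos hX0, hy]
    apply Real.exp_le_exp.mpr
    rw [hE, div_le_iff₀ hl0]
    rw [div_le_iff₀ hc2] at hlc
    calc κ * L ≤ (l * c2) * L := mul_le_mul_of_nonneg_right hlc hL0.le
      _ = L * c2 * l := by ring
  · have h6 : (⌊y⌋₊ : ℝ) ^ (-(1 / 5 : ℝ)) ≤ (Real.exp (E / 2)) ^ (-(1 / 5 : ℝ)) :=
      Real.rpow_le_rpow_of_nonpos (Real.exp_pos _) (hhalf.trans hy2) (by norm_num)
    refine h6.trans (le_of_eq ?_)
    rw [← Real.exp_mul]
    congr 1
    rw [hE]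
    ring
  · have h10 := Real.log_le_log (Real.exp_pos _) (hsE.trans (hhalf.trans hy2))
    rwa [Real.log_exp] at h10
  · have h11 := Real.log_le_log (by linarith : (0:ℝ) < (⌊y⌋₊ : ℝ)) hfu
    rwa [hy, Real.log_exp] at h11

end Fin3Aux

open Fin3Aux

theorem fin_log (r : ℕ) (hr : 1 ≤ r) (c1 : ℝ) (hZ : ZFree c1) (hc1 : 0 < c1) :
    ∀ (A B : ℕ) (κ0 : ℝ), 0 < κ0 → ∃ δ : ℝ, 0 < δ ∧ ∃ X0 : ℕ, ∀ X : ℕ, X0 ≤ X →
      AB r X ((X : ℝ) ^ r * Real.exp (-(δ * Real.log X / Real.log (Real.log X)))) fun a =>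
        (∃ d : ℕ, d ∣ Del (c0 a) ∧ Real.log X ^ B < d ∧ (d : ℝ) ≤ (X : ℝ) ^ κ0) ∨
          Good r X (1 / Real.log X ^ A) a := by
  intro A B κ0 hκ0
  obtain ⟨a, C, c2, ha, hC, hc2, X1, hcore⟩ :=
    core r hr c1 (c1 / 2) hZ (by linarith) (by linarith)
  set κ : ℝ := a / (A + 1) with hκd
  have hκ : 0 < κ := by positivity
  set K : ℕ := 4 * (A + 1) + B + 2 with hK
  obtain ⟨Cs, hCs, hsieg⟩ := siegZ (1 / (2 * K)) (by positivity)
  obtain ⟨X2, hX2⟩ := ql_facts κ (min c2 κ0) hκ (lt_min hc2 hκ0)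
  have h2 : Tendsto (fun X : ℕ => Real.log (X : ℝ)) atTop atTop :=
    Real.tendsto_log_atTop.comp tendsto_natCast_atTop_atTop
  set D : ℝ := (Cs / (c1 / 2)) ^ (2 * K) with hD
  have hD0 : 0 < D := by positivity
  obtain ⟨X3, hX3⟩ := eventually_atTop.1 (h2.eventually_ge_atTop
    (max (max 1 (2 * C)) (max (1 / D) (100 * c1 ^ 2 + 1))))
  refine ⟨κ / 10, by positivity, max X1 (max X2 X3), fun X hX => ?_⟩
  obtain ⟨f1, f2, f3, f4, f5, f6, f7⟩ := hX2 X ((le_max_left _ _).trans ((le_max_right _ _).trans hX))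
  have f8 := hX3 X ((le_max_right _ _).trans ((le_max_right _ _).trans hX))
  set L : ℝ := Real.log X with hL
  have hL1 : 1 ≤ L := ((le_max_left _ _).trans (le_max_left _ _)).trans f8
  have hLC : 2 * C ≤ L := ((le_max_right _ _).trans (le_max_left _ _)).trans f8
  have hLD : 1 / D ≤ L := ((le_max_left _ _).trans (le_max_right _ _)).trans f8
  have hLc : 100 * c1 ^ 2 + 1 ≤ L := ((le_max_right _ _).trans (le_max_right _ _)).trans f8
  have hX16 : (16 : ℝ) ≤ X := by exact_mod_cast f3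
  have hX1 : (1 : ℝ) ≤ X := by linarith
  have hL0 : 0 < L := by linarith
  have hs1 : 1 ≤ Real.sqrt L := Real.one_le_sqrt.mpr hL1
  have hQlog : 0 < Real.log (QL κ X : ℝ) := lt_of_lt_of_le (by linarith) f6
  have hQc2 : (QL κ X : ℝ) ≤ (X : ℝ) ^ c2 :=
    f2.trans (Real.rpow_le_rpow_of_exponent_le hX1 (min_le_left _ _))
  have hQκ : (QL κ X : ℝ) ≤ (X : ℝ) ^ κ0 :=
    f2.trans (Real.rpow_le_rpow_of_exponent_le hX1 (min_le_right _ _))
  obtain ⟨q, hq, F, hF, hgood⟩ := hcore X (QL κ X) ((le_max_left _ _).trans hX) f1 hQc2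
  refine ⟨F, hF.trans (mul_le_mul_of_nonneg_left f5 (by positivity)), fun a' h4 h5 h6 h7 => ?_⟩
  by_cases hd : ∃ d : ℕ, d ∣ Del (c0 a') ∧ L ^ B < d ∧ (d : ℝ) ≤ (X : ℝ) ^ κ0
  · exact Or.inl hd
  · right
    have hM : 0 ≤ SI (c0 a') * X / L ^ (r + 1) :=
      div_nonneg (mul_nonneg (SI_nonneg _ h6) (by linarith)) (pow_nonneg hL0.le _)
    have hLA : 0 < L ^ (A + 1) := pow_pos hL0 _
    -- the exponential term
    have hEr : Er a X (QL κ X) ≤ 1 / L ^ (A + 1) := by
      unfold Er
      have h8 : (A + 1 : ℝ) * Real.log L ≤ a * L / Real.log (QL κ X : ℝ) := by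
        rw [le_div_iff₀ hQlog]
        have hl0 : 0 < Real.log L := by linarith
        have h9 : Real.log (QL κ X : ℝ) * Real.log L ≤ κ * L := by
          rw [le_div_iff₀ hl0] at f7
          exact f7
        calc (A + 1 : ℝ) * Real.log L * Real.log (QL κ X : ℝ)
            = (A + 1) * (Real.log (QL κ X : ℝ) * Real.log L) := by ring
          _ ≤ (A + 1) * (κ * L) := mul_le_mul_of_nonneg_left h9 (by positivity)
          _ = a * L := by rw [hκd]; field_simp
      have h10 : Real.exp (-(a * L / Real.log (QL κ X : ℝ))) ≤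
          Real.exp (-((A + 1 : ℝ) * Real.log L)) := Real.exp_le_exp.mpr (by linarith)
      refine h10.trans (le_of_eq ?_)
      rw [Real.exp_neg, mul_comm, Real.exp_mul, Real.exp_log hL0, one_div]
      congr 1
      rw [← Real.rpow_natCast]
      push_cast
      rfl
    -- the exceptional term
    have hG : Gq q (c0 a') ≤ 1 / L ^ (A + 1) := by
      unfold Gq
      split_ifs with h0
      · positivity
      · rcases hq with ⟨h0', -⟩ | ⟨xe, β, ⟨e1, e2, e3, e4, e5, e6⟩, hqe⟩
        · exact absurd h0' h0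
        · have hsl : Real.sqrt L * Real.sqrt L = L := Real.mul_self_sqrt hL0.le
          have hb9 : 9 / 10 ≤ β := by
            have h11 : c1 / 2 / Real.log (QL κ X : ℝ) ≤ 1 / 10 := by
              rw [div_le_iff₀ hQlog]
              have h12 : 5 * c1 ≤ Real.sqrt L := by
                by_contra hcon
                push Not at hcon
                nlinarith
              nlinarith
            linarith
          have h13 := hsieg xe β (mem_Ch.1 e1).2 e2 e3 e4 hb9 e6
          have h14 : Cs * (md xe : ℝ) ^ (-(1 / (2 * K) : ℝ)) ≤ c1 / 2 / Real.sqrt L := by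
            refine h13.trans ?_
            have h15 : c1 / 2 / Real.log (QL κ X : ℝ) ≤ c1 / 2 / Real.sqrt L :=
              div_le_div_of_nonneg_left (by linarith) (by linarith) f6
            linarith
          have hq0 : (0 : ℝ) < md xe := by exact_mod_cast md_pos xe
          -- `D L^K ≤ q`
          have h16 : D * L ^ K ≤ (md xe : ℝ) := by
            have h17 : Cs / (c1 / 2) * Real.sqrt L ≤ (md xe : ℝ) ^ ((1 / (2 * K) : ℝ)) := by
              have hp : 0 < (md xe : ℝ) ^ ((1 / (2 * K) : ℝ)) := Real.rpow_pos_of_pos hq0 _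
              rw [Real.rpow_neg hq0.le] at h14
              rw [le_div_iff₀ (by linarith : 0 < Real.sqrt L)] at h14
              rw [div_mul_eq_mul_div, div_le_iff₀ (by linarith : 0 < c1 / 2)]
              have h18 := mul_le_mul_of_nonneg_right h14 hp.le
              have e7 : Cs * ((md xe : ℝ) ^ ((1 / (2 * K) : ℝ)))⁻¹ * Real.sqrt L *
                  (md xe : ℝ) ^ ((1 / (2 * K) : ℝ)) = Cs * Real.sqrt L := by
                field_simp
              rw [e7] at h18
              linarith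
            have h19 : (Cs / (c1 / 2) * Real.sqrt L) ^ (2 * K) ≤
                ((md xe : ℝ) ^ ((1 / (2 * K) : ℝ))) ^ (2 * K) :=
              pow_le_pow_left₀ (by positivity) h17 _
            have e8 : ((md xe : ℝ) ^ ((1 / (2 * K) : ℝ))) ^ (2 * K) = md xe := by
              rw [← Real.rpow_natCast, ← Real.rpow_mul hq0.le]
              have : (1 / (2 * K) : ℝ) * ((2 * K : ℕ) : ℝ) = 1 := by
                push_cast
                have : (0 : ℝ) < K := by
                  rw [hK]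
                  positivity
                field_simp
              rw [this, Real.rpow_one]
            have e9 : (Cs / (c1 / 2) * Real.sqrt L) ^ (2 * K) = D * L ^ K := by
              rw [mul_pow, ← hD, pow_mul (Real.sqrt L), sq, hsl]
            rwa [e8, e9] at h19
          set g := Nat.gcd q (Del (c0 a')) with hgd
          have hgpos : 0 < g := Nat.gcd_pos_of_pos_left _ (Nat.pos_of_ne_zero h0)
          have hg0 : (0 : ℝ) < g := by exact_mod_cast hgpos
          have hgw : (g : ℝ) ≤ L ^ B := by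
            by_contra hcon
            refine hd ⟨g, Nat.gcd_dvd_right _ _, not_le.mp hcon, ?_⟩
            have h8' : g ≤ q := Nat.le_of_dvd (Nat.pos_of_ne_zero h0) (Nat.gcd_dvd_left _ _)
            have h8 : (g : ℝ) ≤ q := by exact_mod_cast h8'
            have h9' : q ≤ QL κ X := by
              rw [hqe]
              exact (mem_Ch.1 e1).1
            have h9 : (q : ℝ) ≤ (QL κ X : ℝ) := by exact_mod_cast h9'
            exact h8.trans (h9.trans hQκ)
          have h20 : L ^ (4 * (A + 1)) ≤ (q : ℝ) / (g : ℝ) := by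
            rw [le_div_iff₀ hg0]
            have h21 : L ^ (4 * (A + 1)) * g ≤ L ^ (4 * (A + 1)) * L ^ B :=
              mul_le_mul_of_nonneg_left hgw (by positivity)
            have h22 : L ^ (4 * (A + 1)) * L ^ B ≤ D * L ^ K := by
              have e10 : D * L ^ K = (D * L) * L * (L ^ (4 * (A + 1)) * L ^ B) := by
                rw [hK]
                ring
              rw [e10]
              have h23 : 1 ≤ D * L := by
                rw [div_le_iff₀ hD0] at hLD
                linarith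
              have h24 : 1 ≤ (D * L) * L := by nlinarith
              have h25 : 0 ≤ L ^ (4 * (A + 1)) * L ^ B := by positivity
              nlinarith
            have h26 : (md xe : ℝ) = q := by rw [hqe]
            linarith
          have h27 : ((q : ℝ) / (g : ℝ)) ^ (-(1 / 4 : ℝ)) ≤ (L ^ (4 * (A + 1))) ^ (-(1 / 4 : ℝ)) :=
            Real.rpow_le_rpow_of_nonpos (by positivity) h20 (by norm_num)
          refine h27.trans (le_of_eq ?_)
          rw [Real.rpow_neg (by positivity), one_div, ← Real.rpow_natCast L (4 * (A + 1)),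
            ← Real.rpow_mul hL0.le, ← Real.rpow_natCast L (A + 1)]
          push_cast
          ring_nf
    intro y hy
    refine (hgood a' h4 h5 h6 h7 y hy).trans ?_
    have h28 : C * (Er a X (QL κ X) + Gq q (c0 a')) ≤ 1 / L ^ A := by
      have h29 : C * (Er a X (QL κ X) + Gq q (c0 a')) ≤ C * (1 / L ^ (A + 1) + 1 / L ^ (A + 1)) :=
        mul_le_mul_of_nonneg_left (add_le_add hEr hG) hC.le
      refine h29.trans ?_
      have e11 : C * (1 / L ^ (A + 1) + 1 / L ^ (A + 1)) = (2 * C) / L * (1 / L ^ A) := by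
        rw [pow_succ]
        field_simp
        ring
      rw [e11]
      have h30 : (2 * C) / L ≤ 1 := by
        rw [div_le_one hL0]
        exact hLC
      have h31 : 0 ≤ 1 / L ^ A := by positivity
      nlinarith
    calc C * (SI (c0 a') * X / L ^ (r + 1)) * (Er a X (QL κ X) + Gq q (c0 a'))
        = C * (Er a X (QL κ X) + Gq q (c0 a')) * (SI (c0 a') * X / L ^ (r + 1)) := by ring
      _ ≤ _ := mul_le_mul_of_nonneg_right h28 hM

end Pool.Agent.Lib.GMV
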