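import Pool.Agent.Lib.GMV.PNorm
import Pool.Agent.Lib.GMV.PSum
import Pool.Agent.Lib.GMV.SiegZ
import Pool.Agent.Lib.GMV.Core

/-!
# GMV.PFin (2 h): all `X` (stage two)

`k = r + 1`. Fix `c = min (c1/2) (min c0 (1/2))`, `0 < c`; `core r c1 c`, `sumP k c1 c0 c4 c`, `normP r B` (`B` of `sumP`), `si_ge` give constants.
`Q = ⌊X^c3⌋₊`, `c3` small; `δ = c3/6` (`X^r Q^(-1/5) ≤ X^(r-δ)`). Let `η > 0`.
CASE A: no `IsExc c Q x β`. Then in `core` the second alternative of `ExMod` is impossible, `q = 0`, `Gq 0 _ = 0`; with `y = X`: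
count `≥ SI (∑_{2≤n≤X} ∏ (log(n + c0 a i))⁻¹ - C X/(log X)^k Er a X Q) ≥ SI X (log X)^(-k) (2^(-k-1) - C Er)`, and `Er a X Q = exp(-a log X/log Q) ≤ exp(-a/c3)`
(`log Q ≤ c3 log X`) is `≤ 2^(-k-3)/C` for `c3` small. `m = 1`.
CASE B: `IsExc c Q xe β` (also at `2X`: the `Q` is the same). `u = (1-β) log X`, `v = min 1 u > 0`, `m = v^k`. `sumP` and `normP` at `2X`, `Rg c' (2X) Q` for `X` large
(`exp(√(log 2X)/2) ≤ Q ≤ (2X)^c'`: `Q = ⌊X^c3⌋`). `(2X/Q)^(β-1) ≤ exp(-u/2) ≤ 1 - v/4` (`2X/Q ≥ X^(1/2)`; `exp(-s) ≤ 1 - s/2` for `0 ≤ s ≤ 1`, and for `s ≥ 1/2` `exp(-s) ≤ 3/4`).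
`E = B (((1-β) log Q)^k Er + 1/Q)`: `(1-β) log Q ≤ v` (`≤ u`, `≤ c < 1`), so `E ≤ B Er v^k + B/Q`; Siegel (`siegZ ε`, `ε` small in terms of `k`, `η`; `md xe ≤ Q`, `β ≥ 9/10` for `X` large):
`v ≥ κ Q^(-ε)` (`log X ≥ 1`), so `1/Q ≤` any constant times `v^k` (`X ≥ X0(η)`). With `c3` small `E ≤ v/32`: for all good `n`
`(Mc one n).re - |(Mc xe n).re| ≥ 1 - E - (1 - v/4) - E ≥ v/8 =: m'`. `normP`: count `· log(4X)^k ≥ SI (m'^k X/4 - C X (E + 1/Q)) - X Q^(-1/30) ≥ SI v^k X 8^(-k)/16`, as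
`C (E + 1/Q) ≤ v^k 8^(-k)/16` and `Q^(-1/30) ≤ c_k v^k 8^(-k)/16`, `SI ≥ c_k` (`si_ge`). And `m = v^k ≥ κ^k Q^(-k ε) ≥ X^(-η)`.
`κ0` = minimum of the constants (`log(4X) ≤ 2 log X`).
-/

set_option autoImplicit false

open Finset Filter

namespace Pool.Agent.Lib.GMV

open Pool.Agent.HLB Pool.Agent.HLT Pool.Agent.HLR

namespace PFinAux

lemma exp_small (a M : ℝ) (ha : 0 < a) : ∃ c : ℝ, 0 < c ∧ ∀ c' : ℝ, 0 < c' → c' ≤ c →
    M * Real.exp (-(a / c')) ≤ 1 := by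
  refine ⟨a / (|M| + 1), by positivity, fun c' h0 h1 => ?_⟩
  have h2 : |M| + 1 ≤ a / c' := by
    rw [le_div_iff₀ h0]
    rw [le_div_iff₀ (by positivity)] at h1
    linarith
  have h3 : a / c' < Real.exp (a / c') := by
    have := Real.add_one_le_exp (a / c')
    linarith
  rw [Real.exp_neg]
  have h4 : M ≤ Real.exp (a / c') := by linarith [le_abs_self M]
  rw [← div_eq_mul_inv, div_le_one (Real.exp_pos _)]
  exact h4

lemma Er_le {a c3 : ℝ} (ha : 0 < a) (hc : 0 < c3) {X Q : ℕ} (hQ : 0 < Real.log Q)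
    (h : Real.log Q ≤ c3 * Real.log X) : Er a X Q ≤ Real.exp (-(a / c3)) := by
  unfold Er
  refine Real.exp_le_exp.mpr (neg_le_neg ?_)
  rw [div_le_div_iff₀ hc hQ]
  calc a * Real.log Q ≤ a * (c3 * Real.log X) := mul_le_mul_of_nonneg_left h ha.le
    _ = a * Real.log X * c3 := by ring

lemma exp_neg_le {t : ℝ} (h0 : 0 ≤ t) (h1 : t ≤ 1) : Real.exp (-t) ≤ 1 - t / 2 := by
  rw [Real.exp_neg, inv_eq_one_div, div_le_iff₀ (Real.exp_pos _)]
  have h2 := Real.add_one_le_exp t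
  have h3 : (1 - t / 2) * (t + 1) ≤ (1 - t / 2) * Real.exp t :=
    mul_le_mul_of_nonneg_left h2 (by linarith)
  nlinarith

lemma large (r : ℕ) (c3 K η : ℝ) (h3 : 0 < c3) (hη : 0 < η) : ∃ X0 : ℕ, ∀ X : ℕ, X0 ≤ X →
    25 ≤ Real.log X ∧ Real.exp (Real.sqrt (Real.log X)) ≤ ((⌊(X : ℝ) ^ c3⌋₊ : ℕ) : ℝ) ∧
    (X : ℝ) ^ r * ((⌊(X : ℝ) ^ c3⌋₊ : ℕ) : ℝ) ^ (-(1 / 5 : ℝ)) ≤ (X : ℝ) ^ ((r : ℝ) - c3 / 6) ∧
    K ≤ ((⌊(X : ℝ) ^ c3⌋₊ : ℕ) : ℝ) ^ (1 / 60 : ℝ) ∧ K ≤ (X : ℝ) ^ (η / 2) := by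
  have h1 : Tendsto (fun X : ℕ => Real.sqrt (Real.log X)) atTop atTop :=
    Real.tendsto_sqrt_atTop.comp (Real.tendsto_log_atTop.comp tendsto_natCast_atTop_atTop)
  obtain ⟨X0, hX0⟩ := Filter.eventually_atTop.mp
    (h1.eventually_ge_atTop (5 + 6 / c3 + 60 * |K| + 2 * |K| / η))
  refine ⟨X0, fun X hX => ?_⟩
  have ht := hX0 X hX
  set L : ℝ := Real.log X with hL
  set t : ℝ := Real.sqrt L with htd
  have p1 : 0 ≤ 6 / c3 := by positivity
  have p2 : 0 ≤ 60 * |K| := by positivity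
  have p3 : 0 ≤ 2 * |K| / η := by positivity
  have ht5 : 5 ≤ t := by linarith
  have hL0 : 0 < L := by
    by_contra hcon
    have : t = 0 := Real.sqrt_eq_zero_of_nonpos (not_lt.mp hcon)
    linarith
  have hLt : L = t ^ 2 := (Real.sq_sqrt hL0.le).symm
  have htL : t ≤ L := by rw [hLt]; nlinarith
  have hX0' : (0 : ℝ) < X := by
    by_contra hcon
    have : (X : ℝ) = 0 := le_antisymm (not_lt.mp hcon) (Nat.cast_nonneg _)
    rw [hL, this, Real.log_zero] at hL0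
    exact lt_irrefl _ hL0
  have hX1 : (1 : ℝ) ≤ X := by
    by_contra hcon
    have : Real.log X < 0 := Real.log_neg hX0' (not_le.mp hcon)
    linarith
  have hpow : ∀ e : ℝ, (X : ℝ) ^ e = Real.exp (L * e) := fun e =>
    Real.rpow_def_of_pos hX0' e
  have hc3t : 6 ≤ c3 * t := by
    have : 6 / c3 ≤ t := by linarith
    rwa [div_le_iff₀ h3, mul_comm] at this
  have he1 : (2 : ℝ) ≤ Real.exp 1 := by
    have := Real.add_one_le_exp (1 : ℝ)
    linarith
  -- the floor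
  set Y : ℝ := (X : ℝ) ^ c3 with hY
  have hYe : 2 * Real.exp t ≤ Y := by
    rw [hY, hpow]
    calc 2 * Real.exp t ≤ Real.exp 1 * Real.exp t :=
          mul_le_mul_of_nonneg_right he1 (Real.exp_pos _).le
      _ = Real.exp (1 + t) := (Real.exp_add _ _).symm
      _ ≤ Real.exp (L * c3) := by
          refine Real.exp_le_exp.mpr ?_
          rw [hLt]
          nlinarith
  have hexp1 : 1 ≤ Real.exp t := Real.one_le_exp (by linarith)
  have hY2 : 2 ≤ Y := by linarith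
  have hfl : Y - 1 < ((⌊Y⌋₊ : ℕ) : ℝ) := by
    have := Nat.lt_floor_add_one Y
    linarith
  have hQ2 : Y / 2 ≤ ((⌊Y⌋₊ : ℕ) : ℝ) := by linarith
  set Q : ℝ := ((⌊Y⌋₊ : ℕ) : ℝ) with hQd
  have hQe : Real.exp t ≤ Q := by linarith
  have hQ0 : 0 < Q := by linarith
  refine ⟨?_, hQe, ?_, ?_, ?_⟩
  · rw [hLt]; nlinarith
  · -- `Q ≥ X^(5 c3/6)`
    have h5 : (X : ℝ) ^ (5 * c3 / 6) ≤ Q := by
      refine le_trans ?_ hQ2
      have e : Y = (X : ℝ) ^ (5 * c3 / 6) * (X : ℝ) ^ (c3 / 6) := by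
        rw [hY, ← Real.rpow_add hX0']
        congr 1
        ring
      have h6 : 2 ≤ (X : ℝ) ^ (c3 / 6) := by
        rw [hpow]
        refine he1.trans (Real.exp_le_exp.mpr ?_)
        nlinarith
      have h7 : 0 < (X : ℝ) ^ (5 * c3 / 6) := Real.rpow_pos_of_pos hX0' _
      rw [e]
      nlinarith
    have h8 : Q ^ (-(1 / 5 : ℝ)) ≤ (X : ℝ) ^ (-(c3 / 6)) := by
      calc Q ^ (-(1 / 5 : ℝ)) ≤ ((X : ℝ) ^ (5 * c3 / 6)) ^ (-(1 / 5 : ℝ)) :=
            Real.rpow_le_rpow_of_nonpos (Real.rpow_pos_of_pos hX0' _) h5 (by norm_num)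
        _ = (X : ℝ) ^ (-(c3 / 6)) := by
            rw [← Real.rpow_mul hX0'.le]
            congr 1
            ring
    calc (X : ℝ) ^ r * Q ^ (-(1 / 5 : ℝ)) ≤ (X : ℝ) ^ r * (X : ℝ) ^ (-(c3 / 6)) :=
          mul_le_mul_of_nonneg_left h8 (by positivity)
      _ = (X : ℝ) ^ ((r : ℝ) - c3 / 6) := by
          rw [← Real.rpow_natCast, ← Real.rpow_add hX0']
          congr 1
  · have h9 : (Real.exp t) ^ (1 / 60 : ℝ) ≤ Q ^ (1 / 60 : ℝ) :=
      Real.rpow_le_rpow (Real.exp_pos _).le hQe (by norm_num)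
    refine le_trans ?_ h9
    rw [← Real.exp_mul]
    have h10 : |K| ≤ t * (1 / 60) := by linarith
    have h11 := Real.add_one_le_exp (t * (1 / 60))
    linarith [le_abs_self K]
  · rw [hpow]
    have h12 : 2 * |K| / η ≤ L := by linarith
    rw [div_le_iff₀ hη] at h12
    have h13 := Real.add_one_le_exp (L * (η / 2))
    linarith [le_abs_self K]

lemma alg1 (S X L : ℝ) (k : ℕ) (hL : 0 < L) :
    S * (X / (2 * (2 * L) ^ k)) = 2 / 2 ^ (k + 2) * (S * X / L ^ k) := by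
  rw [mul_pow, pow_add]
  field_simp

lemma alg2 (v X : ℝ) (k : ℕ) :
    (v / 8) ^ k * X / 4 = X * (4 * (v ^ k / (16 * 8 ^ k))) := by
  rw [div_pow]
  field_simp
  norm_num

lemma alg3 (S X L v : ℝ) (k : ℕ) (hL : 0 < L) :
    1 / 16 ^ (k + 1) * v ^ k * (S * X / L ^ k) = S * (X * (v ^ k / (16 * 8 ^ k))) / (2 * L) ^ k := by
  rw [mul_pow, pow_succ, show (16 : ℝ) ^ k = 8 ^ k * 2 ^ k by
    rw [← mul_pow]; norm_num]
  field_simp

end PFinAux

open PFinAux

open scoped Classical in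
/-- All `X`: outside at most `X^(r-δ)` tuples, every admissible tuple has at least `κ0 m S(a) X/(log X)^(r+1)` prime values,
with a number `m ∈ [X^(-η), 1]` depending on `X` only. -/
theorem allX (c1 c0' c4 : ℝ) (h1 : 0 < c1) (hZ : ZFree c1) (h0 : 0 < c0') (h4 : 0 < c4)
    (hD : DHz c0' c4) (r : ℕ) (hr : 1 ≤ r) :
    ∃ δ κ0 : ℝ, 0 < δ ∧ 0 < κ0 ∧ ∀ η : ℝ, 0 < η → ∃ X0 : ℕ, ∀ X : ℕ, X0 ≤ X →
    ∃ m : ℝ, (X : ℝ) ^ (-η) ≤ m ∧ m ≤ 1 ∧ ∃ F : Finset (Fin r → ℕ),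
      (F.card : ℝ) ≤ (X : ℝ) ^ ((r : ℝ) - δ) ∧
      ∀ a ∈ Tup r (range (X + 1)), a ∉ F → Function.Injective (c0 a) →
      (∀ p : ℕ, p.Prime → nuI (c0 a) p < p) →
      κ0 * m * (SI (c0 a) * X / Real.log X ^ (r + 1)) ≤
        (((Icc 1 X).filter (fun n => ∀ i, (n + c0 a i).Prime)).card : ℝ) := by
  set k : ℕ := r + 1 with hk
  have hk0 : (0 : ℝ) < k := by
    rw [hk]; positivity
  set c : ℝ := min (min (c1 / 2) c0') (1 / 2) with hcdef
  have hc : 0 < c := lt_min (lt_min (by linarith) h0) (by norm_num)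
  have hcc : c < c1 := by
    have : c ≤ c1 / 2 := (min_le_left _ _).trans (min_le_left _ _)
    linarith
  have hcc0 : c ≤ c0' := (min_le_left _ _).trans (min_le_right _ _)
  have hc12 : c ≤ 1 / 2 := min_le_right _ _
  obtain ⟨a1, C1, c21, ha1, hC1, hc21, X1, hcore⟩ := core r hr c1 c hZ hc hcc
  obtain ⟨a2, B, c22, ha2, hB, hc22, X2, hsum⟩ := sumP k c1 c0' c4 c hZ h4 hD hc hcc hcc0 hc12
  obtain ⟨c23, C3, hc23, hC3, X3, hnorm⟩ := normP r hr B
  obtain ⟨cs, hcs, hsi⟩ := si_ge k (by omega)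
  obtain ⟨e1, he1, hs1⟩ := exp_small a1 (C1 * 2 ^ (k + 2)) ha1
  obtain ⟨e2, he2, hs2⟩ := exp_small a2 (64 * B) ha2
  obtain ⟨e3, he3, hs3⟩ := exp_small a2 (16 * 8 ^ k * C3 * B) ha2
  obtain ⟨c3, hc3, i0, i1, i2, i3, i4, i5, i6⟩ : ∃ c3 : ℝ, 0 < c3 ∧ c3 ≤ 1 / 2 ∧ c3 ≤ c21 ∧
      c3 ≤ c22 ∧ c3 ≤ c23 ∧ c3 ≤ e1 ∧ c3 ≤ e2 ∧ c3 ≤ e3 := by
    refine ⟨min (1 / 2) (min c21 (min c22 (min c23 (min e1 (min e2 e3))))), ?_, ?_⟩
    · simp only [lt_min_iff]
      exact ⟨by norm_num, hc21, hc22, hc23, he1, he2, he3⟩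
    · have := le_refl (min (1 / 2) (min c21 (min c22 (min c23 (min e1 (min e2 e3))))))
      simp only [le_min_iff] at this
      exact this
  have hE1 := hs1 c3 hc3 i4
  have hE2 := hs2 c3 hc3 i5
  have hE3 := hs3 c3 hc3 i6
  refine ⟨c3 / 6, 1 / 16 ^ (k + 1), by positivity, by positivity, fun η hη => ?_⟩
  set ε : ℝ := min (η / 2) (1 / 60) / k with hεdef
  have hε : 0 < ε := div_pos (lt_min (by linarith) (by norm_num)) hk0
  have hkε : k * ε = min (η / 2) (1 / 60) := by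
    rw [hεdef]; field_simp
  have hkε1 : k * ε ≤ η / 2 := by rw [hkε]; exact min_le_left _ _
  have hkε2 : k * ε ≤ 1 / 60 := by rw [hkε]; exact min_le_right _ _
  obtain ⟨C5, hC5, hsieg⟩ := siegZ ε hε
  set κ : ℝ := min 1 C5 with hκdef
  have hκ : 0 < κ := lt_min one_pos hC5
  have hκ1 : κ ≤ 1 := min_le_left _ _
  set M : ℝ := 64 * B + 16 * 8 ^ k * C3 * (B + 1) + 16 * 8 ^ k / cs + 1 with hM
  have m1 : 0 < 64 * B := by positivity
  have m2 : 0 < 16 * 8 ^ k * C3 * (B + 1) := by positivity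
  have m3 : 0 < 16 * 8 ^ k / cs := by positivity
  have hM1 : 1 ≤ M := by linarith
  obtain ⟨X4, hlarge⟩ := large r c3 (M / κ ^ k) η hc3 hη
  refine ⟨max (max X1 X2) (max X3 X4), fun X hX => ?_⟩
  have hX1 : X1 ≤ X := ((le_max_left _ _).trans (le_max_left _ _)).trans hX
  have hX2 : X2 ≤ X := ((le_max_right _ _).trans (le_max_left _ _)).trans hX
  have hX3 : X3 ≤ X := ((le_max_left _ _).trans (le_max_right _ _)).trans hX
  have hX4 : X4 ≤ X := ((le_max_right _ _).trans (le_max_right _ _)).trans hX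
  obtain ⟨hL25, hQl, hcard, hK1, hK2⟩ := hlarge X hX4
  set Q : ℕ := ⌊(X : ℝ) ^ c3⌋₊ with hQ
  set L : ℝ := Real.log X with hL
  have hL0 : 0 < L := by linarith
  have hXr : (0 : ℝ) < X := by
    by_contra hcon
    have : (X : ℝ) = 0 := le_antisymm (not_lt.mp hcon) (Nat.cast_nonneg _)
    rw [hL, this, Real.log_zero] at hL0
    exact lt_irrefl _ hL0
  have hX100 : (26 : ℝ) ≤ X := by
    have h5 := Real.add_one_le_exp L
    rw [hL, Real.exp_log hXr] at h5
    linarith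
  have hX1r : (1 : ℝ) ≤ X := by linarith
  have hXn : 26 ≤ X := by exact_mod_cast hX100
  have hQu : (Q : ℝ) ≤ (X : ℝ) ^ c3 := Nat.floor_le (by positivity)
  have hsq : 5 ≤ Real.sqrt L := by
    rw [show (5 : ℝ) = Real.sqrt 25 by rw [show (25 : ℝ) = 5 ^ 2 by norm_num]; simp]
    exact Real.sqrt_le_sqrt hL25
  have hQ6 : (6 : ℝ) ≤ Q := by
    have h5 := Real.add_one_le_exp (Real.sqrt L)
    linarith
  have hQ0 : (0 : ℝ) < Q := by linarith
  have hQ1 : (1 : ℝ) ≤ Q := by linarith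
  have hlogQ5 : 5 ≤ Real.log Q := by
    refine hsq.trans ?_
    rw [Real.le_log_iff_exp_le hQ0]
    exact hQl
  have hlogQ0 : 0 < Real.log Q := by linarith
  have hlogQu : Real.log Q ≤ c3 * L := by
    have := Real.log_le_log hQ0 hQu
    rwa [Real.log_rpow hXr] at this
  have hlogQL : Real.log Q ≤ L := by
    calc Real.log Q ≤ c3 * L := hlogQu
      _ ≤ 1 * L := mul_le_mul_of_nonneg_right (by linarith) hL0.le
      _ = L := one_mul L
  have hQX : (Q : ℝ) ≤ X := by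
    refine hQu.trans ?_
    calc (X : ℝ) ^ c3 ≤ (X : ℝ) ^ (1 : ℝ) := Real.rpow_le_rpow_of_exponent_le hX1r (by linarith)
      _ = X := Real.rpow_one _
  by_cases hex : ∃ x β, IsExc c Q x β
  · -- there is an exceptional zero
    obtain ⟨xe, β, hexc⟩ := hex
    obtain ⟨hxe, hxe1, hxe2, hxe3, hβ1, hβ2⟩ := hexc
    have hexc : IsExc c Q xe β := ⟨hxe, hxe1, hxe2, hxe3, hβ1, hβ2⟩
    have hδ0 : 0 < 1 - β := by linarith
    have hδc : (1 - β) * Real.log Q ≤ c := by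
      have : 1 - β ≤ c / Real.log Q := by linarith
      rwa [le_div_iff₀ hlogQ0] at this
    have hβ9 : 9 / 10 ≤ β := by
      have : (1 - β) * 5 ≤ (1 - β) * Real.log Q := mul_le_mul_of_nonneg_left hlogQ5 hδ0.le
      linarith
    set u : ℝ := (1 - β) * L with hu
    have hu0 : 0 < u := by positivity
    set v : ℝ := min 1 u with hv
    have hv0 : 0 < v := lt_min one_pos hu0
    have hv1 : v ≤ 1 := min_le_left _ _
    have hvu : v ≤ u := min_le_right _ _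
    have hvQ : (1 - β) * Real.log Q ≤ v := by
      refine le_min (by linarith) ?_
      exact mul_le_mul_of_nonneg_left hlogQL hδ0.le
    have hvQ0 : 0 ≤ (1 - β) * Real.log Q := by positivity
    have hvk1 : v ^ k ≤ 1 := pow_le_one₀ hv0.le hv1
    have hvkv : v ^ k ≤ v := by
      calc v ^ k ≤ v ^ 1 := pow_le_pow_of_le_one hv0.le hv1 (by omega)
        _ = v := pow_one v
    have hvk0 : 0 < v ^ k := by positivity
    -- Siegel
    have hvκ : κ * (Q : ℝ) ^ (-ε) ≤ v := by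
      have h5 := hsieg xe β (mem_Ch.mp hxe).2 hxe1 hxe2 hxe3 hβ9 hβ2
      have h6 : (Q : ℝ) ^ (-ε) ≤ (md xe : ℝ) ^ (-ε) := by
        refine Real.rpow_le_rpow_of_nonpos ?_ ?_ (by linarith)
        · exact_mod_cast md_pos xe
        · exact_mod_cast (mem_Ch.mp hxe).1
      have h7 : 0 < (Q : ℝ) ^ (-ε) := Real.rpow_pos_of_pos hQ0 _
      have h8 : (Q : ℝ) ^ (-ε) ≤ 1 := Real.rpow_le_one_of_one_le_of_nonpos hQ1 (by linarith)
      refine le_min ?_ ?_
      · calc κ * (Q : ℝ) ^ (-ε) ≤ 1 * 1 := mul_le_mul hκ1 h8 h7.le zero_le_one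
          _ = 1 := one_mul 1
      · calc κ * (Q : ℝ) ^ (-ε) ≤ C5 * (Q : ℝ) ^ (-ε) :=
              mul_le_mul_of_nonneg_right (min_le_right _ _) h7.le
          _ ≤ C5 * (md xe : ℝ) ^ (-ε) := mul_le_mul_of_nonneg_left h6 hC5.le
          _ ≤ 1 - β := h5
          _ ≤ (1 - β) * L := le_mul_of_one_le_right hδ0.le (by linarith)
    have hvκk : κ ^ k * (Q : ℝ) ^ (-(k * ε)) ≤ v ^ k := by
      have h5 : κ ^ k * (Q : ℝ) ^ (-(k * ε)) = (κ * (Q : ℝ) ^ (-ε)) ^ k := by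
        rw [mul_pow, ← Real.rpow_natCast ((Q : ℝ) ^ (-ε)), ← Real.rpow_mul hQ0.le]
        congr 2
        ring
      rw [h5]
      exact pow_le_pow_left₀ (by positivity) hvκ k
    have hκk : 0 < κ ^ k := by positivity
    -- the main smallness
    have hsm : M * (Q : ℝ) ^ (-(1 / 30 : ℝ)) ≤ v ^ k := by
      refine le_trans ?_ hvκk
      have h5 : M ≤ κ ^ k * (Q : ℝ) ^ (1 / 60 : ℝ) := by
        rw [div_le_iff₀ hκk] at hK1
        linarith
      calc M * (Q : ℝ) ^ (-(1 / 30 : ℝ)) ≤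
            κ ^ k * (Q : ℝ) ^ (1 / 60 : ℝ) * (Q : ℝ) ^ (-(1 / 30 : ℝ)) :=
            mul_le_mul_of_nonneg_right h5 (by positivity)
        _ = κ ^ k * (Q : ℝ) ^ (-(1 / 60 : ℝ)) := by
            rw [mul_assoc, ← Real.rpow_add hQ0]
            norm_num
        _ ≤ κ ^ k * (Q : ℝ) ^ (-(k * ε)) := by
            refine mul_le_mul_of_nonneg_left ?_ hκk.le
            exact Real.rpow_le_rpow_of_exponent_le hQ1 (by linarith)
    have hq30 : 1 / (Q : ℝ) ≤ (Q : ℝ) ^ (-(1 / 30 : ℝ)) := by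
      rw [one_div, ← Real.rpow_neg_one]
      exact Real.rpow_le_rpow_of_exponent_le hQ1 (by norm_num)
    have hq30' : 0 < (Q : ℝ) ^ (-(1 / 30 : ℝ)) := Real.rpow_pos_of_pos hQ0 _
    refine ⟨v ^ k, ?_, hvk1, ?_⟩
    · -- the lower bound of `m`
      refine le_trans ?_ hvκk
      have h5 : 1 ≤ κ ^ k * (X : ℝ) ^ (η / 2) := by
        rw [div_le_iff₀ hκk] at hK2
        linarith
      have h6 : (X : ℝ) ^ (-(η / 2)) ≤ (Q : ℝ) ^ (-(k * ε)) := by
        calc (X : ℝ) ^ (-(η / 2)) ≤ (X : ℝ) ^ (-(k * ε)) :=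
              Real.rpow_le_rpow_of_exponent_le hX1r (by linarith)
          _ ≤ (Q : ℝ) ^ (-(k * ε)) :=
              Real.rpow_le_rpow_of_nonpos hQ0 hQX (by
                have : 0 < k * ε := by positivity
                linarith)
      have h7 : (X : ℝ) ^ (-η) = (X : ℝ) ^ (-(η / 2)) * (X : ℝ) ^ (-(η / 2)) := by
        rw [← Real.rpow_add hXr]
        congr 1
        ring
      have h8 : 0 < (X : ℝ) ^ (-(η / 2)) := Real.rpow_pos_of_pos hXr _
      have h9 : (X : ℝ) ^ (η / 2) * (X : ℝ) ^ (-(η / 2)) = 1 := by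
        rw [← Real.rpow_add hXr]
        simp
      calc (X : ℝ) ^ (-η) = 1 * (X : ℝ) ^ (-(η / 2)) * (X : ℝ) ^ (-(η / 2)) := by
            rw [h7, one_mul]
        _ ≤ (κ ^ k * (X : ℝ) ^ (η / 2)) * (X : ℝ) ^ (-(η / 2)) * (X : ℝ) ^ (-(η / 2)) := by
            refine mul_le_mul_of_nonneg_right (mul_le_mul_of_nonneg_right h5 h8.le) h8.le
        _ = κ ^ k * (X : ℝ) ^ (-(η / 2)) := by
            rw [mul_assoc (κ ^ k), h9, mul_one]
        _ ≤ κ ^ k * (Q : ℝ) ^ (-(k * ε)) := mul_le_mul_of_nonneg_left h6 hκk.le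
    -- ranges at `2X`
    have hlog2X : Real.log ((2 * X : ℕ) : ℝ) ≤ 4 * L := by
      push_cast
      rw [Real.log_mul (by norm_num) hXr.ne']
      have : Real.log 2 ≤ Real.log X := Real.log_le_log (by norm_num) (by linarith)
      linarith
    have hexp2 : Real.exp (Real.sqrt (Real.log ((2 * X : ℕ) : ℝ)) / 2) ≤ Q := by
      refine (Real.exp_le_exp.mpr ?_).trans hQl
      have h1 : Real.sqrt (Real.log ((2 * X : ℕ) : ℝ)) ≤ 2 * Real.sqrt L := by
        calc Real.sqrt (Real.log ((2 * X : ℕ) : ℝ)) ≤ Real.sqrt (4 * L) :=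
              Real.sqrt_le_sqrt hlog2X
          _ = 2 * Real.sqrt L := by
              rw [Real.sqrt_mul (by norm_num), show (4 : ℝ) = 2 ^ 2 by norm_num]; simp
      linarith
    have hXc : ∀ e : ℝ, c3 ≤ e → (Q : ℝ) ≤ ((2 * X : ℕ) : ℝ) ^ e := by
      intro e he
      calc (Q : ℝ) ≤ (X : ℝ) ^ c3 := hQu
        _ ≤ (X : ℝ) ^ e := Real.rpow_le_rpow_of_exponent_le hX1r he
        _ ≤ ((2 * X : ℕ) : ℝ) ^ e := by
            refine Real.rpow_le_rpow hXr.le ?_ (hc3.le.trans he)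
            push_cast; linarith
    set E : ℝ := B * (((1 - β) * Real.log Q) ^ k * Er a2 (2 * X) Q + 1 / Q) with hE
    obtain ⟨b, hb1, hb2, hb3, hb4, hb5⟩ := hsum (2 * X) Q (by omega) ⟨hexp2, hXc c22 i2⟩ xe β
      hexc E rfl
    have hEr0 : 0 < Er a2 (2 * X) Q := Real.exp_pos _
    have hlog2X' : L ≤ Real.log ((2 * X : ℕ) : ℝ) := by
      refine Real.log_le_log hXr ?_
      push_cast; linarith
    have hEr : Er a2 (2 * X) Q ≤ Real.exp (-(a2 / c3)) := by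
      refine Er_le ha2 hc3 hlogQ0 (hlogQu.trans ?_)
      exact mul_le_mul_of_nonneg_left hlog2X' hc3.le
    have hE0 : 0 ≤ E := by positivity
    have hpowk : ((1 - β) * Real.log Q) ^ k ≤ v ^ k := pow_le_pow_left₀ hvQ0 hvQ k
    have hE4 : E ≤ B * Real.exp (-(a2 / c3)) * v ^ k + B * (Q : ℝ) ^ (-(1 / 30 : ℝ)) := by
      rw [hE]
      have h5 : ((1 - β) * Real.log Q) ^ k * Er a2 (2 * X) Q ≤ v ^ k * Real.exp (-(a2 / c3)) :=
        mul_le_mul hpowk hEr hEr0.le hvk0.le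
      calc B * (((1 - β) * Real.log Q) ^ k * Er a2 (2 * X) Q + 1 / Q)
          ≤ B * (v ^ k * Real.exp (-(a2 / c3)) + (Q : ℝ) ^ (-(1 / 30 : ℝ))) :=
            mul_le_mul_of_nonneg_left (add_le_add h5 hq30) hB.le
        _ = _ := by ring
    have hM64 : 64 * B * (Q : ℝ) ^ (-(1 / 30 : ℝ)) ≤ v ^ k := by
      refine le_trans (mul_le_mul_of_nonneg_right ?_ hq30'.le) hsm
      linarith
    have hEv : E ≤ v / 32 := by
      have h5 : 64 * B * Real.exp (-(a2 / c3)) * v ^ k ≤ v ^ k := by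
        calc 64 * B * Real.exp (-(a2 / c3)) * v ^ k ≤ 1 * v ^ k :=
              mul_le_mul_of_nonneg_right hE2 hvk0.le
          _ = _ := one_mul _
      linarith
    have hm1 : v / 8 ≤ 1 := by linarith
    obtain ⟨F, hF, hmain⟩ := hnorm X Q hX3 ⟨hexp2, hXc c23 i3⟩ b hb1 hb2 xe E (v / 8) hxe hxe1
      hxe2 hE0 (by positivity) hm1 hb3 (by
        intro n hn1 hn2
        have h5 := hb4 n hn1 hn2
        have h6 := hb5 n
        have h7 : 1 - E ≤ (Mc (2 * X) Q one n).re := by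
          have h8 := (Complex.abs_re_le_norm (Mc (2 * X) Q one n - 1)).trans h5
          rw [Complex.sub_re, Complex.one_re] at h8
          have := (abs_le.mp h8).1
          linarith
        have h9 : |(Mc (2 * X) Q xe n).re| ≤ (((2 * X : ℕ) : ℝ) / Q) ^ (β - 1) + E :=
          (Complex.abs_re_le_norm _).trans h6
        have h10 : (((2 * X : ℕ) : ℝ) / Q) ^ (β - 1) ≤ 1 - v / 4 := by
          have h11 : 0 < ((2 * X : ℕ) : ℝ) := by
            push_cast; linarith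
          have h12 : Real.log (((2 * X : ℕ) : ℝ) / Q) = Real.log ((2 * X : ℕ) : ℝ) - Real.log Q :=
            Real.log_div h11.ne' hQ0.ne'
          have h13 : L / 2 ≤ Real.log (((2 * X : ℕ) : ℝ) / Q) := by
            rw [h12]
            have : c3 * L ≤ 1 / 2 * L := mul_le_mul_of_nonneg_right i0 hL0.le
            linarith
          rw [Real.rpow_def_of_pos (by positivity)]
          have h14 : Real.log (((2 * X : ℕ) : ℝ) / Q) * (β - 1) ≤ -(v / 2) := by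
            have : v / 2 ≤ (1 - β) * (L / 2) := by
              rw [hu] at hvu
              linarith
            have h15 : (1 - β) * (L / 2) ≤ (1 - β) * Real.log (((2 * X : ℕ) : ℝ) / Q) :=
              mul_le_mul_of_nonneg_left h13 hδ0.le
            linarith
          refine (Real.exp_le_exp.mpr h14).trans ?_
          have := exp_neg_le (t := v / 2) (by positivity) (by linarith)
          linarith
        linarith)
    refine ⟨F, hF.trans hcard, ?_⟩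
    intro a ha haF hinj hnu
    have h5 := hmain a ha haF hinj
    set S : ℝ := SI (c0 a) with hS
    have hScs : cs ≤ S := hsi (c0 a) hinj hnu
    have hS0 : 0 < S := hcs.trans_le hScs
    set N : ℝ := (((Icc 1 X).filter (fun n => ∀ i, (n + c0 a i).Prime)).card : ℝ) with hN
    have hN0 : 0 ≤ N := Nat.cast_nonneg _
    have hlog4 : Real.log (4 * X) ≤ 2 * L := by
      rw [Real.log_mul (by norm_num) hXr.ne']
      have : Real.log 4 ≤ Real.log X := Real.log_le_log (by norm_num) (by linarith)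
      linarith
    have hlog40 : 0 ≤ Real.log (4 * X) := Real.log_nonneg (by linarith)
    have h6 : N * Real.log (4 * X) ^ (r + 1) ≤ N * (2 * L) ^ k :=
      mul_le_mul_of_nonneg_left (pow_le_pow_left₀ hlog40 hlog4 _) hN0
    -- the error terms
    have g1 : C3 * (E + 1 / Q) ≤ v ^ k / (16 * 8 ^ k) + v ^ k / (16 * 8 ^ k) := by
      have g2 : 16 * 8 ^ k * C3 * B * Real.exp (-(a2 / c3)) * v ^ k ≤ v ^ k := by
        calc 16 * 8 ^ k * C3 * B * Real.exp (-(a2 / c3)) * v ^ k ≤ 1 * v ^ k :=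
              mul_le_mul_of_nonneg_right hE3 hvk0.le
          _ = _ := one_mul _
      have g3 : 16 * 8 ^ k * C3 * (B + 1) * (Q : ℝ) ^ (-(1 / 30 : ℝ)) ≤ v ^ k := by
        refine le_trans (mul_le_mul_of_nonneg_right ?_ hq30'.le) hsm
        linarith
      have g4 : C3 * (E + 1 / Q) ≤ C3 * (B * Real.exp (-(a2 / c3)) * v ^ k +
          (B + 1) * (Q : ℝ) ^ (-(1 / 30 : ℝ))) := by
        refine mul_le_mul_of_nonneg_left ?_ hC3.le
        linarith
      have g5 : (0 : ℝ) < 16 * 8 ^ k := by positivity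
      have g6 : C3 * (B * Real.exp (-(a2 / c3)) * v ^ k) ≤ v ^ k / (16 * 8 ^ k) := by
        rw [le_div_iff₀ g5]
        linarith
      have g7 : C3 * ((B + 1) * (Q : ℝ) ^ (-(1 / 30 : ℝ))) ≤ v ^ k / (16 * 8 ^ k) := by
        rw [le_div_iff₀ g5]
        linarith
      calc C3 * (E + 1 / Q) ≤ _ := g4
        _ = C3 * (B * Real.exp (-(a2 / c3)) * v ^ k) +
            C3 * ((B + 1) * (Q : ℝ) ^ (-(1 / 30 : ℝ))) := by ring
        _ ≤ _ := add_le_add g6 g7
    have g8 : (X : ℝ) * (Q : ℝ) ^ (-(1 / 30 : ℝ)) ≤ S * (X * (v ^ k / (16 * 8 ^ k))) := by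
      have g9 : 16 * 8 ^ k / cs * (Q : ℝ) ^ (-(1 / 30 : ℝ)) ≤ v ^ k := by
        refine le_trans (mul_le_mul_of_nonneg_right ?_ hq30'.le) hsm
        linarith
      have g10 : (Q : ℝ) ^ (-(1 / 30 : ℝ)) ≤ cs * (v ^ k / (16 * 8 ^ k)) := by
        rw [div_mul_eq_mul_div, div_le_iff₀ hcs] at g9
        rw [mul_div_assoc', le_div_iff₀ (by positivity)]
        linarith
      have g11 : cs * (v ^ k / (16 * 8 ^ k)) ≤ S * (v ^ k / (16 * 8 ^ k)) :=
        mul_le_mul_of_nonneg_right hScs (by positivity)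
      calc (X : ℝ) * (Q : ℝ) ^ (-(1 / 30 : ℝ)) ≤ X * (S * (v ^ k / (16 * 8 ^ k))) :=
            mul_le_mul_of_nonneg_left (g10.trans g11) hXr.le
        _ = _ := by ring
    have g12 : S * (X * (v ^ k / (16 * 8 ^ k))) ≤ N * (2 * L) ^ k := by
      have g13 : (v / 8) ^ (r + 1) * X / 4 = X * (4 * (v ^ k / (16 * 8 ^ k))) := alg2 v X k
      rw [g13] at h5
      have g14 : S * (C3 * X * (E + 1 / Q)) ≤
          S * (X * (v ^ k / (16 * 8 ^ k) + v ^ k / (16 * 8 ^ k))) := by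
        refine mul_le_mul_of_nonneg_left ?_ hS0.le
        calc C3 * X * (E + 1 / Q) = X * (C3 * (E + 1 / Q)) := by ring
          _ ≤ _ := mul_le_mul_of_nonneg_left g1 hXr.le
      have g15 : S * (X * (4 * (v ^ k / (16 * 8 ^ k))) - C3 * X * (E + 1 / Q)) =
          4 * (S * (X * (v ^ k / (16 * 8 ^ k)))) - S * (C3 * X * (E + 1 / Q)) := by ring
      have g16 : S * (X * (v ^ k / (16 * 8 ^ k) + v ^ k / (16 * 8 ^ k))) =
          2 * (S * (X * (v ^ k / (16 * 8 ^ k)))) := by ring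
      rw [g15] at h5
      rw [g16] at g14
      linarith
    have g17 : 1 / 16 ^ (k + 1) * v ^ k * (S * X / L ^ (r + 1)) =
        S * (X * (v ^ k / (16 * 8 ^ k))) / (2 * L) ^ k := alg3 S X L v k hL0
    rw [g17, div_le_iff₀ (by positivity)]
    exact g12
  · -- no exceptional zero
    obtain ⟨q, hq, F, hF, hmain⟩ := hcore X Q hX1 hQl
      (hQu.trans (Real.rpow_le_rpow_of_exponent_le hX1r i1))
    have hq0 : q = 0 := by
      rcases hq with ⟨h5, -⟩ | ⟨xe, β, h5, -⟩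
      · exact h5
      · exact absurd ⟨xe, β, h5⟩ hex
    refine ⟨1, Real.rpow_le_one_of_one_le_of_nonpos hX1r (by linarith), le_refl 1, F,
      hF.trans hcard, ?_⟩
    intro a ha haF hinj hnu
    have h5 := hmain a ha haF hinj hnu X le_rfl
    set S : ℝ := SI (c0 a) with hS
    have hScs : cs ≤ S := hsi (c0 a) hinj hnu
    have hS0 : 0 < S := hcs.trans_le hScs
    set N : ℝ := (((Icc 1 X).filter (fun n => ∀ i, (n + c0 a i).Prime)).card : ℝ) with hN
    have hG : Gq q (c0 a) = 0 := by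
      rw [hq0]
      unfold Gq
      simp
    rw [hG, add_zero] at h5
    have hEr : Er a1 X Q ≤ Real.exp (-(a1 / c3)) := Er_le ha1 hc3 hlogQ0 hlogQu
    have hCE : C1 * Er a1 X Q ≤ 1 / 2 ^ (k + 2) := by
      rw [le_div_iff₀ (by positivity)]
      calc C1 * Er a1 X Q * 2 ^ (k + 2) ≤ C1 * Real.exp (-(a1 / c3)) * 2 ^ (k + 2) :=
            mul_le_mul_of_nonneg_right (mul_le_mul_of_nonneg_left hEr hC1.le) (by positivity)
        _ = C1 * 2 ^ (k + 2) * Real.exp (-(a1 / c3)) := by ring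
        _ ≤ 1 := hE1
    -- the sum of the inverse logarithms
    have hsumlow : (X : ℝ) / (2 * (2 * L) ^ k) ≤
        ∑ n ∈ Icc 2 X, ∏ i, (Real.log (n + c0 a i))⁻¹ := by
      have h6 : ∀ n ∈ Icc 2 X, ((2 * L) ^ k)⁻¹ ≤ ∏ i, (Real.log ((n : ℝ) + c0 a i))⁻¹ := by
        intro n hn
        rw [mem_Icc] at hn
        have h7 : ∏ _i : Fin (r + 1), (2 * L)⁻¹ = ((2 * L) ^ k)⁻¹ := by
          rw [prod_const, card_univ, Fintype.card_fin, inv_pow]
        rw [← h7]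
        refine Finset.prod_le_prod (fun i _ => by positivity) (fun i _ => ?_)
        have h8 : (2 : ℝ) ≤ n := by exact_mod_cast hn.1
        have h9 : (n : ℝ) ≤ X := by exact_mod_cast hn.2
        have h10 : (0 : ℝ) ≤ (c0 a i : ℝ) := Nat.cast_nonneg _
        have h11 : (c0 a i : ℝ) ≤ X := by
          have : c0 a i ≤ X := by
            refine Fin.cases ?_ (fun j => ?_) i
            · simp [c0]
            · have := (Fintype.mem_piFinset.mp ha j)
              rw [mem_range] at this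
              simp only [c0, Fin.cons_succ]
              omega
          exact_mod_cast this
        have h12 : 0 < Real.log ((n : ℝ) + c0 a i) := Real.log_pos (by linarith)
        refine inv_anti₀ h12 ?_
        calc Real.log ((n : ℝ) + c0 a i) ≤ Real.log (X * X) := by
              refine Real.log_le_log (by linarith) ?_
              calc (n : ℝ) + c0 a i ≤ 2 * X := by linarith
                _ ≤ X * X := mul_le_mul_of_nonneg_right (by linarith) hXr.le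
          _ = 2 * L := by
              rw [Real.log_mul hXr.ne' hXr.ne']
              ring
      have h13 := Finset.sum_le_sum h6
      rw [sum_const, Nat.card_Icc, nsmul_eq_mul] at h13
      refine le_trans ?_ h13
      have h14 : ((X + 1 - 2 : ℕ) : ℝ) = X - 1 := by
        rw [Nat.cast_sub (by omega)]
        push_cast
        ring
      rw [h14, ← div_eq_mul_inv, div_le_div_iff₀ (by positivity) (by positivity)]
      have h15 : 0 < (2 * L) ^ k := by positivity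
      have h24 : 0 ≤ ((X : ℝ) - 2) * (2 * L) ^ k := mul_nonneg (by linarith) h15.le
      linarith
    have h16 := (abs_le.mp h5).1
    have h17 : S * ((X : ℝ) / (2 * (2 * L) ^ k)) ≤
        S * ∑ n ∈ Icc 2 X, ∏ i, (Real.log (n + c0 a i))⁻¹ :=
      mul_le_mul_of_nonneg_left hsumlow hS0.le
    have h18 : S * ((X : ℝ) / (2 * (2 * L) ^ k)) = 2 / 2 ^ (k + 2) * (S * X / L ^ (r + 1)) :=
      alg1 S X L k hL0
    have h19 : 0 < S * X / L ^ (r + 1) := by positivity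
    have h20 : C1 * (S * X / L ^ (r + 1)) * Er a1 X Q ≤
        1 / 2 ^ (k + 2) * (S * X / L ^ (r + 1)) := by
      calc C1 * (S * X / L ^ (r + 1)) * Er a1 X Q = C1 * Er a1 X Q * (S * X / L ^ (r + 1)) := by
            ring
        _ ≤ _ := mul_le_mul_of_nonneg_right hCE h19.le
    have h21 : (1 : ℝ) / 16 ^ (k + 1) ≤ 1 / 2 ^ (k + 2) := by
      refine one_div_le_one_div_of_le (by positivity) ?_
      calc (2 : ℝ) ^ (k + 2) ≤ 2 ^ (4 * (k + 1)) :=
            pow_le_pow_right₀ (by norm_num) (by omega)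
        _ = 16 ^ (k + 1) := by
            rw [pow_mul]; norm_num
    have h22 : 1 / 16 ^ (k + 1) * (S * X / L ^ (r + 1)) ≤
        1 / 2 ^ (k + 2) * (S * X / L ^ (r + 1)) := mul_le_mul_of_nonneg_right h21 h19.le
    have h23 : 2 / 2 ^ (k + 2) * (S * X / L ^ (r + 1)) =
        1 / 2 ^ (k + 2) * (S * X / L ^ (r + 1)) + 1 / 2 ^ (k + 2) * (S * X / L ^ (r + 1)) := by
      ring
    rw [mul_one]
    linarith

end Pool.Agent.Lib.GMV
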