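import Pool.Agent.Lib.GMV.DExp

/-!
# GMV.DDet (1.2 h): detection of another zero

PROOF. `N = Q^700`, `E = Q^30`, `b n = (thw θ n)^2 lmb x n ≥ 0`, `b 1 = 1` (`thw θ 1 = θ 1 = 1`, `lmb x 1 = 1`), `η = 1 - Re ρ`, `|ρ| ≤ 2 Q^30`.
`det_non`: `exp_non`: the sum over `n ≤ N` is `≤ C Q^3 4 Q^60 Q^180 Q^(-280) ≤ 1/2`; the term `n = 1` is `1`, so
`1/2 ≤ ∑_{1<n≤N} b n |n^(-ρ)| = ∑ b n n^(-1) n^η ≤ N^η ∑ b n/n`, `N^η = Q^(700 η)`.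
`det_pri`: the same with `exp_pri`: `|1 + ∑_{1<n≤N} b n n^(-ρ)| ≤ |κ| N^η/|1-ρ| + C Q 4 Q^60 (1 + log Q/c) Q^(-100) ≤ |κ| N^η log Q/c + 1/2`.
-/

set_option autoImplicit false

open Finset

namespace Pool.Agent.Lib.GMV

namespace DDetAux

theorem norm_cv_le (x : CI) (n : ℕ) : ‖cv x n‖ ≤ 1 := by
  unfold cv
  exact DirichletCharacter.norm_le_one _ _

theorem norm_rho {Q : ℕ} (hQ : 1 ≤ Q) {ρ : ℂ} (h1 : 9 / 10 ≤ ρ.re) (h2 : ρ.re ≤ 1)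
    (h3 : |ρ.im| ≤ (Q : ℝ) ^ 30) : ‖ρ‖ ^ 2 ≤ 4 * (Q : ℝ) ^ 60 := by
  have hQ' : (1 : ℝ) ≤ Q := by exact_mod_cast hQ
  have h30 : (1 : ℝ) ≤ (Q : ℝ) ^ 30 := one_le_pow₀ hQ'
  have h4 : ‖ρ‖ ≤ 2 * (Q : ℝ) ^ 30 := by
    refine (Complex.norm_le_abs_re_add_abs_im ρ).trans ?_
    rw [abs_of_nonneg (by linarith)]
    linarith
  calc ‖ρ‖ ^ 2 ≤ (2 * (Q : ℝ) ^ 30) ^ 2 := pow_le_pow_left₀ (norm_nonneg _) h4 2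
    _ = 4 * (Q : ℝ) ^ 60 := by ring

theorem pow_N {Q : ℕ} (hQ : 1 ≤ Q) :
    ((Q ^ 700 : ℕ) : ℝ) ^ (-(2 / 5) : ℝ) = ((Q : ℝ) ^ 280)⁻¹ := by
  have hQ0 : (0 : ℝ) ≤ Q := Nat.cast_nonneg Q
  rw [Nat.cast_pow, ← Real.rpow_natCast, ← Real.rpow_mul hQ0, ← Real.rpow_natCast,
    ← Real.rpow_neg hQ0]
  norm_num

theorem pow_N' {Q : ℕ} (η : ℝ) : ((Q ^ 700 : ℕ) : ℝ) ^ η = (Q : ℝ) ^ (700 * η) := by
  have hQ0 : (0 : ℝ) ≤ Q := Nat.cast_nonneg Q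
  rw [Nat.cast_pow, ← Real.rpow_natCast, ← Real.rpow_mul hQ0]
  norm_num

/-- the terms -/
theorem term_le {Q : ℕ} {ρ : ℂ} (h2 : ρ.re ≤ 1) {b : ℝ} (hb : 0 ≤ b) {w : ℂ}
    (hw : ‖w‖ ≤ 1) {n : ℕ} (hn : n ∈ Ioc 1 (Q ^ 700)) :
    ‖(b : ℂ) * (w * (n : ℂ) ^ (-ρ))‖ ≤ (Q : ℝ) ^ (700 * (1 - ρ.re)) * (b / n) := by
  rw [Finset.mem_Ioc] at hn
  have hn0 : 0 < n := by omega
  have hn' : (0 : ℝ) < n := by exact_mod_cast hn0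
  have hle : (n : ℝ) ≤ ((Q ^ 700 : ℕ) : ℝ) := by exact_mod_cast hn.2
  have h3 : ‖(n : ℂ) ^ (-ρ)‖ = (n : ℝ) ^ (1 - ρ.re) / n := by
    rw [Complex.norm_natCast_cpow_of_pos hn0, Complex.neg_re]
    rw [show -ρ.re = (1 - ρ.re) - 1 by ring, Real.rpow_sub hn', Real.rpow_one]
  have h4 : (n : ℝ) ^ (1 - ρ.re) ≤ (Q : ℝ) ^ (700 * (1 - ρ.re)) := by
    rw [← pow_N']
    exact Real.rpow_le_rpow hn'.le hle (by linarith)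
  rw [norm_mul, norm_mul, Complex.norm_real, Real.norm_eq_abs, abs_of_nonneg hb, h3]
  have h5 : 0 ≤ (n : ℝ) ^ (1 - ρ.re) / n := by positivity
  calc b * (‖w‖ * ((n : ℝ) ^ (1 - ρ.re) / n)) ≤ b * (1 * ((n : ℝ) ^ (1 - ρ.re) / n)) := by
        gcongr
    _ ≤ b * (1 * ((Q : ℝ) ^ (700 * (1 - ρ.re)) / n)) := by gcongr
    _ = (Q : ℝ) ^ (700 * (1 - ρ.re)) * (b / n) := by ring

theorem thw_one {θ : ℕ → ℝ} {E : ℕ} (h : Adm θ E) : thw θ 1 = 1 := by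
  unfold thw
  rw [Nat.divisors_one, Finset.sum_singleton, h.1]

/-- splitting off the first term -/
theorem split_one {M : ℕ} (hM : 1 ≤ M) (f : ℕ → ℂ) :
    ∑ n ∈ Icc 1 M, f n = f 1 + ∑ n ∈ Ioc 1 M, f n :=
  (Finset.add_sum_Ioc_eq_sum_Icc hM).symm

end DDetAux

open DDetAux

theorem det_non : ∃ Q0 : ℕ, ∀ (Q : ℕ) (x y : CI) (ρ : ℂ) (θ : ℕ → ℝ), Q0 ≤ Q → x ∈ Ch Q →
    y ∈ Ch Q → Quad x → y ≠ x → y.2 ≠ 1 → 9 / 10 ≤ ρ.re → ρ.re ≤ 1 → |ρ.im| ≤ (Q : ℝ) ^ 30 →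
    DirichletCharacter.LFunction y.2 ρ = 0 → Adm θ (Q ^ 30) →
    1 / 2 ≤ (Q : ℝ) ^ (700 * (1 - ρ.re)) *
      ∑ n ∈ Ioc 1 (Q ^ 700), (thw θ n) ^ 2 * lmb x n / n := by
  obtain ⟨C, hC, hexp⟩ := exp_non
  refine ⟨⌈8 * C⌉₊ + 1, fun Q x y ρ θ hQ hx hy hq hyx hy1 h1 h2 h3 h0 hA => ?_⟩
  have hQ1 : 1 ≤ Q := by omega
  have hQ' : (1 : ℝ) ≤ Q := by exact_mod_cast hQ1
  have hQC : 8 * C ≤ Q := by
    have h4 : ((⌈8 * C⌉₊ : ℕ) : ℝ) ≤ Q := by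
      have : ⌈8 * C⌉₊ ≤ Q := by omega
      exact_mod_cast this
    exact (Nat.le_ceil _).trans h4
  have hM : 1 ≤ Q ^ 700 := Nat.one_le_pow _ _ hQ1
  have h4 := hexp Q x y ρ θ (Q ^ 30) (Q ^ 700) hx hy hq hyx hy1 h1 h2 h0 hA
    (Nat.one_le_pow _ _ hQ1) (by
      rw [← pow_mul]
      exact Nat.pow_le_pow_right hQ1 (by norm_num))
  rw [pow_N hQ1] at h4
  have h5 : C * (Q : ℝ) ^ 3 * ‖ρ‖ ^ 2 * ((Q ^ 30 : ℕ) : ℝ) ^ 6 * ((Q : ℝ) ^ 280)⁻¹ ≤ 1 / 2 := by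
    have h6 := norm_rho hQ1 h1 h2 h3
    have e : ((Q ^ 30 : ℕ) : ℝ) ^ 6 = (Q : ℝ) ^ 180 := by
      push_cast
      ring
    rw [e]
    have hQ0 : (0 : ℝ) < Q := by linarith
    calc C * (Q : ℝ) ^ 3 * ‖ρ‖ ^ 2 * (Q : ℝ) ^ 180 * ((Q : ℝ) ^ 280)⁻¹
        ≤ C * (Q : ℝ) ^ 3 * (4 * (Q : ℝ) ^ 60) * (Q : ℝ) ^ 180 * ((Q : ℝ) ^ 280)⁻¹ := by gcongr
      _ = 4 * C * ((Q : ℝ) ^ 37)⁻¹ := by
          field_simp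
      _ ≤ 1 / 2 := by
          rw [← div_eq_mul_inv, div_le_iff₀ (by positivity)]
          have : (Q : ℝ) ≤ (Q : ℝ) ^ 37 := le_self_pow₀ hQ' (by norm_num)
          linarith
  have h6 := h4.trans h5
  rw [split_one hM] at h6
  set b : ℕ → ℝ := fun n => (thw θ n) ^ 2 * lmb x n with hb
  have hb0 : ∀ n, 0 ≤ b n := fun n => mul_nonneg (sq_nonneg _) (lam_nonneg hq n)
  have e1 : (((thw θ 1) ^ 2 * lmb x 1 : ℝ) : ℂ) * (cv y 1 * ((1 : ℕ) : ℂ) ^ (-ρ)) = 1 := by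
    rw [thw_one hA, lam_one, cv_one, Nat.cast_one, Complex.one_cpow]
    norm_num
  rw [e1] at h6
  have h7 : ‖∑ n ∈ Ioc 1 (Q ^ 700), (((thw θ n) ^ 2 * lmb x n : ℝ) : ℂ) *
      (cv y n * (n : ℂ) ^ (-ρ))‖ ≤ (Q : ℝ) ^ (700 * (1 - ρ.re)) *
        ∑ n ∈ Ioc 1 (Q ^ 700), (thw θ n) ^ 2 * lmb x n / n := by
    rw [Finset.mul_sum]
    exact norm_sum_le_of_le _ fun n hn => term_le h2 (hb0 n) (norm_cv_le y n) hn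
  have h8 := norm_sub_le (1 + ∑ n ∈ Ioc 1 (Q ^ 700), (((thw θ n) ^ 2 * lmb x n : ℝ) : ℂ) *
      (cv y n * (n : ℂ) ^ (-ρ))) (∑ n ∈ Ioc 1 (Q ^ 700), (((thw θ n) ^ 2 * lmb x n : ℝ) : ℂ) *
      (cv y n * (n : ℂ) ^ (-ρ)))
  rw [add_sub_cancel_right, norm_one] at h8
  linarith

theorem det_pri (c : ℝ) (hc : 0 < c) : ∃ Q0 : ℕ, ∀ (Q : ℕ) (x : CI) (ρ : ℂ) (θ : ℕ → ℝ),
    Q0 ≤ Q → x ∈ Ch Q → Quad x → 9 / 10 ≤ ρ.re → ρ.re ≤ 1 → |ρ.im| ≤ (Q : ℝ) ^ 30 →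
    c / Real.log Q ≤ ‖1 - ρ‖ →
    (riemannZeta ρ = 0 ∨ DirichletCharacter.LFunction x.2 ρ = 0) → Adm θ (Q ^ 30) →
    1 / 2 ≤ (Q : ℝ) ^ (700 * (1 - ρ.re)) *
      (∑ n ∈ Ioc 1 (Q ^ 700), (thw θ n) ^ 2 * lmb x n / n +
        |QV (wq x) θ (Q ^ 30) * L1 x| * (Real.log Q / c)) := by
  obtain ⟨C, hC, hexp⟩ := exp_pri
  refine ⟨⌈8 * C * (1 + 1 / c)⌉₊ + 2, fun Q x ρ θ hQ hx hq h1 h2 h3 hd h0 hA => ?_⟩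
  have hQ1 : 1 ≤ Q := by omega
  have hQ' : (1 : ℝ) ≤ Q := by exact_mod_cast hQ1
  have hQ2 : (2 : ℝ) ≤ Q := by
    have : 2 ≤ Q := by omega
    exact_mod_cast this
  have hQC : 8 * C * (1 + 1 / c) ≤ Q := by
    have h4 : ((⌈8 * C * (1 + 1 / c)⌉₊ : ℕ) : ℝ) ≤ Q := by
      have : ⌈8 * C * (1 + 1 / c)⌉₊ ≤ Q := by omega
      exact_mod_cast this
    exact (Nat.le_ceil _).trans h4
  have hlog : 0 < Real.log Q := Real.log_pos (by linarith)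
  have hdp : 0 < ‖1 - ρ‖ := lt_of_lt_of_le (div_pos hc hlog) hd
  have hne : ρ ≠ 1 := by
    rintro rfl
    rw [sub_self, norm_zero] at hdp
    exact lt_irrefl _ hdp
  have hinv : 1 / ‖1 - ρ‖ ≤ Real.log Q / c := by
    rw [div_le_div_iff₀ hdp hc, one_mul]
    rw [div_le_iff₀ hlog] at hd
    linarith
  have hlogQ : Real.log Q ≤ Q := (Real.log_le_sub_one_of_pos (by linarith)).trans (by linarith)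
  have hinv' : 1 / ‖1 - ρ‖ ≤ Q / c := hinv.trans (div_le_div_of_nonneg_right hlogQ hc.le)
  have hM : 1 ≤ Q ^ 700 := Nat.one_le_pow _ _ hQ1
  have h4 := hexp Q x ρ θ (Q ^ 30) (Q ^ 700) hx hq h1 h2 hne h0 hA
    (Nat.one_le_pow _ _ hQ1) (by
      rw [← pow_mul]
      exact Nat.pow_le_pow_right hQ1 (by norm_num))
  rw [pow_N hQ1] at h4
  have h5 : C * Q * ‖ρ‖ ^ 2 * (1 + 1 / ‖1 - ρ‖) * ((Q ^ 30 : ℕ) : ℝ) ^ 6 *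
      ((Q : ℝ) ^ 280)⁻¹ ≤ 1 / 2 := by
    have h6 := norm_rho hQ1 h1 h2 h3
    have e : ((Q ^ 30 : ℕ) : ℝ) ^ 6 = (Q : ℝ) ^ 180 := by
      push_cast
      ring
    rw [e]
    have hQ0 : (0 : ℝ) < Q := by linarith
    have h7 : 1 + 1 / ‖1 - ρ‖ ≤ (1 + 1 / c) * Q := by
      have : (1 + 1 / c) * (Q : ℝ) = Q + Q / c := by ring
      rw [this]
      linarith
    calc C * Q * ‖ρ‖ ^ 2 * (1 + 1 / ‖1 - ρ‖) * (Q : ℝ) ^ 180 * ((Q : ℝ) ^ 280)⁻¹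
        ≤ C * Q * (4 * (Q : ℝ) ^ 60) * ((1 + 1 / c) * Q) * (Q : ℝ) ^ 180 *
          ((Q : ℝ) ^ 280)⁻¹ := by gcongr
      _ = 4 * C * (1 + 1 / c) * ((Q : ℝ) ^ 38)⁻¹ := by
          field_simp
      _ ≤ 1 / 2 := by
          rw [← div_eq_mul_inv, div_le_iff₀ (by positivity)]
          have : (Q : ℝ) ≤ (Q : ℝ) ^ 38 := le_self_pow₀ hQ' (by norm_num)
          linarith
  have h6 := h4.trans h5
  rw [split_one hM] at h6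
  set b : ℕ → ℝ := fun n => (thw θ n) ^ 2 * lmb x n with hb
  have hb0 : ∀ n, 0 ≤ b n := fun n => mul_nonneg (sq_nonneg _) (lam_nonneg hq n)
  have e1 : (((thw θ 1) ^ 2 * lmb x 1 : ℝ) : ℂ) * ((1 : ℕ) : ℂ) ^ (-ρ) = 1 := by
    rw [thw_one hA, lam_one, Nat.cast_one, Complex.one_cpow]
    norm_num
  rw [e1] at h6
  set S := ∑ n ∈ Ioc 1 (Q ^ 700), (((thw θ n) ^ 2 * lmb x n : ℝ) : ℂ) * (n : ℂ) ^ (-ρ) with hS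
  set κ := QV (wq x) θ (Q ^ 30) * L1 x with hκ
  have h7 : ‖S‖ ≤ (Q : ℝ) ^ (700 * (1 - ρ.re)) *
        ∑ n ∈ Ioc 1 (Q ^ 700), (thw θ n) ^ 2 * lmb x n / n := by
    rw [Finset.mul_sum, hS]
    refine norm_sum_le_of_le _ fun n hn => ?_
    have h8 := term_le (w := 1) h2 (hb0 n) (by rw [norm_one]) hn
    rwa [one_mul] at h8
  have hNp : 0 < Q ^ 700 := by omega
  have h9 : ‖(κ : ℂ) * (((Q ^ 700 : ℕ) : ℂ) ^ (1 - ρ) / (1 - ρ))‖ ≤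
      (Q : ℝ) ^ (700 * (1 - ρ.re)) * (|κ| * (Real.log Q / c)) := by
    rw [norm_mul, norm_div, Complex.norm_real, Real.norm_eq_abs,
      Complex.norm_natCast_cpow_of_pos hNp, Complex.sub_re, Complex.one_re, pow_N']
    have h10 : 0 ≤ (Q : ℝ) ^ (700 * (1 - ρ.re)) := Real.rpow_nonneg (by linarith) _
    calc |κ| * ((Q : ℝ) ^ (700 * (1 - ρ.re)) / ‖1 - ρ‖)
        = |κ| * ((Q : ℝ) ^ (700 * (1 - ρ.re)) * (1 / ‖1 - ρ‖)) := by ring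
      _ ≤ |κ| * ((Q : ℝ) ^ (700 * (1 - ρ.re)) * (Real.log Q / c)) := by gcongr
      _ = _ := by ring
  have h10 : (1 : ℂ) = (1 + S - (κ : ℂ) * (((Q ^ 700 : ℕ) : ℂ) ^ (1 - ρ) / (1 - ρ))) - S +
      (κ : ℂ) * (((Q ^ 700 : ℕ) : ℂ) ^ (1 - ρ) / (1 - ρ)) := by ring
  have h11 : (1 : ℝ) ≤ ‖1 + S - (κ : ℂ) * (((Q ^ 700 : ℕ) : ℂ) ^ (1 - ρ) / (1 - ρ))‖ + ‖S‖ +
      ‖(κ : ℂ) * (((Q ^ 700 : ℕ) : ℂ) ^ (1 - ρ) / (1 - ρ))‖ := by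
    calc (1 : ℝ) = ‖(1 : ℂ)‖ := norm_one.symm
      _ = ‖(1 + S - (κ : ℂ) * (((Q ^ 700 : ℕ) : ℂ) ^ (1 - ρ) / (1 - ρ))) - S +
          (κ : ℂ) * (((Q ^ 700 : ℕ) : ℂ) ^ (1 - ρ) / (1 - ρ))‖ := by rw [← h10]
      _ ≤ _ := (norm_add_le _ _).trans (add_le_add (norm_sub_le _ _) le_rfl)
  rw [mul_add]
  linarith

end Pool.Agent.Lib.GMV
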