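import Pool.Agent.Lib.GMV.Defs
import Pool.Agent.Lib.VK.ZeroFree
import Pool.Agent.Lib.BV.LargeSieve

/-!
# GMV.ZFa (1 h): positivity of Dirichlet series of `Λ`

PROOF. For `Re s > 1`: `-L'/L(s, χ) = ∑ χ(n) Λ(n) n^(-s)` (`DirichletCharacter.LSeries_twist_vonMangoldt_eq`,
`DirichletCharacter.LFunction_eq_LSeries`; see `VK.ZF.three_four_one` for the same kind of proof). `χ^2 = 1`: the values `χ(n)` are
`0, 1, -1`. `one_plus_real`: `1 + χ(n) ≥ 0`. `one_plus_two`: `θ(n) = χ(n) ψ(n)` (`BV.ls_pair`, conj of a real value),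
`(1 + χ(n)) (1 + ψ(n)) ≥ 0`.
-/

set_option autoImplicit false

open Complex Finset

namespace Pool.Agent.Lib.GMV

namespace ZFaAux

/-- the logarithmic derivative is the Dirichlet series of `χ Λ` -/
lemma logderiv {q : ℕ} [NeZero q] (χ : DirichletCharacter ℂ q) {x : ℝ} (hx : 0 < x) :
    -(deriv χ.LFunction ((1 + x : ℝ) : ℂ) / χ.LFunction ((1 + x : ℝ) : ℂ)) =
      LSeries ((fun n : ℕ => χ (n : ZMod q)) *
        (fun n : ℕ => ((ArithmeticFunction.vonMangoldt n : ℝ) : ℂ))) ((1 + x : ℝ) : ℂ) := by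
  have h1 : 1 < (((1 + x : ℝ) : ℂ)).re := by
    rw [Complex.ofReal_re]
    linarith
  rw [DirichletCharacter.LFunction_eq_LSeries χ h1,
    DirichletCharacter.deriv_LFunction_eq_deriv_LSeries χ h1, ← neg_div]
  exact (DirichletCharacter.LSeries_twist_vonMangoldt_eq χ h1).symm

/-- the values of a real character -/
lemma val {q : ℕ} (χ : DirichletCharacter ℂ q) (hχ : χ ^ 2 = 1) (a : ZMod q) :
    ∃ v : ℝ, χ a = (v : ℂ) ∧ -1 ≤ v := by
  by_cases ha : IsUnit a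
  · have h1 : χ a ^ 2 = 1 := by
      rw [← MulChar.pow_apply' χ two_ne_zero, hχ, MulChar.one_apply ha]
    have h2 : (χ a - 1) * (χ a + 1) = 0 := by
      linear_combination h1
    rcases mul_eq_zero.mp h2 with h | h
    · exact ⟨1, by rw [sub_eq_zero.mp h]; simp, by norm_num⟩
    · exact ⟨-1, by rw [eq_neg_of_add_eq_zero_left h]; simp, le_refl _⟩
  · exact ⟨0, by rw [MulChar.map_nonunit χ ha]; simp, by norm_num⟩

/-- one term of a Dirichlet series with `Λ` at a real point -/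
lemma term_re (f : ℕ → ℂ) (v : ℝ) {x : ℝ} (n : ℕ) (hn : 0 < n) (hv : f n = (v : ℂ)) :
    (LSeries.term (f * (fun n : ℕ => ((ArithmeticFunction.vonMangoldt n : ℝ) : ℂ)))
      ((1 + x : ℝ) : ℂ) n).re = ArithmeticFunction.vonMangoldt n / (n : ℝ) ^ (1 + x) * v := by
  rw [LSeries.term_of_ne_zero hn.ne', Pi.mul_apply, hv]
  have hn1 : (n : ℂ) ^ ((1 + x : ℝ) : ℂ) = (((n : ℝ) ^ (1 + x) : ℝ) : ℂ) := by
    rw [Complex.ofReal_cpow (Nat.cast_nonneg _)]
    simp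
  rw [hn1, ← Complex.ofReal_mul, ← Complex.ofReal_div, Complex.ofReal_re]
  ring

lemma term_re0 {x : ℝ} (n : ℕ) (hn : 0 < n) :
    (LSeries.term (fun n : ℕ => ((ArithmeticFunction.vonMangoldt n : ℝ) : ℂ))
      ((1 + x : ℝ) : ℂ) n).re = ArithmeticFunction.vonMangoldt n / (n : ℝ) ^ (1 + x) := by
  rw [LSeries.term_of_ne_zero hn.ne']
  have hn1 : (n : ℂ) ^ ((1 + x : ℝ) : ℂ) = (((n : ℝ) ^ (1 + x) : ℝ) : ℂ) := by
    rw [Complex.ofReal_cpow (Nat.cast_nonneg _)]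
    simp
  rw [hn1, ← Complex.ofReal_div, Complex.ofReal_re]

end ZFaAux

theorem one_plus_real {q : ℕ} [NeZero q] (χ : DirichletCharacter ℂ q) (hχ : χ ^ 2 = 1) {x : ℝ}
    (hx : 0 < x) :
    0 ≤ (LSeries (fun n : ℕ => ((ArithmeticFunction.vonMangoldt n : ℝ) : ℂ))
        ((1 + x : ℝ) : ℂ)).re +
      (-(deriv χ.LFunction ((1 + x : ℝ) : ℂ) / χ.LFunction ((1 + x : ℝ) : ℂ))).re := by
  rw [ZFaAux.logderiv χ hx]
  have h0 : 1 < (((1 + x : ℝ) : ℂ)).re := by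
    rw [Complex.ofReal_re]
    linarith
  have S0 : LSeriesSummable (fun n : ℕ => ((ArithmeticFunction.vonMangoldt n : ℝ) : ℂ))
      ((1 + x : ℝ) : ℂ) := ArithmeticFunction.LSeriesSummable_vonMangoldt h0
  have S1 : LSeriesSummable ((fun n : ℕ => χ (n : ZMod q)) *
      (fun n : ℕ => ((ArithmeticFunction.vonMangoldt n : ℝ) : ℂ))) ((1 + x : ℝ) : ℂ) :=
    DirichletCharacter.LSeriesSummable_twist_vonMangoldt χ h0
  unfold LSeries
  rw [Complex.re_tsum S0, Complex.re_tsum S1, ← Summable.tsum_add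
    (Complex.hasSum_re S0.hasSum).summable (Complex.hasSum_re S1.hasSum).summable]
  refine tsum_nonneg fun n => ?_
  rcases Nat.eq_zero_or_pos n with hn | hn
  · subst hn
    simp
  obtain ⟨v, hv, hv1⟩ := ZFaAux.val χ hχ (n : ZMod q)
  rw [ZFaAux.term_re0 n hn, ZFaAux.term_re (fun n : ℕ => χ (n : ZMod q)) v n hn hv]
  have ha0 : 0 ≤ ArithmeticFunction.vonMangoldt n / (n : ℝ) ^ (1 + x) :=
    div_nonneg ArithmeticFunction.vonMangoldt_nonneg (by positivity)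
  have h3 := mul_nonneg ha0 (by linarith : 0 ≤ 1 + v)
  linarith

theorem one_plus_two {q r : ℕ} [NeZero q] [NeZero r] (χ : DirichletCharacter ℂ q)
    (ψ : DirichletCharacter ℂ r) (hχ : χ ^ 2 = 1) (hψ : ψ ^ 2 = 1)
    (θ : DirichletCharacter ℂ (q * r))
    (hθ : θ = DirichletCharacter.changeLevel (Nat.dvd_mul_right q r) χ *
      (DirichletCharacter.changeLevel (Nat.dvd_mul_left r q) ψ)⁻¹) {x : ℝ} (hx : 0 < x) :
    0 ≤ (LSeries (fun n : ℕ => ((ArithmeticFunction.vonMangoldt n : ℝ) : ℂ))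
        ((1 + x : ℝ) : ℂ)).re +
      (-(deriv χ.LFunction ((1 + x : ℝ) : ℂ) / χ.LFunction ((1 + x : ℝ) : ℂ))).re +
      (-(deriv ψ.LFunction ((1 + x : ℝ) : ℂ) / ψ.LFunction ((1 + x : ℝ) : ℂ))).re +
      (-(deriv θ.LFunction ((1 + x : ℝ) : ℂ) / θ.LFunction ((1 + x : ℝ) : ℂ))).re := by
  rw [ZFaAux.logderiv χ hx, ZFaAux.logderiv ψ hx, ZFaAux.logderiv θ hx]
  have h0 : 1 < (((1 + x : ℝ) : ℂ)).re := by
    rw [Complex.ofReal_re]
    linarith
  have S0 : LSeriesSummable (fun n : ℕ => ((ArithmeticFunction.vonMangoldt n : ℝ) : ℂ))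
      ((1 + x : ℝ) : ℂ) := ArithmeticFunction.LSeriesSummable_vonMangoldt h0
  have S1 : LSeriesSummable ((fun n : ℕ => χ (n : ZMod q)) *
      (fun n : ℕ => ((ArithmeticFunction.vonMangoldt n : ℝ) : ℂ))) ((1 + x : ℝ) : ℂ) :=
    DirichletCharacter.LSeriesSummable_twist_vonMangoldt χ h0
  have S2 : LSeriesSummable ((fun n : ℕ => ψ (n : ZMod r)) *
      (fun n : ℕ => ((ArithmeticFunction.vonMangoldt n : ℝ) : ℂ))) ((1 + x : ℝ) : ℂ) :=
    DirichletCharacter.LSeriesSummable_twist_vonMangoldt ψ h0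
  have S3 : LSeriesSummable ((fun n : ℕ => θ (n : ZMod (q * r))) *
      (fun n : ℕ => ((ArithmeticFunction.vonMangoldt n : ℝ) : ℂ))) ((1 + x : ℝ) : ℂ) :=
    DirichletCharacter.LSeriesSummable_twist_vonMangoldt θ h0
  have R0 := (Complex.hasSum_re S0.hasSum).summable
  have R1 := (Complex.hasSum_re S1.hasSum).summable
  have R2 := (Complex.hasSum_re S2.hasSum).summable
  have R3 := (Complex.hasSum_re S3.hasSum).summable
  unfold LSeries
  rw [Complex.re_tsum S0, Complex.re_tsum S1, Complex.re_tsum S2, Complex.re_tsum S3,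
    ← Summable.tsum_add R0 R1, ← Summable.tsum_add (R0.add R1) R2,
    ← Summable.tsum_add ((R0.add R1).add R2) R3]
  refine tsum_nonneg fun n => ?_
  rcases Nat.eq_zero_or_pos n with hn | hn
  · subst hn
    simp
  obtain ⟨v, hv, hv1⟩ := ZFaAux.val χ hχ (n : ZMod q)
  obtain ⟨w, hw, hw1⟩ := ZFaAux.val ψ hψ (n : ZMod r)
  have hvw : θ (n : ZMod (q * r)) = ((v * w : ℝ) : ℂ) := by
    rw [hθ, Pool.Agent.Lib.BV.ls_pair, hv, hw, Complex.conj_ofReal, Complex.ofReal_mul]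
  rw [ZFaAux.term_re0 n hn, ZFaAux.term_re (fun n : ℕ => χ (n : ZMod q)) v n hn hv,
    ZFaAux.term_re (fun n : ℕ => ψ (n : ZMod r)) w n hn hw,
    ZFaAux.term_re (fun n : ℕ => θ (n : ZMod (q * r))) (v * w) n hn hvw]
  have ha0 : 0 ≤ ArithmeticFunction.vonMangoldt n / (n : ℝ) ^ (1 + x) :=
    div_nonneg ArithmeticFunction.vonMangoldt_nonneg (by positivity)
  have h3 := mul_nonneg ha0 (mul_nonneg (by linarith : 0 ≤ 1 + v) (by linarith : 0 ≤ 1 + w))
  linarith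

end Pool.Agent.Lib.GMV
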