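import Pool.Agent.Lib.GMV.ZLan
import Pool.Agent.Lib.GMV.ZFa

/-!
# GMV.ZFc (1.7 h): the exceptional zero is simple and unique

PROOF. Constants: `L = log Q ≥ log 2`, `x = c/L`, `c ≤ 1/100` small (then `x ≤ 1/40`, `log (1/x) ≤ L + log (1/c)`), and
`K = C (log Q + log (1/x)) + C ≤ 1/(100 x)` (possible since `c log (1/c) → 0`), `C` large enough for `Lf_landau`, `VK.ZF.mangoldt_le`. The zero free region is `Re ρ > 1 - (c/20)/L`,
i.e. `δ := 1 - Re ρ < x/20`. For `ρ = β + iγ`, `s = 1 + x + iγ`: `s - ρ = x + δ`, `Re 1/(s-ρ) ≥ 1/(1.05 x)`, `mul ≥ 1` (`one_le_mul`).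
In all cases `-(Lf'/Lf)(s).re ≤ K - ∑_S mul Re 1/(s-ρ)`; for the principal character `Lf'/Lf = 1/(s-1) + L'/L`, so
`-(L'/L)(s).re ≤ K + Re 1/(s-1)` (take `S = ∅` or the zero).
`zf_simple`: `one_plus_real` and `Lf_landau` (`t = 0`): `0 ≤ 1/x + 2K - ∑_(ρ ∈ S) mul ρ Re 1/(1 + x - ρ)`, every `Re 1/(1+x-ρ) ≥ 1/(1.05 x)`
(real zeros `ρ < 1`, `Lf_ne_zero`; points of `S` which are no zeros have `mul = 0`: drop them first), so `∑ mul ≤ 1.05 (1 + 2 K x) < 2`.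
`zf_pair`: `θ = χ ψ⁻¹` mod `q r ≤ Q^2` is not principal (`BV.ls_ne_one`), `one_plus_two`, three times `Lf_landau` (for `χ`, `ψ` with
`S = {ρ}`, `{ρ'}`, for `θ` with `S = ∅`): `0 ≤ 1/x + 4 K - 2/(1.05 x)`, impossible.
-/

set_option autoImplicit false

open Complex Finset

namespace Pool.Agent.Lib.GMV

namespace ZFcAux

lemma mul_eq_zero_of {q : ℕ} [NeZero q] (χ : DirichletCharacter ℂ q) {ρ : ℂ}
    (h : Lf χ ρ ≠ 0) : mul χ ρ = 0 := by
  unfold mul analyticOrderNatAt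
  rw [(Lf_analytic χ ρ (Set.mem_univ ρ)).analyticOrderAt_eq_zero.mpr h]
  rfl

/-- the choice of the constant -/
lemma choice (C1 C2 : ℝ) (h1 : 1 ≤ C1) (h2 : 0 ≤ C2) :
    ∃ a : ℝ, 0 < a ∧ a ≤ 1 / 100 ∧ ∀ L : ℝ, Real.log 2 ≤ L →
      (C1 * (L + Real.log (1 / (a / L))) + C2) * (a / L) ≤ 1 / 100 := by
  set b : ℝ := 1 / (100 * (6 * C1 + 2 * C2)) with hb
  have hD : 6 ≤ 6 * C1 + 2 * C2 := by linarith
  have hb0 : 0 < b := by rw [hb]; positivity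
  have hb1 : b ≤ 1 / 600 := by
    rw [hb]
    exact one_div_le_one_div_of_le (by norm_num) (by linarith)
  have hbD : b * (6 * C1 + 2 * C2) = 1 / 100 := by
    rw [hb]
    field_simp
  refine ⟨b ^ 2, by positivity, by nlinarith, ?_⟩
  intro L hL
  have hl2 : 1 / 2 < Real.log 2 := by
    have := Real.log_two_gt_d9
    linarith
  have hL0 : 0 < L := by linarith
  have hlog : Real.log (1 / (b ^ 2 / L)) = Real.log L + 2 * Real.log (1 / b) := by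
    rw [one_div_div, Real.log_div hL0.ne' (by positivity), Real.log_pow, one_div, Real.log_inv]
    push_cast
    ring
  have hlL : Real.log L ≤ L := by
    have := Real.log_le_sub_one_of_pos hL0
    linarith
  have hlb : Real.log (1 / b) ≤ 1 / b := by
    have := Real.log_le_sub_one_of_pos (one_div_pos.mpr hb0)
    linarith
  rw [hlog]
  have h3 : C1 * (L + (Real.log L + 2 * Real.log (1 / b))) + C2 ≤
      C1 * (2 * L + 2 * (1 / b)) + C2 := by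
    have : L + (Real.log L + 2 * Real.log (1 / b)) ≤ 2 * L + 2 * (1 / b) := by linarith
    have := mul_le_mul_of_nonneg_left this (by linarith : (0 : ℝ) ≤ C1)
    linarith
  have hx0 : 0 < b ^ 2 / L := by positivity
  refine (mul_le_mul_of_nonneg_right h3 hx0.le).trans ?_
  have h4 : (C1 * (2 * L + 2 * (1 / b)) + C2) * (b ^ 2 / L) =
      2 * C1 * b ^ 2 + (2 * C1 * b + C2 * b ^ 2) / L := by
    field_simp
    ring
  rw [h4]
  have h5 : (2 * C1 * b + C2 * b ^ 2) / L ≤ 2 * (2 * C1 * b + C2 * b ^ 2) := by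
    rw [div_le_iff₀ hL0]
    have : 0 ≤ 2 * C1 * b + C2 * b ^ 2 := by positivity
    nlinarith
  have h6 : b ^ 2 ≤ b := by nlinarith
  have h7 : C1 * b ^ 2 ≤ C1 * b := mul_le_mul_of_nonneg_left h6 (by linarith)
  have h8 : C2 * b ^ 2 ≤ C2 * b := mul_le_mul_of_nonneg_left h6 h2
  nlinarith

lemma inv_re {x : ℝ} {ρ : ℂ} (him : ρ.im = 0) :
    (1 / (((1 + x : ℝ) : ℂ) - ρ)).re = 1 / (1 + x - ρ.re) := by
  have h : ρ = ((ρ.re : ℝ) : ℂ) := by
    apply Complex.ext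
    · simp
    · simp [him]
  have h2 : (1 / (((1 + x : ℝ) : ℂ) - ρ)) = ((1 / (1 + x - ρ.re) : ℝ) : ℂ) := by
    conv_lhs => rw [h]
    push_cast
    ring
  rw [h2, Complex.ofReal_re]

lemma norm_sub_real {x : ℝ} {ρ : ℂ} (him : ρ.im = 0) (h : 0 ≤ 1 + x - ρ.re) :
    ‖((1 + x : ℝ) : ℂ) - ρ‖ = 1 + x - ρ.re := by
  have h1 : ρ = ((ρ.re : ℝ) : ℂ) := by
    apply Complex.ext
    · simp
    · simp [him]
  have h2 : (((1 + x : ℝ) : ℂ) - ρ) = ((1 + x - ρ.re : ℝ) : ℂ) := by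
    conv_lhs => rw [h1]
    push_cast
    ring
  rw [h2, Complex.norm_real, Real.norm_eq_abs, abs_of_nonneg h]

/-- Landau's lemma at a real point, all points of `S` real and close to one -/
lemma landau_real : ∃ C : ℝ, 1 ≤ C ∧ ∀ (Q q : ℕ) [NeZero q] (χ : DirichletCharacter ℂ q)
    (x : ℝ), 2 ≤ Q → q ≤ Q ^ 2 → 0 < x → x ≤ 1 / 40 →
    ∀ S : Finset ℂ, (∀ ρ ∈ S, ρ.im = 0 ∧ ρ.re < 1 ∧ 1 + x - ρ.re ≤ 21 / 20 * x) →
      (∑ ρ ∈ S, (mul χ ρ : ℝ)) * (1 / (21 / 20 * x)) ≤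
        (deriv (Lf χ) ((1 + x : ℝ) : ℂ) / Lf χ ((1 + x : ℝ) : ℂ)).re +
          C * (Real.log Q + Real.log (1 / x)) := by
  obtain ⟨C, hC, h⟩ := Lf_landau
  refine ⟨C, hC, ?_⟩
  intro Q q _ χ x hQ hq hx hx1 S hS
  have hQR : (2 : ℝ) ≤ Q := by exact_mod_cast hQ
  have h0 := h Q q χ x 0 hQ hq (by
    rw [abs_zero]
    positivity) hx hx1 S
  have e : ((1 + x : ℝ) : ℂ) + ((0 : ℝ) : ℂ) * I = ((1 + x : ℝ) : ℂ) := by
    simp
  rw [e] at h0
  have h1 := h0 (by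
    intro ρ hρ
    obtain ⟨h2, h3, h4⟩ := hS ρ hρ
    rw [norm_sub_real h2 (by linarith)]
    linarith)
  refine le_trans ?_ h1
  rw [Finset.sum_mul]
  refine Finset.sum_le_sum fun ρ hρ => ?_
  obtain ⟨h2, h3, h4⟩ := hS ρ hρ
  rw [inv_re h2]
  refine mul_le_mul_of_nonneg_left ?_ (Nat.cast_nonneg _)
  exact one_div_le_one_div_of_le (by linarith) h4

end ZFcAux

open ZFcAux

theorem zf_simple : ∃ c : ℝ, 0 < c ∧ ∀ (Q q : ℕ) [NeZero q] (χ : DirichletCharacter ℂ q),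
    2 ≤ Q → q ≤ Q → χ ≠ 1 → χ ^ 2 = 1 → ∀ S : Finset ℂ,
    (∀ ρ ∈ S, ρ.im = 0 ∧ 1 - c / Real.log Q < ρ.re) → ∑ ρ ∈ S, mul χ ρ ≤ 1 := by
  classical
  obtain ⟨C1, hC1, hland⟩ := landau_real
  obtain ⟨C2, hC2, hman⟩ := Pool.Agent.VK.ZF.mangoldt_le
  obtain ⟨a, ha0, ha1, ha⟩ := choice C1 C2 hC1 hC2
  refine ⟨a / 20, by positivity, ?_⟩
  intro Q q _ χ hQ hq hχ hχ2 S hS
  have hQR : (2 : ℝ) ≤ Q := by exact_mod_cast hQ
  have hl2 : 1 / 2 < Real.log 2 := by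
    have := Real.log_two_gt_d9
    linarith
  have hL2 : Real.log 2 ≤ Real.log Q := Real.log_le_log (by norm_num) hQR
  have hL0 : 0 < Real.log Q := by linarith
  have hK := ha (Real.log Q) hL2
  obtain ⟨x, hxdef⟩ : ∃ x, x = a / Real.log Q := ⟨_, rfl⟩
  rw [← hxdef] at hK
  have hx0 : 0 < x := by rw [hxdef]; positivity
  have hx1 : x ≤ 1 / 40 := by
    rw [hxdef, div_le_iff₀ hL0]
    linarith
  set S' := S.filter (fun ρ => ρ.re < 1) with hS'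
  have hsum : ∑ ρ ∈ S, mul χ ρ = ∑ ρ ∈ S', mul χ ρ := by
    rw [hS', Finset.sum_filter]
    refine Finset.sum_congr rfl fun ρ _ => ?_
    by_cases h : ρ.re < 1
    · rw [if_pos h]
    · rw [if_neg h]
      exact mul_eq_zero_of χ (Lf_ne_zero χ (not_lt.mp h))
  have h1 := hland Q q χ x hQ (hq.trans (Nat.le_self_pow (by norm_num) Q)) hx0 hx1 S' (by
    intro ρ hρ
    rw [hS', Finset.mem_filter] at hρ
    obtain ⟨h2, h3⟩ := hS ρ hρ.1
    refine ⟨h2, hρ.2, ?_⟩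
    have h4 : a / 20 / Real.log Q = x / 20 := by
      rw [hxdef]; ring
    rw [h4] at h3
    linarith)
  have h2 := one_plus_real χ hχ2 hx0
  have h3 := hman x hx0 (by linarith)
  rw [Lf_of_ne hχ] at h1
  rw [Complex.neg_re] at h2
  have h4 : (∑ ρ ∈ S', (mul χ ρ : ℝ)) * (1 / (21 / 20 * x)) ≤
      1 / x + (C1 * (Real.log Q + Real.log (1 / x)) + C2) := by linarith
  have h5 : (∑ ρ ∈ S', (mul χ ρ : ℝ)) < 2 := by
    have h6 : (∑ ρ ∈ S', (mul χ ρ : ℝ)) =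
        ((∑ ρ ∈ S', (mul χ ρ : ℝ)) * (1 / (21 / 20 * x))) * (21 / 20 * x) := by
      field_simp
    rw [h6]
    have h7 := mul_le_mul_of_nonneg_right h4 (by positivity : (0 : ℝ) ≤ 21 / 20 * x)
    refine lt_of_le_of_lt h7 ?_
    have h8 : (1 / x + (C1 * (Real.log Q + Real.log (1 / x)) + C2)) * (21 / 20 * x) =
        21 / 20 + 21 / 20 * ((C1 * (Real.log Q + Real.log (1 / x)) + C2) * x) := by
      field_simp
    rw [h8]
    linarith
  rw [hsum]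
  have h6 : ((∑ ρ ∈ S', mul χ ρ : ℕ) : ℝ) < 2 := by
    push_cast
    exact h5
  have h7 : (∑ ρ ∈ S', mul χ ρ : ℕ) < 2 := by exact_mod_cast h6
  omega

theorem zf_pair : ∃ c : ℝ, 0 < c ∧ ∀ (Q q r : ℕ) [NeZero q] [NeZero r]
    (χ : DirichletCharacter ℂ q) (ψ : DirichletCharacter ℂ r) (ρ ρ' : ℂ),
    2 ≤ Q → q ≤ Q → r ≤ Q → χ ≠ 1 → ψ ≠ 1 → χ ^ 2 = 1 → ψ ^ 2 = 1 → χ.IsPrimitive →
    ψ.IsPrimitive → (⟨q, χ⟩ : (n : ℕ) × DirichletCharacter ℂ n) ≠ ⟨r, ψ⟩ →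
    Lf χ ρ = 0 → Lf ψ ρ' = 0 → ρ.im = 0 → ρ'.im = 0 → 1 - c / Real.log Q < ρ.re →
    1 - c / Real.log Q < ρ'.re → False := by
  classical
  obtain ⟨C1, hC1, hland⟩ := landau_real
  obtain ⟨C2, hC2, hman⟩ := Pool.Agent.VK.ZF.mangoldt_le
  obtain ⟨a, ha0, ha1, ha⟩ := choice C1 C2 hC1 hC2
  refine ⟨a / 20, by positivity, ?_⟩
  intro Q q r _ _ χ ψ ρ ρ' hQ hq hr hχ hψ hχ2 hψ2 hχp hψp hne hρ hρ' him him' hre hre'
  have hQR : (2 : ℝ) ≤ Q := by exact_mod_cast hQ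
  have hl2 : 1 / 2 < Real.log 2 := by
    have := Real.log_two_gt_d9
    linarith
  have hL2 : Real.log 2 ≤ Real.log Q := Real.log_le_log (by norm_num) hQR
  have hL0 : 0 < Real.log Q := by linarith
  have hK := ha (Real.log Q) hL2
  obtain ⟨x, hxdef⟩ : ∃ x, x = a / Real.log Q := ⟨_, rfl⟩
  rw [← hxdef] at hK
  have hx0 : 0 < x := by rw [hxdef]; positivity
  have hx1 : x ≤ 1 / 40 := by
    rw [hxdef, div_le_iff₀ hL0]
    linarith
  have e4 : a / 20 / Real.log Q = x / 20 := by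
    rw [hxdef]; ring
  rw [e4] at hre hre'
  have hone : ∀ {m : ℕ} [NeZero m] (φ : DirichletCharacter ℂ m) (z : ℂ), m ≤ Q → φ ≠ 1 →
      Lf φ z = 0 → z.im = 0 → 1 - x / 20 < z.re →
      1 / (21 / 20 * x) ≤ (deriv φ.LFunction ((1 + x : ℝ) : ℂ) /
        φ.LFunction ((1 + x : ℝ) : ℂ)).re + C1 * (Real.log Q + Real.log (1 / x)) := by
    intro m _ φ z hm hφ hz hzi hzr
    have hz1 : z.re < 1 := by
      by_contra hh
      exact Lf_ne_zero φ (not_lt.mp hh) hz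
    have h1 := hland Q m φ x hQ (hm.trans (Nat.le_self_pow (by norm_num) Q)) hx0 hx1 {z} (by
      intro w hw
      rw [Finset.mem_singleton] at hw
      subst hw
      exact ⟨hzi, hz1, by linarith⟩)
    rw [Finset.sum_singleton, Lf_of_ne hφ] at h1
    refine le_trans ?_ h1
    have h2 : (1 : ℝ) ≤ (mul φ z : ℝ) := by exact_mod_cast one_le_mul φ hz
    have h3 : 0 ≤ 1 / (21 / 20 * x) := by positivity
    nlinarith
  obtain ⟨θ, hθ⟩ : ∃ θ : DirichletCharacter ℂ (q * r),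
      θ = DirichletCharacter.changeLevel (Nat.dvd_mul_right q r) χ *
      (DirichletCharacter.changeLevel (Nat.dvd_mul_left r q) ψ)⁻¹ := ⟨_, rfl⟩
  have hθ1 : θ ≠ 1 := by
    rw [hθ]
    exact Pool.Agent.Lib.BV.ls_ne_one χ ψ hχp hψp hne
  have h1 := hone χ ρ hq hχ hρ him hre
  have h2 := hone ψ ρ' hr hψ hρ' him' hre'
  have h3 := hland Q (q * r) θ x hQ (by
    rw [sq]
    exact Nat.mul_le_mul hq hr) hx0 hx1 ∅ (by simp)
  rw [Finset.sum_empty, zero_mul, Lf_of_ne hθ1] at h3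
  have h4 := one_plus_two χ ψ hχ2 hψ2 θ hθ hx0
  have h5 := hman x hx0 (by linarith)
  rw [Complex.neg_re, Complex.neg_re, Complex.neg_re] at h4
  have h6 : 2 * (1 / (21 / 20 * x)) ≤
      1 / x + (3 * (C1 * (Real.log Q + Real.log (1 / x))) + C2) := by linarith
  have h7 := mul_le_mul_of_nonneg_right h6 hx0.le
  have h8 : 2 * (1 / (21 / 20 * x)) * x = 40 / 21 := by
    field_simp
    norm_num
  have h9 : (1 / x + (3 * (C1 * (Real.log Q + Real.log (1 / x))) + C2)) * x =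
      1 + 3 * ((C1 * (Real.log Q + Real.log (1 / x)) + C2) * x) - 2 * C2 * x := by
    field_simp
    ring
  rw [h8, h9] at h7
  have h10 : 0 ≤ 2 * C2 * x := by positivity
  linarith

end Pool.Agent.Lib.GMV
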