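import Pool.Agent.Lib.GMV.ZLan
import Pool.Agent.Lib.GMV.ZFc

/-!
# GMV.ZFz (1.2 h): zero free region of `ζ`

PROOF. Constants: `L = log Q ≥ log 2`, `x = c/L`, `c ≤ 1/100` small (then `x ≤ 1/40`, `log (1/x) ≤ L + log (1/c)`), and
`K = C (log Q + log (1/x)) + C ≤ 1/(100 x)` (possible since `c log (1/c) → 0`), `C` large enough for `Lf_landau`, `VK.ZF.mangoldt_le`. The zero free region is `Re ρ > 1 - (c/20)/L`,
i.e. `δ := 1 - Re ρ < x/20`. For `ρ = β + iγ`, `s = 1 + x + iγ`: `s - ρ = x + δ`, `Re 1/(s-ρ) ≥ 1/(1.05 x)`, `mul ≥ 1` (`one_le_mul`).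
In all cases `-(Lf'/Lf)(s).re ≤ K - ∑_S mul Re 1/(s-ρ)`; for the principal character `Lf'/Lf = 1/(s-1) + L'/L`, so
`-(L'/L)(s).re ≤ K + Re 1/(s-1)` (take `S = ∅` or the zero).
`zf_zeta`: `|γ| ≤ 1`: `Lf 1` (modulus 1) has no zero in the compact set `Re = 1`, `|Im| ≤ 1`, so none in `1 - δ0 ≤ Re ≤ 1`, `|Im| ≤ 1` for some
`δ0 > 0` (compactness: the zeros in `[9/10, 1] x [-1, 1]` are finitely many, `Z 1 1`, all with `Re < 1`); `c ≤ δ0 log 2`. `|γ| ≥ 1`:
`three_four_one` with `χ = 1` mod `1` (`χ^2 = 1`), the pole terms are `Re 1/(s-1) ≤ 1`: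
`0 ≤ 3 (1/x + K) + 4 (K + 1 - 1/(1.05 x)) + K + 1`.
-/

set_option autoImplicit false

open Complex Finset

namespace Pool.Agent.Lib.GMV

namespace ZFzAux

/-- logarithmic derivative of `(s - 1) ζ(s)` -/
lemma logderiv_one {s : ℂ} (hs : s ≠ 1) (h1 : 1 ≤ s.re) :
    deriv (Lf (1 : DirichletCharacter ℂ 1)) s / Lf (1 : DirichletCharacter ℂ 1) s =
      1 / (s - 1) + deriv (DirichletCharacter.LFunction (1 : DirichletCharacter ℂ 1)) s /
        DirichletCharacter.LFunction (1 : DirichletCharacter ℂ 1) s := by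
  have hne : DirichletCharacter.LFunction (1 : DirichletCharacter ℂ 1) s ≠ 0 :=
    DirichletCharacter.LFunction_ne_zero_of_one_le_re _ (.inr hs) h1
  have hs0 : s - 1 ≠ 0 := sub_ne_zero.mpr hs
  have hd := DirichletCharacter.deriv_LFunctionTrivChar₁_apply_of_ne_one 1 hs
  rw [Lf_one_apply 1 hs, Lf_one, hd]
  have e : DirichletCharacter.LFunctionTrivChar 1 =
      DirichletCharacter.LFunction (1 : DirichletCharacter ℂ 1) := rfl
  rw [e]
  field_simp
  ring

/-- the pole term at height at least one -/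
lemma pole_re {x y : ℝ} (hy : 1 ≤ |y|) :
    (1 / ((((1 + x : ℝ) : ℂ) + y * I) - 1)).re ≤ 1 := by
  have h1 : ((((1 + x : ℝ) : ℂ) + y * I) - 1) = (x : ℂ) + y * I := by
    push_cast
    ring
  have h2 : 1 ≤ ‖((x : ℂ) + y * I)‖ := by
    have := Complex.abs_im_le_norm ((x : ℂ) + y * I)
    simp at this
    linarith
  rw [h1]
  refine (Complex.re_le_norm _).trans ?_
  rw [norm_div, norm_one]
  exact div_le_one_of_le₀ h2 (norm_nonneg _)

lemma low_zeros : ∃ d : ℝ, 0 < d ∧ ∀ ρ : ℂ, Lf (1 : DirichletCharacter ℂ 1) ρ = 0 →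
    |ρ.im| ≤ 1 → ρ.re ≤ 1 - d := by
  rcases (Z (1 : DirichletCharacter ℂ 1) 1).eq_empty_or_nonempty with h | h
  · refine ⟨1 / 10, by norm_num, fun ρ hρ him => ?_⟩
    by_contra hcon
    have : ρ ∈ Z (1 : DirichletCharacter ℂ 1) 1 :=
      mem_Z.mpr ⟨by linarith [not_le.mp hcon], him, hρ⟩
    rw [h] at this
    simp at this
  · obtain ⟨w, hw, hmax⟩ := Finset.exists_max_image _ (fun ρ : ℂ => ρ.re) h
    have hw1 : w.re < 1 := re_lt_one_of_mem_Z hw
    refine ⟨min (1 / 10) (1 - w.re), lt_min (by norm_num) (by linarith), fun ρ hρ him => ?_⟩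
    have m1 := min_le_left (1 / 10 : ℝ) (1 - w.re)
    have m2 := min_le_right (1 / 10 : ℝ) (1 - w.re)
    by_contra hcon
    have hcon' := not_le.mp hcon
    have hmem : ρ ∈ Z (1 : DirichletCharacter ℂ 1) 1 :=
      mem_Z.mpr ⟨by linarith, him, hρ⟩
    have h3 : ρ.re ≤ w.re := hmax ρ hmem
    linarith

end ZFzAux

open ZFcAux ZFzAux

theorem zf_zeta : ∃ c : ℝ, 0 < c ∧ ∀ (Q : ℕ) (ρ : ℂ), 2 ≤ Q →
    Lf (1 : DirichletCharacter ℂ 1) ρ = 0 → |ρ.im| ≤ (Q : ℝ) ^ 30 →
    ρ.re ≤ 1 - c / Real.log Q := by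
  obtain ⟨d, hd0, hd⟩ := low_zeros
  obtain ⟨C1, hC1, hland⟩ := Lf_landau
  obtain ⟨C2, hC2, hman⟩ := Pool.Agent.VK.ZF.mangoldt_le
  obtain ⟨a, ha0, ha1, ha⟩ := choice C1 (C2 + 1) hC1 (by linarith)
  have hl2 : 1 / 2 < Real.log 2 := by
    have := Real.log_two_gt_d9
    linarith
  refine ⟨min (a / 20) (d * Real.log 2), lt_min (by positivity) (by positivity), ?_⟩
  intro Q ρ hQ hρ him
  have hQR : (2 : ℝ) ≤ Q := by exact_mod_cast hQ
  have hL2 : Real.log 2 ≤ Real.log Q := Real.log_le_log (by norm_num) hQR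
  have hL0 : 0 < Real.log Q := by linarith
  by_cases hcase : |ρ.im| ≤ 1
  · have h1 := hd ρ hρ hcase
    have h2 : min (a / 20) (d * Real.log 2) / Real.log Q ≤ d := by
      rw [div_le_iff₀ hL0]
      exact (min_le_right _ _).trans (mul_le_mul_of_nonneg_left hL2 hd0.le)
    linarith
  · have hy1 : 1 ≤ |ρ.im| := (not_le.mp hcase).le
    have hK := ha (Real.log Q) hL2
    obtain ⟨x, hxdef⟩ : ∃ x, x = a / Real.log Q := ⟨_, rfl⟩
    rw [← hxdef] at hK
    have hx0 : 0 < x := by rw [hxdef]; positivity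
    have hx1 : x ≤ 1 / 40 := by
      rw [hxdef, div_le_iff₀ hL0]
      linarith
    have hmin : min (a / 20) (d * Real.log 2) / Real.log Q ≤ x / 20 := by
      have h1 : x / 20 = a / 20 / Real.log Q := by
        rw [hxdef]; ring
      rw [h1]
      exact div_le_div_of_nonneg_right (min_le_left _ _) hL0.le
    by_contra hcon
    have hre : 1 - x / 20 < ρ.re := by
      have := not_le.mp hcon
      linarith
    have hre1 : ρ.re < 1 := by
      by_contra hh
      exact Lf_ne_zero _ (not_lt.mp hh) hρ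
    obtain ⟨y, hy⟩ : ∃ y, y = ρ.im := ⟨_, rfl⟩
    rw [← hy] at him hy1
    have hsub : (((1 + x : ℝ) : ℂ) + y * I) - ρ = ((1 + x - ρ.re : ℝ) : ℂ) := by
      apply Complex.ext
      · simp
      · simp [hy]
    have hpos : 0 < 1 + x - ρ.re := by linarith
    -- the point `s1`
    have A1 := hland Q 1 (1 : DirichletCharacter ℂ 1) x y hQ
      (Nat.one_le_pow _ _ (by omega)) (by
        have : 0 ≤ (Q : ℝ) ^ 30 := by positivity
        linarith) hx0 hx1 {ρ} (by
      intro w hw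
      rw [Finset.mem_singleton] at hw
      subst hw
      rw [hsub, Complex.norm_real, Real.norm_eq_abs, abs_of_pos hpos]
      linarith)
    rw [Finset.sum_singleton, hsub] at A1
    have A2 : (1 / ((1 + x - ρ.re : ℝ) : ℂ)).re = 1 / (1 + x - ρ.re) := by
      rw [← Complex.ofReal_one, ← Complex.ofReal_div, Complex.ofReal_re]
    rw [A2] at A1
    have A3 : (1 : ℝ) ≤ (analyticOrderNatAt (Lf (1 : DirichletCharacter ℂ 1)) ρ : ℝ) := by
      exact_mod_cast one_le_mul (1 : DirichletCharacter ℂ 1) hρ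
    have A4 : 1 / (21 / 20 * x) ≤ 1 / (1 + x - ρ.re) :=
      one_div_le_one_div_of_le hpos (by linarith)
    have A5 : 0 < 1 / (1 + x - ρ.re) := by positivity
    have A6 : 1 / (21 / 20 * x) ≤
        (deriv (Lf (1 : DirichletCharacter ℂ 1)) (((1 + x : ℝ) : ℂ) + y * I) /
          Lf (1 : DirichletCharacter ℂ 1) (((1 + x : ℝ) : ℂ) + y * I)).re +
          C1 * (Real.log Q + Real.log (1 / x)) := by
      refine A4.trans (le_trans ?_ A1)
      nlinarith
    -- the point `s2`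
    have B1 := hland Q 1 (1 : DirichletCharacter ℂ 1) x (2 * y) hQ
      (Nat.one_le_pow _ _ (by omega)) (by
        rw [abs_mul, abs_two]
        linarith) hx0 hx1 ∅ (by simp)
    rw [Finset.sum_empty] at B1
    have r1 : 1 ≤ ((((1 + x : ℝ) : ℂ) + y * I)).re := by
      simp
      linarith
    have r2 : 1 ≤ ((((1 + x : ℝ) : ℂ) + (2 * y : ℝ) * I)).re := by
      simp
      linarith
    have n1 : (((1 + x : ℝ) : ℂ) + y * I) ≠ 1 := by
      intro h
      have := congrArg Complex.re h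
      simp at this
      linarith
    have n2 : (((1 + x : ℝ) : ℂ) + (2 * y : ℝ) * I) ≠ 1 := by
      intro h
      have := congrArg Complex.re h
      simp at this
      linarith
    rw [logderiv_one n1 r1, Complex.add_re] at A6
    rw [logderiv_one n2 r2, Complex.add_re] at B1
    have p1 := pole_re (x := x) hy1
    have p2 := pole_re (x := x) (y := 2 * y) (by
      rw [abs_mul, abs_two]
      linarith)
    have T1 := Pool.Agent.VK.ZF.three_four_one (1 : DirichletCharacter ℂ 1) hx0 y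
    rw [one_pow, neg_div, neg_div, Complex.neg_re, Complex.neg_re] at T1
    have H1 := hman x hx0 (by linarith)
    have F1 : 4 * (1 / (21 / 20 * x)) ≤
        3 * (1 / x) + (5 * (C1 * (Real.log Q + Real.log (1 / x))) + 3 * C2 + 5) := by
      linarith
    have F2 := mul_le_mul_of_nonneg_right F1 hx0.le
    have F3 : 4 * (1 / (21 / 20 * x)) * x = 80 / 21 := by
      field_simp
      norm_num
    have F4 : (3 * (1 / x) + (5 * (C1 * (Real.log Q + Real.log (1 / x))) + 3 * C2 + 5)) * x =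
        3 + 5 * ((C1 * (Real.log Q + Real.log (1 / x)) + (C2 + 1)) * x) - 2 * C2 * x := by
      field_simp
      ring
    rw [F3, F4] at F2
    have F5 : 0 ≤ 2 * C2 * x := by positivity
    linarith

end Pool.Agent.Lib.GMV
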