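import Pool.Agent.Lib.GMV.ZFb
import Pool.Agent.Lib.GMV.ZFz
import Pool.Agent.Lib.GMV.ZFc

/-!
# GMV.ZFr (0.7 h): the zero free region

PROOF. `zero_free`: modulus `1` (`q = 0`, `χ = 1`): `zf_zeta`. Otherwise `χ ≠ 1` (primitive of modulus `> 1`), `zf_complex`; `mul = 1`
by `zf_simple` with `S = {ρ}` and `one_le_mul`; uniqueness: the same `(q, χ)`: `zf_simple` with `S = {ρ, ρ'}`; different: `zf_pair`.
-/

set_option autoImplicit false

open Complex Finset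

namespace Pool.Agent.Lib.GMV

theorem zero_free : ∃ c1 : ℝ, 0 < c1 ∧ ∀ Q : ℕ, 2 ≤ Q →
    (∀ q < Q, ∀ χ : DirichletCharacter ℂ (q + 1), χ.IsPrimitive → ∀ ρ ∈ Z χ ((Q : ℝ) ^ 30),
      1 - c1 / Real.log Q < ρ.re → ρ.im = 0 ∧ mul χ ρ = 1 ∧ χ ^ 2 = 1 ∧ χ ≠ 1) ∧
    (∀ q < Q, ∀ q' < Q, ∀ (χ : DirichletCharacter ℂ (q + 1)) (χ' : DirichletCharacter ℂ (q' + 1)),
      χ.IsPrimitive → χ'.IsPrimitive → ∀ ρ ∈ Z χ ((Q : ℝ) ^ 30), ∀ ρ' ∈ Z χ' ((Q : ℝ) ^ 30),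
      1 - c1 / Real.log Q < ρ.re → 1 - c1 / Real.log Q < ρ'.re →
      (⟨q, χ, ρ⟩ : (q : ℕ) × (DirichletCharacter ℂ (q + 1) × ℂ)) = ⟨q', χ', ρ'⟩) := by
  classical
  obtain ⟨cz, hcz, hz⟩ := zf_zeta
  obtain ⟨cc, hcc, hc⟩ := zf_complex
  obtain ⟨cs, hcs, hs⟩ := zf_simple
  obtain ⟨cp, hcp, hp⟩ := zf_pair
  obtain ⟨c1, hc1, h1z, h1c, h1s, h1p⟩ : ∃ c1 : ℝ, 0 < c1 ∧ c1 ≤ cz ∧ c1 ≤ cc ∧ c1 ≤ cs ∧ c1 ≤ cp :=
    ⟨min (min cz cc) (min cs cp), lt_min (lt_min hcz hcc) (lt_min hcs hcp),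
      (min_le_left _ _).trans (min_le_left _ _), (min_le_left _ _).trans (min_le_right _ _),
      (min_le_right _ _).trans (min_le_left _ _), (min_le_right _ _).trans (min_le_right _ _)⟩
  refine ⟨c1, hc1, fun Q hQ => ?_⟩
  have hQR : (2 : ℝ) ≤ Q := by exact_mod_cast hQ
  have hL : 0 < Real.log Q := Real.log_pos (by linarith)
  have hmono : ∀ c : ℝ, c1 ≤ c → ∀ x : ℝ, 1 - c1 / Real.log Q < x → 1 - c / Real.log Q < x := by
    intro c hle x hx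
    have h : c1 / Real.log Q ≤ c / Real.log Q := div_le_div_of_nonneg_right hle hL.le
    linarith
  have key : ∀ q < Q, ∀ χ : DirichletCharacter ℂ (q + 1), χ.IsPrimitive → ∀ ρ ∈ Z χ ((Q : ℝ) ^ 30),
      1 - c1 / Real.log Q < ρ.re → ρ.im = 0 ∧ mul χ ρ = 1 ∧ χ ^ 2 = 1 ∧ χ ≠ 1 := by
    intro q hq χ hprim ρ hρ hre
    obtain ⟨_, him, h0⟩ := mem_Z.mp hρ
    have hne : χ ≠ 1 := by
      rintro rfl
      have hq0 : q = 0 := by
        have h : (1 : DirichletCharacter ℂ (q + 1)).conductor = q + 1 := hprim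
        rw [DirichletCharacter.conductor_one] at h
        omega
      subst hq0
      have h := hz Q ρ hQ h0 him
      have h' := hmono cz h1z _ hre
      linarith
    obtain ⟨hsq, him0⟩ := hc Q (q + 1) χ ρ hQ hq hne h0 him (hmono cc h1c _ hre)
    refine ⟨him0, ?_, hsq, hne⟩
    have h := hs Q (q + 1) χ hQ hq hne hsq {ρ} (by
      intro ρ' hρ'
      rw [Finset.mem_singleton] at hρ'
      rw [hρ']
      exact ⟨him0, hmono cs h1s _ hre⟩)
    rw [Finset.sum_singleton] at h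
    have h2 := one_le_mul χ h0
    omega
  refine ⟨key, ?_⟩
  intro q hq q' hq' χ χ' hprim hprim' ρ hρ ρ' hρ' hre hre'
  obtain ⟨him, _, hsq, hne⟩ := key q hq χ hprim ρ hρ hre
  obtain ⟨him', _, hsq', hne'⟩ := key q' hq' χ' hprim' ρ' hρ' hre'
  have h0 := (mem_Z.mp hρ).2.2
  have h0' := (mem_Z.mp hρ').2.2
  by_cases hE : (⟨q + 1, χ⟩ : (n : ℕ) × DirichletCharacter ℂ n) = ⟨q' + 1, χ'⟩
  · rw [Sigma.mk.injEq] at hE
    obtain ⟨e1, e2⟩ := hE
    have e3 : q = q' := by omega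
    subst e3
    have e4 : χ = χ' := eq_of_heq e2
    subst e4
    by_cases e5 : ρ = ρ'
    · subst e5
      rfl
    · exfalso
      have h := hs Q (q + 1) χ hQ hq hne hsq {ρ, ρ'} (by
        intro σ hσ
        rw [Finset.mem_insert, Finset.mem_singleton] at hσ
        rcases hσ with rfl | rfl
        · exact ⟨him, hmono cs h1s _ hre⟩
        · exact ⟨him', hmono cs h1s _ hre'⟩)
      rw [Finset.sum_pair e5] at h
      have h2 := one_le_mul χ h0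
      have h3 := one_le_mul χ h0'
      omega
  · exfalso
    exact hp Q (q + 1) (q' + 1) χ χ' ρ ρ' hQ hq hq' hne hne' hsq hsq' hprim hprim' hE h0 h0' him him'
      (hmono cp h1p _ hre) (hmono cp h1p _ hre')

end Pool.Agent.Lib.GMV
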