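import Pool.Agent.Lib.GMV.DKap
import Pool.Agent.Lib.GMV.DDet
import Pool.Agent.Lib.GMV.ZFr

/-!
# GMV.DFin (1.5 h): the Deuring-Heilbronn phenomenon (log-free)

PROOF. `c1` from `zero_free` (WLOG `c1 ≤ 1`), `δ = (1-β) log Q ≤ c0 := min c1/2, 1/700 (≤ 1/e)`; so `Re β > 1 - c1/log Q`, and (real, simple) `Quad x`
(`IsExc`), `β ∈ Z x.2 (Q^30)` (`β ≥ 9/10`: `c0/log Q ≤ 1/10`). Let `ρ ∈ Z x'.2 (Q^30)`, `(x', ρ) ≠ (x, β)`. By the uniqueness part of `zero_free`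
`Re ρ ≤ 1 - c1/log Q` (A), in particular `|1 - ρ| ≥ c1/log Q`. For `Q ≥ Q0` (maximum of the `Q0`s): `θ` from `kap`. If `x'.2 ≠ 1`, `x' ≠ x`:
`det_non`; otherwise `det_pri c1` (`x'.2 = 1` and primitive: modulus `1`, `Lf = (s-1) ζ(s)`, `ρ ≠ 1` by `re_lt_one_of_mem_Z`; or `x' = x`). Both give
`1/2 ≤ Q^(700 η) C δ`, `C = 2100 + 2/c1`, `η = 1 - Re ρ`: `700 η log Q ≥ log (1/(2 C δ))`. If `δ ≤ (2C)^(-2)` this is `≥ (1/2) log (1/δ)`:
`c4 ≤ 1/1400`. If `δ > (2C)^(-2)` : `log (1/δ) ≤ 2 log (2C)`, (A) gives the claim for `c4 ≤ c1/(2 log (2C))`. If `Q < Q0`: `one_sub_beta`: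
`δ ≥ c Q^(-2) log 2 ≥ c Q0^(-2) log 2`, so `log (1/δ) ≤ K` and (A) again.
-/

set_option autoImplicit false

open Finset

namespace Pool.Agent.Lib.GMV

namespace DFinAux

private theorem zeta_zero {x : CI} {ρ : ℂ} {T : ℝ} (hp : x.2.IsPrimitive) (h1 : x.2 = 1)
    (hρ : ρ ∈ Z x.2 T) : riemannZeta ρ = 0 := by
  have hre := re_lt_one_of_mem_Z hρ
  have hL := (mem_Z.mp hρ).2.2
  have hne : ρ ≠ 1 := by
    rintro rfl
    simp at hre
  obtain ⟨q, χ⟩ := x
  have hp' : χ.IsPrimitive := hp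
  have h1' : χ = 1 := h1
  have hL' : Lf χ ρ = 0 := hL
  rw [h1', DirichletCharacter.isPrimitive_def] at hp'
  have hc : DirichletCharacter.conductor (1 : DirichletCharacter ℂ (q + 1)) = 1 :=
    DirichletCharacter.conductor_one
  rw [hc] at hp'
  have hq : q = 0 := by omega
  subst hq
  rw [h1', Lf_one_apply _ hne] at hL'
  have h2 := (mul_eq_zero.mp hL').resolve_left (sub_ne_zero.mpr hne)
  have h3 : DirichletCharacter.LFunction (1 : DirichletCharacter ℂ 1) = riemannZeta :=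
    DirichletCharacter.LFunction_modOne_eq
  have h4 : DirichletCharacter.LFunction (1 : DirichletCharacter ℂ 1) ρ = 0 := h2
  rw [h3] at h4
  exact h4

/-- The final comparison. -/
private theorem final {L η δ C c1 : ℝ} (hδ : 0 < δ) (hC : 1 ≤ C) (hc1 : 0 < c1)
    (hA : c1 ≤ η * L) (Q : ℝ) (hQ : 0 < Q) (hQL : Real.log Q = L)
    (h : 1 / 2 ≤ Q ^ (700 * η) * (C * δ)) :
    1 / (700 + Real.log (2 * C) / c1) * Real.log (1 / δ) ≤ η * L := by
  have hB : 0 ≤ Real.log (2 * C) := Real.log_nonneg (by linarith)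
  have hD : 0 < 700 + Real.log (2 * C) / c1 := by positivity
  have h1 : 1 / δ ≤ Q ^ (700 * η) * (2 * C) := by
    rw [div_le_iff₀ hδ]
    linarith
  have h2 : Real.log (1 / δ) ≤ 700 * η * L + Real.log (2 * C) := by
    have h3 := Real.log_le_log (by positivity) h1
    rw [Real.log_mul (Real.rpow_pos_of_pos hQ _).ne' (by positivity), Real.log_rpow hQ, hQL] at h3
    exact h3
  have h4 : Real.log (2 * C) ≤ Real.log (2 * C) / c1 * (η * L) := by
    rw [div_mul_eq_mul_div, le_div_iff₀ hc1]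
    exact mul_le_mul_of_nonneg_left hA hB
  rw [one_div, inv_mul_le_iff₀ hD]
  calc Real.log (1 / δ) ≤ 700 * η * L + Real.log (2 * C) := h2
    _ ≤ 700 * η * L + Real.log (2 * C) / c1 * (η * L) := by linarith
    _ = (700 + Real.log (2 * C) / c1) * (η * L) := by ring

end DFinAux

open DFinAux

theorem heilbronn : ∃ c0 c4 : ℝ, 0 < c0 ∧ 0 < c4 ∧ ∀ (Q : ℕ) (x : CI) (β : ℝ), 2 ≤ Q →
    IsExc c0 Q x β → ∀ (x' : CI) (ρ : ℂ), x' ∈ Ch Q → ρ ∈ Z x'.2 ((Q : ℝ) ^ 30) →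
    (x' ≠ x ∨ ρ ≠ (β : ℂ)) →
    ρ.re ≤ 1 - c4 * Real.log (1 / ((1 - β) * Real.log Q)) / Real.log Q := by
  obtain ⟨c1, hc1, hzf⟩ := zero_free
  obtain ⟨Qk, hkap⟩ := kap
  obtain ⟨Qn, hnon⟩ := det_non
  obtain ⟨Qp, hpri⟩ := det_pri c1 hc1
  obtain ⟨cs, hcs, hsie⟩ := one_sub_beta
  obtain ⟨Q0, hQ0⟩ : ∃ Q0 : ℕ, Q0 = max (max Qk Qn) (max Qp 2) := ⟨_, rfl⟩
  obtain ⟨C, hC⟩ : ∃ C : ℝ, C = 2100 + 2 / c1 := ⟨_, rfl⟩
  have hC1 : 1 ≤ C := by
    have : 0 < 2 / c1 := by positivity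
    linarith
  obtain ⟨B2, hB2⟩ : ∃ B2 : ℝ, B2 = max 1 (Real.log ((Q0 : ℝ) ^ 2 / (cs * Real.log 2))) := ⟨_, rfl⟩
  have hB2pos : 0 < B2 := by
    rw [hB2]
    exact lt_of_lt_of_le one_pos (le_max_left _ _)
  have hBnn : 0 ≤ Real.log (2 * C) := Real.log_nonneg (by linarith)
  have hD : 0 < 700 + Real.log (2 * C) / c1 := by positivity
  have hlog2 : (0 : ℝ) < Real.log 2 := Real.log_pos (by norm_num)
  refine ⟨min (c1 / 2) (1 / 700), min (1 / (700 + Real.log (2 * C) / c1)) (c1 / B2),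
    lt_min (by positivity) (by norm_num), lt_min (by positivity) (by positivity), ?_⟩
  intro Q x β hQ hex x' ρ hx' hρ hne
  obtain ⟨hx, hx1, hx2, hLf, hβ1, hβ2⟩ := hex
  have hQr : (2 : ℝ) ≤ Q := by exact_mod_cast hQ
  have hQpos : (0 : ℝ) < Q := by linarith
  obtain ⟨L, hL⟩ : ∃ L : ℝ, L = Real.log Q := ⟨_, rfl⟩
  have hL2 : Real.log 2 ≤ L := by
    rw [hL]
    exact Real.log_le_log (by norm_num) hQr
  have hLpos : 0 < L := by linarith
  have hlog2' : (0.69 : ℝ) < Real.log 2 := by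
    have := Real.log_two_gt_d9
    linarith
  rw [← hL] at hβ1 ⊢
  have hβ3 : (1 - β) * L ≤ min (c1 / 2) (1 / 700) := by
    have h1 : 1 - β ≤ min (c1 / 2) (1 / 700) / L := by linarith
    rwa [le_div_iff₀ hLpos] at h1
  have hδ1 : (1 - β) * L ≤ c1 / 2 := hβ3.trans (min_le_left _ _)
  have hδ2 : (1 - β) * L ≤ 1 / 700 := hβ3.trans (min_le_right _ _)
  have hδ0 : 0 < (1 - β) * L := mul_pos (by linarith) hLpos
  have hβ9 : 9 / 10 ≤ β := by
    by_contra hcon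
    have h1 : 1 / 10 < 1 - β := by linarith
    have h2 : 1 / 10 * 0.69 < (1 - β) * L := by
      calc (1 / 10 * 0.69 : ℝ) < 1 / 10 * L := by linarith
        _ ≤ (1 - β) * L := mul_le_mul_of_nonneg_right h1.le hLpos.le
    norm_num at h2
    linarith
  have hβZ : (β : ℂ) ∈ Z x.2 ((Q : ℝ) ^ 30) := by
    rw [mem_Z]
    refine ⟨by simpa using hβ9, ?_, hLf⟩
    rw [Complex.ofReal_im, abs_zero]
    positivity
  have hxQ := (mem_Ch.mp hx)
  have hx'Q := (mem_Ch.mp hx')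
  have hq : x.1 < Q := hxQ.1
  have hq' : x'.1 < Q := hx'Q.1
  obtain ⟨hρ1, hρ2, hρ3⟩ := mem_Z.mp hρ
  have hρre := re_lt_one_of_mem_Z hρ
  -- (A)
  have hA : ρ.re ≤ 1 - c1 / L := by
    by_contra hcon
    have hcon' : 1 - c1 / L < ρ.re := not_le.mp hcon
    have hβc : 1 - c1 / L < (β : ℂ).re := by
      rw [Complex.ofReal_re]
      have h1 : 1 - β ≤ c1 / 2 / L := by rwa [le_div_iff₀ hLpos]
      have h2 : c1 / 2 / L < c1 / L := by
        apply div_lt_div_of_pos_right _ hLpos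
        linarith
      linarith
    rw [hL] at hcon' hβc
    have h3 := (hzf Q hQ).2 x'.1 hq' x.1 hq x'.2 x.2 hx'Q.2 hxQ.2 ρ hρ (β : ℂ) hβZ hcon' hβc
    obtain ⟨q, χ⟩ := x
    obtain ⟨q', χ'⟩ := x'
    obtain ⟨h4, h4h⟩ := Sigma.mk.inj h3
    have h4' : q' = q := h4
    subst h4'
    have h5 := eq_of_heq h4h
    have h6 : χ' = χ := congrArg Prod.fst h5
    have h7 : ρ = (β : ℂ) := congrArg Prod.snd h5
    rcases hne with h8 | h8
    · apply h8
      rw [h6]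
    · exact h8 h7
  have hA' : c1 ≤ (1 - ρ.re) * L := by
    have h1 : c1 / L ≤ 1 - ρ.re := by linarith
    rwa [div_le_iff₀ hLpos] at h1
  have hlamnn : 0 ≤ Real.log (1 / ((1 - β) * L)) := by
    apply Real.log_nonneg
    rw [le_div_iff₀ hδ0]
    linarith
  -- the claim in the form `c4 log (1/δ) ≤ η L`
  suffices hmain : min (1 / (700 + Real.log (2 * C) / c1)) (c1 / B2) *
      Real.log (1 / ((1 - β) * L)) ≤ (1 - ρ.re) * L by
    have h1 : min (1 / (700 + Real.log (2 * C) / c1)) (c1 / B2) *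
      Real.log (1 / ((1 - β) * L)) / L ≤ 1 - ρ.re := by
      rwa [div_le_iff₀ hLpos]
    linarith
  rcases lt_or_ge Q Q0 with hlt | hge
  · have hs := hsie Q x β hx ⟨hx1, hx2⟩ (by rwa [Lf_of_ne hx1] at hLf) hβ9 hβ2
    have hQ0pos : (0 : ℝ) < Q0 := by
      have : (Q : ℝ) < Q0 := by exact_mod_cast hlt
      linarith
    have h1 : Real.log (1 / ((1 - β) * L)) ≤ B2 := by
      rw [hB2]
      refine le_trans (Real.log_le_log (by positivity) ?_) (le_max_right _ _)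
      rw [div_le_div_iff₀ hδ0 (by positivity), one_mul]
      have h2 : cs * Real.log 2 ≤ ((1 - β) * (Q : ℝ) ^ 2) * L := by
        have h3 : cs ≤ (1 - β) * (Q : ℝ) ^ 2 := by
          rwa [← div_eq_mul_inv, div_le_iff₀ (by positivity)] at hs
        exact mul_le_mul h3 hL2 hlog2.le (mul_nonneg (by linarith) (by positivity))
      have h4 : (Q : ℝ) ^ 2 ≤ (Q0 : ℝ) ^ 2 := by
        have : (Q : ℝ) ≤ Q0 := by exact_mod_cast hlt.le
        exact pow_le_pow_left₀ hQpos.le this 2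
      calc cs * Real.log 2 ≤ ((1 - β) * (Q : ℝ) ^ 2) * L := h2
        _ = (Q : ℝ) ^ 2 * ((1 - β) * L) := by ring
        _ ≤ (Q0 : ℝ) ^ 2 * ((1 - β) * L) := mul_le_mul_of_nonneg_right h4 hδ0.le
    calc min (1 / (700 + Real.log (2 * C) / c1)) (c1 / B2) * Real.log (1 / ((1 - β) * L)) ≤
        c1 / B2 * Real.log (1 / ((1 - β) * L)) :=
          mul_le_mul_of_nonneg_right (min_le_right _ _) hlamnn
      _ ≤ c1 / B2 * B2 := mul_le_mul_of_nonneg_left h1 (by positivity)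
      _ = c1 := by field_simp
      _ ≤ (1 - ρ.re) * L := hA'
  · have hQk : Qk ≤ Q := by omega
    have hQn : Qn ≤ Q := by omega
    have hQp : Qp ≤ Q := by omega
    have hxL : DirichletCharacter.LFunction x.2 (β : ℂ) = 0 := by rwa [Lf_of_ne hx1] at hLf
    obtain ⟨θ, hθ1, hθ2, hθ3⟩ := hkap Q x β hQk hx ⟨hx1, hx2⟩ hxL hβ9 hβ2 (by rw [← hL]; exact hδ2)
    rw [← hL] at hθ3
    have hrp : 0 < (Q : ℝ) ^ (700 * (1 - ρ.re)) := Real.rpow_pos_of_pos hQpos _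
    have hsum : 1 / 2 ≤ (Q : ℝ) ^ (700 * (1 - ρ.re)) * (C * ((1 - β) * L)) := by
      by_cases hcase : x' ≠ x ∧ x'.2 ≠ 1
      · have h1 := hnon Q x x' ρ θ hQn hx hx' ⟨hx1, hx2⟩ hcase.1 hcase.2 hρ1 hρre.le hρ2
          (by rwa [Lf_of_ne hcase.2] at hρ3) hθ1
        refine h1.trans (mul_le_mul_of_nonneg_left (hθ3.trans ?_) hrp.le)
        refine mul_le_mul_of_nonneg_right ?_ hδ0.le
        rw [hC]
        have : 0 < 2 / c1 := by positivity
        linarith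
      · have hzero : riemannZeta ρ = 0 ∨ DirichletCharacter.LFunction x.2 ρ = 0 := by
          by_cases h1 : x'.2 = 1
          · exact Or.inl (zeta_zero hx'Q.2 h1 hρ)
          · have h2 : x' = x := by
              by_contra h3
              exact hcase ⟨h3, h1⟩
            right
            subst h2
            rwa [Lf_of_ne h1] at hρ3
        have hdist : c1 / Real.log Q ≤ ‖1 - ρ‖ := by
          rw [← hL]
          have h1 : (1 - ρ).re ≤ ‖1 - ρ‖ := Complex.re_le_norm _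
          rw [Complex.sub_re, Complex.one_re] at h1
          linarith
        have h1 := hpri Q x ρ θ hQp hx ⟨hx1, hx2⟩ hρ1 hρre.le hρ2 hdist hzero hθ1
        refine h1.trans (mul_le_mul_of_nonneg_left ?_ hrp.le)
        have h2 : |QV (wq x) θ (Q ^ 30) * L1 x| * (Real.log Q / c1) ≤
            2 * (1 - β) * (L / c1) := by
          rw [← hL]
          exact mul_le_mul_of_nonneg_right hθ2 (by positivity)
        rw [hC]
        calc ∑ n ∈ Ioc 1 (Q ^ 700), (thw θ n) ^ 2 * lmb x n / n +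
              |QV (wq x) θ (Q ^ 30) * L1 x| * (Real.log Q / c1) ≤
              2100 * ((1 - β) * L) + 2 * (1 - β) * (L / c1) := add_le_add hθ3 h2
          _ = (2100 + 2 / c1) * ((1 - β) * L) := by
              field_simp
    have hfin := final hδ0 hC1 hc1 hA' (Q : ℝ) hQpos hL.symm hsum
    refine le_trans (mul_le_mul_of_nonneg_right (min_le_left _ _) hlamnn) hfin

end Pool.Agent.Lib.GMV
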