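import Pool.Agent.Lib.GMV.PFin
import Pool.Agent.Lib.GMV.DFin
import Pool.Agent.Lib.GMV.ZFr

/-!
# GMV.PosFin (0.5 h): all `X`, final forms

PROOF. `zero_free` gives `ZFree c1` (the same statement), `heilbronn` gives `DHz c0' c4`. `pos_sharp` is `allX`. `posi`: `m ≥ X^(-η/2)`, `SI (c0 a) ≥ c_k`
(`si_ge`), and `κ0 c_k X^(1-η/2)/(log X)^(r+1) ≥ X^(1-η)` for `X ≥ X0`.
-/

set_option autoImplicit false

open Finset Filter

namespace Pool.Agent.Lib.GMV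

open Pool.Agent.HLB Pool.Agent.HLT Pool.Agent.HLR

namespace PosFinAux

/-- Growth. -/
theorem growth (n : ℕ) {η A : ℝ} (hη : 0 < η) (hA : 0 < A) : ∃ X0 : ℕ, 3 ≤ X0 ∧ ∀ X : ℕ,
    X0 ≤ X → Real.log X ^ n ≤ A * (X : ℝ) ^ η := by
  have h := isLittleO_log_rpow_rpow_atTop (n : ℝ) hη
  have h2 := (h.bound hA)
  have h3 : ∀ᶠ X : ℕ in atTop, ‖Real.log X ^ (n : ℝ)‖ ≤ A * ‖(X : ℝ) ^ η‖ :=
    tendsto_natCast_atTop_atTop.eventually h2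
  obtain ⟨X0, hX0⟩ := eventually_atTop.1 h3
  refine ⟨max X0 3, le_max_right _ _, fun X hX => ?_⟩
  have h4 := hX0 X ((le_max_left _ _).trans hX)
  have hX3 : (3 : ℝ) ≤ X := by
    have : 3 ≤ X := (le_max_right _ _).trans hX
    exact_mod_cast this
  have hl : 0 ≤ Real.log X := Real.log_nonneg (by linarith)
  rw [Real.rpow_natCast, Real.norm_eq_abs, Real.norm_eq_abs, abs_of_nonneg (pow_nonneg hl n),
    abs_of_nonneg (Real.rpow_nonneg (by linarith) _)] at h4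
  exact h4

end PosFinAux

open PosFinAux

open scoped Classical in
theorem pos_sharp (r : ℕ) (hr : 1 ≤ r) :
    ∃ δ κ0 : ℝ, 0 < δ ∧ 0 < κ0 ∧ ∀ η : ℝ, 0 < η → ∃ X0 : ℕ, ∀ X : ℕ, X0 ≤ X →
    ∃ m : ℝ, (X : ℝ) ^ (-η) ≤ m ∧ m ≤ 1 ∧ ∃ F : Finset (Fin r → ℕ),
      (F.card : ℝ) ≤ (X : ℝ) ^ ((r : ℝ) - δ) ∧
      ∀ a ∈ Tup r (range (X + 1)), a ∉ F → Function.Injective (c0 a) →
      (∀ p : ℕ, p.Prime → nuI (c0 a) p < p) →
      κ0 * m * (SI (c0 a) * X / Real.log X ^ (r + 1)) ≤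
        (((Icc 1 X).filter (fun n => ∀ i, (n + c0 a i).Prime)).card : ℝ) := by
  obtain ⟨c1, hc1, hZ⟩ := zero_free
  obtain ⟨c0', c4, h0, h4, hD⟩ := heilbronn
  exact allX c1 c0' c4 hc1 hZ h0 h4 hD r hr

open scoped Classical in
theorem posi (r : ℕ) (hr : 1 ≤ r) : ∃ δ : ℝ, 0 < δ ∧ ∀ η : ℝ, 0 < η → ∃ X0 : ℕ, ∀ X : ℕ,
    X0 ≤ X → ∃ F : Finset (Fin r → ℕ), (F.card : ℝ) ≤ (X : ℝ) ^ ((r : ℝ) - δ) ∧
      ∀ a ∈ Tup r (range (X + 1)), a ∉ F → Function.Injective (c0 a) →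
      (∀ p : ℕ, p.Prime → nuI (c0 a) p < p) →
      (X : ℝ) ^ (1 - η) ≤ (((Icc 1 X).filter (fun n => ∀ i, (n + c0 a i).Prime)).card : ℝ) := by
  obtain ⟨δ, κ0, hδ, hκ, H⟩ := pos_sharp r hr
  obtain ⟨c, hc, hsi⟩ := si_ge (r + 1) (by omega)
  refine ⟨δ, hδ, fun η hη => ?_⟩
  obtain ⟨X0, hX0⟩ := H (η / 2) (by positivity)
  obtain ⟨X1, hX1, hg⟩ := growth (r + 1) (η := η / 2) (A := κ0 * c) (by positivity) (by positivity)
  refine ⟨max X0 X1, fun X hX => ?_⟩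
  obtain ⟨m, hm1, -, F, hF, hFa⟩ := hX0 X ((le_max_left _ _).trans hX)
  refine ⟨F, hF, fun a ha haF hinj hadm => ?_⟩
  refine le_trans ?_ (hFa a ha haF hinj hadm)
  have hgX := hg X ((le_max_right _ _).trans hX)
  have hX3 : (3 : ℝ) ≤ X := by
    have : 3 ≤ X := hX1.trans ((le_max_right _ _).trans hX)
    exact_mod_cast this
  have hXp : (0 : ℝ) < X := by linarith
  have hlog : 0 < Real.log X := Real.log_pos (by linarith)
  have hs := hsi (c0 a) hinj hadm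
  have hlp : 0 < Real.log X ^ (r + 1) := pow_pos hlog _
  have h1 : (X : ℝ) ^ (1 - η) = (X : ℝ) ^ (-(η / 2)) * ((X : ℝ) / (X : ℝ) ^ (η / 2)) := by
    rw [show (1 : ℝ) - η = -(η / 2) + (1 - η / 2) by ring, Real.rpow_add hXp,
      Real.rpow_sub hXp, Real.rpow_one]
  have h2 : (X : ℝ) / (X : ℝ) ^ (η / 2) ≤ κ0 * c * (X / Real.log X ^ (r + 1)) := by
    have hxe : 0 < (X : ℝ) ^ (η / 2) := Real.rpow_pos_of_pos hXp _
    rw [← mul_div_assoc, div_le_div_iff₀ hxe hlp]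
    calc (X : ℝ) * Real.log X ^ (r + 1) ≤ X * (κ0 * c * (X : ℝ) ^ (η / 2)) :=
          mul_le_mul_of_nonneg_left hgX hXp.le
      _ = κ0 * c * X * (X : ℝ) ^ (η / 2) := by ring
  rw [h1]
  have h3 : 0 ≤ (X : ℝ) ^ (-(η / 2)) := Real.rpow_nonneg hXp.le _
  have h4 : 0 < (X : ℝ) / Real.log X ^ (r + 1) := div_pos hXp hlp
  calc (X : ℝ) ^ (-(η / 2)) * ((X : ℝ) / (X : ℝ) ^ (η / 2))
      ≤ (X : ℝ) ^ (-(η / 2)) * (κ0 * c * (X / Real.log X ^ (r + 1))) :=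
        mul_le_mul_of_nonneg_left h2 h3
    _ ≤ m * (κ0 * c * (X / Real.log X ^ (r + 1))) :=
        mul_le_mul_of_nonneg_right hm1 (by positivity)
    _ ≤ m * (κ0 * SI (c0 a) * (X / Real.log X ^ (r + 1))) := by
        have hm : 0 ≤ m := h3.trans hm1
        gcongr
    _ = κ0 * m * (SI (c0 a) * X / Real.log X ^ (r + 1)) := by ring

end Pool.Agent.Lib.GMV
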