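import Pool.Agent.Lib.GMV.PFree
import Pool.Agent.Lib.GMV.Norm

/-!
# GMV.PNorm (1.5 h): a lower bound for almost all normalised tuples

PROOF. `freeP` with `k = r+1` at `2X`, `H = ⌊X Q^(-1/10)⌋`, `y = X - H`. `Bad` = the `a ∈ Tup r (range (X+1))` with `c0 a` injective such that for all
`h1 ∈ [1,H]` the tuple `h1 + c0 a i` (in `[1,2X]`) is in the exceptional set of `freeP`; `(h1, a) ↦ h` is injective, so
`|Bad| H ≤ (2X)^(r+1) Q^(-1/2)` and `|Bad| ≤ X^r Q^(-1/5)`. `F = Bad`. For `a ∉ F`, `c0 a` injective, one good `h1`: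
`SI h (m^(r+1) y/2 - ..) - .. ≤ ∑_{n ≤ y} ∏ W (2X) Q (n + h1 + c0 a i)`, `SI h = SI (c0 a)` (`SI_shift`), `y = X - H ≥ X/2`. With `n' = n + h1 ≤ X`:
`W (2X) Q m ≤ lp m`, so every nonzero term has all `n' + c0 a i` prime and is `≤ log(2X)^(r+1)`: the sum is `≤ #{n' ≤ X : ...} log(4X)^(r+1)`. (The constant
`C` is doubled: `X` there is `2X`.)
-/

set_option autoImplicit false

open Finset Filter

namespace Pool.Agent.Lib.GMV

open Pool.Agent.HLB Pool.Agent.HLT Pool.Agent.HLR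

namespace PNormAux

open scoped Classical in
/-- The sum over shifted primes is at most the number of tuples. -/
theorem up (r X H t y : ℕ) (ht1 : 1 ≤ t) (htH : t ≤ H) (hy : y + H ≤ X) (a : Fin r → ℕ)
    (hle : ∀ i, c0 a i ≤ X) (f : ℕ → ℝ) (hf0 : ∀ n, 0 ≤ f n) (hf1 : ∀ n, f n ≤ HLT.lp n) :
    ∑ n ∈ Icc 1 y, ∏ i, f (n + (t + c0 a i)) ≤
      (((Icc 1 X).filter (fun n => ∀ i, (n + c0 a i).Prime)).card : ℝ) *
        Real.log (4 * X) ^ (r + 1) := by
  set S := (Icc 1 X).filter (fun n => ∀ i, (n + c0 a i).Prime) with hS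
  have hterm : ∀ n ∈ Icc 1 y, ∏ i, f (n + (t + c0 a i)) ≤
      if (n + t) ∈ S then Real.log (4 * X) ^ (r + 1) else 0 := by
    intro n hn
    rw [mem_Icc] at hn
    have hX1 : 1 ≤ X := by omega
    have hX1' : (1 : ℝ) ≤ X := by exact_mod_cast hX1
    by_cases hp : ∀ i, (n + t + c0 a i).Prime
    · have hmem : n + t ∈ S := by
        rw [hS, mem_filter, mem_Icc]
        exact ⟨⟨by omega, by omega⟩, hp⟩
      rw [if_pos hmem]
      calc ∏ i, f (n + (t + c0 a i)) ≤ ∏ _i : Fin (r + 1), Real.log (4 * X) := by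
            refine Finset.prod_le_prod (fun i _ => hf0 _) fun i _ => (hf1 _).trans ?_
            have h1 : n + (t + c0 a i) = n + t + c0 a i := by ring
            rw [h1, HLT.lp, if_pos (hp i)]
            refine Real.log_le_log ?_ ?_
            · have : 0 < n + t + c0 a i := by omega
              exact_mod_cast this
            · have h2 := hle i
              have h3 : n + t + c0 a i ≤ 4 * X := by omega
              exact_mod_cast h3
        _ = Real.log (4 * X) ^ (r + 1) := by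
            rw [Finset.prod_const, Finset.card_univ, Fintype.card_fin]
    · push Not at hp
      obtain ⟨i, hi⟩ := hp
      have h0 : f (n + (t + c0 a i)) = 0 := by
        refine le_antisymm ?_ (hf0 _)
        refine (hf1 _).trans (le_of_eq ?_)
        have h1 : n + (t + c0 a i) = n + t + c0 a i := by ring
        rw [h1, HLT.lp, if_neg hi]
      rw [Finset.prod_eq_zero (Finset.mem_univ i) h0]
      split_ifs
      · have h4 : (1 : ℝ) ≤ 4 * X := by linarith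
        exact pow_nonneg (Real.log_nonneg h4) _
      · exact le_rfl
  refine (Finset.sum_le_sum hterm).trans ?_
  rw [← Finset.sum_filter, Finset.sum_const, nsmul_eq_mul]
  have hlog : 0 ≤ Real.log (4 * X) ^ (r + 1) := by
    rcases Nat.eq_zero_or_pos X with h0 | h0
    · rw [h0]; simp
    · have hX1' : (1 : ℝ) ≤ X := by exact_mod_cast h0
      exact pow_nonneg (Real.log_nonneg (by linarith)) _
  refine mul_le_mul_of_nonneg_right ?_ hlog
  have hcard : ((Icc 1 y).filter (fun n => n + t ∈ S)).card ≤ S.card := by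
    refine Finset.card_le_card_of_injOn (fun n => n + t) ?_ ?_
    · intro n hn
      rw [Finset.mem_coe, mem_filter] at hn
      exact hn.2
    · intro p _ q _ hpq
      exact Nat.add_right_cancel hpq
  exact_mod_cast hcard

end PNormAux

open scoped Classical in
theorem normP (r : ℕ) (hr : 1 ≤ r) (B : ℝ) : ∃ c C : ℝ, 0 < c ∧ 0 < C ∧ ∃ X0 : ℕ,
    ∀ X Q : ℕ, X0 ≤ X → Rg c (2 * X) Q → ∀ b : CI → ℝ,
    (∀ x ∈ Ch Q, ∀ n, ‖Mc (2 * X) Q x n‖ ≤ b x) → ∑ x ∈ Ch Q, b x ≤ B →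
    ∀ (xe : CI) (E m : ℝ), xe ∈ Ch Q → xe.2 ≠ 1 → xe.2 ^ 2 = 1 →
    0 ≤ E → 0 ≤ m → m ≤ 1 → ∑ x ∈ Ch Q \ {one, xe}, b x ≤ E →
    (∀ n : ℕ, 3 * (2 * X) ≤ n * Q → n * Q + 2 * X ≤ 2 * (2 * X) * Q →
      m ≤ (Mc (2 * X) Q one n).re - |(Mc (2 * X) Q xe n).re|) →
    ∃ F : Finset (Fin r → ℕ), (F.card : ℝ) ≤ (X : ℝ) ^ r * (Q : ℝ) ^ (-(1 / 5 : ℝ)) ∧
      ∀ a ∈ Tup r (range (X + 1)), a ∉ F → Function.Injective (c0 a) →
      SI (c0 a) * (m ^ (r + 1) * X / 4 - C * X * (E + 1 / Q)) - X * (Q : ℝ) ^ (-(1 / 30 : ℝ)) ≤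
        (((Icc 1 X).filter (fun n => ∀ i, (n + c0 a i).Prime)).card : ℝ) *
          Real.log (4 * X) ^ (r + 1) := by
  obtain ⟨c, C, hc, hC, X1, hfree⟩ := freeP (r + 1) (by omega) B
  obtain ⟨Q3, hQ3a, hQ3⟩ := NormAux.asy 0 (3 * 2 ^ (r + 2))
  obtain ⟨X3, hX3⟩ := NormAux.thr Q3
  refine ⟨min c 1, 2 * C, lt_min hc one_pos, by positivity, X1 + X3 + 1,
    fun X Q hX hR b hb hbB xe E m hxe hxe1 hxe2 hE0 hm0 hm1 hE hone => ?_⟩
  have hN1 : (1 : ℝ) ≤ ((2 * X : ℕ) : ℝ) := by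
    have : 1 ≤ 2 * X := by omega
    exact_mod_cast this
  have hRc : Rg c (2 * X) Q :=
    ⟨hR.1, hR.2.trans (Real.rpow_le_rpow_of_exponent_le hN1 (min_le_left _ _))⟩
  have hQN : (Q : ℝ) ≤ ((2 * X : ℕ) : ℝ) := by
    have := hR.2.trans (Real.rpow_le_rpow_of_exponent_le hN1 (min_le_right _ _))
    rwa [Real.rpow_one] at this
  have hQ3' : Q3 ≤ (Q : ℝ) := (hX3 (2 * X) (by omega)).trans hR.1
  have hbig : 3 * 2 ^ (r + 2) ≤ (Q : ℝ) ^ (1 / 1000 : ℝ) := by
    have := hQ3 Q hQ3'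
    rwa [pow_zero, mul_one] at this
  have hfr := hfree (2 * X) Q (by omega) hRc b hb hbB xe E m hxe hxe1 hxe2 hE0 hm0 hm1 hE hone
  set u : ℝ := (Q : ℝ) ^ (1 / 1000 : ℝ) with hu
  have hQ0 : (0 : ℝ) ≤ Q := Nat.cast_nonneg Q
  have hu8 : 12 ≤ u := by
    have : (2 : ℝ) ^ 2 ≤ 2 ^ (r + 2) := pow_le_pow_right₀ (by norm_num) (by omega)
    linarith
  have hu0 : 0 < u := by linarith
  have hpow : ∀ n : ℕ, (Q : ℝ) ^ ((n : ℝ) / 1000) = u ^ n := by
    intro n
    rw [hu, ← Real.rpow_natCast, ← Real.rpow_mul hQ0]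
    congr 1
    ring
  have hneg : ∀ n : ℕ, (Q : ℝ) ^ (-((n : ℝ) / 1000)) = 1 / u ^ n := by
    intro n
    rw [Real.rpow_neg hQ0, hpow, one_div]
  have e25 : (Q : ℝ) ^ (-(1 / 25 : ℝ)) = 1 / u ^ 40 := by
    rw [← hneg 40]; norm_num
  have e2 : (Q : ℝ) ^ (-(1 / 2 : ℝ)) = 1 / u ^ 500 := by
    rw [← hneg 500]; norm_num
  have e5 : (Q : ℝ) ^ (-(1 / 5 : ℝ)) = 1 / u ^ 200 := by
    rw [← hneg 200]; norm_num
  have eQ : (Q : ℝ) = u ^ 1000 := by
    rw [← hpow 1000]; norm_num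
  have hQ1 : (1 : ℝ) ≤ Q := by rw [eQ]; exact one_le_pow₀ (by linarith)
  have e30 : 1 / u ^ 39 ≤ (Q : ℝ) ^ (-(1 / 30 : ℝ)) := by
    rw [← hneg 39]
    exact Real.rpow_le_rpow_of_exponent_le hQ1 (by norm_num)
  rw [e25] at hfr
  rw [e2] at hfr
  rw [e5]
  rw [eQ] at hQN
  have hX' : 1 ≤ X := by omega
  have hX1 : (1 : ℝ) ≤ X := by exact_mod_cast hX'
  have hX0 : (0 : ℝ) < X := by linarith
  set N : ℕ := 2 * X with hN
  have hNr : (N : ℝ) = 2 * X := by rw [hN]; push_cast; ring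
  have hupow : ∀ {m n : ℕ}, m ≤ n → u ^ m ≤ u ^ n := fun hmn =>
    pow_le_pow_right₀ (by linarith) hmn
  -- the shifts
  set H : ℕ := ⌊(X : ℝ) / u ^ 100⌋₊ with hH
  have hH1 : (H : ℝ) ≤ X / u ^ 100 := Nat.floor_le (by positivity)
  have hx2 : (2 : ℝ) ≤ X / u ^ 100 := by
    rw [le_div_iff₀ (by positivity)]
    have h1 : u ^ 1000 ≤ 2 * X := by rw [← hNr]; exact hQN
    have h2 : (2 * 2 : ℝ) ≤ u ^ 900 := by
      calc (2 * 2 : ℝ) ≤ u ^ 1 := by rw [pow_one]; linarith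
        _ ≤ u ^ 900 := hupow (by norm_num)
    have h3 : u ^ 1000 = u ^ 900 * u ^ 100 := by rw [← pow_add]
    have h4 : 0 < u ^ 100 := by positivity
    nlinarith
  have hH2 : (X : ℝ) / u ^ 100 / 2 ≤ H := by
    have := Nat.sub_one_lt_floor ((X : ℝ) / u ^ 100)
    rw [← hH] at this
    linarith
  have hHX2 : (H : ℝ) ≤ X / 2 := by
    refine hH1.trans ?_
    refine div_le_div_of_nonneg_left hX0.le (by norm_num) ?_
    calc (2 : ℝ) ≤ u ^ 1 := by rw [pow_one]; linarith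
      _ ≤ u ^ 100 := hupow (by norm_num)
  have hHX : H ≤ X := by
    have : (H : ℝ) ≤ X := by linarith
    exact_mod_cast this
  set y : ℕ := X - H with hy
  have hyH : y + H = X := by omega
  have hyr : (X : ℝ) / 2 ≤ y := by
    have : (y : ℝ) + H = X := by exact_mod_cast hyH
    linarith
  set F0 : Finset (Fin (r + 1) → ℕ) := (Tup (r + 1) (Icc 1 N)).filter (fun h =>
      Function.Injective h ∧ ∑ n ∈ Icc 1 y, ∏ i, W N Q (n + h i) <
        SI h * (m ^ (r + 1) * y / 2 - C * N * (E + 1 / Q)) - N * (1 / u ^ 40)) with hF0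
  have hF0c : (F0.card : ℝ) ≤ (N : ℝ) ^ (r + 1) * (1 / u ^ 500) := hfr y (by omega)
  set Bad : Finset (Fin r → ℕ) := (Tup r (range (X + 1))).filter
    (fun a => ∀ t ∈ Icc 1 H, (fun i => t + c0 a i) ∈ F0) with hBad
  have hBadc : H * Bad.card ≤ F0.card := NormAux.c0_inj_pair fun a ha t ht =>
    (Finset.mem_filter.mp ha).2 t ht
  refine ⟨Bad, ?_, ?_⟩
  · have h1 : (H : ℝ) * Bad.card ≤ (N : ℝ) ^ (r + 1) * (1 / u ^ 500) := by
      have : ((H * Bad.card : ℕ) : ℝ) ≤ F0.card := by exact_mod_cast hBadc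
      push_cast at this
      exact this.trans hF0c
    have h2 : (X : ℝ) / u ^ 100 / 2 * Bad.card ≤ H * Bad.card :=
      mul_le_mul_of_nonneg_right hH2 (Nat.cast_nonneg _)
    have h3 := h2.trans h1
    rw [hNr] at h3
    have h4 : (Bad.card : ℝ) ≤ 2 ^ (r + 2) * (X : ℝ) ^ r / u ^ 400 := by
      have h5 : (X : ℝ) / u ^ 100 / 2 * Bad.card ≤
          (X : ℝ) / u ^ 100 / 2 * (2 ^ (r + 2) * (X : ℝ) ^ r / u ^ 400) := by
        refine h3.trans (le_of_eq ?_)
        rw [mul_pow, pow_succ (X : ℝ) r, pow_succ (2 : ℝ) (r + 1)]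
        field_simp
      exact le_of_mul_le_mul_left h5 (by positivity)
    refine h4.trans ?_
    rw [div_le_iff₀ (by positivity)]
    have h6 : (X : ℝ) ^ r * (1 / u ^ 200) * u ^ 400 = (X : ℝ) ^ r * u ^ 200 := by
      have : u ^ 400 = u ^ 200 * u ^ 200 := by rw [← pow_add]
      rw [this]
      field_simp
    rw [h6]
    have h7 : (2 ^ (r + 2) : ℝ) ≤ u ^ 200 := by
      have h8 : (2 ^ (r + 2) : ℝ) ≤ 3 * 2 ^ (r + 2) := by
        have : (0 : ℝ) < 2 ^ (r + 2) := by positivity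
        linarith
      refine h8.trans (hbig.trans ?_)
      calc u = u ^ 1 := (pow_one u).symm
        _ ≤ u ^ 200 := hupow (by norm_num)
    calc 2 ^ (r + 2) * (X : ℝ) ^ r ≤ u ^ 200 * (X : ℝ) ^ r := by gcongr
      _ = (X : ℝ) ^ r * u ^ 200 := mul_comm _ _
  · intro a ha haB hi
    have h1 : ∃ t ∈ Icc 1 H, (fun i => t + c0 a i) ∉ F0 := by
      by_contra hcon
      push Not at hcon
      exact haB (Finset.mem_filter.mpr ⟨ha, hcon⟩)
    obtain ⟨t, ht, htF⟩ := h1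
    rw [mem_Icc] at ht
    have hle : ∀ i, c0 a i ≤ X := by
      intro i
      refine Fin.cases ?_ ?_ i
      · simp [c0]
      · intro j
        have := (mem_Tup.mp ha) j
        rw [mem_range] at this
        simp only [c0, Fin.cons_succ]
        omega
    have htT : (fun i => t + c0 a i) ∈ Tup (r + 1) (Icc 1 N) := by
      rw [mem_Tup]
      intro i
      have := hle i
      rw [mem_Icc]
      omega
    have hti : Function.Injective (fun i => t + c0 a i) := by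
      intro i j hij
      exact hi (Nat.add_left_cancel hij)
    have hA : SI (fun i => t + c0 a i) * (m ^ (r + 1) * y / 2 - C * N * (E + 1 / Q)) -
        N * (1 / u ^ 40) ≤ ∑ n ∈ Icc 1 y, ∏ i, W N Q (n + (t + c0 a i)) := by
      by_contra hcon
      push Not at hcon
      exact htF (Finset.mem_filter.mpr ⟨htT, hti, hcon⟩)
    have hSIs : SI (fun i => t + c0 a i) = SI (c0 a) := SI_shift _ _
    rw [hSIs] at hA
    have hSI0 : 0 ≤ SI (c0 a) := SI_nonneg _ hi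
    have hU := PNormAux.up r X H t y ht.1 ht.2 hyH.le a hle (fun n => W N Q n)
      (fun n => W_nonneg _ _ _) (fun n => W_le _ _ _)
    refine le_trans ?_ (hA.trans hU)
    have hmk : 0 ≤ m ^ (r + 1) := pow_nonneg hm0 _
    have h2 : m ^ (r + 1) * X / 4 ≤ m ^ (r + 1) * y / 2 := by nlinarith
    have h3 : C * N * (E + 1 / Q) = 2 * C * X * (E + 1 / Q) := by rw [hNr]; ring
    have h4 : SI (c0 a) * (m ^ (r + 1) * X / 4 - 2 * C * X * (E + 1 / Q)) ≤
        SI (c0 a) * (m ^ (r + 1) * y / 2 - C * N * (E + 1 / Q)) := by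
      rw [h3]
      exact mul_le_mul_of_nonneg_left (by linarith) hSI0
    have h5 : (N : ℝ) * (1 / u ^ 40) ≤ X * (Q : ℝ) ^ (-(1 / 30 : ℝ)) := by
      rw [hNr]
      have h6 : 2 * (X : ℝ) * (1 / u ^ 40) ≤ X * (1 / u ^ 39) := by
        have h7 : u ^ 40 = u ^ 39 * u := by rw [← pow_succ]
        rw [h7]
        have h8 : 2 * (X : ℝ) * (1 / (u ^ 39 * u)) = X * (1 / u ^ 39) * (2 / u) := by
          field_simp
        rw [h8]
        have h9 : 2 / u ≤ 1 := by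
          rw [div_le_one hu0]; linarith
        have h10 : 0 ≤ (X : ℝ) * (1 / u ^ 39) := by positivity
        nlinarith
      exact h6.trans (mul_le_mul_of_nonneg_left e30 hX0.le)
    linarith

end Pool.Agent.Lib.GMV
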