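import Pool.Agent.Lib.GMV.PerMean
import Pool.Agent.Lib.HLT.Correl

/-!
# GMV.Compl: the complete local model (paper 4.3)

PROOF. `∑_{S ∈ Sa Y r} ∏_{p∈S} wp p n = ∏_{p ≤ Y, p ∤ r} (1 + wp p n)` (`Finset.prod_one_add`), `1 + wp p n = 0` if `p ∣ n` and `p/(p-1)`
otherwise; `rho x = ∏_{p ∣ r} p/(p-1)`; if `cv x n ≠ 0` then `n` is coprime to `r`. As the primes dividing `r ≤ Y` are `≤ Y`:
`rho x conj(cv x n) ∑_{S ∈ Sa Y r} ∏ wp p n = conj(cv x n) nuz Y n` (`nuz Y n = (DZ Y)⁻¹ ic Y n`). `Finset.prod_univ_sum` gives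
`TP_eq`. `TP_le`: `‖cv‖ ≤ 1` and the mean of `∏ nuz Y (n + h i)` over `P0 Y x` (a multiple of `∏ primesLE Y`) is
`SZ Y h`: `av_prod` with the local functions `∏_i (1-1/p)⁻¹ 1[p ∤ n + h i]`, whose mean modulo `p` is `locI h p`
(`p - nuI h p` residues; compare HLR/HLT lemmas on `nuI`). `TP_one`: `cv one n = 1`.
-/

set_option autoImplicit false

open Finset Filter

namespace Pool.Agent.Lib.GMV

open Pool.Agent.HLB Pool.Agent.HLT Pool.Agent.HLR

namespace ComplAux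

/-- The local weight at `p`. -/
noncomputable def uc {k : ℕ} (p : ℕ) (h : Fin k → ℕ) (n : ℕ) : ℂ :=
  ∏ i, (if p ∣ n + h i then (0 : ℂ) else ((1 - 1 / (p : ℝ))⁻¹ : ℝ))

/-- The real local weight at `p`. -/
noncomputable def ur {k : ℕ} (p : ℕ) (h : Fin k → ℕ) (n : ℕ) : ℝ :=
  ∏ i, (if p ∣ n + h i then (0 : ℝ) else (1 - 1 / (p : ℝ))⁻¹)

lemma uc_eq {k : ℕ} (p : ℕ) (h : Fin k → ℕ) (n : ℕ) : uc p h n = (ur p h n : ℂ) := by
  unfold uc ur
  rw [Complex.ofReal_prod]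
  refine Finset.prod_congr rfl fun i _ => ?_
  split_ifs <;> simp

lemma ur_nonneg {k : ℕ} {p : ℕ} (hp : p.Prime) (h : Fin k → ℕ) (n : ℕ) : 0 ≤ ur p h n := by
  unfold ur
  refine Finset.prod_nonneg fun i _ => ?_
  split_ifs
  · exact le_rfl
  · have hp1 : (1 : ℝ) ≤ p := by exact_mod_cast hp.one_lt.le
    rw [inv_nonneg, sub_nonneg, div_le_one (by linarith)]
    exact hp1

lemma ur_periodic {k : ℕ} (p : ℕ) (h : Fin k → ℕ) (n : ℕ) : ur p h (n + p) = ur p h n := by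
  unfold ur
  refine Finset.prod_congr rfl fun i _ => ?_
  have e : p ∣ n + p + h i ↔ p ∣ n + h i := by
    rw [show n + p + h i = n + h i + p by ring, Nat.dvd_add_self_right]
  simp only [e]

lemma uc_periodic {k : ℕ} (p : ℕ) (h : Fin k → ℕ) (n : ℕ) : uc p h (n + p) = uc p h n := by
  rw [uc_eq, uc_eq, ur_periodic]

/-- The local mean. -/
lemma sum_ur {k : ℕ} {p : ℕ} (hp : p.Prime) (h : Fin k → ℕ) :
    ∑ n ∈ range p, ur p h n = p * locI h p := by
  classical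
  have hp0 : (p : ℝ) ≠ 0 := by exact_mod_cast hp.ne_zero
  have h1 : ∀ n ∈ range p, ur p h n =
      if n ∈ exres h p then 0 else ((1 - 1 / (p : ℝ))⁻¹) ^ k := by
    intro n hn
    have hnp : n % p = n := Nat.mod_eq_of_lt (Finset.mem_range.1 hn)
    unfold ur
    split_ifs with hm
    · obtain ⟨i, -, hi⟩ := Finset.mem_image.1 hm
      refine Finset.prod_eq_zero (Finset.mem_univ i) ?_
      rw [if_pos]
      rw [dvd_add_iff_negres hp.pos, hnp, hi]
    · have e : ((1 - 1 / (p : ℝ))⁻¹) ^ k = ∏ _i : Fin k, (1 - 1 / (p : ℝ))⁻¹ := by simp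
      rw [e]
      refine Finset.prod_congr rfl fun i _ => ?_
      rw [if_neg]
      intro hd
      rw [dvd_add_iff_negres hp.pos, hnp] at hd
      exact hm (Finset.mem_image.2 ⟨i, Finset.mem_univ i, hd.symm⟩)
  rw [Finset.sum_congr rfl h1]
  have h2 : ∑ n ∈ range p, (if n ∈ exres h p then (0 : ℝ) else ((1 - 1 / (p : ℝ))⁻¹) ^ k) =
      ∑ n ∈ range p \ exres h p, ((1 - 1 / (p : ℝ))⁻¹) ^ k := by
    rw [Finset.sdiff_eq_filter, Finset.sum_filter]
    refine Finset.sum_congr rfl fun n _ => ?_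
    by_cases hn : n ∈ exres h p <;> simp [hn]
  rw [h2, Finset.sum_const, Finset.card_sdiff_of_subset (exres_subset h hp.pos),
    Finset.card_range, card_exres h hp.pos, nsmul_eq_mul]
  have h3 : nuI h p ≤ p := nuI_le_prime h hp
  rw [Nat.cast_sub h3]
  unfold locI
  rw [Fintype.card_fin]
  field_simp

lemma av_uc {k : ℕ} {p : ℕ} (hp : p.Prime) (h : Fin k → ℕ) :
    av p (uc p h) = (locI h p : ℂ) := by
  have hp0 : (p : ℂ) ≠ 0 := by exact_mod_cast hp.ne_zero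
  unfold av
  have h1 : ∑ n ∈ range p, uc p h n = ((∑ n ∈ range p, ur p h n : ℝ) : ℂ) := by
    rw [Complex.ofReal_sum]
    exact Finset.sum_congr rfl fun n _ => uc_eq p h n
  rw [h1, sum_ur hp h]
  push_cast
  field_simp

/-- The mean of the product of the local weights. -/
lemma av_prod_uc {k : ℕ} (S : Finset ℕ) (hS : ∀ p ∈ S, p.Prime) (M : ℕ) (hM : 1 ≤ M)
    (h : Fin k → ℕ) :
    av (M * ∏ p ∈ S, p) (fun n => ∏ p ∈ S, uc p h n) = ((∏ p ∈ S, locI h p : ℝ) : ℂ) := by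
  have hpos : 1 ≤ ∏ p ∈ S, p := Finset.prod_pos fun p hp => (hS p hp).pos
  have hper : ∀ n, (fun n => ∏ p ∈ S, uc p h n) (n + ∏ p ∈ S, p) =
      (fun n => ∏ p ∈ S, uc p h n) n := by
    intro n
    refine Finset.prod_congr rfl fun p hp => ?_
    obtain ⟨t, ht⟩ : p ∣ ∏ p ∈ S, p := Finset.dvd_prod_of_mem (fun q => q) hp
    rw [ht, PerMeanAux.per_mul p (uc p h) (uc_periodic p h)]
  rw [mul_comm M, av_period _ M hpos hM _ hper]
  have h1 := av_prod S hS 1 le_rfl (fun p _ => Nat.coprime_one_left p) (fun _ => 1)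
    (fun _ => rfl) (fun p => uc p h) (fun p _ => uc_periodic p h)
  rw [one_mul] at h1
  simp only [one_mul] at h1
  rw [h1]
  have h2 : av 1 (fun _ => (1 : ℂ)) = 1 := by unfold av; simp
  rw [h2, one_mul, Complex.ofReal_prod]
  exact Finset.prod_congr rfl fun p hp => av_uc (hS p hp) h

/-- The model as a product of local weights. -/
lemma nuz_prod {k : ℕ} (Y : ℕ) (h : Fin k → ℕ) (n : ℕ) :
    ∏ i, (nuz Y (n + h i) : ℂ) = ∏ p ∈ Nat.primesLE Y, uc p h n := by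
  unfold uc
  rw [Finset.prod_comm]
  refine Finset.prod_congr rfl fun i _ => ?_
  unfold nuz ic DZ
  rw [← Finset.prod_inv_distrib]
  split_ifs with h1
  · rw [mul_one, Complex.ofReal_prod]
    refine Finset.prod_congr rfl fun p hp => ?_
    rw [if_neg (h1 p hp)]
  · push Not at h1
    obtain ⟨p, hp, hd⟩ := h1
    rw [mul_zero, Complex.ofReal_zero]
    symm
    apply Finset.prod_eq_zero hp
    exact if_pos hd

lemma cv_one (n : ℕ) : cv one n = 1 := by
  unfold cv one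
  have h1 : ((n : ℕ) : ZMod (0 + 1)) = 1 := Subsingleton.elim (α := ZMod 1) _ _
  show (1 : DirichletCharacter ℂ (0 + 1)) ((n : ℕ) : ZMod (0 + 1)) = 1
  rw [h1, map_one]


/-- Local weight. -/
noncomputable def lw (p n : ℕ) : ℝ := if p ∣ n then (0 : ℝ) else (1 - 1 / (p : ℝ))⁻¹

lemma nuz_lw (Y n : ℕ) : nuz Y n = ∏ p ∈ Nat.primesLE Y, lw p n := by
  unfold nuz ic DZ lw
  rw [← Finset.prod_inv_distrib]
  split_ifs with h1
  · rw [mul_one]
    refine Finset.prod_congr rfl fun p hp => ?_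
    rw [if_neg (h1 p hp)]
  · push Not at h1
    obtain ⟨p, hp, hd⟩ := h1
    rw [mul_zero]
    symm
    apply Finset.prod_eq_zero hp
    exact if_pos hd

lemma one_add_wp {p : ℕ} (hp : p.Prime) (n : ℕ) : 1 + wp p n = lw p n := by
  unfold wp lw
  have hp1 : (1 : ℝ) < p := by exact_mod_cast hp.one_lt
  have h1 : (p : ℝ) - 1 ≠ 0 := by linarith
  have h0 : (p : ℝ) ≠ 0 := by linarith
  split_ifs
  · norm_num
  · rw [show 1 - 1 / (p : ℝ) = (p - 1) / p by field_simp, inv_div]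
    field_simp
    ring

lemma rho_eq (x : CI) : rho x = ∏ p ∈ (md x).primeFactors, (1 - 1 / (p : ℝ))⁻¹ := by
  unfold rho
  have h0 : md x ≠ 0 := (md_pos x).ne'
  have h1 := Nat.totient_eq_mul_prod_factors (md x)
  have h2 : ((md x).totient : ℝ) = (md x : ℝ) * ∏ p ∈ (md x).primeFactors, (1 - (p : ℝ)⁻¹) := by
    have := congrArg (fun t : ℚ => (t : ℝ)) h1
    push_cast at this
    exact this
  rw [h2, Finset.prod_inv_distrib]
  have h3 : (md x : ℝ) ≠ 0 := by exact_mod_cast h0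
  simp only [one_div]
  rw [← div_div, div_self h3, one_div]

lemma key (Y : ℕ) (x : CI) (hx : md x ≤ Y) (n : ℕ) :
    (rho x : ℂ) * (starRingEnd ℂ) (cv x n) *
      ∑ S ∈ Sa Y (md x), ((∏ p ∈ S, wp p n : ℝ) : ℂ) =
    (starRingEnd ℂ) (cv x n) * (nuz Y n : ℂ) := by
  classical
  by_cases hc : cv x n = 0
  · rw [hc]; simp
  have hcop : n.Coprime (md x) := by
    by_contra hcon
    apply hc
    unfold cv
    apply MulChar.map_nonunit
    rw [ZMod.isUnit_iff_coprime]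
    exact hcon
  have h1 : ∑ S ∈ Sa Y (md x), ((∏ p ∈ S, wp p n : ℝ) : ℂ) =
      ((∏ p ∈ (Nat.primesLE Y).filter (fun p => ¬ p ∣ md x), lw p n : ℝ) : ℂ) := by
    unfold Sa
    rw [← Complex.ofReal_sum, ← Finset.prod_one_add]
    congr 1
    refine Finset.prod_congr rfl fun p hp => ?_
    exact one_add_wp (Nat.mem_primesLE.1 (Finset.mem_filter.1 hp).1).2 n
  have h2 : rho x = ∏ p ∈ (Nat.primesLE Y).filter (fun p => p ∣ md x), lw p n := by
    rw [rho_eq]
    have e : (md x).primeFactors = (Nat.primesLE Y).filter (fun p => p ∣ md x) := by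
      ext p
      rw [Nat.mem_primeFactors, Finset.mem_filter, Nat.mem_primesLE]
      constructor
      · rintro ⟨h3, h4, h5⟩
        exact ⟨⟨(Nat.le_of_dvd (md_pos x) h4).trans hx, h3⟩, h4⟩
      · rintro ⟨⟨h3, h4⟩, h5⟩
        exact ⟨h4, h5, (md_pos x).ne'⟩
    rw [e]
    refine Finset.prod_congr rfl fun p hp => ?_
    have hpm := Finset.mem_filter.1 hp
    unfold lw
    rw [if_neg]
    intro hd
    have := Nat.dvd_gcd hd hpm.2
    rw [hcop] at this
    exact (Nat.mem_primesLE.1 hpm.1).2.one_lt.ne' (Nat.dvd_one.1 this)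
  rw [h1, h2, nuz_lw]
  have h3 : (∏ p ∈ Nat.primesLE Y, lw p n) =
      (∏ p ∈ (Nat.primesLE Y).filter (fun p => p ∣ md x), lw p n) *
      ∏ p ∈ (Nat.primesLE Y).filter (fun p => ¬ p ∣ md x), lw p n :=
    (Finset.prod_filter_mul_prod_filter_not _ _ _).symm
  rw [h3]
  push_cast
  ring

end ComplAux

open ComplAux

theorem TP_eq {k : ℕ} (Y : ℕ) (x : Fin k → CI) (hx : ∀ i, md (x i) ≤ Y) (h : Fin k → ℕ) :
    TP Y x h = av (P0 Y x)
      (fun n => ∏ i, ((starRingEnd ℂ) (cv (x i) (n + h i)) * (nuz Y (n + h i) : ℂ))) := by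
  classical
  unfold TP av
  rw [← Finset.sum_div]
  congr 1
  rw [Finset.sum_comm]
  refine Finset.sum_congr rfl fun n _ => ?_
  unfold fS
  rw [← Finset.prod_univ_sum (fun i => Sa Y (md (x i)))
    (fun i S => (rho (x i) : ℂ) * (starRingEnd ℂ) (cv (x i) (n + h i)) *
      ((∏ p ∈ S, wp p (n + h i) : ℝ) : ℂ))]
  refine Finset.prod_congr rfl fun i _ => ?_
  rw [← Finset.mul_sum]
  exact key Y (x i) (hx i) (n + h i)

theorem TP_le {k : ℕ} (Y : ℕ) (x : Fin k → CI) (hx : ∀ i, md (x i) ≤ Y) (h : Fin k → ℕ) :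
    ‖TP Y x h‖ ≤ SZ Y h := by
  classical
  rw [TP_eq Y x hx h]
  have hpr : ∀ p ∈ Nat.primesLE Y, p.Prime := fun p hp => (Nat.mem_primesLE.1 hp).2
  have h1 : ∀ n, ‖∏ i, ((starRingEnd ℂ) (cv (x i) (n + h i)) * (nuz Y (n + h i) : ℂ))‖ ≤
      ∏ p ∈ Nat.primesLE Y, ur p h n := by
    intro n
    rw [Finset.prod_mul_distrib, norm_mul, nuz_prod]
    have h2 : ‖∏ i, (starRingEnd ℂ) (cv (x i) (n + h i))‖ ≤ 1 := by
      rw [norm_prod]
      refine Finset.prod_le_one (fun i _ => norm_nonneg _) fun i _ => ?_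
      rw [RCLike.norm_conj]
      exact norm_cv_le _ _
    have h3 : ‖∏ p ∈ Nat.primesLE Y, uc p h n‖ = ∏ p ∈ Nat.primesLE Y, ur p h n := by
      rw [norm_prod]
      refine Finset.prod_congr rfl fun p hp => ?_
      rw [uc_eq, Complex.norm_real, Real.norm_of_nonneg (ur_nonneg (hpr p hp) h n)]
    rw [h3]
    have h4 : 0 ≤ ∏ p ∈ Nat.primesLE Y, ur p h n :=
      Finset.prod_nonneg fun p hp => ur_nonneg (hpr p hp) h n
    exact mul_le_of_le_one_left h4 h2
  refine (norm_av_le _ _ _ h1).trans (le_of_eq ?_)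
  have hM : 1 ≤ ∏ i, md (x i) := Finset.prod_pos fun i _ => md_pos (x i)
  have h5 := av_prod_uc (Nat.primesLE Y) hpr (∏ i, md (x i)) hM h
  unfold av at h5
  have h6 : (((∑ n ∈ range (P0 Y x), ∏ p ∈ Nat.primesLE Y, ur p h n) / (P0 Y x : ℝ) : ℝ) : ℂ) =
      ((SZ Y h : ℝ) : ℂ) := by
    unfold SZ
    rw [← h5]
    unfold P0
    push_cast
    congr 1
    refine Finset.sum_congr rfl fun n _ => ?_
    refine Finset.prod_congr rfl fun p _ => ?_
    rw [uc_eq]
  exact_mod_cast h6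

theorem TP_one {k : ℕ} (Y : ℕ) (hY : 1 ≤ Y) (h : Fin k → ℕ) :
    TP Y (fun _ : Fin k => one) h = (SZ Y h : ℂ) := by
  classical
  have hpr : ∀ p ∈ Nat.primesLE Y, p.Prime := fun p hp => (Nat.mem_primesLE.1 hp).2
  have h0 : ∀ i : Fin k, md ((fun _ : Fin k => one) i) ≤ Y := fun _ => hY
  rw [TP_eq Y (fun _ : Fin k => one) h0 h]
  have hM : 1 ≤ ∏ i : Fin k, md one := Finset.prod_pos fun i _ => md_pos one
  have h5 := av_prod_uc (Nat.primesLE Y) hpr (∏ i : Fin k, md one) hM h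
  unfold SZ
  rw [← h5]
  unfold P0
  congr 1
  funext n
  rw [← nuz_prod]
  refine Finset.prod_congr rfl fun i _ => ?_
  rw [cv_one, map_one, one_mul]

end Pool.Agent.Lib.GMV
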