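import Pool.Agent.Lib.GMV.Kern

/-!
# GMV.VarM: variation of the smoothed characters (paper section 1)

PROOF. `∑_n |Kf U (m-n-1) - Kf U (m-n)| ≤ 2/U` (`Kf` is `1/U²`-Lipschitz and supported in `|d| < U`; at most `2U` nonzero
differences), so the sum is `≤ ∑_m W(m) · 2/U ≤ 8 X · 2/U` (Chebyshev: `∑_{p < 4X} log p ≤ 8 X`), and `U = X/Q^5 ≥ X/(2Q^5)`.
`var_prod`: `∏ a_i - ∏ b_i` telescopes, every factor is `≤ β` (`β ≥ 1`), each `n + h i + 1 < 4X`.
-/

set_option autoImplicit false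

open Finset Filter

namespace Pool.Agent.Lib.GMV

open Pool.Agent.HLB Pool.Agent.HLT Pool.Agent.HLR

namespace VarMAux

lemma lp_sum (N : ℕ) : ∑ m ∈ range N, HLT.lp m ≤ 2 * N := by
  have h1 : ∑ m ∈ range N, HLT.lp m ≤ Chebyshev.theta N := by
    unfold Chebyshev.theta HLT.lp
    rw [← sum_filter, Nat.floor_natCast]
    refine sum_le_sum_of_subset_of_nonneg ?_ fun m _ _ => Real.log_natCast_nonneg m
    intro m hm
    rw [mem_filter, mem_range] at hm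
    rw [mem_filter, mem_Ioc]
    exact ⟨⟨hm.2.pos, hm.1.le⟩, hm.2⟩
  have h2 := Chebyshev.theta_le_log4_mul_x (Nat.cast_nonneg N : (0 : ℝ) ≤ N)
  have h3 : Real.log 4 ≤ 2 := by
    have h4 : (4 : ℝ) = 2 ^ 2 := by norm_num
    rw [h4, Real.log_pow]
    have h5 := Real.log_two_lt_d9
    push_cast
    linarith
  have h4 : (0 : ℝ) ≤ N := Nat.cast_nonneg N
  nlinarith

lemma kf_lip (U : ℕ) (d : ℤ) : |Kf U (d - 1) - Kf U d| ≤ 1 / (U : ℝ) ^ 2 := by
  unfold Kf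
  rw [← sub_div, abs_div, abs_of_nonneg (sq_nonneg (U : ℝ))]
  refine div_le_div_of_nonneg_right ?_ (sq_nonneg _)
  rw [max_comm 0, max_comm 0]
  refine (abs_max_sub_max_le_abs _ _ _).trans ?_
  have h1 : ((U : ℝ) - |((d - 1 : ℤ) : ℝ)|) - (U - |(d : ℝ)|) = |(d : ℝ)| - |((d - 1 : ℤ) : ℝ)| := by
    ring
  rw [h1]
  refine (abs_abs_sub_abs_le _ _).trans ?_
  push_cast
  rw [sub_sub_cancel, abs_one]

lemma kf_tv (U m N : ℕ) (hU : 1 ≤ U) :
    ∑ n ∈ range N, |Kf U ((m : ℤ) - (n + 1 : ℕ)) - Kf U ((m : ℤ) - n)| ≤ 2 / U := by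
  have hU' : (0 : ℝ) < U := by exact_mod_cast hU
  have h1 : ∀ n ∈ range N, |Kf U ((m : ℤ) - (n + 1 : ℕ)) - Kf U ((m : ℤ) - n)| ≤
      if n ∈ Ico (m - U) (m + U) then 1 / (U : ℝ) ^ 2 else 0 := by
    intro n _
    split_ifs with h
    · have h2 := kf_lip U ((m : ℤ) - n)
      have h3 : (m : ℤ) - (n + 1 : ℕ) = (m : ℤ) - n - 1 := by
        push_cast
        ring
      rw [h3]
      exact h2
    · rw [mem_Ico] at h
      have h2 : Kf U ((m : ℤ) - (n + 1 : ℕ)) = 0 := by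
        refine KernAux.kf_eq_zero ?_
        rcases le_or_gt (n + 1) m with h4 | h4
        · rw [abs_of_nonneg (by omega)]
          omega
        · rw [abs_of_nonpos (by omega)]
          omega
      have h3 : Kf U ((m : ℤ) - n) = 0 := by
        refine KernAux.kf_eq_zero ?_
        rcases le_or_gt n m with h4 | h4
        · rw [abs_of_nonneg (by omega)]
          omega
        · rw [abs_of_nonpos (by omega)]
          omega
      rw [h2, h3, sub_zero, abs_zero]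
  refine (sum_le_sum h1).trans ?_
  rw [← sum_filter, sum_const, nsmul_eq_mul]
  have h2 : (((range N).filter fun n => n ∈ Ico (m - U) (m + U)).card : ℝ) ≤ 2 * U := by
    have h3 : ((range N).filter fun n => n ∈ Ico (m - U) (m + U)).card ≤ 2 * U := by
      refine (card_le_card (t := Ico (m - U) (m + U)) fun n hn => (mem_filter.1 hn).2).trans ?_
      rw [Nat.card_Ico]
      omega
    exact_mod_cast h3
  have h3 : (2 * (U : ℝ)) * (1 / (U : ℝ) ^ 2) = 2 / U := by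
    field_simp
  rw [← h3]
  exact mul_le_mul_of_nonneg_right h2 (by positivity)

lemma prod_diff {ι : Type} (s : Finset ι) (a b : ι → ℂ) (β : ℝ) (hβ : 1 ≤ β)
    (ha : ∀ i, ‖a i‖ ≤ β) (hb : ∀ i, ‖b i‖ ≤ β) :
    ‖∏ i ∈ s, a i - ∏ i ∈ s, b i‖ ≤ β ^ s.card * ∑ i ∈ s, ‖a i - b i‖ := by
  classical
  have h0 : (0 : ℝ) ≤ β := by linarith
  induction s using Finset.induction_on with
  | empty => simp
  | insert j s hj ih =>
    rw [prod_insert hj, prod_insert hj, sum_insert hj, card_insert_of_notMem hj]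
    have h1 : a j * ∏ i ∈ s, a i - b j * ∏ i ∈ s, b i =
        (a j - b j) * ∏ i ∈ s, a i + b j * (∏ i ∈ s, a i - ∏ i ∈ s, b i) := by ring
    rw [h1]
    refine (norm_add_le _ _).trans ?_
    rw [norm_mul, norm_mul, norm_prod]
    have h2 : ∏ i ∈ s, ‖a i‖ ≤ β ^ s.card := by
      refine (prod_le_prod (fun i _ => norm_nonneg _) fun i _ => ha i).trans ?_
      rw [prod_const]
    have h3 : ‖a j - b j‖ * ∏ i ∈ s, ‖a i‖ ≤ ‖a j - b j‖ * β ^ (s.card + 1) := by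
      refine mul_le_mul_of_nonneg_left (h2.trans ?_) (norm_nonneg _)
      exact pow_le_pow_right₀ hβ (Nat.le_succ _)
    have h4 : ‖b j‖ * ‖∏ i ∈ s, a i - ∏ i ∈ s, b i‖ ≤
        β * (β ^ s.card * ∑ i ∈ s, ‖a i - b i‖) :=
      mul_le_mul (hb j) ih (norm_nonneg _) h0
    refine (add_le_add h3 h4).trans (le_of_eq ?_)
    ring

end VarMAux

open VarMAux

theorem var_cn (X Q : ℕ) (hQ : 2 ≤ Q) (hX : Q ^ 5 ≤ X) (g : ℕ → ℂ) (hg : ∀ n, ‖g n‖ ≤ 1) :
    ∑ n ∈ range (4 * X), ‖cn X Q g (n + 1) - cn X Q g n‖ ≤ 40 * (Q : ℝ) ^ 5 := by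
  have hQ5 : 0 < Q ^ 5 := by positivity
  have hX1 : 1 ≤ X := by omega
  obtain ⟨U, hUdef⟩ : ∃ U, U = X / Q ^ 5 := ⟨_, rfl⟩
  have hU : 1 ≤ U := by
    rw [hUdef]
    exact (Nat.one_le_div_iff hQ5).2 hX
  have hU' : (0 : ℝ) < U := by exact_mod_cast hU
  have h1 : ∀ n ∈ range (4 * X), ‖cn X Q g (n + 1) - cn X Q g n‖ ≤
      ∑ m ∈ range (4 * X), W X Q m * |Kf U ((m : ℤ) - (n + 1 : ℕ)) - Kf U ((m : ℤ) - n)| := by
    intro n _
    unfold cn
    rw [← sum_sub_distrib, ← hUdef]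
    refine (norm_sum_le _ _).trans (sum_le_sum fun m _ => ?_)
    rw [← sub_mul, norm_mul, ← Complex.ofReal_sub, ← sub_mul, Complex.norm_real, Real.norm_eq_abs,
      abs_mul, abs_of_nonneg (W_nonneg X Q m), mul_comm (W X Q m)]
    exact mul_le_of_le_one_right (mul_nonneg (abs_nonneg _) (W_nonneg X Q m)) (hg m)
  refine (sum_le_sum h1).trans ?_
  rw [sum_comm]
  have h2 : ∀ m ∈ range (4 * X), ∑ n ∈ range (4 * X),
      W X Q m * |Kf U ((m : ℤ) - (n + 1 : ℕ)) - Kf U ((m : ℤ) - n)| ≤ HLT.lp m * (2 / U) := by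
    intro m _
    rw [← mul_sum]
    exact mul_le_mul (W_le X Q m) (kf_tv U m (4 * X) hU) (sum_nonneg fun _ _ => abs_nonneg _)
      (lp_nonneg m)
  refine (sum_le_sum h2).trans ?_
  rw [← sum_mul]
  have h3 := mul_le_mul_of_nonneg_right (lp_sum (4 * X)) (by positivity : (0 : ℝ) ≤ 2 / U)
  refine h3.trans ?_
  have h4 : X ≤ 2 * U * Q ^ 5 := by
    have h5 : X < (U + 1) * Q ^ 5 := by
      rw [hUdef, mul_comm]
      exact Nat.lt_mul_div_succ X hQ5
    nlinarith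
  have h5 : (X : ℝ) ≤ 2 * U * (Q : ℝ) ^ 5 := by exact_mod_cast h4
  push_cast
  rw [mul_div_assoc', div_le_iff₀ hU']
  have h6 : (0 : ℝ) ≤ U * (Q : ℝ) ^ 5 := by positivity
  nlinarith

theorem var_prod (k X Q : ℕ) (hQ : 2 ≤ Q) (hX : Q ^ 5 ≤ X) (x : Fin k → CI) (β : ℝ) (hβ : 1 ≤ β)
    (hb : ∀ i n, ‖Mc X Q (x i) n‖ ≤ β) (h : Fin k → ℕ) (hh : ∀ i, h i ≤ X) :
    ∑ n ∈ range X, ‖∏ i, Mc X Q (x i) (n + 1 + h i) - ∏ i, Mc X Q (x i) (n + h i)‖ ≤
      k * β ^ k * (40 * (Q : ℝ) ^ 5) := by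
  have hβ0 : (0 : ℝ) ≤ β := by linarith
  have h1 : ∀ n ∈ range X,
      ‖∏ i, Mc X Q (x i) (n + 1 + h i) - ∏ i, Mc X Q (x i) (n + h i)‖ ≤
      β ^ k * ∑ i, ‖Mc X Q (x i) (n + 1 + h i) - Mc X Q (x i) (n + h i)‖ := by
    intro n _
    have h2 := prod_diff (univ : Finset (Fin k)) (fun i => Mc X Q (x i) (n + 1 + h i))
      (fun i => Mc X Q (x i) (n + h i)) β hβ (fun i => hb i _) (fun i => hb i _)
    rw [card_univ, Fintype.card_fin] at h2
    exact h2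
  refine (sum_le_sum h1).trans ?_
  rw [← mul_sum, sum_comm]
  have h2 : ∀ i ∈ (univ : Finset (Fin k)),
      ∑ n ∈ range X, ‖Mc X Q (x i) (n + 1 + h i) - Mc X Q (x i) (n + h i)‖ ≤ 40 * (Q : ℝ) ^ 5 := by
    intro i _
    have h3 := var_cn X Q hQ hX (cv (x i)) (norm_cv_le (x i))
    refine le_trans ?_ h3
    have h4 : ∑ n ∈ range X, ‖Mc X Q (x i) (n + 1 + h i) - Mc X Q (x i) (n + h i)‖ =
        ∑ n ∈ (range X).image (fun n => n + h i),
          ‖cn X Q (cv (x i)) (n + 1) - cn X Q (cv (x i)) n‖ := by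
      rw [sum_image (fun a _ b _ hab => by simpa using hab)]
      refine sum_congr rfl fun n _ => ?_
      unfold Mc
      rw [show n + 1 + h i = n + h i + 1 by ring]
    rw [h4]
    refine sum_le_sum_of_subset_of_nonneg ?_ fun _ _ _ => norm_nonneg _
    intro n hn
    obtain ⟨n', hn', rfl⟩ := mem_image.1 hn
    rw [mem_range] at hn' ⊢
    have := hh i
    omega
  have h3 := sum_le_sum h2
  rw [sum_const, card_univ, Fintype.card_fin, nsmul_eq_mul] at h3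
  have h4 := mul_le_mul_of_nonneg_left h3 (pow_nonneg hβ0 k)
  refine h4.trans (le_of_eq ?_)
  ring

end Pool.Agent.Lib.GMV
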