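import Pool.Agent.Lib.GMV.Tail
import Pool.Agent.Lib.GMV.Compl
import Pool.Agent.Lib.GMV.VarM

/-!
# GMV.MainT: correlations of the model (paper 4.1 - 4.3)

PROOF. `Y = Q^(8k)`. `∏_i LL(n+h i) = ∑_{x ∈ (Ch Q)^k} ∑_{S ∈ ∏ Sm Y (md (x i))} fS x S h n · G_x n`, `G_x n = ∏_i Mc (x i) (n + h i)`
(`Finset.prod_univ_sum` twice).
(1) `per_mean` for `f = fS x S h`, of period `P = ∏ md (x i) · ∏_i ∏ S i ≤ (Q Y)^k`, `‖f‖ ≤ ∏ rho ≤ Q^k` (`|wp| ≤ 1`, `rho x ≤ md x ≤ Q`),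
`G ≤ β^k`, `V ≤ k β^k 40 Q^5` (`var_prod`), `β = max 1 B` (`‖Mc‖ ≤ b x ≤ ∑ b ≤ B`, all `b x ≥ 0` on `Ch Q`); `av P f = av (P0 Y x) f` (`av_period`: the
lcm of the true period and ...; `P ∣ P0`? the sets `S i` may overlap, so use the period `∏ md · ∏_{p ∈ ⋃ S i} p`, which divides
`P0 Y x` and is `≤ (QY)^k`). The number of `(x,S)` is `≤ (Q²)^k (Y+1)^k`. Total error `≤ X/(3Q)` if `Q ≤ X^c`, `c` small in `k`.
(2) So `∑_{n≤y} ∏ LL = ∑_x TY Y x h ∑_{n≤y} G_x n + error`; `tail`: replacing `TY` by `TP` costs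
`∑_x Q^(-3/2) X ∏ b(x i) ≤ Q^(-3/2) X B^k ≤ X/(3Q)` for `X ≥ X0`.
(3) The `x` with some `x i ∉ M`: `‖TP‖ ≤ SZ Y h` (`TP_le`), `∑_x ∏ b (x i) ≤ k E B^(k-1)`.
-/

set_option autoImplicit false

open Finset Filter

namespace Pool.Agent.Lib.GMV

open Pool.Agent.HLB Pool.Agent.HLT Pool.Agent.HLR

namespace MainTAux

lemma mem_Sm {Y r : ℕ} {S : Finset ℕ} (h : S ∈ Sm Y r) :
    (∀ p ∈ S, p.Prime ∧ p ≤ Y) ∧ ∏ p ∈ S, p ≤ Y := by
  unfold Sm at h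
  rw [mem_filter, mem_powerset] at h
  refine ⟨fun p hp => ?_, h.2⟩
  have h1 := h.1 hp
  rw [mem_filter, Nat.mem_primesLE] at h1
  exact ⟨h1.1.2, h1.1.1⟩

/-- the number of sets of primes with product at most `Y` -/
lemma card_Sm (Y r : ℕ) : (Sm Y r).card ≤ Y := by
  have h1 : (Sm Y r).card ≤ (Icc 1 Y).card := by
    refine card_le_card_of_injOn (fun S => ∏ p ∈ S, p) ?_ ?_
    · intro S hS
      have h := mem_Sm (mem_coe.1 hS)
      rw [mem_coe, mem_Icc]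
      exact ⟨Nat.succ_le_of_lt (prod_pos fun p hp => (h.1 p hp).1.pos), h.2⟩
    · intro S hS T hT hST
      have h := mem_Sm (mem_coe.1 hS)
      have h' := mem_Sm (mem_coe.1 hT)
      simp only at hST
      rw [← Nat.primeFactors_prod (fun p hp => (h.1 p hp).1), hST,
        Nat.primeFactors_prod (fun p hp => (h'.1 p hp).1)]
  rwa [Nat.card_Icc, Nat.add_sub_cancel] at h1

/-- the number of characters -/
lemma card_Ch (Q : ℕ) : (Ch Q).card ≤ Q ^ 2 := by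
  classical
  unfold Ch
  rw [card_sigma, sq]
  calc ∑ q ∈ range Q, (univ.filter fun χ : DirichletCharacter ℂ (q + 1) => χ.IsPrimitive).card
      ≤ ∑ _q ∈ range Q, Q := by
        refine sum_le_sum fun q hq => ?_
        refine (card_le_univ _).trans ?_
        rw [← Nat.card_eq_fintype_card,
          DirichletCharacter.card_eq_totient_of_hasEnoughRootsOfUnity ℂ (q + 1)]
        refine (Nat.totient_le _).trans ?_
        rw [mem_range] at hq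
        omega
    _ = Q * Q := by rw [sum_const, card_range, smul_eq_mul]

lemma rho_nonneg (x : CI) : 0 ≤ rho x := by
  unfold rho
  positivity

lemma rho_le (x : CI) : rho x ≤ md x := by
  unfold rho
  refine div_le_self (Nat.cast_nonneg _) ?_
  exact_mod_cast Nat.totient_pos.2 (md_pos x)

lemma abs_wp_le {p : ℕ} (hp : p.Prime) (n : ℕ) : |wp p n| ≤ 1 := by
  unfold wp
  have h2 : (2 : ℝ) ≤ p := by exact_mod_cast hp.two_le
  split_ifs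
  · simp
  · rw [abs_of_nonneg (by
      have : (0 : ℝ) < (p : ℝ) - 1 := by linarith
      positivity)]
    rw [div_le_one (by linarith)]
    linarith

lemma wp_periodic {p P : ℕ} (h : p ∣ P) (n : ℕ) : wp p (n + P) = wp p n := by
  unfold wp
  have : p ∣ n + P ↔ p ∣ n := (Nat.dvd_add_left h)
  by_cases h1 : p ∣ n
  · rw [if_pos h1, if_pos (this.2 h1)]
  · rw [if_neg h1, if_neg (fun h2 => h1 (this.1 h2))]

lemma fS_periodic {k : ℕ} {P : ℕ} (x : Fin k → CI) (S : Fin k → Finset ℕ) (h : Fin k → ℕ)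
    (h1 : ∀ i, md (x i) ∣ P) (h2 : ∀ i, ∀ p ∈ S i, p ∣ P) (n : ℕ) :
    fS x S h (n + P) = fS x S h n := by
  unfold fS
  refine prod_congr rfl fun i _ => ?_
  have e1 : n + P + h i = n + h i + P := by ring
  rw [e1]
  obtain ⟨j, hj⟩ := h1 i
  have e2 : cv (x i) (n + h i + P) = cv (x i) (n + h i) := by
    rw [hj, cv_periodic]
  have e3 : ∏ p ∈ S i, wp p (n + h i + P) = ∏ p ∈ S i, wp p (n + h i) :=
    prod_congr rfl fun p hp => wp_periodic (h2 i p hp) _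
  rw [e2, e3]

lemma norm_fS_le {k : ℕ} {Q : ℕ} (x : Fin k → CI) (hx : ∀ i, md (x i) ≤ Q)
    (S : Fin k → Finset ℕ) (hS : ∀ i, ∀ p ∈ S i, p.Prime) (h : Fin k → ℕ) (n : ℕ) :
    ‖fS x S h n‖ ≤ (Q : ℝ) ^ k := by
  unfold fS
  rw [norm_prod]
  have h1 : ∏ i : Fin k, ‖(rho (x i) : ℂ) * (starRingEnd ℂ) (cv (x i) (n + h i)) *
      ((∏ p ∈ S i, wp p (n + h i) : ℝ) : ℂ)‖ ≤ ∏ _i : Fin k, (Q : ℝ) := by
    refine prod_le_prod (fun i _ => norm_nonneg _) fun i _ => ?_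
    rw [norm_mul, norm_mul, Complex.norm_real, Complex.norm_real, RCLike.norm_conj,
      Real.norm_of_nonneg (rho_nonneg _), Real.norm_eq_abs, abs_prod]
    have h2 : ∏ p ∈ S i, |wp p (n + h i)| ≤ 1 :=
      prod_le_one (fun _ _ => abs_nonneg _) fun p hp => abs_wp_le (hS i p hp) _
    have h3 : rho (x i) ≤ Q := (rho_le _).trans (by exact_mod_cast hx i)
    have h4 : 0 ≤ ∏ p ∈ S i, |wp p (n + h i)| := prod_nonneg fun _ _ => abs_nonneg _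
    calc rho (x i) * ‖cv (x i) (n + h i)‖ * ∏ p ∈ S i, |wp p (n + h i)|
        ≤ rho (x i) * 1 * 1 := by
          refine mul_le_mul ?_ h2 h4 ?_
          · exact mul_le_mul_of_nonneg_left (norm_cv_le _ _) (rho_nonneg _)
          · have := rho_nonneg (x i)
            linarith
      _ ≤ Q := by linarith
  rw [prod_const, card_univ, Fintype.card_fin] at h1
  exact h1

/-- expansion of the product of the models -/
lemma expand {k : ℕ} (X Q Y : ℕ) (h : Fin k → ℕ) (n : ℕ) :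
    ∏ i, LL X Q Y (n + h i) = ∑ x ∈ Fintype.piFinset (fun _ : Fin k => Ch Q),
      ∑ S ∈ Fintype.piFinset (fun i => Sm Y (md (x i))),
        fS x S h n * ∏ i, Mc X Q (x i) (n + h i) := by
  unfold LL
  rw [Finset.prod_univ_sum]
  refine sum_congr rfl fun x _ => ?_
  rw [← sum_mul]
  unfold DD fS
  have e : ∏ i, ((rho (x i) : ℂ) * (starRingEnd ℂ) (cv (x i) (n + h i)) *
      Mc X Q (x i) (n + h i) * ((∑ S ∈ Sm Y (md (x i)), ∏ p ∈ S, wp p (n + h i) : ℝ) : ℂ)) =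
      (∏ i, ∑ S ∈ Sm Y (md (x i)), (rho (x i) : ℂ) * (starRingEnd ℂ) (cv (x i) (n + h i)) *
        ((∏ p ∈ S, wp p (n + h i) : ℝ) : ℂ)) * ∏ i, Mc X Q (x i) (n + h i) := by
    rw [← prod_mul_distrib]
    refine prod_congr rfl fun i _ => ?_
    rw [← mul_sum, Complex.ofReal_sum]
    ring
  rw [e, Finset.prod_univ_sum]

lemma one_term {k : ℕ} (X Q : ℕ) (hQ : 2 ≤ Q) (hX : Q ^ 5 ≤ X) (Y : ℕ) (x : Fin k → CI)
    (hx : ∀ i, md (x i) ≤ Q) (S : Fin k → Finset ℕ) (hS : ∀ i, S i ∈ Sm Y (md (x i)))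
    (β : ℝ) (hβ : 1 ≤ β) (hb : ∀ i n, ‖Mc X Q (x i) n‖ ≤ β) (h : Fin k → ℕ)
    (hh : ∀ i, h i ≤ X) (y : ℕ) (hy : y ≤ X) :
    ‖∑ n ∈ Icc 1 y, fS x S h n * ∏ i, Mc X Q (x i) (n + h i) -
      av (P0 Y x) (fS x S h) * ∑ n ∈ Icc 1 y, ∏ i, Mc X Q (x i) (n + h i)‖ ≤
    2 * ((Q : ℝ) ^ k * (Y : ℝ) ^ k) * (Q : ℝ) ^ k *
      (β ^ k + k * β ^ k * (40 * (Q : ℝ) ^ 5)) := by
  have hSp : ∀ i, ∀ p ∈ S i, p.Prime := fun i p hp => ((mem_Sm (hS i)).1 p hp).1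
  set P : ℕ := (∏ i, md (x i)) * ∏ i, ∏ p ∈ S i, p with hP
  have hmd : 0 < ∏ i, md (x i) := prod_pos fun i _ => md_pos _
  have hP1 : 1 ≤ P := Nat.mul_pos hmd (prod_pos fun i _ => prod_pos fun p hp => (hSp i p hp).pos)
  have hP0 : 1 ≤ P0 Y x := by
    unfold P0
    exact Nat.mul_pos hmd (prod_pos fun p hp => (Nat.prime_of_mem_primesLE hp).pos)
  have hper : ∀ n, fS x S h (n + P) = fS x S h n := by
    refine fS_periodic x S h (fun i => ?_) (fun i p hp => ?_)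
    · exact (dvd_prod_of_mem (fun i => md (x i)) (mem_univ i)).mul_right _
    · exact ((dvd_prod_of_mem (fun p => p) hp).trans
        (dvd_prod_of_mem (fun i => ∏ p ∈ S i, p) (mem_univ i))).mul_left _
  have hper0 : ∀ n, fS x S h (n + P0 Y x) = fS x S h n := by
    refine fS_periodic x S h (fun i => ?_) (fun i p hp => ?_)
    · exact (dvd_prod_of_mem (fun i => md (x i)) (mem_univ i)).mul_right _
    · have h1 := (mem_Sm (hS i)).1 p hp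
      exact (dvd_prod_of_mem (fun p => p) (Nat.mem_primesLE.2 ⟨h1.2, h1.1⟩)).mul_left _
  have e : av (P0 Y x) (fS x S h) = av P (fS x S h) := by
    rw [← av_period (P0 Y x) P hP0 hP1 _ hper0, mul_comm,
      av_period P (P0 Y x) hP1 hP0 _ hper]
  rw [e]
  have hVy : ∑ n ∈ range y,
      ‖∏ i, Mc X Q (x i) (n + 1 + h i) - ∏ i, Mc X Q (x i) (n + h i)‖ ≤
      k * β ^ k * (40 * (Q : ℝ) ^ 5) :=
    (sum_le_sum_of_subset_of_nonneg (range_subset_range.2 hy)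
      (fun _ _ _ => norm_nonneg _)).trans (var_prod k X Q hQ hX x β hβ hb h hh)
  have hG : ∀ n, ‖∏ i, Mc X Q (x i) (n + h i)‖ ≤ β ^ k := by
    intro n
    rw [norm_prod]
    have h1 : ∏ i : Fin k, ‖Mc X Q (x i) (n + h i)‖ ≤ ∏ _i : Fin k, β :=
      prod_le_prod (fun i _ => norm_nonneg _) fun i _ => hb i _
    rw [prod_const, card_univ, Fintype.card_fin] at h1
    exact h1
  refine (per_mean P hP1 (fS x S h) (fun n => ∏ i, Mc X Q (x i) (n + h i)) ((Q : ℝ) ^ k) (β ^ k) _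
    hper (norm_fS_le x hx S hSp h) y hG hVy).trans ?_
  have hPle : (P : ℝ) ≤ (Q : ℝ) ^ k * (Y : ℝ) ^ k := by
    have h1 : ∏ i, md (x i) ≤ Q ^ k := by
      have h2 : ∏ i, md (x i) ≤ ∏ _i : Fin k, Q := prod_le_prod' fun i _ => hx i
      rw [prod_const, card_univ, Fintype.card_fin] at h2
      exact h2
    have h3 : ∏ i, ∏ p ∈ S i, p ≤ Y ^ k := by
      have h2 : ∏ i, ∏ p ∈ S i, p ≤ ∏ _i : Fin k, Y := prod_le_prod' fun i _ => (mem_Sm (hS i)).2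
      rw [prod_const, card_univ, Fintype.card_fin] at h2
      exact h2
    have h4 : P ≤ Q ^ k * Y ^ k := Nat.mul_le_mul h1 h3
    exact_mod_cast h4
  have hβ0 : 0 ≤ β := by linarith
  have hr : 0 ≤ β ^ k + k * β ^ k * (40 * (Q : ℝ) ^ 5) := by positivity
  refine mul_le_mul_of_nonneg_right ?_ hr
  refine mul_le_mul_of_nonneg_right ?_ (by positivity)
  linarith

/-- the whole error of the means -/
lemma step1 (k : ℕ) (X Q : ℕ) (hQ : 2 ≤ Q) (hX : Q ^ 5 ≤ X) (Y : ℕ)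
    (β : ℝ) (hβ : 1 ≤ β) (hb : ∀ x ∈ Ch Q, ∀ n, ‖Mc X Q x n‖ ≤ β) (h : Fin k → ℕ)
    (hh : ∀ i, h i ≤ X) (y : ℕ) (hy : y ≤ X) :
    ‖∑ n ∈ Icc 1 y, ∏ i, LL X Q Y (n + h i) -
      ∑ x ∈ Fintype.piFinset (fun _ : Fin k => Ch Q),
        TY Y x h * ∑ n ∈ Icc 1 y, ∏ i, Mc X Q (x i) (n + h i)‖ ≤
    (Q : ℝ) ^ (2 * k) * (Y : ℝ) ^ k * (2 * ((Q : ℝ) ^ k * (Y : ℝ) ^ k) * (Q : ℝ) ^ k *
      (β ^ k + k * β ^ k * (40 * (Q : ℝ) ^ 5))) := by
  set R : ℝ := 2 * ((Q : ℝ) ^ k * (Y : ℝ) ^ k) * (Q : ℝ) ^ k *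
      (β ^ k + k * β ^ k * (40 * (Q : ℝ) ^ 5)) with hR
  have hβ0 : 0 ≤ β := by linarith
  have hR0 : 0 ≤ R := by positivity
  have e1 : ∑ n ∈ Icc 1 y, ∏ i, LL X Q Y (n + h i) =
      ∑ x ∈ Fintype.piFinset (fun _ : Fin k => Ch Q),
        ∑ S ∈ Fintype.piFinset (fun i => Sm Y (md (x i))),
          ∑ n ∈ Icc 1 y, fS x S h n * ∏ i, Mc X Q (x i) (n + h i) := by
    simp_rw [expand]
    rw [sum_comm]
    refine sum_congr rfl fun x _ => ?_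
    rw [sum_comm]
  rw [e1, ← sum_sub_distrib]
  refine (norm_sum_le _ _).trans ?_
  have h1 : ∀ x ∈ Fintype.piFinset (fun _ : Fin k => Ch Q),
      ‖∑ S ∈ Fintype.piFinset (fun i => Sm Y (md (x i))),
          ∑ n ∈ Icc 1 y, fS x S h n * ∏ i, Mc X Q (x i) (n + h i) -
        TY Y x h * ∑ n ∈ Icc 1 y, ∏ i, Mc X Q (x i) (n + h i)‖ ≤ (Y : ℝ) ^ k * R := by
    intro x hx
    have hx' : ∀ i, x i ∈ Ch Q := Fintype.mem_piFinset.1 hx
    unfold TY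
    rw [sum_mul, ← sum_sub_distrib]
    refine (norm_sum_le _ _).trans ?_
    have h2 : ∀ S ∈ Fintype.piFinset (fun i => Sm Y (md (x i))),
        ‖∑ n ∈ Icc 1 y, fS x S h n * ∏ i, Mc X Q (x i) (n + h i) -
          av (P0 Y x) (fS x S h) * ∑ n ∈ Icc 1 y, ∏ i, Mc X Q (x i) (n + h i)‖ ≤ R := by
      intro S hS
      exact one_term X Q hQ hX Y x (fun i => (mem_Ch.1 (hx' i)).1) S
        (Fintype.mem_piFinset.1 hS) β hβ (fun i n => hb _ (hx' i) n) h hh y hy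
    refine (sum_le_sum h2).trans ?_
    rw [sum_const, nsmul_eq_mul]
    refine mul_le_mul_of_nonneg_right ?_ hR0
    rw [Fintype.card_piFinset]
    have h3 : ∏ i : Fin k, (Sm Y (md (x i))).card ≤ Y ^ k := by
      have h4 : ∏ i : Fin k, (Sm Y (md (x i))).card ≤ ∏ _i : Fin k, Y :=
        prod_le_prod' fun i _ => card_Sm _ _
      rw [prod_const, card_univ, Fintype.card_fin] at h4
      exact h4
    exact_mod_cast h3
  refine (sum_le_sum h1).trans ?_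
  rw [sum_const, nsmul_eq_mul, ← mul_assoc]
  refine mul_le_mul_of_nonneg_right ?_ hR0
  refine mul_le_mul_of_nonneg_right ?_ (by positivity)
  rw [Fintype.card_piFinset_const, pow_mul]
  have h5 := Nat.pow_le_pow_left (card_Ch Q) k
  exact_mod_cast h5

lemma pow_sub_le (a m : ℝ) (ha : 0 ≤ a) (hm : 0 ≤ m) (hma : m ≤ a) (β : ℝ) (haβ : a ≤ β)
    (hβ : 1 ≤ β) (k : ℕ) : a ^ k - m ^ k ≤ (a - m) * (k * β ^ k) := by
  have h1 := abs_pow_sub_pow_le a m k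
  have h2 : a ^ k - m ^ k ≤ |a ^ k - m ^ k| := le_abs_self _
  rw [abs_of_nonneg (sub_nonneg.2 hma), abs_of_nonneg ha, abs_of_nonneg hm, max_eq_left hma] at h1
  have h3 : a ^ (k - 1) ≤ β ^ k :=
    (pow_le_pow_left₀ ha haβ _).trans (pow_le_pow_right₀ hβ (Nat.sub_le _ _))
  have h4 : (a - m) * k * a ^ (k - 1) ≤ (a - m) * k * β ^ k :=
    mul_le_mul_of_nonneg_left h3 (mul_nonneg (sub_nonneg.2 hma) (Nat.cast_nonneg _))
  linarith

lemma sum_b {k : ℕ} (M : Finset CI) (b : CI → ℝ) :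
    ∑ x ∈ Fintype.piFinset (fun _ : Fin k => M), ∏ i, b (x i) = (∑ x ∈ M, b x) ^ k := by
  rw [sum_pow']

lemma norm_G_le {k : ℕ} (X Q : ℕ) (b : CI → ℝ) (x : Fin k → CI)
    (hb : ∀ i, ∀ n, ‖Mc X Q (x i) n‖ ≤ b (x i)) (h : Fin k → ℕ) (y : ℕ) (hy : y ≤ X) :
    ‖∑ n ∈ Icc 1 y, ∏ i, Mc X Q (x i) (n + h i)‖ ≤ X * ∏ i, b (x i) := by
  have h0 : 0 ≤ ∏ i, b (x i) := prod_nonneg fun i _ => (norm_nonneg _).trans (hb i 0)
  refine (norm_sum_le _ _).trans ?_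
  have h1 : ∀ n ∈ Icc 1 y, ‖∏ i, Mc X Q (x i) (n + h i)‖ ≤ ∏ i, b (x i) := by
    intro n _
    rw [norm_prod]
    exact prod_le_prod (fun i _ => norm_nonneg _) fun i _ => hb i _
  refine (sum_le_sum h1).trans ?_
  rw [sum_const, Nat.card_Icc, Nat.add_sub_cancel, nsmul_eq_mul]
  exact mul_le_mul_of_nonneg_right (by exact_mod_cast hy) h0

end MainTAux

open MainTAux

open scoped Classical in
theorem mainT (k : ℕ) (hk : 1 ≤ k) (B : ℝ) : ∃ c C : ℝ, 0 < c ∧ 0 < C ∧ ∃ X0 : ℕ,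
    ∀ X Q : ℕ, X0 ≤ X → Rg c X Q → ∀ b : CI → ℝ, (∀ x ∈ Ch Q, ∀ n, ‖Mc X Q x n‖ ≤ b x) →
    ∑ x ∈ Ch Q, b x ≤ B → ∀ (M : Finset CI) (E : ℝ), M ⊆ Ch Q → ∑ x ∈ Ch Q \ M, b x ≤ E →
    ∀ h ∈ Tup k (Icc 1 X), Function.Injective h → ∀ y : ℕ, y ≤ X →
    ‖∑ n ∈ Icc 1 y, ∏ i, LL X Q (Q ^ (8 * k)) (n + h i) -
      ∑ x ∈ Fintype.piFinset (fun _ : Fin k => M),
        TP (Q ^ (8 * k)) x h * ∑ n ∈ Icc 1 y, ∏ i, Mc X Q (x i) (n + h i)‖ ≤
      C * SZ (Q ^ (8 * k)) h * X * E + X / Q := by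
  classical
  obtain ⟨X0t, htail⟩ := tail k hk
  set β : ℝ := max 1 B with hβdef
  have hβ : 1 ≤ β := le_max_left _ _
  have hBβ : B ≤ β := le_max_right _ _
  have hβ0 : 0 < β := by linarith
  set K : ℕ := 16 * k ^ 2 + 4 * k + 6 with hK
  have hK0 : (0 : ℝ) < K := by
    have : 0 < K := by omega
    exact_mod_cast this
  set A : ℝ := 3 * β ^ k with hA
  have hβk : 1 ≤ β ^ k := one_le_pow₀ hβ
  have hA3 : 3 ≤ A := by rw [hA]; linarith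
  set D : ℝ := 6 * (1 + 40 * k) * β ^ k with hD
  have hD0 : 0 < D := by positivity
  refine ⟨1 / (2 * K), k * β ^ k, by positivity, by positivity,
    max (max X0t ⌈Real.exp ((4 * Real.log A) ^ 2)⌉₊) ⌈D ^ 2⌉₊, ?_⟩
  intro X Q hX hRg b hb hbB M E hM hE h hh hinj y hy
  have hX1 : X0t ≤ X := ((le_max_left _ _).trans (le_max_left _ _)).trans hX
  have hX2 : Real.exp ((4 * Real.log A) ^ 2) ≤ X :=
    Nat.ceil_le.1 (((le_max_right _ _).trans (le_max_left _ _)).trans hX)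
  have hX3 : D ^ 2 ≤ X := Nat.ceil_le.1 ((le_max_right _ _).trans hX)
  have hXpos : (0 : ℝ) < X := lt_of_lt_of_le (Real.exp_pos _) hX2
  have hXone : (1 : ℝ) ≤ X := by
    have : 0 < X := by exact_mod_cast hXpos
    exact_mod_cast this
  have hlA : 0 ≤ Real.log A := Real.log_nonneg (by linarith)
  have hQA : A ^ 2 ≤ Q := by
    refine le_trans ?_ hRg.1
    have h1 : (4 * Real.log A) ^ 2 ≤ Real.log X := by
      rw [Real.le_log_iff_exp_le hXpos]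
      exact hX2
    have h2 : 4 * Real.log A ≤ Real.sqrt (Real.log X) := Real.le_sqrt_of_sq_le h1
    have h3 : A ^ 2 = Real.exp (2 * Real.log A) := by
      rw [mul_comm, Real.exp_mul, Real.exp_log (by linarith)]
      norm_num
    rw [h3]
    exact Real.exp_le_exp.2 (by linarith)
  have hQ9 : (9 : ℝ) ≤ Q := by nlinarith
  have hQ2 : 2 ≤ Q := by
    have : (2 : ℝ) ≤ Q := by linarith
    exact_mod_cast this
  have hQ0 : (0 : ℝ) < Q := by linarith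
  have hQ1 : (1 : ℝ) ≤ Q := by linarith
  have hQK : (Q : ℝ) ^ K ≤ Real.sqrt X := by
    have h1 : (Q : ℝ) ^ K ≤ ((X : ℝ) ^ (1 / (2 * K : ℝ))) ^ K := pow_le_pow_left₀ hQ0.le hRg.2 K
    refine h1.trans (le_of_eq ?_)
    rw [← Real.rpow_natCast, ← Real.rpow_mul hXpos.le, Real.sqrt_eq_rpow]
    congr 1
    field_simp
  have hsq : Real.sqrt X * Real.sqrt X = X := Real.mul_self_sqrt hXpos.le
  have hs1 : 1 ≤ Real.sqrt X := Real.one_le_sqrt.2 hXone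
  have hDs : D ≤ Real.sqrt X := Real.le_sqrt_of_sq_le hX3
  have hQ5 : Q ^ 5 ≤ X := by
    have h1 : (Q : ℝ) ^ 5 ≤ (Q : ℝ) ^ K := pow_le_pow_right₀ hQ1 (by omega)
    have h2 : (Q : ℝ) ^ 5 ≤ X := by nlinarith
    exact_mod_cast h2
  have hRg1 : Rg 1 X Q := by
    refine ⟨hRg.1, hRg.2.trans ?_⟩
    refine Real.rpow_le_rpow_of_exponent_le hXone ?_
    rw [div_le_one (by positivity)]
    have : (1 : ℝ) ≤ K := by
      have : 1 ≤ K := by omega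
      exact_mod_cast this
    linarith
  have hh' : ∀ i, h i ≤ X := by
    intro i
    have h1 := Fintype.mem_piFinset.1 hh i
    exact (mem_Icc.1 h1).2
  have hb0 : ∀ x ∈ Ch Q, 0 ≤ b x := fun x hx => (norm_nonneg _).trans (hb x hx 0)
  have hMB : ∀ x ∈ Ch Q, ∀ n, ‖Mc X Q x n‖ ≤ β := fun x hx n =>
    ((hb x hx n).trans ((single_le_sum hb0 hx).trans hbB)).trans hBβ
  set Y : ℕ := Q ^ (8 * k) with hY
  have hQY : Q ≤ Y := Nat.le_self_pow (by omega) Q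
  -- step 1
  have s1 := step1 k X Q hQ2 hQ5 Y β hβ hMB h hh' y hy
  have s1' : (Q : ℝ) ^ (2 * k) * (Y : ℝ) ^ k * (2 * ((Q : ℝ) ^ k * (Y : ℝ) ^ k) * (Q : ℝ) ^ k *
      (β ^ k + k * β ^ k * (40 * (Q : ℝ) ^ 5))) ≤ X / (3 * Q) := by
    rw [le_div_iff₀ (by positivity)]
    have hQ51 : (1 : ℝ) ≤ (Q : ℝ) ^ 5 := one_le_pow₀ hQ1
    have h1 : β ^ k + k * β ^ k * (40 * (Q : ℝ) ^ 5) ≤ (1 + 40 * k) * β ^ k * (Q : ℝ) ^ 5 := by
      have h2 : β ^ k * 1 ≤ β ^ k * (Q : ℝ) ^ 5 := mul_le_mul_of_nonneg_left hQ51 (by positivity)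
      nlinarith
    have hYR : (Y : ℝ) = (Q : ℝ) ^ (8 * k) := by rw [hY]; push_cast; ring
    have h3 : (Q : ℝ) ^ (2 * k) * (Y : ℝ) ^ k * (2 * ((Q : ℝ) ^ k * (Y : ℝ) ^ k) * (Q : ℝ) ^ k *
        ((1 + 40 * k) * β ^ k * (Q : ℝ) ^ 5)) * (3 * Q) = D * (Q : ℝ) ^ K := by
      rw [hYR, hD, hK]
      ring
    calc (Q : ℝ) ^ (2 * k) * (Y : ℝ) ^ k * (2 * ((Q : ℝ) ^ k * (Y : ℝ) ^ k) * (Q : ℝ) ^ k *
          (β ^ k + k * β ^ k * (40 * (Q : ℝ) ^ 5))) * (3 * Q)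
        ≤ (Q : ℝ) ^ (2 * k) * (Y : ℝ) ^ k * (2 * ((Q : ℝ) ^ k * (Y : ℝ) ^ k) * (Q : ℝ) ^ k *
          ((1 + 40 * k) * β ^ k * (Q : ℝ) ^ 5)) * (3 * Q) := by
          gcongr
      _ = D * (Q : ℝ) ^ K := h3
      _ ≤ Real.sqrt X * Real.sqrt X := mul_le_mul hDs hQK (by positivity) (by positivity)
      _ = X := hsq
  -- the sum of `b`
  have ha0 : 0 ≤ ∑ x ∈ Ch Q, b x := sum_nonneg hb0
  have haβ : ∑ x ∈ Ch Q, b x ≤ β := hbB.trans hBβ
  have hm0 : 0 ≤ ∑ x ∈ M, b x := sum_nonneg fun x hx => hb0 x (hM hx)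
  have hsplit : ∑ x ∈ Ch Q \ M, b x + ∑ x ∈ M, b x = ∑ x ∈ Ch Q, b x := sum_sdiff hM
  have hd0 : 0 ≤ ∑ x ∈ Ch Q \ M, b x := sum_nonneg fun x hx => hb0 x (mem_sdiff.1 hx).1
  have hGx : ∀ x ∈ Fintype.piFinset (fun _ : Fin k => Ch Q),
      ‖∑ n ∈ Icc 1 y, ∏ i, Mc X Q (x i) (n + h i)‖ ≤ X * ∏ i, b (x i) := fun x hx =>
    norm_G_le X Q b x (fun i n => hb _ (Fintype.mem_piFinset.1 hx i) n) h y hy
  have hbx : ∀ x ∈ Fintype.piFinset (fun _ : Fin k => Ch Q), 0 ≤ ∏ i, b (x i) := fun x hx =>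
    prod_nonneg fun i _ => hb0 _ (Fintype.mem_piFinset.1 hx i)
  -- step 2
  have s2 : ‖∑ x ∈ Fintype.piFinset (fun _ : Fin k => Ch Q),
        TY Y x h * ∑ n ∈ Icc 1 y, ∏ i, Mc X Q (x i) (n + h i) -
      ∑ x ∈ Fintype.piFinset (fun _ : Fin k => Ch Q),
        TP Y x h * ∑ n ∈ Icc 1 y, ∏ i, Mc X Q (x i) (n + h i)‖ ≤ X / (3 * Q) := by
    rw [← sum_sub_distrib]
    refine (norm_sum_le _ _).trans ?_
    have h1 : ∀ x ∈ Fintype.piFinset (fun _ : Fin k => Ch Q),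
        ‖TY Y x h * ∑ n ∈ Icc 1 y, ∏ i, Mc X Q (x i) (n + h i) -
          TP Y x h * ∑ n ∈ Icc 1 y, ∏ i, Mc X Q (x i) (n + h i)‖ ≤
        (Q : ℝ) ^ (-(3 / 2 : ℝ)) * (X * ∏ i, b (x i)) := by
      intro x hx
      rw [← sub_mul, norm_mul]
      exact mul_le_mul (htail X Q hX1 hRg1 x h (Fintype.mem_piFinset.1 hx) hh hinj) (hGx x hx)
        (norm_nonneg _) (by positivity)
    refine (sum_le_sum h1).trans ?_
    rw [← mul_sum, ← mul_sum, sum_b]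
    have h2 : (∑ x ∈ Ch Q, b x) ^ k ≤ β ^ k := pow_le_pow_left₀ ha0 haβ k
    have h3 : (Q : ℝ) ^ (-(3 / 2 : ℝ)) * (3 * Q) * β ^ k ≤ 1 := by
      have h4 : (Q : ℝ) ^ (-(3 / 2 : ℝ)) * Q = ((Q : ℝ) ^ (1 / 2 : ℝ))⁻¹ := by
        rw [← Real.rpow_neg hQ0.le]
        nth_rewrite 2 [← Real.rpow_one (Q : ℝ)]
        rw [← Real.rpow_add hQ0]
        norm_num
      have h5 : A ≤ (Q : ℝ) ^ (1 / 2 : ℝ) := by
        rw [← Real.sqrt_eq_rpow]
        exact Real.le_sqrt_of_sq_le hQA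
      have h6 : (Q : ℝ) ^ (-(3 / 2 : ℝ)) * (3 * Q) * β ^ k =
          ((Q : ℝ) ^ (-(3 / 2 : ℝ)) * Q) * A := by rw [hA]; ring
      rw [h6, h4, inv_mul_le_iff₀ (by positivity), mul_one]
      exact h5
    rw [le_div_iff₀ (by positivity)]
    calc (Q : ℝ) ^ (-(3 / 2 : ℝ)) * (X * (∑ x ∈ Ch Q, b x) ^ k) * (3 * Q)
        ≤ (Q : ℝ) ^ (-(3 / 2 : ℝ)) * (X * β ^ k) * (3 * Q) := by gcongr
      _ = ((Q : ℝ) ^ (-(3 / 2 : ℝ)) * (3 * Q) * β ^ k) * X := by ring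
      _ ≤ 1 * X := mul_le_mul_of_nonneg_right h3 hXpos.le
      _ = X := one_mul _
  -- step 3
  have hMsub : Fintype.piFinset (fun _ : Fin k => M) ⊆ Fintype.piFinset (fun _ : Fin k => Ch Q) :=
    Fintype.piFinset_subset _ _ fun _ => hM
  have hTP : ∀ x ∈ Fintype.piFinset (fun _ : Fin k => Ch Q), ‖TP Y x h‖ ≤ SZ Y h := fun x hx =>
    TP_le Y x (fun i => ((mem_Ch.1 (Fintype.mem_piFinset.1 hx i)).1).trans hQY) h
  have hSZ : 0 ≤ SZ Y h := by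
    refine (norm_nonneg _).trans (hTP (fun _ => one) ?_)
    exact Fintype.mem_piFinset.2 fun _ => one_mem_Ch (by omega)
  have s3 : ‖∑ x ∈ Fintype.piFinset (fun _ : Fin k => Ch Q),
        TP Y x h * ∑ n ∈ Icc 1 y, ∏ i, Mc X Q (x i) (n + h i) -
      ∑ x ∈ Fintype.piFinset (fun _ : Fin k => M),
        TP Y x h * ∑ n ∈ Icc 1 y, ∏ i, Mc X Q (x i) (n + h i)‖ ≤
      k * β ^ k * SZ Y h * X * E := by
    rw [← sum_sdiff hMsub, add_sub_cancel_right]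
    refine (norm_sum_le _ _).trans ?_
    have h1 : ∀ x ∈ Fintype.piFinset (fun _ : Fin k => Ch Q) \
        Fintype.piFinset (fun _ : Fin k => M),
        ‖TP Y x h * ∑ n ∈ Icc 1 y, ∏ i, Mc X Q (x i) (n + h i)‖ ≤
        SZ Y h * (X * ∏ i, b (x i)) := by
      intro x hx
      have hx' := (mem_sdiff.1 hx).1
      rw [norm_mul]
      exact mul_le_mul (hTP x hx') (hGx x hx') (norm_nonneg _) hSZ
    refine (sum_le_sum h1).trans ?_
    rw [← mul_sum, ← mul_sum]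
    have h2 : ∑ x ∈ Fintype.piFinset (fun _ : Fin k => Ch Q) \
        Fintype.piFinset (fun _ : Fin k => M), ∏ i, b (x i) =
        (∑ x ∈ Ch Q, b x) ^ k - (∑ x ∈ M, b x) ^ k := by
      rw [← sum_b, ← sum_b, ← sum_sdiff hMsub, add_sub_cancel_right]
    have h3 := pow_sub_le (∑ x ∈ Ch Q, b x) (∑ x ∈ M, b x) ha0 hm0 (by linarith) β haβ hβ k
    have h4 : (∑ x ∈ Ch Q, b x - ∑ x ∈ M, b x) * (k * β ^ k) ≤ E * (k * β ^ k) :=
      mul_le_mul_of_nonneg_right (by linarith) (by positivity)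
    rw [h2]
    calc SZ Y h * (X * ((∑ x ∈ Ch Q, b x) ^ k - (∑ x ∈ M, b x) ^ k))
        ≤ SZ Y h * (X * (E * (k * β ^ k))) :=
          mul_le_mul_of_nonneg_left (mul_le_mul_of_nonneg_left (h3.trans h4) hXpos.le) hSZ
      _ = k * β ^ k * SZ Y h * X * E := by ring
  have e3 : (X : ℝ) / (3 * Q) + X / (3 * Q) ≤ X / Q := by
    have h1 : (X : ℝ) / Q = 3 * (X / (3 * Q)) := by
      field_simp
    have h2 : 0 ≤ (X : ℝ) / (3 * Q) := by positivity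
    linarith
  have tri : ∀ (a1 a2 a3 a4 : ℂ) (r1 r2 r3 : ℝ), ‖a1 - a2‖ ≤ r1 → ‖a2 - a3‖ ≤ r2 →
      ‖a3 - a4‖ ≤ r3 → ‖a1 - a4‖ ≤ r1 + r2 + r3 := by
    intro a1 a2 a3 a4 r1 r2 r3 h1 h2 h3
    have : a1 - a4 = (a1 - a2) + (a2 - a3) + (a3 - a4) := by ring
    rw [this]
    exact norm_add₃_le.trans (add_le_add (add_le_add h1 h2) h3)
  exact (tri _ _ _ _ _ _ _ (s1.trans s1') s2 s3).trans (by linarith)

end Pool.Agent.Lib.GMV
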