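import Pool.Agent.Lib.GMV.Compl
import Pool.Agent.Lib.GMV.Kern

/-!
# GMV.PosM (1.5 h): positivity of the main term with an exceptional character

PROOF. `M = {one, xe}`. Every `P0 Y x`, `x ∈ M^k`, divides `R = (md xe)^k ∏_{p ≤ Y} p` (`md one = 1`), and the function of `TP_eq` has period `P0 Y x`
(`cv x (n + md x) = cv x n`, `nuz Y` has period `∏_{p≤Y} p`), so `TP Y x h = av R (...)` (`av_period`). Exchange the finite sums: the sum over `x ∈ M^k` of
`∏ conj cv (x i) (n' + h i) · nuz Y (n' + h i) · Mc X Q (x i) (n + h i)` is (`Finset.prod_univ_sum`, `one ≠ xe`)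
`∏_i nuz Y (n' + h i) · (Mc one (n + h i) + conj cv xe (n' + h i) · Mc xe (n + h i))`, `n'` the variable of the mean, `n ∈ Icc 1 y`.
All these numbers are real: `xe.2^2 = 1`, so `cv xe m ∈ {0, 1, -1}`, and `Mc one m = ∑ Kf W =: a(m) ≥ 0`, `Mc xe m = ∑ Kf W cv xe =: e(m)`, `|e| ≤ a` (`Kf, W ≥ 0`,
`norm_cv_le`; `cv one = 1`). With `s ∈ {0, 1, -1}`: `a + s e ≥ a - |e| ≥ 0`. So the product over `i` is at least
`∏ nuz Y (n' + h i) · ∏ (a - |e|)(n + h i)`, and the mean over `n'` of `∏ nuz Y (n' + h i)` is `SZ Y h` (`TP_one` with `TP_eq`).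
-/

set_option autoImplicit false

open Finset Filter

namespace Pool.Agent.Lib.GMV

open Pool.Agent.HLB Pool.Agent.HLT Pool.Agent.HLR

namespace PosMAux

lemma cv_one' (n : ℕ) : cv one n = 1 := by
  unfold cv one
  refine MulChar.one_apply ?_
  have : Subsingleton (ZMod (0 + 1)) := inferInstanceAs (Subsingleton (ZMod 1))
  exact isUnit_of_subsingleton _

lemma Kf_nonneg (U : ℕ) (d : ℤ) : 0 ≤ Kf U d :=
  div_nonneg (le_max_left _ _) (sq_nonneg _)

/-- the weight -/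
noncomputable def kw (X Q n m : ℕ) : ℝ := Kf (X / Q ^ 5) ((m : ℤ) - n) * W X Q m

lemma kw_nonneg (X Q n m : ℕ) : 0 ≤ kw X Q n m := mul_nonneg (Kf_nonneg _ _) (W_nonneg _ _ _)

lemma Mc_eq (X Q : ℕ) (x : CI) (n : ℕ) :
    Mc X Q x n = ∑ m ∈ range (4 * X), ((kw X Q n m : ℝ) : ℂ) * cv x m := rfl

lemma Mc_one (X Q n : ℕ) : Mc X Q one n = ((∑ m ∈ range (4 * X), kw X Q n m : ℝ) : ℂ) := by
  rw [Mc_eq, Complex.ofReal_sum]
  exact Finset.sum_congr rfl fun m _ => by rw [cv_one', mul_one]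

lemma norm_Mc_le (X Q : ℕ) (x : CI) (n : ℕ) :
    ‖Mc X Q x n‖ ≤ ∑ m ∈ range (4 * X), kw X Q n m := by
  rw [Mc_eq]
  refine (norm_sum_le _ _).trans (Finset.sum_le_sum fun m _ => ?_)
  rw [norm_mul, Complex.norm_real, Real.norm_of_nonneg (kw_nonneg _ _ _ _)]
  exact mul_le_of_le_one_right (kw_nonneg _ _ _ _) (norm_cv_le x m)

lemma diff_nonneg (X Q : ℕ) (xe : CI) (n : ℕ) :
    0 ≤ (Mc X Q one n).re - |(Mc X Q xe n).re| := by
  have h1 := (Complex.abs_re_le_norm (Mc X Q xe n)).trans (norm_Mc_le X Q xe n)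
  rw [Mc_one, Complex.ofReal_re]
  linarith

/-- real values -/
noncomputable def sv (x : CI) (n : ℕ) : ℝ := (cv x n).re

lemma cv_real (x : CI) (h2 : x.2 ^ 2 = 1) (n : ℕ) : cv x n = (sv x n : ℂ) := by
  have h3 : cv x n = 0 ∨ cv x n = 1 ∨ cv x n = -1 := by
    unfold cv
    by_cases hu : IsUnit (n : ZMod (x.1 + 1))
    · right
      have h4 : x.2 (n : ZMod (x.1 + 1)) ^ 2 = 1 := by
        have h5 := congrArg (fun χ : DirichletCharacter ℂ (x.1 + 1) => χ (n : ZMod (x.1 + 1))) h2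
        simp only [MulChar.one_apply hu] at h5
        rw [← h5, MulChar.pow_apply' _ two_ne_zero]
      exact sq_eq_one_iff.1 h4
    · left
      exact MulChar.map_nonunit _ hu
  unfold sv
  rcases h3 with h | h | h <;> rw [h] <;> simp

lemma abs_sv_le (x : CI) (n : ℕ) : |sv x n| ≤ 1 :=
  (Complex.abs_re_le_norm _).trans (norm_cv_le x n)

lemma Mc_real (X Q : ℕ) (x : CI) (h2 : x.2 ^ 2 = 1) (n : ℕ) :
    Mc X Q x n = ((Mc X Q x n).re : ℂ) := by
  have h3 : Mc X Q x n = ((∑ m ∈ range (4 * X), kw X Q n m * sv x m : ℝ) : ℂ) := by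
    rw [Mc_eq, Complex.ofReal_sum]
    refine Finset.sum_congr rfl fun m _ => ?_
    rw [cv_real x h2, Complex.ofReal_mul]
  rw [h3, Complex.ofReal_re]

lemma cv_add_dvd (x : CI) (n d : ℕ) (h : md x ∣ d) : cv x (n + d) = cv x n := by
  obtain ⟨j, rfl⟩ := h
  exact cv_periodic x n j

lemma nuz_add (Y n d : ℕ) (h : ∀ p ∈ Nat.primesLE Y, p ∣ d) : nuz Y (n + d) = nuz Y n := by
  unfold nuz ic
  congr 1
  refine if_congr ?_ rfl rfl
  refine forall_congr' fun p => forall_congr' fun hp => not_congr ?_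
  exact (Nat.dvd_add_iff_left (h p hp)).symm

/-- the function in `TP_eq` -/
noncomputable def fT {k : ℕ} (Y : ℕ) (x : Fin k → CI) (h : Fin k → ℕ) (n : ℕ) : ℂ :=
  ∏ i, ((starRingEnd ℂ) (cv (x i) (n + h i)) * (nuz Y (n + h i) : ℂ))

lemma ff_per {k : ℕ} (Y : ℕ) (x : Fin k → CI) (h : Fin k → ℕ) (n : ℕ) :
    fT Y x h (n + P0 Y x) = fT Y x h n := by
  unfold fT
  refine Finset.prod_congr rfl fun i _ => ?_
  have h1 : n + P0 Y x + h i = (n + h i) + P0 Y x := by ring
  rw [h1, cv_add_dvd, nuz_add]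
  · intro _ hp
    exact Dvd.dvd.mul_left (Finset.dvd_prod_of_mem (fun q => q) hp) _
  · exact Dvd.dvd.mul_right (Finset.dvd_prod_of_mem (fun i => md (x i)) (Finset.mem_univ i)) _

lemma primes_pos (Y : ℕ) : 1 ≤ ∏ p ∈ Nat.primesLE Y, p :=
  Finset.prod_pos fun p hp => (Nat.mem_primesLE.1 hp).2.pos

lemma P0_pos {k : ℕ} (Y : ℕ) (x : Fin k → CI) : 1 ≤ P0 Y x :=
  Nat.mul_pos (Finset.prod_pos fun i _ => md_pos (x i)) (primes_pos Y)

/-- the common period -/
noncomputable def RR (k Y : ℕ) (xe : CI) : ℕ := md xe ^ k * ∏ p ∈ Nat.primesLE Y, p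

lemma RR_pos (k Y : ℕ) (xe : CI) : 1 ≤ RR k Y xe :=
  Nat.mul_pos (pow_pos (md_pos xe) k) (primes_pos Y)

lemma av_RR {k : ℕ} (Y : ℕ) (xe : CI) (x : Fin k → CI) (hx : ∀ i, md (x i) ∣ md xe)
    (h : Fin k → ℕ) : av (P0 Y x) (fT Y x h) = av (RR k Y xe) (fT Y x h) := by
  have h1 : P0 Y x ∣ RR k Y xe := by
    unfold P0 RR
    refine Nat.mul_dvd_mul ?_ (dvd_refl _)
    have h2 := Finset.prod_dvd_prod_of_dvd (s := (univ : Finset (Fin k)))
      (fun i => md (x i)) (fun _ => md xe) (fun i _ => hx i)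
    rwa [Finset.prod_const, Finset.card_univ, Fintype.card_fin] at h2
  obtain ⟨m, hm⟩ := h1
  have hm1 : 1 ≤ m := by
    rcases Nat.eq_zero_or_pos m with h0 | h0
    · rw [h0, mul_zero] at hm
      have := RR_pos k Y xe
      omega
    · exact h0
  rw [hm]
  exact (av_period (P0 Y x) m (P0_pos Y x) hm1 (fT Y x h) (ff_per Y x h)).symm

lemma md_one : md one = 1 := rfl

end PosMAux

open PosMAux

open scoped Classical in
theorem posM {k : ℕ} (X Q Y y : ℕ) (xe : CI) (hxe : xe ≠ one) (h2 : xe.2 ^ 2 = 1)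
    (hY : md xe ≤ Y) (h : Fin k → ℕ) :
    SZ Y h * ∑ n ∈ Icc 1 y, ∏ i, ((Mc X Q one (n + h i)).re - |(Mc X Q xe (n + h i)).re|) ≤
      (∑ x ∈ Fintype.piFinset (fun _ : Fin k => ({one, xe} : Finset CI)),
        TP Y x h * ∑ n ∈ Icc 1 y, ∏ i, Mc X Q (x i) (n + h i)).re := by
  have hY1 : 1 ≤ Y := (md_pos xe).trans_le hY
  set R := RR k Y xe with hR
  have hR0 : (0 : ℝ) < R := by exact_mod_cast RR_pos k Y xe
  have hRc : (R : ℂ) ≠ 0 := by
    have := RR_pos k Y xe
    exact_mod_cast (by omega : R ≠ 0)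
  have hmem : ∀ x ∈ Fintype.piFinset (fun _ : Fin k => ({one, xe} : Finset CI)), ∀ i,
      x i = one ∨ x i = xe := by
    intro x hx i
    have := Fintype.mem_piFinset.1 hx i
    simpa using this
  -- every term
  have hT : ∀ x ∈ Fintype.piFinset (fun _ : Fin k => ({one, xe} : Finset CI)),
      TP Y x h * ∑ n ∈ Icc 1 y, ∏ i, Mc X Q (x i) (n + h i) =
      (∑ m ∈ range R, ∑ n ∈ Icc 1 y, ∏ i, ((starRingEnd ℂ) (cv (x i) (m + h i)) *
        (nuz Y (m + h i) : ℂ) * Mc X Q (x i) (n + h i))) / R := by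
    intro x hx
    have h3 : TP Y x h = av R (fT Y x h) := by
      rw [TP_eq Y x (fun i => ?_) h]
      · exact av_RR Y xe x (fun i => by
          rcases hmem x hx i with h4 | h4
          · rw [h4, md_one]; exact one_dvd _
          · rw [h4]) h
      · rcases hmem x hx i with h4 | h4
        · rw [h4, md_one]; exact hY1
        · rw [h4]; exact hY
    rw [h3]
    unfold av fT
    rw [div_mul_eq_mul_div, Finset.sum_mul_sum]
    congr 1
    refine Finset.sum_congr rfl fun m _ => Finset.sum_congr rfl fun n _ => ?_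
    rw [← Finset.prod_mul_distrib]
  have hS : (∑ x ∈ Fintype.piFinset (fun _ : Fin k => ({one, xe} : Finset CI)),
        TP Y x h * ∑ n ∈ Icc 1 y, ∏ i, Mc X Q (x i) (n + h i)) =
      (∑ m ∈ range R, ∑ n ∈ Icc 1 y, ∏ i, ((nuz Y (m + h i) : ℂ) *
        (Mc X Q one (n + h i) + (starRingEnd ℂ) (cv xe (m + h i)) * Mc X Q xe (n + h i)))) / R := by
    rw [Finset.sum_congr rfl hT, ← Finset.sum_div, Finset.sum_comm]
    congr 1
    refine Finset.sum_congr rfl fun m _ => ?_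
    rw [Finset.sum_comm]
    refine Finset.sum_congr rfl fun n _ => ?_
    have h5 := Finset.prod_univ_sum (fun _ : Fin k => ({one, xe} : Finset CI))
      (fun (i : Fin k) (c : CI) => (starRingEnd ℂ) (cv c (m + h i)) *
        (nuz Y (m + h i) : ℂ) * Mc X Q c (n + h i))
    rw [← h5]
    refine Finset.prod_congr rfl fun i _ => ?_
    rw [Finset.sum_pair (Ne.symm hxe), cv_one', map_one]
    ring
  have hreal : (∑ m ∈ range R, ∑ n ∈ Icc 1 y, ∏ i, ((nuz Y (m + h i) : ℂ) *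
        (Mc X Q one (n + h i) + (starRingEnd ℂ) (cv xe (m + h i)) * Mc X Q xe (n + h i)))) / R =
      (((∑ m ∈ range R, ∑ n ∈ Icc 1 y, ∏ i, (nuz Y (m + h i) *
        ((Mc X Q one (n + h i)).re + sv xe (m + h i) * (Mc X Q xe (n + h i)).re))) / R : ℝ) : ℂ) := by
    rw [Complex.ofReal_div, Complex.ofReal_natCast, Complex.ofReal_sum]
    congr 1
    refine Finset.sum_congr rfl fun m _ => ?_
    rw [Complex.ofReal_sum]
    refine Finset.sum_congr rfl fun n _ => ?_
    rw [Complex.ofReal_prod]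
    refine Finset.prod_congr rfl fun i _ => ?_
    rw [Complex.ofReal_mul, Complex.ofReal_add, Complex.ofReal_mul, ← Mc_real X Q xe h2,
      cv_real xe h2, Complex.conj_ofReal]
    congr 2
    rw [Mc_one, Complex.ofReal_re]
  rw [hS, hreal, Complex.ofReal_re]
  -- the mean of the product of the weights
  have hmean : (∑ m ∈ range R, ∏ i, nuz Y (m + h i)) / R = SZ Y h := by
    have h6 := TP_one Y hY1 h
    rw [TP_eq Y (fun _ : Fin k => one) (fun _ => by rw [md_one]; exact hY1) h] at h6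
    have h7 := av_RR Y xe (fun _ : Fin k => one) (fun _ => by rw [md_one]; exact one_dvd _) h
    have h8 : av (P0 Y (fun _ : Fin k => one)) (fT Y (fun _ : Fin k => one) h) = (SZ Y h : ℂ) := h6
    rw [h7] at h8
    have h9 : av R (fT Y (fun _ : Fin k => one) h) =
        (((∑ m ∈ range R, ∏ i, nuz Y (m + h i)) / R : ℝ) : ℂ) := by
      unfold av fT
      rw [Complex.ofReal_div, Complex.ofReal_natCast, Complex.ofReal_sum]
      congr 1
      refine Finset.sum_congr rfl fun m _ => ?_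
      rw [Complex.ofReal_prod]
      refine Finset.prod_congr rfl fun i _ => ?_
      rw [cv_one', map_one, one_mul]
    rw [h9] at h8
    exact_mod_cast h8
  rw [← hmean, div_mul_eq_mul_div, Finset.sum_mul_sum]
  refine div_le_div_of_nonneg_right ?_ hR0.le
  refine Finset.sum_le_sum fun m _ => Finset.sum_le_sum fun n _ => ?_
  rw [← Finset.prod_mul_distrib]
  refine Finset.prod_le_prod (fun i _ => mul_nonneg (nuz_nonneg _ _) (diff_nonneg _ _ _ _))
    fun i _ => mul_le_mul_of_nonneg_left ?_ (nuz_nonneg _ _)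
  have h10 : |sv xe (m + h i) * (Mc X Q xe (n + h i)).re| ≤ |(Mc X Q xe (n + h i)).re| := by
    rw [abs_mul]
    exact mul_le_of_le_one_left (abs_nonneg _) (abs_sv_le _ _)
  have h11 := neg_abs_le (sv xe (m + h i) * (Mc X Q xe (n + h i)).re)
  linarith

/-- `|e| ≤ a`. -/
theorem posM_nonneg (X Q : ℕ) (xe : CI) (n : ℕ) :
    0 ≤ (Mc X Q one n).re - |(Mc X Q xe n).re| := diff_nonneg X Q xe n

end Pool.Agent.Lib.GMV
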