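import Pool.Agent.Lib.GMV.Model
import Pool.Agent.Lib.BVH.Gauss

/-!
# GMV.Ram: Ramanujan sums in terms of primitive characters (paper 2.3)

PROOF. For `q ≥ 1` let `A q = ∑_{b<q, (b,q)=1} ex(b (m-n)/q)` and
`B q = ∑_{x ∈ Ch Q} rho x cv x m conj (cv x n) ∑_{S : set of primes not dividing md x, md x * ∏ S = q} ∏ wp p n`.
`A q = B q` for all `q ≤ Q` by strong induction from `∑_{d ∣ q} A d = ∑_{d ∣ q} B d`.
-/

set_option autoImplicit false

open Finset Filter

namespace Pool.Agent.Lib.GMV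

open Pool.Agent.HLB Pool.Agent.HLT Pool.Agent.HLR

namespace RamAux

open Pool.Agent.BVH.GaussAux

/-- the Ramanujan sum -/
noncomputable def RA (k : ℤ) (q : ℕ) : ℂ :=
  ∑ b ∈ (range q).filter (fun b => b.Coprime q), ex ((b : ℝ) * (k : ℝ) / q)

lemma sum_range_zmod (q : ℕ) [NeZero q] (f : ZMod q → ℂ) :
    ∑ b ∈ range q, f (b : ZMod q) = ∑ z : ZMod q, f z := by
  refine Finset.sum_nbij' (fun b => (b : ZMod q)) (fun z => z.val) ?_ ?_ ?_ ?_ ?_
  · intro b _; exact mem_univ _
  · intro z _; rw [mem_range]; exact ZMod.val_lt z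
  · intro b hb; exact ZMod.val_cast_of_lt (mem_range.1 hb)
  · intro z _; exact ZMod.natCast_zmod_val z
  · intro b _; rfl

lemma ee_int (q : ℕ) [NeZero q] (b : ℕ) (k : ℤ) :
    ee ((b : ZMod q) * (k : ZMod q)) = ex ((b : ℝ) * (k : ℝ) / q) := by
  have h := ZMod.stdAddChar_coe (N := q) ((b : ℤ) * k)
  have h1 : ((((b : ℤ) * k : ℤ)) : ZMod q) = (b : ZMod q) * (k : ZMod q) := by push_cast; ring
  rw [h1] at h
  unfold ee
  rw [h]
  unfold ex
  congr 1
  push_cast
  ring

/-- complete exponential sum -/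
lemma sum_full (q : ℕ) (hq : 1 ≤ q) (k : ℤ) :
    ∑ b ∈ range q, ex ((b : ℝ) * (k : ℝ) / q) = if (q : ℤ) ∣ k then (q : ℂ) else 0 := by
  haveI : NeZero q := ⟨by omega⟩
  have h1 : ∀ b ∈ range q, ex ((b : ℝ) * (k : ℝ) / q) =
      (fun z : ZMod q => ee (z * (k : ZMod q))) (b : ZMod q) := by
    intro b _
    exact (ee_int q b k).symm
  rw [sum_congr rfl h1, sum_range_zmod q (fun z => ee (z * (k : ZMod q))), sum_ee]
  congr 1
  rw [eq_iff_iff]
  exact ZMod.intCast_zmod_eq_zero_iff_dvd k q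

/-- fractions sorted by their reduced denominators -/
lemma sum_RA (q : ℕ) (hq : 1 ≤ q) (k : ℤ) :
    ∑ d ∈ q.divisors, RA k d = if (q : ℤ) ∣ k then (q : ℂ) else 0 := by
  rw [← sum_full q hq k]
  have hq0 : q ≠ 0 := by omega
  have hmaps : ∀ b ∈ range q, q / q.gcd b ∈ q.divisors := by
    intro b _
    rw [Nat.mem_divisors]
    exact ⟨Nat.div_dvd_of_dvd (Nat.gcd_dvd_left q b), hq0⟩
  rw [← sum_fiberwise_of_maps_to hmaps]
  refine sum_congr rfl fun d hd => ?_
  obtain ⟨hdq, -⟩ := Nat.mem_divisors.1 hd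
  obtain ⟨e, he⟩ := hdq
  have hd0 : 0 < d := Nat.pos_of_ne_zero (by rintro rfl; simp at he; exact hq0 he)
  have he0 : 0 < e := Nat.pos_of_ne_zero (by rintro rfl; simp at he; exact hq0 he)
  unfold RA
  refine Finset.sum_nbij' (fun b => e * b) (fun b => b / e) ?_ ?_ ?_ ?_ ?_
  · intro b hb
    rw [mem_filter, mem_range] at hb
    rw [mem_filter, mem_range]
    refine ⟨?_, ?_⟩
    · rw [he, mul_comm d e]; exact Nat.mul_lt_mul_of_pos_left hb.1 he0
    · have h1 : q.gcd (e * b) = e := by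
        rw [he, mul_comm d e, Nat.gcd_mul_left, Nat.Coprime.gcd_eq_one hb.2.symm, mul_one]
      rw [h1, he, Nat.mul_div_cancel _ he0]
  · intro b hb
    rw [mem_filter, mem_range] at hb
    rw [mem_filter, mem_range]
    obtain ⟨hb1, hb2⟩ := hb
    have hg : q.gcd b = e := by
      have h2 : q.gcd b ∣ q := Nat.gcd_dvd_left q b
      have h3 : q / q.gcd b * q.gcd b = q := Nat.div_mul_cancel h2
      rw [hb2] at h3
      exact Nat.eq_of_mul_eq_mul_left hd0 (h3.trans he)
    have heb : e ∣ b := hg ▸ Nat.gcd_dvd_right q b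
    obtain ⟨c, hc⟩ := heb
    rw [hc, Nat.mul_div_cancel_left c he0]
    refine ⟨?_, ?_⟩
    · rw [hc, he, mul_comm d e] at hb1
      exact Nat.lt_of_mul_lt_mul_left hb1
    · rw [hc, he, mul_comm d e, Nat.gcd_mul_left] at hg
      have : d.gcd c = 1 := Nat.eq_of_mul_eq_mul_left he0 (by rw [hg, mul_one])
      exact Nat.Coprime.symm this
  · intro b _
    exact Nat.mul_div_cancel_left b he0
  · intro b hb
    rw [mem_filter, mem_range] at hb
    obtain ⟨hb1, hb2⟩ := hb
    have hg : q.gcd b = e := by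
      have h2 : q.gcd b ∣ q := Nat.gcd_dvd_left q b
      have h3 : q / q.gcd b * q.gcd b = q := Nat.div_mul_cancel h2
      rw [hb2] at h3
      exact Nat.eq_of_mul_eq_mul_left hd0 (h3.trans he)
    have heb : e ∣ b := hg ▸ Nat.gcd_dvd_right q b
    exact Nat.mul_div_cancel' heb
  · intro b _
    congr 1
    have hd1 : (d : ℝ) ≠ 0 := by exact_mod_cast hd0.ne'
    have he1 : (e : ℝ) ≠ 0 := by exact_mod_cast he0.ne'
    rw [he]
    push_cast
    field_simp

/-- the sets of primes occurring in `B q` -/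
noncomputable def PS (r q : ℕ) : Finset (Finset ℕ) :=
  ((q.primeFactors.filter fun p => ¬ p ∣ r).powerset).filter fun S => r * ∏ p ∈ S, p = q

/-- the inner sum -/
noncomputable def HS (r q n : ℕ) : ℝ := ∑ S ∈ PS r q, ∏ p ∈ S, wp p n

lemma prod_dvd_of_subset {S : Finset ℕ} {N : ℕ} (_hN : N ≠ 0) (hS : S ⊆ N.primeFactors) :
    ∏ p ∈ S, p ∣ N := by
  refine Finset.prod_primes_dvd N (fun p hp => ?_) (fun p hp => ?_)
  · exact (Nat.prime_of_mem_primeFactors (hS hp)).prime
  · exact Nat.dvd_of_mem_primeFactors (hS hp)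

lemma prod_pos_of_primes {S : Finset ℕ} (hS : ∀ p ∈ S, p.Prime) : 0 < ∏ p ∈ S, p :=
  Finset.prod_pos fun p hp => (hS p hp).pos

/-- `DD` as a sum over `q` -/
lemma DD_eq (Q r n : ℕ) (hr : 0 < r) : DD (Q / r) r n = ∑ q ∈ Icc 1 Q, HS r q n := by
  unfold DD HS
  have h := Finset.sum_comm' (s := Icc 1 Q) (t := fun q => PS r q) (t' := Sm (Q / r) r)
    (s' := fun S => {r * ∏ p ∈ S, p}) (f := fun _ S => ∏ p ∈ S, wp p n) (by
      intro q S
      unfold PS Sm
      rw [mem_Icc, mem_filter, mem_powerset, mem_singleton, mem_filter, mem_powerset]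
      constructor
      · rintro ⟨⟨hq1, hqQ⟩, hS, he⟩
        refine ⟨he.symm, ?_, ?_⟩
        · intro p hp
          have h1 := hS hp
          rw [mem_filter] at h1
          rw [mem_filter, Nat.mem_primesLE]
          refine ⟨⟨?_, Nat.prime_of_mem_primeFactors h1.1⟩, h1.2⟩
          rw [Nat.le_div_iff_mul_le hr]
          have h2 : p ∣ ∏ p ∈ S, p := Finset.dvd_prod_of_mem _ hp
          have h3 : p * r ∣ q := by
            rw [← he, mul_comm]
            exact Nat.mul_dvd_mul_left r h2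
          exact (Nat.le_of_dvd (by omega) h3).trans hqQ
        · rw [Nat.le_div_iff_mul_le hr, mul_comm, he]; exact hqQ
      · rintro ⟨he, hS, hle⟩
        have hpr : ∀ p ∈ S, p.Prime := by
          intro p hp
          have h1 := hS hp
          rw [mem_filter, Nat.mem_primesLE] at h1
          exact h1.1.2
        have hpos := prod_pos_of_primes hpr
        have hq0 : 0 < q := by rw [he]; exact Nat.mul_pos hr hpos
        refine ⟨⟨hq0, ?_⟩, ?_, he.symm⟩
        · rw [Nat.le_div_iff_mul_le hr, mul_comm] at hle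
          rw [he]; exact hle
        · intro p hp
          have h1 := hS hp
          rw [mem_filter] at h1
          rw [mem_filter, Nat.mem_primeFactors]
          refine ⟨⟨hpr p hp, ?_, hq0.ne'⟩, h1.2⟩
          rw [he]
          exact Dvd.dvd.mul_left (Finset.dvd_prod_of_mem _ hp) r)
  rw [h]
  refine (sum_congr rfl fun S _ => ?_).symm
  rw [sum_singleton]

/-- summation of the inner sums over the divisors -/
lemma sum_HS (q r n : ℕ) (hq : 1 ≤ q) (hr : r ∣ q) :
    ∑ d ∈ q.divisors, HS r d n = ∏ p ∈ q.primeFactors.filter (fun p => ¬ p ∣ r), (1 + wp p n) := by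
  unfold HS
  have hq0 : q ≠ 0 := by omega
  have hr0 : 0 < r := Nat.pos_of_dvd_of_pos hr hq
  rw [Finset.prod_one_add]
  have h := Finset.sum_comm' (s := q.divisors) (t := fun d => PS r d)
    (t' := (q.primeFactors.filter fun p => ¬ p ∣ r).powerset)
    (s' := fun S => {r * ∏ p ∈ S, p}) (f := fun _ S => ∏ p ∈ S, wp p n) (by
      intro d S
      unfold PS
      rw [Nat.mem_divisors, mem_filter, mem_powerset, mem_singleton, mem_powerset]
      constructor
      · rintro ⟨⟨hdq, -⟩, hS, he⟩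
        refine ⟨he.symm, ?_⟩
        intro p hp
        have h1 := hS hp
        rw [mem_filter, Nat.mem_primeFactors] at h1
        rw [mem_filter, Nat.mem_primeFactors]
        exact ⟨⟨h1.1.1, h1.1.2.1.trans hdq, hq0⟩, h1.2⟩
      · rintro ⟨he, hS⟩
        have hpr : ∀ p ∈ S, p.Prime := by
          intro p hp
          have h1 := hS hp
          rw [mem_filter] at h1
          exact Nat.prime_of_mem_primeFactors h1.1
        have hpos := prod_pos_of_primes hpr
        have hd0 : 0 < d := by rw [he]; exact Nat.mul_pos hr0 hpos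
        refine ⟨⟨?_, hq0⟩, ?_, he.symm⟩
        · rw [he]
          obtain ⟨e, he2⟩ := hr
          have he0 : e ≠ 0 := by rintro rfl; simp at he2; exact hq0 he2
          rw [he2]
          refine Nat.mul_dvd_mul_left r ?_
          refine prod_dvd_of_subset he0 fun p hp => ?_
          have h1 := hS hp
          rw [mem_filter, Nat.mem_primeFactors] at h1
          rw [Nat.mem_primeFactors]
          refine ⟨h1.1.1, ?_, he0⟩
          have h2 := h1.1.2.1
          rw [he2] at h2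
          exact (h1.1.1.dvd_mul.1 h2).resolve_left h1.2
        · intro p hp
          have h1 := hS hp
          rw [mem_filter] at h1
          rw [mem_filter, Nat.mem_primeFactors]
          refine ⟨⟨hpr p hp, ?_, hd0.ne'⟩, h1.2⟩
          rw [he]
          exact Dvd.dvd.mul_left (Finset.dvd_prod_of_mem _ hp) r)
  rw [h]
  refine sum_congr rfl fun S _ => ?_
  rw [sum_singleton]

lemma HS_zero {q r n : ℕ} (h : ¬ r ∣ q) : HS r q n = 0 := by
  unfold HS PS
  rw [filter_eq_empty_iff.2, sum_empty]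
  intro S _ he
  exact h ⟨_, he.symm⟩

/-- every character is induced by exactly one primitive character -/
lemma sum_prim (Q q : ℕ) [NeZero q] (hq : q ≤ Q) (F : DirichletCharacter ℂ q → ℂ) (G : CI → ℂ)
    (hFG : ∀ x ∈ Ch Q, ∀ h : x.1 + 1 ∣ q, G x = F (DirichletCharacter.changeLevel h x.2)) :
    ∑ x ∈ (Ch Q).filter (fun x => md x ∣ q), G x = ∑ ψ : DirichletCharacter ℂ q, F ψ := by
  refine Finset.sum_bij (fun x hx => DirichletCharacter.changeLevel
    (show x.1 + 1 ∣ q from (mem_filter.1 hx).2) x.2) ?_ ?_ ?_ ?_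
  · intro x hx; exact mem_univ _
  · intro x hx y hy hxy
    obtain ⟨hx1, hx2'⟩ := mem_filter.1 hx
    obtain ⟨hy1, hy2'⟩ := mem_filter.1 hy
    have hx2 : x.1 + 1 ∣ q := hx2'
    have hy2 : y.1 + 1 ∣ q := hy2'
    have h1 := (mem_Ch.1 hx1).2
    have h2 := (mem_Ch.1 hy1).2
    have h3 : x.1 + 1 = y.1 + 1 := by
      have h4 := DirichletCharacter.conductor_changeLevel x.2 hx2
      have h5 := DirichletCharacter.conductor_changeLevel y.2 hy2
      have h6 : (DirichletCharacter.changeLevel hx2 x.2).conductor =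
          (DirichletCharacter.changeLevel hy2 y.2).conductor := congrArg _ hxy
      rw [h4, h5] at h6
      rw [DirichletCharacter.isPrimitive_def] at h1 h2
      rw [h1, h2] at h6
      exact h6
    obtain ⟨a, χ⟩ := x
    obtain ⟨b, ψ⟩ := y
    have h7 : a = b := Nat.succ_injective h3
    subst h7
    have h8 : χ = ψ := DirichletCharacter.changeLevel_injective hx2 hxy
    rw [h8]
  · intro ψ _
    have hc0 : ψ.conductor ≠ 0 := DirichletCharacter.conductor_ne_zero ψ
    obtain ⟨d, hd⟩ := Nat.exists_eq_succ_of_ne_zero hc0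
    have hd1 : ψ.conductor = d + 1 := hd
    have hdvd : d + 1 ∣ q := hd1 ▸ ψ.conductor_dvd_level
    have hf : ψ.FactorsThrough (d + 1) := by
      rw [← hd1]; exact ψ.factorsThrough_conductor
    have he : ψ = DirichletCharacter.changeLevel hdvd hf.χ₀ := hf.eq_changeLevel
    refine ⟨⟨d, hf.χ₀⟩, ?_, he.symm⟩
    rw [mem_filter, mem_Ch]
    refine ⟨⟨?_, ?_⟩, hdvd⟩
    · exact (Nat.le_of_dvd (Nat.pos_of_ne_zero (NeZero.ne q)) hdvd).trans hq
    · rw [DirichletCharacter.isPrimitive_def]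
      have h2 := DirichletCharacter.conductor_changeLevel hf.χ₀ hdvd
      rw [← he, hd1] at h2
      exact h2.symm
  · intro x hx
    exact hFG x (mem_filter.1 hx).1 (mem_filter.1 hx).2

lemma cv_changeLevel {q : ℕ} (x : CI) (h : x.1 + 1 ∣ q) {m : ℕ} (hm : m.Coprime q) :
    (DirichletCharacter.changeLevel h x.2) (m : ZMod q) = cv x m := by
  have h1 := DirichletCharacter.changeLevel_eq_cast_of_dvd x.2 h (ZMod.unitOfCoprime m hm)
  rw [ZMod.coe_unitOfCoprime] at h1
  rw [h1]
  unfold cv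
  congr 1
  exact ZMod.cast_natCast h m

/-- orthogonality -/
lemma sum_ortho (q : ℕ) [NeZero q] {m n : ℕ} (_hm : m.Coprime q) (hn : n.Coprime q) :
    ∑ ψ : DirichletCharacter ℂ q, ψ (m : ZMod q) * (starRingEnd ℂ) (ψ (n : ZMod q)) =
      if (q : ℤ) ∣ (m : ℤ) - n then (q.totient : ℂ) else 0 := by
  have hu : IsUnit (n : ZMod q) := (ZMod.isUnit_iff_coprime n q).2 hn
  have h1 := DirichletCharacter.sum_char_inv_mul_char_eq ℂ hu (m : ZMod q)
  have h2 : ∀ ψ : DirichletCharacter ℂ q, ψ (m : ZMod q) * (starRingEnd ℂ) (ψ (n : ZMod q)) =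
      ψ (n : ZMod q)⁻¹ * ψ (m : ZMod q) := by
    intro ψ
    rw [conj_char, inv_char ψ hu, mul_comm]
  rw [sum_congr rfl fun ψ _ => h2 ψ, h1]
  congr 1
  rw [eq_iff_iff]
  constructor
  · intro h
    have h3 : (((m : ℤ) - n : ℤ) : ZMod q) = 0 := by
      push_cast
      rw [h, sub_self]
    exact (ZMod.intCast_zmod_eq_zero_iff_dvd _ q).1 h3
  · intro h
    have h3 := (ZMod.intCast_zmod_eq_zero_iff_dvd ((m : ℤ) - n) q).2 h
    push_cast at h3
    exact (sub_eq_zero.1 h3).symm

lemma totient_real (q : ℕ) : (q.totient : ℝ) = q * ∏ p ∈ q.primeFactors, (1 - (p : ℝ)⁻¹) := by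
  have h := Nat.totient_eq_mul_prod_factors q
  have h2 : ((q.totient : ℚ) : ℝ) = ((q * ∏ p ∈ q.primeFactors, (1 - (p : ℚ)⁻¹) : ℚ) : ℝ) := by
    rw [h]
  push_cast at h2
  exact h2

lemma quot_totient {q : ℕ} (hq : q ≠ 0) :
    (q : ℝ) / q.totient = ∏ p ∈ q.primeFactors, (1 - (p : ℝ)⁻¹)⁻¹ := by
  have hq1 : (q : ℝ) ≠ 0 := by exact_mod_cast hq
  rw [totient_real q, Finset.prod_inv_distrib, div_mul_eq_div_div, div_self hq1, one_div]

/-- the factor in the coprime case -/
lemma rho_mul_prod (x : CI) {q n : ℕ} (hq : q ≠ 0) (h : md x ∣ q) (hn : n.Coprime q) :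
    rho x * ∏ p ∈ q.primeFactors.filter (fun p => ¬ p ∣ md x), (1 + wp p n) =
      (q : ℝ) / q.totient := by
  unfold rho
  rw [quot_totient (md_pos x).ne', quot_totient hq]
  have h1 : (md x).primeFactors = q.primeFactors.filter (fun p => p ∣ md x) := by
    ext p
    rw [mem_filter, Nat.mem_primeFactors, Nat.mem_primeFactors]
    constructor
    · rintro ⟨a, b, c⟩; exact ⟨⟨a, b.trans h, hq⟩, b⟩
    · rintro ⟨⟨a, b, c⟩, d⟩; exact ⟨a, d, (md_pos x).ne'⟩
  rw [h1, ← Finset.prod_filter_mul_prod_filter_not q.primeFactors (fun p => p ∣ md x)]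
  congr 1
  refine prod_congr rfl fun p hp => ?_
  rw [mem_filter, Nat.mem_primeFactors] at hp
  obtain ⟨⟨hp1, hp2, -⟩, -⟩ := hp
  have hpn : ¬ p ∣ n := fun hh => by
    have := Nat.dvd_gcd hh hp2
    rw [hn.gcd_eq_one] at this
    exact hp1.one_lt.ne' (Nat.dvd_one.1 this)
  unfold wp
  rw [if_neg hpn]
  have h2 : (1 : ℝ) < p := by exact_mod_cast hp1.one_lt
  have h3 : (p : ℝ) - 1 ≠ 0 := by linarith
  have h4 : (p : ℝ) ≠ 0 := by linarith
  have h5 : 1 - (p : ℝ)⁻¹ = (p - 1) / p := by field_simp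
  rw [h5, inv_div]
  field_simp
  ring

/-- the identity for the sums over divisors -/
lemma sum_char_full (Q q m n : ℕ) (hq1 : 1 ≤ q) (hqQ : q ≤ Q) (hm : m.Coprime q) :
    ∑ x ∈ (Ch Q).filter (fun x => md x ∣ q), (rho x : ℂ) * cv x m * (starRingEnd ℂ) (cv x n) *
      ((∏ p ∈ q.primeFactors.filter (fun p => ¬ p ∣ md x), (1 + wp p n) : ℝ) : ℂ) =
    if (q : ℤ) ∣ (m : ℤ) - n then (q : ℂ) else 0 := by
  have hq0 : q ≠ 0 := by omega
  haveI : NeZero q := ⟨hq0⟩
  by_cases hn : n.Coprime q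
  · have h1 := sum_prim Q q hqQ
      (fun ψ => ((q : ℝ) / q.totient : ℝ) * (ψ (m : ZMod q) * (starRingEnd ℂ) (ψ (n : ZMod q))))
      (fun x => (rho x : ℂ) * cv x m * (starRingEnd ℂ) (cv x n) *
        ((∏ p ∈ q.primeFactors.filter (fun p => ¬ p ∣ md x), (1 + wp p n) : ℝ) : ℂ)) (by
        intro x hx h
        show (rho x : ℂ) * cv x m * (starRingEnd ℂ) (cv x n) *
          ((∏ p ∈ q.primeFactors.filter (fun p => ¬ p ∣ md x), (1 + wp p n) : ℝ) : ℂ) =
          (((q : ℝ) / q.totient : ℝ) : ℂ) * ((DirichletCharacter.changeLevel h x.2) (m : ZMod q) *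
            (starRingEnd ℂ) ((DirichletCharacter.changeLevel h x.2) (n : ZMod q)))
        rw [cv_changeLevel x h hm, cv_changeLevel x h hn, ← rho_mul_prod x hq0 h hn]
        push_cast
        ring)
    rw [h1, ← mul_sum, sum_ortho q hm hn]
    split_ifs with hd
    · have ht : (q.totient : ℂ) ≠ 0 := by
        have := Nat.totient_pos.2 (show 0 < q by omega)
        exact_mod_cast this.ne'
      push_cast
      field_simp
    · rw [mul_zero]
  · -- a common prime of n and q
    have hg : n.gcd q ≠ 1 := hn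
    obtain ⟨p, hp, hpg⟩ := Nat.exists_prime_and_dvd hg
    have hpn : p ∣ n := hpg.trans (Nat.gcd_dvd_left n q)
    have hpq : p ∣ q := hpg.trans (Nat.gcd_dvd_right n q)
    rw [if_neg, sum_eq_zero]
    · intro x hx
      obtain ⟨hx1, hx2⟩ := mem_filter.1 hx
      by_cases hpx : p ∣ md x
      · have h0 : cv x n = 0 := by
          unfold cv
          refine MulChar.map_nonunit _ fun hu => ?_
          rw [ZMod.isUnit_iff_coprime] at hu
          have := Nat.dvd_gcd hpn hpx
          unfold md at this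
          rw [Nat.Coprime.gcd_eq_one hu] at this
          exact hp.one_lt.ne' (Nat.dvd_one.1 this)
        rw [h0, map_zero, mul_zero, zero_mul]
      · have h0 : ∏ p ∈ q.primeFactors.filter (fun p => ¬ p ∣ md x), (1 + wp p n) = 0 := by
          refine prod_eq_zero (i := p) ?_ ?_
          · rw [mem_filter, Nat.mem_primeFactors]
            exact ⟨⟨hp, hpq, hq0⟩, hpx⟩
          · unfold wp
            rw [if_pos hpn]
            ring
        rw [h0, Complex.ofReal_zero, mul_zero]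
    · intro hd
      have h1 : (p : ℤ) ∣ (m : ℤ) - n := (Int.natCast_dvd_natCast.2 hpq).trans hd
      have h2 : (p : ℤ) ∣ (m : ℤ) := by
        have h3 : (p : ℤ) ∣ (n : ℤ) := Int.natCast_dvd_natCast.2 hpn
        have h4 := dvd_add h1 h3
        rwa [sub_add_cancel] at h4
      have h3 : p ∣ m := Int.natCast_dvd_natCast.1 h2
      have h4 := Nat.dvd_gcd h3 hpq
      rw [hm.gcd_eq_one] at h4
      exact hp.one_lt.ne' (Nat.dvd_one.1 h4)

/-- the character side at one modulus -/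
noncomputable def RB (Q m n q : ℕ) : ℂ :=
  ∑ x ∈ Ch Q, (rho x : ℂ) * cv x m * (starRingEnd ℂ) (cv x n) * (HS (md x) q n : ℂ)

lemma sum_RB (Q q m n : ℕ) (hq1 : 1 ≤ q) (hqQ : q ≤ Q) (hm : m.Coprime q) :
    ∑ d ∈ q.divisors, RB Q m n d = if (q : ℤ) ∣ (m : ℤ) - n then (q : ℂ) else 0 := by
  rw [← sum_char_full Q q m n hq1 hqQ hm]
  unfold RB
  rw [sum_comm, sum_filter]
  refine sum_congr rfl fun x _ => ?_
  split_ifs with h
  · rw [← mul_sum, ← sum_HS q (md x) n hq1 h]
    push_cast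
    rfl
  · refine sum_eq_zero fun d hd => ?_
    rw [HS_zero, Complex.ofReal_zero, mul_zero]
    intro hh
    exact h (hh.trans (Nat.mem_divisors.1 hd).1)

lemma RA_eq_RB (Q m n : ℕ) (hm : ∀ q, 1 ≤ q → q ≤ Q → m.Coprime q) :
    ∀ q, 1 ≤ q → q ≤ Q → RA ((m : ℤ) - n) q = RB Q m n q := by
  intro q
  induction q using Nat.strong_induction_on with
  | _ q ih =>
    intro hq1 hqQ
    have h1 := sum_RA q hq1 ((m : ℤ) - n)
    have h2 := sum_RB Q q m n hq1 hqQ (hm q hq1 hqQ)
    rw [← h2] at h1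
    have hq0 : q ≠ 0 := by omega
    rw [← Nat.cons_self_properDivisors hq0, sum_cons, sum_cons] at h1
    have h3 : ∑ d ∈ q.properDivisors, RA ((m : ℤ) - n) d = ∑ d ∈ q.properDivisors, RB Q m n d := by
      refine sum_congr rfl fun d hd => ?_
      obtain ⟨hd1, hd2⟩ := Nat.mem_properDivisors.1 hd
      exact ih d hd2 (Nat.pos_of_dvd_of_pos hd1 hq1) (hd2.le.trans hqQ)
    rw [h3] at h1
    exact add_right_cancel h1

end RamAux

open RamAux in
theorem ram_sum (Q m n : ℕ) (hm : ∀ q, 1 ≤ q → q ≤ Q → m.Coprime q) :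
    ∑ q ∈ Icc 1 Q, ∑ b ∈ (range q).filter (fun b => b.Coprime q),
      ex ((b : ℝ) * (((m : ℤ) - n : ℤ) : ℝ) / q) =
    ∑ x ∈ Ch Q, (rho x : ℂ) * cv x m * (starRingEnd ℂ) (cv x n) *
      (DD (Q / md x) (md x) n : ℂ) := by
  have h1 : ∀ q ∈ Icc 1 Q, ∑ b ∈ (range q).filter (fun b => b.Coprime q),
      ex ((b : ℝ) * (((m : ℤ) - n : ℤ) : ℝ) / q) = RB Q m n q := by
    intro q hq
    rw [mem_Icc] at hq
    exact RA_eq_RB Q m n hm q hq.1 hq.2
  rw [sum_congr rfl h1]
  unfold RB
  rw [sum_comm]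
  refine sum_congr rfl fun x _ => ?_
  rw [DD_eq Q (md x) n (md_pos x), ← mul_sum]
  push_cast
  rfl

end Pool.Agent.Lib.GMV
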