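import Pool.Agent.Lib.GMV.Minor
import Pool.Agent.Lib.GMV.Kern
import Pool.Agent.Lib.GMV.Ram
import Pool.Agent.Lib.BVH.MSieve

/-!
# GMV.ProjW: the primes and the projection model (paper 2.2)

PROOF. (1) `LQ X Q n = ∑_{q ≤ Q} ∑_{b<q,(b,q)=1} ex(-b n/q) cn X Q (fun m => ex(b m/q)) n`: `ram_sum` for every prime `m`
with `W X Q m ≠ 0` (`m > X/Q ≥ Q`, so `m` is coprime to every `q ≤ Q`; `Q^2 ≤ X`), exchange of sums.
(2) `ft (4X) (fun n => ex(-b n/q) F n) t = ft (4X) F (t - b/q)` and `ft_cn`, with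
`ft (4X) (fun m => W m ex(b m/q)) (t - b/q) = ft (4X) W t`. So
`ft (4X) (W - LQ) t = ft (4X) W t * (1 - ∑_{b/q} Kh U (t - b/q))`, `U = X / Q^5`.
(3) `‖ft (4X) W t‖ ≤ ∑_{p < 4X} log p ≤ 8 X` (Chebyshev; `W ≤ lp`; support below `3X` if needed).
(4) The fractions `b/q` (reduced, `q ≤ Q`, `0 ≤ b < q`) are `1/Q²` separated modulo one (`BVH.farey_sep`, `farey_inj`), so for at
most one of them `‖t - b/q‖ < 1/(2Q²)`; for all the others `Kh ≤ Q^4/U²` (`kh_decay`), at most `Q²` terms: total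
`≤ Q^6/U²`, tiny. Hence `0 ≤ ∑ Kh ≤ 1 + Q^6/U²`.
(5) Case A: some `q ≤ Q`, coprime integer `a` with `|t - a/q| ≤ Q^4/X`. With `b = a mod q`, `Kh U (t - b/q) = Kh U (t - a/q)`
(`kh_int`), `1 - Kh ≤ 20 (U Q^4/X)² ≤ 20 Q^(-2)`: total `≤ 8 X (20 Q^(-2) + Q^6/U²) ≤ X Q^(-2/5)`. Case B: `minorW`,
times `1 + Q^6/U² ≤ 2`.
-/

set_option autoImplicit false

open Finset Filter

namespace Pool.Agent.Lib.GMV

open Pool.Agent.HLB Pool.Agent.HLT Pool.Agent.HLR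

namespace ProjWAux

lemma nrm_le_int (α : ℝ) (m : ℤ) : nrm α ≤ |α - m| := round_le α m

lemma nrm_sub_le (x y z : ℝ) : nrm (x - y) ≤ nrm (z - x) + nrm (z - y) := by
  have h := nrm_le_int (x - y) (round (z - y) - round (z - x))
  have h1 : x - y - ((round (z - y) - round (z - x) : ℤ) : ℝ) =
      (z - y - round (z - y)) - (z - x - round (z - x)) := by
    push_cast
    ring
  rw [h1] at h
  have h2 : |(z - y - round (z - y)) - (z - x - round (z - x))| ≤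
      |z - y - round (z - y)| + |z - x - round (z - x)| := abs_sub _ _
  have h3 := h.trans h2
  unfold nrm at *
  linarith

/-- The pairs `(q, b)`. -/
def P (Q : ℕ) : Finset (Σ _ : ℕ, ℕ) :=
  (Icc 1 Q).sigma fun q => (range q).filter (fun b => b.Coprime q)

lemma mem_P {Q : ℕ} {z : Σ _ : ℕ, ℕ} :
    z ∈ P Q ↔ (1 ≤ z.1 ∧ z.1 ≤ Q) ∧ z.2 < z.1 ∧ z.2.Coprime z.1 := by
  unfold P
  rw [mem_sigma, mem_Icc, mem_filter, mem_range]

lemma card_P (Q : ℕ) : ((P Q).card : ℝ) ≤ (Q : ℝ) ^ 2 := by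
  unfold P
  rw [card_sigma]
  push_cast
  calc (∑ q ∈ Icc 1 Q, (((range q).filter (fun b => b.Coprime q)).card : ℝ))
      ≤ ∑ _q ∈ Icc 1 Q, (Q : ℝ) := by
        refine sum_le_sum fun q hq => ?_
        rw [mem_Icc] at hq
        have h1 := card_filter_le (range q) (fun b => b.Coprime q)
        rw [card_range] at h1
        exact_mod_cast h1.trans hq.2
    _ = (Q : ℝ) ^ 2 := by
        rw [sum_const, Nat.card_Icc, nsmul_eq_mul]
        simp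
        ring

/-- The fraction. -/
noncomputable def fr (z : Σ _ : ℕ, ℕ) : ℝ := (z.2 : ℝ) / z.1

lemma sep {Q : ℕ} {z w : Σ _ : ℕ, ℕ} (hz : z ∈ P Q) (hw : w ∈ P Q) (h : z ≠ w) :
    1 / (Q : ℝ) ^ 2 ≤ nrm (fr z - fr w) := by
  rw [mem_P] at hz hw
  obtain ⟨q, b⟩ := z
  obtain ⟨q', b'⟩ := w
  simp only at hz hw
  obtain ⟨q, rfl⟩ : ∃ k, q = k + 1 := ⟨q - 1, by omega⟩
  obtain ⟨q', rfl⟩ : ∃ k, q' = k + 1 := ⟨q' - 1, by omega⟩
  have h1 : (b : ℝ) / ((q + 1 : ℕ) : ℝ) ≠ (b' : ℝ) / ((q' + 1 : ℕ) : ℝ) := by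
    intro h2
    obtain ⟨e1, e2⟩ := BVH.MSieveAux.farey_inj hz.2.2 hw.2.2 h2
    apply h
    subst e1 e2
    rfl
  have h2 := BVH.MSieveAux.farey_sep hz.1.2 hw.1.2 hz.2.1 hw.2.1 h1
  unfold fr
  push_cast at h2 ⊢
  exact h2

lemma kh_small {Q U : ℕ} (hQ : 1 ≤ Q) (hU : 1 ≤ U) {s : ℝ} (hs : 1 / (2 * (Q : ℝ) ^ 2) ≤ nrm s) :
    Kh U s ≤ (Q : ℝ) ^ 4 / (U : ℝ) ^ 2 := by
  have hQ' : (0 : ℝ) < Q := by exact_mod_cast hQ
  have hU' : (0 : ℝ) < U := by exact_mod_cast hU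
  have h0 : 0 < 1 / (2 * (Q : ℝ) ^ 2) := by positivity
  refine (kh_decay U hU s (h0.trans_le hs)).trans ?_
  have h1 : (1 / (2 * (Q : ℝ) ^ 2)) ^ 2 ≤ nrm s ^ 2 := pow_le_pow_left₀ h0.le hs 2
  calc 1 / (4 * (U : ℝ) ^ 2 * nrm s ^ 2) ≤ 1 / (4 * (U : ℝ) ^ 2 * (1 / (2 * (Q : ℝ) ^ 2)) ^ 2) := by
        apply one_div_le_one_div_of_le
        · positivity
        · exact mul_le_mul_of_nonneg_left h1 (by positivity)
    _ = (Q : ℝ) ^ 4 / (U : ℝ) ^ 2 := by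
        field_simp
        ring

lemma sum_small {Q U : ℕ} (hQ : 1 ≤ Q) (hU : 1 ≤ U) {t : ℝ} (A : Finset (Σ _ : ℕ, ℕ))
    (hA : A ⊆ P Q) (h : ∀ z ∈ A, 1 / (2 * (Q : ℝ) ^ 2) ≤ nrm (t - fr z)) :
    ∑ z ∈ A, Kh U (t - fr z) ≤ (Q : ℝ) ^ 6 / (U : ℝ) ^ 2 := by
  have hU' : (0 : ℝ) < U := by exact_mod_cast hU
  calc ∑ z ∈ A, Kh U (t - fr z) ≤ ∑ _z ∈ A, (Q : ℝ) ^ 4 / (U : ℝ) ^ 2 :=
        sum_le_sum fun z hz => kh_small hQ hU (h z hz)
    _ = (A.card : ℝ) * ((Q : ℝ) ^ 4 / (U : ℝ) ^ 2) := by rw [sum_const, nsmul_eq_mul]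
    _ ≤ (Q : ℝ) ^ 2 * ((Q : ℝ) ^ 4 / (U : ℝ) ^ 2) := by
        have h1 : (A.card : ℝ) ≤ (P Q).card := by exact_mod_cast card_le_card hA
        exact mul_le_mul_of_nonneg_right (h1.trans (card_P Q)) (by positivity)
    _ = (Q : ℝ) ^ 6 / (U : ℝ) ^ 2 := by ring

open scoped Classical in
lemma sum_near {Q U : ℕ} (hQ : 1 ≤ Q) (hU : 1 ≤ U) {t : ℝ} {z : Σ _ : ℕ, ℕ} (hz : z ∈ P Q)
    (h : nrm (t - fr z) ≤ 1 / (2 * (Q : ℝ) ^ 2)) :
    ∑ w ∈ P Q, Kh U (t - fr w) ≤ Kh U (t - fr z) + (Q : ℝ) ^ 6 / (U : ℝ) ^ 2 := by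
  rw [← add_sum_erase _ _ hz]
  gcongr
  refine sum_small hQ hU _ (erase_subset _ _) fun w hw => ?_
  rw [mem_erase] at hw
  have h1 := sep hz hw.2 hw.1.symm
  have h2 := nrm_sub_le (fr z) (fr w) t
  have h3 : 1 / (Q : ℝ) ^ 2 = 1 / (2 * (Q : ℝ) ^ 2) + 1 / (2 * (Q : ℝ) ^ 2) := by
    have hQ' : (0 : ℝ) < Q := by exact_mod_cast hQ
    field_simp
    norm_num
  linarith

lemma sum_ge {Q U : ℕ} {t : ℝ} {z : Σ _ : ℕ, ℕ} (hz : z ∈ P Q) :
    Kh U (t - fr z) ≤ ∑ w ∈ P Q, Kh U (t - fr w) :=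
  single_le_sum (f := fun w => Kh U (t - fr w)) (fun _ _ => kh_nonneg U _) hz

lemma sum_le {Q U : ℕ} (hQ : 1 ≤ Q) (hU : 1 ≤ U) (t : ℝ) :
    ∑ w ∈ P Q, Kh U (t - fr w) ≤ 1 + (Q : ℝ) ^ 6 / (U : ℝ) ^ 2 := by
  by_cases h : ∃ z ∈ P Q, nrm (t - fr z) ≤ 1 / (2 * (Q : ℝ) ^ 2)
  · obtain ⟨z, hz, h⟩ := h
    have h1 := sum_near hQ hU hz h
    have h2 := kh_le_one U (t - fr z)
    linarith
  · push Not at h
    have h1 := sum_small (t := t) hQ hU (P Q) (Subset.refl _) fun z hz => (h z hz).le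
    linarith

/-- The projection model as an exponential sum. -/
lemma LQ_eq {X Q : ℕ} (hX : 1 ≤ X) (hQX : Q ^ 2 ≤ X) (n : ℕ) :
    LQ X Q n = ∑ z ∈ P Q, ex (-((n : ℝ) * fr z)) * cn X Q (fun m => ex ((m : ℝ) * fr z)) n := by
  have h1 : LQ X Q n = ∑ m ∈ range (4 * X), ((Kf (X / Q ^ 5) ((m : ℤ) - n) * W X Q m : ℝ) : ℂ) *
      ∑ x ∈ Ch Q, (rho x : ℂ) * cv x m * (starRingEnd ℂ) (cv x n) *
        (DD (Q / md x) (md x) n : ℂ) := by
    unfold LQ Mc cn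
    simp_rw [mul_sum, sum_mul]
    rw [sum_comm]
    refine sum_congr rfl fun m _ => sum_congr rfl fun x _ => ?_
    ring
  rw [h1]
  have h2 : ∀ m ∈ range (4 * X), ((Kf (X / Q ^ 5) ((m : ℤ) - n) * W X Q m : ℝ) : ℂ) *
      ∑ x ∈ Ch Q, (rho x : ℂ) * cv x m * (starRingEnd ℂ) (cv x n) *
        (DD (Q / md x) (md x) n : ℂ) =
      ∑ z ∈ P Q, ex (-((n : ℝ) * fr z)) *
        (((Kf (X / Q ^ 5) ((m : ℤ) - n) * W X Q m : ℝ) : ℂ) * ex ((m : ℝ) * fr z)) := by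
    intro m _
    by_cases hW : W X Q m = 0
    · rw [hW]
      simp
    obtain ⟨hp, hm, -⟩ := W_support hX hW
    have hmQ : Q < m := by
      have h3 : X < m * Q := by exact_mod_cast hm
      by_contra hcon
      push Not at hcon
      have h4 : m * Q ≤ Q * Q := Nat.mul_le_mul_right Q hcon
      nlinarith
    rw [← ram_sum Q m n (fun q hq hqQ => ?_)]
    · unfold P
      rw [sum_sigma, mul_sum]
      refine sum_congr rfl fun q _ => ?_
      rw [mul_sum]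
      refine sum_congr rfl fun b _ => ?_
      have h5 : ex ((b : ℝ) * (((m : ℤ) - n : ℤ) : ℝ) / q) =
          ex (-((n : ℝ) * fr ⟨q, b⟩)) * ex ((m : ℝ) * fr ⟨q, b⟩) := by
        rw [← ex_add]
        congr 1
        unfold fr
        push_cast
        ring
      rw [h5]
      ring
    · rw [Nat.Prime.coprime_iff_not_dvd hp]
      intro hd
      have := Nat.le_of_dvd (by omega) hd
      omega
  rw [sum_congr rfl h2, sum_comm]
  refine sum_congr rfl fun z _ => ?_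
  unfold cn
  rw [mul_sum]

lemma ft_LQ {X Q : ℕ} (hQ : 2 ≤ Q) (hX5 : Q ^ 5 ≤ X) (t : ℝ) :
    ft (4 * X) (fun n => LQ X Q n) t =
      ((∑ z ∈ P Q, Kh (X / Q ^ 5) (t - fr z) : ℝ) : ℂ) * ft (4 * X) (fun m => (W X Q m : ℂ)) t := by
  have hX : 1 ≤ X := (Nat.one_le_pow 5 Q (by omega)).trans hX5
  have hQX : Q ^ 2 ≤ X := (Nat.pow_le_pow_right (by omega) (by norm_num)).trans hX5
  have h1 : ft (4 * X) (fun n => LQ X Q n) t =
      ∑ z ∈ P Q, ft (4 * X) (cn X Q (fun m => ex ((m : ℝ) * fr z))) (t - fr z) := by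
    unfold ft
    simp_rw [LQ_eq hX hQX, sum_mul]
    rw [sum_comm]
    refine sum_congr rfl fun z _ => sum_congr rfl fun n _ => ?_
    have h5 : ex ((n : ℝ) * (t - fr z)) = ex (-((n : ℝ) * fr z)) * ex ((n : ℝ) * t) := by
      rw [← ex_add]
      congr 1
      ring
    rw [h5]
    ring
  rw [h1]
  push_cast
  rw [sum_mul]
  refine sum_congr rfl fun z _ => ?_
  rw [ft_cn X Q hQ hX5]
  congr 1
  unfold ft
  refine sum_congr rfl fun m _ => ?_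
  rw [mul_assoc, ← ex_add]
  congr 2
  ring

lemma ftW_le (X Q : ℕ) (t : ℝ) : ‖ft (4 * X) (fun m => (W X Q m : ℂ)) t‖ ≤ 6 * X := by
  unfold ft
  calc ‖∑ n ∈ range (4 * X), (W X Q n : ℂ) * ex (n * t)‖
      ≤ ∑ n ∈ range (4 * X), HLT.lp n := by
        refine norm_sum_le_of_le _ fun n _ => ?_
        rw [norm_mul, norm_ex, mul_one, Complex.norm_real, Real.norm_of_nonneg (W_nonneg X Q n)]
        exact W_le X Q n
    _ ≤ Chebyshev.theta ((4 * X : ℕ) : ℝ) := by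
        rw [Chebyshev.theta_eq_sum_primesLE_log]
        unfold HLT.lp
        rw [← sum_filter]
        refine sum_le_sum_of_subset_of_nonneg ?_ fun p _ _ => Real.log_natCast_nonneg p
        intro p hp
        rw [mem_filter, mem_range] at hp
        rw [Nat.mem_primesLE]
        exact ⟨by omega, hp.2⟩
    _ ≤ Real.log 4 * ((4 * X : ℕ) : ℝ) := Chebyshev.theta_le_log4_mul_x (Nat.cast_nonneg _)
    _ ≤ 6 * X := by
        have h1 : Real.log 4 ≤ 3 / 2 := by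
          rw [show (4 : ℝ) = 2 ^ 2 by norm_num, Real.log_pow]
          have := Real.log_two_lt_d9
          push_cast
          linarith
        push_cast
        have h2 : (0 : ℝ) ≤ X := Nat.cast_nonneg X
        nlinarith

end ProjWAux

open ProjWAux

theorem projW : ∃ X0 : ℕ, ∀ X Q : ℕ, X0 ≤ X → Rg (1 / 20) X Q → ∀ t : ℝ,
    ‖ft (4 * X) (fun n => (W X Q n : ℂ) - LQ X Q n) t‖ ≤ 3 * X * (Q : ℝ) ^ (-(2 / 5 : ℝ)) := by
  obtain ⟨X1, hm⟩ := minorW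
  have hev : ∀ᶠ X : ℕ in atTop, (100 : ℝ) ≤ Real.exp (Real.sqrt (Real.log X) / 2) := by
    have h1 : Tendsto (fun X : ℕ => Real.exp (Real.sqrt (Real.log X) / 2)) atTop atTop := by
      refine Real.tendsto_exp_atTop.comp ?_
      refine Tendsto.atTop_div_const (by norm_num) ?_
      exact Real.tendsto_sqrt_atTop.comp (Real.tendsto_log_atTop.comp tendsto_natCast_atTop_atTop)
    exact h1.eventually_ge_atTop 100
  obtain ⟨X2, hX2⟩ := eventually_atTop.1 hev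
  refine ⟨max X1 (max X2 1), fun X Q hX hR t => ?_⟩
  have hXX1 : X1 ≤ X := (le_max_left _ _).trans hX
  have hXX2 : X2 ≤ X := ((le_max_left _ _).trans (le_max_right _ _)).trans hX
  have hX1 : 1 ≤ X := ((le_max_right _ _).trans (le_max_right _ _)).trans hX
  have hQr : (100 : ℝ) ≤ Q := (hX2 X hXX2).trans hR.1
  have hQ : 100 ≤ Q := by exact_mod_cast hQr
  have hXr : (1 : ℝ) ≤ X := by exact_mod_cast hX1
  -- powers
  have hQ20 : (Q : ℝ) ^ 20 ≤ X := by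
    have h1 : (Q : ℝ) ^ 20 ≤ ((X : ℝ) ^ (1 / 20 : ℝ)) ^ 20 :=
      pow_le_pow_left₀ (by positivity) hR.2 20
    refine h1.trans (le_of_eq ?_)
    rw [← Real.rpow_natCast, ← Real.rpow_mul (by linarith)]
    norm_num
  have hQ5 : Q ^ 5 ≤ X := by
    have h1 : (Q : ℝ) ^ 5 ≤ (Q : ℝ) ^ 20 := pow_le_pow_right₀ (by linarith) (by norm_num)
    exact_mod_cast h1.trans hQ20
  set U : ℕ := X / Q ^ 5 with hUdef
  have hQ5pos : 0 < Q ^ 5 := by positivity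
  have hU : 1 ≤ U := (Nat.one_le_div_iff hQ5pos).2 hQ5
  have hUle : (U : ℝ) * (Q : ℝ) ^ 5 ≤ X := by
    have := Nat.div_mul_le_self X (Q ^ 5)
    exact_mod_cast this
  have hUge : (X : ℝ) ≤ 2 * U * (Q : ℝ) ^ 5 := by
    have h1 : X < (U + 1) * Q ^ 5 := by
      have := Nat.lt_div_mul_add (a := X) hQ5pos
      rw [← hUdef] at this
      nlinarith
    have h2 : (X : ℝ) < (U + 1) * (Q : ℝ) ^ 5 := by exact_mod_cast h1
    have h3 : (1 : ℝ) ≤ U := by exact_mod_cast hU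
    have h4 : ((U : ℝ) + 1) * (Q : ℝ) ^ 5 ≤ (2 * U) * (Q : ℝ) ^ 5 :=
      mul_le_mul_of_nonneg_right (by linarith) (by positivity)
    linarith
  have hQpos : (0 : ℝ) < Q := by linarith
  have hUpos : (0 : ℝ) < U := by exact_mod_cast hU
  have hbase : ft (4 * X) (fun n => (W X Q n : ℂ) - LQ X Q n) t =
      ft (4 * X) (fun m => (W X Q m : ℂ)) t *
        ((1 - ∑ z ∈ P Q, Kh U (t - fr z) : ℝ) : ℂ) := by
    have h1 := ft_LQ (X := X) (Q := Q) (by omega) hQ5 t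
    have h2 : ft (4 * X) (fun n => (W X Q n : ℂ) - LQ X Q n) t =
        ft (4 * X) (fun m => (W X Q m : ℂ)) t - ft (4 * X) (fun n => LQ X Q n) t := by
      unfold ft
      rw [← sum_sub_distrib]
      exact sum_congr rfl fun n _ => by ring
    rw [h2, h1]
    push_cast
    ring
  rw [hbase, norm_mul, Complex.norm_real]
  have herr : (Q : ℝ) ^ 6 / (U : ℝ) ^ 2 ≤ 1 / (Q : ℝ) ^ 2 := by
    rw [div_le_div_iff₀ (by positivity) (by positivity)]
    -- Q^8 ≤ U^2 : U ≥ X / (2 Q^5) ≥ Q^15/2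
    have h1 : (Q : ℝ) ^ 15 ≤ 2 * U := by
      have h2 : (Q : ℝ) ^ 15 * (Q : ℝ) ^ 5 ≤ 2 * U * (Q : ℝ) ^ 5 := by
        rw [← pow_add]
        exact hQ20.trans hUge
      exact le_of_mul_le_mul_right h2 (by positivity)
    have h3 : (Q : ℝ) ^ 4 ≤ U := by
      have h4 : 2 * (Q : ℝ) ^ 4 ≤ (Q : ℝ) ^ 15 := by
        have h5 : (Q : ℝ) ^ 15 = (Q : ℝ) ^ 4 * (Q : ℝ) ^ 11 := by ring
        have h6 : (2 : ℝ) ≤ (Q : ℝ) ^ 11 := by
          have : (Q : ℝ) ≤ (Q : ℝ) ^ 11 := le_self_pow₀ (by linarith) (by norm_num)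
          linarith
        rw [h5]
        nlinarith [pow_pos hQpos 4]
      linarith
    have h7 : ((Q : ℝ) ^ 4) ^ 2 ≤ (U : ℝ) ^ 2 := pow_le_pow_left₀ (by positivity) h3 2
    nlinarith [h7]
  have herr1 : (Q : ℝ) ^ 6 / (U : ℝ) ^ 2 ≤ 1 := by
    refine herr.trans ?_
    rw [div_le_one (by positivity)]
    nlinarith
  by_cases hcase : ∀ (q : ℕ) (a : ℤ), 1 ≤ q → q ≤ Q → IsCoprime a (q : ℤ) →
      (Q : ℝ) ^ 4 / X < |t - a / q|
  · -- minor arc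
    have h1 := hm X Q hXX1 hR t hcase
    have h2 : ‖(1 - ∑ z ∈ P Q, Kh U (t - fr z) : ℝ)‖ ≤ 2 := by
      have h3 := sum_le (Q := Q) (U := U) (by omega) hU t
      have h4 : 0 ≤ ∑ z ∈ P Q, Kh U (t - fr z) := sum_nonneg fun z _ => kh_nonneg U _
      rw [Real.norm_eq_abs, abs_le]
      constructor <;> linarith
    have h5 : (0 : ℝ) ≤ X * (Q : ℝ) ^ (-(2 / 5 : ℝ)) := by positivity
    calc _ ≤ (X * (Q : ℝ) ^ (-(2 / 5 : ℝ))) * 2 := by gcongr
      _ ≤ _ := by nlinarith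
  · push Not at hcase
    obtain ⟨q, a, hq1, hqQ, hcop, hta⟩ := hcase
    have hq0 : (0 : ℝ) < q := by exact_mod_cast hq1
    -- the residue
    obtain ⟨b, hb⟩ : ∃ b : ℕ, (b : ℤ) = a % q :=
      ⟨(a % q).toNat, Int.toNat_of_nonneg (Int.emod_nonneg _ (by omega))⟩
    have hbq : b < q := by
      have := Int.emod_lt_of_pos a (show (0 : ℤ) < q by omega)
      omega
    have hak : (a : ℝ) / q = b / q + ((a / (q : ℤ) : ℤ) : ℝ) := by
      have h1 : (a : ℤ) = b + q * (a / q) := by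
        rw [hb]
        exact (Int.emod_add_mul_ediv a q).symm
      have h2 : (a : ℝ) = b + q * ((a / (q : ℤ) : ℤ) : ℝ) := by exact_mod_cast h1
      rw [div_eq_iff hq0.ne', add_mul, div_mul_cancel₀ _ hq0.ne', h2]
      ring
    have hbc : b.Coprime q := by
      have h1 : IsCoprime (b : ℤ) (q : ℤ) := by
        have h2 : (b : ℤ) = a + q * (-(a / q)) := by
          rw [hb]
          have := Int.emod_add_mul_ediv a q
          linarith
        rw [h2]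
        exact hcop.add_mul_left_left _
      exact Nat.isCoprime_iff_coprime.1 h1
    set z : Σ _ : ℕ, ℕ := ⟨q, b⟩ with hzdef
    have hz : z ∈ P Q := mem_P.2 ⟨⟨hq1, hqQ⟩, hbq, hbc⟩
    have hfr : t - fr z = (t - a / q) + ((a / (q : ℤ) : ℤ) : ℝ) := by
      unfold fr
      rw [hzdef, hak]
      ring
    have hKh : Kh U (t - fr z) = Kh U (t - a / q) := by
      rw [hfr]
      exact kh_int U _ _
    have hnr : nrm (t - fr z) ≤ 1 / (2 * (Q : ℝ) ^ 2) := by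
      have h1 := nrm_le_int (t - fr z) (a / (q : ℤ))
      rw [hfr, add_sub_cancel_right] at h1
      rw [hfr]
      refine (h1.trans hta).trans ?_
      rw [div_le_div_iff₀ (by linarith) (by positivity)]
      have h2 : 2 * (Q : ℝ) ^ 6 ≤ (Q : ℝ) ^ 20 := by
        have h5 : (Q : ℝ) ^ 20 = (Q : ℝ) ^ 6 * (Q : ℝ) ^ 14 := by ring
        have h6 : (2 : ℝ) ≤ (Q : ℝ) ^ 14 := by
          have : (Q : ℝ) ≤ (Q : ℝ) ^ 14 := le_self_pow₀ (by linarith) (by norm_num)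
          linarith
        rw [h5]
        nlinarith [pow_pos hQpos 6]
      nlinarith
    have h1K : 1 - Kh U (t - fr z) ≤ 20 * (1 / (Q : ℝ) ^ 2) := by
      rw [hKh]
      refine (kh_one_sub U hU _).trans ?_
      have h1 : |(U : ℝ) * (t - a / q)| ≤ 1 / Q := by
        rw [abs_mul, abs_of_pos hUpos]
        calc (U : ℝ) * |t - a / q| ≤ U * ((Q : ℝ) ^ 4 / X) := by gcongr
          _ ≤ 1 / Q := by
              rw [← mul_div_assoc, div_le_div_iff₀ (by linarith) hQpos]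
              nlinarith
      have h2 : ((U : ℝ) * (t - a / q)) ^ 2 ≤ (1 / Q) ^ 2 := by
        rw [← sq_abs]
        exact pow_le_pow_left₀ (abs_nonneg _) h1 2
      rw [one_div_pow] at h2
      linarith
    have h1S : ‖(1 - ∑ z ∈ P Q, Kh U (t - fr z) : ℝ)‖ ≤ 20 * (1 / (Q : ℝ) ^ 2) := by
      have h3 := sum_near (Q := Q) (U := U) (by omega) hU hz hnr
      have h4 := sum_ge (Q := Q) (U := U) (t := t) hz
      have h5 := kh_le_one U (t - fr z)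
      have h6 : 0 ≤ 1 / (Q : ℝ) ^ 2 := by positivity
      rw [Real.norm_eq_abs, abs_le]
      constructor <;> linarith
    have hW := ftW_le X Q t
    have hpow : 40 * (1 / (Q : ℝ) ^ 2) ≤ (Q : ℝ) ^ (-(2 / 5 : ℝ)) := by
      have h1 : (Q : ℝ) ^ (-(1 : ℝ)) ≤ (Q : ℝ) ^ (-(2 / 5 : ℝ)) :=
        Real.rpow_le_rpow_of_exponent_le (by linarith) (by norm_num)
      rw [Real.rpow_neg_one] at h1
      refine le_trans ?_ h1
      rw [mul_one_div, div_le_iff₀ (by positivity), sq, ← mul_assoc, inv_mul_cancel₀ hQpos.ne']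
      linarith
    calc _ ≤ (6 * X) * (20 * (1 / (Q : ℝ) ^ 2)) := by gcongr
      _ = 3 * X * (40 * (1 / (Q : ℝ) ^ 2)) := by ring
      _ ≤ _ := by gcongr

end Pool.Agent.Lib.GMV
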