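import Pool.Agent.Lib.GMV.PerMean

/-!
# GMV.Comb: tuples of sets of primes, prime by prime; local bounds (paper 4.2)

PROOF. `tensor`: induction on `P` (a tuple of subsets of `insert p P` is a tuple of subsets of `P` and the set
`I = {i : p ∈ S i}`).
`loc_one`: `wp p (n+a)` is `-1` for one residue and `1/(p-1)` for the `p-1` others.
`loc_abs` : the residues `n` with `p ∣ n + h i` for some `i ∈ I` are at most `k`, the product is `≤ 1` there; elsewhere it is
`(p-1)^(-|I|) ≤ 1/(p-1) ≤ 2/p`.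
`loc_good`: `I = ∅` gives `1`; `|I| = 1` gives `0`; `|I| ≥ 2`: as `p ∤ Del h` the `h i` are distinct modulo `p`, for at most `k` residues
exactly one factor is `-1`, the others `≤ 1/(p-1)`: `≤ (k/p)(2/p) + 4/p²`; weights `≤ p^(1/4)`, at most `2^k` sets.
`loc_bad`: weights `≤ p^(1/4)`, `loc_abs`.
-/

set_option autoImplicit false

open Finset Filter

namespace Pool.Agent.Lib.GMV

open Pool.Agent.HLB Pool.Agent.HLT Pool.Agent.HLR

theorem tensor {k : ℕ} (P : Finset ℕ) (a : ℕ → Finset (Fin k) → ℝ) :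
    ∑ S ∈ Fintype.piFinset (fun _ : Fin k => P.powerset),
      ∏ p ∈ P, a p (univ.filter fun i => p ∈ S i) = ∏ p ∈ P, ∑ I : Finset (Fin k), a p I := by
  classical
  rw [← Finset.prod_coe_sort P (fun p => ∑ I : Finset (Fin k), a p I), Finset.prod_univ_sum]
  refine Finset.sum_nbij' (fun S (p : P) => univ.filter fun i => (p : ℕ) ∈ S i)
    (fun φ i => P.filter fun p => ∃ h : p ∈ P, i ∈ φ ⟨p, h⟩) ?_ ?_ ?_ ?_ ?_
  · intro S _
    exact Fintype.mem_piFinset.mpr fun _ => mem_univ _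
  · intro φ _
    exact Fintype.mem_piFinset.mpr fun _ => mem_powerset.mpr (filter_subset _ _)
  · intro S hS
    funext i
    ext p
    have h1 := mem_powerset.mp (Fintype.mem_piFinset.mp hS i)
    simp only [mem_filter, mem_univ, true_and]
    constructor
    · rintro ⟨_, _, h2⟩
      exact h2
    · intro h2
      exact ⟨h1 h2, h1 h2, h2⟩
  · intro φ _
    funext p
    ext i
    simp only [mem_filter, mem_univ, true_and]
    constructor
    · rintro ⟨_, _, h2⟩
      exact h2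
    · intro h2
      exact ⟨p.2, p.2, h2⟩
  · intro S _
    exact (Finset.prod_coe_sort P (fun p => a p (univ.filter fun i => p ∈ S i))).symm

namespace CombAux

theorem card_dvd_range (p a : ℕ) (hp : 0 < p) :
    ((range p).filter (fun n => p ∣ n + a)).card = 1 := by
  have h1 : ((Ico a (a + p)).filter (fun x => p ∣ x)).card =
      ((range p).filter (fun n => p ∣ n + a)).card := by
    symm
    refine card_bij (fun n _ => n + a) ?_ ?_ ?_
    · intro n hn
      rw [mem_filter, mem_range] at hn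
      rw [mem_filter, mem_Ico]
      exact ⟨⟨by omega, by omega⟩, hn.2⟩
    · intro n _ m _ h
      omega
    · intro x hx
      rw [mem_filter, mem_Ico] at hx
      refine ⟨x - a, ?_, by omega⟩
      rw [mem_filter, mem_range]
      refine ⟨by omega, ?_⟩
      have : x - a + a = x := by omega
      rw [this]
      exact hx.2
  rw [← h1, Nat.filter_Ico_card_eq_of_periodic a p (fun x => p ∣ x)]
  · rw [Nat.count_eq_card_filter_range]
    have h2 : (range p).filter (fun x => p ∣ x) = {0} := by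
      ext x
      rw [mem_filter, mem_range, mem_singleton]
      constructor
      · rintro ⟨h3, h4⟩
        exact Nat.eq_zero_of_dvd_of_lt h4 h3
      · rintro rfl
        exact ⟨hp, dvd_zero p⟩
    rw [h2, card_singleton]
  · intro x
    show (p ∣ x + p) = (p ∣ x)
    rw [Nat.dvd_add_self_right]

theorem one_le_sub {p : ℕ} (hp : p.Prime) : (1 : ℝ) ≤ (p : ℝ) - 1 := by
  have : (2 : ℝ) ≤ p := by exact_mod_cast hp.two_le
  linarith

theorem inv_le_one {p : ℕ} (hp : p.Prime) : 1 / ((p : ℝ) - 1) ≤ 1 := by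
  have := one_le_sub hp
  rw [div_le_one (by linarith)]
  exact this

theorem inv_nonneg' {p : ℕ} (hp : p.Prime) : 0 ≤ 1 / ((p : ℝ) - 1) := by
  have := one_le_sub hp
  positivity

theorem inv_le {p : ℕ} (hp : p.Prime) : 1 / ((p : ℝ) - 1) ≤ 2 / p := by
  have h1 := one_le_sub hp
  have h2 : (0 : ℝ) < p := by linarith
  rw [div_le_div_iff₀ (by linarith) h2]
  linarith

theorem abs_wp_le {p : ℕ} (hp : p.Prime) (n : ℕ) : |wp p n| ≤ 1 := by
  unfold wp
  split_ifs
  · simp
  · rw [abs_of_nonneg (inv_nonneg' hp)]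
    exact inv_le_one hp

theorem abs_wp_of_not {p : ℕ} (hp : p.Prime) {n : ℕ} (h : ¬ p ∣ n) :
    |wp p n| = 1 / ((p : ℝ) - 1) := by
  unfold wp
  rw [if_neg h, abs_of_nonneg (inv_nonneg' hp)]

theorem prod_le_one' {p k : ℕ} (hp : p.Prime) (I : Finset (Fin k)) (f : Fin k → ℕ) :
    ∏ i ∈ I, |wp p (f i)| ≤ 1 :=
  Finset.prod_le_one (fun _ _ => abs_nonneg _) (fun _ _ => abs_wp_le hp _)

/-- The residues for which some factor is `-1`. -/
def badR {k : ℕ} (p : ℕ) (I : Finset (Fin k)) (h : Fin k → ℕ) : Finset ℕ :=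
  (range p).filter (fun n => ∃ i ∈ I, p ∣ n + h i)

theorem card_badR {k : ℕ} (p : ℕ) (hp : 0 < p) (I : Finset (Fin k)) (h : Fin k → ℕ) :
    (badR p I h).card ≤ k := by
  classical
  have h1 : badR p I h ⊆ I.biUnion (fun i => (range p).filter (fun n => p ∣ n + h i)) := by
    intro n hn
    unfold badR at hn
    rw [mem_filter] at hn
    obtain ⟨i, hi, hd⟩ := hn.2
    rw [mem_biUnion]
    exact ⟨i, hi, mem_filter.mpr ⟨hn.1, hd⟩⟩
  refine (card_le_card h1).trans (card_biUnion_le.trans ?_)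
  simp only [card_dvd_range p _ hp, sum_const, smul_eq_mul, mul_one]
  exact (card_le_univ I).trans (by rw [Fintype.card_fin])

/-- Splitting a sum over the residues. -/
theorem sum_split {k : ℕ} (p : ℕ) (hp : p.Prime) (I : Finset (Fin k)) (h : Fin k → ℕ)
    (F : ℕ → ℝ) (A B : ℝ) (hA0 : 0 ≤ A) (hB0 : 0 ≤ B)
    (hA : ∀ n ∈ range p, (∃ i ∈ I, p ∣ n + h i) → F n ≤ A)
    (hB : ∀ n ∈ range p, (¬ ∃ i ∈ I, p ∣ n + h i) → F n ≤ B) :
    ∑ n ∈ range p, F n ≤ k * A + p * B := by
  rw [← Finset.sum_filter_add_sum_filter_not (range p) (fun n => ∃ i ∈ I, p ∣ n + h i)]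
  refine add_le_add ?_ ?_
  · calc ∑ n ∈ (range p).filter (fun n => ∃ i ∈ I, p ∣ n + h i), F n
        ≤ ∑ n ∈ (range p).filter (fun n => ∃ i ∈ I, p ∣ n + h i), A := by
          refine sum_le_sum fun n hn => ?_
          rw [mem_filter] at hn
          exact hA n hn.1 hn.2
      _ = ((badR p I h).card : ℝ) * A := by rw [sum_const, nsmul_eq_mul]; rfl
      _ ≤ k * A := by
          refine mul_le_mul_of_nonneg_right ?_ hA0
          exact_mod_cast card_badR p hp.pos I h
  · calc ∑ n ∈ (range p).filter (fun n => ¬ ∃ i ∈ I, p ∣ n + h i), F n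
        ≤ ∑ n ∈ (range p).filter (fun n => ¬ ∃ i ∈ I, p ∣ n + h i), B := by
          refine sum_le_sum fun n hn => ?_
          rw [mem_filter] at hn
          exact hB n hn.1 hn.2
      _ = (((range p).filter (fun n => ¬ ∃ i ∈ I, p ∣ n + h i)).card : ℝ) * B := by
          rw [sum_const, nsmul_eq_mul]
      _ ≤ p * B := by
          refine mul_le_mul_of_nonneg_right ?_ hB0
          have h2 := card_filter_le (range p) (fun n => ¬ ∃ i ∈ I, p ∣ n + h i)
          rw [card_range] at h2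
          exact_mod_cast h2

theorem prod_of_not {k p : ℕ} (hp : p.Prime) (I : Finset (Fin k)) (f : Fin k → ℕ)
    (h : ∀ i ∈ I, ¬ p ∣ f i) : ∏ i ∈ I, |wp p (f i)| = (1 / ((p : ℝ) - 1)) ^ I.card := by
  rw [Finset.prod_congr rfl (fun i hi => abs_wp_of_not hp (h i hi)), prod_const]

theorem rpow_weight {k p : ℕ} (hk : 1 ≤ k) (hp : p.Prime) (I : Finset (Fin k)) :
    (p : ℝ) ^ ((I.card : ℝ) / (4 * k)) ≤ (p : ℝ) ^ (1 / 4 : ℝ) := by
  refine Real.rpow_le_rpow_of_exponent_le (by exact_mod_cast hp.one_lt.le) ?_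
  have hk0 : (0 : ℝ) < k := by exact_mod_cast hk
  have h1 : ((I.card : ℕ) : ℝ) ≤ k := by
    have := card_le_univ I
    rw [Fintype.card_fin] at this
    exact_mod_cast this
  rw [div_le_div_iff₀ (by positivity) (by norm_num)]
  linarith

end CombAux

open CombAux

theorem loc_one (p a : ℕ) (hp : p.Prime) : av p (fun n => (wp p (n + a) : ℂ)) = 0 := by
  have h1 : ∑ n ∈ range p, wp p (n + a) = 0 := by
    rw [← Finset.sum_filter_add_sum_filter_not (range p) (fun n => p ∣ n + a)]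
    have h2 : ∑ n ∈ (range p).filter (fun n => p ∣ n + a), wp p (n + a) = -1 := by
      rw [Finset.sum_congr rfl (g := fun _ => (-1 : ℝ)) (fun n hn => by
        rw [mem_filter] at hn
        unfold wp
        rw [if_pos hn.2]), sum_const, card_dvd_range p a hp.pos, one_smul]
    have h3 : ((range p).filter (fun n => ¬ p ∣ n + a)).card = p - 1 := by
      have h4 := Finset.card_filter_add_card_filter_not (s := range p) (fun n => p ∣ n + a)
      rw [card_dvd_range p a hp.pos, card_range] at h4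
      omega
    have h5 : ∑ n ∈ (range p).filter (fun n => ¬ p ∣ n + a), wp p (n + a) = 1 := by
      rw [Finset.sum_congr rfl (g := fun _ => 1 / ((p : ℝ) - 1)) (fun n hn => by
        rw [mem_filter] at hn
        unfold wp
        rw [if_neg hn.2]), sum_const, h3, nsmul_eq_mul, Nat.cast_sub hp.one_lt.le, Nat.cast_one]
      have := one_le_sub hp
      field_simp
    rw [h2, h5]
    norm_num
  unfold av
  have h2 : (∑ n ∈ range p, (wp p (n + a) : ℂ)) = ((∑ n ∈ range p, wp p (n + a) : ℝ) : ℂ) := by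
    push_cast
    rfl
  rw [h2, h1]
  simp

theorem loc_abs {k : ℕ} (p : ℕ) (hp : p.Prime) (I : Finset (Fin k)) (hI : I.Nonempty)
    (h : Fin k → ℕ) :
    (∑ n ∈ range p, ∏ i ∈ I, |wp p (n + h i)|) / p ≤ (k + 2) / p := by
  have hp0 : (0 : ℝ) < p := by exact_mod_cast hp.pos
  refine div_le_div_of_nonneg_right ?_ hp0.le
  have h1 := sum_split p hp I h (fun n => ∏ i ∈ I, |wp p (n + h i)|) 1 (2 / p) (by norm_num)
    (by positivity) (fun n _ _ => prod_le_one' hp I (fun i => n + h i)) (by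
      intro n _ hn
      push Not at hn
      show ∏ i ∈ I, |wp p (n + h i)| ≤ 2 / p
      rw [prod_of_not hp I (fun i => n + h i) hn]
      refine le_trans ?_ (inv_le hp)
      exact pow_le_of_le_one (inv_nonneg' hp) (inv_le_one hp) (card_ne_zero.mpr hI))
  refine h1.trans ?_
  have h2 : (p : ℝ) * (2 / p) = 2 := by field_simp
  rw [h2]
  linarith

theorem loc_good (k : ℕ) (hk : 1 ≤ k) : ∃ C : ℝ, 0 < C ∧ ∀ p : ℕ, p.Prime → ∀ h : Fin k → ℕ,
    ¬ p ∣ Del h →
    ∑ I : Finset (Fin k), (p : ℝ) ^ ((I.card : ℝ) / (4 * k)) *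
      ‖av p (fun n => ((∏ i ∈ I, wp p (n + h i) : ℝ) : ℂ))‖ ≤ 1 + C * (p : ℝ) ^ (-(7 / 4 : ℝ)) := by
  refine ⟨2 ^ k * (2 * k + 4), by positivity, fun p hp h hdel => ?_⟩
  have hp0 : (0 : ℝ) < p := by exact_mod_cast hp.pos
  have hp1 := one_le_sub hp
  -- the shifts are different modulo `p`
  have hdist : ∀ i j : Fin k, i ≠ j → ∀ n : ℕ, p ∣ n + h i → p ∣ n + h j → False := by
    intro i j hij n h1 h2
    apply hdel
    have key : ∀ i j : Fin k, i < j → p ∣ n + h i → p ∣ n + h j → p ∣ Del h := by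
      intro i j hlt h1 h2
      unfold Del
      refine dvd_trans ?_ (dvd_prod_of_mem _ (mem_univ i))
      refine dvd_trans ?_ (dvd_prod_of_mem _ (mem_filter.mpr ⟨mem_univ j, hlt⟩))
      have h3 : (p : ℤ) ∣ (h i : ℤ) - h j := by
        have h4 : (p : ℤ) ∣ ((n + h i : ℕ) : ℤ) := by exact_mod_cast h1
        have h5 : (p : ℤ) ∣ ((n + h j : ℕ) : ℤ) := by exact_mod_cast h2
        have h6 := dvd_sub h4 h5
        have h7 : ((n + h i : ℕ) : ℤ) - ((n + h j : ℕ) : ℤ) = (h i : ℤ) - h j := by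
          push_cast; ring
        rwa [h7] at h6
      exact Int.natCast_dvd.mp h3
    rcases lt_or_gt_of_ne hij with hlt | hlt
    · exact key i j hlt h1 h2
    · exact key j i hlt h2 h1
  have hterm : ∀ I : Finset (Fin k), I ≠ ∅ →
      (p : ℝ) ^ ((I.card : ℝ) / (4 * k)) *
        ‖av p (fun n => ((∏ i ∈ I, wp p (n + h i) : ℝ) : ℂ))‖ ≤
      (2 * k + 4) * (p : ℝ) ^ (-(7 / 4 : ℝ)) := by
    intro I hI
    have hIne : I.Nonempty := nonempty_iff_ne_empty.mpr hI
    rcases Nat.lt_or_ge I.card 2 with hc | hc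
    · have hc1 : I.card = 1 := by
        have := card_pos.mpr hIne
        omega
      obtain ⟨i, rfl⟩ := card_eq_one.mp hc1
      simp only [prod_singleton]
      rw [loc_one p (h i) hp, norm_zero, mul_zero]
      positivity
    · have h1 : ‖av p (fun n => ((∏ i ∈ I, wp p (n + h i) : ℝ) : ℂ))‖ ≤
          (∑ n ∈ range p, ∏ i ∈ I, |wp p (n + h i)|) / p := by
        refine norm_av_le p _ _ fun n => ?_
        rw [Complex.norm_real, Real.norm_eq_abs, Finset.abs_prod]
      have h2 : ∑ n ∈ range p, ∏ i ∈ I, |wp p (n + h i)| ≤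
          k * (2 / p) + p * (2 / p) ^ 2 := by
        refine sum_split p hp I h (fun n => ∏ i ∈ I, |wp p (n + h i)|) (2 / p) ((2 / p) ^ 2)
          (by positivity) (by positivity) ?_ ?_
        · rintro n _ ⟨i, hi, hd⟩
          obtain ⟨j, hj, hji⟩ : ∃ j ∈ I, j ≠ i := by
            by_contra hcon
            push Not at hcon
            have : I ⊆ {i} := fun j hj => mem_singleton.mpr (hcon j hj)
            have := card_le_card this
            rw [card_singleton] at this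
            omega
          show ∏ i ∈ I, |wp p (n + h i)| ≤ 2 / p
          rw [← Finset.mul_prod_erase I _ hj]
          have h3 : ¬ p ∣ n + h j := fun hdj => hdist j i hji n hdj hd
          rw [abs_wp_of_not hp h3]
          calc 1 / ((p : ℝ) - 1) * ∏ i ∈ I.erase j, |wp p (n + h i)| ≤
                1 / ((p : ℝ) - 1) * 1 :=
                mul_le_mul_of_nonneg_left (prod_le_one' hp _ _) (inv_nonneg' hp)
            _ ≤ 2 / p := by rw [mul_one]; exact inv_le hp
        · intro n _ hn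
          push Not at hn
          show ∏ i ∈ I, |wp p (n + h i)| ≤ (2 / p) ^ 2
          rw [prod_of_not hp I (fun i => n + h i) hn]
          calc (1 / ((p : ℝ) - 1)) ^ I.card ≤ (1 / ((p : ℝ) - 1)) ^ 2 :=
                pow_le_pow_of_le_one (inv_nonneg' hp) (inv_le_one hp) hc
            _ ≤ (2 / p) ^ 2 := pow_le_pow_left₀ (inv_nonneg' hp) (inv_le hp) 2
      have h3 : (∑ n ∈ range p, ∏ i ∈ I, |wp p (n + h i)|) / p ≤ (2 * k + 4) / (p : ℝ) ^ 2 := by
        calc (∑ n ∈ range p, ∏ i ∈ I, |wp p (n + h i)|) / p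
            ≤ (k * (2 / p) + p * (2 / p) ^ 2) / p := div_le_div_of_nonneg_right h2 hp0.le
          _ = (2 * k + 4) / (p : ℝ) ^ 2 := by field_simp; ring
      calc (p : ℝ) ^ ((I.card : ℝ) / (4 * k)) *
            ‖av p (fun n => ((∏ i ∈ I, wp p (n + h i) : ℝ) : ℂ))‖
          ≤ (p : ℝ) ^ (1 / 4 : ℝ) * ((2 * k + 4) / (p : ℝ) ^ 2) :=
            mul_le_mul (rpow_weight hk hp I) (h1.trans h3) (norm_nonneg _) (by positivity)
        _ = (2 * k + 4) * (p : ℝ) ^ (-(7 / 4 : ℝ)) := by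
            have h4 : (p : ℝ) ^ (-(7 / 4 : ℝ)) = (p : ℝ) ^ (1 / 4 : ℝ) * ((p : ℝ) ^ 2)⁻¹ := by
              rw [← Real.rpow_natCast (p : ℝ) 2, ← Real.rpow_neg hp0.le, ← Real.rpow_add hp0]
              norm_num
            rw [h4]
            ring
  have hempty : (p : ℝ) ^ (((∅ : Finset (Fin k)).card : ℝ) / (4 * k)) *
      ‖av p (fun n => ((∏ i ∈ (∅ : Finset (Fin k)), wp p (n + h i) : ℝ) : ℂ))‖ = 1 := by
    simp only [card_empty, Nat.cast_zero, zero_div, Real.rpow_zero, prod_empty, one_mul]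
    unfold av
    simp only [Complex.ofReal_one, sum_const, card_range, nsmul_eq_mul, mul_one]
    rw [div_self]
    · exact norm_one
    · exact_mod_cast hp.ne_zero
  rw [← Finset.add_sum_erase univ _ (mem_univ (∅ : Finset (Fin k))), hempty]
  refine add_le_add le_rfl ?_
  calc ∑ I ∈ univ.erase (∅ : Finset (Fin k)), (p : ℝ) ^ ((I.card : ℝ) / (4 * k)) *
        ‖av p (fun n => ((∏ i ∈ I, wp p (n + h i) : ℝ) : ℂ))‖
      ≤ ∑ I ∈ univ.erase (∅ : Finset (Fin k)), (2 * k + 4) * (p : ℝ) ^ (-(7 / 4 : ℝ)) :=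
        sum_le_sum fun I hI => hterm I (ne_of_mem_erase hI)
    _ = ((univ.erase (∅ : Finset (Fin k))).card : ℝ) * ((2 * k + 4) * (p : ℝ) ^ (-(7 / 4 : ℝ))) := by
        rw [sum_const, nsmul_eq_mul]
    _ ≤ 2 ^ k * ((2 * k + 4) * (p : ℝ) ^ (-(7 / 4 : ℝ))) := by
        refine mul_le_mul_of_nonneg_right ?_ (by positivity)
        have h1 : (univ.erase (∅ : Finset (Fin k))).card ≤ 2 ^ k := by
          refine (card_erase_le).trans ?_
          rw [card_univ, Fintype.card_finset, Fintype.card_fin]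
        exact_mod_cast h1
    _ = 2 ^ k * (2 * k + 4) * (p : ℝ) ^ (-(7 / 4 : ℝ)) := by ring

theorem loc_bad (k : ℕ) (hk : 1 ≤ k) : ∃ C : ℝ, 0 < C ∧ ∀ p : ℕ, p.Prime → ∀ h : Fin k → ℕ,
    ∑ I : Finset (Fin k), (p : ℝ) ^ ((I.card : ℝ) / (4 * k)) *
      ((∑ n ∈ range p, ∏ i ∈ I, |wp p (n + h i)|) / p) ≤ 1 + C * (p : ℝ) ^ (-(3 / 4 : ℝ)) := by
  refine ⟨2 ^ k * (k + 2), by positivity, fun p hp h => ?_⟩
  have hp0 : (0 : ℝ) < p := by exact_mod_cast hp.pos
  have hterm : ∀ I : Finset (Fin k), I ≠ ∅ →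
      (p : ℝ) ^ ((I.card : ℝ) / (4 * k)) *
        ((∑ n ∈ range p, ∏ i ∈ I, |wp p (n + h i)|) / p) ≤
      (k + 2) * (p : ℝ) ^ (-(3 / 4 : ℝ)) := by
    intro I hI
    have hIne : I.Nonempty := nonempty_iff_ne_empty.mpr hI
    have hnn : 0 ≤ (∑ n ∈ range p, ∏ i ∈ I, |wp p (n + h i)|) / (p : ℝ) := by positivity
    calc (p : ℝ) ^ ((I.card : ℝ) / (4 * k)) *
          ((∑ n ∈ range p, ∏ i ∈ I, |wp p (n + h i)|) / p)
        ≤ (p : ℝ) ^ (1 / 4 : ℝ) * ((k + 2) / p) :=
          mul_le_mul (rpow_weight hk hp I) (loc_abs p hp I hIne h) hnn (by positivity)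
      _ = (k + 2) * (p : ℝ) ^ (-(3 / 4 : ℝ)) := by
          have h4 : (p : ℝ) ^ (-(3 / 4 : ℝ)) = (p : ℝ) ^ (1 / 4 : ℝ) * (p : ℝ)⁻¹ := by
            rw [← Real.rpow_neg_one (p : ℝ), ← Real.rpow_add hp0]
            norm_num
          rw [h4]
          ring
  have hempty : (p : ℝ) ^ (((∅ : Finset (Fin k)).card : ℝ) / (4 * k)) *
      ((∑ n ∈ range p, ∏ i ∈ (∅ : Finset (Fin k)), |wp p (n + h i)|) / p) = 1 := by
    simp only [card_empty, Nat.cast_zero, zero_div, Real.rpow_zero, prod_empty, one_mul,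
      sum_const, card_range, nsmul_eq_mul, mul_one]
    exact div_self hp0.ne'
  rw [← Finset.add_sum_erase univ _ (mem_univ (∅ : Finset (Fin k))), hempty]
  refine add_le_add le_rfl ?_
  calc ∑ I ∈ univ.erase (∅ : Finset (Fin k)), (p : ℝ) ^ ((I.card : ℝ) / (4 * k)) *
        ((∑ n ∈ range p, ∏ i ∈ I, |wp p (n + h i)|) / p)
      ≤ ∑ I ∈ univ.erase (∅ : Finset (Fin k)), (k + 2) * (p : ℝ) ^ (-(3 / 4 : ℝ)) :=
        sum_le_sum fun I hI => hterm I (ne_of_mem_erase hI)
    _ = ((univ.erase (∅ : Finset (Fin k))).card : ℝ) * ((k + 2) * (p : ℝ) ^ (-(3 / 4 : ℝ))) := by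
        rw [sum_const, nsmul_eq_mul]
    _ ≤ 2 ^ k * ((k + 2) * (p : ℝ) ^ (-(3 / 4 : ℝ))) := by
        refine mul_le_mul_of_nonneg_right ?_ (by positivity)
        have h1 : (univ.erase (∅ : Finset (Fin k))).card ≤ 2 ^ k := by
          refine (card_erase_le).trans ?_
          rw [card_univ, Fintype.card_finset, Fintype.card_fin]
        exact_mod_cast h1
    _ = 2 ^ k * (k + 2) * (p : ℝ) ^ (-(3 / 4 : ℝ)) := by ring

end Pool.Agent.Lib.GMV
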