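import Pool.Agent.Lib.GMV.Model

/-!
# GMV.DDef: definitions for the Deuring-Heilbronn phenomenon

`x` is the exceptional (quadratic) character, `lmb x = 1 * χ ≥ 0`.
-/

set_option autoImplicit false

open Finset

namespace Pool.Agent.Lib.GMV

/-- Dirichlet convolution of two functions on `ℕ`. -/
noncomputable def cm (u v : ℕ → ℂ) (n : ℕ) : ℂ := ∑ d ∈ n.divisors, u (n / d) * v d

/-- `∑_{d ∣ n} χ(d)` (real part). -/
noncomputable def lmb (x : CI) (n : ℕ) : ℝ := ∑ d ∈ n.divisors, (cv x d).re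

/-- The density of the multiples of the prime `p` with weights `lmb x`. -/
noncomputable def wq (x : CI) (p : ℕ) : ℝ := (1 + (cv x p).re * (1 - 1 / (p : ℝ))) / p

/-- `w / (1 - w)`. -/
noncomputable def gq (x : CI) (p : ℕ) : ℝ := wq x p / (1 - wq x p)

/-- `∑_{d ∣ n} θ(d)`. -/
noncomputable def thw (θ : ℕ → ℝ) (n : ℕ) : ℝ := ∑ d ∈ n.divisors, θ d

/-- The quadratic form of the sieve. -/
noncomputable def QV (w θ : ℕ → ℝ) (E : ℕ) : ℝ :=
  ∑ d ∈ Icc 1 E, ∑ e ∈ Icc 1 E, θ d * θ e * ∏ p ∈ (Nat.lcm d e).primeFactors, w p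

/-- `L(1,χ)` (real part). -/
noncomputable def L1 (x : CI) : ℝ := (DirichletCharacter.LFunction x.2 1).re

/-- Sieve weights of level `E`. -/
def Adm (θ : ℕ → ℝ) (E : ℕ) : Prop :=
  θ 1 = 1 ∧ (∀ d, |θ d| ≤ 1) ∧ ∀ d, θ d ≠ 0 → 1 ≤ d ∧ d ≤ E ∧ Squarefree d

/-- Nontrivial quadratic character. -/
def Quad (x : CI) : Prop := x.2 ≠ 1 ∧ x.2 ^ 2 = 1

end Pool.Agent.Lib.GMV
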