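import Pool.Agent.Lib.GMV.DLam
import Pool.Agent.Lib.BV.LargeSieve

/-!
# GMV.DPrd (0.7 h): the product of two different primitive characters, one of them quadratic, is not principal

PROOF. `χ2 = changeLevel y.2 * changeLevel x.2` modulo `md y * md x` (`DirichletCharacter.changeLevel`, `changeLevel_eq_cast_of_dvd`), for `n` not coprime to the
modulus both sides vanish. If `χ2 = 1`, then `cv y n = cv x n` for all `n` coprime to `md y * md x` (`cv x n ∈ {1,-1}`), so both
characters have the same lift to `md y * md x`, hence (primitive) the same modulus and the same character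
(conductors: `DirichletCharacter.conductor`, `factorsThrough`, see also GMV.ZFa/ZDet/ZGram/BV.PrimBound or `SW` for such a uniqueness lemma).
-/

set_option autoImplicit false

open Finset

namespace Pool.Agent.Lib.GMV

theorem prod_char {Q : ℕ} {x y : CI} (hx : x ∈ Ch Q) (hy : y ∈ Ch Q) (h : Quad x) (hne : y ≠ x) :
    ∃ χ : DirichletCharacter ℂ (md y * md x), χ ≠ 1 ∧
      ∀ n : ℕ, χ (n : ZMod (md y * md x)) = cv y n * cv x n := by
  have hx' := (mem_Ch.1 hx).2
  have hy' := (mem_Ch.1 hy).2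
  have hre := cv_re h
  obtain ⟨a, χ⟩ := x
  obtain ⟨b, ψ⟩ := y
  show ∃ θ : DirichletCharacter ℂ ((b + 1) * (a + 1)), θ ≠ 1 ∧
      ∀ n : ℕ, θ (n : ZMod ((b + 1) * (a + 1))) = ψ (n : ZMod (b + 1)) * χ (n : ZMod (a + 1))
  have hs : (⟨b + 1, ψ⟩ : (n : ℕ) × DirichletCharacter ℂ n) ≠ ⟨a + 1, χ⟩ := by
    intro hh
    apply hne
    have h1 : b + 1 = a + 1 := congrArg Sigma.fst hh
    have h2 : b = a := by omega
    subst h2
    have h3 : ψ = χ := eq_of_heq (Sigma.mk.inj hh).2
    rw [h3]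
  refine ⟨_, BV.ls_ne_one ψ χ hy' hx' hs, fun n => ?_⟩
  rw [BV.ls_pair ψ χ n]
  have h4 : χ (n : ZMod (a + 1)) = ((cv ⟨a, χ⟩ n).re : ℂ) := hre n
  rw [h4, Complex.conj_ofReal]

end Pool.Agent.Lib.GMV
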