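import Pool.Agent.Lib.GMV.DMn
import Pool.Agent.Lib.GMV.DPrd

/-!
# GMV.DExp (1.2 h): sums with the weights `(∑_{d ∣ n} θ d)^2`

PROOF. `(thw θ n)^2 = ∑_{d, e ≤ E} θ d θ e [lcm d e ∣ n]` for `n ≥ 1` (support of `θ`: squarefree numbers `≤ E`), so
`∑_{n ≤ N} (thw θ n)^2 F n = ∑_{d, e} θ d θ e ∑_{n ≤ N, lcm ∣ n} F n`; `lcm d e` is squarefree and `≤ E^2`, `(lcm)^2 ≤ E^4 ≤ N`, `E^2` pairs: `mult_pri`,
`mult_non` (with `χ1 = y.2`, `q1 = md y`; `χ2` from `prod_char`, `q2 = md y * md x`; `cm_cv_cv`) for the pairs with `θ d θ e ≠ 0`.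
-/

set_option autoImplicit false

open Finset

namespace Pool.Agent.Lib.GMV

namespace DExpAux

lemma thw_eq {θ : ℕ → ℝ} {E : ℕ} (hθ : Adm θ E) {n : ℕ} (hn : n ≠ 0) :
    thw θ n = ∑ d ∈ Icc 1 E, if d ∣ n then θ d else 0 := by
  unfold thw
  rw [← sum_filter, ← sum_filter_ne_zero (s := n.divisors),
    ← sum_filter_ne_zero (s := (Icc 1 E).filter (fun d => d ∣ n))]
  refine sum_congr ?_ fun _ _ => rfl
  ext d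
  simp only [mem_filter, Nat.mem_divisors, mem_Icc]
  constructor
  · rintro ⟨⟨h1, _⟩, h2⟩
    obtain ⟨h3, h4, _⟩ := hθ.2.2 d h2
    exact ⟨⟨⟨h3, h4⟩, h1⟩, h2⟩
  · rintro ⟨⟨_, h1⟩, h2⟩
    exact ⟨⟨h1, hn⟩, h2⟩

lemma expand {θ : ℕ → ℝ} {E : ℕ} (hθ : Adm θ E) (N : ℕ) (F : ℕ → ℂ) :
    ∑ n ∈ Icc 1 N, (((thw θ n) ^ 2 : ℝ) : ℂ) * F n =
      ∑ d ∈ Icc 1 E, ∑ e ∈ Icc 1 E, ((θ d * θ e : ℝ) : ℂ) *
        ∑ n ∈ (Icc 1 N).filter (fun n => Nat.lcm d e ∣ n), F n := by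
  have h1 : ∀ n ∈ Icc 1 N, (((thw θ n) ^ 2 : ℝ) : ℂ) * F n =
      ∑ d ∈ Icc 1 E, ∑ e ∈ Icc 1 E, ((θ d * θ e : ℝ) : ℂ) *
        (if Nat.lcm d e ∣ n then F n else 0) := by
    intro n hn
    have hn0 : n ≠ 0 := by
      have := (mem_Icc.mp hn).1
      omega
    rw [thw_eq hθ hn0, sq, sum_mul_sum, Complex.ofReal_sum, sum_mul]
    refine sum_congr rfl fun d _ => ?_
    rw [Complex.ofReal_sum, sum_mul]
    refine sum_congr rfl fun e _ => ?_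
    by_cases hd : d ∣ n
    · by_cases he : e ∣ n
      · rw [if_pos hd, if_pos he, if_pos (Nat.lcm_dvd hd he)]
      · rw [if_pos hd, if_neg he, if_neg fun h => he ((Nat.dvd_lcm_right d e).trans h)]
        simp
    · rw [if_neg hd, if_neg fun h => hd ((Nat.dvd_lcm_left d e).trans h)]
      simp
  rw [sum_congr rfl h1, sum_comm]
  refine sum_congr rfl fun d _ => ?_
  rw [sum_comm]
  refine sum_congr rfl fun e _ => ?_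
  rw [← mul_sum, sum_filter]

/-- the least common multiple of two numbers in the support -/
lemma lcm_facts {θ : ℕ → ℝ} {E : ℕ} (hθ : Adm θ E) {d e : ℕ} (hd : θ d ≠ 0) (he : θ e ≠ 0) :
    Squarefree (Nat.lcm d e) ∧ Nat.lcm d e ≤ E ^ 2 := by
  obtain ⟨d1, d2, d3⟩ := hθ.2.2 d hd
  obtain ⟨e1, e2, e3⟩ := hθ.2.2 e he
  refine ⟨?_, ?_⟩
  · have hd0 : d ≠ 0 := by omega
    have he0 : e ≠ 0 := by omega
    rw [Nat.squarefree_iff_factorization_le_one (Nat.lcm_ne_zero hd0 he0)]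
    intro p
    rw [Nat.factorization_lcm hd0 he0, Finsupp.sup_apply]
    exact sup_le ((Nat.squarefree_iff_factorization_le_one hd0).1 d3 p)
      ((Nat.squarefree_iff_factorization_le_one he0).1 e3 p)
  · calc Nat.lcm d e ≤ d * e := Nat.le_of_dvd (Nat.mul_pos d1 e1) (Nat.lcm_dvd_mul d e)
      _ ≤ E * E := Nat.mul_le_mul d2 e2
      _ = E ^ 2 := by ring

/-- summation of the errors -/
lemma err_sum {θ : ℕ → ℝ} {E : ℕ} (hθ : Adm θ E) (G : ℕ → ℕ → ℂ) (B : ℝ) (hB : 0 ≤ B)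
    (hG : ∀ d e, θ d ≠ 0 → θ e ≠ 0 → ‖G d e‖ ≤ B * ((Nat.lcm d e : ℕ) : ℝ) ^ 2) :
    ‖∑ d ∈ Icc 1 E, ∑ e ∈ Icc 1 E, ((θ d * θ e : ℝ) : ℂ) * G d e‖ ≤ B * (E : ℝ) ^ 6 := by
  have h1 : ∀ d ∈ Icc 1 E, ‖∑ e ∈ Icc 1 E, ((θ d * θ e : ℝ) : ℂ) * G d e‖ ≤
      (E : ℝ) * (B * (E : ℝ) ^ 4) := by
    intro d _
    have h2 : ∀ e ∈ Icc 1 E, ‖((θ d * θ e : ℝ) : ℂ) * G d e‖ ≤ B * (E : ℝ) ^ 4 := by
      intro e _
      by_cases hd : θ d = 0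
      · rw [hd]
        simp only [zero_mul, Complex.ofReal_zero, norm_zero]
        positivity
      by_cases he : θ e = 0
      · rw [he]
        simp only [mul_zero, Complex.ofReal_zero, zero_mul, norm_zero]
        positivity
      rw [norm_mul, Complex.norm_real, norm_mul, Real.norm_eq_abs, Real.norm_eq_abs]
      have h3 : |θ d| * |θ e| ≤ 1 := mul_le_one₀ (hθ.2.1 d) (abs_nonneg _) (hθ.2.1 e)
      have h4 : ((Nat.lcm d e : ℕ) : ℝ) ≤ (E : ℝ) ^ 2 := by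
        exact_mod_cast (lcm_facts hθ hd he).2
      have h5 : ((Nat.lcm d e : ℕ) : ℝ) ^ 2 ≤ (E : ℝ) ^ 4 := by
        calc ((Nat.lcm d e : ℕ) : ℝ) ^ 2 ≤ ((E : ℝ) ^ 2) ^ 2 :=
              pow_le_pow_left₀ (Nat.cast_nonneg _) h4 2
          _ = (E : ℝ) ^ 4 := by ring
      calc |θ d| * |θ e| * ‖G d e‖ ≤ 1 * (B * ((Nat.lcm d e : ℕ) : ℝ) ^ 2) :=
            mul_le_mul h3 (hG d e hd he) (norm_nonneg _) zero_le_one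
        _ ≤ B * (E : ℝ) ^ 4 := by
            rw [one_mul]
            exact mul_le_mul_of_nonneg_left h5 hB
    refine (norm_sum_le_of_le _ h2).trans ?_
    rw [sum_const, Nat.card_Icc, Nat.add_sub_cancel, nsmul_eq_mul]
  refine (norm_sum_le_of_le _ h1).trans ?_
  rw [sum_const, Nat.card_Icc, Nat.add_sub_cancel, nsmul_eq_mul]
  exact le_of_eq (by ring)

end DExpAux

open DExpAux

theorem exp_non : ∃ C : ℝ, 1 ≤ C ∧ ∀ (Q : ℕ) (x y : CI) (s : ℂ) (θ : ℕ → ℝ) (E N : ℕ),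
    x ∈ Ch Q → y ∈ Ch Q → Quad x → y ≠ x → y.2 ≠ 1 → 9 / 10 ≤ s.re → s.re ≤ 1 →
    DirichletCharacter.LFunction y.2 s = 0 → Adm θ E → 1 ≤ E → E ^ 4 ≤ N →
    ‖∑ n ∈ Icc 1 N, (((thw θ n) ^ 2 * lmb x n : ℝ) : ℂ) * (cv y n * (n : ℂ) ^ (-s))‖ ≤
      C * (Q : ℝ) ^ 3 * ‖s‖ ^ 2 * (E : ℝ) ^ 6 * (N : ℝ) ^ (-(2 / 5) : ℝ) := by
  obtain ⟨C, hC1, hC⟩ := mult_non
  refine ⟨C, hC1, ?_⟩
  intro Q x y s θ E N hx hy hqx hne hy1 hs1 hs2 hL hθ hE hN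
  have hC0 : 0 ≤ C := by linarith
  have hN1 : 1 ≤ N := le_trans (Nat.one_le_pow _ _ hE) hN
  have hxQ : (md x : ℝ) ≤ Q := by exact_mod_cast (mem_Ch.1 hx).1
  have hyQ : (md y : ℝ) ≤ Q := by exact_mod_cast (mem_Ch.1 hy).1
  obtain ⟨χ, hχ1, hχ⟩ := prod_char hx hy hqx hne
  have : NeZero (md y * md x) := ⟨(Nat.mul_pos (md_pos y) (md_pos x)).ne'⟩
  set B : ℝ := C * (Q : ℝ) ^ 3 * ‖s‖ ^ 2 * (N : ℝ) ^ (-(2 / 5) : ℝ) with hB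
  have hB0 : 0 ≤ B := by positivity
  have e1 : ∑ n ∈ Icc 1 N, (((thw θ n) ^ 2 * lmb x n : ℝ) : ℂ) * (cv y n * (n : ℂ) ^ (-s)) =
      ∑ n ∈ Icc 1 N, (((thw θ n) ^ 2 : ℝ) : ℂ) *
        (cm (cv y) (fun n => cv y n * cv x n) n * (n : ℂ) ^ (-s)) := by
    refine sum_congr rfl fun n _ => ?_
    rw [cm_cv_cv hqx, Complex.ofReal_mul]
    ring
  rw [e1, expand hθ]
  refine (err_sum hθ _ B hB0 ?_).trans (le_of_eq (by rw [hB]; ring))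
  intro d e hd he
  obtain ⟨hsq, _⟩ := lcm_facts hθ hd he
  have h1 := hC (y.1 + 1) (md y * md x) y.2 χ s (Nat.lcm d e) N hy1 hχ1 hs1 hs2 hL hsq hN1
  have h2 : (fun n : ℕ => χ (n : ZMod (md y * md x))) = fun n => cv y n * cv x n := funext hχ
  have h3 : (fun n : ℕ => y.2 (n : ZMod (y.1 + 1))) = cv y := rfl
  rw [h2, h3] at h1
  refine h1.trans ?_
  have h4 : (((y.1 + 1 : ℕ) : ℝ) * ((md y * md x : ℕ) : ℝ)) ≤ (Q : ℝ) ^ 3 := by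
    have h5 : ((y.1 + 1 : ℕ) : ℝ) = md y := rfl
    rw [h5, Nat.cast_mul]
    calc (md y : ℝ) * (md y * md x) ≤ (Q : ℝ) * (Q * Q) :=
          mul_le_mul hyQ (mul_le_mul hyQ hxQ (Nat.cast_nonneg _) (Nat.cast_nonneg _))
            (by positivity) (Nat.cast_nonneg _)
      _ = (Q : ℝ) ^ 3 := by ring
  have h6 : 0 ≤ ‖s‖ ^ 2 * ((Nat.lcm d e : ℕ) : ℝ) ^ 2 * (N : ℝ) ^ (-(2 / 5) : ℝ) := by positivity
  calc C * (((y.1 + 1 : ℕ) : ℝ) * ((md y * md x : ℕ) : ℝ)) * ‖s‖ ^ 2 *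
        ((Nat.lcm d e : ℕ) : ℝ) ^ 2 * (N : ℝ) ^ (-(2 / 5) : ℝ) =
      C * (((y.1 + 1 : ℕ) : ℝ) * ((md y * md x : ℕ) : ℝ)) *
        (‖s‖ ^ 2 * ((Nat.lcm d e : ℕ) : ℝ) ^ 2 * (N : ℝ) ^ (-(2 / 5) : ℝ)) := by ring
    _ ≤ C * (Q : ℝ) ^ 3 *
        (‖s‖ ^ 2 * ((Nat.lcm d e : ℕ) : ℝ) ^ 2 * (N : ℝ) ^ (-(2 / 5) : ℝ)) :=
        mul_le_mul_of_nonneg_right (mul_le_mul_of_nonneg_left h4 hC0) h6
    _ = B * ((Nat.lcm d e : ℕ) : ℝ) ^ 2 := by rw [hB]; ring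

theorem exp_pri : ∃ C : ℝ, 1 ≤ C ∧ ∀ (Q : ℕ) (x : CI) (s : ℂ) (θ : ℕ → ℝ) (E N : ℕ),
    x ∈ Ch Q → Quad x → 9 / 10 ≤ s.re → s.re ≤ 1 → s ≠ 1 →
    (riemannZeta s = 0 ∨ DirichletCharacter.LFunction x.2 s = 0) → Adm θ E → 1 ≤ E → E ^ 4 ≤ N →
    ‖∑ n ∈ Icc 1 N, (((thw θ n) ^ 2 * lmb x n : ℝ) : ℂ) * (n : ℂ) ^ (-s) -
      (QV (wq x) θ E * L1 x : ℝ) * ((N : ℂ) ^ (1 - s) / (1 - s))‖ ≤
      C * Q * ‖s‖ ^ 2 * (1 + 1 / ‖1 - s‖) * (E : ℝ) ^ 6 * (N : ℝ) ^ (-(2 / 5) : ℝ) := by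
  obtain ⟨C, hC1, hC⟩ := mult_pri
  refine ⟨C, hC1, ?_⟩
  intro Q x s θ E N hx hqx hs1 hs2 hs3 hL hθ hE hN
  have hC0 : 0 ≤ C := by linarith
  have hxQ : (md x : ℝ) ≤ Q := by exact_mod_cast (mem_Ch.1 hx).1
  set B : ℝ := C * Q * ‖s‖ ^ 2 * (1 + 1 / ‖1 - s‖) * (N : ℝ) ^ (-(2 / 5) : ℝ) with hB
  have hB0 : 0 ≤ B := by positivity
  have e1 : ∑ n ∈ Icc 1 N, (((thw θ n) ^ 2 * lmb x n : ℝ) : ℂ) * (n : ℂ) ^ (-s) =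
      ∑ n ∈ Icc 1 N, (((thw θ n) ^ 2 : ℝ) : ℂ) * ((lmb x n : ℂ) * (n : ℂ) ^ (-s)) := by
    refine sum_congr rfl fun n _ => ?_
    rw [Complex.ofReal_mul]
    ring
  have e2 : ((QV (wq x) θ E * L1 x : ℝ) : ℂ) * ((N : ℂ) ^ (1 - s) / (1 - s)) =
      ∑ d ∈ Icc 1 E, ∑ e ∈ Icc 1 E, ((θ d * θ e : ℝ) : ℂ) *
        (((∏ p ∈ (Nat.lcm d e).primeFactors, wq x p : ℝ) : ℂ) *
          ((L1 x : ℂ) * ((N : ℂ) ^ (1 - s) / (1 - s)))) := by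
    unfold QV
    rw [Complex.ofReal_mul, Complex.ofReal_sum, mul_assoc, sum_mul]
    refine sum_congr rfl fun d _ => ?_
    rw [Complex.ofReal_sum, sum_mul]
    refine sum_congr rfl fun e _ => ?_
    rw [Complex.ofReal_mul]
    ring
  rw [e1, expand hθ, e2, ← sum_sub_distrib]
  simp only [← sum_sub_distrib, ← mul_sub]
  refine (err_sum hθ _ B hB0 ?_).trans (le_of_eq (by rw [hB]; ring))
  intro d e hd he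
  obtain ⟨hsq, hle⟩ := lcm_facts hθ hd he
  have hN2 : (Nat.lcm d e) ^ 2 ≤ N := by
    calc (Nat.lcm d e) ^ 2 ≤ (E ^ 2) ^ 2 := Nat.pow_le_pow_left hle 2
      _ = E ^ 4 := by ring
      _ ≤ N := hN
  refine (hC x s (Nat.lcm d e) N hqx hs1 hs2 hs3 hL hsq hN2).trans ?_
  have h6 : 0 ≤ ‖s‖ ^ 2 * (1 + 1 / ‖1 - s‖) * ((Nat.lcm d e : ℕ) : ℝ) ^ 2 *
      (N : ℝ) ^ (-(2 / 5) : ℝ) := by positivity
  calc C * md x * ‖s‖ ^ 2 * (1 + 1 / ‖1 - s‖) * ((Nat.lcm d e : ℕ) : ℝ) ^ 2 *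
        (N : ℝ) ^ (-(2 / 5) : ℝ) =
      C * md x * (‖s‖ ^ 2 * (1 + 1 / ‖1 - s‖) * ((Nat.lcm d e : ℕ) : ℝ) ^ 2 *
        (N : ℝ) ^ (-(2 / 5) : ℝ)) := by ring
    _ ≤ C * Q * (‖s‖ ^ 2 * (1 + 1 / ‖1 - s‖) * ((Nat.lcm d e : ℕ) : ℝ) ^ 2 *
        (N : ℝ) ^ (-(2 / 5) : ℝ)) :=
        mul_le_mul_of_nonneg_right (mul_le_mul_of_nonneg_left hxQ hC0) h6
    _ = B * ((Nat.lcm d e : ℕ) : ℝ) ^ 2 := by rw [hB]; ring

end Pool.Agent.Lib.GMV
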