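import Pool.Agent.Lib.GMV.DDef

/-!
# GMV.DHyp (1 h): the hyperbola formula

PROOF. `∑_{n ≤ y} cm u v n = ∑_{(a,b) : a b ≤ y} u a v b` (`a, b ≥ 1`; `n ↦ (n/d, d)`, `Nat.divisorsAntidiagonal`). Put
`M = ⌊√y⌋₊`. The pairs with `b ≤ M`: first sum (`a ≤ y/b`). The pairs with `b > M`: `b ≥ M + 1 > √y`, so `a ≤ y/b < √y`, `a ≤ M`; for
such an `a` the `b`'s are `M < b ≤ y/a` (and `M ≤ √y ≤ y/a` as `a ≤ √y`): second sum. `a ≤ ⌊y/b⌋₊ ↔ a b ≤ y` for `b ≥ 1`.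
-/

set_option autoImplicit false

open Finset

namespace Pool.Agent.Lib.GMV

namespace DHypAux

lemma cm_eq (u v : ℕ → ℂ) (n : ℕ) :
    cm u v n = ∑ x ∈ n.divisorsAntidiagonal, u x.1 * v x.2 := by
  unfold cm
  exact (Nat.sum_divisorsAntidiagonal' (f := fun a b => u a * v b) (n := n)).symm

/-- All pairs. -/
lemma sum_cm (u v : ℕ → ℂ) (N : ℕ) :
    ∑ n ∈ Icc 1 N, cm u v n =
      ∑ a ∈ Icc 1 N, ∑ b ∈ Icc 1 N, if a * b ≤ N then u a * v b else 0 := by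
  rw [← Finset.sum_product', ← Finset.sum_filter]
  have h1 : ∀ n ∈ Icc 1 N, cm u v n =
      ∑ x ∈ ((Icc 1 N ×ˢ Icc 1 N).filter (fun x => x.1 * x.2 ≤ N)).filter
        (fun x => x.1 * x.2 = n), u x.1 * v x.2 := by
    intro n hn
    obtain ⟨hn1, hn2⟩ := Finset.mem_Icc.1 hn
    rw [cm_eq]
    refine Finset.sum_congr ?_ fun _ _ => rfl
    ext x
    simp only [Nat.mem_divisorsAntidiagonal, Finset.mem_filter, Finset.mem_product,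
      Finset.mem_Icc]
    constructor
    · rintro ⟨h1, h2⟩
      have h3 : 0 < x.1 * x.2 := by omega
      have h4 : 0 < x.1 := Nat.pos_of_mul_pos_right h3
      have h5 : 0 < x.2 := Nat.pos_of_mul_pos_left h3
      have h6 : x.1 ≤ x.1 * x.2 := Nat.le_mul_of_pos_right _ h5
      have h7 : x.2 ≤ x.1 * x.2 := Nat.le_mul_of_pos_left _ h4
      exact ⟨⟨⟨⟨h4, by omega⟩, ⟨h5, by omega⟩⟩, by omega⟩, h1⟩
    · rintro ⟨⟨⟨⟨h1, h2⟩, ⟨h3, h4⟩⟩, h5⟩, h6⟩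
      exact ⟨h6, by omega⟩
  rw [Finset.sum_congr rfl h1]
  refine Finset.sum_fiberwise_of_maps_to ?_ _
  intro x hx
  obtain ⟨h1, h2⟩ := Finset.mem_filter.1 hx
  obtain ⟨h3, h4⟩ := Finset.mem_product.1 h1
  exact Finset.mem_Icc.2 ⟨Nat.mul_pos (Finset.mem_Icc.1 h3).1 (Finset.mem_Icc.1 h4).1, h2⟩

/-- One row. -/
lemma row (v : ℕ → ℂ) {a N : ℕ} (ha : 1 ≤ a) (c : ℂ) :
    ∑ b ∈ Icc 1 N, (if a * b ≤ N then c * v b else 0) = c * ∑ b ∈ Icc 1 (N / a), v b := by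
  rw [← Finset.sum_filter, Finset.mul_sum]
  refine Finset.sum_congr ?_ fun _ _ => rfl
  ext b
  simp only [Finset.mem_filter, Finset.mem_Icc]
  rw [Nat.le_div_iff_mul_le ha, mul_comm b a]
  constructor
  · rintro ⟨⟨h1, h2⟩, h3⟩
    exact ⟨h1, h3⟩
  · rintro ⟨h1, h3⟩
    have : b ≤ a * b := Nat.le_mul_of_pos_left _ ha
    exact ⟨⟨h1, by omega⟩, h3⟩

lemma split (f : ℕ → ℂ) {M N : ℕ} (h : M ≤ N) :
    ∑ b ∈ Icc 1 N, f b = ∑ b ∈ Icc 1 M, f b + ∑ b ∈ Ioc M N, f b := by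
  rw [← Finset.sum_union]
  · congr 1
    ext b
    simp only [Finset.mem_union, Finset.mem_Icc, Finset.mem_Ioc]
    omega
  · rw [Finset.disjoint_left]
    intro b hb hb'
    rw [Finset.mem_Icc] at hb
    rw [Finset.mem_Ioc] at hb'
    omega

lemma hyp_nat (u v : ℕ → ℂ) {M N : ℕ} (h1 : M * M ≤ N) (h2 : N < (M + 1) * (M + 1)) :
    ∑ n ∈ Icc 1 N, cm u v n =
      ∑ b ∈ Icc 1 M, v b * ∑ a ∈ Icc 1 (N / b), u a +
      ∑ a ∈ Icc 1 M, u a * (∑ b ∈ Icc 1 (N / a), v b - ∑ b ∈ Icc 1 M, v b) := by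
  have hMN : M ≤ N := by
    rcases Nat.eq_zero_or_pos M with h | h
    · omega
    · exact le_trans (Nat.le_mul_of_pos_left _ h) h1
  rw [sum_cm]
  have e1 : ∀ a ∈ Icc 1 N, ∑ b ∈ Icc 1 N, (if a * b ≤ N then u a * v b else 0) =
      ∑ b ∈ Icc 1 M, (if a * b ≤ N then u a * v b else 0) +
        ∑ b ∈ Ioc M N, (if a * b ≤ N then u a * v b else 0) := fun a _ => split _ hMN
  rw [Finset.sum_congr rfl e1, Finset.sum_add_distrib, Finset.sum_comm]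
  congr 1
  · refine Finset.sum_congr rfl fun b hb => ?_
    rw [← row u (Finset.mem_Icc.1 hb).1 (v b)]
    refine Finset.sum_congr rfl fun a _ => ?_
    rw [mul_comm b a, mul_comm (v b)]
  · rw [split _ hMN]
    have e2 : ∑ a ∈ Ioc M N, ∑ b ∈ Ioc M N, (if a * b ≤ N then u a * v b else 0) = 0 := by
      refine Finset.sum_eq_zero fun a ha => Finset.sum_eq_zero fun b hb => ?_
      rw [if_neg]
      rw [Finset.mem_Ioc] at ha hb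
      have : (M + 1) * (M + 1) ≤ a * b := Nat.mul_le_mul ha.1 hb.1
      omega
    rw [e2, add_zero]
    refine Finset.sum_congr rfl fun a ha => ?_
    obtain ⟨ha1, ha2⟩ := Finset.mem_Icc.1 ha
    have e3 := split (fun b => if a * b ≤ N then u a * v b else 0) hMN
    rw [row v ha1 (u a)] at e3
    have e4 : ∑ b ∈ Icc 1 M, (if a * b ≤ N then u a * v b else 0) =
        u a * ∑ b ∈ Icc 1 M, v b := by
      rw [Finset.mul_sum]
      refine Finset.sum_congr rfl fun b hb => ?_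
      rw [if_pos]
      exact le_trans (Nat.mul_le_mul ha2 (Finset.mem_Icc.1 hb).2) h1
    rw [e4] at e3
    rw [mul_sub, e3]
    ring

end DHypAux

open DHypAux

theorem hyp (u v : ℕ → ℂ) (y : ℝ) (hy : 1 ≤ y) :
    ∑ n ∈ Icc 1 ⌊y⌋₊, cm u v n =
      ∑ b ∈ Icc 1 ⌊Real.sqrt y⌋₊, v b * ∑ a ∈ Icc 1 ⌊y / b⌋₊, u a +
      ∑ a ∈ Icc 1 ⌊Real.sqrt y⌋₊, u a *
        (∑ b ∈ Icc 1 ⌊y / a⌋₊, v b - ∑ b ∈ Icc 1 ⌊Real.sqrt y⌋₊, v b) := by
  have hy0 : 0 ≤ y := by linarith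
  have hs0 : 0 ≤ Real.sqrt y := Real.sqrt_nonneg y
  have h1 : ⌊Real.sqrt y⌋₊ * ⌊Real.sqrt y⌋₊ ≤ ⌊y⌋₊ := by
    apply Nat.le_floor
    push_cast
    have h2 : (⌊Real.sqrt y⌋₊ : ℝ) ≤ Real.sqrt y := Nat.floor_le hs0
    calc (⌊Real.sqrt y⌋₊ : ℝ) * ⌊Real.sqrt y⌋₊ ≤ Real.sqrt y * Real.sqrt y :=
          mul_le_mul h2 h2 (Nat.cast_nonneg _) hs0
      _ = y := Real.mul_self_sqrt hy0
  have h2 : ⌊y⌋₊ < (⌊Real.sqrt y⌋₊ + 1) * (⌊Real.sqrt y⌋₊ + 1) := by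
    rw [Nat.floor_lt hy0]
    push_cast
    have h3 : Real.sqrt y < ⌊Real.sqrt y⌋₊ + 1 := Nat.lt_floor_add_one _
    calc y = Real.sqrt y * Real.sqrt y := (Real.mul_self_sqrt hy0).symm
      _ < ((⌊Real.sqrt y⌋₊ : ℝ) + 1) * (⌊Real.sqrt y⌋₊ + 1) :=
          mul_lt_mul'' h3 h3 hs0 hs0
  have h3 := hyp_nat u v h1 h2
  simp only [Nat.floor_div_natCast]
  exact h3

/-- a completely multiplicative twist -/
theorem cm_twist (u v : ℕ → ℂ) (s : ℂ) (n : ℕ) :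
    cm u v n * (n : ℂ) ^ (-s) =
      cm (fun a => u a * (a : ℂ) ^ (-s)) (fun b => v b * (b : ℂ) ^ (-s)) n := by
  unfold cm
  rw [Finset.sum_mul]
  refine Finset.sum_congr rfl fun d hd => ?_
  have h1 : n / d * d = n := Nat.div_mul_cancel (Nat.dvd_of_mem_divisors hd)
  have h2 : (n : ℂ) ^ (-s) = ((n / d : ℕ) : ℂ) ^ (-s) * (d : ℂ) ^ (-s) := by
    conv_lhs => rw [← h1, Nat.cast_mul, Complex.natCast_mul_natCast_cpow]
  rw [h2]
  ring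

end Pool.Agent.Lib.GMV
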