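import Pool.Agent.Lib.GMV.DLam

/-!
# GMV.DHz (1.5 h): lower bound for the denominator of Selberg

PROOF. `gq_pos`, `gq_w`: `1 - wq x p = (1 - 1/p)(1 - χ(p)/p)` (check for `χ(p) = 0, 1, -1`: `cvre_mem`) lies in `(0, 1)`, `wq x p ∈ (0,1)`.
`H_lower`: induction over the primes `≤ E`: for a finite set `P` of primes and all `t ≥ 0`,
`∑_{n ≤ t, all primes of n in P} lmb x n/n ≤ ∑_{d ≤ t squarefree, primes in P} ∏ gq`, with
`∑_{k=1}^K lmb x (p^k) p^(-k) ≤ 1/((1-1/p)(1-χ(p)/p)) - 1 = gq x p`.
-/

set_option autoImplicit false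

open Finset

namespace Pool.Agent.Lib.GMV

namespace DHzAux

lemma c_mul {x : CI} (h : Quad x) (a b : ℕ) :
    (cv x (a * b)).re = (cv x a).re * (cv x b).re := by
  have h1 := cv_mul x a b
  rw [h1, Complex.mul_re]
  have ha : (cv x a).im = 0 := by rw [cv_re h a]; simp
  rw [ha]
  ring

lemma c_one (x : CI) : (cv x 1).re = 1 := by
  rw [cv_one]; simp

lemma c_pow {x : CI} (h : Quad x) (p j : ℕ) : (cv x (p ^ j)).re = (cv x p).re ^ j := by
  induction j with
  | zero => simp [c_one]
  | succ j ih => rw [pow_succ, c_mul h, ih, pow_succ]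

lemma lam_mul {x : CI} (h : Quad x) {a b : ℕ} (hab : a.Coprime b) :
    lmb x (a * b) = lmb x a * lmb x b := by
  let f : ArithmeticFunction ℝ := ⟨fun n => if n = 0 then 0 else (cv x n).re, by simp⟩
  have hf : f.IsMultiplicative := by
    constructor
    · show (if (1 : ℕ) = 0 then (0 : ℝ) else (cv x 1).re) = 1
      simp [c_one]
    · intro m n _
      show (if m * n = 0 then (0 : ℝ) else (cv x (m * n)).re) =
        (if m = 0 then (0 : ℝ) else (cv x m).re) * (if n = 0 then (0 : ℝ) else (cv x n).re)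
      by_cases hm : m = 0
      · simp [hm]
      by_cases hn : n = 0
      · simp [hn]
      rw [if_neg hm, if_neg hn, if_neg (mul_ne_zero hm hn), c_mul h]
  have hz : (f * (ArithmeticFunction.zeta : ArithmeticFunction ℝ)).IsMultiplicative :=
    hf.mul ArithmeticFunction.isMultiplicative_zeta.natCast
  have key : ∀ n : ℕ, (f * (ArithmeticFunction.zeta : ArithmeticFunction ℝ)) n = lmb x n := by
    intro n
    rw [ArithmeticFunction.coe_mul_zeta_apply]
    unfold lmb
    apply Finset.sum_congr rfl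
    intro d hd
    show (if d = 0 then (0 : ℝ) else (cv x d).re) = (cv x d).re
    rw [if_neg (Nat.pos_of_mem_divisors hd).ne']
  have := hz.2 hab
  rw [key, key, key] at this
  exact this

lemma lam_pp {x : CI} (h : Quad x) {p : ℕ} (hp : p.Prime) (k : ℕ) :
    lmb x (p ^ k) = ∑ j ∈ range (k + 1), (cv x p).re ^ j := by
  unfold lmb
  rw [Nat.sum_divisors_prime_pow hp]
  apply Finset.sum_congr rfl
  intro j _
  exact c_pow h p j

lemma lam_succ {x : CI} (h : Quad x) {p : ℕ} (hp : p.Prime) (k : ℕ) :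
    lmb x (p ^ (k + 1)) = 1 + (cv x p).re * lmb x (p ^ k) := by
  rw [lam_pp h hp, lam_pp h hp, Finset.sum_range_succ', Finset.mul_sum]
  simp only [pow_zero, pow_succ]
  rw [add_comm]
  congr 1
  apply Finset.sum_congr rfl
  intro j _
  ring

lemma one_sub_wq (x : CI) {p : ℕ} (hp : p.Prime) :
    1 - wq x p = (1 - 1 / (p : ℝ)) * (1 - (cv x p).re / p) := by
  have hp0 : (p : ℝ) ≠ 0 := by exact_mod_cast hp.ne_zero
  unfold wq
  field_simp
  ring

lemma inv_le {p : ℕ} (hp : p.Prime) : 1 / (p : ℝ) ≤ 1 / 2 := by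
  have : (2 : ℝ) ≤ p := by exact_mod_cast hp.two_le
  exact one_div_le_one_div_of_le (by norm_num) this

lemma inv_pos' {p : ℕ} (hp : p.Prime) : 0 < 1 / (p : ℝ) := by
  have : (0 : ℝ) < p := by exact_mod_cast hp.pos
  positivity

lemma one_sub_pos {x : CI} (h : Quad x) {p : ℕ} (hp : p.Prime) : 0 < 1 - wq x p := by
  rw [one_sub_wq x hp]
  have h1 := inv_le hp
  have h2 := inv_pos' hp
  have h3 : (cv x p).re / p = (cv x p).re * (1 / (p : ℝ)) := by ring
  rw [h3]
  apply mul_pos
  · linarith
  · rcases cvre_mem h p with h4 | h4 | h4 <;> rw [h4] <;> linarith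

lemma wq_pos {x : CI} (h : Quad x) {p : ℕ} (hp : p.Prime) : 0 < wq x p := by
  unfold wq
  have h1 := inv_le hp
  have h2 := inv_pos' hp
  have h0 : (0 : ℝ) < p := by exact_mod_cast hp.pos
  apply div_pos _ h0
  rcases cvre_mem h p with h4 | h4 | h4 <;> rw [h4] <;> linarith

lemma one_add_gq {x : CI} (h : Quad x) {p : ℕ} (hp : p.Prime) :
    1 + gq x p = 1 / (1 - wq x p) := by
  have h1 := (one_sub_pos h hp).ne'
  unfold gq
  field_simp
  ring

/-- the partial sums of the local series -/
lemma part_sum {x : CI} (h : Quad x) {p : ℕ} (hp : p.Prime) (K : ℕ) :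
    (∑ k ∈ range (K + 1), lmb x (p ^ k) / (p : ℝ) ^ k) *
      ((1 - 1 / (p : ℝ)) * (1 - (cv x p).re / p)) =
    1 - lmb x (p ^ (K + 1)) * (1 / (p : ℝ)) ^ (K + 1) +
      (cv x p).re * lmb x (p ^ K) * (1 / (p : ℝ)) ^ (K + 2) := by
  have hp0 : (p : ℝ) ≠ 0 := by exact_mod_cast hp.ne_zero
  induction K with
  | zero =>
    have h1 := lam_succ h hp 0
    rw [pow_zero, lam_one] at h1
    simp only [zero_add, Finset.sum_range_one, pow_zero, lam_one, h1]
    ring
  | succ K ih =>
    rw [Finset.sum_range_succ, add_mul, ih]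
    have h1 := lam_succ h hp (K + 1)
    have h2 := lam_succ h hp K
    rw [h1, h2]
    have h3 : (1 + (cv x p).re * lmb x (p ^ K)) / (p : ℝ) ^ (K + 1) =
      (1 + (cv x p).re * lmb x (p ^ K)) * (1 / (p : ℝ)) ^ (K + 1) := by
      rw [div_eq_mul_inv, one_div, inv_pow]
    have h4 : (cv x p).re / (p : ℝ) = (cv x p).re * (1 / (p : ℝ)) := by ring
    rw [h3, h4]
    ring

lemma lam_le_one {x : CI} (h : Quad x) {p : ℕ} (hp : p.Prime) (hc : (cv x p).re = -1) (k : ℕ) :
    lmb x (p ^ k) ≤ 1 := by
  cases k with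
  | zero => rw [pow_zero, lam_one]
  | succ k =>
    rw [lam_succ h hp, hc]
    have := lam_nonneg h (p ^ k)
    linarith

lemma part_le {x : CI} (h : Quad x) {p : ℕ} (hp : p.Prime) (K : ℕ) :
    ∑ k ∈ range (K + 1), lmb x (p ^ k) / (p : ℝ) ^ k ≤ 1 + gq x p := by
  rw [one_add_gq h hp, le_div_iff₀ (one_sub_pos h hp), one_sub_wq x hp, part_sum h hp,
    lam_succ h hp]
  have h1 := inv_le hp
  have h2 := inv_pos' hp
  have h3 := lam_nonneg h (p ^ K)
  set t : ℝ := 1 / (p : ℝ) with ht
  set c := (cv x p).re with hc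
  set a := lmb x (p ^ K) with ha
  have h4 : 0 ≤ 1 + c * a * (1 - t) := by
    rcases cvre_mem h p with h5 | h5 | h5
    · rw [← hc] at h5; rw [h5]; norm_num
    · rw [← hc] at h5; rw [h5]
      have : 0 ≤ a * (1 - t) := mul_nonneg h3 (by linarith)
      linarith
    · have h6 := lam_le_one h hp h5 K
      rw [← hc] at h5; rw [h5]
      rw [← ha] at h6
      nlinarith
  have h7 : 0 ≤ t ^ (K + 1) := by positivity
  have h8 : 1 - (1 + c * a) * t ^ (K + 1) + c * a * t ^ (K + 2) =
    1 - t ^ (K + 1) * (1 + c * a * (1 - t)) := by ring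
  rw [h8]
  have := mul_nonneg h7 h4
  linarith

lemma part_le' {x : CI} (h : Quad x) {p : ℕ} (hp : p.Prime) (K : ℕ) :
    ∑ k ∈ range K, lmb x (p ^ (k + 1)) / (p : ℝ) ^ (k + 1) ≤ gq x p := by
  have h1 := part_le h hp K
  rw [Finset.sum_range_succ'] at h1
  simp only [pow_zero, lam_one, div_one] at h1
  linarith

/-- the left side, primes in `P` -/
noncomputable def A (x : CI) (P : Finset ℕ) (t : ℕ) : ℝ :=
  ∑ n ∈ (Icc 1 t).filter (fun n => n.primeFactors ⊆ P), lmb x n / n

/-- the right side, primes in `P` -/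
noncomputable def B (x : CI) (P : Finset ℕ) (t : ℕ) : ℝ :=
  ∑ d ∈ (Icc 1 t).filter (fun d => Squarefree d ∧ d.primeFactors ⊆ P),
    ∏ p ∈ d.primeFactors, gq x p

lemma term_nonneg {x : CI} (h : Quad x) (n : ℕ) : 0 ≤ lmb x n / n :=
  div_nonneg (lam_nonneg h n) (Nat.cast_nonneg n)

lemma A_nonneg {x : CI} (h : Quad x) (P : Finset ℕ) (t : ℕ) : 0 ≤ A x P t :=
  Finset.sum_nonneg fun n _ => term_nonneg h n

lemma A_mono {x : CI} (h : Quad x) (P : Finset ℕ) {s t : ℕ} (hst : s ≤ t) :
    A x P s ≤ A x P t := by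
  unfold A
  apply Finset.sum_le_sum_of_subset_of_nonneg
  · intro n hn
    rw [Finset.mem_filter, Finset.mem_Icc] at hn ⊢
    exact ⟨⟨hn.1.1, hn.1.2.trans hst⟩, hn.2⟩
  · intro n _ _
    exact term_nonneg h n

lemma A_step {x : CI} (h : Quad x) {P : Finset ℕ} {p : ℕ} (hp : p.Prime) (hpP : p ∉ P) (t : ℕ) :
    A x (insert p P) t ≤ ∑ k ∈ range (t + 1), lmb x (p ^ k) / (p : ℝ) ^ k * A x P (t / p ^ k) := by
  classical
  let φ : ℕ → (_ : ℕ) × ℕ := fun n => ⟨n.factorization p, n / p ^ n.factorization p⟩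
  let F : (_ : ℕ) × ℕ → ℝ := fun y => lmb x (p ^ y.1) / (p : ℝ) ^ y.1 * (lmb x y.2 / (y.2 : ℝ))
  have hprod : ∀ n : ℕ, p ^ n.factorization p * (n / p ^ n.factorization p) = n :=
    fun n => Nat.ordProj_mul_ordCompl_eq_self n p
  have hinj : ∀ a b : ℕ, φ a = φ b → a = b := by
    intro a b hab
    have h1 : a.factorization p = b.factorization p := congrArg Sigma.fst hab
    have h2 : a / p ^ a.factorization p = b / p ^ b.factorization p := by
      have := congrArg (fun y : (_ : ℕ) × ℕ => y.2) hab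
      exact this
    rw [← hprod a, ← hprod b, h2, h1]
  unfold A
  have hval : ∀ n ∈ (Icc 1 t).filter (fun n => n.primeFactors ⊆ insert p P),
      lmb x n / n = F (φ n) := by
    intro n hn
    rw [Finset.mem_filter, Finset.mem_Icc] at hn
    have hn0 : n ≠ 0 := by omega
    show lmb x n / n = lmb x (p ^ n.factorization p) / (p : ℝ) ^ n.factorization p *
      (lmb x (n / p ^ n.factorization p) / ((n / p ^ n.factorization p : ℕ) : ℝ))
    have hcop : (p ^ n.factorization p).Coprime (n / p ^ n.factorization p) :=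
      Nat.Coprime.pow_left _ (Nat.coprime_ordCompl hp hn0)
    have h1 : lmb x n = lmb x (p ^ n.factorization p) * lmb x (n / p ^ n.factorization p) := by
      rw [← lam_mul h hcop, hprod n]
    have h2 : (n : ℝ) = (p : ℝ) ^ n.factorization p * ((n / p ^ n.factorization p : ℕ) : ℝ) := by
      rw [← Nat.cast_pow, ← Nat.cast_mul, hprod n]
    rw [h1, div_mul_div_comm]
    congr 1
  rw [Finset.sum_congr rfl hval]
  rw [← Finset.sum_image (f := F) (g := φ) (fun a _ b _ hab => hinj a b hab)]
  have hR : ∑ k ∈ range (t + 1), lmb x (p ^ k) / (p : ℝ) ^ k *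
      ∑ n ∈ (Icc 1 (t / p ^ k)).filter (fun n => n.primeFactors ⊆ P), lmb x n / n =
      ∑ y ∈ (range (t + 1)).sigma
        (fun k => (Icc 1 (t / p ^ k)).filter (fun n => n.primeFactors ⊆ P)), F y := by
    rw [Finset.sum_sigma]
    apply Finset.sum_congr rfl
    intro k _
    rw [Finset.mul_sum]
  rw [hR]
  apply Finset.sum_le_sum_of_subset_of_nonneg
  · intro y hy
    rw [Finset.mem_image] at hy
    obtain ⟨n, hn, rfl⟩ := hy
    rw [Finset.mem_filter, Finset.mem_Icc] at hn
    have hn0 : n ≠ 0 := by omega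
    rw [Finset.mem_sigma]
    have hpos : 0 < p ^ n.factorization p := pow_pos hp.pos _
    constructor
    · rw [Finset.mem_range]
      have h1 : n.factorization p < n := Nat.factorization_lt p hn0
      show n.factorization p < t + 1
      omega
    · rw [Finset.mem_filter, Finset.mem_Icc]
      refine ⟨⟨?_, ?_⟩, ?_⟩
      · exact Nat.ordCompl_pos p hn0
      · exact Nat.div_le_div_right hn.1.2
      · intro r hr
        have hr1 : r ∈ n.primeFactors := by
          apply Nat.primeFactors_mono (Nat.ordCompl_dvd n p) hn0 hr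
        rcases Finset.mem_insert.mp (hn.2 hr1) with h2 | h2
        · exfalso
          have h3 := Nat.dvd_of_mem_primeFactors hr
          rw [h2] at h3
          exact Nat.not_dvd_ordCompl hp hn0 h3
        · exact h2
  · intro y _ _
    apply mul_nonneg
    · exact div_nonneg (lam_nonneg h _) (by positivity)
    · exact term_nonneg h _

lemma A_step' {x : CI} (h : Quad x) {P : Finset ℕ} {p : ℕ} (hp : p.Prime) (hpP : p ∉ P) (t : ℕ) :
    A x (insert p P) t ≤ A x P t + gq x p * A x P (t / p) := by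
  refine (A_step h hp hpP t).trans ?_
  rw [Finset.sum_range_succ']
  simp only [pow_zero, lam_one, div_one, one_mul, Nat.div_one]
  rw [add_comm]
  apply add_le_add_right
  calc ∑ k ∈ range t, lmb x (p ^ (k + 1)) / (p : ℝ) ^ (k + 1) * A x P (t / p ^ (k + 1))
      ≤ ∑ k ∈ range t, lmb x (p ^ (k + 1)) / (p : ℝ) ^ (k + 1) * A x P (t / p) := by
        apply Finset.sum_le_sum
        intro k _
        apply mul_le_mul_of_nonneg_left
        · apply A_mono h
          apply Nat.div_le_div_left _ hp.pos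
          calc p = p ^ 1 := (pow_one p).symm
            _ ≤ p ^ (k + 1) := Nat.pow_le_pow_right hp.pos (by omega)
        · exact div_nonneg (lam_nonneg h _) (by positivity)
    _ = (∑ k ∈ range t, lmb x (p ^ (k + 1)) / (p : ℝ) ^ (k + 1)) * A x P (t / p) := by
        rw [Finset.sum_mul]
    _ ≤ gq x p * A x P (t / p) :=
        mul_le_mul_of_nonneg_right (part_le' h hp t) (A_nonneg h P _)

end DHzAux

open DHzAux in
theorem gq_pos {x : CI} (h : Quad x) {p : ℕ} (hp : p.Prime) : 0 < gq x p := by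
  unfold gq
  exact div_pos (wq_pos h hp) (one_sub_pos h hp)

open DHzAux in
theorem gq_w {x : CI} (h : Quad x) {p : ℕ} (hp : p.Prime) : gq x p / (1 + gq x p) = wq x p := by
  have h1 := (one_sub_pos h hp).ne'
  rw [one_add_gq h hp]
  unfold gq
  field_simp

namespace DHzAux

lemma B_step {x : CI} (h : Quad x) {P : Finset ℕ} {p : ℕ} (hp : p.Prime) (hpP : p ∉ P)
    (hP : ∀ r ∈ P, r.Prime) (t : ℕ) :
    B x P t + gq x p * B x P (t / p) ≤ B x (insert p P) t := by
  classical
  unfold B
  set S := (Icc 1 t).filter (fun d => Squarefree d ∧ d.primeFactors ⊆ P) with hS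
  set S' := (Icc 1 (t / p)).filter (fun d => Squarefree d ∧ d.primeFactors ⊆ P) with hS'
  have hnd : ∀ d ∈ S', ¬ p ∣ d := by
    intro d hd hpd
    rw [hS', Finset.mem_filter, Finset.mem_Icc] at hd
    apply hpP
    apply hd.2.2
    rw [Nat.mem_primeFactors]
    exact ⟨hp, hpd, by omega⟩
  have hpf : ∀ d ∈ S', (p * d).primeFactors = insert p d.primeFactors := by
    intro d hd
    rw [hS', Finset.mem_filter, Finset.mem_Icc] at hd
    rw [Nat.primeFactors_mul hp.ne_zero (by omega), hp.primeFactors]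
    rfl
  have h1 : gq x p * ∑ d ∈ S', ∏ r ∈ d.primeFactors, gq x r =
      ∑ e ∈ S'.image (fun d => p * d), ∏ r ∈ e.primeFactors, gq x r := by
    rw [Finset.sum_image (fun a _ b _ hab => Nat.eq_of_mul_eq_mul_left hp.pos hab),
      Finset.mul_sum]
    apply Finset.sum_congr rfl
    intro d hd
    rw [hpf d hd, Finset.prod_insert]
    intro hmem
    exact hnd d hd (Nat.dvd_of_mem_primeFactors hmem)
  rw [h1, ← Finset.sum_union]
  · apply Finset.sum_le_sum_of_subset_of_nonneg
    · intro e he
      rw [Finset.mem_filter, Finset.mem_Icc]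
      rcases Finset.mem_union.mp he with he | he
      · rw [hS, Finset.mem_filter, Finset.mem_Icc] at he
        exact ⟨he.1, he.2.1, he.2.2.trans (Finset.subset_insert _ _)⟩
      · rw [Finset.mem_image] at he
        obtain ⟨d, hd, rfl⟩ := he
        have hd' := hd
        rw [hS', Finset.mem_filter, Finset.mem_Icc] at hd'
        refine ⟨⟨?_, ?_⟩, ?_, ?_⟩
        · exact Nat.mul_pos hp.pos (by omega)
        · have := (Nat.le_div_iff_mul_le hp.pos).mp hd'.1.2
          rw [mul_comm]
          exact this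
        · rw [Nat.squarefree_mul_iff]
          exact ⟨(Nat.Prime.coprime_iff_not_dvd hp).mpr (hnd d hd), hp.squarefree, hd'.2.1⟩
        · rw [hpf d hd]
          exact Finset.insert_subset_insert _ hd'.2.2
    · intro e he _
      apply Finset.prod_nonneg
      intro r hr
      exact (gq_pos h (Nat.prime_of_mem_primeFactors hr)).le
  · rw [Finset.disjoint_left]
    intro e he he'
    rw [Finset.mem_image] at he'
    obtain ⟨d, hd, rfl⟩ := he'
    rw [hS, Finset.mem_filter, Finset.mem_Icc] at he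
    apply hpP
    apply he.2.2
    rw [hpf d hd]
    exact Finset.mem_insert_self _ _

lemma A_le_B {x : CI} (h : Quad x) (P : Finset ℕ) (hP : ∀ r ∈ P, r.Prime) :
    ∀ t, A x P t ≤ B x P t := by
  classical
  induction P using Finset.induction_on with
  | empty =>
    intro t
    unfold A B
    apply le_of_eq_of_le (b := ∑ n ∈ (Icc 1 t).filter (fun n => n.primeFactors ⊆ ∅), (1 : ℝ))
    · apply Finset.sum_congr rfl
      intro n hn
      rw [Finset.mem_filter, Finset.mem_Icc, Finset.subset_empty, Nat.primeFactors_eq_empty] at hn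
      have hn1 : n = 1 := by omega
      rw [hn1, lam_one]
      norm_num
    · have hsub : (Icc 1 t).filter (fun n => n.primeFactors ⊆ (∅ : Finset ℕ)) ⊆
          (Icc 1 t).filter (fun d => Squarefree d ∧ d.primeFactors ⊆ (∅ : Finset ℕ)) := by
        intro n hn
        rw [Finset.mem_filter, Finset.mem_Icc] at hn ⊢
        have h2 := hn.2
        rw [Finset.subset_empty, Nat.primeFactors_eq_empty] at h2
        have hn1 : n = 1 := by omega
        refine ⟨hn.1, ?_, hn.2⟩
        rw [hn1]
        exact squarefree_one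
      refine le_trans ?_ (Finset.sum_le_sum_of_subset_of_nonneg hsub ?_)
      · apply Finset.sum_le_sum
        intro n hn
        rw [Finset.mem_filter, Finset.mem_Icc, Finset.subset_empty, Nat.primeFactors_eq_empty] at hn
        have hn1 : n = 1 := by omega
        rw [hn1]
        simp
      · intro e _ _
        apply Finset.prod_nonneg
        intro r hr
        exact (gq_pos h (Nat.prime_of_mem_primeFactors hr)).le
  | insert p P hpP ih =>
    intro t
    have hp : p.Prime := hP p (Finset.mem_insert_self _ _)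
    have hP' : ∀ r ∈ P, r.Prime := fun r hr => hP r (Finset.mem_insert_of_mem hr)
    calc A x (insert p P) t ≤ A x P t + gq x p * A x P (t / p) := A_step' h hp hpP t
      _ ≤ B x P t + gq x p * B x P (t / p) := by
          apply add_le_add (ih hP' t)
          exact mul_le_mul_of_nonneg_left (ih hP' (t / p)) (gq_pos h hp).le
      _ ≤ B x (insert p P) t := B_step h hp hpP hP' t

end DHzAux

open DHzAux in
theorem H_lower {x : CI} (h : Quad x) (E : ℕ) :
    ∑ n ∈ Icc 1 E, lmb x n / n ≤
      ∑ d ∈ (Icc 1 E).filter Squarefree, ∏ p ∈ d.primeFactors, gq x p := by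
  classical
  set P := (range (E + 1)).filter Nat.Prime with hPdef
  have hP : ∀ r ∈ P, r.Prime := fun r hr => (Finset.mem_filter.mp hr).2
  have hsub : ∀ n, n ≤ E → 1 ≤ n → n.primeFactors ⊆ P := by
    intro n hn hn1 r hr
    rw [hPdef, Finset.mem_filter, Finset.mem_range]
    refine ⟨?_, Nat.prime_of_mem_primeFactors hr⟩
    have := Nat.le_of_dvd (by omega) (Nat.dvd_of_mem_primeFactors hr)
    omega
  have h1 := A_le_B h P hP E
  unfold A B at h1
  have h2 : (Icc 1 E).filter (fun n => n.primeFactors ⊆ P) = Icc 1 E := by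
    apply Finset.filter_true_of_mem
    intro n hn
    rw [Finset.mem_Icc] at hn
    exact hsub n hn.2 hn.1
  have h3 : (Icc 1 E).filter (fun d => Squarefree d ∧ d.primeFactors ⊆ P) =
      (Icc 1 E).filter Squarefree := by
    apply Finset.filter_congr
    intro d hd
    rw [Finset.mem_Icc] at hd
    exact ⟨fun h => h.1, fun h => ⟨h, hsub d hd.2 hd.1⟩⟩
  rw [h2, h3] at h1
  exact h1

end Pool.Agent.Lib.GMV
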