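import Pool.Agent.Lib.GMV.DDef

/-!
# GMV.DSel (2 h): the weights of Selberg

PROOF. Standard. For squarefree `d` put `G d = ∏_{p ∣ d} g p > 0`, `w d = ∏_{p ∣ d} g p/(1+g p)`, `H = ∑_{d ≤ E squarefree} G d ≥ 1`,
`θ d = μ(d) (1/w d) (1/H) ∑_{m ≤ E squarefree, d ∣ m} G m` for squarefree `d ≤ E`, `0` otherwise. `θ 1 = 1`.
`|θ d| ≤ 1`: `(1/w d) ∑_{d ∣ m} G m = ∏_{p ∣ d} (1 + g p) ∑_{m' ≤ E/d, (m',d)=1} G m' = ∑_{k ∣ d} ∑_{m'} G (k m')`, and `(k, m') ↦ k m'` is injective with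
squarefree values `≤ E`. The form: for squarefree `d, e`: `w (lcm d e) = w d w e / w (gcd d e)` and
`1/w(n) = ∑_{m ∣ n} 1/G(m)` (`1/w p = 1 + 1/g p`), so the form is `∑_m (1/G m) (∑_{m ∣ d} w d θ d)^2`, and
`∑_{m ∣ d ≤ E} w d θ d = (1/H) ∑_{m ∣ d} μ(d) ∑_{d ∣ m'} G m' = μ(m) G m/H` for squarefree `m ≤ E` (`∑_{d : m ∣ d ∣ m'} μ(d) = μ(m) [m = m']`), `0` otherwise: the form
is `∑_m G m/H^2 = 1/H`.
-/

set_option autoImplicit false

open Finset

namespace Pool.Agent.Lib.GMV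

namespace DSelAux

/-- the product of `g` over the prime factors -/
noncomputable def mx (g : ℕ → ℝ) (n : ℕ) : ℝ := ∏ p ∈ n.primeFactors, g p

theorem mx_one (g : ℕ → ℝ) : mx g 1 = 1 := by
  unfold mx
  rw [Nat.primeFactors_one, prod_empty]

theorem mx_mul (g : ℕ → ℝ) {a b : ℕ} (h : a.Coprime b) : mx g (a * b) = mx g a * mx g b := by
  unfold mx
  rw [h.primeFactors_mul, prod_union h.disjoint_primeFactors]

theorem mx_pos {g : ℕ → ℝ} (hg : ∀ p, p.Prime → 0 < g p) (n : ℕ) : 0 < mx g n :=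
  prod_pos fun p hp => hg p (Nat.prime_of_mem_primeFactors hp)

theorem sum_mx (g : ℕ → ℝ) {n : ℕ} (hn : Squarefree n) :
    ∑ d ∈ n.divisors, mx g d = ∏ p ∈ n.primeFactors, (1 + g p) := by
  have h1 := ArithmeticFunction.IsMultiplicative.prodPrimeFactors_one_add_of_squarefree
    (f := ArithmeticFunction.prodPrimeFactors g)
    (ArithmeticFunction.IsMultiplicative.prodPrimeFactors g) hn
  have h2 : ∏ p ∈ n.primeFactors, (1 + (ArithmeticFunction.prodPrimeFactors g) p) =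
      ∏ p ∈ n.primeFactors, (1 + g p) := by
    refine prod_congr rfl fun p hp => ?_
    have hp' := Nat.prime_of_mem_primeFactors hp
    rw [ArithmeticFunction.prodPrimeFactors_apply hp'.ne_zero, hp'.primeFactors, prod_singleton]
  rw [← h2, h1]
  refine sum_congr rfl fun d hd => ?_
  rw [ArithmeticFunction.prodPrimeFactors_apply (Nat.pos_of_mem_divisors hd).ne']
  rfl

theorem mx_inv (g : ℕ → ℝ) (n : ℕ) : mx (fun p => (g p)⁻¹) n = (mx g n)⁻¹ := by
  unfold mx
  rw [prod_inv_distrib]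

/-- the density -/
noncomputable def wg (g : ℕ → ℝ) (p : ℕ) : ℝ := g p / (1 + g p)

theorem wg_pos {g : ℕ → ℝ} (hg : ∀ p, p.Prime → 0 < g p) (p : ℕ) (hp : p.Prime) :
    0 < wg g p := by
  have := hg p hp
  unfold wg
  positivity

theorem inv_mx_wg {g : ℕ → ℝ} (hg : ∀ p, p.Prime → 0 < g p) {n : ℕ} (hn : Squarefree n) :
    (mx (wg g) n)⁻¹ = ∑ m ∈ n.divisors, (mx g m)⁻¹ := by
  have h1 := sum_mx (fun p => (g p)⁻¹) hn
  simp only [mx_inv] at h1
  rw [h1]
  unfold mx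
  rw [← prod_inv_distrib]
  refine prod_congr rfl fun p hp => ?_
  have := hg p (Nat.prime_of_mem_primeFactors hp)
  unfold wg
  field_simp
  ring

theorem mx_lcm (w : ℕ → ℝ) {d e : ℕ} (hd : d ≠ 0) (he : e ≠ 0) :
    mx w (Nat.lcm d e) * mx w (Nat.gcd d e) = mx w d * mx w e := by
  have h1 : (Nat.lcm d e).primeFactors = d.primeFactors ∪ e.primeFactors := by
    ext p
    rw [mem_union, Nat.mem_primeFactors, Nat.mem_primeFactors, Nat.mem_primeFactors]
    constructor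
    · rintro ⟨hp, h, _⟩
      rcases hp.dvd_lcm.1 h with h | h
      · exact Or.inl ⟨hp, h, hd⟩
      · exact Or.inr ⟨hp, h, he⟩
    · rintro (⟨hp, h, _⟩ | ⟨hp, h, _⟩)
      · exact ⟨hp, h.trans (Nat.dvd_lcm_left d e), Nat.lcm_ne_zero hd he⟩
      · exact ⟨hp, h.trans (Nat.dvd_lcm_right d e), Nat.lcm_ne_zero hd he⟩
  unfold mx
  rw [h1, Nat.primeFactors_gcd hd he, prod_union_inter]

/-- squarefree numbers up to `E` -/
def SQ (E : ℕ) : Finset ℕ := (Icc 1 E).filter Squarefree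

theorem mem_SQ {E n : ℕ} : n ∈ SQ E ↔ (1 ≤ n ∧ n ≤ E) ∧ Squarefree n := by
  unfold SQ
  rw [mem_filter, mem_Icc]

theorem dvd_SQ {E n d : ℕ} (hn : n ∈ SQ E) (hd : d ∣ n) : d ∈ SQ E := by
  obtain ⟨⟨h1, h2⟩, h3⟩ := mem_SQ.1 hn
  exact mem_SQ.2 ⟨⟨Nat.pos_of_dvd_of_pos hd h1, (Nat.le_of_dvd h1 hd).trans h2⟩,
    h3.squarefree_of_dvd hd⟩

/-- the form is diagonal -/
theorem form_diag {E : ℕ} (a c : ℕ → ℝ) :
    ∑ d ∈ SQ E, ∑ e ∈ SQ E, a d * a e * ∑ m ∈ (Nat.gcd d e).divisors, c m =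
      ∑ m ∈ SQ E, c m * (∑ d ∈ (SQ E).filter fun d => m ∣ d, a d) ^ 2 := by
  have h1 : ∀ d ∈ SQ E, ∀ e ∈ SQ E, a d * a e * ∑ m ∈ (Nat.gcd d e).divisors, c m =
      ∑ m ∈ SQ E, c m * ((if m ∣ d then a d else 0) * (if m ∣ e then a e else 0)) := by
    intro d hd e he
    have h2 : (Nat.gcd d e).divisors = (SQ E).filter fun m => m ∣ d ∧ m ∣ e := by
      ext m
      rw [Nat.mem_divisors, mem_filter]
      have hd0 : d ≠ 0 := by
        have := (mem_SQ.1 hd).1.1
        omega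
      constructor
      · rintro ⟨h, _⟩
        exact ⟨dvd_SQ hd (h.trans (Nat.gcd_dvd_left d e)), h.trans (Nat.gcd_dvd_left d e),
          h.trans (Nat.gcd_dvd_right d e)⟩
      · rintro ⟨_, h3, h4⟩
        exact ⟨Nat.dvd_gcd h3 h4, fun h => hd0 (Nat.gcd_eq_zero_iff.1 h).1⟩
    rw [h2, sum_filter, mul_sum]
    refine sum_congr rfl fun m _ => ?_
    by_cases h3 : m ∣ d <;> by_cases h4 : m ∣ e <;> simp [h3, h4]; ring
  rw [sum_congr rfl fun d hd => sum_congr rfl fun e he => h1 d hd e he]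
  rw [sum_congr rfl fun d _ => sum_comm, sum_comm]
  refine sum_congr rfl fun m _ => ?_
  rw [sum_filter, sq, sum_mul_sum, mul_sum]
  refine sum_congr rfl fun d _ => ?_
  rw [mul_sum]

theorem moeb_sum {m n : ℕ} (hn : Squarefree n) (hmn : m ∣ n) :
    ∑ d ∈ n.divisors.filter (fun d => m ∣ d), (ArithmeticFunction.moebius d : ℝ) =
      if m = n then (ArithmeticFunction.moebius m : ℝ) else 0 := by
  obtain ⟨k, rfl⟩ := hmn
  have hn0 : m * k ≠ 0 := hn.ne_zero
  have hm0 : m ≠ 0 := left_ne_zero_of_mul hn0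
  have hk0 : k ≠ 0 := right_ne_zero_of_mul hn0
  have hco : m.Coprime k := Nat.coprime_of_squarefree_mul hn
  have h1 : (m * k).divisors.filter (fun d => m ∣ d) = k.divisors.image fun j => m * j := by
    ext d
    rw [mem_filter, mem_image, Nat.mem_divisors]
    constructor
    · rintro ⟨⟨h, _⟩, j, rfl⟩
      exact ⟨j, Nat.mem_divisors.2 ⟨Nat.dvd_of_mul_dvd_mul_left (Nat.pos_of_ne_zero hm0) h, hk0⟩,
        rfl⟩
    · rintro ⟨j, hj, rfl⟩
      exact ⟨⟨Nat.mul_dvd_mul_left m (Nat.dvd_of_mem_divisors hj), hn0⟩, Dvd.intro j rfl⟩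
  rw [h1, sum_image fun a _ b _ h => Nat.eq_of_mul_eq_mul_left (Nat.pos_of_ne_zero hm0) h]
  have h2 : ∀ j ∈ k.divisors, (ArithmeticFunction.moebius (m * j) : ℝ) =
      (ArithmeticFunction.moebius m : ℝ) * (ArithmeticFunction.moebius j : ℝ) := by
    intro j hj
    have hc : m.Coprime j := hco.coprime_dvd_right (Nat.dvd_of_mem_divisors hj)
    rw [ArithmeticFunction.isMultiplicative_moebius.map_mul_of_coprime hc]
    push_cast
    rfl
  rw [sum_congr rfl h2, ← mul_sum]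
  have h3 : ∑ j ∈ k.divisors, (ArithmeticFunction.moebius j : ℝ) = if k = 1 then 1 else 0 := by
    have h4 : ∑ j ∈ k.divisors, ArithmeticFunction.moebius j =
        (1 : ArithmeticFunction ℤ) k := by
      rw [← ArithmeticFunction.moebius_mul_coe_zeta, ArithmeticFunction.coe_mul_zeta_apply]
    rw [ArithmeticFunction.one_apply] at h4
    have h5 : ((∑ j ∈ k.divisors, ArithmeticFunction.moebius j : ℤ) : ℝ) =
        ((if k = 1 then 1 else 0 : ℤ) : ℝ) := by rw [h4]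
    push_cast at h5
    exact h5
  rw [h3]
  by_cases hk : k = 1
  · subst hk
    simp
  · rw [if_neg hk, mul_zero, if_neg]
    intro h
    refine hk (Nat.eq_of_mul_eq_mul_left (Nat.pos_of_ne_zero hm0) ?_)
    rw [mul_one]
    exact h.symm

theorem sum_le_H {g : ℕ → ℝ} (hg : ∀ p, p.Prime → 0 < g p) {E d : ℕ} (_hd : d ∈ SQ E) :
    (mx (wg g) d)⁻¹ * ∑ m ∈ (SQ E).filter (fun m => d ∣ m), mx g m ≤ ∑ n ∈ SQ E, mx g n := by
  have h1 : ∀ m ∈ (SQ E).filter (fun m => d ∣ m), (mx (wg g) d)⁻¹ * mx g m =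
      ∑ n ∈ (SQ E).filter (fun n => Nat.lcm n d = m), mx g n := by
    intro m hm
    obtain ⟨hmS, j, rfl⟩ := mem_filter.1 hm
    have hsq := (mem_SQ.1 hmS).2
    have hco : d.Coprime j := Nat.coprime_of_squarefree_mul hsq
    have hj0 : 0 < j := Nat.pos_of_ne_zero (right_ne_zero_of_mul hsq.ne_zero)
    have hd0 : 0 < d := Nat.pos_of_ne_zero (left_ne_zero_of_mul hsq.ne_zero)
    have h2 : (SQ E).filter (fun n => Nat.lcm n d = d * j) = d.divisors.image fun k => k * j := by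
      ext n
      rw [mem_filter, mem_image]
      constructor
      · rintro ⟨hn, h⟩
        have hjn : j ∣ n := by
          have h3 : j ∣ Nat.lcm n d := h ▸ Dvd.intro_left d rfl
          have h4 : Nat.lcm n d ∣ n * d := Nat.lcm_dvd_mul n d
          exact hco.symm.dvd_of_dvd_mul_right (h3.trans h4)
        obtain ⟨k, rfl⟩ := hjn
        refine ⟨k, Nat.mem_divisors.2 ⟨?_, hd0.ne'⟩, mul_comm k j⟩
        have h5 : j * k ∣ d * j := h ▸ Nat.dvd_lcm_left (j * k) d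
        rw [mul_comm d j] at h5
        exact Nat.dvd_of_mul_dvd_mul_left hj0 h5
      · rintro ⟨k, hk, rfl⟩
        have hkd := Nat.dvd_of_mem_divisors hk
        refine ⟨dvd_SQ hmS (Nat.mul_dvd_mul_right hkd j), ?_⟩
        refine Nat.dvd_antisymm (Nat.lcm_dvd (Nat.mul_dvd_mul_right hkd j) (Dvd.intro j rfl)) ?_
        exact hco.mul_dvd_of_dvd_of_dvd (Nat.dvd_lcm_right _ _)
          ((Dvd.intro_left k rfl).trans (Nat.dvd_lcm_left _ _))
    rw [h2, sum_image fun a _ b _ h => Nat.eq_of_mul_eq_mul_right hj0 h]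
    have h3 : ∀ k ∈ d.divisors, mx g (k * j) = mx g k * mx g j := fun k hk =>
      mx_mul g (hco.coprime_dvd_left (Nat.dvd_of_mem_divisors hk))
    rw [sum_congr rfl h3, ← sum_mul, sum_mx g (hsq.squarefree_of_dvd (Dvd.intro j rfl)),
      mx_mul g hco, ← mul_assoc]
    congr 1
    unfold mx
    rw [← prod_inv_distrib, ← prod_mul_distrib]
    refine prod_congr rfl fun p hp => ?_
    have := hg p (Nat.prime_of_mem_primeFactors hp)
    unfold wg
    field_simp
  rw [mul_sum, sum_congr rfl h1]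
  have h4 := sum_fiberwise_of_maps_to (s := (SQ E).filter fun n => Nat.lcm n d ∈ (SQ E).filter fun m => d ∣ m)
    (t := (SQ E).filter fun m => d ∣ m) (g := fun n => Nat.lcm n d)
    (fun n hn => (mem_filter.1 hn).2) (mx g)
  have h5 : ∀ m ∈ (SQ E).filter (fun m => d ∣ m), ∑ n ∈ (SQ E).filter (fun n => Nat.lcm n d = m), mx g n =
      ∑ n ∈ ((SQ E).filter fun n => Nat.lcm n d ∈ (SQ E).filter fun m => d ∣ m).filter
        (fun n => Nat.lcm n d = m), mx g n := by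
    intro m hm
    refine sum_congr ?_ fun _ _ => rfl
    ext n
    rw [mem_filter, mem_filter, mem_filter]
    constructor
    · rintro ⟨h, h'⟩
      exact ⟨⟨h, h' ▸ hm⟩, h'⟩
    · rintro ⟨⟨h, _⟩, h'⟩
      exact ⟨h, h'⟩
  rw [sum_congr rfl h5, h4]
  exact sum_le_sum_of_subset_of_nonneg (filter_subset _ _) fun n _ _ => (mx_pos hg n).le

end DSelAux

open DSelAux

theorem selberg (g : ℕ → ℝ) (hg : ∀ p, p.Prime → 0 < g p) (E : ℕ) (hE : 1 ≤ E) :
    ∃ θ : ℕ → ℝ, Adm θ E ∧ QV (fun p => g p / (1 + g p)) θ E *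
      ∑ d ∈ (Icc 1 E).filter Squarefree, ∏ p ∈ d.primeFactors, g p = 1 := by
  obtain ⟨H, hH⟩ : ∃ H, H = ∑ d ∈ SQ E, mx g d := ⟨_, rfl⟩
  have h1E : 1 ∈ SQ E := mem_SQ.2 ⟨⟨le_rfl, hE⟩, squarefree_one⟩
  have hHpos : 0 < H := by
    rw [hH]
    exact sum_pos (fun d _ => mx_pos hg d) ⟨1, h1E⟩
  have hW : ∀ n, 0 < mx (wg g) n := mx_pos (wg_pos hg)
  let θ : ℕ → ℝ := fun d => if d ∈ SQ E then
    (ArithmeticFunction.moebius d : ℝ) * ((mx (wg g) d)⁻¹ *
      (H⁻¹ * ∑ m ∈ (SQ E).filter (fun m => d ∣ m), mx g m)) else 0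
  have hθ0 : ∀ d, d ∉ SQ E → θ d = 0 := fun d hd => if_neg hd
  have hθ1 : ∀ d, d ∈ SQ E → θ d = (ArithmeticFunction.moebius d : ℝ) * ((mx (wg g) d)⁻¹ *
      (H⁻¹ * ∑ m ∈ (SQ E).filter (fun m => d ∣ m), mx g m)) := fun d hd => if_pos hd
  refine ⟨θ, ⟨?_, ?_, ?_⟩, ?_⟩
  · rw [hθ1 1 h1E, ArithmeticFunction.moebius_apply_one, mx_one, filter_true_of_mem (fun m _ => one_dvd m), ← hH]
    rw [inv_one, one_mul, inv_mul_cancel₀ hHpos.ne']
    norm_num
  · intro d
    by_cases hd : d ∈ SQ E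
    · rw [hθ1 d hd, abs_mul]
      have hS := sum_le_H hg hd
      rw [← hH] at hS
      have h2 : |(ArithmeticFunction.moebius d : ℝ)| ≤ 1 := by
        have := ArithmeticFunction.abs_moebius_le_one (n := d)
        exact_mod_cast this
      have h3 : 0 ≤ (mx (wg g) d)⁻¹ * ∑ m ∈ (SQ E).filter (fun m => d ∣ m), mx g m :=
        mul_nonneg (inv_nonneg.2 (hW d).le) (sum_nonneg fun m _ => (mx_pos hg m).le)
      have h4 : (mx (wg g) d)⁻¹ * (H⁻¹ * ∑ m ∈ (SQ E).filter (fun m => d ∣ m), mx g m) =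
          ((mx (wg g) d)⁻¹ * ∑ m ∈ (SQ E).filter (fun m => d ∣ m), mx g m) / H := by
        rw [div_eq_mul_inv]
        ring
      rw [h4, abs_of_nonneg (div_nonneg h3 hHpos.le)]
      have h5 : ((mx (wg g) d)⁻¹ * ∑ m ∈ (SQ E).filter (fun m => d ∣ m), mx g m) / H ≤ 1 :=
        (div_le_one hHpos).2 hS
      calc |(ArithmeticFunction.moebius d : ℝ)| * _ ≤ 1 * 1 :=
            mul_le_mul h2 h5 (div_nonneg h3 hHpos.le) zero_le_one
        _ = 1 := one_mul 1
    · rw [hθ0 d hd, abs_zero]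
      exact zero_le_one
  · intro d hd
    by_contra hcon
    refine hd (hθ0 d fun hm => hcon ?_)
    obtain ⟨⟨a, b⟩, c⟩ := mem_SQ.1 hm
    exact ⟨a, b, c⟩
  · have hV : QV (fun p => g p / (1 + g p)) θ E =
        ∑ d ∈ SQ E, ∑ e ∈ SQ E, (θ d * mx (wg g) d) * (θ e * mx (wg g) e) *
          ∑ m ∈ (Nat.gcd d e).divisors, (mx g m)⁻¹ := by
      unfold QV
      have hsub : SQ E ⊆ Icc 1 E := filter_subset _ _
      rw [← sum_subset hsub (f := fun d => ∑ e ∈ Icc 1 E, θ d * θ e *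
        ∏ p ∈ (Nat.lcm d e).primeFactors, g p / (1 + g p))
        (fun d _ hd => sum_eq_zero fun e _ => by rw [hθ0 d hd, zero_mul, zero_mul])]
      refine sum_congr rfl fun d hd => ?_
      rw [← sum_subset hsub (f := fun e => θ d * θ e *
        ∏ p ∈ (Nat.lcm d e).primeFactors, g p / (1 + g p))
        (fun e _ he => by rw [hθ0 e he, mul_zero, zero_mul])]
      refine sum_congr rfl fun e he => ?_
      obtain ⟨⟨hd1, _⟩, hd3⟩ := mem_SQ.1 hd
      obtain ⟨⟨he1, _⟩, _⟩ := mem_SQ.1 he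
      have h6 := mx_lcm (wg g) (show d ≠ 0 by omega) (show e ≠ 0 by omega)
      rw [← inv_mx_wg hg (hd3.squarefree_of_dvd (Nat.gcd_dvd_left d e))]
      have h7 := (hW (Nat.gcd d e)).ne'
      change θ d * θ e * mx (wg g) (Nat.lcm d e) = _
      field_simp
      rw [mul_assoc (θ d * θ e), h6]
      ring
    rw [hV, form_diag (fun d => θ d * mx (wg g) d) (fun m => (mx g m)⁻¹)]
    have hy : ∀ m ∈ SQ E, ∑ d ∈ (SQ E).filter (fun d => m ∣ d), θ d * mx (wg g) d =
        (ArithmeticFunction.moebius m : ℝ) * mx g m / H := by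
      intro m hm
      have h8 : ∀ d ∈ (SQ E).filter (fun d => m ∣ d), θ d * mx (wg g) d =
          H⁻¹ * ∑ m' ∈ SQ E, if d ∣ m' then (ArithmeticFunction.moebius d : ℝ) * mx g m' else 0 := by
        intro d hd
        rw [hθ1 d (mem_filter.1 hd).1, sum_filter]
        have h9 := (hW d).ne'
        have h10 : ∑ m' ∈ SQ E, (if d ∣ m' then (ArithmeticFunction.moebius d : ℝ) * mx g m' else 0) =
            (ArithmeticFunction.moebius d : ℝ) * ∑ m' ∈ SQ E, if d ∣ m' then mx g m' else 0 := by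
          rw [mul_sum]
          exact sum_congr rfl fun m' _ => by rw [mul_ite, mul_zero]
        rw [h10]
        field_simp
      rw [sum_congr rfl h8, ← mul_sum, sum_comm]
      have h11 : ∀ m' ∈ SQ E, ∑ d ∈ (SQ E).filter (fun d => m ∣ d),
          (if d ∣ m' then (ArithmeticFunction.moebius d : ℝ) * mx g m' else 0) =
          if m = m' then (ArithmeticFunction.moebius m : ℝ) * mx g m' else 0 := by
        intro m' hm'
        have h12 : ∑ d ∈ (SQ E).filter (fun d => m ∣ d),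
            (if d ∣ m' then (ArithmeticFunction.moebius d : ℝ) * mx g m' else 0) =
            (∑ d ∈ m'.divisors.filter (fun d => m ∣ d), (ArithmeticFunction.moebius d : ℝ)) *
              mx g m' := by
          rw [← sum_filter, filter_filter, sum_mul]
          refine sum_congr ?_ fun _ _ => rfl
          ext d
          rw [mem_filter, mem_filter, Nat.mem_divisors]
          constructor
          · rintro ⟨_, h, h'⟩
            exact ⟨⟨h', (mem_SQ.1 hm').2.ne_zero⟩, h⟩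
          · rintro ⟨⟨h, _⟩, h'⟩
            exact ⟨dvd_SQ hm' h, h', h⟩
        rw [h12]
        by_cases hmm : m ∣ m'
        · rw [moeb_sum (mem_SQ.1 hm').2 hmm, ite_mul, zero_mul]
        · rw [if_neg (show ¬ m = m' from by rintro rfl; exact hmm dvd_rfl)]
          rw [filter_false_of_mem, sum_empty, zero_mul]
          intro d hd h
          exact hmm (h.trans (Nat.dvd_of_mem_divisors hd))
      rw [sum_congr rfl h11, sum_ite_eq, if_pos hm]
      rw [div_eq_inv_mul]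
    have h13 : ∀ m ∈ SQ E, (mx g m)⁻¹ *
        (∑ d ∈ (SQ E).filter (fun d => m ∣ d), θ d * mx (wg g) d) ^ 2 = mx g m * (H⁻¹) ^ 2 := by
      intro m hm
      rw [hy m hm]
      have h14 : ((ArithmeticFunction.moebius m : ℤ) : ℝ) ^ 2 = 1 := by
        have := ArithmeticFunction.moebius_sq_eq_one_of_squarefree (mem_SQ.1 hm).2
        exact_mod_cast this
      have h15 := (mx_pos hg m).ne'
      have h16 := hHpos.ne'
      rw [div_pow, mul_pow, h14]
      field_simp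
    rw [sum_congr rfl h13, ← sum_mul, ← hH]
    change H * H⁻¹ ^ 2 * ∑ d ∈ SQ E, mx g d = 1
    rw [← hH]
    have h16 := hHpos.ne'
    field_simp

end Pool.Agent.Lib.GMV
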