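import Pool.Agent.Lib.GMV.Defs
import Pool.Agent.Lib.VK.Approx
import Pool.Agent.Lib.VK.ZeroFree

/-!
# GMV.ZBnd (1.5 h): bounds for `Lf χ`, all characters (also imprimitive)

PROOF. `DirichletCharacter.LFunction χ` is by definition `ZMod.LFunction (χ ·)`.
* `one_le_mul`: `Lf χ` is entire and not identically zero (`Lf_ne_zero`), so the order is finite
  (`AnalyticOnNhd.eqOn_zero_of_preconnected_of_eventuallyEq_zero` on `univ`), and it is not `0` at a zero.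
* `Lf_upper`: `VK.approx` with `N = 1`, `Φ = χ`: `|L(s) - χ(1) - c/(s-1)| ≤ C0 q |s|`, `c = (∑ a, χ a)/q`, `|c| ≤ 1`, `c = 0` if `χ ≠ 1`
  (`DirichletCharacter` orthogonality: `MulChar.sum_eq_zero_of_ne_one`). For `χ ≠ 1`: `≤ 1 + C0 q |s|`. For `χ = 1`, `s ≠ 1`:
  `|(s-1) L(s)| ≤ |s-1| (1 + C0 q |s|) + 1`; at `s = 1` by continuity (`Lf_differentiable`). And `|s| ≤ 3 + |Im s|`.
* `Lf_lower`: `VK.ZF.lower : x/2 ≤ |L(s)|`, for `χ = 1` times `|s-1| ≥ x`.
* `Lf_logDeriv`: `Re s = 1 + x > 1`, `-L'/L(s) = ∑ χ(n) Λ(n) n^(-s)` (`DirichletCharacter.LSeries_twist_vonMangoldt_eq`), norm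
  `≤ ∑ Λ(n) n^(-1-x) ≤ 1/x + C` (`VK.ZF.mangoldt_le`); for `χ = 1`: `Lf'/Lf = 1/(s-1) + L'/L`.
-/

set_option autoImplicit false

open Complex Finset

namespace Pool.Agent.Lib.GMV

namespace ZBndAux

/-- the twisted von Mangoldt series is bounded by the untwisted one -/
theorem twist_le {q : ℕ} (χ : DirichletCharacter ℂ q) {s : ℂ} {x : ℝ} (hx : 0 < x)
    (hs : s.re = 1 + x) :
    ‖LSeries ((fun n : ℕ => χ (n : ZMod q)) *
      (fun n : ℕ => ((ArithmeticFunction.vonMangoldt n : ℝ) : ℂ))) s‖ ≤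
    (LSeries (fun n : ℕ => ((ArithmeticFunction.vonMangoldt n : ℝ) : ℂ)) ((1 + x : ℝ) : ℂ)).re := by
  have h0 : 1 < (((1 + x : ℝ) : ℂ)).re := by
    rw [Complex.ofReal_re]
    linarith
  have h1 : 1 < s.re := by
    rw [hs]; linarith
  have S0 : LSeriesSummable (fun n : ℕ => ((ArithmeticFunction.vonMangoldt n : ℝ) : ℂ))
      ((1 + x : ℝ) : ℂ) := ArithmeticFunction.LSeriesSummable_vonMangoldt h0
  have S1 : LSeriesSummable ((fun n : ℕ => χ (n : ZMod q)) *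
      (fun n : ℕ => ((ArithmeticFunction.vonMangoldt n : ℝ) : ℂ))) s :=
    DirichletCharacter.LSeriesSummable_twist_vonMangoldt χ h1
  unfold LSeries
  rw [Complex.re_tsum S0]
  refine (norm_tsum_le_tsum_norm S1.norm).trans ?_
  refine S1.norm.tsum_le_tsum (fun n => ?_) (Complex.hasSum_re S0.hasSum).summable
  rcases Nat.eq_zero_or_pos n with hn | hn
  · subst hn
    simp
  have hn0 : n ≠ 0 := hn.ne'
  rw [LSeries.term_of_ne_zero hn0, LSeries.term_of_ne_zero hn0]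
  have hn1 : (n : ℂ) ^ (((1 + x : ℝ) : ℂ)) = (((n : ℝ) ^ (1 + x) : ℝ) : ℂ) := by
    rw [Complex.ofReal_cpow (Nat.cast_nonneg _)]
    simp
  have hn2 : ‖(n : ℂ) ^ s‖ = (n : ℝ) ^ (1 + x) := by
    rw [Complex.norm_natCast_cpow_of_pos hn, hs]
  have hL : 0 ≤ ArithmeticFunction.vonMangoldt n := ArithmeticFunction.vonMangoldt_nonneg
  have hr : (((ArithmeticFunction.vonMangoldt n : ℝ) : ℂ) / (n : ℂ) ^ (((1 + x : ℝ) : ℂ))).re =
      ArithmeticFunction.vonMangoldt n / (n : ℝ) ^ (1 + x) := by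
    rw [hn1, ← Complex.ofReal_div, Complex.ofReal_re]
  rw [hr, norm_div, hn2, Pi.mul_apply, norm_mul, Complex.norm_real, Real.norm_of_nonneg hL]
  have h3 : ‖χ (n : ZMod q)‖ ≤ 1 := χ.norm_le_one _
  have hpow : 0 < (n : ℝ) ^ (1 + x) := Real.rpow_pos_of_pos (by exact_mod_cast hn) _
  apply div_le_div_of_nonneg_right _ hpow.le
  calc ‖χ (n : ZMod q)‖ * ArithmeticFunction.vonMangoldt n
      ≤ 1 * ArithmeticFunction.vonMangoldt n := mul_le_mul_of_nonneg_right h3 hL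
    _ = ArithmeticFunction.vonMangoldt n := one_mul _

theorem logDeriv_le {q : ℕ} [NeZero q] (χ : DirichletCharacter ℂ q) {s : ℂ} {x C : ℝ}
    (hx : 0 < x) (hs : s.re = 1 + x)
    (hC : (LSeries (fun n : ℕ => ((ArithmeticFunction.vonMangoldt n : ℝ) : ℂ))
      ((1 + x : ℝ) : ℂ)).re ≤ 1 / x + C) :
    ‖deriv χ.LFunction s / χ.LFunction s‖ ≤ 1 / x + C := by
  have h1 : 1 < s.re := by
    rw [hs]; linarith
  have e1 : -deriv χ.LFunction s / χ.LFunction s =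
      LSeries ((fun n : ℕ => χ (n : ZMod q)) *
        (fun n : ℕ => ((ArithmeticFunction.vonMangoldt n : ℝ) : ℂ))) s := by
    rw [DirichletCharacter.LFunction_eq_LSeries χ h1,
      DirichletCharacter.deriv_LFunction_eq_deriv_LSeries χ h1]
    exact (DirichletCharacter.LSeries_twist_vonMangoldt_eq χ h1).symm
  have e2 : ‖deriv χ.LFunction s / χ.LFunction s‖ = ‖-deriv χ.LFunction s / χ.LFunction s‖ := by
    rw [neg_div, norm_neg]
  rw [e2, e1]
  exact (twist_le χ hx hs).trans hC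

/-- the bound off the point one -/
theorem upper_ne {C0 : ℝ} (hC0 : 1 ≤ C0)
    (h : ∀ (q : ℕ) [NeZero q] (Φ : ZMod q → ℂ) (N : ℕ) (s : ℂ), (∀ a, ‖Φ a‖ ≤ 1) →
      1 ≤ N → 1 / 2 ≤ s.re → s ≠ 1 →
      ‖ZMod.LFunction Φ s - ∑ n ∈ Icc 1 N, Φ (n : ZMod q) * (n : ℂ) ^ (-s) -
          (∑ a, Φ a) / q * ((N : ℂ) ^ (1 - s) / (s - 1))‖ ≤
        C0 * q * ‖s‖ * (N : ℝ) ^ (-s.re))
    (q : ℕ) [NeZero q] (χ : DirichletCharacter ℂ q) (s : ℂ) (h1 : 1 / 2 ≤ s.re) (h2 : s.re ≤ 3)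
    (hs1 : s ≠ 1) : ‖Lf χ s‖ ≤ C0 * q * (|s.im| + 4) ^ 2 := by
  have hq : (1 : ℝ) ≤ q := by exact_mod_cast NeZero.pos q
  set c : ℂ := (∑ a, χ a) / q with hc
  have ha := h q (fun a => χ a) 1 s (fun a => χ.norm_le_one a) le_rfl h1 hs1
  have e0 : ∑ n ∈ Icc 1 1, χ ((n : ℕ) : ZMod q) * ((n : ℕ) : ℂ) ^ (-s) = 1 := by
    rw [Finset.Icc_self, Finset.sum_singleton]
    simp
  have ha' : ‖χ.LFunction s - 1 - c * (1 / (s - 1))‖ ≤ C0 * q * ‖s‖ := by
    have e1 : ZMod.LFunction (fun a => χ a) s = χ.LFunction s := rfl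
    rw [e1] at ha
    simpa [e0, hc] using ha
  have hsn : ‖s‖ ≤ 3 + |s.im| := by
    refine (Complex.norm_le_abs_re_add_abs_im s).trans ?_
    have : |s.re| ≤ 3 := abs_le.2 ⟨by linarith, h2⟩
    linarith
  have hs1n : ‖s - 1‖ ≤ 2 + |s.im| := by
    refine (Complex.norm_le_abs_re_add_abs_im (s - 1)).trans ?_
    have e1 : (s - 1).re = s.re - 1 := by simp
    have e2 : (s - 1).im = s.im := by simp
    rw [e1, e2]
    have : |s.re - 1| ≤ 2 := abs_le.2 ⟨by linarith, by linarith⟩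
    linarith
  set t : ℝ := |s.im| with ht
  have ht0 : 0 ≤ t := abs_nonneg _
  have hCq : 1 ≤ C0 * q := by nlinarith
  have herr : C0 * q * ‖s‖ ≤ C0 * q * (3 + t) :=
    mul_le_mul_of_nonneg_left hsn (by linarith)
  by_cases hχ : χ = 1
  · have hcn : ‖c‖ ≤ 1 := Pool.Agent.VK.ApproxAux.norm_avg_le (fun a => χ a)
      (fun a => χ.norm_le_one a)
    have hL : Lf χ s = (s - 1) * χ.LFunction s := by
      rw [hχ]
      exact Lf_one_apply q hs1
    have hne : s - 1 ≠ 0 := sub_ne_zero.2 hs1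
    have e3 : (s - 1) * χ.LFunction s =
        (s - 1) * (χ.LFunction s - 1 - c * (1 / (s - 1))) + (s - 1) + c := by
      field_simp
      ring
    rw [hL, e3]
    have n1 : ‖(s - 1) * (χ.LFunction s - 1 - c * (1 / (s - 1)))‖ ≤
        (2 + t) * (C0 * q * (3 + t)) := by
      rw [norm_mul]
      exact mul_le_mul hs1n (ha'.trans herr) (norm_nonneg _) (by linarith)
    calc ‖(s - 1) * (χ.LFunction s - 1 - c * (1 / (s - 1))) + (s - 1) + c‖
        ≤ ‖(s - 1) * (χ.LFunction s - 1 - c * (1 / (s - 1)))‖ + ‖s - 1‖ + ‖c‖ :=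
          (norm_add_le _ _).trans (by gcongr; exact norm_add_le _ _)
      _ ≤ (2 + t) * (C0 * q * (3 + t)) + (2 + t) + 1 := by linarith
      _ ≤ C0 * q * (t + 4) ^ 2 := by nlinarith [mul_nonneg ht0 ht0]
  · have hc0 : c = 0 := by
      rw [hc, MulChar.sum_eq_zero_of_ne_one hχ, zero_div]
    rw [hc0, zero_mul, sub_zero] at ha'
    rw [Lf_of_ne hχ]
    have e3 : χ.LFunction s = (χ.LFunction s - 1) + 1 := by ring
    rw [e3]
    calc ‖(χ.LFunction s - 1) + 1‖ ≤ ‖χ.LFunction s - 1‖ + ‖(1 : ℂ)‖ := norm_add_le _ _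
      _ ≤ C0 * q * (3 + t) + 1 := by rw [norm_one]; linarith
      _ ≤ C0 * q * (t + 4) ^ 2 := by nlinarith [mul_nonneg ht0 ht0]

end ZBndAux

/-- a zero has multiplicity at least one -/
theorem one_le_mul {q : ℕ} [NeZero q] (χ : DirichletCharacter ℂ q) {ρ : ℂ} (h : Lf χ ρ = 0) :
    1 ≤ mul χ ρ := by
  have hA := Lf_analytic χ
  have h0 : analyticOrderAt (Lf χ) ρ ≠ 0 := by
    intro h1
    exact ((hA ρ (Set.mem_univ _)).analyticOrderAt_eq_zero.1 h1) h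
  have htop : analyticOrderAt (Lf χ) ρ ≠ ⊤ := by
    intro h1
    rw [analyticOrderAt_eq_top] at h1
    have h2 := hA.eqOn_zero_of_preconnected_of_eventuallyEq_zero isPreconnected_univ
      (Set.mem_univ ρ) h1
    exact Lf_ne_zero χ (s := 2) (by norm_num) (h2 (Set.mem_univ 2))
  rw [Nat.one_le_iff_ne_zero]
  intro h1
  unfold mul analyticOrderNatAt at h1
  rcases ENat.toNat_eq_zero.1 h1 with h2 | h2
  · exact h0 h2
  · exact htop h2

theorem Lf_upper : ∃ C : ℝ, 1 ≤ C ∧ ∀ (q : ℕ) [NeZero q] (χ : DirichletCharacter ℂ q) (s : ℂ),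
    1 / 2 ≤ s.re → s.re ≤ 3 → ‖Lf χ s‖ ≤ C * q * (|s.im| + 4) ^ 2 := by
  obtain ⟨C0, hC0, h⟩ := Pool.Agent.VK.approx
  refine ⟨C0, hC0, ?_⟩
  intro q _ χ s h1 h2
  by_cases hs1 : s = 1
  · subst hs1
    have hcont : Filter.Tendsto (fun z => ‖Lf χ z‖) (nhdsWithin 1 {1}ᶜ) (nhds ‖Lf χ 1‖) :=
      ((Lf_differentiable χ).continuous.norm.tendsto 1).mono_left nhdsWithin_le_nhds
    have hg : Continuous fun z : ℂ => C0 * q * (|z.im| + 4) ^ 2 := by
      have : Continuous fun z : ℂ => |z.im| := Complex.continuous_im.abs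
      fun_prop
    have hcont2 : Filter.Tendsto (fun z : ℂ => C0 * q * (|z.im| + 4) ^ 2)
        (nhdsWithin 1 {1}ᶜ) (nhds (C0 * q * (|(1 : ℂ).im| + 4) ^ 2)) :=
      (hg.tendsto 1).mono_left nhdsWithin_le_nhds
    refine le_of_tendsto_of_tendsto hcont hcont2 ?_
    have hball : Metric.ball (1 : ℂ) (1 / 2) ∈ nhds (1 : ℂ) := Metric.ball_mem_nhds _ (by norm_num)
    filter_upwards [self_mem_nhdsWithin, mem_nhdsWithin_of_mem_nhds hball] with z hz hz2
    have h3 : |(z - 1).re| < 1 / 2 :=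
      (Complex.abs_re_le_norm (z - 1)).trans_lt (by rwa [Metric.mem_ball, dist_eq_norm] at hz2)
    rw [Complex.sub_re, Complex.one_re] at h3
    have h4 := abs_lt.1 h3
    exact ZBndAux.upper_ne hC0 (fun q _ => h q) q χ z (by linarith) (by linarith) hz
  · exact ZBndAux.upper_ne hC0 (fun q _ => h q) q χ s h1 h2 hs1

theorem Lf_lower {q : ℕ} [NeZero q] (χ : DirichletCharacter ℂ q) {s : ℂ} {x : ℝ} (hx : 0 < x)
    (hx1 : x ≤ 1) (hs : s.re = 1 + x) : x ^ 2 / 2 ≤ ‖Lf χ s‖ := by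
  have h1 := Pool.Agent.VK.ZF.lower χ hx hx1 hs
  by_cases hχ : χ = 1
  · have hs1 : s ≠ 1 := by
      rintro rfl
      rw [Complex.one_re] at hs
      linarith
    have hL : Lf χ s = (s - 1) * χ.LFunction s := by
      rw [hχ]
      exact Lf_one_apply q hs1
    rw [hL, norm_mul]
    have h2 : x ≤ ‖s - 1‖ := by
      refine le_trans ?_ (Complex.re_le_norm (s - 1))
      rw [Complex.sub_re, Complex.one_re, hs]
      linarith
    calc x ^ 2 / 2 = x * (x / 2) := by ring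
      _ ≤ ‖s - 1‖ * ‖χ.LFunction s‖ := mul_le_mul h2 h1 (by positivity) (norm_nonneg _)
  · rw [Lf_of_ne hχ]
    nlinarith

theorem Lf_logDeriv : ∃ C : ℝ, 0 ≤ C ∧ ∀ (q : ℕ) [NeZero q] (χ : DirichletCharacter ℂ q) (s : ℂ)
    (x : ℝ), 0 < x → x ≤ 1 → s.re = 1 + x → ‖deriv (Lf χ) s / Lf χ s‖ ≤ 2 / x + C := by
  obtain ⟨C, hC0, hC⟩ := Pool.Agent.VK.ZF.mangoldt_le
  refine ⟨C, hC0, ?_⟩
  intro q _ χ s x hx hx1 hs
  have h1 := ZBndAux.logDeriv_le χ hx hs (hC x hx hx1)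
  have hx2 : 2 / x = 1 / x + 1 / x := by ring
  have hx3 : 0 < 1 / x := by positivity
  by_cases hχ : χ = 1
  · have hs1 : s ≠ 1 := by
      rintro rfl
      rw [Complex.one_re] at hs
      linarith
    have hne : s - 1 ≠ 0 := sub_ne_zero.2 hs1
    have hL0 : χ.LFunction s ≠ 0 := by
      apply DirichletCharacter.LFunction_ne_zero_of_one_le_re _ (.inr hs1)
      rw [hs]; linarith
    have hL : Lf χ s = (s - 1) * χ.LFunction s := by
      rw [hχ]
      exact Lf_one_apply q hs1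
    have hd : deriv (Lf χ) s = (s - 1) * deriv χ.LFunction s + χ.LFunction s := by
      subst hχ
      rw [Lf_one]
      exact DirichletCharacter.deriv_LFunctionTrivChar₁_apply_of_ne_one q hs1
    have e : deriv (Lf χ) s / Lf χ s = deriv χ.LFunction s / χ.LFunction s + 1 / (s - 1) := by
      rw [hd, hL]
      field_simp
    rw [e]
    have h2 : x ≤ ‖s - 1‖ := by
      refine le_trans ?_ (Complex.re_le_norm (s - 1))
      rw [Complex.sub_re, Complex.one_re, hs]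
      linarith
    have h3 : ‖1 / (s - 1)‖ ≤ 1 / x := by
      rw [norm_div, norm_one]
      exact one_div_le_one_div_of_le hx h2
    refine (norm_add_le _ _).trans ?_
    linarith
  · rw [Lf_of_ne hχ]
    linarith

end Pool.Agent.Lib.GMV
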