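import Pool.Agent.Lib.GMV.DDef
import Pool.Agent.Lib.GMV.ZBnd
import Pool.Agent.Lib.SW.Siegel

/-!
# GMV.DSie (0.8 h): the exceptional zero is not too near to `1`

PROOF. `SW.siegel (1/2)`: `c q^(-1/2) ≤ |L(1,χ)|`. `|L(s,χ)| ≤ C q (|Im s| + 4)^2` for `1/2 ≤ Re s ≤ 3`
(`Lf_upper` of GMV.ZBnd), so `|L'(s,χ)| ≤ 76 C q` for `s ∈ [9/10, 1]` (Cauchy, radius `1/4`:
`Complex.norm_deriv_le_of_forall_mem_sphere_norm_le`), and
`|L(1,χ)| = |L(1,χ) - L(β,χ)| ≤ (1-β) sup |L'|` (`Convex.norm_image_sub_le_of_norm_deriv_le`). `q = md x ≤ Q`, `Lf x.2 = LFunction x.2` (`Lf_of_ne`).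
-/

set_option autoImplicit false

open Finset

namespace Pool.Agent.Lib.GMV

theorem one_sub_beta : ∃ c : ℝ, 0 < c ∧ ∀ (Q : ℕ) (x : CI) (β : ℝ), x ∈ Ch Q → Quad x →
    DirichletCharacter.LFunction x.2 (β : ℂ) = 0 → 9 / 10 ≤ β → β < 1 →
    c * ((Q : ℝ) ^ 2)⁻¹ ≤ 1 - β := by
  obtain ⟨c, hc, hs⟩ := Pool.Agent.Lib.SW.siegel (1 / 2) (by norm_num)
  obtain ⟨C, hC, hU⟩ := Lf_upper
  refine ⟨c / (76 * C), by positivity, ?_⟩
  intro Q x β hx hq h0 hβ hβ1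
  obtain ⟨hQ, -⟩ := mem_Ch.mp hx
  have hsi := hs (x.1 + 1) x.2 hq.1 hq.2
  have hLf : Lf x.2 = DirichletCharacter.LFunction x.2 := Lf_of_ne hq.1
  set q : ℕ := x.1 + 1 with hqdef
  have hqQ : (q : ℝ) ≤ Q := by
    have : q ≤ Q := hQ
    exact_mod_cast this
  have hq1 : (1 : ℝ) ≤ q := by
    have : 1 ≤ q := Nat.succ_le_succ (Nat.zero_le _)
    exact_mod_cast this
  have hseg : ∀ z ∈ segment ℝ ((β : ℝ) : ℂ) 1, 9 / 10 ≤ z.re ∧ z.re ≤ 1 ∧ z.im = 0 := by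
    rintro z ⟨a, b, ha, hb, hab, rfl⟩
    have e1 : (a • ((β : ℝ) : ℂ) + b • (1 : ℂ)).re = a * β + b := by
      simp
    have e2 : (a • ((β : ℝ) : ℂ) + b • (1 : ℂ)).im = 0 := by
      simp
    rw [e1, e2]
    refine ⟨?_, ?_, rfl⟩
    · nlinarith
    · nlinarith
  have hder : ∀ z ∈ segment ℝ ((β : ℝ) : ℂ) 1, ‖deriv (Lf x.2) z‖ ≤ 76 * C * q := by
    intro z hz
    obtain ⟨h1, h2, h3⟩ := hseg z hz
    have hb : ∀ w ∈ Metric.sphere z (1 / 4), ‖Lf x.2 w‖ ≤ 19 * C * q := by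
      intro w hw
      rw [mem_sphere_iff_norm] at hw
      have h4 : |(w - z).re| ≤ 1 / 4 := (Complex.abs_re_le_norm _).trans hw.le
      have h5 : |(w - z).im| ≤ 1 / 4 := (Complex.abs_im_le_norm _).trans hw.le
      rw [Complex.sub_re] at h4
      rw [Complex.sub_im, h3, sub_zero] at h5
      have h6 := abs_le.mp h4
      have hup := hU (x.1 + 1) x.2 w (by linarith) (by linarith)
      refine hup.trans ?_
      have h7 : (|w.im| + 4) ^ 2 ≤ 19 := by nlinarith [abs_nonneg w.im]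
      have h8 : 0 ≤ C * ((x.1 + 1 : ℕ) : ℝ) := by positivity
      calc C * ((x.1 + 1 : ℕ) : ℝ) * (|w.im| + 4) ^ 2 ≤ C * ((x.1 + 1 : ℕ) : ℝ) * 19 :=
            mul_le_mul_of_nonneg_left h7 h8
        _ = 19 * C * q := by rw [hqdef]; ring
    have := Complex.norm_deriv_le_of_forall_mem_sphere_norm_le (f := Lf x.2) (c := z)
      (R := 1 / 4) (C := 19 * C * q) (by norm_num)
      ((Lf_differentiable x.2).diffContOnCl) hb
    refine this.trans (le_of_eq ?_)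
    ring
  have hmv := Convex.norm_image_sub_le_of_norm_deriv_le (f := Lf x.2) (C := 76 * C * q)
    (s := segment ℝ ((β : ℝ) : ℂ) 1) (x := ((β : ℝ) : ℂ)) (y := 1)
    (fun z _ => (Lf_differentiable x.2).differentiableAt) hder (convex_segment _ _)
    (left_mem_segment _ _ _) (right_mem_segment _ _ _)
  have e0 : Lf x.2 ((β : ℝ) : ℂ) = 0 := by rw [hLf]; exact h0
  rw [e0, sub_zero] at hmv
  have e1 : ‖(1 : ℂ) - ((β : ℝ) : ℂ)‖ = 1 - β := by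
    rw [← Complex.ofReal_one, ← Complex.ofReal_sub, Complex.norm_real, Real.norm_of_nonneg]
    linarith
  rw [e1, hLf] at hmv
  have hsi2 : c * ((q : ℝ) ^ (-(1 / 2 : ℝ))) ≤ 76 * C * q * (1 - β) := hsi.trans hmv
  have hrp : ((q : ℝ))⁻¹ ≤ (q : ℝ) ^ (-(1 / 2 : ℝ)) := by
    rw [← Real.rpow_neg_one]
    exact Real.rpow_le_rpow_of_exponent_le hq1 (by norm_num)
  have h9 : c * (q : ℝ)⁻¹ ≤ 76 * C * q * (1 - β) :=
    (mul_le_mul_of_nonneg_left hrp hc.le).trans hsi2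
  have hq0 : (0 : ℝ) < q := by linarith
  have hCp : 0 < C := by linarith
  have h10 : c / (76 * C) * ((q : ℝ) ^ 2)⁻¹ ≤ 1 - β := by
    rw [div_mul_eq_mul_div, div_le_iff₀ (by positivity)]
    have h11 : c * (q : ℝ)⁻¹ * (q : ℝ)⁻¹ ≤ 76 * C * q * (1 - β) * (q : ℝ)⁻¹ :=
      mul_le_mul_of_nonneg_right h9 (by positivity)
    have h12 : 76 * C * q * (1 - β) * (q : ℝ)⁻¹ = 76 * C * (1 - β) := by
      field_simp
    have h13 : c * ((q : ℝ) ^ 2)⁻¹ = c * (q : ℝ)⁻¹ * (q : ℝ)⁻¹ := by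
      rw [sq, mul_inv]
      ring
    rw [h13]
    calc c * (q : ℝ)⁻¹ * (q : ℝ)⁻¹ ≤ 76 * C * (1 - β) := h11.trans h12.le
      _ = (1 - β) * (76 * C) := by ring
  refine le_trans ?_ h10
  refine mul_le_mul_of_nonneg_left ?_ (by positivity)
  exact inv_anti₀ (by positivity) (pow_le_pow_left₀ hq0.le hqQ 2)

end Pool.Agent.Lib.GMV
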