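import Pool.Agent.Lib.GMV.DExp
import Pool.Agent.Lib.GMV.DSel
import Pool.Agent.Lib.GMV.DHz
import Pool.Agent.Lib.GMV.DSie

/-!
# GMV.DKap (1.5 h): the weights have small total mass if there is an exceptional zero

PROOF. `E = Q^30`, `N = Q^700`, `q = md x ≤ Q`, `κ := QV (wq x) θ E * L1 x` with `θ` from `selberg (gq x) E` (replace `gq x p` by `1` for nonprimes; `gq_w`), so
`QV = 1/H`, `H ≥ ∑_{n ≤ E} lmb x n/n` (`H_lower`) `≥ E^(-(1-β)) ∑_{n ≤ E} lmb x n n^(-β)` (`lmb ≥ 0`).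
`mult_pri` with `e = 1`, `s = β`, `N := E` (real numbers: take real parts): `|∑_{n ≤ E} lmb x n n^(-β) - m1| ≤ ε1`, `m1 = L1 x E^(1-β)/(1-β)`,
`ε1 = C q (1 + 1/(1-β)) E^(-2/5) ≤ C' Q^3 Q^(-12) ≤ 1/8` (`one_sub_beta`, `Q ≥ Q0`). The sum is `≥ lmb x 1 = 1`, so `m1 ≥ 1 - ε1`, `L1 x > 0`,
`0 < κ = L1 x/H ≤ L1 x E^(1-β)/(m1 - ε1) = (1-β) m1/(m1 - ε1) ≤ (1-β)(1 + 2 ε1)`.
`exp_pri` with `s = β`, `N = Q^700`: `thw θ 1 = 1`, so `1 + ∑_{1<n≤N} b n^(-β) ≤ κ N^(1-β)/(1-β) + ε2 ≤ (1 + 2 ε1) N^(1-β) + ε2`,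
`ε2 = C Q (1 + 1/(1-β)) Q^180 Q^(-280) ≤ C' Q^(-97)`. With `t = (1-β) log N ≤ 1`: `N^(1-β) = exp t ≤ 1 + 2 t`, so
`∑_{1<n≤N} b n^(-β) ≤ 2 t + 6 ε1 + ε2 ≤ 3 t` because `6 ε1 + ε2 ≤ C'' Q^(-9) ≤ c Q^(-2) ≤ 1 - β ≤ t`. And `n^(-1) ≤ n^(-β)`.
-/

set_option autoImplicit false

open Finset

namespace Pool.Agent.Lib.GMV

namespace DKapAux

lemma npow_real (n : ℕ) (β : ℝ) : ((n : ℂ)) ^ (-(β : ℂ)) = (((n : ℝ) ^ (-β) : ℝ) : ℂ) := by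
  rw [Complex.ofReal_cpow (Nat.cast_nonneg n)]
  push_cast
  rfl

lemma main_real (N : ℕ) (β : ℝ) : ((N : ℂ)) ^ (1 - (β : ℂ)) / (1 - (β : ℂ)) =
    (((N : ℝ) ^ (1 - β) / (1 - β) : ℝ) : ℂ) := by
  rw [Complex.ofReal_div, Complex.ofReal_cpow (Nat.cast_nonneg N)]
  push_cast
  rfl

lemma norm_one_sub {β : ℝ} (h : β < 1) : ‖1 - (β : ℂ)‖ = 1 - β := by
  rw [← Complex.ofReal_one, ← Complex.ofReal_sub, Complex.norm_real, Real.norm_of_nonneg]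
  linarith

lemma beta_ne {β : ℝ} (h : β < 1) : (β : ℂ) ≠ 1 := by
  intro h1
  have h2 : ((β : ℂ)).re = (1 : ℂ).re := by rw [h1]
  rw [Complex.ofReal_re, Complex.one_re] at h2
  linarith

lemma real_mult : ∃ C : ℝ, 1 ≤ C ∧ ∀ (x : CI) (β : ℝ) (N : ℕ), Quad x → 9 / 10 ≤ β → β < 1 →
    DirichletCharacter.LFunction x.2 (β : ℂ) = 0 → 1 ≤ N →
    |∑ n ∈ Icc 1 N, lmb x n * (n : ℝ) ^ (-β) - L1 x * ((N : ℝ) ^ (1 - β) / (1 - β))| ≤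
      C * md x * (1 + 1 / (1 - β)) * (N : ℝ) ^ (-(2 / 5) : ℝ) := by
  obtain ⟨C, hC, h⟩ := mult_pri
  refine ⟨C, hC, fun x β N hq h1 h2 h0 hN => ?_⟩
  have h3 := h x (β : ℂ) 1 N hq (by rwa [Complex.ofReal_re]) (by rw [Complex.ofReal_re]; exact h2.le) (beta_ne h2)
    (Or.inr h0) squarefree_one (by simpa using hN)
  rw [norm_one_sub h2, Complex.norm_real, Real.norm_of_nonneg (by linarith), Nat.primeFactors_one, Finset.prod_empty,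
    main_real] at h3
  have h4 : (∑ n ∈ (Icc 1 N).filter (fun n => 1 ∣ n), (lmb x n : ℂ) * (n : ℂ) ^ (-(β : ℂ)) -
      ((1 : ℝ) : ℂ) * ((L1 x : ℂ) * (((N : ℝ) ^ (1 - β) / (1 - β) : ℝ) : ℂ))) =
      ((∑ n ∈ Icc 1 N, lmb x n * (n : ℝ) ^ (-β) - L1 x * ((N : ℝ) ^ (1 - β) / (1 - β)) : ℝ) : ℂ) := by
    rw [Finset.filter_true_of_mem (fun n _ => one_dvd n)]
    push_cast
    rw [one_mul]
    congr 1
    refine Finset.sum_congr rfl fun n _ => ?_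
    rw [npow_real]
  rw [h4, Complex.norm_real, Real.norm_eq_abs] at h3
  refine h3.trans ?_
  have h5 : β ^ 2 ≤ 1 := by nlinarith
  have h6 : 0 ≤ (N : ℝ) ^ (-(2 / 5) : ℝ) := by positivity
  have h7 : 0 < 1 - β := by linarith
  have h8 : 0 ≤ 1 + 1 / (1 - β) := by positivity
  rw [Nat.cast_one, one_pow, mul_one]
  refine mul_le_mul_of_nonneg_right ?_ h6
  refine mul_le_mul_of_nonneg_right ?_ h8
  have h9 : 0 ≤ C * (md x : ℝ) := by positivity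
  nlinarith

lemma real_exp : ∃ C : ℝ, 1 ≤ C ∧ ∀ (Q : ℕ) (x : CI) (β : ℝ) (θ : ℕ → ℝ) (E N : ℕ), x ∈ Ch Q → Quad x → 9 / 10 ≤ β → β < 1 →
    DirichletCharacter.LFunction x.2 (β : ℂ) = 0 → Adm θ E → 1 ≤ E → E ^ 4 ≤ N →
    |∑ n ∈ Icc 1 N, (thw θ n) ^ 2 * lmb x n * (n : ℝ) ^ (-β) -
      QV (wq x) θ E * L1 x * ((N : ℝ) ^ (1 - β) / (1 - β))| ≤
      C * Q * (1 + 1 / (1 - β)) * (E : ℝ) ^ 6 * (N : ℝ) ^ (-(2 / 5) : ℝ) := by
  obtain ⟨C, hC, h⟩ := exp_pri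
  refine ⟨C, hC, fun Q x β θ E N hx hq h1 h2 h0 hθ hE hN => ?_⟩
  have h3 := h Q x (β : ℂ) θ E N hx hq (by rwa [Complex.ofReal_re]) (by rw [Complex.ofReal_re]; exact h2.le) (beta_ne h2)
    (Or.inr h0) hθ hE hN
  rw [norm_one_sub h2, Complex.norm_real, Real.norm_of_nonneg (by linarith), main_real] at h3
  have h4 : (∑ n ∈ Icc 1 N, (((thw θ n) ^ 2 * lmb x n : ℝ) : ℂ) * (n : ℂ) ^ (-(β : ℂ)) -
      ((QV (wq x) θ E * L1 x : ℝ) : ℂ) * (((N : ℝ) ^ (1 - β) / (1 - β) : ℝ) : ℂ)) =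
      ((∑ n ∈ Icc 1 N, (thw θ n) ^ 2 * lmb x n * (n : ℝ) ^ (-β) -
        QV (wq x) θ E * L1 x * ((N : ℝ) ^ (1 - β) / (1 - β)) : ℝ) : ℂ) := by
    rw [Complex.ofReal_sub, Complex.ofReal_mul (QV (wq x) θ E * L1 x), Complex.ofReal_sum]
    congr 1
    refine Finset.sum_congr rfl fun n _ => ?_
    rw [npow_real]
    push_cast
    ring
  rw [h4, Complex.norm_real, Real.norm_eq_abs] at h3
  refine h3.trans ?_
  have h5 : β ^ 2 ≤ 1 := by nlinarith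
  have h6 : 0 ≤ (N : ℝ) ^ (-(2 / 5) : ℝ) := by positivity
  have h7 : 0 < 1 - β := by linarith
  have h8 : 0 ≤ 1 + 1 / (1 - β) := by positivity
  refine mul_le_mul_of_nonneg_right ?_ h6
  refine mul_le_mul_of_nonneg_right ?_ (by positivity)
  refine mul_le_mul_of_nonneg_right ?_ h8
  have h9 : 0 ≤ C * (Q : ℝ) := by positivity
  nlinarith

lemma QV_congr {w w' θ : ℕ → ℝ} {E : ℕ} (h : ∀ p : ℕ, p.Prime → w p = w' p) : QV w θ E = QV w' θ E := by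
  unfold QV
  refine Finset.sum_congr rfl fun d _ => Finset.sum_congr rfl fun e _ => ?_
  congr 1
  exact Finset.prod_congr rfl fun p hp => h p (Nat.prime_of_mem_primeFactors hp)

lemma thw_one {θ : ℕ → ℝ} {E : ℕ} (h : Adm θ E) : thw θ 1 = 1 := by
  unfold thw
  rw [Nat.divisors_one, Finset.sum_singleton]
  exact h.1

/-- The elementary inequality at the end. -/
lemma exp_le_two {t : ℝ} (h0 : 0 ≤ t) (h1 : t ≤ 1) : Real.exp t ≤ 1 + 2 * t := by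
  have h2 := Real.abs_exp_sub_one_sub_id_le (x := t) (by rw [abs_of_nonneg h0]; exact h1)
  have h3 := (abs_le.mp h2).2
  nlinarith

end DKapAux

open DKapAux

theorem kap : ∃ Q0 : ℕ, ∀ (Q : ℕ) (x : CI) (β : ℝ), Q0 ≤ Q → x ∈ Ch Q → Quad x →
    DirichletCharacter.LFunction x.2 (β : ℂ) = 0 → 9 / 10 ≤ β → β < 1 →
    (1 - β) * Real.log Q ≤ 1 / 700 →
    ∃ θ : ℕ → ℝ, Adm θ (Q ^ 30) ∧ |QV (wq x) θ (Q ^ 30) * L1 x| ≤ 2 * (1 - β) ∧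
      ∑ n ∈ Ioc 1 (Q ^ 700), (thw θ n) ^ 2 * lmb x n / n ≤ 2100 * ((1 - β) * Real.log Q) := by
  obtain ⟨C1, hC1, hm⟩ := real_mult
  obtain ⟨C2, hC2, he⟩ := real_exp
  obtain ⟨c, hc, hs⟩ := one_sub_beta
  -- the size of `Q0`
  set M : ℝ := 4 * (C1 + C2) * (1 + 1 / c) * (1 + 1 / c) with hM
  have hM0 : 0 < M := by positivity
  refine ⟨max 3 ⌈M⌉₊, fun Q x β hQ hx hq h0 h1 h2 ht => ?_⟩
  have hQ3 : 3 ≤ Q := le_trans (le_max_left _ _) hQ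
  have hQ3r : (3 : ℝ) ≤ Q := by exact_mod_cast hQ3
  have hQM : M ≤ Q := (Nat.le_ceil M).trans (by exact_mod_cast le_trans (le_max_right _ _) hQ)
  have hQ0 : (0 : ℝ) < Q := by linarith
  have hQ1 : (1 : ℝ) ≤ Q := by linarith
  have hlog : 1 ≤ Real.log Q := by
    rw [Real.le_log_iff_exp_le hQ0]
    linarith [Real.exp_one_lt_d9]
  have hb0 : 0 < 1 - β := by linarith
  have hb := hs Q x β hx hq h0 h1 h2
  have hmd : (md x : ℝ) ≤ Q := by exact_mod_cast (mem_Ch.mp hx).1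
  -- `1 + 1 / (1 - β) ≤ (1 + 1 / c) Q ^ 2`
  have hinv : 1 + 1 / (1 - β) ≤ (1 + 1 / c) * (Q : ℝ) ^ 2 := by
    have h3 : 1 / (1 - β) ≤ 1 / c * (Q : ℝ) ^ 2 := by
      rw [div_le_iff₀ hb0]
      have h4 : 1 / c * (Q : ℝ) ^ 2 * (c * ((Q : ℝ) ^ 2)⁻¹) = 1 := by
        field_simp
      calc (1 : ℝ) = 1 / c * (Q : ℝ) ^ 2 * (c * ((Q : ℝ) ^ 2)⁻¹) := h4.symm
        _ ≤ 1 / c * (Q : ℝ) ^ 2 * (1 - β) := mul_le_mul_of_nonneg_left hb (by positivity)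
    have h5 : (1 : ℝ) ≤ (Q : ℝ) ^ 2 := one_le_pow₀ hQ1
    nlinarith
  obtain ⟨θ, hθ, hVH⟩ := selberg (gq x) (fun p hp => gq_pos hq hp) (Q ^ 30) (Nat.one_le_pow _ _ (by omega))
  rw [QV_congr (fun p hp => gq_w hq hp)] at hVH
  set H : ℝ := ∑ d ∈ (Icc 1 (Q ^ 30)).filter Squarefree, ∏ p ∈ d.primeFactors, gq x p with hH
  have hHl := H_lower hq (Q ^ 30)
  rw [← hH] at hHl
  set E : ℕ := Q ^ 30 with hE
  have hE1 : 1 ≤ E := Nat.one_le_pow _ _ (by omega)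
  have hEr : (E : ℝ) = (Q : ℝ) ^ 30 := by rw [hE]; push_cast; rfl
  have hE0 : (0 : ℝ) < E := by exact_mod_cast hE1
  set A : ℝ := ∑ n ∈ Icc 1 E, lmb x n * (n : ℝ) ^ (-β) with hA
  set ε1 : ℝ := C1 * md x * (1 + 1 / (1 - β)) * (E : ℝ) ^ (-(2 / 5) : ℝ) with hε1
  have hAm : |A - L1 x * ((E : ℝ) ^ (1 - β) / (1 - β))| ≤ ε1 := hm x β E hq h1 h2 h0 hE1
  have hEp : (E : ℝ) ^ (-(2 / 5) : ℝ) = ((Q : ℝ) ^ 12)⁻¹ := by
    rw [hEr, ← Real.rpow_natCast (Q : ℝ) 30, ← Real.rpow_mul hQ0.le, ← Real.rpow_natCast (Q : ℝ) 12,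
      ← Real.rpow_neg hQ0.le]
    congr 1
    norm_num
  -- size of the first error
  have hε1b : ε1 ≤ (C1 * (1 + 1 / c)) * ((Q : ℝ) ^ 9)⁻¹ := by
    rw [hε1, hEp]
    have h3 : C1 * (md x : ℝ) * (1 + 1 / (1 - β)) ≤ C1 * Q * ((1 + 1 / c) * (Q : ℝ) ^ 2) := by
      have h4 : C1 * (md x : ℝ) ≤ C1 * Q := mul_le_mul_of_nonneg_left hmd (by linarith)
      exact mul_le_mul h4 hinv (by positivity) (by positivity)
    refine (mul_le_mul_of_nonneg_right h3 (by positivity)).trans (le_of_eq ?_)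
    field_simp
  have hQ9 : ((Q : ℝ) ^ 9)⁻¹ ≤ ((Q : ℝ))⁻¹ * ((Q : ℝ) ^ 2)⁻¹ := by
    rw [← mul_inv]
    refine inv_anti₀ (by positivity) ?_
    calc (Q : ℝ) * (Q : ℝ) ^ 2 = (Q : ℝ) ^ 3 := by ring
      _ ≤ (Q : ℝ) ^ 9 := pow_le_pow_right₀ hQ1 (by norm_num)
  have hε10 : 0 ≤ ε1 := (abs_nonneg _).trans hAm
  -- the sum of both errors
  set ε2 : ℝ := C2 * Q * (1 + 1 / (1 - β)) * (E : ℝ) ^ 6 * ((Q ^ 700 : ℕ) : ℝ) ^ (-(2 / 5) : ℝ) with hε2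
  have hNp : ((Q ^ 700 : ℕ) : ℝ) ^ (-(2 / 5) : ℝ) = ((Q : ℝ) ^ 280)⁻¹ := by
    push_cast
    rw [← Real.rpow_natCast (Q : ℝ) 700, ← Real.rpow_mul hQ0.le, ← Real.rpow_natCast (Q : ℝ) 280,
      ← Real.rpow_neg hQ0.le]
    congr 1
    norm_num
  have hε2b : ε2 ≤ (C2 * (1 + 1 / c)) * ((Q : ℝ) ^ 9)⁻¹ := by
    rw [hε2, hNp, hEr]
    have h3 : C2 * (Q : ℝ) * (1 + 1 / (1 - β)) ≤ C2 * Q * ((1 + 1 / c) * (Q : ℝ) ^ 2) :=
      mul_le_mul_of_nonneg_left hinv (by positivity)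
    have h4 : C2 * (Q : ℝ) * (1 + 1 / (1 - β)) * ((Q : ℝ) ^ 30) ^ 6 * ((Q : ℝ) ^ 280)⁻¹ ≤
        C2 * Q * ((1 + 1 / c) * (Q : ℝ) ^ 2) * ((Q : ℝ) ^ 30) ^ 6 * ((Q : ℝ) ^ 280)⁻¹ := by
      refine mul_le_mul_of_nonneg_right ?_ (by positivity)
      exact mul_le_mul_of_nonneg_right h3 (by positivity)
    refine h4.trans ?_
    have h5 : C2 * (Q : ℝ) * ((1 + 1 / c) * (Q : ℝ) ^ 2) * ((Q : ℝ) ^ 30) ^ 6 * ((Q : ℝ) ^ 280)⁻¹ =
        (C2 * (1 + 1 / c)) * ((Q : ℝ) ^ 97)⁻¹ := by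
      have e1 : ((Q : ℝ) ^ 30) ^ 6 = (Q : ℝ) ^ 180 := by rw [← pow_mul]
      have e2 : (Q : ℝ) ^ 280 = (Q : ℝ) ^ 180 * ((Q : ℝ) ^ 3 * (Q : ℝ) ^ 97) := by ring
      rw [e1, e2]
      field_simp
    rw [h5]
    refine mul_le_mul_of_nonneg_left ?_ (by positivity)
    exact inv_anti₀ (by positivity) (pow_le_pow_right₀ hQ1 (by norm_num))
  have hQi : ((Q : ℝ))⁻¹ * M ≤ 1 := by
    rw [inv_mul_le_iff₀ hQ0, mul_one]
    exact hQM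
  have hsum : 3 * ε1 + ε2 ≤ 1 - β := by
    refine le_trans ?_ hb
    have h3 : 3 * ε1 + ε2 ≤ (4 * (C1 + C2) * (1 + 1 / c)) * (((Q : ℝ))⁻¹ * ((Q : ℝ) ^ 2)⁻¹) := by
      have h4 : 3 * ε1 + ε2 ≤ (3 * (C1 * (1 + 1 / c)) + C2 * (1 + 1 / c)) * ((Q : ℝ) ^ 9)⁻¹ := by linarith
      refine h4.trans ?_
      refine mul_le_mul ?_ hQ9 (by positivity) (by positivity)
      have h5 : 0 < 1 + 1 / c := by positivity
      nlinarith
    refine h3.trans ?_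
    have h6 : (4 * (C1 + C2) * (1 + 1 / c)) * ((Q : ℝ))⁻¹ ≤ c := by
      have h7 : (4 * (C1 + C2) * (1 + 1 / c)) * ((Q : ℝ))⁻¹ * (1 + 1 / c) ≤ 1 := by
        calc (4 * (C1 + C2) * (1 + 1 / c)) * ((Q : ℝ))⁻¹ * (1 + 1 / c) = ((Q : ℝ))⁻¹ * M := by rw [hM]; ring
          _ ≤ 1 := hQi
      have h8 : 0 ≤ (4 * (C1 + C2) * (1 + 1 / c)) * ((Q : ℝ))⁻¹ := by positivity
      have h9 : (4 * (C1 + C2) * (1 + 1 / c)) * ((Q : ℝ))⁻¹ * (1 / c) ≤ 1 := by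
        have h10 : (4 * (C1 + C2) * (1 + 1 / c)) * ((Q : ℝ))⁻¹ * (1 / c) ≤
            (4 * (C1 + C2) * (1 + 1 / c)) * ((Q : ℝ))⁻¹ * (1 + 1 / c) :=
          mul_le_mul_of_nonneg_left (by linarith) h8
        linarith
      rw [mul_one_div, div_le_one hc] at h9
      exact h9
    calc (4 * (C1 + C2) * (1 + 1 / c)) * (((Q : ℝ))⁻¹ * ((Q : ℝ) ^ 2)⁻¹) =
        ((4 * (C1 + C2) * (1 + 1 / c)) * ((Q : ℝ))⁻¹) * ((Q : ℝ) ^ 2)⁻¹ := by ring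
      _ ≤ c * ((Q : ℝ) ^ 2)⁻¹ := mul_le_mul_of_nonneg_right h6 (by positivity)
  have hε20 : 0 ≤ ε2 := by rw [hε2]; positivity
  have hε1s : ε1 ≤ 1 / 2 := by
    have : 1 - β ≤ 1 / 10 := by linarith
    linarith
  -- `A ≥ 1`
  have hA1 : 1 ≤ A := by
    have h3 : lmb x 1 * ((1 : ℕ) : ℝ) ^ (-β) ≤ A := by
      rw [hA]
      exact Finset.single_le_sum (f := fun n : ℕ => lmb x n * (n : ℝ) ^ (-β))
        (fun n _ => mul_nonneg (lam_nonneg hq n) (by positivity)) (Finset.mem_Icc.mpr ⟨le_rfl, hE1⟩)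
    rwa [lam_one, Nat.cast_one, Real.one_rpow, mul_one] at h3
  set m1 : ℝ := L1 x * ((E : ℝ) ^ (1 - β) / (1 - β)) with hm1
  have hAm' := abs_le.mp hAm
  have hm1p : 0 < m1 := by linarith
  have hEb : 0 < (E : ℝ) ^ (1 - β) := Real.rpow_pos_of_pos hE0 _
  have hL1 : 0 < L1 x := by
    by_contra hcon
    have h3 : m1 ≤ 0 := by
      rw [hm1]
      exact mul_nonpos_of_nonpos_of_nonneg (not_lt.mp hcon) (by positivity)
    linarith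
  -- `H ≥ E^(-(1-β)) A`
  have hHA : A ≤ (E : ℝ) ^ (1 - β) * H := by
    have h3 : A ≤ (E : ℝ) ^ (1 - β) * ∑ n ∈ Icc 1 E, lmb x n / n := by
      rw [hA, Finset.mul_sum]
      refine Finset.sum_le_sum fun n hn => ?_
      rw [Finset.mem_Icc] at hn
      have hn0 : (0 : ℝ) < n := by exact_mod_cast hn.1
      have h4 : (n : ℝ) ^ (-β) = (n : ℝ) ^ (1 - β) / n := by
        rw [show -β = (1 - β) - 1 by ring, Real.rpow_sub hn0, Real.rpow_one]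
      rw [h4]
      have h5 : (n : ℝ) ^ (1 - β) ≤ (E : ℝ) ^ (1 - β) :=
        Real.rpow_le_rpow hn0.le (by exact_mod_cast hn.2) hb0.le
      have h6 := lam_nonneg hq n
      calc lmb x n * ((n : ℝ) ^ (1 - β) / n) = (n : ℝ) ^ (1 - β) * (lmb x n / n) := by ring
        _ ≤ (E : ℝ) ^ (1 - β) * (lmb x n / n) := mul_le_mul_of_nonneg_right h5 (by positivity)
    exact h3.trans (mul_le_mul_of_nonneg_left hHl hEb.le)
  have hH0 : 0 < H := by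
    by_contra hcon
    have := mul_nonpos_of_nonneg_of_nonpos hEb.le (not_lt.mp hcon)
    linarith
  set κ : ℝ := QV (wq x) θ E * L1 x with hκ
  have hκH : κ * H = L1 x := by
    rw [hκ]
    calc QV (wq x) θ E * L1 x * H = L1 x * (QV (wq x) θ E * H) := by ring
      _ = L1 x := by rw [hVH, mul_one]
  have hκ0 : 0 < κ := by
    by_contra hcon
    have := mul_nonpos_of_nonpos_of_nonneg (not_lt.mp hcon) hH0.le
    linarith
  have hκb : κ ≤ (1 - β) * (1 + ε1) := by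
    -- `κ A ≤ κ E^(1-β) H = L1 E^(1-β) = (1-β) m1 ≤ (1-β) (A + ε1) ≤ (1-β) (1 + ε1) A`
    have h3 : κ * A ≤ (1 - β) * m1 := by
      calc κ * A ≤ κ * ((E : ℝ) ^ (1 - β) * H) := mul_le_mul_of_nonneg_left hHA hκ0.le
        _ = (κ * H) * (E : ℝ) ^ (1 - β) := by ring
        _ = (1 - β) * m1 := by
            rw [hκH, hm1]
            field_simp
    have h4 : (1 - β) * m1 ≤ ((1 - β) * (1 + ε1)) * A := by
      have h5 : m1 ≤ A + ε1 := by linarith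
      have h6 : A + ε1 ≤ (1 + ε1) * A := by nlinarith
      calc (1 - β) * m1 ≤ (1 - β) * ((1 + ε1) * A) := mul_le_mul_of_nonneg_left (h5.trans h6) hb0.le
        _ = ((1 - β) * (1 + ε1)) * A := by ring
    exact le_of_mul_le_mul_right (h3.trans h4) (by linarith)
  refine ⟨θ, hθ, ?_, ?_⟩
  · rw [abs_of_pos hκ0]
    refine hκb.trans ?_
    nlinarith
  · -- the sum
    have hN1 : 1 ≤ Q ^ 700 := Nat.one_le_pow _ _ (by omega)
    have hEN : E ^ 4 ≤ Q ^ 700 := by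
      rw [hE, ← pow_mul]
      exact Nat.pow_le_pow_right (by omega) (by norm_num)
    have h3 := he Q x β θ E (Q ^ 700) hx hq h1 h2 h0 hθ hE1 hEN
    rw [← hκ, ← hε2] at h3
    have h4 := (abs_le.mp h3).2
    have h5 : ((Q ^ 700 : ℕ) : ℝ) ^ (1 - β) = Real.exp (700 * ((1 - β) * Real.log Q)) := by
      push_cast
      rw [← Real.rpow_natCast (Q : ℝ) 700, ← Real.rpow_mul hQ0.le, Real.rpow_def_of_pos hQ0]
      congr 1
      push_cast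
      ring
    set t : ℝ := 700 * ((1 - β) * Real.log Q) with hts
    have ht1 : t ≤ 1 := by linarith
    have htb : 1 - β ≤ t := by
      rw [hts]
      nlinarith
    have ht0 : 0 ≤ t := by linarith
    have h6 := exp_le_two ht0 ht1
    -- the total
    have h7 : κ * (((Q ^ 700 : ℕ) : ℝ) ^ (1 - β) / (1 - β)) ≤ (1 + ε1) * (1 + 2 * t) := by
      rw [h5, mul_div_assoc', div_le_iff₀ hb0]
      calc κ * Real.exp t ≤ ((1 - β) * (1 + ε1)) * (1 + 2 * t) :=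
            mul_le_mul hκb h6 (Real.exp_pos t).le (by positivity)
        _ = (1 + ε1) * (1 + 2 * t) * (1 - β) := by ring
    have h8 : ∑ n ∈ Icc 1 (Q ^ 700), (thw θ n) ^ 2 * lmb x n * (n : ℝ) ^ (-β) =
        1 + ∑ n ∈ Ioc 1 (Q ^ 700), (thw θ n) ^ 2 * lmb x n * (n : ℝ) ^ (-β) := by
      rw [← Finset.Ioc_insert_left hN1, Finset.sum_insert Finset.left_notMem_Ioc, thw_one hθ, lam_one,
        Nat.cast_one, Real.one_rpow]
      norm_num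
    have h9 : ∑ n ∈ Ioc 1 (Q ^ 700), (thw θ n) ^ 2 * lmb x n / n ≤
        ∑ n ∈ Ioc 1 (Q ^ 700), (thw θ n) ^ 2 * lmb x n * (n : ℝ) ^ (-β) := by
      refine Finset.sum_le_sum fun n hn => ?_
      rw [Finset.mem_Ioc] at hn
      have hn1 : (1 : ℝ) ≤ n := by exact_mod_cast hn.1.le
      have hn0 : (0 : ℝ) < n := by linarith
      have h10 : ((n : ℝ))⁻¹ ≤ (n : ℝ) ^ (-β) := by
        rw [← Real.rpow_neg_one]
        exact Real.rpow_le_rpow_of_exponent_le hn1 (by linarith)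
      rw [div_eq_mul_inv]
      exact mul_le_mul_of_nonneg_left h10 (mul_nonneg (sq_nonneg _) (lam_nonneg hq n))
    refine h9.trans ?_
    have h10 : 2100 * ((1 - β) * Real.log Q) = 3 * t := by rw [hts]; ring
    rw [h10]
    have h11 : ε1 * t ≤ ε1 := by nlinarith
    nlinarith

end Pool.Agent.Lib.GMV
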