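import Pool.Agent.Lib.GMV.DDef
import Pool.Agent.Lib.VK.Approx

/-!
# GMV.DSum (1.2 h): partial sums of `ζ` and `L`, real length

PROOF. `VK.approx` with `N = ⌊y⌋₊ ≥ 1`, `q = 1`, `Φ = 1` (`ZMod.LFunction_modOne_eq`), resp. `Φ = χ`
(`DirichletCharacter.LFunction χ` is by definition `ZMod.LFunction (χ ·)`; `∑ a, χ a = 0`: `MulChar.sum_eq_zero_of_ne_one`).
`⌊y⌋₊^(-σ) ≤ 2 y^(-σ)` as `y/2 ≤ ⌊y⌋₊`, `σ ≤ 1`. And `|N^(1-s) - y^(1-s)| ≤ |1-s| (y - N) N^(-σ)` (mean value inequality for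
`t ↦ t^(1-s)` on `[N, y]`), so the difference of the pole terms is `≤ 2 y^(-σ) ≤ 3 |s| y^(-σ)` (`|s| ≥ 9/10`).
`chi_part` at `s = 1`: both sides are continuous in `s`; let `s = 1 + i t`, `t → 0` (`DirichletCharacter.differentiable_LFunction`).
`pow_sum`: `∑_{a ≤ M} a^(-9/10) ≤ 10 M^(1/10)`: induction on `M`: `10 ((M+1)^(1/10) - M^(1/10)) ≥ (M+1)^(-9/10)` (Bernoulli:
`rpow_one_add_le_one_add_mul_self` with `M = (M+1) (1 - 1/(M+1))`).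
-/

set_option autoImplicit false

open Finset

namespace Pool.Agent.Lib.GMV

namespace DSumAux

theorem floor_pow {y σ : ℝ} (hy : 1 ≤ y) (h0 : 0 ≤ σ) (h1 : σ ≤ 1) :
    ((⌊y⌋₊ : ℕ) : ℝ) ^ (-σ) ≤ 2 * y ^ (-σ) := by
  have hN : 1 ≤ ⌊y⌋₊ := (Nat.one_le_floor_iff _).2 hy
  have hN' : (1 : ℝ) ≤ (⌊y⌋₊ : ℕ) := by exact_mod_cast hN
  have h2 : y < (⌊y⌋₊ : ℕ) + 1 := Nat.lt_floor_add_one y
  have h3 : y / 2 ≤ (⌊y⌋₊ : ℕ) := by linarith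
  have h4 : ((⌊y⌋₊ : ℕ) : ℝ) ^ (-σ) ≤ (y / 2) ^ (-σ) :=
    Real.rpow_le_rpow_of_nonpos (by linarith) h3 (by linarith)
  have h5 : (y / 2) ^ (-σ) = y ^ (-σ) * 2 ^ σ := by
    rw [Real.div_rpow (by linarith) (by norm_num), Real.rpow_neg (by norm_num : (0 : ℝ) ≤ 2),
      div_inv_eq_mul]
  have h6 : (2 : ℝ) ^ σ ≤ 2 := by
    calc (2 : ℝ) ^ σ ≤ 2 ^ (1 : ℝ) := Real.rpow_le_rpow_of_exponent_le (by norm_num) h1
      _ = 2 := Real.rpow_one 2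
  have h7 : 0 ≤ y ^ (-σ) := Real.rpow_nonneg (by linarith) _
  calc ((⌊y⌋₊ : ℕ) : ℝ) ^ (-σ) ≤ y ^ (-σ) * 2 ^ σ := by rw [← h5]; exact h4
    _ ≤ y ^ (-σ) * 2 := mul_le_mul_of_nonneg_left h6 h7
    _ = 2 * y ^ (-σ) := mul_comm _ _

theorem pole_diff {y : ℝ} {s : ℂ} (hy : 1 ≤ y) (h0 : 0 ≤ s.re) (hs : s ≠ 1) :
    ‖(y : ℂ) ^ (1 - s) / (1 - s) - ((⌊y⌋₊ : ℕ) : ℂ) ^ (1 - s) / (1 - s)‖ ≤
      ((⌊y⌋₊ : ℕ) : ℝ) ^ (-s.re) := by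
  have hN : 1 ≤ ⌊y⌋₊ := (Nat.one_le_floor_iff _).2 hy
  have hN' : (1 : ℝ) ≤ (⌊y⌋₊ : ℕ) := by exact_mod_cast hN
  have hNy : ((⌊y⌋₊ : ℕ) : ℝ) ≤ y := Nat.floor_le (by linarith)
  have h2 : y < (⌊y⌋₊ : ℕ) + 1 := Nat.lt_floor_add_one y
  set N : ℝ := ((⌊y⌋₊ : ℕ) : ℝ) with hNdef
  have hr : -s ≠ -1 := fun h => hs (neg_injective h)
  have hd : ∀ t ∈ Set.Icc N y, HasDerivWithinAt (fun t : ℝ => (t : ℂ) ^ (-s + 1) / (-s + 1))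
      ((t : ℂ) ^ (-s)) (Set.Icc N y) t := by
    intro t ht
    have ht0 : t ≠ 0 := by
      have := ht.1
      intro h
      linarith
    exact (hasDerivAt_ofReal_cpow_const' ht0 hr).hasDerivWithinAt
  have hb : ∀ t ∈ Set.Icc N y, ‖(t : ℂ) ^ (-s)‖ ≤ N ^ (-s.re) := by
    intro t ht
    have ht0 : 0 < t := by linarith [ht.1]
    rw [Complex.norm_cpow_eq_rpow_re_of_pos ht0]
    have e : (-s).re = -s.re := Complex.neg_re s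
    rw [e]
    exact Real.rpow_le_rpow_of_nonpos (by linarith) ht.1 (by linarith)
  have h3 := (convex_Icc N y).norm_image_sub_le_of_norm_hasDerivWithin_le hd hb
    (Set.left_mem_Icc.2 hNy) (Set.right_mem_Icc.2 hNy)
  have e1 : (-s + 1 : ℂ) = 1 - s := by ring
  simp only [e1] at h3
  have h4 : ‖y - N‖ ≤ 1 := by
    rw [Real.norm_eq_abs, abs_of_nonneg (by linarith)]
    linarith
  have h5 : 0 ≤ N ^ (-s.re) := Real.rpow_nonneg (by linarith) _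
  have e2 : ((N : ℝ) : ℂ) = ((⌊y⌋₊ : ℕ) : ℂ) := by
    rw [hNdef]
    exact Complex.ofReal_natCast _
  rw [e2] at h3
  calc _ ≤ N ^ (-s.re) * ‖y - N‖ := h3
    _ ≤ N ^ (-s.re) * 1 := mul_le_mul_of_nonneg_left h4 h5
    _ = N ^ (-s.re) := mul_one _

theorem step (M : ℕ) : (((M + 1 : ℕ) : ℝ)) ^ (-(9 / 10) : ℝ) ≤
    10 * ((M + 1 : ℕ) : ℝ) ^ (1 / 10 : ℝ) - 10 * (M : ℝ) ^ (1 / 10 : ℝ) := by
  set u : ℝ := ((M + 1 : ℕ) : ℝ) with hu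
  have hu0 : 0 < u := by rw [hu]; positivity
  have hu1 : 1 ≤ u := by rw [hu]; exact_mod_cast Nat.le_add_left 1 M
  have hM : (M : ℝ) = u * (1 + -(1 / u)) := by
    rw [hu]
    push_cast
    field_simp
    ring
  have h1 : (1 + -(1 / u)) ^ (1 / 10 : ℝ) ≤ 1 + 1 / 10 * -(1 / u) := by
    refine _root_.rpow_one_add_le_one_add_mul_self ?_ (by norm_num) (by norm_num)
    have : 1 / u ≤ 1 := by
      rw [div_le_one hu0]
      exact hu1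
    linarith
  have h2 : 0 ≤ 1 + -(1 / u) := by
    have : 1 / u ≤ 1 := by
      rw [div_le_one hu0]
      exact hu1
    linarith
  rw [hM, Real.mul_rpow hu0.le h2]
  have h3 : 0 ≤ u ^ (1 / 10 : ℝ) := Real.rpow_nonneg hu0.le _
  have h4 : u ^ (-(9 / 10) : ℝ) = u ^ (1 / 10 : ℝ) * (1 / u) := by
    have : (-(9 / 10) : ℝ) = 1 / 10 - 1 := by norm_num
    rw [this, Real.rpow_sub hu0, Real.rpow_one]
    ring
  rw [h4]
  nlinarith [mul_le_mul_of_nonneg_left h1 h3]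

end DSumAux

open DSumAux

theorem zeta_part : ∃ C : ℝ, 1 ≤ C ∧ ∀ (y : ℝ) (s : ℂ), 1 ≤ y → 9 / 10 ≤ s.re → s.re ≤ 1 → s ≠ 1 →
    ‖∑ n ∈ Icc 1 ⌊y⌋₊, (n : ℂ) ^ (-s) - riemannZeta s - (y : ℂ) ^ (1 - s) / (1 - s)‖ ≤
      C * ‖s‖ * y ^ (-s.re) := by
  obtain ⟨C, hC, H⟩ := Pool.Agent.VK.approx
  refine ⟨2 * C + 3, by linarith, ?_⟩
  intro y s hy h1 h2 hs
  have hN : 1 ≤ ⌊y⌋₊ := (Nat.one_le_floor_iff _).2 hy
  have h3 := H 1 (fun _ => 1) ⌊y⌋₊ s (fun _ => by simp) hN (by linarith) hs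
  rw [ZMod.LFunction_modOne_eq] at h3
  have h4 := pole_diff hy (by linarith : 0 ≤ s.re) hs
  have h5 := floor_pow hy (by linarith : 0 ≤ s.re) h2
  have hs1 : (s - 1) ≠ 0 := sub_ne_zero.2 hs
  have hs2 : (1 - s) ≠ 0 := sub_ne_zero.2 (Ne.symm hs)
  have e1 : ∑ n ∈ Icc 1 ⌊y⌋₊, (n : ℂ) ^ (-s) - riemannZeta s - (y : ℂ) ^ (1 - s) / (1 - s) =
      -(1 * riemannZeta s - ∑ n ∈ Icc 1 ⌊y⌋₊, (fun _ : ZMod 1 => (1 : ℂ)) (n : ZMod 1) *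
        (n : ℂ) ^ (-s) - (∑ a : ZMod 1, (fun _ : ZMod 1 => (1 : ℂ)) a) / (1 : ℕ) *
          (((⌊y⌋₊ : ℕ) : ℂ) ^ (1 - s) / (s - 1))) -
      ((y : ℂ) ^ (1 - s) / (1 - s) - ((⌊y⌋₊ : ℕ) : ℂ) ^ (1 - s) / (1 - s)) := by
    have e2 : (∑ a : ZMod 1, (fun _ : ZMod 1 => (1 : ℂ)) a) = 1 := by simp
    rw [e2]
    have e3 : (((⌊y⌋₊ : ℕ) : ℂ) ^ (1 - s) / (s - 1)) = -(((⌊y⌋₊ : ℕ) : ℂ) ^ (1 - s) / (1 - s)) := by
      rw [← neg_sub s 1, div_neg, neg_neg]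
    rw [e3]
    simp only [one_mul, Nat.cast_one, div_one]
    ring
  rw [e1]
  have h6 : 9 / 10 ≤ ‖s‖ := h1.trans ((le_abs_self _).trans (Complex.abs_re_le_norm s))
  have h7 : 0 ≤ y ^ (-s.re) := Real.rpow_nonneg (by linarith) _
  have h8 : 0 ≤ ‖s‖ := norm_nonneg _
  have h9 : C * (1 : ℕ) * ‖s‖ * ((⌊y⌋₊ : ℕ) : ℝ) ^ (-s.re) ≤ C * ‖s‖ * (2 * y ^ (-s.re)) := by
    rw [Nat.cast_one, mul_one]
    exact mul_le_mul_of_nonneg_left h5 (mul_nonneg (by linarith) h8)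
  have h10 := norm_sub_le (-(1 * riemannZeta s - ∑ n ∈ Icc 1 ⌊y⌋₊,
      (fun _ : ZMod 1 => (1 : ℂ)) (n : ZMod 1) *
        (n : ℂ) ^ (-s) - (∑ a : ZMod 1, (fun _ : ZMod 1 => (1 : ℂ)) a) / (1 : ℕ) *
          (((⌊y⌋₊ : ℕ) : ℂ) ^ (1 - s) / (s - 1))))
      ((y : ℂ) ^ (1 - s) / (1 - s) - ((⌊y⌋₊ : ℕ) : ℂ) ^ (1 - s) / (1 - s))
  rw [norm_neg] at h10
  have h11 : y ^ (-s.re) * (9 / 10) ≤ y ^ (-s.re) * ‖s‖ := mul_le_mul_of_nonneg_left h6 h7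
  have h12 : C * (1 : ℕ) * ‖s‖ * ((⌊y⌋₊ : ℕ) : ℝ) ^ (-s.re) + ((⌊y⌋₊ : ℕ) : ℝ) ^ (-s.re) ≤
      (2 * C + 3) * ‖s‖ * y ^ (-s.re) := by
    nlinarith [h9, h5, h11]
  exact h10.trans ((add_le_add h3 h4).trans h12)

theorem chi_part : ∃ C : ℝ, 1 ≤ C ∧ ∀ (q : ℕ) [NeZero q] (χ : DirichletCharacter ℂ q) (y : ℝ)
    (s : ℂ), χ ≠ 1 → 1 ≤ y → 9 / 10 ≤ s.re → s.re ≤ 1 →
    ‖∑ n ∈ Icc 1 ⌊y⌋₊, χ (n : ZMod q) * (n : ℂ) ^ (-s) - DirichletCharacter.LFunction χ s‖ ≤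
      C * q * ‖s‖ * y ^ (-s.re) := by
  obtain ⟨C, hC, H⟩ := Pool.Agent.VK.approx
  refine ⟨2 * C, by linarith, ?_⟩
  intro q _ χ y s hχ hy h1 h2
  have key : ∀ s : ℂ, 9 / 10 ≤ s.re → s.re ≤ 1 → s ≠ 1 →
      ‖∑ n ∈ Icc 1 ⌊y⌋₊, χ (n : ZMod q) * (n : ℂ) ^ (-s) - DirichletCharacter.LFunction χ s‖ ≤
        2 * C * q * ‖s‖ * y ^ (-s.re) := by
    intro s h1 h2 hs
    have hN : 1 ≤ ⌊y⌋₊ := (Nat.one_le_floor_iff _).2 hy
    have h3 := H q (fun a => χ a) ⌊y⌋₊ s (fun a => DirichletCharacter.norm_le_one χ a) hN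
      (by linarith) hs
    have e0 : ∑ a : ZMod q, χ a = 0 := MulChar.sum_eq_zero_of_ne_one hχ
    rw [e0, zero_div, zero_mul, sub_zero] at h3
    have h5 := floor_pow hy (by linarith : 0 ≤ s.re) h2
    have h6 : 0 ≤ C * q * ‖s‖ := mul_nonneg (mul_nonneg (by linarith) (Nat.cast_nonneg q))
      (norm_nonneg s)
    rw [norm_sub_rev]
    calc _ ≤ C * q * ‖s‖ * ((⌊y⌋₊ : ℕ) : ℝ) ^ (-s.re) := h3
      _ ≤ C * q * ‖s‖ * (2 * y ^ (-s.re)) := mul_le_mul_of_nonneg_left h5 h6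
      _ = 2 * C * q * ‖s‖ * y ^ (-s.re) := by ring
  by_cases hs : s = 1
  · subst hs
    have hc : Filter.Tendsto (fun t : ℝ => (1 : ℂ) + t * Complex.I) (nhdsWithin 0 {0}ᶜ)
        (nhds 1) := by
      have hcont : Continuous fun t : ℝ => (1 : ℂ) + t * Complex.I := by fun_prop
      have h3 := hcont.tendsto 0
      simp only [Complex.ofReal_zero, zero_mul, add_zero] at h3
      exact h3.mono_left nhdsWithin_le_nhds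
    have hF : Filter.Tendsto (fun z : ℂ => ‖∑ n ∈ Icc 1 ⌊y⌋₊, χ (n : ZMod q) * (n : ℂ) ^ (-z) -
        DirichletCharacter.LFunction χ z‖) (nhds 1) (nhds ‖∑ n ∈ Icc 1 ⌊y⌋₊, χ (n : ZMod q) *
          (n : ℂ) ^ (-(1 : ℂ)) - DirichletCharacter.LFunction χ 1‖) := by
      refine (Filter.Tendsto.sub (tendsto_finsetSum _ fun n hn => ?_)
        ((DirichletCharacter.differentiable_LFunction hχ).continuous.tendsto 1)).norm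
      have hn0 : (n : ℂ) ≠ 0 := by
        have := (Finset.mem_Icc.1 hn).1
        exact_mod_cast (by omega : n ≠ 0)
      refine Filter.Tendsto.const_mul _ ?_
      have : Continuous fun z : ℂ => (n : ℂ) ^ (-z) :=
        continuous_neg.const_cpow (Or.inl hn0)
      exact this.tendsto 1
    have hG : Filter.Tendsto (fun z : ℂ => 2 * C * q * ‖z‖ * y ^ (-z.re)) (nhds 1)
        (nhds (2 * C * q * ‖(1 : ℂ)‖ * y ^ (-(1 : ℂ).re))) := by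
      have h3 : Continuous fun z : ℂ => 2 * C * q * ‖z‖ * y ^ (-z.re) := by
        refine Continuous.mul (by fun_prop) ?_
        exact Continuous.rpow continuous_const (Complex.continuous_re.neg)
          (fun z => Or.inl (by linarith : y ≠ 0))
      exact h3.tendsto 1
    refine le_of_tendsto_of_tendsto (hF.comp hc) (hG.comp hc) ?_
    filter_upwards [self_mem_nhdsWithin] with t ht
    refine key _ (by simp; norm_num) (by simp) ?_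
    intro h
    apply ht
    have h4 := congrArg Complex.im h
    simpa using h4
  · exact key s h1 h2 hs

theorem pow_sum (M : ℕ) (σ : ℝ) (hσ : 9 / 10 ≤ σ) :
    ∑ a ∈ Icc 1 M, (a : ℝ) ^ (-σ) ≤ 10 * (M : ℝ) ^ (1 / 10 : ℝ) := by
  have h1 : ∑ a ∈ Icc 1 M, (a : ℝ) ^ (-σ) ≤ ∑ a ∈ Icc 1 M, (a : ℝ) ^ (-(9 / 10) : ℝ) := by
    refine Finset.sum_le_sum fun a ha => ?_
    have ha1 : (1 : ℝ) ≤ a := by exact_mod_cast (Finset.mem_Icc.1 ha).1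
    exact Real.rpow_le_rpow_of_exponent_le ha1 (by linarith)
  refine h1.trans ?_
  clear h1
  induction M with
  | zero => simp
  | succ M ih =>
    rw [Finset.sum_Icc_succ_top (by omega)]
    have := step M
    linarith

end Pool.Agent.Lib.GMV
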