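import Pool.Agent.Lib.GMV.DDef
import Pool.Agent.Lib.GMV.DSum

/-!
# GMV.DLam (0.9 h): the function `lmb`

PROOF. `cv x n = x.2 n`, `(x.2 n)^2 = (x.2^2) n = 1 n ∈ {0, 1}` (`MulChar.pow_apply'`/`MulChar.one_apply`), so `cv x n ∈ {0, 1, -1}`.
`lam_nonneg`: `lmb x` is multiplicative (`n = ∏ p^k`; `n ↦ (cv x n).re` is completely multiplicative) and
`lmb x (p^k) = ∑_{j ≤ k} χ(p)^j ≥ 0`; e.g. `ArithmeticFunction` product `ζ * f`, `IsMultiplicative.mul`, induction
`Nat.recOnPosPrimePosCoprime`, or see `SW.exists_coeff_two`. `L1_eq`: by `chi_part` (with `s = 1`) the numbers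
`∑_{n ≤ N} χ(n)/n`, which are real, tend to `L(1,χ)`.
-/

set_option autoImplicit false

open Finset

namespace Pool.Agent.Lib.GMV

theorem cv_mul (x : CI) (a b : ℕ) : cv x (a * b) = cv x a * cv x b := by
  unfold cv
  push_cast
  exact map_mul _ _ _

theorem cv_one (x : CI) : cv x 1 = 1 := by
  unfold cv
  rw [Nat.cast_one]
  exact map_one _

namespace DLamAux

theorem cv_mem {x : CI} (h : Quad x) (n : ℕ) : cv x n = 0 ∨ cv x n = 1 ∨ cv x n = -1 :=
  MulChar.isQuadratic_iff_sq_eq_one.mpr h.2 (n : ZMod (x.1 + 1))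

/-- the real character as an arithmetic function -/
noncomputable def F (x : CI) : ArithmeticFunction ℝ :=
  ⟨fun n => if n = 0 then 0 else (cv x n).re, by simp⟩

theorem F_apply (x : CI) {n : ℕ} (hn : n ≠ 0) : F x n = (cv x n).re := by
  show (if n = 0 then 0 else (cv x n).re) = _
  rw [if_neg hn]

theorem lam_eq (x : CI) (n : ℕ) :
    lmb x n = ((ArithmeticFunction.zeta : ArithmeticFunction ℝ) * F x) n := by
  rw [ArithmeticFunction.coe_zeta_mul_apply]
  unfold lmb
  exact Finset.sum_congr rfl fun d hd => (F_apply x (Nat.pos_of_mem_divisors hd).ne').symm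

end DLamAux

open DLamAux

theorem cvre_mem {x : CI} (h : Quad x) (n : ℕ) :
    (cv x n).re = 0 ∨ (cv x n).re = 1 ∨ (cv x n).re = -1 := by
  rcases cv_mem h n with h1 | h1 | h1 <;> rw [h1] <;> simp

theorem cv_re {x : CI} (h : Quad x) (n : ℕ) : cv x n = ((cv x n).re : ℂ) := by
  rcases cv_mem h n with h1 | h1 | h1 <;> rw [h1] <;> simp

namespace DLamAux

theorem re_mul {x : CI} (h : Quad x) (a b : ℕ) :
    (cv x (a * b)).re = (cv x a).re * (cv x b).re := by
  have h1 := cv_mul x a b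
  rw [cv_re h a, cv_re h b, ← Complex.ofReal_mul] at h1
  rw [h1, Complex.ofReal_re]

theorem re_pow {x : CI} (h : Quad x) (p j : ℕ) : (cv x (p ^ j)).re = (cv x p).re ^ j := by
  induction j with
  | zero => rw [pow_zero, pow_zero, cv_one, Complex.one_re]
  | succ j ih => rw [pow_succ, re_mul h, ih, pow_succ]

theorem F_mult {x : CI} (h : Quad x) : (F x).IsMultiplicative := by
  refine ArithmeticFunction.IsMultiplicative.iff_ne_zero.2 ⟨?_, fun {m n} hm hn _ => ?_⟩
  · rw [F_apply x one_ne_zero, cv_one, Complex.one_re]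
  · rw [F_apply x (mul_ne_zero hm hn), F_apply x hm, F_apply x hn, re_mul h]

theorem lam_pow_nonneg {x : CI} (h : Quad x) {p : ℕ} (hp : p.Prime) (k : ℕ) :
    0 ≤ ((ArithmeticFunction.zeta : ArithmeticFunction ℝ) * F x) (p ^ k) := by
  rw [ArithmeticFunction.coe_zeta_mul_apply, Nat.sum_divisors_prime_pow hp]
  have h1 : ∑ j ∈ range (k + 1), F x (p ^ j) = ∑ j ∈ range (k + 1), (cv x p).re ^ j :=
    Finset.sum_congr rfl fun j _ => by
      rw [F_apply x (pow_ne_zero _ hp.ne_zero), re_pow h]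
  rw [h1]
  rcases cvre_mem h p with h2 | h2 | h2
  · rw [h2]
    exact Finset.sum_nonneg fun j _ => pow_nonneg le_rfl j
  · rw [h2]
    exact Finset.sum_nonneg fun j _ => pow_nonneg zero_le_one j
  · rw [h2, neg_one_geom_sum]
    split_ifs <;> norm_num

end DLamAux

theorem lam_nonneg {x : CI} (h : Quad x) (n : ℕ) : 0 ≤ lmb x n := by
  rcases eq_or_ne n 0 with rfl | hn
  · simp [lmb]
  rw [lam_eq]
  have hm : ((ArithmeticFunction.zeta : ArithmeticFunction ℝ) * F x).IsMultiplicative :=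
    ArithmeticFunction.isMultiplicative_zeta.natCast.mul (F_mult h)
  rw [hm.multiplicative_factorization _ hn]
  refine Finset.prod_nonneg fun p hp => ?_
  exact lam_pow_nonneg h (Nat.prime_of_mem_primeFactors (Nat.support_factorization n ▸ hp)) _

theorem lam_one (x : CI) : lmb x 1 = 1 := by
  unfold lmb
  rw [Nat.divisors_one, Finset.sum_singleton, cv_one, Complex.one_re]

theorem cm_one_cv {x : CI} (h : Quad x) (n : ℕ) : cm (fun _ => 1) (cv x) n = (lmb x n : ℂ) := by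
  unfold cm lmb
  rw [Complex.ofReal_sum]
  exact Finset.sum_congr rfl fun d _ => by rw [one_mul, ← cv_re h d]

theorem cm_cv_cv {x : CI} (h : Quad x) (y : CI) (n : ℕ) :
    cm (cv y) (fun n => cv y n * cv x n) n = cv y n * (lmb x n : ℂ) := by
  unfold cm lmb
  rw [Complex.ofReal_sum, Finset.mul_sum]
  refine Finset.sum_congr rfl fun d hd => ?_
  rw [← cv_re h d, ← mul_assoc, ← cv_mul, Nat.div_mul_cancel (Nat.dvd_of_mem_divisors hd)]

theorem L1_eq {x : CI} (h : Quad x) : DirichletCharacter.LFunction x.2 1 = (L1 x : ℂ) := by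
  obtain ⟨C, hC, hchi⟩ := chi_part
  set z : ℂ := DirichletCharacter.LFunction x.2 1 with hz
  have hreal : ∀ y : ℝ, (∑ n ∈ Icc 1 ⌊y⌋₊, x.2 (n : ZMod (x.1 + 1)) * (n : ℂ) ^ (-(1 : ℂ))).im = 0 := by
    intro y
    rw [Complex.im_sum]
    refine Finset.sum_eq_zero fun n _ => ?_
    have h1 : x.2 (n : ZMod (x.1 + 1)) = ((cv x n).re : ℂ) := cv_re h n
    have h2 : (n : ℂ) ^ (-(1 : ℂ)) = (((n : ℝ)⁻¹ : ℝ) : ℂ) := by
      rw [Complex.cpow_neg_one]
      push_cast
      rfl
    rw [h1, h2, ← Complex.ofReal_mul, Complex.ofReal_im]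
  have hb : ∀ y : ℝ, 1 ≤ y → |z.im| * y ≤ C * ((x.1 + 1 : ℕ) : ℝ) := by
    intro y hy
    have h1 := hchi (x.1 + 1) x.2 y 1 h.1 hy (by norm_num) (by norm_num)
    have h2 := (Complex.abs_im_le_norm _).trans h1
    rw [Complex.sub_im, hreal y, zero_sub, abs_neg, norm_one, mul_one, Complex.one_re,
      Real.rpow_neg_one] at h2
    have hy0 : 0 < y := lt_of_lt_of_le one_pos hy
    have h3 := mul_le_mul_of_nonneg_right h2 hy0.le
    rwa [mul_assoc (C * ((x.1 + 1 : ℕ) : ℝ)), inv_mul_cancel₀ hy0.ne', mul_one] at h3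
  have him : z.im = 0 := by
    by_contra hne
    have h0 : 0 < |z.im| := abs_pos.2 hne
    have h1 := hb (max 1 ((C * ((x.1 + 1 : ℕ) : ℝ) + 1) / |z.im|)) (le_max_left _ _)
    have h2 : |z.im| * ((C * ((x.1 + 1 : ℕ) : ℝ) + 1) / |z.im|) ≤
        |z.im| * max 1 ((C * ((x.1 + 1 : ℕ) : ℝ) + 1) / |z.im|) :=
      mul_le_mul_of_nonneg_left (le_max_right _ _) h0.le
    rw [mul_div_cancel₀ _ h0.ne'] at h2
    linarith
  apply Complex.ext
  · show z.re = ((L1 x : ℝ) : ℂ).re
    rw [Complex.ofReal_re]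
    rfl
  · rw [him, Complex.ofReal_im]

end Pool.Agent.Lib.GMV
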