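import Pool.Agent.Lib.GMV.DSum
import Pool.Agent.Lib.GMV.DHyp

/-!
# GMV.DNon (1.2 h): `∑_{n ≤ y} (χ1 * χ2)(n) n^(-s)` at a zero `s` of `L(s, χ1)`, both nonprincipal

PROOF. `cm_twist`, `hyp` with `u a = χ1(a) a^(-s)`, `v b = χ2(b) b^(-s)`, `M = ⌊√y⌋₊`, `√y/2 ≤ M ≤ √y`, `σ = Re s`. Let
`U(t) = ∑_{a ≤ t} u a`, `V(t)` similarly; `chi_part`: `U(t) = 0 + O(K1 t^(-σ))`, `V(t) = B + O(K2 t^(-σ))` for real `t ≥ 1`, `Ki = C qi |s|`,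
First sum: `|∑_{b ≤ M} v(b) U(y/b)| ≤ ∑ b^(-σ) K1 (y/b)^(-σ) = K1 M y^(-σ) ≤ K1 y^(-2/5)`. Second: `y/a ≥ √y ≥ M` for `a ≤ M`, so
`|V(y/a) - V(M)| ≤ 2 K2 M^(-σ)` and `∑_{a ≤ M} a^(-σ) ≤ 10 M^(1/10)` (`pow_sum`): `≤ 20 K2 M^(-4/5) ≤ 40 K2 y^(-2/5)`. `|s| ≤ 2 |s|^2`.
-/

set_option autoImplicit false

open Finset

namespace Pool.Agent.Lib.GMV

namespace DNonAux

/-- norm of a term -/
theorem norm_term {q : ℕ} [NeZero q] (χ : DirichletCharacter ℂ q) (s : ℂ) {n : ℕ} (hn : 1 ≤ n) :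
    ‖χ (n : ZMod q) * (n : ℂ) ^ (-s)‖ ≤ (n : ℝ) ^ (-s.re) := by
  rw [norm_mul, Complex.norm_natCast_cpow_of_pos hn, Complex.neg_re]
  have h := DirichletCharacter.norm_le_one χ (n : ZMod q)
  exact mul_le_of_le_one_left (Real.rpow_nonneg (Nat.cast_nonneg _) _) h

/-- the first sum of the hyperbola formula -/
theorem first {v U : ℕ → ℂ} {y σ K : ℝ} (hy : 1 ≤ y) (hσ : 9 / 10 ≤ σ) (hK : 0 ≤ K)
    (hv : ∀ b : ℕ, 1 ≤ b → ‖v b‖ ≤ (b : ℝ) ^ (-σ))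
    (hU : ∀ b : ℕ, 1 ≤ b → (b : ℝ) ≤ y → ‖U b‖ ≤ K * (y / b) ^ (-σ)) :
    ‖∑ b ∈ Icc 1 ⌊Real.sqrt y⌋₊, v b * U b‖ ≤ K * y ^ (-(2 / 5) : ℝ) := by
  have hy0 : 0 < y := by linarith
  have hs1 : 1 ≤ Real.sqrt y := Real.one_le_sqrt.2 hy
  have hsy : Real.sqrt y ≤ y := by
    have h1 : Real.sqrt y * Real.sqrt y = y := Real.mul_self_sqrt hy0.le
    nlinarith
  calc ‖∑ b ∈ Icc 1 ⌊Real.sqrt y⌋₊, v b * U b‖ ≤ ∑ b ∈ Icc 1 ⌊Real.sqrt y⌋₊, ‖v b * U b‖ :=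
        norm_sum_le _ _
    _ ≤ ∑ b ∈ Icc 1 ⌊Real.sqrt y⌋₊, K * y ^ (-σ) := by
        refine Finset.sum_le_sum fun b hb => ?_
        rw [mem_Icc] at hb
        have hb0 : (0 : ℝ) < b := by exact_mod_cast hb.1
        have hbs : (b : ℝ) ≤ Real.sqrt y := by
          have h1 := Nat.floor_le (Real.sqrt_nonneg y)
          have h2 : (b : ℝ) ≤ (⌊Real.sqrt y⌋₊ : ℝ) := by exact_mod_cast hb.2
          linarith
        rw [norm_mul]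
        calc ‖v b‖ * ‖U b‖ ≤ (b : ℝ) ^ (-σ) * (K * (y / b) ^ (-σ)) :=
              mul_le_mul (hv b hb.1) (hU b hb.1 (hbs.trans hsy)) (norm_nonneg _)
                (Real.rpow_nonneg hb0.le _)
          _ = K * ((b : ℝ) ^ (-σ) * (y / b) ^ (-σ)) := by ring
          _ = K * y ^ (-σ) := by
              rw [← Real.mul_rpow hb0.le (by positivity), mul_div_cancel₀ _ hb0.ne']
    _ = K * (⌊Real.sqrt y⌋₊ * y ^ (-σ)) := by
        rw [Finset.sum_const, Nat.card_Icc, Nat.add_sub_cancel, nsmul_eq_mul]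
        ring
    _ ≤ K * y ^ (-(2 / 5) : ℝ) := by
        refine mul_le_mul_of_nonneg_left ?_ hK
        calc (⌊Real.sqrt y⌋₊ : ℝ) * y ^ (-σ) ≤ Real.sqrt y * y ^ (-σ) :=
              mul_le_mul_of_nonneg_right (Nat.floor_le (Real.sqrt_nonneg y))
                (Real.rpow_nonneg hy0.le _)
          _ = y ^ (1 / 2 + -σ) := by rw [Real.sqrt_eq_rpow, ← Real.rpow_add hy0]
          _ ≤ y ^ (-(2 / 5) : ℝ) := Real.rpow_le_rpow_of_exponent_le hy (by linarith)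

/-- the second sum of the hyperbola formula -/
theorem second {u V : ℕ → ℂ} {B V0 : ℂ} {y σ K : ℝ} (hy : 1 ≤ y) (hσ : 9 / 10 ≤ σ) (hK : 0 ≤ K)
    (hu : ∀ a : ℕ, 1 ≤ a → ‖u a‖ ≤ (a : ℝ) ^ (-σ))
    (hV : ∀ a : ℕ, 1 ≤ a → (a : ℝ) ≤ y → ‖V a - B‖ ≤ K * (y / a) ^ (-σ))
    (hV0 : ‖V0 - B‖ ≤ K * (Real.sqrt y) ^ (-σ)) :
    ‖∑ a ∈ Icc 1 ⌊Real.sqrt y⌋₊, u a * (V a - V0)‖ ≤ 20 * K * y ^ (-(2 / 5) : ℝ) := by
  have hy0 : 0 < y := by linarith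
  have hs1 : 1 ≤ Real.sqrt y := Real.one_le_sqrt.2 hy
  have hss : Real.sqrt y * Real.sqrt y = y := Real.mul_self_sqrt hy0.le
  have hs0 : 0 < Real.sqrt y := by linarith
  have hsy : Real.sqrt y ≤ y := by nlinarith
  calc ‖∑ a ∈ Icc 1 ⌊Real.sqrt y⌋₊, u a * (V a - V0)‖ ≤
        ∑ a ∈ Icc 1 ⌊Real.sqrt y⌋₊, ‖u a * (V a - V0)‖ := norm_sum_le _ _
    _ ≤ ∑ a ∈ Icc 1 ⌊Real.sqrt y⌋₊, (a : ℝ) ^ (-σ) * (2 * K * (Real.sqrt y) ^ (-σ)) := by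
        refine Finset.sum_le_sum fun a ha => ?_
        rw [mem_Icc] at ha
        have ha0 : (0 : ℝ) < a := by exact_mod_cast ha.1
        have has : (a : ℝ) ≤ Real.sqrt y := by
          have h1 := Nat.floor_le (Real.sqrt_nonneg y)
          have h2 : (a : ℝ) ≤ (⌊Real.sqrt y⌋₊ : ℝ) := by exact_mod_cast ha.2
          linarith
        rw [norm_mul]
        refine mul_le_mul (hu a ha.1) ?_ (norm_nonneg _) (Real.rpow_nonneg ha0.le _)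
        have h1 : V a - V0 = (V a - B) - (V0 - B) := by ring
        have h2 : (y / a) ^ (-σ) ≤ (Real.sqrt y) ^ (-σ) := by
          refine Real.rpow_le_rpow_of_nonpos hs0 ?_ (by linarith)
          rw [le_div_iff₀ ha0]
          calc Real.sqrt y * a ≤ Real.sqrt y * Real.sqrt y :=
                mul_le_mul_of_nonneg_left has hs0.le
            _ = y := hss
        calc ‖V a - V0‖ ≤ ‖V a - B‖ + ‖V0 - B‖ := by
              rw [h1]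
              exact norm_sub_le _ _
          _ ≤ K * (y / a) ^ (-σ) + K * (Real.sqrt y) ^ (-σ) :=
              add_le_add (hV a ha.1 (has.trans hsy)) hV0
          _ ≤ K * (Real.sqrt y) ^ (-σ) + K * (Real.sqrt y) ^ (-σ) :=
              add_le_add (mul_le_mul_of_nonneg_left h2 hK) le_rfl
          _ = 2 * K * (Real.sqrt y) ^ (-σ) := by ring
    _ = (∑ a ∈ Icc 1 ⌊Real.sqrt y⌋₊, (a : ℝ) ^ (-σ)) * (2 * K * (Real.sqrt y) ^ (-σ)) := by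
        rw [Finset.sum_mul]
    _ ≤ (10 * (Real.sqrt y) ^ (1 / 10 : ℝ)) * (2 * K * (Real.sqrt y) ^ (-σ)) := by
        refine mul_le_mul_of_nonneg_right ?_ (by positivity)
        refine (pow_sum ⌊Real.sqrt y⌋₊ σ hσ).trans ?_
        refine mul_le_mul_of_nonneg_left ?_ (by norm_num)
        exact Real.rpow_le_rpow (Nat.cast_nonneg _) (Nat.floor_le hs0.le) (by norm_num)
    _ = 20 * K * ((Real.sqrt y) ^ (1 / 10 + -σ)) := by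
        rw [Real.rpow_add hs0]
        ring
    _ ≤ 20 * K * y ^ (-(2 / 5) : ℝ) := by
        refine mul_le_mul_of_nonneg_left ?_ (by positivity)
        rw [Real.sqrt_eq_rpow, ← Real.rpow_mul hy0.le]
        exact Real.rpow_le_rpow_of_exponent_le hy (by linarith)

end DNonAux

open DNonAux

theorem non_sum : ∃ C : ℝ, 1 ≤ C ∧ ∀ (q1 q2 : ℕ) [NeZero q1] [NeZero q2]
    (χ1 : DirichletCharacter ℂ q1) (χ2 : DirichletCharacter ℂ q2) (s : ℂ) (y : ℝ),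
    χ1 ≠ 1 → χ2 ≠ 1 → 9 / 10 ≤ s.re → s.re ≤ 1 → 1 ≤ y → DirichletCharacter.LFunction χ1 s = 0 →
    ‖∑ n ∈ Icc 1 ⌊y⌋₊, cm (fun n => χ1 (n : ZMod q1)) (fun n => χ2 (n : ZMod q2)) n *
      (n : ℂ) ^ (-s)‖ ≤ C * ((q1 : ℝ) * q2) * ‖s‖ ^ 2 * y ^ (-(2 / 5) : ℝ) := by
  obtain ⟨C, hC1, hC⟩ := chi_part
  refine ⟨42 * C, by linarith, ?_⟩
  intro q1 q2 _ _ χ1 χ2 s y hχ1 hχ2 hs1 hs2 hy hL
  have hy0 : 0 < y := by linarith
  have hsq : 1 ≤ Real.sqrt y := Real.one_le_sqrt.2 hy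
  have hq1 : (1 : ℝ) ≤ q1 := by exact_mod_cast NeZero.one_le
  have hq2 : (1 : ℝ) ≤ q2 := by exact_mod_cast NeZero.one_le
  have hsn : 9 / 10 ≤ ‖s‖ := hs1.trans ((le_abs_self _).trans (Complex.abs_re_le_norm s))
  have hdiv : ∀ b : ℕ, 1 ≤ b → (b : ℝ) ≤ y → 1 ≤ y / b := by
    intro b hb hby
    have hb0 : (0 : ℝ) < b := by exact_mod_cast hb
    rw [le_div_iff₀ hb0]
    linarith
  have e : ∑ n ∈ Icc 1 ⌊y⌋₊, cm (fun n => χ1 (n : ZMod q1)) (fun n => χ2 (n : ZMod q2)) n *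
      (n : ℂ) ^ (-s) = ∑ n ∈ Icc 1 ⌊y⌋₊,
        cm (fun a => χ1 (a : ZMod q1) * (a : ℂ) ^ (-s)) (fun b => χ2 (b : ZMod q2) * (b : ℂ) ^ (-s))
          n :=
    Finset.sum_congr rfl fun n _ => cm_twist _ _ s n
  rw [e, hyp _ _ y hy]
  refine (norm_add_le _ _).trans ?_
  have h1 := first (y := y) (σ := s.re) (K := C * q1 * ‖s‖)
    (v := fun b => χ2 (b : ZMod q2) * (b : ℂ) ^ (-s))
    (U := fun b => ∑ a ∈ Icc 1 ⌊y / b⌋₊, χ1 (a : ZMod q1) * (a : ℂ) ^ (-s)) hy hs1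
    (by positivity) (fun b hb => norm_term χ2 s hb) (fun b hb hby => by
      have h := hC q1 χ1 (y / b) s hχ1 (hdiv b hb hby) hs1 hs2
      rwa [hL, sub_zero] at h)
  have h2 := second (y := y) (σ := s.re) (K := C * q2 * ‖s‖)
    (B := DirichletCharacter.LFunction χ2 s)
    (V0 := ∑ b ∈ Icc 1 ⌊Real.sqrt y⌋₊, χ2 (b : ZMod q2) * (b : ℂ) ^ (-s))
    (u := fun b => χ1 (b : ZMod q1) * (b : ℂ) ^ (-s))
    (V := fun b => ∑ a ∈ Icc 1 ⌊y / b⌋₊, χ2 (a : ZMod q2) * (a : ℂ) ^ (-s)) hy hs1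
    (by positivity) (fun b hb => norm_term χ1 s hb)
    (fun b hb hby => hC q2 χ2 (y / b) s hχ2 (hdiv b hb hby) hs1 hs2)
    (hC q2 χ2 (Real.sqrt y) s hχ2 hsq hs1 hs2)
  refine (add_le_add h1 h2).trans ?_
  have hr : 0 ≤ y ^ (-(2 / 5) : ℝ) := Real.rpow_nonneg hy0.le _
  rw [← add_mul]
  refine mul_le_mul_of_nonneg_right ?_ hr
  have hq : (q1 : ℝ) + 20 * q2 ≤ 21 * (q1 * q2) := by nlinarith
  have hs3 : ‖s‖ ≤ 2 * ‖s‖ ^ 2 := by nlinarith [norm_nonneg s]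
  calc C * q1 * ‖s‖ + 20 * (C * q2 * ‖s‖) = C * (((q1 : ℝ) + 20 * q2) * ‖s‖) := by ring
    _ ≤ C * ((21 * (q1 * q2)) * (2 * ‖s‖ ^ 2)) :=
        mul_le_mul_of_nonneg_left (mul_le_mul hq hs3 (norm_nonneg _) (by positivity))
          (by linarith)
    _ = 42 * C * (q1 * q2) * ‖s‖ ^ 2 := by ring

end Pool.Agent.Lib.GMV
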