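import Pool.Agent.Lib.GMV.DSum
import Pool.Agent.Lib.GMV.DHyp

/-!
# GMV.DPri (1.5 h): `∑_{n ≤ y} (1 * χ)(n) n^(-s)` at a zero `s` of `ζ(s) L(s, χ)`

PROOF. `cm_twist`, `hyp` with `u a = a^(-s)`, `v b = χ(b) b^(-s)`, `M = ⌊√y⌋₊`, `√y/2 ≤ M ≤ √y`, `σ = Re s`. Let
`U(t) = ∑_{a ≤ t} u a = ζ(s) + t^(1-s)/(1-s) + O(C |s| t^(-σ))` (`zeta_part`), `V(t) = B + O(K t^(-σ))`, `B = L(s,χ)`, `K = C q |s|`
(`chi_part`). First sum: `∑_{b ≤ M} v(b) U(y/b) = ζ(s) V(M) + y^(1-s)/(1-s) ∑_{b ≤ M} χ(b)/b + O(C |s| M y^(-σ))`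
(`b^(-s) (y/b)^(1-s) = y^(1-s)/b`); `ζ(s) V(M) = ζ(s) B + O(|ζ(s)| K M^(-σ))` with `ζ(s) B = 0`, `|ζ(s)| ≤ 1 + 1/|1-s| + C |s|` (`zeta_part`, `y = 1`),
`M^(-σ) ≤ 2 y^(-9/20)`; `∑_{b ≤ M} χ(b)/b = L(1,χ) + O(C q/M)` (`chi_part`, `s = 1`), `|y^(1-s)| ≤ y^(1/10)`, so this error is
`≤ 2 C q y^(-2/5)/|1-s|`. Second sum: `y/a ≥ √y ≥ M`: `|V(y/a) - V(M)| ≤ 2 K M^(-σ)`, `∑_{a ≤ M} a^(-σ) ≤ 10 M^(1/10)`:
`≤ 20 K M^(-4/5) ≤ 40 K y^(-2/5)`. `|s| ≥ 9/10`.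
-/

set_option autoImplicit false

open Finset

namespace Pool.Agent.Lib.GMV

namespace DPriAux

/-- `y^(-a) ≤ y^(-(2/5))` for `a ≥ 2/5`. -/
lemma rp {y a : ℝ} (hy : 1 ≤ y) (ha : 2 / 5 ≤ a) : y ^ (-a) ≤ y ^ (-(2 / 5) : ℝ) :=
  Real.rpow_le_rpow_of_exponent_le hy (by linarith)

lemma norm_pow {n : ℕ} (hn : 1 ≤ n) (s : ℂ) : ‖(n : ℂ) ^ (-s)‖ = (n : ℝ) ^ (-s.re) := by
  rw [Complex.norm_natCast_cpow_of_pos hn, Complex.neg_re]

/-- The main term of one row. -/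
lemma main_row {y : ℝ} (hy : 0 < y) {b : ℕ} (hb : 1 ≤ b) (s : ℂ) :
    (b : ℂ) ^ (-s) * (((y / b : ℝ) : ℂ) ^ (1 - s)) = (y : ℂ) ^ (1 - s) * (b : ℂ) ^ (-1 : ℂ) := by
  have hb0 : (0 : ℝ) < b := by exact_mod_cast hb
  have hbC : (b : ℂ) ≠ 0 := by exact_mod_cast hb0.ne'
  have h1 : (y : ℂ) = ((y / b : ℝ) : ℂ) * ((b : ℝ) : ℂ) := by
    rw [← Complex.ofReal_mul, div_mul_cancel₀ _ hb0.ne']
  have h2 : (y : ℂ) ^ (1 - s) = ((y / b : ℝ) : ℂ) ^ (1 - s) * ((b : ℝ) : ℂ) ^ (1 - s) := by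
    conv_lhs => rw [h1]
    exact Complex.mul_cpow_ofReal_nonneg (by positivity) hb0.le _
  have h3 : (b : ℂ) ^ (1 - s) * (b : ℂ) ^ (-1 : ℂ) = (b : ℂ) ^ (-s) := by
    rw [← Complex.cpow_add _ _ hbC]
    congr 1
    ring
  rw [h2, Complex.ofReal_natCast, mul_assoc, h3]
  ring

end DPriAux

theorem pri_sum : ∃ C : ℝ, 1 ≤ C ∧ ∀ (q : ℕ) [NeZero q] (χ : DirichletCharacter ℂ q) (s : ℂ)
    (y : ℝ), χ ≠ 1 → 9 / 10 ≤ s.re → s.re ≤ 1 → s ≠ 1 → 1 ≤ y →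
    (riemannZeta s = 0 ∨ DirichletCharacter.LFunction χ s = 0) →
    ‖∑ n ∈ Icc 1 ⌊y⌋₊, cm (fun _ => 1) (fun n => χ (n : ZMod q)) n * (n : ℂ) ^ (-s) -
      DirichletCharacter.LFunction χ 1 * ((y : ℂ) ^ (1 - s) / (1 - s))‖ ≤
      C * q * ‖s‖ ^ 2 * (1 + 1 / ‖1 - s‖) * y ^ (-(2 / 5) : ℝ) := by
  obtain ⟨C1, hC1, hz⟩ := zeta_part
  obtain ⟨C2, hC2, hc⟩ := chi_part
  refine ⟨2 * C1 + (2 + C1) * C2 + 25 * C2, by nlinarith, ?_⟩
  intro q _ χ s y hχ hs hs1 hsne hy hzero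
  have hy0 : 0 < y := by linarith
  have hq : (1 : ℝ) ≤ q := by
    exact_mod_cast Nat.one_le_iff_ne_zero.mpr (NeZero.ne q)
  set Y := y ^ (-(2 / 5) : ℝ) with hY
  have hY0 : 0 < Y := Real.rpow_pos_of_pos hy0 _
  set N := ‖s‖ with hN
  have hNs : 9 / 10 ≤ N := hs.trans (Complex.re_le_norm s)
  have hN0 : 0 < N := by linarith
  have h1s : 0 < ‖1 - s‖ := norm_pos_iff.mpr (sub_ne_zero.mpr (Ne.symm hsne))
  set A := 1 + 1 / ‖1 - s‖ with hA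
  have hA1 : 1 ≤ A := by
    rw [hA]
    have : 0 ≤ 1 / ‖1 - s‖ := by positivity
    linarith
  have hAi : 1 / ‖1 - s‖ ≤ A := by
    rw [hA]
    linarith
  set r := Real.sqrt y with hr
  have hr1 : 1 ≤ r := by
    rw [hr]
    exact Real.one_le_sqrt.mpr hy
  have hr0 : 0 < r := by linarith
  have hrr : r * r = y := Real.mul_self_sqrt hy0.le
  set M := ⌊r⌋₊ with hM
  have hMr : (M : ℝ) ≤ r := Nat.floor_le hr0.le
  have hrpow : ∀ a : ℝ, r ^ a = y ^ (a / 2) := by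
    intro a
    rw [hr, Real.sqrt_eq_rpow, ← Real.rpow_mul hy0.le]
    congr 1
    ring
  -- the two auxiliary functions
  set L := DirichletCharacter.LFunction χ s with hL
  set Z := riemannZeta s with hZ
  have hZL : Z * L = 0 := by
    rcases hzero with h | h
    · rw [h, zero_mul]
    · rw [h, mul_zero]
  have hZn : ‖Z‖ ≤ (2 + C1) * N * A := by
    have h := hz 1 s le_rfl hs hs1 hsne
    have e1 : ∑ n ∈ Icc 1 ⌊(1 : ℝ)⌋₊, (n : ℂ) ^ (-s) = 1 := by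
      rw [Nat.floor_one]
      simp
    rw [e1] at h
    simp only [Complex.ofReal_one, Complex.one_cpow, Real.one_rpow, mul_one] at h
    have h2 : ‖Z‖ ≤ ‖(1 : ℂ) - Z - 1 / (1 - s)‖ + ‖(1 : ℂ)‖ + ‖1 / (1 - s)‖ := by
      have e : Z = -((1 : ℂ) - Z - 1 / (1 - s)) + 1 - 1 / (1 - s) := by ring
      calc ‖Z‖ = ‖-((1 : ℂ) - Z - 1 / (1 - s)) + 1 - 1 / (1 - s)‖ := by rw [← e]
        _ ≤ ‖-((1 : ℂ) - Z - 1 / (1 - s)) + 1‖ + ‖1 / (1 - s)‖ := norm_sub_le _ _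
        _ ≤ ‖-((1 : ℂ) - Z - 1 / (1 - s))‖ + ‖(1 : ℂ)‖ + ‖1 / (1 - s)‖ := by
            gcongr
            exact norm_add_le _ _
        _ = _ := by rw [norm_neg]
    rw [norm_one, norm_div, norm_one] at h2
    have h3 : ‖Z‖ ≤ C1 * N + A := by
      rw [hA]
      linarith
    have h4 : A ≤ 2 * N * A := by nlinarith
    have h5 : C1 * N ≤ C1 * N * A := by
      have : 0 ≤ C1 * N := by positivity
      nlinarith
    calc ‖Z‖ ≤ C1 * N + A := h3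
      _ ≤ C1 * N * A + 2 * N * A := by linarith
      _ = (2 + C1) * N * A := by ring
  set u : ℕ → ℂ := fun a => (fun _ => (1 : ℂ)) a * (a : ℂ) ^ (-s) with hu
  set v : ℕ → ℂ := fun b => (fun n : ℕ => χ (n : ZMod q)) b * (b : ℂ) ^ (-s) with hv
  have hvn : ∀ b : ℕ, 1 ≤ b → ‖v b‖ ≤ (b : ℝ) ^ (-s.re) := by
    intro b hb
    simp only [hv]
    rw [norm_mul, DPriAux.norm_pow hb]
    have h1 : ‖χ (b : ZMod q)‖ ≤ 1 := χ.norm_le_one _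
    have h2 : 0 ≤ (b : ℝ) ^ (-s.re) := by positivity
    nlinarith
  have hun : ∀ a : ℕ, 1 ≤ a → ‖u a‖ = (a : ℝ) ^ (-s.re) := by
    intro a ha
    simp only [hu]
    rw [one_mul, DPriAux.norm_pow ha]
  have hU : ∀ t : ℝ, 1 ≤ t → ‖∑ a ∈ Icc 1 ⌊t⌋₊, u a - Z - (t : ℂ) ^ (1 - s) / (1 - s)‖ ≤
      C1 * N * t ^ (-s.re) := by
    intro t ht
    have h := hz t s ht hs hs1 hsne
    simp only [hu, one_mul]
    exact h
  have hV : ∀ t : ℝ, 1 ≤ t → ‖∑ b ∈ Icc 1 ⌊t⌋₊, v b - L‖ ≤ C2 * q * N * t ^ (-s.re) :=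
    fun t ht => hc q χ t s hχ ht hs hs1
  have hV1 : ‖∑ b ∈ Icc 1 M, χ (b : ZMod q) * (b : ℂ) ^ (-1 : ℂ) -
      DirichletCharacter.LFunction χ 1‖ ≤ C2 * q * r ^ (-1 : ℝ) := by
    have h := hc q χ r 1 hχ hr1 (by norm_num) (by norm_num)
    simpa using h
  -- the decomposition
  have e0 : ∑ n ∈ Icc 1 ⌊y⌋₊, cm (fun _ => 1) (fun n => χ (n : ZMod q)) n * (n : ℂ) ^ (-s) =
      ∑ b ∈ Icc 1 M, v b * ∑ a ∈ Icc 1 ⌊y / b⌋₊, u a +
      ∑ a ∈ Icc 1 M, u a * (∑ b ∈ Icc 1 ⌊y / a⌋₊, v b - ∑ b ∈ Icc 1 M, v b) := by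
    rw [← hyp u v y hy]
    exact Finset.sum_congr rfl fun n _ => cm_twist _ _ s n
  set VM := ∑ b ∈ Icc 1 M, v b with hVM
  set P := (y : ℂ) ^ (1 - s) / (1 - s) with hP
  -- first sum
  have e1 : ∑ b ∈ Icc 1 M, v b * ∑ a ∈ Icc 1 ⌊y / b⌋₊, u a =
      VM * Z + P * ∑ b ∈ Icc 1 M, χ (b : ZMod q) * (b : ℂ) ^ (-1 : ℂ) +
      ∑ b ∈ Icc 1 M, v b * (∑ a ∈ Icc 1 ⌊y / b⌋₊, u a - Z -
        ((y / b : ℝ) : ℂ) ^ (1 - s) / (1 - s)) := by
    rw [hVM, Finset.sum_mul, Finset.mul_sum, ← Finset.sum_add_distrib, ← Finset.sum_add_distrib]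
    refine Finset.sum_congr rfl fun b hb => ?_
    have h := DPriAux.main_row hy0 (Finset.mem_Icc.mp hb).1 s
    have h2 : P * (χ (b : ZMod q) * (b : ℂ) ^ (-1 : ℂ)) =
        v b * (((y / b : ℝ) : ℂ) ^ (1 - s) / (1 - s)) := by
      simp only [hP, hv]
      have e : (y : ℂ) ^ (1 - s) / (1 - s) * (χ (b : ZMod q) * (b : ℂ) ^ (-1 : ℂ)) =
          χ (b : ZMod q) / (1 - s) * ((y : ℂ) ^ (1 - s) * (b : ℂ) ^ (-1 : ℂ)) := by ring
      rw [e, ← h]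
      ring
    rw [h2]
    ring
  have b1 : ‖VM * Z‖ ≤ (2 + C1) * C2 * (q * N ^ 2 * A * Y) := by
    have h1 : VM * Z = (VM - L) * Z := by
      rw [sub_mul, mul_comm L Z, hZL, sub_zero]
    rw [h1, norm_mul]
    have h2 := hV r hr1
    rw [← hM, ← hVM] at h2
    have h3 : r ^ (-s.re) ≤ Y := by
      rw [hrpow, neg_div]
      exact DPriAux.rp hy (by linarith)
    have h4 : ‖VM - L‖ ≤ C2 * q * N * Y :=
      h2.trans (mul_le_mul_of_nonneg_left h3 (by positivity))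
    calc ‖VM - L‖ * ‖Z‖ ≤ (C2 * q * N * Y) * ((2 + C1) * N * A) :=
          mul_le_mul h4 hZn (norm_nonneg _) (by positivity)
      _ = _ := by ring
  have b2 : ‖P * ∑ b ∈ Icc 1 M, χ (b : ZMod q) * (b : ℂ) ^ (-1 : ℂ) -
      DirichletCharacter.LFunction χ 1 * P‖ ≤ 2 * C2 * (q * N ^ 2 * A * Y) := by
    rw [mul_comm (DirichletCharacter.LFunction χ 1) P, ← mul_sub, norm_mul]
    have h1 : ‖P‖ = y ^ (1 - s.re) / ‖1 - s‖ := by
      rw [hP, norm_div, Complex.norm_cpow_eq_rpow_re_of_pos hy0]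
      simp
    rw [h1]
    have h2 : y ^ (1 - s.re) * r ^ (-1 : ℝ) ≤ Y := by
      rw [hrpow, ← Real.rpow_add hy0, hY]
      exact Real.rpow_le_rpow_of_exponent_le hy (by linarith)
    calc y ^ (1 - s.re) / ‖1 - s‖ * _ ≤ y ^ (1 - s.re) / ‖1 - s‖ * (C2 * q * r ^ (-1 : ℝ)) :=
          mul_le_mul_of_nonneg_left hV1 (by positivity)
      _ = C2 * q * (1 / ‖1 - s‖) * (y ^ (1 - s.re) * r ^ (-1 : ℝ)) := by ring
      _ ≤ C2 * q * A * Y := by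
          refine mul_le_mul ?_ h2 (by positivity) (by positivity)
          exact mul_le_mul_of_nonneg_left hAi (by positivity)
      _ ≤ _ := by
          have h3 : 1 ≤ 2 * N ^ 2 := by nlinarith
          have h4 : 0 ≤ C2 * q * A * Y := by positivity
          nlinarith
  have b3 : ‖∑ b ∈ Icc 1 M, v b * (∑ a ∈ Icc 1 ⌊y / b⌋₊, u a - Z -
        ((y / b : ℝ) : ℂ) ^ (1 - s) / (1 - s))‖ ≤ 2 * C1 * (q * N ^ 2 * A * Y) := by
    have h1 : ∀ b ∈ Icc 1 M, ‖v b * (∑ a ∈ Icc 1 ⌊y / b⌋₊, u a - Z -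
        ((y / b : ℝ) : ℂ) ^ (1 - s) / (1 - s))‖ ≤ C1 * N * y ^ (-s.re) := by
      intro b hb
      obtain ⟨hb1, hb2⟩ := Finset.mem_Icc.mp hb
      have hb0 : (0 : ℝ) < b := by exact_mod_cast hb1
      have hbr : (b : ℝ) ≤ r := le_trans (by exact_mod_cast hb2) hMr
      have hyb : 1 ≤ y / b := by
        rw [le_div_iff₀ hb0]
        nlinarith
      rw [norm_mul]
      refine (mul_le_mul (hvn b hb1) (hU _ hyb) (norm_nonneg _) (by positivity)).trans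
        (le_of_eq ?_)
      have h2 : y ^ (-s.re) = (y / b) ^ (-s.re) * (b : ℝ) ^ (-s.re) := by
        rw [← Real.mul_rpow (by positivity) hb0.le, div_mul_cancel₀ _ hb0.ne']
      rw [h2]
      ring
    refine (norm_sum_le_of_le _ h1).trans ?_
    rw [Finset.sum_const, Nat.card_Icc, Nat.add_sub_cancel, nsmul_eq_mul]
    have h3 : (M : ℝ) * y ^ (-s.re) ≤ Y := by
      calc (M : ℝ) * y ^ (-s.re) ≤ y ^ ((1 : ℝ) / 2) * y ^ (-s.re) := by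
            refine mul_le_mul_of_nonneg_right ?_ (by positivity)
            rw [← Real.sqrt_eq_rpow]
            exact hMr
        _ = y ^ (1 / 2 + -s.re) := by rw [Real.rpow_add hy0]
        _ ≤ Y := by
            rw [hY]
            exact Real.rpow_le_rpow_of_exponent_le hy (by linarith)
    calc (M : ℝ) * (C1 * N * y ^ (-s.re)) = C1 * N * (M * y ^ (-s.re)) := by ring
      _ ≤ C1 * N * Y := mul_le_mul_of_nonneg_left h3 (by positivity)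
      _ ≤ _ := by
          have h4 : N ≤ 2 * N ^ 2 := by nlinarith
          have h5 : 1 ≤ (q : ℝ) * A := by nlinarith
          have h6 : N * 1 ≤ 2 * N ^ 2 * (q * A) := mul_le_mul h4 h5 zero_le_one (by positivity)
          have h7 : 0 ≤ C1 * Y := by positivity
          nlinarith
  -- second sum
  have b4 : ‖∑ a ∈ Icc 1 M, u a * (∑ b ∈ Icc 1 ⌊y / a⌋₊, v b - VM)‖ ≤
      23 * C2 * (q * N ^ 2 * A * Y) := by
    have h1 : ∀ a ∈ Icc 1 M, ‖u a * (∑ b ∈ Icc 1 ⌊y / a⌋₊, v b - VM)‖ ≤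
        (a : ℝ) ^ (-s.re) * (2 * (C2 * q * N * r ^ (-s.re))) := by
      intro a ha
      obtain ⟨ha1, ha2⟩ := Finset.mem_Icc.mp ha
      have ha0 : (0 : ℝ) < a := by exact_mod_cast ha1
      have har : (a : ℝ) ≤ r := le_trans (by exact_mod_cast ha2) hMr
      have hya : r ≤ y / a := by
        rw [le_div_iff₀ ha0]
        nlinarith
      rw [norm_mul, hun a ha1]
      refine mul_le_mul_of_nonneg_left ?_ (by positivity)
      have h2 := hV (y / a) (hr1.trans hya)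
      have h3 := hV r hr1
      rw [← hM, ← hVM] at h3
      have h4 : (y / a) ^ (-s.re) ≤ r ^ (-s.re) :=
        Real.rpow_le_rpow_of_nonpos hr0 hya (by linarith)
      have h5 : C2 * q * N * (y / a) ^ (-s.re) ≤ C2 * q * N * r ^ (-s.re) :=
        mul_le_mul_of_nonneg_left h4 (by positivity)
      calc ‖∑ b ∈ Icc 1 ⌊y / a⌋₊, v b - VM‖ = ‖(∑ b ∈ Icc 1 ⌊y / a⌋₊, v b - L) - (VM - L)‖ := by
            congr 1
            ring
        _ ≤ ‖∑ b ∈ Icc 1 ⌊y / a⌋₊, v b - L‖ + ‖VM - L‖ := norm_sub_le _ _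
        _ ≤ _ := by linarith
    refine (norm_sum_le_of_le _ h1).trans ?_
    rw [← Finset.sum_mul]
    have h2 := pow_sum M s.re hs
    have h3 : (M : ℝ) ^ (1 / 10 : ℝ) ≤ r ^ (1 / 10 : ℝ) :=
      Real.rpow_le_rpow (Nat.cast_nonneg _) hMr (by norm_num)
    have h4 : r ^ (1 / 10 : ℝ) * r ^ (-s.re) ≤ Y := by
      rw [← Real.rpow_add hr0, hrpow, hY]
      exact Real.rpow_le_rpow_of_exponent_le hy (by linarith)
    have h5 : 0 ≤ 2 * (C2 * q * N * r ^ (-s.re)) := by positivity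
    calc (∑ i ∈ Icc 1 M, (i : ℝ) ^ (-s.re)) * (2 * (C2 * q * N * r ^ (-s.re)))
        ≤ (10 * r ^ (1 / 10 : ℝ)) * (2 * (C2 * q * N * r ^ (-s.re))) :=
          mul_le_mul_of_nonneg_right (h2.trans (mul_le_mul_of_nonneg_left h3 (by norm_num))) h5
      _ = 20 * (C2 * q * N) * (r ^ (1 / 10 : ℝ) * r ^ (-s.re)) := by ring
      _ ≤ 20 * (C2 * q * N) * Y := mul_le_mul_of_nonneg_left h4 (by positivity)
      _ ≤ _ := by
          have h6 : 20 * N ≤ 23 * N ^ 2 := by nlinarith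
          have h7 : 20 * N * 1 ≤ 23 * N ^ 2 * A :=
            mul_le_mul h6 hA1 zero_le_one (by positivity)
          have h8 : 0 ≤ C2 * q * Y := by positivity
          nlinarith
  -- assembly
  rw [e0, e1]
  set X1 := P * ∑ b ∈ Icc 1 M, χ (b : ZMod q) * (b : ℂ) ^ (-1 : ℂ) with hX1
  set X3 := ∑ b ∈ Icc 1 M, v b * (∑ a ∈ Icc 1 ⌊y / b⌋₊, u a - Z -
        ((y / b : ℝ) : ℂ) ^ (1 - s) / (1 - s)) with hX3
  set X4 := ∑ a ∈ Icc 1 M, u a * (∑ b ∈ Icc 1 ⌊y / a⌋₊, v b - VM) with hX4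
  have e2 : VM * Z + X1 + X3 + X4 - DirichletCharacter.LFunction χ 1 * P =
      VM * Z + (X1 - DirichletCharacter.LFunction χ 1 * P) + X3 + X4 := by ring
  rw [e2]
  have h1 := norm_add_le (VM * Z + (X1 - DirichletCharacter.LFunction χ 1 * P) + X3) X4
  have h2 := norm_add_le (VM * Z + (X1 - DirichletCharacter.LFunction χ 1 * P)) X3
  have h3 := norm_add_le (VM * Z) (X1 - DirichletCharacter.LFunction χ 1 * P)
  have h4 : (2 * C1 + (2 + C1) * C2 + 25 * C2) * q * N ^ 2 * A * Y =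
      (2 + C1) * C2 * (q * N ^ 2 * A * Y) + 2 * C2 * (q * N ^ 2 * A * Y) +
        2 * C1 * (q * N ^ 2 * A * Y) + 23 * C2 * (q * N ^ 2 * A * Y) := by ring
  rw [h4]
  linarith

end Pool.Agent.Lib.GMV
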