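import Pool.Agent.Lib.GMV.DMul
import Pool.Agent.Lib.GMV.DNon
import Pool.Agent.Lib.GMV.DPri
import Pool.Agent.Lib.GMV.DLam

/-!
# GMV.DMn (1.5 h): sums over multiples, with errors

PROOF. `sum_mult` with `f n = n^(-s)`, `f (e k n) = (e k)^(-s) n^(-s)`, `‖u‖, ‖v‖ ≤ 1`. If `e k ≤ N`, then `y = N/(e k) ≥ 1`,
`⌊y⌋₊ = N / (e * k)` (`Nat.floor_div_eq_div`) and `(e k)^(-σ) y^(-2/5) ≤ N^(-2/5)` (`σ ≥ 2/5`); if `e k > N` the inner sum is empty. There are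
at most `e^2` pairs `(g, k)`. `mult_non`: `non_sum`. `mult_pri`: `cm_one_cv`, `pri_sum`; `k ∣ e`, so `e k ≤ e^2 ≤ N`; the main terms are
`μ(k) χ(e/g) (e k)^(-s) L(1,χ) (N/(e k))^(1-s)/(1-s) = μ(k) χ(e/g)/(e k) L(1,χ) N^(1-s)/(1-s)`, sum by `dens` with `c = cv x`,
`cv x p = (cv x p).re` (`cv_re`).
-/

set_option autoImplicit false

open Finset

namespace Pool.Agent.Lib.GMV

namespace DMnAux

lemma key_pow {σ : ℝ} (hσ : 9 / 10 ≤ σ) {a N : ℕ} (ha : 1 ≤ a) :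
    (a : ℝ) ^ (-σ) * ((N : ℝ) / a) ^ (-(2 / 5) : ℝ) ≤ (N : ℝ) ^ (-(2 / 5) : ℝ) := by
  have ha0 : (0 : ℝ) < a := by exact_mod_cast ha
  have ha1 : (1 : ℝ) ≤ a := by exact_mod_cast ha
  rw [Real.div_rpow (Nat.cast_nonneg _) ha0.le]
  have h1 : (a : ℝ) ^ (-σ) ≤ (a : ℝ) ^ (-(2 / 5) : ℝ) :=
    Real.rpow_le_rpow_of_exponent_le ha1 (by linarith)
  have h2 : 0 < (a : ℝ) ^ (-(2 / 5) : ℝ) := Real.rpow_pos_of_pos ha0 _
  have h3 : 0 ≤ (N : ℝ) ^ (-(2 / 5) : ℝ) := Real.rpow_nonneg (Nat.cast_nonneg _) _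
  calc (a : ℝ) ^ (-σ) * ((N : ℝ) ^ (-(2 / 5) : ℝ) / (a : ℝ) ^ (-(2 / 5) : ℝ)) =
      ((a : ℝ) ^ (-σ) / (a : ℝ) ^ (-(2 / 5) : ℝ)) * (N : ℝ) ^ (-(2 / 5) : ℝ) := by ring
    _ ≤ 1 * (N : ℝ) ^ (-(2 / 5) : ℝ) :=
        mul_le_mul_of_nonneg_right ((div_le_one h2).mpr h1) h3
    _ = _ := one_mul _

lemma pull (F : ℕ → ℂ) (s : ℂ) (a M : ℕ) :
    ∑ n ∈ Icc 1 M, F n * ((a * n : ℕ) : ℂ) ^ (-s) =
      (a : ℂ) ^ (-s) * ∑ n ∈ Icc 1 M, F n * (n : ℂ) ^ (-s) := by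
  rw [mul_sum]
  refine sum_congr rfl fun n _ => ?_
  rw [Nat.cast_mul, Complex.natCast_mul_natCast_cpow]
  ring

lemma count (e : ℕ) (T : ℕ → ℕ → ℂ) (B : ℝ) (hB : 0 ≤ B)
    (hT : ∀ g ∈ e.divisors, ∀ k ∈ (e / g).divisors, ‖T g k‖ ≤ B) :
    ‖∑ g ∈ e.divisors, ∑ k ∈ (e / g).divisors, T g k‖ ≤ (e : ℝ) ^ 2 * B := by
  have h1 : ∀ g ∈ e.divisors, ‖∑ k ∈ (e / g).divisors, T g k‖ ≤ (e : ℝ) * B := by
    intro g hg
    calc ‖∑ k ∈ (e / g).divisors, T g k‖ ≤ ∑ k ∈ (e / g).divisors, ‖T g k‖ := norm_sum_le _ _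
      _ ≤ ∑ k ∈ (e / g).divisors, B := sum_le_sum fun k hk => hT g hg k hk
      _ = ((e / g).divisors.card : ℝ) * B := by rw [sum_const, nsmul_eq_mul]
      _ ≤ (e : ℝ) * B := by
        refine mul_le_mul_of_nonneg_right ?_ hB
        exact_mod_cast (Nat.card_divisors_le_self _).trans (Nat.div_le_self _ _)
  calc ‖∑ g ∈ e.divisors, ∑ k ∈ (e / g).divisors, T g k‖ ≤
      ∑ g ∈ e.divisors, ‖∑ k ∈ (e / g).divisors, T g k‖ := norm_sum_le _ _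
    _ ≤ ∑ g ∈ e.divisors, (e : ℝ) * B := sum_le_sum h1
    _ = (e.divisors.card : ℝ) * ((e : ℝ) * B) := by rw [sum_const, nsmul_eq_mul]
    _ ≤ (e : ℝ) * ((e : ℝ) * B) := by
        refine mul_le_mul_of_nonneg_right ?_ (by positivity)
        exact_mod_cast Nat.card_divisors_le_self _
    _ = _ := by ring

lemma moeb_le (k : ℕ) : ‖((ArithmeticFunction.moebius k : ℤ) : ℂ)‖ ≤ 1 := by
  rw [Complex.norm_intCast]
  exact_mod_cast ArithmeticFunction.abs_moebius_le_one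

end DMnAux

open DMnAux in
theorem mult_non : ∃ C : ℝ, 1 ≤ C ∧ ∀ (q1 q2 : ℕ) [NeZero q1] [NeZero q2]
    (χ1 : DirichletCharacter ℂ q1) (χ2 : DirichletCharacter ℂ q2) (s : ℂ) (e N : ℕ),
    χ1 ≠ 1 → χ2 ≠ 1 → 9 / 10 ≤ s.re → s.re ≤ 1 → DirichletCharacter.LFunction χ1 s = 0 →
    Squarefree e → 1 ≤ N →
    ‖∑ n ∈ (Icc 1 N).filter (fun n => e ∣ n),
      cm (fun n => χ1 (n : ZMod q1)) (fun n => χ2 (n : ZMod q2)) n * (n : ℂ) ^ (-s)‖ ≤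
      C * ((q1 : ℝ) * q2) * ‖s‖ ^ 2 * (e : ℝ) ^ 2 * (N : ℝ) ^ (-(2 / 5) : ℝ) := by
  obtain ⟨C, hC1, hC⟩ := non_sum
  refine ⟨C, hC1, ?_⟩
  intro q1 q2 _ _ χ1 χ2 s e N hχ1 hχ2 hs1 hs2 hL he hN
  have he0 : 0 < e := Nat.pos_of_ne_zero he.ne_zero
  have hsum := sum_mult (fun n => χ1 (n : ZMod q1)) (fun n => χ2 (n : ZMod q2))
    (fun a b => by simp only [Nat.cast_mul, map_mul]) (fun a b => by simp only [Nat.cast_mul, map_mul])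
    e N he (fun n => (n : ℂ) ^ (-s))
  rw [hsum]
  have hC0 : 0 ≤ C := by linarith
  have hB : 0 ≤ C * ((q1 : ℝ) * q2) * ‖s‖ ^ 2 * (N : ℝ) ^ (-(2 / 5) : ℝ) := by positivity
  refine (count e _ _ hB ?_).trans (le_of_eq (by ring))
  intro g hg k hk
  have hk0 : 0 < k := Nat.pos_of_mem_divisors hk
  have hek : 1 ≤ e * k := Nat.mul_pos he0 hk0
  have hin : ‖∑ n ∈ Icc 1 (N / (e * k)),
      cm (fun n => χ1 (n : ZMod q1)) (fun n => χ2 (n : ZMod q2)) n * ((e * k * n : ℕ) : ℂ) ^ (-s)‖ ≤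
      C * ((q1 : ℝ) * q2) * ‖s‖ ^ 2 * (N : ℝ) ^ (-(2 / 5) : ℝ) := by
    rcases Nat.lt_or_ge N (e * k) with hlt | hge
    · rw [Nat.div_eq_of_lt hlt]
      simpa using hB
    · rw [pull, norm_mul, Complex.norm_natCast_cpow_of_pos (by omega), Complex.neg_re]
      have hek0 : (0 : ℝ) < ((e * k : ℕ) : ℝ) := by exact_mod_cast hek
      have hy : (1 : ℝ) ≤ (N : ℝ) / ((e * k : ℕ) : ℝ) := by
        rw [le_div_iff₀ hek0, one_mul]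
        exact_mod_cast hge
      have h1 := hC q1 q2 χ1 χ2 s ((N : ℝ) / ((e * k : ℕ) : ℝ)) hχ1 hχ2 hs1 hs2 hy hL
      rw [Nat.floor_div_eq_div] at h1
      have h2 := key_pow hs1 (N := N) hek
      calc ((e * k : ℕ) : ℝ) ^ (-s.re) * ‖∑ n ∈ Icc 1 (N / (e * k)),
            cm (fun n => χ1 (n : ZMod q1)) (fun n => χ2 (n : ZMod q2)) n * (n : ℂ) ^ (-s)‖ ≤
          ((e * k : ℕ) : ℝ) ^ (-s.re) * (C * ((q1 : ℝ) * q2) * ‖s‖ ^ 2 *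
            ((N : ℝ) / ((e * k : ℕ) : ℝ)) ^ (-(2 / 5) : ℝ)) :=
            mul_le_mul_of_nonneg_left h1 (Real.rpow_nonneg hek0.le _)
        _ = C * ((q1 : ℝ) * q2) * ‖s‖ ^ 2 * (((e * k : ℕ) : ℝ) ^ (-s.re) *
            ((N : ℝ) / ((e * k : ℕ) : ℝ)) ^ (-(2 / 5) : ℝ)) := by ring
        _ ≤ _ := mul_le_mul_of_nonneg_left h2 (by positivity)
  rw [norm_mul, norm_mul, norm_mul]
  have h1 := moeb_le k
  have h2 := DirichletCharacter.norm_le_one χ1 ((g * k : ℕ) : ZMod q1)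
  have h3 := DirichletCharacter.norm_le_one χ2 ((e / g : ℕ) : ZMod q2)
  have h4 : ‖((ArithmeticFunction.moebius k : ℤ) : ℂ)‖ * ‖χ1 ((g * k : ℕ) : ZMod q1)‖ *
      ‖χ2 ((e / g : ℕ) : ZMod q2)‖ ≤ 1 :=
    mul_le_one₀ (mul_le_one₀ h1 (norm_nonneg _) h2) (norm_nonneg _) h3
  calc _ ≤ 1 * (C * ((q1 : ℝ) * q2) * ‖s‖ ^ 2 * (N : ℝ) ^ (-(2 / 5) : ℝ)) :=
        mul_le_mul h4 hin (norm_nonneg _) zero_le_one
    _ = _ := one_mul _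

open DMnAux in
theorem mult_pri : ∃ C : ℝ, 1 ≤ C ∧ ∀ (x : CI) (s : ℂ) (e N : ℕ), Quad x →
    9 / 10 ≤ s.re → s.re ≤ 1 → s ≠ 1 →
    (riemannZeta s = 0 ∨ DirichletCharacter.LFunction x.2 s = 0) → Squarefree e → e ^ 2 ≤ N →
    ‖∑ n ∈ (Icc 1 N).filter (fun n => e ∣ n), (lmb x n : ℂ) * (n : ℂ) ^ (-s) -
      ((∏ p ∈ e.primeFactors, wq x p : ℝ) : ℂ) *
        ((L1 x : ℂ) * ((N : ℂ) ^ (1 - s) / (1 - s)))‖ ≤
      C * md x * ‖s‖ ^ 2 * (1 + 1 / ‖1 - s‖) * (e : ℝ) ^ 2 * (N : ℝ) ^ (-(2 / 5) : ℝ) := by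
  obtain ⟨C, hC1, hC⟩ := pri_sum
  refine ⟨C, hC1, ?_⟩
  intro x s e N hx hs1 hs2 hs3 hL he hN
  have he0 : 0 < e := Nat.pos_of_ne_zero he.ne_zero
  have hsum := sum_mult (fun _ => 1) (cv x) (fun a b => by simp) (cv_mul x) e N he
    (fun n => (n : ℂ) ^ (-s))
  have hlam : ∑ n ∈ (Icc 1 N).filter (fun n => e ∣ n), (lmb x n : ℂ) * (n : ℂ) ^ (-s) =
      ∑ n ∈ (Icc 1 N).filter (fun n => e ∣ n), cm (fun _ => 1) (cv x) n * (n : ℂ) ^ (-s) := by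
    refine sum_congr rfl fun n _ => ?_
    rw [cm_one_cv hx]
  rw [hlam, hsum]
  -- the main term
  have hmain : ((∏ p ∈ e.primeFactors, wq x p : ℝ) : ℂ) *
        ((L1 x : ℂ) * ((N : ℂ) ^ (1 - s) / (1 - s))) =
      ∑ g ∈ e.divisors, ∑ k ∈ (e / g).divisors,
        (ArithmeticFunction.moebius k : ℂ) * 1 * cv x (e / g) *
          (((e * k : ℕ) : ℂ) ^ (-s) * (DirichletCharacter.LFunction x.2 1 *
            ((((N : ℝ) / ((e * k : ℕ) : ℝ) : ℝ) : ℂ) ^ (1 - s) / (1 - s)))) := by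
    have h1 : ((∏ p ∈ e.primeFactors, wq x p : ℝ) : ℂ) =
        ∑ g ∈ e.divisors, ∑ k ∈ (e / g).divisors,
          (ArithmeticFunction.moebius k : ℂ) * cv x (e / g) / ((e * k : ℕ) : ℂ) := by
      rw [dens (cv x) (cv_one x) (cv_mul x) e he, Complex.ofReal_prod]
      refine prod_congr rfl fun p _ => ?_
      unfold wq
      rw [cv_re hx p]
      push_cast
      simp
    rw [h1, sum_mul]
    refine sum_congr rfl fun g _ => ?_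
    rw [sum_mul]
    refine sum_congr rfl fun k hk => ?_
    have hk0 : 0 < k := Nat.pos_of_mem_divisors hk
    have hek : 0 < e * k := Nat.mul_pos he0 hk0
    have hek0 : (0 : ℝ) < ((e * k : ℕ) : ℝ) := by exact_mod_cast hek
    have hekc : ((e * k : ℕ) : ℂ) ≠ 0 := by exact_mod_cast hek.ne'
    have h2 : ((((N : ℝ) / ((e * k : ℕ) : ℝ) : ℝ) : ℂ)) ^ (1 - s) =
        (N : ℂ) ^ (1 - s) / ((e * k : ℕ) : ℂ) ^ (1 - s) := by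
      rw [Complex.ofReal_div, div_eq_mul_inv, div_eq_mul_inv, ← Complex.ofReal_inv,
        Complex.mul_cpow_ofReal_nonneg (Nat.cast_nonneg _) (inv_nonneg.mpr hek0.le),
        Complex.ofReal_natCast, Complex.ofReal_inv, Complex.ofReal_natCast, Complex.inv_cpow]
      rw [Complex.natCast_arg]
      exact Real.pi_pos.ne
    have h3 : ((e * k : ℕ) : ℂ) ^ (1 - s) = ((e * k : ℕ) : ℂ) * ((e * k : ℕ) : ℂ) ^ (-s) := by
      rw [sub_eq_add_neg, Complex.cpow_add _ _ hekc, Complex.cpow_one]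
    have h4 : ((e * k : ℕ) : ℂ) ^ (-s) ≠ 0 := by
      rw [Complex.cpow_ne_zero_iff]
      exact Or.inl hekc
    rw [h2, h3, L1_eq hx]
    field_simp
  rw [hmain, ← sum_sub_distrib]
  have hC0 : 0 ≤ C := by linarith
  have hB : 0 ≤ C * md x * ‖s‖ ^ 2 * (1 + 1 / ‖1 - s‖) * (N : ℝ) ^ (-(2 / 5) : ℝ) := by positivity
  simp only [← sum_sub_distrib]
  refine (count e _ _ hB ?_).trans (le_of_eq (by ring))
  intro g hg k hk
  have hk0 : 0 < k := Nat.pos_of_mem_divisors hk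
  have hek : 1 ≤ e * k := Nat.mul_pos he0 hk0
  have hke : k ≤ e := (Nat.divisor_le hk).trans (Nat.div_le_self _ _)
  have hge : e * k ≤ N := by
    calc e * k ≤ e * e := Nat.mul_le_mul_left _ hke
      _ = e ^ 2 := by ring
      _ ≤ N := hN
  have hek0 : (0 : ℝ) < ((e * k : ℕ) : ℝ) := by exact_mod_cast hek
  have hy : (1 : ℝ) ≤ (N : ℝ) / ((e * k : ℕ) : ℝ) := by
    rw [le_div_iff₀ hek0, one_mul]
    exact_mod_cast hge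
  have h1 := hC (x.1 + 1) x.2 s ((N : ℝ) / ((e * k : ℕ) : ℝ)) hx.1 hs1 hs2 hs3 hy hL
  rw [Nat.floor_div_eq_div] at h1
  rw [pull, ← mul_sub, ← mul_sub, norm_mul, norm_mul, norm_mul, norm_mul,
    Complex.norm_natCast_cpow_of_pos (by omega), Complex.neg_re]
  have h2 := key_pow hs1 (N := N) hek
  have hin : ((e * k : ℕ) : ℝ) ^ (-s.re) * ‖∑ n ∈ Icc 1 (N / (e * k)),
      cm (fun _ => 1) (cv x) n * (n : ℂ) ^ (-s) - DirichletCharacter.LFunction x.2 1 *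
            ((((N : ℝ) / ((e * k : ℕ) : ℝ) : ℝ) : ℂ) ^ (1 - s) / (1 - s))‖ ≤
      C * md x * ‖s‖ ^ 2 * (1 + 1 / ‖1 - s‖) * (N : ℝ) ^ (-(2 / 5) : ℝ) := by
    calc _ ≤ ((e * k : ℕ) : ℝ) ^ (-s.re) * (C * ((x.1 + 1 : ℕ) : ℝ) * ‖s‖ ^ 2 * (1 + 1 / ‖1 - s‖) *
            ((N : ℝ) / ((e * k : ℕ) : ℝ)) ^ (-(2 / 5) : ℝ)) :=
            mul_le_mul_of_nonneg_left h1 (Real.rpow_nonneg hek0.le _)
      _ = C * md x * ‖s‖ ^ 2 * (1 + 1 / ‖1 - s‖) * (((e * k : ℕ) : ℝ) ^ (-s.re) *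
            ((N : ℝ) / ((e * k : ℕ) : ℝ)) ^ (-(2 / 5) : ℝ)) := by
          unfold md
          ring
      _ ≤ _ := mul_le_mul_of_nonneg_left h2 (by positivity)
  have h5 := moeb_le k
  have h6 := norm_cv_le x (e / g)
  have h4 : ‖((ArithmeticFunction.moebius k : ℤ) : ℂ)‖ * ‖(1 : ℂ)‖ * ‖cv x (e / g)‖ ≤ 1 :=
    mul_le_one₀ (mul_le_one₀ h5 (norm_nonneg _) (by simp)) (norm_nonneg _) h6
  calc _ ≤ 1 * (C * md x * ‖s‖ ^ 2 * (1 + 1 / ‖1 - s‖) * (N : ℝ) ^ (-(2 / 5) : ℝ)) :=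
        mul_le_mul h4 hin (by positivity) zero_le_one
    _ = _ := one_mul _

end Pool.Agent.Lib.GMV
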