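import Pool.Agent.Lib.GMV.DDef

/-!
# GMV.DMul (1.5 h): sums over the multiples of a squarefree number

PROOF. `sum_mult`: the left side is the sum of `u a v b f (a b)` over the pairs `a, b ≥ 1` with `a b ≤ N`, `e ∣ a b`. As `e` is squarefree,
`e ∣ a b` iff `e / gcd(a,e) ∣ b`. Sort by `g = gcd(a,e) ∈ e.divisors`: `gcd(a,e) = g` iff `g ∣ a` and `gcd(a, e/g) = 1`, and
`∑_{k ∣ e/g, k ∣ a} μ(k) = [gcd(a,e/g) = 1]` (`ArithmeticFunction.sum_moebius...`: `∑_{k ∣ m} μ(k) = [m = 1]` with `m = gcd(a,e/g)`). For squarefree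
`e` the numbers `g` and `k` are coprime, so `g ∣ a ∧ k ∣ a ↔ g k ∣ a`. Write `a = g k a'`, `b = (e/g) b'`: `a b = e k a' b'`,
`u a v b = u(gk) v(e/g) u a' v b'`, `a b ≤ N ↔ a' b' ≤ N/(e k)`.
`dens`: `∑_{k ∣ m} μ(k)/k = ∏_{p ∣ m} (1 - 1/p)` and `∑_{g ∣ e} c(e/g) φ(e/g)/(e/g)...`: both sides are `(1/e) ∏_{p ∣ e} (1 + c(p)(1-1/p))`
(`ArithmeticFunction.IsMultiplicative.prodPrimeFactors_one_add_of_squarefree`, or induction on the primes of `e`:
`Finset.prod_add`/`Nat.sum_divisors_filter_squarefree`/`Nat.divisors` of `p e'`).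
-/

set_option autoImplicit false

open Finset

namespace Pool.Agent.Lib.GMV

namespace DMulAux

lemma divisors_prime_mul (p m : ℕ) (hp : p.Prime) (hm : m ≠ 0) :
    (p * m).divisors = m.divisors ∪ m.divisors.image (fun d => p * d) := by
  ext d
  simp only [mem_union, mem_image, Nat.mem_divisors]
  constructor
  · rintro ⟨h, _⟩
    by_cases hpd : p ∣ d
    · obtain ⟨d', rfl⟩ := hpd
      exact Or.inr ⟨d', ⟨Nat.dvd_of_mul_dvd_mul_left hp.pos h, hm⟩, rfl⟩
    · have hc : Nat.Coprime d p := ((Nat.Prime.coprime_iff_not_dvd hp).mpr hpd).symm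
      exact Or.inl ⟨hc.dvd_of_dvd_mul_left h, hm⟩
  · rintro (⟨h, _⟩ | ⟨d', ⟨h, _⟩, rfl⟩)
    · exact ⟨h.mul_left p, mul_ne_zero hp.ne_zero hm⟩
    · exact ⟨Nat.mul_dvd_mul_left p h, mul_ne_zero hp.ne_zero hm⟩

lemma sum_div_mul {p m : ℕ} (hp : p.Prime) (hpm : ¬ p ∣ m) (hm : m ≠ 0) (F : ℕ → ℂ) :
    ∑ g ∈ (p * m).divisors, F g = ∑ g ∈ m.divisors, (F g + F (p * g)) := by
  rw [divisors_prime_mul p m hp hm, Finset.sum_union, Finset.sum_add_distrib, Finset.sum_image]
  · intro a _ b _ h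
    exact Nat.eq_of_mul_eq_mul_left hp.pos h
  · rw [Finset.disjoint_left]
    intro d hd hd'
    rw [mem_image] at hd'
    obtain ⟨d', _, rfl⟩ := hd'
    exact hpm ((dvd_mul_right p d').trans (Nat.dvd_of_mem_divisors hd))

variable {u v : ℕ → ℂ}

lemma cm_prime_mul (hu : ∀ a b, u (a * b) = u a * u b) (hv : ∀ a b, v (a * b) = v a * v b)
    {p m : ℕ} (hp : p.Prime) (hm : m ≠ 0) :
    cm u v (p * m) = (u p + v p) * cm u v m -
      (if p ∣ m then u p * v p * cm u v (m / p) else 0) := by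
  unfold cm
  have h1 := Finset.sum_union_inter (s₁ := m.divisors)
    (s₂ := m.divisors.image (fun d => p * d)) (f := fun d => u (p * m / d) * v d)
  rw [← divisors_prime_mul p m hp hm] at h1
  have h2 : ∑ d ∈ m.divisors, u (p * m / d) * v d = u p * ∑ d ∈ m.divisors, u (m / d) * v d := by
    rw [Finset.mul_sum]
    refine Finset.sum_congr rfl fun d hd => ?_
    rw [Nat.mul_div_assoc p (Nat.dvd_of_mem_divisors hd), hu]
    ring
  have h3 : ∑ d ∈ m.divisors.image (fun d => p * d), u (p * m / d) * v d =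
      v p * ∑ d ∈ m.divisors, u (m / d) * v d := by
    rw [Finset.sum_image fun a _ b _ h => Nat.eq_of_mul_eq_mul_left hp.pos h, Finset.mul_sum]
    refine Finset.sum_congr rfl fun d _ => ?_
    rw [Nat.mul_div_mul_left m d hp.pos, hv]
    ring
  have h4 : ∑ d ∈ m.divisors ∩ m.divisors.image (fun d => p * d), u (p * m / d) * v d =
      if p ∣ m then u p * v p * ∑ d ∈ (m / p).divisors, u (m / p / d) * v d else 0 := by
    split_ifs with hpm
    · obtain ⟨m1, rfl⟩ := hpm
      have hm1 : m1 ≠ 0 := right_ne_zero_of_mul hm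
      have h5 : (p * m1).divisors ∩ (p * m1).divisors.image (fun d => p * d) =
          m1.divisors.image (fun d => p * d) := by
        ext d
        simp only [mem_inter, mem_image, Nat.mem_divisors]
        constructor
        · rintro ⟨⟨h, _⟩, ⟨d', _, rfl⟩⟩
          exact ⟨d', ⟨Nat.dvd_of_mul_dvd_mul_left hp.pos h, hm1⟩, rfl⟩
        · rintro ⟨d', ⟨h, _⟩, rfl⟩
          exact ⟨⟨Nat.mul_dvd_mul_left p h, hm⟩, ⟨d', ⟨h.mul_left p, hm⟩, rfl⟩⟩
      rw [h5, Finset.sum_image fun a _ b _ h => Nat.eq_of_mul_eq_mul_left hp.pos h,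
        Nat.mul_div_cancel_left m1 hp.pos, Finset.mul_sum]
      refine Finset.sum_congr rfl fun d hd => ?_
      rw [Nat.mul_div_mul_left _ d hp.pos, Nat.mul_div_assoc p (Nat.dvd_of_mem_divisors hd), hu, hv]
      ring
    · refine Finset.sum_eq_zero fun d hd => ?_
      exfalso
      rw [mem_inter, mem_image] at hd
      obtain ⟨hd1, ⟨d', _, rfl⟩⟩ := hd
      exact hpm ((dvd_mul_right p d').trans (Nat.dvd_of_mem_divisors hd1))
  rw [h2, h3, h4] at h1
  rw [eq_sub_iff_add_eq, h1]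
  ring

lemma u_one_cm (hu : ∀ a b, u (a * b) = u a * u b) (n : ℕ) : u 1 * cm u v n = cm u v n := by
  unfold cm
  rw [Finset.mul_sum]
  refine Finset.sum_congr rfl fun d _ => ?_
  rw [← mul_assoc, ← hu, one_mul]

lemma v_one_cm (hv : ∀ a b, v (a * b) = v a * v b) (n : ℕ) : v 1 * cm u v n = cm u v n := by
  unfold cm
  rw [Finset.mul_sum]
  refine Finset.sum_congr rfl fun d _ => ?_
  rw [mul_left_comm, ← hv, one_mul]

lemma moebius_prime_mul {p k : ℕ} (hp : p.Prime) (hpk : ¬ p ∣ k) :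
    (ArithmeticFunction.moebius (p * k) : ℂ) = -(ArithmeticFunction.moebius k : ℂ) := by
  have hc : Nat.Coprime p k := (Nat.Prime.coprime_iff_not_dvd hp).mpr hpk
  rw [ArithmeticFunction.isMultiplicative_moebius.map_mul_of_coprime hc,
    ArithmeticFunction.moebius_apply_prime hp]
  push_cast
  ring

/-- the pairs `(g,k)` for `p a` -/
lemma double_sum {p a : ℕ} (hp : p.Prime) (hpa : ¬ p ∣ a) (ha : a ≠ 0) (F : ℕ → ℕ → ℂ) :
    ∑ g ∈ (p * a).divisors, ∑ k ∈ (p * a / g).divisors, F g k =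
      ∑ g ∈ a.divisors, ∑ k ∈ (a / g).divisors, (F g k + F g (p * k) + F (p * g) k) := by
  rw [sum_div_mul hp hpa ha]
  refine Finset.sum_congr rfl fun g hg => ?_
  have hga : g ∣ a := Nat.dvd_of_mem_divisors hg
  have hg0 : 0 < g := Nat.pos_of_mem_divisors hg
  have h1 : ¬ p ∣ a / g := fun h => hpa (h.trans (Nat.div_dvd_of_dvd hga))
  have h2 : a / g ≠ 0 := (Nat.div_pos (Nat.le_of_dvd (Nat.pos_of_ne_zero ha) hga) hg0).ne'
  rw [Nat.mul_div_assoc p hga, sum_div_mul hp h1 h2, Nat.mul_div_mul_left a g hp.pos,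
    ← Finset.sum_add_distrib]

lemma pointwise (hu : ∀ a b, u (a * b) = u a * u b) (hv : ∀ a b, v (a * b) = v a * v b)
    (e : ℕ) : Squarefree e → ∀ n, n ≠ 0 → e ∣ n →
    cm u v n = ∑ g ∈ e.divisors, ∑ k ∈ (e / g).divisors,
      (ArithmeticFunction.moebius k : ℂ) * u (g * k) * v (e / g) *
        (if e * k ∣ n then cm u v (n / (e * k)) else 0) := by
  induction e using induction_on_primes with
  | zero =>
    intro h
    exact absurd h not_squarefree_zero
  | one =>
    intro _ n _ _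
    rw [Nat.divisors_one, Finset.sum_singleton, Nat.div_one, Nat.divisors_one,
      Finset.sum_singleton, mul_one, if_pos (one_dvd _), Nat.div_one,
      ArithmeticFunction.moebius_apply_one]
    rw [mul_assoc, v_one_cm hv, Int.cast_one, one_mul, u_one_cm hu]
  | prime_mul p a hp ih =>
    intro hsq n hn hpan
    have hsa : Squarefree a := hsq.of_mul_right
    have ha : a ≠ 0 := hsa.ne_zero
    have hpa : ¬ p ∣ a := by
      intro h
      have := hsq p (Nat.mul_dvd_mul_left p h)
      exact hp.ne_one (Nat.isUnit_iff.mp this)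
    have hpn : p ∣ n := (dvd_mul_right p a).trans hpan
    rw [ih hsa n hn ((dvd_mul_left a p).trans hpan), double_sum hp hpa ha]
    refine Finset.sum_congr rfl fun g hg => Finset.sum_congr rfl fun k hk => ?_
    have hga : g ∣ a := Nat.dvd_of_mem_divisors hg
    have hg0 : 0 < g := Nat.pos_of_mem_divisors hg
    have hka : k ∣ a := (Nat.dvd_of_mem_divisors hk).trans (Nat.div_dvd_of_dvd hga)
    have hk0 : 0 < k := Nat.pos_of_mem_divisors hk
    have hpk : ¬ p ∣ k := fun h => hpa (h.trans hka)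
    rw [Nat.mul_div_assoc p hga, Nat.mul_div_mul_left a g hp.pos, moebius_prime_mul hp hpk,
      hv p (a / g)]
    have hu1 : u (g * (p * k)) = u p * u (g * k) := by
      rw [← hu]
      congr 1
      ring
    have hu2 : u (p * g * k) = u p * u (g * k) := by
      rw [← hu]
      congr 1
      ring
    rw [hu1, hu2]
    by_cases hak : a * k ∣ n
    · have hcop : Nat.Coprime p (a * k) :=
        Nat.Coprime.mul_right ((Nat.Prime.coprime_iff_not_dvd hp).mpr hpa)
          ((Nat.Prime.coprime_iff_not_dvd hp).mpr hpk)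
      have hpak : p * (a * k) ∣ n := hcop.mul_dvd_of_dvd_of_dvd hpn hak
      have hpak' : p * a * k ∣ n := by rw [mul_assoc]; exact hpak
      obtain ⟨m1, hm1⟩ := hpak
      have hm10 : m1 ≠ 0 := by
        rintro rfl
        exact hn (by rw [hm1, mul_zero])
      have hak0 : 0 < a * k := Nat.mul_pos (Nat.pos_of_ne_zero ha) hk0
      have e1 : n / (a * k) = p * m1 := by
        rw [hm1, show p * (a * k) * m1 = a * k * (p * m1) by ring, Nat.mul_div_cancel_left _ hak0]
      have e2 : n / (p * a * k) = m1 := by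
        rw [hm1, show p * (a * k) * m1 = p * a * k * m1 by ring]
        exact Nat.mul_div_cancel_left _ (by rw [mul_assoc]; exact Nat.mul_pos hp.pos hak0)
      have e3 : (p * a * (p * k) ∣ n) ↔ p ∣ m1 := by
        rw [hm1, show p * a * (p * k) = p * (a * k) * p by ring]
        exact Nat.mul_dvd_mul_iff_left (Nat.mul_pos hp.pos hak0)
      have e4 : n / (p * a * (p * k)) = m1 / p := by
        rw [show p * a * (p * k) = p * a * k * p by ring, ← Nat.div_div_eq_div_mul, e2]
      rw [if_pos hak, if_pos hpak', e1, e2, e4, cm_prime_mul hu hv hp hm10]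
      simp only [e3]
      split_ifs <;> ring
    · have h1 : ¬ p * a * k ∣ n := fun h => hak ((Dvd.intro_left p (by ring)).trans h)
      have h2 : ¬ p * a * (p * k) ∣ n := fun h =>
        hak ((Dvd.intro_left (p * p) (by ring)).trans h)
      rw [if_neg hak, if_neg h1, if_neg h2]
      ring

lemma sum_mul_reindex (N q : ℕ) (hq : 0 < q) (F : ℕ → ℕ → ℂ) :
    ∑ n ∈ Icc 1 N, (if q ∣ n then F (n / q) n else 0) = ∑ n ∈ Icc 1 (N / q), F n (q * n) := by
  rw [← Finset.sum_filter]
  refine Finset.sum_nbij' (fun n => n / q) (fun n => q * n) ?_ ?_ ?_ ?_ ?_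
  · intro n hn
    rw [mem_filter, mem_Icc] at hn
    obtain ⟨⟨h1, h2⟩, h3⟩ := hn
    rw [mem_Icc]
    exact ⟨Nat.div_pos (Nat.le_of_dvd h1 h3) hq, Nat.div_le_div_right h2⟩
  · intro n hn
    rw [mem_Icc] at hn
    rw [mem_filter, mem_Icc]
    refine ⟨⟨Nat.mul_pos hq hn.1, ?_⟩, dvd_mul_right q n⟩
    calc q * n ≤ q * (N / q) := Nat.mul_le_mul_left q hn.2
      _ ≤ N := Nat.mul_div_le N q
  · intro n hn
    rw [mem_filter] at hn
    exact Nat.mul_div_cancel' hn.2
  · intro n _
    exact Nat.mul_div_cancel_left n hq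
  · intro n hn
    rw [mem_filter] at hn
    rw [Nat.mul_div_cancel' hn.2]

end DMulAux

open DMulAux

theorem sum_mult (u v : ℕ → ℂ) (hu : ∀ a b, u (a * b) = u a * u b) (hv : ∀ a b, v (a * b) = v a * v b)
    (e N : ℕ) (he : Squarefree e) (f : ℕ → ℂ) :
    ∑ n ∈ (Icc 1 N).filter (fun n => e ∣ n), cm u v n * f n =
      ∑ g ∈ e.divisors, ∑ k ∈ (e / g).divisors,
        (ArithmeticFunction.moebius k : ℂ) * u (g * k) * v (e / g) *
          ∑ n ∈ Icc 1 (N / (e * k)), cm u v n * f (e * k * n) := by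
  have he0 : e ≠ 0 := he.ne_zero
  have h1 : ∑ n ∈ (Icc 1 N).filter (fun n => e ∣ n), cm u v n * f n =
      ∑ n ∈ (Icc 1 N).filter (fun n => e ∣ n), ∑ g ∈ e.divisors, ∑ k ∈ (e / g).divisors,
        (ArithmeticFunction.moebius k : ℂ) * u (g * k) * v (e / g) *
          (if e * k ∣ n then cm u v (n / (e * k)) * f n else 0) := by
    refine Finset.sum_congr rfl fun n hn => ?_
    rw [mem_filter, mem_Icc] at hn
    rw [pointwise hu hv e he n (by omega) hn.2, Finset.sum_mul]
    refine Finset.sum_congr rfl fun g _ => ?_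
    rw [Finset.sum_mul]
    refine Finset.sum_congr rfl fun k _ => ?_
    split_ifs <;> ring
  rw [h1, Finset.sum_comm]
  refine Finset.sum_congr rfl fun g hg => ?_
  rw [Finset.sum_comm]
  refine Finset.sum_congr rfl fun k hk => ?_
  rw [← Finset.mul_sum]
  congr 1
  have hk0 : 0 < k := Nat.pos_of_mem_divisors hk
  have hek : 0 < e * k := Nat.mul_pos (Nat.pos_of_ne_zero he0) hk0
  rw [← sum_mul_reindex N (e * k) hek (fun m n => cm u v m * f n), Finset.sum_filter]
  refine Finset.sum_congr rfl fun n _ => ?_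
  by_cases h : e ∣ n
  · rw [if_pos h]
  · rw [if_neg h, if_neg fun h2 => h ((dvd_mul_right e k).trans h2)]

theorem dens (c : ℕ → ℂ) (hc1 : c 1 = 1) (hc : ∀ a b, c (a * b) = c a * c b) (e : ℕ)
    (he : Squarefree e) :
    ∑ g ∈ e.divisors, ∑ k ∈ (e / g).divisors,
        (ArithmeticFunction.moebius k : ℂ) * c (e / g) / ((e * k : ℕ) : ℂ) =
      ∏ p ∈ e.primeFactors, (1 + c p * (1 - 1 / (p : ℂ))) / p := by
  induction e using induction_on_primes with
  | zero => exact absurd he not_squarefree_zero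
  | one =>
    rw [Nat.divisors_one, Finset.sum_singleton, Nat.div_one, Nat.divisors_one,
      Finset.sum_singleton, Nat.primeFactors_one, Finset.prod_empty,
      ArithmeticFunction.moebius_apply_one, hc1]
    simp
  | prime_mul p a hp ih =>
    have hsa : Squarefree a := he.of_mul_right
    have ha : a ≠ 0 := hsa.ne_zero
    have hpa : ¬ p ∣ a := by
      intro h
      have := he p (Nat.mul_dvd_mul_left p h)
      exact hp.ne_one (Nat.isUnit_iff.mp this)
    have hp0 : (p : ℂ) ≠ 0 := Nat.cast_ne_zero.mpr hp.ne_zero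
    have ha0 : (a : ℂ) ≠ 0 := Nat.cast_ne_zero.mpr ha
    rw [Nat.primeFactors_mul hp.ne_zero ha, hp.primeFactors,
      Finset.prod_union (by
        rw [Finset.disjoint_singleton_left]
        intro h
        exact hpa (Nat.dvd_of_mem_primeFactors h)), Finset.prod_singleton, ← ih hsa,
      double_sum hp hpa ha, Finset.mul_sum]
    refine Finset.sum_congr rfl fun g hg => ?_
    rw [Finset.mul_sum]
    refine Finset.sum_congr rfl fun k hk => ?_
    have hga : g ∣ a := Nat.dvd_of_mem_divisors hg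
    have hka : k ∣ a := (Nat.dvd_of_mem_divisors hk).trans (Nat.div_dvd_of_dvd hga)
    have hk0 : (k : ℂ) ≠ 0 := Nat.cast_ne_zero.mpr (Nat.pos_of_mem_divisors hk).ne'
    have hpk : ¬ p ∣ k := fun h => hpa (h.trans hka)
    rw [Nat.mul_div_assoc p hga, Nat.mul_div_mul_left a g hp.pos, moebius_prime_mul hp hpk,
      hc p (a / g)]
    push_cast
    field_simp
    ring

end Pool.Agent.Lib.GMV
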