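import Pool.Agent.Lib.BV.Defs

/-!
# Prime tuples with power saving: definitions

`Lf χ` : the L-function with the pole removed (entire).  `Z χ T` : the zeros of `Lf χ` with
`9/10 ≤ Re`, `|Im| ≤ T`, a finite set.  `mul χ ρ` : the multiplicity.
-/

open Complex Filter Topology

namespace Pool.Agent.Lib.GMV

open Pool.Agent.Lib.BV

open scoped Classical in
/-- The L-function of `χ`, multiplied by `s - 1` if `χ = 1`. Entire. -/
noncomputable def Lf {q : ℕ} [NeZero q] (χ : DirichletCharacter ℂ q) : ℂ → ℂ :=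
  if χ = 1 then DirichletCharacter.LFunctionTrivChar₁ q else DirichletCharacter.LFunction χ

lemma Lf_of_ne {q : ℕ} [NeZero q] {χ : DirichletCharacter ℂ q} (hχ : χ ≠ 1) :
    Lf χ = DirichletCharacter.LFunction χ := by
  classical
  unfold Lf
  rw [if_neg hχ]

lemma Lf_one (q : ℕ) [NeZero q] :
    Lf (1 : DirichletCharacter ℂ q) = DirichletCharacter.LFunctionTrivChar₁ q := by
  classical
  unfold Lf
  rw [if_pos rfl]

/-- Off `s = 1`. -/
lemma Lf_one_apply (q : ℕ) [NeZero q] {s : ℂ} (hs : s ≠ 1) :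
    Lf (1 : DirichletCharacter ℂ q) s =
      (s - 1) * DirichletCharacter.LFunction (1 : DirichletCharacter ℂ q) s := by
  rw [Lf_one]
  exact Function.update_of_ne hs _ _

lemma Lf_differentiable {q : ℕ} [NeZero q] (χ : DirichletCharacter ℂ q) :
    Differentiable ℂ (Lf χ) := by
  by_cases hχ : χ = 1
  · subst hχ
    rw [Lf_one]
    exact DirichletCharacter.differentiable_LFunctionTrivChar₁ q
  · rw [Lf_of_ne hχ]
    exact DirichletCharacter.differentiable_LFunction hχ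

lemma Lf_ne_zero {q : ℕ} [NeZero q] (χ : DirichletCharacter ℂ q) {s : ℂ} (hs : 1 ≤ s.re) :
    Lf χ s ≠ 0 := by
  by_cases hχ : χ = 1
  · subst hχ
    rcases eq_or_ne s 1 with rfl | h1
    · rw [Lf_one]
      exact DirichletCharacter.LFunctionTrivChar₁_apply_one_ne_zero q
    · rw [Lf_one_apply q h1]
      exact mul_ne_zero (sub_ne_zero.mpr h1)
        (DirichletCharacter.LFunction_ne_zero_of_one_le_re _ (.inr h1) hs)
  · rw [Lf_of_ne hχ]
    exact DirichletCharacter.LFunction_ne_zero_of_one_le_re _ (.inl hχ) hs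

lemma Lf_analytic {q : ℕ} [NeZero q] (χ : DirichletCharacter ℂ q) :
    AnalyticOnNhd ℂ (Lf χ) Set.univ :=
  (Lf_differentiable χ).differentiableOn.analyticOnNhd isOpen_univ

/-- The zeros in a compact set are finitely many. -/
lemma Lf_zeros_finite {q : ℕ} [NeZero q] (χ : DirichletCharacter ℂ q) {K : Set ℂ}
    (hK : IsCompact K) : {ρ : ℂ | ρ ∈ K ∧ Lf χ ρ = 0}.Finite := by
  have h := (Lf_analytic χ).preimage_zero_mem_codiscrete (x := 2)
    (Lf_ne_zero χ (by norm_num))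
  have hd : IsDiscrete (K ∩ {ρ | Lf χ ρ = 0}) := by
    have h2 : (Lf χ ⁻¹' {0}ᶜ) ∈ codiscrete ℂ := h
    rw [mem_codiscrete'] at h2
    have h3 : IsDiscrete ((Lf χ ⁻¹' {0}ᶜ)ᶜ) := h2.2
    have h4 : (Lf χ ⁻¹' {0}ᶜ)ᶜ = {ρ | Lf χ ρ = 0} := by
      ext ρ; simp
    rw [h4] at h3
    exact h3.mono Set.inter_subset_right
  have hcl : IsClosed {ρ | Lf χ ρ = 0} :=
    isClosed_singleton.preimage (Lf_differentiable χ).continuous
  have hc : IsCompact (K ∩ {ρ | Lf χ ρ = 0}) := hK.inter_right hcl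
  exact hc.finite hd

/-- The rectangle `9/10 ≤ Re ≤ 1`, `|Im| ≤ T`. -/
lemma zeros_finite {q : ℕ} [NeZero q] (χ : DirichletCharacter ℂ q) (T : ℝ) :
    {ρ : ℂ | 9/10 ≤ ρ.re ∧ |ρ.im| ≤ T ∧ Lf χ ρ = 0}.Finite := by
  have hK : IsCompact (Set.Icc (9/10 : ℝ) 1 ×ℂ Set.Icc (-T) T) :=
    IsCompact.reProdIm isCompact_Icc isCompact_Icc
  refine (Lf_zeros_finite χ hK).subset ?_
  rintro ρ ⟨h1, h2, h3⟩
  refine ⟨?_, h3⟩
  rw [Complex.mem_reProdIm]
  refine ⟨⟨h1, ?_⟩, abs_le.mp h2⟩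
  by_contra hh
  exact Lf_ne_zero χ (not_le.mp hh).le h3

/-- The zeros of `Lf χ` with `9/10 ≤ Re` and `|Im| ≤ T`. -/
noncomputable def Z {q : ℕ} [NeZero q] (χ : DirichletCharacter ℂ q) (T : ℝ) : Finset ℂ :=
  (zeros_finite χ T).toFinset

lemma mem_Z {q : ℕ} [NeZero q] {χ : DirichletCharacter ℂ q} {T : ℝ} {ρ : ℂ} :
    ρ ∈ Z χ T ↔ 9/10 ≤ ρ.re ∧ |ρ.im| ≤ T ∧ Lf χ ρ = 0 := by
  simp [Z]

/-- Every zero has real part less than one. -/
lemma re_lt_one_of_mem_Z {q : ℕ} [NeZero q] {χ : DirichletCharacter ℂ q} {T : ℝ} {ρ : ℂ}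
    (h : ρ ∈ Z χ T) : ρ.re < 1 := by
  by_contra hh
  exact Lf_ne_zero χ (not_lt.mp hh) (mem_Z.mp h).2.2

/-- The multiplicity of a zero. -/
noncomputable def mul {q : ℕ} [NeZero q] (χ : DirichletCharacter ℂ q) (ρ : ℂ) : ℕ :=
  analyticOrderNatAt (Lf χ) ρ

end Pool.Agent.Lib.GMV
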