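import Mathlib

/-!
# Taking finitely many zeros out of an entire function

PROOF. `exists_factor`: induction on the finite set `S`. For one point `ρ` and an entire function `f`
which is not identically zero: the order `m` of `f` at `ρ` is finite (identity theorem), and
`f z = (z - ρ)^m g z` with `g` entire and `g ρ ≠ 0` (apply `dslope` `m` times, or
`AnalyticAt.analyticOrderAt_eq_natCast` near `ρ` and define `g z = f z / (z - ρ)^m` elsewhere;
`Differentiable` at every point).  At every other point the order of `g` equals the order of `f`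
(`(z - ρ)^m` is analytic and nonzero there).  In the induction keep the statement
`∀ z ∉ S, analyticOrderNatAt h z = analyticOrderNatAt f z` (also for the next steps), and
`∀ z ∈ S, h z ≠ 0`; `h z = 0 ↔ f z = 0` for `z ∉ S` from the product formula.
`logderiv_factor`: logarithmic derivative of a product (`logDeriv_mul`, `logDeriv_prod`,
`logDeriv_pow`), all factors are nonzero at `z` because `f z ≠ 0`.
-/

namespace Pool.Agent.Lib.GMV

open Complex

namespace FFacAux

open Filter Topology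

theorem analytic_of {f : ℂ → ℂ} (hf : Differentiable ℂ f) (z : ℂ) : AnalyticAt ℂ f z :=
  hf.analyticAt z

theorem order_ne_top {f : ℂ → ℂ} (hf : Differentiable ℂ f) (hne : ∃ z, f z ≠ 0) (ρ : ℂ) :
    analyticOrderAt f ρ ≠ ⊤ := by
  intro h
  rw [analyticOrderAt_eq_top] at h
  have hA : AnalyticOnNhd ℂ f Set.univ := fun z _ => hf.analyticAt z
  have := hA.eqOn_zero_of_preconnected_of_eventuallyEq_zero isPreconnected_univ
    (Set.mem_univ ρ) h
  obtain ⟨z, hz⟩ := hne
  exact hz (this (Set.mem_univ z))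

theorem one_point {f : ℂ → ℂ} (hf : Differentiable ℂ f) (hne : ∃ z, f z ≠ 0) (ρ : ℂ) :
    ∃ g : ℂ → ℂ, Differentiable ℂ g ∧ g ρ ≠ 0 ∧
      ∀ z, f z = (z - ρ) ^ analyticOrderNatAt f ρ * g z := by
  classical
  obtain ⟨g0, hg0, hg1, hg2⟩ := (hf.analyticAt ρ).analyticOrderAt_ne_top.mp
    (order_ne_top hf hne ρ)
  set n := analyticOrderNatAt f ρ with hn
  refine ⟨fun z => if z = ρ then g0 ρ else f z / (z - ρ) ^ n, ?_, by simpa using hg1, ?_⟩
  · intro z
    by_cases hz : z = ρ
    · subst hz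
      have he : (fun w => if w = z then g0 z else f w / (w - z) ^ n) =ᶠ[𝓝 z] g0 := by
        filter_upwards [hg2] with w hw
        by_cases hwz : w = z
        · simp [hwz]
        · rw [if_neg hwz, hw, smul_eq_mul]
          have : (w - z) ^ n ≠ 0 := pow_ne_zero _ (sub_ne_zero.mpr hwz)
          field_simp
      exact hg0.differentiableAt.congr_of_eventuallyEq he
    · have he : (fun w => if w = ρ then g0 ρ else f w / (w - ρ) ^ n) =ᶠ[𝓝 z]
          fun w => f w / (w - ρ) ^ n := by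
        filter_upwards [isOpen_ne.mem_nhds hz] with w hw
        rw [if_neg hw]
      refine DifferentiableAt.congr_of_eventuallyEq ?_ he
      exact (hf z).div ((differentiableAt_id.sub_const ρ).pow n)
        (pow_ne_zero _ (sub_ne_zero.mpr hz))
  · intro z
    by_cases hz : z = ρ
    · subst hz
      have := hg2.self_of_nhds
      simp only [smul_eq_mul] at this
      simpa using this
    · simp only [if_neg hz]
      have : (z - ρ) ^ n ≠ 0 := pow_ne_zero _ (sub_ne_zero.mpr hz)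
      field_simp

theorem order_other {f g : ℂ → ℂ} (hg : Differentiable ℂ g) {ρ : ℂ} {n : ℕ}
    (h : ∀ z, f z = (z - ρ) ^ n * g z) {z : ℂ} (hz : z ≠ ρ) :
    analyticOrderNatAt f z = analyticOrderNatAt g z := by
  have hp : AnalyticAt ℂ (fun w : ℂ => (w - ρ) ^ n) z :=
    (analyticAt_id.sub analyticAt_const).pow n
  have e : f = (fun w : ℂ => (w - ρ) ^ n) * g := by
    funext w
    exact h w
  have h0 : analyticOrderAt (fun w : ℂ => (w - ρ) ^ n) z = 0 := by
    rw [hp.analyticOrderAt_eq_zero]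
    exact pow_ne_zero _ (sub_ne_zero.mpr hz)
  unfold analyticOrderNatAt
  rw [e, analyticOrderAt_mul hp (hg.analyticAt z), h0, zero_add]

end FFacAux

open FFacAux

theorem exists_factor {f : ℂ → ℂ} (hf : Differentiable ℂ f) (hne : ∃ z, f z ≠ 0)
    (S : Finset ℂ) :
    ∃ h : ℂ → ℂ, Differentiable ℂ h ∧
      (∀ z, f z = (∏ ρ ∈ S, (z - ρ) ^ analyticOrderNatAt f ρ) * h z) ∧
      ∀ z, h z = 0 ↔ f z = 0 ∧ z ∉ S := by
  classical
  suffices H : ∃ h : ℂ → ℂ, Differentiable ℂ h ∧
      (∀ z, f z = (∏ ρ ∈ S, (z - ρ) ^ analyticOrderNatAt f ρ) * h z) ∧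
      (∀ z ∈ S, h z ≠ 0) ∧ ∀ z ∉ S, analyticOrderNatAt h z = analyticOrderNatAt f z by
    obtain ⟨h, h1, h2, h3, -⟩ := H
    refine ⟨h, h1, h2, fun z => ⟨fun hz => ?_, fun hz => ?_⟩⟩
    · refine ⟨by rw [h2 z, hz, mul_zero], fun hS => h3 z hS hz⟩
    · have := h2 z
      rw [hz.1] at this
      rcases mul_eq_zero.mp this.symm with hp | hh
      · exfalso
        rw [Finset.prod_eq_zero_iff] at hp
        obtain ⟨ρ, hρ, hp⟩ := hp
        have : z - ρ = 0 := by
          by_contra hne'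
          exact pow_ne_zero _ hne' hp
        rw [sub_eq_zero] at this
        exact hz.2 (this ▸ hρ)
      · exact hh
  induction S using Finset.induction_on with
  | empty => exact ⟨f, hf, by simp, by simp, by simp⟩
  | insert ρ S hρ ih =>
    obtain ⟨h, h1, h2, h3, h4⟩ := ih
    have hhne : ∃ z, h z ≠ 0 := by
      obtain ⟨z, hz⟩ := hne
      refine ⟨z, fun h0 => hz ?_⟩
      rw [h2 z, h0, mul_zero]
    obtain ⟨g, g1, g2, g3⟩ := one_point h1 hhne ρ
    refine ⟨g, g1, fun z => ?_, fun z hz => ?_, fun z hz => ?_⟩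
    · rw [Finset.prod_insert hρ, ← h4 ρ hρ, h2 z, g3 z]
      ring
    · rcases Finset.mem_insert.mp hz with rfl | hz
      · exact g2
      · intro h0
        apply h3 z hz
        rw [g3 z, h0, mul_zero]
    · rw [Finset.mem_insert, not_or] at hz
      rw [← h4 z hz.2]
      exact (order_other g1 g3 hz.1).symm

theorem logderiv_factor {f h : ℂ → ℂ} (hh : Differentiable ℂ h) (S : Finset ℂ) (m : ℂ → ℕ)
    (hfac : ∀ z, f z = (∏ ρ ∈ S, (z - ρ) ^ m ρ) * h z) {z : ℂ} (hz : f z ≠ 0) :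
    deriv f z / f z = (∑ ρ ∈ S, (m ρ : ℂ) / (z - ρ)) + deriv h z / h z := by
  have hf : f = fun z => (∏ ρ ∈ S, (z - ρ) ^ m ρ) * h z := funext hfac
  have hz1 := hz
  rw [hfac z] at hz1
  have hp : ∏ ρ ∈ S, (z - ρ) ^ m ρ ≠ 0 := left_ne_zero_of_mul hz1
  have hh0 : h z ≠ 0 := right_ne_zero_of_mul hz1
  have hpi : ∀ ρ ∈ S, (z - ρ) ^ m ρ ≠ 0 := Finset.prod_ne_zero_iff.mp hp
  have hd : ∀ ρ ∈ S, DifferentiableAt ℂ (fun w : ℂ => (w - ρ) ^ m ρ) z := fun ρ _ =>
    (differentiableAt_id.sub_const ρ).pow _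
  have hdp : DifferentiableAt ℂ (fun w : ℂ => ∏ ρ ∈ S, (w - ρ) ^ m ρ) z :=
    DifferentiableAt.fun_finsetProd hd
  have e1 : logDeriv f z = logDeriv (fun w : ℂ => ∏ ρ ∈ S, (w - ρ) ^ m ρ) z + logDeriv h z := by
    rw [hf]
    exact logDeriv_mul z hp hh0 hdp (hh z)
  have e2 : logDeriv (fun w : ℂ => ∏ ρ ∈ S, (w - ρ) ^ m ρ) z =
      ∑ ρ ∈ S, logDeriv (fun w : ℂ => (w - ρ) ^ m ρ) z := by
    have := logDeriv_prod (s := S) (f := fun ρ (w : ℂ) => (w - ρ) ^ m ρ) (x := z) hpi hd
    simpa using this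
  rw [← logDeriv_apply, ← logDeriv_apply, e1, e2]
  congr 1
  refine Finset.sum_congr rfl fun ρ _ => ?_
  have e3 := logDeriv_fun_pow (f := fun w : ℂ => w - ρ) (x := z)
    (differentiableAt_id.sub_const ρ) (m ρ)
  rw [e3, logDeriv_apply]
  have : deriv (fun w : ℂ => w - ρ) z = 1 := by
    simp
  rw [this]
  ring

end Pool.Agent.Lib.GMV
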