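import Pool.Agent.Lib.GMV.FCnt

/-!
# The logarithmic derivative without the zeros of `Z χ T`

PROOF. Fix `s`, `c = 2 + i Im s` (so `‖s - c‖ ≤ 21/20`), `S` = the finite set of all zeros of `Lf χ` in the
closed ball of centre `c` and radius `5/4` (`Lf_zeros_finite`). `exists_factor` for `S` gives `h₁` without
zeros in that ball; `loc_logderiv` (`M = C log (q T)`, made `≥ 1`): `‖h₁'/h₁ s‖ ≤ 2600 M`.
`h * ∏_{ρ ∈ Z ∖ S} (z - ρ)^m = h₁ * ∏_{ρ ∈ S ∖ Z} (z - ρ)^m` for all `z` (true where `Lf χ z ≠ 0` after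
cancelling the common factors, and both sides are continuous, the zeros of `Lf χ` are isolated). The four
factors do not vanish at `s`: `h s ≠ 0` by `hz` (a zero with `Re ≥ 19/20`, `|Im| ≤ T` is in `Z χ T`),
`ρ ∈ Z ∖ S` has `‖ρ - c‖ > 5/4` so `‖s - ρ‖ ≥ 1/5`; `ρ ∈ S ∖ Z` has `|Im ρ| ≤ T - 2 + 5/4 ≤ T` so
`Re ρ < 9/10` and `‖s - ρ‖ ≥ 1/20`. Logarithmic derivative at `s`:
`h'/h = h₁'/h₁ + ∑_{S ∖ Z} m/(s - ρ) - ∑_{Z ∖ S} m/(s - ρ)`, at most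
`2600 M + 20 * C log (q T) + 5 * C T log (q T)` (`count_loc`, `count_Z`; `|Im s| ≤ T`).
-/

namespace Pool.Agent.Lib.GMV

open Complex Metric

namespace FHAux

/-- cancelling the common factors of two factorisations -/
lemma cross {f h h₁ : ℂ → ℂ} (hh : Differentiable ℂ h) (hh₁ : Differentiable ℂ h₁)
    (A B : Finset ℂ) (m : ℂ → ℕ)
    (e : ∀ z, f z = (∏ ρ ∈ A, (z - ρ) ^ m ρ) * h z)
    (e₁ : ∀ z, f z = (∏ ρ ∈ B, (z - ρ) ^ m ρ) * h₁ z) (z : ℂ) :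
    (∏ ρ ∈ A \ B, (z - ρ) ^ m ρ) * h z = (∏ ρ ∈ B \ A, (z - ρ) ^ m ρ) * h₁ z := by
  classical
  have hc1 : Continuous fun z : ℂ => (∏ ρ ∈ A \ B, (z - ρ) ^ m ρ) * h z := by
    refine Continuous.mul ?_ hh.continuous
    exact continuous_finsetProd _ fun ρ _ => (continuous_id.sub continuous_const).pow _
  have hc2 : Continuous fun z : ℂ => (∏ ρ ∈ B \ A, (z - ρ) ^ m ρ) * h₁ z := by
    refine Continuous.mul ?_ hh₁.continuous
    exact continuous_finsetProd _ fun ρ _ => (continuous_id.sub continuous_const).pow _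
  have hd : Dense ((↑(A ∩ B) : Set ℂ)ᶜ) := by
    exact Set.Countable.dense_compl ℝ (Finset.countable_toSet _)
  have key : (fun z : ℂ => (∏ ρ ∈ A \ B, (z - ρ) ^ m ρ) * h z)
      = fun z : ℂ => (∏ ρ ∈ B \ A, (z - ρ) ^ m ρ) * h₁ z := by
    refine Continuous.ext_on hd hc1 hc2 ?_
    intro w hw
    have hw' : ∀ ρ ∈ A ∩ B, w - ρ ≠ 0 := by
      intro ρ hρ h0
      apply hw
      rw [sub_eq_zero] at h0
      rw [h0]
      exact hρ
    have hP : (∏ ρ ∈ A ∩ B, (w - ρ) ^ m ρ) ≠ 0 := by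
      rw [Finset.prod_ne_zero_iff]
      intro ρ hρ
      exact pow_ne_zero _ (hw' ρ hρ)
    have s1 : (∏ ρ ∈ A, (w - ρ) ^ m ρ)
        = (∏ ρ ∈ A ∩ B, (w - ρ) ^ m ρ) * (∏ ρ ∈ A \ B, (w - ρ) ^ m ρ) := by
      rw [mul_comm, ← Finset.prod_inter_mul_prod_sdiff A B, mul_comm]
    have s2 : (∏ ρ ∈ B, (w - ρ) ^ m ρ)
        = (∏ ρ ∈ A ∩ B, (w - ρ) ^ m ρ) * (∏ ρ ∈ B \ A, (w - ρ) ^ m ρ) := by
      rw [Finset.inter_comm A B, ← Finset.prod_inter_mul_prod_sdiff B A]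
    have h3 := (e w).symm.trans (e₁ w)
    rw [s1, s2, mul_assoc, mul_assoc] at h3
    exact mul_left_cancel₀ hP h3
  exact congrFun key z

lemma norm_sum_le (A : Finset ℂ) (m : ℂ → ℕ) (s : ℂ) (d : ℝ) (hd : 0 < d)
    (h : ∀ ρ ∈ A, d ≤ ‖s - ρ‖) :
    ‖∑ ρ ∈ A, (m ρ : ℂ) / (s - ρ)‖ ≤ (1 / d) * ∑ ρ ∈ A, (m ρ : ℝ) := by
  refine (_root_.norm_sum_le _ _).trans ?_
  rw [Finset.mul_sum]
  refine Finset.sum_le_sum fun ρ hρ => ?_
  rw [norm_div, Complex.norm_natCast]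
  have h1 := h ρ hρ
  have h2 : 0 < ‖s - ρ‖ := lt_of_lt_of_le hd h1
  rw [div_le_iff₀ h2]
  have h3 : 1 ≤ (1 / d) * ‖s - ρ‖ := by
    rw [one_div, inv_mul_eq_div, le_div_iff₀ hd]
    linarith
  have h4 : (0 : ℝ) ≤ (m ρ : ℝ) := Nat.cast_nonneg _
  nlinarith

end FHAux

theorem H_bound : ∃ C : ℝ, 1 ≤ C ∧ ∀ (q : ℕ) [NeZero q] (χ : DirichletCharacter ℂ q) (T : ℝ)
    (h : ℂ → ℂ), χ.IsPrimitive → 4 ≤ T → Differentiable ℂ h →
    (∀ z, Lf χ z = (∏ ρ ∈ Z χ T, (z - ρ) ^ mul χ ρ) * h z) →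
    (∀ z, h z = 0 ↔ Lf χ z = 0 ∧ z ∉ Z χ T) →
    ∀ s : ℂ, 19 / 20 ≤ s.re → s.re ≤ 3 → |s.im| ≤ T - 2 →
      h s ≠ 0 ∧ ‖deriv h s / h s‖ ≤ C * T * Real.log (q * T) := by
  classical
  obtain ⟨C1, hC1, H1⟩ := count_loc
  obtain ⟨C2, hC2, H2⟩ := count_Z
  obtain ⟨C3, hC3, H3⟩ := Lf_growth
  refine ⟨2600 * C3 + 20 * C1 + 5 * C2, by linarith, ?_⟩
  intro q _ χ T h hχ hT hh hfac hz s hs1 hs2 hs3
  have hq : (1 : ℝ) ≤ (q : ℝ) := by
    have : 1 ≤ q := Nat.one_le_iff_ne_zero.mpr (NeZero.ne q)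
    exact_mod_cast this
  have hqT : (4 : ℝ) ≤ q * T := by nlinarith
  have hlog : 1 ≤ Real.log (q * T) := by
    rw [Real.le_log_iff_exp_le (by linarith)]
    have := Real.exp_one_lt_d9
    linarith
  have hsne : h s ≠ 0 := by
    intro h0
    have h1 := (hz s).1 h0
    apply h1.2
    rw [mem_Z]
    exact ⟨by linarith, by linarith, h1.1⟩
  refine ⟨hsne, ?_⟩
  set c : ℂ := (2 : ℂ) + (s.im : ℂ) * I with hc
  have hsc : ‖s - c‖ ≤ 21 / 20 := by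
    have e : s - c = ((s.re - 2 : ℝ) : ℂ) := by
      apply Complex.ext
      · simp [hc]
      · simp [hc]
    rw [e, Complex.norm_real, Real.norm_eq_abs, abs_le]
    constructor <;> linarith
  have hfin := Lf_zeros_finite χ (isCompact_closedBall c (5 / 4))
  set S : Finset ℂ := hfin.toFinset with hS
  have memS : ∀ ρ, ρ ∈ S ↔ ρ ∈ closedBall c (5 / 4) ∧ Lf χ ρ = 0 := by
    intro ρ
    rw [hS, Set.Finite.mem_toFinset]
    rfl
  obtain ⟨h₁, hd1, hfac1, hz1⟩ := exists_factor (Lf_differentiable χ)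
    ⟨2, Lf_ne_zero χ (by norm_num)⟩ S
  have hne1 : ∀ z ∈ closedBall c (5 / 4), h₁ z ≠ 0 := by
    intro z hzb h0
    have h1 := (hz1 z).1 h0
    exact h1.2 ((memS z).2 ⟨hzb, h1.1⟩)
  have habs : |s.im| ≤ T := by linarith
  have hgrow := H3 q χ s.im T hχ habs (by linarith)
  have hM : 1 ≤ C3 * Real.log (q * T) := by nlinarith
  have hcne : Lf χ c ≠ 0 := Lf_ne_zero χ (by simp [hc])
  have hl := loc_logderiv hM (Lf_differentiable χ) hcne hgrow S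
    (fun ρ hρ => ((memS ρ).1 hρ).1) hd1 hfac1 hne1 hsc
  -- the identity
  have hcross : ∀ z, (∏ ρ ∈ Z χ T \ S, (z - ρ) ^ mul χ ρ) * h z
      = (∏ ρ ∈ S \ Z χ T, (z - ρ) ^ mul χ ρ) * h₁ z :=
    FHAux.cross hh hd1 (Z χ T) S (mul χ) hfac hfac1
  have hA : ∀ ρ ∈ Z χ T \ S, 1 / 5 ≤ ‖s - ρ‖ := by
    intro ρ hρ
    rw [Finset.mem_sdiff] at hρ
    have h0 : ρ ∉ closedBall c (5 / 4) := fun hb => hρ.2 ((memS ρ).2 ⟨hb, (mem_Z.1 hρ.1).2.2⟩)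
    rw [mem_closedBall, dist_eq_norm, not_le] at h0
    have h1 : ‖ρ - c‖ ≤ ‖s - ρ‖ + ‖s - c‖ := by
      have : ρ - c = -(s - ρ) + (s - c) := by ring
      rw [this]
      refine (norm_add_le _ _).trans ?_
      rw [norm_neg]
    linarith
  have hB : ∀ ρ ∈ S \ Z χ T, 1 / 20 ≤ ‖s - ρ‖ := by
    intro ρ hρ
    rw [Finset.mem_sdiff] at hρ
    have h0 := (memS ρ).1 hρ.1
    have h1 : |ρ.im| ≤ T := by
      have h2 : |ρ.im - s.im| ≤ 5 / 4 := by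
        have h3 := Complex.abs_im_le_norm (ρ - c)
        have h4 : (ρ - c).im = ρ.im - s.im := by simp [hc]
        rw [h4] at h3
        have h5 := h0.1
        rw [mem_closedBall, dist_eq_norm] at h5
        linarith
      have h6 : |ρ.im| ≤ |ρ.im - s.im| + |s.im| := by
        have := abs_add_le (ρ.im - s.im) s.im
        rwa [sub_add_cancel] at this
      linarith
    have h2 : ρ.re < 9 / 10 := by
      by_contra h3
      exact hρ.2 (mem_Z.2 ⟨not_lt.1 h3, h1, h0.2⟩)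
    have h3 := Complex.abs_re_le_norm (s - ρ)
    have h4 : (s - ρ).re = s.re - ρ.re := by simp
    rw [h4] at h3
    have h5 := le_abs_self (s.re - ρ.re)
    linarith
  have hne : (∏ ρ ∈ Z χ T \ S, (s - ρ) ^ mul χ ρ) * h s ≠ 0 := by
    refine mul_ne_zero ?_ hsne
    rw [Finset.prod_ne_zero_iff]
    intro ρ hρ
    refine pow_ne_zero _ ?_
    intro h0
    have := hA ρ hρ
    rw [h0, norm_zero] at this
    linarith
  have l1 := logderiv_factor (f := fun z => (∏ ρ ∈ Z χ T \ S, (z - ρ) ^ mul χ ρ) * h z) hh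
    (Z χ T \ S) (mul χ) (fun z => rfl) (z := s) hne
  have l2 := logderiv_factor (f := fun z => (∏ ρ ∈ Z χ T \ S, (z - ρ) ^ mul χ ρ) * h z) hd1
    (S \ Z χ T) (mul χ) hcross (z := s) hne
  have e : deriv h s / h s = deriv h₁ s / h₁ s + (∑ ρ ∈ S \ Z χ T, (mul χ ρ : ℂ) / (s - ρ))
      - ∑ ρ ∈ Z χ T \ S, (mul χ ρ : ℂ) / (s - ρ) := by
    have := l1.symm.trans l2
    linear_combination this
  have b1 := FHAux.norm_sum_le (S \ Z χ T) (mul χ) s (1 / 20) (by norm_num) hB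
  have b2 := FHAux.norm_sum_le (Z χ T \ S) (mul χ) s (1 / 5) (by norm_num) hA
  have c1 := H1 q χ s.im T hχ habs (by linarith) (S \ Z χ T)
    (fun ρ hρ => ((memS ρ).1 (Finset.mem_sdiff.1 hρ).1).1)
  have c2 := H2 q χ T hχ (by linarith)
  have c3 : ∑ ρ ∈ Z χ T \ S, (mul χ ρ : ℝ) ≤ ∑ ρ ∈ Z χ T, (mul χ ρ : ℝ) :=
    Finset.sum_le_sum_of_subset_of_nonneg Finset.sdiff_subset (fun _ _ _ => Nat.cast_nonneg _)
  rw [e]
  have t1 : ‖deriv h₁ s / h₁ s + (∑ ρ ∈ S \ Z χ T, (mul χ ρ : ℂ) / (s - ρ))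
      - ∑ ρ ∈ Z χ T \ S, (mul χ ρ : ℂ) / (s - ρ)‖
      ≤ ‖deriv h₁ s / h₁ s‖ + ‖∑ ρ ∈ S \ Z χ T, (mul χ ρ : ℂ) / (s - ρ)‖
        + ‖∑ ρ ∈ Z χ T \ S, (mul χ ρ : ℂ) / (s - ρ)‖ := by
    refine (norm_sub_le _ _).trans ?_
    have := norm_add_le (deriv h₁ s / h₁ s) (∑ ρ ∈ S \ Z χ T, (mul χ ρ : ℂ) / (s - ρ))
    linarith
  have hL : 0 ≤ Real.log (q * T) := by linarith
  have hLT : Real.log (q * T) ≤ T * Real.log (q * T) := by nlinarith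
  calc _ ≤ _ := t1
    _ ≤ 2600 * (C3 * Real.log (q * T)) + 20 * (C1 * Real.log (q * T))
        + 5 * (C2 * T * Real.log (q * T)) := by
      norm_num at b1 b2
      linarith
    _ ≤ (2600 * C3 + 20 * C1 + 5 * C2) * T * Real.log (q * T) := by
      have k1 : C3 * Real.log (q * T) ≤ C3 * (T * Real.log (q * T)) :=
        mul_le_mul_of_nonneg_left hLT (by linarith)
      have k2 : C1 * Real.log (q * T) ≤ C1 * (T * Real.log (q * T)) :=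
        mul_le_mul_of_nonneg_left hLT (by linarith)
      nlinarith

end Pool.Agent.Lib.GMV
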