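import Mathlib

/-!
# The triangle kernel and its Mellin transform

`tri U y x = max 0 (U - |x - y|) / U²`, `FF U y s = ((y+U)^(s+1) - 2 y^(s+1) + (y-U)^(s+1)) / (U² s (s+1))`.

PROOF. `tri_nonneg`, `tri_le`, `tri_eq_zero`, `tri_continuous`: immediate. `integral_tri`: the area of the
triangle (split at `y`). `mellin_tri`: on `x > 0`,
`U² tri = (y+U-x)₊ - 2 (y-x)₊ + (y-U-x)₊` and `∫_0^b (b - x) x^(s-1) dx = b^(s+1)/(s (s+1))` for `b > 0`,
`Re s > 0` (`integral_cpow`); `MellinConvergent`: continuous with compact support in `(0, ∞)`, or as a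
combination of the three. `FF_differentiableAt`: clear (`s ≠ 0`, `s + 1 ≠ 0`).
-/

namespace Pool.Agent.Lib.GMV

open Complex MeasureTheory Set

/-- the triangle kernel of half width `U` centred at `y` -/
noncomputable def tri (U y x : ℝ) : ℝ := max 0 (U - |x - y|) / U ^ 2

/-- its Mellin transform -/
noncomputable def FF (U y : ℝ) (s : ℂ) : ℂ :=
  (((y + U : ℝ) : ℂ) ^ (s + 1) - 2 * (y : ℂ) ^ (s + 1) + ((y - U : ℝ) : ℂ) ^ (s + 1)) /
    ((U : ℂ) ^ 2 * (s * (s + 1)))

theorem tri_nonneg (U y x : ℝ) : 0 ≤ tri U y x := by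
  unfold tri
  positivity

theorem tri_le {U : ℝ} (hU : 0 < U) (y x : ℝ) : tri U y x ≤ 1 / U := by
  unfold tri
  rw [div_le_div_iff₀ (by positivity) hU]
  have h : max 0 (U - |x - y|) ≤ U := max_le hU.le (by linarith [abs_nonneg (x - y)])
  nlinarith

theorem tri_eq_zero {U y x : ℝ} (h : U ≤ |x - y|) : tri U y x = 0 := by
  unfold tri
  rw [max_eq_left (by linarith), zero_div]

theorem tri_continuous (U y : ℝ) : Continuous (tri U y) := by
  unfold tri
  fun_prop

theorem integral_tri {U : ℝ} (hU : 0 < U) (y : ℝ) : ∫ x in (y - U)..(y + U), tri U y x = 1 := by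
  have hi : ∀ a b : ℝ, IntervalIntegrable (tri U y) volume a b := fun a b =>
    (tri_continuous U y).intervalIntegrable a b
  rw [← intervalIntegral.integral_add_adjacent_intervals (hi (y - U) y) (hi y (y + U))]
  have lin : ∀ a b c d : ℝ, ∫ x in a..b, (c + d * x) = c * (b - a) + d * ((b ^ 2 - a ^ 2) / 2) := by
    intro a b c d
    have hd : IntervalIntegrable (fun x : ℝ => d * x) volume a b :=
      (by fun_prop : Continuous fun x : ℝ => d * x).intervalIntegrable a b
    rw [intervalIntegral.integral_add intervalIntegrable_const hd,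
      intervalIntegral.integral_const, intervalIntegral.integral_const_mul, integral_id]
    simp only [smul_eq_mul]
    ring
  have h1 : ∫ x in (y - U)..y, tri U y x =
      ∫ x in (y - U)..y, ((U - y) / U ^ 2 + 1 / U ^ 2 * x) := by
    refine intervalIntegral.integral_congr fun x hx => ?_
    rw [uIcc_of_le (by linarith)] at hx
    have hx1 := hx.1
    have hx2 := hx.2
    simp only [tri]
    rw [abs_of_nonpos (by linarith), max_eq_right (by linarith)]
    ring
  have h2 : ∫ x in y..(y + U), tri U y x =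
      ∫ x in y..(y + U), ((U + y) / U ^ 2 + (-1 / U ^ 2) * x) := by
    refine intervalIntegral.integral_congr fun x hx => ?_
    rw [uIcc_of_le (by linarith)] at hx
    have hx1 := hx.1
    have hx2 := hx.2
    simp only [tri]
    rw [abs_of_nonneg (by linarith), max_eq_right (by linarith)]
    ring
  rw [h1, h2, lin, lin]
  field_simp
  ring

namespace FKerAux

theorem ramp_aux {b : ℝ} (hb : 0 < b) {s : ℂ} (hs : 0 < s.re) :
    MellinConvergent (fun x => ((max 0 (b - x) : ℝ) : ℂ)) s ∧
      mellin (fun x => ((max 0 (b - x) : ℝ) : ℂ)) s = (b : ℂ) ^ (s + 1) / (s * (s + 1)) := by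
  have hs0 : s ≠ 0 := by
    rintro rfl
    simp at hs
  have hs1 : s + 1 ≠ 0 := by
    intro h
    have h2 : (s + 1).re = 0 := by rw [h]; simp
    simp at h2
    linarith
  have hi1 : IntervalIntegrable (fun x : ℝ => (x : ℂ) ^ (s - 1)) volume 0 b :=
    intervalIntegral.intervalIntegrable_cpow' (by simp; linarith)
  have hi2 : IntervalIntegrable (fun x : ℝ => (x : ℂ) ^ s) volume 0 b :=
    intervalIntegral.intervalIntegrable_cpow' (by linarith)
  have hi : IntervalIntegrable (fun x : ℝ => (b : ℂ) * (x : ℂ) ^ (s - 1) - (x : ℂ) ^ s)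
      volume 0 b := (hi1.const_mul _).sub hi2
  have heq : EqOn (fun x : ℝ => (b : ℂ) * (x : ℂ) ^ (s - 1) - (x : ℂ) ^ s)
      (fun x : ℝ => (x : ℂ) ^ (s - 1) • ((max 0 (b - x) : ℝ) : ℂ)) (Ioc 0 b) := by
    intro x hx
    have hx0 : (x : ℂ) ≠ 0 := by exact_mod_cast hx.1.ne'
    have hx2 := hx.2
    simp only [smul_eq_mul]
    rw [max_eq_right (by linarith)]
    have : (x : ℂ) ^ s = (x : ℂ) ^ (s - 1) * x := by
      rw [Complex.cpow_sub _ _ hx0, Complex.cpow_one, div_mul_cancel₀ _ hx0]
    rw [this]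
    push_cast
    ring
  have hz : ∀ x ∈ Ioi (0 : ℝ) \ Ioc 0 b,
      (fun x : ℝ => (x : ℂ) ^ (s - 1) • ((max 0 (b - x) : ℝ) : ℂ)) x = 0 := by
    intro x hx
    have hx1 : 0 < x := hx.1
    have hx2 : b < x := by
      by_contra hcon
      exact hx.2 ⟨hx1, not_lt.mp hcon⟩
    simp only [smul_eq_mul]
    rw [max_eq_left (by linarith)]
    simp
  have hint : IntegrableOn (fun x : ℝ => (x : ℂ) ^ (s - 1) • ((max 0 (b - x) : ℝ) : ℂ))
      (Ioc 0 b) := by
    have h := (intervalIntegrable_iff_integrableOn_Ioc_of_le hb.le).mp hi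
    exact h.congr_fun heq measurableSet_Ioc
  constructor
  · unfold MellinConvergent
    exact hint.of_forall_sdiff_eq_zero measurableSet_Ioi hz
  · change ∫ x in Ioi (0 : ℝ), (fun x : ℝ => (x : ℂ) ^ (s - 1) • ((max 0 (b - x) : ℝ) : ℂ)) x = _
    rw [setIntegral_eq_of_subset_of_forall_sdiff_eq_zero measurableSet_Ioi
      (Ioc_subset_Ioi_self) hz, ← setIntegral_congr_fun measurableSet_Ioc heq,
      ← intervalIntegral.integral_of_le hb.le,
      intervalIntegral.integral_sub (hi1.const_mul _) hi2,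
      intervalIntegral.integral_const_mul, integral_cpow (by left; simp; linarith),
      integral_cpow (by left; linarith)]
    have hb0 : (b : ℂ) ≠ 0 := by exact_mod_cast hb.ne'
    rw [sub_add_cancel, Complex.ofReal_zero, Complex.zero_cpow hs0, Complex.zero_cpow hs1,
      Complex.cpow_add _ _ hb0, Complex.cpow_one]
    field_simp
    ring

theorem tri_eq_ramp {U : ℝ} (hU : 0 < U) (y x : ℝ) :
    max 0 (U - |x - y|) =
      max 0 (y + U - x) - 2 * max 0 (y - x) + max 0 (y - U - x) := by
  rcases le_total x y with h | h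
  · rw [abs_of_nonpos (by linarith), max_eq_right (a := 0) (b := y - x) (by linarith),
      max_eq_right (a := 0) (b := y + U - x) (by linarith)]
    rcases le_total x (y - U) with h2 | h2
    · rw [max_eq_left (by linarith), max_eq_right (by linarith)]
      ring
    · rw [max_eq_right (by linarith), max_eq_left (by linarith)]
      ring
  · rw [abs_of_nonneg (by linarith), max_eq_left (a := 0) (b := y - x) (by linarith),
      max_eq_left (a := 0) (b := y - U - x) (by linarith)]
    rcases le_total x (y + U) with h2 | h2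
    · rw [max_eq_right (by linarith), max_eq_right (by linarith)]
      ring
    · rw [max_eq_left (by linarith), max_eq_left (by linarith)]
      ring

end FKerAux

theorem mellin_tri {U y : ℝ} (hU : 0 < U) (hy : 2 * U ≤ y) {s : ℂ} (hs : 0 < s.re) :
    MellinConvergent (fun x => (tri U y x : ℂ)) s ∧
      mellin (fun x => (tri U y x : ℂ)) s = FF U y s := by
  obtain ⟨c1, m1⟩ := FKerAux.ramp_aux (b := y + U) (by linarith) hs
  obtain ⟨c2, m2⟩ := FKerAux.ramp_aux (b := y) (by linarith) hs
  obtain ⟨c3, m3⟩ := FKerAux.ramp_aux (b := y - U) (by linarith) hs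
  have hf : (fun x => (tri U y x : ℂ)) = fun x =>
      ((U : ℂ) ^ 2)⁻¹ • (((max 0 (y + U - x) : ℝ) : ℂ) - (2 : ℂ) • ((max 0 (y - x) : ℝ) : ℂ) +
        ((max 0 (y - U - x) : ℝ) : ℂ)) := by
    funext x
    unfold tri
    rw [FKerAux.tri_eq_ramp hU]
    simp only [smul_eq_mul]
    push_cast
    ring
  rw [hf]
  have h12 := hasMellin_sub c1 (c2.const_smul (2 : ℂ))
  have h123 := hasMellin_add h12.1 c3
  refine ⟨h123.1.const_smul _, ?_⟩
  rw [mellin_const_smul, h123.2, h12.2, mellin_const_smul, m1, m2, m3]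
  simp only [smul_eq_mul, FF]
  have hs0 : s ≠ 0 := by
    rintro rfl
    simp at hs
  have hs1 : s + 1 ≠ 0 := by
    intro h
    have h2 : (s + 1).re = 0 := by rw [h]; simp
    simp at h2
    linarith
  have hU0 : (U : ℂ) ≠ 0 := by exact_mod_cast hU.ne'
  field_simp

theorem FF_differentiableAt {U y : ℝ} (hU : 0 < U) (hy : 2 * U ≤ y) {s : ℂ} (hs : 0 < s.re) :
    DifferentiableAt ℂ (FF U y) s := by
  have hs0 : s ≠ 0 := by
    rintro rfl
    simp at hs
  have hs1 : s + 1 ≠ 0 := by
    intro h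
    have h2 : (s + 1).re = 0 := by rw [h]; simp
    simp at h2
    linarith
  have hU0 : (U : ℂ) ≠ 0 := by exact_mod_cast hU.ne'
  have hcp : ∀ b : ℝ, 0 < b → DifferentiableAt ℂ (fun z : ℂ => (b : ℂ) ^ (z + 1)) s := by
    intro b hb
    exact (differentiableAt_id.add_const 1).const_cpow (Or.inl (by exact_mod_cast hb.ne'))
  unfold FF
  refine DifferentiableAt.div ?_ ?_ ?_
  · exact ((hcp _ (by linarith)).sub ((hcp _ (by linarith)).const_mul 2)).add
      (hcp _ (by linarith))
  · fun_prop
  · exact mul_ne_zero (pow_ne_zero 2 hU0) (mul_ne_zero hs0 hs1)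

end Pool.Agent.Lib.GMV
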