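import Pool.Agent.Lib.GMV.FKer

/-!
# Bounds and inversion for the transform of the triangle kernel

PROOF. `FF_bound`: by `mellin_tri`, `‖FF‖ ≤ ∫ tri x^(σ-1) ≤ 2 y^(σ-1)`, because `y/2 ≤ x ≤ 3y/2` on the
support, `|σ - 1| ≤ 1` gives `(x/y)^(σ-1) ≤ 2`, and `∫ tri = 1` (`integral_tri`). `FF_decay`: each of the terms is
at most `(3y/2)^(σ+1)`, `4 (3/2)^3 ≤ 14`, `‖s (s+1)‖ ≥ t²`. `FF_integrable`: continuity in `t` (`σ > 0`) and the
two bounds. `FF_inversion`: `mellin_inversion` of Mathlib for `x ↦ (tri U y x : ℂ)`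
(`VerticalIntegrable` is `FF_integrable`, `mellinInv` has the factor `1/(2π)`).
-/

namespace Pool.Agent.Lib.GMV

open Complex MeasureTheory Set

namespace FKerBAux

theorem tri_supp {U y x : ℝ} (hx : x ∉ Ioc (y - U) (y + U)) : tri U y x = 0 := by
  apply tri_eq_zero
  by_contra hcon
  rw [not_le, abs_lt] at hcon
  exact hx ⟨by linarith [hcon.1], by linarith [hcon.2]⟩

theorem integral_Ioi_tri {U y : ℝ} (hU : 0 < U) (hy : 2 * U ≤ y) :
    ∫ x in Ioi (0 : ℝ), tri U y x = 1 := by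
  rw [setIntegral_eq_of_subset_of_forall_sdiff_eq_zero (s := Ioc (y - U) (y + U))
    measurableSet_Ioi (fun x hx => by simp only [mem_Ioi]; linarith [hx.1])
    (fun x hx => tri_supp hx.2), ← intervalIntegral.integral_of_le (by linarith),
    integral_tri hU]

theorem integrableOn_tri {U y : ℝ} (hU : 0 < U) : IntegrableOn (tri U y) (Ioi 0) := by
  have h : IntegrableOn (tri U y) (Ioc (y - U) (y + U)) := by
    have := (tri_continuous U y).intervalIntegrable (μ := volume) (y - U) (y + U)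
    exact (intervalIntegrable_iff_integrableOn_Ioc_of_le (by linarith)).mp this
  have h2 : Integrable (tri U y) := by
    rw [← integrableOn_univ]
    exact h.of_forall_sdiff_eq_zero MeasurableSet.univ (fun x hx => tri_supp hx.2)
  exact h2.integrableOn

theorem rpow_le_two {x y a : ℝ} (hy : 0 < y) (hx1 : y / 2 ≤ x) (hx2 : x ≤ 3 * y / 2)
    (ha1 : -1 ≤ a) (ha2 : a ≤ 1) : x ^ a ≤ 2 * y ^ a := by
  have hx : 0 < x := by linarith
  have h1 : x ^ a = (x / y) ^ a * y ^ a := by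
    rw [← Real.mul_rpow (by positivity) hy.le, div_mul_cancel₀ _ hy.ne']
  rw [h1]
  refine mul_le_mul_of_nonneg_right ?_ (by positivity)
  have hq1 : 1 / 2 ≤ x / y := by rw [div_le_div_iff₀ (by norm_num) hy]; linarith
  have hq2 : x / y ≤ 2 := by rw [div_le_iff₀ hy]; linarith
  have hq0 : 0 < x / y := by positivity
  rcases le_total 1 (x / y) with h | h
  · calc (x / y) ^ a ≤ (x / y) ^ (1 : ℝ) := Real.rpow_le_rpow_of_exponent_le h ha2
      _ = x / y := Real.rpow_one _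
      _ ≤ 2 := hq2
  · calc (x / y) ^ a ≤ (x / y) ^ (-1 : ℝ) := Real.rpow_le_rpow_of_exponent_ge hq0 h ha1
      _ = (x / y)⁻¹ := Real.rpow_neg_one _
      _ ≤ (1 / 2)⁻¹ := by
        gcongr
      _ = 2 := by norm_num

end FKerBAux

theorem FF_bound {U y : ℝ} (hU : 0 < U) (hy : 2 * U ≤ y) {s : ℂ} (hs : 0 < s.re)
    (hs2 : s.re ≤ 2) : ‖FF U y s‖ ≤ 2 * y ^ (s.re - 1) := by
  have hy0 : 0 < y := by linarith
  rw [← (mellin_tri hU hy hs).2]
  unfold mellin
  have hg : IntegrableOn (fun x => 2 * y ^ (s.re - 1) * tri U y x) (Ioi 0) :=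
    (FKerBAux.integrableOn_tri hU).const_mul _
  refine (norm_integral_le_of_norm_le hg ?_).trans ?_
  · refine (ae_restrict_iff' measurableSet_Ioi).2 (Filter.Eventually.of_forall fun x hx => ?_)
    have hx0 : 0 < x := hx
    rw [norm_smul, norm_cpow_eq_rpow_re_of_pos hx0, norm_real, Real.norm_of_nonneg (tri_nonneg U y x)]
    simp only [sub_re, one_re]
    by_cases hx : x ∈ Ioc (y - U) (y + U)
    · refine mul_le_mul_of_nonneg_right ?_ (tri_nonneg U y x)
      exact FKerBAux.rpow_le_two hy0 (by linarith [hx.1]) (by linarith [hx.2]) (by linarith)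
        (by linarith)
    · rw [FKerBAux.tri_supp hx]
      simp
  · rw [integral_const_mul, FKerBAux.integral_Ioi_tri hU hy, mul_one]

theorem FF_decay {U y : ℝ} (hU : 0 < U) (hy : 2 * U ≤ y) {s : ℂ} (hs : 0 < s.re)
    (hs2 : s.re ≤ 2) (ht : s.im ≠ 0) : ‖FF U y s‖ ≤ 14 * y ^ (s.re + 1) / (U ^ 2 * s.im ^ 2) := by
  have hy0 : 0 < y := by linarith
  have ht2 : 0 < s.im ^ 2 := by positivity
  unfold FF
  rw [norm_div]
  have hden : U ^ 2 * s.im ^ 2 ≤ ‖(U : ℂ) ^ 2 * (s * (s + 1))‖ := by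
    rw [norm_mul, norm_mul, norm_pow, norm_real, Real.norm_of_nonneg hU.le]
    have h1 : |s.im| ≤ ‖s‖ := abs_im_le_norm s
    have h2 : |s.im| ≤ ‖s + 1‖ := by
      have := abs_im_le_norm (s + 1)
      simpa using this
    have h3 : s.im ^ 2 ≤ ‖s‖ * ‖s + 1‖ := by
      rw [← sq_abs, sq]
      exact mul_le_mul h1 h2 (abs_nonneg _) (norm_nonneg _)
    exact mul_le_mul_of_nonneg_left h3 (by positivity)
  have hb : ∀ b : ℝ, 0 < b → b ≤ 3 / 2 * y → ‖(b : ℂ) ^ (s + 1)‖ ≤ 27 / 8 * y ^ (s.re + 1) := by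
    intro b hb hb2
    rw [norm_cpow_eq_rpow_re_of_pos hb]
    simp only [add_re, one_re]
    calc b ^ (s.re + 1) ≤ (3 / 2 * y) ^ (s.re + 1) :=
          Real.rpow_le_rpow hb.le hb2 (by linarith)
      _ = (3 / 2) ^ (s.re + 1) * y ^ (s.re + 1) := Real.mul_rpow (by norm_num) hy0.le
      _ ≤ (3 / 2) ^ (3 : ℝ) * y ^ (s.re + 1) := by
          refine mul_le_mul_of_nonneg_right ?_ (by positivity)
          exact Real.rpow_le_rpow_of_exponent_le (by norm_num) (by linarith)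
      _ = 27 / 8 * y ^ (s.re + 1) := by norm_num
  have hnum : ‖((y + U : ℝ) : ℂ) ^ (s + 1) - 2 * (y : ℂ) ^ (s + 1) +
      ((y - U : ℝ) : ℂ) ^ (s + 1)‖ ≤ 14 * y ^ (s.re + 1) := by
    have h1 := hb (y + U) (by linarith) (by linarith)
    have h3 := hb (y - U) (by linarith) (by linarith)
    have h2 : ‖2 * (y : ℂ) ^ (s + 1)‖ ≤ 2 * (27 / 8 * y ^ (s.re + 1)) := by
      rw [norm_mul]
      have := hb y hy0 (by linarith)
      have h22 : ‖(2 : ℂ)‖ = 2 := by simp
      rw [h22]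
      linarith
    have h4 := norm_add_le (((y + U : ℝ) : ℂ) ^ (s + 1) - 2 * (y : ℂ) ^ (s + 1))
      (((y - U : ℝ) : ℂ) ^ (s + 1))
    have h5 := norm_sub_le (((y + U : ℝ) : ℂ) ^ (s + 1)) (2 * (y : ℂ) ^ (s + 1))
    have h6 : 0 ≤ y ^ (s.re + 1) := by positivity
    linarith
  exact div_le_div₀ (by positivity) hnum (by positivity) hden

theorem FF_integrable {U y σ : ℝ} (hU : 0 < U) (hy : 2 * U ≤ y) (hσ : 0 < σ) (hσ2 : σ ≤ 2) :
    Integrable (fun t : ℝ => FF U y (σ + t * I)) := by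
  have hy0 : 0 < y := by linarith
  have hcont : Continuous (fun t : ℝ => FF U y (σ + t * I)) := by
    rw [continuous_iff_continuousAt]
    intro t
    have h1 : ContinuousAt (FF U y) (σ + t * I) :=
      (FF_differentiableAt hU hy (s := σ + t * I) (by simpa using hσ)).continuousAt
    exact ContinuousAt.comp' (f := fun t : ℝ => (σ : ℂ) + t * I) h1
      (by fun_prop)
  have hK : Integrable (fun t : ℝ =>
      (4 * y ^ (σ - 1) + 28 * y ^ (σ + 1) / U ^ 2) * (1 + t ^ 2)⁻¹) :=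
    integrable_inv_one_add_sq.const_mul _
  refine hK.mono' hcont.aestronglyMeasurable (Filter.Eventually.of_forall fun t => ?_)
  have hre : ((σ : ℂ) + t * I).re = σ := by simp
  have him : ((σ : ℂ) + t * I).im = t := by simp
  have hpos : (0 : ℝ) < 1 + t ^ 2 := by positivity
  rw [← div_eq_mul_inv, le_div_iff₀ hpos]
  have hb := FF_bound hU hy (s := σ + t * I) (by rw [hre]; exact hσ) (by rw [hre]; exact hσ2)
  rw [hre] at hb
  have hp1 : 0 ≤ y ^ (σ - 1) := by positivity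
  have hp2 : 0 ≤ 28 * y ^ (σ + 1) / U ^ 2 := by positivity
  rcases le_total (t ^ 2) 1 with h | h
  · calc ‖FF U y (σ + t * I)‖ * (1 + t ^ 2) ≤ (2 * y ^ (σ - 1)) * 2 := by
          apply mul_le_mul hb (by linarith) (by positivity) (by positivity)
      _ ≤ _ := by linarith
  · have ht : t ≠ 0 := by
      rintro rfl
      norm_num at h
    have hd := FF_decay hU hy (s := σ + t * I) (by rw [hre]; exact hσ) (by rw [hre]; exact hσ2)
      (by rw [him]; exact ht)
    rw [hre, him] at hd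
    have ht2 : 0 < t ^ 2 := by positivity
    have hd2 : ‖FF U y (σ + t * I)‖ * t ^ 2 ≤ 14 * y ^ (σ + 1) / U ^ 2 := by
      have h3 : 14 * y ^ (σ + 1) / (U ^ 2 * t ^ 2) * t ^ 2 = 14 * y ^ (σ + 1) / U ^ 2 := by
        field_simp
      rw [← h3]
      exact mul_le_mul_of_nonneg_right hd ht2.le
    have hd3 : ‖FF U y (σ + t * I)‖ ≤ ‖FF U y (σ + t * I)‖ * t ^ 2 := by
      nlinarith [norm_nonneg (FF U y (σ + t * I))]
    have h4 : 28 * y ^ (σ + 1) / U ^ 2 = 2 * (14 * y ^ (σ + 1) / U ^ 2) := by ring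
    rw [h4]
    nlinarith

theorem FF_inversion {U y σ x : ℝ} (hU : 0 < U) (hy : 2 * U ≤ y) (hσ : 0 < σ) (hσ2 : σ ≤ 2)
    (hx : 0 < x) :
    ∫ t : ℝ, FF U y (σ + t * I) * (x : ℂ) ^ (-((σ : ℂ) + t * I)) = 2 * Real.pi * tri U y x := by
  have hm : ∀ t : ℝ, mellin (fun x => (tri U y x : ℂ)) (σ + t * I) = FF U y (σ + t * I) :=
    fun t => (mellin_tri hU hy (s := σ + t * I) (by simpa using hσ)).2
  have h := mellinInv_mellin_eq σ (fun x => (tri U y x : ℂ)) hx
    (mellin_tri hU hy (s := (σ : ℂ)) (by simpa using hσ)).1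
    (by
      unfold VerticalIntegrable
      simp_rw [hm]
      exact FF_integrable hU hy hσ hσ2)
    (continuous_ofReal.comp (tri_continuous U y)).continuousAt
  unfold mellinInv at h
  simp_rw [hm] at h
  have h2 : ∫ t : ℝ, FF U y (σ + t * I) * (x : ℂ) ^ (-((σ : ℂ) + t * I)) =
      ∫ t : ℝ, (x : ℂ) ^ (-((σ : ℂ) + t * I)) • FF U y (σ + t * I) := by
    refine integral_congr_ae (Filter.Eventually.of_forall fun t => ?_)
    simp only [smul_eq_mul]
    ring
  have hpi : (Real.pi : ℂ) ≠ 0 := by exact_mod_cast Real.pi_ne_zero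
  have hJ : ∀ J : ℂ, J = 2 * Real.pi * ((1 / (2 * Real.pi) : ℝ) • J) := by
    intro J
    rw [real_smul]
    push_cast
    field_simp
  rw [h2, ← h]
  exact hJ _

end Pool.Agent.Lib.GMV
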