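import Pool.Agent.Lib.GMV.FFac
import Pool.Agent.Lib.VK.LogDer

/-!
# Zeros in a disc and the logarithmic derivative without them

`f` entire, `‖f z‖ ≤ e^M ‖f c‖` on the closed ball of centre `c` and radius `3/2`.

PROOF. `loc_count`: let `h` be given by `exists_factor` for `S`, and
`g z = h z * ∏ ρ ∈ S, ((R² - conj (ρ - c) (z - c)) / R)^(m ρ)`, `R = 3/2`. On `|z - c| = R` one has
`|R² - conj (ρ - c) (z - c)| = R |z - ρ|`, so `|g| = |f| ≤ e^M |f c|`; maximum principle at `c`: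
`|g c| ≤ e^M |f c|`. And `|g c| = |h c| R^N`, `|f c| = |h c| ∏ |c - ρ|^m ≤ |h c| (5/4)^N`, where
`N = ∑ m`, so `(6/5)^N ≤ e^M` (`h c ≠ 0` because `f c ≠ 0`), `N ≤ M / log (6/5) ≤ 6 M`
(`log (6/5) ≥ 1/6` since `log (1/(1 - x)) ≥ x`).
(If a point of `S` is not a zero of `f` its order is `0`; `f c ≠ 0` gives `c` order `0`.)
`loc_logderiv`: on `|z - c| = 3/2` all `|z - ρ| ≥ 1/4`, so `|h z| ≤ e^M |f c| 4^N`, and
`|h c| = |f c| / ∏ |c - ρ|^m ≥ |f c| (4/5)^N`: `|h z| ≤ e^M 5^N |h c| ≤ e^(11 M) |h c|` on the closed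
ball of radius `3/2` (maximum principle; `N ≤ 6 M`, `6 log 5 ≤ 10`). `h` has no zero in the closed
ball of radius `5/4` (`hz`). Holomorphic logarithm on the open ball of radius `5/4`
(`Pool.Agent.VK.LogDerAux.exists_log` in `Pool.Agent.Lib.VK.LogDer`), Borel-Caratheodory
(`Complex.borelCaratheodory_zero`): `|g z| ≤ 2 (11 M) (23/20)/(1/10) = 253 M` for `|z - c| ≤ 23/20`,
Cauchy estimate with radius `1/10`: `|h'/h| = |g'| ≤ 2530 M` for `|z - c| ≤ 21/20`.
(You may add the import `Pool.Agent.Lib.VK.LogDer`.)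
-/

namespace Pool.Agent.Lib.GMV

open Complex Metric

namespace FLocAux

/-- maximum principle on a closed ball -/
theorem maxBall {g : ℂ → ℂ} (hg : Differentiable ℂ g) {c : ℂ} {r C : ℝ} (hr : 0 < r)
    (hb : ∀ z, ‖z - c‖ = r → ‖g z‖ ≤ C) {z : ℂ} (hz : ‖z - c‖ ≤ r) : ‖g z‖ ≤ C := by
  refine Complex.norm_le_of_forall_mem_frontier_norm_le (U := ball c r) isBounded_ball
    hg.diffContOnCl (fun w hw => ?_) ?_
  · rw [frontier_ball c hr.ne', mem_sphere, dist_eq_norm] at hw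
    exact hb w hw
  · rw [closure_ball c hr.ne', mem_closedBall, dist_eq_norm]
    exact hz

/-- the value at the centre -/
theorem centre {f h : ℂ → ℂ} {c : ℂ} (S : Finset ℂ) (m : ℂ → ℕ)
    (hS : ∀ ρ ∈ S, ρ ∈ closedBall c (5 / 4))
    (hfac : ∀ z, f z = (∏ ρ ∈ S, (z - ρ) ^ m ρ) * h z) :
    ‖f c‖ ≤ (5 / 4) ^ (∑ ρ ∈ S, m ρ) * ‖h c‖ := by
  rw [hfac c, norm_mul, norm_prod]
  refine mul_le_mul_of_nonneg_right ?_ (norm_nonneg _)
  rw [← Finset.prod_pow_eq_pow_sum]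
  refine Finset.prod_le_prod (fun ρ _ => norm_nonneg _) (fun ρ hρ => ?_)
  rw [norm_pow]
  refine pow_le_pow_left₀ (norm_nonneg _) ?_ _
  have := hS ρ hρ
  rw [mem_closedBall, dist_eq_norm, norm_sub_rev] at this
  exact this

theorem blaschke {c ρ z : ℂ} {R : ℝ} (hz : ‖z - c‖ = R) :
    ‖(R : ℂ) ^ 2 - (starRingEnd ℂ) (ρ - c) * (z - c)‖ = R * ‖z - ρ‖ := by
  have h1 : (R : ℂ) ^ 2 = (starRingEnd ℂ) (z - c) * (z - c) := by
    rw [← hz, Complex.conj_mul']
  have h2 : (R : ℂ) ^ 2 - (starRingEnd ℂ) (ρ - c) * (z - c) =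
      (z - c) * (starRingEnd ℂ) (z - ρ) := by
    rw [h1, map_sub, map_sub, map_sub]
    ring
  rw [h2, norm_mul, hz, Complex.norm_conj]

end FLocAux

open FLocAux

theorem loc_count {f : ℂ → ℂ} {c : ℂ} {M : ℝ} (hf : Differentiable ℂ f) (hc : f c ≠ 0)
    (hb : ∀ z ∈ closedBall c (3 / 2), ‖f z‖ ≤ Real.exp M * ‖f c‖) (S : Finset ℂ)
    (hS : ∀ ρ ∈ S, ρ ∈ closedBall c (5 / 4)) :
    ∑ ρ ∈ S, (analyticOrderNatAt f ρ : ℝ) ≤ 6 * M := by
  obtain ⟨h, hh, hfac, -⟩ := exists_factor hf ⟨c, hc⟩ S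
  have hcc := centre S (analyticOrderNatAt f) hS hfac
  set N : ℕ := ∑ ρ ∈ S, analyticOrderNatAt f ρ with hN
  have hhc : 0 < ‖h c‖ := by
    refine norm_pos_iff.2 fun h0 => hc ?_
    rw [hfac c, h0, mul_zero]
  set g : ℂ → ℂ := fun z => h z * ∏ ρ ∈ S,
    ((((3 / 2 : ℝ) : ℂ) ^ 2 - (starRingEnd ℂ) (ρ - c) * (z - c)) / ((3 / 2 : ℝ) : ℂ)) ^
      analyticOrderNatAt f ρ with hg
  have hgd : Differentiable ℂ g := by
    rw [hg]
    refine hh.mul (Differentiable.fun_finsetProd fun ρ _ => ?_)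
    fun_prop
  have hR : ‖((3 / 2 : ℝ) : ℂ)‖ = 3 / 2 := by
    rw [Complex.norm_real, Real.norm_of_nonneg (by norm_num)]
  have hgb : ∀ z, ‖z - c‖ = 3 / 2 → ‖g z‖ ≤ Real.exp M * ‖f c‖ := by
    intro z hz
    have h1 : ‖g z‖ = ‖f z‖ := by
      rw [hg, hfac z]
      simp only [norm_mul, norm_prod, norm_pow, norm_div]
      rw [mul_comm]
      congr 1
      refine Finset.prod_congr rfl fun ρ _ => ?_
      have := blaschke (ρ := ρ) hz
      rw [this, hR, mul_div_cancel_left₀ _ (by norm_num)]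
    rw [h1]
    refine hb z ?_
    rw [mem_closedBall, dist_eq_norm, hz]
  have hgc := maxBall hgd (by norm_num) hgb (z := c) (by rw [sub_self, norm_zero]; norm_num)
  have hgc' : ‖g c‖ = ‖h c‖ * (3 / 2) ^ N := by
    rw [hg]
    simp only [norm_mul, norm_prod, norm_pow, norm_div, sub_self, mul_zero, sub_zero, hR]
    rw [hN, ← Finset.prod_pow_eq_pow_sum]
    congr 1
    refine Finset.prod_congr rfl fun ρ _ => ?_
    congr 1
    norm_num
  have h1 : ‖h c‖ * (3 / 2) ^ N ≤ Real.exp M * ((5 / 4) ^ N * ‖h c‖) := by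
    rw [← hgc']
    exact hgc.trans (mul_le_mul_of_nonneg_left hcc (Real.exp_nonneg _))
  have h2 : (3 / 2 : ℝ) ^ N ≤ Real.exp M * (5 / 4) ^ N := by
    refine le_of_mul_le_mul_left ?_ hhc
    linarith
  have h3 : (6 / 5 : ℝ) ^ N ≤ Real.exp M := by
    have : (3 / 2 : ℝ) ^ N = (6 / 5) ^ N * (5 / 4) ^ N := by
      rw [← mul_pow]
      norm_num
    rw [this] at h2
    exact le_of_mul_le_mul_right h2 (by positivity)
  have h4 : (N : ℝ) * Real.log (6 / 5) ≤ M := by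
    have := Real.log_le_log (by positivity) h3
    rwa [Real.log_pow, Real.log_exp] at this
  have h5 : (1 / 6 : ℝ) ≤ Real.log (6 / 5) := by
    have := Real.one_sub_inv_le_log_of_pos (x := (6 / 5 : ℝ)) (by norm_num)
    refine le_trans ?_ this
    norm_num
  have h6 : (N : ℝ) * (1 / 6) ≤ N * Real.log (6 / 5) :=
    mul_le_mul_of_nonneg_left h5 (Nat.cast_nonneg N)
  have h7 : ∑ ρ ∈ S, (analyticOrderNatAt f ρ : ℝ) = N := by
    rw [hN]
    push_cast
    rfl
  rw [h7]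
  linarith

theorem loc_logderiv {f h : ℂ → ℂ} {c : ℂ} {M : ℝ} (hM : 1 ≤ M) (hf : Differentiable ℂ f)
    (hc : f c ≠ 0) (hb : ∀ z ∈ closedBall c (3 / 2), ‖f z‖ ≤ Real.exp M * ‖f c‖)
    (S : Finset ℂ) (hS : ∀ ρ ∈ S, ρ ∈ closedBall c (5 / 4)) (hh : Differentiable ℂ h)
    (hfac : ∀ z, f z = (∏ ρ ∈ S, (z - ρ) ^ analyticOrderNatAt f ρ) * h z)
    (hz : ∀ z ∈ closedBall c (5 / 4), h z ≠ 0) {s : ℂ} (hs : ‖s - c‖ ≤ 21 / 20) :
    ‖deriv h s / h s‖ ≤ 2600 * M := by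
  have hcount := loc_count hf hc hb S hS
  have hcc := centre S (analyticOrderNatAt f) hS hfac
  set N : ℕ := ∑ ρ ∈ S, analyticOrderNatAt f ρ with hN
  have hNM : (N : ℝ) ≤ 6 * M := by
    have h7 : ∑ ρ ∈ S, (analyticOrderNatAt f ρ : ℝ) = N := by
      rw [hN]
      push_cast
      rfl
    linarith
  have hhc : 0 < ‖h c‖ := by
    refine norm_pos_iff.2 fun h0 => hc ?_
    rw [hfac c, h0, mul_zero]
  -- `5 ^ N ≤ exp (10 M)`
  have h5N : (5 : ℝ) ^ N ≤ Real.exp (10 * M) := by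
    have h1 : (5 : ℝ) ≤ Real.exp (5 / 3) := by
      have h2 : (5 : ℝ) ^ 3 ≤ Real.exp (5 / 3) ^ 3 := by
        rw [← Real.exp_nat_mul]
        have h3 : ((3 : ℕ) : ℝ) * (5 / 3) = ((5 : ℕ) : ℝ) * 1 := by norm_num
        rw [h3, Real.exp_nat_mul]
        have h4 : (2.7182818283 : ℝ) ^ 5 ≤ Real.exp 1 ^ 5 :=
          pow_le_pow_left₀ (by norm_num) Real.exp_one_gt_d9.le 5
        refine le_trans ?_ h4
        norm_num
      exact le_of_pow_le_pow_left₀ (by norm_num) (Real.exp_nonneg _) h2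
    calc (5 : ℝ) ^ N ≤ Real.exp (5 / 3) ^ N := pow_le_pow_left₀ (by norm_num) h1 N
      _ = Real.exp (N * (5 / 3)) := by rw [← Real.exp_nat_mul]
      _ ≤ Real.exp (10 * M) := Real.exp_le_exp.2 (by linarith)
  -- bound for `h` on the closed ball of radius `3 / 2`
  have hsph : ∀ z, ‖z - c‖ = 3 / 2 → ‖h z‖ ≤ Real.exp (11 * M) * ‖h c‖ := by
    intro z hzc
    have h1 : (1 / 4 : ℝ) ^ N * ‖h z‖ ≤ ‖f z‖ := by
      rw [hfac z, norm_mul, norm_prod]
      refine mul_le_mul_of_nonneg_right ?_ (norm_nonneg _)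
      rw [hN, ← Finset.prod_pow_eq_pow_sum]
      refine Finset.prod_le_prod (fun ρ _ => by positivity) (fun ρ hρ => ?_)
      rw [norm_pow]
      refine pow_le_pow_left₀ (by norm_num) ?_ _
      have h2 := hS ρ hρ
      rw [mem_closedBall, dist_eq_norm] at h2
      have h3 : ‖z - c‖ ≤ ‖z - ρ‖ + ‖ρ - c‖ := by
        have := norm_add_le (z - ρ) (ρ - c)
        simpa using this
      linarith
    have h2 : ‖f z‖ ≤ Real.exp M * ‖f c‖ := hb z (by rw [mem_closedBall, dist_eq_norm, hzc])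
    have h3 : (1 / 4 : ℝ) ^ N * ‖h z‖ ≤ Real.exp M * ((5 / 4) ^ N * ‖h c‖) :=
      (h1.trans h2).trans (mul_le_mul_of_nonneg_left hcc (Real.exp_nonneg _))
    have h4 : ‖h z‖ ≤ Real.exp M * (5 ^ N * ‖h c‖) := by
      have e1 : (5 / 4 : ℝ) ^ N = (1 / 4) ^ N * 5 ^ N := by
        rw [← mul_pow]
        norm_num
      rw [e1] at h3
      have e2 : (0 : ℝ) < (1 / 4) ^ N := by positivity
      refine le_of_mul_le_mul_left ?_ e2
      linarith
    refine h4.trans ?_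
    have e3 : Real.exp (11 * M) = Real.exp M * Real.exp (10 * M) := by
      rw [← Real.exp_add]
      congr 1
      ring
    rw [e3, mul_assoc]
    exact mul_le_mul_of_nonneg_left (mul_le_mul_of_nonneg_right h5N (norm_nonneg _))
      (Real.exp_nonneg _)
  have hball : ∀ z, ‖z - c‖ ≤ 3 / 2 → ‖h z‖ ≤ Real.exp (11 * M) * ‖h c‖ := fun z hz' =>
    maxBall hh (by norm_num) hsph hz'
  -- the logarithm
  have hr0 : (0 : ℝ) < 5 / 4 := by norm_num
  obtain ⟨g, hg0, hg, hfg⟩ := Pool.Agent.VK.LogDerAux.exists_log (c := c) (r := 5 / 4) hr0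
    hh.differentiableOn (fun z hz' => hz z (ball_subset_closedBall hz'))
  have hgd : DifferentiableOn ℂ g (ball c (5 / 4)) :=
    fun z hz' => (hg z hz').differentiableAt.differentiableWithinAt
  have hre : ∀ w ∈ ball c (5 / 4), (g w).re ≤ 11 * M := by
    intro w hw
    rw [mem_ball, dist_eq_norm] at hw
    have h1 := hball w (by linarith)
    rw [hfg w (by rw [mem_ball, dist_eq_norm]; exact hw), norm_mul, Complex.norm_exp,
      mul_comm] at h1
    exact Real.exp_le_exp.1 (le_of_mul_le_mul_right h1 hhc)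
  have hshift : ∀ w ∈ ball (0 : ℂ) (5 / 4), c + w ∈ ball c (5 / 4) := by
    intro w hw
    rw [mem_ball, dist_eq_norm, add_sub_cancel_left]
    exact mem_ball_zero_iff.1 hw
  have hGd : DifferentiableOn ℂ (fun w => g (c + w)) (ball 0 (5 / 4)) :=
    hgd.comp (differentiableOn_const c |>.add differentiableOn_id) hshift
  have hbc : ∀ w : ℂ, ‖w - c‖ ≤ 23 / 20 → ‖g w‖ ≤ 253 * M := by
    intro w hw
    have hw' : w - c ∈ ball (0 : ℂ) (5 / 4) := by
      rw [mem_ball_zero_iff]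
      linarith
    have h1 := Complex.borelCaratheodory_zero (M := 11 * M) (by linarith) hGd
      (fun x hx => hre _ (hshift x hx)) hr0 hw' (by simp only [add_zero]; exact hg0)
    simp only [add_sub_cancel] at h1
    refine h1.trans ?_
    rw [div_le_iff₀ (by linarith)]
    nlinarith [norm_nonneg (w - c)]
  have hcl : closedBall s (1 / 10) ⊆ ball c (5 / 4) := by
    intro w hw
    rw [mem_closedBall, dist_eq_norm] at hw
    rw [mem_ball, dist_eq_norm]
    have : ‖w - c‖ ≤ ‖w - s‖ + ‖s - c‖ := by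
      have := norm_add_le (w - s) (s - c)
      simpa using this
    linarith
  have hdc : DiffContOnCl ℂ g (ball s (1 / 10)) := by
    apply DifferentiableOn.diffContOnCl
    rw [closure_ball s (by norm_num)]
    exact hgd.mono hcl
  have h3 := Complex.norm_deriv_le_of_forall_mem_sphere_norm_le (by norm_num) hdc
    (C := 253 * M) (fun w hw => by
      apply hbc
      have h1 : ‖w - s‖ = 1 / 10 := by
        rw [← dist_eq_norm]
        exact mem_sphere.1 hw
      have : ‖w - c‖ ≤ ‖w - s‖ + ‖s - c‖ := by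
        have := norm_add_le (w - s) (s - c)
        simpa using this
      linarith)
  have hsb : s ∈ ball c (5 / 4) := hcl (mem_closedBall_self (by norm_num))
  rw [(hg s hsb).deriv] at h3
  refine h3.trans ?_
  linarith

end Pool.Agent.Lib.GMV
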