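import Pool.Agent.Lib.GMV.Defs
import Pool.Agent.Lib.HLR.Defs
import Pool.Agent.Lib.HLB.SingTail

/-!
# Prime tuples with power saving: the model

Paper: /team-store/e87c7d_GMV.md.  A character is an element `x` of `CI`, of modulus `md x = x.1 + 1`;
`Ch Q` are the primitive characters of the moduli `1, ..., Q`.
-/

set_option autoImplicit false

open Finset Filter

namespace Pool.Agent.Lib.GMV

open Pool.Agent.HLB Pool.Agent.HLT Pool.Agent.HLR

/-- Characters: `⟨q, χ⟩` has modulus `q + 1`. -/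
abbrev CI := (q : ℕ) × DirichletCharacter ℂ (q + 1)

/-- The modulus. -/
def md (x : CI) : ℕ := x.1 + 1

open scoped Classical in
/-- The primitive characters of the moduli `1, ..., Q`. -/
noncomputable def Ch (Q : ℕ) : Finset CI :=
  (range Q).sigma fun q => univ.filter fun χ : DirichletCharacter ℂ (q + 1) => χ.IsPrimitive

/-- The trivial character of modulus one. -/
noncomputable def one : CI := ⟨0, 1⟩

/-- The value of the character at a natural number. -/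
noncomputable def cv (x : CI) (n : ℕ) : ℂ := x.2 (n : ZMod (x.1 + 1))

/-- `r / φ(r)`. -/
noncomputable def rho (x : CI) : ℝ := (md x : ℝ) / (md x).totient

/-- The range of the parameters: `exp (√(log X) / 2) ≤ Q ≤ X ^ c`. -/
def Rg (c : ℝ) (X Q : ℕ) : Prop :=
  Real.exp (Real.sqrt (Real.log X) / 2) ≤ Q ∧ (Q : ℝ) ≤ (X : ℝ) ^ c

/-- The trapezoid: `0` up to `X/Q`, `1` on `[2X/Q, 2X]`, `0` from `2X + X/Q`. -/
noncomputable def vw (X Q : ℕ) (x : ℝ) : ℝ :=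
  max 0 (min 1 (min (x * Q / X - 1) (2 * Q + 1 - x * Q / X)))

/-- Weighted primes: `v(m) log m` if `m` is prime and `0` otherwise. -/
noncomputable def W (X Q m : ℕ) : ℝ := vw X Q m * HLT.lp m

/-- The Fejer kernel `(U - |d|)₊ / U²`. -/
noncomputable def Kf (U : ℕ) (d : ℤ) : ℝ := max 0 ((U : ℝ) - |(d : ℝ)|) / (U : ℝ) ^ 2

/-- `∑ m, K(m - n) W(m) g(m)`. -/
noncomputable def cn (X Q : ℕ) (g : ℕ → ℂ) (n : ℕ) : ℂ :=
  ∑ m ∈ range (4 * X), ((Kf (X / Q ^ 5) ((m : ℤ) - n) * W X Q m : ℝ) : ℂ) * g m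

/-- `M_χ(n) = ∑ m, K(m - n) W(m) χ(m)`. -/
noncomputable def Mc (X Q : ℕ) (x : CI) (n : ℕ) : ℂ := cn X Q (cv x) n

/-- `-1` if `p ∣ n` and `1/(p-1)` otherwise. -/
noncomputable def wp (p n : ℕ) : ℝ := if p ∣ n then -1 else 1 / ((p : ℝ) - 1)

/-- Sets of primes not dividing `r` with product at most `Y`. -/
noncomputable def Sm (Y r : ℕ) : Finset (Finset ℕ) :=
  (((Nat.primesLE Y).filter fun p => ¬ p ∣ r).powerset).filter fun S => ∏ p ∈ S, p ≤ Y

/-- All sets of primes `≤ Y` not dividing `r`. -/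
noncomputable def Sa (Y r : ℕ) : Finset (Finset ℕ) :=
  ((Nat.primesLE Y).filter fun p => ¬ p ∣ r).powerset

/-- `∑_{S} ∏_{p ∈ S} w(p, n)` over the sets `S` of primes not dividing `r` with product `≤ Y`. -/
noncomputable def DD (Y r n : ℕ) : ℝ := ∑ S ∈ Sm Y r, ∏ p ∈ S, wp p n

/-- The model with truncation parameter `Y` (the same for all characters). -/
noncomputable def LL (X Q Y n : ℕ) : ℂ :=
  ∑ x ∈ Ch Q, (rho x : ℂ) * (starRingEnd ℂ) (cv x n) * Mc X Q x n * (DD Y (md x) n : ℂ)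

/-- The projection model: truncation at `Q / r`. -/
noncomputable def LQ (X Q n : ℕ) : ℂ :=
  ∑ x ∈ Ch Q, (rho x : ℂ) * (starRingEnd ℂ) (cv x n) * Mc X Q x n * (DD (Q / md x) (md x) n : ℂ)

/-- Fourier transform of `f` on `[0, N)`. -/
noncomputable def ft (N : ℕ) (f : ℕ → ℂ) (t : ℝ) : ℂ := ∑ n ∈ range N, f n * ex (n * t)

/-- Mean over `[0, P)`. -/
noncomputable def av (P : ℕ) (f : ℕ → ℂ) : ℂ := (∑ n ∈ range P, f n) / P

/-- The transform of the Fejer kernel. -/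
noncomputable def Kh (U : ℕ) (t : ℝ) : ℝ := ‖∑ j ∈ range U, ex (j * t)‖ ^ 2 / (U : ℝ) ^ 2

/-- One term of the expansion of the product of the models (without the factors `M`). -/
noncomputable def fS {k : ℕ} (x : Fin k → CI) (S : Fin k → Finset ℕ) (h : Fin k → ℕ) (n : ℕ) : ℂ :=
  ∏ i, ((rho (x i) : ℂ) * (starRingEnd ℂ) (cv (x i) (n + h i)) * ((∏ p ∈ S i, wp p (n + h i) : ℝ) : ℂ))

/-- A common period of all the terms. -/
noncomputable def P0 {k : ℕ} (Y : ℕ) (x : Fin k → CI) : ℕ :=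
  (∏ i, md (x i)) * ∏ p ∈ Nat.primesLE Y, p

/-- Sum of the means of the terms with `∏ S i ≤ Y`. -/
noncomputable def TY {k : ℕ} (Y : ℕ) (x : Fin k → CI) (h : Fin k → ℕ) : ℂ :=
  ∑ S ∈ Fintype.piFinset (fun i => Sm Y (md (x i))), av (P0 Y x) (fS x S h)

/-- Sum of the means of all the terms. -/
noncomputable def TP {k : ℕ} (Y : ℕ) (x : Fin k → CI) (h : Fin k → ℕ) : ℂ :=
  ∑ S ∈ Fintype.piFinset (fun i => Sa Y (md (x i))), av (P0 Y x) (fS x S h)

/-- Product of the differences. -/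
def Del {k : ℕ} (h : Fin k → ℕ) : ℕ :=
  ∏ i, ∏ j ∈ univ.filter (fun j => i < j), ((h i : ℤ) - h j).natAbs

/-- `(q / gcd(q, Δ(h))) ^ (-1/4)`, and `0` if `q = 0`. -/
noncomputable def Gq {k : ℕ} (q : ℕ) (h : Fin k → ℕ) : ℝ :=
  if q = 0 then 0 else ((q : ℝ) / (Nat.gcd q (Del h) : ℝ)) ^ (-(1 / 4 : ℝ))

/-- `exp (- a log X / log Q)`. -/
noncomputable def Er (a : ℝ) (X Q : ℕ) : ℝ := Real.exp (-(a * Real.log X / Real.log Q))

/-- `x` is a real character with a real zero `β ≥ 1 - c / log Q`. -/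
def IsExc (c : ℝ) (Q : ℕ) (x : CI) (β : ℝ) : Prop :=
  x ∈ Ch Q ∧ x.2 ≠ 1 ∧ x.2 ^ 2 = 1 ∧ Lf x.2 (β : ℂ) = 0 ∧ 1 - c / Real.log Q ≤ β ∧ β < 1

lemma mem_Ch {Q : ℕ} {x : CI} : x ∈ Ch Q ↔ md x ≤ Q ∧ x.2.IsPrimitive := by
  classical
  unfold Ch md
  rw [mem_sigma, mem_range]
  simp only [mem_filter, mem_univ, true_and]
  exact and_congr_left fun _ => Nat.lt_iff_add_one_le

lemma md_pos (x : CI) : 0 < md x := Nat.succ_pos _

lemma one_mem_Ch {Q : ℕ} (hQ : 1 ≤ Q) : one ∈ Ch Q := by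
  rw [mem_Ch]
  refine ⟨hQ, ?_⟩
  unfold one
  rw [DirichletCharacter.isPrimitive_def]
  exact DirichletCharacter.conductor_one

lemma norm_cv_le (x : CI) (n : ℕ) : ‖cv x n‖ ≤ 1 := DirichletCharacter.norm_le_one _ _

lemma cv_periodic (x : CI) (n j : ℕ) : cv x (n + md x * j) = cv x n := by
  unfold cv md
  congr 1
  push_cast
  have h : ((x.1 : ZMod (x.1 + 1)) + 1) = 0 := by
    have := ZMod.natCast_self (x.1 + 1)
    push_cast at this
    exact this
  rw [h]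
  ring

lemma vw_nonneg (X Q : ℕ) (x : ℝ) : 0 ≤ vw X Q x := le_max_left _ _

lemma vw_le_one (X Q : ℕ) (x : ℝ) : vw X Q x ≤ 1 := max_le zero_le_one (min_le_left _ _)

lemma W_nonneg (X Q m : ℕ) : 0 ≤ W X Q m := mul_nonneg (vw_nonneg _ _ _) (lp_nonneg m)

lemma W_le (X Q m : ℕ) : W X Q m ≤ HLT.lp m := mul_le_of_le_one_left (lp_nonneg m) (vw_le_one _ _ _)

/-- The support of the weight. -/
lemma W_support {X Q m : ℕ} (hX : 1 ≤ X) (h : W X Q m ≠ 0) :
    m.Prime ∧ (X : ℝ) < m * Q ∧ (m : ℝ) * Q < 2 * X * Q + X := by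
  unfold W at h
  have h1 : vw X Q m ≠ 0 := left_ne_zero_of_mul h
  have h2 : HLT.lp m ≠ 0 := right_ne_zero_of_mul h
  have hX0 : (0 : ℝ) < X := by exact_mod_cast hX
  have hv : 0 < min 1 (min ((m : ℝ) * Q / X - 1) (2 * Q + 1 - m * Q / X)) := by
    by_contra hcon
    exact h1 (by unfold vw; exact max_eq_left (not_lt.mp hcon))
  rw [lt_min_iff, lt_min_iff] at hv
  refine ⟨?_, ?_, ?_⟩
  · by_contra hp
    exact h2 (by unfold HLT.lp; rw [if_neg hp])
  · have := hv.2.1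
    rw [sub_pos, lt_div_iff₀ hX0] at this
    linarith
  · have := hv.2.2
    have h3 : (m : ℝ) * Q / X < 2 * Q + 1 := by linarith
    rw [div_lt_iff₀ hX0] at h3
    nlinarith

end Pool.Agent.Lib.GMV
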