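import Pool.Agent.Lib.GMV.FTri
import Pool.Agent.Lib.GMV.Model

/-!
# The explicit formula with the cut off `v = vw X Q`

`wtF X Q n x = tri U n x * vw X Q x`, `U = X / Q ^ 5` (division of natural numbers).

PROOF. `Kf U (m - n) = tri U n m`. `0 ≤ vw ≤ 1` and
`|vw x - vw x'| ≤ (Q/X) |x - x'|`; `vw x = 0` unless `X/Q < x < 2X + X/Q`. If `n ∉ [X/Q - U, 2X + X/Q + U]` then
`wtF = 0` everywhere and the left side is `0`. Otherwise `X/(2Q) ≤ n ≤ 3X`, and `tri_formula` applies with `y = n`,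
`U = X / Q ^ 5` (`Par X Q U n`: `X/(2Q^5) ≤ U ≤ X/Q^5` because `X/Q^5` is large). On the support of `tri U n` we
have `|vw x - vw n| ≤ U Q/X ≤ Q^(-4)`. Multiply `tri_formula` by `vw n ≤ 1`; its `tsum` is the sum over
`m < 4X` (`tri U n m = 0` for `m ≥ 4X`; `Λ 0 = 0`).
 * `|∑ Λ χ tri (vw m - vw n)| ≤ Q^(-4) ∑ Λ(m) tri ≤ Q^(-4) log (4X) (2U+1)/U ≤ 3 Q^(-4) log (4X) ≤ C Q^(-3)`
   (`log X ≤ 4 (log Q)²`).
 * `|vw n - ∫ tri vw| ≤ Q^(-4)` (`integral_tri`).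
 * `|∫ tri (vw n - vw x) x^(ρ-1)| ≤ Q^(-4) B(ρ)` and `|∫ tri vw x^(ρ-1)| ≤ B(ρ)` with
   `B(ρ) = (n - U)^(Re ρ - 1) ≤ 2 (X/Q)^(Re ρ - 1)` (`n - U ≥ X/(4Q)`, `-1/10 ≤ Re ρ - 1 ≤ 0`), and `B(ρ) ≤ 1`.
For `ρ ∈ E`: error `Q^(-4) mul ρ`; for `ρ ∉ E`: at most `mul ρ * 2 (X/Q)^(Re ρ - 1)`.
(`∫ t, (wtF X Q n t : ℂ) * (t : ℂ) ^ (ρ - 1)` over the whole line is the interval integral over
`[n - U, n + U]` because `wtF` vanishes outside.)
-/

namespace Pool.Agent.Lib.GMV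

open Complex MeasureTheory

/-- the weight `K_U(x - n) v(x)` on the real line -/
noncomputable def wtF (X Q n : ℕ) (x : ℝ) : ℝ := tri ((X / Q ^ 5 : ℕ) : ℝ) n x * vw X Q x

namespace FMainAux

theorem Kf_eq (U m n : ℕ) : Kf U ((m : ℤ) - n) = tri (U : ℝ) n m := by
  unfold Kf tri
  push_cast
  rfl

theorem vw_lip (X Q : ℕ) (x y : ℝ) :
    |vw X Q x - vw X Q y| ≤ (Q : ℝ) / X * |x - y| := by
  unfold vw
  have h1 : ∀ a b : ℝ, |max 0 a - max 0 b| ≤ |a - b| := fun a b => by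
    have := abs_max_sub_max_le_max (0 : ℝ) a 0 b
    simpa using this
  have h2 : ∀ a b : ℝ, |min 1 a - min 1 b| ≤ |a - b| := fun a b => by
    have := abs_min_sub_min_le_max (1 : ℝ) a 1 b
    simpa using this
  refine (h1 _ _).trans ((h2 _ _).trans ((abs_min_sub_min_le_max _ _ _ _).trans ?_))
  have e1 : x * Q / X - 1 - (y * Q / X - 1) = (Q : ℝ) / X * (x - y) := by ring
  have e2 : 2 * (Q : ℝ) + 1 - x * Q / X - (2 * Q + 1 - y * Q / X) = -((Q : ℝ) / X * (x - y)) := by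
    ring
  rw [e1, e2, abs_neg, max_self, abs_mul, abs_of_nonneg (by positivity : (0 : ℝ) ≤ (Q : ℝ) / X)]

theorem vw_left {X Q : ℕ} {x : ℝ} (h : x * Q ≤ X) : vw X Q x = 0 := by
  unfold vw
  have h1 : x * Q / X - 1 ≤ 0 := by
    rcases Nat.eq_zero_or_pos X with h0 | h0
    · subst h0
      simp
    · have h2 : (0 : ℝ) < X := by exact_mod_cast h0
      rw [sub_nonpos, div_le_one h2]
      exact h
  exact max_eq_left ((min_le_right _ _).trans ((min_le_left _ _).trans h1))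

theorem vw_right {X Q : ℕ} {x : ℝ} (hX : 0 < X) (h : 2 * X * Q + X ≤ x * Q) : vw X Q x = 0 := by
  unfold vw
  have h2 : (0 : ℝ) < X := by exact_mod_cast hX
  have h1 : 2 * (Q : ℝ) + 1 - x * Q / X ≤ 0 := by
    rw [sub_nonpos, le_div_iff₀ h2]
    linarith
  exact max_eq_left ((min_le_right _ _).trans ((min_le_right _ _).trans h1))

theorem vw_continuous (X Q : ℕ) : Continuous (vw X Q) := by
  unfold vw
  fun_prop

/-- integral against the triangle -/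
theorem norm_tri_integral {U y B : ℝ} (hU : 0 < U) {g : ℝ → ℂ}
    (hg : ∀ x ∈ Set.Icc (y - U) (y + U), ‖g x‖ ≤ B) :
    ‖∫ x in (y - U)..(y + U), (tri U y x : ℂ) * g x‖ ≤ B := by
  have hle : y - U ≤ y + U := by linarith
  have hint : IntervalIntegrable (fun x => tri U y x * B) volume (y - U) (y + U) :=
    ((tri_continuous U y).mul continuous_const).intervalIntegrable _ _
  have h1 := intervalIntegral.norm_integral_le_of_norm_le (f := fun x => (tri U y x : ℂ) * g x)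
    (g := fun x => tri U y x * B) hle (Filter.Eventually.of_forall fun x hx => by
      rw [norm_mul, Complex.norm_real, Real.norm_of_nonneg (tri_nonneg U y x)]
      exact mul_le_mul_of_nonneg_left (hg x ⟨hx.1.le, hx.2⟩) (tri_nonneg U y x)) hint
  rw [intervalIntegral.integral_mul_const, integral_tri hU, one_mul] at h1
  exact h1

/-- the integral over the line of a function that vanishes outside the support of the triangle -/
theorem integral_line {U y : ℝ} {f : ℝ → ℂ} (hf : ∀ x, U ≤ |x - y| → f x = 0) :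
    ∫ x, f x = ∫ x in (y - U)..(y + U), f x := by
  rw [intervalIntegral.integral_eq_integral_of_support_subset]
  intro x hx
  have h1 : ¬ U ≤ |x - y| := fun h => hx (hf x h)
  rw [not_le, abs_lt] at h1
  exact ⟨by linarith [h1.1], by linarith [h1.2]⟩

/-- the mass of the primes -/
theorem mass {X U n : ℕ} (hU : 0 < U) (hUn : U ≤ n) (hX : 1 ≤ X) :
    ∑ m ∈ Finset.range (4 * X), ArithmeticFunction.vonMangoldt m * tri (U : ℝ) n m ≤
      2 * Real.log (4 * X) := by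
  have hU' : (0 : ℝ) < U := by exact_mod_cast hU
  have hlog : 0 ≤ Real.log (4 * (X : ℝ)) := by
    apply Real.log_nonneg
    have : (1 : ℝ) ≤ X := by exact_mod_cast hX
    linarith
  have h1 : ∀ m ∈ Finset.range (4 * X), ArithmeticFunction.vonMangoldt m * tri (U : ℝ) n m ≤
      if m ∈ Finset.Ioo (n - U) (n + U) then Real.log (4 * X) * (1 / U) else 0 := by
    intro m hm
    split_ifs with h
    · have h2 : ArithmeticFunction.vonMangoldt m ≤ Real.log (4 * X) := by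
        refine ArithmeticFunction.vonMangoldt_le_log.trans ?_
        rcases Nat.eq_zero_or_pos m with h0 | h0
        · subst h0
          simpa using hlog
        · have h3 : (0 : ℝ) < m := by exact_mod_cast h0
          apply Real.log_le_log h3
          have := Finset.mem_range.1 hm
          exact_mod_cast this.le
      exact mul_le_mul h2 (tri_le hU' _ _) (tri_nonneg _ _ _) hlog
    · have h2 : tri (U : ℝ) n m = 0 := by
        apply tri_eq_zero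
        rw [Finset.mem_Ioo, not_and_or, not_lt, not_lt] at h
        rcases h with h | h
        · have h3 : ((m : ℝ)) + U ≤ n := by
            have : m + U ≤ n := by omega
            exact_mod_cast this
          rw [abs_sub_comm]
          exact le_trans (by linarith) (le_abs_self _)
        · have h3 : (n : ℝ) + U ≤ m := by exact_mod_cast h
          exact le_trans (by linarith) (le_abs_self _)
      rw [h2, mul_zero]
  refine (Finset.sum_le_sum h1).trans ?_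
  rw [← Finset.sum_filter, Finset.sum_const, nsmul_eq_mul]
  have hc : (((Finset.range (4 * X)).filter fun m => m ∈ Finset.Ioo (n - U) (n + U)).card : ℝ) ≤
      2 * U := by
    have h2 : ((Finset.range (4 * X)).filter fun m => m ∈ Finset.Ioo (n - U) (n + U)).card ≤
        (Finset.Ioo (n - U) (n + U)).card := by
      apply Finset.card_le_card
      intro m hm
      exact (Finset.mem_filter.1 hm).2
    rw [Nat.card_Ioo] at h2
    have h3 : ((Finset.range (4 * X)).filter fun m => m ∈ Finset.Ioo (n - U) (n + U)).card ≤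
        2 * U := by omega
    exact_mod_cast h3
  calc _ ≤ 2 * (U : ℝ) * (Real.log (4 * X) * (1 / U)) :=
        mul_le_mul_of_nonneg_right hc (by positivity)
    _ = 2 * Real.log (4 * X) := by field_simp

/-- the half width -/
theorem half {X Q : ℕ} (hQ : 2 ≤ Q) (hX : Q ^ 1000 ≤ X) :
    (X : ℝ) / (2 * (Q : ℝ) ^ 5) ≤ ((X / Q ^ 5 : ℕ) : ℝ) ∧
      ((X / Q ^ 5 : ℕ) : ℝ) ≤ (X : ℝ) / (Q : ℝ) ^ 5 ∧ 0 < X / Q ^ 5 := by
  have hQ0 : 0 < Q ^ 5 := by positivity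
  have h1 : Q ^ 5 ≤ X := le_trans (Nat.pow_le_pow_right (by omega) (by norm_num)) hX
  have h2 : 1 ≤ X / Q ^ 5 := (Nat.one_le_div_iff hQ0).2 h1
  refine ⟨?_, ?_, h2⟩
  · rw [div_le_iff₀ (by positivity)]
    have h3 : X < (X / Q ^ 5 + 1) * Q ^ 5 := by
      rw [Nat.mul_comm]
      exact Nat.lt_mul_div_succ X hQ0
    have h4 : (X / Q ^ 5 + 1) * Q ^ 5 ≤ (X / Q ^ 5) * (2 * Q ^ 5) := by
      have : Q ^ 5 ≤ X / Q ^ 5 * Q ^ 5 := Nat.le_mul_of_pos_left _ h2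
      calc (X / Q ^ 5 + 1) * Q ^ 5 = X / Q ^ 5 * Q ^ 5 + Q ^ 5 := by ring
        _ ≤ X / Q ^ 5 * Q ^ 5 + X / Q ^ 5 * Q ^ 5 := by omega
        _ = (X / Q ^ 5) * (2 * Q ^ 5) := by ring
    exact_mod_cast h3.le.trans h4
  · have := @Nat.cast_div_le ℝ _ _ _ X (Q ^ 5)
    simpa using this

/-- outside the range of `n` there is nothing -/
theorem outside {X Q n : ℕ} (hQ : 100 ≤ Q) (hX : Q ^ 1000 ≤ X)
    (h : ¬ ((X : ℝ) / (2 * Q) ≤ n ∧ (n : ℝ) ≤ 3 * X)) (x : ℝ) :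
    tri ((X / Q ^ 5 : ℕ) : ℝ) n x * vw X Q x = 0 := by
  obtain ⟨-, hU, -⟩ := half (by omega) hX
  have hX0 : 0 < X := lt_of_lt_of_le (by positivity) hX
  have hXr : (0 : ℝ) < X := by exact_mod_cast hX0
  have hQr : (100 : ℝ) ≤ Q := by exact_mod_cast hQ
  have hQ4 : (100 : ℝ) ^ 4 ≤ (Q : ℝ) ^ 4 := pow_le_pow_left₀ (by norm_num) hQr 4
  by_cases hx : ((X / Q ^ 5 : ℕ) : ℝ) ≤ |x - n|
  · rw [tri_eq_zero hx, zero_mul]
  rw [not_le, abs_lt] at hx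
  rw [not_and_or, not_le, not_le] at h
  have hU2 : (X : ℝ) / (Q : ℝ) ^ 5 * Q ≤ X / 100 := by
    have e : (X : ℝ) / (Q : ℝ) ^ 5 * Q = X / (Q : ℝ) ^ 4 := by field_simp
    rw [e]
    exact div_le_div_of_nonneg_left hXr.le (by norm_num) (le_trans (by norm_num) hQ4)
  have hUQ : ((X / Q ^ 5 : ℕ) : ℝ) * Q ≤ X / 100 :=
    (mul_le_mul_of_nonneg_right hU (by positivity)).trans hU2
  rcases h with h | h
  · rw [vw_left, mul_zero]
    rw [lt_div_iff₀ (by positivity)] at h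
    nlinarith [hx.2]
  · rw [vw_right hX0, mul_zero]
    nlinarith [hx.1]

theorem log_bound {X Q : ℕ} (hQ : 100 ≤ Q) (hX : Q ^ 1000 ≤ X) (hL : Real.log X ≤ 4 * Real.log Q ^ 2)
    (hlq : Real.log Q ^ 8 ≤ Q) : 2 * Real.log (4 * X) ≤ 16 * Q := by
  have h4 : 4 ≤ X := by
    have : Q ^ 1 ≤ Q ^ 1000 := Nat.pow_le_pow_right (by omega) (by norm_num)
    rw [pow_one] at this
    omega
  have hX4 : (4 : ℝ) ≤ X := by exact_mod_cast h4
  have hQ1 : (100 : ℝ) ≤ Q := by exact_mod_cast hQ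
  have h1 : Real.log (4 * X) ≤ 2 * Real.log X := by
    rw [Real.log_mul (by norm_num) (by positivity)]
    have : Real.log 4 ≤ Real.log X := Real.log_le_log (by norm_num) hX4
    linarith
  have h2 : Real.log Q ^ 2 ≤ Q := by
    rcases le_total (Real.log Q) 1 with h | h
    · have h0 : 0 ≤ Real.log Q := Real.log_nonneg (by linarith)
      nlinarith
    · exact le_trans (pow_le_pow_right₀ h (by norm_num)) hlq
  linarith

end FMainAux

open FMainAux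

theorem explicit_formula : ∃ (C : ℝ) (X0 : ℕ), ∀ X Q : ℕ, X0 ≤ X →
    Real.log X ≤ 4 * Real.log Q ^ 2 → Q ^ 1000 ≤ X →
    ∀ x ∈ Ch Q, ∀ (n : ℕ) (E : Finset ℂ), E ⊆ Z x.2 ((Q : ℝ) ^ 30) →
    ‖(∑ m ∈ Finset.range (4 * X), ((Kf (X / Q ^ 5) ((m : ℤ) - n) *
          (vw X Q m * ArithmeticFunction.vonMangoldt m) : ℝ) : ℂ) * cv x m) -
        (if x.2 = 1 then ∫ t, (wtF X Q n t : ℂ) else 0) +
        ∑ ρ ∈ E, (mul x.2 ρ : ℂ) * ∫ t, (wtF X Q n t : ℂ) * (t : ℂ) ^ (ρ - 1)‖ ≤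
      C * (∑ ρ ∈ Z x.2 ((Q : ℝ) ^ 30) \ E, (mul x.2 ρ : ℝ) * ((X : ℝ) / Q) ^ (ρ.re - 1)) +
        C * (1 + ∑ ρ ∈ E, (mul x.2 ρ : ℝ)) / (Q : ℝ) ^ 3 := by
  obtain ⟨C, X1, hC⟩ := tri_formula
  obtain ⟨X2, hX2⟩ := par_facts
  refine ⟨max C 0 + 20, max (max ⌈X1⌉₊ ⌈X2⌉₊) 10, ?_⟩
  intro X Q hX hL hQX x hx n E hE
  have hXX1 : X1 ≤ X := (Nat.le_ceil X1).trans (by
    exact_mod_cast (le_max_left _ _).trans ((le_max_left _ _).trans hX))
  have hXX2 : X2 ≤ X := (Nat.le_ceil X2).trans (by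
    exact_mod_cast (le_max_right _ _).trans ((le_max_left _ _).trans hX))
  have hX10 : 10 ≤ X := (le_max_right _ _).trans hX
  have hXr : (10 : ℝ) ≤ X := by exact_mod_cast hX10
  have hC' : 0 ≤ max C 0 + 20 := by positivity
  -- `Q` is large
  have hQ2 : 2 ≤ Q := by
    by_contra hcon
    have hcon' : Q = 0 ∨ Q = 1 := by omega
    have h0 : Real.log Q = 0 := by
      rcases hcon' with h | h <;> subst h <;> simp
    rw [h0] at hL
    have h1 : 0 < Real.log X := Real.log_pos (by linarith)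
    norm_num at hL
    linarith
  obtain ⟨hU1, hU2, hU0⟩ := half hQ2 hQX
  have hQXr : (Q : ℝ) ^ 1000 ≤ X := by exact_mod_cast hQX
  have hQ1r : (1 : ℝ) ≤ Q := by
    have : 1 ≤ Q := by omega
    exact_mod_cast this
  have hPX : Par' X Q ((X / Q ^ 5 : ℕ) : ℝ) X := by
    refine hX2 X Q _ X hXX2 ⟨hL, hQXr, hU1, hU2, ?_, by linarith⟩
    rw [div_le_iff₀ (by positivity)]
    nlinarith
  have hQ100 := hPX.Q100
  have hlog := log_bound hQ100 hQX hL hPX.lq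
  obtain ⟨U, hU⟩ : ∃ U : ℕ, U = X / Q ^ 5 := ⟨_, rfl⟩
  have hZE0 : 0 ≤ ∑ ρ ∈ Z x.2 ((Q : ℝ) ^ 30) \ E, (mul x.2 ρ : ℝ) * ((X : ℝ) / Q) ^ (ρ.re - 1) :=
    Finset.sum_nonneg fun ρ _ => by positivity
  have hE0 : 0 ≤ ∑ ρ ∈ E, (mul x.2 ρ : ℝ) := Finset.sum_nonneg fun ρ _ => by positivity
  by_cases hn : (X : ℝ) / (2 * Q) ≤ n ∧ (n : ℝ) ≤ 3 * X
  swap
  · have h0 := outside hQ100 hQX hn
    have h1 : ∀ t, wtF X Q n t = 0 := fun t => h0 t
    have h2 : ∀ m ∈ Finset.range (4 * X), ((Kf (X / Q ^ 5) ((m : ℤ) - n) *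
          (vw X Q m * ArithmeticFunction.vonMangoldt m) : ℝ) : ℂ) * cv x m = 0 := by
      intro m _
      rw [Kf_eq, ← mul_assoc, h0 m]
      simp
    rw [Finset.sum_eq_zero h2]
    simp only [h1]
    simp only [Complex.ofReal_zero, zero_mul, integral_zero, mul_zero, ite_self, sub_zero,
      Finset.sum_const_zero, add_zero, norm_zero]
    positivity
  have hP : Par X Q (U : ℝ) n := by
    rw [hU]
    exact ⟨hL, hQXr, hU1, hU2, hn.1, hn.2⟩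
  have hP' := hX2 X Q _ n hXX2 hP
  have hUpos := hP'.Upos
  have hT := hC X Q (U : ℝ) n hXX1 hP (x.1 + 1) x.2 (mem_Ch.1 hx).1 (mem_Ch.1 hx).2
  have hUn : U ≤ n := by
    have h1 : (U : ℝ) ≤ n := by linarith [hP'.Uy]
    exact_mod_cast h1
  have hU0' : 0 < U := by rw [hU]; exact hU0
  obtain ⟨v, hv⟩ : ∃ v : ℝ, v = vw X Q n := ⟨_, rfl⟩
  have hv0 : 0 ≤ v := by rw [hv]; exact vw_nonneg _ _ _
  have hv1 : v ≤ 1 := by rw [hv]; exact vw_le_one _ _ _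
  have hvn : ‖(v : ℂ)‖ ≤ 1 := by rw [Complex.norm_real, Real.norm_of_nonneg hv0]; exact hv1
  have hQ4 : 0 < (Q : ℝ) ^ 4 := by positivity
  -- the variation of the weight
  have hvar : ∀ t : ℝ, |t - n| ≤ U → |vw X Q t - v| ≤ 1 / (Q : ℝ) ^ 4 := by
    intro t ht
    rw [hv]
    refine (vw_lip X Q t n).trans ?_
    have h1 : (Q : ℝ) / X * |t - n| ≤ (Q : ℝ) / X * ((X : ℝ) / (Q : ℝ) ^ 5) :=
      mul_le_mul_of_nonneg_left (ht.trans hP.hU2) (by positivity)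
    refine h1.trans (le_of_eq ?_)
    have h2 : (X : ℝ) ≠ 0 := by positivity
    have h3 : (Q : ℝ) ≠ 0 := by positivity
    field_simp
  have hvar' : ∀ t : ℝ, ‖((vw X Q t - v : ℝ) : ℂ)‖ ≤ 1 / (Q : ℝ) ^ 4 ∨ (U : ℝ) ≤ |t - n| := by
    intro t
    rcases le_total (U : ℝ) |t - n| with h | h
    · exact Or.inr h
    · left
      rw [Complex.norm_real, Real.norm_eq_abs]
      exact hvar t h
  have hwt : ∀ t, wtF X Q n t = tri (U : ℝ) n t * vw X Q t := fun t => by rw [hU]; rfl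
  -- the sum
  obtain ⟨A, hA⟩ : ∃ A : ℂ, A = ∑ m ∈ Finset.range (4 * X), ((Kf (X / Q ^ 5) ((m : ℤ) - n) *
          (vw X Q m * ArithmeticFunction.vonMangoldt m) : ℝ) : ℂ) * cv x m := ⟨_, rfl⟩
  obtain ⟨S, hS⟩ : ∃ S : ℂ, S = ∑' m : ℕ, (ArithmeticFunction.vonMangoldt m : ℂ) * x.2 m *
      (tri (U : ℝ) n m : ℂ) := ⟨_, rfl⟩
  have hS' : S = ∑ m ∈ Finset.range (4 * X), (ArithmeticFunction.vonMangoldt m : ℂ) * x.2 m *
      (tri (U : ℝ) n m : ℂ) := by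
    rw [hS]
    apply tsum_eq_sum
    intro m hm
    rw [Finset.mem_range, not_lt] at hm
    have h1 : tri (U : ℝ) n m = 0 := by
      apply tri_eq_zero
      have h2 : (4 : ℝ) * X ≤ m := by exact_mod_cast hm
      have h3 : (U : ℝ) ≤ X := by
        refine hP.hU2.trans ?_
        exact div_le_self (by positivity) (one_le_pow₀ hQ1r)
      exact le_trans (by linarith [hn.2]) (le_abs_self _)
    rw [h1]
    simp
  have hAS : ‖A - v * S‖ ≤ 16 / (Q : ℝ) ^ 3 := by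
    have h1 : A - v * S = ∑ m ∈ Finset.range (4 * X),
        ((ArithmeticFunction.vonMangoldt m * tri (U : ℝ) n m * (vw X Q m - v) : ℝ) : ℂ) *
          cv x m := by
      rw [hA, hS', Finset.mul_sum, ← Finset.sum_sub_distrib]
      refine Finset.sum_congr rfl fun m _ => ?_
      rw [Kf_eq, ← hU]
      have h2 : cv x m = x.2 m := rfl
      rw [h2]
      push_cast
      ring
    rw [h1]
    refine (norm_sum_le _ _).trans ?_
    have h2 : ∀ m ∈ Finset.range (4 * X),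
        ‖((ArithmeticFunction.vonMangoldt m * tri (U : ℝ) n m * (vw X Q m - v) : ℝ) : ℂ) *
          cv x m‖ ≤ ArithmeticFunction.vonMangoldt m * tri (U : ℝ) n m * (1 / (Q : ℝ) ^ 4) := by
      intro m _
      have h3 : 0 ≤ ArithmeticFunction.vonMangoldt m * tri (U : ℝ) n m :=
        mul_nonneg ArithmeticFunction.vonMangoldt_nonneg (tri_nonneg _ _ _)
      rw [norm_mul, Complex.norm_real, norm_mul, Real.norm_of_nonneg h3, Real.norm_eq_abs]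
      rcases le_total (U : ℝ) |(m : ℝ) - n| with h | h
      · rw [tri_eq_zero h]
        simp
      · have h4 := mul_le_mul_of_nonneg_left (hvar m h) h3
        refine le_trans (mul_le_of_le_one_right ?_ (norm_cv_le x m)) h4
        exact mul_nonneg h3 (abs_nonneg _)
    refine (Finset.sum_le_sum h2).trans ?_
    rw [← Finset.sum_mul]
    have h3 := (mass (X := X) hU0' hUn (by omega)).trans hlog
    refine (mul_le_mul_of_nonneg_right h3 (by positivity)).trans (le_of_eq ?_)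
    have h4 : (Q : ℝ) ≠ 0 := by positivity
    field_simp
  -- the integrals
  obtain ⟨J, hJ⟩ : ∃ J : ℂ → ℂ, J = fun ρ => ∫ t, (wtF X Q n t : ℂ) * (t : ℂ) ^ (ρ - 1) := ⟨_, rfl⟩
  obtain ⟨I', hI⟩ : ∃ I' : ℂ → ℂ, I' = fun ρ => ∫ t in ((n : ℝ) - U)..(n + U),
      (tri (U : ℝ) n t : ℂ) * (t : ℂ) ^ (ρ - 1) := ⟨_, rfl⟩
  have hpos : ∀ t ∈ Set.Icc ((n : ℝ) - U) (n + U), 1 ≤ t := fun t ht => hP'.yU.trans ht.1
  have hcont : ∀ ρ : ℂ, ContinuousOn (fun t : ℝ => (t : ℂ) ^ (ρ - 1))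
      (Set.Icc ((n : ℝ) - U) (n + U)) := by
    intro ρ t ht
    refine (Complex.continuousAt_ofReal_cpow_const t (ρ - 1) (Or.inr ?_)).continuousWithinAt
    have := hpos t ht
    linarith
  have hle : (n : ℝ) - U ≤ n + U := by linarith
  have hJI : ∀ ρ : ℂ, J ρ - v * I' ρ = ∫ t in ((n : ℝ) - U)..(n + U),
      (tri (U : ℝ) n t : ℂ) * (((vw X Q t - v : ℝ) : ℂ) * (t : ℂ) ^ (ρ - 1)) := by
    intro ρ
    rw [hJ, hI]
    beta_reduce
    rw [integral_line (f := fun t => (wtF X Q n t : ℂ) * (t : ℂ) ^ (ρ - 1)) (fun t ht => by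
      rw [hwt, tri_eq_zero ht]; simp)]
    rw [← intervalIntegral.integral_const_mul, ← intervalIntegral.integral_sub]
    · refine intervalIntegral.integral_congr fun t _ => ?_
      beta_reduce
      rw [hwt]
      push_cast
      ring
    · apply ContinuousOn.intervalIntegrable
      rw [Set.uIcc_of_le hle]
      refine ContinuousOn.mul ?_ (hcont ρ)
      have h1 : Continuous fun t => ((wtF X Q n t : ℝ) : ℂ) := by
        simp only [hwt]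
        exact Complex.continuous_ofReal.comp ((tri_continuous _ _).mul (vw_continuous X Q))
      exact h1.continuousOn
    · apply ContinuousOn.intervalIntegrable
      rw [Set.uIcc_of_le hle]
      refine ContinuousOn.mul continuousOn_const (ContinuousOn.mul ?_ (hcont ρ))
      exact (Complex.continuous_ofReal.comp (tri_continuous _ _)).continuousOn
  have hrpow : ∀ ρ : ℂ, ρ.re ≤ 1 → ∀ t ∈ Set.Icc ((n : ℝ) - U) (n + U),
      ‖(t : ℂ) ^ (ρ - 1)‖ ≤ ((n : ℝ) - U) ^ (ρ.re - 1) := by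
    intro ρ hρ t ht
    have h1 := hpos t ht
    rw [Complex.norm_cpow_eq_rpow_re_of_pos (by linarith)]
    simp only [Complex.sub_re, Complex.one_re]
    exact Real.rpow_le_rpow_of_nonpos (by linarith [hP'.yU]) ht.1 (by linarith)
  have hB1 : ∀ ρ : ℂ, ρ.re ≤ 1 → ((n : ℝ) - U) ^ (ρ.re - 1) ≤ 1 := fun ρ hρ =>
    Real.rpow_le_one_of_one_le_of_nonpos hP'.yU (by linarith)
  have hEr : ∀ ρ : ℂ, ρ.re ≤ 1 → ‖J ρ - v * I' ρ‖ ≤ 1 / (Q : ℝ) ^ 4 := by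
    intro ρ hρ
    rw [hJI]
    apply norm_tri_integral hUpos
    intro t ht
    rw [norm_mul, Complex.norm_real, Real.norm_eq_abs]
    have h1 : |t - n| ≤ U := by rw [abs_le]; exact ⟨by linarith [ht.1], by linarith [ht.2]⟩
    have h2 := (hrpow ρ hρ t ht).trans (hB1 ρ hρ)
    exact (mul_le_of_le_one_right (abs_nonneg _) h2).trans (hvar t h1)
  have hIr : ∀ ρ : ℂ, 9 / 10 ≤ ρ.re → ρ.re ≤ 1 →
      ‖(v : ℂ) * I' ρ‖ ≤ 2 * ((X : ℝ) / Q) ^ (ρ.re - 1) := by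
    intro ρ hρ9 hρ
    have h1 : ‖I' ρ‖ ≤ ((n : ℝ) - U) ^ (ρ.re - 1) := by
      rw [hI]
      exact norm_tri_integral hUpos (hrpow ρ hρ)
    have h2 : (X : ℝ) / (4 * Q) ≤ n - U := by
      have h3 : (U : ℝ) ≤ X / (4 * Q) := by
        refine hP.hU2.trans ?_
        apply div_le_div_of_nonneg_left (by positivity) (by positivity)
        have h4 : (100 : ℝ) ≤ Q := by exact_mod_cast hQ100
        have h5 : (100 : ℝ) ^ 4 ≤ (Q : ℝ) ^ 4 := pow_le_pow_left₀ (by norm_num) h4 4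
        have h6 : (Q : ℝ) ^ 5 = Q * (Q : ℝ) ^ 4 := by ring
        rw [h6]
        nlinarith
      have h4 : (X : ℝ) / (2 * Q) = 2 * (X / (4 * Q)) := by
        have : (Q : ℝ) ≠ 0 := by positivity
        field_simp
        ring
      linarith [hn.1]
    have hXQ : 0 < (X : ℝ) / Q := by positivity
    have h3 : ((n : ℝ) - U) ^ (ρ.re - 1) ≤ ((X : ℝ) / (4 * Q)) ^ (ρ.re - 1) :=
      Real.rpow_le_rpow_of_nonpos (by positivity) h2 (by linarith)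
    have h4 : ((X : ℝ) / (4 * Q)) ^ (ρ.re - 1) =
        (4 : ℝ) ^ (1 - ρ.re) * ((X : ℝ) / Q) ^ (ρ.re - 1) := by
      have e : (X : ℝ) / (4 * Q) = (4 : ℝ)⁻¹ * (X / Q) := by
        have : (Q : ℝ) ≠ 0 := by positivity
        field_simp
      rw [e, Real.mul_rpow (by norm_num) hXQ.le, Real.inv_rpow (by norm_num), ← Real.rpow_neg
        (by norm_num), neg_sub]
    have h5 : (4 : ℝ) ^ (1 - ρ.re) ≤ 2 := by
      have h6 : (4 : ℝ) ^ (1 - ρ.re) ≤ (4 : ℝ) ^ ((1 : ℝ) / 2) :=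
        Real.rpow_le_rpow_of_exponent_le (by norm_num) (by linarith)
      refine h6.trans (le_of_eq ?_)
      rw [show (4 : ℝ) = 2 ^ (2 : ℝ) by norm_num, ← Real.rpow_mul (by norm_num)]
      norm_num
    rw [norm_mul]
    calc ‖(v : ℂ)‖ * ‖I' ρ‖ ≤ 1 * ‖I' ρ‖ := mul_le_mul_of_nonneg_right hvn (norm_nonneg _)
      _ = ‖I' ρ‖ := one_mul _
      _ ≤ (4 : ℝ) ^ (1 - ρ.re) * ((X : ℝ) / Q) ^ (ρ.re - 1) := h1.trans (h3.trans (le_of_eq h4))
      _ ≤ 2 * ((X : ℝ) / Q) ^ (ρ.re - 1) := mul_le_mul_of_nonneg_right h5 (by positivity)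
  -- the main term
  obtain ⟨d, hd⟩ : ∃ d : ℂ, d = if x.2 = 1 then 1 else 0 := ⟨_, rfl⟩
  obtain ⟨d', hd'⟩ : ∃ d' : ℂ, d' = if x.2 = 1 then ∫ t, (wtF X Q n t : ℂ) else 0 := ⟨_, rfl⟩
  have hdd : ‖v * d - d'‖ ≤ 1 / (Q : ℝ) ^ 4 := by
    rw [hd, hd']
    split_ifs with h1
    · have h2 := hEr 1 (by simp)
      rw [hJ, hI] at h2
      simp only [sub_self, Complex.cpow_zero, mul_one] at h2
      have h3 : ∫ t in ((n : ℝ) - U)..(n + U), (tri (U : ℝ) n t : ℂ) = 1 := by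
        rw [intervalIntegral.integral_ofReal, integral_tri hUpos]
        simp
      rw [h3, mul_one] at h2
      rw [mul_one, norm_sub_rev]
      exact h2
    · simp
  -- the assembly
  have hT' : ‖S - d + ∑ ρ ∈ Z x.2 ((Q : ℝ) ^ 30), (mul x.2 ρ : ℂ) * I' ρ‖ ≤ C / (Q : ℝ) ^ 4 := by
    rw [hS, hd, hI]
    exact hT
  have hre : ∀ ρ ∈ Z x.2 ((Q : ℝ) ^ 30), 9 / 10 ≤ ρ.re ∧ ρ.re ≤ 1 := fun ρ hρ =>
    ⟨(mem_Z.1 hρ).1, (re_lt_one_of_mem_Z hρ).le⟩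
  have hsplit : ∑ ρ ∈ Z x.2 ((Q : ℝ) ^ 30), (mul x.2 ρ : ℂ) * I' ρ =
      ∑ ρ ∈ Z x.2 ((Q : ℝ) ^ 30) \ E, (mul x.2 ρ : ℂ) * I' ρ + ∑ ρ ∈ E, (mul x.2 ρ : ℂ) * I' ρ :=
    (Finset.sum_sdiff hE).symm
  have hmain : A - d' + ∑ ρ ∈ E, (mul x.2 ρ : ℂ) * J ρ =
      (A - v * S) + v * (S - d + ∑ ρ ∈ Z x.2 ((Q : ℝ) ^ 30), (mul x.2 ρ : ℂ) * I' ρ) +
        (v * d - d') + ∑ ρ ∈ E, (mul x.2 ρ : ℂ) * (J ρ - v * I' ρ) -
        ∑ ρ ∈ Z x.2 ((Q : ℝ) ^ 30) \ E, (mul x.2 ρ : ℂ) * (v * I' ρ) := by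
    rw [hsplit]
    have e1 : ∑ ρ ∈ E, (mul x.2 ρ : ℂ) * (J ρ - v * I' ρ) =
        ∑ ρ ∈ E, (mul x.2 ρ : ℂ) * J ρ - v * ∑ ρ ∈ E, (mul x.2 ρ : ℂ) * I' ρ := by
      rw [Finset.mul_sum, ← Finset.sum_sub_distrib]
      exact Finset.sum_congr rfl fun ρ _ => by ring
    have e2 : ∑ ρ ∈ Z x.2 ((Q : ℝ) ^ 30) \ E, (mul x.2 ρ : ℂ) * (v * I' ρ) =
        v * ∑ ρ ∈ Z x.2 ((Q : ℝ) ^ 30) \ E, (mul x.2 ρ : ℂ) * I' ρ := by
      rw [Finset.mul_sum]
      exact Finset.sum_congr rfl fun ρ _ => by ring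
    rw [e1, e2]
    ring
  have hsumE : ‖∑ ρ ∈ E, (mul x.2 ρ : ℂ) * (J ρ - v * I' ρ)‖ ≤
      (∑ ρ ∈ E, (mul x.2 ρ : ℝ)) * (1 / (Q : ℝ) ^ 4) := by
    rw [Finset.sum_mul]
    refine (norm_sum_le _ _).trans (Finset.sum_le_sum fun ρ hρ => ?_)
    rw [norm_mul, Complex.norm_natCast]
    exact mul_le_mul_of_nonneg_left (hEr ρ (hre ρ (hE hρ)).2) (Nat.cast_nonneg _)
  have hsumZ : ‖∑ ρ ∈ Z x.2 ((Q : ℝ) ^ 30) \ E, (mul x.2 ρ : ℂ) * (v * I' ρ)‖ ≤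
      2 * ∑ ρ ∈ Z x.2 ((Q : ℝ) ^ 30) \ E, (mul x.2 ρ : ℝ) * ((X : ℝ) / Q) ^ (ρ.re - 1) := by
    rw [Finset.mul_sum]
    refine (norm_sum_le _ _).trans (Finset.sum_le_sum fun ρ hρ => ?_)
    rw [norm_mul, Complex.norm_natCast]
    have h1 := hre ρ (Finset.mem_sdiff.1 hρ).1
    have h2 := mul_le_mul_of_nonneg_left (hIr ρ h1.1 h1.2) (Nat.cast_nonneg (α := ℝ) (mul x.2 ρ))
    linarith
  have hvT : ‖(v : ℂ) * (S - d + ∑ ρ ∈ Z x.2 ((Q : ℝ) ^ 30), (mul x.2 ρ : ℂ) * I' ρ)‖ ≤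
      max C 0 / (Q : ℝ) ^ 4 := by
    rw [norm_mul]
    refine (mul_le_of_le_one_left (norm_nonneg _) hvn).trans (hT'.trans ?_)
    exact div_le_div_of_nonneg_right (le_max_left _ _) hQ4.le
  have hgoal : ‖A - d' + ∑ ρ ∈ E, (mul x.2 ρ : ℂ) * J ρ‖ ≤
      (max C 0 + 20) *
        (∑ ρ ∈ Z x.2 ((Q : ℝ) ^ 30) \ E, (mul x.2 ρ : ℝ) * ((X : ℝ) / Q) ^ (ρ.re - 1)) +
        (max C 0 + 20) * (1 + ∑ ρ ∈ E, (mul x.2 ρ : ℝ)) / (Q : ℝ) ^ 3 := by
    rw [hmain]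
    have hQ34 : 1 / (Q : ℝ) ^ 4 ≤ 1 / (Q : ℝ) ^ 3 :=
      one_div_le_one_div_of_le (by positivity) (pow_le_pow_right₀ hQ1r (by norm_num))
    have h1 := norm_sub_le ((A - v * S) + v * (S - d + ∑ ρ ∈ Z x.2 ((Q : ℝ) ^ 30),
      (mul x.2 ρ : ℂ) * I' ρ) + (v * d - d') + ∑ ρ ∈ E, (mul x.2 ρ : ℂ) * (J ρ - v * I' ρ))
      (∑ ρ ∈ Z x.2 ((Q : ℝ) ^ 30) \ E, (mul x.2 ρ : ℂ) * (v * I' ρ))
    have h2 := norm_add_le ((A - v * S) + v * (S - d + ∑ ρ ∈ Z x.2 ((Q : ℝ) ^ 30),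
      (mul x.2 ρ : ℂ) * I' ρ) + (v * d - d')) (∑ ρ ∈ E, (mul x.2 ρ : ℂ) * (J ρ - v * I' ρ))
    have h3 := norm_add_le ((A - v * S) + v * (S - d + ∑ ρ ∈ Z x.2 ((Q : ℝ) ^ 30),
      (mul x.2 ρ : ℂ) * I' ρ)) (v * d - d')
    have h4 := norm_add_le (A - v * S) (v * (S - d + ∑ ρ ∈ Z x.2 ((Q : ℝ) ^ 30),
      (mul x.2 ρ : ℂ) * I' ρ))
    generalize (∑ ρ ∈ Z x.2 ((Q : ℝ) ^ 30) \ E, (mul x.2 ρ : ℝ) *
      ((X : ℝ) / Q) ^ (ρ.re - 1)) = sZ at *
    generalize (∑ ρ ∈ E, (mul x.2 ρ : ℝ)) = sE at *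
    have hm0 : 0 ≤ max C 0 := le_max_right _ _
    have h5 : sE * (1 / (Q : ℝ) ^ 4) ≤ sE * (1 / (Q : ℝ) ^ 3) :=
      mul_le_mul_of_nonneg_left hQ34 hE0
    have h6 : max C 0 / (Q : ℝ) ^ 4 ≤ max C 0 * (1 / (Q : ℝ) ^ 3) := by
      rw [div_eq_mul_one_div]
      exact mul_le_mul_of_nonneg_left hQ34 hm0
    have h7 : (16 : ℝ) / (Q : ℝ) ^ 3 = 16 * (1 / (Q : ℝ) ^ 3) := by ring
    have h8 : (max C 0 + 20) * (1 + sE) / (Q : ℝ) ^ 3 =
        (max C 0 + 20) * (1 + sE) * (1 / (Q : ℝ) ^ 3) := by ring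
    have h9 : 0 < 1 / (Q : ℝ) ^ 3 := by positivity
    rw [h8]
    generalize 1 / (Q : ℝ) ^ 3 = w at *
    generalize 1 / (Q : ℝ) ^ 4 = w4 at *
    nlinarith [mul_nonneg hm0 hZE0, mul_nonneg (mul_nonneg hm0 hE0) h9.le, mul_nonneg hE0 h9.le]
  rw [hA, hd', hJ] at hgoal
  exact hgoal

end Pool.Agent.Lib.GMV
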