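import Mathlib

/-!
# The range of the parameters

PROOF. `log Q ≥ √(log X)/2` tends to infinity with `X`; `X ≥ Q^1000 ≥ 1`. `U ≤ X/Q^5`, `y ≥ X/(2Q)`, `Q ≥ 100`:
`2U ≤ y`, `y - U ≥ X/(4Q) ≥ 1`. `y/U ≤ 3X * 2 Q^5/X`. `y^(1/log X) = exp (log y/log X) ≤ exp (1 + log 3/log X) ≤ 9`.
`(log Q)^8 ≤ Q` for `Q` large. `X^(1/20) ≥ Q^50`, so `y^(-1/20) ≤ (X/(2Q))^(-1/20) ≤ 2 Q Q^(-50)`.
-/

namespace Pool.Agent.Lib.GMV

/-- the range of the parameters -/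
structure Par (X : ℝ) (Q : ℕ) (U y : ℝ) : Prop where
  hL : Real.log X ≤ 4 * Real.log Q ^ 2
  hQ : (Q : ℝ) ^ 1000 ≤ X
  hU1 : X / (2 * (Q : ℝ) ^ 5) ≤ U
  hU2 : U ≤ X / (Q : ℝ) ^ 5
  hy1 : X / (2 * Q) ≤ y
  hy2 : y ≤ 3 * X

/-- the consequences -/
structure Par' (X : ℝ) (Q : ℕ) (U y : ℝ) : Prop where
  Q100 : 100 ≤ Q
  Upos : 0 < U
  Uy : 2 * U ≤ y
  yU : 1 ≤ y - U
  P : y / U ≤ 6 * (Q : ℝ) ^ 5
  L2 : 2 ≤ Real.log X
  y9 : y ^ (1 / Real.log X) ≤ 9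
  lq : Real.log Q ^ 8 ≤ Q
  y20 : y ^ (-(1 / 20) : ℝ) ≤ 2 / (Q : ℝ) ^ 49

namespace FParAux

private theorem log_pow_le : ∃ q0 : ℝ, 100 ≤ q0 ∧ ∀ q : ℝ, q0 ≤ q → Real.log q ^ 8 ≤ q := by
  have h := (Real.isLittleO_pow_log_id_atTop (n := 8)).bound (c := 1) one_pos
  obtain ⟨a, ha⟩ := Filter.eventually_atTop.1 h
  refine ⟨max a 100, le_max_right _ _, fun q hq => ?_⟩
  have h1 := ha q (le_trans (le_max_left _ _) hq)
  have hq0 : (0:ℝ) ≤ q := le_trans (by norm_num) (le_trans (le_max_right _ _) hq)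
  have hlog : 0 ≤ Real.log q := Real.log_nonneg (le_trans (by norm_num) (le_trans (le_max_right _ _) hq))
  simp only [Real.norm_eq_abs, id, one_mul] at h1
  rwa [abs_of_nonneg (pow_nonneg hlog 8), abs_of_nonneg hq0] at h1

end FParAux

theorem par_facts : ∃ X0 : ℝ, ∀ (X : ℝ) (Q : ℕ) (U y : ℝ), X0 ≤ X → Par X Q U y →
    Par' X Q U y := by
  obtain ⟨q0, hq0, hlp⟩ := FParAux.log_pow_le
  refine ⟨Real.exp (2 + 4 * Real.log q0 ^ 2), fun X Q U y hX hp => ?_⟩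
  have hXpos : 0 < X := lt_of_lt_of_le (Real.exp_pos _) hX
  have hlogX : 2 + 4 * Real.log q0 ^ 2 ≤ Real.log X := by
    rw [Real.le_log_iff_exp_le hXpos]; exact hX
  have hq0pos : 0 < q0 := lt_of_lt_of_le (by norm_num) hq0
  have hlq0 : 0 ≤ Real.log q0 := Real.log_nonneg (le_trans (by norm_num) hq0)
  have hlQ : 0 ≤ Real.log (Q : ℝ) := Real.log_natCast_nonneg Q
  have hlt : Real.log q0 < Real.log (Q : ℝ) := by
    have := hp.hL
    nlinarith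
  have hQpos : 0 < (Q : ℝ) := by
    rcases Nat.eq_zero_or_pos Q with h | h
    · subst h; simp at hlt; linarith
    · exact_mod_cast h
  have hQ0 : q0 ≤ (Q : ℝ) := ((Real.log_lt_log_iff hq0pos hQpos).1 hlt).le
  have hQ100 : (100 : ℝ) ≤ Q := le_trans hq0 hQ0
  have hQ1 : (1 : ℝ) ≤ Q := by linarith
  set q : ℝ := (Q : ℝ) with hq
  have hq5 : 0 < q ^ 5 := pow_pos hQpos 5
  have hq45 : 4 * q ≤ q ^ 5 := by
    have h1 : (100:ℝ) ^ 4 ≤ q ^ 4 := pow_le_pow_left₀ (by norm_num) hQ100 4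
    have h2 : q ^ 5 = q * q ^ 4 := by ring
    rw [h2]
    nlinarith
  have hXq : 4 * q ≤ X := by
    have h1 : q ^ 5 ≤ q ^ 1000 := pow_le_pow_right₀ hQ1 (by norm_num)
    linarith [hp.hQ]
  have hU1 := hp.hU1
  have hU2 := hp.hU2
  have hy1 := hp.hy1
  have hy2 := hp.hy2
  have hUpos : 0 < U := lt_of_lt_of_le (by positivity) hU1
  have hypos : 0 < y := lt_of_lt_of_le (by positivity) hy1
  have hU4 : U ≤ X / (4 * q) := by
    refine hU2.trans ?_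
    exact div_le_div_of_nonneg_left hXpos.le (by positivity) hq45
  have e1 : X / (2 * q) = 2 * (X / (4 * q)) := by field_simp; ring
  have hL2 : 2 ≤ Real.log X := by nlinarith [sq_nonneg (Real.log q0)]
  have h1le : 1 ≤ X / (4 * q) := by
    rw [le_div_iff₀ (by positivity)]; linarith
  refine ⟨?_, hUpos, ?_, ?_, ?_, hL2, ?_, hlp q hQ0, ?_⟩
  · rw [hq] at hQ100; exact_mod_cast hQ100
  · linarith
  · linarith
  · rw [div_le_iff₀ hUpos]
    have h1 : 6 * q ^ 5 * (X / (2 * q ^ 5)) = 3 * X := by field_simp; ring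
    calc y ≤ 3 * X := hy2
      _ = 6 * q ^ 5 * (X / (2 * q ^ 5)) := h1.symm
      _ ≤ 6 * q ^ 5 * U := mul_le_mul_of_nonneg_left hU1 (by positivity)
  · have hl : 0 < Real.log X := by linarith
    have h1 : (1 / Real.log X) ≤ 1 := by
      rw [div_le_one hl]; linarith
    have h0 : 0 ≤ 1 / Real.log X := by positivity
    have hX1 : X ^ (1 / Real.log X) ≤ 3 := by
      rw [Real.rpow_def_of_pos hXpos, mul_one_div, div_self hl.ne']
      linarith [Real.exp_one_lt_d9]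
    have h3 : (3:ℝ) ^ (1 / Real.log X) ≤ 3 := by
      calc (3:ℝ) ^ (1 / Real.log X) ≤ (3:ℝ) ^ (1:ℝ) :=
            Real.rpow_le_rpow_of_exponent_le (by norm_num) h1
        _ = 3 := Real.rpow_one 3
    calc y ^ (1 / Real.log X) ≤ (3 * X) ^ (1 / Real.log X) :=
          Real.rpow_le_rpow hypos.le hy2 h0
      _ = (3:ℝ) ^ (1 / Real.log X) * X ^ (1 / Real.log X) :=
          Real.mul_rpow (by norm_num) hXpos.le
      _ ≤ 3 * 3 := mul_le_mul h3 hX1 (Real.rpow_nonneg hXpos.le _) (by norm_num)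
      _ = 9 := by norm_num
  · have hA : y ^ (-(1 / 20) : ℝ) ≤ (X / (2 * q)) ^ (-(1 / 20) : ℝ) :=
      Real.rpow_le_rpow_of_nonpos (by positivity) hy1 (by norm_num)
    have hB : (X / (2 * q)) ^ (-(1 / 20) : ℝ) = (2 * q) ^ (1 / 20 : ℝ) / X ^ (1 / 20 : ℝ) := by
      rw [Real.rpow_neg (by positivity), Real.div_rpow hXpos.le (by positivity), inv_div]
    have hC : (2 * q) ^ (1 / 20 : ℝ) ≤ 2 * q := by
      calc (2 * q) ^ (1 / 20 : ℝ) ≤ (2 * q) ^ (1:ℝ) :=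
            Real.rpow_le_rpow_of_exponent_le (by linarith) (by norm_num)
        _ = 2 * q := Real.rpow_one _
    have hD : q ^ 50 ≤ X ^ (1 / 20 : ℝ) := by
      calc q ^ 50 = ((q ^ 50) ^ 20) ^ (1 / 20 : ℝ) := by
            rw [← Real.rpow_natCast (q ^ 50) 20, ← Real.rpow_mul (by positivity)]
            norm_num
        _ = (q ^ 1000) ^ (1 / 20 : ℝ) := by rw [← pow_mul]
        _ ≤ X ^ (1 / 20 : ℝ) := Real.rpow_le_rpow (by positivity) hp.hQ (by norm_num)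
    have hE : 2 * q / q ^ 50 = 2 / q ^ 49 := by field_simp
    calc y ^ (-(1 / 20) : ℝ) ≤ (2 * q) ^ (1 / 20 : ℝ) / X ^ (1 / 20 : ℝ) := by rw [← hB]; exact hA
      _ ≤ 2 * q / q ^ 50 := div_le_div₀ (by positivity) hC (by positivity) hD
      _ = 2 / q ^ 49 := hE

end Pool.Agent.Lib.GMV
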