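import Pool.Agent.Lib.GMV.FKerB

/-!
# The contribution of a pole

PROOF. `pole_int`: for `Re s = σ > Re ρ`: `1/(s - ρ) = ∫_{x > 1} x^(ρ - s - 1) dx` (`integral_Ioi_cpow_of_lt`).
Fubini (`∫∫ |FF| x^(Re ρ - σ - 1) < ∞` by `FF_integrable`), then `FF_inversion`:
`∫_t FF(σ+it) x^(-σ-it) dt = 2π tri U y x`, so the integral is `2π ∫_{x > 1} tri U y x * x^(ρ-1) dx`, and `tri`
vanishes outside `[y - U, y + U] ⊆ [1, ∞)`.
`pole_tail`: for `|t| > T`, `‖FF‖ ≤ 14 P / t²`, `P = y^(σ+1)/U²`, and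
`1/(t² |s - ρ|) ≤ (a/t⁴ + 1/(a |s - ρ|²))/2`; `∫_{|t|>T} t^(-4) = 2/(3T³)`,
`∫ dt/|s - ρ|² = π/(σ - Re ρ)`; take `a = (T³/(σ - Re ρ))^(1/2)`: total
`≤ 7 P (2/3 + π) (T³ (σ - Re ρ))^(-1/2) ≤ 28 P (T³ (σ - Re ρ))^(-1/2)`.
-/

namespace Pool.Agent.Lib.GMV

open Complex MeasureTheory Set

namespace FPoleAux

theorem sub_ne {σ : ℝ} {ρ : ℂ} (hρ : ρ.re < σ) (t : ℝ) : ((σ : ℂ) + t * I) - ρ ≠ 0 := by
  intro h
  have h2 := congrArg Complex.re h
  simp at h2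
  linarith

theorem dd_le {σ : ℝ} {ρ : ℂ} (t : ℝ) : σ - ρ.re ≤ ‖((σ : ℂ) + t * I) - ρ‖ := by
  have := (le_abs_self _).trans (abs_re_le_norm (((σ : ℂ) + t * I) - ρ))
  simpa using this

/-- the geometric integral -/
theorem inv_eq {σ : ℝ} {ρ : ℂ} (hρ : ρ.re < σ) (t : ℝ) :
    1 / ((σ : ℂ) + t * I - ρ) = ∫ x in Ioi (1 : ℝ), (x : ℂ) ^ (ρ - (σ + t * I) - 1) := by
  rw [integral_Ioi_cpow_of_lt (by simp; linarith) one_pos]
  have h := sub_ne hρ t
  have h2 : ρ - (σ + t * I) - 1 + 1 = -((σ : ℂ) + t * I - ρ) := by ring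
  rw [h2]
  simp only [ofReal_one, one_cpow]
  rw [neg_div_neg_eq]

/-- integrability on the product -/
theorem prod_int {U y σ : ℝ} {ρ : ℂ} (hU : 0 < U) (hy : 2 * U ≤ y)
    (hσ : 0 < σ) (hσ2 : σ ≤ 2) (hρ : ρ.re < σ) :
    Integrable (Function.uncurry fun (t x : ℝ) =>
      FF U y (σ + t * I) * (x : ℂ) ^ (ρ - (σ + t * I) - 1))
      (volume.prod (volume.restrict (Ioi (1 : ℝ)))) := by
  have h1 := FF_integrable hU hy hσ hσ2
  have h2 : Integrable (fun x : ℝ => (x : ℂ) ^ (ρ - σ - 1)) (volume.restrict (Ioi (1 : ℝ))) :=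
    integrableOn_Ioi_cpow_of_lt (by simp; linarith) one_pos
  have h3 := h1.mul_prod h2
  have hm : Measurable fun z : ℝ × ℝ => (z.2 : ℂ) ^ (-(z.1 * I) : ℂ) := by fun_prop
  have hbd : ∀ᵐ z : ℝ × ℝ ∂((volume : Measure ℝ).prod (volume.restrict (Ioi (1 : ℝ)))),
      ‖(z.2 : ℂ) ^ (-(z.1 * I) : ℂ)‖ ≤ 1 := by
    have : ∀ᵐ z ∂((volume : Measure ℝ).prod (volume.restrict (Ioi (1 : ℝ)))), z.2 ∈ Ioi (1 : ℝ) := by
      have hae : ∀ᵐ x ∂(volume.restrict (Ioi (1 : ℝ))), x ∈ Ioi (1 : ℝ) :=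
        ae_restrict_mem measurableSet_Ioi
      exact Measure.quasiMeasurePreserving_snd.ae hae
    filter_upwards [this] with z hz
    have hz0 : 0 < z.2 := lt_trans one_pos hz
    rw [norm_cpow_eq_rpow_re_of_pos hz0]
    simp
  have h4 := h3.mul_bdd hm.aestronglyMeasurable hbd
  refine h4.congr ?_
  have : ∀ᵐ z ∂((volume : Measure ℝ).prod (volume.restrict (Ioi (1 : ℝ)))), z.2 ∈ Ioi (1 : ℝ) := by
    have hae : ∀ᵐ x ∂(volume.restrict (Ioi (1 : ℝ))), x ∈ Ioi (1 : ℝ) :=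
      ae_restrict_mem measurableSet_Ioi
    exact Measure.quasiMeasurePreserving_snd.ae hae
  filter_upwards [this] with z hz
  have hz0 : 0 < z.2 := lt_trans one_pos hz
  have hz1 : (z.2 : ℂ) ≠ 0 := by exact_mod_cast hz0.ne'
  simp only [Function.uncurry]
  rw [mul_assoc, ← cpow_add _ _ hz1]
  congr 2
  ring

end FPoleAux

theorem pole_int {U y σ : ℝ} {ρ : ℂ} (hU : 0 < U) (hy : 2 * U ≤ y) (h1 : 1 ≤ y - U)
    (hσ : 0 < σ) (hσ2 : σ ≤ 2) (hρ : ρ.re < σ) :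
    Integrable (fun t : ℝ => FF U y (σ + t * I) / (σ + t * I - ρ)) ∧
      ∫ t : ℝ, FF U y (σ + t * I) / (σ + t * I - ρ) =
        2 * Real.pi * ∫ x in (y - U)..(y + U), (tri U y x : ℂ) * (x : ℂ) ^ (ρ - 1) := by
  have hint := FPoleAux.prod_int (ρ := ρ) hU hy hσ hσ2 hρ
  constructor
  · have hc : Continuous fun t : ℝ => ((σ : ℂ) + t * I - ρ)⁻¹ := by
      refine Continuous.inv₀ (by fun_prop) (fun t => FPoleAux.sub_ne hρ t)
    have hd : 0 < σ - ρ.re := by linarith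
    refine (FF_integrable hU hy hσ hσ2).mul_bdd (c := (σ - ρ.re)⁻¹) hc.aestronglyMeasurable
      (Filter.Eventually.of_forall fun t => ?_)
    rw [norm_inv]
    exact inv_anti₀ hd (FPoleAux.dd_le t)
  · have e1 : ∀ t : ℝ, FF U y (σ + t * I) / (σ + t * I - ρ) =
        ∫ x in Ioi (1 : ℝ), FF U y (σ + t * I) * (x : ℂ) ^ (ρ - (σ + t * I) - 1) := by
      intro t
      rw [integral_const_mul, ← FPoleAux.inv_eq hρ t, mul_one_div]
    simp_rw [e1]
    rw [integral_integral_swap hint]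
    have e2 : ∀ x ∈ Ioi (1 : ℝ), ∫ t : ℝ, FF U y (σ + t * I) * (x : ℂ) ^ (ρ - (σ + t * I) - 1) =
        2 * Real.pi * ((tri U y x : ℂ) * (x : ℂ) ^ (ρ - 1)) := by
      intro x hx
      have hx0 : 0 < x := lt_trans one_pos hx
      have hx1 : (x : ℂ) ≠ 0 := by exact_mod_cast hx0.ne'
      have e3 : ∀ t : ℝ, FF U y (σ + t * I) * (x : ℂ) ^ (ρ - (σ + t * I) - 1) =
          FF U y (σ + t * I) * (x : ℂ) ^ (-((σ : ℂ) + t * I)) * (x : ℂ) ^ (ρ - 1) := by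
        intro t
        rw [mul_assoc, ← cpow_add _ _ hx1]
        congr 2
        ring
      simp_rw [e3]
      rw [integral_mul_const, FF_inversion hU hy hσ hσ2 hx0]
      ring
    rw [setIntegral_congr_fun measurableSet_Ioi e2, integral_const_mul,
      intervalIntegral.integral_of_le (by linarith)]
    congr 1
    refine setIntegral_eq_of_subset_of_forall_sdiff_eq_zero measurableSet_Ioi
      (fun x hx => ?_) (fun x hx => ?_)
    · simp only [mem_Ioi]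
      linarith [hx.1]
    · rw [FKerBAux.tri_supp hx.2]
      simp

namespace FPoleAux

/-- the quartic tail -/
theorem quart {T : ℝ} (hT : 1 ≤ T) :
    IntegrableOn (fun t : ℝ => (t ^ 4)⁻¹) {t : ℝ | T < |t|} ∧
      ∫ t in {t : ℝ | T < |t|}, (t ^ 4)⁻¹ = 2 / (3 * T ^ 3) := by
  have hT0 : 0 < T := by linarith
  have hset : {t : ℝ | T < |t|} = Iio (-T) ∪ Ioi T := by
    ext t
    simp only [mem_ofPred_eq, mem_union, mem_Iio, mem_Ioi, lt_abs]
    constructor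
    · rintro (h | h)
      · exact Or.inr h
      · exact Or.inl (by linarith)
    · rintro (h | h)
      · exact Or.inr (by linarith)
      · exact Or.inl h
  have hf : ∀ t : ℝ, 0 < t → t ^ (-4 : ℝ) = (t ^ 4)⁻¹ := by
    intro t ht
    rw [Real.rpow_neg ht.le]
    norm_num
  have i1 : IntegrableOn (fun t : ℝ => (t ^ 4)⁻¹) (Ioi T) := by
    refine (integrableOn_Ioi_rpow_of_lt (a := -4) (by norm_num) hT0).congr_fun (fun t ht => ?_)
      measurableSet_Ioi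
    exact hf t (lt_trans hT0 ht)
  have v1 : ∫ t in Ioi T, (t ^ 4)⁻¹ = 1 / (3 * T ^ 3) := by
    rw [← setIntegral_congr_fun measurableSet_Ioi (fun t (ht : t ∈ Ioi T) =>
      hf t (lt_trans hT0 ht)), integral_Ioi_rpow_of_lt (by norm_num) hT0]
    have : T ^ ((-4 : ℝ) + 1) = (T ^ 3)⁻¹ := by
      have h3 : (-4 : ℝ) + 1 = -3 := by norm_num
      rw [h3, Real.rpow_neg hT0.le]
      norm_num
    rw [this]
    field_simp
    norm_num
  have i2 : IntegrableOn (fun t : ℝ => (t ^ 4)⁻¹) (Iio (-T)) := by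
    have h := i1.comp_neg
    have h2 : -Ioi T = Iio (-T) := by simp
    rw [h2] at h
    refine h.congr_fun (fun t _ => ?_) measurableSet_Iio
    simp only
    ring_nf
  have v2 : ∫ t in Iio (-T), (t ^ 4)⁻¹ = 1 / (3 * T ^ 3) := by
    rw [← v1, ← integral_Iic_eq_integral_Iio]
    have h := integral_comp_neg_Iic (-T) (fun t : ℝ => (t ^ 4)⁻¹)
    rw [neg_neg] at h
    rw [← h]
    refine setIntegral_congr_fun measurableSet_Iic (fun t _ => ?_)
    ring_nf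
  rw [hset]
  refine ⟨i2.union i1, ?_⟩
  rw [setIntegral_union (by
    rw [Set.disjoint_left]
    intro t h1 h2
    simp only [mem_Iio, mem_Ioi] at h1 h2
    linarith) measurableSet_Ioi i2 i1, v1, v2]
  field_simp
  norm_num

theorem normsq_eq {σ : ℝ} {ρ : ℂ} (t : ℝ) :
    ‖((σ : ℂ) + t * I) - ρ‖ ^ 2 = (σ - ρ.re) ^ 2 + (t - ρ.im) ^ 2 := by
  rw [← normSq_eq_norm_sq, normSq_apply]
  simp
  ring

/-- the Cauchy (Poisson kernel) integral -/
theorem poisson {σ : ℝ} {ρ : ℂ} (hρ : ρ.re < σ) :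
    Integrable (fun t : ℝ => (‖((σ : ℂ) + t * I) - ρ‖ ^ 2)⁻¹) ∧
      ∫ t : ℝ, (‖((σ : ℂ) + t * I) - ρ‖ ^ 2)⁻¹ = Real.pi / (σ - ρ.re) := by
  have hd : 0 < σ - ρ.re := by linarith
  set δ := σ - ρ.re with hδ
  have e : ∀ t : ℝ, (‖((σ : ℂ) + t * I) - ρ‖ ^ 2)⁻¹ =
      (δ ^ 2)⁻¹ * (1 + ((t - ρ.im) / δ) ^ 2)⁻¹ := by
    intro t
    rw [normsq_eq, ← mul_inv, ← hδ]
    congr 1
    field_simp
  simp_rw [e]
  have hi : Integrable fun t : ℝ => (1 + ((t - ρ.im) / δ) ^ 2)⁻¹ := by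
    have h1 := (integrable_inv_one_add_sq.comp_div hd.ne')
    exact h1.comp_sub_right ρ.im
  refine ⟨hi.const_mul _, ?_⟩
  rw [integral_const_mul]
  have h2 : ∫ t : ℝ, (1 + ((t - ρ.im) / δ) ^ 2)⁻¹ = δ * Real.pi := by
    rw [integral_sub_right_eq_self (fun t : ℝ => (1 + (t / δ) ^ 2)⁻¹) ρ.im,
      Measure.integral_comp_div (fun t : ℝ => (1 + t ^ 2)⁻¹) δ, integral_univ_inv_one_add_sq,
      smul_eq_mul, abs_of_pos hd]
  rw [h2]
  field_simp

end FPoleAux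

theorem pole_tail {U y σ T : ℝ} {ρ : ℂ} (hU : 0 < U) (hy : 2 * U ≤ y) (hσ : 0 < σ)
    (hσ2 : σ ≤ 2) (hρ : ρ.re < σ) (hT : 1 ≤ T) :
    ‖∫ t in {t : ℝ | T < |t|}, FF U y (σ + t * I) / (σ + t * I - ρ)‖ ≤
      28 * (y ^ (σ + 1) / U ^ 2) / Real.sqrt (T ^ 3 * (σ - ρ.re)) := by
  have hy0 : 0 < y := by linarith
  have hd : 0 < σ - ρ.re := by linarith
  have hT0 : 0 < T := by linarith
  obtain ⟨q1, q2⟩ := FPoleAux.quart hT
  obtain ⟨p1, p2⟩ := FPoleAux.poisson hρ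
  set P := y ^ (σ + 1) / U ^ 2 with hP
  have hP0 : 0 ≤ P := by positivity
  set R := Real.sqrt (T ^ 3 * (σ - ρ.re)) with hR
  have hR0 : 0 < R := Real.sqrt_pos.mpr (by positivity)
  have hRR : R ^ 2 = T ^ 3 * (σ - ρ.re) := Real.sq_sqrt (by positivity)
  set a := R / (σ - ρ.re) with ha
  have ha0 : 0 < a := by positivity
  have hg1 : IntegrableOn (fun t : ℝ => 7 * P * (a * (t ^ 4)⁻¹)) {t : ℝ | T < |t|} :=
    (q1.const_mul a).const_mul (7 * P)
  have hg2 : IntegrableOn (fun t : ℝ => 7 * P * (a⁻¹ * (‖((σ : ℂ) + t * I) - ρ‖ ^ 2)⁻¹))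
      {t : ℝ | T < |t|} :=
    ((p1.const_mul a⁻¹).const_mul (7 * P)).integrableOn
  have hms : MeasurableSet {t : ℝ | T < |t|} := measurableSet_lt measurable_const
    (by fun_prop)
  have hbd : ‖∫ t in {t : ℝ | T < |t|}, FF U y (σ + t * I) / (σ + t * I - ρ)‖ ≤
      ∫ t in {t : ℝ | T < |t|}, (7 * P * (a * (t ^ 4)⁻¹) +
        7 * P * (a⁻¹ * (‖((σ : ℂ) + t * I) - ρ‖ ^ 2)⁻¹)) := by
    refine norm_integral_le_of_norm_le (hg1.add hg2) ?_
    refine (ae_restrict_iff' hms).2 (Filter.Eventually.of_forall fun t ht => ?_)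
    have ht1 : T < |t| := ht
    have ht0 : t ≠ 0 := by
      rintro rfl
      simp at ht1
      linarith
    have hre : ((σ : ℂ) + t * I).re = σ := by simp
    have him : ((σ : ℂ) + t * I).im = t := by simp
    have hdec := FF_decay hU hy (s := σ + t * I) (by rw [hre]; exact hσ) (by rw [hre]; exact hσ2)
      (by rw [him]; exact ht0)
    rw [hre, him] at hdec
    have hnn : 0 < ‖((σ : ℂ) + t * I) - ρ‖ := norm_pos_iff.mpr (FPoleAux.sub_ne hρ t)
    set m := ‖((σ : ℂ) + t * I) - ρ‖ with hm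
    rw [norm_div, ← hm]
    have ht2 : 0 < t ^ 2 := by positivity
    have h14 : 14 * y ^ (σ + 1) / (U ^ 2 * t ^ 2) = 14 * P * (t ^ 2)⁻¹ := by
      rw [hP]
      field_simp
    rw [h14] at hdec
    have hu : (t ^ 4)⁻¹ = ((t ^ 2)⁻¹) ^ 2 := by
      rw [inv_pow]
      congr 1
      ring
    rw [hu]
    set u := (t ^ 2)⁻¹ with hudef
    have hu0 : 0 < u := by positivity
    have hmi : (m ^ 2)⁻¹ = (m⁻¹) ^ 2 := (inv_pow m 2).symm
    rw [hmi, div_eq_mul_inv]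
    set v := m⁻¹ with hv
    have hv0 : 0 < v := by positivity
    have hkey : 2 * (u * v) ≤ a * u ^ 2 + a⁻¹ * v ^ 2 := by
      have h1 : 0 ≤ a⁻¹ * (a * u - v) ^ 2 := by positivity
      have h2 : a⁻¹ * (a * u - v) ^ 2 = a * u ^ 2 - 2 * (u * v) + a⁻¹ * v ^ 2 := by
        field_simp
        ring
      linarith
    calc ‖FF U y (σ + t * I)‖ * v ≤ 14 * P * u * v := mul_le_mul_of_nonneg_right hdec hv0.le
      _ = 7 * P * (2 * (u * v)) := by ring
      _ ≤ 7 * P * (a * u ^ 2 + a⁻¹ * v ^ 2) := by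
          apply mul_le_mul_of_nonneg_left hkey (by positivity)
      _ = _ := by ring
  refine hbd.trans ?_
  rw [integral_add hg1 hg2, integral_const_mul, integral_const_mul, integral_const_mul,
    integral_const_mul, q2]
  have h3 : ∫ t in {t : ℝ | T < |t|}, (‖((σ : ℂ) + t * I) - ρ‖ ^ 2)⁻¹ ≤ Real.pi / (σ - ρ.re) := by
    rw [← p2]
    exact setIntegral_le_integral p1 (Filter.Eventually.of_forall fun t => by positivity)
  have h4 : a * (2 / (3 * T ^ 3)) = 2 / 3 * (1 / R) := by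
    rw [ha]
    have : T ^ 3 = R ^ 2 / (σ - ρ.re) := by
      rw [hRR]
      field_simp
    rw [this]
    field_simp
  have h5 : a⁻¹ * (Real.pi / (σ - ρ.re)) = Real.pi * (1 / R) := by
    rw [ha]
    field_simp
  have h6 : a⁻¹ * ∫ t in {t : ℝ | T < |t|}, (‖((σ : ℂ) + t * I) - ρ‖ ^ 2)⁻¹ ≤
      Real.pi * (1 / R) := by
    rw [← h5]
    exact mul_le_mul_of_nonneg_left h3 (by positivity)
  have hpi := Real.pi_lt_d2
  have hR1 : 0 < 1 / R := by positivity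
  calc 7 * P * (a * (2 / (3 * T ^ 3))) +
        7 * P * (a⁻¹ * ∫ t in {t : ℝ | T < |t|}, (‖((σ : ℂ) + t * I) - ρ‖ ^ 2)⁻¹)
      ≤ 7 * P * (2 / 3 * (1 / R)) + 7 * P * (Real.pi * (1 / R)) := by
        rw [h4]
        gcongr
    _ = 7 * (2 / 3 + Real.pi) * (P * (1 / R)) := by ring
    _ ≤ 28 * (P * (1 / R)) := by
        apply mul_le_mul_of_nonneg_right _ (by positivity)
        linarith
    _ = 28 * P / R := by ring

end Pool.Agent.Lib.GMV
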