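import Mathlib

/-!
# Moving a vertical segment

PROOF. `Complex.integral_boundary_rect_eq_zero_of_differentiableOn` for the rectangle with corners
`a - iT` and `b + iT`: the two vertical integrals differ by the two horizontal ones, each at most
`(b - a) B`.  (`∫_{-T}^{T} G(a + it) dt` without the factor `i`, of norm one.)
-/

namespace Pool.Agent.Lib.GMV

open Complex MeasureTheory Set

theorem rect_shift {G : ℂ → ℂ} {a b T B : ℝ} (hab : a ≤ b) (hT : 0 ≤ T)
    (hG : ∀ s : ℂ, a ≤ s.re → s.re ≤ b → |s.im| ≤ T → DifferentiableAt ℂ G s)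
    (hB : ∀ s : ℂ, a ≤ s.re → s.re ≤ b → |s.im| = T → ‖G s‖ ≤ B) :
    ‖∫ t in (-T)..T, G (b + t * I)‖ ≤ ‖∫ t in (-T)..T, G (a + t * I)‖ + 2 * ((b - a) * B) := by
  have hr := Complex.integral_boundary_rect_eq_zero_of_differentiableOn G
    (⟨a, -T⟩ : ℂ) (⟨b, T⟩ : ℂ) (by
      intro s hs
      rw [Complex.mem_reProdIm] at hs
      obtain ⟨h1, h2⟩ := hs
      dsimp only at h1 h2
      rw [Set.uIcc_of_le hab] at h1
      rw [Set.uIcc_of_le (by linarith : -T ≤ T)] at h2
      exact (hG s h1.1 h1.2 (abs_le.mpr h2)).differentiableWithinAt)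
  dsimp only at hr
  have hh1 : ‖∫ x in a..b, G (x + ((-T : ℝ) : ℂ) * I)‖ ≤ (b - a) * B := by
    have := intervalIntegral.norm_integral_le_of_norm_le_const (a := a) (b := b)
      (f := fun x : ℝ => G (x + ((-T : ℝ) : ℂ) * I)) (C := B) (by
        intro x hx
        rw [Set.uIoc_of_le hab] at hx
        refine hB _ ?_ ?_ ?_
        · simpa using hx.1.le
        · simpa using hx.2
        · simp [abs_of_nonneg hT])
    rw [abs_of_nonneg (by linarith : 0 ≤ b - a)] at this
    linarith
  have hh2 : ‖∫ x in a..b, G (x + (T : ℂ) * I)‖ ≤ (b - a) * B := by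
    have := intervalIntegral.norm_integral_le_of_norm_le_const (a := a) (b := b)
      (f := fun x : ℝ => G (x + (T : ℂ) * I)) (C := B) (by
        intro x hx
        rw [Set.uIoc_of_le hab] at hx
        refine hB _ ?_ ?_ ?_
        · simpa using hx.1.le
        · simpa using hx.2
        · simp [abs_of_nonneg hT])
    rw [abs_of_nonneg (by linarith : 0 ≤ b - a)] at this
    linarith
  have e1 : I • ∫ t in (-T)..T, G (b + t * I) = I • (∫ t in (-T)..T, G (a + t * I)) -
      ((∫ x in a..b, G (x + ((-T : ℝ) : ℂ) * I)) - ∫ x in a..b, G (x + (T : ℂ) * I)) := by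
    have h := hr
    linear_combination h
  have e2 : ‖∫ t in (-T)..T, G (b + t * I)‖ = ‖I • ∫ t in (-T)..T, G (b + t * I)‖ := by
    rw [norm_smul, Complex.norm_I, one_mul]
  rw [e2, e1]
  refine (norm_sub_le _ _).trans ?_
  have e3 : ‖I • ∫ t in (-T)..T, G (a + t * I)‖ = ‖∫ t in (-T)..T, G (a + t * I)‖ := by
    rw [norm_smul, Complex.norm_I, one_mul]
  rw [e3]
  have h5 := norm_sub_le (∫ x in a..b, G (x + ((-T : ℝ) : ℂ) * I)) (∫ x in a..b, G (x + (T : ℂ) * I))
  linarith

end Pool.Agent.Lib.GMV
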