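import Pool.Agent.Lib.GMV.Defs
import Pool.Agent.Lib.GMV.FKerB
import Pool.Agent.Lib.VK.ZeroFree

/-!
# The sum over prime powers as an integral on a line `Re s = σ > 1`

PROOF. `lf_logderiv`: for `χ ≠ 1` trivial; for `χ = 1`, `Lf 1 z = (z - 1) L(z)` near `s` (`s ≠ 1`), so
`Lf'/Lf = 1/(s - 1) + L'/L`.
`logderiv_le`: `-L'/L(s, χ) = ∑ Λ(n) χ(n) n^(-s)` (`DirichletCharacter.LSeries_twist_vonMangoldt_eq`
or `LSeries_vonMangoldt...`), absolutely bounded by `∑ Λ(n) n^(-σ) ≤ C/(σ - 1)` (`VK.mangoldt_le`,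
`VK.ZeroFree`).
`sum_formula`: `∑ Λ(m) χ(m) tri U y m`, insert `FF_inversion` at `x = m ≥ 1`, exchange sum and integral
(`∑ Λ(m) m^(-σ) < ∞`, `FF_integrable`), `∑ Λ(m) χ(m) m^(-s) = -L'/L(s, χ)`.
(For `m = 0` the term is zero because `Λ 0 = 0`.)
-/

namespace Pool.Agent.Lib.GMV

open Complex MeasureTheory

namespace FSumAux

/-- the logarithmic derivative as a Dirichlet series -/
lemma eq_neg {q : ℕ} [NeZero q] (χ : DirichletCharacter ℂ q) {s : ℂ} (hs : 1 < s.re) :
    deriv (DirichletCharacter.LFunction χ) s / DirichletCharacter.LFunction χ s =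
      -LSeries ((fun n : ℕ => χ (n : ZMod q)) *
        (fun n : ℕ => ((ArithmeticFunction.vonMangoldt n : ℝ) : ℂ))) s := by
  have e1 : -deriv χ.LFunction s / χ.LFunction s =
      LSeries ((fun n : ℕ => χ (n : ZMod q)) *
        (fun n : ℕ => ((ArithmeticFunction.vonMangoldt n : ℝ) : ℂ))) s := by
    rw [DirichletCharacter.LFunction_eq_LSeries χ hs,
      DirichletCharacter.deriv_LFunction_eq_deriv_LSeries χ hs]
    exact (DirichletCharacter.LSeries_twist_vonMangoldt_eq χ hs).symm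
  rw [← e1, neg_div, neg_neg]

lemma norm_le {q : ℕ} [NeZero q] (χ : DirichletCharacter ℂ q) {s : ℂ} (hs : 1 < s.re) :
    ‖deriv (DirichletCharacter.LFunction χ) s / DirichletCharacter.LFunction χ s‖ ≤
      (LSeries (fun n : ℕ => ((ArithmeticFunction.vonMangoldt n : ℝ) : ℂ))
        ((s.re : ℝ) : ℂ)).re := by
  rw [eq_neg χ hs, norm_neg]
  have S1 := DirichletCharacter.LSeriesSummable_twist_vonMangoldt χ hs
  have S0 : LSeriesSummable (fun n : ℕ => ((ArithmeticFunction.vonMangoldt n : ℝ) : ℂ))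
      ((s.re : ℝ) : ℂ) :=
    ArithmeticFunction.LSeriesSummable_vonMangoldt (by simpa using hs)
  unfold LSeries
  rw [Complex.re_tsum S0]
  refine (norm_tsum_le_tsum_norm S1.norm).trans ?_
  refine S1.norm.tsum_le_tsum (fun n => ?_) (Complex.hasSum_re S0.hasSum).summable
  rcases Nat.eq_zero_or_pos n with hn | hn
  · subst hn
    simp
  have hn0 : n ≠ 0 := hn.ne'
  rw [LSeries.term_of_ne_zero hn0, LSeries.term_of_ne_zero hn0, norm_div,
    Complex.norm_natCast_cpow_of_pos hn, Pi.mul_apply, norm_mul]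
  have h1 : ((ArithmeticFunction.vonMangoldt n : ℝ) : ℂ) / (n : ℂ) ^ ((s.re : ℝ) : ℂ) =
      ((ArithmeticFunction.vonMangoldt n / (n : ℝ) ^ s.re : ℝ) : ℂ) := by
    push_cast
    rw [Complex.ofReal_cpow (Nat.cast_nonneg _)]
    simp
  rw [h1, Complex.ofReal_re, Complex.norm_real,
    Real.norm_of_nonneg ArithmeticFunction.vonMangoldt_nonneg]
  have h2 : ‖χ (n : ZMod q)‖ ≤ 1 := χ.norm_le_one _
  have h3 : (0 : ℝ) ≤ ArithmeticFunction.vonMangoldt n := ArithmeticFunction.vonMangoldt_nonneg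
  have h4 : (0 : ℝ) < (n : ℝ) ^ s.re := Real.rpow_pos_of_pos (by exact_mod_cast hn) _
  gcongr
  nlinarith only [h2, h3, norm_nonneg (χ (n : ZMod q))]

end FSumAux

theorem lf_logderiv {q : ℕ} [NeZero q] (χ : DirichletCharacter ℂ q) {s : ℂ} (hs : 1 < s.re) :
    deriv (DirichletCharacter.LFunction χ) s / DirichletCharacter.LFunction χ s =
      deriv (Lf χ) s / Lf χ s - (if χ = 1 then 1 / (s - 1) else 0) := by
  by_cases hχ : χ = 1
  · subst hχ
    have hs1 : s ≠ 1 := by
      rintro rfl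
      simp at hs
    have h10 : s - 1 ≠ 0 := sub_ne_zero.mpr hs1
    have hL : DirichletCharacter.LFunction (1 : DirichletCharacter ℂ q) s ≠ 0 :=
      DirichletCharacter.LFunction_ne_zero_of_one_le_re _ (.inr hs1) hs.le
    have hd : deriv (Lf (1 : DirichletCharacter ℂ q)) s =
        (s - 1) * deriv (DirichletCharacter.LFunction (1 : DirichletCharacter ℂ q)) s +
          DirichletCharacter.LFunction (1 : DirichletCharacter ℂ q) s := by
      rw [Lf_one]
      exact DirichletCharacter.deriv_LFunctionTrivChar₁_apply_of_ne_one q hs1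
    rw [if_pos rfl, hd, Lf_one_apply q hs1]
    field_simp
    ring
  · rw [if_neg hχ, Lf_of_ne hχ, sub_zero]

theorem logderiv_le : ∃ C : ℝ, 1 ≤ C ∧ ∀ (q : ℕ) [NeZero q] (χ : DirichletCharacter ℂ q) (s : ℂ),
    1 < s.re → s.re ≤ 2 →
      ‖deriv (DirichletCharacter.LFunction χ) s / DirichletCharacter.LFunction χ s‖ ≤
        C / (s.re - 1) := by
  obtain ⟨C, hC0, hC⟩ := Pool.Agent.VK.ZF.mangoldt_le
  refine ⟨C + 1, by linarith, fun q _ χ s hs hs2 => ?_⟩
  have hx : 0 < s.re - 1 := by linarith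
  have h1 := FSumAux.norm_le χ hs
  have h2 := hC (s.re - 1) hx (by linarith)
  rw [add_sub_cancel] at h2
  refine h1.trans (h2.trans ?_)
  have h3 : 1 ≤ 1 / (s.re - 1) := by
    rw [le_div_iff₀ hx]
    linarith
  have h4 : (C + 1) / (s.re - 1) = 1 / (s.re - 1) + C * (1 / (s.re - 1)) := by ring
  rw [h4]
  have h5 : C * 1 ≤ C * (1 / (s.re - 1)) := mul_le_mul_of_nonneg_left h3 hC0
  linarith

theorem sum_formula {q : ℕ} [NeZero q] (χ : DirichletCharacter ℂ q) {U y σ : ℝ} (hU : 0 < U)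
    (hy : 2 * U ≤ y) (hσ : 1 < σ) (hσ2 : σ ≤ 2) :
    2 * Real.pi * ∑' m : ℕ, (ArithmeticFunction.vonMangoldt m : ℂ) * χ m * (tri U y m : ℂ) =
      ∫ t : ℝ, -(deriv (DirichletCharacter.LFunction χ) (σ + t * I) /
        DirichletCharacter.LFunction χ (σ + t * I)) * FF U y (σ + t * I) := by
  have hσ0 : 0 < σ := by linarith
  have hint := FF_integrable hU hy hσ0 hσ2
  set F : ℕ → ℝ → ℂ := fun m t => LSeries.term ((fun n : ℕ => χ (n : ZMod q)) *
    (fun n : ℕ => ((ArithmeticFunction.vonMangoldt n : ℝ) : ℂ))) (σ + t * I) m *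
      FF U y (σ + t * I) with hF
  have hre : ∀ t : ℝ, ((σ : ℂ) + t * I).re = σ := fun t => by simp
  -- the terms
  have hF0 : ∀ t : ℝ, F 0 t = 0 := fun t => by simp [hF]
  have hFm : ∀ m : ℕ, m ≠ 0 → ∀ t : ℝ, F m t =
      (((ArithmeticFunction.vonMangoldt m : ℝ) : ℂ) * χ m) *
        (FF U y (σ + t * I) * ((m : ℝ) : ℂ) ^ (-((σ : ℂ) + t * I))) := by
    intro m hm t
    have hmC : (m : ℂ) ≠ 0 := by exact_mod_cast hm
    simp only [hF]
    rw [LSeries.term_of_ne_zero hm, Pi.mul_apply, Complex.cpow_neg, Complex.ofReal_natCast,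
      div_eq_mul_inv]
    ring
  have hnorm : ∀ m : ℕ, ∀ t : ℝ, ‖F m t‖ =
      ‖LSeries.term ((fun n : ℕ => χ (n : ZMod q)) *
        (fun n : ℕ => ((ArithmeticFunction.vonMangoldt n : ℝ) : ℂ))) (σ : ℂ) m‖ *
        ‖FF U y (σ + t * I)‖ := by
    intro m t
    simp only [hF]
    rw [norm_mul, LSeries.norm_term_eq, LSeries.norm_term_eq, hre t, Complex.ofReal_re]
  have hmeas : ∀ m : ℕ, Continuous fun t : ℝ => LSeries.term ((fun n : ℕ => χ (n : ZMod q)) *
      (fun n : ℕ => ((ArithmeticFunction.vonMangoldt n : ℝ) : ℂ))) (σ + t * I) m := by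
    intro m
    rcases eq_or_ne m 0 with rfl | hm
    · simp only [LSeries.term_zero]
      exact continuous_const
    · have hmC : (m : ℂ) ≠ 0 := by exact_mod_cast hm
      simp only [LSeries.term_of_ne_zero hm]
      refine continuous_const.div ?_ fun t => ?_
      · exact Continuous.const_cpow (by fun_prop) (.inl hmC)
      · simp [Complex.cpow_eq_zero_iff, hmC]
  have hFint : ∀ m : ℕ, Integrable (F m) := by
    intro m
    refine Integrable.mono' (hint.norm.const_mul
      ‖LSeries.term ((fun n : ℕ => χ (n : ZMod q)) *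
        (fun n : ℕ => ((ArithmeticFunction.vonMangoldt n : ℝ) : ℂ))) (σ : ℂ) m‖) ?_ ?_
    · exact (hmeas m).aestronglyMeasurable.mul hint.aestronglyMeasurable
    · exact Filter.Eventually.of_forall fun t => (hnorm m t).le
  have hsumm : Summable fun m : ℕ => ‖LSeries.term ((fun n : ℕ => χ (n : ZMod q)) *
        (fun n : ℕ => ((ArithmeticFunction.vonMangoldt n : ℝ) : ℂ))) (σ : ℂ) m‖ := by
    have h := DirichletCharacter.LSeriesSummable_twist_vonMangoldt χ
      (s := (σ : ℂ)) (by simpa using hσ)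
    exact h.norm
  have hsum2 : Summable fun m : ℕ => ∫ t : ℝ, ‖F m t‖ := by
    have : (fun m : ℕ => ∫ t : ℝ, ‖F m t‖) = fun m : ℕ =>
        ‖LSeries.term ((fun n : ℕ => χ (n : ZMod q)) *
        (fun n : ℕ => ((ArithmeticFunction.vonMangoldt n : ℝ) : ℂ))) (σ : ℂ) m‖ *
          ∫ t : ℝ, ‖FF U y (σ + t * I)‖ := by
      funext m
      rw [← integral_const_mul]
      exact integral_congr_ae (Filter.Eventually.of_forall fun t => hnorm m t)
    rw [this]
    exact hsumm.mul_right _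
  have hex := integral_tsum_of_summable_integral_norm hFint hsum2
  have hR : ∀ t : ℝ, ∑' m : ℕ, F m t =
      -(deriv (DirichletCharacter.LFunction χ) (σ + t * I) /
        DirichletCharacter.LFunction χ (σ + t * I)) * FF U y (σ + t * I) := by
    intro t
    simp only [hF]
    rw [tsum_mul_right]
    congr 1
    rw [FSumAux.eq_neg χ (s := (σ : ℂ) + t * I) (by rw [hre t]; exact hσ), neg_neg]
    rfl
  have hL : ∀ m : ℕ, ∫ t : ℝ, F m t =
      2 * Real.pi * ((ArithmeticFunction.vonMangoldt m : ℂ) * χ m * (tri U y m : ℂ)) := by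
    intro m
    rcases eq_or_ne m 0 with rfl | hm
    · simp [hF0]
    · have hm0 : (0 : ℝ) < m := by exact_mod_cast Nat.pos_of_ne_zero hm
      calc ∫ t : ℝ, F m t = ∫ t : ℝ, (((ArithmeticFunction.vonMangoldt m : ℝ) : ℂ) * χ m) *
            (FF U y (σ + t * I) * ((m : ℝ) : ℂ) ^ (-((σ : ℂ) + t * I))) :=
            integral_congr_ae (Filter.Eventually.of_forall fun t => hFm m hm t)
        _ = _ := by
            rw [integral_const_mul, FF_inversion hU hy hσ0 hσ2 hm0]
            ring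
  rw [← tsum_mul_left]
  calc _ = ∑' m : ℕ, ∫ t : ℝ, F m t := tsum_congr fun m => (hL m).symm
    _ = ∫ t : ℝ, ∑' m : ℕ, F m t := hex
    _ = _ := integral_congr_ae (Filter.Eventually.of_forall hR)

end Pool.Agent.Lib.GMV
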