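import Pool.Agent.Lib.GMV.FCnt
import Pool.Agent.Lib.GMV.FPole
import Pool.Agent.Lib.GMV.FSum
import Pool.Agent.Lib.GMV.FPar

/-!
# The tails `|t| > T₁ = Q^30 - 2`

PROOF. `σ₀ = 1 + 1/L`, `L = log X`, `y^(σ₀+1)/U² = y^(1/L) (y/U)² ≤ 9 * 36 Q^10` (`Par'`).
`lf_tail`: `‖Lf'/Lf‖ ≤ C L + L` on the line (`logderiv_le`, `lf_logderiv`, `‖s - 1‖ ≥ 1/L`), `FF_decay`,
`∫_{|t| > T₁} t^(-2) = 2/T₁`: total `≤ (C + 1) L * 14 * 324 Q^10 * 2/T₁ ≤ C'/Q^4` (`L ≤ 4 (log Q)² ≤ Q`).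
`poles_tail`: `pole_tail` with `T₁` (`≥ Q^30/2`), `σ₀ - Re ρ ≥ 1/L`: each at most
`28 * 324 Q^10 (L/T₁³)^(1/2)`; `∑ mul ≤ C Q^30 log (q Q^30) ≤ 31 C Q^30 log Q` (`count_Z`); product
`≤ C' Q^10 Q^30 log Q * L^(1/2) Q^(-45) ≤ C' Q^(-5) (log Q)² ≤ C' Q^(-4)`.
-/

namespace Pool.Agent.Lib.GMV

open Complex MeasureTheory

namespace FTriBAux

open Set in
/-- the integral of `t^(-2)` over `|t| > T` -/
private theorem tail2 {T : ℝ} (hT : 0 < T) :
    IntegrableOn (fun t : ℝ => (t ^ 2)⁻¹) {t : ℝ | T < |t|} ∧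
      ∫ t in {t : ℝ | T < |t|}, (t ^ 2)⁻¹ = 2 / T := by
  have hms : MeasurableSet {t : ℝ | T < |t|} := measurableSet_lt measurable_const measurable_abs
  set f : ℝ → ℝ := (Ioi T).indicator (fun t => (t ^ 2)⁻¹) with hf
  have h1 : (fun x : ℝ => f |x|) = {t : ℝ | T < |t|}.indicator (fun t => (t ^ 2)⁻¹) := by
    funext x
    by_cases hx : T < |x|
    · rw [hf, indicator_of_mem (show |x| ∈ Ioi T from hx),
        indicator_of_mem (show x ∈ {t : ℝ | T < |t|} from hx), sq_abs]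
    · rw [hf, indicator_of_notMem (show |x| ∉ Ioi T from hx),
        indicator_of_notMem (show x ∉ {t : ℝ | T < |t|} from hx)]
  have h2 := integral_comp_abs (f := f)
  have h3 : ∫ x in Ioi (0 : ℝ), f x = 1 / T := by
    rw [hf, setIntegral_indicator measurableSet_Ioi]
    have e1 : Ioi (0 : ℝ) ∩ Ioi T = Ioi T := by
      ext x
      simp only [mem_inter_iff, mem_Ioi]
      exact ⟨fun h => h.2, fun h => ⟨hT.trans h, h⟩⟩
    have e2 : ∫ x in Ioi T, (x ^ 2)⁻¹ = ∫ x in Ioi T, x ^ (-2 : ℝ) := by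
      refine setIntegral_congr_fun measurableSet_Ioi fun x hx => ?_
      have hx0 : 0 < x := hT.trans hx
      rw [Real.rpow_neg hx0.le, Real.rpow_two]
    rw [e1, e2, integral_Ioi_rpow_of_lt (by norm_num) hT]
    have e3 : (-2 + 1 : ℝ) = -1 := by norm_num
    rw [e3, Real.rpow_neg hT.le, Real.rpow_one]
    ring
  rw [h1, h3, integral_indicator hms] at h2
  have h4 : ∫ t in {t : ℝ | T < |t|}, (t ^ 2)⁻¹ = 2 / T := by
    rw [h2]
    ring
  refine ⟨?_, h4⟩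
  by_contra hc
  have h5 : ∫ t in {t : ℝ | T < |t|}, (t ^ 2)⁻¹ = 0 := integral_undef hc
  rw [h4] at h5
  have : 0 < 2 / T := by positivity
  linarith

private theorem cont_ld {q : ℕ} [NeZero q] (χ : DirichletCharacter ℂ q) {σ : ℝ} (hσ : 1 ≤ σ) :
    Continuous fun t : ℝ => deriv (Lf χ) ((σ : ℂ) + t * I) / Lf χ ((σ : ℂ) + t * I) := by
  have h1 : Continuous fun t : ℝ => (σ : ℂ) + t * I := by fun_prop
  have h2 : Continuous (deriv (Lf χ)) :=
    ((Lf_differentiable χ).contDiff (n := 1)).continuous_deriv le_rfl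
  refine (h2.comp h1).div ((Lf_differentiable χ).continuous.comp h1) fun t => ?_
  exact Lf_ne_zero χ (by simpa using hσ)

/-- bound of the logarithmic derivative on the line -/
private theorem ld_bound : ∃ C : ℝ, 1 ≤ C ∧ ∀ (q : ℕ) [NeZero q] (χ : DirichletCharacter ℂ q)
    (L t : ℝ), 2 ≤ L →
    ‖deriv (Lf χ) (((1 + 1 / L : ℝ) : ℂ) + t * I) / Lf χ (((1 + 1 / L : ℝ) : ℂ) + t * I)‖ ≤
      C * L := by
  obtain ⟨C, hC, h⟩ := logderiv_le
  refine ⟨C + 1, by linarith, fun q _ χ L t hL => ?_⟩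
  have hL0 : 0 < L := by linarith
  have hi : 0 < 1 / L := by positivity
  have hi1 : 1 / L ≤ 1 := by
    rw [div_le_one hL0]
    linarith
  set s : ℂ := ((1 + 1 / L : ℝ) : ℂ) + t * I with hs
  have hre : s.re = 1 + 1 / L := by
    rw [hs, add_re, ofReal_re, re_ofReal_mul, I_re, mul_zero, add_zero]
  have h1 : 1 < s.re := by rw [hre]; linarith
  have h2 : s.re ≤ 2 := by rw [hre]; linarith
  have h3 := h q χ s h1 h2
  have h4 := lf_logderiv χ h1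
  have h5 : deriv (Lf χ) s / Lf χ s =
      deriv (DirichletCharacter.LFunction χ) s / DirichletCharacter.LFunction χ s +
        (if χ = 1 then 1 / (s - 1) else 0) := by
    rw [h4]
    ring
  have h6 : ‖(if χ = 1 then 1 / (s - 1) else 0 : ℂ)‖ ≤ L := by
    split_ifs
    · rw [norm_div, norm_one]
      have h7 : 1 / L ≤ ‖s - 1‖ := by
        have h8 := Complex.re_le_norm (s - 1)
        rw [sub_re, one_re, hre] at h8
        linarith
      rw [div_le_iff₀ (lt_of_lt_of_le hi h7)]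
      calc (1 : ℝ) = L * (1 / L) := by field_simp
        _ ≤ L * ‖s - 1‖ := mul_le_mul_of_nonneg_left h7 hL0.le
    · rw [norm_zero]
      exact hL0.le
  have h9 : C / (s.re - 1) = C * L := by
    rw [hre]
    field_simp
    ring
  rw [h5]
  rw [h9] at h3
  calc _ ≤ C * L + L := (norm_add_le _ _).trans (add_le_add h3 h6)
    _ = (C + 1) * L := by ring

/-- the size of the main factor -/
private theorem P_bound {X : ℝ} {Q : ℕ} {U y : ℝ} (hP : Par' X Q U y) :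
    y ^ ((1 + 1 / Real.log X) + 1) / U ^ 2 ≤ 324 * (Q : ℝ) ^ 10 := by
  have hU := hP.Upos
  have hy : 0 < y := by linarith [hP.Uy]
  have e : y ^ ((1 + 1 / Real.log X) + 1) = y ^ (1 / Real.log X) * y ^ 2 := by
    rw [← Real.rpow_two, ← Real.rpow_add hy]
    congr 1
    ring
  have h1 : (y / U) ^ 2 ≤ (6 * (Q : ℝ) ^ 5) ^ 2 :=
    pow_le_pow_left₀ (by positivity) hP.P 2
  rw [e]
  calc y ^ (1 / Real.log X) * y ^ 2 / U ^ 2 = y ^ (1 / Real.log X) * (y / U) ^ 2 := by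
        rw [div_pow]
        ring
    _ ≤ 9 * (6 * (Q : ℝ) ^ 5) ^ 2 :=
        mul_le_mul hP.y9 h1 (by positivity) (by norm_num)
    _ = 324 * (Q : ℝ) ^ 10 := by ring

private theorem logs {X : ℝ} {Q : ℕ} {U y : ℝ} (hP : Par' X Q U y) :
    1 ≤ Real.log Q ∧ Real.log Q ^ 3 ≤ Q ∧ Real.log Q ^ 2 ≤ Q := by
  have hQ : (100 : ℝ) ≤ Q := by exact_mod_cast hP.Q100
  have h1 : 1 ≤ Real.log Q := by
    rw [Real.le_log_iff_exp_le (by linarith)]
    linarith [Real.exp_one_lt_d9]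
  exact ⟨h1, (pow_le_pow_right₀ h1 (by norm_num)).trans hP.lq,
    (pow_le_pow_right₀ h1 (by norm_num)).trans hP.lq⟩

private theorem sig {X : ℝ} {Q : ℕ} {U y : ℝ} (hP : Par' X Q U y) :
    0 < 1 / Real.log X ∧ 1 + 1 / Real.log X ≤ 2 := by
  have h := hP.L2
  have h0 : 0 < Real.log X := by linarith
  refine ⟨by positivity, ?_⟩
  have : 1 / Real.log X ≤ 1 := by
    rw [div_le_one h0]
    linarith
  linarith

end FTriBAux

open FTriBAux

theorem lf_integrable {X : ℝ} {Q : ℕ} {U y : ℝ} (hP : Par' X Q U y) {q : ℕ} [NeZero q]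
    (χ : DirichletCharacter ℂ q) :
    Integrable (fun t : ℝ => FF U y (((1 + 1 / Real.log X : ℝ) : ℂ) + t * I) *
      (deriv (Lf χ) (((1 + 1 / Real.log X : ℝ) : ℂ) + t * I) /
        Lf χ (((1 + 1 / Real.log X : ℝ) : ℂ) + t * I))) := by
  obtain ⟨C, hC, hb⟩ := ld_bound
  obtain ⟨hs0, hs2⟩ := sig hP
  have hF : Integrable (fun t : ℝ => FF U y (((1 + 1 / Real.log X : ℝ) : ℂ) + t * I)) :=
    FF_integrable hP.Upos hP.Uy (by linarith) hs2
  refine Integrable.mono' (hF.norm.mul_const (C * Real.log X)) ?_ ?_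
  · exact hF.aestronglyMeasurable.mul
      (cont_ld χ (by linarith)).aestronglyMeasurable
  · refine Filter.Eventually.of_forall fun t => ?_
    rw [norm_mul]
    exact mul_le_mul_of_nonneg_left (hb q χ (Real.log X) t hP.L2) (norm_nonneg _)

theorem lf_tail : ∃ C X0 : ℝ, ∀ (X : ℝ) (Q : ℕ) (U y : ℝ), X0 ≤ X → Par X Q U y →
    ∀ (q : ℕ) [NeZero q] (χ : DirichletCharacter ℂ q),
    ‖∫ t in {t : ℝ | (Q : ℝ) ^ 30 - 2 < |t|},
      FF U y (((1 + 1 / Real.log X : ℝ) : ℂ) + t * I) *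
        (deriv (Lf χ) (((1 + 1 / Real.log X : ℝ) : ℂ) + t * I) /
          Lf χ (((1 + 1 / Real.log X : ℝ) : ℂ) + t * I))‖ ≤ C / (Q : ℝ) ^ 4 := by
  obtain ⟨C, hC, hb⟩ := ld_bound
  obtain ⟨X0, hX0⟩ := par_facts
  refine ⟨C * (4 * 14 * 324 * 4), X0, fun X Q U y hX hPar q _ χ => ?_⟩
  have hP := hX0 X Q U y hX hPar
  obtain ⟨hs0, hs2⟩ := sig hP
  obtain ⟨hl1, hl3, hl2⟩ := logs hP
  have hQ : (100 : ℝ) ≤ Q := by exact_mod_cast hP.Q100
  have hQ0 : (0 : ℝ) < Q := by linarith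
  have hU := hP.Upos
  have hy : 0 < y := by linarith [hP.Uy]
  have hL0 : 0 < Real.log X := by linarith [hP.L2]
  have hQ30 : (4 : ℝ) ≤ (Q : ℝ) ^ 30 := by
    calc (4 : ℝ) ≤ Q := by linarith
      _ = (Q : ℝ) ^ 1 := (pow_one _).symm
      _ ≤ (Q : ℝ) ^ 30 := pow_le_pow_right₀ (by linarith) (by norm_num)
  set T : ℝ := (Q : ℝ) ^ 30 - 2 with hT
  have hT2 : (Q : ℝ) ^ 30 / 2 ≤ T := by linarith
  have hT0 : 0 < T := by linarith
  obtain ⟨hi, hv⟩ := tail2 hT0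
  have hms : MeasurableSet {t : ℝ | T < |t|} := measurableSet_lt measurable_const measurable_abs
  set M : ℝ := 14 * (324 * (Q : ℝ) ^ 10) * (C * Real.log X) with hM
  have hM0 : 0 ≤ M := by positivity
  have h1 : ‖∫ t in {t : ℝ | T < |t|}, FF U y (((1 + 1 / Real.log X : ℝ) : ℂ) + t * I) *
        (deriv (Lf χ) (((1 + 1 / Real.log X : ℝ) : ℂ) + t * I) /
          Lf χ (((1 + 1 / Real.log X : ℝ) : ℂ) + t * I))‖ ≤
      ∫ t in {t : ℝ | T < |t|}, M * (t ^ 2)⁻¹ := by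
    refine norm_integral_le_of_norm_le (hi.const_mul M) ?_
    rw [ae_restrict_iff' hms]
    refine Filter.Eventually.of_forall fun t ht => ?_
    have ht' : T < |t| := ht
    have ht0 : t ≠ 0 := by
      rintro rfl
      rw [abs_zero] at ht'
      linarith
    have him : (((1 + 1 / Real.log X : ℝ) : ℂ) + t * I).im = t := by
      rw [add_im, ofReal_im, im_ofReal_mul, I_im, mul_one, zero_add]
    have hre : (((1 + 1 / Real.log X : ℝ) : ℂ) + t * I).re = 1 + 1 / Real.log X := by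
      rw [add_re, ofReal_re, re_ofReal_mul, I_re, mul_zero, add_zero]
    have h2 := FF_decay hU hP.Uy (s := ((1 + 1 / Real.log X : ℝ) : ℂ) + t * I)
      (by rw [hre]; linarith) (by rw [hre]; exact hs2) (by rw [him]; exact ht0)
    rw [hre, him] at h2
    have h3 : 14 * y ^ ((1 + 1 / Real.log X) + 1) / (U ^ 2 * t ^ 2) ≤
        14 * (324 * (Q : ℝ) ^ 10) * (t ^ 2)⁻¹ := by
      have e : 14 * y ^ ((1 + 1 / Real.log X) + 1) / (U ^ 2 * t ^ 2) =
          14 * (y ^ ((1 + 1 / Real.log X) + 1) / U ^ 2) * (t ^ 2)⁻¹ := by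
        field_simp
      rw [e]
      have := P_bound hP
      gcongr
    rw [norm_mul]
    calc _ ≤ (14 * (324 * (Q : ℝ) ^ 10) * (t ^ 2)⁻¹) * (C * Real.log X) :=
          mul_le_mul (h2.trans h3) (hb q χ (Real.log X) t hP.L2) (norm_nonneg _) (by positivity)
      _ = M * (t ^ 2)⁻¹ := by rw [hM]; ring
  rw [integral_const_mul, hv] at h1
  refine h1.trans ?_
  have hLQ : Real.log X ≤ 4 * Q := by
    have := hPar.hL
    linarith
  have h4 : 2 / T ≤ 4 / (Q : ℝ) ^ 30 := by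
    rw [div_le_div_iff₀ hT0 (by positivity)]
    linarith
  calc M * (2 / T) ≤ (14 * (324 * (Q : ℝ) ^ 10) * (C * (4 * Q))) * (4 / (Q : ℝ) ^ 30) := by
        rw [hM]
        gcongr
    _ = C * (4 * 14 * 324 * 4) * ((Q : ℝ) ^ 11 / (Q : ℝ) ^ 30) := by ring
    _ ≤ C * (4 * 14 * 324 * 4) * (1 / (Q : ℝ) ^ 4) := by
        have h5 : (Q : ℝ) ^ 11 / (Q : ℝ) ^ 30 ≤ 1 / (Q : ℝ) ^ 4 := by
          rw [div_le_div_iff₀ (by positivity) (by positivity), ← pow_add, one_mul]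
          exact pow_le_pow_right₀ (by linarith) (by norm_num)
        gcongr
    _ = C * (4 * 14 * 324 * 4) / (Q : ℝ) ^ 4 := by ring

theorem poles_tail : ∃ C X0 : ℝ, ∀ (X : ℝ) (Q : ℕ) (U y : ℝ), X0 ≤ X → Par X Q U y →
    ∀ (q : ℕ) [NeZero q] (χ : DirichletCharacter ℂ q), q ≤ Q → χ.IsPrimitive →
    ∑ ρ ∈ Z χ ((Q : ℝ) ^ 30), (mul χ ρ : ℝ) *
      ‖∫ t in {t : ℝ | (Q : ℝ) ^ 30 - 2 < |t|},
        FF U y (((1 + 1 / Real.log X : ℝ) : ℂ) + t * I) /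
          (((1 + 1 / Real.log X : ℝ) : ℂ) + t * I - ρ)‖ ≤ C / (Q : ℝ) ^ 4 := by
  obtain ⟨C, hC, hcZ⟩ := count_Z
  obtain ⟨X0, hX0⟩ := par_facts
  refine ⟨C * 31 * (28 * 324) * (8 * 4), X0, fun X Q U y hX hPar q _ χ hqQ hprim => ?_⟩
  have hP := hX0 X Q U y hX hPar
  obtain ⟨hs0, hs2⟩ := sig hP
  obtain ⟨hl1, hl3, hl2⟩ := logs hP
  have hQ : (100 : ℝ) ≤ Q := by exact_mod_cast hP.Q100
  have hQ0 : (0 : ℝ) < Q := by linarith
  have hU := hP.Upos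
  have hL0 : 0 < Real.log X := by linarith [hP.L2]
  have hQ30 : (4 : ℝ) ≤ (Q : ℝ) ^ 30 := by
    calc (4 : ℝ) ≤ Q := by linarith
      _ = (Q : ℝ) ^ 1 := (pow_one _).symm
      _ ≤ (Q : ℝ) ^ 30 := pow_le_pow_right₀ (by linarith) (by norm_num)
  set T : ℝ := (Q : ℝ) ^ 30 - 2 with hT
  have hT2 : (Q : ℝ) ^ 30 / 2 ≤ T := by linarith
  have hT1 : 1 ≤ T := by linarith
  have hT0 : 0 < T := by linarith
  have hQ30' : 0 < (Q : ℝ) ^ 30 := by positivity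
  -- each term
  set R : ℝ := 28 * (324 * (Q : ℝ) ^ 10) * (8 * Real.log X / (Q : ℝ) ^ 45) with hR
  have hterm : ∀ ρ ∈ Z χ ((Q : ℝ) ^ 30),
      ‖∫ t in {t : ℝ | T < |t|},
        FF U y (((1 + 1 / Real.log X : ℝ) : ℂ) + t * I) /
          (((1 + 1 / Real.log X : ℝ) : ℂ) + t * I - ρ)‖ ≤ R := by
    intro ρ hρ
    have hρ1 := re_lt_one_of_mem_Z hρ
    have h1 := pole_tail hU hP.Uy (σ := 1 + 1 / Real.log X) (T := T) (ρ := ρ) (by linarith) hs2
      (by linarith) hT1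
    refine h1.trans ?_
    have hd : 1 / Real.log X ≤ 1 + 1 / Real.log X - ρ.re := by linarith
    have hT3 : ((Q : ℝ) ^ 30 / 2) ^ 3 ≤ T ^ 3 := pow_le_pow_left₀ (by positivity) hT2 3
    have h2 : (((Q : ℝ) ^ 45) / (8 * Real.log X)) ^ 2 ≤ T ^ 3 * (1 + 1 / Real.log X - ρ.re) := by
      have h3 : ((Q : ℝ) ^ 30 / 2) ^ 3 * (1 / Real.log X) ≤
          T ^ 3 * (1 + 1 / Real.log X - ρ.re) :=
        mul_le_mul hT3 hd (by positivity) (by positivity)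
      refine le_trans ?_ h3
      have e1 : (((Q : ℝ) ^ 45) / (8 * Real.log X)) ^ 2 =
          ((Q : ℝ) ^ 30 / 2) ^ 3 * (1 / Real.log X) * (1 / (8 * Real.log X)) := by
        field_simp
        ring
      rw [e1]
      have h4 : 1 / (8 * Real.log X) ≤ 1 := by
        rw [div_le_one (by positivity)]
        linarith [hP.L2]
      have h5 : 0 ≤ ((Q : ℝ) ^ 30 / 2) ^ 3 * (1 / Real.log X) := by positivity
      nlinarith
    have h3 : ((Q : ℝ) ^ 45) / (8 * Real.log X) ≤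
        Real.sqrt (T ^ 3 * (1 + 1 / Real.log X - ρ.re)) := Real.le_sqrt_of_sq_le h2
    have h4 : 0 < ((Q : ℝ) ^ 45) / (8 * Real.log X) := by positivity
    have h5 := P_bound hP
    calc 28 * (y ^ ((1 + 1 / Real.log X) + 1) / U ^ 2) /
          Real.sqrt (T ^ 3 * (1 + 1 / Real.log X - ρ.re))
        ≤ 28 * (324 * (Q : ℝ) ^ 10) / (((Q : ℝ) ^ 45) / (8 * Real.log X)) := by
          gcongr
      _ = R := by
          rw [hR]
          field_simp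
  have hR0 : 0 ≤ R := by positivity
  have hsum : ∑ ρ ∈ Z χ ((Q : ℝ) ^ 30), (mul χ ρ : ℝ) *
      ‖∫ t in {t : ℝ | T < |t|},
        FF U y (((1 + 1 / Real.log X : ℝ) : ℂ) + t * I) /
          (((1 + 1 / Real.log X : ℝ) : ℂ) + t * I - ρ)‖ ≤
      (∑ ρ ∈ Z χ ((Q : ℝ) ^ 30), (mul χ ρ : ℝ)) * R := by
    rw [Finset.sum_mul]
    exact Finset.sum_le_sum fun ρ hρ =>
      mul_le_mul_of_nonneg_left (hterm ρ hρ) (Nat.cast_nonneg _)
  have hcount := hcZ q χ ((Q : ℝ) ^ 30) hprim (by linarith)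
  have hq1 : (1 : ℝ) ≤ q := by exact_mod_cast Nat.one_le_iff_ne_zero.mpr (NeZero.ne q)
  have hqQ' : (q : ℝ) ≤ Q := by exact_mod_cast hqQ
  have hlog : Real.log (q * (Q : ℝ) ^ 30) ≤ 31 * Real.log Q := by
    have h1 : Real.log (q * (Q : ℝ) ^ 30) ≤ Real.log ((Q : ℝ) ^ 31) := by
      refine Real.log_le_log (by positivity) ?_
      calc (q : ℝ) * (Q : ℝ) ^ 30 ≤ Q * (Q : ℝ) ^ 30 := by gcongr
        _ = (Q : ℝ) ^ 31 := by ring
    rw [Real.log_pow] at h1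
    exact_mod_cast h1
  have hLQ : Real.log X ≤ 4 * Real.log Q ^ 2 := hPar.hL
  calc _ ≤ (∑ ρ ∈ Z χ ((Q : ℝ) ^ 30), (mul χ ρ : ℝ)) * R := hsum
    _ ≤ (C * (Q : ℝ) ^ 30 * (31 * Real.log Q)) * R := by
        refine mul_le_mul_of_nonneg_right (hcount.trans ?_) hR0
        gcongr
    _ ≤ (C * (Q : ℝ) ^ 30 * (31 * Real.log Q)) *
          (28 * (324 * (Q : ℝ) ^ 10) * (8 * (4 * Real.log Q ^ 2) / (Q : ℝ) ^ 45)) := by
        rw [hR]
        gcongr
    _ = C * 31 * (28 * 324) * (8 * 4) * (Real.log Q ^ 3 * ((Q : ℝ) ^ 40 / (Q : ℝ) ^ 45)) := by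
        ring
    _ ≤ C * 31 * (28 * 324) * (8 * 4) * (Q * (1 / (Q : ℝ) ^ 5)) := by
        have h5 : (Q : ℝ) ^ 40 / (Q : ℝ) ^ 45 = 1 / (Q : ℝ) ^ 5 := by
          rw [div_eq_div_iff (by positivity) (by positivity), ← pow_add, one_mul]
        rw [h5]
        gcongr
    _ = C * 31 * (28 * 324) * (8 * 4) / (Q : ℝ) ^ 4 := by
        field_simp

end Pool.Agent.Lib.GMV
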