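import Pool.Agent.Lib.GMV.FTriA
import Pool.Agent.Lib.GMV.FTriB

/-!
# The explicit formula for the triangle kernel

PROOF. `T = Q^30`, `T₁ = T - 2`, `σ₀ = 1 + 1/log X`, `s = σ₀ + it`. By `sum_formula` and `lf_logderiv`:
`2π ∑ Λ χ tri = ∫ FF [χ = 1]/(s - 1) - ∫ FF Lf'/Lf` (both integrable: `pole_int` with `ρ = 1`, `lf_integrable`); the
first is `2π ∫ tri x^(1-1) = 2π` (`pole_int`, `integral_tri`).
`∫ FF Lf'/Lf = (|t| > T₁) + (|t| ≤ T₁)`, the first is `lf_tail`. For `|t| ≤ T₁` take `h` from `exists_factor`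
(`S = Z χ T`), `Lf'/Lf = ∑ mul/(s - ρ) + h'/h` (`logderiv_factor`, `Lf χ s ≠ 0`), `h_part` for the last term, and
`∫_{|t| ≤ T₁} FF/(s - ρ) = 2π ∫ tri x^(ρ-1) - ∫_{|t| > T₁} FF/(s - ρ)` (`pole_int`), `poles_tail`.
(`{t | T₁ < |t|}` is the complement of `Icc (-T₁) T₁`; interval integral = set integral over `Ioc`.)
Divide by `2π`: error `(3 C)/(2π Q^4)`.
-/

namespace Pool.Agent.Lib.GMV

open Complex MeasureTheory

namespace FTriAux

theorem split_int {g : ℝ → ℂ} (hg : Integrable g) {T : ℝ} (hT : 0 ≤ T) :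
    ∫ t, g t = (∫ t in (-T)..T, g t) + ∫ t in {t : ℝ | T < |t|}, g t := by
  have hm : MeasurableSet {t : ℝ | T < |t|} := (isOpen_lt continuous_const continuous_abs).measurableSet
  have h1 := integral_add_compl hm hg
  have h2 : ({t : ℝ | T < |t|})ᶜ = Set.Icc (-T) T := by
    ext t
    simp only [Set.mem_compl_iff, Set.mem_ofPred_eq, not_lt, Set.mem_Icc]
    exact abs_le
  rw [h2, integral_Icc_eq_integral_Ioc] at h1
  rw [intervalIntegral.integral_of_le (by linarith), ← h1]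
  ring

end FTriAux

open FTriAux

theorem tri_formula : ∃ C X0 : ℝ, ∀ (X : ℝ) (Q : ℕ) (U y : ℝ), X0 ≤ X → Par X Q U y →
    ∀ (q : ℕ) [NeZero q] (χ : DirichletCharacter ℂ q), q ≤ Q → χ.IsPrimitive →
    ‖(∑' m : ℕ, (ArithmeticFunction.vonMangoldt m : ℂ) * χ m * (tri U y m : ℂ)) -
        (if χ = 1 then 1 else 0) +
        ∑ ρ ∈ Z χ ((Q : ℝ) ^ 30), (mul χ ρ : ℂ) *
          ∫ x in (y - U)..(y + U), (tri U y x : ℂ) * (x : ℂ) ^ (ρ - 1)‖ ≤ C / (Q : ℝ) ^ 4 := by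
  classical
  obtain ⟨X1, hpar⟩ := par_facts
  obtain ⟨C2, X2, hA⟩ := h_part
  obtain ⟨C3, X3, hB⟩ := lf_tail
  obtain ⟨C4, X4, hC⟩ := poles_tail
  refine ⟨C2 + C3 + C4, max (max X1 X2) (max X3 X4), fun X Q U y hX hP q _ χ hq hχ => ?_⟩
  have hX1 : X1 ≤ X := le_trans (le_trans (le_max_left _ _) (le_max_left _ _)) hX
  have hX2 : X2 ≤ X := le_trans (le_trans (le_max_right _ _) (le_max_left _ _)) hX
  have hX3 : X3 ≤ X := le_trans (le_trans (le_max_left _ _) (le_max_right _ _)) hX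
  have hX4 : X4 ≤ X := le_trans (le_trans (le_max_right _ _) (le_max_right _ _)) hX
  have hP' := hpar X Q U y hX1 hP
  have hL2 := hP'.L2
  have hLpos : 0 < Real.log X := by linarith
  set σ : ℝ := 1 + 1 / Real.log X with hσ
  have hσ1 : 1 < σ := by
    rw [hσ]
    have : 0 < 1 / Real.log X := by positivity
    linarith
  have hσ2 : σ ≤ 2 := by
    rw [hσ]
    have : 1 / Real.log X ≤ 1 := by
      rw [div_le_one hLpos]
      linarith
    linarith
  have hσ0 : 0 < σ := by linarith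
  have hQ : (100 : ℝ) ≤ Q := by exact_mod_cast hP'.Q100
  have hQ30 : (2 : ℝ) ≤ (Q : ℝ) ^ 30 := by
    calc (2 : ℝ) ≤ 100 := by norm_num
      _ ≤ Q := hQ
      _ = (Q : ℝ) ^ 1 := (pow_one _).symm
      _ ≤ (Q : ℝ) ^ 30 := pow_le_pow_right₀ (by linarith) (by norm_num)
  set T1 : ℝ := (Q : ℝ) ^ 30 - 2 with hT1
  have hT1n : 0 ≤ T1 := by rw [hT1]; linarith
  -- the main integral
  have hsum := sum_formula χ hP'.Upos hP'.Uy hσ1 hσ2
  set s : ℝ → ℂ := fun t => (σ : ℂ) + t * I with hs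
  have hsre : ∀ t, (s t).re = σ := by
    intro t
    simp [hs]
  have hs1 : ∀ t, 1 < (s t).re := fun t => by rw [hsre]; exact hσ1
  have hLf0 : ∀ t, Lf χ (s t) ≠ 0 := fun t => Lf_ne_zero χ (hs1 t).le
  -- integrability
  have hint := lf_integrable hP' χ
  have hint' : Integrable (fun t : ℝ => FF U y (s t) * (deriv (Lf χ) (s t) / Lf χ (s t))) := hint
  have hpole1 := pole_int (ρ := 1) hP'.Upos hP'.Uy hP'.yU hσ0 hσ2 (by simpa using hσ1)
  have hI1 : ∫ x in (y - U)..(y + U), (tri U y x : ℂ) * (x : ℂ) ^ ((1 : ℂ) - 1) = 1 := by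
    have e : ∀ x : ℝ, (tri U y x : ℂ) * (x : ℂ) ^ ((1 : ℂ) - 1) = ((tri U y x : ℝ) : ℂ) := by
      intro x
      rw [sub_self, Complex.cpow_zero, mul_one]
    simp_rw [e]
    rw [intervalIntegral.integral_ofReal, integral_tri hP'.Upos]
    simp
  -- rewrite the sum formula
  have hmain : 2 * Real.pi * ∑' m : ℕ, (ArithmeticFunction.vonMangoldt m : ℂ) * χ m *
      (tri U y m : ℂ) = 2 * Real.pi * (if χ = 1 then 1 else 0) -
        ∫ t : ℝ, FF U y (s t) * (deriv (Lf χ) (s t) / Lf χ (s t)) := by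
    rw [hsum]
    by_cases h1 : χ = 1
    · rw [if_pos h1]
      have e : ∀ t : ℝ, -(deriv (DirichletCharacter.LFunction χ) (σ + t * I) /
          DirichletCharacter.LFunction χ (σ + t * I)) * FF U y (σ + t * I) =
          FF U y (σ + t * I) / (σ + t * I - 1) -
            FF U y (s t) * (deriv (Lf χ) (s t) / Lf χ (s t)) := by
        intro t
        have := lf_logderiv χ (hs1 t)
        rw [if_pos h1] at this
        rw [this]
        simp only [hs]
        ring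
      simp_rw [e]
      rw [integral_sub hpole1.1 hint', hpole1.2, hI1]
    · rw [if_neg h1, mul_zero, zero_sub, ← integral_neg]
      congr 1
      funext t
      have := lf_logderiv χ (hs1 t)
      rw [if_neg h1, sub_zero] at this
      rw [this]
      simp only [hs]
      ring
  -- splitting the integral
  obtain ⟨h, hh1, hh2, hh3⟩ := exists_factor (Lf_differentiable χ)
    ⟨2, Lf_ne_zero χ (by norm_num)⟩ (Z χ ((Q : ℝ) ^ 30))
  have hsplit := split_int hint' hT1n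
  have hpole : ∀ ρ ∈ Z χ ((Q : ℝ) ^ 30), Integrable (fun t : ℝ => FF U y (s t) / (s t - ρ)) ∧
      ∫ t : ℝ, FF U y (s t) / (s t - ρ) =
        2 * Real.pi * ∫ x in (y - U)..(y + U), (tri U y x : ℂ) * (x : ℂ) ^ (ρ - 1) := by
    intro ρ hρ
    exact pole_int hP'.Upos hP'.Uy hP'.yU hσ0 hσ2 (by
      have := re_lt_one_of_mem_Z hρ
      linarith)
  have hdec : ∀ t : ℝ, FF U y (s t) * (deriv (Lf χ) (s t) / Lf χ (s t)) =
      (∑ ρ ∈ Z χ ((Q : ℝ) ^ 30), (mul χ ρ : ℂ) * (FF U y (s t) / (s t - ρ))) +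
        FF U y (s t) * (deriv h (s t) / h (s t)) := by
    intro t
    have := logderiv_factor hh1 (Z χ ((Q : ℝ) ^ 30)) (fun ρ => analyticOrderNatAt (Lf χ) ρ) hh2
      (hLf0 t)
    rw [this, mul_add, Finset.mul_sum]
    congr 1
    refine Finset.sum_congr rfl fun ρ _ => ?_
    unfold mul
    ring
  have hsumint : Integrable (fun t : ℝ => ∑ ρ ∈ Z χ ((Q : ℝ) ^ 30),
      (mul χ ρ : ℂ) * (FF U y (s t) / (s t - ρ))) :=
    integrable_finsetSum _ fun ρ hρ => (hpole ρ hρ).1.const_mul _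
  have hhint : Integrable (fun t : ℝ => FF U y (s t) * (deriv h (s t) / h (s t))) := by
    have := hint'.sub hsumint
    refine this.congr (Filter.Eventually.of_forall fun t => ?_)
    simp only [Pi.sub_apply]
    rw [hdec t]
    ring
  have hin : ∫ t in (-T1)..T1, FF U y (s t) * (deriv (Lf χ) (s t) / Lf χ (s t)) =
      (∑ ρ ∈ Z χ ((Q : ℝ) ^ 30), (mul χ ρ : ℂ) *
        ((2 * Real.pi * ∫ x in (y - U)..(y + U), (tri U y x : ℂ) * (x : ℂ) ^ (ρ - 1)) -
          ∫ t in {t : ℝ | T1 < |t|}, FF U y (s t) / (s t - ρ))) +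
        ∫ t in (-T1)..T1, FF U y (s t) * (deriv h (s t) / h (s t)) := by
    simp_rw [hdec]
    rw [intervalIntegral.integral_add hsumint.intervalIntegrable hhint.intervalIntegrable]
    congr 1
    rw [intervalIntegral.integral_finsetSum
      (fun ρ hρ => ((hpole ρ hρ).1.const_mul _).intervalIntegrable)]
    refine Finset.sum_congr rfl fun ρ hρ => ?_
    rw [intervalIntegral.integral_const_mul]
    congr 1
    have := split_int (hpole ρ hρ).1 hT1n
    rw [(hpole ρ hρ).2] at this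
    rw [this]
    ring
  -- the identity
  set S0 := ∑' m : ℕ, (ArithmeticFunction.vonMangoldt m : ℂ) * χ m * (tri U y m : ℂ) with hS0
  set R := ∑ ρ ∈ Z χ ((Q : ℝ) ^ 30), (mul χ ρ : ℂ) *
          ∫ x in (y - U)..(y + U), (tri U y x : ℂ) * (x : ℂ) ^ (ρ - 1) with hR
  have hfin : 2 * Real.pi * (S0 - (if χ = 1 then 1 else 0) + R) =
      (∑ ρ ∈ Z χ ((Q : ℝ) ^ 30), (mul χ ρ : ℂ) *
          ∫ t in {t : ℝ | T1 < |t|}, FF U y (s t) / (s t - ρ)) -
        (∫ t in (-T1)..T1, FF U y (s t) * (deriv h (s t) / h (s t))) -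
        ∫ t in {t : ℝ | T1 < |t|}, FF U y (s t) * (deriv (Lf χ) (s t) / Lf χ (s t)) := by
    have e1 : ∑ ρ ∈ Z χ ((Q : ℝ) ^ 30), (mul χ ρ : ℂ) *
        ((2 * Real.pi * ∫ x in (y - U)..(y + U), (tri U y x : ℂ) * (x : ℂ) ^ (ρ - 1)) -
          ∫ t in {t : ℝ | T1 < |t|}, FF U y (s t) / (s t - ρ)) =
        2 * Real.pi * R - ∑ ρ ∈ Z χ ((Q : ℝ) ^ 30), (mul χ ρ : ℂ) *
          ∫ t in {t : ℝ | T1 < |t|}, FF U y (s t) / (s t - ρ) := by
      rw [hR, Finset.mul_sum, ← Finset.sum_sub_distrib]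
      refine Finset.sum_congr rfl fun ρ _ => ?_
      ring
    rw [hsplit, hin, e1] at hmain
    linear_combination hmain
  have b1 := hA X Q U y hX2 hP q χ h hq hχ hh1 hh2 hh3
  have b2 := hB X Q U y hX3 hP q χ
  have b3 := hC X Q U y hX4 hP q χ hq hχ
  have hnorm : ‖(2 * Real.pi : ℂ) * (S0 - (if χ = 1 then 1 else 0) + R)‖ ≤
      C4 / (Q : ℝ) ^ 4 + C2 / (Q : ℝ) ^ 4 + C3 / (Q : ℝ) ^ 4 := by
    rw [hfin]
    refine (norm_sub_le _ _).trans (add_le_add ((norm_sub_le _ _).trans (add_le_add ?_ b1)) b2)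
    refine (norm_sum_le _ _).trans (le_trans (Finset.sum_le_sum fun ρ _ => ?_) b3)
    rw [norm_mul, Complex.norm_natCast]
  have h2pi : (1 : ℝ) ≤ ‖(2 * Real.pi : ℂ)‖ := by
    rw [norm_mul, Complex.norm_real, Real.norm_eq_abs, abs_of_pos Real.pi_pos]
    have := Real.pi_gt_three
    simp only [Complex.norm_ofNat]
    linarith
  rw [norm_mul] at hnorm
  have : ‖S0 - (if χ = 1 then 1 else 0) + R‖ ≤
      ‖(2 * Real.pi : ℂ)‖ * ‖S0 - (if χ = 1 then 1 else 0) + R‖ :=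
    le_mul_of_one_le_left (norm_nonneg _) h2pi
  refine this.trans (hnorm.trans (le_of_eq ?_))
  ring

end Pool.Agent.Lib.GMV
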