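import Pool.Agent.Lib.GMV.FH
import Pool.Agent.Lib.GMV.FKerB
import Pool.Agent.Lib.GMV.FRect
import Pool.Agent.Lib.GMV.FPar

/-!
# The part without zeros

PROOF. `T = Q^30`, `T₁ = T - 2`, `σ₀ = 1 + 1/log X ≤ 3/2`, `P = y/U ≤ 6 Q^5`. `G s = FF U y s * (deriv h s / h s)` is
differentiable for `19/20 ≤ Re s ≤ σ₀`, `|Im s| ≤ T₁` (`H_bound` gives `h s ≠ 0`), and there
`‖h'/h‖ ≤ C T log (q T) ≤ 31 C T log Q`. `rect_shift` with `a = 19/20`, `b = σ₀`.
Horizontal sides: `FF_decay`, `y^(σ+1)/U² = y^(σ-1) P² ≤ 9 * 36 Q^10` (`y ≥ 1`, `σ - 1 ≤ 1/log X`, `y9`), so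
`B = 14 * 324 Q^10/T₁² * 31 C T log Q ≤ C'/Q^5`.
Vertical side at `19/20`: `‖FF‖ ≤ y^(-1/20) min (2, 14 P²/t²) ≤ 28 y^(-1/20) (1 + (t/P)²)⁻¹`, so
`∫ ≤ y^(-1/20) * 28 π P`, `y^(-1/20) ≤ 2/Q^49`; times `31 C Q^30 log Q`: at most `C'/Q^5`.
-/

namespace Pool.Agent.Lib.GMV

open Complex MeasureTheory

namespace FTriAAux

lemma FF_line {U y : ℝ} (hU : 0 < U) (hy : 2 * U ≤ y) (t : ℝ) :
    ‖FF U y (((19 / 20 : ℝ) : ℂ) + t * I)‖ ≤
      28 * y ^ (-(1 / 20) : ℝ) * (1 + (t / (y / U)) ^ 2)⁻¹ := by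
  have hy0 : 0 < y := by linarith
  set P : ℝ := y / U with hP
  have hP0 : 0 < P := by positivity
  set Y : ℝ := y ^ (-(1 / 20) : ℝ) with hY
  have hY0 : 0 < Y := Real.rpow_pos_of_pos hy0 _
  have hre : (((19 / 20 : ℝ) : ℂ) + t * I).re = 19 / 20 := by simp
  have him : (((19 / 20 : ℝ) : ℂ) + t * I).im = t := by simp
  have hsre : 0 < (((19 / 20 : ℝ) : ℂ) + t * I).re := by rw [hre]; norm_num
  have hsre2 : (((19 / 20 : ℝ) : ℂ) + t * I).re ≤ 2 := by rw [hre]; norm_num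
  rcases le_or_gt |t| P with ht | ht
  · have h1 := FF_bound hU hy hsre hsre2
    rw [hre, show (19 / 20 : ℝ) - 1 = -(1 / 20) by norm_num, ← hY] at h1
    refine h1.trans ?_
    have h2 : (t / P) ^ 2 ≤ 1 := by
      rw [sq_le_one_iff_abs_le_one, abs_div, abs_of_pos hP0]
      exact (div_le_one hP0).mpr ht
    have h3 : (1 : ℝ) / 2 ≤ (1 + (t / P) ^ 2)⁻¹ := by
      rw [← one_div]
      apply one_div_le_one_div_of_le (by positivity)
      linarith
    calc 2 * Y ≤ 28 * Y * (1 / 2) := by linarith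
      _ ≤ _ := mul_le_mul_of_nonneg_left h3 (by positivity)
  · have ht0 : t ≠ 0 := by
      rintro rfl
      rw [abs_zero] at ht
      linarith
    have h1 := FF_decay hU hy hsre hsre2 (by rw [him]; exact ht0)
    rw [hre, him] at h1
    refine h1.trans ?_
    have hyy : y ^ ((19 : ℝ) / 20 + 1) = Y * y ^ 2 := by
      rw [hY, ← Real.rpow_natCast y 2, ← Real.rpow_add hy0]
      norm_num
    rw [hyy]
    have h2 : 1 ≤ (t / P) ^ 2 := by
      rw [one_le_sq_iff_one_le_abs, abs_div, abs_of_pos hP0]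
      exact (one_le_div hP0).mpr ht.le
    have h3 : (1 + (t / P) ^ 2)⁻¹ ≥ (2 * (t / P) ^ 2)⁻¹ := by
      apply inv_anti₀ (by positivity)
      linarith
    have h4 : 14 * (Y * y ^ 2) / (U ^ 2 * t ^ 2) = 28 * Y * (2 * (t / P) ^ 2)⁻¹ := by
      rw [hP]
      field_simp
      ring
    rw [h4]
    exact mul_le_mul_of_nonneg_left h3 (by positivity)

lemma FF_side {U y L : ℝ} (hU : 0 < U) (hy : 2 * U ≤ y) (hy1 : 1 ≤ y) (hL : 2 ≤ L)
    (hy9 : y ^ (1 / L) ≤ 9) {s : ℂ} (h1 : 19 / 20 ≤ s.re) (h2 : s.re ≤ 1 + 1 / L)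
    (h0 : s.im ≠ 0) : ‖FF U y s‖ ≤ 126 * (y / U) ^ 2 / s.im ^ 2 := by
  have hy0 : 0 < y := by linarith
  have hL1 : 1 / L ≤ 1 / 2 := one_div_le_one_div_of_le (by norm_num) hL
  refine (FF_decay hU hy (by linarith) (by linarith) h0).trans ?_
  have h3 : y ^ (s.re + 1) ≤ 9 * y ^ 2 := by
    calc y ^ (s.re + 1) ≤ y ^ (1 / L + (2 : ℕ)) := by
          apply Real.rpow_le_rpow_of_exponent_le hy1
          push_cast
          linarith
      _ = y ^ (1 / L) * y ^ 2 := by rw [Real.rpow_add hy0, Real.rpow_natCast]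
      _ ≤ 9 * y ^ 2 := mul_le_mul_of_nonneg_right hy9 (by positivity)
  have h4 : (126 : ℝ) * (y / U) ^ 2 / s.im ^ 2 = 14 * (9 * y ^ 2) / (U ^ 2 * s.im ^ 2) := by
    field_simp
    ring
  rw [h4]
  have : 0 < U ^ 2 * s.im ^ 2 := by positivity
  gcongr

lemma int_line {P T : ℝ} (hP : 0 < P) (hT : 0 ≤ T) :
    ∫ t in (-T)..T, (1 + (t / P) ^ 2)⁻¹ ≤ 4 * P := by
  have h1 := intervalIntegral.integral_comp_div (a := -T) (b := T)
    (fun x : ℝ => (1 + x ^ 2)⁻¹) hP.ne'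
  rw [h1, integral_inv_one_add_sq, smul_eq_mul]
  have h2 := Real.arctan_lt_pi_div_two (T / P)
  have h3 := Real.neg_pi_div_two_lt_arctan (-T / P)
  have h4 := Real.pi_lt_four
  nlinarith

end FTriAAux

open FTriAAux in
theorem h_part : ∃ C X0 : ℝ, ∀ (X : ℝ) (Q : ℕ) (U y : ℝ), X0 ≤ X → Par X Q U y →
    ∀ (q : ℕ) [NeZero q] (χ : DirichletCharacter ℂ q) (h : ℂ → ℂ), q ≤ Q → χ.IsPrimitive →
    Differentiable ℂ h →
    (∀ z, Lf χ z = (∏ ρ ∈ Z χ ((Q : ℝ) ^ 30), (z - ρ) ^ mul χ ρ) * h z) →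
    (∀ z, h z = 0 ↔ Lf χ z = 0 ∧ z ∉ Z χ ((Q : ℝ) ^ 30)) →
    ‖∫ t in (-((Q : ℝ) ^ 30 - 2))..((Q : ℝ) ^ 30 - 2),
      FF U y (((1 + 1 / Real.log X : ℝ) : ℂ) + t * I) *
        (deriv h (((1 + 1 / Real.log X : ℝ) : ℂ) + t * I) /
          h (((1 + 1 / Real.log X : ℝ) : ℂ) + t * I))‖ ≤ C / (Q : ℝ) ^ 4 := by
  obtain ⟨C, hC1, hH⟩ := H_bound
  obtain ⟨X0, hpar⟩ := par_facts
  refine ⟨1166592 * C, X0, ?_⟩
  intro X Q U y hX hp q _ χ h hqQ hprim hh hfac hz
  obtain ⟨Q100, Upos, Uy, yU, hP, L2, y9, -, y20⟩ := hpar X Q U y hX hp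
  have hQ100 : (100 : ℝ) ≤ Q := by exact_mod_cast Q100
  have hQ0 : (0 : ℝ) < Q := by linarith
  have hQ1 : (1 : ℝ) ≤ Q := by linarith
  have hy0 : 0 < y := by linarith
  have hy1 : 1 ≤ y := by linarith
  set L : ℝ := Real.log X with hL
  have hL1 : 1 / L ≤ 1 / 2 := one_div_le_one_div_of_le (by norm_num) L2
  have hL0 : 0 < 1 / L := by positivity
  set T : ℝ := (Q : ℝ) ^ 30 with hT
  have hTbig : 100 ≤ T := by
    calc (100 : ℝ) ≤ Q := hQ100
      _ ≤ (Q : ℝ) ^ 30 := le_self_pow₀ hQ1 (by norm_num)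
  have hlogQ0 : 0 ≤ Real.log Q := Real.log_nonneg hQ1
  have hlogQ : Real.log Q ≤ Q := (Real.log_le_sub_one_of_pos hQ0).trans (by linarith)
  have hq1 : (1 : ℝ) ≤ q := by exact_mod_cast Nat.one_le_iff_ne_zero.mpr (NeZero.ne q)
  have hqQ' : (q : ℝ) ≤ Q := by exact_mod_cast hqQ
  have hlogqT : Real.log (q * T) ≤ 31 * Real.log Q := by
    calc Real.log (q * T) ≤ Real.log ((Q : ℝ) ^ 31) := by
          apply Real.log_le_log (by positivity)
          rw [hT, pow_succ' (Q : ℝ) 30]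
          exact mul_le_mul_of_nonneg_right hqQ' (by positivity)
      _ = 31 * Real.log Q := by rw [Real.log_pow]; norm_num
  set D : ℝ := C * T * (31 * Real.log Q) with hD
  have hD0 : 0 ≤ D := by positivity
  have hDQ : D ≤ 31 * C * (Q : ℝ) ^ 31 := by
    rw [hD, hT]
    calc C * (Q : ℝ) ^ 30 * (31 * Real.log Q) = 31 * C * (Q : ℝ) ^ 30 * Real.log Q := by ring
      _ ≤ 31 * C * (Q : ℝ) ^ 30 * Q := mul_le_mul_of_nonneg_left hlogQ (by positivity)
      _ = _ := by ring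
  have hHs : ∀ s : ℂ, 19 / 20 ≤ s.re → s.re ≤ 1 + 1 / L → |s.im| ≤ T - 2 →
      h s ≠ 0 ∧ ‖deriv h s / h s‖ ≤ D := by
    intro s h1 h2 h3
    have h4 := hH q χ T h hprim (by linarith) hh hfac hz s h1 (by linarith) h3
    refine ⟨h4.1, h4.2.trans ?_⟩
    exact mul_le_mul_of_nonneg_left hlogqT (by positivity)
  set G : ℂ → ℂ := fun s => FF U y s * (deriv h s / h s) with hG
  have hPpos : 0 < y / U := by positivity
  have hT1 : 0 < T - 2 := by linarith
  set B : ℝ := 126 * (y / U) ^ 2 / (T - 2) ^ 2 * D with hB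
  have hB0 : 0 ≤ B := by positivity
  have hrect := rect_shift (G := G) (a := 19 / 20) (b := 1 + 1 / L) (T := T - 2) (B := B)
    (by linarith) hT1.le
    (by
      intro s h1 h2 h3
      have h4 := (hHs s h1 h2 h3).1
      have h5 := FF_differentiableAt Upos Uy (s := s) (by linarith)
      have h6 : DifferentiableAt ℂ (deriv h) s :=
        (hh.differentiableOn.deriv isOpen_univ).differentiableAt Filter.univ_mem
      exact h5.mul (h6.div hh.differentiableAt h4))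
    (by
      intro s h1 h2 h3
      have h4 := (hHs s h1 h2 h3.le).2
      have him : s.im ≠ 0 := by
        intro h0
        rw [h0, abs_zero] at h3
        linarith
      have h5 := FF_side Upos Uy hy1 L2 y9 h1 h2 him
      rw [← sq_abs s.im, h3] at h5
      rw [hG, hB, norm_mul]
      exact mul_le_mul h5 h4 (norm_nonneg _) (by positivity))
  have hvert : ‖∫ t in (-(T - 2))..(T - 2), G (((19 / 20 : ℝ) : ℂ) + t * I)‖ ≤
      28 * y ^ (-(1 / 20) : ℝ) * D * (4 * (y / U)) := by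
    have hY0 : 0 < y ^ (-(1 / 20) : ℝ) := Real.rpow_pos_of_pos hy0 _
    have hcont : Continuous fun t : ℝ => (1 + (t / (y / U)) ^ 2)⁻¹ := by
      apply Continuous.inv₀ (by fun_prop)
      intro t
      positivity
    have h1 := intervalIntegral.norm_integral_le_of_norm_le (a := -(T - 2)) (b := T - 2)
      (μ := volume)
      (f := fun t : ℝ => G (((19 / 20 : ℝ) : ℂ) + t * I))
      (g := fun t : ℝ => 28 * y ^ (-(1 / 20) : ℝ) * D * (1 + (t / (y / U)) ^ 2)⁻¹)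
      (by linarith)
      (by
        refine Filter.Eventually.of_forall fun t ht => ?_
        have hre : (((19 / 20 : ℝ) : ℂ) + t * I).re = 19 / 20 := by simp
        have him : (((19 / 20 : ℝ) : ℂ) + t * I).im = t := by simp
        have h2 := (hHs (((19 / 20 : ℝ) : ℂ) + t * I) (by rw [hre]) (by rw [hre]; linarith)
          (by rw [him]; exact abs_le.mpr ⟨ht.1.le, ht.2⟩)).2
        have h3 := FF_line Upos Uy t
        simp only [hG]
        rw [norm_mul]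
        calc _ ≤ 28 * y ^ (-(1 / 20) : ℝ) * (1 + (t / (y / U)) ^ 2)⁻¹ * D :=
              mul_le_mul h3 h2 (norm_nonneg _) (by positivity)
          _ = _ := by ring)
      ((continuous_const.mul hcont).intervalIntegrable _ _)
    refine h1.trans ?_
    rw [intervalIntegral.integral_const_mul]
    exact mul_le_mul_of_nonneg_left (int_line hPpos hT1.le) (by positivity)
  have hmain : ‖∫ t in (-(T - 2))..(T - 2), G (((1 + 1 / L : ℝ) : ℂ) + t * I)‖ ≤
      28 * y ^ (-(1 / 20) : ℝ) * D * (4 * (y / U)) + 2 * B := by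
    refine hrect.trans ?_
    have h1 : (1 + 1 / L - 19 / 20) * B ≤ 1 * B :=
      mul_le_mul_of_nonneg_right (by linarith) hB0
    linarith
  refine (show ‖_‖ ≤ _ from hmain).trans ?_
  have e1 : 28 * y ^ (-(1 / 20) : ℝ) * D * (4 * (y / U)) ≤ 41664 * C / (Q : ℝ) ^ 4 := by
    calc 28 * y ^ (-(1 / 20) : ℝ) * D * (4 * (y / U))
        ≤ 28 * (2 / (Q : ℝ) ^ 49) * (31 * C * (Q : ℝ) ^ 31) * (4 * (6 * (Q : ℝ) ^ 5)) := by
          gcongr
      _ = 41664 * C * ((Q : ℝ) ^ 36 / (Q : ℝ) ^ 49) := by ring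
      _ ≤ 41664 * C * (1 / (Q : ℝ) ^ 4) := by
          apply mul_le_mul_of_nonneg_left _ (by positivity)
          rw [div_le_div_iff₀ (by positivity) (by positivity), one_mul, ← pow_add]
          exact pow_le_pow_right₀ hQ1 (by norm_num)
      _ = _ := by ring
  have e2 : 2 * B ≤ 1124928 * C / (Q : ℝ) ^ 4 := by
    have hT2 : (Q : ℝ) ^ 30 / 2 ≤ T - 2 := by
      rw [← hT]
      linarith
    calc 2 * B ≤ 2 * (126 * (6 * (Q : ℝ) ^ 5) ^ 2 / ((Q : ℝ) ^ 30 / 2) ^ 2 *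
          (31 * C * (Q : ℝ) ^ 31)) := by
          rw [hB]
          gcongr
      _ = 1124928 * C * ((Q : ℝ) ^ 41 / (Q : ℝ) ^ 60) := by
          field_simp
          ring
      _ ≤ 1124928 * C * (1 / (Q : ℝ) ^ 4) := by
          apply mul_le_mul_of_nonneg_left _ (by positivity)
          rw [div_le_div_iff₀ (by positivity) (by positivity), one_mul, ← pow_add]
          exact pow_le_pow_right₀ hQ1 (by norm_num)
      _ = _ := by ring
  calc _ ≤ 41664 * C / (Q : ℝ) ^ 4 + 1124928 * C / (Q : ℝ) ^ 4 := add_le_add e1 e2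
    _ = _ := by ring

end Pool.Agent.Lib.GMV
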