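import Pool.Agent.Lib.GMV.Model
import Pool.Agent.Lib.HLT.MinorPrime

/-!
# GMV.Minor: the weighted primes away from the Farey fractions (paper 2.2, second half)

PROOF. Dirichlet's theorem (`Real.exists_rat_abs_sub_le_and_den_le` or
`Real.exists_int_int_abs_mul_sub_le`) with `H = X / Q^3`: a reduced fraction `a/q`, `1 ≤ q ≤ H`,
`|t - a/q| ≤ 1/((H+1) q) ≤ Q^3/(q X) ≤ Q^4/X` (as `X/Q^3 < H + 1`), so `q > Q` by hypothesis.
`HLT.minor_prime` with `x = 4 X` (note `1/((H+1) q) ≤ 1/q^2`) bounds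
`∑_{n ≤ y} Λ(n) ex(n t)`, all `y ≤ 4X`, by
`C (4X/√q + (4X)^(9/10) + √(4X q)) log^k (4X) ≤ C' X (Q^(-1/2) + X^(-1/10) + Q^(-3/2)) log^k (4X)`.
Prime powers: `∑_{n ≤ y} (Λ(n) - lp n) ≤ C √(4X) log(4X)` or any `≤ X^(9/10)`
(Mathlib: `Chebyshev.psi`, `Chebyshev.theta` and the bound of `psi - theta`; or count: `p^j ≤ 4X`, `j ≥ 2`).
The weight `vw X Q` is piecewise linear (as a function of `x`): nondecreasing up to `2X`, nonincreasing after, values
in `[0,1]`; Abel summation costs a factor `3` (`vw = max 0 (min 1 (min (increasing) (decreasing)))`; if it is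
easier use that it is the difference of two nondecreasing functions with values in `[0,1]`:
`clamp01 (x Q/X - 1) - clamp01 (x Q/X - 2 Q)`).
Finally `log^k(4X) ≤ Q^(1/20)`-type bounds: `Rg` gives `log X ≤ 4 (log Q)^2` and `Q → ∞` as `X → ∞`;
`X^(-1/10) ≤ Q^(-2)` because `Q ≤ X^(1/20)`.
-/

set_option autoImplicit false

open Finset Filter

namespace Pool.Agent.Lib.GMV

open Pool.Agent.HLB Pool.Agent.HLT Pool.Agent.HLR

namespace MinorAux

/-- partial summation with a nondecreasing weight in `[0,1]` -/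
lemma abel_mono (c : ℕ → ℝ) (a : ℕ → ℂ) (B : ℝ) (N : ℕ) (hc : Monotone c) (h0 : ∀ n, 0 ≤ c n)
    (h1 : ∀ n, c n ≤ 1) (hB : ∀ m, m ≤ N → ‖∑ n ∈ range m, a n‖ ≤ B) :
    ‖∑ n ∈ range N, (c n : ℂ) * a n‖ ≤ 2 * B := by
  have hB0 : 0 ≤ B := (norm_nonneg _).trans (hB 0 (Nat.zero_le _))
  rcases Nat.eq_zero_or_pos N with rfl | hN
  · simp
    exact hB0
  have h2 := Finset.sum_range_by_parts (fun n => (c n : ℂ)) a N
  simp only [smul_eq_mul] at h2
  rw [h2]
  refine (norm_sub_le _ _).trans ?_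
  have h3 : ‖(c (N - 1) : ℂ) * ∑ n ∈ range N, a n‖ ≤ c (N - 1) * B := by
    rw [norm_mul, Complex.norm_real, Real.norm_eq_abs, abs_of_nonneg (h0 _)]
    exact mul_le_mul_of_nonneg_left (hB N le_rfl) (h0 _)
  have h4 : ‖∑ i ∈ range (N - 1), ((c (i + 1) : ℂ) - c i) * ∑ n ∈ range (i + 1), a n‖ ≤
      (c (N - 1) - c 0) * B := by
    refine (norm_sum_le _ _).trans ?_
    rw [← Finset.sum_range_sub c (N - 1), Finset.sum_mul]
    refine Finset.sum_le_sum fun i hi => ?_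
    rw [mem_range] at hi
    rw [norm_mul, ← Complex.ofReal_sub, Complex.norm_real, Real.norm_eq_abs,
      abs_of_nonneg (sub_nonneg.mpr (hc (Nat.le_succ i)))]
    exact mul_le_mul_of_nonneg_left (hB (i + 1) (by omega))
      (sub_nonneg.mpr (hc (Nat.le_succ i)))
  have h5 : c (N - 1) * B ≤ 1 * B := mul_le_mul_of_nonneg_right (h1 _) hB0
  have h6 : (c (N - 1) - c 0) * B ≤ 1 * B :=
    mul_le_mul_of_nonneg_right (by linarith [h1 (N - 1), h0 0]) hB0
  linarith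

/-- truncation to `[0,1]` -/
noncomputable def cl (x : ℝ) : ℝ := max 0 (min 1 x)

lemma cl_mono : Monotone cl := fun _ _ h => max_le_max le_rfl (min_le_min le_rfl h)

lemma cl_nonneg (x : ℝ) : 0 ≤ cl x := le_max_left _ _

lemma cl_le_one (x : ℝ) : cl x ≤ 1 := max_le zero_le_one (min_le_left _ _)

lemma vw_eq {X Q : ℕ} (hQ : 1 ≤ Q) (x : ℝ) :
    vw X Q x = cl (x * Q / X - 1) - cl (x * Q / X - 2 * Q) := by
  have hQr : (1 : ℝ) ≤ Q := by exact_mod_cast hQ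
  unfold vw cl
  set u : ℝ := x * Q / X
  rcases le_total u (2 * Q) with h | h
  · have h1 : max 0 (min 1 (u - 2 * Q)) = 0 :=
      max_eq_left ((min_le_right _ _).trans (by linarith))
    have h2 : min 1 (min (u - 1) (2 * Q + 1 - u)) = min 1 (u - 1) := by
      rw [min_comm (u - 1), ← min_assoc, min_eq_left (show (1 : ℝ) ≤ 2 * Q + 1 - u by linarith)]
    rw [h1, h2, sub_zero]
  · have h1 : max 0 (min 1 (u - 1)) = 1 := by
      rw [min_eq_left (show (1 : ℝ) ≤ u - 1 by linarith)]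
      exact max_eq_right zero_le_one
    have h2 : min 1 (min (u - 1) (2 * Q + 1 - u)) = 2 * Q + 1 - u := by
      rw [← min_assoc, min_eq_left (show (1 : ℝ) ≤ u - 1 by linarith),
        min_eq_right (show 2 * (Q : ℝ) + 1 - u ≤ 1 by linarith)]
    have h3 : max 0 (min 1 (u - 2 * Q)) = min 1 (u - 2 * Q) :=
      max_eq_right (le_min zero_le_one (by linarith))
    rw [h1, h2, h3]
    rcases le_total 1 (u - 2 * Q) with h4 | h4
    · rw [min_eq_left h4, max_eq_left (by linarith)]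
      ring
    · rw [min_eq_right h4, max_eq_right (by linarith)]
      ring

lemma abel_W {X Q : ℕ} (hQ : 1 ≤ Q) (t B : ℝ) (N : ℕ)
    (hB : ∀ y, y < N → ‖esum HLT.lp y t‖ ≤ B) (hB0 : 0 ≤ B) :
    ‖ft N (fun m => (W X Q m : ℂ)) t‖ ≤ 4 * B := by
  set a : ℕ → ℂ := fun n => (HLT.lp n : ℂ) * ex (n * t) with ha
  have hA : ∀ m, m ≤ N → ‖∑ n ∈ range m, a n‖ ≤ B := by
    intro m hm
    rcases Nat.eq_zero_or_pos m with rfl | h
    · simpa using hB0
    · obtain ⟨y, rfl⟩ : ∃ y, m = y + 1 := ⟨m - 1, by omega⟩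
      have h1 : ∑ n ∈ range (y + 1), a n = esum HLT.lp y t := by
        have h0 : a 0 = 0 := by
          simp [ha, HLT.lp]
        have h2 : range (y + 1) = insert 0 (Icc 1 y) := by
          ext i
          rw [mem_range, mem_insert, mem_Icc]
          omega
        rw [h2, Finset.sum_insert (by rw [mem_Icc]; omega), h0, zero_add]
        rfl
      rw [h1]
      exact hB y (by omega)
  have h1 : Monotone fun n : ℕ => cl ((n : ℝ) * Q / X - 1) := by
    intro m n hmn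
    refine cl_mono ?_
    have : (m : ℝ) ≤ n := by exact_mod_cast hmn
    have h2 : (m : ℝ) * Q / X ≤ n * Q / X := by gcongr
    linarith
  have h2 : Monotone fun n : ℕ => cl ((n : ℝ) * Q / X - 2 * Q) := by
    intro m n hmn
    refine cl_mono ?_
    have : (m : ℝ) ≤ n := by exact_mod_cast hmn
    have h2 : (m : ℝ) * Q / X ≤ n * Q / X := by gcongr
    linarith
  have e1 := abel_mono _ a B N h1 (fun _ => cl_nonneg _) (fun _ => cl_le_one _) hA
  have e2 := abel_mono _ a B N h2 (fun _ => cl_nonneg _) (fun _ => cl_le_one _) hA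
  have e3 : ft N (fun m => (W X Q m : ℂ)) t =
      ∑ n ∈ range N, (cl ((n : ℝ) * Q / X - 1) : ℂ) * a n -
        ∑ n ∈ range N, (cl ((n : ℝ) * Q / X - 2 * Q) : ℂ) * a n := by
    unfold ft
    rw [← Finset.sum_sub_distrib]
    refine Finset.sum_congr rfl fun n _ => ?_
    show ((vw X Q n * HLT.lp n : ℝ) : ℂ) * ex (n * t) = _
    rw [vw_eq hQ]
    simp only [ha]
    push_cast
    ring
  rw [e3]
  refine (norm_sub_le _ _).trans ?_
  linarith

end MinorAux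

open MinorAux

theorem minorW : ∃ X0 : ℕ, ∀ X Q : ℕ, X0 ≤ X → Rg (1 / 20) X Q → ∀ t : ℝ,
    (∀ (q : ℕ) (a : ℤ), 1 ≤ q → q ≤ Q → IsCoprime a (q : ℤ) → (Q : ℝ) ^ 4 / X < |t - a / q|) →
    ‖ft (4 * X) (fun m => (W X Q m : ℂ)) t‖ ≤ X * (Q : ℝ) ^ (-(2 / 5 : ℝ)) := by
  obtain ⟨C, k, hC, hm⟩ := HLT.minor_lp
  -- size of Q
  have hlog : ∀ᶠ x : ℝ in atTop, 40 * C * 8 ^ k * (Real.log x) ^ (2 * k) ≤ x ^ (1 / 10 : ℝ) := by
    have h1 := isLittleO_log_rpow_rpow_atTop ((2 * k : ℕ) : ℝ) (show (0 : ℝ) < 1 / 10 by norm_num)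
    have h2 : (0 : ℝ) < 1 / (40 * C * 8 ^ k) := by positivity
    filter_upwards [h1.bound h2, eventually_ge_atTop 1] with x hx hx1
    have hl : 0 ≤ Real.log x := Real.log_nonneg hx1
    rw [Real.norm_of_nonneg (Real.rpow_nonneg hl _),
      Real.norm_of_nonneg (Real.rpow_nonneg (by linarith) _), Real.rpow_natCast,
      one_div, inv_mul_eq_div, le_div_iff₀ (by positivity)] at hx
    rw [mul_comm]
    exact hx
  obtain ⟨Q0, hQ0⟩ := eventually_atTop.mp hlog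
  have ht : Tendsto (fun X : ℕ => Real.exp (Real.sqrt (Real.log X) / 2)) atTop atTop :=
    Real.tendsto_exp_atTop.comp (((Real.tendsto_sqrt_atTop.comp
      (Real.tendsto_log_atTop.comp tendsto_natCast_atTop_atTop))).atTop_div_const (by norm_num))
  obtain ⟨X1, hX1⟩ := eventually_atTop.mp (ht.eventually_ge_atTop (max Q0 1))
  refine ⟨max X1 4, fun X Q hX hR t hfar => ?_⟩
  have hXX1 : X1 ≤ X := (le_max_left _ _).trans hX
  have hX4 : 4 ≤ X := (le_max_right _ _).trans hX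
  have hX4r : (4 : ℝ) ≤ X := by exact_mod_cast hX4
  have hX0 : (0 : ℝ) < X := by linarith
  obtain ⟨hR1, hR2⟩ := hR
  have hQm : max Q0 1 ≤ (Q : ℝ) := (hX1 X hXX1).trans hR1
  have hQQ0 : Q0 ≤ (Q : ℝ) := (le_max_left _ _).trans hQm
  have hQ1r : (1 : ℝ) ≤ Q := (le_max_right _ _).trans hQm
  have hQ1 : 1 ≤ Q := by exact_mod_cast hQ1r
  have hQ0r : (0 : ℝ) < Q := by linarith
  -- Q ^ 20 ≤ X
  have hQ20 : (Q : ℝ) ^ 20 ≤ X := by
    calc (Q : ℝ) ^ 20 ≤ ((X : ℝ) ^ (1 / 20 : ℝ)) ^ 20 := by gcongr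
      _ = (X : ℝ) := by
        rw [← Real.rpow_natCast, ← Real.rpow_mul hX0.le]
        norm_num
  have hQ3X : (Q : ℝ) ^ 3 ≤ X := (pow_le_pow_right₀ hQ1r (by norm_num)).trans hQ20
  have hQ3n : Q ^ 3 ≤ X := by exact_mod_cast hQ3X
  set H : ℕ := X / Q ^ 3 with hH
  have hHpos : 0 < H := Nat.div_pos hQ3n (by positivity)
  obtain ⟨f, hf1, hf2⟩ := Real.exists_rat_abs_sub_le_and_den_le t hHpos
  set r : ℕ := f.den with hr
  have hr1 : 1 ≤ r := f.den_pos
  have hr1r : (1 : ℝ) ≤ r := by exact_mod_cast hr1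
  have hr0 : (0 : ℝ) < r := by linarith
  have hfr : ((f : ℝ)) = (f.num : ℝ) / r := by
    rw [hr]
    exact_mod_cast (Rat.num_div_den f).symm
  have hcop : IsCoprime f.num (r : ℤ) := by
    rw [Int.isCoprime_iff_gcd_eq_one]
    exact f.reduced
  rw [hfr] at hf1
  have hHX : (X : ℝ) < ((H : ℝ) + 1) * (Q : ℝ) ^ 3 := by
    have : X < (H + 1) * Q ^ 3 := by
      rw [hH]
      have := Nat.lt_div_mul_add (a := X) (b := Q ^ 3) (by positivity)
      calc X < X / Q ^ 3 * Q ^ 3 + Q ^ 3 := this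
        _ = _ := by ring
    exact_mod_cast this
  have hH1 : (0 : ℝ) < (H : ℝ) + 1 := by positivity
  have hQr : Q < r := by
    by_contra hcon
    have h1 := hfar r f.num hr1 (not_lt.mp hcon) hcop
    have h2 : 1 / (((H : ℝ) + 1) * r) ≤ (Q : ℝ) ^ 4 / X := by
      rw [div_le_div_iff₀ (by positivity) hX0, one_mul]
      calc (X : ℝ) ≤ ((H : ℝ) + 1) * (Q : ℝ) ^ 3 := hHX.le
        _ = (Q : ℝ) ^ 3 * (((H : ℝ) + 1) * 1) := by ring
        _ ≤ (Q : ℝ) ^ 4 * (((H : ℝ) + 1) * r) := by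
          gcongr
          norm_num
    linarith
  have hQrr : (Q : ℝ) ≤ r := by exact_mod_cast hQr.le
  have hrH : (r : ℝ) ≤ H := by exact_mod_cast hf2
  have hHle : (H : ℝ) * (Q : ℝ) ^ 3 ≤ X := by
    have : H * Q ^ 3 ≤ X := Nat.div_mul_le_self _ _
    exact_mod_cast this
  have hrX : r ≤ 4 * X := by
    have h1 : H ≤ X := Nat.div_le_self _ _
    omega
  have happ : |t - f.num / r| ≤ 1 / (r : ℝ) ^ 2 := by
    refine hf1.trans ?_
    rw [sq]
    gcongr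
    linarith
  -- the bound of the exponential sums over primes
  set L : ℝ := Real.log ((4 * X : ℕ) : ℝ) with hL
  have hL0 : 0 ≤ L := Real.log_nonneg (by push_cast; linarith)
  set B : ℝ := C * (((4 * X : ℕ) : ℝ) / Real.sqrt r + ((4 * X : ℕ) : ℝ) ^ (9 / 10 : ℝ) +
    Real.sqrt (((4 * X : ℕ) : ℝ) * r)) * L ^ k with hBdef
  have hB : ∀ y, y < 4 * X → ‖esum HLT.lp y t‖ ≤ B := fun y hy =>
    hm (4 * X) y r f.num t (by omega) hy.le hr1 hrX hcop happ
  have hB0 : 0 ≤ B := by positivity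
  refine (abel_W hQ1 t B (4 * X) hB hB0).trans ?_
  -- numbers
  set s : ℝ := (Q : ℝ) ^ (-(1 / 2 : ℝ)) with hs
  have hs0 : 0 < s := Real.rpow_pos_of_pos hQ0r _
  have hsq : s = 1 / Real.sqrt Q := by
    rw [hs, Real.rpow_neg hQ0r.le, Real.sqrt_eq_rpow, one_div ((Q : ℝ) ^ (1 / 2 : ℝ))]
  have b1 : ((4 * X : ℕ) : ℝ) / Real.sqrt r ≤ 4 * X * s := by
    rw [hsq, mul_one_div]
    push_cast
    have : 0 < Real.sqrt Q := Real.sqrt_pos.mpr hQ0r
    gcongr
  have b2 : ((4 * X : ℕ) : ℝ) ^ (9 / 10 : ℝ) ≤ 4 * X * s := by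
    push_cast
    rw [Real.mul_rpow (by norm_num) hX0.le]
    have h1 : (4 : ℝ) ^ (9 / 10 : ℝ) ≤ 4 := by
      calc (4 : ℝ) ^ (9 / 10 : ℝ) ≤ (4 : ℝ) ^ (1 : ℝ) :=
            Real.rpow_le_rpow_of_exponent_le (by norm_num) (by norm_num)
        _ = 4 := Real.rpow_one 4
    have h2 : (X : ℝ) ^ (9 / 10 : ℝ) ≤ X * s := by
      have h3 : (X : ℝ) ^ (9 / 10 : ℝ) = X * (X : ℝ) ^ (-(1 / 10 : ℝ)) := by
        rw [← Real.rpow_one_add' hX0.le (by norm_num)]
        norm_num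
      rw [h3]
      refine mul_le_mul_of_nonneg_left ?_ hX0.le
      rw [hs, Real.rpow_neg hX0.le, Real.rpow_neg hQ0r.le]
      refine inv_anti₀ (Real.rpow_pos_of_pos hQ0r _) ?_
      calc (Q : ℝ) ^ (1 / 2 : ℝ) ≤ (Q : ℝ) ^ (2 : ℝ) :=
            Real.rpow_le_rpow_of_exponent_le hQ1r (by norm_num)
        _ = ((Q : ℝ) ^ 20) ^ (1 / 10 : ℝ) := by
          rw [← Real.rpow_natCast, ← Real.rpow_mul hQ0r.le]
          norm_num
        _ ≤ (X : ℝ) ^ (1 / 10 : ℝ) := by gcongr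
    have h4 : 0 ≤ (X : ℝ) ^ (9 / 10 : ℝ) := by positivity
    calc (4 : ℝ) ^ (9 / 10 : ℝ) * (X : ℝ) ^ (9 / 10 : ℝ) ≤ 4 * (X * s) := by gcongr
      _ = _ := by ring
  have b3 : Real.sqrt (((4 * X : ℕ) : ℝ) * r) ≤ 2 * X * s := by
    have h1 : ((4 * X : ℕ) : ℝ) * r ≤ (2 * X * s) ^ 2 := by
      have h2 : s ^ 2 = 1 / Q := by
        rw [hsq, div_pow, one_pow, Real.sq_sqrt hQ0r.le]
      rw [mul_pow, h2]
      push_cast
      have h3 : (r : ℝ) ≤ X / Q := by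
        rw [le_div_iff₀ hQ0r]
        calc (r : ℝ) * Q ≤ H * (Q : ℝ) ^ 3 := by
              gcongr
              calc (Q : ℝ) = (Q : ℝ) ^ 1 := (pow_one _).symm
                _ ≤ (Q : ℝ) ^ 3 := pow_le_pow_right₀ hQ1r (by norm_num)
          _ ≤ X := hHle
      calc (4 : ℝ) * X * r ≤ 4 * X * (X / Q) := by gcongr
        _ = _ := by ring
    calc Real.sqrt (((4 * X : ℕ) : ℝ) * r) ≤ Real.sqrt ((2 * X * s) ^ 2) := Real.sqrt_le_sqrt h1
      _ = 2 * X * s := Real.sqrt_sq (by positivity)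
  have hLQ : L ≤ 8 * (Real.log Q) ^ 2 := by
    have h1 : Real.sqrt (Real.log X) / 2 ≤ Real.log Q := by
      rw [Real.le_log_iff_exp_le hQ0r]
      exact hR1
    have h2 : Real.sqrt (Real.log X) ≤ 2 * Real.log Q := by linarith
    have h3 : 0 ≤ Real.log X := Real.log_nonneg (by linarith)
    have h4 : Real.log X ≤ 4 * (Real.log Q) ^ 2 := by
      calc Real.log X = (Real.sqrt (Real.log X)) ^ 2 := (Real.sq_sqrt h3).symm
        _ ≤ (2 * Real.log Q) ^ 2 := by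
          have := Real.sqrt_nonneg (Real.log X)
          gcongr
        _ = _ := by ring
    have h5 : L ≤ 2 * Real.log X := by
      rw [hL]
      push_cast
      rw [Real.log_mul (by norm_num) hX0.ne']
      have : Real.log 4 ≤ Real.log X := Real.log_le_log (by norm_num) hX4r
      linarith
    linarith
  have hlk : L ^ k ≤ 8 ^ k * (Real.log Q) ^ (2 * k) := by
    calc L ^ k ≤ (8 * (Real.log Q) ^ 2) ^ k := by gcongr
      _ = _ := by rw [mul_pow, ← pow_mul]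
  have hfin := hQ0 Q hQQ0
  have hBle : B ≤ C * (10 * X * s) * L ^ k := by
    rw [hBdef]
    gcongr
    linarith
  have hs2 : (Q : ℝ) ^ (1 / 10 : ℝ) * s = (Q : ℝ) ^ (-(2 / 5 : ℝ)) := by
    rw [hs, ← Real.rpow_add hQ0r]
    norm_num
  calc 4 * B ≤ 4 * (C * (10 * X * s) * L ^ k) := by linarith
    _ ≤ 4 * (C * (10 * X * s) * (8 ^ k * (Real.log Q) ^ (2 * k))) := by gcongr
    _ = X * s * (40 * C * 8 ^ k * (Real.log Q) ^ (2 * k)) := by ring
    _ ≤ X * s * (Q : ℝ) ^ (1 / 10 : ℝ) := by gcongr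
    _ = X * ((Q : ℝ) ^ (1 / 10 : ℝ) * s) := by ring
    _ = _ := by rw [hs2]

end Pool.Agent.Lib.GMV
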