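import Pool.Agent.Lib.GMV.MainT
import Pool.Agent.Lib.GMV.Except
import Pool.Agent.Lib.GMV.SPS
import Pool.Agent.Lib.GMV.PosM

/-!
# GMV.PFree (1.5 h): a lower bound for almost all free tuples

PROOF. `Y = Q^(8k)`. For `h` outside the set of `except` (with `B0 = 8 k`): `‖∑ ∏ W - ∑ ∏ LL‖ ≤ X Q^(-1/20)`; `mainT` with `M = {one, xe}`:
`∑_{n ≤ y} ∏ W ≥ Re ∑_{x ∈ M^k} TP ∑ ∏ Mc - C SZ Y h X E - X/Q - X Q^(-1/20)`, and `posM` (`xe ≠ one` because `xe.2 ≠ 1`... `one.2 = 1`; `md xe ≤ Q ≤ Y`):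
the main term is `≥ SZ Y h ∑_{n≤y} ∏ (a - |e|)(n+h i)`. All factors are `≥ 0` (`posM_nonneg`), and for the `n` with `3X ≤ (n+h i) Q` and `(n+h i) Q + X ≤ 2XQ`
for all `i` the product is `≥ m^k`; the other `n ∈ [1,y]` have `n ≤ 3X/Q` or `n + h i > 2X - X/Q`, that is `n > X - X/Q`: at most `5X/Q + 2`; `m ≤ 1`. So
`≥ m^k (y - 5X/Q - 2)`. `SZ Y h ≥ SI h (1 - 1/Q) ≥ SI h/2` and `SZ Y h ≤ 2 SI h` (`sps`; `Tup k (Icc 1 X) ⊆ Tup k (range (X+1))`), `SI h ≥ 0` (a product of nonnegative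
factors; or from `|SZ - SI| ≤ SI/Q`). Hence `≥ SI h (m^k y/2 - 10 X/Q - 2 C X E) - X Q^(-1/25)` for `X ≥ X0`.
-/

set_option autoImplicit false

open Finset Filter

namespace Pool.Agent.Lib.GMV

open Pool.Agent.HLB Pool.Agent.HLT Pool.Agent.HLR

namespace PFreeAux

lemma Rg_mono {c c' : ℝ} {X Q : ℕ} (hX : 1 ≤ X) (hc : c ≤ c') (h : Rg c X Q) : Rg c' X Q :=
  ⟨h.1, h.2.trans (Real.rpow_le_rpow_of_exponent_le (by exact_mod_cast hX) hc)⟩

/-- the bad `n` -/
lemma count {k X Q y : ℕ} (hQ : 1 ≤ Q) (hy : y ≤ X) (h : Fin k → ℕ) (hh : ∀ i, h i ≤ X) :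
    (y : ℝ) - (4 * X / Q + 1) ≤
      (((Icc 1 y).filter (fun n => ∀ i, 3 * X ≤ (n + h i) * Q ∧
        (n + h i) * Q + X ≤ 2 * X * Q)).card : ℝ) := by
  classical
  have hQ0 : (0 : ℝ) < Q := by exact_mod_cast hQ
  set G := (Icc 1 y).filter (fun n => ∀ i, 3 * X ≤ (n + h i) * Q ∧
        (n + h i) * Q + X ≤ 2 * X * Q) with hG
  -- the two bad intervals
  set A := Icc 1 ⌊(3 * X / Q : ℝ)⌋₊ with hA
  set N := ⌊(X / Q : ℝ)⌋₊ with hN
  set D := Icc (X - N) X with hD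
  have hsub : Icc 1 y ⊆ G ∪ (A ∪ D) := by
    intro n hn
    obtain ⟨hn1, hn2⟩ := Finset.mem_Icc.mp hn
    by_cases hg : n ∈ G
    · exact Finset.mem_union_left _ hg
    · refine Finset.mem_union_right _ ?_
      rw [hG, Finset.mem_filter, not_and] at hg
      have h1 := hg hn
      push Not at h1
      obtain ⟨i, hi⟩ := h1
      rw [Finset.mem_union]
      by_cases h3 : 3 * X ≤ (n + h i) * Q
      · right
        have h4 := hi h3
        have h5 : h i ≤ X := hh i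
        rw [hD, Finset.mem_Icc]
        refine ⟨?_, by omega⟩
        -- (X - n) Q < X
        by_contra hcon
        have h6 : n + N < X := by omega
        have h7 : (N : ℝ) + 1 ≤ (X : ℝ) - n := by
          have : n + N + 1 ≤ X := h6
          have h8 : ((n + N + 1 : ℕ) : ℝ) ≤ X := by exact_mod_cast this
          push_cast at h8
          linarith
        have h8 : (X : ℝ) / Q < N + 1 := Nat.lt_floor_add_one _
        have h9 : (X : ℝ) < ((X : ℝ) - n) * Q := by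
          rw [div_lt_iff₀ hQ0] at h8
          nlinarith
        have h10 : (2 * X * Q : ℝ) < ((n : ℝ) + h i) * Q + X := by exact_mod_cast h4
        have h11 : (h i : ℝ) ≤ X := by exact_mod_cast h5
        nlinarith
      · left
        push Not at h3
        rw [hA, Finset.mem_Icc]
        refine ⟨hn1, Nat.le_floor ?_⟩
        rw [le_div_iff₀ hQ0]
        have h4 : (n + h i) * Q ≤ 3 * X := h3.le
        have h5 : ((n : ℝ) + h i) * Q ≤ 3 * X := by exact_mod_cast h4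
        have h6 : (0 : ℝ) ≤ h i := Nat.cast_nonneg _
        nlinarith
  have h1 := Finset.card_le_card hsub
  have h2 := h1.trans ((Finset.card_union_le _ _).trans
    (Nat.add_le_add_left (Finset.card_union_le _ _) _))
  have h3 : A.card ≤ ⌊(3 * X / Q : ℝ)⌋₊ := by
    rw [hA, Nat.card_Icc]
    omega
  have h4 : D.card ≤ N + 1 := by
    rw [hD, Nat.card_Icc]
    omega
  rw [Nat.card_Icc, Nat.add_sub_cancel] at h2
  have h5 : (y : ℝ) ≤ G.card + (⌊(3 * X / Q : ℝ)⌋₊ + (N + 1)) := by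
    have : y ≤ G.card + (⌊(3 * X / Q : ℝ)⌋₊ + (N + 1)) := by omega
    exact_mod_cast this
  have h6 : (⌊(3 * X / Q : ℝ)⌋₊ : ℝ) ≤ 3 * X / Q := Nat.floor_le (by positivity)
  have h7 : (N : ℝ) ≤ X / Q := Nat.floor_le (by positivity)
  have h8 : (4 * X / Q : ℝ) = 3 * X / Q + X / Q := by ring
  rw [h8]
  linarith

/-- the size of `Q` -/
lemma Q_large {c : ℝ} {X Q : ℕ} (hX : ⌈Real.exp 19600⌉₊ ≤ X) (h : Rg c X Q) :
    2 ≤ (Q : ℝ) ^ (1 / 100 : ℝ) := by
  have h1 : Real.exp 19600 ≤ X := (Nat.le_ceil _).trans (by exact_mod_cast hX)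
  have hX0 : (0 : ℝ) < X := lt_of_lt_of_le (Real.exp_pos _) h1
  have h2 : 19600 ≤ Real.log X := by rwa [Real.le_log_iff_exp_le hX0]
  have h3 : 140 ≤ Real.sqrt (Real.log X) := by
    rw [show (140 : ℝ) = Real.sqrt (140 ^ 2) by rw [Real.sqrt_sq (by norm_num)]]
    exact Real.sqrt_le_sqrt (by norm_num; exact h2)
  have h4 : Real.exp 70 ≤ Q := by
    refine le_trans ?_ h.1
    exact Real.exp_le_exp.mpr (by linarith)
  have h5 : Real.exp (Real.log 2) ≤ Real.exp (70 * (1 / 100)) := by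
    refine Real.exp_le_exp.mpr ?_
    have := Real.log_two_lt_d9
    linarith
  rw [Real.exp_log (by norm_num)] at h5
  refine h5.trans ?_
  rw [Real.exp_mul]
  exact Real.rpow_le_rpow (Real.exp_pos _).le h4 (by norm_num)

end PFreeAux

open scoped Classical in
theorem freeP (k : ℕ) (hk : 1 ≤ k) (B : ℝ) : ∃ c C : ℝ, 0 < c ∧ 0 < C ∧ ∃ X0 : ℕ,
    ∀ X Q : ℕ, X0 ≤ X → Rg c X Q → ∀ b : CI → ℝ, (∀ x ∈ Ch Q, ∀ n, ‖Mc X Q x n‖ ≤ b x) →
    ∑ x ∈ Ch Q, b x ≤ B → ∀ (xe : CI) (E m : ℝ), xe ∈ Ch Q → xe.2 ≠ 1 → xe.2 ^ 2 = 1 →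
    0 ≤ E → 0 ≤ m → m ≤ 1 → ∑ x ∈ Ch Q \ {one, xe}, b x ≤ E →
    (∀ n : ℕ, 3 * X ≤ n * Q → n * Q + X ≤ 2 * X * Q →
      m ≤ (Mc X Q one n).re - |(Mc X Q xe n).re|) →
    ∀ y : ℕ, y ≤ X →
    (((Tup k (Icc 1 X)).filter (fun h => Function.Injective h ∧
      ∑ n ∈ Icc 1 y, ∏ i, W X Q (n + h i) <
        SI h * (m ^ k * y / 2 - C * X * (E + 1 / Q)) - X * (Q : ℝ) ^ (-(1 / 25 : ℝ)))).card : ℝ) ≤
      (X : ℝ) ^ k * (Q : ℝ) ^ (-(1 / 2 : ℝ)) := by
  obtain ⟨ce, hce, X1, hexc⟩ := except k (8 * k) hk (by omega) B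
  obtain ⟨cm, C1, hcm, hC1, X2, hmain⟩ := mainT k hk B
  obtain ⟨X3, hsps⟩ := sps k hk
  refine ⟨min 1 (min ce cm), 10 + 2 * C1, lt_min one_pos (lt_min hce hcm), by positivity,
    max (max X1 X2) (max X3 ⌈Real.exp 19600⌉₊), ?_⟩
  intro X Q hX hRg b hb hB xe E m hxe hne h2 hE hm hm1 hbE hlow y hy
  have hX1 : X1 ≤ X := le_trans (le_trans (le_max_left _ _) (le_max_left _ _)) hX
  have hX2 : X2 ≤ X := le_trans (le_trans (le_max_right _ _) (le_max_left _ _)) hX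
  have hX3 : X3 ≤ X := le_trans (le_trans (le_max_left _ _) (le_max_right _ _)) hX
  have hX4 : ⌈Real.exp 19600⌉₊ ≤ X := le_trans (le_trans (le_max_right _ _) (le_max_right _ _)) hX
  have hXpos : 1 ≤ X := by
    refine le_trans ?_ hX4
    rw [Nat.one_le_ceil_iff]
    exact Real.exp_pos _
  have hR1 : Rg ce X Q := PFreeAux.Rg_mono hXpos ((min_le_right _ _).trans (min_le_left _ _)) hRg
  have hR2 : Rg cm X Q := PFreeAux.Rg_mono hXpos ((min_le_right _ _).trans (min_le_right _ _)) hRg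
  have hR3 : Rg 1 X Q := PFreeAux.Rg_mono hXpos (min_le_left _ _) hRg
  have hQ100 := PFreeAux.Q_large hX4 hRg
  have hQ2 : (2 : ℝ) ≤ Q := by
    by_contra hcon
    have h1 : Q ≤ 1 := by
      by_contra h
      push Not at h
      exact hcon (by exact_mod_cast h)
    have h3 : (Q : ℝ) ^ (1 / 100 : ℝ) ≤ 1 :=
      Real.rpow_le_one (Nat.cast_nonneg _) (by exact_mod_cast h1) (by norm_num)
    linarith
  have hQ1 : 1 ≤ Q := by
    have : (1 : ℝ) ≤ Q := by linarith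
    exact_mod_cast this
  have hQ0 : (0 : ℝ) < Q := by linarith
  have hXr : (0 : ℝ) < X := by exact_mod_cast hXpos
  have hQX : (Q : ℝ) ≤ X := by
    have := hR3.2
    rwa [Real.rpow_one] at this
  have hxone : xe ≠ one := by
    rintro rfl
    exact hne rfl
  have hM : ({one, xe} : Finset CI) ⊆ Ch Q := by
    intro x hx
    rw [Finset.mem_insert, Finset.mem_singleton] at hx
    rcases hx with rfl | rfl
    · exact one_mem_Ch hQ1
    · exact hxe
  have hmdY : md xe ≤ Q ^ (8 * k) := by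
    refine (mem_Ch.mp hxe).1.trans ?_
    calc Q = Q ^ 1 := (pow_one Q).symm
      _ ≤ Q ^ (8 * k) := Nat.pow_le_pow_right hQ1 (by omega)
  have hsub : ((Tup k (Icc 1 X)).filter (fun h => Function.Injective h ∧
      ∑ n ∈ Icc 1 y, ∏ i, W X Q (n + h i) <
        SI h * (m ^ k * y / 2 - (10 + 2 * C1) * X * (E + 1 / Q)) -
          X * (Q : ℝ) ^ (-(1 / 25 : ℝ)))) ⊆
      ((Tup k (Icc 1 X)).filter (fun h => X * (Q : ℝ) ^ (-(1 / 20 : ℝ)) <
      ‖∑ n ∈ Icc 1 y, ∏ i, (W X Q (n + h i) : ℂ) -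
        ∑ n ∈ Icc 1 y, ∏ i, LL X Q (Q ^ (8 * k)) (n + h i)‖)) := by
    intro h hh
    rw [Finset.mem_filter] at hh ⊢
    obtain ⟨hT, hinj, hlt⟩ := hh
    refine ⟨hT, ?_⟩
    by_contra hcon
    push Not at hcon
    refine absurd hlt (not_lt.mpr ?_)
    have hTm : ∀ i, 1 ≤ h i ∧ h i ≤ X := by
      intro i
      have h1 := Fintype.mem_piFinset.mp hT i
      exact Finset.mem_Icc.mp h1
    have hT' : h ∈ Tup k (range (X + 1)) := by
      refine Fintype.mem_piFinset.mpr fun i => ?_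
      rw [Finset.mem_range]
      have := (hTm i).2
      omega
    have hs := hsps X Q hX3 hR3 h hT' hinj
    have hSI := SI_nonneg h hinj
    set SIh := SI h with hSIh
    set SZh := SZ (Q ^ (8 * k)) h with hSZh
    have hSZ0 : 0 ≤ SZh := SZ_nonneg _ _
    have hQi : 1 / (Q : ℝ) ≤ 1 / 2 := one_div_le_one_div_of_le (by norm_num) hQ2
    have hs2 : SIh / Q ≤ SIh / 2 := by
      have : SIh * (1 / Q) ≤ SIh * (1 / 2) := mul_le_mul_of_nonneg_left hQi hSI
      calc SIh / Q = SIh * (1 / Q) := by ring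
        _ ≤ SIh * (1 / 2) := this
        _ = SIh / 2 := by ring
    have hs3 := abs_le.mp hs
    have hlo : SIh / 2 ≤ SZh := by linarith [hs3.1]
    have hup : SZh ≤ 2 * SIh := by linarith [hs3.2]
    -- the main term
    have hmt := hmain X Q hX2 hR2 b hb hB {one, xe} E hM hbE h hT hinj y hy
    have hpos := posM X Q (Q ^ (8 * k)) y xe hxone h2 hmdY h
    rw [← hSZh] at hmt hpos
    set T := ∑ x ∈ Fintype.piFinset (fun _ : Fin k => ({one, xe} : Finset CI)),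
        TP (Q ^ (8 * k)) x h * ∑ n ∈ Icc 1 y, ∏ i, Mc X Q (x i) (n + h i) with hTdef
    set NN := ∑ n ∈ Icc 1 y, ∏ i, LL X Q (Q ^ (8 * k)) (n + h i) with hNN
    set S := ∑ n ∈ Icc 1 y, ∏ i, W X Q (n + h i) with hS
    have hSC : ∑ n ∈ Icc 1 y, ∏ i, (W X Q (n + h i) : ℂ) = (S : ℂ) := by
      rw [hS]
      push_cast
      rfl
    rw [hSC] at hcon
    have e1 : NN.re - S ≤ X * (Q : ℝ) ^ (-(1 / 20 : ℝ)) := by
      have h3 : |((S : ℂ) - NN).re| ≤ ‖(S : ℂ) - NN‖ := Complex.abs_re_le_norm _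
      rw [Complex.sub_re, Complex.ofReal_re] at h3
      have h4 := (abs_le.mp (h3.trans hcon)).1
      linarith
    have e2 : T.re - NN.re ≤ C1 * SZh * X * E + X / Q := by
      have h3 : |(NN - T).re| ≤ ‖NN - T‖ := Complex.abs_re_le_norm _
      rw [Complex.sub_re] at h3
      have h4 := (abs_le.mp (h3.trans hmt)).1
      linarith
    -- the lower bound of the positive sum
    set P := ∑ n ∈ Icc 1 y, ∏ i, ((Mc X Q one (n + h i)).re - |(Mc X Q xe (n + h i)).re|) with hP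
    set G := (Icc 1 y).filter (fun n => ∀ i, 3 * X ≤ (n + h i) * Q ∧
        (n + h i) * Q + X ≤ 2 * X * Q) with hG
    have e3 : m ^ k * G.card ≤ P := by
      have h3 : ∑ n ∈ G, m ^ k ≤ ∑ n ∈ G, ∏ i, ((Mc X Q one (n + h i)).re -
          |(Mc X Q xe (n + h i)).re|) := by
        refine Finset.sum_le_sum fun n hn => ?_
        rw [hG, Finset.mem_filter] at hn
        calc m ^ k = ∏ _i : Fin k, m := by
              rw [Finset.prod_const, Finset.card_univ, Fintype.card_fin]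
          _ ≤ _ := Finset.prod_le_prod (fun i _ => hm) fun i _ =>
              hlow (n + h i) (hn.2 i).1 (hn.2 i).2
      have h4 : ∑ n ∈ G, ∏ i, ((Mc X Q one (n + h i)).re -
          |(Mc X Q xe (n + h i)).re|) ≤ P := by
        rw [hP]
        refine Finset.sum_le_sum_of_subset_of_nonneg (Finset.filter_subset _ _) fun n _ _ => ?_
        exact Finset.prod_nonneg fun i _ => posM_nonneg X Q xe (n + h i)
      rw [Finset.sum_const, nsmul_eq_mul] at h3
      linarith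
    have hmk0 : 0 ≤ m ^ k := pow_nonneg hm k
    have hmk1 : m ^ k ≤ 1 := pow_le_one₀ hm hm1
    have hcount := PFreeAux.count (Q := Q) hQ1 hy h fun i => (hTm i).2
    have e4 : m ^ k * y - 5 * X / Q ≤ P := by
      have h3 : m ^ k * (y - (4 * X / Q + 1)) ≤ m ^ k * G.card := by
        refine mul_le_mul_of_nonneg_left ?_ hmk0
        convert hcount using 3
      have h4 : m ^ k * (4 * X / Q + 1) ≤ 1 * (4 * X / Q + 1) :=
        mul_le_mul_of_nonneg_right hmk1 (by positivity)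
      have h5 : 1 ≤ (X : ℝ) / Q := by
        rw [le_div_iff₀ hQ0]
        linarith
      have h6 : (5 * X / Q : ℝ) = 4 * X / Q + X / Q := by ring
      rw [h6]
      nlinarith
    have e5 : (X : ℝ) / Q + X * (Q : ℝ) ^ (-(1 / 20 : ℝ)) ≤ X * (Q : ℝ) ^ (-(1 / 25 : ℝ)) := by
      have h3 : (X : ℝ) / Q = X * (Q : ℝ) ^ (-1 : ℝ) := by
        rw [Real.rpow_neg_one]
        rfl
      rw [h3, ← mul_add]
      refine mul_le_mul_of_nonneg_left ?_ hXr.le
      have h4 : (Q : ℝ) ^ (-1 : ℝ) ≤ (Q : ℝ) ^ (-(1 / 20 : ℝ)) :=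
        Real.rpow_le_rpow_of_exponent_le (by linarith) (by norm_num)
      have h5 : (Q : ℝ) ^ (-(1 / 25 : ℝ)) = (Q : ℝ) ^ (-(1 / 20 : ℝ)) * (Q : ℝ) ^ (1 / 100 : ℝ) := by
        rw [← Real.rpow_add hQ0]
        norm_num
      rw [h5]
      have h6 : 0 ≤ (Q : ℝ) ^ (-(1 / 20 : ℝ)) := by positivity
      nlinarith
    -- combine
    have e6 : SZh * (m ^ k * y - 5 * X / Q) ≤ T.re :=
      (mul_le_mul_of_nonneg_left e4 hSZ0).trans hpos
    have e7 : SIh * (m ^ k * y / 2) ≤ SZh * (m ^ k * y) := by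
      have h3 : 0 ≤ m ^ k * y := by positivity
      have h4 := mul_le_mul_of_nonneg_right hlo h3
      linarith
    have e8 : SZh * (5 * X / Q) ≤ 2 * SIh * (5 * X / Q) :=
      mul_le_mul_of_nonneg_right hup (by positivity)
    have e9 : C1 * SZh * X * E ≤ 2 * C1 * SIh * X * E := by
      have h3 : 0 ≤ C1 * X * E := by positivity
      have h4 := mul_le_mul_of_nonneg_right hup h3
      linarith
    have e10 : SIh * ((10 + 2 * C1) * X * (E + 1 / Q)) =
        2 * SIh * (5 * X / Q) + 2 * C1 * SIh * X * E + (10 * SIh * X * E +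
          2 * C1 * SIh * X / Q) := by ring
    have e11 : 0 ≤ 10 * SIh * X * E + 2 * C1 * SIh * X / Q := by positivity
    rw [mul_sub, e10]
    rw [mul_sub] at e6
    linarith
  refine le_trans ?_ (hexc X Q hX1 hR1 b hb hB y hy)
  exact_mod_cast Finset.card_le_card hsub

end Pool.Agent.Lib.GMV
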