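import Pool.Agent.Lib.GMV.ZDen
import Pool.Agent.Lib.GMV.FCnt
import Pool.Agent.Lib.GMV.Model

/-!
# GMV.PZs (1.5 h): sums over zeros (stage two, paper 5)

PROOF. `l = log Q`, `u_ρ = 1 - Re ρ`, `T = Q^30`, `a = C3` the constant of `zero_density` (WLOG `1 ≤ C3`). `A = 2 C3 + 6000`.
By the hypothesis on `P` every zero in the sum has `η ≤ u_ρ`, so `exp(-w u_ρ) ≤ exp(-w η/2) exp(-w u_ρ/2)`, and it is enough that
`∑_{x ∈ Ch Q} ∑_{ρ ∈ Z x.2 T} mul ρ exp(-(w/2) u_ρ) ≤ B` (all zeros, terms nonnegative).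
(1) Zeros with `u_ρ ≥ 1/20`: `exp(-(w/2)/20) ≤ exp(-150 l) = Q^(-150)`; by `count_Z` (`T = Q^30 ≥ 2`, the moduli are `≤ Q`, at most `Q` characters
for each modulus: `∑_{x ∈ Ch Q}` has at most `Q^2` terms) the number of zeros with multiplicity is `≤ Q^2 C Q^30 log(Q^31) ≤ 31 C Q^33`. Total `≤ 31 C`.
(2) Zeros with `u_ρ < 1/20`: `j = ⌊20 ... ⌋`: group by `j = ⌊u_ρ l⌋₊`, so `j/l ≤ u_ρ < (j+1)/l`: the weight is `≤ exp(-(w/2) j/l) ≤ exp(-(C3+1) j)`
(`w/(2l) ≥ A/2 ≥ C3 + 1`) and by `zero_density` with `min ((j+1)/l) (1/20)` the number with multiplicity is `≤ C exp(C3 (j+1))`. Sum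
`≤ C exp(C3) ∑_j exp(-j) ≤ 2 C exp(C3)`. To avoid the grouping by floors: for every zero
`exp(-(C3+1) u l) ≤ ∑_{j : u l ≤ j+1, j ≤ J} exp(-(C3+1) j)`... (the term `j = ⌊u l⌋₊` is one of them), exchange the sums, `J = ⌊l/20⌋₊`.
`zero_density` is stated with `∑ q ∈ range Q, ∑ χ, if χ.IsPrimitive`; `Ch Q` is the sigma set: `Finset.sum_sigma`, `Finset.sum_filter`.
-/

set_option autoImplicit false

open Finset

namespace Pool.Agent.Lib.GMV

namespace PZsAux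

lemma card_Ch (Q : ℕ) : (Ch Q).card ≤ Q * Q := by
  classical
  unfold Ch
  rw [Finset.card_sigma]
  have h1 : ∀ q ∈ range Q, ((univ.filter fun χ : DirichletCharacter ℂ (q + 1) =>
      χ.IsPrimitive)).card ≤ Q := by
    intro q hq
    refine (Finset.card_le_univ _).trans ?_
    rw [← Nat.card_eq_fintype_card, DirichletCharacter.card_eq_totient_of_hasEnoughRootsOfUnity]
    exact (Nat.totient_le _).trans (Finset.mem_range.1 hq)
  refine (Finset.sum_le_sum h1).trans ?_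
  rw [Finset.sum_const, Finset.card_range, smul_eq_mul]


end PZsAux

open PZsAux

open scoped Classical in
theorem zsum : ∃ A B : ℝ, 0 < A ∧ 0 < B ∧ ∀ (Q : ℕ) (w η : ℝ) (P : CI → ℂ → Prop), 2 ≤ Q →
    A * Real.log Q ≤ w → 0 ≤ η →
    (∀ x ∈ Ch Q, ∀ ρ ∈ Z x.2 ((Q : ℝ) ^ 30), P x ρ → ρ.re ≤ 1 - η) →
    ∑ x ∈ Ch Q, ∑ ρ ∈ (Z x.2 ((Q : ℝ) ^ 30)).filter (P x),
      (mul x.2 ρ : ℝ) * Real.exp (-(w * (1 - ρ.re))) ≤ B * Real.exp (-(w * η / 2)) := by
  obtain ⟨C, C3, hC, hC3, hZD⟩ := zero_density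
  obtain ⟨C4, hC4, hcount⟩ := count_Z
  refine ⟨2 * C3 + 6000, 31 * C4 + 2 * C * Real.exp C3, by positivity, by positivity, ?_⟩
  intro Q w η P hQ hw hη hP
  have hQr : (2 : ℝ) ≤ Q := by exact_mod_cast hQ
  have hQ0 : (0 : ℝ) < Q := by linarith
  obtain ⟨l, hl⟩ : ∃ l, l = Real.log Q := ⟨_, rfl⟩
  have hl0 : 0 < l := by rw [hl]; exact Real.log_pos (by linarith)
  rw [← hl] at hw
  have hw0 : 0 < w := lt_of_lt_of_le (by positivity) hw
  obtain ⟨J, hJ⟩ : ∃ J, J = ⌊l⌋₊ + 1 := ⟨_, rfl⟩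
  obtain ⟨ηj, hηj⟩ : ∃ ηj : ℕ → ℝ, ηj = fun j : ℕ => min (((j : ℝ) + 1) / l) (1 / 20) := ⟨_, rfl⟩
  -- pointwise
  have hpt : ∀ x ∈ Ch Q, ∀ ρ ∈ Z x.2 ((Q : ℝ) ^ 30),
      Real.exp (-(w / 2 * (1 - ρ.re))) ≤ (Q : ℝ) ^ (-(150 : ℝ)) +
        ∑ j ∈ range J, (if 1 - ηj j ≤ ρ.re then Real.exp (-((C3 + 1) * j)) else 0) := by
    intro x _ ρ hρ
    have hu0 : 0 < 1 - ρ.re := by linarith [re_lt_one_of_mem_Z hρ]
    obtain ⟨u, hu⟩ : ∃ u, u = 1 - ρ.re := ⟨_, rfl⟩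
    rw [← hu] at hu0 ⊢
    have hnn : ∀ j ∈ range J, 0 ≤ (if 1 - ηj j ≤ ρ.re then Real.exp (-((C3 + 1) * j)) else 0) := by
      intro j _
      split_ifs
      · exact (Real.exp_pos _).le
      · exact le_rfl
    have hwl : (C3 + 3000) * l ≤ w / 2 := by linarith
    rcases le_total (1 / 20) u with h | h
    · have h1 : Real.exp (-(w / 2 * u)) ≤ (Q : ℝ) ^ (-(150 : ℝ)) := by
        rw [Real.rpow_def_of_pos hQ0, ← hl]
        apply Real.exp_le_exp.2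
        have h2 : (C3 + 3000) * l * (1 / 20) ≤ w / 2 * u :=
          mul_le_mul hwl h (by norm_num) (by positivity)
        nlinarith [mul_pos hC3 hl0]
      have h3 := Finset.sum_nonneg hnn
      linarith
    · have hul : 0 ≤ u * l := by positivity
      have hj1 : (⌊u * l⌋₊ : ℝ) ≤ u * l := Nat.floor_le hul
      have hj2 : u * l < ⌊u * l⌋₊ + 1 := Nat.lt_floor_add_one _
      have hjJ : ⌊u * l⌋₊ ∈ range J := by
        rw [Finset.mem_range, hJ]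
        have : ⌊u * l⌋₊ ≤ ⌊l⌋₊ := Nat.floor_le_floor (by nlinarith)
        omega
      have hcond : 1 - ηj ⌊u * l⌋₊ ≤ ρ.re := by
        have h5 : u ≤ ηj ⌊u * l⌋₊ := by
          rw [hηj]
          refine le_min ?_ h
          rw [le_div_iff₀ hl0]
          exact hj2.le
        linarith
      have h1 := Finset.single_le_sum hnn hjJ
      rw [if_pos hcond] at h1
      have h2 : Real.exp (-(w / 2 * u)) ≤ Real.exp (-((C3 + 1) * ⌊u * l⌋₊)) := by
        apply Real.exp_le_exp.2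
        apply neg_le_neg
        calc (C3 + 1) * (⌊u * l⌋₊ : ℝ) ≤ (C3 + 1) * (u * l) :=
              mul_le_mul_of_nonneg_left hj1 (by positivity)
          _ = (C3 + 1) * l * u := by ring
          _ ≤ w / 2 * u := by
              refine mul_le_mul_of_nonneg_right ?_ hu0.le
              nlinarith
      have h3 : (0 : ℝ) ≤ (Q : ℝ) ^ (-(150 : ℝ)) := by positivity
      linarith
  -- the number of zeros
  have hnum : ∑ x ∈ Ch Q, ∑ ρ ∈ Z x.2 ((Q : ℝ) ^ 30), (mul x.2 ρ : ℝ) ≤ 31 * C4 * (Q : ℝ) ^ 33 := by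
    have h1 : ∀ x ∈ Ch Q, ∑ ρ ∈ Z x.2 ((Q : ℝ) ^ 30), (mul x.2 ρ : ℝ) ≤
        C4 * (Q : ℝ) ^ 30 * (31 * Q) := by
      intro x hx
      obtain ⟨hx1, hx2⟩ := mem_Ch.1 hx
      have h2 := hcount (x.1 + 1) x.2 ((Q : ℝ) ^ 30) hx2 (by
        calc (2 : ℝ) ≤ Q := hQr
          _ = (Q : ℝ) ^ 1 := (pow_one _).symm
          _ ≤ (Q : ℝ) ^ 30 := pow_le_pow_right₀ (by linarith) (by norm_num))
      refine h2.trans ?_
      refine mul_le_mul_of_nonneg_left ?_ (by positivity)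
      have h3 : ((x.1 + 1 : ℕ) : ℝ) ≤ Q := by
        have : x.1 + 1 ≤ Q := hx1
        exact_mod_cast this
      have h4 : Real.log (((x.1 + 1 : ℕ) : ℝ) * (Q : ℝ) ^ 30) ≤ Real.log ((Q : ℝ) ^ 31) := by
        apply Real.log_le_log (by positivity)
        calc ((x.1 + 1 : ℕ) : ℝ) * (Q : ℝ) ^ 30 ≤ Q * (Q : ℝ) ^ 30 :=
              mul_le_mul_of_nonneg_right h3 (by positivity)
          _ = (Q : ℝ) ^ 31 := by ring
      refine h4.trans ?_
      rw [Real.log_pow]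
      have h5 : Real.log (Q : ℝ) ≤ Q := (Real.log_le_sub_one_of_pos hQ0).trans (by linarith)
      push_cast
      linarith
    refine (Finset.sum_le_sum h1).trans ?_
    rw [Finset.sum_const, nsmul_eq_mul]
    have h2 : ((Ch Q).card : ℝ) ≤ (Q : ℝ) * Q := by exact_mod_cast card_Ch Q
    calc ((Ch Q).card : ℝ) * (C4 * (Q : ℝ) ^ 30 * (31 * Q)) ≤
        (Q : ℝ) * Q * (C4 * (Q : ℝ) ^ 30 * (31 * Q)) :=
          mul_le_mul_of_nonneg_right h2 (by positivity)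
      _ = 31 * C4 * (Q : ℝ) ^ 33 := by ring
  -- the near zeros
  have hnear : ∀ j : ℕ, ∑ x ∈ Ch Q, ∑ ρ ∈ (Z x.2 ((Q : ℝ) ^ 30)).filter
      (fun ρ => 1 - ηj j ≤ ρ.re), (mul x.2 ρ : ℝ) ≤ C * Real.exp (C3 * (j + 1)) := by
    intro j
    have h1 := hZD Q (ηj j) hQ (by rw [hηj]; positivity) (by rw [hηj]; exact min_le_right _ _)
    have h2 : ∑ x ∈ Ch Q, ∑ ρ ∈ (Z x.2 ((Q : ℝ) ^ 30)).filter
        (fun ρ => 1 - ηj j ≤ ρ.re), (mul x.2 ρ : ℝ) =
        ∑ q ∈ range Q, ∑ χ : DirichletCharacter ℂ (q + 1),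
        (if χ.IsPrimitive then
          ∑ ρ ∈ (Z χ ((Q : ℝ) ^ 30)).filter (fun ρ => 1 - ηj j ≤ ρ.re), (mul χ ρ : ℝ) else 0) := by
      unfold Ch
      rw [Finset.sum_sigma]
      refine Finset.sum_congr rfl fun q _ => ?_
      rw [Finset.sum_filter]
    rw [h2]
    refine h1.trans ?_
    refine mul_le_mul_of_nonneg_left (Real.exp_le_exp.2 ?_) hC.le
    rw [← hl, mul_assoc]
    refine mul_le_mul_of_nonneg_left ?_ hC3.le
    rw [hηj]
    calc min (((j : ℝ) + 1) / l) (1 / 20) * l ≤ ((j : ℝ) + 1) / l * l :=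
          mul_le_mul_of_nonneg_right (min_le_left _ _) hl0.le
      _ = j + 1 := by field_simp
  -- all zeros
  have hall : ∑ x ∈ Ch Q, ∑ ρ ∈ Z x.2 ((Q : ℝ) ^ 30),
      (mul x.2 ρ : ℝ) * Real.exp (-(w / 2 * (1 - ρ.re))) ≤ 31 * C4 + 2 * C * Real.exp C3 := by
    have h1 : ∑ x ∈ Ch Q, ∑ ρ ∈ Z x.2 ((Q : ℝ) ^ 30),
        (mul x.2 ρ : ℝ) * Real.exp (-(w / 2 * (1 - ρ.re))) ≤
        ∑ x ∈ Ch Q, ∑ ρ ∈ Z x.2 ((Q : ℝ) ^ 30), (mul x.2 ρ : ℝ) * ((Q : ℝ) ^ (-(150 : ℝ)) +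
        ∑ j ∈ range J, (if 1 - ηj j ≤ ρ.re then Real.exp (-((C3 + 1) * j)) else 0)) :=
      Finset.sum_le_sum fun x hx => Finset.sum_le_sum fun ρ hρ =>
        mul_le_mul_of_nonneg_left (hpt x hx ρ hρ) (Nat.cast_nonneg _)
    refine h1.trans ?_
    have h2 : ∑ x ∈ Ch Q, ∑ ρ ∈ Z x.2 ((Q : ℝ) ^ 30), (mul x.2 ρ : ℝ) * ((Q : ℝ) ^ (-(150 : ℝ)) +
        ∑ j ∈ range J, (if 1 - ηj j ≤ ρ.re then Real.exp (-((C3 + 1) * j)) else 0)) =
        (∑ x ∈ Ch Q, ∑ ρ ∈ Z x.2 ((Q : ℝ) ^ 30), (mul x.2 ρ : ℝ)) * (Q : ℝ) ^ (-(150 : ℝ)) +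
        ∑ j ∈ range J, Real.exp (-((C3 + 1) * j)) *
          ∑ x ∈ Ch Q, ∑ ρ ∈ (Z x.2 ((Q : ℝ) ^ 30)).filter
            (fun ρ => 1 - ηj j ≤ ρ.re), (mul x.2 ρ : ℝ) := by
      have e1 : ∀ x : CI, ∑ ρ ∈ Z x.2 ((Q : ℝ) ^ 30), (mul x.2 ρ : ℝ) * ((Q : ℝ) ^ (-(150 : ℝ)) +
          ∑ j ∈ range J, (if 1 - ηj j ≤ ρ.re then Real.exp (-((C3 + 1) * j)) else 0)) =
          (∑ ρ ∈ Z x.2 ((Q : ℝ) ^ 30), (mul x.2 ρ : ℝ)) * (Q : ℝ) ^ (-(150 : ℝ)) +
          ∑ j ∈ range J, Real.exp (-((C3 + 1) * j)) *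
            ∑ ρ ∈ (Z x.2 ((Q : ℝ) ^ 30)).filter (fun ρ => 1 - ηj j ≤ ρ.re), (mul x.2 ρ : ℝ) := by
        intro x
        simp only [mul_add, Finset.sum_add_distrib, Finset.sum_mul, Finset.mul_sum]
        congr 1
        rw [Finset.sum_comm]
        refine Finset.sum_congr rfl fun j _ => ?_
        rw [Finset.sum_filter]
        refine Finset.sum_congr rfl fun ρ _ => ?_
        split_ifs
        · ring
        · ring
      rw [Finset.sum_congr rfl fun x _ => e1 x, Finset.sum_add_distrib, ← Finset.sum_mul,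
        Finset.sum_comm (t := range J)]
      congr 1
      refine Finset.sum_congr rfl fun j _ => ?_
      rw [Finset.mul_sum]
    rw [h2]
    refine add_le_add ?_ ?_
    · have h3 : (Q : ℝ) ^ (-(150 : ℝ)) = 1 / (Q : ℝ) ^ 150 := by
        rw [Real.rpow_neg hQ0.le, one_div]
        norm_num
      rw [h3]
      refine (mul_le_mul_of_nonneg_right hnum (by positivity)).trans ?_
      rw [mul_one_div, div_le_iff₀ (by positivity)]
      exact mul_le_mul_of_nonneg_left (pow_le_pow_right₀ (by linarith) (by norm_num))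
        (by positivity)
    · have h3 : ∀ j ∈ range J, Real.exp (-((C3 + 1) * j)) *
          ∑ x ∈ Ch Q, ∑ ρ ∈ (Z x.2 ((Q : ℝ) ^ 30)).filter
            (fun ρ => 1 - ηj j ≤ ρ.re), (mul x.2 ρ : ℝ) ≤ C * Real.exp C3 * (1 / 2) ^ j := by
        intro j _
        refine (mul_le_mul_of_nonneg_left (hnear j) (Real.exp_pos _).le).trans ?_
        have h4 : Real.exp (-((C3 + 1) * j)) * (C * Real.exp (C3 * (j + 1))) =
            C * Real.exp C3 * Real.exp (-(j : ℝ)) := by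
          have h5 : Real.exp (-((C3 + 1) * j)) * Real.exp (C3 * (j + 1)) =
              Real.exp C3 * Real.exp (-(j : ℝ)) := by
            rw [← Real.exp_add, ← Real.exp_add]
            congr 1
            ring
          calc Real.exp (-((C3 + 1) * j)) * (C * Real.exp (C3 * (j + 1))) =
              C * (Real.exp (-((C3 + 1) * j)) * Real.exp (C3 * (j + 1))) := by ring
            _ = _ := by rw [h5]; ring
        rw [h4]
        refine mul_le_mul_of_nonneg_left ?_ (by positivity)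
        have h6 : Real.exp (-(j : ℝ)) = (Real.exp (-1)) ^ j := by
          rw [← Real.exp_nat_mul]
          congr 1
          ring
        rw [h6]
        refine pow_le_pow_left₀ (Real.exp_pos _).le ?_ j
        rw [Real.exp_neg, one_div]
        apply inv_anti₀ (by norm_num)
        have := Real.add_one_le_exp (1 : ℝ)
        linarith
      refine (Finset.sum_le_sum h3).trans ?_
      rw [← Finset.mul_sum]
      have h7 := sum_geometric_two_le J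
      have h8 : 0 ≤ C * Real.exp C3 := by positivity
      nlinarith
  -- the weight
  have hlast : ∀ x ∈ Ch Q, ∑ ρ ∈ (Z x.2 ((Q : ℝ) ^ 30)).filter (P x),
      (mul x.2 ρ : ℝ) * Real.exp (-(w * (1 - ρ.re))) ≤
      Real.exp (-(w * η / 2)) * ∑ ρ ∈ Z x.2 ((Q : ℝ) ^ 30),
        (mul x.2 ρ : ℝ) * Real.exp (-(w / 2 * (1 - ρ.re))) := by
    intro x hx
    rw [Finset.mul_sum]
    refine le_trans (Finset.sum_le_sum fun ρ hρ => ?_)
      (Finset.sum_le_sum_of_subset_of_nonneg (Finset.filter_subset (P x) _)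
        fun ρ _ _ => by positivity)
    obtain ⟨h1, h2⟩ := Finset.mem_filter.1 hρ
    have h3 := hP x hx ρ h1 h2
    have h4 : Real.exp (-(w * (1 - ρ.re))) ≤
        Real.exp (-(w * η / 2)) * Real.exp (-(w / 2 * (1 - ρ.re))) := by
      rw [← Real.exp_add]
      apply Real.exp_le_exp.2
      have : w * η ≤ w * (1 - ρ.re) := mul_le_mul_of_nonneg_left (by linarith) hw0.le
      linarith
    calc (mul x.2 ρ : ℝ) * Real.exp (-(w * (1 - ρ.re))) ≤
        (mul x.2 ρ : ℝ) * (Real.exp (-(w * η / 2)) * Real.exp (-(w / 2 * (1 - ρ.re)))) :=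
          mul_le_mul_of_nonneg_left h4 (Nat.cast_nonneg _)
      _ = _ := by ring
  refine (Finset.sum_le_sum hlast).trans ?_
  rw [← Finset.mul_sum, mul_comm]
  exact mul_le_mul_of_nonneg_right hall (Real.exp_pos _).le

end Pool.Agent.Lib.GMV
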