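import Pool.Agent.Lib.GMV.Model

/-!
# GMV.PerMean: means of periodic functions (paper 4.1)

PROOF. `per_mean`: `T m = ∑_{n=1}^m (f n - av P f)` has `‖T m‖ ≤ 2 P F` (full periods cancel, an incomplete one has `< P` terms of
size `≤ 2F`); Abel summation `∑_{n=1}^y (f n - av) g n = T y g y - ∑_{n=1}^{y-1} T n (g (n+1) - g n)`.
`av_period`: split into periods. `av_prod`: induction on `P` from the case of two coprime periods
(`n ↦ (n mod M, n mod p)` is a bijection `[0,Mp) → [0,M) × [0,p)`, Mathlib `Nat.chineseRemainder` / `ZMod.chineseRemainder`).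
-/

set_option autoImplicit false

open Finset Filter

namespace Pool.Agent.Lib.GMV

open Pool.Agent.HLB Pool.Agent.HLT Pool.Agent.HLR

namespace PerMeanAux

lemma per_mul (P : ℕ) (f : ℕ → ℂ) (hf : ∀ n, f (n + P) = f n) (q n : ℕ) :
    f (n + P * q) = f n := by
  induction q with
  | zero => simp
  | succ q ih => rw [Nat.mul_succ, ← add_assoc, hf, ih]

lemma per_mod (P : ℕ) (f : ℕ → ℂ) (hf : ∀ n, f (n + P) = f n) (n : ℕ) :
    f (n % P) = f n := by
  conv_rhs => rw [← Nat.mod_add_div n P]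
  rw [per_mul P f hf]

lemma per_sum (P : ℕ) (f : ℕ → ℂ) (hf : ∀ n, f (n + P) = f n) (q r : ℕ) :
    ∑ n ∈ range (P * q + r), f n = q * ∑ n ∈ range P, f n + ∑ n ∈ range r, f n := by
  rw [Finset.sum_range_add]
  have h1 : ∑ n ∈ range (P * q), f n = q * ∑ n ∈ range P, f n := by
    induction q with
    | zero => simp
    | succ q ih =>
      rw [Nat.mul_succ, Finset.sum_range_add, ih]
      have : ∑ x ∈ range P, f (P * q + x) = ∑ x ∈ range P, f x := by
        refine Finset.sum_congr rfl fun x _ => ?_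
        rw [add_comm, per_mul P f hf]
      rw [this]
      push_cast
      ring
  rw [h1]
  congr 1
  refine Finset.sum_congr rfl fun x _ => ?_
  rw [add_comm, per_mul P f hf]

lemma sum_shift (P : ℕ) (f : ℕ → ℂ) (hf : ∀ n, f (n + P) = f n) :
    ∑ n ∈ range P, f (n + 1) = ∑ n ∈ range P, f n := by
  have h1 := Finset.sum_range_succ' f P
  have h2 := Finset.sum_range_succ f P
  have h3 : f P = f 0 := by
    have := hf 0
    rwa [zero_add] at this
  rw [h2, h3] at h1
  exact (add_right_cancel h1).symm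

lemma abel (a g : ℕ → ℂ) (y : ℕ) :
    ∑ n ∈ range y, a n * g (n + 1) =
      (∑ n ∈ range y, a n) * g y - ∑ n ∈ range y, (∑ j ∈ range n, a j) * (g (n + 1) - g n) := by
  induction y with
  | zero => simp
  | succ y ih =>
    rw [Finset.sum_range_succ, ih, Finset.sum_range_succ, Finset.sum_range_succ]
    ring

lemma sum_Icc_eq (y : ℕ) (f : ℕ → ℂ) : ∑ n ∈ Icc 1 y, f n = ∑ n ∈ range y, f (n + 1) := by
  rw [Finset.range_eq_Ico, Finset.sum_Ico_add' f 0 y 1]
  rfl

lemma sum_mul_coprime (a b : ℕ) (ha : 1 ≤ a) (hb : 1 ≤ b) (hab : a.Coprime b) (u v : ℕ → ℂ)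
    (hu : ∀ n, u (n + a) = u n) (hv : ∀ n, v (n + b) = v n) :
    ∑ n ∈ range (a * b), u n * v n = (∑ n ∈ range a, u n) * ∑ n ∈ range b, v n := by
  rw [Finset.sum_mul_sum, ← Finset.sum_product']
  refine Finset.sum_nbij (fun n => (n % a, n % b)) ?_ ?_ ?_ ?_
  · intro n _
    simp only [Finset.mem_product, Finset.mem_range]
    exact ⟨Nat.mod_lt _ ha, Nat.mod_lt _ hb⟩
  · intro m hm n hn h
    simp only [Finset.coe_range, Set.mem_Iio] at hm hn
    simp only [Prod.mk.injEq] at h
    have h1 : m ≡ n [MOD a * b] := (Nat.modEq_and_modEq_iff_modEq_mul hab).mp ⟨h.1, h.2⟩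
    exact Nat.ModEq.eq_of_lt_of_lt h1 hm hn
  · rintro ⟨x, z⟩ h
    simp only [Finset.coe_product, Finset.coe_range, Set.mem_prod, Set.mem_Iio] at h
    refine ⟨(Nat.chineseRemainder hab x z : ℕ), ?_, ?_⟩
    · simp only [Finset.coe_range, Set.mem_Iio]
      exact Nat.chineseRemainder_lt_mul hab x z (by omega) (by omega)
    · have h1 := (Nat.chineseRemainder hab x z).2
      have h2 := h1.1
      have h3 := h1.2
      simp only [Prod.mk.injEq]
      refine ⟨?_, ?_⟩
      · have : (Nat.chineseRemainder hab x z : ℕ) % a = x % a := h2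
        rw [this, Nat.mod_eq_of_lt h.1]
      · have : (Nat.chineseRemainder hab x z : ℕ) % b = z % b := h3
        rw [this, Nat.mod_eq_of_lt h.2]
  · intro n _
    simp only
    rw [per_mod a u hu, per_mod b v hv]

end PerMeanAux

open PerMeanAux

theorem per_mean (P : ℕ) (hP : 1 ≤ P) (f g : ℕ → ℂ) (F G V : ℝ) (hf : ∀ n, f (n + P) = f n)
    (hF : ∀ n, ‖f n‖ ≤ F) (y : ℕ) (hG : ∀ n, ‖g n‖ ≤ G)
    (hV : ∑ n ∈ range y, ‖g (n + 1) - g n‖ ≤ V) :
    ‖∑ n ∈ Icc 1 y, f n * g n - av P f * ∑ n ∈ Icc 1 y, g n‖ ≤ 2 * P * F * (G + V) := by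
  have hP0 : (0 : ℝ) < P := by exact_mod_cast hP
  have hPc : (P : ℂ) ≠ 0 := by
    have : P ≠ 0 := by omega
    exact_mod_cast this
  have hF0 : 0 ≤ F := (norm_nonneg _).trans (hF 0)
  have hG0 : 0 ≤ G := (norm_nonneg _).trans (hG 0)
  set A := av P f with hA
  set a : ℕ → ℂ := fun n => f (n + 1) - A with ha
  have hAn : ‖A‖ ≤ F := by
    rw [hA]
    unfold av
    rw [norm_div, Complex.norm_natCast, div_le_iff₀ hP0]
    refine (norm_sum_le _ _).trans ?_
    refine (Finset.sum_le_sum fun n _ => hF n).trans ?_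
    rw [Finset.sum_const, Finset.card_range, nsmul_eq_mul]
    linarith [mul_comm F (P : ℝ)]
  have haper : ∀ n, a (n + P) = a n := by
    intro n
    simp only [ha]
    rw [show n + P + 1 = n + 1 + P by ring, hf]
  have hsum0 : ∑ n ∈ range P, a n = 0 := by
    simp only [ha]
    rw [Finset.sum_sub_distrib, sum_shift P f hf, Finset.sum_const, Finset.card_range,
      nsmul_eq_mul, hA]
    unfold av
    field_simp
    simp
  have han : ∀ n, ‖a n‖ ≤ 2 * F := by
    intro n
    simp only [ha]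
    refine (norm_sub_le _ _).trans ?_
    linarith [hF (n + 1)]
  have hT : ∀ m, ‖∑ n ∈ range m, a n‖ ≤ 2 * P * F := by
    intro m
    have h1 := per_sum P a haper (m / P) (m % P)
    rw [Nat.div_add_mod] at h1
    rw [h1, hsum0, mul_zero, zero_add]
    refine (norm_sum_le _ _).trans ?_
    refine (Finset.sum_le_sum fun n _ => han n).trans ?_
    rw [Finset.sum_const, Finset.card_range, nsmul_eq_mul]
    have h2 : ((m % P : ℕ) : ℝ) ≤ P := by exact_mod_cast (Nat.mod_lt m hP).le
    nlinarith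
  have hmain : ∑ n ∈ Icc 1 y, f n * g n - A * ∑ n ∈ Icc 1 y, g n
      = ∑ n ∈ range y, a n * g (n + 1) := by
    rw [sum_Icc_eq, sum_Icc_eq, Finset.mul_sum, ← Finset.sum_sub_distrib]
    refine Finset.sum_congr rfl fun n _ => ?_
    simp only [ha]
    ring
  rw [hmain, abel]
  refine (norm_sub_le _ _).trans ?_
  rw [norm_mul, mul_add]
  have h2PF : 0 ≤ 2 * (P : ℝ) * F := by positivity
  refine add_le_add ?_ ?_
  · exact mul_le_mul (hT y) (hG y) (norm_nonneg _) h2PF
  · refine (norm_sum_le _ _).trans ?_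
    calc ∑ n ∈ range y, ‖(∑ j ∈ range n, a j) * (g (n + 1) - g n)‖
        ≤ ∑ n ∈ range y, 2 * P * F * ‖g (n + 1) - g n‖ := by
          refine Finset.sum_le_sum fun n _ => ?_
          rw [norm_mul]
          exact mul_le_mul_of_nonneg_right (hT n) (norm_nonneg _)
      _ = 2 * P * F * ∑ n ∈ range y, ‖g (n + 1) - g n‖ := by rw [Finset.mul_sum]
      _ ≤ 2 * P * F * V := mul_le_mul_of_nonneg_left hV h2PF

theorem norm_av_le (P : ℕ) (f : ℕ → ℂ) (g : ℕ → ℝ) (h : ∀ n, ‖f n‖ ≤ g n) :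
    ‖av P f‖ ≤ (∑ n ∈ range P, g n) / P := by
  unfold av
  rw [norm_div, Complex.norm_natCast]
  refine div_le_div_of_nonneg_right ?_ (Nat.cast_nonneg _)
  exact (norm_sum_le _ _).trans (Finset.sum_le_sum fun n _ => h n)

theorem av_period (P m : ℕ) (hP : 1 ≤ P) (hm : 1 ≤ m) (f : ℕ → ℂ) (hf : ∀ n, f (n + P) = f n) :
    av (P * m) f = av P f := by
  unfold av
  have h1 := per_sum P f hf m 0
  rw [add_zero, Finset.range_zero, Finset.sum_empty, add_zero] at h1
  rw [h1]
  have hPc : (P : ℂ) ≠ 0 := by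
    have : P ≠ 0 := by omega
    exact_mod_cast this
  have hmc : (m : ℂ) ≠ 0 := by
    have : m ≠ 0 := by omega
    exact_mod_cast this
  push_cast
  field_simp

theorem av_prod (P : Finset ℕ) (hP : ∀ p ∈ P, p.Prime) (M : ℕ) (hM : 1 ≤ M)
    (hc : ∀ p ∈ P, M.Coprime p) (g : ℕ → ℂ) (hg : ∀ n, g (n + M) = g n) (f : ℕ → ℕ → ℂ)
    (hf : ∀ p ∈ P, ∀ n, f p (n + p) = f p n) :
    av (M * ∏ p ∈ P, p) (fun n => g n * ∏ p ∈ P, f p n) = av M g * ∏ p ∈ P, av p (f p) := by
  classical
  induction P using Finset.induction_on with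
  | empty => simp
  | insert p P hp ih =>
    have hP' : ∀ q ∈ P, q.Prime := fun q hq => hP q (Finset.mem_insert_of_mem hq)
    have hc' : ∀ q ∈ P, M.Coprime q := fun q hq => hc q (Finset.mem_insert_of_mem hq)
    have hf' : ∀ q ∈ P, ∀ n, f q (n + q) = f q n := fun q hq => hf q (Finset.mem_insert_of_mem hq)
    have ih' := ih hP' hc' hf'
    have hpp : p.Prime := hP p (Finset.mem_insert_self _ _)
    have hprod_pos : 0 < ∏ q ∈ P, q := Finset.prod_pos fun q hq => (hP' q hq).pos
    have hM' : 1 ≤ M * ∏ q ∈ P, q := Nat.mul_pos hM hprod_pos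
    have hcop : (M * ∏ q ∈ P, q).Coprime p := by
      refine Nat.Coprime.mul_left (hc p (Finset.mem_insert_self _ _)) ?_
      refine Nat.Coprime.prod_left fun q hq => ?_
      refine (Nat.coprime_primes (hP' q hq) hpp).mpr ?_
      rintro rfl
      exact hp hq
    have hper : ∀ n, (fun n => g n * ∏ q ∈ P, f q n) (n + M * ∏ q ∈ P, q)
        = (fun n => g n * ∏ q ∈ P, f q n) n := by
      intro n
      simp only
      congr 1
      · rw [per_mul M g hg]
      · refine Finset.prod_congr rfl fun q hq => ?_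
        obtain ⟨t, ht⟩ : q ∣ M * ∏ q ∈ P, q := (Finset.dvd_prod_of_mem (fun q => q) hq).mul_left M
        rw [ht, per_mul q (f q) (hf' q hq)]
    have hkey := sum_mul_coprime (M * ∏ q ∈ P, q) p hM' hpp.one_lt.le hcop
      (fun n => g n * ∏ q ∈ P, f q n) (f p) hper (hf p (Finset.mem_insert_self _ _))
    rw [Finset.prod_insert hp, Finset.prod_insert hp]
    have hre : M * (p * ∏ q ∈ P, q) = (M * ∏ q ∈ P, q) * p := by ring
    rw [hre]
    have hfun : (fun n => g n * ∏ q ∈ insert p P, f q n)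
        = fun n => (g n * ∏ q ∈ P, f q n) * f p n := by
      funext n
      rw [Finset.prod_insert hp]
      ring
    rw [hfun]
    have h2 : av ((M * ∏ q ∈ P, q) * p) (fun n => (g n * ∏ q ∈ P, f q n) * f p n)
        = av (M * ∏ q ∈ P, q) (fun n => g n * ∏ q ∈ P, f q n) * av p (f p) := by
      unfold av
      rw [hkey]
      push_cast
      rw [div_mul_div_comm]
    rw [h2, ih']
    ring

end Pool.Agent.Lib.GMV
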