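import Pool.Agent.Lib.GMV.TailA

/-!
# GMV.Tail: the tail is at most `Q^(-3/2)` (paper 4.2)

PROOF. `tailA` with `Y = Q^(8k)`: `Y^(-1/(4k)) = Q^(-2)`. `rho x ≤ 1 + log₂ (md x) ≤ 2 + 2 log X` (`n/φ(n) ≤ 1 + log₂ n`: the
`j`-th prime factor is `≥ j+1`, so `∏_{p ∣ n} p/(p-1) ≤ ∏_{j ≤ ω} (j+1)/j = ω + 1`). `m = Del h ∏ md (x i) ≠ 0` (`h` injective),
`m ≤ X^(k²+k)`, so `∏_{p ∣ m} (1 + C p^(-3/4)) ≤ exp (C ∑_{p ∣ m} p^(-3/4))`, and
`∑_{p ∣ m} p^(-3/4) ≤ ∑_{j ≤ ω(m)} j^(-3/4) ≤ 4 ω(m)^(1/4)`, `ω(m) ≤ log₂ m`; `∏_p (1 + C p^(-7/4)) ≤ exp (C ∑ n^(-7/4))`.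
Total: `Q^(-2) exp(C' (log X)^(1/4) + C')(2 + 2 log X)^k ≤ Q^(-3/2)` for `X ≥ X0`, because `log Q ≥ √(log X)/2` (`Rg`).
-/

set_option autoImplicit false

open Finset Filter

namespace Pool.Agent.Lib.GMV

open Pool.Agent.HLB Pool.Agent.HLT Pool.Agent.HLR

namespace TailAux

lemma sum_rpow (S : Finset ℕ) : (∀ p ∈ S, 1 ≤ p) →
    ∑ p ∈ S, (p : ℝ) ^ (-(3 / 4 : ℝ)) ≤ 4 * (S.card : ℝ) ^ (1 / 4 : ℝ) := by
  classical
  induction S using Finset.induction_on_max with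
  | empty => intro _; simp
  | insert a s ha ih =>
    intro hS
    have hna : a ∉ s := fun h => lt_irrefl _ (ha a h)
    rw [sum_insert hna, card_insert_of_notMem hna]
    have h1 := ih (fun p hp => hS p (mem_insert_of_mem hp))
    have ha1 : 1 ≤ a := hS a (mem_insert_self _ _)
    have hsub : s ⊆ Ico 1 a := by
      intro p hp
      rw [mem_Ico]
      exact ⟨hS p (mem_insert_of_mem hp), ha p hp⟩
    have hc := card_le_card hsub
    rw [Nat.card_Ico] at hc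
    have hc2 : s.card + 1 ≤ a := by omega
    set n : ℝ := (s.card : ℝ) + 1 with hn
    have hn1 : 1 ≤ n := by
      have : (0 : ℝ) ≤ s.card := Nat.cast_nonneg _
      linarith
    have hn0 : 0 < n := by linarith
    have hna' : n ≤ (a : ℝ) := by rw [hn]; exact_mod_cast hc2
    have h2 : (a : ℝ) ^ (-(3 / 4 : ℝ)) ≤ n ^ (-(3 / 4 : ℝ)) :=
      Real.rpow_le_rpow_of_nonpos hn0 hna' (by norm_num)
    have h3 : (s.card : ℝ) = n * (1 + (-(1 / n))) := by
      rw [hn]; field_simp; ring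
    have h4 : (1 + (-(1 / n))) ^ (1 / 4 : ℝ) ≤ 1 + (1 / 4) * (-(1 / n)) := by
      refine rpow_one_add_le_one_add_mul_self ?_ (by norm_num) (by norm_num)
      rw [neg_le_neg_iff, div_le_one hn0]
      exact hn1
    have h5 : 0 ≤ 1 + (-(1 / n)) := by
      have : 1 / n ≤ 1 := by rw [div_le_one hn0]; exact hn1
      linarith
    have h6 : (s.card : ℝ) ^ (1 / 4 : ℝ) ≤ n ^ (1 / 4 : ℝ) * (1 + (1 / 4) * (-(1 / n))) := by
      rw [h3, Real.mul_rpow hn0.le h5]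
      exact mul_le_mul_of_nonneg_left h4 (Real.rpow_nonneg hn0.le _)
    have h7 : n ^ (1 / 4 : ℝ) * (1 / n) = n ^ (-(3 / 4 : ℝ)) := by
      rw [one_div n, ← Real.rpow_neg_one, ← Real.rpow_add hn0]
      norm_num
    have h8 : ((s.card + 1 : ℕ) : ℝ) = n := by rw [hn, Nat.cast_add, Nat.cast_one]
    rw [h8]
    calc (a : ℝ) ^ (-(3 / 4 : ℝ)) + ∑ p ∈ s, (p : ℝ) ^ (-(3 / 4 : ℝ))
        ≤ n ^ (-(3 / 4 : ℝ)) + 4 * (n ^ (1 / 4 : ℝ) * (1 + (1 / 4) * (-(1 / n)))) := by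
          linarith
      _ = 4 * n ^ (1 / 4 : ℝ) := by
          rw [← h7]; ring

lemma card_le (q : ℕ) (hq : 1 ≤ q) :
    (q.primeFactors.card : ℝ) ≤ 2 * Real.log q := by
  have h1 : 2 ^ q.primeFactors.card ≤ q := by
    calc 2 ^ q.primeFactors.card ≤ ∏ p ∈ q.primeFactors, p :=
          Finset.pow_card_le_prod _ _ _ fun p hp => (Nat.prime_of_mem_primeFactors hp).two_le
      _ ≤ q := Nat.le_of_dvd (by omega) (Nat.prod_primeFactors_dvd q)
  have h2 : ((2:ℝ) ^ q.primeFactors.card) ≤ q := by exact_mod_cast h1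
  have h3 := Real.log_le_log (by positivity) h2
  rw [Real.log_pow] at h3
  have h4 : (1:ℝ)/2 ≤ Real.log 2 := by linarith [Real.log_two_gt_d9]
  have h5 : (q.primeFactors.card : ℝ) * (1/2) ≤ (q.primeFactors.card : ℝ) * Real.log 2 :=
    mul_le_mul_of_nonneg_left h4 (Nat.cast_nonneg _)
  linarith

lemma sum_pf (n : ℕ) (hn : 1 ≤ n) :
    ∑ p ∈ n.primeFactors, (p : ℝ) ^ (-(3 / 4 : ℝ)) ≤ 4 * (2 * Real.log n) ^ (1 / 4 : ℝ) := by
  refine (sum_rpow _ fun p hp => (Nat.prime_of_mem_primeFactors hp).one_lt.le).trans ?_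
  refine mul_le_mul_of_nonneg_left ?_ (by norm_num)
  exact Real.rpow_le_rpow (Nat.cast_nonneg _) (card_le n hn) (by norm_num)

lemma ratio_le (n : ℕ) (hn : 1 ≤ n) :
    (n : ℝ) / n.totient ≤ Real.exp (8 * (2 * Real.log n) ^ (1 / 4 : ℝ)) := by
  have h0 : (n.totient : ℝ) = n * ∏ p ∈ n.primeFactors, (1 - ((p : ℝ))⁻¹) := by
    have := Nat.totient_eq_mul_prod_factors n
    have h2 : ((n.totient : ℚ) : ℝ) = ((n * ∏ p ∈ n.primeFactors, (1 - ((p : ℚ))⁻¹) : ℚ) : ℝ) := by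
      rw [this]
    push_cast at h2
    exact h2
  have hn0 : (n : ℝ) ≠ 0 := by positivity
  have h1 : (n : ℝ) / n.totient = ∏ p ∈ n.primeFactors, (1 - ((p : ℝ))⁻¹)⁻¹ := by
    rw [h0, prod_inv_distrib, div_mul_eq_div_div, div_self hn0, one_div]
  rw [h1]
  have h2 : ∏ p ∈ n.primeFactors, (1 - ((p : ℝ))⁻¹)⁻¹ ≤
      ∏ p ∈ n.primeFactors, Real.exp (2 * (p : ℝ) ^ (-(3 / 4 : ℝ))) := by
    refine prod_le_prod (fun p hp => ?_) (fun p hp => ?_)
    · have hp2 : (2 : ℝ) ≤ p := by exact_mod_cast (Nat.prime_of_mem_primeFactors hp).two_le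
      have : (p : ℝ)⁻¹ ≤ 2⁻¹ := inv_anti₀ (by norm_num) hp2
      exact inv_nonneg.mpr (by linarith)
    · have hp2 : (2 : ℝ) ≤ p := by exact_mod_cast (Nat.prime_of_mem_primeFactors hp).two_le
      have hu : (p : ℝ)⁻¹ ≤ 2⁻¹ := inv_anti₀ (by norm_num) hp2
      have hu0 : 0 ≤ (p : ℝ)⁻¹ := by positivity
      have h3 : (1 - ((p : ℝ))⁻¹)⁻¹ ≤ 1 + 2 * (p : ℝ)⁻¹ := by
        rw [inv_le_comm₀ (by linarith) (by linarith)]
        rw [inv_le_iff_one_le_mul₀ (by linarith)]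
        nlinarith
      have h4 : (p : ℝ)⁻¹ ≤ (p : ℝ) ^ (-(3 / 4 : ℝ)) := by
        rw [← Real.rpow_neg_one]
        exact Real.rpow_le_rpow_of_exponent_le (by linarith) (by norm_num)
      calc (1 - ((p : ℝ))⁻¹)⁻¹ ≤ 1 + 2 * (p : ℝ)⁻¹ := h3
        _ ≤ 2 * (p : ℝ) ^ (-(3 / 4 : ℝ)) + 1 := by linarith
        _ ≤ _ := Real.add_one_le_exp _
  refine h2.trans ?_
  rw [← Real.exp_sum, ← mul_sum]
  refine Real.exp_le_exp.mpr ?_
  have := sum_pf n hn
  linarith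

lemma prod_bd (C : ℝ) (hC : 0 < C) (m Y : ℕ) (hm : 1 ≤ m) :
    ∏ p ∈ Nat.primesLE Y, (if p ∣ m then 1 + C * (p : ℝ) ^ (-(3 / 4 : ℝ))
        else 1 + C * (p : ℝ) ^ (-(7 / 4 : ℝ))) ≤
      Real.exp (C * (4 * (2 * Real.log m) ^ (1 / 4 : ℝ)) +
        C * ∑' n : ℕ, (n : ℝ) ^ (-(7 / 4 : ℝ))) := by
  have h1 : ∏ p ∈ Nat.primesLE Y, (if p ∣ m then 1 + C * (p : ℝ) ^ (-(3 / 4 : ℝ))
        else 1 + C * (p : ℝ) ^ (-(7 / 4 : ℝ))) ≤
      ∏ p ∈ Nat.primesLE Y, Real.exp (C * (if p ∣ m then (p : ℝ) ^ (-(3 / 4 : ℝ)) else 0) +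
        C * (p : ℝ) ^ (-(7 / 4 : ℝ))) := by
    refine prod_le_prod (fun p hp => ?_) (fun p hp => ?_)
    · split_ifs <;> positivity
    · have e1 : 0 ≤ (p : ℝ) ^ (-(3 / 4 : ℝ)) := by positivity
      have e2 : 0 ≤ (p : ℝ) ^ (-(7 / 4 : ℝ)) := by positivity
      split_ifs
      · refine le_trans ?_ (Real.add_one_le_exp _)
        nlinarith [mul_nonneg hC.le e2]
      · refine le_trans ?_ (Real.add_one_le_exp _)
        nlinarith [mul_nonneg hC.le e2]
  refine h1.trans ?_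
  rw [← Real.exp_sum]
  refine Real.exp_le_exp.mpr ?_
  rw [sum_add_distrib, ← mul_sum, ← mul_sum]
  refine add_le_add (mul_le_mul_of_nonneg_left ?_ hC.le) (mul_le_mul_of_nonneg_left ?_ hC.le)
  · rw [← sum_filter]
    refine le_trans (sum_le_sum_of_subset_of_nonneg ?_ ?_) (sum_pf m hm)
    · intro p hp
      rw [mem_filter] at hp
      rw [Nat.mem_primeFactors]
      exact ⟨(Nat.mem_primesLE.mp hp.1).2, hp.2, by omega⟩
    · intro p _ _
      positivity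
  · refine Summable.sum_le_tsum _ (fun p _ => by positivity) ?_
    exact Real.summable_nat_rpow.mpr (by norm_num)

lemma Del_pos {k : ℕ} (h : Fin k → ℕ) (hi : Function.Injective h) : 1 ≤ Del h := by
  rw [Nat.one_le_iff_ne_zero]
  unfold Del
  rw [prod_ne_zero_iff]
  intro i _
  rw [prod_ne_zero_iff]
  intro j hj
  rw [mem_filter] at hj
  have : h i ≠ h j := fun e => absurd (hi e) (ne_of_lt hj.2)
  omega

lemma Del_le {k : ℕ} (X : ℕ) (h : Fin k → ℕ) (hX : ∀ i, 1 ≤ h i ∧ h i ≤ X) (hX1 : 1 ≤ X) :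
    Del h ≤ X ^ (k * k) := by
  unfold Del
  have h1 : ∀ i : Fin k, ∏ j ∈ univ.filter (fun j => i < j), ((h i : ℤ) - h j).natAbs ≤ X ^ k := by
    intro i
    calc ∏ j ∈ univ.filter (fun j => i < j), ((h i : ℤ) - h j).natAbs
        ≤ X ^ (univ.filter (fun j => i < j)).card := by
          refine prod_le_pow_card _ _ _ ?_
          intro j _
          have := hX i; have := hX j
          omega
      _ ≤ X ^ k := by
          refine Nat.pow_le_pow_right hX1 ?_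
          have := card_le_card (filter_subset (fun j => i < j) (univ : Finset (Fin k)))
          simpa using this
  calc ∏ i, ∏ j ∈ univ.filter (fun j => i < j), ((h i : ℤ) - h j).natAbs
      ≤ ∏ _i : Fin k, X ^ k := prod_le_prod' fun i _ => h1 i
    _ = X ^ (k * k) := by
        rw [prod_const, card_univ, Fintype.card_fin, pow_mul]

end TailAux

open TailAux in
theorem tail (k : ℕ) (hk : 1 ≤ k) : ∃ X0 : ℕ, ∀ X Q : ℕ, X0 ≤ X → Rg 1 X Q →
    ∀ (x : Fin k → CI) (h : Fin k → ℕ), (∀ i, x i ∈ Ch Q) → h ∈ Tup k (Icc 1 X) →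
    Function.Injective h →
    ‖TY (Q ^ (8 * k)) x h - TP (Q ^ (8 * k)) x h‖ ≤ (Q : ℝ) ^ (-(3 / 2 : ℝ)) := by
  obtain ⟨C, hC, hA⟩ := tailA k hk
  set Zt : ℝ := ∑' n : ℕ, (n : ℝ) ^ (-(7 / 4 : ℝ)) with hZt
  have hZ0 : 0 ≤ Zt := tsum_nonneg fun n => by positivity
  have hk0 : (0 : ℝ) < k := by exact_mod_cast hk
  have hk1 : (1 : ℝ) ≤ k := by exact_mod_cast hk
  set K1 : ℝ := 16 * k + 8 * C * (k * k + k) with hK1
  have hK10 : 0 < K1 := by positivity
  set u0 : ℝ := 4 * (K1 + C * Zt + 1) with hu0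
  have hu0p : 1 ≤ u0 := by
    have : 0 ≤ C * Zt := by positivity
    linarith
  refine ⟨⌈Real.exp (u0 ^ 4)⌉₊, ?_⟩
  intro X Q hX hRg x h hx hh hinj
  have hXe : Real.exp (u0 ^ 4) ≤ (X : ℝ) := Nat.ceil_le.mp hX
  have hX0 : (0 : ℝ) < X := lt_of_lt_of_le (Real.exp_pos _) hXe
  have hX1 : 1 ≤ X := by exact_mod_cast hX0
  set L : ℝ := Real.log X with hL
  have hLu : u0 ^ 4 ≤ L := by rw [hL, Real.le_log_iff_exp_le hX0]; exact hXe
  have hL0 : 0 < L := lt_of_lt_of_le (by positivity) hLu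
  set u : ℝ := L ^ (1 / 4 : ℝ) with hu
  have huu : u0 ≤ u := by
    have : u0 = (u0 ^ 4) ^ (1 / 4 : ℝ) := by
      rw [← Real.rpow_natCast, ← Real.rpow_mul (by linarith)]
      norm_num
    rw [this, hu]
    exact Real.rpow_le_rpow (by positivity) hLu (by norm_num)
  have husq : u ^ 2 = Real.sqrt L := by
    rw [hu, ← Real.rpow_natCast, ← Real.rpow_mul hL0.le, Real.sqrt_eq_rpow]
    norm_num
  obtain ⟨hR1, hR2⟩ := hRg
  rw [Real.rpow_one] at hR2
  have hQ0 : (0 : ℝ) < Q := lt_of_lt_of_le (Real.exp_pos _) hR1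
  have hQ1 : 1 ≤ Q := by exact_mod_cast hQ0
  have hlQ : Real.sqrt L / 2 ≤ Real.log Q := by
    rw [Real.le_log_iff_exp_le hQ0]; exact hR1
  have hlQX : Real.log Q ≤ L := Real.log_le_log hQ0 hR2
  have hQX : Q ≤ X := by exact_mod_cast hR2
  have hh' : ∀ i, 1 ≤ h i ∧ h i ≤ X := by
    intro i
    have := (Fintype.mem_piFinset.mp hh) i
    rw [mem_Icc] at this
    exact this
  have hmd : ∀ i, md (x i) ≤ Q := fun i => (mem_Ch.mp (hx i)).1
  -- the product of the `rho`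
  have hrho : ∏ i, rho (x i) ≤ Real.exp (k * (16 * u)) := by
    calc ∏ i, rho (x i) ≤ ∏ _i : Fin k, Real.exp (16 * u) := by
          refine prod_le_prod (fun i _ => by unfold rho; positivity) (fun i _ => ?_)
          refine (ratio_le (md (x i)) (md_pos _)).trans (Real.exp_le_exp.mpr ?_)
          have h1 : Real.log (md (x i)) ≤ L := by
            refine Real.log_le_log (by exact_mod_cast md_pos _) ?_
            exact_mod_cast (hmd i).trans hQX
          have h2 : 0 ≤ Real.log (md (x i)) := Real.log_nonneg (by exact_mod_cast md_pos _)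
          have h3 : (2 * Real.log (md (x i))) ^ (1 / 4 : ℝ) ≤ 2 * u := by
            calc (2 * Real.log (md (x i))) ^ (1 / 4 : ℝ) ≤ (2 * L) ^ (1 / 4 : ℝ) :=
                  Real.rpow_le_rpow (by positivity) (by linarith) (by norm_num)
              _ = (2 : ℝ) ^ (1 / 4 : ℝ) * u := by rw [Real.mul_rpow (by norm_num) hL0.le]
              _ ≤ 2 * u := by
                  refine mul_le_mul_of_nonneg_right ?_ (by positivity)
                  calc (2 : ℝ) ^ (1 / 4 : ℝ) ≤ (2 : ℝ) ^ (1 : ℝ) :=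
                        Real.rpow_le_rpow_of_exponent_le (by norm_num) (by norm_num)
                    _ = 2 := Real.rpow_one _
          linarith
      _ = Real.exp (k * (16 * u)) := by
          rw [prod_const, card_univ, Fintype.card_fin, ← Real.exp_nat_mul]
  -- the modulus
  set m : ℕ := Del h * ∏ i, md (x i) with hm
  have hm1 : 1 ≤ m := by
    rw [hm]
    refine Nat.mul_pos (Del_pos h hinj) ?_
    exact prod_pos fun i _ => md_pos _
  have hmX : m ≤ X ^ (k * k + k) := by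
    rw [hm, pow_add]
    refine Nat.mul_le_mul (Del_le X h hh' hX1) ?_
    calc ∏ i, md (x i) ≤ ∏ _i : Fin k, X := prod_le_prod' fun i _ => (hmd i).trans hQX
      _ = X ^ k := by rw [prod_const, card_univ, Fintype.card_fin]
  have hlm : Real.log m ≤ (k * k + k) * L := by
    have h1 : (m : ℝ) ≤ (X : ℝ) ^ (k * k + k) := by exact_mod_cast hmX
    have h2 := Real.log_le_log (by exact_mod_cast hm1) h1
    rw [Real.log_pow] at h2
    push_cast at h2
    exact h2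
  have hlm0 : 0 ≤ Real.log m := Real.log_nonneg (by exact_mod_cast hm1)
  have hP := prod_bd C hC m (Q ^ (8 * k)) hm1
  have hm4 : (2 * Real.log m) ^ (1 / 4 : ℝ) ≤ 2 * (k * k + k) * u := by
    have hkk : (1 : ℝ) ≤ 2 * (k * k + k) := by nlinarith
    calc (2 * Real.log m) ^ (1 / 4 : ℝ) ≤ ((2 * (k * k + k)) * L) ^ (1 / 4 : ℝ) := by
          refine Real.rpow_le_rpow (by positivity) ?_ (by norm_num)
          linarith
      _ = (2 * (k * k + k) : ℝ) ^ (1 / 4 : ℝ) * u := by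
          rw [Real.mul_rpow (by positivity) hL0.le]
      _ ≤ 2 * (k * k + k) * u := by
          refine mul_le_mul_of_nonneg_right ?_ (by positivity)
          calc (2 * (k * k + k) : ℝ) ^ (1 / 4 : ℝ) ≤ (2 * (k * k + k) : ℝ) ^ (1 : ℝ) :=
                Real.rpow_le_rpow_of_exponent_le hkk (by norm_num)
            _ = _ := Real.rpow_one _
  have hP2 : ∏ p ∈ Nat.primesLE (Q ^ (8 * k)), (if p ∣ m then 1 + C * (p : ℝ) ^ (-(3 / 4 : ℝ))
        else 1 + C * (p : ℝ) ^ (-(7 / 4 : ℝ))) ≤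
      Real.exp (8 * C * (k * k + k) * u + C * Zt) := by
    refine hP.trans (Real.exp_le_exp.mpr ?_)
    have := mul_le_mul_of_nonneg_left hm4 (show (0 : ℝ) ≤ 4 * C by positivity)
    linarith
  have hP0 : 0 ≤ ∏ p ∈ Nat.primesLE (Q ^ (8 * k)), (if p ∣ m then 1 + C * (p : ℝ) ^ (-(3 / 4 : ℝ))
        else 1 + C * (p : ℝ) ^ (-(7 / 4 : ℝ))) := by
    refine prod_nonneg fun p _ => ?_
    split_ifs <;> positivity
  -- the power of `Y`
  have hY : ((Q ^ (8 * k) : ℕ) : ℝ) ^ (-(1 / (4 * k : ℝ))) = Real.exp (-(2 * Real.log Q)) := by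
    rw [Real.rpow_def_of_pos (by positivity)]
    congr 1
    push_cast
    rw [Real.log_pow]
    push_cast
    field_simp
    ring
  have hrho0 : 0 ≤ ∏ i, rho (x i) := prod_nonneg fun i _ => by unfold rho; positivity
  have hmain := hA (Q ^ (8 * k)) x h (Nat.one_le_pow _ _ hQ1)
  rw [hY, ← hm] at hmain
  refine hmain.trans ?_
  have h1 : Real.exp (-(2 * Real.log Q)) * (∏ i, rho (x i)) *
      ∏ p ∈ Nat.primesLE (Q ^ (8 * k)), (if p ∣ m then 1 + C * (p : ℝ) ^ (-(3 / 4 : ℝ))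
        else 1 + C * (p : ℝ) ^ (-(7 / 4 : ℝ))) ≤
      Real.exp (-(2 * Real.log Q)) * Real.exp (k * (16 * u)) *
        Real.exp (8 * C * (k * k + k) * u + C * Zt) := by
    refine mul_le_mul (mul_le_mul_of_nonneg_left hrho (Real.exp_pos _).le) hP2 hP0 (by positivity)
  refine h1.trans ?_
  rw [← Real.exp_add, ← Real.exp_add, Real.rpow_def_of_pos hQ0]
  refine Real.exp_le_exp.mpr ?_
  have hu1 : 1 ≤ u := hu0p.trans huu
  have hCZ : 0 ≤ C * Zt := by positivity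
  have h2 : K1 * u + C * Zt ≤ u ^ 2 / 4 := by
    have h3 : u * u0 ≤ u * u := mul_le_mul_of_nonneg_left huu (by linarith)
    have h4 : C * Zt ≤ C * Zt * u := le_mul_of_one_le_right hCZ hu1
    rw [hu0] at h3
    nlinarith
  have h5 : u ^ 2 / 4 ≤ Real.log Q / 2 := by rw [husq]; linarith
  have h6 : (k : ℝ) * (16 * u) + 8 * C * (k * k + k) * u = K1 * u := by rw [hK1]; ring
  linarith

end Pool.Agent.Lib.GMV
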