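import Pool.Agent.Lib.GMV.Comb

/-!
# GMV.TailA: the tail of the local model, prime by prime (paper 4.2)

PROOF. `P = primesLE Y`, `Rr = ∏ md (x i)`. `TY - TP = - ∑` over the tuples `S ∈ ∏ Sa Y (md (x i))` with some `∏ S i > Y`, so
`‖TY - TP‖ ≤ Y^(-θ) ∑_{S} ∏_i (∏ S i)^θ ‖av (P0 Y x) (fS x S h)‖`, `θ = 1/(4k)` (all `(∏ S i)^θ ≥ 1`).
For such an `S` let `Bd = {p ∈ P : p ∣ Del h Rr}`, `Gd = P \ Bd`, `I_p = {i : p ∈ S i}`. `fS x S h n = g n ∏_{p ∈ Gd} ∏_{i ∈ I_p} wp p (n+h i)`,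
`g n = ∏ rho conj(cv) · ∏_{p ∈ Bd} ∏_{i ∈ I_p} wp p (n + h i)` of period `M = Rr ∏ Bd`, coprime to the primes of `Gd`
(`P0 Y x = M ∏ Gd`), `av_prod`: mean `= av M g · ∏_{p∈Gd} av p (...)`. And `‖g n‖ ≤ ∏ rho · ∏_{p∈Bd} ∏_{i∈I_p} |wp p (n+h i)|`,
of period `∏ Bd`, so `‖av M g‖ ≤ ∏ rho ∏_{p∈Bd} (mean of |...|)` (`av_period`, `av_prod`). Now extend the sum to all tuples of
subsets of `P` (terms nonnegative), `∏_i (∏ S i)^θ = ∏_{p∈P} p^(θ |I_p|)`, and `tensor`; then `loc_bad` for the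
`p ∣ Rr Del h`, `loc_good` for the others.
-/

set_option autoImplicit false

open Finset Filter

namespace Pool.Agent.Lib.GMV

open Pool.Agent.HLB Pool.Agent.HLT Pool.Agent.HLR

namespace TailAAux

/-- The bound for one prime. -/
noncomputable def bp {k : ℕ} (D : ℕ) (h : Fin k → ℕ) (p : ℕ) (I : Finset (Fin k)) : ℝ :=
  if p ∣ D then (∑ n ∈ range p, ∏ i ∈ I, |wp p (n + h i)|) / p
  else ‖av p (fun n => ((∏ i ∈ I, wp p (n + h i) : ℝ) : ℂ))‖

lemma bp_nonneg {k : ℕ} (D : ℕ) (h : Fin k → ℕ) (p : ℕ) (I : Finset (Fin k)) : 0 ≤ bp D h p I := by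
  unfold bp
  split_ifs
  · exact div_nonneg (sum_nonneg fun n _ => prod_nonneg fun i _ => abs_nonneg _) (Nat.cast_nonneg _)
  · exact norm_nonneg _

lemma swap {k : ℕ} {R : Type*} [CommMonoid R] (P : Finset ℕ) (S : Fin k → Finset ℕ)
    (hS : ∀ i, S i ⊆ P) (w : ℕ → Fin k → R) :
    ∏ i, ∏ p ∈ S i, w p i = ∏ p ∈ P, ∏ i ∈ univ.filter (fun i => p ∈ S i), w p i := by
  classical
  refine Finset.prod_comm' fun i p => ?_
  simp only [mem_univ, true_and, mem_filter]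
  exact ⟨fun h => ⟨h, hS i h⟩, fun h => h.1⟩

lemma wp_per {p M : ℕ} (hM : p ∣ M) (n a : ℕ) : wp p (n + M + a) = wp p (n + a) := by
  have h1 : n + M + a = (n + a) + M := by ring
  have h2 : p ∣ n + M + a ↔ p ∣ n + a := by
    rw [h1]
    exact Nat.dvd_add_left hM
  unfold wp
  simp only [h2]

lemma cv_per {x : CI} {M : ℕ} (hM : md x ∣ M) (n a : ℕ) : cv x (n + M + a) = cv x (n + a) := by
  obtain ⟨j, rfl⟩ := hM
  have h1 : n + md x * j + a = (n + a) + md x * j := by ring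
  rw [h1, cv_periodic]

lemma rho_nonneg (x : CI) : 0 ≤ rho x := by
  unfold rho
  positivity

/-- The mean of a product over a set of primes, real version. -/
lemma mean_prod {k : ℕ} (B : Finset ℕ) (hB : ∀ p ∈ B, p.Prime) (Rr : ℕ) (hR : 1 ≤ Rr)
    (h : Fin k → ℕ) (I : ℕ → Finset (Fin k)) (c : ℝ) :
    (∑ n ∈ range (Rr * ∏ p ∈ B, p), c * ∏ p ∈ B, ∏ i ∈ I p, |wp p (n + h i)|) /
      ((Rr * ∏ p ∈ B, p : ℕ) : ℝ) =
    c * ∏ p ∈ B, ((∑ n ∈ range p, ∏ i ∈ I p, |wp p (n + h i)|) / p) := by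
  classical
  have hper : ∀ p ∈ B, ∀ n : ℕ, (((∏ i ∈ I p, |wp p ((n + p) + h i)| : ℝ)) : ℂ) =
      ((∏ i ∈ I p, |wp p (n + h i)| : ℝ) : ℂ) := by
    intro p _ n
    congr 1
    refine prod_congr rfl fun i _ => ?_
    rw [wp_per (dvd_refl p)]
  have hB1 : 1 ≤ ∏ p ∈ B, p := Finset.one_le_prod' fun p hp => (hB p hp).one_lt.le
  have h1 := av_prod B hB 1 le_rfl (fun p _ => Nat.coprime_one_left p) (fun _ => (c : ℂ))
    (fun _ => rfl) (fun p n => ((∏ i ∈ I p, |wp p (n + h i)| : ℝ) : ℂ)) hper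
  rw [one_mul] at h1
  have h2 := av_period (∏ p ∈ B, p) Rr hB1 hR
    (fun n => (c : ℂ) * ∏ p ∈ B, ((∏ i ∈ I p, |wp p (n + h i)| : ℝ) : ℂ)) (by
      intro n
      show (c : ℂ) * _ = (c : ℂ) * _
      congr 1
      refine prod_congr rfl fun p hp => ?_
      congr 1
      refine prod_congr rfl fun i _ => ?_
      rw [wp_per (dvd_prod_of_mem (fun p => p) hp)])
  rw [h1, mul_comm] at h2
  have h3 : av 1 (fun _ => (c : ℂ)) = c := by
    unfold av
    simp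
  rw [h3] at h2
  unfold av at h2
  have h4 : (((∑ n ∈ range (Rr * ∏ p ∈ B, p), c * ∏ p ∈ B, ∏ i ∈ I p, |wp p (n + h i)|) /
      ((Rr * ∏ p ∈ B, p : ℕ) : ℝ) : ℝ) : ℂ) =
    ((c * ∏ p ∈ B, ((∑ n ∈ range p, ∏ i ∈ I p, |wp p (n + h i)|) / p) : ℝ) : ℂ) := by
    push_cast at h2 ⊢
    exact h2
  exact_mod_cast h4

/-- The bound for one tuple. -/
lemma term_bd {k : ℕ} (Y : ℕ) (x : Fin k → CI) (S : Fin k → Finset ℕ) (h : Fin k → ℕ)
    (hS : ∀ i, S i ⊆ Nat.primesLE Y) :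
    ‖av (P0 Y x) (fS x S h)‖ ≤ (∏ i, rho (x i)) *
      ∏ p ∈ Nat.primesLE Y, bp (Del h * ∏ i, md (x i)) h p (univ.filter fun i => p ∈ S i) := by
  classical
  set D := Del h * ∏ i, md (x i) with hD
  set P := Nat.primesLE Y with hP
  set Rr := ∏ i, md (x i) with hRr
  set I : ℕ → Finset (Fin k) := fun p => univ.filter fun i => p ∈ S i with hI
  set Bd := P.filter (fun p => p ∣ D) with hBd
  set Gd := P.filter (fun p => ¬ p ∣ D) with hGd
  set M := Rr * ∏ p ∈ Bd, p with hM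
  have hprime : ∀ p ∈ P, p.Prime := fun p hp => (Nat.mem_primesLE.mp hp).2
  have hBp : ∀ p ∈ Bd, p.Prime := fun p hp => hprime p (mem_filter.mp hp).1
  have hGp : ∀ p ∈ Gd, p.Prime := fun p hp => hprime p (mem_filter.mp hp).1
  have hR1 : 1 ≤ Rr := Finset.one_le_prod' fun i _ => md_pos (x i)
  have hB1 : 1 ≤ ∏ p ∈ Bd, p := Finset.one_le_prod' fun p hp => (hBp p hp).one_lt.le
  have hM1 : 1 ≤ M := Nat.mul_pos hR1 hB1
  have hP0 : P0 Y x = M * ∏ p ∈ Gd, p := by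
    unfold P0
    rw [← prod_filter_mul_prod_filter_not P (fun p => p ∣ D) (fun p => p), ← mul_assoc]
  set F : ℕ → ℕ → ℂ := fun p n => ((∏ i ∈ I p, wp p (n + h i) : ℝ) : ℂ) with hF
  set A : ℕ → ℂ := fun n => ∏ i, ((rho (x i) : ℂ) * (starRingEnd ℂ) (cv (x i) (n + h i))) with hA
  set g : ℕ → ℂ := fun n => A n * ∏ p ∈ Bd, F p n with hg
  have hfS : ∀ n, fS x S h n = g n * ∏ p ∈ Gd, F p n := by
    intro n
    have e1 : fS x S h n = A n * ∏ i, ∏ p ∈ S i, ((wp p (n + h i) : ℝ) : ℂ) := by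
      unfold fS
      rw [prod_mul_distrib]
      congr 1
      refine prod_congr rfl fun i _ => ?_
      push_cast
      rfl
    have e2 : ∏ i, ∏ p ∈ S i, ((wp p (n + h i) : ℝ) : ℂ) = ∏ p ∈ P, F p n := by
      rw [swap P S hS (fun p i => ((wp p (n + h i) : ℝ) : ℂ))]
      refine prod_congr rfl fun p _ => ?_
      rw [hF]
      push_cast
      rfl
    rw [e1, e2, ← prod_filter_mul_prod_filter_not P (fun p => p ∣ D) (fun p => F p n), ← mul_assoc]
  have hgper : ∀ n, g (n + M) = g n := by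
    intro n
    rw [hg]
    show A (n + M) * ∏ p ∈ Bd, F p (n + M) = A n * ∏ p ∈ Bd, F p n
    congr 1
    · rw [hA]
      refine prod_congr rfl fun i _ => ?_
      rw [cv_per (Dvd.dvd.mul_right (dvd_prod_of_mem (fun i => md (x i)) (mem_univ i)) _)]
    · refine prod_congr rfl fun p hp => ?_
      rw [hF]
      show ((∏ i ∈ I p, wp p (n + M + h i) : ℝ) : ℂ) = ((∏ i ∈ I p, wp p (n + h i) : ℝ) : ℂ)
      congr 1
      refine prod_congr rfl fun i _ => ?_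
      rw [wp_per (Dvd.dvd.mul_left (dvd_prod_of_mem (fun p => p) hp) _)]
  have hcop : ∀ p ∈ Gd, M.Coprime p := by
    intro p hp
    have hpp := hGp p hp
    have hnd : ¬ p ∣ D := (mem_filter.mp hp).2
    rw [Nat.coprime_comm, hpp.coprime_iff_not_dvd]
    intro hdvd
    rcases (hpp.dvd_mul).mp hdvd with h1 | h1
    · exact hnd (h1.mul_left _)
    · rw [hpp.prime.dvd_finsetProd_iff] at h1
      obtain ⟨q, hq, hpq⟩ := h1
      have : p = q := (Nat.prime_dvd_prime_iff_eq hpp (hBp q hq)).mp hpq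
      rw [this] at hnd
      exact hnd (mem_filter.mp hq).2
  have hFper : ∀ p ∈ Gd, ∀ n, F p (n + p) = F p n := by
    intro p _ n
    rw [hF]
    show ((∏ i ∈ I p, wp p (n + p + h i) : ℝ) : ℂ) = ((∏ i ∈ I p, wp p (n + h i) : ℝ) : ℂ)
    congr 1
    refine prod_congr rfl fun i _ => ?_
    rw [wp_per (dvd_refl p)]
  have hmain : av (P0 Y x) (fS x S h) = av M g * ∏ p ∈ Gd, av p (F p) := by
    rw [hP0, ← av_prod Gd hGp M hM1 hcop g hgper F hFper]
    congr 1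
    funext n
    exact hfS n
  rw [hmain, norm_mul, norm_prod]
  have hgb : ‖av M g‖ ≤ (∏ i, rho (x i)) * ∏ p ∈ Bd, ((∑ n ∈ range p, ∏ i ∈ I p, |wp p (n + h i)|) / p) := by
    rw [← mean_prod Bd hBp Rr hR1 h I (∏ i, rho (x i))]
    refine norm_av_le M g (fun n => (∏ i, rho (x i)) * ∏ p ∈ Bd, ∏ i ∈ I p, |wp p (n + h i)|) ?_
    intro n
    rw [hg]
    show ‖A n * ∏ p ∈ Bd, F p n‖ ≤ _
    rw [norm_mul]
    refine mul_le_mul ?_ ?_ (norm_nonneg _) (prod_nonneg fun i _ => rho_nonneg _)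
    · rw [hA]
      show ‖∏ i, ((rho (x i) : ℂ) * (starRingEnd ℂ) (cv (x i) (n + h i)))‖ ≤ _
      rw [norm_prod]
      refine prod_le_prod (fun i _ => norm_nonneg _) fun i _ => ?_
      rw [norm_mul, RCLike.norm_conj, Complex.norm_real, Real.norm_eq_abs, abs_of_nonneg (rho_nonneg _)]
      exact mul_le_of_le_one_right (rho_nonneg _) (norm_cv_le _ _)
    · rw [norm_prod]
      refine le_of_eq (prod_congr rfl fun p _ => ?_)
      rw [hF]
      show ‖((∏ i ∈ I p, wp p (n + h i) : ℝ) : ℂ)‖ = _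
      rw [Complex.norm_real, Real.norm_eq_abs, abs_prod]
  have hsplit : ∏ p ∈ P, bp D h p (I p) =
      (∏ p ∈ Bd, ((∑ n ∈ range p, ∏ i ∈ I p, |wp p (n + h i)|) / p)) * ∏ p ∈ Gd, ‖av p (F p)‖ := by
    rw [← prod_filter_mul_prod_filter_not P (fun p => p ∣ D) (fun p => bp D h p (I p))]
    congr 1
    · refine prod_congr rfl fun p hp => ?_
      unfold bp
      rw [if_pos (mem_filter.mp hp).2]
    · refine prod_congr rfl fun p hp => ?_
      unfold bp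
      rw [if_neg (mem_filter.mp hp).2]
  show _ ≤ (∏ i, rho (x i)) * ∏ p ∈ P, bp D h p (I p)
  rw [hsplit, ← mul_assoc]
  exact mul_le_mul_of_nonneg_right hgb (prod_nonneg fun p _ => norm_nonneg _)

/-- The weights. -/
lemma weight {k : ℕ} (P : Finset ℕ) (S : Fin k → Finset ℕ) (hS : ∀ i, S i ⊆ P) :
    ∏ i, ((∏ p ∈ S i, p : ℕ) : ℝ) ^ (1 / (4 * k : ℝ)) =
      ∏ p ∈ P, (p : ℝ) ^ (((univ.filter fun i => p ∈ S i).card : ℝ) / (4 * k)) := by
  classical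
  have e1 : ∀ i, ((∏ p ∈ S i, p : ℕ) : ℝ) ^ (1 / (4 * k : ℝ)) =
      ∏ p ∈ S i, (p : ℝ) ^ (1 / (4 * k : ℝ)) := by
    intro i
    rw [Nat.cast_prod, Real.finsetProd_rpow]
    intro p _
    exact Nat.cast_nonneg _
  rw [prod_congr rfl fun i _ => e1 i, swap P S hS (fun p _ => (p : ℝ) ^ (1 / (4 * k : ℝ)))]
  refine prod_congr rfl fun p _ => ?_
  rw [prod_const, ← Real.rpow_natCast, ← Real.rpow_mul (Nat.cast_nonneg _)]
  congr 1
  ring

end TailAAux

open TailAAux in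
theorem tailA (k : ℕ) (hk : 1 ≤ k) : ∃ C : ℝ, 0 < C ∧ ∀ (Y : ℕ) (x : Fin k → CI) (h : Fin k → ℕ),
    1 ≤ Y →
    ‖TY Y x h - TP Y x h‖ ≤ (Y : ℝ) ^ (-(1 / (4 * k : ℝ))) * (∏ i, rho (x i)) *
      ∏ p ∈ Nat.primesLE Y, (if p ∣ Del h * ∏ i, md (x i) then 1 + C * (p : ℝ) ^ (-(3 / 4 : ℝ))
        else 1 + C * (p : ℝ) ^ (-(7 / 4 : ℝ))) := by
  classical
  obtain ⟨C1, hC1, hgood⟩ := loc_good k hk
  obtain ⟨C2, hC2, hbad⟩ := loc_bad k hk
  refine ⟨C1 + C2, by positivity, fun Y x h hY => ?_⟩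
  set D := Del h * ∏ i, md (x i) with hD
  set P := Nat.primesLE Y with hP
  have hY0 : (0 : ℝ) < Y := by exact_mod_cast hY
  have hk0 : (0 : ℝ) < 4 * k := by
    have : (0 : ℝ) < k := by exact_mod_cast hk
    positivity
  have hprime : ∀ p ∈ P, p.Prime := fun p hp => (Nat.mem_primesLE.mp hp).2
  have hSub : Fintype.piFinset (fun i => Sm Y (md (x i))) ⊆
      Fintype.piFinset (fun i => Sa Y (md (x i))) := by
    refine Fintype.piFinset_subset _ _ fun i => ?_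
    unfold Sm Sa
    exact filter_subset _ _
  have hSaP : ∀ S ∈ Fintype.piFinset (fun i => Sa Y (md (x i))), ∀ i, S i ⊆ P := by
    intro S hS i
    have h1 := Fintype.mem_piFinset.mp hS i
    unfold Sa at h1
    exact (mem_powerset.mp h1).trans (filter_subset _ _)
  -- the difference
  have hdiff : TY Y x h - TP Y x h = - ∑ S ∈ Fintype.piFinset (fun i => Sa Y (md (x i))) \
      Fintype.piFinset (fun i => Sm Y (md (x i))), av (P0 Y x) (fS x S h) := by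
    unfold TY TP
    rw [← sum_sdiff hSub]
    ring
  rw [hdiff, norm_neg]
  refine (norm_sum_le _ _).trans ?_
  -- the weights
  have hw : ∀ S ∈ Fintype.piFinset (fun i => Sa Y (md (x i))) \
      Fintype.piFinset (fun i => Sm Y (md (x i))),
      1 ≤ (Y : ℝ) ^ (-(1 / (4 * k : ℝ))) * ∏ i, ((∏ p ∈ S i, p : ℕ) : ℝ) ^ (1 / (4 * k : ℝ)) := by
    intro S hS
    rw [Finset.mem_sdiff] at hS
    obtain ⟨hS1, hS2⟩ := hS
    rw [Fintype.mem_piFinset] at hS2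
    push Not at hS2
    obtain ⟨i, hi⟩ := hS2
    have hi2 : Y < ∏ p ∈ S i, p := by
      have h1 := Fintype.mem_piFinset.mp hS1 i
      by_contra hcon
      apply hi
      unfold Sm
      unfold Sa at h1
      exact mem_filter.mpr ⟨h1, not_lt.mp hcon⟩
    have hge : ∀ j, (1 : ℝ) ≤ ((∏ p ∈ S j, p : ℕ) : ℝ) ^ (1 / (4 * k : ℝ)) := by
      intro j
      refine Real.one_le_rpow ?_ (by positivity)
      have : 1 ≤ ∏ p ∈ S j, p :=
        Finset.one_le_prod' fun p hp => (hprime p (hSaP S hS1 j hp)).one_lt.le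
      exact_mod_cast this
    have h2 : ((∏ p ∈ S i, p : ℕ) : ℝ) ^ (1 / (4 * k : ℝ)) ≤
        ∏ j, ((∏ p ∈ S j, p : ℕ) : ℝ) ^ (1 / (4 * k : ℝ)) := by
      rw [← mul_prod_erase univ _ (mem_univ i)]
      refine le_mul_of_one_le_right (by positivity) ?_
      have : ∏ j ∈ univ.erase i, (1 : ℝ) ≤
          ∏ j ∈ univ.erase i, ((∏ p ∈ S j, p : ℕ) : ℝ) ^ (1 / (4 * k : ℝ)) :=
        prod_le_prod (fun _ _ => zero_le_one) fun j _ => hge j
      rwa [prod_const_one] at this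
    have h3 : (Y : ℝ) ^ (1 / (4 * k : ℝ)) ≤ ((∏ p ∈ S i, p : ℕ) : ℝ) ^ (1 / (4 * k : ℝ)) :=
      Real.rpow_le_rpow hY0.le (by exact_mod_cast hi2.le) (by positivity)
    have h4 : (1 : ℝ) = (Y : ℝ) ^ (-(1 / (4 * k : ℝ))) * (Y : ℝ) ^ (1 / (4 * k : ℝ)) := by
      rw [← Real.rpow_add hY0, neg_add_cancel, Real.rpow_zero]
    calc (1 : ℝ) = (Y : ℝ) ^ (-(1 / (4 * k : ℝ))) * (Y : ℝ) ^ (1 / (4 * k : ℝ)) := h4
      _ ≤ _ := mul_le_mul_of_nonneg_left (h3.trans h2) (by positivity)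
  set a : ℕ → Finset (Fin k) → ℝ := fun p I => (p : ℝ) ^ ((I.card : ℝ) / (4 * k)) * bp D h p I with ha
  have ha0 : ∀ p I, 0 ≤ a p I := fun p I => mul_nonneg (by positivity) (bp_nonneg _ _ _ _)
  have hrho : 0 ≤ ∏ i, rho (x i) := prod_nonneg fun i _ => rho_nonneg _
  have hstep : ∀ S ∈ Fintype.piFinset (fun i => Sa Y (md (x i))) \
      Fintype.piFinset (fun i => Sm Y (md (x i))),
      ‖av (P0 Y x) (fS x S h)‖ ≤ (Y : ℝ) ^ (-(1 / (4 * k : ℝ))) * (∏ i, rho (x i)) *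
        ∏ p ∈ P, a p (univ.filter fun i => p ∈ S i) := by
    intro S hS
    have hSP := hSaP S (Finset.mem_sdiff.mp hS).1
    have h1 := term_bd Y x S h hSP
    have h2 := hw S hS
    rw [weight P S hSP] at h2
    calc ‖av (P0 Y x) (fS x S h)‖ ≤ ((Y : ℝ) ^ (-(1 / (4 * k : ℝ))) *
          ∏ p ∈ P, (p : ℝ) ^ (((univ.filter fun i => p ∈ S i).card : ℝ) / (4 * k))) *
          ((∏ i, rho (x i)) * ∏ p ∈ P, bp D h p (univ.filter fun i => p ∈ S i)) :=
        h1.trans (le_mul_of_one_le_left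
          (mul_nonneg hrho (prod_nonneg fun p _ => bp_nonneg _ _ _ _)) h2)
      _ = _ := by
        rw [ha]
        simp only [prod_mul_distrib]
        ring
  refine (sum_le_sum hstep).trans ?_
  rw [← mul_sum]
  refine mul_le_mul_of_nonneg_left ?_ (mul_nonneg (by positivity) hrho)
  have hsub2 : Fintype.piFinset (fun i => Sa Y (md (x i))) \
      Fintype.piFinset (fun i => Sm Y (md (x i))) ⊆
      Fintype.piFinset (fun _ : Fin k => P.powerset) := by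
    intro S hS
    rw [Fintype.mem_piFinset]
    intro i
    exact mem_powerset.mpr (hSaP S (Finset.mem_sdiff.mp hS).1 i)
  refine (sum_le_sum_of_subset_of_nonneg hsub2 fun S _ _ => prod_nonneg fun p _ => ha0 _ _).trans ?_
  rw [tensor P a]
  refine prod_le_prod (fun p _ => sum_nonneg fun I _ => ha0 _ _) fun p hp => ?_
  have hp0 : (0 : ℝ) ≤ p := Nat.cast_nonneg _
  split_ifs with hdvd
  · have h1 := hbad p (hprime p hp) h
    have h2 : ∑ I : Finset (Fin k), a p I = ∑ I : Finset (Fin k), (p : ℝ) ^ ((I.card : ℝ) / (4 * k)) *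
        ((∑ n ∈ range p, ∏ i ∈ I, |wp p (n + h i)|) / p) := by
      refine sum_congr rfl fun I _ => ?_
      rw [ha]
      show _ * bp D h p I = _
      unfold bp
      rw [if_pos hdvd]
    rw [h2]
    refine h1.trans ?_
    have : 0 ≤ (p : ℝ) ^ (-(3 / 4 : ℝ)) := Real.rpow_nonneg hp0 _
    nlinarith
  · have hnd : ¬ p ∣ Del h := fun hd => hdvd (hd.mul_right _)
    have h1 := hgood p (hprime p hp) h hnd
    have h2 : ∑ I : Finset (Fin k), a p I = ∑ I : Finset (Fin k), (p : ℝ) ^ ((I.card : ℝ) / (4 * k)) *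
        ‖av p (fun n => ((∏ i ∈ I, wp p (n + h i) : ℝ) : ℂ))‖ := by
      refine sum_congr rfl fun I _ => ?_
      rw [ha]
      show _ * bp D h p I = _
      unfold bp
      rw [if_neg hdvd]
    rw [h2]
    refine h1.trans ?_
    have : 0 ≤ (p : ℝ) ^ (-(7 / 4 : ℝ)) := Real.rpow_nonneg hp0 _
    nlinarith

end Pool.Agent.Lib.GMV
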