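import Pool.Agent.Lib.GMV.ZEll

/-!
# GMV.ZAn (1.7 h): the coefficients of the zero detector

PROOF. `lam z d = μ(d)` for `d ≤ z`, `μ(d) log(z^2/d)/log z` for `z < d ≤ z^2`, `0` for `d > z^2`; `th E e = μ(e) log(E/e)/log E`, `e ≤ E`.
`lam_abs`: for `z < d ≤ z^2`: `0 ≤ log (z^2/d) ≤ log z`. `an_zero`: for `1 < n ≤ z` all divisors are `≤ z`, `∑_(d|n) μ(d) = 0`.
`expand_two`: the numbers `n ≤ M` divisible by `d` and `e` are the `lcm(d,e) m`, `m ≤ M/lcm(d,e)`.
`th_form`: `form 1 E E (th E) (th E) = form 1 E E (ell E) (ell E)/(log E)^2` and `form_ell`, `σ = 0`.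
`lam_form`: `form s (z^2) (z^2) lam lam = form (ell (z^2) - ell z)/(log z)^2`, `form_sub`, and
`form s (z^2) (z^2) (ell z) (ell z) = form s z z (ell z) (ell z)` (support), `form_ell` (`σ log z^2 ≤ 1`).
`mix_form`: `form_cs`.
-/

set_option autoImplicit false

open Finset

namespace Pool.Agent.Lib.GMV

noncomputable def lam (z d : ℕ) : ℝ := (ell (z ^ 2) d - ell z d) / Real.log z

noncomputable def th (E e : ℕ) : ℝ := ell E e / Real.log E

noncomputable def an (z n : ℕ) : ℝ := ∑ d ∈ n.divisors, lam z d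

noncomputable def Th (E n : ℕ) : ℝ := ∑ e ∈ n.divisors, th E e

namespace ZAnAux

lemma mu_abs (d : ℕ) : |(ArithmeticFunction.moebius d : ℝ)| ≤ 1 := by
  have h := ArithmeticFunction.abs_moebius_le_one (n := d)
  exact_mod_cast h

lemma log_pos' {z : ℕ} (hz : 2 ≤ z) : 0 < Real.log z := by
  apply Real.log_pos
  exact_mod_cast (by omega : 1 < z)


lemma ell_gt {D d : ℕ} (h : D < d) : ell D d = 0 := by
  unfold ell
  rw [if_neg (by omega)]

lemma lam_le {z d : ℕ} (hz : 2 ≤ z) (hd : d ≤ z) : lam z d = (ArithmeticFunction.moebius d : ℝ) := by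
  have hl := log_pos' hz
  have h2 : d ≤ z ^ 2 := by nlinarith
  unfold lam ell
  rw [if_pos hd, if_pos h2]
  have e : Real.log ((z ^ 2 : ℕ) : ℝ) = 2 * Real.log z := by
    push_cast
    rw [Real.log_pow]
    norm_num
  rw [e]
  field_simp
  ring

lemma div_sum (x : ℕ → ℝ) (D n : ℕ) (hn : 1 ≤ n) (hx : ∀ d, D < d → x d = 0) :
    ∑ d ∈ n.divisors, x d = ∑ d ∈ Icc 1 D, if d ∣ n then x d else 0 := by
  rw [← Finset.sum_filter]
  have h1 : ∑ d ∈ n.divisors, x d = ∑ d ∈ n.divisors.filter (fun d => d ≤ D), x d := by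
    rw [Finset.sum_filter]
    refine Finset.sum_congr rfl fun d _ => ?_
    split_ifs with h
    · rfl
    · exact hx d (not_le.mp h)
  rw [h1]
  refine Finset.sum_congr ?_ fun _ _ => rfl
  ext d
  simp only [mem_filter, Nat.mem_divisors, mem_Icc]
  constructor
  · rintro ⟨⟨h1, h2⟩, h3⟩
    exact ⟨⟨Nat.pos_of_dvd_of_pos h1 hn, h3⟩, h1⟩
  · rintro ⟨⟨h1, h2⟩, h3⟩
    exact ⟨⟨h3, by omega⟩, h2⟩

lemma mult_sum (M l : ℕ) (hl : 1 ≤ l) (f : ℕ → ℂ) :
    ∑ n ∈ Icc 1 M, (if l ∣ n then f n else 0) = ∑ m ∈ Icc 1 (M / l), f (l * m) := by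
  rw [← Finset.sum_filter]
  refine (Finset.sum_bij (fun m _ => l * m) ?_ ?_ ?_ ?_).symm
  · intro m hm
    rw [mem_Icc] at hm
    rw [mem_filter, mem_Icc]
    refine ⟨⟨Nat.mul_pos hl hm.1, ?_⟩, Dvd.intro m rfl⟩
    calc l * m ≤ l * (M / l) := Nat.mul_le_mul_left l hm.2
      _ ≤ M := Nat.mul_div_le M l
  · intro a _ b _ hab
    exact Nat.eq_of_mul_eq_mul_left hl hab
  · intro n hn
    rw [mem_filter, mem_Icc] at hn
    obtain ⟨⟨h1, h2⟩, m, rfl⟩ := hn
    refine ⟨m, ?_, rfl⟩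
    rw [mem_Icc]
    refine ⟨Nat.pos_of_mul_pos_left h1 |> fun h => ?_, (Nat.le_div_iff_mul_le hl).mpr (by rw [mul_comm]; exact h2)⟩
    rcases Nat.eq_zero_or_pos m with h0 | h0
    · subst h0; simp at h1
    · exact h0
  · intro m _
    rfl

lemma form_smul (s c : ℝ) (D E : ℕ) (x y : ℕ → ℝ) (c' : ℝ) :
    form s D E (fun d => x d / c) (fun e => y e / c') = form s D E x y / (c * c') := by
  unfold form
  rw [Finset.sum_div]
  refine Finset.sum_congr rfl fun d _ => ?_
  rw [Finset.sum_div]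
  refine Finset.sum_congr rfl fun e _ => ?_
  rw [div_mul_div_comm, div_mul_eq_mul_div]

lemma form_support (s : ℝ) (D D' : ℕ) (hD : D ≤ D') (x : ℕ → ℝ) (hx : ∀ d, D < d → x d = 0) :
    form s D' D' x x = form s D D x x := by
  unfold form
  have hsub : Icc 1 D ⊆ Icc 1 D' := Finset.Icc_subset_Icc_right hD
  have h1 : ∀ d, ∑ e ∈ Icc 1 D', x d * x e * (Nat.lcm d e : ℝ) ^ (-s) =
      ∑ e ∈ Icc 1 D, x d * x e * (Nat.lcm d e : ℝ) ^ (-s) := by
    intro d
    refine (Finset.sum_subset hsub ?_).symm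
    intro e he he'
    rw [mem_Icc] at he he'
    rw [hx e (by omega)]
    ring
  simp only [h1]
  refine (Finset.sum_subset hsub ?_).symm
  intro d hd hd'
  rw [mem_Icc] at hd hd'
  refine Finset.sum_eq_zero fun e _ => ?_
  rw [hx d (by omega)]
  ring

end ZAnAux

open ZAnAux

theorem lam_abs (z d : ℕ) (hz : 2 ≤ z) : |lam z d| ≤ 1 := by
  have hl := log_pos' hz
  rcases Nat.lt_or_ge z d with h | h
  · unfold lam
    rw [ell_gt h, sub_zero]
    unfold ell
    split_ifs with h2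
    · have e : Real.log ((z ^ 2 : ℕ) : ℝ) = 2 * Real.log z := by
        push_cast
        rw [Real.log_pow]
        norm_num
      rw [e, abs_div, abs_mul, abs_of_pos hl, div_le_one hl]
      have hd0 : (0 : ℝ) < d := by exact_mod_cast (by omega : 0 < d)
      have hz0 : (0 : ℝ) < z := by exact_mod_cast (by omega : 0 < z)
      have h3 : Real.log z ≤ Real.log d := Real.log_le_log hz0 (by exact_mod_cast h.le)
      have h4 : Real.log d ≤ 2 * Real.log z := by
        rw [← e]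
        exact Real.log_le_log hd0 (by exact_mod_cast h2)
      have h5 : |2 * Real.log z - Real.log d| ≤ Real.log z := by
        rw [abs_of_nonneg (by linarith)]
        linarith
      calc |(ArithmeticFunction.moebius d : ℝ)| * |2 * Real.log z - Real.log d|
          ≤ 1 * Real.log z := mul_le_mul (mu_abs d) h5 (abs_nonneg _) zero_le_one
        _ = Real.log z := one_mul _
    · simp
  · rw [lam_le hz h]
    exact mu_abs d

theorem th_abs (E e : ℕ) (hE : 2 ≤ E) : |th E e| ≤ 1 := by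
  have hl := log_pos' hE
  unfold th ell
  split_ifs with h
  · rcases Nat.eq_zero_or_pos e with h0 | h0
    · subst h0
      simp
    · have he0 : (1 : ℝ) ≤ e := by exact_mod_cast h0
      have h1 : 0 ≤ Real.log e := Real.log_nonneg he0
      have h2 : Real.log e ≤ Real.log E := Real.log_le_log (by linarith) (by exact_mod_cast h)
      rw [abs_div, abs_mul, abs_of_pos hl, div_le_one hl]
      have h5 : |Real.log E - Real.log e| ≤ Real.log E := by
        rw [abs_of_nonneg (by linarith)]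
        linarith
      calc |(ArithmeticFunction.moebius e : ℝ)| * |Real.log E - Real.log e|
          ≤ 1 * Real.log E := mul_le_mul (mu_abs e) h5 (abs_nonneg _) zero_le_one
        _ = Real.log E := one_mul _
  · simp

theorem lam_zero (z d : ℕ) (hz : 2 ≤ z) (hd : z ^ 2 < d) : lam z d = 0 := by
  have h : z < d := by nlinarith
  unfold lam
  rw [ell_gt hd, ell_gt h, sub_zero, zero_div]

theorem th_zero (E e : ℕ) (he : E < e) : th E e = 0 := by
  unfold th
  rw [ell_gt he, zero_div]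

theorem an_one (z : ℕ) (hz : 2 ≤ z) : an z 1 = 1 := by
  unfold an
  rw [Nat.divisors_one, Finset.sum_singleton, lam_le hz (by omega)]
  simp

theorem Th_one (E : ℕ) (hE : 2 ≤ E) : Th E 1 = 1 := by
  have hl := log_pos' hE
  unfold Th
  rw [Nat.divisors_one, Finset.sum_singleton]
  unfold th ell
  rw [if_pos (by omega)]
  simp only [ArithmeticFunction.moebius_apply_one, Int.cast_one, Nat.cast_one, Real.log_one,
    sub_zero, one_mul]
  exact div_self hl.ne'

theorem an_zero (z n : ℕ) (hn : 1 < n) (hz : n ≤ z) : an z n = 0 := by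
  unfold an
  have h1 : ∑ d ∈ n.divisors, lam z d = ∑ d ∈ n.divisors, (ArithmeticFunction.moebius d : ℝ) := by
    refine Finset.sum_congr rfl fun d hd => ?_
    exact lam_le (by omega) ((Nat.divisor_le hd).trans hz)
  have h2 : ∑ d ∈ n.divisors, ArithmeticFunction.moebius d = 0 := by
    rw [← ArithmeticFunction.coe_mul_zeta_apply, ArithmeticFunction.moebius_mul_coe_zeta,
      ArithmeticFunction.one_apply_ne (by omega)]
  rw [h1]
  exact_mod_cast h2

/-- sums over `n ≤ M` of two divisor sums, for any sequences vanishing beyond `D`, `E` -/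
theorem expand_two (x y : ℕ → ℝ) (D E M : ℕ) (hx : ∀ d, D < d → x d = 0) (hy : ∀ e, E < e → y e = 0)
    (f : ℕ → ℂ) :
    ∑ n ∈ Icc 1 M, (((∑ d ∈ n.divisors, x d) * (∑ e ∈ n.divisors, y e) : ℝ) : ℂ) * f n =
      ∑ d ∈ Icc 1 D, ∑ e ∈ Icc 1 E, ((x d * y e : ℝ) : ℂ) *
        ∑ m ∈ Icc 1 (M / Nat.lcm d e), f (Nat.lcm d e * m) := by
  have h1 : ∀ n ∈ Icc 1 M, (((∑ d ∈ n.divisors, x d) * (∑ e ∈ n.divisors, y e) : ℝ) : ℂ) * f n =
      ∑ d ∈ Icc 1 D, ∑ e ∈ Icc 1 E, ((x d * y e : ℝ) : ℂ) *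
        (if Nat.lcm d e ∣ n then f n else 0) := by
    intro n hn
    rw [mem_Icc] at hn
    rw [div_sum x D n hn.1 hx, div_sum y E n hn.1 hy, Finset.sum_mul_sum]
    push_cast
    rw [Finset.sum_mul]
    refine Finset.sum_congr rfl fun d _ => ?_
    rw [Finset.sum_mul]
    refine Finset.sum_congr rfl fun e _ => ?_
    by_cases hd : d ∣ n
    · by_cases he : e ∣ n
      · rw [if_pos hd, if_pos he, if_pos (Nat.lcm_dvd hd he)]
      · rw [if_neg he, if_neg (fun h => he ((Nat.dvd_lcm_right d e).trans h))]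
        simp
    · rw [if_neg hd, if_neg (fun h => hd ((Nat.dvd_lcm_left d e).trans h))]
      simp
  rw [Finset.sum_congr rfl h1, Finset.sum_comm]
  refine Finset.sum_congr rfl fun d hd => ?_
  rw [Finset.sum_comm]
  refine Finset.sum_congr rfl fun e he => ?_
  rw [mem_Icc] at hd he
  rw [← Finset.mul_sum, mult_sum M (Nat.lcm d e) (Nat.lcm_pos hd.1 he.1) f]

theorem th_form : ∃ C : ℝ, 1 ≤ C ∧ ∀ E : ℕ, 2 ≤ E →
    0 ≤ form 1 E E (th E) (th E) ∧ form 1 E E (th E) (th E) ≤ C / Real.log E := by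
  obtain ⟨C, hC1, hC⟩ := form_ell
  refine ⟨C, hC1, fun E hE => ⟨form_nonneg 1 le_rfl E _, ?_⟩⟩
  have hl := log_pos' hE
  have h1 := hC E 0 hE le_rfl (by simp)
  rw [add_zero] at h1
  have h2 : form 1 E E (th E) (th E) = form 1 E E (ell E) (ell E) / (Real.log E * Real.log E) :=
    form_smul 1 (Real.log E) E E (ell E) (ell E) (Real.log E)
  rw [h2, div_le_div_iff₀ (by positivity) hl]
  nlinarith

theorem lam_form : ∃ C : ℝ, 1 ≤ C ∧ ∀ (z : ℕ) (σ : ℝ), 2 ≤ z → 0 ≤ σ →
    σ * (2 * Real.log z) ≤ 1 →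
    form (1 + σ) (z ^ 2) (z ^ 2) (lam z) (lam z) ≤ C / Real.log z := by
  obtain ⟨C, hC1, hC⟩ := form_ell
  refine ⟨6 * C, by linarith, fun z σ hz hσ hσz => ?_⟩
  have hl := log_pos' hz
  have e : Real.log ((z ^ 2 : ℕ) : ℝ) = 2 * Real.log z := by
    push_cast
    rw [Real.log_pow]
    norm_num
  have h1 := hC (z ^ 2) σ (by nlinarith) hσ (by rw [e]; exact hσz)
  have h2 := hC z σ hz hσ (by nlinarith)
  rw [e] at h1
  have h3 := form_sub (1 + σ) (by linarith) (z ^ 2) (ell (z ^ 2)) (ell z)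
  rw [form_support (1 + σ) z (z ^ 2) (by nlinarith) (ell z) (fun d hd => ell_gt hd)] at h3
  have h4 : form (1 + σ) (z ^ 2) (z ^ 2) (lam z) (lam z) =
      form (1 + σ) (z ^ 2) (z ^ 2) (fun d => ell (z ^ 2) d - ell z d)
        (fun d => ell (z ^ 2) d - ell z d) / (Real.log z * Real.log z) :=
    form_smul (1 + σ) (Real.log z) (z ^ 2) (z ^ 2) _ _ (Real.log z)
  rw [h4, div_le_div_iff₀ (by positivity) hl]
  have h5 : form (1 + σ) (z ^ 2) (z ^ 2) (fun d => ell (z ^ 2) d - ell z d)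
        (fun d => ell (z ^ 2) d - ell z d) ≤ 6 * C * Real.log z := by linarith
  nlinarith

theorem mix_form : ∃ C : ℝ, 1 ≤ C ∧ ∀ z E : ℕ, 2 ≤ z → 2 ≤ E →
    |form 1 (z ^ 2) E (lam z) (th E)| ≤ C / Real.sqrt (Real.log z * Real.log E) := by
  obtain ⟨C1, hC1, h1⟩ := th_form
  obtain ⟨C2, hC2, h2⟩ := lam_form
  refine ⟨C1 * C2, by nlinarith, fun z E hz hE => ?_⟩
  have hl := log_pos' hz
  have hlE := log_pos' hE
  have h3 := form_cs 1 le_rfl (z ^ 2) E (lam z) (th E)
  have h4 := h2 z 0 hz le_rfl (by simp)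
  rw [add_zero] at h4
  have h5 := (h1 E hE).2
  have h6 := (h1 E hE).1
  have h7 := form_nonneg 1 le_rfl (z ^ 2) (lam z)
  have h8 : form 1 (z ^ 2) E (lam z) (th E) ^ 2 ≤ (C2 / Real.log z) * (C1 / Real.log E) :=
    h3.trans (mul_le_mul h4 h5 h6 (by positivity))
  apply abs_le_of_sq_le_sq _ (by positivity)
  rw [div_pow, Real.sq_sqrt (by positivity)]
  refine h8.trans ?_
  rw [div_mul_div_comm]
  refine div_le_div_of_nonneg_right ?_ (by positivity)
  have : 1 ≤ C1 * C2 := by nlinarith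
  nlinarith

end Pool.Agent.Lib.GMV
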