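import Pool.Agent.Lib.GMV.ZAn

/-!
# GMV.ZAsq (1 h): mean square of the coefficients

PROOF. `an_sq`: `σ = 1/log X`, `σ log (z^2) ≤ 1`. `n^(-1) ≤ e n^(-1-σ)` for `1 ≤ n ≤ X`. The series `∑_(n ≥ 1) an(n)^2 n^(-s)`, `s = 1 + σ`, equals
`∑_(d,e ≤ z^2) lam d lam e ∑_(n ≥ 1, lcm | n) n^(-s) = ζ(s) form s (z^2) (z^2) lam lam` (finite sums of absolutely convergent series,
`n = lcm m`), `ζ(s) ≤ 1 + 1/σ = 1 + log X ≤ 3 log X`; nonnegative terms.
-/

set_option autoImplicit false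

open Finset

namespace Pool.Agent.Lib.GMV

namespace ZAsqAux

open Filter

/-- partial sums of `m^(-s)` -/
noncomputable def zp (s : ℝ) (N : ℕ) : ℝ := ∑ m ∈ Icc 1 N, (m : ℝ) ^ (-s)

lemma zp_le {σ : ℝ} (hσ : 0 < σ) (N : ℕ) : zp (1 + σ) N ≤ 1 + 1 / σ := by
  unfold zp
  rcases Nat.eq_zero_or_pos N with h0 | hN
  · subst h0
    simp
    positivity
  have hanti : AntitoneOn (fun x : ℝ => x ^ (-(1 + σ))) (Set.Icc ((1 : ℕ) : ℝ) (N : ℝ)) := by
    intro x hx y hy hxy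
    have hx1 : (1 : ℝ) ≤ x := by simpa using hx.1
    exact Real.rpow_le_rpow_of_nonpos (by linarith) hxy (by linarith)
  have h1 := AntitoneOn.sum_le_integral_Ico (f := fun x : ℝ => x ^ (-(1 + σ))) hN hanti
  have h2 : ∫ x in ((1 : ℕ) : ℝ)..(N : ℝ), x ^ (-(1 + σ)) ≤ 1 / σ := by
    rw [integral_rpow]
    · have e1 : -(1 + σ) + 1 = -σ := by ring
      rw [e1]
      have hN' : 0 ≤ (N : ℝ) ^ (-σ) := Real.rpow_nonneg (Nat.cast_nonneg _) _
      rw [Nat.cast_one, Real.one_rpow]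
      rw [div_neg, ← neg_div]
      apply div_le_div_of_nonneg_right _ hσ.le
      linarith
    · right
      refine ⟨by linarith, ?_⟩
      have hN1 : (1 : ℝ) ≤ N := by exact_mod_cast hN
      rw [Nat.cast_one, Set.uIcc_of_le hN1]
      intro h
      have := h.1
      linarith
  have h3 : ∑ m ∈ Icc 1 N, (m : ℝ) ^ (-(1 + σ)) =
      1 + ∑ i ∈ Ico 1 N, ((i + 1 : ℕ) : ℝ) ^ (-(1 + σ)) := by
    have e2 : Icc 1 N = Ico 1 (N + 1) := by
      ext a; simp only [Finset.mem_Icc, Finset.mem_Ico]; omega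
    rw [e2, Finset.sum_eq_sum_Ico_succ_bot (by omega), Nat.cast_one, Real.one_rpow]
    congr 1
    have := Finset.sum_Ico_add' (fun i : ℕ => ((i : ℕ) : ℝ) ^ (-(1 + σ))) 1 N 1
    rw [← this]
  rw [h3]
  have h4 : ∑ i ∈ Ico 1 N, ((i + 1 : ℕ) : ℝ) ^ (-(1 + σ)) ≤ 1 / σ := h1.trans h2
  linarith

lemma zp_mono (s : ℝ) : Monotone (zp s) := by
  intro a b hab
  unfold zp
  apply Finset.sum_le_sum_of_subset_of_nonneg
  · exact Finset.Icc_subset_Icc_right hab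
  · intro i _ _
    exact Real.rpow_nonneg (Nat.cast_nonneg _) _

lemma zp_tendsto {σ : ℝ} (hσ : 0 < σ) : ∃ Z : ℝ, Z ≤ 1 + 1 / σ ∧
    Tendsto (zp (1 + σ)) atTop (nhds Z) := by
  have hbdd : BddAbove (Set.range (zp (1 + σ))) := by
    refine ⟨1 + 1 / σ, ?_⟩
    rintro _ ⟨n, rfl⟩
    exact zp_le hσ n
  have ht := tendsto_atTop_ciSup (zp_mono (1 + σ)) hbdd
  refine ⟨_, ?_, ht⟩
  exact ciSup_le (fun n => zp_le hσ n)

/-- the expansion, real version -/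
lemma expand_real (z : ℕ) (hz : 2 ≤ z) (s : ℝ) (M : ℕ) :
    ∑ n ∈ Icc 1 M, an z n ^ 2 * (n : ℝ) ^ (-s) =
      ∑ d ∈ Icc 1 (z ^ 2), ∑ e ∈ Icc 1 (z ^ 2), lam z d * lam z e *
        (Nat.lcm d e : ℝ) ^ (-s) * zp s (M / Nat.lcm d e) := by
  have h := expand_two (lam z) (lam z) (z ^ 2) (z ^ 2) M
    (fun d hd => lam_zero z d hz hd) (fun d hd => lam_zero z d hz hd)
    (fun n => (((n : ℝ) ^ (-s) : ℝ) : ℂ))
  have h1 : ((∑ n ∈ Icc 1 M, an z n ^ 2 * (n : ℝ) ^ (-s) : ℝ) : ℂ) =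
      ((∑ d ∈ Icc 1 (z ^ 2), ∑ e ∈ Icc 1 (z ^ 2), lam z d * lam z e *
        (Nat.lcm d e : ℝ) ^ (-s) * zp s (M / Nat.lcm d e) : ℝ) : ℂ) := by
    have hl : ((∑ n ∈ Icc 1 M, an z n ^ 2 * (n : ℝ) ^ (-s) : ℝ) : ℂ) =
        ∑ n ∈ Icc 1 M, (((∑ d ∈ n.divisors, lam z d) * (∑ e ∈ n.divisors, lam z e) : ℝ) : ℂ) *
          (((n : ℝ) ^ (-s) : ℝ) : ℂ) := by
      rw [Complex.ofReal_sum]
      apply Finset.sum_congr rfl
      intro n _
      rw [← Complex.ofReal_mul]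
      congr 1
      unfold an
      rw [sq]
    rw [hl, h, Complex.ofReal_sum]
    apply Finset.sum_congr rfl
    intro d _
    rw [Complex.ofReal_sum]
    apply Finset.sum_congr rfl
    intro e _
    rw [← Complex.ofReal_sum, ← Complex.ofReal_mul]
    congr 1
    rw [mul_assoc (lam z d * lam z e)]
    congr 1
    unfold zp
    rw [Finset.mul_sum]
    apply Finset.sum_congr rfl
    intro m _
    rw [Nat.cast_mul, Real.mul_rpow (Nat.cast_nonneg _) (Nat.cast_nonneg _)]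
  exact Complex.ofReal_injective h1

lemma sum_le_form (z : ℕ) (hz : 2 ≤ z) {σ : ℝ} (hσ : 0 < σ) (X : ℕ) :
    ∑ n ∈ Icc 1 X, an z n ^ 2 * (n : ℝ) ^ (-(1 + σ)) ≤
      (1 + 1 / σ) * form (1 + σ) (z ^ 2) (z ^ 2) (lam z) (lam z) := by
  obtain ⟨Z, hZ, ht⟩ := zp_tendsto hσ
  have hlim : Tendsto (fun M => ∑ n ∈ Icc 1 M, an z n ^ 2 * (n : ℝ) ^ (-(1 + σ))) atTop
      (nhds (∑ d ∈ Icc 1 (z ^ 2), ∑ e ∈ Icc 1 (z ^ 2), lam z d * lam z e *
        (Nat.lcm d e : ℝ) ^ (-(1 + σ)) * Z)) := by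
    simp only [expand_real z hz (1 + σ)]
    apply tendsto_finsetSum
    intro d hd
    apply tendsto_finsetSum
    intro e he
    apply Tendsto.const_mul
    apply ht.comp
    have hpos : 0 < Nat.lcm d e :=
      Nat.lcm_pos (by have := (Finset.mem_Icc.1 hd).1; omega)
        (by have := (Finset.mem_Icc.1 he).1; omega)
    exact Nat.tendsto_div_const_atTop hpos.ne'
  have hmono : Monotone (fun M => ∑ n ∈ Icc 1 M, an z n ^ 2 * (n : ℝ) ^ (-(1 + σ))) := by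
    intro a b hab
    apply Finset.sum_le_sum_of_subset_of_nonneg
    · exact Finset.Icc_subset_Icc_right hab
    · intro i _ _
      exact mul_nonneg (sq_nonneg _) (Real.rpow_nonneg (Nat.cast_nonneg _) _)
  have h1 := hmono.ge_of_tendsto hlim X
  have h2 : ∑ d ∈ Icc 1 (z ^ 2), ∑ e ∈ Icc 1 (z ^ 2), lam z d * lam z e *
        (Nat.lcm d e : ℝ) ^ (-(1 + σ)) * Z =
      Z * form (1 + σ) (z ^ 2) (z ^ 2) (lam z) (lam z) := by
    unfold form
    rw [Finset.mul_sum]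
    apply Finset.sum_congr rfl
    intro d _
    rw [Finset.mul_sum]
    apply Finset.sum_congr rfl
    intro e _
    ring
  rw [h2] at h1
  refine h1.trans ?_
  apply mul_le_mul_of_nonneg_right hZ
  exact form_nonneg (1 + σ) (by linarith) (z ^ 2) (lam z)

end ZAsqAux

open ZAsqAux in
theorem an_sq : ∃ C : ℝ, 1 ≤ C ∧ ∀ z X : ℕ, 2 ≤ z → z ^ 2 ≤ X →
    ∑ n ∈ Icc 1 X, an z n ^ 2 / n ≤ C * (Real.log X / Real.log z) := by
  obtain ⟨C, hC, h⟩ := lam_form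
  refine ⟨6 * C, by linarith, ?_⟩
  intro z X hz hX
  have hz0 : (0 : ℝ) < z := by exact_mod_cast (by omega : 0 < z)
  have hz2 : (2 : ℝ) ≤ z := by exact_mod_cast hz
  have hlz : 0 < Real.log z := Real.log_pos (by linarith)
  have hX' : (z : ℝ) ^ 2 ≤ X := by exact_mod_cast hX
  have hX4 : (4 : ℝ) ≤ X := by nlinarith
  have hX0 : (0 : ℝ) < X := by linarith
  have hlX : 2 * Real.log z ≤ Real.log X := by
    have := Real.log_le_log (by positivity) hX'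
    rw [Real.log_pow] at this
    simpa using this
  have hlX1 : 1 ≤ Real.log X := by
    have h4 : Real.log 4 ≤ Real.log X := Real.log_le_log (by norm_num) hX4
    have h4' : Real.log 4 = 2 * Real.log 2 := by
      rw [show (4 : ℝ) = 2 ^ 2 by norm_num, Real.log_pow]; norm_num
    have := Real.log_two_gt_d9
    linarith
  have hlX0 : 0 < Real.log X := by linarith
  have hσ : 0 < 1 / Real.log X := by positivity
  have hf := h z (1 / Real.log X) hz hσ.le (by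
    rw [one_div, inv_mul_le_iff₀ hlX0]; linarith)
  have hs := sum_le_form z hz hσ X
  have hterm : ∑ n ∈ Icc 1 X, an z n ^ 2 / n ≤
      Real.exp 1 * ∑ n ∈ Icc 1 X, an z n ^ 2 * (n : ℝ) ^ (-(1 + 1 / Real.log X)) := by
    rw [Finset.mul_sum]
    apply Finset.sum_le_sum
    intro n hn
    have hn1 := (Finset.mem_Icc.1 hn).1
    have hn2 := (Finset.mem_Icc.1 hn).2
    have hn0 : (0 : ℝ) < n := by exact_mod_cast (by omega : 0 < n)
    have hnX : (n : ℝ) ≤ X := by exact_mod_cast hn2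
    have e1 : (n : ℝ)⁻¹ ≤ Real.exp 1 * (n : ℝ) ^ (-(1 + 1 / Real.log X)) := by
      have e2 : (n : ℝ) ^ (-(1 + 1 / Real.log X)) =
          (n : ℝ)⁻¹ * (n : ℝ) ^ (-(1 / Real.log X)) := by
        rw [neg_add, Real.rpow_add hn0, Real.rpow_neg_one]
      rw [e2]
      have e3 : Real.exp 1 = (X : ℝ) ^ (1 / Real.log X) := by
        rw [Real.rpow_def_of_pos hX0, mul_one_div, div_self hlX0.ne']
      have e4 : (n : ℝ) ^ (1 / Real.log X) ≤ (X : ℝ) ^ (1 / Real.log X) :=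
        Real.rpow_le_rpow hn0.le hnX hσ.le
      have e5 : 1 ≤ Real.exp 1 * (n : ℝ) ^ (-(1 / Real.log X)) := by
        rw [e3, Real.rpow_neg hn0.le, ← div_eq_mul_inv, le_div_iff₀ (Real.rpow_pos_of_pos hn0 _)]
        linarith
      have e6 : 0 < (n : ℝ)⁻¹ := by positivity
      nlinarith
    rw [div_eq_mul_inv]
    calc an z n ^ 2 * (n : ℝ)⁻¹ ≤
        an z n ^ 2 * (Real.exp 1 * (n : ℝ) ^ (-(1 + 1 / Real.log X))) :=
          mul_le_mul_of_nonneg_left e1 (sq_nonneg _)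
      _ = _ := by ring
  have he : Real.exp 1 ≤ 3 := by
    have := Real.exp_one_lt_d9
    linarith
  have hnn : 0 ≤ ∑ n ∈ Icc 1 X, an z n ^ 2 * (n : ℝ) ^ (-(1 + 1 / Real.log X)) := by
    apply Finset.sum_nonneg
    intro i _
    exact mul_nonneg (sq_nonneg _) (Real.rpow_nonneg (Nat.cast_nonneg _) _)
  have hfn := form_nonneg (1 + 1 / Real.log X) (by linarith) (z ^ 2) (lam z)
  have hk : (1 + 1 / (1 / Real.log X)) *
      form (1 + 1 / Real.log X) (z ^ 2) (z ^ 2) (lam z) (lam z) ≤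
      2 * Real.log X * (C / Real.log z) := by
    apply mul_le_mul _ hf hfn (by positivity)
    rw [one_div_one_div]
    linarith
  calc ∑ n ∈ Icc 1 X, an z n ^ 2 / n ≤
      Real.exp 1 * ∑ n ∈ Icc 1 X, an z n ^ 2 * (n : ℝ) ^ (-(1 + 1 / Real.log X)) := hterm
    _ ≤ 3 * ∑ n ∈ Icc 1 X, an z n ^ 2 * (n : ℝ) ^ (-(1 + 1 / Real.log X)) :=
        mul_le_mul_of_nonneg_right he hnn
    _ ≤ 3 * (2 * Real.log X * (C / Real.log z)) := by
        apply mul_le_mul_of_nonneg_left (hs.trans hk) (by norm_num)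
    _ = 6 * C * (Real.log X / Real.log z) := by ring

end Pool.Agent.Lib.GMV
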