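import Mathlib

/-!
# GMV.ZDual (1 h): the dual inequality

PROOF. `u j n = ch (cl j) n * p j n`, `S j = ∑ a t W u_j`, `c j` with `|c j| ≤ 1`, `c j * S j = |S j|`. `|J|/2 ≤ ∑_j |S j| = ∑_n a t W ∑_j c_j u_j`, by
Cauchy-Schwarz (`a √(W/n)` and `t √(n W) |∑ c_j u_j|`) its square is `≤ A ∑_n n t^2 W |∑_j c_j u_j(n)|^2`. Sort the pairs `(j, j')` of the
square into `cl j ≠ cl j'` (in total `≤ |J|^2 ε` by `hcross`) and equal classes; the latter are, for each `n`,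
`∑_k |ch k n|^2 |P_k(n)|^2 ≤ ∑_k |P_k(n)|^2`, `P_k = ∑_(cl j = k) c_j p_j` (`k` in `J.image cl`), and `∑_n n t^2 W ∑_k |P_k|^2
= ∑_(cl j = cl j') c_j conj c_j' ∑_n n t^2 W p_j conj p_j' ≤ |J| Bd`. So `|J|^2/4 ≤ A (|J| Bd + |J|^2 ε)`; divide by `|J|`.
-/

set_option autoImplicit false

open Complex Finset

namespace Pool.Agent.Lib.GMV

namespace ZDualAux

variable {ι κ : Type*} [DecidableEq ι] [DecidableEq κ]

/-- the sum over pairs in the same class is a sum of squares -/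
theorem pair_eq (J : Finset ι) (cl : ι → κ) (v : ι → ℂ) :
    ∑ j ∈ J, ∑ j' ∈ J.filter (fun j' => cl j' = cl j), v j * (starRingEnd ℂ) (v j') =
      ((∑ k ∈ J.image cl, ‖∑ j ∈ J.filter (fun j => cl j = k), v j‖ ^ 2 : ℝ) : ℂ) := by
  rw [← Finset.sum_fiberwise_of_maps_to (s := J) (t := J.image cl) (g := cl)
    (fun j hj => mem_image_of_mem cl hj)]
  push_cast
  refine Finset.sum_congr rfl fun k _ => ?_
  have h1 : ∀ j ∈ J.filter (fun j => cl j = k),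
      ∑ j' ∈ J.filter (fun j' => cl j' = cl j), v j * (starRingEnd ℂ) (v j') =
        v j * (starRingEnd ℂ) (∑ j' ∈ J.filter (fun j => cl j = k), v j') := by
    intro j hj
    rw [(mem_filter.1 hj).2, ← Finset.mul_sum, map_sum]
  rw [Finset.sum_congr rfl h1, ← Finset.sum_mul, Complex.mul_conj, Complex.normSq_eq_norm_sq]
  push_cast
  rfl

/-- the unimodular factor -/
theorem exists_phase (z : ℂ) : ∃ c : ℂ, ‖c‖ ≤ 1 ∧ c * z = ((‖z‖ : ℝ) : ℂ) := by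
  by_cases hz : z = 0
  · exact ⟨0, by simp, by simp [hz]⟩
  · have hn : ‖z‖ ≠ 0 := norm_ne_zero_iff.2 hz
    refine ⟨(starRingEnd ℂ) z / ((‖z‖ : ℝ) : ℂ), ?_, ?_⟩
    · rw [norm_div, Complex.norm_conj, Complex.norm_real, norm_norm, div_self hn]
    · have hn' : ((‖z‖ : ℝ) : ℂ) ≠ 0 := by exact_mod_cast hn
      rw [div_mul_eq_mul_div, mul_comm, Complex.mul_conj, Complex.normSq_eq_norm_sq,
        div_eq_iff hn']
      push_cast
      ring

/-- exchange of sums for a family of pairs -/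
theorem swap_sum (J : Finset ι) (X : Finset ℕ) (F : ι → Finset ι) (w : ℕ → ℝ)
    (c : ι → ℂ) (u : ι → ℕ → ℂ) :
    ∑ n ∈ X, ((w n : ℝ) : ℂ) * ∑ j ∈ J, ∑ j' ∈ F j, (c j * u j n) * (starRingEnd ℂ) (c j' * u j' n)
      = ∑ j ∈ J, ∑ j' ∈ F j, (c j * (starRingEnd ℂ) (c j')) *
        ∑ n ∈ X, ((w n : ℝ) : ℂ) * (u j n * (starRingEnd ℂ) (u j' n)) := by
  simp only [Finset.mul_sum]
  rw [Finset.sum_comm]
  refine Finset.sum_congr rfl fun j _ => ?_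
  rw [Finset.sum_comm]
  refine Finset.sum_congr rfl fun j' _ => ?_
  refine Finset.sum_congr rfl fun n _ => ?_
  rw [map_mul]
  ring

end ZDualAux

open ZDualAux

theorem dual {ι κ : Type*} [DecidableEq ι] [DecidableEq κ] (J : Finset ι) (X : Finset ℕ)
    (cl : ι → κ) (ch : κ → ℕ → ℂ) (p : ι → ℕ → ℂ) (a t W : ℕ → ℝ) (A Bd ε : ℝ)
    (hA : 0 ≤ A) (hB : 0 ≤ Bd) (hε : 0 ≤ ε)
    (hch : ∀ k n, ‖ch k n‖ ≤ 1) (hW : ∀ n ∈ X, 0 ≤ W n) (hX : ∀ n ∈ X, 1 ≤ n)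
    (hdet : ∀ j ∈ J, 1 / 2 ≤ ‖∑ n ∈ X, ((a n * t n * W n : ℝ) : ℂ) * (ch (cl j) n * p j n)‖)
    (ha : ∑ n ∈ X, a n ^ 2 * W n / n ≤ A)
    (hcross : ∀ j ∈ J, ∀ j' ∈ J, cl j ≠ cl j' →
      ‖∑ n ∈ X, ((n * (t n ^ 2 * W n) : ℝ) : ℂ) *
        ((ch (cl j) n * p j n) * (starRingEnd ℂ) (ch (cl j') n * p j' n))‖ ≤ ε)
    (hsame : ∀ j ∈ J, ∑ j' ∈ J.filter (fun j' => cl j' = cl j),
      ‖∑ n ∈ X, ((n * (t n ^ 2 * W n) : ℝ) : ℂ) * (p j n * (starRingEnd ℂ) (p j' n))‖ ≤ Bd) :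
    (J.card : ℝ) ≤ 4 * A * (Bd + J.card * ε) := by
  rcases J.eq_empty_or_nonempty with hJ | hJ
  · subst hJ
    simp only [card_empty, Nat.cast_zero, zero_mul, add_zero]
    positivity
  have hJ0 : (0 : ℝ) < J.card := by exact_mod_cast hJ.card_pos
  obtain ⟨u, hu⟩ : ∃ u : ι → ℕ → ℂ, ∀ j n, u j n = ch (cl j) n * p j n := ⟨_, fun _ _ => rfl⟩
  obtain ⟨S, hS⟩ : ∃ S : ι → ℂ, ∀ j, S j = ∑ n ∈ X, ((a n * t n * W n : ℝ) : ℂ) * u j n :=
    ⟨_, fun _ => rfl⟩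
  choose c hc1 hc2 using fun j => exists_phase (S j)
  obtain ⟨w, hw⟩ : ∃ w : ℕ → ℝ, ∀ n, w n = n * (t n ^ 2 * W n) := ⟨_, fun _ => rfl⟩
  have hw0 : ∀ n ∈ X, 0 ≤ w n := fun n hn => by
    rw [hw]
    exact mul_nonneg (Nat.cast_nonneg _) (mul_nonneg (sq_nonneg _) (hW n hn))
  obtain ⟨g, hg⟩ : ∃ g : ℕ → ℂ, ∀ n, g n = ∑ j ∈ J, c j * u j n := ⟨_, fun _ => rfl⟩
  have hT1 : (J.card : ℝ) / 2 ≤ ∑ j ∈ J, ‖S j‖ := by
    have h1 : ∑ _j ∈ J, (1 / 2 : ℝ) ≤ ∑ j ∈ J, ‖S j‖ := by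
      refine Finset.sum_le_sum fun j hj => ?_
      rw [hS]
      simp only [hu]
      exact hdet j hj
    rw [Finset.sum_const, nsmul_eq_mul] at h1
    linarith
  have hT2 : ((∑ j ∈ J, ‖S j‖ : ℝ) : ℂ) = ∑ n ∈ X, ((a n * t n * W n : ℝ) : ℂ) * g n := by
    rw [Complex.ofReal_sum]
    have h1 : ∀ j, ((‖S j‖ : ℝ) : ℂ) =
        ∑ n ∈ X, ((a n * t n * W n : ℝ) : ℂ) * (c j * u j n) := by
      intro j
      rw [← hc2 j, hS, Finset.mul_sum]
      exact Finset.sum_congr rfl fun n _ => by ring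
    rw [Finset.sum_congr rfl fun j _ => h1 j, Finset.sum_comm]
    refine Finset.sum_congr rfl fun n _ => ?_
    rw [hg, Finset.mul_sum]
  have hS0 : 0 ≤ ∑ j ∈ J, ‖S j‖ := Finset.sum_nonneg fun j _ => norm_nonneg _
  have hT3 : ∑ j ∈ J, ‖S j‖ ≤ ∑ n ∈ X, |a n * t n * W n| * ‖g n‖ := by
    have h1 : ‖((∑ j ∈ J, ‖S j‖ : ℝ) : ℂ)‖ = ∑ j ∈ J, ‖S j‖ := by
      rw [Complex.norm_real, Real.norm_eq_abs, abs_of_nonneg hS0]
    rw [← h1, hT2]
    refine (norm_sum_le _ _).trans (le_of_eq ?_)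
    refine Finset.sum_congr rfl fun n _ => ?_
    rw [norm_mul, Complex.norm_real, Real.norm_eq_abs]
  obtain ⟨E, hE⟩ : ∃ E : ℝ, E = ∑ n ∈ X, w n * ‖g n‖ ^ 2 := ⟨_, rfl⟩
  have hE0 : 0 ≤ E := by
    rw [hE]
    exact Finset.sum_nonneg fun n hn => mul_nonneg (hw0 n hn) (sq_nonneg _)
  have hT4 : (∑ j ∈ J, ‖S j‖) ^ 2 ≤ A * E := by
    have h1 : (∑ n ∈ X, |a n * t n * W n| * ‖g n‖) ^ 2 ≤
        (∑ n ∈ X, a n ^ 2 * W n / n) * ∑ n ∈ X, w n * ‖g n‖ ^ 2 := by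
      refine Finset.sum_sq_le_sum_mul_sum_of_sq_le_mul X (fun n hn => ?_) (fun n hn => ?_)
        (fun n hn => le_of_eq ?_)
      · exact div_nonneg (mul_nonneg (sq_nonneg _) (hW n hn)) (Nat.cast_nonneg _)
      · exact mul_nonneg (hw0 n hn) (sq_nonneg _)
      · have hn0 : (n : ℝ) ≠ 0 := by
          have := hX n hn
          exact_mod_cast (by omega : n ≠ 0)
        rw [mul_pow, sq_abs, hw]
        field_simp
    have h2 := pow_le_pow_left₀ hS0 hT3 2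
    refine h2.trans (h1.trans ?_)
    rw [← hE]
    exact mul_le_mul_of_nonneg_right ha hE0
  -- the two parts
  obtain ⟨E1, hE1⟩ : ∃ E1 : ℝ, E1 = ∑ n ∈ X, w n * ∑ k ∈ J.image cl,
      ‖∑ j ∈ J.filter (fun j => cl j = k), c j * u j n‖ ^ 2 := ⟨_, rfl⟩
  obtain ⟨E3, hE3⟩ : ∃ E3 : ℝ, E3 = ∑ n ∈ X, w n * ∑ k ∈ J.image cl,
      ‖∑ j ∈ J.filter (fun j => cl j = k), c j * p j n‖ ^ 2 := ⟨_, rfl⟩
  have h13 : E1 ≤ E3 := by
    rw [hE1, hE3]
    refine Finset.sum_le_sum fun n hn => mul_le_mul_of_nonneg_left ?_ (hw0 n hn)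
    refine Finset.sum_le_sum fun k _ => ?_
    have h1 : ∑ j ∈ J.filter (fun j => cl j = k), c j * u j n =
        ch k n * ∑ j ∈ J.filter (fun j => cl j = k), c j * p j n := by
      rw [Finset.mul_sum]
      refine Finset.sum_congr rfl fun j hj => ?_
      rw [hu, (mem_filter.1 hj).2]
      ring
    rw [h1, norm_mul, mul_pow]
    refine mul_le_of_le_one_left (sq_nonneg _) ?_
    exact pow_le_one₀ (norm_nonneg _) (hch k n)
  have hcc : ∀ j j', ‖c j * (starRingEnd ℂ) (c j')‖ ≤ 1 := by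
    intro j j'
    rw [norm_mul, Complex.norm_conj]
    exact mul_le_one₀ (hc1 j) (norm_nonneg _) (hc1 j')
  have h3 : E3 ≤ J.card * Bd := by
    have h4 : ((E3 : ℝ) : ℂ) = ∑ j ∈ J, ∑ j' ∈ J.filter (fun j' => cl j' = cl j),
        (c j * (starRingEnd ℂ) (c j')) *
        ∑ n ∈ X, ((w n : ℝ) : ℂ) * (p j n * (starRingEnd ℂ) (p j' n)) := by
      rw [← swap_sum, hE3, Complex.ofReal_sum]
      refine Finset.sum_congr rfl fun n _ => ?_
      rw [Complex.ofReal_mul, pair_eq J cl (fun j => c j * p j n)]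
    have h5 : E3 ≤ ‖((E3 : ℝ) : ℂ)‖ := by
      rw [Complex.norm_real]
      exact le_abs_self _
    refine h5.trans ?_
    rw [h4]
    refine (norm_sum_le _ _).trans ?_
    have h6 : ∑ _j ∈ J, Bd = J.card * Bd := by rw [Finset.sum_const, nsmul_eq_mul]
    rw [← h6]
    refine Finset.sum_le_sum fun j hj => ?_
    refine (norm_sum_le _ _).trans (le_trans ?_ (hsame j hj))
    refine Finset.sum_le_sum fun j' _ => ?_
    rw [norm_mul]
    simp only [hw]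
    exact mul_le_of_le_one_left (norm_nonneg _) (hcc j j')
  have h2 : E - E1 ≤ J.card * (J.card * ε) := by
    have h4 : ((E - E1 : ℝ) : ℂ) = ∑ j ∈ J, ∑ j' ∈ J.filter (fun j' => ¬ cl j' = cl j),
        (c j * (starRingEnd ℂ) (c j')) *
        ∑ n ∈ X, ((w n : ℝ) : ℂ) * (u j n * (starRingEnd ℂ) (u j' n)) := by
      rw [← swap_sum, hE, hE1, Complex.ofReal_sub, Complex.ofReal_sum, Complex.ofReal_sum,
        ← Finset.sum_sub_distrib]
      refine Finset.sum_congr rfl fun n _ => ?_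
      rw [Complex.ofReal_mul, Complex.ofReal_mul, ← pair_eq J cl (fun j => c j * u j n), ← mul_sub]
      congr 1
      have h5 : ((‖g n‖ ^ 2 : ℝ) : ℂ) = ∑ j ∈ J, ∑ j' ∈ J,
          (c j * u j n) * (starRingEnd ℂ) (c j' * u j' n) := by
        rw [← Complex.normSq_eq_norm_sq, ← Complex.mul_conj, hg, map_sum, Finset.sum_mul_sum]
      rw [h5, ← Finset.sum_sub_distrib]
      refine Finset.sum_congr rfl fun j _ => ?_
      rw [sub_eq_iff_eq_add', ← Finset.sum_filter_add_sum_filter_not J (fun j' => cl j' = cl j)]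
    have h5 : E - E1 ≤ ‖((E - E1 : ℝ) : ℂ)‖ := by
      rw [Complex.norm_real]
      exact le_abs_self _
    refine h5.trans ?_
    rw [h4]
    refine (norm_sum_le _ _).trans ?_
    have h6 : ∑ _j ∈ J, (J.card * ε) = J.card * (J.card * ε) := by
      rw [Finset.sum_const, nsmul_eq_mul]
    rw [← h6]
    refine Finset.sum_le_sum fun j hj => ?_
    refine (norm_sum_le _ _).trans ?_
    have h7 : ∑ _j' ∈ J.filter (fun j' => ¬ cl j' = cl j), ε ≤ J.card * ε := by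
      rw [Finset.sum_const, nsmul_eq_mul]
      refine mul_le_mul_of_nonneg_right ?_ hε
      exact_mod_cast card_filter_le _ _
    refine le_trans (Finset.sum_le_sum fun j' hj' => ?_) h7
    rw [norm_mul]
    refine (mul_le_of_le_one_left (norm_nonneg _) (hcc j j')).trans ?_
    simp only [hw, hu]
    exact hcross j hj j' (mem_filter.1 hj').1 (fun h => (mem_filter.1 hj').2 h.symm)
  have hfin : (J.card : ℝ) ^ 2 / 4 ≤ A * (J.card * Bd + J.card * (J.card * ε)) := by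
    have h4 := pow_le_pow_left₀ (by positivity : (0 : ℝ) ≤ J.card / 2) hT1 2
    have h5 : E ≤ J.card * Bd + J.card * (J.card * ε) := by linarith
    have h6 := mul_le_mul_of_nonneg_left h5 hA
    have h7 : ((J.card : ℝ) / 2) ^ 2 = (J.card : ℝ) ^ 2 / 4 := by ring
    linarith
  have h8 : (J.card : ℝ) * J.card ≤ (4 * A * (Bd + J.card * ε)) * J.card := by
    nlinarith
  exact le_of_mul_le_mul_right h8 hJ0

end Pool.Agent.Lib.GMV
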