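import Pool.Agent.Lib.GMV.ZWt

/-!
# GMV.ZKer (2 h): sums of the weights against `m^(-w)` near `Re w = 1`

PROOF. `ker`: `K = ∫_1^(N^2) WW(y) y^(-w) dy`. The weight is a combination of the ramps
`max 0 (log y - log a)`, `a = √z, z, N, N^2`, and `∫_1^T ramp a · y^(-w) dy` is explicit. The sum over
`m` is compared with the integral on the intervals `(k, k+1)`.
-/

set_option autoImplicit false

open Finset MeasureTheory

namespace Pool.Agent.Lib.GMV

namespace ZKerAux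

/-- The ramp starting at `a`, in the variable `log y`. -/
noncomputable def rp (a y : ℝ) : ℝ := max 0 (Real.log y - Real.log a)

theorem contOn_log : ContinuousOn Real.log (Set.Ioi 0) :=
  Real.continuousOn_log.mono fun _ hx => ne_of_gt hx

theorem contOn_rp (a : ℝ) : ContinuousOn (rp a) (Set.Ioi 0) := by
  unfold rp
  have h := contOn_log
  fun_prop

theorem contOn_WW (z N : ℝ) : ContinuousOn (WW z N) (Set.Ioi 0) := by
  unfold WW
  have h := contOn_log
  fun_prop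

theorem contOn_cpow (w : ℂ) : ContinuousOn (fun y : ℝ => (y : ℂ) ^ (-w)) (Set.Ioi 0) := by
  intro y hy
  have hy' : (0 : ℝ) < y := hy
  apply ContinuousAt.continuousWithinAt
  exact (Complex.continuousAt_ofReal_cpow_const y (-w) (Or.inr hy'.ne'))

theorem contOn_mul {f : ℝ → ℝ} (hf : ContinuousOn f (Set.Ioi 0)) (w : ℂ) :
    ContinuousOn (fun y : ℝ => ((f y : ℝ) : ℂ) * (y : ℂ) ^ (-w)) (Set.Ioi 0) :=
  (Complex.continuous_ofReal.comp_continuousOn hf).mul (contOn_cpow w)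

theorem intble {f : ℝ → ℝ} (hf : ContinuousOn f (Set.Ioi 0)) (w : ℂ) {a b : ℝ} (ha : 0 < a)
    (hb : 0 < b) :
    IntervalIntegrable (fun y : ℝ => ((f y : ℝ) : ℂ) * (y : ℂ) ^ (-w)) volume a b := by
  apply ContinuousOn.intervalIntegrable
  apply (contOn_mul hf w).mono
  intro y hy
  rcases le_total a b with h | h
  · rw [Set.uIcc_of_le h] at hy
    exact ha.trans_le hy.1
  · rw [Set.uIcc_of_ge h] at hy
    exact hb.trans_le hy.1

theorem int_ramp {a T : ℝ} {w : ℂ} (ha : 1 ≤ a) (haT : a ≤ T) (hw : w ≠ 1) :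
    ∫ y in (1 : ℝ)..T, ((rp a y : ℝ) : ℂ) * (y : ℂ) ^ (-w) =
      (T : ℂ) ^ (1 - w) * (((Real.log T - Real.log a : ℝ) : ℂ) / (1 - w) - 1 / (1 - w) ^ 2) +
        (a : ℂ) ^ (1 - w) / (1 - w) ^ 2 := by
  have ha0 : 0 < a := by linarith
  have hT0 : 0 < T := by linarith
  have hc : (1 - w) ≠ 0 := sub_ne_zero.2 hw.symm
  rw [← intervalIntegral.integral_add_adjacent_intervals
    (intble (contOn_rp a) w one_pos ha0) (intble (contOn_rp a) w ha0 hT0)]
  have h1 : ∫ y in (1 : ℝ)..a, ((rp a y : ℝ) : ℂ) * (y : ℂ) ^ (-w) = 0 := by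
    apply intervalIntegral.integral_zero_ae
    apply Filter.Eventually.of_forall
    intro y hy
    rw [Set.uIoc_of_le ha] at hy
    have h2 : rp a y = 0 := by
      unfold rp
      apply max_eq_left
      have := Real.log_le_log (by linarith [hy.1]) hy.2
      linarith
    rw [h2, Complex.ofReal_zero, zero_mul]
  have h2 : ∫ y in a..T, ((rp a y : ℝ) : ℂ) * (y : ℂ) ^ (-w) =
      ∫ y in a..T, ((Real.log y - Real.log a : ℝ) : ℂ) * (y : ℂ) ^ (-w) := by
    apply intervalIntegral.integral_congr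
    intro y hy
    rw [Set.uIcc_of_le haT] at hy
    have h3 : rp a y = Real.log y - Real.log a := by
      unfold rp
      apply max_eq_right
      have := Real.log_le_log ha0 hy.1
      linarith
    simp only [h3]
  have hd : ∀ y ∈ Set.uIcc a T, HasDerivAt (fun y : ℝ => (y : ℂ) ^ (1 - w) *
      (((Real.log y - Real.log a : ℝ) : ℂ) / (1 - w) - 1 / (1 - w) ^ 2))
      (((Real.log y - Real.log a : ℝ) : ℂ) * (y : ℂ) ^ (-w)) y := by
    intro y hy
    rw [Set.uIcc_of_le haT] at hy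
    have hy0 : 0 < y := by linarith [hy.1]
    have hyc : (y : ℂ) ≠ 0 := by exact_mod_cast hy0.ne'
    have e1 := hasDerivAt_ofReal_cpow_const (x := y) hy0.ne' hc
    have e2 : HasDerivAt (fun y : ℝ => (((Real.log y - Real.log a : ℝ) : ℂ) / (1 - w) -
        1 / (1 - w) ^ 2)) (((y⁻¹ : ℝ) : ℂ) / (1 - w)) y := by
      have e3 : HasDerivAt (fun y : ℝ => Real.log y - Real.log a) y⁻¹ y :=
        (Real.hasDerivAt_log hy0.ne').sub_const _
      exact (e3.ofReal_comp.div_const _).sub_const _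
    have e4 := e1.mul e2
    have e5 : (1 - w - 1 : ℂ) = -w := by ring
    have e6 : (y : ℂ) ^ (1 - w) = (y : ℂ) ^ (-w) * y := by
      rw [show (1 - w : ℂ) = -w + 1 by ring, Complex.cpow_add _ _ hyc, Complex.cpow_one]
    refine e4.congr_deriv ?_
    rw [e5, e6]
    push_cast
    field_simp
    ring
  have h4 : IntervalIntegrable (fun y : ℝ => ((Real.log y - Real.log a : ℝ) : ℂ) *
      (y : ℂ) ^ (-w)) volume a T :=
    intble (f := fun y => Real.log y - Real.log a) (contOn_log.sub continuousOn_const) w ha0 hT0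
  have h3 := intervalIntegral.integral_eq_sub_of_hasDerivAt hd h4
  rw [h1, h2, h3]
  push_cast
  field_simp
  ring

theorem ramp_id {u A B : ℝ} (hA : 0 < A) (hAB : A ≤ B) (hu2 : u ≤ 2 * B) :
    max 0 (min (min 1 (2 * u / A - 1)) (2 - u / B)) =
      2 / A * (max 0 (u - A / 2) - max 0 (u - A)) - 1 / B * (max 0 (u - B) - max 0 (u - 2 * B)) := by
  have hB : 0 < B := by linarith
  have hA0 : A ≠ 0 := hA.ne'
  have hB0 : B ≠ 0 := hB.ne'
  have hr4 : max 0 (u - 2 * B) = 0 := max_eq_left (by linarith)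
  rw [hr4]
  have f1 : 2 * u / A - 1 = 2 / A * (u - A / 2) := by field_simp
  have f2 : 2 - u / B = 1 - 1 / B * (u - B) := by field_simp; ring
  rcases le_total u (A / 2) with h1 | h1
  · rw [max_eq_left (show u - A / 2 ≤ 0 by linarith), max_eq_left (show u - A ≤ 0 by linarith),
      max_eq_left (show u - B ≤ 0 by linarith)]
    have g1 : 2 * u / A - 1 ≤ 0 := by
      rw [f1]
      exact mul_nonpos_of_nonneg_of_nonpos (by positivity) (by linarith)
    rw [max_eq_left]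
    · ring
    · exact (min_le_left _ _).trans ((min_le_right _ _).trans g1)
  · rcases le_total u A with h2 | h2
    · rw [max_eq_right (show 0 ≤ u - A / 2 by linarith), max_eq_left (show u - A ≤ 0 by linarith),
        max_eq_left (show u - B ≤ 0 by linarith)]
      have g1 : 0 ≤ 2 * u / A - 1 := by
        rw [f1]
        exact mul_nonneg (by positivity) (by linarith)
      have g2 : 2 * u / A - 1 ≤ 1 := by
        rw [sub_le_iff_le_add, div_le_iff₀ hA]
        linarith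
      have g3 : 1 ≤ 2 - u / B := by
        have : u / B ≤ 1 := by
          rw [div_le_iff₀ hB]
          linarith
        linarith
      rw [min_eq_right g2, min_eq_left (g2.trans g3), max_eq_right g1, f1]
      ring
    · rcases le_total u B with h3 | h3
      · rw [max_eq_right (show 0 ≤ u - A / 2 by linarith),
          max_eq_right (show 0 ≤ u - A by linarith), max_eq_left (show u - B ≤ 0 by linarith)]
        have g2 : 1 ≤ 2 * u / A - 1 := by
          rw [le_sub_iff_add_le, le_div_iff₀ hA]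
          linarith
        have g3 : 1 ≤ 2 - u / B := by
          have : u / B ≤ 1 := by
            rw [div_le_iff₀ hB]
            linarith
          linarith
        rw [min_eq_left g2, min_eq_left g3, max_eq_right zero_le_one]
        field_simp
        ring
      · rw [max_eq_right (show 0 ≤ u - A / 2 by linarith),
          max_eq_right (show 0 ≤ u - A by linarith), max_eq_right (show 0 ≤ u - B by linarith)]
        have g2 : 1 ≤ 2 * u / A - 1 := by
          rw [le_sub_iff_add_le, le_div_iff₀ hA]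
          linarith
        have g3 : 2 - u / B ≤ 1 := by
          have : 1 ≤ u / B := by
            rw [le_div_iff₀ hB]
            linarith
          linarith
        have g4 : 0 ≤ 2 - u / B := by
          have : u / B ≤ 2 := by
            rw [div_le_iff₀ hB]
            linarith
          linarith
        rw [min_eq_left g2, min_eq_right g3, max_eq_right g4]
        field_simp
        ring

theorem WW_ramp {z N y : ℝ} (hz : 8 ≤ z) (hzN : z ≤ N) (hy : y ≤ N ^ 2) (hy0 : 1 ≤ y) :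
    WW z N y = 2 / Real.log z * (rp (Real.sqrt z) y - rp z y) -
      1 / Real.log N * (rp N y - rp (N ^ 2) y) := by
  have hA : 0 < Real.log z := Real.log_pos (by linarith)
  have hAB : Real.log z ≤ Real.log N := Real.log_le_log (by linarith) hzN
  have e1 : Real.log (Real.sqrt z) = Real.log z / 2 := Real.log_sqrt (by linarith)
  have e2 : Real.log (N ^ 2) = 2 * Real.log N := by
    rw [Real.log_pow]
    norm_num
  have hu2 : Real.log y ≤ 2 * Real.log N := by
    rw [← e2]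
    exact Real.log_le_log (by linarith) hy
  unfold WW rp
  rw [e1, e2]
  exact ramp_id hA hAB hu2

/-- The transform. -/
theorem ker_eq {z N : ℝ} {w : ℂ} (hz : 8 ≤ z) (hzN : z ≤ N) (hw : w ≠ 1) :
    (1 - w) ^ 2 * ∫ y in (1 : ℝ)..(N ^ 2), ((WW z N y : ℝ) : ℂ) * (y : ℂ) ^ (-w) =
      ((2 / Real.log z : ℝ) : ℂ) * (((Real.sqrt z : ℝ) : ℂ) ^ (1 - w) - (z : ℂ) ^ (1 - w)) -
      ((1 / Real.log N : ℝ) : ℂ) * ((N : ℂ) ^ (1 - w) - ((N ^ 2 : ℝ) : ℂ) ^ (1 - w)) := by
  have hz0 : (0 : ℝ) < z := by linarith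
  have hN1 : 1 ≤ N := by linarith
  have hN0 : 0 < N := by linarith
  have hNN : N ≤ N ^ 2 := by nlinarith
  have hT0 : (0 : ℝ) < N ^ 2 := by positivity
  have hs1 : 1 ≤ Real.sqrt z := Real.one_le_sqrt.2 (by linarith)
  have hsz : Real.sqrt z ≤ z := Real.sqrt_le_iff.2 ⟨hz0.le, by nlinarith⟩
  have hA : 0 < Real.log z := Real.log_pos (by linarith)
  have hAB : Real.log z ≤ Real.log N := Real.log_le_log (by linarith) hzN
  have hB : 0 < Real.log N := by linarith
  have hc : (1 - w) ≠ 0 := sub_ne_zero.2 hw.symm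
  have h1 : ∫ y in (1 : ℝ)..(N ^ 2), ((WW z N y : ℝ) : ℂ) * (y : ℂ) ^ (-w) =
      ∫ y in (1 : ℝ)..(N ^ 2), ((((2 / Real.log z : ℝ) : ℂ) *
        (((rp (Real.sqrt z) y : ℝ) : ℂ) * (y : ℂ) ^ (-w)) -
        ((2 / Real.log z : ℝ) : ℂ) * (((rp z y : ℝ) : ℂ) * (y : ℂ) ^ (-w))) -
        (((1 / Real.log N : ℝ) : ℂ) * (((rp N y : ℝ) : ℂ) * (y : ℂ) ^ (-w)) -
        ((1 / Real.log N : ℝ) : ℂ) * (((rp (N ^ 2) y : ℝ) : ℂ) * (y : ℂ) ^ (-w)))) := by
    apply intervalIntegral.integral_congr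
    intro y hy
    rw [Set.uIcc_of_le (by linarith)] at hy
    simp only
    rw [WW_ramp hz hzN hy.2 hy.1]
    push_cast
    ring
  have ii : ∀ a : ℝ, IntervalIntegrable (fun y : ℝ => ((rp a y : ℝ) : ℂ) * (y : ℂ) ^ (-w))
      volume 1 (N ^ 2) := fun a => intble (contOn_rp a) w one_pos hT0
  rw [h1, intervalIntegral.integral_sub (((ii _).const_mul _).sub ((ii _).const_mul _))
    (((ii _).const_mul _).sub ((ii _).const_mul _)),
    intervalIntegral.integral_sub ((ii _).const_mul _) ((ii _).const_mul _),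
    intervalIntegral.integral_sub ((ii _).const_mul _) ((ii _).const_mul _)]
  simp only [intervalIntegral.integral_const_mul]
  rw [int_ramp hs1 (by linarith) hw, int_ramp (by linarith) (by linarith) hw,
    int_ramp hN1 hNN hw, int_ramp (by linarith) le_rfl hw]
  have e1 : Real.log (Real.sqrt z) = Real.log z / 2 := Real.log_sqrt (by linarith)
  have e2 : Real.log (N ^ 2) = 2 * Real.log N := by
    rw [Real.log_pow]
    norm_num
  rw [e1, e2]
  have hA' : ((Real.log z : ℝ) : ℂ) ≠ 0 := by exact_mod_cast hA.ne'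
  have hB' : ((Real.log N : ℝ) : ℂ) ≠ 0 := by exact_mod_cast hB.ne'
  obtain ⟨T, hT⟩ : ∃ T : ℂ, T = ((N ^ 2 : ℝ) : ℂ) ^ (1 - w) := ⟨_, rfl⟩
  rw [← hT]
  obtain ⟨T1, hT1⟩ : ∃ T : ℂ, T = ((Real.sqrt z : ℝ) : ℂ) ^ (1 - w) := ⟨_, rfl⟩
  rw [← hT1]
  obtain ⟨T2, hT2⟩ : ∃ T : ℂ, T = (z : ℂ) ^ (1 - w) := ⟨_, rfl⟩
  rw [← hT2]
  obtain ⟨T3, hT3⟩ : ∃ T : ℂ, T = (N : ℂ) ^ (1 - w) := ⟨_, rfl⟩
  rw [← hT3]
  push_cast
  field_simp
  ring

theorem norm_cpow_le {N α a : ℝ} {w : ℂ} (hα : 0 ≤ α) (hw : w.re = 1 - α)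
    (ha : 1 ≤ a) (haN : a ≤ N ^ 2) (hN : 1 ≤ N) : ‖(a : ℂ) ^ (1 - w)‖ ≤ N ^ (2 * α) := by
  have ha0 : 0 < a := by linarith
  rw [Complex.norm_cpow_eq_rpow_re_of_pos ha0]
  have e1 : (1 - w).re = α := by
    rw [Complex.sub_re, Complex.one_re, hw]
    ring
  rw [e1]
  calc a ^ α ≤ (N ^ 2) ^ α := Real.rpow_le_rpow ha0.le haN hα
    _ = N ^ (2 * α) := by
        rw [← Real.rpow_natCast, ← Real.rpow_mul (by linarith)]
        norm_num

/-- The first bound. -/
theorem bound1 {z N α : ℝ} {w : ℂ} (hz : 8 ≤ z) (hzN : z ≤ N) (hα : 0 ≤ α)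
    (hw : w.re = 1 - α) :
    ‖∫ y in (1 : ℝ)..(N ^ 2), ((WW z N y : ℝ) : ℂ) * (y : ℂ) ^ (-w)‖ ≤
      2 * Real.log N * N ^ (2 * α) := by
  have hN0 : 0 < N := by linarith
  have hT1 : (1 : ℝ) ≤ N ^ 2 := by nlinarith
  have h1 := intervalIntegral.norm_integral_le_of_norm_le (μ := volume)
    (f := fun y : ℝ => ((WW z N y : ℝ) : ℂ) * (y : ℂ) ^ (-w))
    (g := fun y : ℝ => N ^ (2 * α) * y⁻¹) hT1 (by
      apply Filter.Eventually.of_forall
      intro y hy
      have hy0 : 0 < y := by linarith [hy.1]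
      rw [norm_mul, Complex.norm_real, Complex.norm_cpow_eq_rpow_re_of_pos hy0, Complex.neg_re, hw]
      obtain ⟨g1, g2⟩ := WW_mem z N y
      rw [Real.norm_of_nonneg g1]
      have e1 : y ^ (-(1 - α)) = y ^ α * y⁻¹ := by
        rw [show -(1 - α) = α + -1 by ring, Real.rpow_add hy0, Real.rpow_neg_one]
      have e2 : y ^ α ≤ N ^ (2 * α) := by
        calc y ^ α ≤ (N ^ 2) ^ α := Real.rpow_le_rpow hy0.le hy.2 hα
          _ = N ^ (2 * α) := by
              rw [← Real.rpow_natCast, ← Real.rpow_mul hN0.le]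
              norm_num
      rw [e1]
      have hyi : 0 ≤ y⁻¹ := by positivity
      have hya : 0 ≤ y ^ α := by positivity
      calc WW z N y * (y ^ α * y⁻¹) ≤ 1 * (y ^ α * y⁻¹) :=
            mul_le_mul_of_nonneg_right g2 (by positivity)
        _ ≤ N ^ (2 * α) * y⁻¹ := by
            rw [one_mul]
            exact mul_le_mul_of_nonneg_right e2 hyi) (by
      apply IntervalIntegrable.const_mul
      apply intervalIntegral.intervalIntegrable_inv
      · intro y hy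
        rw [Set.uIcc_of_le hT1] at hy
        linarith [hy.1]
      · exact continuousOn_id)
  refine h1.trans (le_of_eq ?_)
  rw [intervalIntegral.integral_const_mul, integral_inv_of_pos one_pos (by positivity), div_one,
    Real.log_pow]
  push_cast
  ring

/-- The second bound. -/
theorem bound2 {z N α : ℝ} {w : ℂ} (hz : 8 ≤ z) (hzN : z ≤ N) (hα : 0 ≤ α)
    (hw : w.re = 1 - α) :
    ‖1 - w‖ ^ 2 * ‖∫ y in (1 : ℝ)..(N ^ 2), ((WW z N y : ℝ) : ℂ) * (y : ℂ) ^ (-w)‖ ≤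
      6 * N ^ (2 * α) / Real.log z := by
  have hN1 : 1 ≤ N := by linarith
  have hN0 : 0 < N := by linarith
  have hA : 0 < Real.log z := Real.log_pos (by linarith)
  have hAB : Real.log z ≤ Real.log N := Real.log_le_log (by linarith) hzN
  have hB : 0 < Real.log N := by linarith
  have hP : 0 ≤ N ^ (2 * α) := by positivity
  rcases eq_or_ne w 1 with h1 | h1
  · rw [h1, sub_self, norm_zero]
    have : 0 ≤ 6 * N ^ (2 * α) / Real.log z := by positivity
    simpa using this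
  · rw [← norm_pow, ← norm_mul, ker_eq hz hzN h1]
    have hs1 : 1 ≤ Real.sqrt z := Real.one_le_sqrt.2 (by linarith)
    have hsz : Real.sqrt z ≤ z := Real.sqrt_le_iff.2 ⟨by linarith, by nlinarith⟩
    have hNN : N ≤ N ^ 2 := by nlinarith
    have b1 := norm_cpow_le hα hw hs1 (by linarith) hN1
    have b2 := norm_cpow_le (a := z) hα hw (by linarith) (by linarith) hN1
    have b3 := norm_cpow_le (a := N) hα hw hN1 hNN hN1
    have b4 := norm_cpow_le (a := N ^ 2) hα hw (by linarith) le_rfl hN1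
    refine (norm_sub_le _ _).trans ?_
    rw [norm_mul, norm_mul, Complex.norm_real, Complex.norm_real,
      Real.norm_of_nonneg (by positivity), Real.norm_of_nonneg (by positivity)]
    have c1 : ‖((Real.sqrt z : ℝ) : ℂ) ^ (1 - w) - (z : ℂ) ^ (1 - w)‖ ≤ 2 * N ^ (2 * α) :=
      (norm_sub_le _ _).trans (by linarith)
    have c2 : ‖(N : ℂ) ^ (1 - w) - ((N ^ 2 : ℝ) : ℂ) ^ (1 - w)‖ ≤ 2 * N ^ (2 * α) :=
      (norm_sub_le _ _).trans (by linarith)
    have c3 : 1 / Real.log N ≤ 1 / Real.log z := one_div_le_one_div_of_le hA hAB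
    calc 2 / Real.log z * ‖((Real.sqrt z : ℝ) : ℂ) ^ (1 - w) - (z : ℂ) ^ (1 - w)‖ +
          1 / Real.log N * ‖(N : ℂ) ^ (1 - w) - ((N ^ 2 : ℝ) : ℂ) ^ (1 - w)‖ ≤
          2 / Real.log z * (2 * N ^ (2 * α)) + 1 / Real.log z * (2 * N ^ (2 * α)) := by
          apply add_le_add
          · exact mul_le_mul_of_nonneg_left c1 (by positivity)
          · exact mul_le_mul c3 c2 (norm_nonneg _) (by positivity)
      _ = 6 * N ^ (2 * α) / Real.log z := by ring

/-- Differences of the powers. -/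
theorem cpow_diff {w : ℂ} (hw : 1 / 2 ≤ w.re) {k x m : ℝ} (hk : 1 ≤ k) (hkx : k ≤ x)
    (hxm : x ≤ m) (hmk : m ≤ k + 1) :
    ‖(m : ℂ) ^ (-w) - (x : ℂ) ^ (-w)‖ ≤ ‖w‖ * k ^ (-(3 / 2) : ℝ) := by
  have hw0 : w ≠ 0 := by
    rintro rfl
    rw [Complex.zero_re] at hw
    norm_num at hw
  have h := Convex.norm_image_sub_le_of_norm_hasDerivWithin_le (f := fun t : ℝ => (t : ℂ) ^ (-w))
    (f' := fun t : ℝ => -w * (t : ℂ) ^ (-w - 1)) (s := Set.Icc x m) (x := x) (y := m)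
    (C := ‖w‖ * k ^ (-(3 / 2) : ℝ)) (by
      intro t ht
      have ht0 : 0 < t := by linarith [ht.1]
      exact (hasDerivAt_ofReal_cpow_const (x := t) ht0.ne' (neg_ne_zero.2 hw0)).hasDerivWithinAt)
    (by
      intro t ht
      have ht0 : 0 < t := by linarith [ht.1]
      rw [norm_mul, norm_neg, Complex.norm_cpow_eq_rpow_re_of_pos ht0]
      apply mul_le_mul_of_nonneg_left _ (norm_nonneg _)
      have e1 : (-w - 1).re = -w.re - 1 := by simp
      rw [e1]
      calc t ^ (-w.re - 1) ≤ t ^ (-(3 / 2) : ℝ) :=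
            Real.rpow_le_rpow_of_exponent_le (by linarith [ht.1]) (by linarith)
        _ ≤ k ^ (-(3 / 2) : ℝ) :=
            Real.rpow_le_rpow_of_nonpos (by linarith) (by linarith [ht.1]) (by norm_num))
    (convex_Icc x m) ⟨le_rfl, hxm⟩ ⟨hxm, le_rfl⟩
  refine h.trans ?_
  have h2 : ‖m - x‖ ≤ 1 := by
    rw [Real.norm_of_nonneg (by linarith)]
    linarith
  have h3 : 0 ≤ ‖w‖ * k ^ (-(3 / 2) : ℝ) := by positivity
  calc ‖w‖ * k ^ (-(3 / 2) : ℝ) * ‖m - x‖ ≤ ‖w‖ * k ^ (-(3 / 2) : ℝ) * 1 :=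
        mul_le_mul_of_nonneg_left h2 h3
    _ = ‖w‖ * k ^ (-(3 / 2) : ℝ) := mul_one _

/-- The difference of the summand and the integrand. -/
theorem fn_diff {z N : ℝ} {w : ℂ} (hz : 8 ≤ z) (hN : 3 ≤ N) (hw : 1 / 2 ≤ w.re) {g k x m : ℝ}
    (hg : 1 ≤ g) (hk : 1 ≤ k) (hkx : k ≤ x) (hxm : x ≤ m) (hmk : m ≤ k + 1) :
    ‖((WW z N (g * m) : ℝ) : ℂ) * (m : ℂ) ^ (-w) - ((WW z N (g * x) : ℝ) : ℂ) * (x : ℂ) ^ (-w)‖ ≤
      (1 + ‖w‖) * k ^ (-(3 / 2) : ℝ) := by
  have hx0 : 0 < x := by linarith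
  have hm0 : 0 < m := by linarith
  have hk0 : 0 < k := by linarith
  have hg0 : 0 < g := by linarith
  have e : ((WW z N (g * m) : ℝ) : ℂ) * (m : ℂ) ^ (-w) -
      ((WW z N (g * x) : ℝ) : ℂ) * (x : ℂ) ^ (-w) =
      ((WW z N (g * m) - WW z N (g * x) : ℝ) : ℂ) * (m : ℂ) ^ (-w) +
      ((WW z N (g * x) : ℝ) : ℂ) * ((m : ℂ) ^ (-w) - (x : ℂ) ^ (-w)) := by
    push_cast
    ring
  rw [e]
  refine (norm_add_le _ _).trans ?_
  rw [norm_mul, norm_mul, Complex.norm_real, Complex.norm_real,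
    Complex.norm_cpow_eq_rpow_re_of_pos hm0]
  obtain ⟨g1, g2⟩ := WW_mem z N (g * x)
  rw [Real.norm_of_nonneg g1, Real.norm_eq_abs]
  have d1 := WW_diff (z := z) (N := N) hz hN (a := g * x) (b := g * m) (by positivity)
    (mul_le_mul_of_nonneg_left hxm hg0.le)
  have d2 : Real.log (g * m) - Real.log (g * x) ≤ k⁻¹ := by
    rw [Real.log_mul hg0.ne' hm0.ne', Real.log_mul hg0.ne' hx0.ne']
    have h1 : Real.log m - Real.log x = Real.log (m / x) := (Real.log_div hm0.ne' hx0.ne').symm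
    have h2 : Real.log (m / x) ≤ m / x - 1 := Real.log_le_sub_one_of_pos (by positivity)
    have h3 : m / x - 1 ≤ k⁻¹ := by
      rw [div_sub_one hx0.ne', ← one_div, div_le_div_iff₀ hx0 hk0]
      nlinarith
    linarith
  have d3 : m ^ ((-w).re) ≤ k ^ (-(1 / 2) : ℝ) := by
    rw [Complex.neg_re]
    calc m ^ (-w.re) ≤ m ^ (-(1 / 2) : ℝ) :=
          Real.rpow_le_rpow_of_exponent_le (by linarith) (by linarith)
      _ ≤ k ^ (-(1 / 2) : ℝ) := Real.rpow_le_rpow_of_nonpos hk0 (by linarith) (by norm_num)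
  have d4 := cpow_diff hw hk hkx hxm hmk
  have d5 : k⁻¹ * k ^ (-(1 / 2) : ℝ) = k ^ (-(3 / 2) : ℝ) := by
    rw [← Real.rpow_neg_one, ← Real.rpow_add hk0]
    norm_num
  calc |WW z N (g * m) - WW z N (g * x)| * m ^ ((-w).re) +
        WW z N (g * x) * ‖(m : ℂ) ^ (-w) - (x : ℂ) ^ (-w)‖ ≤
        k⁻¹ * k ^ (-(1 / 2) : ℝ) + 1 * (‖w‖ * k ^ (-(3 / 2) : ℝ)) := by
        apply add_le_add
        · exact mul_le_mul (d1.trans d2) d3 (by positivity) (by positivity)
        · exact mul_le_mul g2 d4 (norm_nonneg _) zero_le_one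
    _ = (1 + ‖w‖) * k ^ (-(3 / 2) : ℝ) := by
        rw [d5]
        ring

theorem b_le {k : ℝ} (hk : 1 ≤ k) :
    k ^ (-(3 / 2) : ℝ) ≤ 6 * ((Real.sqrt k)⁻¹ - (Real.sqrt (k + 1))⁻¹) := by
  have hk0 : 0 < k := by linarith
  obtain ⟨r, hr⟩ : ∃ r, r = Real.sqrt k := ⟨_, rfl⟩
  obtain ⟨s, hs⟩ : ∃ s, s = Real.sqrt (k + 1) := ⟨_, rfl⟩
  have hr0 : 0 < r := by rw [hr]; exact Real.sqrt_pos.2 hk0
  have hs0 : 0 < s := by rw [hs]; exact Real.sqrt_pos.2 (by linarith)
  have hr2 : r ^ 2 = k := by rw [hr]; exact Real.sq_sqrt hk0.le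
  have hs2 : s ^ 2 = k + 1 := by rw [hs]; exact Real.sq_sqrt (by linarith)
  have hrs : r ≤ s := by rw [hr, hs]; exact Real.sqrt_le_sqrt (by linarith)
  have e1 : k ^ (-(3 / 2) : ℝ) = (r ^ 3)⁻¹ := by
    rw [Real.rpow_neg hk0.le, hr, Real.sqrt_eq_rpow, ← Real.rpow_natCast, ← Real.rpow_mul hk0.le]
    norm_num
  rw [e1, ← hr, ← hs]
  have e2 : r⁻¹ - s⁻¹ = ((s + r) * (r * s))⁻¹ := by
    have h1 : (s - r) * (s + r) = 1 := by nlinarith
    have h2 : s + r ≠ 0 := by positivity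
    field_simp
    linarith
  rw [e2, ← div_eq_mul_inv, ← one_div, div_le_div_iff₀ (by positivity) (by positivity), one_mul]
  have h3 : (s + r) * s ≤ 6 * r ^ 2 := by nlinarith
  calc (s + r) * (r * s) = (s + r) * s * r := by ring
    _ ≤ 6 * r ^ 2 * r := mul_le_mul_of_nonneg_right h3 hr0.le
    _ = 6 * r ^ 3 := by ring

theorem tele {E : Type*} [AddCommGroup E] (G : ℕ → E) (M : ℕ) :
    ∑ k ∈ Ico 1 (M + 1), (G k - G (k + 1)) = G 1 - G (M + 1) := by
  induction M with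
  | zero => simp
  | succ n ih =>
    rw [Finset.sum_Ico_succ_top (by omega), ih]
    abel

theorem int_zero {z N : ℝ} {w : ℂ} {a b : ℝ} (hab : a ≤ b)
    (h : ∀ y, a ≤ y → y ≤ b → WW z N y = 0) :
    ∫ y in a..b, ((WW z N y : ℝ) : ℂ) * (y : ℂ) ^ (-w) = 0 := by
  apply intervalIntegral.integral_zero_ae
  apply Filter.Eventually.of_forall
  intro y hy
  rw [Set.uIoc_of_le hab] at hy
  rw [h y hy.1.le hy.2, Complex.ofReal_zero, zero_mul]

theorem subst {z N : ℝ} {w : ℂ} (hz : 8 ≤ z) (hzN : z ≤ N) {g : ℝ} {M : ℕ} (hg : 1 ≤ g)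
    (hgz : g ^ 2 ≤ z) (hM : N ^ 2 ≤ g * (M + 1)) :
    ∫ x in (1 : ℝ)..((M : ℝ) + 1), ((WW z N (g * x) : ℝ) : ℂ) * (x : ℂ) ^ (-w) =
      (g : ℂ) ^ (w - 1) * ∫ y in (1 : ℝ)..(N ^ 2), ((WW z N y : ℝ) : ℂ) * (y : ℂ) ^ (-w) := by
  have hg0 : 0 < g := by linarith
  have hN0 : 0 < N := by linarith
  have hT0 : (0 : ℝ) < N ^ 2 := by positivity
  have hgc : (g : ℂ) ≠ 0 := by exact_mod_cast hg0.ne'
  have hM1 : (0 : ℝ) < (M : ℝ) + 1 := by positivity
  have h1 : ∫ x in (1 : ℝ)..((M : ℝ) + 1), ((WW z N (g * x) : ℝ) : ℂ) * (x : ℂ) ^ (-w) =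
      ∫ x in (1 : ℝ)..((M : ℝ) + 1), (g : ℂ) ^ w *
        (fun y : ℝ => ((WW z N y : ℝ) : ℂ) * (y : ℂ) ^ (-w)) (g * x) := by
    apply intervalIntegral.integral_congr
    intro x hx
    have hx0 : 0 < x := by
      rw [Set.uIcc_of_le (by linarith [Nat.cast_nonneg (α := ℝ) M])] at hx
      linarith [hx.1]
    simp only
    rw [Complex.ofReal_mul, Complex.mul_cpow_ofReal_nonneg hg0.le hx0.le, Complex.cpow_neg g w]
    have h2 : (g : ℂ) ^ w ≠ 0 := by
      rw [Ne, Complex.cpow_eq_zero_iff]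
      tauto
    field_simp
  have h3 := intervalIntegral.integral_comp_mul_left (a := 1) (b := (M : ℝ) + 1)
    (fun y : ℝ => ((WW z N y : ℝ) : ℂ) * (y : ℂ) ^ (-w)) hg0.ne'
  rw [h1, intervalIntegral.integral_const_mul, h3, mul_one]
  have i1 := intble (contOn_WW z N) w hg0 one_pos
  have i2 := intble (contOn_WW z N) w one_pos hT0
  have i3 := intble (contOn_WW z N) w hT0 (show (0 : ℝ) < g * (M + 1) by positivity)
  rw [← intervalIntegral.integral_add_adjacent_intervals i1 (i2.trans i3),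
    ← intervalIntegral.integral_add_adjacent_intervals i2 i3,
    intervalIntegral.integral_symm,
    int_zero hg (fun y h1 h2 => WW_zero (by linarith) h1 (by nlinarith)),
    int_zero hM (fun y h1 _ => WW_top (by linarith) h1)]
  rw [neg_zero, zero_add, add_zero, Complex.real_smul, ← mul_assoc]
  congr 1
  rw [Complex.cpow_sub _ _ hgc, Complex.cpow_one]
  push_cast
  rw [div_eq_mul_inv]

theorem compare {z N : ℝ} {w : ℂ} (hz : 8 ≤ z) (hzN : z ≤ N) (hw : 1 / 2 ≤ w.re) {g : ℝ} {M : ℕ}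
    (hg : 1 ≤ g) (hgz : g ^ 2 ≤ z) (hM : N ^ 2 ≤ g * (M + 1)) :
    ‖∑ m ∈ Icc 1 M, ((WW z N (g * m) : ℝ) : ℂ) * (m : ℂ) ^ (-w) -
      (g : ℂ) ^ (w - 1) * ∫ y in (1 : ℝ)..(N ^ 2), ((WW z N y : ℝ) : ℂ) * (y : ℂ) ^ (-w)‖ ≤
      9 * (1 + ‖w‖) * Real.sqrt (g / Real.sqrt z) := by
  have hg0 : 0 < g := by linarith
  have hz0 : (0 : ℝ) < z := by linarith
  have hN3 : 3 ≤ N := by linarith
  have hsz : 0 < Real.sqrt z := Real.sqrt_pos.2 hz0
  have hgs : g ≤ Real.sqrt z := Real.le_sqrt_of_sq_le hgz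
  obtain ⟨F, hF⟩ : ∃ F : ℝ → ℂ, F = fun x => ((WW z N (g * x) : ℝ) : ℂ) * (x : ℂ) ^ (-w) :=
    ⟨_, rfl⟩
  obtain ⟨Y, hY⟩ : ∃ Y : ℝ, Y = Real.sqrt z / g := ⟨_, rfl⟩
  have hY1 : 1 ≤ Y := by
    rw [hY, le_div_iff₀ hg0]
    linarith
  obtain ⟨G, hG⟩ : ∃ G : ℝ → ℝ, G = fun x => (Real.sqrt (max x (Y / 2)))⁻¹ := ⟨_, rfl⟩
  have hF1 : F 1 = 0 := by
    rw [hF]
    simp only
    rw [mul_one, WW_zero (by linarith) hg hgz, Complex.ofReal_zero, zero_mul]
  have hFM : F ((M : ℝ) + 1) = 0 := by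
    rw [hF]
    simp only
    rw [WW_top (by linarith) hM, Complex.ofReal_zero, zero_mul]
  have hcont : ContinuousOn F (Set.Ioi 0) := by
    rw [hF]
    have h1 : ContinuousOn (fun x : ℝ => WW z N (g * x)) (Set.Ioi 0) :=
      (contOn_WW z N).comp (by fun_prop) (fun x hx => mul_pos hg0 hx)
    exact contOn_mul h1 w
  have hint : ∀ a b : ℝ, 0 < a → a ≤ b → IntervalIntegrable F volume a b := by
    intro a b ha hab
    apply ContinuousOn.intervalIntegrable
    apply hcont.mono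
    intro y hy
    rw [Set.uIcc_of_le hab] at hy
    exact ha.trans_le hy.1
  have hIcc : Icc 1 M = Ico 1 (M + 1) := by
    ext k
    simp only [mem_Icc, mem_Ico]
    omega
  have hsum : ∑ m ∈ Icc 1 M, ((WW z N (g * m) : ℝ) : ℂ) * (m : ℂ) ^ (-w) =
      ∑ k ∈ Ico 1 (M + 1), F ((k : ℝ) + 1) := by
    have h1 := tele (fun k : ℕ => F k) M
    simp only [Nat.cast_one, Nat.cast_add] at h1
    rw [hF1, hFM, sub_zero, Finset.sum_sub_distrib, sub_eq_zero] at h1
    rw [← h1, hIcc, hF]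
    simp only [Complex.ofReal_natCast]
  have hI : ∫ x in (1 : ℝ)..((M : ℝ) + 1), F x =
      ∑ k ∈ Ico 1 (M + 1), ∫ x in (k : ℝ)..((k : ℝ) + 1), F x := by
    have h1 := intervalIntegral.sum_integral_adjacent_intervals_Ico (f := F) (μ := volume)
      (a := fun k : ℕ => (k : ℝ)) (m := 1) (n := M + 1) (by omega) (by
        intro k hk
        have hk1 : (1 : ℝ) ≤ k := by exact_mod_cast hk.1
        apply hint _ _ (by linarith)
        push_cast
        linarith)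
    simp only [Nat.cast_one, Nat.cast_add] at h1
    exact h1.symm
  have hsub := subst (w := w) hz hzN hg hgz hM
  have hsub' : ∫ x in (1 : ℝ)..((M : ℝ) + 1), F x =
      (g : ℂ) ^ (w - 1) * ∫ y in (1 : ℝ)..(N ^ 2), ((WW z N y : ℝ) : ℂ) * (y : ℂ) ^ (-w) := by
    rw [hF]
    exact hsub
  rw [← hsub', hsum, hI, ← Finset.sum_sub_distrib]
  have hterm : ∀ k ∈ Ico 1 (M + 1), ‖F ((k : ℝ) + 1) - ∫ x in (k : ℝ)..((k : ℝ) + 1), F x‖ ≤
      (1 + ‖w‖) * (6 * (G k - G ((k + 1 : ℕ) : ℝ))) := by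
    intro k hk
    have hk1 : (1 : ℝ) ≤ k := by exact_mod_cast (mem_Ico.1 hk).1
    have hk0 : (0 : ℝ) < k := by linarith
    have hGmono : 0 ≤ G k - G ((k + 1 : ℕ) : ℝ) := by
      rw [hG]
      simp only
      rw [sub_nonneg]
      apply inv_anti₀
      · apply Real.sqrt_pos.2
        exact lt_max_of_lt_left hk0
      · apply Real.sqrt_le_sqrt
        push_cast
        exact max_le_max (by linarith) le_rfl
    have e1 : F ((k : ℝ) + 1) - ∫ x in (k : ℝ)..((k : ℝ) + 1), F x =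
        ∫ x in (k : ℝ)..((k : ℝ) + 1), (F ((k : ℝ) + 1) - F x) := by
      rw [intervalIntegral.integral_sub (by simp) (hint _ _ hk0 (by linarith)),
        intervalIntegral.integral_const]
      simp
    rw [e1]
    have e2 : |((k : ℝ) + 1) - k| = 1 := by
      rw [show ((k : ℝ) + 1) - k = 1 by ring, abs_one]
    rcases lt_or_ge (k : ℝ) (Y / 2) with hlt | hge
    · -- the integrand vanishes
      have h1 : ∀ x ∈ Set.uIoc (k : ℝ) ((k : ℝ) + 1), ‖F ((k : ℝ) + 1) - F x‖ ≤ 0 := by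
        intro x hx
        rw [Set.uIoc_of_le (by linarith)] at hx
        have hkY : g * ((k : ℝ) + 1) ≤ Real.sqrt z := by
          have h2 : (k : ℝ) + 1 ≤ Y := by linarith
          calc g * ((k : ℝ) + 1) ≤ g * Y := mul_le_mul_of_nonneg_left h2 hg0.le
            _ = Real.sqrt z := by
                rw [hY]
                field_simp
        have hz2 : Real.sqrt z ^ 2 = z := Real.sq_sqrt hz0.le
        have h3 : ∀ y : ℝ, 1 ≤ y → y ≤ (k : ℝ) + 1 → F y = 0 := by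
          intro y hy1 hy2
          have h4 : g * y ≤ Real.sqrt z := (mul_le_mul_of_nonneg_left hy2 hg0.le).trans hkY
          have h5 : 1 ≤ g * y := by nlinarith
          rw [hF]
          simp only
          rw [WW_zero (by linarith) h5 (by nlinarith), Complex.ofReal_zero, zero_mul]
        rw [h3 _ (by linarith) le_rfl, h3 x (by linarith [hx.1]) hx.2, sub_zero, norm_zero]
      have h2 := intervalIntegral.norm_integral_le_of_norm_le_const h1
      rw [zero_mul] at h2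
      exact h2.trans (by positivity)
    · have h1 : ∀ x ∈ Set.uIoc (k : ℝ) ((k : ℝ) + 1), ‖F ((k : ℝ) + 1) - F x‖ ≤
          (1 + ‖w‖) * (k : ℝ) ^ (-(3 / 2) : ℝ) := by
        intro x hx
        rw [Set.uIoc_of_le (by linarith)] at hx
        rw [hF]
        exact fn_diff hz hN3 hw hg hk1 hx.1.le hx.2 le_rfl
      have h2 := intervalIntegral.norm_integral_le_of_norm_le_const h1
      rw [e2, mul_one] at h2
      refine h2.trans (mul_le_mul_of_nonneg_left ?_ (by positivity))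
      have h3 := b_le hk1
      rw [hG]
      simp only
      push_cast
      rw [max_eq_left hge, max_eq_left (by linarith)]
      exact h3
  refine (norm_sum_le_of_le _ hterm).trans ?_
  rw [← Finset.mul_sum, ← Finset.mul_sum, tele (fun k : ℕ => G k) M]
  have hGM : 0 ≤ G ((M + 1 : ℕ) : ℝ) := by
    rw [hG]
    positivity
  have hG1 : G ((1 : ℕ) : ℝ) ≤ 3 / 2 * Real.sqrt (g / Real.sqrt z) := by
    rw [hG]
    simp only
    have h1 : Real.sqrt (Y / 2) ≤ Real.sqrt (max ((1 : ℕ) : ℝ) (Y / 2)) :=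
      Real.sqrt_le_sqrt (le_max_right _ _)
    have h2 : 0 < Real.sqrt (Y / 2) := Real.sqrt_pos.2 (by linarith)
    refine (inv_anti₀ h2 h1).trans ?_
    have h3 : (Real.sqrt (Y / 2))⁻¹ = Real.sqrt 2 * Real.sqrt (g / Real.sqrt z) := by
      rw [← Real.sqrt_inv, ← Real.sqrt_mul (by norm_num)]
      congr 1
      rw [hY]
      field_simp
    rw [h3]
    apply mul_le_mul_of_nonneg_right _ (Real.sqrt_nonneg _)
    rw [Real.sqrt_le_left (by norm_num)]
    norm_num
  have h4 : G ((1 : ℕ) : ℝ) - G ((M + 1 : ℕ) : ℝ) ≤ 3 / 2 * Real.sqrt (g / Real.sqrt z) := by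
    linarith
  calc (1 + ‖w‖) * (6 * (G ((1 : ℕ) : ℝ) - G ((M + 1 : ℕ) : ℝ))) ≤
        (1 + ‖w‖) * (6 * (3 / 2 * Real.sqrt (g / Real.sqrt z))) := by gcongr
    _ = 9 * (1 + ‖w‖) * Real.sqrt (g / Real.sqrt z) := by ring

end ZKerAux

open ZKerAux in
theorem ker : ∃ C : ℝ, 1 ≤ C ∧ ∀ (z N α : ℝ) (w : ℂ), 8 ≤ z → z ≤ N → 0 ≤ α → α ≤ 1 / 2 →
    w.re = 1 - α →
    ∃ K : ℂ, ‖K‖ ≤ 2 * Real.log N * N ^ (2 * α) ∧
      ‖1 - w‖ ^ 2 * ‖K‖ ≤ 6 * N ^ (2 * α) / Real.log z ∧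
      ∀ g M : ℕ, 1 ≤ g → (g : ℝ) ^ 2 ≤ z → N ^ 2 ≤ (g : ℝ) * (M + 1) →
        ‖∑ m ∈ Icc 1 M, ((WW z N ((g : ℝ) * m) : ℝ) : ℂ) * (m : ℂ) ^ (-w) -
          (g : ℂ) ^ (w - 1) * K‖ ≤ C * (1 + ‖w‖) * Real.sqrt (g / Real.sqrt z) := by
  refine ⟨9, by norm_num, ?_⟩
  intro z N α w hz hzN hα hα2 hw
  refine ⟨∫ y in (1 : ℝ)..(N ^ 2), ((WW z N y : ℝ) : ℂ) * (y : ℂ) ^ (-w), bound1 hz hzN hα hw,
    bound2 hz hzN hα hw, ?_⟩
  intro g M hg hgz hM
  have h := compare (w := w) hz hzN (by rw [hw]; linarith) (g := (g : ℝ)) (M := M)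
    (by exact_mod_cast hg) hgz hM
  simpa using h

end Pool.Agent.Lib.GMV
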