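import Pool.Agent.Lib.GMV.ZGram
import Pool.Agent.Lib.GMV.ZKer

/-!
# GMV.ZGrs (1 h): the Gram matrix, the same character

PROOF. Parameters: `z = Q^300`, `E = Q`, `N = Q^1300`, `M = N^2 = Q^2600`. `expand_two` with `x = y = th Q`, `D = E = Q` (`Th Q n ^ 2` is the product of two divisor sums): with `g = lcm(d,e) ≤ Q^2`
(`g^2 ≤ z`), `N^2 ≤ g (M/g + 1)`.
`gram_same`: `∑ th d th e g^(-w) (g^(w-1) K + error) = K form 1 Q Q (th Q) (th Q) + error`, `ker` (`w = 1 - α + i v`), the error as before;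
`0 ≤ form ≤ C/log Q` (`th_form`), `|K| ≤ 2600 log Q N^(2α)` and `v^2 |K| ≤ |1-w|^2 |K| ≤ 6 N^(2α)/(300 log Q)`, `N^(2α) = Q^(2600 α)`.
-/

set_option autoImplicit false

open Complex Finset

namespace Pool.Agent.Lib.GMV

namespace ZGrsAux

/-- the inner sum for the common multiple `g` -/
theorem inner {Q g : ℕ} {w K : ℂ} {CK : ℝ} (hQ : 2 ≤ Q) (hg1 : 1 ≤ g) (hg2 : g ≤ Q ^ 2)
    (hw1 : 3 / 4 ≤ w.re) (hCK : 0 ≤ CK)
    (hK : ∀ g M : ℕ, 1 ≤ g → (g : ℝ) ^ 2 ≤ (Q : ℝ) ^ 300 →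
      ((Q : ℝ) ^ 1300) ^ 2 ≤ (g : ℝ) * (M + 1) →
        ‖∑ m ∈ Icc 1 M, ((WW ((Q : ℝ) ^ 300) ((Q : ℝ) ^ 1300) ((g : ℝ) * m) : ℝ) : ℂ) *
          (m : ℂ) ^ (-w) - (g : ℂ) ^ (w - 1) * K‖ ≤
          CK * (1 + ‖w‖) * Real.sqrt (g / Real.sqrt ((Q : ℝ) ^ 300))) :
    ‖∑ m ∈ Icc 1 (Q ^ 2600 / g), (((WW ((Q : ℝ) ^ 300) ((Q : ℝ) ^ 1300) ((g * m : ℕ) : ℝ) : ℝ) : ℂ) *
      ((g * m : ℕ) : ℂ) ^ (-w)) - (g : ℂ)⁻¹ * K‖ ≤ CK * (1 + ‖w‖) / (Q : ℝ) ^ 75 := by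
  have hg0 : (0 : ℝ) < g := by exact_mod_cast hg1
  have hgC : (g : ℂ) ≠ 0 := by exact_mod_cast (show g ≠ 0 by omega)
  have hQr : (2 : ℝ) ≤ Q := by exact_mod_cast hQ
  have hQ0 : (0 : ℝ) < Q := by linarith
  have h1 := hK g (Q ^ 2600 / g) hg1 ?_ ?_
  · have e1 : ∑ m ∈ Icc 1 (Q ^ 2600 / g), (((WW ((Q : ℝ) ^ 300) ((Q : ℝ) ^ 1300)
        ((g * m : ℕ) : ℝ) : ℝ) : ℂ) * ((g * m : ℕ) : ℂ) ^ (-w)) - (g : ℂ)⁻¹ * K =
        (g : ℂ) ^ (-w) * (∑ m ∈ Icc 1 (Q ^ 2600 / g),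
          ((WW ((Q : ℝ) ^ 300) ((Q : ℝ) ^ 1300) ((g : ℝ) * m) : ℝ) : ℂ) * (m : ℂ) ^ (-w) -
          (g : ℂ) ^ (w - 1) * K) := by
      rw [mul_sub, mul_sum, ← mul_assoc, ← Complex.cpow_add _ _ hgC]
      have e2 : -w + (w - 1) = -1 := by ring
      rw [e2, Complex.cpow_neg_one]
      congr 1
      refine sum_congr rfl fun m _ => ?_
      rw [Nat.cast_mul, Nat.cast_mul, Complex.natCast_mul_natCast_cpow]
      ring
    rw [e1, norm_mul, Complex.norm_natCast_cpow_of_pos (by omega), Complex.neg_re]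
    have s1 : Real.sqrt ((Q : ℝ) ^ 300) = (Q : ℝ) ^ 150 := by
      rw [show (Q : ℝ) ^ 300 = ((Q : ℝ) ^ 150) ^ 2 by rw [← pow_mul]]
      exact Real.sqrt_sq (by positivity)
    have s2 : Real.sqrt ((g : ℝ) / (Q : ℝ) ^ 150) = Real.sqrt g / (Q : ℝ) ^ 75 := by
      rw [Real.sqrt_div hg0.le, show (Q : ℝ) ^ 150 = ((Q : ℝ) ^ 75) ^ 2 by rw [← pow_mul],
        Real.sqrt_sq (by positivity)]
    rw [s1, s2] at h1
    have h2 : (g : ℝ) ^ (-w.re) * Real.sqrt g ≤ 1 := by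
      rw [Real.sqrt_eq_rpow, ← Real.rpow_add hg0]
      exact Real.rpow_le_one_of_one_le_of_nonpos (by exact_mod_cast hg1) (by linarith)
    have hp : 0 ≤ (g : ℝ) ^ (-w.re) := by positivity
    calc (g : ℝ) ^ (-w.re) * _ ≤ (g : ℝ) ^ (-w.re) *
          (CK * (1 + ‖w‖) * (Real.sqrt g / (Q : ℝ) ^ 75)) := mul_le_mul_of_nonneg_left h1 hp
      _ = (g : ℝ) ^ (-w.re) * Real.sqrt g * (CK * (1 + ‖w‖) / (Q : ℝ) ^ 75) := by ring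
      _ ≤ 1 * (CK * (1 + ‖w‖) / (Q : ℝ) ^ 75) :=
          mul_le_mul_of_nonneg_right h2 (by positivity)
      _ = _ := one_mul _
  · have h2 : (g : ℝ) ≤ (Q : ℝ) ^ 2 := by exact_mod_cast hg2
    calc (g : ℝ) ^ 2 ≤ ((Q : ℝ) ^ 2) ^ 2 := pow_le_pow_left₀ hg0.le h2 2
      _ = (Q : ℝ) ^ 4 := by rw [← pow_mul]
      _ ≤ (Q : ℝ) ^ 300 := pow_le_pow_right₀ (by linarith) (by norm_num)
  · have h2 : Q ^ 2600 < g * (Q ^ 2600 / g + 1) := Nat.lt_mul_div_succ _ (by omega)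
    have h3 : ((Q ^ 2600 : ℕ) : ℝ) ≤ ((g * (Q ^ 2600 / g + 1) : ℕ) : ℝ) := by
      exact_mod_cast h2.le
    rw [← pow_mul]
    rw [Nat.cast_pow, Nat.cast_mul, Nat.cast_add, Nat.cast_one] at h3
    exact h3

/-- the bound of the main term -/
theorem main {L P v k f n CF : ℝ} (hL : 0 < L) (hP : 0 ≤ P) (hk0 : 0 ≤ k) (hf0 : 0 ≤ f)
    (hf : f ≤ CF / L) (hv : v ^ 2 ≤ n ^ 2) (h1 : k ≤ 2600 * L * P)
    (h2 : n ^ 2 * k ≤ 6 * P / (300 * L)) :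
    k * f ≤ 2601 * CF * P / (1 + (v * L) ^ 2) := by
  rw [le_div_iff₀ (by positivity)]
  have h3 : v ^ 2 * k ≤ 6 * P / (300 * L) := (mul_le_mul_of_nonneg_right hv hk0).trans h2
  have h4 : v ^ 2 * k * L ^ 2 ≤ L * P := by
    have h5 := mul_le_mul_of_nonneg_right h3 (by positivity : (0 : ℝ) ≤ L ^ 2)
    have e : 6 * P / (300 * L) * L ^ 2 = 6 / 300 * (L * P) := by
      field_simp
    rw [e] at h5
    nlinarith [mul_nonneg hL.le hP]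
  have h6 : k * (1 + (v * L) ^ 2) ≤ 2601 * (L * P) := by nlinarith
  have h7 : f * L ≤ CF := by rwa [le_div_iff₀ hL] at hf
  have hLP : 0 ≤ L * P := by positivity
  calc k * f * (1 + (v * L) ^ 2) = k * (1 + (v * L) ^ 2) * f := by ring
    _ ≤ 2601 * (L * P) * f := mul_le_mul_of_nonneg_right h6 hf0
    _ = 2601 * P * (f * L) := by ring
    _ ≤ 2601 * P * CF := mul_le_mul_of_nonneg_left h7 (by positivity)
    _ = _ := by ring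

/-- the error -/
theorem err {Q CK n : ℝ} (hQ : 2 ≤ Q) (hC : 4 * CK ≤ Q) (hCK : 1 ≤ CK) (hn : n ≤ 1 + 2 * Q ^ 30) :
    Q * (Q * (CK * (1 + n) / Q ^ 75)) ≤ 1 / Q ^ 40 := by
  have hQ0 : 0 < Q := by linarith
  have h1 : 1 ≤ Q ^ 30 := one_le_pow₀ (by linarith)
  have h2 : CK * (1 + n) ≤ CK * (4 * Q ^ 30) :=
    mul_le_mul_of_nonneg_left (by linarith) (by linarith)
  have h3 : CK * (4 * Q ^ 30) ≤ Q ^ 31 := by
    calc CK * (4 * Q ^ 30) = 4 * CK * Q ^ 30 := by ring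
      _ ≤ Q * Q ^ 30 := mul_le_mul_of_nonneg_right hC (by positivity)
      _ = Q ^ 31 := by ring
  have h4 : CK * (1 + n) / Q ^ 75 ≤ Q ^ 31 / Q ^ 75 :=
    div_le_div_of_nonneg_right (h2.trans h3) (by positivity)
  calc Q * (Q * (CK * (1 + n) / Q ^ 75)) ≤ Q * (Q * (Q ^ 31 / Q ^ 75)) :=
        mul_le_mul_of_nonneg_left (mul_le_mul_of_nonneg_left h4 hQ0.le) hQ0.le
    _ = 1 / Q ^ 42 := by
        field_simp
    _ ≤ 1 / Q ^ 40 :=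
        one_div_le_one_div_of_le (by positivity) (pow_le_pow_right₀ (by linarith) (by norm_num))

end ZGrsAux

open ZGrsAux

theorem gram_same : ∃ (Q0 : ℕ) (C : ℝ), 1 ≤ C ∧ ∀ (Q : ℕ) (w : ℂ), Q0 ≤ Q →
    3 / 4 ≤ w.re → w.re ≤ 1 → |w.im| ≤ 2 * (Q : ℝ) ^ 30 →
    ‖∑ n ∈ Icc 1 (Q ^ 2600), (wt Q n : ℂ) * (n : ℂ) ^ (-w)‖ ≤
      C * (Q : ℝ) ^ (2600 * (1 - w.re)) / (1 + (w.im * Real.log Q) ^ 2) + 1 / (Q : ℝ) ^ 40 := by
  obtain ⟨CK, hCK1, hker⟩ := ker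
  obtain ⟨CF, hCF1, hform⟩ := th_form
  refine ⟨max 2 ⌈4 * CK⌉₊, 2601 * CF, by linarith, ?_⟩
  intro Q w hQ hw1 hw2 hv
  have hQ2 : 2 ≤ Q := le_trans (le_max_left _ _) hQ
  have hQC : 4 * CK ≤ (Q : ℝ) :=
    (Nat.le_ceil _).trans (by exact_mod_cast le_trans (le_max_right _ _) hQ)
  have hQr : (2 : ℝ) ≤ Q := by exact_mod_cast hQ2
  have hQ0 : (0 : ℝ) < Q := by linarith
  have hlog : 0 < Real.log Q := Real.log_pos (by linarith)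
  have h8 : (8 : ℝ) ≤ (Q : ℝ) ^ 300 := by
    calc (8 : ℝ) = 2 ^ 3 := by norm_num
      _ ≤ (Q : ℝ) ^ 3 := pow_le_pow_left₀ (by norm_num) hQr 3
      _ ≤ (Q : ℝ) ^ 300 := pow_le_pow_right₀ (by linarith) (by norm_num)
  have hzN : (Q : ℝ) ^ 300 ≤ (Q : ℝ) ^ 1300 := pow_le_pow_right₀ (by linarith) (by norm_num)
  obtain ⟨K, hK1, hK2, hK3⟩ := hker ((Q : ℝ) ^ 300) ((Q : ℝ) ^ 1300) (1 - w.re) w h8 hzN
    (by linarith) (by linarith) (by ring)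
  obtain ⟨hf0, hf1⟩ := hform Q hQ2
  -- the expansion
  have e1 : ∑ n ∈ Icc 1 (Q ^ 2600), (wt Q n : ℂ) * (n : ℂ) ^ (-w) =
      ∑ d ∈ Icc 1 Q, ∑ e ∈ Icc 1 Q, ((th Q d * th Q e : ℝ) : ℂ) *
        ∑ m ∈ Icc 1 (Q ^ 2600 / Nat.lcm d e), (((WW ((Q : ℝ) ^ 300) ((Q : ℝ) ^ 1300)
          ((Nat.lcm d e * m : ℕ) : ℝ) : ℝ) : ℂ) * ((Nat.lcm d e * m : ℕ) : ℂ) ^ (-w)) := by
    have h := expand_two (th Q) (th Q) Q Q (Q ^ 2600) (fun d hd => th_zero Q d hd)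
      (fun d hd => th_zero Q d hd) (fun n => ((WW ((Q : ℝ) ^ 300) ((Q : ℝ) ^ 1300)
        (n : ℝ) : ℝ) : ℂ) * (n : ℂ) ^ (-w))
    refine Eq.trans (sum_congr rfl fun n _ => ?_) h
    unfold wt Th
    push_cast
    ring
  have e2 : ((form 1 Q Q (th Q) (th Q) : ℝ) : ℂ) * K =
      ∑ d ∈ Icc 1 Q, ∑ e ∈ Icc 1 Q, ((th Q d * th Q e : ℝ) : ℂ) * ((Nat.lcm d e : ℂ)⁻¹ * K) := by
    unfold form
    push_cast
    rw [sum_mul]
    refine sum_congr rfl fun d _ => ?_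
    rw [sum_mul]
    refine sum_congr rfl fun e _ => ?_
    rw [Real.rpow_neg_one]
    push_cast
    ring
  have e3 : ‖∑ n ∈ Icc 1 (Q ^ 2600), (wt Q n : ℂ) * (n : ℂ) ^ (-w) -
      ((form 1 Q Q (th Q) (th Q) : ℝ) : ℂ) * K‖ ≤ 1 / (Q : ℝ) ^ 40 := by
    rw [e1, e2, ← sum_sub_distrib]
    have hB : 0 ≤ CK * (1 + ‖w‖) / (Q : ℝ) ^ 75 := by positivity
    have hin : ∀ d ∈ Icc 1 Q, ∀ e ∈ Icc 1 Q,
        ‖((th Q d * th Q e : ℝ) : ℂ) *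
        ∑ m ∈ Icc 1 (Q ^ 2600 / Nat.lcm d e), (((WW ((Q : ℝ) ^ 300) ((Q : ℝ) ^ 1300)
          ((Nat.lcm d e * m : ℕ) : ℝ) : ℝ) : ℂ) * ((Nat.lcm d e * m : ℕ) : ℂ) ^ (-w)) -
        ((th Q d * th Q e : ℝ) : ℂ) * ((Nat.lcm d e : ℂ)⁻¹ * K)‖ ≤
          CK * (1 + ‖w‖) / (Q : ℝ) ^ 75 := by
      intro d hd e he
      rw [mem_Icc] at hd he
      have hg1 : 1 ≤ Nat.lcm d e := Nat.lcm_pos (by omega) (by omega)
      have hg2 : Nat.lcm d e ≤ Q ^ 2 := by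
        calc Nat.lcm d e ≤ d * e := Nat.le_of_dvd (Nat.mul_pos (by omega) (by omega))
              (Nat.lcm_dvd_mul d e)
          _ ≤ Q * Q := Nat.mul_le_mul hd.2 he.2
          _ = Q ^ 2 := by ring
      have h := inner hQ2 hg1 hg2 hw1 (by linarith) hK3
      rw [← mul_sub, norm_mul, Complex.norm_real, Real.norm_eq_abs, abs_mul]
      have t1 := th_abs Q d hQ2
      have t2 := th_abs Q e hQ2
      calc |th Q d| * |th Q e| * _ ≤ 1 * 1 * (CK * (1 + ‖w‖) / (Q : ℝ) ^ 75) :=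
            mul_le_mul (mul_le_mul t1 t2 (abs_nonneg _) zero_le_one) h (norm_nonneg _)
              (by norm_num)
        _ = _ := by ring
    have hc : ∀ d ∈ Icc 1 Q, ‖∑ e ∈ Icc 1 Q, ((th Q d * th Q e : ℝ) : ℂ) *
        ∑ m ∈ Icc 1 (Q ^ 2600 / Nat.lcm d e), (((WW ((Q : ℝ) ^ 300) ((Q : ℝ) ^ 1300)
          ((Nat.lcm d e * m : ℕ) : ℝ) : ℝ) : ℂ) * ((Nat.lcm d e * m : ℕ) : ℂ) ^ (-w)) -
        ∑ e ∈ Icc 1 Q, ((th Q d * th Q e : ℝ) : ℂ) * ((Nat.lcm d e : ℂ)⁻¹ * K)‖ ≤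
          Q * (CK * (1 + ‖w‖) / (Q : ℝ) ^ 75) := by
      intro d hd
      rw [← sum_sub_distrib]
      refine (norm_sum_le _ _).trans ((sum_le_sum (hin d hd)).trans ?_)
      rw [sum_const, Nat.card_Icc, nsmul_eq_mul]
      simp
    refine ((norm_sum_le _ _).trans ((sum_le_sum hc).trans ?_)).trans
      (err hQr hQC hCK1 (n := ‖w‖) ?_)
    · rw [sum_const, Nat.card_Icc, nsmul_eq_mul]
      simp
    · have h := Complex.norm_le_abs_re_add_abs_im w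
      rw [abs_of_nonneg (by linarith : 0 ≤ w.re)] at h
      linarith
  have e4 : ‖((form 1 Q Q (th Q) (th Q) : ℝ) : ℂ) * K‖ ≤
      2601 * CF * (Q : ℝ) ^ (2600 * (1 - w.re)) / (1 + (w.im * Real.log Q) ^ 2) := by
    have eN : ((Q : ℝ) ^ 1300) ^ (2 * (1 - w.re)) = (Q : ℝ) ^ (2600 * (1 - w.re)) := by
      rw [← Real.rpow_natCast, ← Real.rpow_mul hQ0.le]
      congr 1
      push_cast
      ring
    rw [eN, Real.log_pow] at hK1 hK2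
    rw [norm_mul, Complex.norm_real, Real.norm_of_nonneg hf0, mul_comm]
    refine main (n := ‖1 - w‖) hlog (by positivity) (norm_nonneg _) hf0 hf1 ?_ ?_ ?_
    · have h := Complex.abs_im_le_norm (1 - w)
      have h2 : (1 - w).im = -w.im := by simp
      rw [h2, abs_neg] at h
      exact sq_le_sq' (by linarith [neg_abs_le w.im]) ((le_abs_self _).trans h)
    · refine hK1.trans (le_of_eq ?_)
      push_cast
      ring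
    · refine hK2.trans (le_of_eq ?_)
      push_cast
      ring
  calc ‖∑ n ∈ Icc 1 (Q ^ 2600), (wt Q n : ℂ) * (n : ℂ) ^ (-w)‖ =
      ‖((form 1 Q Q (th Q) (th Q) : ℝ) : ℂ) * K + (∑ n ∈ Icc 1 (Q ^ 2600), (wt Q n : ℂ) *
        (n : ℂ) ^ (-w) - ((form 1 Q Q (th Q) (th Q) : ℝ) : ℂ) * K)‖ := by
        rw [add_sub_cancel]
    _ ≤ _ := (norm_add_le _ _).trans (add_le_add e4 e3)

end Pool.Agent.Lib.GMV
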