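import Pool.Agent.Lib.GMV.ZDez
import Pool.Agent.Lib.GMV.ZGrs
import Pool.Agent.Lib.GMV.ZDual
import Pool.Agent.Lib.GMV.ZAsq

/-!
# GMV.ZCount (2 h): the number of well separated zeros

The elements of `J` are `(q, χ, ρ)`, `χ` a primitive character mod `q + 1`, `ρ` a zero.

PROOF. `dual` with `X = Icc 1 (Q^2600)`, `κ = (q : ℕ) × DirichletCharacter ℂ (q+1)` (classical `DecidableEq`), `ch ⟨q,χ⟩ n = χ n`, `p j n = n^(-ρ)`,
`a = an (Q^300)`, `t = Th Q`, `W = WW`. `hdet`: for `q = 0` (`χ = 1`, modulus `1`: `Subsingleton`) `detect_zeta` (`1 - Re ρ ≤ η`), else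
`detect_non` (`χ ≠ 1`: a primitive character of modulus `> 1`; `DirichletCharacter.isPrimitive_def`, `conductor_one`). `ha`: `an_sq`, `WW ≤ 1`:
`A = C * 2600/300`. For `n ≥ 1`: `n * n^(-ρ) * conj (n^(-ρ')) = n^(-w)`, `w = ρ + conj ρ' - 1`, `Re w = 1 - (1 - Re ρ) - (1 - Re ρ')`
in `[9/10, 1]`, `Im w = Im ρ - Im ρ'`. `hcross`: `gram_cross`, `ε = Q^(-40)` (`(⟨q+1,χ⟩ = ⟨r+1,ψ⟩)` implies `⟨q,χ⟩ = ⟨r,ψ⟩`).
`hsame`: `gram_same`: `∑_(j') (C Q^(5200 η)/(1 + (v log Q)^2) + Q^(-40))`, `v = Im ρ - Im ρ'`; by `hsep` the integers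
`⌊|v| log Q⌋` take every value at most twice among the `j'` of the class (`v` of one sign and
`v'` of the same sign differ by `≥ 1/log Q`), so the first part is `≤ C Q^(5200 η) ∑_(k ≥ 0) 2/(1+k^2) ≤ C' Q^(5200 η)`; the second is
`≤ |J| Q^(-40)`. Finally `|J| ≤ Q^38`: `(q, χ, ρ) ↦ (q, χ, ⌊Im ρ log Q⌋)` is injective on `J` by `hsep`, `≤ Q^2` pairs
`(q, χ)` (`card_le` as in `BV.LargeSieve`: totient), and `≤ 2 Q^30 log Q + 3` integers. So
`|J| ≤ 4A (C' Q^(5200 η) + 2 |J| Q^(-40)) ≤ 4A (C' Q^(5200 η) + 2)`.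
-/

set_option autoImplicit false

open Complex Finset

namespace Pool.Agent.Lib.GMV

namespace ZCountAux

/-- the comparison function for separated points -/
noncomputable def gk (k : ℤ) : ℝ := 1 / (1 + (k : ℝ) ^ 2) + 1 / (1 + ((k + 1 : ℤ) : ℝ) ^ 2)

lemma summable_base : Summable (fun k : ℤ => 1 / (1 + (k : ℝ) ^ 2)) := by
  have h1 : Summable (fun k : ℤ => 1 / (k : ℝ) ^ 2) :=
    Real.summable_one_div_int_pow.mpr (by norm_num)
  refine Summable.of_norm_bounded_eventually h1 ?_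
  have h2 : {k : ℤ | ¬ ‖1 / (1 + (k : ℝ) ^ 2)‖ ≤ 1 / (k : ℝ) ^ 2} ⊆ {0} := by
    intro k hk
    by_contra h0
    apply hk
    have h3 : (k : ℝ) ≠ 0 := by
      have : k ≠ 0 := h0
      exact_mod_cast this
    have h4 : 0 < (k : ℝ) ^ 2 := by positivity
    rw [Real.norm_eq_abs, abs_of_nonneg (by positivity)]
    exact one_div_le_one_div_of_le h4 (by linarith)
  exact (Set.finite_singleton (0 : ℤ)).subset h2

lemma summable_gk : Summable gk := by
  unfold gk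
  refine summable_base.add ?_
  exact summable_base.comp_injective (i := fun k : ℤ => k + 1) (add_left_injective 1)

lemma gk_nonneg (k : ℤ) : 0 ≤ gk k := by
  unfold gk
  positivity

lemma le_gk (x : ℝ) : 1 / (1 + x ^ 2) ≤ gk ⌊x⌋ := by
  have h1 : (⌊x⌋ : ℝ) ≤ x := Int.floor_le x
  have h2 : x < ⌊x⌋ + 1 := Int.lt_floor_add_one x
  unfold gk
  rcases le_or_gt 0 ⌊x⌋ with h | h
  · have h0 : (0 : ℝ) ≤ ⌊x⌋ := by exact_mod_cast h
    have h3 : 1 / (1 + x ^ 2) ≤ 1 / (1 + (⌊x⌋ : ℝ) ^ 2) :=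
      one_div_le_one_div_of_le (by positivity) (by nlinarith)
    have h4 : 0 ≤ 1 / (1 + ((⌊x⌋ + 1 : ℤ) : ℝ) ^ 2) := by positivity
    linarith
  · have h0 : ((⌊x⌋ + 1 : ℤ) : ℝ) ≤ 0 := by exact_mod_cast (by omega : ⌊x⌋ + 1 ≤ 0)
    have h5 : x ≤ ((⌊x⌋ + 1 : ℤ) : ℝ) := by push_cast; exact h2.le
    have h3 : 1 / (1 + x ^ 2) ≤ 1 / (1 + ((⌊x⌋ + 1 : ℤ) : ℝ) ^ 2) :=
      one_div_le_one_div_of_le (by positivity) (by nlinarith)
    have h4 : 0 ≤ 1 / (1 + (⌊x⌋ : ℝ) ^ 2) := by positivity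
    linarith

lemma sum_sep {ι : Type*} (F : Finset ι) (x : ι → ℝ)
    (h : ∀ i ∈ F, ∀ j ∈ F, i ≠ j → 1 ≤ |x i - x j|) :
    ∑ i ∈ F, 1 / (1 + x i ^ 2) ≤ ∑' k, gk k := by
  classical
  have hinj : Set.InjOn (fun i => ⌊x i⌋) (F : Set ι) := by
    intro i hi j hj hij
    by_contra hne
    have h1 := h i hi j hj hne
    have h2 := Int.abs_sub_lt_one_of_floor_eq_floor hij
    linarith
  calc ∑ i ∈ F, 1 / (1 + x i ^ 2) ≤ ∑ i ∈ F, gk ⌊x i⌋ := Finset.sum_le_sum fun i _ => le_gk (x i)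
    _ = ∑ k ∈ F.image (fun i => ⌊x i⌋), gk k := by rw [Finset.sum_image hinj]
    _ ≤ ∑' k, gk k := summable_gk.sum_le_tsum _ fun k _ => gk_nonneg k

lemma conj_natCast_cpow (n : ℕ) (ρ : ℂ) :
    (starRingEnd ℂ) ((n : ℂ) ^ ρ) = (n : ℂ) ^ ((starRingEnd ℂ) ρ) := by
  rw [Complex.cpow_conj _ _ (by rw [Complex.natCast_arg]; exact Real.pi_ne_zero.symm),
    Complex.conj_natCast]

lemma cpow_pair (n : ℕ) (hn : 1 ≤ n) (ρ ρ' : ℂ) :
    (n : ℂ) * ((n : ℂ) ^ (-ρ) * (starRingEnd ℂ) ((n : ℂ) ^ (-ρ'))) =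
      (n : ℂ) ^ (-(ρ + (starRingEnd ℂ) ρ' - 1)) := by
  have h0 : (n : ℂ) ≠ 0 := by
    have : n ≠ 0 := by omega
    exact_mod_cast this
  rw [conj_natCast_cpow, map_neg]
  have e : -(ρ + (starRingEnd ℂ) ρ' - 1) = 1 + (-ρ + -(starRingEnd ℂ) ρ') := by ring
  rw [e, Complex.cpow_add _ _ h0, Complex.cpow_add _ _ h0, Complex.cpow_one]

lemma ne_one_of_prim {q : ℕ} (χ : DirichletCharacter ℂ (q + 1)) (hq : q ≠ 0)
    (h : χ.IsPrimitive) : χ ≠ 1 := by
  rintro rfl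
  rw [DirichletCharacter.isPrimitive_def, DirichletCharacter.conductor_one] at h
  omega

end ZCountAux

open ZCountAux in
theorem sep_count : ∃ (Q0 : ℕ) (C C0 : ℝ), 1 ≤ C ∧ 1 ≤ C0 ∧ ∀ (Q : ℕ) (η : ℝ), Q0 ≤ Q → 0 ≤ η →
    η ≤ 1 / 20 → ∀ J : Finset ((q : ℕ) × (DirichletCharacter ℂ (q + 1) × ℂ)),
    (∀ j ∈ J, j.1 < Q ∧ j.2.1.IsPrimitive ∧ Lf j.2.1 j.2.2 = 0 ∧ 1 - η ≤ j.2.2.re ∧
      |j.2.2.im| ≤ (Q : ℝ) ^ 30) →
    (∀ j ∈ J, j.1 = 0 → C0 * (Q : ℝ) ^ (1300 * η) ≤ |j.2.2.im|) →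
    (∀ j ∈ J, ∀ j' ∈ J, j ≠ j' →
      (⟨j.1, j.2.1⟩ : (q : ℕ) × DirichletCharacter ℂ (q + 1)) = ⟨j'.1, j'.2.1⟩ →
      1 / Real.log Q ≤ |j.2.2.im - j'.2.2.im|) →
    (J.card : ℝ) ≤ C * (Q : ℝ) ^ (5200 * η) := by
  classical
  obtain ⟨Q1, hnon⟩ := detect_non
  obtain ⟨Q2, C0, hC0, hzeta⟩ := detect_zeta
  obtain ⟨Q3, hcr⟩ := gram_cross
  obtain ⟨Q4, C1, hC1, hsm⟩ := gram_same
  obtain ⟨C2, hC2, hasq⟩ := an_sq
  set S : ℝ := ∑' k, gk k with hS
  have hS0 : 0 ≤ S := tsum_nonneg gk_nonneg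
  set A : ℝ := C2 * (2600 / 300) with hA
  have hA0 : 0 < A := by rw [hA]; positivity
  obtain ⟨Q5, hQ5⟩ := exists_nat_ge (16 * A)
  refine ⟨max 3 (max Q1 (max Q2 (max Q3 (max Q4 Q5)))), max 1 (8 * A * C1 * S), C0,
    le_max_left _ _, hC0, ?_⟩
  intro Q η hQ hη0 hη J hJ hJ0 hsep
  have hQ3' : 3 ≤ Q := (le_max_left _ _).trans hQ
  have hQr := (le_max_right _ _).trans hQ
  have hQa : Q1 ≤ Q := (le_max_left _ _).trans hQr
  have hQr2 := (le_max_right _ _).trans hQr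
  have hQb : Q2 ≤ Q := (le_max_left _ _).trans hQr2
  have hQr3 := (le_max_right _ _).trans hQr2
  have hQc : Q3 ≤ Q := (le_max_left _ _).trans hQr3
  have hQr4 := (le_max_right _ _).trans hQr3
  have hQd : Q4 ≤ Q := (le_max_left _ _).trans hQr4
  have hQe : Q5 ≤ Q := (le_max_right _ _).trans hQr4
  have hQR : (3 : ℝ) ≤ (Q : ℝ) := by exact_mod_cast hQ3'
  have hQ1R : (1 : ℝ) ≤ (Q : ℝ) := by linarith
  have hlog : 0 < Real.log Q := Real.log_pos (by linarith)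
  have hre1 : ∀ j ∈ J, j.2.2.re < 1 := by
    intro j hj
    by_contra hh
    exact Lf_ne_zero j.2.1 (not_lt.mp hh) (hJ j hj).2.2.1
  set cl : ((q : ℕ) × (DirichletCharacter ℂ (q + 1) × ℂ)) →
    ((q : ℕ) × DirichletCharacter ℂ (q + 1)) := fun j => ⟨j.1, j.2.1⟩ with hcl
  set ch : ((q : ℕ) × DirichletCharacter ℂ (q + 1)) → ℕ → ℂ :=
    fun k n => k.2 (n : ZMod (k.1 + 1)) with hch
  set p : ((q : ℕ) × (DirichletCharacter ℂ (q + 1) × ℂ)) → ℕ → ℂ :=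
    fun j n => (n : ℂ) ^ (-j.2.2) with hp
  -- parameters of a pair
  have hw : ∀ j ∈ J, ∀ j' ∈ J,
      3 / 4 ≤ (j.2.2 + (starRingEnd ℂ) j'.2.2 - 1).re ∧
      (j.2.2 + (starRingEnd ℂ) j'.2.2 - 1).re ≤ 1 ∧
      |(j.2.2 + (starRingEnd ℂ) j'.2.2 - 1).im| ≤ 2 * (Q : ℝ) ^ 30 := by
    intro j hj j' hj'
    have h1 := hJ j hj
    have h2 := hJ j' hj'
    have h3 := hre1 j hj
    have h4 := hre1 j' hj'
    simp only [Complex.sub_re, Complex.add_re, Complex.conj_re, Complex.one_re, Complex.sub_im,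
      Complex.add_im, Complex.conj_im, Complex.one_im, sub_zero]
    refine ⟨by linarith [h1.2.2.2.1, h2.2.2.2.1], by linarith, ?_⟩
    have h5 := abs_le.mp h1.2.2.2.2
    have h6 := abs_le.mp h2.2.2.2.2
    rw [abs_le]
    constructor <;> linarith
  have hX1 : ∀ n ∈ Icc 1 (Q ^ 2600), 1 ≤ n := fun n hn => (Finset.mem_Icc.mp hn).1
  have hdual := dual J (Icc 1 (Q ^ 2600)) cl ch p (fun n => an (Q ^ 300) n) (fun n => Th Q n)
    (fun n => WW ((Q : ℝ) ^ 300) ((Q : ℝ) ^ 1300) n) A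
    (C1 * (Q : ℝ) ^ (5200 * η) * S + J.card * (1 / (Q : ℝ) ^ 40)) (1 / (Q : ℝ) ^ 40) hA0.le
    (by positivity) (by positivity) (fun k n => DirichletCharacter.norm_le_one _ _)
    (fun n _ => (WW_mem _ _ _).1) hX1 ?_ ?_ ?_ ?_
  · -- conclusion
    have hpos : 0 ≤ C1 * (Q : ℝ) ^ (5200 * η) * S := by positivity
    have h40 : A * (1 / (Q : ℝ) ^ 40) ≤ 1 / 16 := by
      have h1 : (Q : ℝ) ≤ (Q : ℝ) ^ 40 := by
        calc (Q : ℝ) = (Q : ℝ) ^ 1 := (pow_one _).symm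
          _ ≤ (Q : ℝ) ^ 40 := pow_le_pow_right₀ hQ1R (by norm_num)
      have h2 : (Q5 : ℝ) ≤ (Q : ℝ) := by exact_mod_cast hQe
      have h3 : 16 * A ≤ (Q : ℝ) ^ 40 := by linarith
      rw [mul_one_div, div_le_iff₀ (by positivity)]
      linarith
    have hc : 0 ≤ (J.card : ℝ) := Nat.cast_nonneg _
    have h5 : (J.card : ℝ) ≤ 4 * A * (C1 * (Q : ℝ) ^ (5200 * η) * S) +
        8 * (A * (1 / (Q : ℝ) ^ 40)) * J.card := by
      refine hdual.trans (le_of_eq ?_)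
      ring
    have h6 : 8 * (A * (1 / (Q : ℝ) ^ 40)) * J.card ≤ 1 / 2 * J.card := by
      refine mul_le_mul_of_nonneg_right ?_ hc
      linarith
    have h7 : (J.card : ℝ) ≤ 8 * A * C1 * S * (Q : ℝ) ^ (5200 * η) := by
      have : 8 * A * C1 * S * (Q : ℝ) ^ (5200 * η) =
        2 * (4 * A * (C1 * (Q : ℝ) ^ (5200 * η) * S)) := by ring
      rw [this]
      linarith
    refine h7.trans ?_
    exact mul_le_mul_of_nonneg_right (le_max_right _ _) (by positivity)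
  · -- detection
    rintro ⟨q, χ, ρ⟩ hj
    obtain ⟨h1, h2, h3, h4, h5⟩ := hJ _ hj
    simp only at h1 h2 h3 h4 h5
    show 1 / 2 ≤ ‖∑ n ∈ Icc 1 (Q ^ 2600), ((cf Q n : ℝ) : ℂ) *
      (χ (n : ZMod (q + 1)) * (n : ℂ) ^ (-ρ))‖
    rcases Nat.eq_zero_or_pos q with hq | hq
    · subst hq
      have hχ : χ = 1 := DirichletCharacter.level_one χ
      subst hχ
      have h6 : C0 * (Q : ℝ) ^ (1300 * (1 - ρ.re)) ≤ |ρ.im| := by
        refine le_trans ?_ (hJ0 _ hj rfl)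
        refine mul_le_mul_of_nonneg_left ?_ (by linarith)
        exact Real.rpow_le_rpow_of_exponent_le hQ1R (by linarith)
      have h7 := hzeta Q ρ hQb h3 (by linarith) h5 h6
      have h8 : ∀ n : ℕ, (1 : DirichletCharacter ℂ (0 + 1)) (n : ZMod (0 + 1)) = 1 := by
        intro n
        have : Subsingleton (ZMod (0 + 1)) := inferInstanceAs (Subsingleton (ZMod 1))
        have : ((n : ℕ) : ZMod (0 + 1)) = 1 := Subsingleton.elim _ _
        rw [this, map_one]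
      simp only [h8, one_mul]
      exact h7
    · exact hnon Q (q + 1) χ ρ hQa (by omega) (ne_one_of_prim χ (by omega) h2) h3
        (by linarith) h5
  · -- mean square
    have h1 := hasq (Q ^ 300) (Q ^ 2600) (le_trans (by omega : 2 ≤ Q) (Nat.le_self_pow (by norm_num) Q)) (by
      rw [← pow_mul]
      exact Nat.pow_le_pow_right (by omega) (by norm_num))
    have h2 : Real.log ((Q ^ 2600 : ℕ) : ℝ) / Real.log ((Q ^ 300 : ℕ) : ℝ) = 2600 / 300 := by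
      push_cast
      rw [Real.log_pow, Real.log_pow]
      push_cast
      rw [mul_div_mul_right _ _ hlog.ne']
    rw [h2] at h1
    refine le_trans (Finset.sum_le_sum fun n hn => ?_) h1
    have hn1 : (1 : ℝ) ≤ n := by exact_mod_cast hX1 n hn
    refine div_le_div_of_nonneg_right ?_ (by linarith)
    exact mul_le_of_le_one_right (sq_nonneg _) (WW_mem _ _ _).2
  · -- different classes
    rintro ⟨q, χ, ρ⟩ hj ⟨r, ψ, ρ'⟩ hj' hne
    obtain ⟨h1, h2, h3⟩ := hw _ hj _ hj'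
    have h4 := hcr Q (q + 1) (r + 1) χ ψ (ρ + (starRingEnd ℂ) ρ' - 1) hQc
      (by have := (hJ _ hj).1; simp only at this; omega)
      (by have := (hJ _ hj').1; simp only at this; omega) (hJ _ hj).2.1 (hJ _ hj').2.1
      (by
        intro he
        apply hne
        rw [Sigma.mk.injEq] at he
        obtain ⟨he1, he2⟩ := he
        have he3 : q = r := by omega
        subst he3
        rw [eq_of_heq he2]) h1 h2 h3
    refine le_trans (le_of_eq ?_) h4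
    congr 1
    refine Finset.sum_congr rfl fun n hn => ?_
    have h5 := cpow_pair n (hX1 n hn) ρ ρ'
    rw [← h5]
    unfold wt
    simp only [hp, hch, map_mul]
    push_cast
    ring
  · -- the same class
    intro j hj
    have hterm : ∀ j' ∈ J.filter (fun j' => cl j' = cl j),
        ‖∑ n ∈ Icc 1 (Q ^ 2600), ((n * (Th Q n ^ 2 * WW ((Q : ℝ) ^ 300) ((Q : ℝ) ^ 1300) n) : ℝ) : ℂ) *
          (p j n * (starRingEnd ℂ) (p j' n))‖ ≤
        C1 * (Q : ℝ) ^ (5200 * η) * (1 / (1 + ((j.2.2.im - j'.2.2.im) * Real.log Q) ^ 2)) +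
          1 / (Q : ℝ) ^ 40 := by
      intro j' hj'
      have hj'J : j' ∈ J := (Finset.mem_filter.mp hj').1
      obtain ⟨h1, h2, h3⟩ := hw _ hj _ hj'J
      have h4 := hsm Q (j.2.2 + (starRingEnd ℂ) j'.2.2 - 1) hQd h1 h2 h3
      have h5 : ∑ n ∈ Icc 1 (Q ^ 2600), ((n * (Th Q n ^ 2 * WW ((Q : ℝ) ^ 300) ((Q : ℝ) ^ 1300) n) : ℝ) : ℂ) *
          (p j n * (starRingEnd ℂ) (p j' n)) =
          ∑ n ∈ Icc 1 (Q ^ 2600), (wt Q n : ℂ) *
            (n : ℂ) ^ (-(j.2.2 + (starRingEnd ℂ) j'.2.2 - 1)) := by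
        refine Finset.sum_congr rfl fun n hn => ?_
        rw [← cpow_pair n (hX1 n hn) j.2.2 j'.2.2]
        unfold wt
        simp only [hp]
        push_cast
        ring
      rw [h5]
      refine h4.trans ?_
      have him : (j.2.2 + (starRingEnd ℂ) j'.2.2 - 1).im = j.2.2.im - j'.2.2.im := by
        simp [sub_eq_add_neg]
      rw [him]
      have hre : (j.2.2 + (starRingEnd ℂ) j'.2.2 - 1).re = j.2.2.re + j'.2.2.re - 1 := by
        simp
      rw [hre]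
      have h6 : (Q : ℝ) ^ (2600 * (1 - (j.2.2.re + j'.2.2.re - 1))) ≤ (Q : ℝ) ^ (5200 * η) := by
        refine Real.rpow_le_rpow_of_exponent_le hQ1R ?_
        have h7 := (hJ j hj).2.2.2.1
        have h8 := (hJ j' hj'J).2.2.2.1
        linarith
      have h9 : C1 * (Q : ℝ) ^ (2600 * (1 - (j.2.2.re + j'.2.2.re - 1))) /
          (1 + ((j.2.2.im - j'.2.2.im) * Real.log Q) ^ 2) ≤
          C1 * (Q : ℝ) ^ (5200 * η) * (1 / (1 + ((j.2.2.im - j'.2.2.im) * Real.log Q) ^ 2)) := by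
        rw [mul_one_div]
        refine div_le_div_of_nonneg_right ?_ (by positivity)
        exact mul_le_mul_of_nonneg_left h6 (by linarith)
      linarith
    refine (Finset.sum_le_sum hterm).trans ?_
    rw [Finset.sum_add_distrib, ← Finset.mul_sum, Finset.sum_const, nsmul_eq_mul]
    have h10 := sum_sep (J.filter (fun j' => cl j' = cl j))
      (fun j' => (j.2.2.im - j'.2.2.im) * Real.log Q) (by
        intro i hi i' hi' hne
        rw [Finset.mem_filter] at hi hi'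
        have h11 := hsep i hi.1 i' hi'.1 hne (hi.2.trans hi'.2.symm)
        have h12 : (j.2.2.im - i.2.2.im) * Real.log Q - (j.2.2.im - i'.2.2.im) * Real.log Q =
            -((i.2.2.im - i'.2.2.im) * Real.log Q) := by ring
        rw [h12, abs_neg, abs_mul, abs_of_pos hlog]
        rw [div_le_iff₀ hlog] at h11
        exact h11)
    have h13 : ((J.filter (fun j' => cl j' = cl j)).card : ℝ) ≤ J.card := by
      exact_mod_cast Finset.card_filter_le _ _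
    refine add_le_add ?_ ?_
    · exact mul_le_mul_of_nonneg_left h10 (by positivity)
    · exact mul_le_mul_of_nonneg_right h13 (by positivity)

end Pool.Agent.Lib.GMV
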