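import Mathlib

/-!
# GMV.ZWt (1.2 h): the smooth weights (piecewise linear in `log y`)

PROOF. `VV N y`: `1` for `y ≤ N`, linear in `log y` down to `0` at `N^2`. `WW z N y`: `0` for `y ≤ √z`, linear in `log y` up to `1` at `z`,
equal to `VV N y` for `y ≥ z`. `WW_diff`: `log y` has slopes `2/log z ≤ 1` (`z ≥ 8`), `1/log N ≤ 1`; `log (m+1) - log m ≤ 1/m`.
`inner_non` (Abel summation): as `VV N (g (M+1)) = 0`, the sum is `∑_(m ≤ M) (VV(g m) - VV(g (m+1))) A(m)`, `A(m) = ∑_(k ≤ m) c k`. The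
differences are `≥ 0`, their sum is `≤ 1`, and a difference is nonzero only if `g (m+1) > N`, then `m ≥ N/(2g)` (if `N/g ≥ 2` since
`m > N/g - 1 ≥ N/(2g)`, otherwise since `m ≥ 1`), so `|A(m)| ≤ K m^(-1/2) ≤ K √(2g/N)`.
-/

set_option autoImplicit false

open Finset

namespace Pool.Agent.Lib.GMV

noncomputable def VV (N y : ℝ) : ℝ := max 0 (min 1 (2 - Real.log y / Real.log N))

noncomputable def WW (z N y : ℝ) : ℝ :=
  max 0 (min (min 1 (2 * Real.log y / Real.log z - 1)) (2 - Real.log y / Real.log N))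

namespace ZWtAux

lemma top_le {N y : ℝ} (hN : 2 ≤ N) (h : N ^ 2 ≤ y) : 2 - Real.log y / Real.log N ≤ 0 := by
  have h0 : 0 < Real.log N := Real.log_pos (by linarith)
  have h1 : 2 * Real.log N ≤ Real.log y := by
    have h2 : Real.log (N ^ 2) ≤ Real.log y := Real.log_le_log (by positivity) h
    rw [Real.log_pow] at h2
    push_cast at h2
    exact h2
  have h3 : 2 ≤ Real.log y / Real.log N := by
    rw [le_div_iff₀ h0]
    exact h1
  linarith

lemma VV_anti {N a b : ℝ} (hN : 2 ≤ N) (ha : 0 < a) (hab : a ≤ b) : VV N b ≤ VV N a := by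
  have h0 : 0 < Real.log N := Real.log_pos (by linarith)
  have h1 : Real.log a ≤ Real.log b := Real.log_le_log ha hab
  have h2 : Real.log a / Real.log N ≤ Real.log b / Real.log N :=
    div_le_div_of_nonneg_right h1 h0.le
  unfold VV
  exact max_le_max le_rfl (min_le_min le_rfl (by linarith))

end ZWtAux

theorem VV_mem (N y : ℝ) : 0 ≤ VV N y ∧ VV N y ≤ 1 := by
  unfold VV
  exact ⟨le_max_left _ _, max_le zero_le_one (min_le_left _ _)⟩

theorem VV_one {N y : ℝ} (hN : 2 ≤ N) (hy : 0 < y) (h : y ≤ N) : VV N y = 1 := by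
  have h0 : 0 < Real.log N := Real.log_pos (by linarith)
  have h1 : Real.log y ≤ Real.log N := Real.log_le_log hy h
  have h2 : Real.log y / Real.log N ≤ 1 := by rwa [div_le_one h0]
  unfold VV
  rw [min_eq_left (by linarith), max_eq_right zero_le_one]

theorem VV_zero {N y : ℝ} (hN : 2 ≤ N) (h : N ^ 2 ≤ y) : VV N y = 0 := by
  unfold VV
  exact max_eq_left ((min_le_right _ _).trans (ZWtAux.top_le hN h))

theorem WW_mem (z N y : ℝ) : 0 ≤ WW z N y ∧ WW z N y ≤ 1 := by
  unfold WW
  exact ⟨le_max_left _ _, max_le zero_le_one ((min_le_left _ _).trans (min_le_left _ _))⟩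

theorem WW_zero {z N y : ℝ} (hz : 2 ≤ z) (hy : 1 ≤ y) (h : y ^ 2 ≤ z) : WW z N y = 0 := by
  have h0 : 0 < Real.log z := Real.log_pos (by linarith)
  have h1 : 2 * Real.log y ≤ Real.log z := by
    have h2 : Real.log (y ^ 2) ≤ Real.log z := Real.log_le_log (by positivity) h
    rw [Real.log_pow] at h2
    push_cast at h2
    exact h2
  have h3 : 2 * Real.log y / Real.log z ≤ 1 := by rwa [div_le_one h0]
  unfold WW
  exact max_eq_left ((min_le_left _ _).trans ((min_le_right _ _).trans (by linarith)))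

theorem WW_top {z N y : ℝ} (hN : 2 ≤ N) (h : N ^ 2 ≤ y) : WW z N y = 0 := by
  unfold WW
  exact max_eq_left ((min_le_right _ _).trans (ZWtAux.top_le hN h))

theorem WW_eq {z N y : ℝ} (hz : 2 ≤ z) (h : z ≤ y) : WW z N y = VV N y := by
  have h0 : 0 < Real.log z := Real.log_pos (by linarith)
  have h1 : Real.log z ≤ Real.log y := Real.log_le_log (by linarith) h
  have h2 : 1 ≤ 2 * Real.log y / Real.log z - 1 := by
    have h3 : 2 ≤ 2 * Real.log y / Real.log z := by
      rw [le_div_iff₀ h0]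
      linarith
    linarith
  unfold WW VV
  rw [min_eq_left h2]

theorem WW_diff {z N a b : ℝ} (hz : 8 ≤ z) (hN : 3 ≤ N) (ha : 0 < a) (hab : a ≤ b) :
    |WW z N b - WW z N a| ≤ Real.log b - Real.log a := by
  have hb : 0 < b := lt_of_lt_of_le ha hab
  have ht : 0 ≤ Real.log b - Real.log a := by
    have := Real.log_le_log ha hab
    linarith
  have hz2 : 2 ≤ Real.log z := by
    have h1 : Real.log 8 ≤ Real.log z := Real.log_le_log (by norm_num) hz
    have h2 : Real.log 8 = 3 * Real.log 2 := by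
      rw [show (8 : ℝ) = 2 ^ 3 by norm_num, Real.log_pow]
      push_cast
      ring
    have h3 := Real.log_two_gt_d9
    linarith
  have hN1 : 1 ≤ Real.log N := by
    rw [Real.le_log_iff_exp_le (by linarith)]
    have := Real.exp_one_lt_d9
    linarith
  have e1 : |(2 * Real.log b / Real.log z - 1) - (2 * Real.log a / Real.log z - 1)| ≤
      Real.log b - Real.log a := by
    have h1 : (2 * Real.log b / Real.log z - 1) - (2 * Real.log a / Real.log z - 1) =
        2 * (Real.log b - Real.log a) / Real.log z := by ring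
    rw [h1, abs_of_nonneg (div_nonneg (by linarith) (by linarith)), div_le_iff₀ (by linarith)]
    nlinarith
  have e2 : |(2 - Real.log b / Real.log N) - (2 - Real.log a / Real.log N)| ≤
      Real.log b - Real.log a := by
    have h1 : (2 - Real.log b / Real.log N) - (2 - Real.log a / Real.log N) =
        -((Real.log b - Real.log a) / Real.log N) := by ring
    rw [h1, abs_neg, abs_of_nonneg (div_nonneg ht (by linarith)), div_le_iff₀ (by linarith)]
    nlinarith
  unfold WW
  refine (abs_max_sub_max_le_max _ _ _ _).trans (max_le (by simpa using ht) ?_)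
  refine (abs_min_sub_min_le_max _ _ _ _).trans (max_le ?_ e2)
  refine (abs_min_sub_min_le_max _ _ _ _).trans (max_le (by simpa using ht) e1)

theorem inner_non (N K : ℝ) (hN : 2 ≤ N) (hK : 0 ≤ K) (c : ℕ → ℂ)
    (hc : ∀ M : ℕ, 1 ≤ M → ‖∑ m ∈ Icc 1 M, c m‖ ≤ K / Real.sqrt M) (g M : ℕ) (hg : 1 ≤ g)
    (hM : N ^ 2 ≤ (g : ℝ) * (M + 1)) :
    ‖∑ m ∈ Icc 1 M, ((VV N ((g : ℝ) * m) : ℝ) : ℂ) * c m‖ ≤ K * Real.sqrt (2 * g / N) := by
  set v : ℕ → ℝ := fun m => VV N ((g : ℝ) * m) with hv
  set A : ℕ → ℂ := fun m => ∑ k ∈ Icc 1 m, c k with hA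
  have hg0 : (0 : ℝ) < g := by exact_mod_cast hg
  have hN0 : (0 : ℝ) < N := by linarith
  have habel : ∀ M : ℕ, ∑ m ∈ Icc 1 M, ((v m : ℝ) : ℂ) * c m =
      ∑ m ∈ Icc 1 M, ((v m - v (m + 1) : ℝ) : ℂ) * A m + ((v (M + 1) : ℝ) : ℂ) * A M := by
    intro M
    induction M with
    | zero => simp [hA]
    | succ M ih =>
      rw [Finset.sum_Icc_succ_top (by omega), Finset.sum_Icc_succ_top (by omega), ih]
      have h1 : A (M + 1) = A M + c (M + 1) := by
        rw [hA]
        exact Finset.sum_Icc_succ_top (by omega) _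
      rw [h1]
      push_cast
      ring
  have htel : ∀ M : ℕ, ∑ m ∈ Icc 1 M, (v m - v (m + 1)) = v 1 - v (M + 1) := by
    intro M
    induction M with
    | zero => simp
    | succ M ih =>
      rw [Finset.sum_Icc_succ_top (by omega), ih]
      ring
  have hlast : v (M + 1) = 0 := by
    rw [hv]
    dsimp only
    push_cast
    exact VV_zero hN hM
  have hanti : ∀ m : ℕ, 1 ≤ m → v (m + 1) ≤ v m := by
    intro m hm
    have hm0 : (0 : ℝ) < m := by exact_mod_cast hm
    refine ZWtAux.VV_anti hN (by positivity) ?_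
    push_cast
    nlinarith
  have hroot : 0 ≤ Real.sqrt (2 * g / N) := Real.sqrt_nonneg _
  have hterm : ∀ m ∈ Icc 1 M, ‖((v m - v (m + 1) : ℝ) : ℂ) * A m‖ ≤
      (v m - v (m + 1)) * (K * Real.sqrt (2 * g / N)) := by
    intro m hm
    have hm1 : 1 ≤ m := (mem_Icc.1 hm).1
    have hm0 : (0 : ℝ) < m := by exact_mod_cast hm1
    have hm1' : (1 : ℝ) ≤ m := by exact_mod_cast hm1
    have hd : 0 ≤ v m - v (m + 1) := by
      have := hanti m hm1
      linarith
    rw [norm_mul, Complex.norm_real, Real.norm_of_nonneg hd]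
    by_cases hcase : (g : ℝ) * (m + 1) ≤ N
    · have h1 : v m = 1 := VV_one hN (by positivity) (by nlinarith)
      have h2 : v (m + 1) = 1 := by
        rw [hv]
        dsimp only
        push_cast
        exact VV_one hN (by positivity) hcase
      rw [h1, h2]
      simp
    · push Not at hcase
      refine mul_le_mul_of_nonneg_left ?_ hd
      refine (hc m hm1).trans ?_
      rw [div_eq_mul_inv, ← Real.sqrt_inv]
      refine mul_le_mul_of_nonneg_left (Real.sqrt_le_sqrt ?_) hK
      rw [inv_eq_one_div, div_le_div_iff₀ hm0 hN0]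
      nlinarith
  rw [habel M, hlast]
  have h3 : ((0 : ℝ) : ℂ) * A M = 0 := by simp
  rw [h3, add_zero]
  refine (norm_sum_le _ _).trans ((Finset.sum_le_sum hterm).trans ?_)
  rw [← Finset.sum_mul, htel M, hlast, sub_zero]
  have h4 : v 1 ≤ 1 := (VV_mem _ _).2
  have h5 : 0 ≤ K * Real.sqrt (2 * g / N) := mul_nonneg hK hroot
  nlinarith

end Pool.Agent.Lib.GMV
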