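import Pool.Agent.Lib.GMV.Defs
import Pool.Agent.Lib.GMV.ZAn
import Pool.Agent.Lib.GMV.ZWt
import Pool.Agent.Lib.VK.Approx

/-!
# GMV.ZDet (1.7 h): detection of the zeros, nonprincipal characters

PROOF. Parameters: `z = Q^300`, `E = Q`, `N = Q^1300`, `M = N^2 = Q^2600`; `an z`, `Th E`, `WW z N`.
Let `ρ` be a zero, `χ` mod `q`. First `T = ∑_(n ≤ M) an(n) Th(n) VV(n) χ(n) n^(-ρ)`: as `VV 1 = 1`, `WW 1 = 0`, `an n = 0` for `1 < n ≤ z`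
and `VV = WW` for `n ≥ z`, the sum of the theorem is `T - 1`; it suffices that `|T| ≤ 1/2` for large `Q`.
By `expand_two` (`D = z^2`, `E = Q`, `lam_zero`, `th_zero`) `T = ∑_(d ≤ z^2, e ≤ Q) lam d th e χ(g) g^(-ρ) ∑_(m ≤ M/g) VV(g m) χ(m) m^(-ρ)`, `g = lcm(d,e)`,
`1 ≤ g ≤ z^2 Q = Q^601`, `N^2 ≤ g (M/g + 1)`.
`det_expand` is exactly this for a completely multiplicative `c` (`c n = χ(n) n^(-ρ)`).
`detect_non`: `VK.approx` (`c = 0`, `L(ρ) = 0`): `|∑_(m ≤ M') χ(m) m^(-ρ)| ≤ C q |ρ| M'^(-Re ρ) ≤ K/√M'`, `K = C q |ρ| ≤ 3 C Q^31`; `inner_non`: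
`|inner| ≤ K √(2g/N)`, `g^(-Re ρ) √g ≤ 1`, `|lam|, |th| ≤ 1`: `|T| ≤ Q^601 * 3 C Q^31 * √2 * Q^(-650) ≤ 1/2`.
-/

set_option autoImplicit false

open Complex Finset

namespace Pool.Agent.Lib.GMV

/-- the coefficients of the detector -/
noncomputable def cf (Q n : ℕ) : ℝ :=
  an (Q ^ 300) n * Th Q n * WW ((Q : ℝ) ^ 300) ((Q : ℝ) ^ 1300) n

namespace ZDetAux

/-- the identity with general parameters -/
lemma expand_gen (z E M : ℕ) (N : ℝ) (c : ℕ → ℂ) (hz : 2 ≤ z) (hE : 2 ≤ E) (hM : 1 ≤ M)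
    (hN : 2 ≤ N) (h1 : c 1 = 1) (hm : ∀ g m : ℕ, 1 ≤ g → 1 ≤ m → c (g * m) = c g * c m) :
    ∑ n ∈ Icc 1 M, ((an z n * Th E n * WW (z : ℝ) N n : ℝ) : ℂ) * c n =
      ∑ d ∈ Icc 1 (z ^ 2), ∑ e ∈ Icc 1 E, ((lam z d * th E e : ℝ) : ℂ) *
        (c (Nat.lcm d e) * ∑ m ∈ Icc 1 (M / Nat.lcm d e),
          ((VV N ((Nat.lcm d e : ℝ) * m) : ℝ) : ℂ) * c m) - 1 := by
  have hzR : (2 : ℝ) ≤ (z : ℝ) := by exact_mod_cast hz
  have key : ∀ n ∈ Icc 1 M, ((an z n * Th E n * WW (z : ℝ) N n : ℝ) : ℂ) * c n =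
      (((∑ d ∈ n.divisors, lam z d) * (∑ e ∈ n.divisors, th E e) : ℝ) : ℂ) *
        (((VV N (n : ℝ) : ℝ) : ℂ) * c n) - (if n = 1 then 1 else 0) := by
    intro n hn
    have hn1 := (Finset.mem_Icc.1 hn).1
    have e1 : ∑ d ∈ n.divisors, lam z d = an z n := rfl
    have e2 : ∑ e ∈ n.divisors, th E e = Th E n := rfl
    rw [e1, e2]
    by_cases h : n = 1
    · subst h
      rw [an_one z hz, Th_one E hE, if_pos rfl, h1,
        WW_zero hzR (by norm_num) (by norm_num; linarith),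
        VV_one hN (by norm_num) (by norm_num; linarith)]
      push_cast
      ring
    · rw [if_neg h, sub_zero]
      by_cases hz' : n ≤ z
      · rw [an_zero z n (by omega) hz']
        simp
      · rw [WW_eq hzR (by exact_mod_cast (by omega : z ≤ n))]
        push_cast
        ring
  rw [Finset.sum_congr rfl key, Finset.sum_sub_distrib,
    expand_two (lam z) (th E) (z ^ 2) E M (fun d hd => lam_zero z d hz hd)
      (fun e he => th_zero E e he) (fun n => ((VV N (n : ℝ) : ℝ) : ℂ) * c n)]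
  congr 1
  · refine Finset.sum_congr rfl fun d hd => Finset.sum_congr rfl fun e he => ?_
    have hd1 := (Finset.mem_Icc.1 hd).1
    have he1 := (Finset.mem_Icc.1 he).1
    have hl : 1 ≤ Nat.lcm d e := Nat.lcm_pos hd1 he1
    congr 1
    rw [Finset.mul_sum]
    refine Finset.sum_congr rfl fun m hmm => ?_
    have hm1 := (Finset.mem_Icc.1 hmm).1
    rw [hm _ _ hl hm1, Nat.cast_mul]
    ring
  · rw [Finset.sum_ite_eq']
    rw [if_pos (Finset.mem_Icc.2 ⟨le_refl 1, hM⟩)]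

/-- the summatory function of a nonprincipal character at a zero -/
lemma sum_char : ∃ C : ℝ, 1 ≤ C ∧ ∀ (q : ℕ) [NeZero q] (χ : DirichletCharacter ℂ q) (ρ : ℂ),
    χ ≠ 1 → Lf χ ρ = 0 → 9 / 10 ≤ ρ.re → ∀ M : ℕ, 1 ≤ M →
    ‖∑ m ∈ Icc 1 M, χ (m : ZMod q) * (m : ℂ) ^ (-ρ)‖ ≤ C * q * ‖ρ‖ / Real.sqrt M := by
  obtain ⟨C, hC1, hC⟩ := Pool.Agent.VK.approx
  refine ⟨C, hC1, ?_⟩
  intro q _ χ ρ hχ h0 hre M hM
  have hlt : ρ.re < 1 := by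
    by_contra hh
    exact Lf_ne_zero χ (not_lt.mp hh) h0
  have hne : ρ ≠ 1 := by
    rintro rfl
    simp at hlt
  have h1 := hC q (fun a => χ a) M ρ (fun a => DirichletCharacter.norm_le_one χ a) hM
    (by linarith) hne
  have h2 : ZMod.LFunction (fun a => χ a) ρ = 0 := by
    rw [Lf_of_ne hχ] at h0
    exact h0
  have h3 : ∑ a : ZMod q, χ a = 0 := MulChar.sum_eq_zero_of_ne_one hχ
  rw [h2, h3, zero_div, zero_mul, zero_sub, sub_zero, norm_neg] at h1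
  refine h1.trans ?_
  have hM1 : (1 : ℝ) ≤ (M : ℝ) := by exact_mod_cast hM
  have h4 : (M : ℝ) ^ (-ρ.re) ≤ (Real.sqrt M)⁻¹ := by
    rw [Real.sqrt_eq_rpow, ← Real.rpow_neg (by linarith)]
    exact Real.rpow_le_rpow_of_exponent_le hM1 (by linarith)
  rw [div_eq_mul_inv]
  exact mul_le_mul_of_nonneg_left h4 (by positivity)

/-- the norm of one coefficient -/
lemma norm_c_le {q : ℕ} [NeZero q] (χ : DirichletCharacter ℂ q) (ρ : ℂ) (hre : 9 / 10 ≤ ρ.re)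
    (g : ℕ) (hg : 1 ≤ g) : ‖χ (g : ZMod q) * (g : ℂ) ^ (-ρ)‖ ≤ (Real.sqrt g)⁻¹ := by
  have hg1 : (1 : ℝ) ≤ (g : ℝ) := by exact_mod_cast hg
  rw [norm_mul, Complex.norm_natCast_cpow_of_pos (by omega), neg_re]
  have h4 : (g : ℝ) ^ (-ρ.re) ≤ (Real.sqrt g)⁻¹ := by
    rw [Real.sqrt_eq_rpow, ← Real.rpow_neg (by linarith)]
    exact Real.rpow_le_rpow_of_exponent_le hg1 (by linarith)
  calc ‖χ (g : ZMod q)‖ * (g : ℝ) ^ (-ρ.re) ≤ 1 * (Real.sqrt g)⁻¹ :=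
        mul_le_mul (DirichletCharacter.norm_le_one χ _) h4 (Real.rpow_nonneg (by linarith) _)
          zero_le_one
    _ = (Real.sqrt g)⁻¹ := one_mul _

/-- the bound for the double sum -/
lemma double_bound (z E M : ℕ) (N K : ℝ) (c : ℕ → ℂ) (hz : 2 ≤ z) (hE : 2 ≤ E)
    (hN : 2 ≤ N) (hK : 0 ≤ K) (hNM : N ^ 2 ≤ (M : ℝ))
    (hc : ∀ M : ℕ, 1 ≤ M → ‖∑ m ∈ Icc 1 M, c m‖ ≤ K / Real.sqrt M)
    (hg : ∀ g : ℕ, 1 ≤ g → ‖c g‖ ≤ (Real.sqrt g)⁻¹) :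
    ‖∑ d ∈ Icc 1 (z ^ 2), ∑ e ∈ Icc 1 E, ((lam z d * th E e : ℝ) : ℂ) *
        (c (Nat.lcm d e) * ∑ m ∈ Icc 1 (M / Nat.lcm d e),
          ((VV N ((Nat.lcm d e : ℝ) * m) : ℝ) : ℂ) * c m)‖ ≤
      (z : ℝ) ^ 2 * E * (2 * K / Real.sqrt N) := by
  have hN0 : (0 : ℝ) < N := by linarith
  have hone : ∀ d ∈ Icc 1 (z ^ 2), ∀ e ∈ Icc 1 E, ‖((lam z d * th E e : ℝ) : ℂ) *
        (c (Nat.lcm d e) * ∑ m ∈ Icc 1 (M / Nat.lcm d e),
          ((VV N ((Nat.lcm d e : ℝ) * m) : ℝ) : ℂ) * c m)‖ ≤ 2 * K / Real.sqrt N := by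
    intro d hd e he
    have hd1 := (Finset.mem_Icc.1 hd).1
    have he1 := (Finset.mem_Icc.1 he).1
    have hl : 1 ≤ Nat.lcm d e := Nat.lcm_pos hd1 he1
    generalize Nat.lcm d e = g at hl
    have hg0 : (0 : ℝ) < (g : ℝ) := by exact_mod_cast hl
    have h1 : N ^ 2 ≤ (g : ℝ) * ((M / g : ℕ) + 1) := by
      have h2 : M < g * (M / g + 1) := Nat.lt_mul_div_succ M hl
      have h3 : (M : ℝ) ≤ (g : ℝ) * ((M / g : ℕ) + 1) := by exact_mod_cast h2.le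
      exact hNM.trans h3
    have h2 := inner_non N K hN hK c hc g (M / g) hl h1
    rw [norm_mul, norm_mul, Complex.norm_real, Real.norm_eq_abs, abs_mul]
    have h3 : |lam z d| * |th E e| ≤ 1 := by
      calc |lam z d| * |th E e| ≤ 1 * 1 :=
            mul_le_mul (lam_abs z d hz) (th_abs E e hE) (abs_nonneg _) zero_le_one
        _ = 1 := one_mul 1
    have h4 : Real.sqrt (2 * g / N) ≤ 2 * Real.sqrt g / Real.sqrt N := by
      rw [Real.sqrt_div (by positivity), Real.sqrt_mul (by norm_num)]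
      have h5 : Real.sqrt 2 ≤ 2 := by
        rw [Real.sqrt_le_left (by norm_num)]
        norm_num
      exact div_le_div_of_nonneg_right
        (mul_le_mul_of_nonneg_right h5 (Real.sqrt_nonneg _)) (Real.sqrt_nonneg _)
    have hsg : 0 < Real.sqrt g := Real.sqrt_pos.2 hg0
    calc |lam z d| * |th E e| * (‖c g‖ * ‖∑ m ∈ Icc 1 (M / g),
          ((VV N ((g : ℝ) * m) : ℝ) : ℂ) * c m‖)
        ≤ 1 * ((Real.sqrt g)⁻¹ * (K * (2 * Real.sqrt g / Real.sqrt N))) := by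
          refine mul_le_mul h3 ?_ (by positivity) zero_le_one
          refine mul_le_mul (hg g hl) ?_ (norm_nonneg _) (by positivity)
          exact h2.trans (mul_le_mul_of_nonneg_left h4 hK)
      _ = 2 * K / Real.sqrt N := by
          field_simp
  calc ‖∑ d ∈ Icc 1 (z ^ 2), ∑ e ∈ Icc 1 E, ((lam z d * th E e : ℝ) : ℂ) *
        (c (Nat.lcm d e) * ∑ m ∈ Icc 1 (M / Nat.lcm d e),
          ((VV N ((Nat.lcm d e : ℝ) * m) : ℝ) : ℂ) * c m)‖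
      ≤ ∑ d ∈ Icc 1 (z ^ 2), ∑ e ∈ Icc 1 E, 2 * K / Real.sqrt N := by
        refine norm_sum_le_of_le _ fun d hd => ?_
        exact norm_sum_le_of_le _ fun e he => hone d hd e he
    _ = (z : ℝ) ^ 2 * E * (2 * K / Real.sqrt N) := by
        rw [Finset.sum_const, Finset.sum_const, Nat.card_Icc, Nat.card_Icc, nsmul_eq_mul,
          nsmul_eq_mul, Nat.add_sub_cancel, Nat.add_sub_cancel, Nat.cast_pow]
        ring

end ZDetAux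

/-- the first steps of the proof: the detector sum is `T - 1` -/
theorem det_expand : ∃ Q0 : ℕ, ∀ (Q : ℕ) (c : ℕ → ℂ), Q0 ≤ Q → c 1 = 1 →
    (∀ g m : ℕ, 1 ≤ g → 1 ≤ m → c (g * m) = c g * c m) →
    ∑ n ∈ Icc 1 (Q ^ 2600), (cf Q n : ℂ) * c n =
      ∑ d ∈ Icc 1 ((Q ^ 300) ^ 2), ∑ e ∈ Icc 1 Q, ((lam (Q ^ 300) d * th Q e : ℝ) : ℂ) *
        (c (Nat.lcm d e) * ∑ m ∈ Icc 1 (Q ^ 2600 / Nat.lcm d e),
          ((VV ((Q : ℝ) ^ 1300) ((Nat.lcm d e : ℝ) * m) : ℝ) : ℂ) * c m) - 1 := by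
  refine ⟨2, ?_⟩
  intro Q c hQ h1 hm
  have hQR : (2 : ℝ) ≤ (Q : ℝ) := by exact_mod_cast hQ
  have hz : 2 ≤ Q ^ 300 := le_trans hQ (Nat.le_self_pow (n := 300) (by norm_num) Q)
  have hM : 1 ≤ Q ^ 2600 := Nat.one_le_pow _ _ (by omega)
  have hN : (2 : ℝ) ≤ (Q : ℝ) ^ 1300 :=
    hQR.trans (le_self_pow₀ (by linarith) (by norm_num))
  have h := ZDetAux.expand_gen (Q ^ 300) Q (Q ^ 2600) ((Q : ℝ) ^ 1300) c hz hQ hM hN h1 hm
  rw [← h]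
  refine Finset.sum_congr rfl fun n _ => ?_
  unfold cf
  rw [Nat.cast_pow]

theorem detect_non : ∃ Q0 : ℕ, ∀ (Q q : ℕ) [NeZero q] (χ : DirichletCharacter ℂ q) (ρ : ℂ),
    Q0 ≤ Q → q ≤ Q → χ ≠ 1 → Lf χ ρ = 0 → 9 / 10 ≤ ρ.re → |ρ.im| ≤ (Q : ℝ) ^ 30 →
    1 / 2 ≤ ‖∑ n ∈ Icc 1 (Q ^ 2600), (cf Q n : ℂ) * (χ (n : ZMod q) * (n : ℂ) ^ (-ρ))‖ := by
  obtain ⟨Q1, hQ1⟩ := det_expand
  obtain ⟨C, hC1, hC⟩ := ZDetAux.sum_char
  obtain ⟨Q2, hQ2⟩ := exists_nat_ge (8 * C)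
  refine ⟨max 2 (max Q1 Q2), ?_⟩
  intro Q q _ χ ρ hQ hq hχ h0 hre him
  have hQa : 2 ≤ Q := (le_max_left _ _).trans hQ
  have hQb : Q1 ≤ Q := ((le_max_left _ _).trans (le_max_right _ _)).trans hQ
  have hQc : Q2 ≤ Q := ((le_max_right _ _).trans (le_max_right _ _)).trans hQ
  have hQR : (2 : ℝ) ≤ (Q : ℝ) := by exact_mod_cast hQa
  have hQ0 : (0 : ℝ) < (Q : ℝ) := by linarith
  have hQC : 8 * C ≤ (Q : ℝ) := hQ2.trans (by exact_mod_cast hQc)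
  have hz : 2 ≤ Q ^ 300 := le_trans hQa (Nat.le_self_pow (n := 300) (by norm_num) Q)
  have hN : (2 : ℝ) ≤ (Q : ℝ) ^ 1300 :=
    hQR.trans (le_self_pow₀ (by linarith) (by norm_num))
  have hlt : ρ.re < 1 := by
    by_contra hh
    exact Lf_ne_zero χ (not_lt.mp hh) h0
  have hexp := hQ1 Q (fun n => χ (n : ZMod q) * (n : ℂ) ^ (-ρ)) hQb (by simp) (by
    intro g m _ _
    rw [Nat.cast_mul, map_mul, Nat.cast_mul, Complex.natCast_mul_natCast_cpow]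
    ring)
  have hK : (0 : ℝ) ≤ C * q * ‖ρ‖ := by positivity
  have hbound := ZDetAux.double_bound (Q ^ 300) Q (Q ^ 2600) ((Q : ℝ) ^ 1300) (C * q * ‖ρ‖)
    (fun n => χ (n : ZMod q) * (n : ℂ) ^ (-ρ)) hz hQa hN hK
    (by rw [← pow_mul, Nat.cast_pow])
    (fun M hM => hC q χ ρ hχ h0 hre M hM)
    (fun g hg => ZDetAux.norm_c_le χ ρ hre g hg)
  have hρ : ‖ρ‖ ≤ 2 * (Q : ℝ) ^ 30 := by
    have h1 := Complex.norm_le_abs_re_add_abs_im ρ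
    have h2 : |ρ.re| ≤ 1 := abs_le.2 ⟨by linarith, hlt.le⟩
    have h3 : (1 : ℝ) ≤ (Q : ℝ) ^ 30 := one_le_pow₀ (by linarith)
    linarith
  have hsq : Real.sqrt ((Q : ℝ) ^ 1300) = (Q : ℝ) ^ 650 := by
    rw [show (Q : ℝ) ^ 1300 = ((Q : ℝ) ^ 650) ^ 2 by rw [← pow_mul]]
    exact Real.sqrt_sq (by positivity)
  have hKle : C * q * ‖ρ‖ ≤ (Q : ℝ) ^ 32 / 4 := by
    have hqQ : (q : ℝ) ≤ (Q : ℝ) := by exact_mod_cast hq
    calc C * q * ‖ρ‖ ≤ ((Q : ℝ) / 8) * Q * (2 * (Q : ℝ) ^ 30) := by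
          refine mul_le_mul ?_ hρ (norm_nonneg _) (by positivity)
          exact mul_le_mul (by linarith) hqQ (by positivity) (by positivity)
      _ = (Q : ℝ) ^ 32 / 4 := by ring
  have hfin : ((Q ^ 300 : ℕ) : ℝ) ^ 2 * Q * (2 * (C * q * ‖ρ‖) / Real.sqrt ((Q : ℝ) ^ 1300)) ≤
      1 / 2 := by
    rw [hsq, Nat.cast_pow, ← pow_mul]
    have h1 : 2 * (C * q * ‖ρ‖) / (Q : ℝ) ^ 650 ≤ 2 * ((Q : ℝ) ^ 32 / 4) / (Q : ℝ) ^ 650 :=
      div_le_div_of_nonneg_right (by linarith) (by positivity)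
    calc (Q : ℝ) ^ (300 * 2) * Q * (2 * (C * q * ‖ρ‖) / (Q : ℝ) ^ 650)
        ≤ (Q : ℝ) ^ (300 * 2) * Q * (2 * ((Q : ℝ) ^ 32 / 4) / (Q : ℝ) ^ 650) :=
          mul_le_mul_of_nonneg_left h1 (by positivity)
      _ = 1 / 2 * ((Q : ℝ) ^ 633 / (Q : ℝ) ^ 650) := by
          rw [show (Q : ℝ) ^ 633 = (Q : ℝ) ^ (300 * 2) * Q * (Q : ℝ) ^ 32 by
            rw [← pow_succ, ← pow_add]]
          ring
      _ ≤ 1 / 2 * 1 := by
          refine mul_le_mul_of_nonneg_left ?_ (by norm_num)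
          rw [div_le_one (by positivity)]
          exact pow_le_pow_right₀ (by linarith) (by norm_num)
      _ = 1 / 2 := by norm_num
  have htot := hbound.trans hfin
  rw [hexp]
  have h5 := norm_sub_norm_le (1 : ℂ) (∑ d ∈ Icc 1 ((Q ^ 300) ^ 2), ∑ e ∈ Icc 1 Q,
      ((lam (Q ^ 300) d * th Q e : ℝ) : ℂ) *
        ((χ ((Nat.lcm d e : ℕ) : ZMod q) * ((Nat.lcm d e : ℕ) : ℂ) ^ (-ρ)) *
          ∑ m ∈ Icc 1 (Q ^ 2600 / Nat.lcm d e),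
          ((VV ((Q : ℝ) ^ 1300) ((Nat.lcm d e : ℝ) * m) : ℝ) : ℂ) *
            (χ (m : ZMod q) * (m : ℂ) ^ (-ρ))))
  rw [norm_one] at h5
  rw [norm_sub_rev]
  linarith

end Pool.Agent.Lib.GMV
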