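import Pool.Agent.Lib.GMV.ZWt

/-!
# GMV.ZZet (1.7 h): sums of the weights against `m^(-ρ)`, `ρ` a zero of `ζ`

PROOF. `zet`: `J = (N^(2(1-ρ)) - N^(1-ρ))/(B (1-ρ)^2)`, so `|J| ≤ 2 N^(2a)/(B |1-ρ|^2)`, `a = 1 - Re ρ`. By Abel
summation the sum is `∑_m (VV(g m) - VV(g (m+1))) A(m)`, `A(m) = ∑_(k ≤ m) k^(-ρ) = m^(1-ρ)/(1-ρ) + O(K m^(-1/2))`; the error term
as in `inner_non`. With `c m` the number `m` moved into the interval `[N/g, N^2/g]`,
`VV(g m) - VV(g (m+1)) = (log c(m+1) - log c(m))/B`, and the main sum is compared with the telescoping sum of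
`(c(m+1)^(1-ρ) - c(m)^(1-ρ))/(1-ρ)`.
-/

set_option autoImplicit false

open Finset MeasureTheory

namespace Pool.Agent.Lib.GMV

namespace ZZetAux

lemma abel (v : ℕ → ℝ) (c : ℕ → ℂ) (M : ℕ) : ∑ m ∈ Icc 1 M, ((v m : ℝ) : ℂ) * c m =
    ∑ m ∈ Icc 1 M, ((v m - v (m + 1) : ℝ) : ℂ) * ∑ k ∈ Icc 1 m, c k +
      ((v (M + 1) : ℝ) : ℂ) * ∑ k ∈ Icc 1 M, c k := by
  induction M with
  | zero => simp
  | succ M ih =>
    rw [Finset.sum_Icc_succ_top (by omega), Finset.sum_Icc_succ_top (by omega), ih]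
    have h1 : ∑ k ∈ Icc 1 (M + 1), c k = ∑ k ∈ Icc 1 M, c k + c (M + 1) :=
      Finset.sum_Icc_succ_top (by omega) _
    rw [h1]
    push_cast
    ring

lemma tele {α : Type*} [AddCommGroup α] (v : ℕ → α) (M : ℕ) :
    ∑ m ∈ Icc 1 M, (v (m + 1) - v m) = v (M + 1) - v 1 := by
  induction M with
  | zero => simp
  | succ M ih =>
    rw [Finset.sum_Icc_succ_top (by omega), ih]
    abel

/-- the powers of two neighbouring points -/
lemma pow_near {ρ : ℂ} (h1 : 1 / 2 ≤ ρ.re) (hρ : ρ ≠ 1) {a t : ℝ} (ha : 1 ≤ a) (hat : a ≤ t)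
    (hta : t ≤ a + 1) : ‖(t : ℂ) ^ (1 - ρ) - (a : ℂ) ^ (1 - ρ)‖ ≤ ‖1 - ρ‖ * (Real.sqrt a)⁻¹ := by
  have hw : (1 : ℂ) - ρ ≠ 0 := sub_ne_zero.mpr (Ne.symm hρ)
  have hr : -ρ ≠ -1 := by
    intro h
    exact hρ (neg_injective h)
  have hder : ∀ x ∈ Set.Icc a t, HasDerivWithinAt (fun y : ℝ => (y : ℂ) ^ (-ρ + 1) / (-ρ + 1))
      ((x : ℂ) ^ (-ρ)) (Set.Icc a t) x := by
    intro x hx
    exact (hasDerivAt_ofReal_cpow_const' (by linarith [hx.1]) hr).hasDerivWithinAt
  have hb : ∀ x ∈ Set.Icc a t, ‖(x : ℂ) ^ (-ρ)‖ ≤ (Real.sqrt a)⁻¹ := by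
    intro x hx
    have hx0 : 0 < x := by linarith [hx.1]
    rw [Complex.norm_cpow_eq_rpow_re_of_pos hx0, Complex.neg_re, Real.sqrt_eq_rpow,
      ← Real.rpow_neg (by linarith)]
    calc x ^ (-ρ.re) ≤ x ^ (-(1 / 2) : ℝ) :=
          Real.rpow_le_rpow_of_exponent_le (by linarith [hx.1]) (by linarith)
      _ ≤ a ^ (-(1 / 2) : ℝ) :=
          Real.rpow_le_rpow_of_nonpos (by linarith) hx.1 (by norm_num)
  have h := (convex_Icc a t).norm_image_sub_le_of_norm_hasDerivWithin_le hder hb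
    (Set.left_mem_Icc.2 hat) (Set.right_mem_Icc.2 hat)
  have hs : 0 ≤ (Real.sqrt a)⁻¹ := by positivity
  have e : -ρ + 1 = 1 - ρ := by ring
  simp only [e] at h
  rw [← sub_div, norm_div, div_le_iff₀ (norm_pos_iff.mpr hw)] at h
  refine h.trans ?_
  rw [Real.norm_of_nonneg (by linarith)]
  have hn : 0 ≤ ‖(1 : ℂ) - ρ‖ := norm_nonneg _
  calc (Real.sqrt a)⁻¹ * (t - a) * ‖1 - ρ‖ ≤ (Real.sqrt a)⁻¹ * 1 * ‖1 - ρ‖ := by
        gcongr
        linarith
    _ = _ := by ring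

/-- one step -/
lemma step {ρ : ℂ} (h1 : 1 / 2 ≤ ρ.re) (hρ : ρ ≠ 1) {a α β : ℝ} (ha : 1 ≤ a) (haα : a ≤ α)
    (hαβ : α ≤ β) (hβ : β ≤ a + 1) :
    ‖((β : ℂ) ^ (1 - ρ) - (α : ℂ) ^ (1 - ρ)) / (1 - ρ) -
      (a : ℂ) ^ (1 - ρ) * ((Real.log β - Real.log α : ℝ) : ℂ)‖ ≤
      ‖1 - ρ‖ * (Real.sqrt a)⁻¹ * (Real.log β - Real.log α) := by
  have hw : (1 : ℂ) - ρ ≠ 0 := sub_ne_zero.mpr (Ne.symm hρ)
  have hr : -ρ ≠ -1 := by
    intro h
    exact hρ (neg_injective h)
  have e : -ρ + 1 = 1 - ρ := by ring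
  set f : ℝ → ℂ := fun t => ((t : ℂ) ^ (1 - ρ) / (1 - ρ) - (α : ℂ) ^ (1 - ρ) / (1 - ρ)) -
      (a : ℂ) ^ (1 - ρ) * ((Real.log t - Real.log α : ℝ) : ℂ) with hf
  set f' : ℝ → ℂ := fun t => (t : ℂ) ^ (-ρ) - (a : ℂ) ^ (1 - ρ) * ((t⁻¹ : ℝ) : ℂ) with hf'
  have hderf : ∀ x ∈ Set.Icc α β, HasDerivAt f (f' x) x := by
    intro x hx
    have hx0 : x ≠ 0 := by linarith [hx.1]
    have d1 := hasDerivAt_ofReal_cpow_const' (x := x) hx0 hr
    simp only [e] at d1
    have d2 : HasDerivAt (fun t => Real.log t - Real.log α) (x⁻¹) x :=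
      (Real.hasDerivAt_log hx0).sub_const _
    exact (d1.sub_const _).sub (d2.ofReal_comp.const_mul _)
  set B : ℝ → ℝ := fun t => ‖1 - ρ‖ * (Real.sqrt a)⁻¹ * (Real.log t - Real.log α) with hB
  have hderB : ∀ x ∈ Set.Icc α β, HasDerivAt B (‖1 - ρ‖ * (Real.sqrt a)⁻¹ * x⁻¹) x := by
    intro x hx
    have hx0 : x ≠ 0 := by linarith [hx.1]
    exact ((Real.hasDerivAt_log hx0).sub_const _).const_mul _
  have key := image_norm_le_of_norm_deriv_right_le_deriv_boundary' (f := f) (f' := f')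
    (a := α) (b := β) (B := B) (B' := fun x => ‖1 - ρ‖ * (Real.sqrt a)⁻¹ * x⁻¹)
    (fun x hx => (hderf x hx).continuousAt.continuousWithinAt)
    (fun x hx => (hderf x ⟨hx.1, hx.2.le⟩).hasDerivWithinAt)
    (by simp [hf, hB])
    (fun x hx => (hderB x hx).continuousAt.continuousWithinAt)
    (fun x hx => (hderB x ⟨hx.1, hx.2.le⟩).hasDerivWithinAt)
    (by
      intro x hx
      have hx0 : 0 < x := by linarith [hx.1]
      have hxc : (x : ℂ) ≠ 0 := by exact_mod_cast hx0.ne'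
      have e1 : f' x = ((x : ℂ) ^ (1 - ρ) - (a : ℂ) ^ (1 - ρ)) * ((x⁻¹ : ℝ) : ℂ) := by
        rw [hf']
        simp only
        have : (x : ℂ) ^ (1 - ρ) * ((x⁻¹ : ℝ) : ℂ) = (x : ℂ) ^ (-ρ) := by
          have e9 := Complex.cpow_sub (1 - ρ) 1 hxc
          rw [show (1 - ρ) - 1 = -ρ by ring, Complex.cpow_one] at e9
          rw [e9, Complex.ofReal_inv, div_eq_mul_inv]
        rw [sub_mul, this]
      rw [e1, norm_mul, Complex.norm_real, Real.norm_of_nonneg (inv_pos.2 hx0).le]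
      exact mul_le_mul_of_nonneg_right
        (pow_near h1 hρ ha (by linarith [hx.1]) (by linarith [hx.2])) (inv_pos.2 hx0).le)
  have h := key (Set.right_mem_Icc.2 hαβ)
  rw [hf, hB] at h
  simp only at h
  rw [sub_div]
  exact h

end ZZetAux

open ZZetAux

theorem zet : ∃ C : ℝ, 1 ≤ C ∧ ∀ (N K : ℝ) (ρ : ℂ), 3 ≤ N → 0 ≤ K → 1 / 2 ≤ ρ.re → ρ.re ≤ 1 →
    ρ ≠ 1 →
    (∀ M : ℕ, 1 ≤ M → ‖∑ m ∈ Icc 1 M, (m : ℂ) ^ (-ρ) - (M : ℂ) ^ (1 - ρ) / (1 - ρ)‖ ≤
      K / Real.sqrt M) →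
    ∃ J : ℂ, ‖1 - ρ‖ ^ 2 * ‖J‖ ≤ 2 * N ^ (2 * (1 - ρ.re)) / Real.log N ∧
      ∀ g M : ℕ, 1 ≤ g → (g : ℝ) ≤ N → N ^ 2 ≤ (g : ℝ) * (M + 1) →
        ‖∑ m ∈ Icc 1 M, ((VV N ((g : ℝ) * m) : ℝ) : ℂ) * (m : ℂ) ^ (-ρ) -
          (g : ℂ) ^ (ρ - 1) * J‖ ≤ (C + K) * Real.sqrt (2 * g / N) := by
  refine ⟨1, le_rfl, ?_⟩
  intro N K ρ hN hK h1 h2 hρ hsum
  have hw : (1 : ℂ) - ρ ≠ 0 := sub_ne_zero.mpr (Ne.symm hρ)
  have hwn : 0 < ‖(1 : ℂ) - ρ‖ := norm_pos_iff.mpr hw
  have hN0 : (0 : ℝ) < N := by linarith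
  have hB : 0 < Real.log N := Real.log_pos (by linarith)
  have hBc : ((Real.log N : ℝ) : ℂ) ≠ 0 := by exact_mod_cast hB.ne'
  refine ⟨((N : ℂ) ^ (2 * (1 - ρ)) - (N : ℂ) ^ (1 - ρ)) / (((Real.log N : ℝ) : ℂ) * (1 - ρ) ^ 2),
    ?_, ?_⟩
  · rw [norm_div, norm_mul, norm_pow, Complex.norm_real, Real.norm_of_nonneg hB.le]
    have h3 : ‖(N : ℂ) ^ (2 * (1 - ρ)) - (N : ℂ) ^ (1 - ρ)‖ ≤ 2 * N ^ (2 * (1 - ρ.re)) := by
      refine (norm_sub_le _ _).trans ?_
      rw [Complex.norm_cpow_eq_rpow_re_of_pos hN0, Complex.norm_cpow_eq_rpow_re_of_pos hN0]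
      have e1 : (2 * (1 - ρ)).re = 2 * (1 - ρ.re) := by simp
      have e2 : (1 - ρ).re = 1 - ρ.re := by simp
      rw [e1, e2]
      have h4 : N ^ (1 - ρ.re) ≤ N ^ (2 * (1 - ρ.re)) :=
        Real.rpow_le_rpow_of_exponent_le (by linarith) (by linarith)
      linarith
    have e3 : ‖(1 : ℂ) - ρ‖ ^ 2 * (‖(N : ℂ) ^ (2 * (1 - ρ)) - (N : ℂ) ^ (1 - ρ)‖ /
        (Real.log N * ‖(1 : ℂ) - ρ‖ ^ 2)) =
        ‖(N : ℂ) ^ (2 * (1 - ρ)) - (N : ℂ) ^ (1 - ρ)‖ / Real.log N := by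
      field_simp
    rw [e3]
    exact div_le_div_of_nonneg_right h3 hB.le
  · intro g M hg hgN hM
    have hg0 : (0 : ℝ) < g := by exact_mod_cast hg
    set v : ℕ → ℝ := fun m => VV N ((g : ℝ) * m) with hv
    -- the numbers moved into the interval
    set c : ℕ → ℝ := fun m => max (N / g) (min (m : ℝ) (N ^ 2 / g)) with hc
    have hNg : N / g ≤ N ^ 2 / g := div_le_div_of_nonneg_right (by nlinarith) hg0.le
    have hNg1 : 1 ≤ N / g := by rwa [one_le_div hg0]
    have hcpos : ∀ m, 0 < c m := fun m => lt_of_lt_of_le (by linarith) (le_max_left _ _)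
    have hvc : ∀ m : ℕ, 1 ≤ m → v m = 2 - Real.log ((g : ℝ) * c m) / Real.log N := by
      intro m hm
      have hm0 : (0 : ℝ) < m := by exact_mod_cast hm
      rw [hv, hc]
      beta_reduce
      by_cases hA : (g : ℝ) * m ≤ N
      · rw [VV_one (by linarith) (by positivity) hA]
        have h3 : (m : ℝ) ≤ N / g := by rw [le_div_iff₀ hg0]; linarith
        rw [min_eq_left (h3.trans hNg), max_eq_left h3, mul_div_cancel₀ _ hg0.ne',
          div_self hB.ne']
        norm_num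
      · push Not at hA
        by_cases hC : N ^ 2 ≤ (g : ℝ) * m
        · rw [VV_zero (by linarith) hC]
          have h3 : N ^ 2 / g ≤ (m : ℝ) := by rw [div_le_iff₀ hg0]; linarith
          rw [min_eq_right h3, max_eq_right hNg, mul_div_cancel₀ _ hg0.ne', Real.log_pow]
          push_cast
          rw [mul_div_assoc, div_self hB.ne']
          norm_num
        · push Not at hC
          have h3 : (m : ℝ) ≤ N ^ 2 / g := by rw [le_div_iff₀ hg0]; linarith
          have h4 : N / g ≤ (m : ℝ) := by rw [div_le_iff₀ hg0]; linarith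
          rw [min_eq_left h3, max_eq_right h4]
          unfold VV
          have h5 : Real.log ((g : ℝ) * m) / Real.log N ≤ 2 := by
            rw [div_le_iff₀ hB]
            have h6 := Real.log_le_log (by positivity) hC.le
            rw [Real.log_pow] at h6
            push_cast at h6
            exact h6
          have h7 : 1 ≤ Real.log ((g : ℝ) * m) / Real.log N := by
            rw [le_div_iff₀ hB, one_mul]
            exact Real.log_le_log hN0 hA.le
          rw [min_eq_right (by linarith), max_eq_right (by linarith)]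
    have hdiff : ∀ m : ℕ, 1 ≤ m → v m - v (m + 1) =
        (Real.log (c (m + 1)) - Real.log (c m)) / Real.log N := by
      intro m hm
      rw [hvc m hm, hvc (m + 1) (by omega), Real.log_mul hg0.ne' (hcpos _).ne',
        Real.log_mul hg0.ne' (hcpos _).ne']
      ring
    have hlast : v (M + 1) = 0 := by
      rw [hv]
      dsimp only
      push_cast
      exact VV_zero (by linarith) hM
    have hanti : ∀ m : ℕ, 1 ≤ m → v (m + 1) ≤ v m := by
      intro m hm
      have hm0 : (0 : ℝ) < m := by exact_mod_cast hm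
      refine ZWtAux.VV_anti (by linarith) (by positivity) ?_
      push_cast
      nlinarith
    have htel : ∑ m ∈ Icc 1 M, (v m - v (m + 1)) = v 1 := by
      have h3 := tele (fun m => -v m) M
      simp only [neg_sub_neg] at h3
      rw [h3, hlast]
      ring
    have hroot : 0 ≤ Real.sqrt (2 * g / N) := Real.sqrt_nonneg _
    -- weights against inverse square roots
    have hwt : ∀ m ∈ Icc 1 M, (v m - v (m + 1)) * (Real.sqrt m)⁻¹ ≤
        (v m - v (m + 1)) * Real.sqrt (2 * g / N) := by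
      intro m hm
      have hm1 : 1 ≤ m := (mem_Icc.1 hm).1
      have hm0 : (0 : ℝ) < m := by exact_mod_cast hm1
      have hm1' : (1 : ℝ) ≤ m := by exact_mod_cast hm1
      have hd : 0 ≤ v m - v (m + 1) := by
        have := hanti m hm1
        linarith
      by_cases hcase : (g : ℝ) * (m + 1) ≤ N
      · have h3 : v m = 1 := VV_one (by linarith) (by positivity) (by nlinarith)
        have h4 : v (m + 1) = 1 := by
          rw [hv]
          dsimp only
          push_cast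
          exact VV_one (by linarith) (by positivity) hcase
        rw [h3, h4]
        simp
      · push Not at hcase
        refine mul_le_mul_of_nonneg_left ?_ hd
        rw [← Real.sqrt_inv]
        refine Real.sqrt_le_sqrt ?_
        rw [inv_eq_one_div, div_le_div_iff₀ hm0 hN0]
        nlinarith
    have hsumw : ∑ m ∈ Icc 1 M, (v m - v (m + 1)) * (Real.sqrt m)⁻¹ ≤ Real.sqrt (2 * g / N) := by
      refine (Finset.sum_le_sum hwt).trans ?_
      rw [← Finset.sum_mul, htel]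
      have h4 : v 1 ≤ 1 := (VV_mem _ _).2
      nlinarith
    -- Abel summation
    have hab := abel v (fun m => (m : ℂ) ^ (-ρ)) M
    rw [hlast] at hab
    have h30 : ((0 : ℝ) : ℂ) * ∑ k ∈ Icc 1 M, (k : ℂ) ^ (-ρ) = 0 := by simp
    rw [h30, add_zero] at hab
    -- the main term
    have hmain : (g : ℂ) ^ (ρ - 1) * (((N : ℂ) ^ (2 * (1 - ρ)) - (N : ℂ) ^ (1 - ρ)) /
        (((Real.log N : ℝ) : ℂ) * (1 - ρ) ^ 2)) =
        ∑ m ∈ Icc 1 M, (((c (m + 1) : ℝ) : ℂ) ^ (1 - ρ) - ((c m : ℝ) : ℂ) ^ (1 - ρ)) /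
          (((Real.log N : ℝ) : ℂ) * (1 - ρ) ^ 2) := by
      rw [← Finset.sum_div, tele (fun m => ((c m : ℝ) : ℂ) ^ (1 - ρ)) M, ← mul_div_assoc]
      congr 1
      have c1 : c 1 = N / g := by
        rw [hc]
        beta_reduce
        rw [max_eq_left]
        refine (min_le_left _ _).trans ?_
        push_cast
        exact hNg1
      have cM : c (M + 1) = N ^ 2 / g := by
        rw [hc]
        beta_reduce
        have h3 : N ^ 2 / g ≤ ((M + 1 : ℕ) : ℝ) := by
          rw [div_le_iff₀ hg0]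
          push_cast
          linarith
        rw [min_eq_right h3, max_eq_right hNg]
      rw [c1, cM]
      have hgc : (g : ℂ) = ((g : ℝ) : ℂ) := by simp
      have e1 : ((N ^ 2 / g : ℝ) : ℂ) ^ (1 - ρ) = (g : ℂ) ^ (ρ - 1) * (N : ℂ) ^ (2 * (1 - ρ)) := by
        rw [div_eq_mul_inv, mul_comm, Complex.ofReal_mul,
          Complex.mul_cpow_ofReal_nonneg (by positivity) (by positivity)]
        congr 1
        · rw [Complex.ofReal_inv, Complex.inv_cpow _ _ (by
            rw [Complex.arg_ofReal_of_nonneg hg0.le]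
            exact Real.pi_pos.ne), ← Complex.cpow_neg, hgc]
          congr 1
          ring
        · rw [Complex.ofReal_pow, ← Complex.cpow_nat_mul' (n := 2) (x := (N : ℂ)) (y := 1 - ρ)]
          · push_cast
            rfl
          · rw [Complex.arg_ofReal_of_nonneg hN0.le, mul_zero]
            linarith [Real.pi_pos]
          · rw [Complex.arg_ofReal_of_nonneg hN0.le, mul_zero]
            exact Real.pi_pos.le
      have e2 : ((N / g : ℝ) : ℂ) ^ (1 - ρ) = (g : ℂ) ^ (ρ - 1) * (N : ℂ) ^ (1 - ρ) := by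
        rw [div_eq_mul_inv, mul_comm, Complex.ofReal_mul,
          Complex.mul_cpow_ofReal_nonneg (by positivity) (by positivity)]
        congr 1
        rw [Complex.ofReal_inv, Complex.inv_cpow _ _ (by
          rw [Complex.arg_ofReal_of_nonneg hg0.le]
          exact Real.pi_pos.ne), ← Complex.cpow_neg, hgc]
        congr 1
        ring
      rw [e1, e2]
      ring
    rw [hab, hmain, ← Finset.sum_sub_distrib]
    -- one term
    have hterm : ∀ m ∈ Icc 1 M, ‖((v m - v (m + 1) : ℝ) : ℂ) * ∑ k ∈ Icc 1 m, (k : ℂ) ^ (-ρ) -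
        (((c (m + 1) : ℝ) : ℂ) ^ (1 - ρ) - ((c m : ℝ) : ℂ) ^ (1 - ρ)) /
          (((Real.log N : ℝ) : ℂ) * (1 - ρ) ^ 2)‖ ≤
        (1 + K) * ((v m - v (m + 1)) * (Real.sqrt m)⁻¹) := by
      intro m hm
      have hm1 : 1 ≤ m := (mem_Icc.1 hm).1
      have hm0 : (0 : ℝ) < m := by exact_mod_cast hm1
      have hm1' : (1 : ℝ) ≤ m := by exact_mod_cast hm1
      have hd : 0 ≤ v m - v (m + 1) := by
        have := hanti m hm1
        linarith
      have hE := hsum m hm1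
      set A := ∑ k ∈ Icc 1 m, (k : ℂ) ^ (-ρ) with hA
      -- the step
      have hst : ‖(((c (m + 1) : ℝ) : ℂ) ^ (1 - ρ) - ((c m : ℝ) : ℂ) ^ (1 - ρ)) / (1 - ρ) -
          ((m : ℝ) : ℂ) ^ (1 - ρ) * ((Real.log (c (m + 1)) - Real.log (c m) : ℝ) : ℂ)‖ ≤
          ‖1 - ρ‖ * (Real.sqrt m)⁻¹ * (Real.log (c (m + 1)) - Real.log (c m)) := by
        by_cases heq : c (m + 1) = c m
        · rw [heq]
          simp
        · have g1 : (m : ℝ) ≤ c m ∧ c m ≤ c (m + 1) ∧ c (m + 1) ≤ (m : ℝ) + 1 := by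
            rw [hc] at heq ⊢
            beta_reduce at heq ⊢
            push_cast at heq ⊢
            rcases le_total (N / g) (m : ℝ) with q1 | q1
            · rcases le_total ((m : ℝ)) (N ^ 2 / g) with q2 | q2
              · rw [min_eq_left q2, max_eq_right q1] at heq ⊢
                refine ⟨le_rfl, ?_, ?_⟩
                · exact le_max_of_le_right (le_min (by linarith) q2)
                · exact max_le (by linarith) (min_le_left _ _)
              · exfalso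
                apply heq
                rw [min_eq_right q2, min_eq_right (by linarith)]
            · rcases le_total (N / g) ((m : ℝ) + 1) with q3 | q3
              · rw [min_eq_left (q1.trans hNg), max_eq_left q1] at heq ⊢
                refine ⟨q1, le_max_left _ _, max_le q3 (min_le_left _ _)⟩
              · exfalso
                apply heq
                rw [min_eq_left (q3.trans hNg), max_eq_left q3, min_eq_left (q1.trans hNg),
                  max_eq_left q1]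
          exact step h1 hρ hm1' g1.1 g1.2.1 g1.2.2
      have hmc : ((m : ℝ) : ℂ) = (m : ℂ) := by simp
      rw [hmc] at hst
      have hdl : Real.log (c (m + 1)) - Real.log (c m) = (v m - v (m + 1)) * Real.log N := by
        rw [hdiff m hm1, div_mul_cancel₀ _ hB.ne']
      rw [hdl] at hst
      set D : ℂ := (((c (m + 1) : ℝ) : ℂ) ^ (1 - ρ) - ((c m : ℝ) : ℂ) ^ (1 - ρ)) / (1 - ρ) with hD
      set δ : ℝ := v m - v (m + 1) with hδ
      have e4 : ((δ : ℝ) : ℂ) * A - (((c (m + 1) : ℝ) : ℂ) ^ (1 - ρ) -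
          ((c m : ℝ) : ℂ) ^ (1 - ρ)) / (((Real.log N : ℝ) : ℂ) * (1 - ρ) ^ 2) =
          ((δ : ℝ) : ℂ) * (A - (m : ℂ) ^ (1 - ρ) / (1 - ρ)) -
          (D - (m : ℂ) ^ (1 - ρ) * ((δ * Real.log N : ℝ) : ℂ)) /
            (((Real.log N : ℝ) : ℂ) * (1 - ρ)) := by
        rw [hD, Complex.ofReal_mul]
        field_simp
        ring
      rw [e4]
      refine (norm_sub_le _ _).trans ?_
      rw [norm_mul, norm_div, norm_mul, Complex.norm_real, Complex.norm_real,
        Real.norm_of_nonneg hd, Real.norm_of_nonneg hB.le]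
      have h5 : δ * ‖A - (m : ℂ) ^ (1 - ρ) / (1 - ρ)‖ ≤ δ * (K / Real.sqrt m) :=
        mul_le_mul_of_nonneg_left hE hd
      have h6 : ‖D - (m : ℂ) ^ (1 - ρ) * ((δ * Real.log N : ℝ) : ℂ)‖ /
          (Real.log N * ‖(1 : ℂ) - ρ‖) ≤ δ * (Real.sqrt m)⁻¹ := by
        rw [div_le_iff₀ (by positivity)]
        refine hst.trans (le_of_eq ?_)
        ring
      calc _ ≤ δ * (K / Real.sqrt m) + δ * (Real.sqrt m)⁻¹ := add_le_add h5 h6
        _ = _ := by
          rw [div_eq_mul_inv]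
          ring
    refine (norm_sum_le _ _).trans ((Finset.sum_le_sum hterm).trans ?_)
    rw [← Finset.mul_sum]
    exact mul_le_mul_of_nonneg_left hsumw (by linarith)

end Pool.Agent.Lib.GMV
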