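import Pool.Agent.Lib.GMV.ZDet
import Pool.Agent.Lib.GMV.ZZet

/-!
# GMV.ZDez (1.2 h): detection of the zeros of `ζ`

PROOF. Parameters: `z = Q^300`, `E = Q`, `N = Q^1300`, `M = N^2 = Q^2600`; `an z`, `Th E`, `WW z N`.
`det_expand` with `c n = n^(-ρ)`: it suffices that the double sum `T` is `≤ 1/2` in norm.
`detect_zeta`: `ρ ≠ 1`, `ζ(ρ) = 0` (`Lf_one_apply`, `LFunctionTrivChar₁` at `1` is not `0`); `VK.approx` with `q = 1`, `Φ = 1`: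
`|∑_(m ≤ M') m^(-ρ) - M'^(1-ρ)/(1-ρ)| ≤ C |ρ|/√M'`; `zet` gives `J`, `T = κ J + error`, `κ = ∑ lam d th e g^(-1) = form 1 (z^2) Q lam th`,
`|κ| ≤ C/(log Q)` (`mix_form`), `|J| ≤ 2 N^(2a)/(log N γ^2)`, `a = 1 - Re ρ`, `γ = Im ρ`, so `|κ J| ≤ C' N^(2a)/γ^2 ≤ 1/4` if
`|γ| ≥ C'' Q^(1300 a)`; the error as before.
-/

set_option autoImplicit false

open Complex Finset

namespace Pool.Agent.Lib.GMV

namespace ZDezAux

/-- the summatory function at a zero of zeta -/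
lemma sum_zeta : ∃ C : ℝ, 1 ≤ C ∧ ∀ ρ : ℂ, Lf (1 : DirichletCharacter ℂ 1) ρ = 0 →
    9 / 10 ≤ ρ.re → ∀ M : ℕ, 1 ≤ M →
    ‖∑ m ∈ Icc 1 M, (m : ℂ) ^ (-ρ) - (M : ℂ) ^ (1 - ρ) / (1 - ρ)‖ ≤ C * ‖ρ‖ / Real.sqrt M := by
  obtain ⟨C, hC1, hC⟩ := Pool.Agent.VK.approx
  refine ⟨C, hC1, ?_⟩
  intro ρ h0 hre M hM
  have hlt : ρ.re < 1 := by
    by_contra hh
    exact Lf_ne_zero _ (not_lt.mp hh) h0
  have hne : ρ ≠ 1 := by
    rintro rfl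
    simp at hlt
  have hne' : ρ - 1 ≠ 0 := sub_ne_zero.mpr hne
  have h1 := hC 1 (fun a => (1 : DirichletCharacter ℂ 1) a) M ρ
    (fun a => DirichletCharacter.norm_le_one _ a) hM (by linarith) hne
  have h2 : ZMod.LFunction (fun a => (1 : DirichletCharacter ℂ 1) a) ρ = 0 := by
    rw [Lf_one_apply 1 hne] at h0
    rcases mul_eq_zero.mp h0 with h | h
    · exact absurd h hne'
    · exact h
  have hone : ∀ a : ZMod 1, (1 : DirichletCharacter ℂ 1) a = 1 := by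
    intro a
    have : a = 1 := Subsingleton.elim _ _
    rw [this, map_one]
  have h3 : ∑ a : ZMod 1, (1 : DirichletCharacter ℂ 1) a = 1 := by
    rw [Finset.sum_congr rfl fun a _ => hone a]
    simp
  rw [h2, h3] at h1
  simp only [hone, one_mul, Nat.cast_one, div_one, zero_sub, mul_one] at h1
  have e1 : -∑ n ∈ Icc 1 M, (n : ℂ) ^ (-ρ) - (M : ℂ) ^ (1 - ρ) / (ρ - 1) =
      -(∑ n ∈ Icc 1 M, (n : ℂ) ^ (-ρ) - (M : ℂ) ^ (1 - ρ) / (1 - ρ)) := by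
    have : (M : ℂ) ^ (1 - ρ) / (ρ - 1) = -((M : ℂ) ^ (1 - ρ) / (1 - ρ)) := by
      rw [← div_neg]
      congr 1
      ring
    rw [this]
    ring
  rw [e1, norm_neg] at h1
  refine h1.trans ?_
  have hM1 : (1 : ℝ) ≤ (M : ℝ) := by exact_mod_cast hM
  have h4 : (M : ℝ) ^ (-ρ.re) ≤ (Real.sqrt M)⁻¹ := by
    rw [Real.sqrt_eq_rpow, ← Real.rpow_neg (by linarith)]
    exact Real.rpow_le_rpow_of_exponent_le hM1 (by linarith)
  rw [div_eq_mul_inv]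
  exact mul_le_mul_of_nonneg_left h4 (by positivity)

/-- the decomposition of the double sum -/
lemma decomp (D E M : ℕ) (N : ℝ) (ρ J : ℂ) (x y : ℕ → ℝ) :
    ∑ d ∈ Icc 1 D, ∑ e ∈ Icc 1 E, ((x d * y e : ℝ) : ℂ) *
        (((Nat.lcm d e : ℕ) : ℂ) ^ (-ρ) * ∑ m ∈ Icc 1 (M / Nat.lcm d e),
          ((VV N ((Nat.lcm d e : ℝ) * m) : ℝ) : ℂ) * (m : ℂ) ^ (-ρ)) =
      ((form 1 D E x y : ℝ) : ℂ) * J +
      ∑ d ∈ Icc 1 D, ∑ e ∈ Icc 1 E, ((x d * y e : ℝ) : ℂ) *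
        (((Nat.lcm d e : ℕ) : ℂ) ^ (-ρ) * (∑ m ∈ Icc 1 (M / Nat.lcm d e),
          ((VV N ((Nat.lcm d e : ℝ) * m) : ℝ) : ℂ) * (m : ℂ) ^ (-ρ) -
            ((Nat.lcm d e : ℕ) : ℂ) ^ (ρ - 1) * J)) := by
  unfold form
  push_cast
  rw [Finset.sum_mul, ← Finset.sum_add_distrib]
  refine Finset.sum_congr rfl fun d hd => ?_
  rw [Finset.sum_mul, ← Finset.sum_add_distrib]
  refine Finset.sum_congr rfl fun e he => ?_
  have hd1 := (Finset.mem_Icc.1 hd).1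
  have he1 := (Finset.mem_Icc.1 he).1
  have hl : 0 < Nat.lcm d e := Nat.lcm_pos hd1 he1
  have hlc : ((Nat.lcm d e : ℕ) : ℂ) ≠ 0 := by exact_mod_cast hl.ne'
  have e1 : ((((Nat.lcm d e : ℕ) : ℝ) ^ (-(1 : ℝ)) : ℝ) : ℂ) =
      ((Nat.lcm d e : ℕ) : ℂ) ^ (-ρ) * ((Nat.lcm d e : ℕ) : ℂ) ^ (ρ - 1) := by
    rw [← Complex.cpow_add _ _ hlc, show -ρ + (ρ - 1) = -1 by ring, Complex.cpow_neg_one,
      Real.rpow_neg_one]
    push_cast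
    rfl
  rw [e1]
  ring

/-- the error in the double sum -/
lemma err_bound (z E M : ℕ) (N K : ℝ) (ρ J : ℂ) (hz : 2 ≤ z) (hE : 2 ≤ E)
    (hN : 2 ≤ N) (hK : 0 ≤ K) (hNM : N ^ 2 ≤ (M : ℝ)) (hzN : ((z ^ 2 * E : ℕ) : ℝ) ≤ N)
    (hre : 9 / 10 ≤ ρ.re)
    (hc : ∀ g M : ℕ, 1 ≤ g → (g : ℝ) ≤ N → N ^ 2 ≤ (g : ℝ) * (M + 1) →
        ‖∑ m ∈ Icc 1 M, ((VV N ((g : ℝ) * m) : ℝ) : ℂ) * (m : ℂ) ^ (-ρ) -
          (g : ℂ) ^ (ρ - 1) * J‖ ≤ K * Real.sqrt (2 * g / N)) :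
    ‖∑ d ∈ Icc 1 (z ^ 2), ∑ e ∈ Icc 1 E, ((lam z d * th E e : ℝ) : ℂ) *
        (((Nat.lcm d e : ℕ) : ℂ) ^ (-ρ) * (∑ m ∈ Icc 1 (M / Nat.lcm d e),
          ((VV N ((Nat.lcm d e : ℝ) * m) : ℝ) : ℂ) * (m : ℂ) ^ (-ρ) -
            ((Nat.lcm d e : ℕ) : ℂ) ^ (ρ - 1) * J))‖ ≤
      (z : ℝ) ^ 2 * E * (2 * K / Real.sqrt N) := by
  have hN0 : (0 : ℝ) < N := by linarith
  have hone : ∀ d ∈ Icc 1 (z ^ 2), ∀ e ∈ Icc 1 E, ‖((lam z d * th E e : ℝ) : ℂ) *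
        (((Nat.lcm d e : ℕ) : ℂ) ^ (-ρ) * (∑ m ∈ Icc 1 (M / Nat.lcm d e),
          ((VV N ((Nat.lcm d e : ℝ) * m) : ℝ) : ℂ) * (m : ℂ) ^ (-ρ) -
            ((Nat.lcm d e : ℕ) : ℂ) ^ (ρ - 1) * J))‖ ≤ 2 * K / Real.sqrt N := by
    intro d hd e he
    have hd1 := (Finset.mem_Icc.1 hd).1
    have he1 := (Finset.mem_Icc.1 he).1
    have hl : 1 ≤ Nat.lcm d e := Nat.lcm_pos hd1 he1
    have hlN : ((Nat.lcm d e : ℕ) : ℝ) ≤ N := by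
      refine le_trans ?_ hzN
      have h1 : Nat.lcm d e ≤ d * e := Nat.le_of_dvd (Nat.mul_pos hd1 he1) (Nat.lcm_dvd_mul d e)
      have h2 : d * e ≤ z ^ 2 * E :=
        Nat.mul_le_mul (Finset.mem_Icc.1 hd).2 (Finset.mem_Icc.1 he).2
      exact_mod_cast h1.trans h2
    generalize Nat.lcm d e = g at hl hlN
    have hg0 : (0 : ℝ) < (g : ℝ) := by exact_mod_cast hl
    have hg1 : (1 : ℝ) ≤ (g : ℝ) := by exact_mod_cast hl
    have h1 : N ^ 2 ≤ (g : ℝ) * ((M / g : ℕ) + 1) := by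
      have h2 : M < g * (M / g + 1) := Nat.lt_mul_div_succ M hl
      have h3 : (M : ℝ) ≤ (g : ℝ) * ((M / g : ℕ) + 1) := by exact_mod_cast h2.le
      exact hNM.trans h3
    have h2 := hc g (M / g) hl hlN h1
    rw [norm_mul, norm_mul, Complex.norm_real, Real.norm_eq_abs, abs_mul,
      Complex.norm_natCast_cpow_of_pos (by omega), neg_re]
    have h3 : |lam z d| * |th E e| ≤ 1 := by
      calc |lam z d| * |th E e| ≤ 1 * 1 :=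
            mul_le_mul (lam_abs z d hz) (th_abs E e hE) (abs_nonneg _) zero_le_one
        _ = 1 := one_mul 1
    have h4 : Real.sqrt (2 * g / N) ≤ 2 * Real.sqrt g / Real.sqrt N := by
      rw [Real.sqrt_div (by positivity), Real.sqrt_mul (by norm_num)]
      have h5 : Real.sqrt 2 ≤ 2 := by
        rw [Real.sqrt_le_left (by norm_num)]
        norm_num
      exact div_le_div_of_nonneg_right
        (mul_le_mul_of_nonneg_right h5 (Real.sqrt_nonneg _)) (Real.sqrt_nonneg _)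
    have h6 : (g : ℝ) ^ (-ρ.re) ≤ (Real.sqrt g)⁻¹ := by
      rw [Real.sqrt_eq_rpow, ← Real.rpow_neg (by linarith)]
      exact Real.rpow_le_rpow_of_exponent_le hg1 (by linarith)
    have hsg : 0 < Real.sqrt g := Real.sqrt_pos.2 hg0
    calc |lam z d| * |th E e| * ((g : ℝ) ^ (-ρ.re) * ‖∑ m ∈ Icc 1 (M / g),
          ((VV N ((g : ℝ) * m) : ℝ) : ℂ) * (m : ℂ) ^ (-ρ) - (g : ℂ) ^ (ρ - 1) * J‖)
        ≤ 1 * ((Real.sqrt g)⁻¹ * (K * (2 * Real.sqrt g / Real.sqrt N))) := by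
          refine mul_le_mul h3 ?_ (mul_nonneg (Real.rpow_nonneg hg0.le _) (norm_nonneg _))
            zero_le_one
          refine mul_le_mul h6 ?_ (norm_nonneg _) (by positivity)
          exact h2.trans (mul_le_mul_of_nonneg_left h4 hK)
      _ = 2 * K / Real.sqrt N := by
          field_simp
  calc _ ≤ ∑ d ∈ Icc 1 (z ^ 2), ∑ e ∈ Icc 1 E, 2 * K / Real.sqrt N := by
        refine norm_sum_le_of_le _ fun d hd => ?_
        exact norm_sum_le_of_le _ fun e he => hone d hd e he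
    _ = (z : ℝ) ^ 2 * E * (2 * K / Real.sqrt N) := by
        rw [Finset.sum_const, Finset.sum_const, Nat.card_Icc, Nat.card_Icc, nsmul_eq_mul,
          nsmul_eq_mul, Nat.add_sub_cancel, Nat.add_sub_cancel, Nat.cast_pow]
        ring

end ZDezAux

open ZDezAux

theorem detect_zeta : ∃ (Q0 : ℕ) (C : ℝ), 1 ≤ C ∧ ∀ (Q : ℕ) (ρ : ℂ), Q0 ≤ Q →
    Lf (1 : DirichletCharacter ℂ 1) ρ = 0 → 9 / 10 ≤ ρ.re → |ρ.im| ≤ (Q : ℝ) ^ 30 →
    C * (Q : ℝ) ^ (1300 * (1 - ρ.re)) ≤ |ρ.im| →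
    1 / 2 ≤ ‖∑ n ∈ Icc 1 (Q ^ 2600), (cf Q n : ℂ) * (n : ℂ) ^ (-ρ)‖ := by
  obtain ⟨Q1, hQ1⟩ := det_expand
  obtain ⟨C1, hC11, hC1⟩ := sum_zeta
  obtain ⟨C2, hC21, hC2⟩ := zet
  obtain ⟨C3, hC31, hC3⟩ := mix_form
  obtain ⟨Q2, hQ2⟩ := exists_nat_ge (8 * C1 + 2 * C2)
  refine ⟨max 3 (max Q1 Q2), C3, hC31, ?_⟩
  intro Q ρ hQ h0 hre him hγ
  have hQa : 3 ≤ Q := (le_max_left _ _).trans hQ
  have hQb : Q1 ≤ Q := ((le_max_left _ _).trans (le_max_right _ _)).trans hQ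
  have hQc : Q2 ≤ Q := ((le_max_right _ _).trans (le_max_right _ _)).trans hQ
  have hQR : (3 : ℝ) ≤ (Q : ℝ) := by exact_mod_cast hQa
  have hQ0 : (0 : ℝ) < (Q : ℝ) := by linarith
  have hQC : 8 * C1 + 2 * C2 ≤ (Q : ℝ) := hQ2.trans (by exact_mod_cast hQc)
  have hz : 2 ≤ Q ^ 300 := le_trans (by omega) (Nat.le_self_pow (n := 300) (by norm_num) Q)
  have hN : (3 : ℝ) ≤ (Q : ℝ) ^ 1300 :=
    hQR.trans (le_self_pow₀ (by linarith) (by norm_num))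
  have hlt : ρ.re < 1 := by
    by_contra hh
    exact Lf_ne_zero _ (not_lt.mp hh) h0
  have hne : ρ ≠ 1 := by
    rintro rfl
    simp at hlt
  have hL : 1 ≤ Real.log Q := by
    rw [Real.le_log_iff_exp_le hQ0]
    have := Real.exp_one_lt_d9
    linarith
  have hexp := hQ1 Q (fun n => (n : ℂ) ^ (-ρ)) hQb (by simp) (by
    intro g m _ _
    rw [Nat.cast_mul, Complex.natCast_mul_natCast_cpow])
  obtain ⟨J, hJ, hJg⟩ := hC2 ((Q : ℝ) ^ 1300) (C1 * ‖ρ‖) ρ hN (by positivity) (by linarith) hlt.le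
    hne (fun M hM => hC1 ρ h0 hre M hM)
  have hK : (0 : ℝ) ≤ C2 + C1 * ‖ρ‖ := by positivity
  have hbound := err_bound (Q ^ 300) Q (Q ^ 2600) ((Q : ℝ) ^ 1300) (C2 + C1 * ‖ρ‖) ρ J hz
    (by omega) (by linarith) hK (by rw [← pow_mul, Nat.cast_pow]) (by
      rw [Nat.cast_mul, Nat.cast_pow, Nat.cast_pow, ← pow_mul, ← pow_succ]
      exact pow_le_pow_right₀ (by linarith) (by norm_num)) hre hJg
  have hρ : ‖ρ‖ ≤ 2 * (Q : ℝ) ^ 30 := by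
    have h1 := Complex.norm_le_abs_re_add_abs_im ρ
    have h2 : |ρ.re| ≤ 1 := abs_le.2 ⟨by linarith, hlt.le⟩
    have h3 : (1 : ℝ) ≤ (Q : ℝ) ^ 30 := one_le_pow₀ (by linarith)
    linarith
  have hsq : Real.sqrt ((Q : ℝ) ^ 1300) = (Q : ℝ) ^ 650 := by
    rw [show (Q : ℝ) ^ 1300 = ((Q : ℝ) ^ 650) ^ 2 by rw [← pow_mul]]
    exact Real.sqrt_sq (by positivity)
  have hKle : C2 + C1 * ‖ρ‖ ≤ (Q : ℝ) ^ 32 := by
    have h3 : (1 : ℝ) ≤ (Q : ℝ) ^ 30 := one_le_pow₀ (by linarith)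
    calc C2 + C1 * ‖ρ‖ ≤ ((Q : ℝ) / 2) * (Q : ℝ) ^ 30 + ((Q : ℝ) / 8) * (2 * (Q : ℝ) ^ 30) := by
          refine add_le_add ?_ (mul_le_mul (by linarith) hρ (norm_nonneg _) (by positivity))
          nlinarith
      _ = 3 / 4 * (Q : ℝ) ^ 31 := by ring
      _ ≤ (Q : ℝ) ^ 31 := by
          have : (0 : ℝ) ≤ (Q : ℝ) ^ 31 := by positivity
          linarith
      _ ≤ (Q : ℝ) ^ 32 := pow_le_pow_right₀ (by linarith) (by norm_num)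
  have hfin : ((Q ^ 300 : ℕ) : ℝ) ^ 2 * Q * (2 * (C2 + C1 * ‖ρ‖) / Real.sqrt ((Q : ℝ) ^ 1300)) ≤
      1 / 4 := by
    rw [hsq, Nat.cast_pow, ← pow_mul]
    have h1 : 2 * (C2 + C1 * ‖ρ‖) / (Q : ℝ) ^ 650 ≤ 2 * (Q : ℝ) ^ 32 / (Q : ℝ) ^ 650 :=
      div_le_div_of_nonneg_right (by linarith) (by positivity)
    have h9 : (9 : ℝ) ≤ (Q : ℝ) ^ 17 := by
      calc (9 : ℝ) = 3 ^ 2 := by norm_num
        _ ≤ (Q : ℝ) ^ 2 := by gcongr
        _ ≤ (Q : ℝ) ^ 17 := pow_le_pow_right₀ (by linarith) (by norm_num)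
    calc (Q : ℝ) ^ (300 * 2) * Q * (2 * (C2 + C1 * ‖ρ‖) / (Q : ℝ) ^ 650)
        ≤ (Q : ℝ) ^ (300 * 2) * Q * (2 * (Q : ℝ) ^ 32 / (Q : ℝ) ^ 650) :=
          mul_le_mul_of_nonneg_left h1 (by positivity)
      _ = 2 * ((Q : ℝ) ^ 633 / (Q : ℝ) ^ 650) := by
          rw [show (Q : ℝ) ^ 633 = (Q : ℝ) ^ (300 * 2) * Q * (Q : ℝ) ^ 32 by
            rw [← pow_succ, ← pow_add]]
          ring
      _ ≤ 2 * (1 / 9) := by
          refine mul_le_mul_of_nonneg_left ?_ (by norm_num)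
          rw [div_le_div_iff₀ (by positivity) (by norm_num), one_mul]
          calc (Q : ℝ) ^ 633 * 9 ≤ (Q : ℝ) ^ 633 * (Q : ℝ) ^ 17 :=
                mul_le_mul_of_nonneg_left h9 (by positivity)
            _ = (Q : ℝ) ^ 650 := by rw [← pow_add]
      _ ≤ 1 / 4 := by norm_num
  -- the main term
  have hγ0 : 0 < |ρ.im| := lt_of_lt_of_le (by positivity) hγ
  have hγw : |ρ.im| ≤ ‖(1 : ℂ) - ρ‖ := by
    have h1 := Complex.abs_im_le_norm (1 - ρ)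
    simpa using h1
  have hκ : |form 1 ((Q ^ 300) ^ 2) Q (lam (Q ^ 300)) (th Q)| ≤ C3 := by
    refine (hC3 (Q ^ 300) Q hz (by omega)).trans ?_
    rw [div_le_iff₀ (by
      rw [Nat.cast_pow, Real.log_pow]
      positivity)]
    have h1 : 1 ≤ Real.sqrt (Real.log ((Q ^ 300 : ℕ) : ℝ) * Real.log Q) := by
      rw [Real.one_le_sqrt, Nat.cast_pow, Real.log_pow]
      push_cast
      nlinarith
    nlinarith
  have hJn : ‖J‖ ≤ 2 / (1300 * C3 ^ 2) := by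
    have hlogN : Real.log ((Q : ℝ) ^ 1300) = 1300 * Real.log Q := by
      rw [Real.log_pow]
      norm_num
    have h1 : |ρ.im| ^ 2 * ‖J‖ ≤ 2 * ((Q : ℝ) ^ 1300) ^ (2 * (1 - ρ.re)) / (1300 * Real.log Q) := by
      rw [← hlogN]
      refine le_trans ?_ hJ
      exact mul_le_mul_of_nonneg_right (pow_le_pow_left₀ (abs_nonneg _) hγw 2) (norm_nonneg _)
    have h2 : ((Q : ℝ) ^ 1300) ^ (2 * (1 - ρ.re)) = ((Q : ℝ) ^ (1300 * (1 - ρ.re))) ^ 2 := by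
      rw [← Real.rpow_natCast (Q : ℝ) 1300, ← Real.rpow_mul hQ0.le,
        ← Real.rpow_natCast _ 2, ← Real.rpow_mul hQ0.le]
      congr 1
      push_cast
      ring
    set y := (Q : ℝ) ^ (1300 * (1 - ρ.re)) with hy
    have hy0 : 0 < y := Real.rpow_pos_of_pos hQ0 _
    rw [h2] at h1
    have h3 : (C3 * y) ^ 2 * ‖J‖ ≤ 2 * y ^ 2 / 1300 := by
      calc (C3 * y) ^ 2 * ‖J‖ ≤ |ρ.im| ^ 2 * ‖J‖ :=
            mul_le_mul_of_nonneg_right (pow_le_pow_left₀ (by positivity) hγ 2) (norm_nonneg _)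
        _ ≤ 2 * y ^ 2 / (1300 * Real.log Q) := h1
        _ ≤ 2 * y ^ 2 / 1300 := by
            apply div_le_div_of_nonneg_left (by positivity) (by norm_num)
            linarith
    rw [le_div_iff₀ (by positivity)]
    have h4 : y ^ 2 * (‖J‖ * (1300 * C3 ^ 2)) ≤ y ^ 2 * 2 := by
      have h5 := (le_div_iff₀ (by norm_num : (0 : ℝ) < 1300)).1 h3
      calc y ^ 2 * (‖J‖ * (1300 * C3 ^ 2)) = (C3 * y) ^ 2 * ‖J‖ * 1300 := by ring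
        _ ≤ 2 * y ^ 2 := h5
        _ = y ^ 2 * 2 := by ring
    exact le_of_mul_le_mul_left h4 (by positivity)
  have hmain : ‖((form 1 ((Q ^ 300) ^ 2) Q (lam (Q ^ 300)) (th Q) : ℝ) : ℂ) * J‖ ≤ 1 / 4 := by
    rw [norm_mul, Complex.norm_real, Real.norm_eq_abs]
    calc _ ≤ C3 * (2 / (1300 * C3 ^ 2)) :=
          mul_le_mul hκ hJn (norm_nonneg _) (by linarith)
      _ = 2 / (1300 * C3) := by
          field_simp
      _ ≤ 2 / 1300 := by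
          apply div_le_div_of_nonneg_left (by norm_num) (by norm_num)
          linarith
      _ ≤ 1 / 4 := by norm_num
  rw [hexp]
  have hdec := decomp ((Q ^ 300) ^ 2) Q (Q ^ 2600) ((Q : ℝ) ^ 1300) ρ J (lam (Q ^ 300)) (th Q)
  set T := ∑ d ∈ Icc 1 ((Q ^ 300) ^ 2), ∑ e ∈ Icc 1 Q,
      ((lam (Q ^ 300) d * th Q e : ℝ) : ℂ) *
        (((Nat.lcm d e : ℕ) : ℂ) ^ (-ρ) * ∑ m ∈ Icc 1 (Q ^ 2600 / Nat.lcm d e),
          ((VV ((Q : ℝ) ^ 1300) ((Nat.lcm d e : ℝ) * m) : ℝ) : ℂ) * (m : ℂ) ^ (-ρ)) with hT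
  have hTn : ‖T‖ ≤ 1 / 2 := by
    rw [hdec]
    refine (norm_add_le _ _).trans ?_
    have h1 := hbound.trans hfin
    linarith
  have h5 := norm_sub_norm_le (1 : ℂ) T
  rw [norm_one] at h5
  rw [norm_sub_rev]
  linarith

end Pool.Agent.Lib.GMV
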