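import Pool.Agent.Lib.GMV.ZMob

/-!
# GMV.ZGg (1 h): the sum of `gg^2`

PROOF. `gg m ^ 2 = ∏_(p|m) (1 + k_p) = ∑_(t ⊆ primes of m) ∏_(p ∈ t) k_p`, `k_p = 8/√p + 16/p`. So the sum is
`≤ ∑_t ∏_(p ∈ t) k_p ∑_(m ≤ D, ∏ t | m) 1/m ≤ (1 + log D) ∏_(p ≤ D) (1 + k_p/p) ≤ (1 + log D) exp (∑ (8 p^(-3/2) + 16 p^(-2)))`.
-/

set_option autoImplicit false

open Finset

namespace Pool.Agent.Lib.GMV

namespace ZGgAux

/-- `8/√p + 16/p` -/
noncomputable def kk (p : ℕ) : ℝ := 8 / Real.sqrt p + 16 / p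

lemma kk_nonneg (p : ℕ) : 0 ≤ kk p := by unfold kk; positivity

lemma gg_sq (m : ℕ) : gg m ^ 2 = ∏ p ∈ m.primeFactors, (1 + kk p) := by
  unfold gg
  rw [← Finset.prod_pow]
  refine Finset.prod_congr rfl fun p hp => ?_
  have hp' : (0 : ℝ) < p := by exact_mod_cast (Nat.prime_of_mem_primeFactors hp).pos
  have hs : Real.sqrt p ≠ 0 := (Real.sqrt_pos.2 hp').ne'
  have h2 : Real.sqrt p * Real.sqrt p = p := Real.mul_self_sqrt hp'.le
  have h3 : (16 : ℝ) / p = 16 / (Real.sqrt p * Real.sqrt p) := by rw [h2]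
  unfold kk
  rw [h3]
  field_simp
  ring

lemma inner_le (D d : ℕ) (hd : 0 < d) :
    ∑ m ∈ (Icc 1 D).filter (fun m => d ∣ m), (1 : ℝ) / m ≤ (1 + Real.log D) / d := by
  have h1 : (Icc 1 D).filter (fun m => d ∣ m) ⊆ (Icc 1 D).image (fun k => d * k) := by
    intro m hm
    rw [Finset.mem_filter, Finset.mem_Icc] at hm
    obtain ⟨⟨hm1, hm2⟩, k, rfl⟩ := hm
    rw [Finset.mem_image]
    refine ⟨k, ?_, rfl⟩
    rw [Finset.mem_Icc]
    refine ⟨Nat.pos_of_ne_zero ?_, le_trans ?_ hm2⟩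
    · rintro rfl
      simp at hm1
    · exact Nat.le_mul_of_pos_left k hd
  have h2 : ∑ m ∈ (Icc 1 D).image (fun k => d * k), (1 : ℝ) / m = ∑ k ∈ Icc 1 D, (1 : ℝ) / ((d * k : ℕ) : ℝ) := by
    rw [Finset.sum_image]
    intro a _ b _ hab
    exact Nat.eq_of_mul_eq_mul_left hd hab
  have h3 : ∑ k ∈ Icc 1 D, (1 : ℝ) / ((d * k : ℕ) : ℝ) = (harmonic D : ℝ) / d := by
    rw [harmonic_eq_sum_Icc]
    push_cast
    rw [Finset.sum_div]
    refine Finset.sum_congr rfl fun k _ => ?_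
    rw [one_div, mul_inv, div_eq_mul_inv, mul_comm]
  calc ∑ m ∈ (Icc 1 D).filter (fun m => d ∣ m), (1 : ℝ) / m
      ≤ ∑ m ∈ (Icc 1 D).image (fun k => d * k), (1 : ℝ) / m :=
        Finset.sum_le_sum_of_subset_of_nonneg h1 fun _ _ _ => by positivity
    _ = (harmonic D : ℝ) / d := by rw [h2, h3]
    _ ≤ (1 + Real.log D) / d := by
        have := harmonic_le_one_add_log D
        gcongr

lemma bound_kk : ∃ B : ℝ, 0 ≤ B ∧ ∀ D : ℕ,
    ∑ p ∈ (range (D + 1)).filter Nat.Prime, kk p / p ≤ B := by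
  have hs : Summable (fun n : ℕ => 24 * (1 / (n : ℝ) ^ (3 / 2 : ℝ))) :=
    (Real.summable_one_div_nat_rpow.2 (by norm_num)).mul_left 24
  have hnn : ∀ n : ℕ, 0 ≤ 24 * (1 / (n : ℝ) ^ (3 / 2 : ℝ)) := fun n => by positivity
  refine ⟨∑' n : ℕ, 24 * (1 / (n : ℝ) ^ (3 / 2 : ℝ)), tsum_nonneg hnn, fun D => ?_⟩
  refine le_trans (Finset.sum_le_sum fun p hp => ?_)
    (hs.sum_le_tsum ((range (D + 1)).filter Nat.Prime) fun n _ => hnn n)
  have hp1 : p.Prime := (Finset.mem_filter.1 hp).2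
  have hp' : (0 : ℝ) < p := by exact_mod_cast hp1.pos
  have hp2 : (1 : ℝ) ≤ p := by exact_mod_cast hp1.one_lt.le
  have e1 : (p : ℝ) ^ (3 / 2 : ℝ) = p * Real.sqrt p := by
    rw [Real.sqrt_eq_rpow, show (3 / 2 : ℝ) = 1 + 1 / 2 by norm_num, Real.rpow_add hp', Real.rpow_one]
  have hs0 : 0 < Real.sqrt p := Real.sqrt_pos.2 hp'
  have hs1 : Real.sqrt p ≤ p := by
    rw [Real.sqrt_le_left hp'.le]
    nlinarith
  rw [e1]
  unfold kk
  have e2 : (16 : ℝ) / p ≤ 16 / Real.sqrt p := by gcongr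
  calc (8 / Real.sqrt p + 16 / p) / p ≤ (8 / Real.sqrt p + 16 / Real.sqrt p) / p := by gcongr
    _ = 24 * (1 / (p * Real.sqrt p)) := by
        field_simp
        norm_num

end ZGgAux

open ZGgAux in
theorem gg_sum : ∃ C : ℝ, 1 ≤ C ∧ ∀ D : ℕ, 2 ≤ D →
    ∑ m ∈ Icc 1 D, |(ArithmeticFunction.moebius m : ℝ)| * gg m ^ 2 / m ≤ C * Real.log D := by
  obtain ⟨B, hB0, hB⟩ := bound_kk
  have hexp : 1 ≤ Real.exp B := Real.one_le_exp hB0
  refine ⟨3 * Real.exp B, by linarith, fun D hD => ?_⟩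
  set P : Finset ℕ := (range (D + 1)).filter Nat.Prime with hP
  have hlog : 1 + Real.log D ≤ 3 * Real.log D := by
    have h1 : Real.log 2 ≤ Real.log D := Real.log_le_log (by norm_num) (by exact_mod_cast hD)
    have h2 := Real.log_two_gt_d9
    linarith
  have hlog0 : 0 ≤ 1 + Real.log D := by
    have h1 : Real.log 2 ≤ Real.log D := Real.log_le_log (by norm_num) (by exact_mod_cast hD)
    have h2 := Real.log_two_gt_d9
    linarith
  -- pointwise
  have hpt : ∀ m ∈ Icc 1 D, |(ArithmeticFunction.moebius m : ℝ)| * gg m ^ 2 / m ≤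
      ∑ t ∈ P.powerset, if (∏ p ∈ t, p) ∣ m then (∏ p ∈ t, kk p) * (1 / (m : ℝ)) else 0 := by
    intro m hm
    rw [Finset.mem_Icc] at hm
    have hmu : |(ArithmeticFunction.moebius m : ℝ)| ≤ 1 := by
      have := ArithmeticFunction.abs_moebius_le_one (n := m)
      exact_mod_cast this
    have hsub : m.primeFactors ⊆ P := by
      intro p hp
      rw [hP, Finset.mem_filter, Finset.mem_range]
      exact ⟨Nat.lt_succ_of_le ((Nat.le_of_mem_primeFactors hp).trans hm.2), Nat.prime_of_mem_primeFactors hp⟩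
    calc |(ArithmeticFunction.moebius m : ℝ)| * gg m ^ 2 / m ≤ 1 * gg m ^ 2 / m := by gcongr
      _ = ∑ t ∈ m.primeFactors.powerset, (∏ p ∈ t, kk p) * (1 / (m : ℝ)) := by
          rw [one_mul, gg_sq, Finset.prod_one_add, div_eq_mul_one_div, Finset.sum_mul]
      _ = ∑ t ∈ m.primeFactors.powerset,
            if (∏ p ∈ t, p) ∣ m then (∏ p ∈ t, kk p) * (1 / (m : ℝ)) else 0 := by
          refine Finset.sum_congr rfl fun t ht => ?_
          rw [if_pos]
          exact (Finset.prod_dvd_prod_of_subset _ _ _ (Finset.mem_powerset.1 ht)).trans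
            (Nat.prod_primeFactors_dvd m)
      _ ≤ _ := by
          refine Finset.sum_le_sum_of_subset_of_nonneg (Finset.powerset_mono.2 hsub) fun t _ _ => ?_
          split_ifs
          · exact mul_nonneg (Finset.prod_nonneg fun p _ => kk_nonneg p) (by positivity)
          · exact le_rfl
  calc ∑ m ∈ Icc 1 D, |(ArithmeticFunction.moebius m : ℝ)| * gg m ^ 2 / m
      ≤ ∑ m ∈ Icc 1 D, ∑ t ∈ P.powerset,
          if (∏ p ∈ t, p) ∣ m then (∏ p ∈ t, kk p) * (1 / (m : ℝ)) else 0 := Finset.sum_le_sum hpt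
    _ = ∑ t ∈ P.powerset, (∏ p ∈ t, kk p) *
          ∑ m ∈ (Icc 1 D).filter (fun m => (∏ p ∈ t, p) ∣ m), (1 : ℝ) / m := by
        rw [Finset.sum_comm]
        refine Finset.sum_congr rfl fun t _ => ?_
        rw [← Finset.sum_filter, Finset.mul_sum]
    _ ≤ ∑ t ∈ P.powerset, (∏ p ∈ t, kk p) * ((1 + Real.log D) / ((∏ p ∈ t, p : ℕ) : ℝ)) := by
        refine Finset.sum_le_sum fun t ht => ?_
        refine mul_le_mul_of_nonneg_left (inner_le D _ ?_) (Finset.prod_nonneg fun p _ => kk_nonneg p)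
        exact Finset.prod_pos fun p hp => (Finset.mem_filter.1 (Finset.mem_powerset.1 ht hp)).2.pos
    _ = (1 + Real.log D) * ∏ p ∈ P, (1 + kk p / p) := by
        rw [Finset.prod_one_add, Finset.mul_sum]
        refine Finset.sum_congr rfl fun t _ => ?_
        rw [Finset.prod_div_distrib]
        push_cast
        ring
    _ ≤ (1 + Real.log D) * Real.exp B := by
        refine mul_le_mul_of_nonneg_left ?_ hlog0
        calc ∏ p ∈ P, (1 + kk p / p) ≤ ∏ p ∈ P, Real.exp (kk p / p) := by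
              refine Finset.prod_le_prod (fun p _ => ?_) fun p _ => ?_
              · have := div_nonneg (kk_nonneg p) (Nat.cast_nonneg p : (0 : ℝ) ≤ p)
                linarith
              · rw [add_comm]
                exact Real.add_one_le_exp _
          _ = Real.exp (∑ p ∈ P, kk p / p) := (Real.exp_sum _ _).symm
          _ ≤ Real.exp B := Real.exp_le_exp.2 (hB D)
    _ ≤ 3 * Real.exp B * Real.log D := by
        have : (1 + Real.log D) * Real.exp B ≤ (3 * Real.log D) * Real.exp B :=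
          mul_le_mul_of_nonneg_right hlog (Real.exp_pos B).le
        linarith

end Pool.Agent.Lib.GMV
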