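import Pool.Agent.Lib.GMV.ZMlg

/-!
# GMV.ZSig (1.2 h): the same with exponent `1 + σ`

PROOF. `mob_sig`: `U = log x`, `h(u) = exp (-σ u) (U - u)`, `h(U) = 0`, `h'(U) = -exp (-σ U)`, `h'(0) = -1 - σ U`,
`h''(y) = σ^2 exp (-σ y) (U - y) + 2 σ exp (-σ y) ≥ 0` on `[0, U]`. For `0 ≤ u ≤ U`:
`h(u) = ∫_0^U h''(y) max(0, y - u) dy + exp (-σ U) (U - u)` (two integrations by parts, from `u` to `U`). With `u = log d`,
`1 ≤ d ≤ x`, multiplied by `μ(d)/d` and summed: the sum is `∫_0^U h''(y) F(exp y) dy + exp (-σ U) F(x)` where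
`F(v) = ∑_(d ≤ v, (d,m)=1) μ(d)/d log (v/d)` (`max(0, y - log d) = log (exp y/d)` for `d ≤ exp y`, else `0`), `|F| ≤ C gg m` by `mob_log`,
so it is at most `C gg m (∫_0^U h'' + exp (-σ U)) = C gg m (1 + σ U)`.
(`(d:ℝ)^(-(1+σ)) log (x/d) = (1/d) h(log d)`.)
-/

set_option autoImplicit false

open Finset

namespace Pool.Agent.Lib.GMV

namespace ZSigAux

/-- the function `h` -/
noncomputable def h0 (σ U y : ℝ) : ℝ := Real.exp (-σ * y) * (U - y)

/-- its derivative -/
noncomputable def h1 (σ U y : ℝ) : ℝ := -σ * Real.exp (-σ * y) * (U - y) - Real.exp (-σ * y)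

/-- its second derivative -/
noncomputable def h2 (σ U y : ℝ) : ℝ :=
  σ ^ 2 * Real.exp (-σ * y) * (U - y) + 2 * σ * Real.exp (-σ * y)

theorem hasDeriv_exp (σ y : ℝ) :
    HasDerivAt (fun y : ℝ => Real.exp (-σ * y)) (Real.exp (-σ * y) * (-σ)) y := by
  simpa using ((hasDerivAt_id y).const_mul (-σ)).exp

theorem hasDeriv_lin (U y : ℝ) : HasDerivAt (fun y : ℝ => U - y) (-1) y := by
  simpa using (hasDerivAt_id y).const_sub U

theorem hasDeriv_h0 (σ U y : ℝ) : HasDerivAt (h0 σ U) (h1 σ U y) y := by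
  have h := (hasDeriv_exp σ y).mul (hasDeriv_lin U y)
  refine h.congr_deriv ?_
  unfold h1
  ring

theorem hasDeriv_h1 (σ U y : ℝ) : HasDerivAt (h1 σ U) (h2 σ U y) y := by
  have h := (((hasDeriv_exp σ y).const_mul (-σ)).mul (hasDeriv_lin U y)).sub (hasDeriv_exp σ y)
  refine h.congr_deriv ?_
  unfold h2
  ring

theorem cont_h2 (σ U : ℝ) : Continuous (h2 σ U) := by
  unfold h2
  fun_prop

theorem h2_nonneg {σ U y : ℝ} (hσ : 0 ≤ σ) (hy : y ≤ U) : 0 ≤ h2 σ U y := by
  unfold h2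
  have h := Real.exp_pos (-σ * y)
  have h3 : 0 ≤ U - y := by linarith
  positivity

theorem cont_max (u : ℝ) : Continuous (fun y : ℝ => max 0 (y - u)) := by
  fun_prop

theorem kernel_id {σ U u : ℝ} (hu : 0 ≤ u) (huU : u ≤ U) :
    ∫ y in (0:ℝ)..U, h2 σ U y * max 0 (y - u) = h0 σ U u - Real.exp (-σ * U) * (U - u) := by
  have hc : Continuous (fun y : ℝ => h2 σ U y * max 0 (y - u)) := (cont_h2 σ U).mul (cont_max u)
  rw [← intervalIntegral.integral_add_adjacent_intervals (hc.intervalIntegrable 0 u)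
    (hc.intervalIntegrable u U)]
  have e1 : ∫ y in (0:ℝ)..u, h2 σ U y * max 0 (y - u) = 0 := by
    rw [intervalIntegral.integral_congr (g := fun _ => (0:ℝ))]
    · simp
    · intro y hy
      rw [Set.uIcc_of_le hu] at hy
      have : max 0 (y - u) = 0 := max_eq_left (by linarith [hy.2])
      simp only [this, mul_zero]
  have e2 : ∫ y in u..U, h2 σ U y * max 0 (y - u) = ∫ y in u..U, h2 σ U y * (y - u) := by
    refine intervalIntegral.integral_congr (fun y hy => ?_)
    rw [Set.uIcc_of_le huU] at hy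
    have : max 0 (y - u) = y - u := max_eq_right (by linarith [hy.1])
    simp only [this]
  have hd : ∀ y ∈ Set.uIcc u U, HasDerivAt (fun y => h1 σ U y * (y - u) - h0 σ U y)
      (h2 σ U y * (y - u)) y := by
    intro y _
    have l : HasDerivAt (fun y : ℝ => y - u) 1 y := (hasDerivAt_id y).sub_const u
    have h := ((hasDeriv_h1 σ U y).mul l).sub (hasDeriv_h0 σ U y)
    refine h.congr_deriv ?_
    ring
  have hc2 : Continuous (fun y : ℝ => h2 σ U y * (y - u)) :=
    (cont_h2 σ U).mul (continuous_id.sub continuous_const)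
  have e3 := intervalIntegral.integral_eq_sub_of_hasDerivAt hd (hc2.intervalIntegrable u U)
  rw [e1, e2, e3]
  unfold h1 h0
  ring

theorem int_h2 (σ U : ℝ) :
    ∫ y in (0:ℝ)..U, h2 σ U y = 1 + σ * U - Real.exp (-σ * U) := by
  have e3 := intervalIntegral.integral_eq_sub_of_hasDerivAt
    (fun y (_ : y ∈ Set.uIcc (0:ℝ) U) => hasDeriv_h1 σ U y) ((cont_h2 σ U).intervalIntegrable 0 U)
  rw [e3]
  unfold h1
  simp
  ring

theorem pow_id {d : ℕ} (hd : 1 ≤ d) {x σ : ℝ} (hx : 1 ≤ x) :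
    (d : ℝ) ^ (-(1 + σ)) * Real.log (x / d) = 1 / (d : ℝ) * h0 σ (Real.log x) (Real.log d) := by
  have hd0 : (0:ℝ) < d := by exact_mod_cast hd
  have hx0 : (0:ℝ) < x := by linarith
  rw [Real.rpow_def_of_pos hd0, Real.log_div hx0.ne' hd0.ne']
  unfold h0
  have e : Real.exp (Real.log d * (-(1 + σ))) = 1 / (d:ℝ) * Real.exp (-σ * Real.log d) := by
    have : Real.log d * (-(1 + σ)) = -Real.log d + -σ * Real.log d := by ring
    rw [this, Real.exp_add, Real.exp_neg, Real.exp_log hd0, one_div]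
  rw [e]
  ring

end ZSigAux

open ZSigAux

theorem mob_sig : ∃ C : ℝ, 1 ≤ C ∧ ∀ (m : ℕ) (x σ : ℝ), 1 ≤ m → 1 ≤ x → 0 ≤ σ →
    |∑ d ∈ (Icc 1 ⌊x⌋₊).filter (fun d => d.Coprime m),
      (ArithmeticFunction.moebius d : ℝ) * (d : ℝ) ^ (-(1 + σ)) * Real.log (x / d)| ≤
        C * (1 + σ * Real.log x) * gg m := by
  obtain ⟨C, hC, hF⟩ := mob_log
  refine ⟨C, hC, ?_⟩
  intro m x σ hm hx hσ
  have hx0 : 0 < x := by linarith
  set U := Real.log x with hU
  have hU0 : 0 ≤ U := Real.log_nonneg hx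
  set S := (Icc 1 ⌊x⌋₊).filter (fun d => d.Coprime m) with hS
  set K := C * gg m with hK
  have hKb : ∀ v : ℝ, 1 ≤ v → |∑ d ∈ (Icc 1 ⌊v⌋₊).filter (fun d => d.Coprime m),
      (ArithmeticFunction.moebius d : ℝ) / d * Real.log (v / d)| ≤ K := fun v hv => hF m v hm hv
  have hK0 : 0 ≤ K := le_trans (abs_nonneg _) (hKb 1 le_rfl)
  have hSd : ∀ d ∈ S, 1 ≤ d ∧ (d : ℝ) ≤ x := by
    intro d hd
    rw [hS, mem_filter, mem_Icc] at hd
    exact ⟨hd.1.1, (Nat.le_floor_iff hx0.le).1 hd.1.2⟩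
  have hlog : ∀ d ∈ S, 0 ≤ Real.log d ∧ Real.log d ≤ U := by
    intro d hd
    obtain ⟨h1, h2⟩ := hSd d hd
    have h1' : (1:ℝ) ≤ d := by exact_mod_cast h1
    exact ⟨Real.log_nonneg h1', Real.log_le_log (by linarith) h2⟩
  -- the identity
  have key : ∑ d ∈ S, (ArithmeticFunction.moebius d : ℝ) * (d : ℝ) ^ (-(1 + σ)) * Real.log (x / d) =
      (∫ y in (0:ℝ)..U, ∑ d ∈ S, (ArithmeticFunction.moebius d : ℝ) / d *
        (h2 σ U y * max 0 (y - Real.log d))) +
      Real.exp (-σ * U) * ∑ d ∈ S, (ArithmeticFunction.moebius d : ℝ) / d * Real.log (x / d) := by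
    rw [intervalIntegral.integral_finset_sum]
    · rw [mul_sum, ← sum_add_distrib]
      refine sum_congr rfl (fun d hd => ?_)
      rw [intervalIntegral.integral_const_mul, kernel_id (hlog d hd).1 (hlog d hd).2]
      have hd0 : (0:ℝ) < d := by exact_mod_cast (hSd d hd).1
      rw [mul_assoc, pow_id (hSd d hd).1 hx, Real.log_div hx0.ne' hd0.ne']
      ring
    · intro d _
      exact (continuous_const.mul ((cont_h2 σ U).mul (cont_max (Real.log d)))).intervalIntegrable _ _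
  have hint : ∀ y ∈ Set.Icc (0:ℝ) U, ∑ d ∈ S, (ArithmeticFunction.moebius d : ℝ) / d *
        (h2 σ U y * max 0 (y - Real.log d)) =
      h2 σ U y * ∑ d ∈ (Icc 1 ⌊Real.exp y⌋₊).filter (fun d => d.Coprime m),
      (ArithmeticFunction.moebius d : ℝ) / d * Real.log (Real.exp y / d) := by
    intro y hy
    have hyx : Real.exp y ≤ x := by
      rw [← Real.exp_log hx0]
      exact Real.exp_le_exp.2 hy.2
    have hsub : (Icc 1 ⌊Real.exp y⌋₊).filter (fun d => d.Coprime m) ⊆ S := by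
      rw [hS]
      refine filter_subset_filter _ (Icc_subset_Icc_right (Nat.floor_le_floor hyx))
    rw [mul_sum, ← sum_subset hsub]
    · refine sum_congr rfl (fun d hd => ?_)
      rw [mem_filter, mem_Icc] at hd
      have hd0 : (0:ℝ) < d := by exact_mod_cast hd.1.1
      have hd1 : (d:ℝ) ≤ Real.exp y := (Nat.le_floor_iff (Real.exp_pos y).le).1 hd.1.2
      have h3 : Real.log d ≤ y := by
        rw [← Real.log_exp y]
        exact Real.log_le_log hd0 hd1
      rw [Real.log_div (Real.exp_pos y).ne' hd0.ne', Real.log_exp,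
        max_eq_right (by linarith : (0:ℝ) ≤ y - Real.log d)]
      ring
    · intro d hd hd2
      have hd0 : (0:ℝ) < d := by exact_mod_cast (hSd d hd).1
      rw [hS, mem_filter, mem_Icc] at hd
      have h3 : Real.exp y < d := by
        by_contra h
        push Not at h
        exact hd2 (mem_filter.2 ⟨mem_Icc.2 ⟨hd.1.1, (Nat.le_floor_iff (Real.exp_pos y).le).2 h⟩, hd.2⟩)
      have h4 : y ≤ Real.log d := by
        rw [← Real.log_exp y]
        exact Real.log_le_log (Real.exp_pos y) h3.le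
      rw [max_eq_left (by linarith : y - Real.log d ≤ 0)]
      ring
  have hb : |∫ y in (0:ℝ)..U, ∑ d ∈ S, (ArithmeticFunction.moebius d : ℝ) / d *
        (h2 σ U y * max 0 (y - Real.log d))| ≤ ∫ y in (0:ℝ)..U, K * h2 σ U y := by
    rw [← Real.norm_eq_abs]
    refine intervalIntegral.norm_integral_le_of_norm_le hU0 (Filter.Eventually.of_forall ?_)
      ((continuous_const.mul (cont_h2 σ U)).intervalIntegrable _ _)
    intro y hy
    rw [hint y ⟨hy.1.le, hy.2⟩, Real.norm_eq_abs, abs_mul, abs_of_nonneg (h2_nonneg hσ hy.2), mul_comm]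
    exact mul_le_mul_of_nonneg_right (hKb _ (Real.one_le_exp hy.1.le)) (h2_nonneg hσ hy.2)
  rw [intervalIntegral.integral_const_mul, int_h2] at hb
  have hE : |Real.exp (-σ * U) * ∑ d ∈ S, (ArithmeticFunction.moebius d : ℝ) / d * Real.log (x / d)| ≤
      Real.exp (-σ * U) * K := by
    rw [abs_mul, abs_of_pos (Real.exp_pos _)]
    exact mul_le_mul_of_nonneg_left (hKb x hx) (Real.exp_pos _).le
  rw [key]
  refine (abs_add_le _ _).trans ?_
  calc _ ≤ K * (1 + σ * U - Real.exp (-σ * U)) + Real.exp (-σ * U) * K := add_le_add hb hE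
    _ = C * (1 + σ * U) * gg m := by rw [hK]; ring

end Pool.Agent.Lib.GMV
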