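import Pool.Agent.Lib.GMV.ZForm
import Pool.Agent.Lib.GMV.ZSig
import Pool.Agent.Lib.GMV.ZGg

/-!
# GMV.ZEll (1.2 h): the form of `μ(d) log (D/d)`

PROOF. `form_ell`: for `m | d`, `d` squarefree, `d = m d'`, `μ(d) = μ(m) μ(d')`, `(d', m) = 1`, so
(`form_diag`) `X_m = μ(m) m^(-s) ∑_(d' ≤ D/m, (d',m) = 1) μ(d') d'^(-s) log ((D/m)/d')`, by `mob_sig` (`x = D/m ≥ 1`, `σ log x ≤ 1`)
`|X_m| ≤ |μ(m)| m^(-s) 2 C gg m`; so the form is `≤ ∑_(m ≤ D) m^s μ(m)^2 m^(-2s) 4 C^2 gg(m)^2 ≤ 4 C^2 ∑ |μ(m)| gg(m)^2/m ≤ C' log D` (`gg_sum`).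
-/

set_option autoImplicit false

open Finset

namespace Pool.Agent.Lib.GMV

/-- `μ(d) log (D/d)` for `d ≤ D` -/
noncomputable def ell (D d : ℕ) : ℝ :=
  if d ≤ D then (ArithmeticFunction.moebius d : ℝ) * (Real.log D - Real.log d) else 0

namespace ZEllAux

theorem filter_eq (D m : ℕ) (hm : 1 ≤ m) :
    (Icc 1 D).filter (fun d => m ∣ d) = (Icc 1 (D / m)).image (fun k => m * k) := by
  ext d
  rw [mem_filter, mem_image, mem_Icc]
  constructor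
  · rintro ⟨⟨h1, h2⟩, k, rfl⟩
    refine ⟨k, ?_, rfl⟩
    rw [mem_Icc]
    refine ⟨Nat.pos_of_ne_zero ?_, ?_⟩
    · rintro rfl
      simp at h1
    · rw [Nat.le_div_iff_mul_le hm, mul_comm]
      exact h2
  · rintro ⟨k, hk, rfl⟩
    rw [mem_Icc] at hk
    refine ⟨⟨Nat.mul_pos hm hk.1, ?_⟩, Dvd.intro k rfl⟩
    have := (Nat.le_div_iff_mul_le hm).1 hk.2
    rw [mul_comm]
    exact this

theorem term (D m k : ℕ) (s : ℝ) (hm : 1 ≤ m) (hk1 : 1 ≤ k) (hk2 : m * k ≤ D) :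
    ell D (m * k) * ((m * k : ℕ) : ℝ) ^ (-s) =
      (ArithmeticFunction.moebius m : ℝ) * (m : ℝ) ^ (-s) *
        (if k.Coprime m then (ArithmeticFunction.moebius k : ℝ) * (k : ℝ) ^ (-s) *
          Real.log ((D : ℝ) / m / k) else 0) := by
  have hm' : (0 : ℝ) < m := by exact_mod_cast hm
  have hk' : (0 : ℝ) < k := by exact_mod_cast hk1
  have hD : 0 < D := lt_of_lt_of_le (Nat.mul_pos hm hk1) hk2
  have hD' : (0 : ℝ) < D := by exact_mod_cast hD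
  unfold ell
  rw [if_pos hk2]
  by_cases hc : k.Coprime m
  · rw [if_pos hc, ArithmeticFunction.isMultiplicative_moebius.map_mul_of_coprime hc.symm]
    push_cast
    rw [Real.mul_rpow hm'.le hk'.le, Real.log_mul hm'.ne' hk'.ne',
      Real.log_div (div_pos hD' hm').ne' hk'.ne', Real.log_div hD'.ne' hm'.ne']
    ring
  · rw [if_neg hc, mul_zero]
    have h0 : ArithmeticFunction.moebius (m * k) = 0 := by
      apply ArithmeticFunction.moebius_eq_zero_of_not_squarefree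
      intro h
      exact hc (Nat.squarefree_mul_iff.1 h).1.symm
    rw [h0]
    simp

theorem X_eq (D m : ℕ) (s : ℝ) (hm : 1 ≤ m) :
    ∑ d ∈ (Icc 1 D).filter (fun d => m ∣ d), ell D d * (d : ℝ) ^ (-s) =
      (ArithmeticFunction.moebius m : ℝ) * (m : ℝ) ^ (-s) *
        ∑ d ∈ (Icc 1 ⌊(D : ℝ) / m⌋₊).filter (fun d => d.Coprime m),
          (ArithmeticFunction.moebius d : ℝ) * (d : ℝ) ^ (-s) * Real.log ((D : ℝ) / m / d) := by
  rw [filter_eq D m hm, sum_image (fun a _ b _ hab => Nat.eq_of_mul_eq_mul_left hm hab),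
    Nat.floor_div_eq_div, sum_filter, mul_sum]
  refine sum_congr rfl fun k hk => ?_
  rw [mem_Icc] at hk
  refine term D m k s hm hk.1 ?_
  have := (Nat.le_div_iff_mul_le hm).1 hk.2
  rw [mul_comm]
  exact this

end ZEllAux

theorem form_ell : ∃ C : ℝ, 1 ≤ C ∧ ∀ (D : ℕ) (σ : ℝ), 2 ≤ D → 0 ≤ σ → σ * Real.log D ≤ 1 →
    form (1 + σ) D D (ell D) (ell D) ≤ C * Real.log D := by
  obtain ⟨C, hC1, hC⟩ := mob_sig
  obtain ⟨B, hB1, hB⟩ := gg_sum
  refine ⟨4 * C ^ 2 * B, by nlinarith [mul_self_nonneg (C - 1)], fun D σ hD hσ hσD => ?_⟩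
  obtain ⟨J, hJ, hform⟩ := form_diag (1 + σ) (by linarith)
  rw [hform D D, max_self]
  have key : ∀ m ∈ Icc 1 D, J m *
      (∑ d ∈ (Icc 1 D).filter (fun d => m ∣ d), ell D d * (d : ℝ) ^ (-(1 + σ))) *
      (∑ e ∈ (Icc 1 D).filter (fun e => m ∣ e), ell D e * (e : ℝ) ^ (-(1 + σ))) ≤
      4 * C ^ 2 * (|(ArithmeticFunction.moebius m : ℝ)| * gg m ^ 2 / m) := by
    intro m hm
    rw [mem_Icc] at hm
    have hm' : (0 : ℝ) < m := by exact_mod_cast hm.1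
    have hm1 : (1 : ℝ) ≤ m := by exact_mod_cast hm.1
    have hmD : (m : ℝ) ≤ D := by exact_mod_cast hm.2
    have hx : 1 ≤ (D : ℝ) / m := by rw [le_div_iff₀ hm']; linarith
    obtain ⟨hJ0, hJ1⟩ := hJ m hm.1
    rw [ZEllAux.X_eq D m _ hm.1]
    have hS := hC m ((D : ℝ) / m) σ hm.1 hx hσ
    obtain ⟨S, hSdef⟩ : ∃ S, S = ∑ d ∈ (Icc 1 ⌊(D : ℝ) / m⌋₊).filter (fun d => d.Coprime m),
      (ArithmeticFunction.moebius d : ℝ) * (d : ℝ) ^ (-(1 + σ)) *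
        Real.log ((D : ℝ) / m / d) := ⟨_, rfl⟩
    rw [← hSdef] at hS ⊢
    have hgg : 1 ≤ gg m := one_le_gg m
    have hlog : σ * Real.log ((D : ℝ) / m) ≤ 1 := by
      refine le_trans (mul_le_mul_of_nonneg_left ?_ hσ) hσD
      refine Real.log_le_log (by linarith) ?_
      exact div_le_self (by linarith) hm1
    have hS2 : |S| ≤ 2 * C * gg m := by
      refine hS.trans ?_
      refine mul_le_mul_of_nonneg_right ?_ (by linarith)
      nlinarith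
    have hS3 : S ^ 2 ≤ 4 * C ^ 2 * gg m ^ 2 := by
      have h1 : |S| ^ 2 ≤ (2 * C * gg m) ^ 2 := pow_le_pow_left₀ (abs_nonneg S) hS2 2
      rw [sq_abs] at h1
      calc S ^ 2 ≤ (2 * C * gg m) ^ 2 := h1
        _ = _ := by ring
    obtain ⟨μ, hμ⟩ : ∃ μ : ℝ, μ = (ArithmeticFunction.moebius m : ℝ) := ⟨_, rfl⟩
    have hμ1 : |μ| ≤ 1 := by
      rw [hμ]
      have := ArithmeticFunction.abs_moebius_le_one (n := m)
      exact_mod_cast this
    rw [← hμ]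
    have hμ2 : μ ^ 2 ≤ |μ| := by
      rw [← sq_abs]
      have h0 : 0 ≤ |μ| := abs_nonneg μ
      nlinarith
    have hpow : (m : ℝ) ^ (1 + σ) * ((m : ℝ) ^ (-(1 + σ)) * (m : ℝ) ^ (-(1 + σ))) ≤ 1 / m := by
      rw [← mul_assoc, ← Real.rpow_add hm']
      rw [add_neg_cancel, Real.rpow_zero, one_mul]
      calc (m : ℝ) ^ (-(1 + σ)) ≤ (m : ℝ) ^ (-1 : ℝ) :=
            Real.rpow_le_rpow_of_exponent_le hm1 (by linarith)
        _ = 1 / m := by rw [Real.rpow_neg_one, one_div]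
    have hpn : 0 ≤ (m : ℝ) ^ (-(1 + σ)) := Real.rpow_nonneg hm'.le _
    calc J m * (μ * (m : ℝ) ^ (-(1 + σ)) * S) * (μ * (m : ℝ) ^ (-(1 + σ)) * S)
        = J m * ((m : ℝ) ^ (-(1 + σ)) * (m : ℝ) ^ (-(1 + σ))) * (μ ^ 2 * S ^ 2) := by ring
      _ ≤ (m : ℝ) ^ (1 + σ) * ((m : ℝ) ^ (-(1 + σ)) * (m : ℝ) ^ (-(1 + σ))) * (μ ^ 2 * S ^ 2) := by
          refine mul_le_mul_of_nonneg_right ?_ (by positivity)
          exact mul_le_mul_of_nonneg_right hJ1 (mul_nonneg hpn hpn)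
      _ ≤ 1 / m * (μ ^ 2 * S ^ 2) := mul_le_mul_of_nonneg_right hpow (by positivity)
      _ ≤ 1 / m * (|μ| * (4 * C ^ 2 * gg m ^ 2)) := by
          refine mul_le_mul_of_nonneg_left ?_ (by positivity)
          exact mul_le_mul hμ2 hS3 (by positivity) (abs_nonneg μ)
      _ = _ := by ring
  refine (sum_le_sum key).trans ?_
  rw [← mul_sum]
  refine (mul_le_mul_of_nonneg_left (hB D hD) (by positivity)).trans (le_of_eq ?_)
  ring

end Pool.Agent.Lib.GMV
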