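import Pool.Agent.Lib.GMV.Defs

/-!
# GMV.ZFj (0.8 h): complex conjugation

PROOF. `s ↦ conj (Lf χ (conj s))` is entire and equals `Lf χ` for `Re s > 1` (Dirichlet series with real coefficients, `χ^2 = 1`; the factor
`s - 1` too if `χ = 1`), identity theorem on `ℂ`.
-/

set_option autoImplicit false

open Complex Finset

namespace Pool.Agent.Lib.GMV

namespace ZFjAux

open scoped ComplexConjugate

lemma char_conj {q : ℕ} (χ : DirichletCharacter ℂ q) (hχ : χ ^ 2 = 1) (a : ZMod q) :
    conj (χ a) = χ a := by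
  have h1 : star (χ a) = χ⁻¹ a := MulChar.star_apply' χ a
  have h2 : χ⁻¹ = χ := by
    rw [inv_eq_iff_mul_eq_one, ← pow_two, hχ]
  rw [h2] at h1
  exact h1

lemma cpow_conj_nat (n : ℕ) (s : ℂ) : (n : ℂ) ^ (conj s) = conj ((n : ℂ) ^ s) := by
  have h : (n : ℂ).arg ≠ Real.pi := by
    rw [Complex.natCast_arg]
    exact Real.pi_ne_zero.symm
  have h1 := cpow_conj (n : ℂ) s h
  rw [h1, Complex.conj_natCast]

lemma LFunction_conj {q : ℕ} [NeZero q] (χ : DirichletCharacter ℂ q) (hχ : χ ^ 2 = 1)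
    {s : ℂ} (hs : 1 < s.re) :
    DirichletCharacter.LFunction χ (conj s) = conj (DirichletCharacter.LFunction χ s) := by
  have hs' : 1 < (conj s).re := by simpa using hs
  rw [DirichletCharacter.LFunction_eq_LSeries χ hs', DirichletCharacter.LFunction_eq_LSeries χ hs]
  unfold LSeries
  rw [Complex.conj_tsum]
  refine tsum_congr fun n => ?_
  rcases Nat.eq_zero_or_pos n with h0 | h0
  · subst h0
    simp
  · rw [LSeries.term_of_ne_zero h0.ne', LSeries.term_of_ne_zero h0.ne', map_div₀,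
      char_conj χ hχ, cpow_conj_nat]

lemma Lf_conj_of_re {q : ℕ} [NeZero q] (χ : DirichletCharacter ℂ q) (hχ : χ ^ 2 = 1)
    {s : ℂ} (hs : 1 < s.re) : Lf χ (conj s) = conj (Lf χ s) := by
  by_cases h1 : χ = 1
  · subst h1
    have hs1 : s ≠ 1 := by
      rintro rfl
      simp at hs
    have hs2 : conj s ≠ 1 := by
      intro h
      apply hs1
      have := congrArg conj h
      simpa using this
    rw [Lf_one_apply q hs1, Lf_one_apply q hs2, map_mul, LFunction_conj _ hχ hs, map_sub, map_one]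
  · rw [Lf_of_ne h1]
    exact LFunction_conj χ hχ hs

end ZFjAux

theorem Lf_conj {q : ℕ} [NeZero q] (χ : DirichletCharacter ℂ q) (hχ : χ ^ 2 = 1) (s : ℂ) :
    Lf χ ((starRingEnd ℂ) s) = (starRingEnd ℂ) (Lf χ s) := by
  have hd : Differentiable ℂ (fun z : ℂ => (starRingEnd ℂ) (Lf χ ((starRingEnd ℂ) z))) := by
    intro z
    exact differentiableAt_conj_conj_iff.mpr (Lf_differentiable χ ((starRingEnd ℂ) z))
  have ha : AnalyticOnNhd ℂ (fun z : ℂ => (starRingEnd ℂ) (Lf χ ((starRingEnd ℂ) z)))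
      Set.univ := hd.differentiableOn.analyticOnNhd isOpen_univ
  have he : (fun z : ℂ => (starRingEnd ℂ) (Lf χ ((starRingEnd ℂ) z))) = Lf χ := by
    refine AnalyticOnNhd.eq_of_eventuallyEq ha (Lf_analytic χ) (z₀ := 2) ?_
    have hopen : {z : ℂ | 1 < z.re} ∈ nhds (2 : ℂ) :=
      (isOpen_lt continuous_const Complex.continuous_re).mem_nhds (by simp)
    filter_upwards [hopen] with z hz
    rw [ZFjAux.Lf_conj_of_re χ hχ hz, Complex.conj_conj]
  have h := congrFun he ((starRingEnd ℂ) s)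
  simp only [Complex.conj_conj] at h
  exact h.symm

end Pool.Agent.Lib.GMV
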