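import Pool.Agent.Lib.GMV.ZLan
import Pool.Agent.Lib.GMV.ZFa
import Pool.Agent.Lib.GMV.ZFj
import Pool.Agent.Lib.GMV.ZFc

/-!
# GMV.ZFb (2 h): zero free region, complex zeros

PROOF. Constants: `L = log Q ≥ log 2`, `x = c/L`, `c ≤ 1/100` small (then `x ≤ 1/40`, `log (1/x) ≤ L + log (1/c)`), and
`K = C (log Q + log (1/x)) + C ≤ 1/(100 x)` (possible since `c log (1/c) → 0`), `C` large enough for `Lf_landau`, `VK.ZF.mangoldt_le`. The zero free region is `Re ρ > 1 - (c/20)/L`,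
i.e. `δ := 1 - Re ρ < x/20`. For `ρ = β + iγ`, `s = 1 + x + iγ`: `s - ρ = x + δ`, `Re 1/(s-ρ) ≥ 1/(1.05 x)`, `mul ≥ 1` (`one_le_mul`).
In all cases `-(Lf'/Lf)(s).re ≤ K - ∑_S mul Re 1/(s-ρ)`; for the principal character `Lf'/Lf = 1/(s-1) + L'/L`, so
`-(L'/L)(s).re ≤ K + Re 1/(s-1)` (take `S = ∅` or the zero).
`zf_complex`, from `VK.ZF.three_four_one` (for `y = γ`):
 (1) `χ^2 ≠ 1`: `0 ≤ 3 (1/x + K) + 4 (K - 1/(1.05 x)) + K`, impossible as `4/1.05 > 3.8`.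
 (2) `χ^2 = 1`, `|γ| ≥ x/2`: the last term is `≤ K + Re 1/(x + 2iγ) = K + x/(x^2 + 4γ^2) ≤ K + 1/(2x)`: `3.5 < 3.8`.
 (3) `χ^2 = 1`, `0 < |γ| < x/2`: `conj ρ ≠ ρ` is a zero too (`Lf_conj`); `one_plus_real` at `1 + x`, `Lf_landau` with `t = 0`,
 `S = {ρ, conj ρ}`: `0 ≤ 1/x + K + K - 2 Re 1/(1+x-ρ)`, `Re 1/(1+x-ρ) = (x+δ)/((x+δ)^2 + γ^2) ≥ x/(1.1025 x^2 + 0.25 x^2) ≥ 0.73/x`.
 So `γ = 0`, and `χ^2 = 1`: otherwise (1).
-/

set_option autoImplicit false

open Complex Finset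

namespace Pool.Agent.Lib.GMV

namespace ZFbAux

/-- logarithmic derivative of `(s - 1) L(s, 1)` -/
lemma logderiv_one {q : ℕ} [NeZero q] {s : ℂ} (hs : s ≠ 1) (h1 : 1 ≤ s.re) :
    deriv (Lf (1 : DirichletCharacter ℂ q)) s / Lf (1 : DirichletCharacter ℂ q) s =
      1 / (s - 1) + deriv (DirichletCharacter.LFunction (1 : DirichletCharacter ℂ q)) s /
        DirichletCharacter.LFunction (1 : DirichletCharacter ℂ q) s := by
  have hne : DirichletCharacter.LFunction (1 : DirichletCharacter ℂ q) s ≠ 0 :=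
    DirichletCharacter.LFunction_ne_zero_of_one_le_re _ (.inr hs) h1
  have hs0 : s - 1 ≠ 0 := sub_ne_zero.mpr hs
  have hd := DirichletCharacter.deriv_LFunctionTrivChar₁_apply_of_ne_one q hs
  rw [Lf_one_apply q hs, Lf_one, hd]
  have e : DirichletCharacter.LFunctionTrivChar q =
      DirichletCharacter.LFunction (1 : DirichletCharacter ℂ q) := rfl
  rw [e]
  field_simp
  ring

/-- the pole term -/
lemma pole_re {x y : ℝ} (hx : 0 < x) (hy : x / 2 ≤ |y|) :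
    (1 / ((((1 + x : ℝ) : ℂ) + (2 * y : ℝ) * I) - 1)).re ≤ 1 / (2 * x) := by
  have h1 : ((((1 + x : ℝ) : ℂ) + (2 * y : ℝ) * I) - 1) = (x : ℂ) + (2 * y : ℝ) * I := by
    push_cast
    ring
  have hn : Complex.normSq ((x : ℂ) + (2 * y : ℝ) * I) = x ^ 2 + (2 * y) ^ 2 := by
    rw [Complex.normSq_add_mul_I]
  rw [h1, one_div, Complex.inv_re, hn]
  have hr : ((x : ℂ) + (2 * y : ℝ) * I).re = x := by simp
  rw [hr]
  have h2 : (x / 2) ^ 2 ≤ y ^ 2 := by
    rw [← sq_abs y]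
    exact pow_le_pow_left₀ (by positivity) hy 2
  rw [div_le_div_iff₀ (by positivity) (by positivity)]
  nlinarith

/-- the term of a zero close to the real axis -/
lemma near_re {x : ℝ} {ρ : ℂ} (hx : 0 < x) (h1 : ρ.re < 1) (h2 : 1 - x / 20 < ρ.re)
    (h3 : |ρ.im| ≤ x / 2) : 73 / 100 * (1 / x) ≤ (1 / (((1 + x : ℝ) : ℂ) - ρ)).re := by
  have hr : (((1 + x : ℝ) : ℂ) - ρ).re = 1 + x - ρ.re := by simp
  have hi : (((1 + x : ℝ) : ℂ) - ρ).im = -ρ.im := by simp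
  rw [one_div (((1 + x : ℝ) : ℂ) - ρ), Complex.inv_re, Complex.normSq_apply, hr, hi]
  obtain ⟨u, hu⟩ : ∃ u, u = 1 + x - ρ.re := ⟨_, rfl⟩
  rw [← hu]
  have hu1 : x ≤ u := by linarith
  have hu2 : u ≤ 21 / 20 * x := by linarith
  have hy : ρ.im * ρ.im ≤ (x / 2) * (x / 2) := by
    have := mul_self_le_mul_self (abs_nonneg ρ.im) h3
    rwa [abs_mul_abs_self] at this
  have hpos : 0 < u * u + -ρ.im * -ρ.im := by nlinarith
  rw [mul_one_div, div_le_div_iff₀ hx hpos]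
  nlinarith

lemma near_norm {x : ℝ} {ρ : ℂ} (hx1 : x ≤ 1 / 40) (h1 : ρ.re < 1)
    (hx : 0 < x) (h2 : 1 - x / 20 < ρ.re) (h3 : |ρ.im| ≤ x / 2) :
    ‖((1 + x : ℝ) : ℂ) - ρ‖ ≤ 1 / 8 := by
  refine (Complex.norm_le_abs_re_add_abs_im _).trans ?_
  have hr : (((1 + x : ℝ) : ℂ) - ρ).re = 1 + x - ρ.re := by simp
  have hi : (((1 + x : ℝ) : ℂ) - ρ).im = -ρ.im := by simp
  rw [hr, hi, abs_neg, abs_of_pos (by linarith)]
  linarith

end ZFbAux

open ZFcAux ZFbAux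

theorem zf_complex : ∃ c : ℝ, 0 < c ∧ ∀ (Q q : ℕ) [NeZero q] (χ : DirichletCharacter ℂ q) (ρ : ℂ),
    2 ≤ Q → q ≤ Q → χ ≠ 1 → Lf χ ρ = 0 → |ρ.im| ≤ (Q : ℝ) ^ 30 → 1 - c / Real.log Q < ρ.re →
    χ ^ 2 = 1 ∧ ρ.im = 0 := by
  obtain ⟨C1, hC1, hland⟩ := Lf_landau
  obtain ⟨C2, hC2, hman⟩ := Pool.Agent.VK.ZF.mangoldt_le
  obtain ⟨a, ha0, ha1, ha⟩ := choice C1 C2 hC1 hC2
  refine ⟨a / 20, by positivity, ?_⟩
  intro Q q _ χ ρ hQ hq hχ hρ him hre
  have hQR : (2 : ℝ) ≤ Q := by exact_mod_cast hQ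
  have hl2 : 1 / 2 < Real.log 2 := by
    have := Real.log_two_gt_d9
    linarith
  have hL2 : Real.log 2 ≤ Real.log Q := Real.log_le_log (by norm_num) hQR
  have hL0 : 0 < Real.log Q := by linarith
  have hK := ha (Real.log Q) hL2
  obtain ⟨x, hxdef⟩ : ∃ x, x = a / Real.log Q := ⟨_, rfl⟩
  rw [← hxdef] at hK
  have hx0 : 0 < x := by rw [hxdef]; positivity
  have hx1 : x ≤ 1 / 40 := by
    rw [hxdef, div_le_iff₀ hL0]
    linarith
  have e4 : a / 20 / Real.log Q = x / 20 := by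
    rw [hxdef]; ring
  rw [e4] at hre
  have hre1 : ρ.re < 1 := by
    by_contra hh
    exact Lf_ne_zero _ (not_lt.mp hh) hρ
  have hqQ : q ≤ Q ^ 2 := hq.trans (Nat.le_self_pow (by norm_num) Q)
  obtain ⟨y, hy⟩ : ∃ y, y = ρ.im := ⟨_, rfl⟩
  rw [← hy] at him
  have hsub : (((1 + x : ℝ) : ℂ) + y * I) - ρ = ((1 + x - ρ.re : ℝ) : ℂ) := by
    apply Complex.ext
    · simp
    · simp [hy]
  have hpos : 0 < 1 + x - ρ.re := by linarith
  have hQ30 : 0 ≤ (Q : ℝ) ^ 30 := by positivity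
  -- the point `s1`
  have A1 := hland Q q χ x y hQ hqQ (by linarith) hx0 hx1 {ρ} (by
    intro w hw
    rw [Finset.mem_singleton] at hw
    subst hw
    rw [hsub, Complex.norm_real, Real.norm_eq_abs, abs_of_pos hpos]
    linarith)
  rw [Finset.sum_singleton, hsub] at A1
  have A2 : (1 / ((1 + x - ρ.re : ℝ) : ℂ)).re = 1 / (1 + x - ρ.re) := by
    rw [← Complex.ofReal_one, ← Complex.ofReal_div, Complex.ofReal_re]
  rw [A2] at A1
  have A3 : (1 : ℝ) ≤ (analyticOrderNatAt (Lf χ) ρ : ℝ) := by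
    exact_mod_cast one_le_mul χ hρ
  have A4 : 1 / (21 / 20 * x) ≤ 1 / (1 + x - ρ.re) :=
    one_div_le_one_div_of_le hpos (by linarith)
  have A5 : 0 < 1 / (1 + x - ρ.re) := by positivity
  have A6 : 1 / (21 / 20 * x) ≤
      (deriv (Lf χ) (((1 + x : ℝ) : ℂ) + y * I) / Lf χ (((1 + x : ℝ) : ℂ) + y * I)).re +
        C1 * (Real.log Q + Real.log (1 / x)) := by
    refine A4.trans (le_trans ?_ A1)
    nlinarith
  rw [Lf_of_ne hχ] at A6
  -- the point `s2`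
  have B1 := hland Q q (χ ^ 2) x (2 * y) hQ hqQ (by
      rw [abs_mul, abs_two]
      linarith) hx0 hx1 ∅ (by simp)
  rw [Finset.sum_empty] at B1
  have T1 := Pool.Agent.VK.ZF.three_four_one χ hx0 y
  rw [neg_div, neg_div, Complex.neg_re, Complex.neg_re] at T1
  have H1 := hman x hx0 (by linarith)
  have G3 : 4 * (1 / (21 / 20 * x)) * x = 80 / 21 := by
    field_simp
    norm_num
  have hχ2 : χ ^ 2 = 1 := by
    by_contra hne
    rw [Lf_of_ne hne] at B1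
    have F1 : 4 * (1 / (21 / 20 * x)) ≤
        3 * (1 / x) + (5 * (C1 * (Real.log Q + Real.log (1 / x))) + 3 * C2) := by
      linarith
    have F2 := mul_le_mul_of_nonneg_right F1 hx0.le
    have F4 : (3 * (1 / x) + (5 * (C1 * (Real.log Q + Real.log (1 / x))) + 3 * C2)) * x =
        3 + 5 * ((C1 * (Real.log Q + Real.log (1 / x)) + C2) * x) - 2 * C2 * x := by
      field_simp
      ring
    rw [G3, F4] at F2
    have F5 : 0 ≤ 2 * C2 * x := by positivity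
    linarith
  refine ⟨hχ2, ?_⟩
  rw [← hy]
  by_contra hy0
  rcases le_or_gt (x / 2) |y| with hbig | hsmall
  · -- the pole is far
    have r2 : 1 ≤ ((((1 + x : ℝ) : ℂ) + (2 * y : ℝ) * I)).re := by
      simp
      linarith
    have n2 : (((1 + x : ℝ) : ℂ) + (2 * y : ℝ) * I) ≠ 1 := by
      intro h
      have := congrArg Complex.re h
      simp at this
      linarith
    rw [hχ2, logderiv_one n2 r2, Complex.add_re] at B1
    have p2 := pole_re hx0 hbig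
    rw [hχ2] at T1
    have F1 : 4 * (1 / (21 / 20 * x)) ≤
        3 * (1 / x) + 1 / (2 * x) +
          (5 * (C1 * (Real.log Q + Real.log (1 / x))) + 3 * C2) := by
      linarith
    have F2 := mul_le_mul_of_nonneg_right F1 hx0.le
    have F4 : (3 * (1 / x) + 1 / (2 * x) +
        (5 * (C1 * (Real.log Q + Real.log (1 / x))) + 3 * C2)) * x =
        7 / 2 + 5 * ((C1 * (Real.log Q + Real.log (1 / x)) + C2) * x) - 2 * C2 * x := by
      field_simp
      ring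
    rw [G3, F4] at F2
    have F5 : 0 ≤ 2 * C2 * x := by positivity
    linarith
  · -- two zeros close to the real axis
    obtain ⟨ρ', hρ'⟩ : ∃ ρ' : ℂ, ρ' = (starRingEnd ℂ) ρ := ⟨_, rfl⟩
    have hz' : Lf χ ρ' = 0 := by
      rw [hρ', Lf_conj χ hχ2, hρ, map_zero]
    have hre' : ρ'.re = ρ.re := by rw [hρ', Complex.conj_re]
    have him' : ρ'.im = -ρ.im := by rw [hρ', Complex.conj_im]
    have hne : ρ ≠ ρ' := by
      intro h
      have h2 := congrArg Complex.im h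
      rw [him'] at h2
      apply hy0
      rw [hy]
      linarith
    have hs1 : |ρ.im| ≤ x / 2 := by rw [← hy]; exact hsmall.le
    have hs2 : |ρ'.im| ≤ x / 2 := by rw [him', abs_neg]; exact hs1
    have e : ((1 + x : ℝ) : ℂ) + ((0 : ℝ) : ℂ) * I = ((1 + x : ℝ) : ℂ) := by
      simp
    have D1 := hland Q q χ x 0 hQ hqQ (by
      rw [abs_zero]
      linarith) hx0 hx1 {ρ, ρ'}
    rw [e] at D1
    have D2 := D1 (by
      intro w hw
      rw [Finset.mem_insert, Finset.mem_singleton] at hw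
      rcases hw with rfl | rfl
      · exact near_norm hx1 hre1 hx0 hre hs1
      · exact near_norm hx1 (by rw [hre']; exact hre1) hx0 (by rw [hre']; exact hre) hs2)
    rw [Finset.sum_pair hne] at D2
    have N1 := near_re hx0 hre1 hre hs1
    have N2 := near_re (ρ := ρ') hx0 (by rw [hre']; exact hre1) (by rw [hre']; exact hre) hs2
    have A3' : (1 : ℝ) ≤ (analyticOrderNatAt (Lf χ) ρ' : ℝ) := by
      exact_mod_cast one_le_mul χ hz'
    have hx3 : 0 < 73 / 100 * (1 / x) := by positivity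
    have D3 : 2 * (73 / 100 * (1 / x)) ≤
        (analyticOrderNatAt (Lf χ) ρ : ℝ) * (1 / (((1 + x : ℝ) : ℂ) - ρ)).re +
        (analyticOrderNatAt (Lf χ) ρ' : ℝ) * (1 / (((1 + x : ℝ) : ℂ) - ρ')).re := by
      nlinarith
    have P1 := one_plus_real χ hχ2 hx0
    rw [Complex.neg_re] at P1
    rw [Lf_of_ne hχ] at D2 D3
    have F1 : 2 * (73 / 100 * (1 / x)) ≤
        1 / x + (C1 * (Real.log Q + Real.log (1 / x)) + C2) := by
      linarith
    have F2 := mul_le_mul_of_nonneg_right F1 hx0.le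
    have F3 : 2 * (73 / 100 * (1 / x)) * x = 73 / 50 := by
      field_simp
      norm_num
    have F4 : (1 / x + (C1 * (Real.log Q + Real.log (1 / x)) + C2)) * x =
        1 + (C1 * (Real.log Q + Real.log (1 / x)) + C2) * x := by
      field_simp
    rw [F3, F4] at F2
    linarith

end Pool.Agent.Lib.GMV
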