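import Mathlib

/-!
# GMV.ZForm (1.5 h): the quadratic forms `∑ x_d y_e lcm(d,e)^(-s)`

PROOF. Let `s ≥ 1` and `J : ℕ → ℝ` with `∑_(m ∣ n) J m = n^s` for `n ≥ 1` (`J = μ * n^s`); `0 ≤ J m ≤ m^s`: `J` is multiplicative and
`J(p^k) = p^(ks) - p^((k-1)s)` (if this is easier, only squarefree `m` matter when the sequences are supported on squarefree numbers,
but `form_cs` is stated for all sequences). As `lcm(d,e)^(-s) = gcd(d,e)^s (de)^(-s)`:
`∑_(d ≤ D, e ≤ E) x_d y_e lcm^(-s) = ∑_m J(m) X_m Y_m`, `X_m = ∑_(d ≤ D, m | d) x_d d^(-s)`, `Y_m = ∑_(e ≤ E, m | e) y_e e^(-s)` (`m` up to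
`max D E`). This gives `form_nonneg` and `form_cs` (Cauchy-Schwarz with the weights `J m ≥ 0`) and `form_sub` (`(a-b)^2 ≤ 2 a^2 + 2 b^2`).
-/

set_option autoImplicit false

open Finset

namespace Pool.Agent.Lib.GMV

/-- `∑_(d ≤ D, e ≤ E) x_d y_e lcm(d,e)^(-s)` -/
noncomputable def form (s : ℝ) (D E : ℕ) (x y : ℕ → ℝ) : ℝ :=
  ∑ d ∈ Icc 1 D, ∑ e ∈ Icc 1 E, x d * y e * (Nat.lcm d e : ℝ) ^ (-s)

namespace ZFormAux

open ArithmeticFunction

/-- the arithmetic function `n ↦ n ^ s` (and `0 ↦ 0`) -/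
noncomputable def pw (s : ℝ) : ArithmeticFunction ℝ :=
  ⟨fun n => if n = 0 then 0 else (n : ℝ) ^ s, by simp⟩

theorem pw_apply (s : ℝ) {n : ℕ} (hn : n ≠ 0) : pw s n = (n : ℝ) ^ s := by
  show (if n = 0 then 0 else (n : ℝ) ^ s) = _
  rw [if_neg hn]

theorem pw_mult (s : ℝ) : (pw s).IsMultiplicative := by
  rw [IsMultiplicative.iff_ne_zero]
  refine ⟨?_, ?_⟩
  · rw [pw_apply s one_ne_zero]; simp
  · intro m n hm hn _
    rw [pw_apply s (Nat.mul_ne_zero hm hn), pw_apply s hm, pw_apply s hn, Nat.cast_mul,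
      Real.mul_rpow (Nat.cast_nonneg _) (Nat.cast_nonneg _)]

/-- `μ * n ^ s` -/
noncomputable def jf (s : ℝ) : ArithmeticFunction ℝ := (moebius : ArithmeticFunction ℝ) * pw s

theorem jf_mult (s : ℝ) : (jf s).IsMultiplicative :=
  (isMultiplicative_moebius.intCast).mul (pw_mult s)

theorem jf_sum (s : ℝ) {n : ℕ} (hn : n ≠ 0) : ∑ m ∈ n.divisors, jf s m = (n : ℝ) ^ s := by
  have h : (zeta : ArithmeticFunction ℝ) * jf s = pw s := by
    rw [jf, ← mul_assoc, coe_zeta_mul_coe_moebius, one_mul]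
  rw [← pw_apply s hn, ← h, coe_zeta_mul_apply]

theorem jf_pp (s : ℝ) (hs : 0 ≤ s) {p : ℕ} (hp : p.Prime) (k : ℕ) : 0 ≤ jf s (p ^ k) := by
  cases k with
  | zero => rw [pow_zero, (jf_mult s).map_one]; norm_num
  | succ k =>
    have h1 := jf_sum s (n := p ^ (k + 1)) (pow_ne_zero _ hp.ne_zero)
    have h0 := jf_sum s (n := p ^ k) (pow_ne_zero _ hp.ne_zero)
    rw [Nat.sum_divisors_prime_pow hp] at h1 h0
    rw [Finset.sum_range_succ, h0] at h1
    have h2 : ((p ^ k : ℕ) : ℝ) ^ s ≤ ((p ^ (k + 1) : ℕ) : ℝ) ^ s := by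
      refine Real.rpow_le_rpow (Nat.cast_nonneg _) ?_ hs
      exact_mod_cast Nat.pow_le_pow_right hp.pos (Nat.le_succ k)
    linarith

theorem jf_nonneg (s : ℝ) (hs : 0 ≤ s) {n : ℕ} (hn : n ≠ 0) : 0 ≤ jf s n := by
  rw [(jf_mult s).multiplicative_factorization _ hn]
  refine Finset.prod_nonneg fun p hp => ?_
  exact jf_pp s hs (Nat.prime_of_mem_primeFactors hp) _

theorem jf_le (s : ℝ) (hs : 0 ≤ s) {n : ℕ} (hn : n ≠ 0) : jf s n ≤ (n : ℝ) ^ s := by
  rw [← jf_sum s hn]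
  refine Finset.single_le_sum (f := fun m => jf s m) (fun m hm => ?_) (Nat.mem_divisors_self n hn)
  exact jf_nonneg s hs (Nat.pos_of_mem_divisors hm).ne'

/-- the linear forms of the diagonalisation -/
noncomputable def lf (s : ℝ) (D : ℕ) (x : ℕ → ℝ) (m : ℕ) : ℝ :=
  ∑ d ∈ (Icc 1 D).filter (fun d => m ∣ d), x d * (d : ℝ) ^ (-s)

theorem lcm_rpow (s : ℝ) {d e : ℕ} (hd : d ≠ 0) (he : e ≠ 0) :
    (Nat.lcm d e : ℝ) ^ (-s) = (Nat.gcd d e : ℝ) ^ s * (d : ℝ) ^ (-s) * (e : ℝ) ^ (-s) := by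
  have h : (Nat.gcd d e : ℝ) * (Nat.lcm d e : ℝ) = (d : ℝ) * (e : ℝ) := by
    exact_mod_cast Nat.gcd_mul_lcm d e
  have hg : (0 : ℝ) < (Nat.gcd d e : ℝ) := by
    exact_mod_cast Nat.gcd_pos_of_pos_left e (Nat.pos_of_ne_zero hd)
  have hl : (0 : ℝ) < (Nat.lcm d e : ℝ) := by
    exact_mod_cast Nat.lcm_pos (Nat.pos_of_ne_zero hd) (Nat.pos_of_ne_zero he)
  rw [mul_assoc, ← Real.mul_rpow (Nat.cast_nonneg _) (Nat.cast_nonneg _), ← h,
    Real.mul_rpow hg.le hl.le, ← mul_assoc, ← Real.rpow_add hg]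
  simp

theorem form_eq (s : ℝ) (D E N : ℕ) (hD : D ≤ N) (x y : ℕ → ℝ) :
    form s D E x y = ∑ m ∈ Icc 1 N, jf s m * lf s D x m * lf s E y m := by
  have key : ∀ d ∈ Icc 1 D, ∀ e ∈ Icc 1 E,
      x d * y e * (Nat.lcm d e : ℝ) ^ (-s) = ∑ m ∈ Icc 1 N,
        jf s m * (if m ∣ d then x d * (d : ℝ) ^ (-s) else 0) *
          (if m ∣ e then y e * (e : ℝ) ^ (-s) else 0) := by
    intro d hd e he
    rw [mem_Icc] at hd he
    have hd0 : d ≠ 0 := by omega
    have he0 : e ≠ 0 := by omega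
    have hg0 : Nat.gcd d e ≠ 0 := (Nat.gcd_pos_of_pos_left e (Nat.pos_of_ne_zero hd0)).ne'
    have h1 : ∑ m ∈ Icc 1 N, jf s m * (if m ∣ d then x d * (d : ℝ) ^ (-s) else 0) *
          (if m ∣ e then y e * (e : ℝ) ^ (-s) else 0) =
        ∑ m ∈ Icc 1 N, if m ∣ Nat.gcd d e then
          jf s m * (x d * (d : ℝ) ^ (-s)) * (y e * (e : ℝ) ^ (-s)) else 0 := by
      refine Finset.sum_congr rfl fun m _ => ?_
      by_cases h1 : m ∣ d
      · by_cases h2 : m ∣ e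
        · rw [if_pos h1, if_pos h2, if_pos (Nat.dvd_gcd h1 h2)]
        · rw [if_pos h1, if_neg h2, if_neg (fun h => h2 (h.trans (Nat.gcd_dvd_right d e))), mul_zero]
      · rw [if_neg h1, mul_zero, zero_mul,
          if_neg (fun h : m ∣ Nat.gcd d e => h1 (h.trans (Nat.gcd_dvd_left d e)))]
    have h2 : (Icc 1 N).filter (fun m => m ∣ Nat.gcd d e) = (Nat.gcd d e).divisors := by
      ext m
      rw [mem_filter, mem_Icc, Nat.mem_divisors]
      constructor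
      · rintro ⟨_, h⟩
        exact ⟨h, hg0⟩
      · rintro ⟨h, _⟩
        have h3 : m ∣ d := h.trans (Nat.gcd_dvd_left d e)
        exact ⟨⟨Nat.pos_of_dvd_of_pos h3 (Nat.pos_of_ne_zero hd0),
          (Nat.le_of_dvd (Nat.pos_of_ne_zero hd0) h3).trans (hd.2.trans hD)⟩, h⟩
    rw [h1, ← Finset.sum_filter, h2]
    have h3 : ∑ m ∈ (Nat.gcd d e).divisors,
        jf s m * (x d * (d : ℝ) ^ (-s)) * (y e * (e : ℝ) ^ (-s)) =
        (∑ m ∈ (Nat.gcd d e).divisors, jf s m) * (x d * (d : ℝ) ^ (-s)) * (y e * (e : ℝ) ^ (-s)) := by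
      rw [Finset.sum_mul, Finset.sum_mul]
    rw [h3, jf_sum s hg0, lcm_rpow s hd0 he0]
    ring
  have h4 : form s D E x y = ∑ d ∈ Icc 1 D, ∑ e ∈ Icc 1 E, ∑ m ∈ Icc 1 N,
        jf s m * (if m ∣ d then x d * (d : ℝ) ^ (-s) else 0) *
          (if m ∣ e then y e * (e : ℝ) ^ (-s) else 0) := by
    unfold form
    exact Finset.sum_congr rfl fun d hd => Finset.sum_congr rfl fun e he => key d hd e he
  rw [h4]
  have h5 : ∀ d ∈ Icc 1 D, ∑ e ∈ Icc 1 E, ∑ m ∈ Icc 1 N,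
        jf s m * (if m ∣ d then x d * (d : ℝ) ^ (-s) else 0) *
          (if m ∣ e then y e * (e : ℝ) ^ (-s) else 0) =
      ∑ m ∈ Icc 1 N, ∑ e ∈ Icc 1 E,
        jf s m * (if m ∣ d then x d * (d : ℝ) ^ (-s) else 0) *
          (if m ∣ e then y e * (e : ℝ) ^ (-s) else 0) := fun d _ => Finset.sum_comm
  rw [Finset.sum_congr rfl h5, Finset.sum_comm]
  refine Finset.sum_congr rfl fun m _ => ?_
  unfold lf
  rw [Finset.sum_filter, Finset.sum_filter, mul_assoc, Finset.sum_mul_sum, Finset.mul_sum]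
  refine Finset.sum_congr rfl fun d _ => ?_
  rw [Finset.mul_sum]
  refine Finset.sum_congr rfl fun e _ => ?_
  ring

end ZFormAux

/-- diagonalisation, with nonnegative `J m ≤ m^s` -/
theorem form_diag (s : ℝ) (hs : 1 ≤ s) : ∃ J : ℕ → ℝ, (∀ m, 1 ≤ m → 0 ≤ J m ∧ J m ≤ (m : ℝ) ^ s) ∧
    ∀ (D E : ℕ) (x y : ℕ → ℝ), form s D E x y = ∑ m ∈ Icc 1 (max D E), J m *
      (∑ d ∈ (Icc 1 D).filter (fun d => m ∣ d), x d * (d : ℝ) ^ (-s)) *
      (∑ e ∈ (Icc 1 E).filter (fun e => m ∣ e), y e * (e : ℝ) ^ (-s)) := by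
  have hs0 : 0 ≤ s := by linarith
  refine ⟨fun m => ZFormAux.jf s m, fun m hm => ⟨ZFormAux.jf_nonneg s hs0 (by omega),
    ZFormAux.jf_le s hs0 (by omega)⟩, fun D E x y => ?_⟩
  exact ZFormAux.form_eq s D E (max D E) (le_max_left _ _) x y

theorem form_nonneg (s : ℝ) (hs : 1 ≤ s) (D : ℕ) (x : ℕ → ℝ) : 0 ≤ form s D D x x := by
  rw [ZFormAux.form_eq s D D D le_rfl x x]
  refine Finset.sum_nonneg fun m hm => ?_
  rw [mul_assoc]
  exact mul_nonneg (ZFormAux.jf_nonneg s (by linarith) (by rw [mem_Icc] at hm; omega))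
    (mul_self_nonneg _)

theorem form_cs (s : ℝ) (hs : 1 ≤ s) (D E : ℕ) (x y : ℕ → ℝ) :
    form s D E x y ^ 2 ≤ form s D D x x * form s E E y y := by
  rw [ZFormAux.form_eq s D E (max D E) (le_max_left _ _) x y,
    ZFormAux.form_eq s D D (max D E) (le_max_left _ _) x x,
    ZFormAux.form_eq s E E (max D E) (le_max_right _ _) y y]
  have hj : ∀ m ∈ Icc 1 (max D E), 0 ≤ ZFormAux.jf s m := fun m hm =>
    ZFormAux.jf_nonneg s (by linarith) (by rw [mem_Icc] at hm; omega)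
  have h1 : ∑ m ∈ Icc 1 (max D E), ZFormAux.jf s m * ZFormAux.lf s D x m * ZFormAux.lf s E y m =
      ∑ m ∈ Icc 1 (max D E), (Real.sqrt (ZFormAux.jf s m) * ZFormAux.lf s D x m) *
        (Real.sqrt (ZFormAux.jf s m) * ZFormAux.lf s E y m) := by
    refine Finset.sum_congr rfl fun m hm => ?_
    have h := Real.mul_self_sqrt (hj m hm)
    calc _ = (Real.sqrt (ZFormAux.jf s m) * Real.sqrt (ZFormAux.jf s m)) *
          ZFormAux.lf s D x m * ZFormAux.lf s E y m := by rw [h]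
      _ = _ := by ring
  have h2 : ∀ z : ℕ → ℝ, ∑ m ∈ Icc 1 (max D E), ZFormAux.jf s m * z m * z m =
      ∑ m ∈ Icc 1 (max D E), (Real.sqrt (ZFormAux.jf s m) * z m) ^ 2 := by
    intro z
    refine Finset.sum_congr rfl fun m hm => ?_
    rw [mul_pow, Real.sq_sqrt (hj m hm)]
    ring
  rw [h1, h2, h2]
  exact Finset.sum_mul_sq_le_sq_mul_sq _ _ _

theorem form_sub (s : ℝ) (hs : 1 ≤ s) (D : ℕ) (x y : ℕ → ℝ) :
    form s D D (fun d => x d - y d) (fun d => x d - y d) ≤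
      2 * form s D D x x + 2 * form s D D y y := by
  have h0 := form_nonneg s hs D (fun d => x d + y d)
  have h1 : form s D D (fun d => x d - y d) (fun d => x d - y d) +
      form s D D (fun d => x d + y d) (fun d => x d + y d) =
      2 * form s D D x x + 2 * form s D D y y := by
    unfold form
    simp only [Finset.mul_sum]
    rw [← Finset.sum_add_distrib, ← Finset.sum_add_distrib]
    refine Finset.sum_congr rfl fun d _ => ?_
    rw [← Finset.sum_add_distrib, ← Finset.sum_add_distrib]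
    refine Finset.sum_congr rfl fun e _ => ?_
    ring
  linarith

end Pool.Agent.Lib.GMV
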