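import Pool.Agent.Lib.GMV.ZWt

/-!
# GMV.ZVar (1.2 h): variation of the weights, twisted sums

PROOF. `var_WW`: `f(m) = WW(g m) m^(-w)`. `|f(m+1) - f(m)| ≤ |WW(g(m+1)) - WW(g m)| (m+1)^(-Re w) + WW(g m) |(m+1)^(-w) - m^(-w)|`, the
first `≤ (1/m) m^(-1/2)`, the second `≤ |w| m^(-1 - Re w) ≤ |w| m^(-3/2)` (mean value, `Re w ≥ 1/2`), and both vanish unless
`g (m+1) > √z`, i.e. `m ≥ √z/(2g)` as above (and `m ≥ 1`). `∑_(m ≥ a) m^(-3/2) ≤ 6 a^(-1/2)` for `a > 0` (`m ≥ 1`).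
`inner_per`: Abel summation with `f(M+1) = 0` and `|A| ≤ K`: `∑ f(m) c(m) = ∑_(m ≤ M) (f(m) - f(m+1)) A(m)`.
-/

set_option autoImplicit false

open Finset

namespace Pool.Agent.Lib.GMV

namespace ZVarAux

lemma tel {m : ℕ} (hm : 1 ≤ m) :
    (1 : ℝ) / ((m : ℝ) * Real.sqrt m) ≤ 4 * (1 / Real.sqrt m - 1 / Real.sqrt ((m + 1 : ℕ) : ℝ)) := by
  have hm0 : (0 : ℝ) < m := by exact_mod_cast hm
  have hm1 : (1 : ℝ) ≤ m := by exact_mod_cast hm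
  set a := Real.sqrt m with ha
  set b := Real.sqrt ((m + 1 : ℕ) : ℝ) with hb
  have ha0 : 0 < a := Real.sqrt_pos.mpr hm0
  have hb0 : 0 < b := Real.sqrt_pos.mpr (by positivity)
  have ha2 : a ^ 2 = m := Real.sq_sqrt hm0.le
  have hb2 : b ^ 2 = m + 1 := by
    rw [hb, Real.sq_sqrt (by positivity)]
    push_cast
    ring
  have hab : a ≤ b := by
    rw [ha, hb]
    exact Real.sqrt_le_sqrt (by push_cast; linarith)
  have hb15 : b ≤ 3 / 2 * a := by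
    by_contra h
    push Not at h
    have h1 : (3 / 2 * a) ^ 2 < b ^ 2 := by
      have h2 : 0 ≤ 3 / 2 * a := by positivity
      nlinarith
    rw [hb2, mul_pow, ha2] at h1
    nlinarith
  have e1 : 1 / a - 1 / b = 1 / (a * b * (a + b)) := by
    have h1 : b - a = 1 / (a + b) := by
      rw [eq_div_iff (by positivity)]
      nlinarith
    rw [div_sub_div _ _ ha0.ne' hb0.ne']
    rw [one_mul, mul_one, h1, div_div]
    ring_nf
  rw [e1, ← ha2]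
  have h3 : 4 * (1 / (a * b * (a + b))) = 4 / (a * b * (a + b)) := by ring
  rw [h3, div_le_div_iff₀ (by positivity) (by positivity)]
  have h4 : b * (a + b) ≤ 4 * a ^ 2 := by nlinarith
  nlinarith [mul_le_mul_of_nonneg_left h4 ha0.le]

/-- difference of powers -/
lemma pow_diff {m : ℕ} (hm : 1 ≤ m) {w : ℂ} (hw : 1 / 2 ≤ w.re) :
    ‖((m + 1 : ℕ) : ℂ) ^ (-w) - (m : ℂ) ^ (-w)‖ ≤ ‖w‖ * (1 / ((m : ℝ) * Real.sqrt m)) := by
  have hm0 : (0 : ℝ) < m := by exact_mod_cast hm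
  have hm1 : (1 : ℝ) ≤ m := by exact_mod_cast hm
  have hd : ∀ x ∈ Set.Icc (m : ℝ) (m + 1), HasDerivWithinAt (fun y : ℝ => (y : ℂ) ^ (-w))
      (-w * (x : ℂ) ^ (-w - 1) * 1) (Set.Icc (m : ℝ) (m + 1)) x := by
    intro x hx
    have hx0 : 0 < x := lt_of_lt_of_le hm0 hx.1
    have hs : (x : ℂ) ∈ Complex.slitPlane := by
      rw [Complex.mem_slitPlane_iff]
      left
      simpa using hx0
    have h1 := (hasDerivAt_id (x : ℂ)).cpow_const (c := -w) hs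
    exact (h1.comp_ofReal).hasDerivWithinAt
  have hb : ∀ x ∈ Set.Icc (m : ℝ) (m + 1), ‖-w * (x : ℂ) ^ (-w - 1) * 1‖ ≤
      ‖w‖ * (1 / ((m : ℝ) * Real.sqrt m)) := by
    intro x hx
    have hx0 : 0 < x := lt_of_lt_of_le hm0 hx.1
    rw [mul_one, norm_mul, norm_neg, Complex.norm_cpow_eq_rpow_re_of_pos hx0]
    refine mul_le_mul_of_nonneg_left ?_ (norm_nonneg _)
    have h1 : (-w - 1).re = -(w.re + 1) := by
      simp
      ring
    rw [h1, Real.rpow_neg hx0.le, one_div]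
    refine inv_anti₀ (by positivity) ?_
    have h2 : (m : ℝ) * Real.sqrt m = (m : ℝ) ^ ((3 : ℝ) / 2) := by
      have e : (3 : ℝ) / 2 = 1 + 1 / 2 := by norm_num
      rw [e, Real.rpow_add hm0, Real.rpow_one, Real.sqrt_eq_rpow]
    rw [h2]
    calc (m : ℝ) ^ ((3 : ℝ) / 2) ≤ x ^ ((3 : ℝ) / 2) :=
          Real.rpow_le_rpow hm0.le hx.1 (by norm_num)
      _ ≤ x ^ (w.re + 1) :=
          Real.rpow_le_rpow_of_exponent_le (hm1.trans hx.1) (by linarith)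
  have h := (convex_Icc (m : ℝ) (m + 1)).norm_image_sub_le_of_norm_hasDerivWithin_le hd hb
    (x := (m : ℝ)) (y := (m : ℝ) + 1) ⟨le_refl _, by linarith⟩ ⟨by linarith, le_refl _⟩
  have e1 : ‖(m : ℝ) + 1 - m‖ = 1 := by
    rw [add_sub_cancel_left]
    simp
  rw [e1, mul_one] at h
  simpa using h

lemma term_le {z N : ℝ} {w : ℂ} {g m : ℕ} (hz : 8 ≤ z) (hzN : z ≤ N) (hw : 1 / 2 ≤ w.re)
    (hg : 1 ≤ g) (hm : 1 ≤ m) :
    ‖((WW z N ((g : ℝ) * (m + 1 : ℕ)) : ℝ) : ℂ) * ((m + 1 : ℕ) : ℂ) ^ (-w) -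
      ((WW z N ((g : ℝ) * m) : ℝ) : ℂ) * (m : ℂ) ^ (-w)‖ ≤
        (1 + ‖w‖) * (1 / ((m : ℝ) * Real.sqrt m)) := by
  have hm0 : (0 : ℝ) < m := by exact_mod_cast hm
  have hm1 : (1 : ℝ) ≤ m := by exact_mod_cast hm
  have hg0 : (0 : ℝ) < g := by exact_mod_cast hg
  set A := WW z N ((g : ℝ) * (m + 1 : ℕ)) with hA
  set B := WW z N ((g : ℝ) * m) with hB
  have hAB : |A - B| ≤ 1 / m := by
    have h1 := WW_diff (z := z) (N := N) (a := (g : ℝ) * m) (b := (g : ℝ) * (m + 1 : ℕ)) hz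
      (by linarith) (by positivity) (by
        refine mul_le_mul_of_nonneg_left ?_ hg0.le
        push_cast
        linarith)
    refine h1.trans ?_
    rw [Real.log_mul hg0.ne' (by positivity), Real.log_mul hg0.ne' hm0.ne',
      add_sub_add_left_eq_sub, ← Real.log_div (by positivity) hm0.ne']
    have h2 : (((m + 1 : ℕ) : ℝ)) / m = 1 + 1 / m := by
      push_cast
      field_simp
    rw [h2]
    have h3 := Real.log_le_sub_one_of_pos (x := 1 + 1 / (m : ℝ)) (by positivity)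
    linarith
  have hB1 := WW_mem z N ((g : ℝ) * m)
  rw [← hB] at hB1
  have e : (A : ℂ) * ((m + 1 : ℕ) : ℂ) ^ (-w) - (B : ℂ) * (m : ℂ) ^ (-w) =
      ((A - B : ℝ) : ℂ) * ((m + 1 : ℕ) : ℂ) ^ (-w) +
        (B : ℂ) * (((m + 1 : ℕ) : ℂ) ^ (-w) - (m : ℂ) ^ (-w)) := by
    push_cast
    ring
  rw [e]
  refine (norm_add_le _ _).trans ?_
  rw [norm_mul, norm_mul, Complex.norm_real, Complex.norm_real, Real.norm_eq_abs,
    Real.norm_of_nonneg hB1.1]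
  have h1 : ‖((m + 1 : ℕ) : ℂ) ^ (-w)‖ ≤ 1 / Real.sqrt m := by
    rw [Complex.norm_natCast_cpow_of_pos (Nat.succ_pos m), Complex.neg_re,
      Real.rpow_neg (Nat.cast_nonneg _), one_div]
    refine inv_anti₀ (Real.sqrt_pos.mpr hm0) ?_
    rw [Real.sqrt_eq_rpow]
    calc (m : ℝ) ^ ((1 : ℝ) / 2) ≤ ((m + 1 : ℕ) : ℝ) ^ ((1 : ℝ) / 2) :=
          Real.rpow_le_rpow hm0.le (by push_cast; linarith) (by norm_num)
      _ ≤ ((m + 1 : ℕ) : ℝ) ^ w.re :=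
          Real.rpow_le_rpow_of_exponent_le (by push_cast; linarith) hw
  have h2 := pow_diff hm hw
  have h3 : |A - B| * ‖((m + 1 : ℕ) : ℂ) ^ (-w)‖ ≤ 1 / m * (1 / Real.sqrt m) :=
    mul_le_mul hAB h1 (norm_nonneg _) (by positivity)
  have h4 : B * ‖((m + 1 : ℕ) : ℂ) ^ (-w) - (m : ℂ) ^ (-w)‖ ≤
      1 * (‖w‖ * (1 / ((m : ℝ) * Real.sqrt m))) :=
    mul_le_mul hB1.2 h2 (norm_nonneg _) zero_le_one
  have h5 : 1 / (m : ℝ) * (1 / Real.sqrt m) = 1 / ((m : ℝ) * Real.sqrt m) := by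
    rw [one_div_mul_one_div]
  rw [h5] at h3
  nlinarith only [h3, h4]

lemma term_zero {z N : ℝ} {w : ℂ} {g m : ℕ} (hz : 8 ≤ z) (hg : 1 ≤ g) (hm : 1 ≤ m)
    (h : ((g : ℝ) * (m + 1 : ℕ)) ^ 2 ≤ z) :
    ‖((WW z N ((g : ℝ) * (m + 1 : ℕ)) : ℝ) : ℂ) * ((m + 1 : ℕ) : ℂ) ^ (-w) -
      ((WW z N ((g : ℝ) * m) : ℝ) : ℂ) * (m : ℂ) ^ (-w)‖ = 0 := by
  have hm1 : (1 : ℝ) ≤ m := by exact_mod_cast hm
  have hg1 : (1 : ℝ) ≤ g := by exact_mod_cast hg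
  have h1 : WW z N ((g : ℝ) * (m + 1 : ℕ)) = 0 := by
    refine WW_zero (by linarith) ?_ h
    push_cast
    nlinarith
  have h2 : WW z N ((g : ℝ) * m) = 0 := by
    refine WW_zero (by linarith) (by nlinarith) ?_
    refine le_trans ?_ h
    push_cast
    have h3 : (g : ℝ) * m ≤ g * (m + 1) := by nlinarith
    have h4 : (0 : ℝ) ≤ g * m := by positivity
    exact pow_le_pow_left₀ h4 h3 2
  rw [h1, h2]
  simp

/-- the truncated telescoping function -/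
noncomputable def GG (B : ℝ) (m : ℕ) : ℝ := min (1 / Real.sqrt m) B

lemma GG_anti {B : ℝ} {m : ℕ} (hm : 1 ≤ m) : GG B (m + 1) ≤ GG B m := by
  unfold GG
  refine min_le_min_right _ ?_
  have hm0 : (0 : ℝ) < m := by exact_mod_cast hm
  refine one_div_le_one_div_of_le (Real.sqrt_pos.mpr hm0) (Real.sqrt_le_sqrt ?_)
  push_cast
  linarith

lemma term_GG {z N : ℝ} {w : ℂ} {g m : ℕ} (hz : 8 ≤ z) (hzN : z ≤ N) (hw : 1 / 2 ≤ w.re)
    (hg : 1 ≤ g) (hm : 1 ≤ m) {B : ℝ} (hB : B = Real.sqrt (2 * (g / Real.sqrt z))) :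
    ‖((WW z N ((g : ℝ) * (m + 1 : ℕ)) : ℝ) : ℂ) * ((m + 1 : ℕ) : ℂ) ^ (-w) -
      ((WW z N ((g : ℝ) * m) : ℝ) : ℂ) * (m : ℂ) ^ (-w)‖ ≤
        (1 + ‖w‖) * (4 * (GG B m - GG B (m + 1))) := by
  have hm0 : (0 : ℝ) < m := by exact_mod_cast hm
  have hg0 : (0 : ℝ) < g := by exact_mod_cast hg
  have hz0 : (0 : ℝ) < z := by linarith
  have hw0 : 0 ≤ ‖w‖ := norm_nonneg w
  by_cases h : ((g : ℝ) * (m + 1 : ℕ)) ^ 2 ≤ z
  · rw [term_zero hz hg hm h]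
    have := GG_anti (B := B) hm
    have h1 : 0 ≤ GG B m - GG B (m + 1) := by linarith
    positivity
  · push Not at h
    have h1 : Real.sqrt z < g * (m + 1 : ℕ) := by
      rw [Real.sqrt_lt' (by positivity)]
      exact h
    have hs : 0 < Real.sqrt z := Real.sqrt_pos.mpr hz0
    have h2 : 1 / Real.sqrt m ≤ B := by
      rw [hB, ← Real.sqrt_one, ← Real.sqrt_div zero_le_one]
      refine Real.sqrt_le_sqrt ?_
      have h3 : (2 : ℝ) * (g / Real.sqrt z) = 2 * g / Real.sqrt z := by ring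
      rw [h3, div_le_div_iff₀ hm0 hs]
      have h4 : (1 : ℝ) ≤ m := by exact_mod_cast hm
      push_cast at h1
      nlinarith
    have h5 : 1 / Real.sqrt ((m + 1 : ℕ) : ℝ) ≤ 1 / Real.sqrt m := by
      refine one_div_le_one_div_of_le (Real.sqrt_pos.mpr hm0) (Real.sqrt_le_sqrt ?_)
      push_cast
      linarith
    have h6 : GG B m = 1 / Real.sqrt m := min_eq_left h2
    have h7 : GG B (m + 1) = 1 / Real.sqrt ((m + 1 : ℕ) : ℝ) := min_eq_left (h5.trans h2)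
    rw [h6, h7]
    refine (term_le hz hzN hw hg hm).trans ?_
    exact mul_le_mul_of_nonneg_left (tel hm) (by positivity)

lemma abel (f c : ℕ → ℂ) (M : ℕ) :
    ∑ m ∈ Icc 1 M, f m * c m = ∑ m ∈ Icc 1 M, (f m - f (m + 1)) * (∑ k ∈ Icc 1 m, c k) +
      f (M + 1) * ∑ k ∈ Icc 1 M, c k := by
  induction M with
  | zero => simp
  | succ M ih =>
    rw [Finset.sum_Icc_succ_top (by omega), Finset.sum_Icc_succ_top (by omega), ih,
      Finset.sum_Icc_succ_top (by omega) c]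
    ring

end ZVarAux

theorem var_WW : ∃ C : ℝ, 1 ≤ C ∧ ∀ (z N : ℝ) (w : ℂ) (g M : ℕ), 8 ≤ z → z ≤ N → 1 / 2 ≤ w.re →
    w.re ≤ 2 → 1 ≤ g →
    ∑ m ∈ Icc 1 M, ‖((WW z N ((g : ℝ) * (m + 1 : ℕ)) : ℝ) : ℂ) * ((m + 1 : ℕ) : ℂ) ^ (-w) -
      ((WW z N ((g : ℝ) * m) : ℝ) : ℂ) * (m : ℂ) ^ (-w)‖ ≤
        C * (1 + ‖w‖) * Real.sqrt (g / Real.sqrt z) := by
  refine ⟨8, by norm_num, ?_⟩
  intro z N w g M hz hzN hw _ hg
  set B := Real.sqrt (2 * (g / Real.sqrt z)) with hB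
  have hw0 : 0 ≤ ‖w‖ := norm_nonneg w
  have key : ∀ M : ℕ, ∑ m ∈ Icc 1 M, ‖((WW z N ((g : ℝ) * (m + 1 : ℕ)) : ℝ) : ℂ) *
      ((m + 1 : ℕ) : ℂ) ^ (-w) - ((WW z N ((g : ℝ) * m) : ℝ) : ℂ) * (m : ℂ) ^ (-w)‖ ≤
        (1 + ‖w‖) * (4 * (ZVarAux.GG B 1 - ZVarAux.GG B (M + 1))) := by
    intro M
    induction M with
    | zero => simp
    | succ M ih =>
      rw [Finset.sum_Icc_succ_top (by omega)]
      have h := ZVarAux.term_GG (N := N) (w := w) (g := g) (m := M + 1) hz hzN hw hg (by omega) hB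
      refine (add_le_add ih h).trans (le_of_eq ?_)
      ring
  refine (key M).trans ?_
  have h1 : ZVarAux.GG B 1 ≤ B := min_le_right _ _
  have h2 : 0 ≤ ZVarAux.GG B (M + 1) := le_min (by positivity) (Real.sqrt_nonneg _)
  have h3 : B ≤ 2 * Real.sqrt (g / Real.sqrt z) := by
    rw [hB, Real.sqrt_mul (by norm_num)]
    refine mul_le_mul_of_nonneg_right ?_ (Real.sqrt_nonneg _)
    rw [Real.sqrt_le_left (by norm_num)]
    norm_num
  have h4 : (1 + ‖w‖) * (4 * (ZVarAux.GG B 1 - ZVarAux.GG B (M + 1))) ≤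
      (1 + ‖w‖) * (4 * (2 * Real.sqrt (g / Real.sqrt z))) := by
    refine mul_le_mul_of_nonneg_left ?_ (by positivity)
    linarith
  refine h4.trans (le_of_eq ?_)
  ring

theorem inner_per : ∃ C : ℝ, 1 ≤ C ∧ ∀ (z N K : ℝ) (w : ℂ) (c : ℕ → ℂ) (g M : ℕ), 8 ≤ z → z ≤ N →
    1 / 2 ≤ w.re → w.re ≤ 2 → 1 ≤ g → N ^ 2 ≤ (g : ℝ) * (M + 1) →
    (∀ m : ℕ, ‖∑ k ∈ Icc 1 m, c k‖ ≤ K) →
    ‖∑ m ∈ Icc 1 M, ((WW z N ((g : ℝ) * m) : ℝ) : ℂ) * (m : ℂ) ^ (-w) * c m‖ ≤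
      K * C * (1 + ‖w‖) * Real.sqrt (g / Real.sqrt z) := by
  obtain ⟨C, hC1, hC⟩ := var_WW
  refine ⟨C, hC1, ?_⟩
  intro z N K w c g M hz hzN hw hw2 hg hM hK
  have hK0 : 0 ≤ K := by
    have := hK 0
    simpa using this
  set f : ℕ → ℂ := fun m => ((WW z N ((g : ℝ) * m) : ℝ) : ℂ) * (m : ℂ) ^ (-w) with hf
  have hf0 : f (M + 1) = 0 := by
    simp only [hf]
    rw [WW_top (by linarith) (by push_cast; exact hM)]
    simp
  have h1 := ZVarAux.abel f c M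
  rw [hf0, zero_mul, add_zero] at h1
  change ‖∑ m ∈ Icc 1 M, f m * c m‖ ≤ _
  rw [h1]
  refine (norm_sum_le _ _).trans ?_
  have h2 : ∑ m ∈ Icc 1 M, ‖(f m - f (m + 1)) * ∑ k ∈ Icc 1 m, c k‖ ≤
      ∑ m ∈ Icc 1 M, K * ‖f (m + 1) - f m‖ := by
    refine Finset.sum_le_sum fun m _ => ?_
    rw [norm_mul, norm_sub_rev, mul_comm]
    exact mul_le_mul_of_nonneg_right (hK m) (norm_nonneg _)
  refine h2.trans ?_
  rw [← Finset.mul_sum]
  have h3 := hC z N w g M hz hzN hw hw2 hg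
  have h4 := mul_le_mul_of_nonneg_left h3 hK0
  refine le_trans ?_ (h4.trans (le_of_eq (by ring)))
  exact le_of_eq rfl

end Pool.Agent.Lib.GMV
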