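import Pool.Agent.Lib.GMV.ZAn
import Pool.Agent.Lib.GMV.ZVar
import Pool.Agent.Lib.BV.LargeSieve

/-!
# GMV.ZGram (1 h): the Gram matrix, different characters

PROOF. Parameters: `z = Q^300`, `E = Q`, `N = Q^1300`, `M = N^2 = Q^2600`. `expand_two` with `x = y = th Q`, `D = E = Q` (`Th Q n ^ 2` is the product of two divisor sums): with `g = lcm(d,e) ≤ Q^2`
(`g^2 ≤ z`), `N^2 ≤ g (M/g + 1)`.
`gram_cross`: the sum is `∑_(d,e ≤ Q) th d th e g^(-w) χ(g) conj ψ(g) ∑_(m ≤ M/g) WW(g m) m^(-w) χ(m) conj ψ(m)`; `inner_per` with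
`K = 2 Q^2` (`BV.ls_corr` with `N0 = 0`), `|th| ≤ 1`, `g^(-Re w) √g ≤ 1`, `√(1/√z) = Q^(-75)`: at most
`Q^2 * 2 Q^2 * C (3 + 2 Q^30) * Q^(-75) ≤ Q^(-40)`.
-/

set_option autoImplicit false

open Complex Finset

namespace Pool.Agent.Lib.GMV

/-- the weights of the Gram matrix -/
noncomputable def wt (Q n : ℕ) : ℝ := Th Q n ^ 2 * WW ((Q : ℝ) ^ 300) ((Q : ℝ) ^ 1300) n

namespace ZGramAux

theorem inner_bound (C : ℝ) (hC : ∀ (z N K : ℝ) (w : ℂ) (c : ℕ → ℂ) (g M : ℕ), 8 ≤ z → z ≤ N →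
    1 / 2 ≤ w.re → w.re ≤ 2 → 1 ≤ g → N ^ 2 ≤ (g : ℝ) * (M + 1) →
    (∀ m : ℕ, ‖∑ k ∈ Icc 1 m, c k‖ ≤ K) →
    ‖∑ m ∈ Icc 1 M, ((WW z N ((g : ℝ) * m) : ℝ) : ℂ) * (m : ℂ) ^ (-w) * c m‖ ≤
      K * C * (1 + ‖w‖) * Real.sqrt (g / Real.sqrt z)) (hC1 : 1 ≤ C)
    (Q q r g : ℕ) [NeZero q] [NeZero r] (χ : DirichletCharacter ℂ q)
    (ψ : DirichletCharacter ℂ r) (w : ℂ) (hQ : 8 ≤ Q) (hq : q ≤ Q) (hr : r ≤ Q) (hg : 1 ≤ g)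
    (hχ : χ.IsPrimitive) (hψ : ψ.IsPrimitive)
    (hne : (⟨q, χ⟩ : (n : ℕ) × DirichletCharacter ℂ n) ≠ ⟨r, ψ⟩)
    (hw1 : 3 / 4 ≤ w.re) (hw2 : w.re ≤ 1) (hw3 : |w.im| ≤ 2 * (Q : ℝ) ^ 30) :
    ‖∑ m ∈ Icc 1 (Q ^ 2600 / g),
      ((WW ((Q : ℝ) ^ 300) ((Q : ℝ) ^ 1300) ((g * m : ℕ) : ℝ) : ℝ) : ℂ) *
        (((g * m : ℕ) : ℂ) ^ (-w) *
          (χ ((g * m : ℕ) : ZMod q) * (starRingEnd ℂ) (ψ ((g * m : ℕ) : ZMod r))))‖ ≤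
      8 * C * ((Q : ℝ) ^ 32 / (Q : ℝ) ^ 75) := by
  have hQ1 : (1 : ℝ) ≤ Q := by exact_mod_cast (by omega : 1 ≤ Q)
  have hQ8 : (8 : ℝ) ≤ Q := by exact_mod_cast hQ
  have hQ0 : (0 : ℝ) < Q := by linarith
  have hg0 : (0 : ℝ) < g := by exact_mod_cast hg
  have hg1 : (1 : ℝ) ≤ g := by exact_mod_cast hg
  have hz8 : (8 : ℝ) ≤ (Q : ℝ) ^ 300 := hQ8.trans (le_self_pow₀ hQ1 (by norm_num))
  have hzN : (Q : ℝ) ^ 300 ≤ (Q : ℝ) ^ 1300 := pow_le_pow_right₀ hQ1 (by norm_num)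
  have hM : ((Q : ℝ) ^ 1300) ^ 2 ≤ (g : ℝ) * (((Q ^ 2600 / g : ℕ) : ℝ) + 1) := by
    have h1 : Q ^ 2600 < g * (Q ^ 2600 / g + 1) := Nat.lt_mul_div_succ _ hg
    have h2 : ((Q ^ 2600 : ℕ) : ℝ) ≤ ((g * (Q ^ 2600 / g + 1) : ℕ) : ℝ) := by
      exact_mod_cast h1.le
    rw [← pow_mul]
    push_cast at h2 ⊢
    exact h2
  have hK : ∀ m : ℕ, ‖∑ k ∈ Icc 1 m, (χ (k : ZMod q) * (starRingEnd ℂ) (ψ (k : ZMod r)))‖ ≤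
      2 * (Q : ℝ) ^ 2 := by
    intro m
    have h1 := Pool.Agent.Lib.BV.ls_corr χ ψ hχ hψ hne 0 m
    have h2 : Icc 1 m = Ioc 0 m := by
      ext x; simp only [mem_Icc, mem_Ioc]; omega
    rw [h2]
    refine h1.trans ?_
    have h3 : (q : ℝ) ≤ Q := by exact_mod_cast hq
    have h4 : (r : ℝ) ≤ Q := by exact_mod_cast hr
    have h5 : (q : ℝ) * r ≤ Q * Q := mul_le_mul h3 h4 (by positivity) hQ0.le
    nlinarith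
  have hmain := hC ((Q : ℝ) ^ 300) ((Q : ℝ) ^ 1300) (2 * (Q : ℝ) ^ 2) w
    (fun k => χ (k : ZMod q) * (starRingEnd ℂ) (ψ (k : ZMod r))) g (Q ^ 2600 / g) hz8 hzN
    (by linarith) (by linarith) hg hM hK
  have hfac : ∑ m ∈ Icc 1 (Q ^ 2600 / g),
      ((WW ((Q : ℝ) ^ 300) ((Q : ℝ) ^ 1300) ((g * m : ℕ) : ℝ) : ℝ) : ℂ) *
        (((g * m : ℕ) : ℂ) ^ (-w) *
          (χ ((g * m : ℕ) : ZMod q) * (starRingEnd ℂ) (ψ ((g * m : ℕ) : ZMod r)))) =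
      ((g : ℂ) ^ (-w) * (χ (g : ZMod q) * (starRingEnd ℂ) (ψ (g : ZMod r)))) *
        ∑ m ∈ Icc 1 (Q ^ 2600 / g),
          ((WW ((Q : ℝ) ^ 300) ((Q : ℝ) ^ 1300) ((g : ℝ) * m) : ℝ) : ℂ) * (m : ℂ) ^ (-w) *
            (χ (m : ZMod q) * (starRingEnd ℂ) (ψ (m : ZMod r))) := by
    rw [mul_sum]
    refine sum_congr rfl fun m _ => ?_
    have h1 : ((g * m : ℕ) : ℂ) ^ (-w) = (g : ℂ) ^ (-w) * (m : ℂ) ^ (-w) := by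
      rw [Nat.cast_mul]
      exact Complex.natCast_mul_natCast_cpow g m (-w)
    have h2 : χ ((g * m : ℕ) : ZMod q) = χ (g : ZMod q) * χ (m : ZMod q) := by
      rw [Nat.cast_mul, map_mul]
    have h3 : ψ ((g * m : ℕ) : ZMod r) = ψ (g : ZMod r) * ψ (m : ZMod r) := by
      rw [Nat.cast_mul, map_mul]
    rw [h1, h2, h3, map_mul]
    push_cast
    ring
  rw [hfac, norm_mul]
  have hsq : Real.sqrt ((g : ℝ) / Real.sqrt ((Q : ℝ) ^ 300)) = Real.sqrt g / (Q : ℝ) ^ 75 := by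
    have h1 : Real.sqrt ((Q : ℝ) ^ 300) = ((Q : ℝ) ^ 75) ^ 2 := by
      rw [show (Q : ℝ) ^ 300 = (((Q : ℝ) ^ 75) ^ 2) ^ 2 by rw [← pow_mul, ← pow_mul]]
      exact Real.sqrt_sq (by positivity)
    rw [h1, Real.sqrt_div' _ (by positivity), Real.sqrt_sq (by positivity)]
  rw [hsq] at hmain
  have hn1 : ‖(g : ℂ) ^ (-w) * (χ (g : ZMod q) * (starRingEnd ℂ) (ψ (g : ZMod r)))‖ ≤
      (g : ℝ) ^ (-w.re) := by
    rw [norm_mul]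
    have h1 : ‖(g : ℂ) ^ (-w)‖ = (g : ℝ) ^ (-w.re) := by
      have := Complex.norm_natCast_cpow_of_pos hg (-w)
      simpa using this
    have h2 : ‖χ (g : ZMod q) * (starRingEnd ℂ) (ψ (g : ZMod r))‖ ≤ 1 := by
      rw [norm_mul]
      have h3 := DirichletCharacter.norm_le_one χ (g : ZMod q)
      have h4 := DirichletCharacter.norm_le_one ψ (g : ZMod r)
      have h5 : ‖(starRingEnd ℂ) (ψ (g : ZMod r))‖ = ‖ψ (g : ZMod r)‖ := by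
        simp
      rw [h5]
      exact mul_le_one₀ h3 (norm_nonneg _) h4
    rw [h1]
    exact mul_le_of_le_one_right (by positivity) h2
  have hgw : (g : ℝ) ^ (-w.re) * Real.sqrt g ≤ 1 := by
    rw [Real.sqrt_eq_rpow, ← Real.rpow_add hg0]
    exact Real.rpow_le_one_of_one_le_of_nonpos hg1 (by linarith)
  have hwn : 1 + ‖w‖ ≤ 4 * (Q : ℝ) ^ 30 := by
    have h1 := Complex.norm_le_abs_re_add_abs_im w
    have h2 : |w.re| ≤ 1 := abs_le.mpr ⟨by linarith, hw2⟩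
    have h3 : (1 : ℝ) ≤ (Q : ℝ) ^ 30 := one_le_pow₀ hQ1
    linarith
  have hn0 : 0 ≤ ‖∑ m ∈ Icc 1 (Q ^ 2600 / g),
          ((WW ((Q : ℝ) ^ 300) ((Q : ℝ) ^ 1300) ((g : ℝ) * m) : ℝ) : ℂ) * (m : ℂ) ^ (-w) *
            (χ (m : ZMod q) * (starRingEnd ℂ) (ψ (m : ZMod r)))‖ := norm_nonneg _
  have hrp : 0 ≤ (g : ℝ) ^ (-w.re) := by positivity
  calc _ ≤ (g : ℝ) ^ (-w.re) *
      (2 * (Q : ℝ) ^ 2 * C * (1 + ‖w‖) * (Real.sqrt g / (Q : ℝ) ^ 75)) :=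
        mul_le_mul hn1 hmain hn0 hrp
    _ = ((g : ℝ) ^ (-w.re) * Real.sqrt g) *
        ((2 * (Q : ℝ) ^ 2 * C / (Q : ℝ) ^ 75) * (1 + ‖w‖)) := by ring
    _ ≤ 1 * ((2 * (Q : ℝ) ^ 2 * C / (Q : ℝ) ^ 75) * (4 * (Q : ℝ) ^ 30)) := by
        refine mul_le_mul hgw ?_ (by positivity) zero_le_one
        exact mul_le_mul_of_nonneg_left hwn (by positivity)
    _ = 8 * C * ((Q : ℝ) ^ 32 / (Q : ℝ) ^ 75) := by ring

end ZGramAux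

theorem gram_cross : ∃ Q0 : ℕ, ∀ (Q q r : ℕ) [NeZero q] [NeZero r] (χ : DirichletCharacter ℂ q)
    (ψ : DirichletCharacter ℂ r) (w : ℂ), Q0 ≤ Q → q ≤ Q → r ≤ Q → χ.IsPrimitive →
    ψ.IsPrimitive → (⟨q, χ⟩ : (n : ℕ) × DirichletCharacter ℂ n) ≠ ⟨r, ψ⟩ →
    3 / 4 ≤ w.re → w.re ≤ 1 → |w.im| ≤ 2 * (Q : ℝ) ^ 30 →
    ‖∑ n ∈ Icc 1 (Q ^ 2600), (wt Q n : ℂ) * ((n : ℂ) ^ (-w) *
      (χ (n : ZMod q) * (starRingEnd ℂ) (ψ (n : ZMod r))))‖ ≤ 1 / (Q : ℝ) ^ 40 := by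
  obtain ⟨C, hC1, hC⟩ := inner_per
  refine ⟨max 8 ⌈8 * C⌉₊, ?_⟩
  intro Q q r _ _ χ ψ w hQ hq hr hχ hψ hne hw1 hw2 hw3
  have hQ8 : 8 ≤ Q := (le_max_left _ _).trans hQ
  have hQC : 8 * C ≤ Q := by
    have h1 : ((⌈8 * C⌉₊ : ℕ) : ℝ) ≤ Q := by exact_mod_cast (le_max_right _ _).trans hQ
    exact (Nat.le_ceil _).trans h1
  have hQ1 : (1 : ℝ) ≤ Q := by exact_mod_cast (by omega : 1 ≤ Q)
  have hQ0 : (0 : ℝ) < Q := by linarith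
  have e1 : ∑ n ∈ Icc 1 (Q ^ 2600), (wt Q n : ℂ) * ((n : ℂ) ^ (-w) *
      (χ (n : ZMod q) * (starRingEnd ℂ) (ψ (n : ZMod r)))) =
      ∑ n ∈ Icc 1 (Q ^ 2600),
        (((∑ d ∈ n.divisors, th Q d) * (∑ e ∈ n.divisors, th Q e) : ℝ) : ℂ) *
          (fun n : ℕ => ((WW ((Q : ℝ) ^ 300) ((Q : ℝ) ^ 1300) (n : ℝ) : ℝ) : ℂ) *
            ((n : ℂ) ^ (-w) *
              (χ (n : ZMod q) * (starRingEnd ℂ) (ψ (n : ZMod r))))) n := by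
    refine sum_congr rfl fun n _ => ?_
    unfold wt Th
    push_cast
    ring
  rw [e1, expand_two (th Q) (th Q) Q Q (Q ^ 2600) (fun d hd => th_zero Q d hd)
    (fun d hd => th_zero Q d hd)]
  have hterm : ∀ d ∈ Icc 1 Q, ∀ e ∈ Icc 1 Q,
      ‖((th Q d * th Q e : ℝ) : ℂ) * ∑ m ∈ Icc 1 (Q ^ 2600 / Nat.lcm d e),
        (fun n : ℕ => ((WW ((Q : ℝ) ^ 300) ((Q : ℝ) ^ 1300) (n : ℝ) : ℝ) : ℂ) *
            ((n : ℂ) ^ (-w) *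
              (χ (n : ZMod q) * (starRingEnd ℂ) (ψ (n : ZMod r))))) (Nat.lcm d e * m)‖ ≤
        8 * C * ((Q : ℝ) ^ 32 / (Q : ℝ) ^ 75) := by
    intro d hd e he
    rw [mem_Icc] at hd he
    have hg : 1 ≤ Nat.lcm d e := Nat.lcm_pos hd.1 he.1
    have h1 := ZGramAux.inner_bound C hC hC1 Q q r (Nat.lcm d e) χ ψ w hQ8 hq hr hg hχ hψ hne
      hw1 hw2 hw3
    rw [norm_mul]
    have h2 : ‖((th Q d * th Q e : ℝ) : ℂ)‖ ≤ 1 := by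
      rw [Complex.norm_real, Real.norm_eq_abs, abs_mul]
      exact mul_le_one₀ (th_abs Q d (by omega)) (abs_nonneg _) (th_abs Q e (by omega))
    exact (mul_le_of_le_one_left (norm_nonneg _) h2).trans h1
  have hsum : ∀ d ∈ Icc 1 Q, ‖∑ e ∈ Icc 1 Q,
      ((th Q d * th Q e : ℝ) : ℂ) * ∑ m ∈ Icc 1 (Q ^ 2600 / Nat.lcm d e),
        (fun n : ℕ => ((WW ((Q : ℝ) ^ 300) ((Q : ℝ) ^ 1300) (n : ℝ) : ℝ) : ℂ) *
            ((n : ℂ) ^ (-w) *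
              (χ (n : ZMod q) * (starRingEnd ℂ) (ψ (n : ZMod r))))) (Nat.lcm d e * m)‖ ≤
        Q * (8 * C * ((Q : ℝ) ^ 32 / (Q : ℝ) ^ 75)) := by
    intro d hd
    refine (norm_sum_le _ _).trans ?_
    refine (sum_le_sum fun e he => hterm d hd e he).trans ?_
    rw [sum_const, Nat.card_Icc, nsmul_eq_mul]
    simp
  refine (norm_sum_le _ _).trans ?_
  refine (sum_le_sum fun d hd => hsum d hd).trans ?_
  rw [sum_const, Nat.card_Icc, nsmul_eq_mul]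
  have e2 : (((Q + 1 - 1 : ℕ) : ℝ)) * (Q * (8 * C * ((Q : ℝ) ^ 32 / (Q : ℝ) ^ 75))) =
      8 * C * ((Q : ℝ) ^ 34 / (Q : ℝ) ^ 75) := by
    rw [Nat.add_sub_cancel]
    ring
  rw [e2, le_div_iff₀ (by positivity)]
  have e3 : (Q : ℝ) ^ 34 / (Q : ℝ) ^ 75 = 1 / (Q : ℝ) ^ 41 := by
    rw [div_eq_div_iff (by positivity) (by positivity)]
    ring
  rw [e3]
  have e4 : 8 * C * (1 / (Q : ℝ) ^ 41) * (Q : ℝ) ^ 40 = 8 * C / Q := by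
    field_simp
  rw [e4, div_le_one hQ0]
  exact hQC

end Pool.Agent.Lib.GMV
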