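import Pool.Agent.Lib.VK.Landau

/-!
# GMV.ZLoc (1.5 h): local lemma on the logarithmic derivative, with all zeros and multiplicities

PROOF. By `VK.ld_translate` let `z0 = 0` (translate `S` too; `analyticOrderAt` of `fun z => f (z + z0)` at `ρ - z0`). Let
`n = ∑ ρ ∈ S, order`; induction on `n` for all `f, M` (and fixed `S, R`). All orders on the ball are finite: `f` is analytic on a
neighbourhood of the connected closed ball and `f 0 ≠ 0` (if the order at `ρ` were `⊤`, `f = 0` on the ball by the identity theorem).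
* `n = 0`: the left side is `0` and `-(f'/f 0).re ≤ 8 M / R` is `VK.landau`.
* `n ≥ 1`: some `ρ ∈ S` has order `≥ 1`, so `f ρ = 0`, `Re ρ < 0` (hypothesis `hz`), `0 < |ρ| ≤ R/2`. Put `f1 = VK.ldF f ρ R`
  (`ld_analytic`, `ld_identity : f z (R^2 - conj ρ z) = f1 z (R (z - ρ))`, `ld_bound`, `ld_zero : f1 0 = f 0 * (-R/ρ)` or so,
  `ld_den_ne`, `ld_logderiv`). As `R^2 - conj ρ z` is analytic and nonzero on the ball, `order_f w = order_f1 w + [w = ρ]` for `w` in the
  closed ball of radius `R/2`. `|f1 z| ≤ exp M |f 0| ≤ exp (M - log 2) |f1 0|` (`|f1 0| = |f 0| R/|ρ| ≥ 2 |f 0|`), in particular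
  `M - log 2 ≥ 0` (take `z = 0`). `f1 z ≠ 0` for `Re z ≥ 0`. Induction for `f1, M - log 2`:
  `∑ order_f1 (1/(-w)).re ≤ (f1'/f1 0).re + 8 (M - log 2)/R`, and `f'/f 0 = f1'/f1 0 + (-1/ρ + conj ρ/R^2)` with
  `(conj ρ/R^2).re ≥ -1/(2R)`, `8 log 2 ≥ 1/2`.
-/

set_option autoImplicit false

open Metric Finset

namespace Pool.Agent.Lib.GMV

namespace ZLocAux

open Pool.Agent.VK

theorem order_ne_top {f : ℂ → ℂ} {R : ℝ} (hR : 0 < R)
    (hf : AnalyticOnNhd ℂ f (closedBall 0 R)) (h0 : f 0 ≠ 0) {w : ℂ}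
    (hw : w ∈ closedBall (0 : ℂ) R) : analyticOrderAt f w ≠ ⊤ := by
  have h0b : (0 : ℂ) ∈ closedBall (0 : ℂ) R := mem_closedBall_self hR.le
  refine hf.analyticOrderAt_ne_top_of_isPreconnected (convex_closedBall 0 R).isPreconnected
    h0b hw ?_
  rw [(hf 0 h0b).analyticOrderAt_eq_zero.2 h0]
  exact ENat.zero_ne_top

theorem order_step {f : ℂ → ℂ} {ρ : ℂ} {R : ℝ} (hR : 0 < R) (hρR : ‖ρ‖ < R)
    (hf : AnalyticOnNhd ℂ f (closedBall 0 R)) (h0 : f 0 ≠ 0) (hρ : f ρ = 0) {w : ℂ}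
    (hw : w ∈ closedBall (0 : ℂ) R) :
    analyticOrderNatAt f w = analyticOrderNatAt (ldF f ρ R) w + (if w = ρ then 1 else 0) := by
  have hρb : ρ ∈ closedBall (0 : ℂ) R := by
    rw [mem_closedBall_zero_iff]
    exact hρR.le
  have hR0 : (R : ℂ) ≠ 0 := by exact_mod_cast hR.ne'
  have hfun : (f * fun z : ℂ => (R : ℂ) ^ 2 - (starRingEnd ℂ) ρ * z) =
      (ldF f ρ R * fun z : ℂ => (R : ℂ) * (z - ρ)) := by
    funext z
    exact ld_identity hR hρ z
  have a1 : AnalyticAt ℂ (fun z : ℂ => (R : ℂ) ^ 2 - (starRingEnd ℂ) ρ * z) w := by fun_prop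
  have a2 : AnalyticAt ℂ (fun z : ℂ => (R : ℂ) * (z - ρ)) w := by fun_prop
  have a3 := ld_analytic hf hρb w hw
  have o1 : analyticOrderAt (fun z : ℂ => (R : ℂ) ^ 2 - (starRingEnd ℂ) ρ * z) w = 0 := by
    refine a1.analyticOrderAt_eq_zero.2 (ld_den_ne hρR ?_)
    rwa [mem_closedBall_zero_iff] at hw
  have o2 : analyticOrderAt (fun z : ℂ => (R : ℂ) * (z - ρ)) w = if w = ρ then 1 else 0 := by
    have e : (fun z : ℂ => (R : ℂ) * (z - ρ)) = (fun _ : ℂ => (R : ℂ)) * (fun z : ℂ => z - ρ) :=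
      rfl
    rw [e, analyticOrderAt_mul analyticAt_const (by fun_prop)]
    have e1 : analyticOrderAt (fun _ : ℂ => (R : ℂ)) w = 0 :=
      analyticAt_const.analyticOrderAt_eq_zero.2 hR0
    rw [e1, zero_add]
    split_ifs with h
    · rw [h]
      exact analyticOrderAt_id_sub_const_self
    · exact analyticOrderAt_id_sub_const_of_ne h
  have hmul : analyticOrderAt (f * fun z : ℂ => (R : ℂ) ^ 2 - (starRingEnd ℂ) ρ * z) w =
      analyticOrderAt (ldF f ρ R * fun z : ℂ => (R : ℂ) * (z - ρ)) w := by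
    rw [hfun]
  rw [analyticOrderAt_mul (hf w hw) a1, analyticOrderAt_mul a3 a2, o1, o2, add_zero] at hmul
  have ht := order_ne_top hR hf h0 hw
  have ht1 : analyticOrderAt (ldF f ρ R) w ≠ ⊤ := by
    intro h
    rw [h, top_add] at hmul
    exact ht hmul
  rw [← Nat.cast_analyticOrderNatAt ht, ← Nat.cast_analyticOrderNatAt ht1] at hmul
  split_ifs at hmul ⊢ with h
  · exact_mod_cast hmul
  · exact_mod_cast hmul

theorem core (S : Finset ℂ) (R : ℝ) (hR : 0 < R) (hS : ∀ ρ ∈ S, ρ ∈ closedBall (0 : ℂ) (R / 2))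
    (n : ℕ) : ∀ (f : ℂ → ℂ) (M : ℝ), 0 ≤ M →
    AnalyticOnNhd ℂ f (closedBall 0 R) → f 0 ≠ 0 →
    (∀ z ∈ closedBall (0 : ℂ) R, ‖f z‖ ≤ Real.exp M * ‖f 0‖) →
    (∀ z ∈ closedBall (0 : ℂ) R, 0 ≤ z.re → f z ≠ 0) →
    ∑ ρ ∈ S, analyticOrderNatAt f ρ = n →
    ∑ ρ ∈ S, (analyticOrderNatAt f ρ : ℝ) * (1 / (0 - ρ)).re ≤
      (deriv f 0 / f 0).re + 8 * M / R := by
  induction n with
  | zero =>
    intro f M hM hf h0 hb hz hn
    have h1 : ∀ ρ ∈ S, analyticOrderNatAt f ρ = 0 := by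
      rwa [Finset.sum_eq_zero_iff] at hn
    have h2 : ∑ ρ ∈ S, (analyticOrderNatAt f ρ : ℝ) * (1 / (0 - ρ)).re = 0 := by
      refine Finset.sum_eq_zero fun ρ hρ => ?_
      rw [h1 ρ hρ, Nat.cast_zero, zero_mul]
    rw [h2]
    have h3 := landau f 0 R M hR hM hf h0 hb (fun z hz' hre => hz z hz' (by simpa using hre))
    linarith
  | succ n ih =>
    intro f M hM hf h0 hb hz hn
    obtain ⟨ρ, hρS, hρo⟩ : ∃ ρ ∈ S, analyticOrderNatAt f ρ ≠ 0 := by
      by_contra hcon
      push Not at hcon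
      rw [Finset.sum_eq_zero hcon] at hn
      exact absurd hn (by omega)
    have hfρ : f ρ = 0 := apply_eq_zero_of_analyticOrderNatAt_ne_zero hρo
    have hρ := hS ρ hρS
    rw [mem_closedBall_zero_iff] at hρ
    have hρ0 : ρ ≠ 0 := fun h => h0 (h ▸ hfρ)
    have hρR : ‖ρ‖ < R := by linarith
    have hρb : ρ ∈ closedBall (0 : ℂ) R := by
      rw [mem_closedBall_zero_iff]
      exact hρR.le
    have h2 : 0 < ‖f 0‖ := norm_pos_iff.2 h0
    have h3 : 0 < ‖ρ‖ := norm_pos_iff.2 hρ0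
    have hn1 : ‖ldF f ρ R 0‖ = ‖f 0‖ * (R / ‖ρ‖) := by
      rw [ld_zero hR hρ0 hfρ, norm_mul, norm_neg, norm_div,
        Complex.norm_real, Real.norm_eq_abs, abs_of_pos hR]
    have h4 : 2 ≤ R / ‖ρ‖ := by
      rw [le_div_iff₀ h3]
      linarith
    have hb1 : ∀ z ∈ closedBall (0 : ℂ) R,
        ‖ldF f ρ R z‖ ≤ Real.exp (M - Real.log 2) * ‖ldF f ρ R 0‖ := by
      intro z hz
      refine (ld_bound hρR hf hfρ hb z hz).trans ?_
      rw [hn1, Real.exp_sub, Real.exp_log (by norm_num)]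
      have h5 := Real.exp_pos M
      have h6 : 0 < Real.exp M * ‖f 0‖ := mul_pos h5 h2
      calc Real.exp M * ‖f 0‖ = Real.exp M * ‖f 0‖ * 1 := by ring
        _ ≤ Real.exp M * ‖f 0‖ * ((R / ‖ρ‖) / 2) :=
            mul_le_mul_of_nonneg_left (by linarith) h6.le
        _ = _ := by ring
    have hl10 : ldF f ρ R 0 ≠ 0 := by
      rw [← norm_pos_iff, hn1]
      positivity
    have hM1 : 0 ≤ M - Real.log 2 := by
      have h5 := hb1 0 (by rw [mem_closedBall_zero_iff, norm_zero]; exact hR.le)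
      have h6 : 0 < ‖ldF f ρ R 0‖ := norm_pos_iff.2 hl10
      by_contra hcon
      have h7 : Real.exp (M - Real.log 2) < 1 := by
        rw [Real.exp_lt_one_iff]
        exact not_le.1 hcon
      nlinarith
    have hz1 : ∀ z ∈ closedBall (0 : ℂ) R, 0 ≤ z.re → ldF f ρ R z ≠ 0 := by
      intro z hzb hzre h5
      have h6 := ld_identity hR hfρ z
      rw [h5, zero_mul] at h6
      rcases mul_eq_zero.1 h6 with h7 | h7
      · exact hz z hzb hzre h7
      · rw [mem_closedBall_zero_iff] at hzb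
        exact ld_den_ne hρR hzb h7
    have hord : ∀ w ∈ S, analyticOrderNatAt f w =
        analyticOrderNatAt (ldF f ρ R) w + (if w = ρ then 1 else 0) := by
      intro w hw
      refine order_step hR hρR hf h0 hfρ ?_
      have := hS w hw
      rw [mem_closedBall_zero_iff] at this ⊢
      linarith
    have hn2 : ∑ w ∈ S, analyticOrderNatAt (ldF f ρ R) w = n := by
      have e : ∑ w ∈ S, analyticOrderNatAt f w =
          ∑ w ∈ S, analyticOrderNatAt (ldF f ρ R) w + 1 := by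
        rw [Finset.sum_congr rfl hord, Finset.sum_add_distrib]
        congr 1
        rw [Finset.sum_ite_eq' S ρ, if_pos hρS]
      omega
    have h5 := ih (ldF f ρ R) (M - Real.log 2) hM1 (ld_analytic hf hρb) hl10 hb1 hz1 hn2
    have hsum : ∑ w ∈ S, (analyticOrderNatAt f w : ℝ) * (1 / (0 - w)).re =
        ∑ w ∈ S, (analyticOrderNatAt (ldF f ρ R) w : ℝ) * (1 / (0 - w)).re +
          (1 / (0 - ρ)).re := by
      have e : ∀ w ∈ S, (analyticOrderNatAt f w : ℝ) * (1 / (0 - w)).re =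
          (analyticOrderNatAt (ldF f ρ R) w : ℝ) * (1 / (0 - w)).re +
            (if w = ρ then (1 / (0 - w)).re else 0) := by
        intro w hw
        rw [hord w hw]
        split_ifs <;> push_cast <;> ring
      rw [Finset.sum_congr rfl e, Finset.sum_add_distrib]
      congr 1
      rw [Finset.sum_ite_eq' S ρ, if_pos hρS]
    have h6 := ld_logderiv hR hρ0 hρR hf h0 hfρ
    have h7 : (1 / (0 - ρ)).re = (-1 / ρ).re := by
      congr 1
      rw [zero_sub, div_neg, neg_div]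
    have h8 : ((starRingEnd ℂ) ρ / (R : ℂ) ^ 2).re = ρ.re / R ^ 2 := by
      rw [← Complex.ofReal_pow, Complex.div_ofReal_re, Complex.conj_re]
    have h9 : -(1 / (2 * R)) ≤ ρ.re / R ^ 2 := by
      have e1 : -(R / 2) ≤ ρ.re := by
        have := (abs_le.1 (Complex.abs_re_le_norm ρ)).1
        linarith
      have e2 : -(1 / (2 * R)) = -(R / 2) / R ^ 2 := by
        field_simp
      rw [e2]
      exact div_le_div_of_nonneg_right e1 (by positivity)
    have h10 : 8 * (M - Real.log 2) / R + 1 / (2 * R) ≤ 8 * M / R := by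
      have e1 : 8 * M / R - (8 * (M - Real.log 2) / R + 1 / (2 * R)) =
          (8 * Real.log 2 - 1 / 2) / R := by
        field_simp
        ring
      have e2 : 0 ≤ (8 * Real.log 2 - 1 / 2) / R := by
        apply div_nonneg _ hR.le
        have := Real.log_two_gt_d9
        linarith
      linarith
    rw [hsum, h6, h7, Complex.add_re, Complex.add_re, h8]
    linarith

end ZLocAux

open ZLocAux Pool.Agent.VK

theorem lfz (f : ℂ → ℂ) (z0 : ℂ) (R M : ℝ) (hR : 0 < R) (hM : 0 ≤ M)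
    (hf : AnalyticOnNhd ℂ f (closedBall z0 R)) (h0 : f z0 ≠ 0)
    (hb : ∀ z ∈ closedBall z0 R, ‖f z‖ ≤ Real.exp M * ‖f z0‖)
    (hz : ∀ z ∈ closedBall z0 R, z0.re ≤ z.re → f z ≠ 0)
    (S : Finset ℂ) (hS : ∀ ρ ∈ S, ρ ∈ closedBall z0 (R / 2)) :
    ∑ ρ ∈ S, (analyticOrderNatAt f ρ : ℝ) * (1 / (z0 - ρ)).re ≤
      (deriv f z0 / f z0).re + 8 * M / R := by
  classical
  obtain ⟨hf', hd, hmem⟩ := ld_translate hf
  have hord : ∀ w : ℂ, analyticOrderNatAt (fun z => f (z + z0)) w =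
      analyticOrderNatAt f (w + z0) := by
    intro w
    have h1 : AnalyticAt ℂ (fun z : ℂ => z + z0) w := by fun_prop
    have h2 : deriv (fun z : ℂ => z + z0) w ≠ 0 := by
      rw [deriv_add_const, deriv_id'']
      exact one_ne_zero
    have h3 := analyticOrderAt_comp_of_deriv_ne_zero (f := f) h1 h2
    unfold analyticOrderNatAt
    rw [← h3]
    rfl
  have hinj : Function.Injective (fun ρ : ℂ => ρ - z0) := fun a b h => by
    simpa using h
  have h := core (S.image fun ρ => ρ - z0) R hR (fun ρ hρ => by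
      obtain ⟨σ, hσ, rfl⟩ := Finset.mem_image.1 hρ
      have := hS σ hσ
      rw [mem_closedBall, dist_eq_norm] at this
      rw [mem_closedBall_zero_iff]
      exact this) _ (fun z => f (z + z0)) M hM hf' (by simpa using h0)
    (fun z hz' => by simpa using hb (z + z0) (hmem z hz'))
    (fun z hz' hre => hz (z + z0) (hmem z hz') (by rw [Complex.add_re]; linarith)) rfl
  rw [hd, Finset.sum_image (fun a _ b _ hab => hinj hab)] at h
  simp only [zero_add, hord, sub_add_cancel] at h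
  refine le_trans (le_of_eq ?_) h
  refine Finset.sum_congr rfl fun ρ _ => ?_
  congr 3
  ring

end Pool.Agent.Lib.GMV
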