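import Pool.Agent.Lib.GMV.ZBnd
import Pool.Agent.Lib.GMV.ZLoc

/-!
# GMV.ZLan (0.8 h): logarithmic derivative of `Lf χ` and zeros

PROOF. `Lf_landau`: `lfz` with `f = Lf χ`, `z0 = s`, `R = 1/4`: the ball lies in `3/4 ≤ Re ≤ 3`, `|Im| ≤ 2 Q^30 + 2`,
  `exp M = 2 C q (2 Q^30 + 6)^2 / x^2`, `M ≤ C' (log Q + log (1/x))` (`Q ≥ 2`, `q ≤ Q^2`); `Lf_ne_zero` for `hz`.
-/

set_option autoImplicit false

open Complex Finset

namespace Pool.Agent.Lib.GMV

theorem Lf_landau : ∃ C : ℝ, 1 ≤ C ∧ ∀ (Q q : ℕ) [NeZero q] (χ : DirichletCharacter ℂ q)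
    (x t : ℝ), 2 ≤ Q → q ≤ Q ^ 2 → |t| ≤ 2 * (Q : ℝ) ^ 30 + 1 → 0 < x → x ≤ 1 / 40 →
    ∀ S : Finset ℂ, (∀ ρ ∈ S, ‖(((1 + x : ℝ) : ℂ) + t * I) - ρ‖ ≤ 1 / 8) →
      ∑ ρ ∈ S, (analyticOrderNatAt (Lf χ) ρ : ℝ) * (1 / ((((1 + x : ℝ) : ℂ) + t * I) - ρ)).re ≤
        (deriv (Lf χ) (((1 + x : ℝ) : ℂ) + t * I) / Lf χ (((1 + x : ℝ) : ℂ) + t * I)).re +
          C * (Real.log Q + Real.log (1 / x)) := by
  obtain ⟨C, hC1, hup⟩ := Lf_upper
  have hlog2 : 0 < Real.log 2 := Real.log_pos (by norm_num)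
  have hl2C : 0 ≤ Real.log (2 * C) := Real.log_nonneg (by linarith)
  refine ⟨32 * (Real.log (2 * C) / Real.log 2 + 66), ?_, ?_⟩
  · have : 0 ≤ Real.log (2 * C) / Real.log 2 := div_nonneg hl2C hlog2.le
    linarith
  intro Q q _ χ x t hQ hq ht hx hx1 S hS
  have hq1 : 1 ≤ q := Nat.one_le_iff_ne_zero.mpr (NeZero.ne q)
  have hq1' : (1 : ℝ) ≤ q := by exact_mod_cast hq1
  have hQ2 : (2 : ℝ) ≤ Q := by exact_mod_cast hQ
  have hQ0 : (0 : ℝ) < Q := by linarith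
  have hqQ : (q : ℝ) ≤ (Q : ℝ) ^ 2 := by exact_mod_cast hq
  set z0 : ℂ := ((1 + x : ℝ) : ℂ) + t * I with hz0
  have hre : z0.re = 1 + x := by simp [hz0]
  have him : z0.im = t := by simp [hz0]
  have hpow : (1 : ℝ) ≤ (Q : ℝ) ^ 30 := one_le_pow₀ (by linarith)
  obtain ⟨A, hA⟩ : ∃ A : ℝ, A = 2 * C * q * (2 * (Q : ℝ) ^ 30 + 6) ^ 2 / x ^ 2 := ⟨_, rfl⟩
  have hx2 : 0 < x ^ 2 := by positivity
  have hx21 : x ^ 2 ≤ 1 := by nlinarith
  have hnum : 1 ≤ 2 * C * q * (2 * (Q : ℝ) ^ 30 + 6) ^ 2 := by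
    have h1 : (1 : ℝ) ≤ (2 * (Q : ℝ) ^ 30 + 6) ^ 2 := by nlinarith
    have h2 : (1 : ℝ) ≤ 2 * C * q := by nlinarith
    nlinarith
  have hA1 : 1 ≤ A := by
    rw [hA, le_div_iff₀ hx2]
    linarith
  have hA0 : 0 < A := by linarith
  have hM0 : 0 ≤ Real.log A := Real.log_nonneg hA1
  have hlow := Lf_lower χ hx (by linarith) hre
  have hball : ∀ z ∈ Metric.closedBall z0 (1 / 4), 1 / 2 ≤ z.re ∧ z.re ≤ 3 ∧
      |z.im| ≤ 2 * (Q : ℝ) ^ 30 + 2 := by
    intro z hz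
    rw [Metric.mem_closedBall, dist_eq_norm] at hz
    have h1 := (Complex.abs_re_le_norm (z - z0)).trans hz
    have h2 := (Complex.abs_im_le_norm (z - z0)).trans hz
    rw [Complex.sub_re, hre, abs_le] at h1
    rw [Complex.sub_im, him, abs_le] at h2
    rw [abs_le] at ht
    refine ⟨by linarith [h1.1], by linarith [h1.2], ?_⟩
    rw [abs_le]
    constructor
    · linarith [h2.1, ht.1]
    · linarith [h2.2, ht.2]
  have key := lfz (Lf χ) z0 (1 / 4) (Real.log A) (by norm_num) hM0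
    (fun z _ => Lf_analytic χ z (Set.mem_univ _))
    (Lf_ne_zero χ (by rw [hre]; linarith))
    (by
      intro z hz
      obtain ⟨h1, h2, h3⟩ := hball z hz
      rw [Real.exp_log hA0]
      have h4 := hup q χ z h1 h2
      have h5 : (|z.im| + 4) ^ 2 ≤ (2 * (Q : ℝ) ^ 30 + 6) ^ 2 := by
        refine pow_le_pow_left₀ (by positivity) ?_ 2
        linarith
      have h6 : C * q * (|z.im| + 4) ^ 2 ≤ C * q * (2 * (Q : ℝ) ^ 30 + 6) ^ 2 :=
        mul_le_mul_of_nonneg_left h5 (by positivity)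
      refine h4.trans (h6.trans ?_)
      have h7 : C * q * (2 * (Q : ℝ) ^ 30 + 6) ^ 2 = A * (x ^ 2 / 2) := by
        rw [hA]
        field_simp
      rw [h7]
      exact mul_le_mul_of_nonneg_left hlow hA0.le)
    (by
      intro z _ hz
      refine Lf_ne_zero χ ?_
      rw [hre] at hz
      linarith)
    S (by
      intro ρ hρ
      rw [Metric.mem_closedBall, dist_eq_norm, ← norm_neg, neg_sub]
      have := hS ρ hρ
      linarith)
  refine key.trans ?_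
  have hlogA : Real.log A ≤ (Real.log (2 * C) / Real.log 2 + 66) *
      (Real.log Q + Real.log (1 / x)) := by
    have hlQ : Real.log 2 ≤ Real.log Q := Real.log_le_log (by norm_num) hQ2
    have hlx : 0 ≤ Real.log (1 / x) := Real.log_nonneg (by
      rw [le_div_iff₀ hx]; linarith)
    have hC0 : (0 : ℝ) < 2 * C := by linarith
    have hq0 : (0 : ℝ) < q := by linarith
    have hB0 : (0 : ℝ) < 2 * (Q : ℝ) ^ 30 + 6 := by linarith
    have e1 : Real.log A = Real.log (2 * C) + Real.log q + 2 * Real.log (2 * (Q : ℝ) ^ 30 + 6) +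
        2 * Real.log (1 / x) := by
      rw [hA, Real.log_div (by positivity) hx2.ne', Real.log_mul (by positivity) (by positivity),
        Real.log_mul hC0.ne' hq0.ne', Real.log_pow, Real.log_pow, one_div, Real.log_inv]
      push_cast
      ring
    have h1 : Real.log q ≤ 2 * Real.log Q := by
      have := Real.log_le_log hq0 hqQ
      rwa [Real.log_pow] at this
    have h2 : Real.log (2 * (Q : ℝ) ^ 30 + 6) ≤ 32 * Real.log Q := by
      have h3 : 2 * (Q : ℝ) ^ 30 + 6 ≤ (Q : ℝ) ^ 32 := by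
        have h4 : (2 : ℝ) ^ 30 ≤ (Q : ℝ) ^ 30 := pow_le_pow_left₀ (by norm_num) hQ2 30
        have h5 : (Q : ℝ) ^ 32 = (Q : ℝ) ^ 30 * (Q : ℝ) ^ 2 := by rw [← pow_add]
        have h6 : (4 : ℝ) ≤ (Q : ℝ) ^ 2 := by nlinarith
        rw [h5]
        have h7 : (6 : ℝ) ≤ (Q : ℝ) ^ 30 := le_trans (by norm_num) h4
        nlinarith
      have := Real.log_le_log hB0 h3
      rwa [Real.log_pow] at this
    have h8 : Real.log (2 * C) ≤ Real.log (2 * C) / Real.log 2 * Real.log Q := by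
      have : Real.log (2 * C) = Real.log (2 * C) / Real.log 2 * Real.log 2 := by
        field_simp
      calc Real.log (2 * C) = Real.log (2 * C) / Real.log 2 * Real.log 2 := this
        _ ≤ Real.log (2 * C) / Real.log 2 * Real.log Q :=
          mul_le_mul_of_nonneg_left hlQ (div_nonneg hl2C hlog2.le)
    have h9 : 0 ≤ Real.log (2 * C) / Real.log 2 := div_nonneg hl2C hlog2.le
    have h10 : 0 ≤ Real.log (2 * C) / Real.log 2 * Real.log (1 / x) := mul_nonneg h9 hlx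
    rw [e1]
    have h11 : 0 ≤ Real.log Q := hlog2.le.trans hlQ
    nlinarith
  have : 8 * Real.log A / (1 / 4) = 32 * Real.log A := by ring
  rw [this]
  nlinarith

end Pool.Agent.Lib.GMV
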