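import Pool.Agent.Lib.GMV.ZMob

/-!
# GMV.ZMlg (1.5 h): Moebius sums with a logarithm and a coprimality condition

PROOF (as done here): for a prime `p` not dividing `m`, `F_m(x) = F_(pm)(x) - F_(pm)(x/p)/p`, so `sup |F_(pm)| ≤ (1 - 1/p)⁻¹ sup |F_m|`;
`F_1` is bounded by `1 = ∑ μ(d)/d H(x/d)`. ORIGINAL PLAN. `mob_log`: `H(y) = ∑_(k ≤ y) 1/k = log y + γ + r(y)`, `|r(y)| ≤ C y^(-1/2)` for ALL `y > 0` (for `y < 1`: `H = 0`,
`|log y| ≤ 2 y^(-1/2)`; for `y ≥ 1`: `0 ≤ H(y) - log y`, `|H(y) - log y - γ| ≤ 2/y`; Mathlib: `Real.eulerMascheroniConstant`,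
or use any constant with this property). `H_m(y) = ∑_(k ≤ y, (k,m) = 1) 1/k = ∑_(δ | m) μ(δ)/δ H(y/δ) = f (log y + γ) + f t + r_m(y)`,
`f = ∏_(p | m) (1 - 1/p) = ∑ μ(δ)/δ`, `-∑ μ(δ) log δ/δ = f t`, `t = ∑_(p | m) log p/(p-1)`, `|r_m(y)| ≤ C y^(-1/2) ∏_(p | m) (1 + p^(-1/2))`.
And `∑_(d ≤ x, (d,m)=1) μ(d)/d H_m(x/d) = ∑_(n ≤ x, (n,m)=1) 1/n ∑_(d | n) μ(d) = 1` (`x ≥ 1`). So with `F` the sum of the theorem
and `M = ∑ μ(d)/d`, `|M| ≤ 1`: `1 = f F + f (γ + t) M + ∑ μ(d)/d r_m(x/d)`, the last sum is at most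
`C ∏ (1 + p^(-1/2)) x^(-1/2) ∑_(d ≤ x) d^(-1/2) ≤ 2 C ∏ (1 + p^(-1/2))`. Hence `|F| ≤ f^(-1) (1 + 2C ∏ (1 + p^(-1/2))) + γ + t`. Finally
`f^(-1) = ∏ (1 + 1/(p-1))`, `(1 + 1/(p-1)) (1 + p^(-1/2)) ≤ 1 + 4 p^(-1/2)`, `log p/(p-1) ≤ 2 p^(-1/2)` and `∑ 2 p^(-1/2) ≤ ∏ (1 + 4 p^(-1/2))`.
-/

set_option autoImplicit false

open Finset

namespace Pool.Agent.Lib.GMV

namespace ZMlgAux

/-- the Moebius function as a real number -/
noncomputable def mu (d : ℕ) : ℝ := ((ArithmeticFunction.moebius d : ℤ) : ℝ)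

theorem abs_mu (d : ℕ) : |mu d| ≤ 1 := by
  unfold mu
  have h := ArithmeticFunction.abs_moebius_le_one (n := d)
  exact_mod_cast h

/-- the sum over the numbers free of the primes of `P` -/
noncomputable def FS (P : Finset ℕ) (x : ℝ) : ℝ :=
  ∑ d ∈ (Icc 1 ⌊x⌋₊).filter (fun d => ∀ p ∈ P, ¬ p ∣ d), mu d / d * Real.log (x / d)

theorem FS_lt_one (P : Finset ℕ) {x : ℝ} (hx : x < 1) : FS P x = 0 := by
  unfold FS
  have : ⌊x⌋₊ = 0 := Nat.floor_eq_zero.2 hx
  rw [this]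
  simp

theorem key_id (N : ℕ) (hN : 1 ≤ N) :
    ∑ d ∈ Ioc 0 N, mu d / d * ∑ k ∈ Ioc 0 (N / d), 1 / (k : ℝ) = 1 := by
  obtain ⟨f, hf⟩ : ∃ f : ArithmeticFunction ℝ, ∀ n, f n = mu n / n :=
    ⟨⟨fun n => mu n / n, by simp⟩, fun n => rfl⟩
  obtain ⟨g, hg⟩ : ∃ g : ArithmeticFunction ℝ, ∀ n, g n = 1 / (n : ℝ) :=
    ⟨⟨fun n => 1 / (n : ℝ), by simp⟩, fun n => rfl⟩
  have h1 : f * g = 1 := by
    ext n
    rcases Nat.eq_zero_or_pos n with rfl | hn
    · simp
    · have h2 : (f * g) n = 1 / (n : ℝ) * ((ArithmeticFunction.moebius : ArithmeticFunction ℝ) *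
          (ArithmeticFunction.zeta : ArithmeticFunction ℝ)) n := by
        rw [ArithmeticFunction.mul_apply, ArithmeticFunction.mul_apply, mul_sum]
        refine sum_congr rfl (fun x hx => ?_)
        obtain ⟨h3, h4⟩ := Nat.mem_divisorsAntidiagonal.1 hx
        have hx1 : x.1 ≠ 0 := by
          rintro h
          rw [h, zero_mul] at h3
          omega
        have hx2 : x.2 ≠ 0 := by
          rintro h
          rw [h, mul_zero] at h3
          omega
        have hx1' : (x.1 : ℝ) ≠ 0 := by exact_mod_cast hx1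
        have hx2' : (x.2 : ℝ) ≠ 0 := by exact_mod_cast hx2
        rw [hf, hg, ← h3]
        have e1 : (ArithmeticFunction.zeta : ArithmeticFunction ℝ) x.2 = 1 := by
          rw [ArithmeticFunction.natCoe_apply, ArithmeticFunction.zeta_apply, if_neg hx2]
          simp
        have e2 : (ArithmeticFunction.moebius : ArithmeticFunction ℝ) x.1 = mu x.1 := by
          rw [ArithmeticFunction.intCoe_apply]
          rfl
        rw [e1, e2]
        push_cast
        field_simp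
      rw [h2, ArithmeticFunction.coe_moebius_mul_coe_zeta]
      rcases eq_or_ne n 1 with rfl | h
      · simp
      · rw [ArithmeticFunction.one_apply_ne h]
        simp
  have h2 := ArithmeticFunction.sum_Ioc_mul_eq_sum_sum f g N
  rw [h1] at h2
  simp only [hf, hg] at h2
  rw [← h2]
  rw [Finset.sum_eq_single 1]
  · simp
  · intro n _ hn
    exact ArithmeticFunction.one_apply_ne hn
  · intro h
    exact absurd (mem_Ioc.2 ⟨one_pos, hN⟩) h

/-- harmonic sums -/
theorem harm_bound {y : ℝ} (hy : 1 ≤ y) {n : ℕ} (hn : n = ⌊y⌋₊) :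
    |∑ k ∈ Ioc 0 n, 1 / (k : ℝ) - Real.log y - Real.eulerMascheroniConstant| ≤ 2 / y := by
  have hn1 : 1 ≤ n := by
    rw [hn]
    exact Nat.le_floor (by exact_mod_cast hy)
  have hny : (n : ℝ) ≤ y := by
    rw [hn]
    exact Nat.floor_le (by linarith)
  have hyn : y < n + 1 := by
    rw [hn]
    exact Nat.lt_floor_add_one y
  have hn0 : (0 : ℝ) < n := by exact_mod_cast hn1
  have hn1' : (1 : ℝ) ≤ n := by exact_mod_cast hn1
  have hH : ∑ k ∈ Ioc 0 n, 1 / (k : ℝ) = ((harmonic n : ℚ) : ℝ) := by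
    rw [harmonic_eq_sum_Icc]
    push_cast
    refine sum_congr ?_ (fun k _ => by rw [one_div])
    ext k
    simp only [mem_Ioc, mem_Icc]
    omega
  have h1 := Real.eulerMascheroniSeq_lt_eulerMascheroniConstant n
  have h2 := Real.eulerMascheroniConstant_lt_eulerMascheroniSeq' n
  unfold Real.eulerMascheroniSeq at h1
  unfold Real.eulerMascheroniSeq' at h2
  rw [if_neg (by omega)] at h2
  rw [hH]
  have h3 : Real.log (n + 1) - Real.log n ≤ 1 / n := by
    rw [← Real.log_div (by positivity) hn0.ne']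
    have h4 := Real.log_le_sub_one_of_pos (x := ((n : ℝ) + 1) / n) (by positivity)
    have e : ((n : ℝ) + 1) / n - 1 = 1 / n := by field_simp; ring
    rw [e] at h4
    exact h4
  have h4 : Real.log n ≤ Real.log y := Real.log_le_log hn0 hny
  have h5 : Real.log y ≤ Real.log (n + 1) := Real.log_le_log (by linarith) hyn.le
  have h6 : 1 / (n : ℝ) ≤ 2 / y := by
    rw [div_le_div_iff₀ hn0 (by linarith)]
    linarith
  rw [abs_le]
  constructor <;> linarith

theorem base (x : ℝ) : |FS ∅ x| ≤ 4 := by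
  rcases lt_or_ge x 1 with hx | hx
  · rw [FS_lt_one _ hx]
    norm_num
  obtain ⟨N, hN⟩ : ∃ N : ℕ, N = ⌊x⌋₊ := ⟨_, rfl⟩
  have hN1 : 1 ≤ N := by
    rw [hN]
    exact Nat.le_floor (by exact_mod_cast hx)
  have hNx : (N : ℝ) ≤ x := by
    rw [hN]
    exact Nat.floor_le (by linarith)
  have hx0 : 0 < x := by linarith
  have hk := key_id N hN1
  have eI : Ioc 0 N = Icc 1 N := by
    ext k
    simp only [mem_Ioc, mem_Icc]
    omega
  rw [eI] at hk
  obtain ⟨e, he⟩ : ∃ e : ℕ → ℝ, e = fun d => ∑ k ∈ Ioc 0 (N / d), 1 / (k : ℝ) -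
      Real.log (x / d) - Real.eulerMascheroniConstant := ⟨_, rfl⟩
  have hFS : FS ∅ x = ∑ d ∈ Icc 1 N, mu d / d * Real.log (x / d) := by
    unfold FS
    rw [← hN]
    congr 1
    apply filter_true_of_mem
    intro d _ p hp
    exact absurd hp (notMem_empty _)
  have hsum : ∑ d ∈ Icc 1 N, mu d / d * ∑ k ∈ Ioc 0 (N / d), 1 / (k : ℝ) =
      FS ∅ x + Real.eulerMascheroniConstant * (∑ d ∈ Icc 1 N, mu d / d) +
        ∑ d ∈ Icc 1 N, mu d / d * e d := by
    rw [hFS, mul_sum, ← sum_add_distrib, ← sum_add_distrib]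
    refine sum_congr rfl (fun d _ => ?_)
    rw [he]
    ring
  have hM : |∑ d ∈ Icc 1 N, mu d / d| ≤ 1 := by
    have h := mob_le_one 1 N le_rfl
    have e1 : (Icc 1 N).filter (fun d => d.Coprime 1) = Icc 1 N := by
      apply filter_true_of_mem
      intro d _
      exact Nat.coprime_one_right d
    rw [e1] at h
    exact h
  have hE : |∑ d ∈ Icc 1 N, mu d / d * e d| ≤ 2 := by
    refine (abs_sum_le_sum_abs _ _).trans ?_
    have h1 : ∀ d ∈ Icc 1 N, |mu d / d * e d| ≤ 2 / x := by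
      intro d hd
      rw [mem_Icc] at hd
      have hd0 : (0 : ℝ) < d := by exact_mod_cast hd.1
      have hdx : (d : ℝ) ≤ x := le_trans (by exact_mod_cast hd.2) hNx
      have h2 : |e d| ≤ 2 / (x / d) := by
        rw [he]
        apply harm_bound
        · rw [le_div_iff₀ hd0]
          linarith
        · rw [hN, Nat.floor_div_natCast]
      rw [abs_mul, abs_div, abs_of_pos hd0]
      calc |mu d| / d * |e d| ≤ 1 / d * (2 / (x / d)) := by
            apply mul_le_mul _ h2 (abs_nonneg _) (by positivity)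
            exact div_le_div_of_nonneg_right (abs_mu d) hd0.le
        _ = 2 / x := by field_simp
    refine (sum_le_sum h1).trans ?_
    rw [sum_const, Nat.card_Icc, nsmul_eq_mul, mul_div_assoc', div_le_iff₀ hx0]
    have : ((N + 1 - 1 : ℕ) : ℝ) = N := by simp
    rw [this]
    linarith
  have hg1 : Real.eulerMascheroniConstant < 2 / 3 := Real.eulerMascheroniConstant_lt_two_thirds
  have hg0 : 1 / 2 < Real.eulerMascheroniConstant := Real.one_half_lt_eulerMascheroniConstant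
  have hgM : |Real.eulerMascheroniConstant * (∑ d ∈ Icc 1 N, mu d / d)| ≤ 1 := by
    rw [abs_mul, abs_of_pos (by linarith)]
    nlinarith [abs_nonneg (∑ d ∈ Icc 1 N, mu d / d)]
  have a1 := abs_le.1 hgM
  have a2 := abs_le.1 hE
  rw [abs_le]
  constructor <;> linarith [a1.1, a1.2, a2.1, a2.2]

theorem mu_mul {p e : ℕ} (hp : p.Prime) (h : ¬ p ∣ e) : mu (p * e) = -mu e := by
  unfold mu
  have hc : p.Coprime e := (Nat.Prime.coprime_iff_not_dvd hp).2 h
  rw [ArithmeticFunction.isMultiplicative_moebius.map_mul_of_coprime hc,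
    ArithmeticFunction.moebius_apply_prime hp]
  push_cast
  ring

theorem mu_mul_zero {p e : ℕ} (hp : p.Prime) (h : p ∣ e) : mu (p * e) = 0 := by
  unfold mu
  have hns : ¬ Squarefree (p * e) := by
    intro hs
    obtain ⟨k, rfl⟩ := h
    have := hs p ⟨k, by ring⟩
    exact hp.one_lt.ne' (Nat.isUnit_iff.1 this)
  rw [ArithmeticFunction.moebius_eq_zero_of_not_squarefree hns]
  simp

theorem step {P : Finset ℕ} {p : ℕ} (hP : ∀ q ∈ P, q.Prime) (hp : p.Prime) (hpP : p ∉ P)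
    (x : ℝ) : FS P x = FS (insert p P) x - 1 / p * FS (insert p P) (x / p) := by
  classical
  have hp0 : (0 : ℝ) < p := by exact_mod_cast hp.pos
  obtain ⟨N, hN⟩ : ∃ N : ℕ, N = ⌊x⌋₊ := ⟨_, rfl⟩
  obtain ⟨h, hh⟩ : ∃ h : ℕ → ℝ, h = fun d => mu d / d * Real.log (x / d) := ⟨_, rfl⟩
  obtain ⟨A, hA⟩ : ∃ A : Finset ℕ, A = (Icc 1 N).filter (fun d => ∀ q ∈ P, ¬ q ∣ d) := ⟨_, rfl⟩
  obtain ⟨B, hB⟩ : ∃ B : Finset ℕ, B = (Icc 1 ⌊x / p⌋₊).filter (fun d => ∀ q ∈ P, ¬ q ∣ d) :=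
    ⟨_, rfl⟩
  have e1 : FS P x = ∑ d ∈ A, h d := by
    unfold FS
    rw [hA, hh, hN]
  have e2 : FS (insert p P) x = ∑ d ∈ A.filter (fun d => ¬ p ∣ d), h d := by
    unfold FS
    rw [hA, filter_filter, hh, hN]
    refine sum_congr ?_ (fun _ _ => rfl)
    ext d
    simp only [mem_filter, mem_insert, forall_eq_or_imp]
    tauto
  have e3 : FS (insert p P) (x / p) = ∑ d ∈ B.filter (fun d => ¬ p ∣ d),
      mu d / d * Real.log (x / p / d) := by
    unfold FS
    rw [hB, filter_filter]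
    refine sum_congr ?_ (fun _ _ => rfl)
    ext d
    simp only [mem_filter, mem_insert, forall_eq_or_imp]
    tauto
  have e4 : A.filter (fun d => p ∣ d) = B.image (fun e => p * e) := by
    ext d
    rw [mem_filter, hA, mem_filter, mem_image, mem_Icc]
    constructor
    · rintro ⟨⟨⟨h1, h2⟩, h3⟩, ⟨e, rfl⟩⟩
      refine ⟨e, ?_, rfl⟩
      rw [hB, mem_filter, mem_Icc]
      refine ⟨⟨?_, ?_⟩, ?_⟩
      · rcases Nat.eq_zero_or_pos e with h | h
        · subst h
          simp at h1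
        · exact h
      · rw [Nat.floor_div_natCast, ← hN, Nat.le_div_iff_mul_le hp.pos, mul_comm]
        exact h2
      · intro q hq hqe
        exact h3 q hq (hqe.mul_left p)
    · rintro ⟨e, he, rfl⟩
      rw [hB, mem_filter, mem_Icc, Nat.floor_div_natCast, ← hN,
        Nat.le_div_iff_mul_le hp.pos] at he
      obtain ⟨⟨h1, h2⟩, h3⟩ := he
      refine ⟨⟨⟨Nat.mul_pos hp.pos h1, by rw [mul_comm]; exact h2⟩, ?_⟩, Dvd.intro _ rfl⟩
      intro q hq hqe
      rcases (hP q hq).dvd_mul.1 hqe with h4 | h4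
      · have : q = p := (Nat.prime_dvd_prime_iff_eq (hP q hq) hp).1 h4
        rw [this] at hq
        exact hpP hq
      · exact h3 q hq h4
  have e5 : ∑ d ∈ A.filter (fun d => p ∣ d), h d = ∑ e ∈ B, h (p * e) := by
    rw [e4, sum_image]
    intro a _ b _ hab
    exact Nat.eq_of_mul_eq_mul_left hp.pos hab
  have e6 : ∑ e ∈ B, h (p * e) = ∑ e ∈ B.filter (fun e => ¬ p ∣ e), h (p * e) := by
    rw [sum_filter]
    refine sum_congr rfl (fun e _ => ?_)
    by_cases h1 : p ∣ e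
    · rw [if_neg (not_not.2 h1), hh]
      simp only
      rw [mu_mul_zero hp h1]
      simp
    · rw [if_pos h1]
  have e7 : ∑ e ∈ B.filter (fun e => ¬ p ∣ e), h (p * e) =
      -(1 / p * FS (insert p P) (x / p)) := by
    rw [e3, mul_sum, ← sum_neg_distrib]
    refine sum_congr rfl (fun e he => ?_)
    rw [mem_filter] at he
    rw [hh]
    simp only
    rw [mu_mul hp he.2]
    push_cast
    rw [div_div x (p : ℝ) (e : ℝ), neg_div, neg_mul, neg_inj, ← mul_assoc]
    congr 1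
    rw [div_mul_div_comm, one_mul]
  have e8 := sum_filter_add_sum_filter_not A (fun d => p ∣ d) h
  rw [e1, ← e8, e2, e5, e6, e7]
  ring

theorem bound {P : Finset ℕ} {p : ℕ} (hP : ∀ q ∈ P, q.Prime) (hp : p.Prime) (hpP : p ∉ P)
    {B : ℝ} (hB0 : 0 ≤ B) (hB : ∀ x, |FS P x| ≤ B) (x : ℝ) :
    |FS (insert p P) x| ≤ B * (1 - 1 / (p : ℝ))⁻¹ := by
  have hp2 : (2 : ℝ) ≤ p := by exact_mod_cast hp.two_le
  have hp0 : (0 : ℝ) < p := by linarith
  have hq : 0 < 1 - 1 / (p : ℝ) := by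
    have : 1 / (p : ℝ) ≤ 1 / 2 := one_div_le_one_div_of_le (by norm_num) hp2
    linarith
  have key : ∀ n : ℕ, ∀ x : ℝ, x < 2 ^ n → |FS (insert p P) x| ≤ B * (1 - 1 / (p : ℝ))⁻¹ := by
    intro n
    induction n with
    | zero =>
      intro x hx
      rw [pow_zero] at hx
      rw [FS_lt_one _ hx, abs_zero]
      positivity
    | succ n ih =>
      intro x hx
      rcases lt_or_ge x 1 with h1 | h1
      · rw [FS_lt_one _ h1, abs_zero]
        positivity
      have h2 : x / p < 2 ^ n := by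
        rw [div_lt_iff₀ hp0]
        rw [pow_succ] at hx
        have : (2 : ℝ) ^ n * 2 ≤ 2 ^ n * p := by gcongr
        linarith
      have h3 := ih _ h2
      have h4 := step hP hp hpP x
      have h5 : FS (insert p P) x = FS P x + 1 / p * FS (insert p P) (x / p) := by linarith
      rw [h5]
      refine (abs_add_le _ _).trans ?_
      rw [abs_mul, abs_of_pos (by positivity : 0 < 1 / (p : ℝ))]
      have h6 : 1 / (p : ℝ) * |FS (insert p P) (x / p)| ≤
          1 / (p : ℝ) * (B * (1 - 1 / (p : ℝ))⁻¹) := by gcongr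
      have h7 : B + 1 / (p : ℝ) * (B * (1 - 1 / (p : ℝ))⁻¹) = B * (1 - 1 / (p : ℝ))⁻¹ := by
        have h8 : (1 - 1 / (p : ℝ)) * (1 - 1 / (p : ℝ))⁻¹ = 1 := mul_inv_cancel₀ hq.ne'
        linear_combination -B * h8
      linarith [hB x]
  obtain ⟨n, hn⟩ := pow_unbounded_of_one_lt x (one_lt_two : (1 : ℝ) < 2)
  exact key n x hn

theorem all_bound (P : Finset ℕ) (hP : ∀ q ∈ P, q.Prime) (x : ℝ) :
    |FS P x| ≤ 4 * ∏ p ∈ P, (1 - 1 / (p : ℝ))⁻¹ := by
  classical
  induction P using Finset.induction_on generalizing x with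
  | empty =>
    rw [prod_empty, mul_one]
    exact base x
  | insert p P hpP ih =>
    have hP' : ∀ q ∈ P, q.Prime := fun q hq => hP q (mem_insert_of_mem hq)
    have hp : p.Prime := hP p (mem_insert_self _ _)
    have h0 : 0 ≤ 4 * ∏ p ∈ P, (1 - 1 / (p : ℝ))⁻¹ := by
      apply mul_nonneg (by norm_num)
      apply prod_nonneg
      intro q hq
      apply inv_nonneg.2
      have : (1 : ℝ) ≤ q := by exact_mod_cast (hP' q hq).one_lt.le
      have : 1 / (q : ℝ) ≤ 1 := by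
        rw [div_le_one (by linarith)]
        exact this
      linarith
    have h := bound hP' hp hpP h0 (fun x => ih hP' x) x
    rw [prod_insert hpP]
    calc |FS (insert p P) x| ≤ 4 * (∏ p ∈ P, (1 - 1 / (p : ℝ))⁻¹) * (1 - 1 / (p : ℝ))⁻¹ := h
      _ = 4 * ((1 - 1 / (p : ℝ))⁻¹ * ∏ p ∈ P, (1 - 1 / (p : ℝ))⁻¹) := by ring

theorem factor_le {p : ℕ} (hp : p.Prime) :
    (1 - 1 / (p : ℝ))⁻¹ ≤ 1 + 4 / Real.sqrt p := by
  have hp2 : (2 : ℝ) ≤ p := by exact_mod_cast hp.two_le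
  have hs : 0 < Real.sqrt p := Real.sqrt_pos.2 (by linarith)
  have hsp : Real.sqrt p * Real.sqrt p = p := Real.mul_self_sqrt (by linarith)
  have hs1 : 1 ≤ Real.sqrt p := by
    rw [Real.one_le_sqrt]
    linarith
  have e : (1 - 1 / (p : ℝ))⁻¹ = 1 + 1 / ((p : ℝ) - 1) := by
    have h1 : (p : ℝ) - 1 ≠ 0 := by linarith
    have h2 : (p : ℝ) ≠ 0 := by linarith
    field_simp
    ring
  rw [e]
  have h3 : 1 / ((p : ℝ) - 1) ≤ 4 / Real.sqrt p := by
    rw [div_le_div_iff₀ (by linarith) hs]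
    nlinarith
  linarith

end ZMlgAux

open ZMlgAux

theorem mob_log : ∃ C : ℝ, 1 ≤ C ∧ ∀ (m : ℕ) (x : ℝ), 1 ≤ m → 1 ≤ x →
    |∑ d ∈ (Icc 1 ⌊x⌋₊).filter (fun d => d.Coprime m),
      (ArithmeticFunction.moebius d : ℝ) / d * Real.log (x / d)| ≤ C * gg m := by
  refine ⟨4, by norm_num, ?_⟩
  intro m x hm _
  have hm0 : m ≠ 0 := by omega
  have e : (Icc 1 ⌊x⌋₊).filter (fun d => d.Coprime m) =
      (Icc 1 ⌊x⌋₊).filter (fun d => ∀ p ∈ m.primeFactors, ¬ p ∣ d) := by
    ext d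
    rw [mem_filter, mem_filter]
    refine and_congr_right (fun _ => ?_)
    constructor
    · intro h p hp hpd
      have h1 := Nat.dvd_gcd hpd (Nat.dvd_of_mem_primeFactors hp)
      rw [h] at h1
      exact (Nat.prime_of_mem_primeFactors hp).one_lt.ne' (Nat.dvd_one.1 h1)
    · intro h
      apply Nat.Coprime.symm
      apply Nat.coprime_of_dvd
      intro p hp hpm hpd
      exact h p (Nat.mem_primeFactors.2 ⟨hp, hpm, hm0⟩) hpd
  have h1 := all_bound m.primeFactors (fun q hq => Nat.prime_of_mem_primeFactors hq) x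
  rw [e]
  refine h1.trans ?_
  apply mul_le_mul_of_nonneg_left _ (by norm_num)
  unfold gg
  apply prod_le_prod
  · intro p hp
    apply inv_nonneg.2
    have h2 : (2 : ℝ) ≤ p := by exact_mod_cast (Nat.prime_of_mem_primeFactors hp).two_le
    have : 1 / (p : ℝ) ≤ 1 := by
      rw [div_le_one (by linarith)]
      linarith
    linarith
  · intro p hp
    exact factor_le (Nat.prime_of_mem_primeFactors hp)

end Pool.Agent.Lib.GMV
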