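import Mathlib

/-!
# GMV.ZMob (1 h): Moebius sums with a coprimality condition

PROOF. `one_le_gg`: factors `≥ 1`. `mob_le_one`: let `A` be the set of `k ≤ N` all of whose prime factors divide `m` (`1 ∈ A`). For every `k`,
`∑_(d | k, (d,m) = 1) μ(d) = [k ∈ A]` (it is the sum over the divisors of the part of `k` prime to `m`). Sum over `k ≤ N`:
`∑_(d ≤ N, (d,m)=1) μ(d) ⌊N/d⌋ = |A|`. So `N ∑ μ(d)/d = |A| + ∑_(d) μ(d) {N/d}`, the term `d = 1` of the last sum is `0`, the others
are `≤ 1` in absolute value and belong to `1 < d ≤ N`, `(d,m) = 1`; the elements `k > 1` of `A` are not prime to `m`, so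
`|A| + #{1 < d ≤ N : (d,m) = 1} ≤ N`. (`N = 0` trivial.)
-/

set_option autoImplicit false

open Finset

namespace Pool.Agent.Lib.GMV

/-- `∏ (1 + 4/√p)` over the primes dividing `m` -/
noncomputable def gg (m : ℕ) : ℝ := ∏ p ∈ m.primeFactors, (1 + 4 / Real.sqrt p)

theorem one_le_gg (m : ℕ) : 1 ≤ gg m := by
  unfold gg
  have h1 : ∏ p ∈ m.primeFactors, (1:ℝ) ≤ ∏ p ∈ m.primeFactors, (1 + 4 / Real.sqrt p) := by
    refine Finset.prod_le_prod (fun _ _ => zero_le_one) fun p _ => ?_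
    have : 0 ≤ 4 / Real.sqrt p := by positivity
    linarith
  simpa using h1

namespace ZMobAux

/-- the Moebius function on the integers prime to `m` -/
noncomputable def ff (m : ℕ) : ArithmeticFunction ℝ :=
  ⟨fun d => if d.Coprime m then (ArithmeticFunction.moebius d : ℝ) else 0, by simp⟩

theorem ff_apply (m d : ℕ) :
    ff m d = if d.Coprime m then (ArithmeticFunction.moebius d : ℝ) else 0 := rfl

theorem ff_mul (m : ℕ) : (ff m).IsMultiplicative := by
  refine ⟨by simp [ff_apply], fun {a b} hab => ?_⟩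
  simp only [ff_apply, Nat.coprime_mul_iff_left]
  rw [ArithmeticFunction.isMultiplicative_moebius.map_mul_of_coprime hab]
  by_cases h1 : a.Coprime m
  · by_cases h2 : b.Coprime m
    · rw [if_pos h1, if_pos h2, if_pos ⟨h1, h2⟩]; push_cast; ring
    · rw [if_neg h2, if_neg (fun h => h2 h.2), mul_zero]
  · rw [if_neg h1, if_neg (fun h => h1 h.1), zero_mul]

theorem conv_mul (m : ℕ) :
    (ff m * (ArithmeticFunction.zeta : ArithmeticFunction ℕ)).IsMultiplicative :=
  (ff_mul m).mul ArithmeticFunction.isMultiplicative_zeta.natCast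

theorem conv_prime_pow (m : ℕ) {p k : ℕ} (hp : p.Prime) (hk : k ≠ 0) :
    (ff m * (ArithmeticFunction.zeta : ArithmeticFunction ℕ)) (p ^ k) =
      if p ∣ m then 1 else 0 := by
  rw [ArithmeticFunction.coe_mul_zeta_apply, Nat.sum_divisors_prime_pow hp]
  obtain ⟨j, rfl⟩ := Nat.exists_eq_succ_of_ne_zero hk
  rw [Finset.sum_range_succ', Finset.sum_range_succ']
  have h0 : ∑ i ∈ range j, ff m (p ^ (i + 1 + 1)) = 0 := by
    refine Finset.sum_eq_zero fun i _ => ?_
    rw [ff_apply, ArithmeticFunction.moebius_apply_prime_pow hp (by omega)]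
    simp
  rw [h0]
  simp only [zero_add, pow_one, pow_zero, ff_apply, ArithmeticFunction.moebius_apply_prime hp,
    Nat.coprime_one_left_eq_true, ArithmeticFunction.moebius_apply_one]
  by_cases h : p ∣ m
  · have h' : ¬ p.Coprime m := fun hc => (hp.coprime_iff_not_dvd.1 hc) h
    rw [if_neg h', if_pos h]; simp
  · have h' : p.Coprime m := hp.coprime_iff_not_dvd.2 h
    rw [if_pos h', if_neg h]; simp

theorem conv_apply (m : ℕ) {k : ℕ} (hk : k ≠ 0) :
    (ff m * (ArithmeticFunction.zeta : ArithmeticFunction ℕ)) k =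
      if ∀ p ∈ k.primeFactors, p ∣ m then 1 else 0 := by
  rw [(conv_mul m).multiplicative_factorization _ hk, Finsupp.prod, Nat.support_factorization]
  rw [Finset.prod_congr rfl (g := fun p => if p ∣ m then (1:ℝ) else 0)]
  · rw [Finset.prod_ite_zero]; simp
  · intro p hp
    have hp' := Nat.prime_of_mem_primeFactors hp
    refine conv_prime_pow m hp' ?_
    exact (hp'.factorization_pos_of_dvd hk (Nat.dvd_of_mem_primeFactors hp)).ne'

theorem card_sum (m N : ℕ) :
    ∑ d ∈ Ioc 0 N, ff m d * ((N / d : ℕ) : ℝ) =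
      (((Ioc 0 N).filter fun k => ∀ p ∈ k.primeFactors, p ∣ m).card : ℝ) := by
  rw [← ArithmeticFunction.sum_Ioc_mul_zeta_eq_sum, Finset.card_filter]
  push_cast
  refine Finset.sum_congr rfl fun k hk => ?_
  rw [conv_apply m (by have := (mem_Ioc.1 hk).1; omega)]

theorem cards_le (m N : ℕ) :
    ((Ioc 0 N).filter fun k => ∀ p ∈ k.primeFactors, p ∣ m).card +
      ((Ioc 1 N).filter fun d => d.Coprime m).card ≤ N := by
  rw [← Finset.card_union_of_disjoint]
  · calc _ ≤ (Ioc 0 N).card := Finset.card_le_card ?_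
      _ = N := by simp
    intro x hx
    simp only [mem_union, mem_filter, mem_Ioc] at hx ⊢
    omega
  · rw [Finset.disjoint_left]
    intro k hk hk'
    simp only [mem_filter, mem_Ioc] at hk hk'
    obtain ⟨p, hp, hpk⟩ := Nat.exists_prime_and_dvd (n := k) (by omega)
    have hpm := hk.2 p (Nat.mem_primeFactors.2 ⟨hp, hpk, by omega⟩)
    exact (hp.coprime_iff_not_dvd.1 (Nat.Coprime.coprime_dvd_left hpk hk'.2)) hpm

theorem abs_ff_le (m d : ℕ) : |ff m d| ≤ if d.Coprime m then 1 else 0 := by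
  rw [ff_apply]
  by_cases h : d.Coprime m
  · rw [if_pos h, if_pos h]
    exact_mod_cast ArithmeticFunction.abs_moebius_le_one
  · rw [if_neg h, if_neg h]; simp

end ZMobAux

open ZMobAux in
theorem mob_le_one (m N : ℕ) (hm : 1 ≤ m) :
    |∑ d ∈ (Icc 1 N).filter (fun d => d.Coprime m),
      (ArithmeticFunction.moebius d : ℝ) / d| ≤ 1 := by
  rcases Nat.eq_zero_or_pos N with rfl | hN
  · simp
  have hNr : (0:ℝ) < N := by exact_mod_cast hN
  have hI : Icc 1 N = Ioc 0 N := by
    ext x; simp only [mem_Icc, mem_Ioc]; omega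
  have e1 : ∑ d ∈ (Icc 1 N).filter (fun d => d.Coprime m),
      (ArithmeticFunction.moebius d : ℝ) / d = ∑ d ∈ Ioc 0 N, ff m d / d := by
    rw [hI, Finset.sum_filter]
    refine Finset.sum_congr rfl fun d _ => ?_
    rw [ff_apply]
    split_ifs <;> simp
  rw [e1]
  have e2 : (N : ℝ) * ∑ d ∈ Ioc 0 N, ff m d / d =
      ∑ d ∈ Ioc 0 N, ff m d * ((N / d : ℕ) : ℝ) +
        ∑ d ∈ Ioc 0 N, ff m d * ((N : ℝ) / d - ((N / d : ℕ) : ℝ)) := by
    rw [← Finset.sum_add_distrib, Finset.mul_sum]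
    refine Finset.sum_congr rfl fun d _ => ?_
    ring
  have e3 : |∑ d ∈ Ioc 0 N, ff m d * ((N : ℝ) / d - ((N / d : ℕ) : ℝ))| ≤
      (((Ioc 1 N).filter fun d => d.Coprime m).card : ℝ) := by
    have hsplit : Ioc 0 N = insert 1 (Ioc 1 N) := by
      ext x; simp only [mem_insert, mem_Ioc]; omega
    rw [hsplit, Finset.sum_insert (by simp)]
    have h1 : ff m 1 * ((N : ℝ) / (1:ℕ) - ((N / 1 : ℕ) : ℝ)) = 0 := by simp
    rw [h1, zero_add, Finset.card_filter]
    push_cast
    refine (Finset.abs_sum_le_sum_abs _ _).trans (Finset.sum_le_sum fun d hd => ?_)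
    have hd0 : 0 < d := by have := (mem_Ioc.1 hd).1; omega
    have hdr : (0:ℝ) < d := by exact_mod_cast hd0
    rw [abs_mul]
    have ha : ((N / d : ℕ) : ℝ) ≤ (N : ℝ) / d := Nat.cast_div_le
    have hb : (N : ℝ) / d ≤ ((N / d : ℕ) : ℝ) + 1 := by
      rw [div_le_iff₀ hdr]
      have := Nat.lt_div_mul_add (a := N) hd0
      have h3 : (N : ℝ) ≤ (N / d : ℕ) * d + d := by exact_mod_cast this.le
      linarith
    have hc : |(N : ℝ) / d - ((N / d : ℕ) : ℝ)| ≤ 1 := by
      rw [abs_le]; constructor <;> linarith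
    calc |ff m d| * |(N : ℝ) / d - ((N / d : ℕ) : ℝ)| ≤ (if d.Coprime m then 1 else 0) * 1 :=
          mul_le_mul (abs_ff_le m d) hc (abs_nonneg _) (by split_ifs <;> norm_num)
      _ = _ := by split_ifs <;> simp
  have hcard := cards_le m N
  have hcard' : ((((Ioc 0 N).filter fun k => ∀ p ∈ k.primeFactors, p ∣ m).card : ℝ)) +
      (((Ioc 1 N).filter fun d => d.Coprime m).card : ℝ) ≤ N := by exact_mod_cast hcard
  have hfin : |(N : ℝ) * ∑ d ∈ Ioc 0 N, ff m d / d| ≤ N := by
    rw [e2, card_sum]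
    refine (abs_add_le _ _).trans ?_
    rw [abs_of_nonneg (Nat.cast_nonneg _)]
    linarith
  rw [abs_mul, abs_of_pos hNr] at hfin
  have := le_of_mul_le_mul_left (by linarith : (N:ℝ) * |∑ d ∈ Ioc 0 N, ff m d / d| ≤ N * 1) hNr
  exact this

end Pool.Agent.Lib.GMV
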